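import Mathlib
import Pool.Agent.EWD.CAL
import Pool.Agent.EWD.FRM

/-
ARP (helper69): the area inequality. The image of a set of parameters under a pair of Lipschitz
functions is not larger than the integral of the absolute value of the Jacobian.
-/

open MeasureTheory Set Filter Measure Manifold Bundle
open scoped ContDiff Topology ENNReal NNReal

set_option linter.unusedSectionVars false

noncomputable section

namespace Pool.Agent.FPM

open Pool.Agent.EWD Pool.Agent.H74.FAC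

/-- the area inequality: `O0` is a set of parameters of full measure that covers the surface -/
def AreaP {M : Type} [MetricSpace M] {γ : ℝ → M} (C : Calc M γ) : Prop :=
  ∃ O0 : Set Om, MeasurableSet O0 ∧ (∀ x, ∃ o ∈ O0, C.pt o = x) ∧ C.μ O0ᶜ = 0 ∧
    ∀ X Y : M → ℝ, Lip X → Lip Y → ∀ T : Set Om, MeasurableSet T → T ⊆ O0 →
      volume ((fun x => (X x, Y x)) '' (C.pt '' T)) ≤
        ∫⁻ o in T, ENNReal.ofReal |C.wed X Y o| ∂C.μ

private theorem ARP_null {Φ : E2 → E2} {K : ℝ≥0} (hΦ : LipschitzWith K Φ)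
    {S : Set E2} (hS : volume S = 0) : volume (Φ '' S) = 0 := by
  have hfr : (0 : ℝ) ≤ (Module.finrank ℝ E2 : ℝ) := Nat.cast_nonneg _
  have h1 : (μH[(Module.finrank ℝ E2 : ℝ)] : Measure E2) ≪ volume :=
    absolutelyContinuous_isAddHaarMeasure _ _
  have h2 : (volume : Measure E2) ≪ μH[(Module.finrank ℝ E2 : ℝ)] :=
    absolutelyContinuous_isAddHaarMeasure _ _
  apply h2
  have h3 : μH[(Module.finrank ℝ E2 : ℝ)] S = 0 := h1 hS
  have h4 := (hΦ.lipschitzOnWith (s := S)).hausdorffMeasure_image_le hfr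
  rw [h3, mul_zero] at h4
  exact nonpos_iff_eq_zero.1 h4

private theorem ARP_lip2 {U V : E2 → ℝ} {c d : ℝ≥0} (hU : LipschitzWith c U)
    (hV : LipschitzWith d V) : LipschitzWith (c + d) (fun z => (!₂[U z, V z] : E2)) := by
  apply LipschitzWith.of_dist_le_mul
  intro z w
  have h0 := hU.dist_le_mul z w
  have h1 := hV.dist_le_mul z w
  rw [EuclideanSpace.dist_eq, Fin.sum_univ_two]
  have e0 : 0 ≤ dist (U z) (U w) := dist_nonneg
  have e1 : 0 ≤ dist (V z) (V w) := dist_nonneg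
  have h3 : √(dist (U z) (U w) ^ 2 + dist (V z) (V w) ^ 2)
      ≤ dist (U z) (U w) + dist (V z) (V w) := by
    apply Real.sqrt_le_iff.2
    constructor
    · positivity
    · nlinarith [mul_nonneg e0 e1]
  refine le_trans (b := dist (U z) (U w) + dist (V z) (V w)) h3 ?_
  push_cast
  linarith

/-- the area inequality in the plane -/
theorem ARP_plane {U V : E2 → ℝ} {c d : ℝ≥0} (hU : LipschitzWith c U) (hV : LipschitzWith d V)
    {S : Set E2} (hS : MeasurableSet S) :
    volume ((fun z => (!₂[U z, V z] : E2)) '' S) ≤ ∫⁻ z in S, ENNReal.ofReal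
      |fderiv ℝ U z (bv 0) * fderiv ℝ V z (bv 1) - fderiv ℝ U z (bv 1) * fderiv ℝ V z (bv 0)| := by
  set Φ : E2 → E2 := fun z => (!₂[U z, V z] : E2) with hΦ
  set G : Set E2 := {z | DifferentiableAt ℝ U z} ∩ {z | DifferentiableAt ℝ V z} with hG
  have mG : MeasurableSet G :=
    (measurableSet_of_differentiableAt ℝ U).inter (measurableSet_of_differentiableAt ℝ V)
  have hGn : volume Gᶜ = 0 := by
    have h1 : ∀ᵐ z : E2, z ∈ G := by
      filter_upwards [hU.ae_differentiableAt (μ := volume), hV.ae_differentiableAt (μ := volume)]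
        with z h1 h2
      exact ⟨h1, h2⟩
    exact ae_iff.1 h1
  have hder : ∀ z ∈ G, HasFDerivAt Φ (fderiv ℝ Φ z) z ∧ (fderiv ℝ Φ z).det =
      fderiv ℝ U z (bv 0) * fderiv ℝ V z (bv 1) - fderiv ℝ U z (bv 1) * fderiv ℝ V z (bv 0) := by
    intro z hz
    have h3 : DifferentiableAt ℝ Φ z := by
      rw [differentiableAt_euclidean]
      intro i
      fin_cases i
      · exact hz.1
      · exact hz.2
    have h4 : ∀ w : E2, ∀ i : Fin 2, (fderiv ℝ Φ z w) i = fderiv ℝ (fun z => Φ z i) z w := by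
      intro w i
      have h5 := ((EuclideanSpace.proj i : E2 →L[ℝ] ℝ).hasFDerivAt (x := Φ z)).comp z h3.hasFDerivAt
      have h6 : fderiv ℝ (fun z => Φ z i) z
          = ((EuclideanSpace.proj i : E2 →L[ℝ] ℝ)).comp (fderiv ℝ Φ z) := h5.fderiv
      rw [h6]
      rfl
    refine ⟨h3.hasFDerivAt, ?_⟩
    rw [det_E2, h4, h4, h4, h4]
    have e0 : (fun z => Φ z 0) = U := rfl
    have e1 : (fun z => Φ z 1) = V := rfl
    rw [e0, e1]
  have h1 : Φ '' S ⊆ Φ '' (S ∩ G) ∪ Φ '' Gᶜ := by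
    rintro _ ⟨z, hz, rfl⟩
    by_cases h : z ∈ G
    · exact Or.inl ⟨z, ⟨hz, h⟩, rfl⟩
    · exact Or.inr ⟨z, h, rfl⟩
  calc volume (Φ '' S) ≤ volume (Φ '' (S ∩ G)) + volume (Φ '' Gᶜ) :=
        (measure_mono h1).trans (measure_union_le _ _)
    _ = volume (Φ '' (S ∩ G)) := by rw [ARP_null (ARP_lip2 hU hV) hGn, add_zero]
    _ ≤ ∫⁻ z in S ∩ G, ENNReal.ofReal |(fderiv ℝ Φ z).det| :=
        addHaar_image_le_lintegral_abs_det_fderiv volume (hS.inter mG)
          fun z hz => (hder z hz.2).1.hasFDerivWithinAt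
    _ = ∫⁻ z in S ∩ G, ENNReal.ofReal
      |fderiv ℝ U z (bv 0) * fderiv ℝ V z (bv 1) - fderiv ℝ U z (bv 1) * fderiv ℝ V z (bv 0)| :=
        setLIntegral_congr_fun (hS.inter mG) fun z hz => by rw [(hder z hz.2).2]
    _ ≤ _ := lintegral_mono_set inter_subset_left

private theorem ARP_mp : MeasurePreserving (fun p : E2 => ((p 0, p 1) : ℝ × ℝ)) := by
  have h1 : MeasurePreserving (WithLp.ofLp : EuclideanSpace ℝ (Fin 2) → (Fin 2 → ℝ)) :=
    PiLp.volume_preserving_ofLp (Fin 2)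
  exact (volume_preserving_finTwoArrow ℝ).comp h1

private theorem ARP_vol (S : Set (ℝ × ℝ)) :
    volume S = volume ((fun p : E2 => ((p 0, p 1) : ℝ × ℝ)) ⁻¹' S) := by
  have h2 : MeasurePreserving (fun v : ℝ × ℝ => (WithLp.toLp 2 (MeasurableEquiv.finTwoArrow.symm v) : E2))
      volume volume :=
    (PiLp.volume_preserving_toLp (Fin 2)).comp ((volume_preserving_finTwoArrow ℝ).symm _)
  refine le_antisymm ?_ ?_
  · have h3 := h2.measure_preimage_le
      ((fun p : E2 => ((p 0, p 1) : ℝ × ℝ)) ⁻¹' S)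
    refine le_trans (measure_mono fun v hv => ?_) h3
    exact hv
  · exact ARP_mp.measure_preimage_le S

variable {M : Type} [MetricSpace M] [ChartedSpace HP M] [IsManifold (𝓡∂ 2) ∞ M] [CompactSpace M]
  [RiemannianBundle (fun x : M => TangentSpace (𝓡∂ 2) x)]
  [IsContMDiffRiemannianBundle (𝓡∂ 2) ∞ E2 (fun x : M => TangentSpace (𝓡∂ 2) x)]
  [IsRiemannianManifold (𝓡∂ 2) M]

/-- the area inequality on a piece -/
theorem ARP_piece [Nonempty M] (A : Cov M) {X Y : M → ℝ} (hX : Lip X) (hY : Lip Y) (k : Fin A.n)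
    {S : Set E2} (hS : MeasurableSet S) (hSk : S ⊆ im A k) :
    volume ((fun x => (X x, Y x)) '' ((fun z => cpx A ((k : ℕ), z) 0) '' S)) ≤
      ∫⁻ z in S, ENNReal.ofReal |Jc (A.P k).e X Y z| := by
  obtain ⟨L, hL⟩ := hX
  obtain ⟨L', hL'⟩ := hY
  obtain ⟨c, U, hU, hUD⟩ := (A.P k).exists_ext hL
  obtain ⟨d, V, hV, hVD⟩ := (A.P k).exists_ext hL'
  have hD : im A k ⊆ (A.P k).D := by
    rintro z ⟨x, hx, rfl⟩
    exact (A.P k).mem_D_of_V (A.S_sub k hx)
  have h1 : volume ((fun x => (X x, Y x)) '' ((fun z => cpx A ((k : ℕ), z) 0) '' S)) ≤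
      volume ((fun z => (!₂[U z, V z] : E2)) '' S) := by
    rw [ARP_vol]
    refine measure_mono ?_
    intro p hp
    obtain ⟨x, ⟨z, hz, hzx⟩, hxp⟩ := hp
    refine ⟨z, hz, ?_⟩
    have e1 : cpx A ((k : ℕ), z) 0 = ((A.P k).e.extend (𝓡∂ 2)).symm z := cpx_zero A k z
    simp only at hzx hxp
    rw [e1] at hzx
    have hx0 : X x = p 0 := congrArg Prod.fst hxp
    have hx1 : Y x = p 1 := congrArg Prod.snd hxp
    ext i
    fin_cases i
    · change U z = p 0
      rw [hUD z (hD (hSk hz)), hzx, hx0]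
    · change V z = p 1
      rw [hVD z (hD (hSk hz)), hzx, hx1]
  refine h1.trans ((ARP_plane hU hV hS).trans (le_of_eq ?_))
  refine setLIntegral_congr_fun_ae hS ?_
  filter_upwards [im_O A k] with z h2 h3
  have hO := h2 (hSk h3)
  have hevX : (fun y => X (((A.P k).e.extend (𝓡∂ 2)).symm y)) =ᶠ[𝓝 z] U := by
    filter_upwards [(A.P k).O_open.mem_nhds hO] with w hw
    rw [hUD w ((A.P k).O_sub_D hw)]
  have hevY : (fun y => Y (((A.P k).e.extend (𝓡∂ 2)).symm y)) =ᶠ[𝓝 z] V := by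
    filter_upwards [(A.P k).O_open.mem_nhds hO] with w hw
    rw [hVD w ((A.P k).O_sub_D hw)]
  unfold Jc
  rw [hevX.fderiv_eq, hevY.fderiv_eq]

/-- the area inequality on a surface -/
theorem area_p [Nonempty M] (A : Cov M) {φ : S1 → M} (hφ : IsometricFilling φ) :
    AreaP (cal A hφ) := by
  set O0 : Set Om := ⋃ k : Fin A.n, (fun z : E2 => (((k : ℕ), z) : Om)) '' (im A k) with hO0
  have me : ∀ k : Fin A.n, MeasurableEmbedding (fun z : E2 => (((k : ℕ), z) : Om)) := fun k =>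
    measurableEmbedding_prodMk_left (k : ℕ)
  have mO : MeasurableSet O0 := MeasurableSet.iUnion fun k =>
    (me k).measurableSet_image.2 (im_meas A k)
  have hin : ∀ (k : Fin A.n) (z : E2), z ∈ im A k → (((k : ℕ), z) : Om) ∈ O0 := fun k z hz =>
    mem_iUnion.2 ⟨k, z, hz, rfl⟩
  refine ⟨O0, mO, ?_, ?_, ?_⟩
  · intro x
    obtain ⟨k, hk⟩ := A.S_cover x
    refine ⟨((k : ℕ), (A.P k).e.extend (𝓡∂ 2) x), hin k _ ⟨x, hk, rfl⟩, ?_⟩
    change cpx A ((k : ℕ), (A.P k).e.extend (𝓡∂ 2) x) 0 = x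
    rw [cpx_zero, ext_left_inv ((A.P k).V_sub (A.S_sub k hk))]
  · have h1 : ∀ᵐ o ∂(mu A), o ∈ O0 := mu_ae A fun k => Eventually.of_forall fun z hz => hin k z hz
    exact ae_iff.1 h1
  · intro X Y hX hY T hT hTO
    have hpre : ∀ k : Fin A.n, MeasurableSet ((fun z : E2 => (((k : ℕ), z) : Om)) ⁻¹' T) := fun k =>
      (me k).measurable hT
    set Tk : Fin A.n → Set E2 := fun k => im A k ∩ (fun z : E2 => (((k : ℕ), z) : Om)) ⁻¹' T with hTk
    have mTk : ∀ k, MeasurableSet (Tk k) := fun k => (im_meas A k).inter (hpre k)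
    have hsub : (fun x => (X x, Y x)) '' ((cal A hφ).pt '' T) ⊆ ⋃ k : Fin A.n,
        (fun x => (X x, Y x)) '' ((fun z => cpx A ((k : ℕ), z) 0) '' (Tk k)) := by
      rintro _ ⟨_, ⟨o, ho, rfl⟩, rfl⟩
      obtain ⟨k, z, hz, hzo⟩ := mem_iUnion.1 (hTO ho)
      simp only at hzo
      refine mem_iUnion.2 ⟨k, (cal A hφ).pt o, ⟨z, ⟨hz, ?_⟩, ?_⟩, rfl⟩
      · change (((k : ℕ), z) : Om) ∈ T
        rw [hzo]
        exact ho
      · simp only
        rw [hzo]
        rfl
    have hw : AEMeasurable (fun o => ENNReal.ofReal |(cal A hφ).wed X Y o|) (mu A) := by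
      have h1 : AEMeasurable ((cal A hφ).wed X Y) (cal A hφ).μ := by
        unfold Calc.wed
        exact ((mgx_field A hX).mul (mgy_field A hY)).sub ((mgy_field A hX).mul (mgx_field A hY))
      exact (measurable_norm.comp_aemeasurable h1).ennreal_ofReal
    have hint : ∫⁻ o in T, ENNReal.ofReal |(cal A hφ).wed X Y o| ∂(mu A) =
        ∑ k : Fin A.n, ∫⁻ z in Tk k, ENNReal.ofReal |Jc (A.P k).e X Y z| := by
      rw [← lintegral_indicator hT, mu_lint A (hw.indicator hT)]
      refine Finset.sum_congr rfl fun k _ => ?_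
      simp only [hTk]
      rw [Set.inter_comm (im A k), ← Measure.restrict_restrict (hpre k), ← lintegral_indicator (hpre k)]
      refine setLIntegral_congr_fun_ae (im_meas A k) ?_
      filter_upwards [has_cpx A hX k, has_cpx A hY k, ae_lip A hX k] with z h1 h2 h3 hz
      by_cases h4 : (((k : ℕ), z) : Om) ∈ T
      · have h5 : z ∈ (fun z : E2 => (((k : ℕ), z) : Om)) ⁻¹' T := h4
        rw [indicator_of_mem h4, indicator_of_mem h5]
        have he := (A.P k).he
        have hzt : z ∈ ((A.P k).e.extend (𝓡∂ 2)).target := im_sub A k hz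
        have hg0 : 0 < g0 (A.P k).e z := g0_pos he hzt
        have hdg : 0 < dg (A.P k).e z := dg_pos he hzt
        have e1 : (cal A hφ).wed X Y ((k : ℕ), z) = Jc (A.P k).e X Y z / √(dg (A.P k).e z) := by
          have := frame_wedge hg0 hdg (fderiv ℝ (fun y => X (((A.P k).e.extend (𝓡∂ 2)).symm y)) z)
            (fderiv ℝ (fun y => Y (((A.P k).e.extend (𝓡∂ 2)).symm y)) z)
          unfold Calc.wed
          have g1 : (cal A hφ).gx X ((k : ℕ), z) = _ := (h1 hz).1.deriv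
          have g2 : (cal A hφ).gy X ((k : ℕ), z) = _ := (h1 hz).2.deriv
          have g3 : (cal A hφ).gx Y ((k : ℕ), z) = _ := (h2 hz).1.deriv
          have g4 : (cal A hφ).gy Y ((k : ℕ), z) = _ := (h2 hz).2.deriv
          rw [g1, g2, g3, g4]
          exact this
        have hs : 0 < √(dg (A.P k).e z) := Real.sqrt_pos.2 hdg
        rw [e1, abs_div, abs_of_pos hs, ← ENNReal.ofReal_mul hs.le, mul_div_cancel₀ _ hs.ne']
      · have h5 : z ∉ (fun z : E2 => (((k : ℕ), z) : Om)) ⁻¹' T := h4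
        rw [indicator_of_notMem h4, indicator_of_notMem h5, mul_zero]
    change _ ≤ ∫⁻ o in T, ENNReal.ofReal |(cal A hφ).wed X Y o| ∂(mu A)
    rw [hint]
    refine (measure_mono hsub).trans ((measure_iUnion_le _).trans ?_)
    rw [tsum_fintype]
    exact Finset.sum_le_sum fun k _ => ARP_piece A hX hY k (mTk k) inter_subset_left

end Pool.Agent.FPM
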