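import Mathlib
import Pool.Agent.EWD.CAL
import Pool.Agent.EWD.RUL
import Pool.Agent.EWD.C1L
import Pool.Agent.MIR.SLip

open MeasureTheory Set Filter Measure Manifold Bundle
open scoped ContDiff Topology ENNReal NNReal

set_option linter.unusedSectionVars false

noncomputable section

namespace Pool.Agent.FPM

open Pool.Agent.EWD Pool.Agent.H74.FAC

variable {M : Type} [MetricSpace M] [ChartedSpace HP M] [IsManifold (𝓡∂ 2) ∞ M] [CompactSpace M]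
  [RiemannianBundle (fun x : M => TangentSpace (𝓡∂ 2) x)]
  [IsContMDiffRiemannianBundle (𝓡∂ 2) ∞ E2 (fun x : M => TangentSpace (𝓡∂ 2) x)]
  [IsRiemannianManifold (𝓡∂ 2) M]

attribute [local instance] normedAddCommGroupTangentSpaceVectorSpace
attribute [local instance] normedSpaceTangentSpaceVectorSpace

omit [IsManifold (𝓡∂ 2) ∞ M] [CompactSpace M]
  [RiemannianBundle (fun x : M => TangentSpace (𝓡∂ 2) x)]
  [IsContMDiffRiemannianBundle (𝓡∂ 2) ∞ E2 (fun x : M => TangentSpace (𝓡∂ 2) x)]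
  [IsRiemannianManifold (𝓡∂ 2) M] in
/-- the derivative of a function -/
def mfr (f : M → ℝ) (y : M) (v : TangentSpace (𝓡∂ 2) y) : ℝ := mfderiv (𝓡∂ 2) 𝓘(ℝ, ℝ) f y v

/-- the derivative is bounded near a point -/
def SMB (f : M → ℝ) (K : ℝ) (y : M) : Prop :=
  ∀ v : TangentSpace (𝓡∂ 2) y, |mfr f y v| ≤ K * ‖v‖

theorem SMB_local {f : M → ℝ} (hf : ContMDiff (𝓡∂ 2) 𝓘(ℝ, ℝ) ∞ f) (x : M) :
    ∃ K : ℝ, 0 ≤ K ∧ ∀ᶠ y in 𝓝 x, SMB f K y := by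
  set e := chartAt HP x with he'
  have he : e ∈ IsManifold.maximalAtlas (𝓡∂ 2) ∞ M := IsManifold.chart_mem_maximalAtlas x
  obtain ⟨C, hC, h1⟩ := Pool.Agent.MIR.slip_chart x
  have hcd : ContDiffOn ℝ 1 (fun y => f ((e.extend (𝓡∂ 2)).symm y)) (e.extend (𝓡∂ 2)).target :=
    contDiffOn_chart he (hf.of_le (by simp))
  set F : E2 → ℝ := fun y => f ((e.extend (𝓡∂ 2)).symm y) with hF
  set Φ : E2 → ℝ := fun z => ‖fderivWithin ℝ F (e.extend (𝓡∂ 2)).target z‖ with hΦ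
  have hΦc : ContinuousOn Φ (e.extend (𝓡∂ 2)).target :=
    (hcd.continuousOn_fderivWithin (uniqueDiffOn_target e) le_rfl).norm
  have hx : x ∈ (e.extend (𝓡∂ 2)).source := mem_extChartAt_source x
  set z0 := e.extend (𝓡∂ 2) x with hz0
  have hz0t : z0 ∈ (e.extend (𝓡∂ 2)).target := (e.extend (𝓡∂ 2)).map_source hx
  have h2 : ∀ᶠ z in 𝓝[(e.extend (𝓡∂ 2)).target] z0, Φ z < Φ z0 + 1 :=
    (hΦc z0 hz0t).eventually_lt_const (by linarith)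
  have h3 : ∀ᶠ y in 𝓝 x, y ∈ (e.extend (𝓡∂ 2)).source ∧ Φ (e.extend (𝓡∂ 2) y) < Φ z0 + 1 := by
    have h4 : (e.extend (𝓡∂ 2)).source ∈ 𝓝 x := extChartAt_source_mem_nhds x
    have h5 : Tendsto (e.extend (𝓡∂ 2)) (𝓝 x) (𝓝[(e.extend (𝓡∂ 2)).target] z0) := by
      apply tendsto_nhdsWithin_of_tendsto_nhds_of_eventually_within
      · exact continuousAt_extChartAt x
      · filter_upwards [h4] with y hy
        exact (e.extend (𝓡∂ 2)).map_source hy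
    filter_upwards [h4, h5.eventually h2] with y hy1 hy2
    exact ⟨hy1, hy2⟩
  have hΦ0 : 0 ≤ Φ z0 := norm_nonneg _
  refine ⟨(Φ z0 + 1) * C, by positivity, ?_⟩
  filter_upwards [h1, h3] with y hy1 hy2
  obtain ⟨hys, hyΦ⟩ := hy2
  set z := e.extend (𝓡∂ 2) y with hz
  have hzt : z ∈ (e.extend (𝓡∂ 2)).target := (e.extend (𝓡∂ 2)).map_source hys
  have hinv : (e.extend (𝓡∂ 2)).symm z = y := (e.extend (𝓡∂ 2)).left_inv hys
  have hU : UniqueMDiffWithinAt 𝓘(ℝ, E2) (e.extend (𝓡∂ 2)).target z :=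
    (uniqueMDiffOn_iff_uniqueDiffOn.2 (uniqueDiffOn_target e)) z hzt
  have hcomp : mfderivWithin 𝓘(ℝ, E2) 𝓘(ℝ, ℝ) (f ∘ (e.extend (𝓡∂ 2)).symm) (e.extend (𝓡∂ 2)).target z =
      (mfderiv (𝓡∂ 2) 𝓘(ℝ, ℝ) f ((e.extend (𝓡∂ 2)).symm z)).comp
        (mfderivWithin 𝓘(ℝ, E2) (𝓡∂ 2) (e.extend (𝓡∂ 2)).symm (e.extend (𝓡∂ 2)).target z) :=
    mfderiv_comp_mfderivWithin z ((hf.mdifferentiable (by simp)) _)
      (((cmd_symm he) z hzt).mdifferentiableWithinAt (by simp)) hU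
  rw [mfderivWithin_eq_fderivWithin] at hcomp
  have hid : (mfderivWithin 𝓘(ℝ, E2) (𝓡∂ 2) (e.extend (𝓡∂ 2)).symm (range (𝓡∂ 2)) z) ∘L
      (mfderiv (𝓡∂ 2) 𝓘(ℝ, E2) (e.extend (𝓡∂ 2)) ((e.extend (𝓡∂ 2)).symm z)) =
      ContinuousLinearMap.id _ _ :=
    mfderivWithin_extChartAt_symm_comp_mfderiv_extChartAt (I := 𝓡∂ 2) (x := x) (y := z) hzt
  have hw : ∀ w : E2, (mfderivWithin 𝓘(ℝ, E2) (𝓡∂ 2) (e.extend (𝓡∂ 2)).symm (range (𝓡∂ 2)) z) w =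
      (mfderivWithin 𝓘(ℝ, E2) (𝓡∂ 2) (e.extend (𝓡∂ 2)).symm (e.extend (𝓡∂ 2)).target z) w :=
    fun w => dv_eq he hzt w
  have key : SMB f ((Φ z0 + 1) * C) ((e.extend (𝓡∂ 2)).symm z) := by
    intro v
    have h6 : mfr f ((e.extend (𝓡∂ 2)).symm z) v =
        fderivWithin ℝ F (e.extend (𝓡∂ 2)).target z
          (mfderiv (𝓡∂ 2) 𝓘(ℝ, E2) (e.extend (𝓡∂ 2)) ((e.extend (𝓡∂ 2)).symm z) v) := by
      have h7 := congrArg (fun L => L v) hid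
      have h8 : v = (mfderivWithin 𝓘(ℝ, E2) (𝓡∂ 2) (e.extend (𝓡∂ 2)).symm (e.extend (𝓡∂ 2)).target z)
          (mfderiv (𝓡∂ 2) 𝓘(ℝ, E2) (e.extend (𝓡∂ 2)) ((e.extend (𝓡∂ 2)).symm z) v) := by
        exact h7.symm.trans (hw _)
      conv_lhs => rw [h8]
      exact (congrArg (fun L => L (mfderiv (𝓡∂ 2) 𝓘(ℝ, E2) (e.extend (𝓡∂ 2))
        ((e.extend (𝓡∂ 2)).symm z) v)) hcomp).symm
    have h9 : ‖(mfderiv (𝓡∂ 2) 𝓘(ℝ, E2) (e.extend (𝓡∂ 2)) ((e.extend (𝓡∂ 2)).symm z) v : E2)‖ ≤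
        C * ‖v‖ := by
      have h10 : ∀ y' : M, y' = y → ∀ v : TangentSpace (𝓡∂ 2) y',
          ‖(mfderiv (𝓡∂ 2) 𝓘(ℝ, E2) (extChartAt (𝓡∂ 2) x) y' v : E2)‖ ≤ C * ‖v‖ := by
        rintro y' rfl
        exact hy1
      exact h10 _ hinv v
    rw [h6, ← Real.norm_eq_abs]
    refine (ContinuousLinearMap.le_opNorm _ _).trans ?_
    calc _ ≤ (Φ z0 + 1) * (C * ‖v‖) := mul_le_mul hyΦ.le h9 (norm_nonneg _) (by positivity)
      _ = _ := by ring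
  rw [hinv] at key
  exact key

theorem smooth_lip_real {f : M → ℝ} (hf : ContMDiff (𝓡∂ 2) 𝓘(ℝ, ℝ) ∞ f) : Lip f := by
  have hloc := fun x : M => SMB_local hf x
  choose K hK0 hK using hloc
  obtain ⟨t, ht⟩ := CompactSpace.elim_nhds_subcover (fun x => {y | SMB f (K x) y}) hK
  set K' : ℝ := ∑ x ∈ t, K x with hK'
  have hK'0 : 0 ≤ K' := Finset.sum_nonneg fun x _ => hK0 x
  have hall : ∀ y, SMB f K' y := by
    intro y
    have hy : y ∈ ⋃ x ∈ t, {y | SMB f (K x) y} := by rw [ht]; trivial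
    simp only [mem_iUnion] at hy
    obtain ⟨x, hx, hxy⟩ := hy
    intro v
    refine (hxy v).trans ?_
    apply mul_le_mul_of_nonneg_right _ (norm_nonneg _)
    exact Finset.single_le_sum (fun x _ => hK0 x) hx
  obtain ⟨k, hk⟩ : ∃ k : ℝ≥0, (k : ℝ) = K' := ⟨⟨K', hK'0⟩, rfl⟩
  refine ⟨k, fun x y => ?_⟩
  have hout := IsRiemannianManifold.out (I := 𝓡∂ 2) (M := M)
  have hlen : ∀ r : ℝ≥0∞, edist x y < r → edist (f x) (f y) ≤ (k : ℝ≥0∞) * r := by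
    intro r hr
    rw [hout] at hr
    obtain ⟨γ, h0, h1, hγ, hγr⟩ := exists_lt_of_riemannianEDist_lt hr
    have hs : ContMDiffOn 𝓘(ℝ, ℝ) 𝓘(ℝ, ℝ) 1 (f ∘ γ) (Icc 0 1) :=
      (hf.of_le (by simp)).comp_contMDiffOn hγ
    have hf' : ContDiffOn ℝ 1 (f ∘ γ) (Icc 0 1) := contMDiffOn_iff_contDiffOn.1 hs
    have h01 : edist (f x) (f y) = ‖(f ∘ γ) 1 - (f ∘ γ) 0‖ₑ := by
      rw [edist_comm, edist_eq_enorm_sub, ← h0, ← h1]
      rfl
    have h2 := enorm_sub_le_lintegral_derivWithin_Icc_of_contDiffOn_Icc hf' zero_le_one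
    have h3 : ∫⁻ t in Icc (0 : ℝ) 1, ‖derivWithin (f ∘ γ) (Icc 0 1) t‖ₑ
        ≤ (k : ℝ≥0∞) * pathELength (𝓡∂ 2) γ 0 1 := by
      rw [pathELength_eq_lintegral_mfderivWithin_Icc, ← lintegral_const_mul' _ _ ENNReal.coe_ne_top]
      apply setLIntegral_mono' measurableSet_Icc (fun t ht ↦ ?_)
      have hud : UniqueMDiffWithinAt 𝓘(ℝ, ℝ) (Icc (0 : ℝ) 1) t := by
        rw [uniqueMDiffWithinAt_iff_uniqueDiffWithinAt]
        exact uniqueDiffOn_Icc zero_lt_one t ht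
      have h4 : mfderivWithin 𝓘(ℝ, ℝ) 𝓘(ℝ, ℝ) (f ∘ γ) (Icc 0 1) t =
          (mfderiv (𝓡∂ 2) 𝓘(ℝ, ℝ) f (γ t)).comp (mfderivWithin 𝓘(ℝ, ℝ) (𝓡∂ 2) γ (Icc 0 1) t) :=
        mfderiv_comp_mfderivWithin t ((hf.mdifferentiable (by simp)) _)
          (hγ.mdifferentiableOn one_ne_zero t ht) hud
      have h5 : (derivWithin (f ∘ γ) (Icc 0 1) t : ℝ) =
          mfr f (γ t) (mfderivWithin 𝓘(ℝ, ℝ) (𝓡∂ 2) γ (Icc 0 1) t (1 : ℝ)) := by
        rw [← fderivWithin_derivWithin, ← mfderivWithin_eq_fderivWithin, h4]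
        rfl
      have h6 := hall (γ t) (mfderivWithin 𝓘(ℝ, ℝ) (𝓡∂ 2) γ (Icc 0 1) t (1 : ℝ))
      rw [← h5] at h6
      rw [← ofReal_norm, ← ofReal_norm, Real.norm_eq_abs]
      refine (ENNReal.ofReal_le_ofReal h6).trans (le_of_eq ?_)
      rw [ENNReal.ofReal_mul hK'0]
      congr 1
      rw [← hk, ENNReal.ofReal_coe_nnreal]
    rw [h01]
    refine h2.trans (h3.trans ?_)
    gcongr
  have hneb : (𝓝[>] (edist x y)).NeBot := nhdsGT_neBot_of_exists_gt ⟨⊤, edist_lt_top x y⟩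
  have ht : Tendsto (fun r : ℝ≥0∞ => (k : ℝ≥0∞) * r) (𝓝[>] (edist x y))
      (𝓝 ((k : ℝ≥0∞) * edist x y)) :=
    ((ENNReal.continuous_const_mul ENNReal.coe_ne_top).tendsto _).mono_left nhdsWithin_le_nhds
  exact ge_of_tendsto ht (eventually_nhdsWithin_of_forall fun r hr => hlen r hr)

/-- chain rule for a smooth map in a chart -/
theorem mfderiv_chart {V : Type} [NormedAddCommGroup V] [NormedSpace ℝ V]
    {e : OpenPartialHomeomorph M HP} (he : e ∈ IsManifold.maximalAtlas (𝓡∂ 2) ∞ M) {X : M → V}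
    (hX : ContMDiff (𝓡∂ 2) 𝓘(ℝ, V) ∞ X) {z : E2} (hz : z ∈ (e.extend (𝓡∂ 2)).target)
    (h0 : 0 < z 0) (v : E2) :
    (fderiv ℝ (fun y => X ((e.extend (𝓡∂ 2)).symm y)) z v : V)
      = (mfderiv (𝓡∂ 2) 𝓘(ℝ, V) X ((e.extend (𝓡∂ 2)).symm z) (dv e z v) : V) := by
  have hU : UniqueMDiffWithinAt 𝓘(ℝ, E2) (e.extend (𝓡∂ 2)).target z :=
    (uniqueMDiffOn_iff_uniqueDiffOn.2 (uniqueDiffOn_target e)) z hz
  have hcomp : mfderivWithin 𝓘(ℝ, E2) 𝓘(ℝ, V) (X ∘ (e.extend (𝓡∂ 2)).symm) (e.extend (𝓡∂ 2)).target z =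
      (mfderiv (𝓡∂ 2) 𝓘(ℝ, V) X ((e.extend (𝓡∂ 2)).symm z)).comp
        (mfderivWithin 𝓘(ℝ, E2) (𝓡∂ 2) (e.extend (𝓡∂ 2)).symm (e.extend (𝓡∂ 2)).target z) :=
    mfderiv_comp_mfderivWithin z ((hX.mdifferentiable (by simp)) _)
      (((cmd_symm he) z hz).mdifferentiableWithinAt (by simp)) hU
  rw [mfderivWithin_eq_fderivWithin] at hcomp
  have h1 : fderivWithin ℝ (X ∘ (e.extend (𝓡∂ 2)).symm) (e.extend (𝓡∂ 2)).target z
      = fderiv ℝ (X ∘ (e.extend (𝓡∂ 2)).symm) z :=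
    fderivWithin_of_mem_nhds (target_nhds hz h0)
  have h2 := congrArg (fun L => L v) hcomp
  have h3 : fderiv ℝ (fun y => X ((e.extend (𝓡∂ 2)).symm y)) z v
      = fderivWithin ℝ (X ∘ (e.extend (𝓡∂ 2)).symm) (e.extend (𝓡∂ 2)).target z v := by
    rw [h1]
    rfl
  rw [h3, dv_eq he hz v]
  exact h2

/-- finitely many Lipschitz functions whose differentials span at almost every point -/
theorem exists_span [Nonempty M] (A : Cov M) : ∃ (N : ℕ) (h : Fin N → M → ℝ), (∀ i, Lip (h i)) ∧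
    ∀ᵐ o ∂(mu A), ∃ i j,
      deriv (fun s => h i (cpx A o s)) 0 * deriv (fun s => h j (cpy A o s)) 0
        - deriv (fun s => h i (cpy A o s)) 0 * deriv (fun s => h j (cpx A o s)) 0 ≠ 0 := by
  obtain ⟨N, X, hX, -, hinj⟩ := exists_embedding_euclidean_of_compact (I := 𝓡∂ 2) (M := M)
  have hc : ∀ i, ContMDiff (𝓡∂ 2) 𝓘(ℝ, ℝ) ∞ (fun x => X x i) := by
    intro i
    have h1 : ContMDiff 𝓘(ℝ, EuclideanSpace ℝ (Fin N)) 𝓘(ℝ, ℝ) ∞
        (fun v : EuclideanSpace ℝ (Fin N) => v i) :=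
      (EuclideanSpace.proj (𝕜 := ℝ) i : EuclideanSpace ℝ (Fin N) →L[ℝ] ℝ).contDiff.contMDiff
    exact h1.comp hX
  have hl : ∀ i, Lip (fun x => X x i) := fun i => smooth_lip_real (hc i)
  refine ⟨N, fun i x => X x i, hl, mu_ae A fun k => ?_⟩
  have h1 : ∀ᵐ z : E2, ∀ i, z ∈ im A k →
      HasDerivAt (fun s => X (cpx A ((k : ℕ), z) s) i) (pd (A.P k).e (fun x => X x i) z (fr1 (A.P k).e z)) 0 ∧
      HasDerivAt (fun s => X (cpy A ((k : ℕ), z) s) i) (pd (A.P k).e (fun x => X x i) z (fr2 (A.P k).e z)) 0 :=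
    ae_all_iff.2 fun i => has_cpx A (hl i) k
  filter_upwards [h1, im_O A k] with z h2 h3 hz
  have he := (A.P k).he
  have hzt : z ∈ ((A.P k).e.extend (𝓡∂ 2)).target := im_sub A k hz
  have hz0 : 0 < z 0 := (h3 hz).2
  have hg0 : 0 < g0 (A.P k).e z := g0_pos he hzt
  have hdg : 0 < dg (A.P k).e z := dg_pos he hzt
  set D := fderiv ℝ (fun y => X (((A.P k).e.extend (𝓡∂ 2)).symm y)) z with hD
  have hdiff : DifferentiableAt ℝ (fun y => X (((A.P k).e.extend (𝓡∂ 2)).symm y)) z :=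
    (contDiffAt_chart he (hX.of_le (by simp)) hzt hz0).differentiableAt (by simp)
  have hpd : ∀ i v, pd (A.P k).e (fun x => X x i) z v = D v i := by
    intro i v
    unfold pd
    have h4 : HasFDerivAt (fun y => X (((A.P k).e.extend (𝓡∂ 2)).symm y) i)
        ((EuclideanSpace.proj (𝕜 := ℝ) i : EuclideanSpace ℝ (Fin N) →L[ℝ] ℝ).comp D) z :=
      ((EuclideanSpace.proj (𝕜 := ℝ) i : EuclideanSpace ℝ (Fin N) →L[ℝ] ℝ).hasFDerivAt).comp z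
        hdiff.hasFDerivAt
    rw [h4.fderiv]
    rfl
  by_contra hcon
  push Not at hcon
  have h5 : ∀ i j, D (fr1 (A.P k).e z) i * D (fr2 (A.P k).e z) j
      - D (fr2 (A.P k).e z) i * D (fr1 (A.P k).e z) j = 0 := by
    intro i j
    have h6 := hcon i j
    rw [(h2 i hz).1.deriv, (h2 i hz).2.deriv, (h2 j hz).1.deriv, (h2 j hz).2.deriv, hpd, hpd, hpd,
      hpd] at h6
    exact h6
  have h7 : ∃ α β : ℝ, α ^ 2 + β ^ 2 ≠ 0 ∧ ∀ i, α * D (fr1 (A.P k).e z) i + β * D (fr2 (A.P k).e z) i = 0 := by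
    by_cases hb : ∀ j, D (fr2 (A.P k).e z) j = 0
    · exact ⟨0, 1, by norm_num, fun i => by rw [hb i]; ring⟩
    · push Not at hb
      obtain ⟨j, hj⟩ := hb
      refine ⟨D (fr2 (A.P k).e z) j, - D (fr1 (A.P k).e z) j, by positivity, fun i => ?_⟩
      have := h5 i j
      linarith
  obtain ⟨α, β, hab, h8⟩ := h7
  have h9 : D (α • fr1 (A.P k).e z + β • fr2 (A.P k).e z) = 0 := by
    rw [map_add, map_smul, map_smul]
    ext i
    exact h8 i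
  rw [hD, mfderiv_chart he hX hzt hz0] at h9
  have h10 : dv (A.P k).e z (α • fr1 (A.P k).e z + β • fr2 (A.P k).e z) = 0 := by
    apply hinj _
    refine Eq.trans h9 ?_
    exact (map_zero _).symm
  have h11 := frame_norm hg0 hdg α β
  rw [h10, norm_zero] at h11
  apply hab
  rw [← h11]
  norm_num

end Pool.Agent.FPM
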