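import Mathlib
import Pool.Agent.EWD.CAL

/-
INJ (helper63): the parameter of a point: there is a measurable map `q : M → Om` with `q (pt o) = o` for
almost every `o`; a function on `Om` that is orthogonal to all Lipschitz functions of the point vanishes.
-/

open MeasureTheory Set Filter Measure Manifold Bundle
open scoped ContDiff Topology ENNReal NNReal

set_option linter.unusedSectionVars false

noncomputable section

namespace Pool.Agent.FPM

open Pool.Agent.EWD Pool.Agent.H74.FAC

theorem inj_of_ret {M : Type} [MetricSpace M] [MeasurableSpace M] [BorelSpace M] {μ : Measure Om}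
    {p : Om → M} (hp : AEMeasurable p μ) {q : M → Om}
    (hq : Measurable q) (h : ∀ᵐ o ∂μ, q (p o) = o) {f : Om → ℝ} (hf : Integrable f μ)
    (h0 : ∀ ψ : M → ℝ, Lip ψ → ∫ o, ψ (p o) * f o ∂μ = 0) : ∀ᵐ o ∂μ, f o = 0 := by
  obtain ⟨f', hf'm, hff'⟩ := hf.1
  have hfg : ∀ᵐ o ∂μ, f' (q (p o)) = f o := by
    filter_upwards [h, hff'] with o h1 h2
    rw [h1, h2]
  have hgm : StronglyMeasurable (fun x => f' (q x)) := hf'm.comp_measurable hq
  have hg : Integrable (fun x => f' (q x)) (μ.map p) := by
    rw [integrable_map_measure hgm.aestronglyMeasurable hp]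
    refine hf.congr ?_
    filter_upwards [hfg] with o h1
    exact h1.symm
  have hcl : ∀ s : Set M, IsClosed s → ∫ x in s, f' (q x) ∂(μ.map p) = 0 := by
    intro s hs
    have hδ : ∀ n : ℕ, (0 : ℝ) < 1 / (n + 1) := fun n => by positivity
    have hlim : Tendsto (fun n : ℕ => (1 : ℝ) / (n + 1)) atTop (𝓝 0) :=
      tendsto_one_div_add_atTop_nhds_zero_nat
    have hpt := thickenedIndicator_tendsto_indicator_closure hδ hlim s
    rw [hs.closure_eq] at hpt
    have h1 : Tendsto (fun n : ℕ => ∫ x, (thickenedIndicator (hδ n) s x : ℝ) * f' (q x) ∂(μ.map p))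
        atTop (𝓝 (∫ x, s.indicator (fun x => f' (q x)) x ∂(μ.map p))) := by
      refine tendsto_integral_of_dominated_convergence (fun x => |f' (q x)|) ?_ hg.abs ?_ ?_
      · intro n
        have hc : Continuous (fun x => (thickenedIndicator (hδ n) s x : ℝ)) :=
          NNReal.continuous_coe.comp (thickenedIndicator (hδ n) s).continuous
        exact (hc.measurable.stronglyMeasurable.mul hgm).aestronglyMeasurable
      · intro n
        refine Filter.Eventually.of_forall fun x => ?_
        rw [Real.norm_eq_abs, abs_mul]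
        have h2 : |(thickenedIndicator (hδ n) s x : ℝ)| ≤ 1 := by
          rw [NNReal.abs_eq]
          exact_mod_cast thickenedIndicator_le_one (hδ n) s x
        calc _ ≤ 1 * |f' (q x)| := mul_le_mul_of_nonneg_right h2 (abs_nonneg _)
          _ = _ := one_mul _
      · refine Filter.Eventually.of_forall fun x => ?_
        have h3 := (tendsto_pi_nhds.1 hpt) x
        have h4 : Tendsto (fun n : ℕ => (thickenedIndicator (hδ n) s x : ℝ)) atTop
            (𝓝 ((s.indicator (fun _ => (1 : ℝ≥0)) x : ℝ≥0) : ℝ)) :=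
          (NNReal.continuous_coe.tendsto _).comp h3
        have h5 := h4.mul_const (f' (q x))
        refine h5.congr' (Filter.Eventually.of_forall fun n => rfl) |>.trans (le_of_eq ?_)
        congr 1
        by_cases hx : x ∈ s
        · rw [indicator_of_mem hx, indicator_of_mem hx]
          simp
        · rw [indicator_of_notMem hx, indicator_of_notMem hx]
          simp
    have h6 : ∀ n : ℕ, ∫ x, (thickenedIndicator (hδ n) s x : ℝ) * f' (q x) ∂(μ.map p) = 0 := by
      intro n
      have hl : Lip (fun x => (thickenedIndicator (hδ n) s x : ℝ)) :=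
        ⟨_, lipschitzWith_thickenedIndicator (hδ n) s⟩
      have hc : Continuous (fun x => (thickenedIndicator (hδ n) s x : ℝ)) :=
        NNReal.continuous_coe.comp (thickenedIndicator (hδ n) s).continuous
      have h8 : AEStronglyMeasurable (fun x => (thickenedIndicator (hδ n) s x : ℝ) * f' (q x))
          (μ.map p) := (hc.measurable.stronglyMeasurable.mul hgm).aestronglyMeasurable
      rw [integral_map hp h8]
      rw [← h0 _ hl]
      refine integral_congr_ae ?_
      filter_upwards [hfg] with o h7
      rw [h7]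
    rw [← integral_indicator hs.measurableSet]
    refine tendsto_nhds_unique h1 ?_
    simp only [h6]
    exact tendsto_const_nhds
  have hz := ae_eq_zero_of_forall_setIntegral_isClosed_eq_zero hg hcl
  have hz' := ae_of_ae_map hp hz
  filter_upwards [hz', hfg] with o h1 h2
  rw [← h2]
  exact h1

variable {M : Type} [MetricSpace M] [ChartedSpace HP M] [IsManifold (𝓡∂ 2) ∞ M] [CompactSpace M]
  [RiemannianBundle (fun x : M => TangentSpace (𝓡∂ 2) x)]
  [IsContMDiffRiemannianBundle (𝓡∂ 2) ∞ E2 (fun x : M => TangentSpace (𝓡∂ 2) x)]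
  [IsRiemannianManifold (𝓡∂ 2) M]

theorem aemeas_pt [Nonempty M] [MeasurableSpace M] [BorelSpace M] (A : Cov M) :
    AEMeasurable (fun o => cpx A o 0) (mu A) := by
  unfold mu
  rw [← Measure.sum_fintype, aemeasurable_sum_measure_iff]
  intro k
  rw [(measurableEmbedding_prodMk_left (k : ℕ)).aemeasurable_map_iff]
  have h1 : AEMeasurable (((A.P k).e.extend (𝓡∂ 2)).symm) (volume.restrict (im A k)) :=
    (((A.P k).e.continuousOn_extend_symm (I := 𝓡∂ 2)).mono (im_sub A k)).aemeasurable (im_meas A k)
  have h2 : ((fun o => cpx A o 0) ∘ fun z : E2 => (((k : ℕ), z) : Om))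
      = ((A.P k).e.extend (𝓡∂ 2)).symm := by
    funext z
    exact cpx_zero A k z
  rw [h2]
  exact h1.mono_ac (withDensity_absolutelyContinuous _ _)

/-- the parameter is a measurable function of the point -/
theorem exists_ret [Nonempty M] [MeasurableSpace M] [BorelSpace M] (A : Cov M) :
    ∃ q : M → Om, Measurable q ∧ ∀ᵐ o ∂(mu A), q (cpx A o 0) = o := by
  classical
  choose κ hκ using A.S_cover
  have huniq : ∀ {x : M} {k : Fin A.n}, x ∈ A.S k → κ x = k := by
    intro x k hx
    by_contra hne
    exact Set.disjoint_left.1 (A.S_disj hne) (hκ x) hx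
  refine ⟨fun x => (((κ x : Fin A.n) : ℕ), (A.P (κ x)).e.extend (𝓡∂ 2) x), ?_, ?_⟩
  · intro E hE
    have hSm : ∀ k, MeasurableSet (A.S k) := by
      intro k
      have h1 := A.S_meas k
      rwa [← BorelSpace.measurable_eq (α := M)] at h1
    have h1 : (fun x => ((((κ x : Fin A.n) : ℕ), (A.P (κ x)).e.extend (𝓡∂ 2) x) : Om)) ⁻¹' E
        = ⋃ k : Fin A.n, (Subtype.val : A.S k → M) ''
          ((fun x : A.S k => (((k : ℕ), (A.P k).e.extend (𝓡∂ 2) x) : Om)) ⁻¹' E) := by
      ext x
      simp only [mem_preimage, mem_iUnion, mem_image]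
      constructor
      · intro hx
        exact ⟨κ x, ⟨x, hκ x⟩, hx, rfl⟩
      · rintro ⟨k, ⟨y, hy⟩, hy', rfl⟩
        have h2 := huniq hy
        simp only
        rw [h2]
        exact hy'
    rw [h1]
    refine MeasurableSet.iUnion fun k => ?_
    refine MeasurableSet.subtype_image (hSm k) ?_
    have hc : Continuous (fun x : A.S k => (((k : ℕ), (A.P k).e.extend (𝓡∂ 2) x) : Om)) := by
      have h3 : ContinuousOn ((A.P k).e.extend (𝓡∂ 2)) (A.S k) := by
        refine ((A.P k).e.continuousOn_extend (I := 𝓡∂ 2)).mono ?_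
        rw [OpenPartialHomeomorph.extend_source]
        exact (A.S_sub k).trans (A.P k).V_sub
      exact continuous_const.prodMk (continuousOn_iff_continuous_domRestrict.1 h3)
    exact hc.measurable hE
  · refine mu_ae A fun k => Filter.Eventually.of_forall fun z hz => ?_
    rw [cpx_zero]
    obtain ⟨x, hx, rfl⟩ := hz
    have h1 : ((A.P k).e.extend (𝓡∂ 2)).symm ((A.P k).e.extend (𝓡∂ 2) x) = x :=
      ext_left_inv ((A.P k).V_sub (A.S_sub k hx))
    rw [h1]
    have h2 := huniq hx
    simp only
    rw [h2]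

theorem inj_field [Nonempty M] (A : Cov M) (f : Om → ℝ) (hf : Integrable f (mu A))
    (h0 : ∀ ψ : M → ℝ, Lip ψ → ∫ o, ψ (cpx A o 0) * f o ∂(mu A) = 0) :
    ∀ᵐ o ∂(mu A), f o = 0 := by
  let _ : MeasurableSpace M := borel M
  have _ : BorelSpace M := ⟨rfl⟩
  obtain ⟨q, hq, hqp⟩ := exists_ret A
  exact inj_of_ret (aemeas_pt A) hq hqp hf h0

end Pool.Agent.FPM
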