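import Mathlib
import Pool.Agent.EWD.CAL
import Pool.Agent.EWD.RUL
import Pool.Agent.FPM.C1R
import Pool.Agent.FPM.INJ

/-
CRL (helper63): the regular Dirichlet calculus `CalcR`: `Calc` together with a curve `pc o a b` through
the point `pt o` in the direction `a e₁ + b e₂` for all `a`, `b`, finitely many Lipschitz functions whose
differentials span almost everywhere, and the fact that the parameter is determined by the point.
`calR A hφ` is the instance for a Riemannian filling, `(calR A hφ).toCalc = cal A hφ` by `rfl`.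
-/

open MeasureTheory Set Filter Measure Manifold Bundle
open scoped ContDiff Topology ENNReal NNReal

set_option linter.unusedSectionVars false

noncomputable section

namespace Pool.Agent.FPM

open Pool.Agent.EWD Pool.Agent.H74.FAC

/-- a Dirichlet calculus with curves in all directions -/
structure CalcR (M : Type) [MetricSpace M] (γ : ℝ → M) extends Calc M γ where
  pc : Om → ℝ → ℝ → ℝ → M
  pc0 : ∀ o a b, pc o a b 0 = px o 0
  der : ∀ u : M → ℝ, Lip u → ∀ᵐ o ∂μ, ∀ a b : ℝ, HasDerivAt (fun s => u (pc o a b s))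
    (a * deriv (fun s => u (px o s)) 0 + b * deriv (fun s => u (py o s)) 0) 0
  span : ∃ (N : ℕ) (h : Fin N → M → ℝ), (∀ i, Lip (h i)) ∧ ∀ᵐ o ∂μ, ∃ i j,
    deriv (fun s => h i (px o s)) 0 * deriv (fun s => h j (py o s)) 0
      - deriv (fun s => h i (py o s)) 0 * deriv (fun s => h j (px o s)) 0 ≠ 0
  inj : ∀ f : Om → ℝ, Integrable f μ → (∀ ψ : M → ℝ, Lip ψ → ∫ o, ψ (px o 0) * f o ∂μ = 0) →
    ∀ᵐ o ∂μ, f o = 0

section inst

variable {M : Type} [MetricSpace M] [ChartedSpace HP M] [IsManifold (𝓡∂ 2) ∞ M] [CompactSpace M]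
  [RiemannianBundle (fun x : M => TangentSpace (𝓡∂ 2) x)]
  [IsContMDiffRiemannianBundle (𝓡∂ 2) ∞ E2 (fun x : M => TangentSpace (𝓡∂ 2) x)]
  [IsRiemannianManifold (𝓡∂ 2) M]

/-- the coordinate line in the direction `a fr1 + b fr2` -/
def cpc [Nonempty M] (A : Cov M) (o : Om) (a b s : ℝ) : M :=
  if h : o.1 < A.n then
    ((A.P ⟨o.1, h⟩).e.extend (𝓡∂ 2)).symm
      (o.2 + s • (a • fr1 (A.P ⟨o.1, h⟩).e o.2 + b • fr2 (A.P ⟨o.1, h⟩).e o.2))
  else Classical.arbitrary M

private theorem CRL_cpc [Nonempty M] (A : Cov M) (k : Fin A.n) (z : E2) (a b s : ℝ) :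
    cpc A ((k : ℕ), z) a b s
      = ((A.P k).e.extend (𝓡∂ 2)).symm (z + s • (a • fr1 (A.P k).e z + b • fr2 (A.P k).e z)) := by
  unfold cpc
  rw [dif_pos k.2]

theorem cpc_zero [Nonempty M] (A : Cov M) (o : Om) (a b : ℝ) : cpc A o a b 0 = cpx A o 0 := by
  unfold cpc cpx
  split_ifs with h
  · rw [zero_smul, zero_smul]
  · rfl

private theorem CRL_line {F : E2 → ℝ} {z : E2} (hF : DifferentiableAt ℝ F z) (v : E2) :
    HasDerivAt (fun s : ℝ => F (z + s • v)) (fderiv ℝ F z v) 0 := by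
  have hl : HasDerivAt (fun s : ℝ => z + s • v) v 0 := by
    simpa using ((hasDerivAt_id (0 : ℝ)).smul_const v).const_add z
  have h0 : z + (0 : ℝ) • v = z := by rw [zero_smul, add_zero]
  have h1 : HasFDerivAt F (fderiv ℝ F z) (z + (0 : ℝ) • v) := by
    rw [h0]
    exact hF.hasFDerivAt
  exact h1.comp_hasDerivAt (0 : ℝ) hl

theorem cpc_der [Nonempty M] (A : Cov M) {u : M → ℝ} (hu : Lip u) : ∀ᵐ o ∂(mu A), ∀ a b : ℝ,
    HasDerivAt (fun s => u (cpc A o a b s))
      (a * deriv (fun s => u (cpx A o s)) 0 + b * deriv (fun s => u (cpy A o s)) 0) 0 := by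
  refine mu_ae A fun k => ?_
  filter_upwards [has_cpx A hu k, ae_lip A hu k] with z h1 h2 hz a b
  obtain ⟨hx, hy⟩ := h1 hz
  obtain ⟨-, hd⟩ := h2 hz
  rw [hx.deriv, hy.deriv]
  simp only [CRL_cpc]
  have h3 := CRL_line hd (a • fr1 (A.P k).e z + b • fr2 (A.P k).e z)
  have h4 : fderiv ℝ (fun y => u (((A.P k).e.extend (𝓡∂ 2)).symm y)) z
      (a • fr1 (A.P k).e z + b • fr2 (A.P k).e z)
      = a * pd (A.P k).e u z (fr1 (A.P k).e z) + b * pd (A.P k).e u z (fr2 (A.P k).e z) := by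
    unfold pd
    rw [map_add, map_smul, map_smul, smul_eq_mul, smul_eq_mul]
  rw [h4] at h3
  exact h3

/-- the regular Dirichlet calculus of a filling -/
def calR [Nonempty M] (A : Cov M) {φ : S1 → M} (hφ : IsometricFilling φ) : CalcR M (gam φ) where
  toCalc := cal A hφ
  pc := cpc A
  pc0 := cpc_zero A
  der := fun _ hu => cpc_der A hu
  span := exists_span A
  inj := fun f hf h0 => inj_field A f hf h0

theorem calR_toCalc [Nonempty M] (A : Cov M) {φ : S1 → M} (hφ : IsometricFilling φ) :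
    (calR A hφ).toCalc = cal A hφ := rfl

end inst

end Pool.Agent.FPM
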