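import Mathlib
import Pool.Agent.EWD.Defs

/-
NMD (helper63): measurable change of frame `Fr`, the class `LL` of admissible functions, near minimality
`NM`.  For a frame change `A` the new orthonormal frame is `A (e₁, e₂)`, the new gradient of `u` is
`A ∇u`, with square of the norm `A.n2 (gx u) (gy u)`, and the new area measure is `(1 / det A) μ`.
-/

open MeasureTheory Set Filter Topology
open scoped ENNReal NNReal

noncomputable section

namespace Pool.Agent.FPM

open Pool.Agent.EWD

/-- a bounded measurable change of frame with determinant bounded below -/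
structure Fr where
  a : Om → ℝ
  b : Om → ℝ
  c : Om → ℝ
  d : Om → ℝ
  ma : Measurable a
  mb : Measurable b
  mc : Measurable c
  md : Measurable d
  K : ℝ
  κ : ℝ
  ba : ∀ o, |a o| ≤ K
  bb : ∀ o, |b o| ≤ K
  bc : ∀ o, |c o| ≤ K
  bd : ∀ o, |d o| ≤ K
  κ0 : 0 < κ
  dt : ∀ o, κ ≤ a o * d o - b o * c o

namespace Fr

/-- the determinant -/
def det (A : Fr) (o : Om) : ℝ := A.a o * A.d o - A.b o * A.c o

/-- square of the norm of the new gradient, if `(p, q)` is the old gradient -/
def n2 (A : Fr) (p q : ℝ) (o : Om) : ℝ := (A.a o * p + A.b o * q) ^ 2 + (A.c o * p + A.d o * q) ^ 2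

theorem det_pos (A : Fr) (o : Om) : 0 < A.det o := A.κ0.trans_le (A.dt o)

/-- the identity -/
def one : Fr where
  a := fun _ => 1
  b := fun _ => 0
  c := fun _ => 0
  d := fun _ => 1
  ma := measurable_const
  mb := measurable_const
  mc := measurable_const
  md := measurable_const
  K := 1
  κ := 1
  ba := fun _ => by simp
  bb := fun _ => by simp
  bc := fun _ => by simp
  bd := fun _ => by simp
  κ0 := one_pos
  dt := fun _ => by norm_num

end Fr

variable {M : Type} [MetricSpace M] {γ : ℝ → M}

/-- the frame change is the identity near the curve `γ` -/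
def NearC (C : Calc M γ) (A : Fr) : Prop := ∃ r : ℝ, 0 < r ∧ ∀ᵐ o ∂C.μ,
  Metric.infDist (C.pt o) (range γ) < r → A.a o = 1 ∧ A.b o = 0 ∧ A.c o = 0 ∧ A.d o = 1

/-- the functions that are 1-Lipschitz for the new metric: `Λ`-Lipschitz for the old metric, new
gradient at most 1, 1-Lipschitz along the curve -/
structure LL (C : Calc M γ) (A : Fr) (Λ : ℝ≥0) (u : M → ℝ) : Prop where
  lip : LipschitzWith Λ u
  grad : ∀ᵐ o ∂C.μ, A.n2 (C.gx u o) (C.gy u o) o ≤ 1
  bdry : ∀ s t, |u (γ s) - u (γ t)| ≤ |s - t|

/-- near minimality: every change of metric away from the curve that keeps antipodal points of the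
curve at distance `π` has area at least `vol - ε` -/
def NM (C : Calc M γ) (ε : ℝ) : Prop := ∀ (A : Fr) (Λ : ℝ≥0), NearC C A →
  (∀ t, ∃ u, LL C A Λ u ∧ Real.pi ≤ u (γ t) - u (γ (t + Real.pi))) →
  C.vol - ε ≤ ∫ o, 1 / A.det o ∂C.μ

end Pool.Agent.FPM
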