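import Mathlib
import Pool.Agent.EWD.RUL
import Pool.Agent.EWD.LPA
import Pool.Agent.FPM.CRL
import Pool.Agent.FPM.NMD

/-
MET (helper63): the new metric: `dm D x y` is the supremum of `u x - u y` over the class `LL`;
`MM D` is the space `M` with this metric.
-/

open MeasureTheory Set Filter Topology
open scoped ENNReal NNReal

noncomputable section

namespace Pool.Agent.FPM

open Pool.Agent.EWD

variable {M : Type} [MetricSpace M] {γ : ℝ → M}

/-- data of a change of metric -/
structure Dat (C : CalcR M γ) extends Fr where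
  hγ : Bd γ
  Λ : ℝ≥0
  Λ0 : 0 < Λ
  near : NearC C.toCalc toFr

/-! ### the class `LL` -/

theorem Fr.n2_neg (A : Fr) (p q : ℝ) (o : Om) : A.n2 (-p) (-q) o = A.n2 p q o := by
  unfold Fr.n2
  ring

theorem Fr.n2_le (A : Fr) (p q : ℝ) (o : Om) : A.n2 p q o ≤ 4 * A.K ^ 2 * (p ^ 2 + q ^ 2) := by
  have h1 : ∀ x y : ℝ, |x| ≤ A.K → |y| ≤ A.K → (x * p + y * q) ^ 2 ≤ 2 * A.K ^ 2 * (p ^ 2 + q ^ 2) := by
    intro x y hx hy
    have hx2 : x ^ 2 ≤ A.K ^ 2 := sq_le_sq' (by linarith [(abs_le.1 hx).1]) (abs_le.1 hx).2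
    have hy2 : y ^ 2 ≤ A.K ^ 2 := sq_le_sq' (by linarith [(abs_le.1 hy).1]) (abs_le.1 hy).2
    have h2 : (x * p + y * q) ^ 2 ≤ (x ^ 2 + y ^ 2) * (p ^ 2 + q ^ 2) := by
      nlinarith [sq_nonneg (x * q - y * p)]
    have h3 : (x ^ 2 + y ^ 2) * (p ^ 2 + q ^ 2) ≤ 2 * A.K ^ 2 * (p ^ 2 + q ^ 2) :=
      mul_le_mul_of_nonneg_right (by linarith) (by positivity)
    exact h2.trans h3
  unfold Fr.n2
  have h2 := h1 _ _ (A.ba o) (A.bb o)
  have h3 := h1 _ _ (A.bc o) (A.bd o)
  linarith

variable {C : Calc M γ} {A : Fr} {Λ : ℝ≥0}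

theorem ll_const (k : ℝ) : LL C A Λ (fun _ => k) where
  lip := (LipschitzWith.const k).weaken bot_le
  grad := Filter.Eventually.of_forall fun o => by
    rw [(C.ae_const k o).1, (C.ae_const k o).2]
    unfold Fr.n2
    norm_num
  bdry := fun s t => by simp

theorem LL.isLip {u : M → ℝ} (h : LL C A Λ u) : Lip u := ⟨Λ, h.lip⟩

theorem LL.neg {u : M → ℝ} (h : LL C A Λ u) : LL C A Λ (fun x => -u x) where
  lip := h.lip.neg
  grad := by
    filter_upwards [C.ae_const_mul h.isLip (-1), h.grad] with o h1 h2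
    have e : (fun x => -u x) = fun x => -1 * u x := by
      funext x
      ring
    rw [e, h1.1, h1.2, neg_one_mul, neg_one_mul, Fr.n2_neg]
    exact h2
  bdry := fun s t => by
    have := h.bdry t s
    rw [abs_sub_comm s t]
    rwa [neg_sub_neg]

theorem LL.add_const {u : M → ℝ} (h : LL C A Λ u) (k : ℝ) : LL C A Λ (fun x => u x + k) where
  lip := by
    have := h.lip.add (LipschitzWith.const k)
    rwa [add_zero] at this
  grad := by
    filter_upwards [C.ae_add h.isLip (lip_const k), h.grad] with o h1 h2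
    rw [h1.1, h1.2, (C.ae_const k o).1, (C.ae_const k o).2, add_zero, add_zero]
    exact h2
  bdry := fun s t => by
    have := h.bdry s t
    rwa [add_sub_add_right_eq_sub]

/-- at a point where the maximum is attained by `u` the gradients agree -/
private theorem MET_deriv {F f : ℝ → ℝ} {F' f' : ℝ} (hF : HasDerivAt F F' 0) (hf : HasDerivAt f f' 0)
    (h0 : F 0 = f 0) (hle : ∀ s, f s ≤ F s) : F' = f' := by
  have h1 : HasDerivAt (fun s => F s - f s) (F' - f') 0 := hF.sub hf
  have h2 : IsLocalMin (fun s => F s - f s) 0 := by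
    refine Filter.Eventually.of_forall fun s => ?_
    show F 0 - f 0 ≤ F s - f s
    rw [h0, sub_self]
    exact sub_nonneg.2 (hle s)
  have h3 := h2.hasDerivAt_eq_zero h1
  linarith

theorem LL.max {u w : M → ℝ} (hu : LL C A Λ u) (hw : LL C A Λ w) :
    LL C A Λ (fun x => max (u x) (w x)) where
  lip := by
    have := hu.lip.max hw.lip
    rwa [max_self] at this
  grad := by
    have hm : Lip (fun x => Max.max (u x) (w x)) := hu.isLip.max hw.isLip
    filter_upwards [C.ae_has hm, C.ae_has hu.isLip, C.ae_has hw.isLip, hu.grad, hw.grad] with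
      o h1 h2 h3 h4 h5
    rcases le_total (w (C.pt o)) (u (C.pt o)) with h | h
    · have e1 : C.gx (fun x => Max.max (u x) (w x)) o = C.gx u o :=
        MET_deriv h1.1 h2.1 (max_eq_left h) fun s => le_max_left _ _
      have e2 : C.gy (fun x => Max.max (u x) (w x)) o = C.gy u o := by
        refine MET_deriv h1.2 h2.2 ?_ fun s => le_max_left _ _
        rw [C.py_zero]
        exact max_eq_left h
      rw [e1, e2]
      exact h4
    · have e1 : C.gx (fun x => Max.max (u x) (w x)) o = C.gx w o :=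
        MET_deriv h1.1 h3.1 (max_eq_right h) fun s => le_max_right _ _
      have e2 : C.gy (fun x => Max.max (u x) (w x)) o = C.gy w o := by
        refine MET_deriv h1.2 h3.2 ?_ fun s => le_max_right _ _
        rw [C.py_zero]
        exact max_eq_right h
      rw [e1, e2]
      exact h5
  bdry := fun s t => by
    refine (abs_max_sub_max_le_max _ _ _ _).trans ?_
    exact max_le (hu.bdry s t) (hw.bdry s t)

theorem LL.min {u w : M → ℝ} (hu : LL C A Λ u) (hw : LL C A Λ w) :
    LL C A Λ (fun x => min (u x) (w x)) := by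
  have h := (hu.neg.max hw.neg).neg
  have e : (fun x => -Max.max (-u x) (-w x)) = fun x => Min.min (u x) (w x) := by
    funext x
    rw [max_neg_neg, neg_neg]
  rwa [e] at h

theorem LL.convex {u w : M → ℝ} (hu : LL C A Λ u) (hw : LL C A Λ w) {α β : ℝ} (hα : 0 ≤ α)
    (hβ : 0 ≤ β) (hαβ : α + β = 1) : LL C A Λ (fun x => α * u x + β * w x) where
  lip := by
    refine LipschitzWith.of_dist_le_mul fun x y => ?_
    have h1 := hu.lip.dist_le_mul x y
    have h2 := hw.lip.dist_le_mul x y
    rw [Real.dist_eq] at h1 h2 ⊢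
    have e : α * u x + β * w x - (α * u y + β * w y) = α * (u x - u y) + β * (w x - w y) := by ring
    rw [e]
    calc |α * (u x - u y) + β * (w x - w y)| ≤ |α * (u x - u y)| + |β * (w x - w y)| := abs_add_le _ _
      _ = α * |u x - u y| + β * |w x - w y| := by
        rw [abs_mul, abs_mul, abs_of_nonneg hα, abs_of_nonneg hβ]
      _ ≤ α * (Λ * dist x y) + β * (Λ * dist x y) :=
        add_le_add (mul_le_mul_of_nonneg_left h1 hα) (mul_le_mul_of_nonneg_left h2 hβ)
      _ = Λ * dist x y := by rw [← add_mul, hαβ, one_mul]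
  grad := by
    filter_upwards [C.ae_add (hu.isLip.const_mul α) (hw.isLip.const_mul β),
      C.ae_const_mul hu.isLip α, C.ae_const_mul hw.isLip β, hu.grad, hw.grad] with o h1 h2 h3 h4 h5
    rw [h1.1, h1.2, h2.1, h2.2, h3.1, h3.2]
    unfold Fr.n2 at h4 h5 ⊢
    have hc : ∀ p q : ℝ, (α * p + β * q) ^ 2 ≤ α * p ^ 2 + β * q ^ 2 := by
      intro p q
      have hβ' : β = 1 - α := by linarith
      subst hβ'
      nlinarith [mul_nonneg (mul_nonneg hα hβ) (sq_nonneg (p - q))]
    have e1 : A.a o * (α * C.gx u o + β * C.gx w o) + A.b o * (α * C.gy u o + β * C.gy w o)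
        = α * (A.a o * C.gx u o + A.b o * C.gy u o) + β * (A.a o * C.gx w o + A.b o * C.gy w o) := by
      ring
    have e2 : A.c o * (α * C.gx u o + β * C.gx w o) + A.d o * (α * C.gy u o + β * C.gy w o)
        = α * (A.c o * C.gx u o + A.d o * C.gy u o) + β * (A.c o * C.gx w o + A.d o * C.gy w o) := by
      ring
    rw [e1, e2]
    have h6 := hc (A.a o * C.gx u o + A.b o * C.gy u o) (A.a o * C.gx w o + A.b o * C.gy w o)
    have h7 := hc (A.c o * C.gx u o + A.d o * C.gy u o) (A.c o * C.gx w o + A.d o * C.gy w o)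
    nlinarith [mul_le_mul_of_nonneg_left h4 hα, mul_le_mul_of_nonneg_left h5 hβ]
  bdry := fun s t => by
    have h1 := hu.bdry s t
    have h2 := hw.bdry s t
    have e : α * u (γ s) + β * w (γ s) - (α * u (γ t) + β * w (γ t))
        = α * (u (γ s) - u (γ t)) + β * (w (γ s) - w (γ t)) := by ring
    rw [e]
    calc |α * (u (γ s) - u (γ t)) + β * (w (γ s) - w (γ t))|
        ≤ |α * (u (γ s) - u (γ t))| + |β * (w (γ s) - w (γ t))| := abs_add_le _ _
      _ = α * |u (γ s) - u (γ t)| + β * |w (γ s) - w (γ t)| := by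
        rw [abs_mul, abs_mul, abs_of_nonneg hα, abs_of_nonneg hβ]
      _ ≤ α * |s - t| + β * |s - t| :=
        add_le_add (mul_le_mul_of_nonneg_left h1 hα) (mul_le_mul_of_nonneg_left h2 hβ)
      _ = |s - t| := by rw [← add_mul, hαβ, one_mul]

theorem ll_small (hγ : Bd γ) {u : M → ℝ} {L : ℝ≥0} (hu : LipschitzWith L u) (hL : L ≤ Λ) (hL1 : L ≤ 1)
    (hK : 4 * A.K ^ 2 * (L : ℝ) ^ 2 ≤ 1) : LL C A Λ u where
  lip := hu.weaken hL
  grad := by
    filter_upwards [C.bound u L hu] with o ho
    refine (A.n2_le _ _ o).trans ?_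
    refine le_trans ?_ hK
    exact mul_le_mul_of_nonneg_left ho (by positivity)
  bdry := fun s t => by
    have h1 := hu.dist_le_mul (γ s) (γ t)
    have h2 := hγ.lip.dist_le_mul s t
    rw [Real.dist_eq] at h1 h2
    rw [NNReal.coe_one, one_mul] at h2
    have h3 : (L : ℝ) ≤ 1 := by exact_mod_cast hL1
    calc |u (γ s) - u (γ t)| ≤ L * dist (γ s) (γ t) := h1
      _ ≤ 1 * dist (γ s) (γ t) := mul_le_mul_of_nonneg_right h3 dist_nonneg
      _ ≤ |s - t| := by rw [one_mul]; exact h2

/-! ### the distance -/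

section dist

variable {C : CalcR M γ} (D : Dat C)

/-- the new distance -/
def dm (x y : M) : ℝ := sSup {r | ∃ u, LL C.toCalc D.toFr D.Λ u ∧ r = u x - u y}

private theorem MET_bdd (x y : M) : BddAbove {r | ∃ u, LL C.toCalc D.toFr D.Λ u ∧ r = u x - u y} := by
  refine ⟨D.Λ * dist x y, ?_⟩
  rintro r ⟨u, hu, rfl⟩
  have h := hu.lip.dist_le_mul x y
  rw [Real.dist_eq] at h
  exact (le_abs_self _).trans h

private theorem MET_ne (x y : M) : {r | ∃ u, LL C.toCalc D.toFr D.Λ u ∧ r = u x - u y}.Nonempty :=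
  ⟨_, fun _ => 0, ll_const 0, rfl⟩

theorem le_dm {u : M → ℝ} (hu : LL C.toCalc D.toFr D.Λ u) (x y : M) : u x - u y ≤ dm D x y :=
  le_csSup (MET_bdd D x y) ⟨u, hu, rfl⟩

theorem dm_le {x y : M} {r : ℝ} (h : ∀ u, LL C.toCalc D.toFr D.Λ u → u x - u y ≤ r) : dm D x y ≤ r := by
  refine csSup_le (MET_ne D x y) ?_
  rintro s ⟨u, hu, rfl⟩
  exact h u hu

theorem exists_of_lt_dm {x y : M} {r : ℝ} (h : r < dm D x y) :
    ∃ u, LL C.toCalc D.toFr D.Λ u ∧ r < u x - u y := by
  obtain ⟨s, ⟨u, hu, rfl⟩, hs⟩ := exists_lt_of_lt_csSup (MET_ne D x y) h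
  exact ⟨u, hu, hs⟩

theorem dm_le_dist (x y : M) : dm D x y ≤ D.Λ * dist x y := by
  refine dm_le D fun u hu => ?_
  have h := hu.lip.dist_le_mul x y
  rw [Real.dist_eq] at h
  exact (le_abs_self _).trans h

/-- the constant of the comparison -/
def cmin : ℝ≥0 := min D.Λ (min 1 ⟨1 / (2 * |D.K| + 1), by positivity⟩)

theorem cmin_pos : 0 < cmin D := by
  refine lt_min D.Λ0 (lt_min one_pos ?_)
  have : (0 : ℝ) < 1 / (2 * |D.K| + 1) := by positivity
  exact_mod_cast this

theorem ll_cmin {u : M → ℝ} (hu : LipschitzWith (cmin D) u) : LL C.toCalc D.toFr D.Λ u := by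
  refine ll_small D.hγ hu (min_le_left _ _) ((min_le_right _ _).trans (min_le_left _ _)) ?_
  have h1 : (cmin D : ℝ) ≤ 1 / (2 * |D.K| + 1) := by
    have h2 : cmin D ≤ ⟨1 / (2 * |D.K| + 1), by positivity⟩ := (min_le_right _ _).trans (min_le_right _ _)
    exact_mod_cast h2
  have h0 : (0 : ℝ) ≤ cmin D := (cmin D).2
  have hK : 0 ≤ |D.K| := abs_nonneg _
  have h3 : 2 * |D.K| * (cmin D : ℝ) ≤ 1 := by
    calc 2 * |D.K| * (cmin D : ℝ) ≤ 2 * |D.K| * (1 / (2 * |D.K| + 1)) :=
          mul_le_mul_of_nonneg_left h1 (by positivity)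
      _ ≤ 1 := by
        rw [mul_one_div, div_le_one (by positivity)]
        linarith
  have h4 : 4 * D.K ^ 2 * (cmin D : ℝ) ^ 2 = (2 * |D.K| * (cmin D : ℝ)) ^ 2 := by
    rw [mul_pow, mul_pow, sq_abs]
    ring
  rw [h4]
  exact pow_le_one₀ (by positivity) h3

theorem dist_le_dm (x y : M) : cmin D * dist x y ≤ dm D x y := by
  have hl : LipschitzWith (cmin D) (fun z => (cmin D : ℝ) * dist z y) := by
    refine LipschitzWith.of_dist_le_mul fun a b => ?_
    rw [Real.dist_eq, ← mul_sub, abs_mul, abs_of_nonneg (NNReal.coe_nonneg (cmin D))]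
    exact mul_le_mul_of_nonneg_left (abs_dist_sub_le a b y) (cmin D).2
  have h := le_dm D (ll_cmin D hl) x y
  rw [dist_self, mul_zero, sub_zero] at h
  exact h

theorem dm_self (x : M) : dm D x x = 0 := by
  refine le_antisymm (dm_le D fun u _ => by rw [sub_self]) ?_
  have := le_dm D (ll_const (C := C.toCalc) (A := D.toFr) (Λ := D.Λ) 0) x x
  simpa using this

theorem dm_comm (x y : M) : dm D x y = dm D y x := by
  have h : ∀ x y, dm D x y ≤ dm D y x := by
    intro x y
    refine dm_le D fun u hu => ?_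
    have := le_dm D hu.neg y x
    linarith
  exact le_antisymm (h x y) (h y x)

theorem dm_triangle (x y z : M) : dm D x z ≤ dm D x y + dm D y z := by
  refine dm_le D fun u hu => ?_
  have h1 := le_dm D hu x y
  have h2 := le_dm D hu y z
  linarith

theorem dm_nonneg (x y : M) : 0 ≤ dm D x y :=
  (mul_nonneg (cmin D).2 dist_nonneg).trans (dist_le_dm D x y)

/-- `M` with the new metric -/
def MM (_D : Dat C) : Type := M

/-- the identity -/
def toMM (x : M) : MM D := x

/-- the identity -/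
def ofMM (x : MM D) : M := x

instance : MetricSpace (MM D) where
  dist x y := dm D (ofMM D x) (ofMM D y)
  dist_self x := dm_self D _
  dist_comm x y := dm_comm D _ _
  dist_triangle x y z := dm_triangle D _ _ _
  eq_of_dist_eq_zero := by
    intro x y h
    have h1 := dist_le_dm D (ofMM D x) (ofMM D y)
    have h2 : dm D (ofMM D x) (ofMM D y) = 0 := h
    rw [h2] at h1
    have hc : (0 : ℝ) < cmin D := by exact_mod_cast cmin_pos D
    have h3 : dist (ofMM D x) (ofMM D y) ≤ 0 := by
      by_contra hcon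
      push Not at hcon
      have := mul_pos hc hcon
      linarith
    have h4 : ofMM D x = ofMM D y := dist_le_zero.1 h3
    exact h4

theorem dist_MM (x y : MM D) : dist x y = dm D (ofMM D x) (ofMM D y) := rfl

theorem dist_toMM (x y : M) : dist (toMM D x) (toMM D y) = dm D x y := rfl

theorem lip_toMM : LipschitzWith D.Λ (toMM D) :=
  LipschitzWith.of_dist_le_mul fun x y => dm_le_dist D x y

theorem lip_ofMM : LipschitzWith (cmin D)⁻¹ (ofMM D) := by
  refine LipschitzWith.of_dist_le_mul fun x y => ?_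
  have h := dist_le_dm D (ofMM D x) (ofMM D y)
  have hc : (0 : ℝ) < cmin D := by exact_mod_cast cmin_pos D
  rw [NNReal.coe_inv, ← div_eq_inv_mul, le_div_iff₀ hc, mul_comm]
  exact h

instance [CompactSpace M] : CompactSpace (MM D) := by
  have h : Function.Surjective (toMM D) := fun x => ⟨x, rfl⟩
  exact h.compactSpace (lip_toMM D).continuous

instance [Nonempty M] : Nonempty (MM D) := ⟨toMM D (Classical.arbitrary M)⟩

/-- the same Lipschitz functions -/
theorem lip_iff (u : M → ℝ) : Lip (M := MM D) u ↔ Lip u := by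
  constructor
  · rintro ⟨L, hL⟩
    exact ⟨_, hL.comp (lip_toMM D)⟩
  · rintro ⟨L, hL⟩
    exact ⟨_, hL.comp (lip_ofMM D)⟩

/-- the curve in the new space -/
def ga (γ : ℝ → M) {C : CalcR M γ} (D : Dat C) (t : ℝ) : MM D := γ t

theorem lip_ga : LipschitzWith 1 (ga γ D) := by
  refine LipschitzWith.of_dist_le_mul fun s t => ?_
  rw [NNReal.coe_one, one_mul, Real.dist_eq]
  refine dm_le D fun u hu => ?_
  exact (le_abs_self _).trans (hu.bdry s t)

end dist

end Pool.Agent.FPM
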