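import Mathlib
import Pool.Agent.EWD.RUL
import Pool.Agent.EWD.LPA
import Pool.Agent.FPM.MET

/-
CLO (helper63): the class `LL` is closed: a function that is 1-Lipschitz for the new distance belongs to
`LL`.  Lattice operations on a finite net give uniform approximation by elements of `LL`; a uniform limit
of elements of `LL` has gradient in the weak closure, by minimal norm elements of convex sets, Stokes'
formula, `CalcR.span` and `CalcR.inj`.
-/

open MeasureTheory Set Filter Topology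
open scoped ENNReal NNReal

noncomputable section

namespace Pool.Agent.FPM

open Pool.Agent.EWD

/-! ### convex sets in a Hilbert space -/

private theorem CLO_hilbert {H : Type} [NormedAddCommGroup H] [InnerProductSpace ℝ H] [CompleteSpace H]
    {S : ℕ → Set H} (hS : Antitone S) (hc : ∀ n, Convex ℝ (S n)) (hn : ∀ n, (S n).Nonempty)
    {B : ℝ} (hB : ∀ n, ∀ y ∈ S n, ‖y‖ ≤ B) : ∃ g, ∀ n, g ∈ closure (S n) := by
  set r : ℕ → ℝ := fun n => sInf ((fun y : H => ‖y‖ ^ 2) '' S n) with hr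
  have hbd : ∀ n, BddBelow ((fun y : H => ‖y‖ ^ 2) '' S n) := by
    intro n
    refine ⟨0, ?_⟩
    rintro _ ⟨y, -, rfl⟩
    positivity
  have hne : ∀ n, ((fun y : H => ‖y‖ ^ 2) '' S n).Nonempty := fun n => (hn n).image _
  have hrle : ∀ n, ∀ y ∈ S n, r n ≤ ‖y‖ ^ 2 := fun n y hy => csInf_le (hbd n) ⟨y, hy, rfl⟩
  have hmono : Monotone r := by
    intro n m hnm
    exact csInf_le_csInf (hbd n) (hne m) (image_mono (hS hnm))
  have hrB : ∀ n, r n ≤ B ^ 2 := by
    intro n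
    obtain ⟨y, hy⟩ := hn n
    refine (hrle n y hy).trans ?_
    exact pow_le_pow_left₀ (norm_nonneg _) (hB n y hy) 2
  have hbdd : BddAbove (range r) := ⟨B ^ 2, by rintro _ ⟨n, rfl⟩; exact hrB n⟩
  set R : ℝ := ⨆ n, r n with hR
  have hlim : Tendsto r atTop (𝓝 R) := tendsto_atTop_ciSup hmono hbdd
  have hrR : ∀ n, r n ≤ R := fun n => le_ciSup hbdd n
  have hex : ∀ n : ℕ, ∃ y ∈ S n, ‖y‖ ^ 2 < r n + 1 / (n + 1) := by
    intro n
    have h1 : r n < r n + 1 / ((n : ℝ) + 1) := by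
      have : (0 : ℝ) < 1 / ((n : ℝ) + 1) := by positivity
      linarith
    obtain ⟨_, ⟨y, hy, rfl⟩, h2⟩ := exists_lt_of_csInf_lt (hne n) h1
    exact ⟨y, hy, h2⟩
  choose y hyS hy using hex
  have key : ∀ n m N : ℕ, N ≤ n → n ≤ m → ‖y n - y m‖ ^ 2 ≤ 2 * (R - r N) + 4 / (N + 1) := by
    intro n m N hN hnm
    have hym : y m ∈ S n := hS hnm (hyS m)
    have hmid : (1 / 2 : ℝ) • y n + (1 / 2 : ℝ) • y m ∈ S n :=
      hc n (hyS n) hym (by norm_num) (by norm_num) (by norm_num)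
    have h1 := hrle n _ hmid
    have h2 : ‖(1 / 2 : ℝ) • y n + (1 / 2 : ℝ) • y m‖ ^ 2 = (1 / 4) * ‖y n + y m‖ ^ 2 := by
      rw [← smul_add, norm_smul, mul_pow, Real.norm_eq_abs]
      norm_num
    rw [h2] at h1
    have h3 := parallelogram_law_with_norm ℝ (y n) (y m)
    have h4 := hy n
    have h5 := hy m
    have h6 : (1 : ℝ) / (n + 1) ≤ 1 / (N + 1) := by
      apply one_div_le_one_div_of_le (by positivity)
      exact_mod_cast Nat.succ_le_succ hN
    have h7 : (1 : ℝ) / (m + 1) ≤ 1 / (N + 1) := by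
      apply one_div_le_one_div_of_le (by positivity)
      exact_mod_cast Nat.succ_le_succ (hN.trans hnm)
    have h8 : r N ≤ r n := hmono hN
    have h9 : (4 : ℝ) / (N + 1) = 4 * (1 / (N + 1)) := by ring
    rw [h9]
    nlinarith [hrR m, hrR n]
  have hcau : CauchySeq y := by
    refine cauchySeq_of_le_tendsto_0 (fun N : ℕ => √(2 * (R - r N) + 4 / (N + 1))) ?_ ?_
    · intro n m N hn' hm'
      rw [dist_eq_norm]
      apply Real.le_sqrt_of_sq_le
      rcases le_total n m with h | h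
      · exact key n m N hn' h
      · rw [norm_sub_rev]
        exact key m n N hm' h
    · have h1 : Tendsto (fun N : ℕ => 2 * (R - r N) + 4 / ((N : ℝ) + 1)) atTop (𝓝 (2 * (R - R) + 0)) := by
        refine Tendsto.add ((tendsto_const_nhds.sub hlim).const_mul 2) ?_
        have h2 := (tendsto_one_div_add_atTop_nhds_zero_nat (𝕜 := ℝ)).const_mul 4
        rw [mul_zero] at h2
        refine h2.congr fun N => ?_
        ring
      have h3 := h1.sqrt
      rw [sub_self, mul_zero, add_zero, Real.sqrt_zero] at h3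
      exact h3
  obtain ⟨g, hg⟩ := cauchySeq_tendsto_of_complete hcau
  refine ⟨g, fun n => mem_closure_of_tendsto hg ?_⟩
  filter_upwards [Filter.eventually_ge_atTop n] with m hm
  exact hS hm (hyS m)

variable {M : Type} [MetricSpace M] {γ : ℝ → M}

/-! ### Stokes' formula -/

theorem ae_abs_le (C : Calc M γ) {u : M → ℝ} {L : ℝ≥0} (hu : LipschitzWith L u) :
    ∀ᵐ o ∂C.μ, |C.gx u o| ≤ L ∧ |C.gy u o| ≤ L := by
  filter_upwards [C.ae_grad_le hu] with o ho
  exact ⟨abs_le_of_sq_le_sq (by nlinarith [sq_nonneg (C.gy u o)]) L.2,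
    abs_le_of_sq_le_sq (by nlinarith [sq_nonneg (C.gx u o)]) L.2⟩

theorem ae_wed_le (C : Calc M γ) {u w : M → ℝ} {L L' : ℝ≥0} (hu : LipschitzWith L u)
    (hw : LipschitzWith L' w) : ∀ᵐ o ∂C.μ, |C.wed u w o| ≤ 2 * (L * L') := by
  filter_upwards [ae_abs_le C hu, ae_abs_le C hw] with o h1 h2
  unfold Calc.wed
  calc |C.gx u o * C.gy w o - C.gy u o * C.gx w o|
      ≤ |C.gx u o * C.gy w o| + |C.gy u o * C.gx w o| := abs_sub _ _
    _ = |C.gx u o| * |C.gy w o| + |C.gy u o| * |C.gx w o| := by rw [abs_mul, abs_mul]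
    _ ≤ L * L' + L * L' := add_le_add (mul_le_mul h1.1 h2.2 (abs_nonneg _) L.2)
        (mul_le_mul h1.2 h2.1 (abs_nonneg _) L.2)
    _ = 2 * (L * L') := by ring

private theorem CLO_stk [CompactSpace M] (C : Calc M γ) (hγ : Bd γ) {ψ h : M → ℝ} (hψ : Lip ψ) (hh : Lip h) :
    ∃ K : ℝ, 0 ≤ K ∧ ∀ (e : M → ℝ) (ε : ℝ), Lip e → 0 ≤ ε → (∀ x, |e x| ≤ ε) →
      |∫ o, ψ (C.pt o) * C.wed e h o ∂C.μ| ≤ K * ε := by
  obtain ⟨B, hB0, hB⟩ := hψ.bdd
  obtain ⟨L, hL⟩ := hh
  obtain ⟨L', hL'⟩ := hψ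
  have hh : Lip h := ⟨L, hL⟩
  have hψ : Lip ψ := ⟨L', hL'⟩
  have hfin := C.fin
  refine ⟨B * L * (2 * Real.pi) + 2 * (L' * L) * C.μ.real univ, by positivity, fun e ε he hε hb => ?_⟩
  have hm : Lip (fun x => ψ x * e x) := hψ.mul he
  -- the product rule
  have h1 : ∀ᵐ o ∂C.μ, C.wed (fun x => ψ x * e x) h o
      = ψ (C.pt o) * C.wed e h o + e (C.pt o) * C.wed ψ h o := by
    filter_upwards [C.ae_mul hψ he] with o ho
    unfold Calc.wed
    rw [ho.1, ho.2]
    ring
  have hwb : ∀ {f : M → ℝ}, Lip f → ∃ K : ℝ, ∀ᵐ o ∂C.μ, |C.wed f h o| ≤ K := by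
    rintro f ⟨Lf, hf⟩
    refine ⟨2 * (Lf * L), ?_⟩
    exact ae_wed_le C hf hL
  have hwm : ∀ {f : M → ℝ}, Lip f → AEMeasurable (fun o => C.wed f h o) C.μ := fun {f} hf =>
    ((C.meas_gx hf).mul (C.meas_gy hh)).sub ((C.meas_gy hf).mul (C.meas_gx hh))
  have hwi : ∀ {f : M → ℝ}, Lip f → Integrable (fun o => C.wed f h o) C.μ := fun {f} hf => by
    obtain ⟨K, hK⟩ := hwb hf
    exact C.integrable_of_bdd (hwm hf) hK
  have hpi : ∀ {p f : M → ℝ}, Lip p → Lip f → Integrable (fun o => p (C.pt o) * C.wed f h o) C.μ := by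
    intro p f hp hf
    obtain ⟨K, hK⟩ := hwb hf
    obtain ⟨P, hP0, hP⟩ := hp.bdd
    refine C.integrable_of_bdd ((C.meas_pt hp).mul (hwm hf)) (B := P * K) ?_
    filter_upwards [hK] with o ho
    rw [abs_mul]
    exact mul_le_mul (hP _) ho (abs_nonneg _) hP0
  have h2 : ∫ o, C.wed (fun x => ψ x * e x) h o ∂C.μ
      = ∫ o, ψ (C.pt o) * C.wed e h o ∂C.μ + ∫ o, e (C.pt o) * C.wed ψ h o ∂C.μ := by
    rw [integral_congr_ae h1, integral_add (hpi hψ he) (hpi he hψ)]
  have h3 : ∫ o, C.wed (fun x => ψ x * e x) h o ∂C.μ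
      = C.sg * ∫ t in (0 : ℝ)..(2 * Real.pi), ψ (γ t) * e (γ t) * deriv (fun s => h (γ s)) t :=
    C.stokes _ _ hm hh
  have h4 : ∫ o, ψ (C.pt o) * C.wed e h o ∂C.μ
      = C.sg * (∫ t in (0 : ℝ)..(2 * Real.pi), ψ (γ t) * e (γ t) * deriv (fun s => h (γ s)) t)
        - ∫ o, e (C.pt o) * C.wed ψ h o ∂C.μ := by
    rw [← h3, h2]
    ring
  have h5 : |∫ t in (0 : ℝ)..(2 * Real.pi), ψ (γ t) * e (γ t) * deriv (fun s => h (γ s)) t|
      ≤ B * ε * L * (2 * Real.pi) := by
    have hl : LipschitzWith L (fun s => h (γ s)) := by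
      have := hL.comp hγ.lip
      rwa [mul_one] at this
    have h6 := intervalIntegral.norm_integral_le_of_norm_le_const (a := (0 : ℝ)) (b := 2 * Real.pi)
      (C := B * ε * L) (f := fun t => ψ (γ t) * e (γ t) * deriv (fun s => h (γ s)) t) (by
        intro t _
        have h7 : ‖deriv (fun s => h (γ s)) t‖ ≤ L := norm_deriv_le_of_lipschitz hl
        rw [norm_mul, norm_mul]
        refine mul_le_mul (mul_le_mul (hB _) (hb _) (abs_nonneg _) hB0) h7 (norm_nonneg _) (by positivity))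
    rw [sub_zero, abs_of_pos Real.two_pi_pos] at h6
    exact h6
  have h6 : |∫ o, e (C.pt o) * C.wed ψ h o ∂C.μ| ≤ ε * (2 * (L' * L)) * C.μ.real univ := by
    have h7 : ∀ᵐ o ∂C.μ, |C.wed ψ h o| ≤ 2 * (L' * L) := ae_wed_le C hL' hL
    rw [← Real.norm_eq_abs]
    refine norm_integral_le_of_norm_le_const ?_
    filter_upwards [h7] with o ho
    rw [norm_mul]
    exact mul_le_mul (hb _) ho (abs_nonneg _) hε
  have h7 : |C.sg| = 1 := by
    rcases C.pm with h | h <;> rw [h] <;> norm_num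
  rw [h4]
  calc _ ≤ |C.sg * (∫ t in (0 : ℝ)..(2 * Real.pi), ψ (γ t) * e (γ t) * deriv (fun s => h (γ s)) t)|
        + |∫ o, e (C.pt o) * C.wed ψ h o ∂C.μ| := abs_sub _ _
    _ ≤ B * ε * L * (2 * Real.pi) + ε * (2 * (L' * L)) * C.μ.real univ := by
        rw [abs_mul, h7, one_mul]
        exact add_le_add h5 h6
    _ = _ := by ring

/-! ### uniform limits -/

/-- the gradient as a complex number -/
private def GC (C : Calc M γ) (v : M → ℝ) (o : Om) : ℂ := ⟨C.gx v o, C.gy v o⟩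

private theorem GC_meas (C : Calc M γ) {v : M → ℝ} (hv : Lip v) : AEMeasurable (GC C v) C.μ := by
  have h1 : AEMeasurable (fun o => ((C.gx v o : ℝ) : ℂ) + ((C.gy v o : ℝ) : ℂ) * Complex.I) C.μ :=
    (Complex.measurable_ofReal.comp_aemeasurable (C.meas_gx hv)).add
      ((Complex.measurable_ofReal.comp_aemeasurable (C.meas_gy hv)).mul_const _)
  have h2 : GC C v = fun o => ((C.gx v o : ℝ) : ℂ) + ((C.gy v o : ℝ) : ℂ) * Complex.I := by
    funext o
    exact Complex.mk_eq_add_mul_I _ _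
  rw [h2]
  exact h1

private theorem GC_norm (C : Calc M γ) {v : M → ℝ} {L : ℝ≥0} (hv : LipschitzWith L v) :
    ∀ᵐ o ∂C.μ, ‖GC C v o‖ ≤ L := by
  filter_upwards [C.ae_grad_le hv] with o ho
  have h1 : ‖GC C v o‖ ^ 2 = C.gx v o ^ 2 + C.gy v o ^ 2 := by
    rw [← Complex.normSq_eq_norm_sq, Complex.normSq_apply]
    show C.gx v o * C.gx v o + C.gy v o * C.gy v o = _
    ring
  exact abs_le_of_sq_le_sq' (by rw [h1]; exact ho) L.2 |>.2

private theorem CLO_lin {x y p q p' q' : ℝ} (h : p * q' - q * p' ≠ 0) (h1 : x * q - y * p = 0)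
    (h2 : x * q' - y * p' = 0) : x = 0 ∧ y = 0 := by
  constructor
  · have : (p * q' - q * p') * x = 0 := by linear_combination p * h2 - p' * h1
    exact (mul_eq_zero.1 this).resolve_left h
  · have : (p * q' - q * p') * y = 0 := by linear_combination q * h2 - q' * h1
    exact (mul_eq_zero.1 this).resolve_left h

/-- a uniform limit of elements of `LL` has new gradient at most 1 -/
theorem grad_limit [CompactSpace M] (C : CalcR M γ) (hγ : Bd γ) (A : Fr) {Λ : ℝ≥0} {u : M → ℝ}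
    (hu : Lip u) (happ : ∀ ε : ℝ, 0 < ε → ∃ v, LL C.toCalc A Λ v ∧ ∀ x, |v x - u x| ≤ ε) :
    ∀ᵐ o ∂C.μ, A.n2 (C.gx u o) (C.gy u o) o ≤ 1 := by
  have hfin := C.fin
  set S : ℕ → Set (Lp ℂ 2 C.μ) := fun n => {y | ∃ v, LL C.toCalc A Λ v ∧
    (∀ x, |v x - u x| ≤ 1 / ((n : ℝ) + 1)) ∧ (y : Om → ℂ) =ᵐ[C.μ] GC C.toCalc v} with hS
  have hmem : ∀ v, LL C.toCalc A Λ v → MemLp (GC C.toCalc v) 2 C.μ := by
    intro v hv
    refine MemLp.of_bound (GC_meas _ hv.isLip).aestronglyMeasurable Λ (GC_norm _ hv.lip)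
  have hanti : Antitone S := by
    intro n m hnm y hy
    obtain ⟨v, h1, h2, h3⟩ := hy
    refine ⟨v, h1, fun x => (h2 x).trans ?_, h3⟩
    apply one_div_le_one_div_of_le (by positivity)
    exact_mod_cast Nat.succ_le_succ hnm
  have hconv : ∀ n, Convex ℝ (S n) := by
    intro n y1 h1 y2 h2 α β hα hβ hαβ
    obtain ⟨v1, a1, b1, c1⟩ := h1
    obtain ⟨v2, a2, b2, c2⟩ := h2
    refine ⟨fun x => α * v1 x + β * v2 x, a1.convex a2 hα hβ hαβ, fun x => ?_, ?_⟩
    · have e : α * v1 x + β * v2 x - u x = α * (v1 x - u x) + β * (v2 x - u x) := by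
        have hβ' : β = 1 - α := by linarith
        rw [hβ']
        ring
      rw [e]
      calc |α * (v1 x - u x) + β * (v2 x - u x)| ≤ |α * (v1 x - u x)| + |β * (v2 x - u x)| :=
            abs_add_le _ _
        _ = α * |v1 x - u x| + β * |v2 x - u x| := by
            rw [abs_mul, abs_mul, abs_of_nonneg hα, abs_of_nonneg hβ]
        _ ≤ α * (1 / ((n : ℝ) + 1)) + β * (1 / ((n : ℝ) + 1)) :=
            add_le_add (mul_le_mul_of_nonneg_left (b1 x) hα) (mul_le_mul_of_nonneg_left (b2 x) hβ)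
        _ = 1 / ((n : ℝ) + 1) := by rw [← add_mul, hαβ, one_mul]
    · filter_upwards [Lp.coeFn_add (α • y1) (β • y2), Lp.coeFn_smul α y1, Lp.coeFn_smul β y2, c1, c2,
        C.ae_add (a1.isLip.const_mul α) (a2.isLip.const_mul β), C.ae_const_mul a1.isLip α,
        C.ae_const_mul a2.isLip β] with o h1 h2 h3 h4 h5 h6 h7 h8
      rw [h1, Pi.add_apply, h2, h3, Pi.smul_apply, Pi.smul_apply, h4, h5]
      unfold GC
      rw [h6.1, h6.2, h7.1, h7.2, h8.1, h8.2]
      apply Complex.ext <;> simp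
  have hne : ∀ n, (S n).Nonempty := by
    intro n
    obtain ⟨v, h1, h2⟩ := happ (1 / ((n : ℝ) + 1)) (by positivity)
    exact ⟨(hmem v h1).toLp _, v, h1, h2, MemLp.coeFn_toLp _⟩
  obtain ⟨g, hg⟩ := CLO_hilbert hanti hconv hne
    (B := (C.μ.real univ) ^ ((2 : ℝ≥0∞).toReal)⁻¹ * (Λ : ℝ)) (by
      rintro n y ⟨v, h1, -, h3⟩
      refine Lp.norm_le_of_ae_bound Λ.2 ?_
      filter_upwards [h3, GC_norm C.toCalc h1.lip] with o h4 h5
      rw [h4]
      exact h5)
  have hex : ∀ n : ℕ, ∃ y ∈ S n, dist g y < 1 / ((n : ℝ) + 1) := fun n =>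
    Metric.mem_closure_iff.1 (hg n) _ (by positivity)
  choose y hyS hyd using hex
  have hyl : Tendsto y atTop (𝓝 g) := by
    rw [tendsto_iff_dist_tendsto_zero]
    refine squeeze_zero (fun _ => dist_nonneg) (fun n => ?_) tendsto_one_div_add_atTop_nhds_zero_nat
    rw [dist_comm]
    exact (hyd n).le
  choose v hvL hvu hvy using hyS
  obtain ⟨ns, hns, hae⟩ := (tendstoInMeasure_of_tendsto_Lp hyl).exists_seq_tendsto_ae
  have hyv : ∀ᵐ o ∂C.μ, ∀ n, (y n : Om → ℂ) o = GC C.toCalc (v n) o := ae_all_iff.2 hvy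
  have hgn : ∀ᵐ o ∂C.μ, ∀ n, A.n2 (C.gx (v n) o) (C.gy (v n) o) o ≤ 1 := ae_all_iff.2 fun n => (hvL n).grad
  have hgb : ∀ᵐ o ∂C.μ, ∀ n, ‖GC C.toCalc (v n) o‖ ≤ Λ := ae_all_iff.2 fun n => GC_norm _ (hvL n).lip
  -- the limit satisfies the bound
  have hlim : ∀ᵐ o ∂C.μ, Tendsto (fun i => GC C.toCalc (v (ns i)) o) atTop (𝓝 ((g : Om → ℂ) o)) := by
    filter_upwards [hae, hyv] with o h1 h2
    refine h1.congr fun i => ?_
    rw [h2]
  have hg1 : ∀ᵐ o ∂C.μ, A.n2 ((g : Om → ℂ) o).re ((g : Om → ℂ) o).im o ≤ 1 := by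
    filter_upwards [hlim, hgn] with o h1 h2
    have hc : Continuous (fun z : ℂ => A.n2 z.re z.im o) := by
      unfold Fr.n2
      fun_prop
    refine le_of_tendsto ((hc.tendsto _).comp h1) (Filter.Eventually.of_forall fun i => ?_)
    exact h2 (ns i)
  have hgB : ∀ᵐ o ∂C.μ, ‖(g : Om → ℂ) o‖ ≤ Λ := by
    filter_upwards [hlim, hgb] with o h1 h2
    exact le_of_tendsto h1.norm (Filter.Eventually.of_forall fun i => h2 (ns i))
  have hgm : AEMeasurable (g : Om → ℂ) C.μ := (Lp.aestronglyMeasurable g).aemeasurable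
  -- testing
  have htest : ∀ h : M → ℝ, Lip h → ∀ᵐ o ∂C.μ,
      (((g : Om → ℂ) o).re - C.gx u o) * C.gy h o - (((g : Om → ℂ) o).im - C.gy u o) * C.gx h o = 0 := by
    intro h hh
    obtain ⟨L, hL⟩ := hh
    have hh : Lip h := ⟨L, hL⟩
    obtain ⟨Lu, hLu⟩ := hu
    have hu : Lip u := ⟨Lu, hLu⟩
    have hre : AEMeasurable (fun o => ((g : Om → ℂ) o).re) C.μ := Complex.measurable_re.comp_aemeasurable hgm
    have him : AEMeasurable (fun o => ((g : Om → ℂ) o).im) C.μ := Complex.measurable_im.comp_aemeasurable hgm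
    have hfm : AEMeasurable (fun o => (((g : Om → ℂ) o).re - C.gx u o) * C.gy h o
        - (((g : Om → ℂ) o).im - C.gy u o) * C.gx h o) C.μ :=
      ((hre.sub (C.meas_gx hu)).mul (C.meas_gy hh)).sub ((him.sub (C.meas_gy hu)).mul (C.meas_gx hh))
    have hfb : ∀ᵐ o ∂C.μ, |(((g : Om → ℂ) o).re - C.gx u o) * C.gy h o
        - (((g : Om → ℂ) o).im - C.gy u o) * C.gx h o| ≤ (Λ + Lu) * L + (Λ + Lu) * L := by
      filter_upwards [hgB, ae_abs_le C.toCalc hLu, ae_abs_le C.toCalc hL] with o h1 h2 h3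
      have a1 : |((g : Om → ℂ) o).re - C.gx u o| ≤ Λ + Lu :=
        (abs_sub _ _).trans (add_le_add ((Complex.abs_re_le_norm _).trans h1) h2.1)
      have a2 : |((g : Om → ℂ) o).im - C.gy u o| ≤ Λ + Lu :=
        (abs_sub _ _).trans (add_le_add ((Complex.abs_im_le_norm _).trans h1) h2.2)
      refine (abs_sub _ _).trans ?_
      rw [abs_mul, abs_mul]
      exact add_le_add (mul_le_mul a1 h3.2 (abs_nonneg _) (by positivity))
        (mul_le_mul a2 h3.1 (abs_nonneg _) (by positivity))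
    have hfi := C.integrable_of_bdd hfm hfb
    refine C.inj _ hfi fun ψ hψ => ?_
    obtain ⟨K, hK0, hK⟩ := CLO_stk C.toCalc hγ hψ hh
    obtain ⟨B, hB0, hB⟩ := hψ.bdd
    have hwi : ∀ {f : M → ℝ}, Lip f → Integrable (fun o => ψ (C.pt o) * C.wed f h o) C.μ := by
      rintro f ⟨Lf, hf⟩
      refine C.integrable_of_bdd ((C.meas_pt hψ).mul
        (((C.meas_gx ⟨Lf, hf⟩).mul (C.meas_gy hh)).sub ((C.meas_gy ⟨Lf, hf⟩).mul (C.meas_gx hh))))
        (B := B * (2 * (Lf * L))) ?_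
      filter_upwards [ae_wed_le C.toCalc hf hL] with o ho
      rw [abs_mul]
      exact mul_le_mul (hB _) ho (abs_nonneg _) hB0
    -- first limit
    have l1 : Tendsto (fun i => ∫ o, ψ (C.pt o) * C.wed (v (ns i)) h o ∂C.μ) atTop
        (𝓝 (∫ o, ψ (C.pt o) * (((g : Om → ℂ) o).re * C.gy h o - ((g : Om → ℂ) o).im * C.gx h o) ∂C.μ)) := by
      refine tendsto_integral_of_dominated_convergence (fun _ => B * (2 * (Λ * L))) ?_
        (integrable_const _) ?_ ?_
      · intro i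
        exact (hwi (hvL (ns i)).isLip).1
      · intro i
        filter_upwards [ae_wed_le C.toCalc (hvL (ns i)).lip hL] with o ho
        rw [Real.norm_eq_abs, abs_mul]
        exact mul_le_mul (hB _) ho (abs_nonneg _) hB0
      · filter_upwards [hlim] with o ho
        have h1 : Tendsto (fun i => C.gx (v (ns i)) o) atTop (𝓝 ((g : Om → ℂ) o).re) :=
          (Complex.continuous_re.tendsto _).comp ho
        have h2 : Tendsto (fun i => C.gy (v (ns i)) o) atTop (𝓝 ((g : Om → ℂ) o).im) :=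
          (Complex.continuous_im.tendsto _).comp ho
        exact ((h1.mul_const _).sub (h2.mul_const _)).const_mul _
    -- second limit
    have l2 : Tendsto (fun i => ∫ o, ψ (C.pt o) * C.wed (v (ns i)) h o ∂C.μ) atTop
        (𝓝 (∫ o, ψ (C.pt o) * C.wed u h o ∂C.μ)) := by
      rw [tendsto_iff_dist_tendsto_zero]
      have hb : Tendsto (fun i : ℕ => K * (1 / ((i : ℝ) + 1))) atTop (𝓝 0) := by
        have := (tendsto_one_div_add_atTop_nhds_zero_nat (𝕜 := ℝ)).const_mul K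
        rwa [mul_zero] at this
      refine squeeze_zero (fun _ => dist_nonneg) (fun i => ?_) (hb.comp hns.tendsto_atTop)
      rw [Real.dist_eq, ← integral_sub (hwi (hvL (ns i)).isLip) (hwi hu)]
      have e1 : ∫ o, (ψ (C.pt o) * C.wed (v (ns i)) h o - ψ (C.pt o) * C.wed u h o) ∂C.μ
          = ∫ o, ψ (C.pt o) * C.wed (fun x => v (ns i) x - u x) h o ∂C.μ := by
        refine integral_congr_ae ?_
        filter_upwards [C.ae_sub (hvL (ns i)).isLip hu] with o ho
        unfold Calc.wed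
        rw [ho.1, ho.2]
        ring
      rw [e1]
      exact hK _ _ ((hvL (ns i)).isLip.sub hu) (by positivity) (hvu (ns i))
    have h3 := tendsto_nhds_unique l1 l2
    have hgi : Integrable (fun o => ψ (C.pt o) *
        (((g : Om → ℂ) o).re * C.gy h o - ((g : Om → ℂ) o).im * C.gx h o)) C.μ := by
      refine C.integrable_of_bdd ((C.meas_pt hψ).mul ((hre.mul (C.meas_gy hh)).sub (him.mul (C.meas_gx hh))))
        (B := B * (Λ * L + Λ * L)) ?_
      filter_upwards [hgB, ae_abs_le C.toCalc hL] with o h1 h2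
      rw [abs_mul]
      refine mul_le_mul (hB _) ?_ (abs_nonneg _) hB0
      refine (abs_sub _ _).trans ?_
      rw [abs_mul, abs_mul]
      exact add_le_add (mul_le_mul ((Complex.abs_re_le_norm _).trans h1) h2.2 (abs_nonneg _) Λ.2)
        (mul_le_mul ((Complex.abs_im_le_norm _).trans h1) h2.1 (abs_nonneg _) Λ.2)
    have h4 : ∫ o, ψ (C.px o 0) * ((((g : Om → ℂ) o).re - C.gx u o) * C.gy h o
        - (((g : Om → ℂ) o).im - C.gy u o) * C.gx h o) ∂C.μ
        = ∫ o, ψ (C.pt o) * (((g : Om → ℂ) o).re * C.gy h o - ((g : Om → ℂ) o).im * C.gx h o) ∂C.μ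
          - ∫ o, ψ (C.pt o) * C.wed u h o ∂C.μ := by
      rw [← integral_sub hgi (hwi hu)]
      refine integral_congr_ae (Filter.Eventually.of_forall fun o => ?_)
      show ψ (C.pt o) * _ = _
      unfold Calc.wed
      ring
    rw [h4, h3, sub_self]
  obtain ⟨N, h, hh, hsp⟩ := C.span
  have hall : ∀ᵐ o ∂C.μ, ∀ i, (((g : Om → ℂ) o).re - C.gx u o) * C.gy (h i) o
      - (((g : Om → ℂ) o).im - C.gy u o) * C.gx (h i) o = 0 := ae_all_iff.2 fun i => htest _ (hh i)
  filter_upwards [hg1, hsp, hall] with o h1 h2 h3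
  obtain ⟨i, j, hij⟩ := h2
  obtain ⟨h4, h5⟩ := CLO_lin hij (h3 i) (h3 j)
  have h6 : C.gx u o = ((g : Om → ℂ) o).re := by linarith
  have h7 : C.gy u o = ((g : Om → ℂ) o).im := by linarith
  rw [h6, h7]
  exact h1

/-! ### approximation on finite nets -/

theorem ll_inf' {C : Calc M γ} {A : Fr} {Λ : ℝ≥0} {ι : Type} (N : Finset ι) (hN : N.Nonempty)
    (f : ι → M → ℝ) (hf : ∀ i ∈ N, LL C A Λ (f i)) : LL C A Λ (N.inf' hN f) :=
  Finset.inf'_induction hN f (fun _ h1 _ h2 => h1.min h2) hf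

theorem ll_sup' {C : Calc M γ} {A : Fr} {Λ : ℝ≥0} {ι : Type} (N : Finset ι) (hN : N.Nonempty)
    (f : ι → M → ℝ) (hf : ∀ i ∈ N, LL C A Λ (f i)) : LL C A Λ (N.sup' hN f) :=
  Finset.sup'_induction hN f (fun _ h1 _ h2 => h1.max h2) hf

theorem exists_approx [CompactSpace M] {C : CalcR M γ} (D : Dat C) {u : M → ℝ}
    (hu : ∀ x y, u x - u y ≤ dm D x y) {ε : ℝ} (hε : 0 < ε) :
    ∃ v, LL C.toCalc D.toFr D.Λ v ∧ ∀ x, |v x - u x| ≤ ε := by
  classical
  have hΛ : (0 : ℝ) < D.Λ := by exact_mod_cast D.Λ0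
  set δ : ℝ := ε / (4 * D.Λ) with hδ
  have hδ0 : 0 < δ := by positivity
  obtain ⟨t, -, htf, htc⟩ := (isCompact_univ (X := M)).finite_cover_balls hδ0
  set N : Finset M := htf.toFinset with hNdef
  have hcov : ∀ x : M, ∃ y ∈ N, dist x y < δ := by
    intro x
    have h1 := htc (mem_univ x)
    simp only [mem_iUnion] at h1
    obtain ⟨y, hy, hxy⟩ := h1
    exact ⟨y, htf.mem_toFinset.2 hy, hxy⟩
  have hN : N.Nonempty := by
    obtain ⟨y, hy, -⟩ := hcov (γ 0)
    exact ⟨y, hy⟩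
  have hul : ∀ x y, |u x - u y| ≤ D.Λ * dist x y := by
    intro x y
    rw [abs_le]
    constructor
    · have h1 := (hu y x).trans (dm_le_dist D y x)
      rw [dist_comm] at h1
      linarith
    · exact (hu x y).trans (dm_le_dist D x y)
  have hex : ∀ x y : M, ∃ f, LL C.toCalc D.toFr D.Λ f ∧ f y = u y ∧ u x - ε / 4 ≤ f x := by
    intro x y
    have h1 : u x - u y - ε / 4 < dm D x y := by
      have := hu x y
      linarith
    obtain ⟨f, hf, h2⟩ := exists_of_lt_dm D h1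
    refine ⟨fun z => f z + (u y - f y), hf.add_const _, by ring, ?_⟩
    linarith
  choose f hfL hfy hfx using hex
  set g : M → M → ℝ := fun x => N.inf' hN (f x) with hg
  have hgL : ∀ x, LL C.toCalc D.toFr D.Λ (g x) := fun x => ll_inf' N hN (f x) fun y _ => hfL x y
  set h : M → ℝ := N.sup' hN g with hh
  have hhL : LL C.toCalc D.toFr D.Λ h := ll_sup' N hN g fun x _ => hgL x
  have hg1 : ∀ x, u x - ε / 4 ≤ g x x := by
    intro x
    rw [hg]
    simp only
    rw [Finset.inf'_apply]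
    exact Finset.le_inf' _ _ fun y _ => hfx x y
  have hg2 : ∀ x, ∀ z ∈ N, g x z ≤ u z := by
    intro x z hz
    have h1 : g x ≤ f x z := Finset.inf'_le _ hz
    have h2 := h1 z
    rw [hfy] at h2
    exact h2
  have hh1 : ∀ z ∈ N, u z - ε / 4 ≤ h z := by
    intro z hz
    have h1 : g z ≤ h := Finset.le_sup' g hz
    exact (hg1 z).trans (h1 z)
  have hh2 : ∀ z ∈ N, h z ≤ u z := by
    intro z hz
    rw [hh, Finset.sup'_apply]
    exact Finset.sup'_le _ _ fun x _ => hg2 x z hz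
  refine ⟨h, hhL, fun w => ?_⟩
  obtain ⟨z, hz, hwz⟩ := hcov w
  have h1 : |h w - h z| ≤ D.Λ * dist w z := by
    have := hhL.lip.dist_le_mul w z
    rwa [Real.dist_eq] at this
  have h2 : |u w - u z| ≤ D.Λ * dist w z := hul w z
  have h3 : D.Λ * dist w z ≤ ε / 4 := by
    calc D.Λ * dist w z ≤ D.Λ * δ := mul_le_mul_of_nonneg_left hwz.le hΛ.le
      _ = ε / 4 := by rw [hδ]; field_simp
  have h4 := hh1 z hz
  have h5 := hh2 z hz
  rw [abs_le] at h1 h2 ⊢
  constructor <;> linarith [h1.1, h1.2, h2.1, h2.2]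

/-- CLOSURE: a function that is 1-Lipschitz for the new distance belongs to the class `LL` -/
theorem ll_of_le_dm [CompactSpace M] {C : CalcR M γ} (D : Dat C) {u : M → ℝ}
    (hu : ∀ x y, u x - u y ≤ dm D x y) : LL C.toCalc D.toFr D.Λ u := by
  have hlip : LipschitzWith D.Λ u := by
    refine LipschitzWith.of_dist_le_mul fun x y => ?_
    rw [Real.dist_eq, abs_le]
    constructor
    · have h1 := (hu y x).trans (dm_le_dist D y x)
      rw [dist_comm] at h1
      linarith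
    · exact (hu x y).trans (dm_le_dist D x y)
  refine ⟨hlip, ?_, fun s t => ?_⟩
  · exact grad_limit C D.hγ D.toFr ⟨D.Λ, hlip⟩ fun ε hε => exists_approx D hu hε
  · have h1 : ∀ s t, dm D (γ s) (γ t) ≤ |s - t| := fun s t =>
      dm_le D fun v hv => (le_abs_self _).trans (hv.bdry s t)
    rw [abs_le]
    constructor
    · have := (hu (γ t) (γ s)).trans (h1 t s)
      rw [abs_sub_comm] at this
      linarith
    · exact (hu (γ s) (γ t)).trans (h1 s t)

theorem ll_iff_lip [CompactSpace M] {C : CalcR M γ} (D : Dat C) (u : M → ℝ) :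
    LipschitzWith (α := MM D) 1 u ↔ LL C.toCalc D.toFr D.Λ u := by
  constructor
  · intro h
    refine ll_of_le_dm D fun x y => ?_
    have h1 := h.dist_le_mul x y
    rw [Real.dist_eq, NNReal.coe_one, one_mul] at h1
    exact (le_abs_self _).trans h1
  · intro h
    refine LipschitzWith.of_dist_le_mul fun x y => ?_
    rw [Real.dist_eq, NNReal.coe_one, one_mul, abs_le]
    constructor
    · have h1 := le_dm D h (ofMM D y) (ofMM D x)
      have h2 : dist x y = dm D (ofMM D y) (ofMM D x) := dm_comm D (ofMM D x) (ofMM D y)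
      have h3 : u y - u x ≤ dist x y := by
        rw [h2]
        exact h1
      linarith
    · exact le_dm D h x y

end Pool.Agent.FPM
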