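import Mathlib
import Pool.Agent.FPM.CLO
import Pool.Agent.FPX.Defs

/-
NEW (helper63): the Dirichlet calculus `newC D` of the new metric, and the dictionary between the old and
the new calculus.
-/

open MeasureTheory Set Filter Topology
open scoped ENNReal NNReal

noncomputable section

namespace Pool.Agent.FPM

open Pool.Agent.EWD Pool.Agent.FPX

variable {M : Type} [MetricSpace M] {γ : ℝ → M} {C : CalcR M γ} (D : Dat C)

theorem Fr.meas_det (A : Fr) : Measurable A.det := (A.ma.mul A.md).sub (A.mb.mul A.mc)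

theorem Fr.inv_det_le (A : Fr) (o : Om) : 1 / A.det o ≤ 1 / A.κ :=
  one_div_le_one_div_of_le A.κ0 (A.dt o)

theorem Fr.inv_det_pos (A : Fr) (o : Om) : 0 < 1 / A.det o := one_div_pos.2 (A.det_pos o)

/-- the new area measure -/
def nu (D : Dat C) : Measure Om := C.μ.withDensity fun o => ENNReal.ofReal (1 / D.det o)

theorem meas_dens (A : Fr) : Measurable fun o => ENNReal.ofReal (1 / A.det o) := by
  have h : Measurable fun o => 1 / A.det o := by
    simp only [one_div]
    exact A.meas_det.inv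
  exact h.ennreal_ofReal

theorem nu_ac : nu D ≪ C.μ := withDensity_absolutelyContinuous _ _

theorem ac_nu : C.μ ≪ nu D := by
  refine withDensity_absolutelyContinuous' (meas_dens D.toFr).aemeasurable ?_
  refine Filter.Eventually.of_forall fun o => ?_
  have := D.inv_det_pos o
  simpa using this

theorem nu_ae {p : Om → Prop} : (∀ᵐ o ∂(nu D), p o) ↔ ∀ᵐ o ∂C.μ, p o :=
  ⟨fun h => (ac_nu D).ae_le h, fun h => (nu_ac D).ae_le h⟩

theorem nu_fin : IsFiniteMeasure (nu D) := by
  have := C.fin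
  refine isFiniteMeasure_withDensity ?_
  refine ne_of_lt (lt_of_le_of_lt (lintegral_mono (g := fun _ => ENNReal.ofReal (1 / D.κ)) fun o => ?_) ?_)
  · exact ENNReal.ofReal_le_ofReal (D.inv_det_le o)
  · rw [lintegral_const]
    exact ENNReal.mul_lt_top ENNReal.ofReal_lt_top (measure_lt_top _ _)

/-- integrals for the new measure -/
theorem nu_int (f : Om → ℝ) : ∫ o, f o ∂(nu D) = ∫ o, 1 / D.det o * f o ∂C.μ := by
  unfold nu
  rw [integral_withDensity_eq_integral_toReal_smul₀ (meas_dens D.toFr).aemeasurable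
    (Filter.Eventually.of_forall fun _ => ENNReal.ofReal_lt_top)]
  refine integral_congr_ae (Filter.Eventually.of_forall fun o => ?_)
  simp only [smul_eq_mul]
  rw [ENNReal.toReal_ofReal (D.inv_det_pos o).le]

/-- new gradient in terms of the old gradient -/
theorem der_new {u : M → ℝ} (hu : Lip u) : ∀ᵐ o ∂C.μ,
    HasDerivAt (fun s => u (C.pc o (D.a o) (D.b o) s)) (D.a o * C.gx u o + D.b o * C.gy u o) 0 ∧
    HasDerivAt (fun s => u (C.pc o (D.c o) (D.d o) s)) (D.c o * C.gx u o + D.d o * C.gy u o) 0 := by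
  filter_upwards [C.der u hu] with o ho
  exact ⟨ho _ _, ho _ _⟩

private theorem NEW_bound [CompactSpace M] {u : M → ℝ} {L : ℝ≥0}
    (hu : LipschitzWith (α := MM D) L u) : ∀ᵐ o ∂C.μ, D.n2 (C.gx u o) (C.gy u o) o ≤ (L : ℝ) ^ 2 := by
  rcases eq_or_ne L 0 with hL | hL
  · subst hL
    have hc : u = fun _ => u (γ 0) := by
      funext x
      have h1 := hu.dist_le_mul (toMM D x) (toMM D (γ 0))
      rw [NNReal.coe_zero, zero_mul] at h1
      exact dist_le_zero.1 h1
    refine Filter.Eventually.of_forall fun o => ?_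
    rw [hc, (C.ae_const _ o).1, (C.ae_const _ o).2]
    unfold Fr.n2
    norm_num
  · have hLpos : (0 : ℝ) < L := lt_of_le_of_ne L.2 (fun h => hL (NNReal.coe_eq_zero.1 h.symm))
    have h1 : LipschitzWith (α := MM D) 1 (fun x => (L : ℝ)⁻¹ * u x) := by
      refine LipschitzWith.of_dist_le_mul fun x y => ?_
      have h3 := hu.dist_le_mul x y
      rw [Real.dist_eq] at h3 ⊢
      rw [← mul_sub, abs_mul, abs_of_pos (inv_pos.2 hLpos), NNReal.coe_one, one_mul,
        inv_mul_le_iff₀ hLpos]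
      exact h3
    have h2 := ((ll_iff_lip D (fun x : M => (L : ℝ)⁻¹ * u x)).1 h1).grad
    have hul : Lip u := (lip_iff D u).1 ⟨L, hu⟩
    filter_upwards [h2, C.ae_const_mul hul (L : ℝ)⁻¹] with o h3 h4
    rw [h4.1, h4.2] at h3
    have e : D.n2 ((L : ℝ)⁻¹ * C.gx u o) ((L : ℝ)⁻¹ * C.gy u o) o
        = ((L : ℝ)⁻¹) ^ 2 * D.n2 (C.gx u o) (C.gy u o) o := by
      unfold Fr.n2
      ring
    rw [e, inv_pow, inv_mul_le_iff₀ (by positivity), mul_one] at h3
    exact h3

private theorem NEW_wed (D : Dat C) {u w : M → ℝ} {p q r s : ℝ} (o : Om)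
    (hp : p = D.a o * C.gx u o + D.b o * C.gy u o) (hq : q = D.c o * C.gx u o + D.d o * C.gy u o)
    (hr : r = D.a o * C.gx w o + D.b o * C.gy w o) (hs : s = D.c o * C.gx w o + D.d o * C.gy w o) :
    p * s - q * r = D.det o * C.wed u w o := by
  subst hp hq hr hs
  unfold Fr.det Calc.wed
  ring

/-- the Dirichlet calculus of the new metric -/
def newC [CompactSpace M] (D : Dat C) : Calc (MM D) (ga γ D) where
  μ := nu D
  px := fun o s => toMM D (C.pc o (D.a o) (D.b o) s)
  py := fun o s => toMM D (C.pc o (D.c o) (D.d o) s)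
  sg := C.sg
  same := fun o => by
    rw [C.pc0, C.pc0]
  fin := nu_fin D
  pm := C.pm
  mpt := fun u hu => by
    have h1 : (fun o => u (toMM D (C.pc o (D.a o) (D.b o) 0))) = fun o => u (C.px o 0) := by
      funext o
      rw [C.pc0]
      rfl
    rw [h1]
    exact (C.mpt u ((lip_iff D u).1 hu)).mono_ac (nu_ac D)
  mgx := fun u hu => by
    have hu' := (lip_iff D u).1 hu
    have h1 : AEMeasurable (fun o => D.a o * C.gx u o + D.b o * C.gy u o) C.μ :=
      (D.ma.aemeasurable.mul (C.meas_gx hu')).add (D.mb.aemeasurable.mul (C.meas_gy hu'))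
    refine (h1.congr ?_).mono_ac (nu_ac D)
    filter_upwards [der_new D hu'] with o ho
    exact ho.1.deriv.symm
  mgy := fun u hu => by
    have hu' := (lip_iff D u).1 hu
    have h1 : AEMeasurable (fun o => D.c o * C.gx u o + D.d o * C.gy u o) C.μ :=
      (D.mc.aemeasurable.mul (C.meas_gx hu')).add (D.md.aemeasurable.mul (C.meas_gy hu'))
    refine (h1.congr ?_).mono_ac (nu_ac D)
    filter_upwards [der_new D hu'] with o ho
    exact ho.2.deriv.symm
  dif := fun u hu => by
    rw [nu_ae]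
    filter_upwards [der_new D ((lip_iff D u).1 hu)] with o ho
    exact ⟨ho.1.differentiableAt, ho.2.differentiableAt⟩
  bound := fun u L hu => by
    rw [nu_ae]
    filter_upwards [der_new D ((lip_iff D u).1 ⟨L, hu⟩), NEW_bound D hu] with o ho h2
    have e1 : deriv (fun s => u (toMM D (C.pc o (D.a o) (D.b o) s))) 0
        = D.a o * C.gx u o + D.b o * C.gy u o := ho.1.deriv
    have e2 : deriv (fun s => u (toMM D (C.pc o (D.c o) (D.d o) s))) 0
        = D.c o * C.gx u o + D.d o * C.gy u o := ho.2.deriv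
    rw [e1, e2]
    exact h2
  stokes := fun u w hu hw => by
    have hu' := (lip_iff D u).1 hu
    have hw' := (lip_iff D w).1 hw
    rw [nu_int]
    refine Eq.trans ?_ (C.stokes u w hu' hw')
    refine integral_congr_ae ?_
    filter_upwards [der_new D hu', der_new D hw'] with o h1 h2
    have e := NEW_wed D (u := u) (w := w) o h1.1.deriv h1.2.deriv h2.1.deriv h2.2.deriv
    have h3 := D.det_pos o
    show 1 / D.det o * (deriv (fun s => u (C.pc o (D.a o) (D.b o) s)) 0 *
      deriv (fun s => w (C.pc o (D.c o) (D.d o) s)) 0 - deriv (fun s => u (C.pc o (D.c o) (D.d o) s)) 0 *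
      deriv (fun s => w (C.pc o (D.a o) (D.b o) s)) 0) = C.wed u w o
    rw [e]
    field_simp

section dict

variable [CompactSpace M]

theorem new_mu : (newC D).μ = nu D := rfl

theorem new_sg : (newC D).sg = C.sg := rfl

theorem new_pt (o : Om) : (newC D).pt o = toMM D (C.pt o) := by
  show toMM D (C.pc o (D.a o) (D.b o) 0) = toMM D (C.px o 0)
  rw [C.pc0]

theorem new_ae {p : Om → Prop} : (∀ᵐ o ∂(newC D).μ, p o) ↔ ∀ᵐ o ∂C.μ, p o := nu_ae D

theorem new_int (f : Om → ℝ) : ∫ o, f o ∂(newC D).μ = ∫ o, 1 / D.det o * f o ∂C.μ := nu_int D f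

theorem new_grad {u : M → ℝ} (hu : Lip u) : ∀ᵐ o ∂C.μ,
    (newC D).gx u o = D.a o * C.gx u o + D.b o * C.gy u o ∧
    (newC D).gy u o = D.c o * C.gx u o + D.d o * C.gy u o := by
  filter_upwards [der_new D hu] with o ho
  exact ⟨ho.1.deriv, ho.2.deriv⟩

theorem new_n2 {u : M → ℝ} (hu : Lip u) : ∀ᵐ o ∂C.μ,
    (newC D).gx u o ^ 2 + (newC D).gy u o ^ 2 = D.n2 (C.gx u o) (C.gy u o) o := by
  filter_upwards [new_grad D hu] with o ho
  rw [ho.1, ho.2]
  rfl

theorem new_wed {u w : M → ℝ} (hu : Lip u) (hw : Lip w) : ∀ᵐ o ∂C.μ,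
    (newC D).wed u w o = D.det o * C.wed u w o := by
  filter_upwards [new_grad D hu, new_grad D hw] with o h1 h2
  exact NEW_wed D o h1.1 h1.2 h2.1 h2.2

/-- the integral of `f du ∧ dw` does not depend on the metric -/
theorem new_int_wed {u w : M → ℝ} (hu : Lip u) (hw : Lip w) (f : Om → ℝ) :
    ∫ o, f o * (newC D).wed u w o ∂(newC D).μ = ∫ o, f o * C.wed u w o ∂C.μ := by
  rw [new_int]
  refine integral_congr_ae ?_
  filter_upwards [new_wed D hu hw] with o ho
  rw [ho]
  have h3 := D.det_pos o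
  field_simp

theorem new_vol : (newC D).vol = ∫ o, 1 / D.det o ∂C.μ := by
  rw [← Calc.integral_one, new_int]
  simp only [mul_one]

omit [CompactSpace M] in
theorem new_oddB (u : M → ℝ) : OddB (ga γ D) u ↔ OddB γ u := Iff.rfl

omit [CompactSpace M] in
theorem new_sph {N : ℕ} (u : Fin N → M → ℝ) : Sph (ga γ D) u ↔ Sph γ u := by
  constructor
  · intro h
    exact ⟨fun i => (lip_iff D (u i)).1 (h.lip i), h.unit, h.odd⟩
  · intro h
    exact ⟨fun i => (lip_iff D (u i)).2 (h.lip i), h.unit, h.odd⟩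

/-- zeros and their signs do not depend on the metric -/
theorem new_vort {X Y : M → ℝ} {Z : Finset M} {s : M → ℝ} (h : C.Vort X Y Z s) :
    (newC D).Vort X Y (Z : Finset M) s where
  lipX := (lip_iff D X).2 h.lipX
  lipY := (lip_iff D Y).2 h.lipY
  oddX := h.oddX
  oddY := h.oddY
  bdry := h.bdry
  pm := h.pm
  zero := h.zero
  lim := fun ψ hψ => by
    have h1 := h.lim ψ ((lip_iff D ψ).1 hψ)
    refine h1.congr fun ε => ?_
    have h2 := new_int_wed D h.lipX h.lipY (fun o => ψ (C.pt o) *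
      (2 * ε ^ 2 / (X (C.pt o) ^ 2 + Y (C.pt o) ^ 2 + ε ^ 2) ^ 2))
    rw [← h2]
    refine integral_congr_ae (Filter.Eventually.of_forall fun o => ?_)
    simp only [new_pt]
    rfl

theorem new_reg {v : Fin 3 → M → ℝ} {p : E3} (h : Reg C.toCalc v p) : Reg (newC D) v p := by
  obtain ⟨a, b, Z, s, h1, h2, h3, h4, h5⟩ := h
  exact ⟨a, b, Z, s, h1, h2, h3, h4, new_vort D h5⟩

theorem new_regAE (h : RegAE C.toCalc) : RegAE (newC D) := fun v hv => by
  filter_upwards [h v ((new_sph D v).1 hv)] with p hp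
  exact new_reg D hp

end dict

end Pool.Agent.FPM
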