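import Mathlib
import Pool.Agent.EWD.Defs

/-
VZD: definitions for the counting lemma (helper20).
`Vz C X Y Z s`: the common zeros of `X` and `Y` are the finite set `Z`, none of them on the boundary,
with signs `s`, and the formula that expresses them. No oddness.
`RegPl C`: for all Lipschitz `X, Y` almost every value `(a, b)` is regular.
-/

open MeasureTheory Set Filter Topology
open scoped ENNReal NNReal

noncomputable section

namespace Pool.Agent.FPM

open Pool.Agent.EWD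

/-- the common zeros of `X` and `Y` with their signs, and the formula that expresses them -/
structure Vz {M : Type} [MetricSpace M] {γ : ℝ → M} (C : Calc M γ) (X Y : M → ℝ)
    (Z : Finset M) (s : M → ℝ) : Prop where
  bdry : ∀ t, 0 < X (γ t) ^ 2 + Y (γ t) ^ 2
  pm : ∀ z ∈ Z, s z = 1 ∨ s z = -1
  zero : ∀ z, z ∈ Z ↔ X z = 0 ∧ Y z = 0
  lim : ∀ ψ : M → ℝ, Lip ψ → Tendsto (fun ε : ℝ => ∫ o, ψ (C.pt o) *
      (2 * ε ^ 2 / (X (C.pt o) ^ 2 + Y (C.pt o) ^ 2 + ε ^ 2) ^ 2) * C.wed X Y o ∂C.μ)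
    (𝓝[>] 0) (𝓝 (2 * Real.pi * ∑ z ∈ Z, s z * ψ z))

/-- almost every value of a Lipschitz map into the plane is regular -/
def RegPl {M : Type} [MetricSpace M] {γ : ℝ → M} (C : Calc M γ) : Prop :=
  ∀ X Y : M → ℝ, Lip X → Lip Y → ∀ᵐ v : ℝ × ℝ, ∃ (Z : Finset M) (s : M → ℝ),
    Vz C (fun x => X x - v.1) (fun x => Y x - v.2) Z s

end Pool.Agent.FPM
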