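import Mathlib
import Pool.Agent.FPM.NEW
import Pool.Agent.FPM.VZD

/-
NMI (helper63): near minimality.  `exists_nm`: among the metrics of `Dat C` for which antipodal points of
the curve have distance at least `π` there is a near minimiser of the area; it satisfies `NM (newC D) ε`.
-/

open MeasureTheory Set Filter Topology
open scoped ENNReal NNReal

noncomputable section

namespace Pool.Agent.FPM

open Pool.Agent.EWD Pool.Agent.FPX

variable {M : Type} [MetricSpace M] {γ : ℝ → M} {C : CalcR M γ} (D : Dat C)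

/-- composition of frame changes: first `B`, then `A` -/
def Fr.comp (A B : Fr) : Fr where
  a := fun o => A.a o * B.a o + A.b o * B.c o
  b := fun o => A.a o * B.b o + A.b o * B.d o
  c := fun o => A.c o * B.a o + A.d o * B.c o
  d := fun o => A.c o * B.b o + A.d o * B.d o
  ma := (A.ma.mul B.ma).add (A.mb.mul B.mc)
  mb := (A.ma.mul B.mb).add (A.mb.mul B.md)
  mc := (A.mc.mul B.ma).add (A.md.mul B.mc)
  md := (A.mc.mul B.mb).add (A.md.mul B.md)
  K := 2 * (A.K * B.K)
  κ := A.κ * B.κ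
  ba := fun o => by
    have hA : 0 ≤ A.K := (abs_nonneg _).trans (A.ba o)
    refine (abs_add_le _ _).trans ?_
    rw [abs_mul, abs_mul, two_mul]
    exact add_le_add (mul_le_mul (A.ba o) (B.ba o) (abs_nonneg _) hA)
      (mul_le_mul (A.bb o) (B.bc o) (abs_nonneg _) hA)
  bb := fun o => by
    have hA : 0 ≤ A.K := (abs_nonneg _).trans (A.ba o)
    refine (abs_add_le _ _).trans ?_
    rw [abs_mul, abs_mul, two_mul]
    exact add_le_add (mul_le_mul (A.ba o) (B.bb o) (abs_nonneg _) hA)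
      (mul_le_mul (A.bb o) (B.bd o) (abs_nonneg _) hA)
  bc := fun o => by
    have hA : 0 ≤ A.K := (abs_nonneg _).trans (A.ba o)
    refine (abs_add_le _ _).trans ?_
    rw [abs_mul, abs_mul, two_mul]
    exact add_le_add (mul_le_mul (A.bc o) (B.ba o) (abs_nonneg _) hA)
      (mul_le_mul (A.bd o) (B.bc o) (abs_nonneg _) hA)
  bd := fun o => by
    have hA : 0 ≤ A.K := (abs_nonneg _).trans (A.ba o)
    refine (abs_add_le _ _).trans ?_
    rw [abs_mul, abs_mul, two_mul]
    exact add_le_add (mul_le_mul (A.bc o) (B.bb o) (abs_nonneg _) hA)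
      (mul_le_mul (A.bd o) (B.bd o) (abs_nonneg _) hA)
  κ0 := mul_pos A.κ0 B.κ0
  dt := fun o => by
    have h1 := mul_le_mul (A.dt o) (B.dt o) B.κ0.le (A.κ0.le.trans (A.dt o))
    nlinarith [h1]

theorem Fr.comp_det (A B : Fr) (o : Om) : (A.comp B).det o = A.det o * B.det o := by
  unfold Fr.det Fr.comp
  ring

theorem Fr.comp_n2 (A B : Fr) (p q : ℝ) (o : Om) : (A.comp B).n2 p q o
    = A.n2 (B.a o * p + B.b o * q) (B.c o * p + B.d o * q) o := by
  unfold Fr.n2 Fr.comp
  ring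

theorem Fr.one_n2 (p q : ℝ) (o : Om) : Fr.one.n2 p q o = p ^ 2 + q ^ 2 := by
  unfold Fr.n2 Fr.one
  ring

theorem Fr.one_det (o : Om) : Fr.one.det o = 1 := by
  unfold Fr.det Fr.one
  ring

theorem LL.weaken {C : Calc M γ} {A : Fr} {Λ Λ' : ℝ≥0} {u : M → ℝ} (h : LL C A Λ u) (hΛ : Λ ≤ Λ') :
    LL C A Λ' u := ⟨h.lip.weaken hΛ, h.grad, h.bdry⟩

/-- a 1-Lipschitz function of the old metric -/
theorem ll_one {C : Calc M γ} (hγ : Bd γ) {u : M → ℝ} (hu : LipschitzWith 1 u) : LL C Fr.one 1 u where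
  lip := hu
  grad := by
    filter_upwards [C.ae_grad_le hu] with o ho
    rw [Fr.one_n2]
    simpa using ho
  bdry := fun s t => by
    have h1 := hu.dist_le_mul (γ s) (γ t)
    have h2 := hγ.lip.dist_le_mul s t
    rw [Real.dist_eq] at h1 h2
    rw [NNReal.coe_one, one_mul] at h1 h2
    exact h1.trans h2

/-- the trivial change of metric -/
def Dat.one (C : CalcR M γ) (hγ : Bd γ) : Dat C where
  toFr := Fr.one
  hγ := hγ
  Λ := 1
  Λ0 := one_pos
  near := ⟨1, one_pos, Filter.Eventually.of_forall fun _ _ => ⟨rfl, rfl, rfl, rfl⟩⟩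

section comp

variable [CompactSpace M]

theorem near_comp {A : Fr} (hA : NearC (newC D) A) : NearC C.toCalc (A.comp D.toFr) := by
  obtain ⟨r, hr, h1⟩ := D.near
  obtain ⟨r', hr', h2⟩ := hA
  have hΛ : (0 : ℝ) < D.Λ := by exact_mod_cast D.Λ0
  refine ⟨min r (r' / D.Λ), lt_min hr (by positivity), ?_⟩
  rw [new_ae] at h2
  filter_upwards [h1, h2] with o h3 h4 hd
  obtain ⟨a1, b1, c1, d1⟩ := h3 (hd.trans_le (min_le_left _ _))
  have h5 : Metric.infDist ((newC D).pt o) (range (ga γ D)) < r' := by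
    have h6 := hd.trans_le (min_le_right _ _)
    rw [Metric.infDist_lt_iff (range_nonempty γ)] at h6
    obtain ⟨y, ⟨t, rfl⟩, hy⟩ := h6
    refine lt_of_le_of_lt (Metric.infDist_le_dist_of_mem (mem_range_self t)) ?_
    rw [new_pt]
    have h7 : dist (toMM D (C.pt o)) (ga γ D t) ≤ D.Λ * dist (C.pt o) (γ t) := dm_le_dist D _ _
    refine h7.trans_lt ?_
    rw [lt_div_iff₀ hΛ, mul_comm] at hy
    exact hy
  obtain ⟨a2, b2, c2, d2⟩ := h4 h5
  unfold Fr.comp
  simp only [a1, b1, c1, d1, a2, b2, c2, d2]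
  norm_num

theorem ll_comp {A : Fr} {Λ : ℝ≥0} {u : M → ℝ} (hu : LL (newC D) A Λ u) :
    LL C.toCalc (A.comp D.toFr) (Λ * D.Λ) u where
  lip := hu.lip.comp (lip_toMM D)
  grad := by
    have h1 := hu.grad
    rw [new_ae] at h1
    filter_upwards [h1, new_grad D ((lip_iff D u).1 hu.isLip)] with o h2 h3
    rw [h3.1, h3.2] at h2
    rw [Fr.comp_n2]
    exact h2
  bdry := hu.bdry

end comp

/-- the condition on the boundary -/
def AntiD (D : Dat C) : Prop := ∀ t, Real.pi ≤ dm D (γ t) (γ (t + Real.pi))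

theorem bd_ga (h : AntiD D) : Bd (ga γ D) where
  lip := lip_ga D
  per := D.hγ.per
  anti := h

theorem antiD_one (C : CalcR M γ) (hγ : Bd γ) : AntiD (Dat.one C hγ) := by
  intro t
  have h1 : LipschitzWith 1 (fun x : M => dist x (γ (t + Real.pi))) := by
    refine LipschitzWith.of_dist_le_mul fun a b => ?_
    rw [NNReal.coe_one, one_mul, Real.dist_eq]
    exact abs_dist_sub_le a b _
  have h2 := le_dm (Dat.one C hγ) (ll_one hγ h1) (γ t) (γ (t + Real.pi))
  rw [dist_self, sub_zero] at h2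
  exact (hγ.anti t).trans h2

/-- NEAR MINIMISERS -/
theorem exists_nm [CompactSpace M] (C : CalcR M γ) (hγ : Bd γ) {ε : ℝ} (hε : 0 < ε) :
    ∃ D : Dat C, Bd (ga γ D) ∧ NM (newC D) ε ∧ (newC D).vol ≤ C.vol := by
  set V : Set ℝ := {r | ∃ D : Dat C, AntiD D ∧ r = (newC D).vol} with hV
  have hone : (newC (Dat.one C hγ)).vol = C.vol := by
    rw [new_vol, ← Calc.integral_one]
    refine integral_congr_ae (Filter.Eventually.of_forall fun o => ?_)
    show 1 / Fr.one.det o = 1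
    rw [Fr.one_det]
    norm_num
  have hne : V.Nonempty := ⟨_, Dat.one C hγ, antiD_one C hγ, rfl⟩
  have hbd : BddBelow V := by
    refine ⟨0, ?_⟩
    rintro _ ⟨D, -, rfl⟩
    exact Calc.vol_nonneg _
  obtain ⟨D, hD1, hD2, hD3⟩ : ∃ D : Dat C, AntiD D ∧ (newC D).vol < sInf V + ε ∧ (newC D).vol ≤ C.vol := by
    obtain ⟨_, ⟨D, hD, rfl⟩, h1⟩ := exists_lt_of_csInf_lt hne (lt_add_of_pos_right (sInf V) hε)
    by_cases h2 : (newC D).vol ≤ C.vol
    · exact ⟨D, hD, h1, h2⟩
    · push Not at h2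
      refine ⟨Dat.one C hγ, antiD_one C hγ, ?_, hone.le⟩
      rw [hone]
      exact h2.trans h1
  refine ⟨D, bd_ga D hD1, ?_, hD3⟩
  intro A Λ hA hu
  set D2 : Dat C :=
    { toFr := A.comp D.toFr
      hγ := hγ
      Λ := Λ * D.Λ + 1
      Λ0 := by positivity
      near := near_comp D hA } with hD2def
  have hanti : AntiD D2 := by
    intro t
    obtain ⟨u, h1, h2⟩ := hu t
    have h3 : LL C.toCalc D2.toFr D2.Λ u := (ll_comp D h1).weaken (by
      show Λ * D.Λ ≤ Λ * D.Λ + 1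
      exact le_self_add)
    have h4 := le_dm D2 h3 (γ t) (γ (t + Real.pi))
    exact h2.trans h4
  have h5 : sInf V ≤ (newC D2).vol := csInf_le hbd ⟨D2, hanti, rfl⟩
  have h6 : (newC D2).vol = ∫ o, 1 / A.det o ∂(newC D).μ := by
    rw [new_vol, new_int]
    refine integral_congr_ae (Filter.Eventually.of_forall fun o => ?_)
    show 1 / (A.comp D.toFr).det o = 1 / D.det o * (1 / A.det o)
    rw [Fr.comp_det, one_div_mul_one_div]
    rw [mul_comm]
  rw [← h6]
  linarith

/-- regularity for the plane is inherited -/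
theorem new_vz [CompactSpace M] {X Y : M → ℝ} {Z : Finset M} {s : M → ℝ} (hX : Lip X) (hY : Lip Y)
    (h : Vz C.toCalc X Y Z s) : Vz (newC D) X Y (Z : Finset M) s where
  bdry := h.bdry
  pm := h.pm
  zero := h.zero
  lim := fun ψ hψ => by
    have h1 := h.lim ψ ((lip_iff D ψ).1 hψ)
    refine h1.congr fun ε => ?_
    have h2 := new_int_wed D hX hY (fun o => ψ (C.pt o) *
      (2 * ε ^ 2 / (X (C.pt o) ^ 2 + Y (C.pt o) ^ 2 + ε ^ 2) ^ 2))
    rw [← h2]
    refine integral_congr_ae (Filter.Eventually.of_forall fun o => ?_)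
    simp only [new_pt]
    rfl

theorem new_regPl [CompactSpace M] (h : RegPl C.toCalc) : RegPl (newC D) := fun X Y hX hY => by
  have hX' := (lip_iff D X).1 hX
  have hY' := (lip_iff D Y).1 hY
  filter_upwards [h X Y hX' hY'] with v hv
  obtain ⟨Z, s, hZ⟩ := hv
  exact ⟨Z, s, new_vz D (hX'.sub (lip_const _)) (hY'.sub (lip_const _)) hZ⟩

/-- the metrics agree near the curve -/
theorem new_near [CompactSpace M] {u : M → ℝ} (hu : Lip u) : ∃ r : ℝ, 0 < r ∧ ∀ᵐ o ∂C.μ,
    Metric.infDist (C.pt o) (range γ) < r → D.det o = 1 ∧ (newC D).gx u o = C.gx u o ∧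
      (newC D).gy u o = C.gy u o := by
  obtain ⟨r, hr, h1⟩ := D.near
  refine ⟨r, hr, ?_⟩
  filter_upwards [h1, new_grad D hu] with o h2 h3 hd
  obtain ⟨a1, b1, c1, d1⟩ := h2 hd
  rw [h3.1, h3.2]
  unfold Fr.det
  rw [a1, b1, c1, d1]
  norm_num

end Pool.Agent.FPM
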