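import Mathlib
import Pool.Agent.FPM.NMI
import Pool.Agent.FPM.ARP

/-
ARN (helper69): the area inequality is inherited by a change of metric.
-/

open MeasureTheory Set Filter Topology
open scoped ENNReal NNReal

noncomputable section

namespace Pool.Agent.FPM

open Pool.Agent.EWD

variable {M : Type} [MetricSpace M] {γ : ℝ → M} {C : CalcR M γ} (D : Dat C)

theorem nu_lint {f : Om → ℝ≥0∞} (T : Set Om) (hT : MeasurableSet T) (hf : AEMeasurable f C.μ) :
    ∫⁻ o in T, f o ∂(nu D) = ∫⁻ o in T, ENNReal.ofReal (1 / D.det o) * f o ∂C.μ := by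
  have hm := (meas_dens D.toFr).aemeasurable (μ := C.μ)
  rw [← lintegral_indicator hT, ← lintegral_indicator hT]
  unfold nu
  rw [lintegral_withDensity_eq_lintegral_mul₀ hm (hf.indicator hT)]
  refine lintegral_congr fun o => ?_
  simp only [Pi.mul_apply]
  by_cases h : o ∈ T
  · rw [indicator_of_mem h, indicator_of_mem h]
  · rw [indicator_of_notMem h, indicator_of_notMem h, mul_zero]

theorem new_areaP [CompactSpace M] (h : AreaP C.toCalc) : AreaP (newC D) := by
  obtain ⟨O0, mO, h1, h2, h3⟩ := h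
  refine ⟨O0, mO, ?_, nu_ac D h2, ?_⟩
  · intro x
    obtain ⟨o, ho, hx⟩ := h1 (ofMM D x)
    refine ⟨o, ho, ?_⟩
    rw [new_pt, hx]
    rfl
  · intro X Y hX hY T hT hTO
    have hX' := (lip_iff D X).1 hX
    have hY' := (lip_iff D Y).1 hY
    have e1 : ((fun x : MM D => (X x, Y x)) '' ((newC D).pt '' T)) =
        (fun x : M => (X x, Y x)) '' (C.pt '' T) := by
      ext p
      constructor
      · rintro ⟨_, ⟨o, ho, rfl⟩, rfl⟩
        refine ⟨C.pt o, ⟨o, ho, rfl⟩, ?_⟩
        rw [new_pt]
        rfl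
      · rintro ⟨_, ⟨o, ho, rfl⟩, rfl⟩
        refine ⟨(newC D).pt o, ⟨o, ho, rfl⟩, ?_⟩
        rw [new_pt]
        rfl
    rw [e1]
    refine (h3 X Y hX' hY' T hT hTO).trans (le_of_eq ?_)
    have hw : AEMeasurable (C.wed X Y) C.μ := by
      unfold Calc.wed
      exact ((C.meas_gx hX').mul (C.meas_gy hY')).sub ((C.meas_gy hX').mul (C.meas_gx hY'))
    have hw' : AEMeasurable (fun o => ENNReal.ofReal |(newC D).wed X Y o|) C.μ := by
      have h4 : AEMeasurable (fun o => ENNReal.ofReal |D.det o * C.wed X Y o|) C.μ :=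
        (measurable_norm.comp_aemeasurable (D.meas_det.aemeasurable.mul hw)).ennreal_ofReal
      refine h4.congr ?_
      filter_upwards [new_wed D hX' hY'] with o ho
      rw [ho]
    change _ = ∫⁻ o in T, ENNReal.ofReal |(newC D).wed X Y o| ∂(nu D)
    rw [nu_lint D T hT hw']
    refine setLIntegral_congr_fun_ae hT ?_
    filter_upwards [new_wed D hX' hY'] with o ho _
    have h5 := D.det_pos o
    rw [ho, abs_mul, abs_of_pos h5, ← ENNReal.ofReal_mul (one_div_pos.2 h5).le, ← mul_assoc,
      one_div_mul_cancel h5.ne', one_mul]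

end Pool.Agent.FPM
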