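import Mathlib

/-
COLB (helper25): integrals over thin strips `{a < h(s) τ}`.
-/

open MeasureTheory Set Filter Measure
open scoped Topology ENNReal NNReal

namespace Pool.Agent.FPM

theorem map_scale {τ : ℝ} (hτ : 0 < τ) :
    Measure.map (Prod.map (fun a : ℝ => τ * a) (id : ℝ → ℝ)) (volume : Measure (ℝ × ℝ))
      = ENNReal.ofReal τ⁻¹ • (volume : Measure (ℝ × ℝ)) := by
  have h1 : Measure.map (fun a : ℝ => τ * a) (volume : Measure ℝ)
      = ENNReal.ofReal τ⁻¹ • (volume : Measure ℝ) := by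
    have := Real.map_volume_mul_left hτ.ne'
    rw [this, abs_of_pos (inv_pos.2 hτ)]
  have h2 : (volume : Measure (ℝ × ℝ)) = (volume : Measure ℝ).prod (volume : Measure ℝ) := rfl
  rw [h2]
  rw [← Measure.map_prod_map (volume : Measure ℝ) (volume : Measure ℝ)
    (by fun_prop : Measurable (fun a : ℝ => τ * a)) (measurable_id)]
  rw [h1, Measure.map_id, Measure.prod_smul_left]

theorem int_scale {τ : ℝ} (hτ : 0 < τ) (f : ℝ × ℝ → ℝ) :
    ∫ p : ℝ × ℝ, f (τ * p.1, p.2) = τ⁻¹ * ∫ p, f p := by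
  have hm : MeasurableEmbedding (Prod.map (fun a : ℝ => τ * a) (id : ℝ → ℝ)) := by
    have h1 : MeasurableEmbedding (fun a : ℝ => τ * a) := measurableEmbedding_mulLeft₀ hτ.ne'
    exact h1.prodMap MeasurableEmbedding.id
  have h2 := hm.integral_map (μ := (volume : Measure (ℝ × ℝ))) f
  rw [map_scale hτ, integral_smul_measure] at h2
  rw [ENNReal.toReal_ofReal (inv_pos.2 hτ).le, smul_eq_mul] at h2
  rw [h2]
  rfl

theorem strip {Ψ : ℝ × ℝ → ℝ} (hm : Measurable Ψ) {B : ℝ} (hB : ∀ p, |Ψ p| ≤ B) {s0 r : ℝ}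
    (h0 : ∀ p : ℝ × ℝ, Ψ p ≠ 0 → 0 ≤ p.1 ∧ |p.2 - s0| ≤ r)
    (hlim : ∀ᵐ s : ℝ, Tendsto (fun a : ℝ => Ψ (a, s)) (𝓝[>] 0) (𝓝 (Ψ (0, s))))
    {h : ℝ → ℝ} (hh : Measurable h) {Q : ℝ} (hQ : ∀ s, 0 ≤ h s ∧ h s ≤ Q) :
    Tendsto (fun τ : ℝ => τ⁻¹ * ∫ p : ℝ × ℝ, (if p.1 < h p.2 * τ then Ψ p else 0)) (𝓝[>] 0)
      (𝓝 (∫ s, h s * Ψ (0, s))) := by
  classical
  have hB0 : 0 ≤ B := (abs_nonneg _).trans (hB (0, 0))
  -- the rescaled functions
  set G : ℝ → ℝ × ℝ → ℝ := fun τ p => if p.1 < h p.2 then Ψ (τ * p.1, p.2) else 0 with hG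
  set G0 : ℝ × ℝ → ℝ := fun p => if 0 ≤ p.1 ∧ p.1 < h p.2 then Ψ (0, p.2) else 0 with hG0
  have hset : MeasurableSet {p : ℝ × ℝ | p.1 < h p.2} :=
    measurableSet_lt measurable_fst (hh.comp measurable_snd)
  have hGm : ∀ τ, Measurable (G τ) := by
    intro τ
    exact Measurable.ite hset (hm.comp ((measurable_fst.const_mul τ).prodMk measurable_snd))
      measurable_const
  have hG0m : Measurable G0 := by
    apply Measurable.ite _ (hm.comp (measurable_const.prodMk measurable_snd)) measurable_const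
    exact (measurableSet_le measurable_const measurable_fst).inter hset
  have hre : ∀ τ : ℝ, 0 < τ →
      τ⁻¹ * ∫ p : ℝ × ℝ, (if p.1 < h p.2 * τ then Ψ p else 0) = ∫ p, G τ p := by
    intro τ hτ
    rw [← int_scale hτ]
    apply integral_congr_ae
    refine Eventually.of_forall fun p => ?_
    simp only [hG]
    have : τ * p.1 < h p.2 * τ ↔ p.1 < h p.2 := by
      rw [mul_comm, mul_lt_mul_iff_left₀ hτ]
    simp only [this]
  -- domination
  set T : Set (ℝ × ℝ) := Icc 0 Q ×ˢ Icc (s0 - r) (s0 + r) with hT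
  have hTm : MeasurableSet T := measurableSet_Icc.prod measurableSet_Icc
  have hTf : volume T ≠ ∞ := by
    have : (volume : Measure (ℝ × ℝ)) T = volume (Icc 0 Q) * volume (Icc (s0 - r) (s0 + r)) :=
      Measure.prod_prod _ _
    rw [this, Real.volume_Icc, Real.volume_Icc]
    exact ENNReal.mul_ne_top ENNReal.ofReal_ne_top ENNReal.ofReal_ne_top
  set bd : ℝ × ℝ → ℝ := T.indicator (fun _ => B) with hbd
  have hbdi : Integrable bd := by
    rw [hbd, integrable_indicator_iff hTm]
    exact integrableOn_const hTf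
  have hGb : ∀ τ : ℝ, 0 < τ → ∀ p, ‖G τ p‖ ≤ bd p := by
    intro τ hτ p
    by_cases hp : G τ p = 0
    · rw [hp, norm_zero]
      exact indicator_nonneg (fun _ _ => hB0) _
    · have hp1 : p.1 < h p.2 := by
        by_contra hcon
        exact hp (by simp only [hG]; rw [if_neg hcon])
      have hp2 : G τ p = Ψ (τ * p.1, p.2) := by simp only [hG]; rw [if_pos hp1]
      rw [hp2] at hp ⊢
      obtain ⟨h3, h4⟩ := h0 _ hp
      have h5 : 0 ≤ p.1 := by
        by_contra hcon
        push Not at hcon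
        have := mul_neg_of_pos_of_neg hτ hcon
        simp only at h3
        linarith
      have hpT : p ∈ T := by
        refine ⟨⟨h5, hp1.le.trans (hQ _).2⟩, ?_⟩
        simp only [abs_le] at h4
        exact ⟨by linarith [h4.1], by linarith [h4.2]⟩
      rw [hbd, indicator_of_mem hpT]
      exact hB _
  have hG0b : ∀ p, ‖G0 p‖ ≤ bd p := by
    intro p
    by_cases hp : G0 p = 0
    · rw [hp, norm_zero]
      exact indicator_nonneg (fun _ _ => hB0) _
    · have hp1 : 0 ≤ p.1 ∧ p.1 < h p.2 := by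
        by_contra hcon
        exact hp (by simp only [hG0]; rw [if_neg hcon])
      have hp2 : G0 p = Ψ (0, p.2) := by simp only [hG0]; rw [if_pos hp1]
      rw [hp2] at hp ⊢
      obtain ⟨h3, h4⟩ := h0 _ hp
      have hpT : p ∈ T := by
        refine ⟨⟨hp1.1, hp1.2.le.trans (hQ _).2⟩, ?_⟩
        simp only [abs_le] at h4
        exact ⟨by linarith [h4.1], by linarith [h4.2]⟩
      rw [hbd, indicator_of_mem hpT]
      exact hB _
  have hG0i : Integrable G0 := hbdi.mono' hG0m.aestronglyMeasurable (Eventually.of_forall hG0b)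
  -- the pointwise limit
  have hpl : ∀ᵐ p : ℝ × ℝ, Tendsto (fun τ => G τ p) (𝓝[>] 0) (𝓝 (G0 p)) := by
    have h1 : ∀ᵐ p : ℝ × ℝ, Tendsto (fun a : ℝ => Ψ (a, p.2)) (𝓝[>] 0) (𝓝 (Ψ (0, p.2))) := by
      have hq : QuasiMeasurePreserving (Prod.snd : ℝ × ℝ → ℝ)
        (volume : Measure (ℝ × ℝ)) (volume : Measure ℝ) := quasiMeasurePreserving_snd
      exact hq.ae hlim
    filter_upwards [h1] with p hp
    by_cases hp1 : p.1 < h p.2
    · rcases lt_trichotomy p.1 0 with hlt | heq | hgt
      · have : G0 p = 0 := by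
          simp only [hG0]; rw [if_neg]; rintro ⟨h3, -⟩; linarith
        rw [this]
        apply tendsto_const_nhds.congr'
        filter_upwards [self_mem_nhdsWithin] with τ hτ
        by_contra hcon
        have h4 : G τ p = Ψ (τ * p.1, p.2) := by simp only [hG]; rw [if_pos hp1]
        rw [h4] at hcon
        have h5 := (h0 _ (fun h => hcon h.symm)).1
        have := mul_neg_of_pos_of_neg (mem_Ioi.1 hτ) hlt
        simp only at h5
        linarith
      · have h2 : G0 p = Ψ (0, p.2) := by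
          simp only [hG0]; rw [if_pos ⟨heq.ge, hp1⟩]
        have h3 : (fun τ => G τ p) = fun _ => Ψ (0, p.2) := by
          funext τ
          simp only [hG]; rw [if_pos hp1, heq, mul_zero]
        rw [h2, h3]
        exact tendsto_const_nhds
      · have h2 : G0 p = Ψ (0, p.2) := by
          simp only [hG0]; rw [if_pos ⟨hgt.le, hp1⟩]
        have h3 : (fun τ => G τ p) = fun τ => Ψ (τ * p.1, p.2) := by
          funext τ
          simp only [hG]; rw [if_pos hp1]
        rw [h2, h3]
        apply hp.comp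
        apply tendsto_nhdsWithin_iff.2
        constructor
        · have : Tendsto (fun τ : ℝ => τ * p.1) (𝓝 0) (𝓝 (0 * p.1)) :=
            tendsto_id.mul_const _
          rw [zero_mul] at this
          exact this.mono_left nhdsWithin_le_nhds
        · filter_upwards [self_mem_nhdsWithin] with τ hτ
          exact mul_pos hτ hgt
    · have h2 : G0 p = 0 := by
        simp only [hG0]; rw [if_neg]; rintro ⟨-, h3⟩; exact hp1 h3
      have h3 : (fun τ => G τ p) = fun _ => 0 := by
        funext τ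
        simp only [hG]; rw [if_neg hp1]
      rw [h2, h3]
      exact tendsto_const_nhds
  have hmain : Tendsto (fun τ => ∫ p, G τ p) (𝓝[>] 0) (𝓝 (∫ p, G0 p)) := by
    apply tendsto_integral_filter_of_dominated_convergence bd
    · exact Eventually.of_forall fun τ => (hGm τ).aestronglyMeasurable
    · filter_upwards [self_mem_nhdsWithin] with τ hτ
      exact Eventually.of_forall (hGb τ hτ)
    · exact hbdi
    · exact hpl
  have hfin : ∫ p, G0 p = ∫ s, h s * Ψ (0, s) := by
    have h1 : ∫ p : ℝ × ℝ, G0 p = ∫ s, ∫ a, G0 (a, s) := integral_prod_symm _ hG0i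
    rw [h1]
    congr 1
    funext s
    have h2 : (fun a => G0 (a, s)) = (Ico 0 (h s)).indicator (fun _ => Ψ (0, s)) := by
      funext a
      simp only [hG0, indicator, mem_Ico]
    rw [h2, integral_indicator measurableSet_Ico, setIntegral_const, smul_eq_mul]
    congr 1
    rw [measureReal_def, Real.volume_Ico, sub_zero, ENNReal.toReal_ofReal (hQ s).1]
  rw [← hfin]
  apply hmain.congr'
  filter_upwards [self_mem_nhdsWithin] with τ hτ
  exact (hre τ hτ).symm

end Pool.Agent.FPM
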