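import Mathlib
import Pool.Agent.H74.FAC.Riem3

/-
LLD (helper25): sharp local lower bounds of the Riemannian distance in a chart: a linear functional
which is bounded by `c` times the Riemannian norm near a point is, in the chart, locally
`c`-Lipschitz for the Riemannian distance (boundary points included).
-/

open MeasureTheory Set Filter Measure Manifold Bundle
open scoped ContDiff Topology ENNReal NNReal

set_option linter.unusedSectionVars false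

namespace Pool.Agent.FPM

open Pool.Agent.H74.FAC

variable {M : Type} [MetricSpace M] [ChartedSpace HP M] [IsManifold (𝓡∂ 2) ∞ M]
  [RiemannianBundle (fun x : M => TangentSpace (𝓡∂ 2) x)]
  [IsContMDiffRiemannianBundle (𝓡∂ 2) ∞ E2 (fun x : M => TangentSpace (𝓡∂ 2) x)]
  [IsRiemannianManifold (𝓡∂ 2) M]
  {e : OpenPartialHomeomorph M HP}

theorem ext_mdiff (he : e ∈ IsManifold.maximalAtlas (𝓡∂ 2) ∞ M) {y : M} (hy : y ∈ e.source) :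
    MDifferentiableAt (𝓡∂ 2) 𝓘(ℝ, E2) (e.extend (𝓡∂ 2)) y := by
  exact (e.contMDiffAt_extend he hy).mdifferentiableAt (by simp)

theorem norm_cast_tangent {p q : M} (h : p = q) (v : E2) :
    @norm (TangentSpace (𝓡∂ 2) p) _ v = @norm (TangentSpace (𝓡∂ 2) q) _ v := by
  subst h; rfl

/-- the derivative of the inverse chart is inverse to the derivative of the chart -/
theorem dv_mfderiv (he : e ∈ IsManifold.maximalAtlas (𝓡∂ 2) ∞ M) {y : M} (hy : y ∈ e.source)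
    (ξ : TangentSpace (𝓡∂ 2) y) :
    ‖dv e (e.extend (𝓡∂ 2) y) (mfderiv (𝓡∂ 2) 𝓘(ℝ, E2) (e.extend (𝓡∂ 2)) y ξ)‖ = ‖ξ‖ := by
  set φ := e.extend (𝓡∂ 2) with hφ
  have hyt : φ y ∈ φ.target := ext_mem_target hy
  have hys : φ.symm (φ y) = y := ext_left_inv hy
  have hf : HasMFDerivWithinAt (𝓡∂ 2) 𝓘(ℝ, E2) φ e.source y (mfderiv (𝓡∂ 2) 𝓘(ℝ, E2) φ y) :=
    (ext_mdiff he hy).hasMFDerivAt.hasMFDerivWithinAt
  have hg0 : MDifferentiableWithinAt 𝓘(ℝ, E2) (𝓡∂ 2) φ.symm (range (𝓡∂ 2)) (φ y) := by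
    have h1 : MDifferentiableWithinAt 𝓘(ℝ, E2) (𝓡∂ 2) φ.symm φ.target (φ y) :=
      ((cmd_symm he) _ hyt).mdifferentiableWithinAt (by simp)
    exact h1.mono_of_mem_nhdsWithin (target_mem_nhdsWithin hyt)
  have hg := hg0.hasMFDerivWithinAt
  have hst : e.source ⊆ φ ⁻¹' (range (𝓡∂ 2)) := by
    intro x hx
    exact e.extend_target_subset_range (ext_mem_target hx)
  have hcomp := hg.comp y hf hst
  have hcomp' : HasMFDerivAt (𝓡∂ 2) (𝓡∂ 2) (φ.symm ∘ φ) y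
      ((mfderivWithin 𝓘(ℝ, E2) (𝓡∂ 2) φ.symm (range (𝓡∂ 2)) (φ y)).comp
        (mfderiv (𝓡∂ 2) 𝓘(ℝ, E2) φ y)) := hcomp.hasMFDerivAt (e.open_source.mem_nhds hy)
  have hev : (fun x : M => x) =ᶠ[𝓝 y] (φ.symm ∘ φ) := by
    filter_upwards [e.open_source.mem_nhds hy] with x hx
    exact (ext_left_inv hx).symm
  have hid : HasMFDerivAt (𝓡∂ 2) (𝓡∂ 2) (fun x : M => x) y
      ((mfderivWithin 𝓘(ℝ, E2) (𝓡∂ 2) φ.symm (range (𝓡∂ 2)) (φ y)).comp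
        (mfderiv (𝓡∂ 2) 𝓘(ℝ, E2) φ y)) := hcomp'.congr_of_eventuallyEq hev
  have h3 := hasMFDerivAt_unique hid (hasMFDerivAt_id y)
  have h4 : (mfderivWithin 𝓘(ℝ, E2) (𝓡∂ 2) φ.symm (range (𝓡∂ 2)) (φ y)
      (mfderiv (𝓡∂ 2) 𝓘(ℝ, E2) φ y ξ) : E2) = (ξ : E2) := by
    have h5 := congrArg (fun L => (L ξ : E2)) h3
    exact h5
  refine (norm_cast_tangent hys (mfderivWithin 𝓘(ℝ, E2) (𝓡∂ 2) φ.symm (range (𝓡∂ 2)) (φ y)
      (mfderiv (𝓡∂ 2) 𝓘(ℝ, E2) φ y ξ) : E2)).trans ?_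
  exact congrArg (fun v : TangentSpace (𝓡∂ 2) y => ‖v‖) h4

/-- a path in the controlled set -/
theorem lld_path (he : e ∈ IsManifold.maximalAtlas (𝓡∂ 2) ∞ M) (ℓ : E2 →L[ℝ] ℝ) {c : ℝ}
    (hc : 0 ≤ c) {s : Set M} (hs : ∀ y ∈ s, y ∈ e.source ∧ ∀ v : E2, |ℓ v| ≤ c * ‖dv e (e.extend (𝓡∂ 2) y) v‖)
    {γ : ℝ → M} (hγ : ContMDiffOn 𝓘(ℝ, ℝ) (𝓡∂ 2) 1 γ (Icc 0 1))
    (hmem : ∀ t ∈ Icc (0:ℝ) 1, γ t ∈ s) :
    ENNReal.ofReal |ℓ (e.extend (𝓡∂ 2) (γ 1) - e.extend (𝓡∂ 2) (γ 0))| ≤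
      ENNReal.ofReal c * pathELength (𝓡∂ 2) γ 0 1 := by
  have : IsManifold (𝓡∂ 2) 1 M := IsManifold.of_le (n := ∞) (by simp)
  set φ := e.extend (𝓡∂ 2) with hφ
  have hC : ContMDiffOn 𝓘(ℝ, ℝ) 𝓘(ℝ, E2) 1 (φ ∘ γ) (Icc 0 1) :=
    ((e.contMDiffOn_extend he).of_le (by simp)).comp (I' := 𝓡∂ 2) hγ (fun t' ht' ↦ (hs _ (hmem t' ht')).1)
  have hC' : ContDiffOn ℝ 1 (φ ∘ γ) (Icc 0 1) := contMDiffOn_iff_contDiffOn.1 hC
  set f : ℝ → ℝ := fun t => ℓ ((φ ∘ γ) t) with hf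
  have hfC : ContDiffOn ℝ 1 f (Icc 0 1) := ℓ.contDiff.comp_contDiffOn hC'
  have h1 : ‖f 1 - f 0‖ₑ ≤ ∫⁻ t in Icc (0:ℝ) 1, ‖derivWithin f (Icc 0 1) t‖ₑ :=
    enorm_sub_le_lintegral_derivWithin_Icc_of_contDiffOn_Icc hfC zero_le_one
  have h3 : ∀ t ∈ Icc (0:ℝ) 1, ‖derivWithin f (Icc 0 1) t‖ₑ ≤
      ENNReal.ofReal c * ‖mfderivWithin 𝓘(ℝ, ℝ) (𝓡∂ 2) γ (Icc 0 1) t 1‖ₑ := by
    intro t ht
    have hud : UniqueDiffWithinAt ℝ (Icc (0:ℝ) 1) t := uniqueDiffOn_Icc zero_lt_one t ht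
    have hd : HasDerivWithinAt (φ ∘ γ) (derivWithin (φ ∘ γ) (Icc 0 1) t) (Icc 0 1) t :=
      ((hC'.differentiableOn one_ne_zero) t ht).hasDerivWithinAt
    have h4 : derivWithin f (Icc 0 1) t = ℓ (derivWithin (φ ∘ γ) (Icc 0 1) t) :=
      (ℓ.hasFDerivAt.comp_hasDerivWithinAt t hd).derivWithin hud
    have h5 : (derivWithin (φ ∘ γ) (Icc 0 1) t : E2) =
        mfderiv (𝓡∂ 2) 𝓘(ℝ, E2) φ (γ t) (mfderivWithin 𝓘(ℝ, ℝ) (𝓡∂ 2) γ (Icc 0 1) t 1) := by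
      have h6 : mfderivWithin 𝓘(ℝ, ℝ) 𝓘(ℝ, E2) (φ ∘ γ) (Icc 0 1) t =
          (mfderiv (𝓡∂ 2) 𝓘(ℝ, E2) φ (γ t)) ∘L
            (mfderivWithin 𝓘(ℝ, ℝ) (𝓡∂ 2) γ (Icc 0 1) t) := by
        apply mfderiv_comp_mfderivWithin
        · exact ext_mdiff he (hs _ (hmem t ht)).1
        · exact (hγ.mdifferentiableOn one_ne_zero) t ht
        · rw [uniqueMDiffWithinAt_iff_uniqueDiffWithinAt]
          exact hud
      rw [← fderivWithin_derivWithin, ← mfderivWithin_eq_fderivWithin, h6]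
      rfl
    have h7 := (hs _ (hmem t ht)).2 (derivWithin (φ ∘ γ) (Icc 0 1) t)
    have h8 : ‖dv e (φ (γ t)) (derivWithin (φ ∘ γ) (Icc 0 1) t)‖
        = ‖mfderivWithin 𝓘(ℝ, ℝ) (𝓡∂ 2) γ (Icc 0 1) t 1‖ := by
      rw [h5]
      exact dv_mfderiv he (hs _ (hmem t ht)).1 _
    rw [h8] at h7
    rw [h4, ← ofReal_norm, ← ofReal_norm, ← ENNReal.ofReal_mul hc]
    exact ENNReal.ofReal_le_ofReal h7
  calc ENNReal.ofReal |ℓ (φ (γ 1) - φ (γ 0))| = ‖f 1 - f 0‖ₑ := by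
        rw [← ofReal_norm, Real.norm_eq_abs, hf]
        simp only [Function.comp, map_sub]
    _ ≤ _ := h1
    _ ≤ ∫⁻ t in Icc (0:ℝ) 1, ENNReal.ofReal c *
          ‖mfderivWithin 𝓘(ℝ, ℝ) (𝓡∂ 2) γ (Icc 0 1) t 1‖ₑ :=
        setLIntegral_mono' measurableSet_Icc h3
    _ = _ := by
        rw [lintegral_const_mul' _ _ ENNReal.ofReal_ne_top,
          pathELength_eq_lintegral_mfderivWithin_Icc]

/-- sharp local lower bound of the distance -/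
theorem lld (he : e ∈ IsManifold.maximalAtlas (𝓡∂ 2) ∞ M) {x₀ : M} (hx₀ : x₀ ∈ e.source)
    (ℓ : E2 →L[ℝ] ℝ) {c : ℝ} (hc : 0 ≤ c)
    (h : ∀ᶠ y in 𝓝 x₀, ∀ v : E2, |ℓ v| ≤ c * ‖dv e (e.extend (𝓡∂ 2) y) v‖) :
    ∃ δ > 0, ∀ x y : M, dist x x₀ < δ → dist y x₀ < δ → x ∈ e.source ∧ y ∈ e.source ∧
      |ℓ (e.extend (𝓡∂ 2) y - e.extend (𝓡∂ 2) x)| ≤ c * dist x y := by
  have h1 : ∀ᶠ y in 𝓝 x₀, y ∈ e.source ∧ ∀ v : E2, |ℓ v| ≤ c * ‖dv e (e.extend (𝓡∂ 2) y) v‖ := by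
    filter_upwards [e.open_source.mem_nhds hx₀, h] with y h2 h3 using ⟨h2, h3⟩
  obtain ⟨r, hr, hball⟩ := Metric.eventually_nhds_iff_ball.1 h1
  refine ⟨r / 4, by positivity, fun x y hx hy => ?_⟩
  have hxs : x ∈ Metric.ball x₀ r := by rw [Metric.mem_ball]; linarith
  have hys : y ∈ Metric.ball x₀ r := by rw [Metric.mem_ball]; linarith
  refine ⟨(hball x hxs).1, (hball y hys).1, ?_⟩
  have hxy : dist x y < r / 2 := by
    have := dist_triangle_right x y x₀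
    linarith
  apply le_of_forall_pos_le_add
  intro ε hε
  -- a path of length at most `dist x y + η`
  set η : ℝ := min (r / 4) (ε / (c + 1)) with hη
  have hη0 : 0 < η := lt_min (by positivity) (by positivity)
  have hd0 : 0 < dist x y + η := add_pos_of_nonneg_of_pos dist_nonneg hη0
  have h2 : riemannianEDist (𝓡∂ 2) x y < ENNReal.ofReal (dist x y + η) := by
    rw [← IsRiemannianManifold.out (I := 𝓡∂ 2), edist_dist]
    exact (ENNReal.ofReal_lt_ofReal_iff hd0).2 (by linarith)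
  obtain ⟨γ, hγ0, hγ1, hγs, hγl⟩ := exists_lt_of_riemannianEDist_lt h2
  have hmem : ∀ t ∈ Icc (0:ℝ) 1, γ t ∈ Metric.ball x₀ r := by
    intro t ht
    have h3 : riemannianEDist (𝓡∂ 2) x (γ t) ≤ pathELength (𝓡∂ 2) γ 0 t :=
      riemannianEDist_le_pathELength (hγs.mono (Icc_subset_Icc_right ht.2)) hγ0 rfl ht.1
    have h4 : pathELength (𝓡∂ 2) γ 0 t ≤ pathELength (𝓡∂ 2) γ 0 1 :=
      pathELength_mono le_rfl ht.2
    have h5 : edist x (γ t) < ENNReal.ofReal (dist x y + η) := by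
      rw [IsRiemannianManifold.out (I := 𝓡∂ 2)]
      exact (h3.trans h4).trans_lt hγl
    rw [edist_dist, ENNReal.ofReal_lt_ofReal_iff hd0] at h5
    rw [Metric.mem_ball]
    have h6 := dist_triangle_left (γ t) x₀ x
    have h7 : η ≤ r / 4 := min_le_left _ _
    linarith
  have h6 := lld_path he ℓ hc (fun y hy => hball y hy) hγs hmem
  rw [hγ0, hγ1] at h6
  have h7 : ENNReal.ofReal |ℓ (e.extend (𝓡∂ 2) y - e.extend (𝓡∂ 2) x)| ≤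
      ENNReal.ofReal (c * (dist x y + η)) := by
    rw [ENNReal.ofReal_mul hc]
    exact h6.trans (by gcongr)
  have h8 := (ENNReal.ofReal_le_ofReal_iff (by positivity)).1 h7
  have h9 : c * η ≤ ε := by
    have h10 : η ≤ ε / (c + 1) := min_le_right _ _
    rw [le_div_iff₀ (by positivity)] at h10
    nlinarith
  linarith

end Pool.Agent.FPM
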