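import Mathlib
import Pool.Agent.FPM.LLD
import Pool.Agent.H74.FAC.Bdry2
import Pool.Agent.EWD.GRM

/-
COLA (helper25): dual norms in charts, the height function near the boundary is at most
`(√(g₂₂/det g) + η)` times the distance to the boundary.
-/

open MeasureTheory Set Filter Measure Manifold Bundle
open scoped ContDiff Topology ENNReal NNReal

set_option linter.unusedSectionVars false

namespace Pool.Agent.FPM

open Pool.Agent.H74.FAC Pool.Agent.EWD

variable {M : Type} [MetricSpace M] [ChartedSpace HP M] [IsManifold (𝓡∂ 2) ∞ M] [CompactSpace M]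
  [RiemannianBundle (fun x : M => TangentSpace (𝓡∂ 2) x)]
  [IsContMDiffRiemannianBundle (𝓡∂ 2) ∞ E2 (fun x : M => TangentSpace (𝓡∂ 2) x)]
  [IsRiemannianManifold (𝓡∂ 2) M]
  {e : OpenPartialHomeomorph M HP}

/-- the norm of the covector `(α, β)` -/
noncomputable def dn (e : OpenPartialHomeomorph M HP) (α β : ℝ) (z : E2) : ℝ :=
  √((g2 e z * α ^ 2 - 2 * g1 e z * (α * β) + g0 e z * β ^ 2) / dg e z)

theorem col_continuousOn_g2 (he : e ∈ IsManifold.maximalAtlas (𝓡∂ 2) ∞ M) :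
    ContinuousOn (g2 e) (e.extend (𝓡∂ 2)).target :=
  continuousOn_inner_dv he _ _

theorem continuousOn_dn (he : e ∈ IsManifold.maximalAtlas (𝓡∂ 2) ∞ M) (α β : ℝ) :
    ContinuousOn (dn e α β) (e.extend (𝓡∂ 2)).target := by
  unfold dn
  apply ContinuousOn.sqrt
  apply ContinuousOn.div
  · exact (((col_continuousOn_g2 he).mul continuousOn_const).sub
      ((continuousOn_const.mul (continuousOn_g1 he)).mul continuousOn_const)).add
      ((continuousOn_g0 he).mul continuousOn_const)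
  · exact continuousOn_dg he
  · exact fun z hz => (dg_pos he hz).ne'

theorem v_eq (v : E2) : v = v 0 • bv 0 + v 1 • bv 1 := by
  rw [← pt_eq, pt_self]

/-- Cauchy-Schwarz inequality with the dual norm -/
theorem abs_lin_le (he : e ∈ IsManifold.maximalAtlas (𝓡∂ 2) ∞ M) (α β : ℝ)
    {z : E2} (hz : z ∈ (e.extend (𝓡∂ 2)).target) (v : E2) :
    |α * v 0 + β * v 1| ≤ dn e α β z * ‖dv e z v‖ := by
  have hd := dg_pos he hz
  have h1 := norm_dv_sq e z (v 0) (v 1)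
  rw [← v_eq v] at h1
  unfold dn
  rw [← Real.sqrt_sq (norm_nonneg (dv e z v)), ← Real.sqrt_mul', h1]
  swap
  · positivity
  apply Real.abs_le_sqrt
  rw [div_mul_eq_mul_div, le_div_iff₀ hd]
  unfold dg
  nlinarith [sq_nonneg (α * (g1 e z * v 0 + g2 e z * v 1) - β * (g0 e z * v 0 + g1 e z * v 1))]

/-- the functional `(α, β)` -/
noncomputable def lf (α β : ℝ) : E2 →L[ℝ] ℝ :=
  α • EuclideanSpace.proj (0 : Fin 2) + β • EuclideanSpace.proj (1 : Fin 2)

theorem lf_apply (α β : ℝ) (v : E2) : lf α β v = α * v 0 + β * v 1 := by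
  simp [lf]

theorem lld2 (he : e ∈ IsManifold.maximalAtlas (𝓡∂ 2) ∞ M) {x₀ : M} (hx₀ : x₀ ∈ e.source)
    (α β : ℝ) {c : ℝ} (hc : dn e α β (e.extend (𝓡∂ 2) x₀) < c) :
    ∃ δ > 0, ∀ x y : M, dist x x₀ < δ → dist y x₀ < δ → x ∈ e.source ∧ y ∈ e.source ∧
      |α * ((e.extend (𝓡∂ 2) y) 0 - (e.extend (𝓡∂ 2) x) 0)
        + β * ((e.extend (𝓡∂ 2) y) 1 - (e.extend (𝓡∂ 2) x) 1)| ≤ c * dist x y := by
  have hc0 : 0 ≤ c := (Real.sqrt_nonneg _).trans hc.le
  have hcont : ContinuousAt (fun y => dn e α β (e.extend (𝓡∂ 2) y)) x₀ := by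
    have h1 : ContinuousOn (fun y => dn e α β (e.extend (𝓡∂ 2) y)) e.source := by
      apply (continuousOn_dn he α β).comp
      · have := e.continuousOn_extend (I := 𝓡∂ 2)
        rwa [OpenPartialHomeomorph.extend_source] at this
      · exact fun y hy => ext_mem_target hy
    exact h1.continuousAt (e.open_source.mem_nhds hx₀)
  have hev : ∀ᶠ y in 𝓝 x₀, ∀ v : E2, |lf α β v| ≤ c * ‖dv e (e.extend (𝓡∂ 2) y) v‖ := by
    filter_upwards [hcont.eventually (gt_mem_nhds hc), e.open_source.mem_nhds hx₀] with y h1 h2 v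
    rw [lf_apply]
    refine (abs_lin_le he α β (ext_mem_target h2) v).trans ?_
    exact mul_le_mul_of_nonneg_right (le_of_lt h1) (norm_nonneg _)
  obtain ⟨δ, hδ, h⟩ := lld he hx₀ (lf α β) hc0 hev
  refine ⟨δ, hδ, fun x y hx hy => ?_⟩
  obtain ⟨a, b, h3⟩ := h x y hx hy
  refine ⟨a, b, ?_⟩
  rw [lf_apply] at h3
  exact h3

theorem col_g2_pos (he : e ∈ IsManifold.maximalAtlas (𝓡∂ 2) ∞ M) {z : E2}
    (hz : z ∈ (e.extend (𝓡∂ 2)).target) : 0 < g2 e z := by
  have h0 := g0_pos he hz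
  have h1 := dg_pos he hz
  unfold dg at h1
  nlinarith [mul_self_nonneg (g1 e z)]

/-- the arclength parameter of the boundary curve has derivative at least `√g₂₂` -/
theorem tang (P : Patch M) {φ : S1 → M} (hφ : IsometricFilling φ) {τ : ℝ → ℝ}
    (hτ : ∀ s ∈ P.J, φ (τ s : S1) = (P.e.extend (𝓡∂ 2)).symm (pt 0 s)) {s : ℝ} (hs : s ∈ P.J)
    (hd : DifferentiableAt ℝ τ s) : √(g2 P.e (pt 0 s)) ≤ |deriv τ s| := by
  have ht : pt 0 s ∈ (P.e.extend (𝓡∂ 2)).target := P.sub (P.mem_D_J hs)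
  set x₀ := (P.e.extend (𝓡∂ 2)).symm (pt 0 s) with hx₀
  have hx₀s : x₀ ∈ P.e.source := symm_mem_source ht
  have hex : P.e.extend (𝓡∂ 2) x₀ = pt 0 s := (P.e.extend (𝓡∂ 2)).right_inv ht
  have hg2 := col_g2_pos P.he ht
  have hdg := dg_pos P.he ht
  set q := √(g2 P.e (pt 0 s)) with hq
  have hq0 : 0 < q := Real.sqrt_pos.2 hg2
  have hqq : q * q = g2 P.e (pt 0 s) := Real.mul_self_sqrt hg2.le
  have hdn : dn P.e (g1 P.e (pt 0 s) / q) q (P.e.extend (𝓡∂ 2) x₀) = 1 := by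
    rw [hex]
    unfold dn
    have : (g2 P.e (pt 0 s) * (g1 P.e (pt 0 s) / q) ^ 2
        - 2 * g1 P.e (pt 0 s) * (g1 P.e (pt 0 s) / q * q)
        + g0 P.e (pt 0 s) * q ^ 2) = dg P.e (pt 0 s) := by
      have h1 : g1 P.e (pt 0 s) / q * q = g1 P.e (pt 0 s) := by field_simp
      have h2 : g2 P.e (pt 0 s) * (g1 P.e (pt 0 s) / q) ^ 2
          = g1 P.e (pt 0 s) ^ 2 := by
        rw [← hqq]; field_simp
      rw [h1, h2, sq q, hqq]
      unfold dg
      ring
    rw [this, div_self hdg.ne', Real.sqrt_one]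
  -- for every `c > 1`
  have key : ∀ c : ℝ, 1 < c → q ≤ c * |deriv τ s| := by
    intro c hc
    obtain ⟨δ, hδ, hl⟩ := lld2 P.he hx₀s (g1 P.e (pt 0 s) / q) q (c := c) (by rw [hdn]; exact hc)
    have hJ : ∀ᶠ s' in 𝓝 s, s' ∈ P.J := P.J_open.mem_nhds hs
    have hcont : ContinuousAt (fun s' => |τ s' - τ s|) s :=
      ((hd.continuousAt.sub continuousAt_const).abs)
    have hsm : ∀ᶠ s' in 𝓝 s, |τ s' - τ s| < δ := by
      have := hcont.eventually (gt_mem_nhds (by simpa using hδ : |τ s - τ s| < δ))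
      exact this
    have hev : ∀ᶠ s' in 𝓝 s, q * |s' - s| ≤ c * |τ s' - τ s| := by
      filter_upwards [hJ, hsm] with s' h1 h2
      have ht' : pt 0 s' ∈ (P.e.extend (𝓡∂ 2)).target := P.sub (P.mem_D_J h1)
      have hex' : P.e.extend (𝓡∂ 2) ((P.e.extend (𝓡∂ 2)).symm (pt 0 s')) = pt 0 s' :=
        (P.e.extend (𝓡∂ 2)).right_inv ht'
      have hd1 : dist ((P.e.extend (𝓡∂ 2)).symm (pt 0 s')) x₀ ≤ |τ s' - τ s| := by
        rw [hx₀, ← hτ s hs, ← hτ s' h1, hφ.dist_eq]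
        exact dist_circle_le _ _
      obtain ⟨-, -, h3⟩ := hl x₀ ((P.e.extend (𝓡∂ 2)).symm (pt 0 s')) (by simpa using hδ)
        (hd1.trans_lt h2)
      rw [hex, hex'] at h3
      simp only [pt_zero, pt_one, sub_self, mul_zero, zero_add] at h3
      rw [abs_mul, abs_of_pos hq0, dist_comm] at h3
      refine h3.trans ?_
      gcongr
    have hslope := (hasDerivAt_iff_tendsto_slope.1 hd.hasDerivAt).abs.const_mul c
    refine ge_of_tendsto hslope ?_
    have hev' : ∀ᶠ s' in 𝓝[≠] s, q * |s' - s| ≤ c * |τ s' - τ s| := hev.filter_mono nhdsWithin_le_nhds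
    filter_upwards [hev', self_mem_nhdsWithin] with s' h1 h2
    have h3 : 0 < |s' - s| := abs_pos.2 (sub_ne_zero.2 h2)
    rw [slope_def_field, abs_div, ← mul_div_assoc, le_div_iff₀ h3]
    exact h1
  have hlim : Tendsto (fun c : ℝ => c * |deriv τ s|) (𝓝[>] 1) (𝓝 (1 * |deriv τ s|)) :=
    (tendsto_id.mono_left nhdsWithin_le_nhds).mul_const _
  rw [one_mul] at hlim
  exact ge_of_tendsto hlim (by filter_upwards [self_mem_nhdsWithin] with c hc using key c hc)

/-- near a boundary point the height is at most `c` times the distance to the boundary -/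
theorem hgt (he : e ∈ IsManifold.maximalAtlas (𝓡∂ 2) ∞ M) {φ : S1 → M} (hφ : IsometricFilling φ)
    {x₀ : M} (hx₀ : x₀ ∈ e.source) (hb : x₀ ∈ range φ) {c : ℝ}
    (hc : dn e 1 0 (e.extend (𝓡∂ 2) x₀) < c) :
    ∀ᶠ x in 𝓝 x₀, x ∈ e.source ∧ (e.extend (𝓡∂ 2) x) 0 ≤ c * Metric.infDist x (range φ) := by
  obtain ⟨δ, hδ, hl⟩ := lld2 he hx₀ 1 0 hc
  rw [Metric.eventually_nhds_iff_ball]
  refine ⟨δ / 2, by positivity, fun x hx => ?_⟩
  rw [Metric.mem_ball] at hx
  have hcpt : IsCompact (range φ) := by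
    rw [← image_univ]
    apply isCompact_univ.image
    exact (Isometry.of_dist_eq hφ.dist_eq).continuous
  obtain ⟨y, hy, hxy⟩ := hcpt.exists_infDist_eq_dist ⟨x₀, hb⟩ x
  have h1 : dist x y ≤ dist x x₀ := by
    rw [← hxy]; exact Metric.infDist_le_dist_of_mem hb
  have h2 : dist y x₀ < δ := by
    have := dist_triangle_left y x₀ x
    linarith
  obtain ⟨hxs, hys, h3⟩ := hl y x h2 (by linarith)
  have hy0 : (e.extend (𝓡∂ 2) y) 0 = 0 := by
    rw [← boundary_iff he hxs, ← hφ.range_eq]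
    exact hy
  refine ⟨hys, ?_⟩
  rw [hxy, dist_comm]
  have h4 := le_abs_self (1 * ((e.extend (𝓡∂ 2) x) 0 - (e.extend (𝓡∂ 2) y) 0)
        + 0 * ((e.extend (𝓡∂ 2) x) 1 - (e.extend (𝓡∂ 2) y) 1))
  have h5 := h4.trans h3
  rw [hy0] at h5
  linarith

end Pool.Agent.FPM
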