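import Mathlib
import Pool.Agent.FPM.COLA

/-
COLA2 (helper25): uniform version of `hgt` on a patch.
-/

open MeasureTheory Set Filter Measure Manifold Bundle
open scoped ContDiff Topology ENNReal NNReal

set_option linter.unusedSectionVars false

namespace Pool.Agent.FPM

open Pool.Agent.H74.FAC Pool.Agent.EWD

variable {M : Type} [MetricSpace M] [ChartedSpace HP M] [IsManifold (𝓡∂ 2) ∞ M] [CompactSpace M]
  [RiemannianBundle (fun x : M => TangentSpace (𝓡∂ 2) x)]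
  [IsContMDiffRiemannianBundle (𝓡∂ 2) ∞ E2 (fun x : M => TangentSpace (𝓡∂ 2) x)]
  [IsRiemannianManifold (𝓡∂ 2) M]

/-- `√(g₂₂/det g)` along the boundary -/
noncomputable def qb (e : OpenPartialHomeomorph M HP) (s : ℝ) : ℝ := dn e 1 0 (pt 0 s)

theorem qb_nonneg (e : OpenPartialHomeomorph M HP) (s : ℝ) : 0 ≤ qb e s := Real.sqrt_nonneg _

theorem qb_mul (P : Patch M) {s : ℝ} (hs : s ∈ P.J) :
    √(dg P.e (pt 0 s)) * qb P.e s = √(g2 P.e (pt 0 s)) := by
  have ht : pt 0 s ∈ (P.e.extend (𝓡∂ 2)).target := P.sub (P.mem_D_J hs)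
  have hdg := dg_pos P.he ht
  unfold qb dn
  rw [← Real.sqrt_mul hdg.le]
  congr 1
  field_simp
  ring

theorem continuousOn_qb (P : Patch M) : ContinuousOn (qb P.e) P.J :=
  (continuousOn_dn P.he 1 0).comp Patch.continuous_pt.continuousOn
    (fun _ hs => P.sub (P.mem_D_J hs))

theorem range_compact {φ : S1 → M} (hφ : IsometricFilling φ) : IsCompact (range φ) := by
  rw [← image_univ]
  apply isCompact_univ.image
  exact (Isometry.of_dist_eq hφ.dist_eq).continuous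

theorem halfplane_closed : IsClosed {z : E2 | 0 ≤ z 0} :=
  isClosed_le continuous_const (by fun_prop)

theorem cb_compact (P : Patch M) : IsCompact (Metric.closedBall P.c P.r ∩ {z : E2 | 0 ≤ z 0}) :=
  (isCompact_closedBall _ _).inter_right halfplane_closed

theorem cb_sub (P : Patch M) {ρ : ℝ} (hρ : ρ < 2 * P.r) :
    Metric.closedBall P.c ρ ∩ {z : E2 | 0 ≤ z 0} ⊆ P.D := by
  rintro z ⟨h1, h2⟩
  refine ⟨?_, h2⟩
  rw [Metric.mem_closedBall] at h1
  rw [Metric.mem_ball]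
  linarith

theorem K_compact (P : Patch M) :
    IsCompact ((P.e.extend (𝓡∂ 2)).symm '' (Metric.closedBall P.c P.r ∩ {z : E2 | 0 ≤ z 0})) := by
  apply (cb_compact P).image_of_continuousOn
  exact P.lip.continuousOn.mono (cb_sub P (by linarith [P.hr]))

theorem unif_hgt (P : Patch M) {φ : S1 → M} (hφ : IsometricFilling φ) :
    ∃ Q : ℝ, 0 ≤ Q ∧ ∀ η : ℝ, 0 < η → ∃ δ : ℝ, 0 < δ ∧ ∀ x ∈ P.V, Metric.infDist x (range φ) < δ →
      (P.e.extend (𝓡∂ 2) x) 1 ∈ P.J ∧ qb P.e ((P.e.extend (𝓡∂ 2) x) 1) ≤ Q ∧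
      (P.e.extend (𝓡∂ 2) x) 0 ≤
        (qb P.e ((P.e.extend (𝓡∂ 2) x) 1) + η) * Metric.infDist x (range φ) := by
  -- the bound `Q`
  have hK1 : IsCompact {s : ℝ | pt 0 s ∈ Metric.closedBall P.c (3 / 2 * P.r)} := by
    apply Metric.isCompact_of_isClosed_isBounded
    · exact Metric.isClosed_closedBall.preimage Patch.continuous_pt
    · rw [Metric.isBounded_iff_subset_closedBall (P.c 1)]
      refine ⟨3 / 2 * P.r, fun s hs => ?_⟩
      have hs' : dist (pt 0 s) P.c ≤ 3 / 2 * P.r := hs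
      rw [Metric.mem_closedBall, Real.dist_eq]
      have h1 : |(pt 0 s) 1 - P.c 1| ≤ dist (pt 0 s) P.c := by
        rw [EuclideanSpace.dist_eq]
        apply Real.abs_le_sqrt
        rw [Fin.sum_univ_two, Real.dist_eq, Real.dist_eq, sq_abs, sq_abs]
        nlinarith [sq_nonneg ((pt 0 s) 0 - P.c 0)]
      rw [pt_one] at h1
      exact h1.trans hs'
  have hK1J : {s : ℝ | pt 0 s ∈ Metric.closedBall P.c (3 / 2 * P.r)} ⊆ P.J := by
    intro s hs
    have hs' : dist (pt 0 s) P.c ≤ 3 / 2 * P.r := hs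
    show dist (pt 0 s) P.c < 2 * P.r
    linarith [P.hr]
  obtain ⟨Q, hQ⟩ := hK1.exists_bound_of_continuousOn ((continuousOn_qb P).mono hK1J)
  refine ⟨max Q 0, le_max_right _ _, fun η hη => ?_⟩
  set C := range φ with hC
  have hCcl : IsClosed C := (range_compact hφ).isClosed
  have hCne : C.Nonempty := range_nonempty φ
  set K := (P.e.extend (𝓡∂ 2)).symm '' (Metric.closedBall P.c P.r ∩ {z : E2 | 0 ≤ z 0}) with hK
  set Pr : M → Prop := fun x => x ∈ P.e.source ∧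
    pt 0 ((P.e.extend (𝓡∂ 2) x) 1) ∈ Metric.ball P.c (3 / 2 * P.r) ∧
    (P.e.extend (𝓡∂ 2) x) 0 ≤
        (qb P.e ((P.e.extend (𝓡∂ 2) x) 1) + η) * Metric.infDist x C with hPr
  have hloc : ∀ x₀ ∈ K, x₀ ∈ C → ∀ᶠ x in 𝓝 x₀, Pr x := by
    rintro x₀ ⟨z₀, ⟨hz1, hz2⟩, rfl⟩ hx₀C
    have hzD : z₀ ∈ P.D := cb_sub P (ρ := P.r) (by linarith [P.hr]) ⟨hz1, hz2⟩
    have hzt : z₀ ∈ (P.e.extend (𝓡∂ 2)).target := P.sub hzD
    have hs : (P.e.extend (𝓡∂ 2)).symm z₀ ∈ P.e.source := symm_mem_source hzt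
    set x₀ := (P.e.extend (𝓡∂ 2)).symm z₀ with hx₀
    have hex : P.e.extend (𝓡∂ 2) x₀ = z₀ := (P.e.extend (𝓡∂ 2)).right_inv hzt
    have hz0 : z₀ 0 = 0 := by
      rw [← hex, ← boundary_iff P.he hs, ← hφ.range_eq]
      exact hx₀C
    have hzpt : pt 0 (z₀ 1) = z₀ := by
      rw [← hz0]; exact pt_self z₀
    have hsJ : z₀ 1 ∈ P.J := by
      show pt 0 (z₀ 1) ∈ Metric.ball P.c (2 * P.r)
      rw [hzpt]; exact hzD.1
    have hcx : ContinuousAt (fun x => (P.e.extend (𝓡∂ 2) x) 1) x₀ := by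
      have h1 : ContinuousAt (P.e.extend (𝓡∂ 2)) x₀ := P.e.continuousAt_extend hs
      have h2 : ContinuousAt (fun z : E2 => z 1) (P.e.extend (𝓡∂ 2) x₀) := by fun_prop
      exact h2.comp h1
    have hcq : ContinuousAt (qb P.e) (z₀ 1) := (continuousOn_qb P).continuousAt (P.J_open.mem_nhds hsJ)
    have hcq' : ContinuousAt (fun x => qb P.e ((P.e.extend (𝓡∂ 2) x) 1)) x₀ := by
      apply ContinuousAt.comp (f := fun x => (P.e.extend (𝓡∂ 2) x) 1) (g := qb P.e)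
      · rw [hex]; exact hcq
      · exact hcx
    have e1 : ∀ᶠ x in 𝓝 x₀, qb P.e (z₀ 1) - η / 2 < qb P.e ((P.e.extend (𝓡∂ 2) x) 1) := by
      apply hcq'.eventually (lt_mem_nhds _)
      show qb P.e (z₀ 1) - η / 2 < qb P.e ((P.e.extend (𝓡∂ 2) x₀) 1)
      rw [hex]; linarith
    have e2 : ∀ᶠ x in 𝓝 x₀, pt 0 ((P.e.extend (𝓡∂ 2) x) 1) ∈ Metric.ball P.c (3 / 2 * P.r) := by
      have h1 : ContinuousAt (fun x => pt 0 ((P.e.extend (𝓡∂ 2) x) 1)) x₀ :=
        (Patch.continuous_pt.continuousAt).comp hcx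
      apply h1.eventually (Metric.isOpen_ball.mem_nhds _)
      show pt 0 ((P.e.extend (𝓡∂ 2) x₀) 1) ∈ Metric.ball P.c (3 / 2 * P.r)
      rw [hex, hzpt, Metric.mem_ball]
      rw [Metric.mem_closedBall] at hz1
      linarith [P.hr]
    have e3 := hgt P.he hφ hs hx₀C (c := qb P.e (z₀ 1) + η / 2) (by
      rw [hex, ← hzpt]
      show qb P.e (z₀ 1) < qb P.e (pt 0 (z₀ 1) 1) + η / 2
      rw [pt_one]
      linarith)
    filter_upwards [e1, e2, e3] with x h1 h2 h3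
    refine ⟨h3.1, h2, h3.2.trans ?_⟩
    exact mul_le_mul_of_nonneg_right (by linarith) (Metric.infDist_nonneg (x := x) (s := C))
  set U : Set M := {x | ∀ᶠ y in 𝓝 x, Pr y} with hU
  have hUo : IsOpen U := isOpen_setOfPred_eventually_nhds
  have hKU : IsCompact (K \ U) := (K_compact P).diff hUo
  have hδ : ∃ δ : ℝ, 0 < δ ∧ ∀ x ∈ K \ U, δ ≤ Metric.infDist x C := by
    rcases (K \ U).eq_empty_or_nonempty with h | h
    · exact ⟨1, one_pos, fun x hx => by rw [h] at hx; exact absurd hx (notMem_empty x)⟩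
    · obtain ⟨y, hy, hmin⟩ := hKU.exists_isMinOn h (Metric.continuous_infDist_pt C).continuousOn
      refine ⟨Metric.infDist y C, ?_, fun x hx => hmin hx⟩
      rw [← hCcl.notMem_iff_infDist_pos hCne]
      intro hyC
      exact hy.2 (hloc y hy.1 hyC)
  obtain ⟨δ, hδ0, hδ⟩ := hδ
  refine ⟨δ, hδ0, fun x hx hxδ => ?_⟩
  have hxK : x ∈ K := by
    refine ⟨P.e.extend (𝓡∂ 2) x, ⟨Metric.ball_subset_closedBall hx.2, ext_nonneg _ _⟩, ?_⟩
    exact ext_left_inv hx.1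
  have hxU : x ∈ U := by
    by_contra h
    have := hδ x ⟨hxK, h⟩
    linarith
  have hpx : Pr x := hxU.self_of_nhds
  obtain ⟨h1, h2, h3⟩ := hpx
  have h4 : (P.e.extend (𝓡∂ 2) x) 1 ∈
      {s : ℝ | pt 0 s ∈ Metric.closedBall P.c (3 / 2 * P.r)} := Metric.ball_subset_closedBall h2
  refine ⟨hK1J h4, ?_, h3⟩
  exact (le_abs_self _).trans ((hQ _ h4).trans (le_max_left _ _))

end Pool.Agent.FPM
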