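import Mathlib
import Pool.Agent.FPM.COLA2
import Pool.Agent.EWD.CAL

/-
COLC (helper25): the pieces of a cover near the boundary.
-/

open MeasureTheory Set Filter Measure Manifold Bundle
open scoped ContDiff Topology ENNReal NNReal

set_option linter.unusedSectionVars false

namespace Pool.Agent.FPM

open Pool.Agent.H74.FAC Pool.Agent.EWD

variable {M : Type} [MetricSpace M] [ChartedSpace HP M] [IsManifold (𝓡∂ 2) ∞ M] [CompactSpace M]
  [RiemannianBundle (fun x : M => TangentSpace (𝓡∂ 2) x)]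
  [IsContMDiffRiemannianBundle (𝓡∂ 2) ∞ E2 (fun x : M => TangentSpace (𝓡∂ 2) x)]
  [IsRiemannianManifold (𝓡∂ 2) M]

theorem dist_pt_sq (s : ℝ) (c : E2) : dist (pt 0 s) c ^ 2 = c 0 ^ 2 + (s - c 1) ^ 2 := by
  rw [EuclideanSpace.dist_eq, Real.sq_sqrt (by positivity), Fin.sum_univ_two, Real.dist_eq,
    Real.dist_eq, sq_abs, sq_abs, pt_zero, pt_one]
  ring

theorem sphere_fin (c : E2) (r : ℝ) : {s : ℝ | dist (pt 0 s) c = r}.Finite := by
  apply Set.Finite.subset (Set.toFinite {c 1 - √(r ^ 2 - c 0 ^ 2), c 1 + √(r ^ 2 - c 0 ^ 2)})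
  intro s hs
  have hs' : dist (pt 0 s) c = r := hs
  have h1 := dist_pt_sq s c
  rw [hs'] at h1
  have h2 : (s - c 1) ^ 2 = r ^ 2 - c 0 ^ 2 := by linarith
  have h3 : 0 ≤ r ^ 2 - c 0 ^ 2 := by rw [← h2]; positivity
  have h4 : (s - c 1) ^ 2 = √(r ^ 2 - c 0 ^ 2) ^ 2 := by rw [Real.sq_sqrt h3, h2]
  rcases sq_eq_sq_iff_eq_or_eq_neg.1 h4 with h | h
  · right; simp only [mem_singleton_iff]; linarith
  · left; linarith

/-- the boundary points on the frontier of a patch -/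
theorem frontier_V (P : Patch M) {φ : S1 → M} (hφ : IsometricFilling φ) :
    frontier P.V ∩ range φ ⊆ (fun s : ℝ => (P.e.extend (𝓡∂ 2)).symm (pt 0 s)) ''
      {s : ℝ | dist (pt 0 s) P.c = P.r} := by
  rintro x ⟨hx1, hx2⟩
  set K := (P.e.extend (𝓡∂ 2)).symm '' (Metric.closedBall P.c P.r ∩ {z : E2 | 0 ≤ z 0}) with hK
  have hVK : P.V ⊆ K := by
    intro y hy
    exact ⟨P.e.extend (𝓡∂ 2) y, ⟨Metric.ball_subset_closedBall hy.2, ext_nonneg _ _⟩,
      ext_left_inv hy.1⟩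
  have hcl : closure P.V ⊆ K := closure_minimal hVK (K_compact P).isClosed
  rw [P.V_open.frontier_eq] at hx1
  obtain ⟨z, ⟨hz1, hz2⟩, rfl⟩ := hcl hx1.1
  have hzD : z ∈ P.D := cb_sub P (ρ := P.r) (by linarith [P.hr]) ⟨hz1, hz2⟩
  have hzt : z ∈ (P.e.extend (𝓡∂ 2)).target := P.sub hzD
  have hs : (P.e.extend (𝓡∂ 2)).symm z ∈ P.e.source := symm_mem_source hzt
  have hex : P.e.extend (𝓡∂ 2) ((P.e.extend (𝓡∂ 2)).symm z) = z :=
    (P.e.extend (𝓡∂ 2)).right_inv hzt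
  have hz0 : z 0 = 0 := by
    rw [← hex, ← boundary_iff P.he hs, ← hφ.range_eq]
    exact hx2
  have hzpt : pt 0 (z 1) = z := by
    rw [← hz0]; exact pt_self z
  refine ⟨z 1, ?_, by show (P.e.extend (𝓡∂ 2)).symm (pt 0 (z 1)) = _; rw [hzpt]⟩
  show dist (pt 0 (z 1)) P.c = P.r
  rw [hzpt]
  apply le_antisymm hz1
  by_contra hcon
  push Not at hcon
  apply hx1.2
  refine ⟨hs, ?_⟩
  rw [hex]
  exact hcon

theorem bad_fin (A : Cov M) {φ : S1 → M} (hφ : IsometricFilling φ) (k : Fin A.n) :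
    {s : ℝ | s ∈ (A.P k).J ∧ ((A.P k).e.extend (𝓡∂ 2)).symm (pt 0 s) ∈
      ⋃ j : Fin A.n, frontier (A.V j)}.Finite := by
  set F : Set M := (⋃ j : Fin A.n, frontier (A.V j)) ∩ range φ with hF
  have hFf : F.Finite := by
    rw [hF, iUnion_inter]
    apply Set.finite_iUnion
    intro j
    exact ((sphere_fin _ _).image _).subset (frontier_V (A.P j) hφ)
  have hinj : InjOn (fun s : ℝ => ((A.P k).e.extend (𝓡∂ 2)).symm (pt 0 s)) ((A.P k).J) := by
    intro s hs s' hs' h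
    have h2 := ((A.P k).e.extend (𝓡∂ 2)).symm.injOn ((A.P k).sub ((A.P k).mem_D_J hs))
      ((A.P k).sub ((A.P k).mem_D_J hs')) h
    have h3 : (pt 0 s) 1 = (pt 0 s') 1 := by rw [h2]
    simpa using h3
  refine Set.Finite.of_injOn (f := fun s : ℝ => ((A.P k).e.extend (𝓡∂ 2)).symm (pt 0 s)) (t := F)
    ?_ (hinj.mono fun s hs => hs.1) hFf
  rintro s ⟨hs1, hs2⟩
  exact ⟨hs2, (A.P k).symm_pt_range hφ hs1⟩

theorem ev_S (A : Cov M) (k : Fin A.n) {x₀ : M} (hx : x₀ ∉ ⋃ j : Fin A.n, frontier (A.V j)) :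
    ∀ᶠ x in 𝓝 x₀, (x ∈ A.S k ↔ x₀ ∈ A.S k) := by
  have h1 : ∀ j : Fin A.n, ∀ᶠ x in 𝓝 x₀, (x ∈ A.V j ↔ x₀ ∈ A.V j) := by
    intro j
    have hj : x₀ ∉ frontier (A.V j) := fun h => hx (mem_iUnion.2 ⟨j, h⟩)
    by_cases h : x₀ ∈ A.V j
    · filter_upwards [(A.V_open j).mem_nhds h] with x hx
      exact ⟨fun _ => h, fun _ => hx⟩
    · rw [(A.V_open j).frontier_eq] at hj
      have h2 : x₀ ∉ closure (A.V j) := fun h3 => hj ⟨h3, h⟩
      filter_upwards [isClosed_closure.isOpen_compl.mem_nhds h2] with x hx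
      exact ⟨fun h4 => absurd (subset_closure h4) hx, fun h4 => absurd h4 h⟩
  filter_upwards [eventually_all.2 h1] with x hx
  unfold Cov.S
  simp only [Set.mem_sdiff, mem_iUnion, hx]

/-- the integrand on a piece -/
noncomputable def Psi (A : Cov M) (k : Fin A.n) (κ : M → ℝ) (p : ℝ × ℝ) : ℝ :=
  (im A k).indicator (fun z => √(dg (A.P k).e z) * κ (((A.P k).e.extend (𝓡∂ 2)).symm z)) (pt p.1 p.2)

theorem continuousOn_F (P : Patch M) {κ : M → ℝ} (hκ : Continuous κ) :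
    ContinuousOn (fun z => √(dg P.e z) * κ ((P.e.extend (𝓡∂ 2)).symm z))
      (P.e.extend (𝓡∂ 2)).target := by
  apply ((continuousOn_dg P.he).sqrt).mul
  exact hκ.comp_continuousOn (P.e.continuousOn_extend_symm)

theorem im_ball (A : Cov M) (k : Fin A.n) {z : E2} (hz : z ∈ im A k) :
    z ∈ Metric.ball (A.P k).c (A.P k).r ∧ 0 ≤ z 0 := by
  obtain ⟨x, hx, rfl⟩ := hz
  exact ⟨(A.S_sub k hx).2, ext_nonneg _ _⟩

theorem im_iff (A : Cov M) (k : Fin A.n) {z : E2} (hz : z ∈ Metric.ball (A.P k).c (A.P k).r)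
    (h0 : 0 ≤ z 0) : z ∈ im A k ↔ ((A.P k).e.extend (𝓡∂ 2)).symm z ∈ A.S k := by
  have hzt : z ∈ ((A.P k).e.extend (𝓡∂ 2)).target := (A.P k).sub ((A.P k).mem_D_of_ball hz h0)
  constructor
  · rintro ⟨x, hx, rfl⟩
    rw [ext_left_inv (A.S_sub k hx).1]
    exact hx
  · intro h
    exact ⟨_, h, ((A.P k).e.extend (𝓡∂ 2)).right_inv hzt⟩

theorem Psi_bound (A : Cov M) (k : Fin A.n) {κ : M → ℝ} (hκ : Continuous κ) :
    ∃ B : ℝ, ∀ p, |Psi A k κ p| ≤ B := by
  obtain ⟨B, hB⟩ := (cb_compact (A.P k)).exists_bound_of_continuousOn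
    ((continuousOn_F (A.P k) hκ).mono ((cb_sub (A.P k) (ρ := (A.P k).r)
      (by linarith [(A.P k).hr])).trans (A.P k).sub))
  refine ⟨max B 0, fun p => ?_⟩
  unfold Psi
  by_cases h : pt p.1 p.2 ∈ im A k
  · rw [indicator_of_mem h]
    obtain ⟨h1, h2⟩ := im_ball A k h
    exact (hB _ ⟨Metric.ball_subset_closedBall h1, h2⟩).trans (le_max_left _ _)
  · rw [indicator_of_notMem h, abs_zero]
    exact le_max_right _ _

theorem Psi_supp (A : Cov M) (k : Fin A.n) {κ : M → ℝ} (p : ℝ × ℝ) (hp : Psi A k κ p ≠ 0) :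
    0 ≤ p.1 ∧ |p.2 - (A.P k).c 1| ≤ (A.P k).r := by
  unfold Psi at hp
  have h : pt p.1 p.2 ∈ im A k := by
    by_contra hcon
    exact hp (indicator_of_notMem hcon _)
  obtain ⟨h1, h2⟩ := im_ball A k h
  rw [pt_zero] at h2
  refine ⟨h2, ?_⟩
  rw [Metric.mem_ball] at h1
  have h3 : |(pt p.1 p.2) 1 - (A.P k).c 1| ≤ dist (pt p.1 p.2) (A.P k).c := by
    rw [EuclideanSpace.dist_eq]
    apply Real.abs_le_sqrt
    rw [Fin.sum_univ_two, Real.dist_eq, Real.dist_eq, sq_abs, sq_abs]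
    nlinarith [sq_nonneg ((pt p.1 p.2) 0 - (A.P k).c 0)]
  rw [pt_one] at h3
  linarith

theorem ptE_meas : Measurable (fun p : ℝ × ℝ => pt p.1 p.2) := by
  have : (fun p : ℝ × ℝ => pt p.1 p.2) = ptE := by
    funext p; rw [ptE_apply]
  rw [this]
  exact ptE.measurable

theorem Psi_meas (A : Cov M) (k : Fin A.n) {κ : M → ℝ} (hκ : Continuous κ) :
    Measurable (Psi A k κ) := by
  classical
  have h1 : Measurable ((im A k).indicator
      (fun z => √(dg (A.P k).e z) * κ (((A.P k).e.extend (𝓡∂ 2)).symm z))) := by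
    rw [← Set.piecewise_eq_indicator]
    apply ContinuousOn.measurable_piecewise
    · exact (continuousOn_F (A.P k) hκ).mono (im_sub A k)
    · exact continuousOn_const
    · exact im_meas A k
  exact h1.comp ptE_meas

theorem Psi_lim (A : Cov M) {φ : S1 → M} (hφ : IsometricFilling φ) (k : Fin A.n) {κ : M → ℝ}
    (hκ : Continuous κ) :
    ∀ᵐ s : ℝ, Tendsto (fun a : ℝ => Psi A k κ (a, s)) (𝓝[>] 0) (𝓝 (Psi A k κ (0, s))) := by
  have hfin : ({s : ℝ | s ∈ (A.P k).J ∧ ((A.P k).e.extend (𝓡∂ 2)).symm (pt 0 s) ∈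
      ⋃ j : Fin A.n, frontier (A.V j)} ∪ {s : ℝ | dist (pt 0 s) (A.P k).c = (A.P k).r}).Finite :=
    (bad_fin A hφ k).union (sphere_fin _ _)
  have hae := hfin.measure_zero (volume : Measure ℝ)
  rw [← compl_compl ({s : ℝ | s ∈ (A.P k).J ∧ _} ∪ _), ← mem_ae_iff] at hae
  filter_upwards [hae] with s hs
  simp only [mem_compl_iff, mem_union, mem_ofPred_eq, not_or, not_and] at hs
  obtain ⟨hs1, hs2⟩ := hs
  have hpt : Tendsto (fun a : ℝ => pt a s) (𝓝[>] 0) (𝓝 (pt 0 s)) := by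
    have h1 : Tendsto (fun a : ℝ => pt a s) (𝓝 0) (𝓝 (pt 0 s)) := by
      rw [tendsto_iff_dist_tendsto_zero]
      simp only [dist_pt_fst, sub_zero]
      have := (continuous_abs (G := ℝ)).tendsto 0
      rwa [abs_zero] at this
    exact h1.mono_left nhdsWithin_le_nhds
  by_cases hb : pt 0 s ∈ Metric.ball (A.P k).c (A.P k).r
  · have hJ : s ∈ (A.P k).J := (A.P k).Jr_sub hb
    have hx0 := hs1 hJ
    have htar : pt 0 s ∈ ((A.P k).e.extend (𝓡∂ 2)).target := (A.P k).sub ((A.P k).mem_D_J hJ)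
    have evb : ∀ᶠ a in 𝓝[>] (0:ℝ), pt a s ∈ Metric.ball (A.P k).c (A.P k).r :=
      hpt.eventually (Metric.isOpen_ball.mem_nhds hb)
    have ev0 : ∀ᶠ a in 𝓝[>] (0:ℝ), 0 < a := self_mem_nhdsWithin
    have hptw : Tendsto (fun a : ℝ => pt a s) (𝓝[>] 0)
        (𝓝[((A.P k).e.extend (𝓡∂ 2)).target] (pt 0 s)) := by
      apply tendsto_nhdsWithin_iff.2 ⟨hpt, ?_⟩
      filter_upwards [evb, ev0] with a h1 h2
      exact (A.P k).sub ((A.P k).mem_D_of_ball h1 (by rw [pt_zero]; exact h2.le))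
    have hsy : Tendsto (fun a : ℝ => ((A.P k).e.extend (𝓡∂ 2)).symm (pt a s)) (𝓝[>] 0)
        (𝓝 (((A.P k).e.extend (𝓡∂ 2)).symm (pt 0 s))) :=
      ((A.P k).e.continuousOn_extend_symm _ htar).tendsto.comp hptw
    have evS := hsy.eventually (ev_S A k hx0)
    have evim : ∀ᶠ a in 𝓝[>] (0:ℝ), (pt a s ∈ im A k ↔ pt 0 s ∈ im A k) := by
      filter_upwards [evb, ev0, evS] with a h1 h2 h3
      rw [im_iff A k h1 (by rw [pt_zero]; exact h2.le), im_iff A k hb (by rw [pt_zero]), h3]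
    have hF : Tendsto (fun a : ℝ => √(dg (A.P k).e (pt a s)) *
        κ (((A.P k).e.extend (𝓡∂ 2)).symm (pt a s))) (𝓝[>] 0)
        (𝓝 (√(dg (A.P k).e (pt 0 s)) * κ (((A.P k).e.extend (𝓡∂ 2)).symm (pt 0 s)))) :=
      (continuousOn_F (A.P k) hκ _ htar).tendsto.comp hptw
    by_cases him : pt 0 s ∈ im A k
    · unfold Psi
      simp only
      rw [indicator_of_mem him]
      apply hF.congr'
      filter_upwards [evim] with a h
      rw [indicator_of_mem (h.2 him)]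
    · unfold Psi
      simp only
      rw [indicator_of_notMem him]
      apply tendsto_const_nhds.congr'
      filter_upwards [evim] with a h
      rw [indicator_of_notMem (fun h1 => him (h.1 h1))]
  · have hb2 : (A.P k).r < dist (pt 0 s) (A.P k).c := by
      rw [Metric.mem_ball, not_lt] at hb
      exact lt_of_le_of_ne hb (fun h => hs2 h.symm)
    have him : pt 0 s ∉ im A k := fun h => hb (im_ball A k h).1
    have hd : Tendsto (fun a : ℝ => dist (pt a s) (A.P k).c) (𝓝[>] 0)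
        (𝓝 (dist (pt 0 s) (A.P k).c)) := hpt.dist tendsto_const_nhds
    unfold Psi
    simp only
    rw [indicator_of_notMem him]
    apply tendsto_const_nhds.congr'
    filter_upwards [hd.eventually (lt_mem_nhds hb2)] with a h
    rw [indicator_of_notMem]
    intro h1
    have := (im_ball A k h1).1
    rw [Metric.mem_ball] at this
    linarith

end Pool.Agent.FPM
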