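import Mathlib
import Pool.Agent.FPM.COLC

/-
COLD (helper25): the change of variables along the boundary.
-/

open MeasureTheory Set Filter Measure Manifold Bundle
open scoped ContDiff Topology ENNReal NNReal

set_option linter.unusedSectionVars false

namespace Pool.Agent.FPM

open Pool.Agent.H74.FAC Pool.Agent.EWD

variable {M : Type} [MetricSpace M] [ChartedSpace HP M] [IsManifold (𝓡∂ 2) ∞ M] [CompactSpace M]
  [RiemannianBundle (fun x : M => TangentSpace (𝓡∂ 2) x)]
  [IsContMDiffRiemannianBundle (𝓡∂ 2) ∞ E2 (fun x : M => TangentSpace (𝓡∂ 2) x)]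
  [IsRiemannianManifold (𝓡∂ 2) M]

/-- parameters of the boundary points of a piece -/
def Ak (A : Cov M) (k : Fin A.n) : Set ℝ := {s | pt 0 s ∈ im A k}

theorem Ak_meas (A : Cov M) (k : Fin A.n) : MeasurableSet (Ak A k) :=
  (Patch.continuous_pt.measurable) (im_meas A k)

theorem Ak_J (A : Cov M) (k : Fin A.n) : Ak A k ⊆ (A.P k).J :=
  fun _ hs => (A.P k).Jr_sub (im_ball A k hs).1

theorem Ak_Icc (A : Cov M) (k : Fin A.n) :
    Ak A k ⊆ Icc ((A.P k).c 1 - (A.P k).r) ((A.P k).c 1 + (A.P k).r) := by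
  intro s hs
  have h1 : dist (pt 0 s) (A.P k).c < (A.P k).r := (im_ball A k hs).1
  have h2 := dist_pt_sq s (A.P k).c
  have h3 : (s - (A.P k).c 1) ^ 2 ≤ (A.P k).r ^ 2 := by
    nlinarith [sq_nonneg ((A.P k).c 0), dist_nonneg (x := pt 0 s) (y := (A.P k).c)]
  have h4 := abs_le_of_sq_le_sq' h3 (A.P k).hr.le
  exact ⟨by linarith [h4.1], by linarith [h4.2]⟩

theorem Ak_fin (A : Cov M) (k : Fin A.n) : volume (Ak A k) ≠ ⊤ := by
  refine ne_top_of_le_ne_top ?_ (measure_mono (Ak_Icc A k))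
  rw [Real.volume_Icc]
  exact ENNReal.ofReal_ne_top

/-- the function `κ` on the piece `S k` along the boundary curve -/
noncomputable def Bk (A : Cov M) (k : Fin A.n) (κ : M → ℝ) (φ : S1 → M) (t : ℝ) : ℝ :=
  (A.S k).indicator κ (φ (t : S1))

theorem continuous_gam {φ : S1 → M} (hφ : IsometricFilling φ) :
    Continuous (fun t : ℝ => φ (t : S1)) :=
  (Isometry.of_dist_eq hφ.dist_eq).continuous.comp (AddCircle.continuous_mk' _)

theorem Bk_meas (A : Cov M) (k : Fin A.n) {κ : M → ℝ} (hκ : Continuous κ) {φ : S1 → M}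
    (hφ : IsometricFilling φ) : Measurable (Bk A k κ φ) := by
  let _ : MeasurableSpace M := borel M
  have _ : BorelSpace M := ⟨rfl⟩
  have h1 : Measurable ((A.S k).indicator κ) := hκ.measurable.indicator (A.S_meas k)
  exact h1.comp (continuous_gam hφ).measurable

theorem kap_bound {κ : M → ℝ} (hκ : Continuous κ) : ∃ B : ℝ, 0 ≤ B ∧ ∀ x, |κ x| ≤ B := by
  obtain ⟨B, hB⟩ := isCompact_univ.exists_bound_of_continuousOn (hκ.continuousOn (s := univ))
  exact ⟨max B 0, le_max_right _ _, fun x => (hB x (mem_univ x)).trans (le_max_left _ _)⟩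

theorem Bk_nonneg (A : Cov M) (k : Fin A.n) {κ : M → ℝ} (h0 : ∀ x, 0 ≤ κ x) (φ : S1 → M) (t : ℝ) :
    0 ≤ Bk A k κ φ t := indicator_nonneg (fun x _ => h0 x) _

theorem Bk_int (A : Cov M) (k : Fin A.n) {κ : M → ℝ} (hκ : Continuous κ) {φ : S1 → M}
    (hφ : IsometricFilling φ) (a b : ℝ) : IntegrableOn (Bk A k κ φ) (Ioc a b) := by
  obtain ⟨B, hB0, hB⟩ := kap_bound hκ
  apply Integrable.mono' (g := fun _ => B)
  · exact integrableOn_const (by rw [Real.volume_Ioc]; exact ENNReal.ofReal_ne_top)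
  · exact (Bk_meas A k hκ hφ).aestronglyMeasurable
  · refine Eventually.of_forall fun t => ?_
    unfold Bk
    by_cases h : φ (t : S1) ∈ A.S k
    · rw [indicator_of_mem h]; exact hB _
    · rw [indicator_of_notMem h, norm_zero]; exact hB0

theorem Bk_per (A : Cov M) (k : Fin A.n) (κ : M → ℝ) (φ : S1 → M) :
    Function.Periodic (Bk A k κ φ) (2 * Real.pi) := by
  intro t
  unfold Bk
  rw [show ((t + 2 * Real.pi : ℝ) : S1) = (t : S1) from by
    rw [AddCircle.coe_add, AddCircle.coe_period, add_zero]]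

/-- the length element of the boundary curve in a chart -/
noncomputable def fA (A : Cov M) (k : Fin A.n) (κ : M → ℝ) (s : ℝ) : ℝ :=
  κ (((A.P k).e.extend (𝓡∂ 2)).symm (pt 0 s)) * √(g2 (A.P k).e (pt 0 s))

theorem continuousOn_fA (A : Cov M) (k : Fin A.n) {κ : M → ℝ} (hκ : Continuous κ) :
    ContinuousOn (fA A k κ) (A.P k).J := by
  have hm : MapsTo (fun s : ℝ => pt 0 s) (A.P k).J ((A.P k).e.extend (𝓡∂ 2)).target :=
    fun s hs => (A.P k).sub ((A.P k).mem_D_J hs)
  apply ContinuousOn.mul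
  · exact hκ.comp_continuousOn
      (((A.P k).e.continuousOn_extend_symm).comp Patch.continuous_pt.continuousOn hm)
  · exact ((col_continuousOn_g2 (A.P k).he).comp Patch.continuous_pt.continuousOn hm).sqrt

theorem change (A : Cov M) (k : Fin A.n) {κ : M → ℝ} (hκ : Continuous κ) (h0 : ∀ x, 0 ≤ κ x)
    {φ : S1 → M} (hφ : IsometricFilling φ) :
    IntegrableOn (fA A k κ) (Ak A k) ∧
    ∫ s in Ak A k, fA A k κ s ≤ ∫ t in (0:ℝ)..(2 * Real.pi), Bk A k κ φ t := by
  have hpi := Real.pi_pos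
  have hR : 0 ≤ ∫ t in (0:ℝ)..(2 * Real.pi), Bk A k κ φ t :=
    intervalIntegral.integral_nonneg (by positivity) (fun t _ => Bk_nonneg A k h0 φ t)
  rcases (A.P k).J.eq_empty_or_nonempty with hJ | hJ
  · have : Ak A k = ∅ := by
      apply subset_empty_iff.1
      rw [← hJ]; exact Ak_J A k
    rw [this]
    simp only [integrableOn_empty, Measure.restrict_empty, integral_zero_measure, true_and]
    exact hR
  obtain ⟨K', τ, t0, hτL, hinj, hφτ, hτ1⟩ := (A.P k).exists_tau hφ hJ
  obtain ⟨B, hB0, hB⟩ := kap_bound hκ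
  set D : Set ℝ := Ak A k ∩ {s | DifferentiableAt ℝ τ s} with hD
  have hDm : MeasurableSet D := (Ak_meas A k).inter (measurableSet_of_differentiableAt ℝ τ)
  have hDA : D ⊆ Ak A k := inter_subset_left
  have hDJ : D ⊆ (A.P k).J := hDA.trans (Ak_J A k)
  have hDf : volume D ≠ ⊤ := ne_top_of_le_ne_top (Ak_fin A k) (measure_mono hDA)
  have hae : D =ᵐ[volume] Ak A k := by
    have h1 := hτL.ae_differentiableAt_real
    filter_upwards [h1] with s hs
    apply propext
    exact ⟨fun h => h.1, fun h => ⟨h, hs⟩⟩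
  have hder : ∀ s, |deriv τ s| ≤ K' := by
    intro s
    have := norm_deriv_le_of_lipschitz hτL (x₀ := s)
    rwa [Real.norm_eq_abs] at this
  have hle : ∀ s ∈ D, fA A k κ s ≤ |deriv τ s| * κ (φ (τ s : S1)) := by
    intro s hs
    have h1 := tang (A.P k) hφ hφτ (hDJ hs) hs.2
    unfold fA
    rw [hφτ s (hDJ hs), mul_comm]
    exact mul_le_mul_of_nonneg_right h1 (h0 _)
  have hfA0 : ∀ s, 0 ≤ fA A k κ s := fun s => mul_nonneg (h0 _) (Real.sqrt_nonneg _)
  have hgm : Measurable (fun s => |deriv τ s| * κ (φ (τ s : S1))) := by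
    apply (measurable_deriv τ).abs.mul
    exact (hκ.comp ((continuous_gam hφ).comp hτL.continuous)).measurable
  have hg : IntegrableOn (fun s => |deriv τ s| * κ (φ (τ s : S1))) D := by
    apply Integrable.mono' (g := fun _ => K' * B)
    · exact integrableOn_const hDf
    · exact hgm.aestronglyMeasurable
    · refine Eventually.of_forall fun s => ?_
      rw [Real.norm_eq_abs, abs_mul, abs_abs]
      exact mul_le_mul (hder s) (hB _) (abs_nonneg _) K'.2
  have hf : IntegrableOn (fA A k κ) D := by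
    apply Integrable.mono' hg
    · exact (((continuousOn_fA A k hκ).mono hDJ).aemeasurable hDm).aestronglyMeasurable
    · rw [ae_restrict_iff' hDm]
      refine Eventually.of_forall fun s hs => ?_
      rw [Real.norm_eq_abs, abs_of_nonneg (hfA0 s)]
      exact hle s hs
  have hfA : IntegrableOn (fA A k κ) (Ak A k) := by
    rw [← integrableOn_congr_set_ae hae]; exact hf
  refine ⟨hfA, ?_⟩
  have hcov : ∫ t in τ '' D, Bk A k κ φ t = ∫ s in D, |deriv τ s| • Bk A k κ φ (τ s) := by
    apply integral_image_eq_integral_abs_deriv_smul hDm _ (hinj.mono hDJ)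
    intro s hs
    exact (hs.2 : DifferentiableAt ℝ τ s).hasDerivAt.hasDerivWithinAt
  have hBκ : ∀ s ∈ D, Bk A k κ φ (τ s) = κ (φ (τ s : S1)) := by
    intro s hs
    unfold Bk
    rw [indicator_of_mem]
    rw [hφτ s (hDJ hs)]
    have h1 := im_ball A k (hDA hs)
    exact (im_iff A k h1.1 h1.2).1 (hDA hs)
  have himg : τ '' D ⊆ Ioc (t0 - Real.pi) (t0 + Real.pi) := by
    rintro _ ⟨s, hs, rfl⟩
    have h1 := abs_le.1 (hτ1 s (hDJ hs))
    have h3 := Real.pi_gt_three
    exact ⟨by linarith [h1.1], by linarith [h1.2]⟩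
  calc ∫ s in Ak A k, fA A k κ s = ∫ s in D, fA A k κ s := (setIntegral_congr_set hae).symm
    _ ≤ ∫ s in D, |deriv τ s| * κ (φ (τ s : S1)) := setIntegral_mono_on hf hg hDm hle
    _ = ∫ s in D, |deriv τ s| • Bk A k κ φ (τ s) := by
        apply setIntegral_congr_fun hDm
        intro s hs
        simp only [smul_eq_mul]
        rw [hBκ s hs]
    _ = ∫ t in τ '' D, Bk A k κ φ t := hcov.symm
    _ ≤ ∫ t in Ioc (t0 - Real.pi) (t0 + Real.pi), Bk A k κ φ t := by
        apply setIntegral_mono_set (Bk_int A k hκ hφ _ _)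
        · exact Eventually.of_forall fun t => Bk_nonneg A k h0 φ t
        · exact (HasSubset.Subset.eventuallyLE himg)
    _ = ∫ t in (t0 - Real.pi)..(t0 + Real.pi), Bk A k κ φ t := by
        rw [intervalIntegral.integral_of_le (by linarith)]
    _ = ∫ t in (0:ℝ)..(2 * Real.pi), Bk A k κ φ t := by
        have h1 := (Bk_per A k κ φ).intervalIntegral_add_eq (t0 - Real.pi) 0
        rw [zero_add, show t0 - Real.pi + 2 * Real.pi = t0 + Real.pi by ring] at h1
        exact h1

end Pool.Agent.FPM
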