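import Mathlib
import Pool.Agent.FPM.COLB
import Pool.Agent.FPM.COLD

/-
COL (helper25): collar lemma. The area of the set of points at distance less than `τ` from the
boundary curve is at most `τ (2π + o(1))`, with weights.
-/

open MeasureTheory Set Filter Measure Manifold Bundle
open scoped ContDiff Topology ENNReal NNReal

set_option linter.unusedSectionVars false

namespace Pool.Agent.FPM

open Pool.Agent.H74.FAC Pool.Agent.EWD

variable {M : Type} [MetricSpace M] [ChartedSpace HP M] [IsManifold (𝓡∂ 2) ∞ M] [CompactSpace M]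
  [RiemannianBundle (fun x : M => TangentSpace (𝓡∂ 2) x)]
  [IsContMDiffRiemannianBundle (𝓡∂ 2) ∞ E2 (fun x : M => TangentSpace (𝓡∂ 2) x)]
  [IsRiemannianManifold (𝓡∂ 2) M]

theorem strip_int {Ψ : ℝ × ℝ → ℝ} (hm : Measurable Ψ) {B : ℝ} (hB : ∀ p, |Ψ p| ≤ B) {s0 r : ℝ}
    (h0 : ∀ p : ℝ × ℝ, Ψ p ≠ 0 → 0 ≤ p.1 ∧ |p.2 - s0| ≤ r)
    {h : ℝ → ℝ} (hh : Measurable h) {Q : ℝ} (hQ : ∀ s, 0 ≤ h s ∧ h s ≤ Q) {τ : ℝ} (hτ : 0 < τ) :
    Integrable (fun p : ℝ × ℝ => if p.1 < h p.2 * τ then Ψ p else 0) := by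
  classical
  have hB0 : 0 ≤ B := (abs_nonneg _).trans (hB (0, 0))
  set T : Set (ℝ × ℝ) := Icc 0 (Q * τ) ×ˢ Icc (s0 - r) (s0 + r) with hT
  have hTm : MeasurableSet T := measurableSet_Icc.prod measurableSet_Icc
  have hTf : volume T ≠ ⊤ := by
    have : (volume : Measure (ℝ × ℝ)) T = volume (Icc 0 (Q * τ)) * volume (Icc (s0 - r) (s0 + r)) :=
      Measure.prod_prod _ _
    rw [this, Real.volume_Icc, Real.volume_Icc]
    exact ENNReal.mul_ne_top ENNReal.ofReal_ne_top ENNReal.ofReal_ne_top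
  have hbdi : Integrable (T.indicator (fun _ => B)) := by
    rw [integrable_indicator_iff hTm]
    exact integrableOn_const hTf
  apply hbdi.mono'
  · apply Measurable.aestronglyMeasurable
    apply Measurable.ite _ hm measurable_const
    exact measurableSet_lt measurable_fst ((hh.comp measurable_snd).mul_const τ)
  · refine Eventually.of_forall fun p => ?_
    by_cases hp1 : p.1 < h p.2 * τ
    · rw [if_pos hp1]
      by_cases hp : Ψ p = 0
      · rw [hp, norm_zero]
        exact indicator_nonneg (fun _ _ => hB0) _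
      · obtain ⟨h3, h4⟩ := h0 _ hp
        have hpT : p ∈ T := by
          refine ⟨⟨h3, hp1.le.trans (mul_le_mul_of_nonneg_right (hQ _).2 hτ.le)⟩, ?_⟩
          rw [abs_le] at h4
          exact ⟨by linarith [h4.1], by linarith [h4.2]⟩
        rw [indicator_of_mem hpT]
        exact hB _
    · rw [if_neg hp1, norm_zero]
      exact indicator_nonneg (fun _ _ => hB0) _

/-- the profile of the strip -/
noncomputable def hk (P : Patch M) (Q η : ℝ) (s : ℝ) : ℝ :=
  P.J.indicator (fun s => min (qb P.e s) Q) s + η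

theorem hk_meas (P : Patch M) (Q η : ℝ) : Measurable (hk P Q η) := by
  classical
  unfold hk
  apply Measurable.add_const
  rw [← Set.piecewise_eq_indicator]
  apply ContinuousOn.measurable_piecewise
  · exact (continuousOn_qb P).inf continuousOn_const
  · exact continuousOn_const
  · exact P.J_open.measurableSet

theorem hk_bd (P : Patch M) {Q η : ℝ} (hQ : 0 ≤ Q) (hη : 0 < η) (s : ℝ) :
    0 ≤ hk P Q η s ∧ hk P Q η s ≤ Q + η := by
  unfold hk
  by_cases h : s ∈ P.J
  · rw [indicator_of_mem h]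
    have h1 : 0 ≤ min (qb P.e s) Q := le_min (qb_nonneg _ _) hQ
    have h2 : min (qb P.e s) Q ≤ Q := min_le_right _ _
    exact ⟨by linarith, by linarith⟩
  · rw [indicator_of_notMem h]
    exact ⟨by linarith, by linarith⟩

theorem kap_ae [Nonempty M] (A : Cov M) {κ : M → ℝ} (hκ : Continuous κ) :
    AEMeasurable (fun o => κ (cpx A o 0)) (mu A) := by
  refine mu_aemeasurable A fun k => ?_
  have h : ContinuousOn (fun z => κ (((A.P k).e.extend (𝓡∂ 2)).symm z)) (im A k) :=
    hκ.comp_continuousOn (((A.P k).e.continuousOn_extend_symm (I := 𝓡∂ 2)).mono (im_sub A k))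
  have h2 : (fun z : E2 => κ (cpx A ((k : ℕ), z) 0))
      = fun z => κ (((A.P k).e.extend (𝓡∂ 2)).symm z) := by
    funext z
    rw [cpx_zero]
  rw [h2]
  exact h.aemeasurable (im_meas A k)

/-- the integral over a piece of the collar -/
theorem piece_le [Nonempty M] (A : Cov M) (k : Fin A.n) {κ : M → ℝ} (hκ : Continuous κ)
    (h0 : ∀ x, 0 ≤ κ x) {φ : S1 → M} {Q η : ℝ} (hQ : 0 ≤ Q) (hη : 0 < η)
    {τ : ℝ} (hτ : 0 < τ)
    (hu : ∀ x ∈ (A.P k).V, Metric.infDist x (range φ) < τ →
      ((A.P k).e.extend (𝓡∂ 2) x) 1 ∈ (A.P k).J ∧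
      qb (A.P k).e (((A.P k).e.extend (𝓡∂ 2) x) 1) ≤ Q ∧
      ((A.P k).e.extend (𝓡∂ 2) x) 0 ≤
        (qb (A.P k).e (((A.P k).e.extend (𝓡∂ 2) x) 1) + η) * Metric.infDist x (range φ)) :
    ∫ z in im A k, √(dg (A.P k).e z) *
      ({o : Om | Metric.infDist (cpx A o 0) (range φ) < τ}.indicator
        (fun o => κ (cpx A o 0)) ((k : ℕ), z)) ≤
    ∫ p : ℝ × ℝ, (if p.1 < hk (A.P k) Q η p.2 * τ then Psi A k κ p else 0) := by
  classical
  obtain ⟨B, hB⟩ := Psi_bound A k hκ
  have hint := strip_int (Psi_meas A k hκ) hB (Psi_supp A k (κ := κ)) (hk_meas (A.P k) Q η)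
    (hk_bd (A.P k) hQ hη) hτ
  rw [← integral_indicator (im_meas A k)]
  rw [← ptE_mp.integral_comp']
  apply integral_mono_of_nonneg
  · refine Eventually.of_forall fun p => ?_
    apply indicator_nonneg
    intro z _
    exact mul_nonneg (Real.sqrt_nonneg _) (indicator_nonneg (fun _ _ => h0 _) _)
  · exact hint
  · refine Eventually.of_forall fun p => ?_
    simp only
    rw [ptE_apply]
    have hΨ0 : 0 ≤ Psi A k κ p := by
      unfold Psi
      apply indicator_nonneg
      intro z _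
      exact mul_nonneg (Real.sqrt_nonneg _) (h0 _)
    have hR0 : 0 ≤ (if p.1 < hk (A.P k) Q η p.2 * τ then Psi A k κ p else 0) := by
      split_ifs
      · exact hΨ0
      · exact le_rfl
    by_cases him : pt p.1 p.2 ∈ im A k
    · rw [indicator_of_mem him]
      by_cases hc : Metric.infDist (cpx A ((k : ℕ), pt p.1 p.2) 0) (range φ) < τ
      · have hmem : (((k : ℕ), pt p.1 p.2) : Om) ∈
            {o : Om | Metric.infDist (cpx A o 0) (range φ) < τ} := hc
        rw [indicator_of_mem hmem]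
        rw [cpx_zero] at hc ⊢
        have hΨ : Psi A k κ p = √(dg (A.P k).e (pt p.1 p.2)) *
            κ (((A.P k).e.extend (𝓡∂ 2)).symm (pt p.1 p.2)) := by
          unfold Psi; rw [indicator_of_mem him]
        rw [← hΨ]
        obtain ⟨x, hx, hxe⟩ := him
        have hxs : ((A.P k).e.extend (𝓡∂ 2)).symm (pt p.1 p.2) = x := by
          rw [← hxe]; exact ext_left_inv (A.S_sub k hx).1
        rw [hxs] at hc
        obtain ⟨u1, u2, u3⟩ := hu x (A.S_sub k hx) hc
        have hxe' : (A.P k).e.extend (𝓡∂ 2) x = pt p.1 p.2 := hxe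
        rw [hxe', pt_one] at u1 u2 u3
        rw [pt_zero] at u3
        have hhk : hk (A.P k) Q η p.2 = qb (A.P k).e p.2 + η := by
          unfold hk
          rw [indicator_of_mem u1, min_eq_left u2]
        rw [if_pos]
        rw [hhk]
        refine u3.trans_lt ?_
        have := qb_nonneg (A.P k).e p.2
        exact mul_lt_mul_of_pos_left hc (by linarith)
      · have hmem : (((k : ℕ), pt p.1 p.2) : Om) ∉
            {o : Om | Metric.infDist (cpx A o 0) (range φ) < τ} := hc
        rw [indicator_of_notMem hmem, mul_zero]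
        exact hR0
    · rw [indicator_of_notMem him]
      exact hR0

theorem Psi0_int (A : Cov M) (k : Fin A.n) {κ : M → ℝ} (hκ : Continuous κ) :
    Integrable (fun s => Psi A k κ (0, s)) := by
  obtain ⟨B, hB⟩ := Psi_bound A k hκ
  have h1 : Integrable ((Icc ((A.P k).c 1 - (A.P k).r) ((A.P k).c 1 + (A.P k).r)).indicator
      (fun _ => B)) := by
    rw [integrable_indicator_iff measurableSet_Icc]
    exact integrableOn_const (by rw [Real.volume_Icc]; exact ENNReal.ofReal_ne_top)
  have hB0 : 0 ≤ B := (abs_nonneg _).trans (hB (0, 0))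
  apply h1.mono'
  · exact ((Psi_meas A k hκ).comp (measurable_const.prodMk measurable_id)).aestronglyMeasurable
  · refine Eventually.of_forall fun s => ?_
    by_cases hp : Psi A k κ (0, s) = 0
    · rw [hp, norm_zero]
      exact indicator_nonneg (fun _ _ => hB0) _
    · obtain ⟨-, h4⟩ := Psi_supp A k _ hp
      rw [indicator_of_mem]
      · exact hB _
      · simp only [abs_le] at h4
        exact ⟨by linarith [h4.1], by linarith [h4.2]⟩

/-- the limit on a piece -/
theorem lim_le (A : Cov M) (k : Fin A.n) {κ : M → ℝ} (hκ : Continuous κ)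
    (h0 : ∀ x, 0 ≤ κ x) {φ : S1 → M} (hφ : IsometricFilling φ) {Q η : ℝ} (hQ : 0 ≤ Q)
    (hη : 0 < η) :
    ∫ s, hk (A.P k) Q η s * Psi A k κ (0, s) ≤
      (∫ t in (0:ℝ)..(2 * Real.pi), Bk A k κ φ t) + η * ∫ s, Psi A k κ (0, s) := by
  obtain ⟨hf, hle⟩ := change A k hκ h0 hφ
  have hI := Psi0_int A k hκ
  have hf' : Integrable ((Ak A k).indicator (fA A k κ)) :=
    (integrable_indicator_iff (Ak_meas A k)).2 hf
  have hpt : ∀ s, hk (A.P k) Q η s * Psi A k κ (0, s) ≤
      (Ak A k).indicator (fA A k κ) s + η * Psi A k κ (0, s) := by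
    intro s
    by_cases hs : s ∈ Ak A k
    · have hJ := Ak_J A k hs
      have hΨ : Psi A k κ (0, s) = √(dg (A.P k).e (pt 0 s)) *
          κ (((A.P k).e.extend (𝓡∂ 2)).symm (pt 0 s)) := by
        unfold Psi
        exact indicator_of_mem (show pt 0 s ∈ im A k from hs) _
      rw [indicator_of_mem hs]
      unfold hk
      rw [indicator_of_mem hJ, add_mul]
      have h1 : min (qb (A.P k).e s) Q * Psi A k κ (0, s) ≤ fA A k κ s := by
        rw [hΨ]
        unfold fA
        rw [← qb_mul (A.P k) hJ]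
        have h2 : 0 ≤ √(dg (A.P k).e (pt 0 s)) *
          κ (((A.P k).e.extend (𝓡∂ 2)).symm (pt 0 s)) := mul_nonneg (Real.sqrt_nonneg _) (h0 _)
        calc _ ≤ qb (A.P k).e s * (√(dg (A.P k).e (pt 0 s)) *
              κ (((A.P k).e.extend (𝓡∂ 2)).symm (pt 0 s))) :=
              mul_le_mul_of_nonneg_right (min_le_left _ _) h2
          _ = _ := by ring
      linarith
    · have hΨ : Psi A k κ (0, s) = 0 := by
        unfold Psi
        exact indicator_of_notMem (show pt 0 s ∉ im A k from hs) _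
      rw [hΨ, indicator_of_notMem hs]
      simp
  have hmeas : AEStronglyMeasurable (fun s => hk (A.P k) Q η s * Psi A k κ (0, s)) volume :=
    ((hk_meas (A.P k) Q η).mul
      ((Psi_meas A k hκ).comp (measurable_const.prodMk measurable_id))).aestronglyMeasurable
  have hΨ0 : ∀ s, 0 ≤ Psi A k κ (0, s) := by
    intro s
    unfold Psi
    apply indicator_nonneg
    intro z _
    exact mul_nonneg (Real.sqrt_nonneg _) (h0 _)
  calc ∫ s, hk (A.P k) Q η s * Psi A k κ (0, s)
      ≤ ∫ s, ((Ak A k).indicator (fA A k κ) s + η * Psi A k κ (0, s)) := by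
        apply integral_mono_of_nonneg
        · exact Eventually.of_forall fun s => mul_nonneg (hk_bd (A.P k) hQ hη s).1 (hΨ0 s)
        · exact hf'.add (hI.const_mul η)
        · exact Eventually.of_forall hpt
    _ = (∫ s in Ak A k, fA A k κ s) + η * ∫ s, Psi A k κ (0, s) := by
        rw [integral_add hf' (hI.const_mul η), integral_indicator (Ak_meas A k),
          integral_const_mul]
    _ ≤ _ := by linarith

theorem sum_Bk (A : Cov M) {κ : M → ℝ} (hκ : Continuous κ) (h0 : ∀ x, 0 ≤ κ x) {φ : S1 → M}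
    (hφ : IsometricFilling φ) :
    ∑ k : Fin A.n, ∫ t in (0:ℝ)..(2 * Real.pi), Bk A k κ φ t ≤
      ∫ t in (0:ℝ)..(2 * Real.pi), κ (φ (t : S1)) := by
  have hpi := Real.pi_pos
  rw [← intervalIntegral.integral_finsetSum]
  swap
  · intro k _
    rw [intervalIntegrable_iff_integrableOn_Ioc_of_le (by positivity)]
    exact Bk_int A k hκ hφ _ _
  apply intervalIntegral.integral_mono_on (by positivity)
  · rw [intervalIntegrable_iff_integrableOn_Ioc_of_le (by positivity)]
    exact integrable_finsetSum _ fun k _ => Bk_int A k hκ hφ _ _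
  · exact (hκ.comp (continuous_gam hφ)).intervalIntegrable _ _
  · intro t _
    unfold Bk
    by_cases h : ∃ k, φ (t : S1) ∈ A.S k
    · obtain ⟨k, hk⟩ := h
      rw [Finset.sum_eq_single k]
      · rw [indicator_of_mem hk]
      · intro j _ hj
        rw [indicator_of_notMem]
        intro hj'
        exact Set.disjoint_left.1 (A.S_disj hj) hj' hk
      · intro h; exact absurd (Finset.mem_univ k) h
    · push Not at h
      rw [Finset.sum_eq_zero]
      · exact h0 _
      · intro k _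
        rw [indicator_of_notMem (h k)]

/-- collar lemma -/
theorem col [Nonempty M] (A : Cov M) {φ : S1 → M} (hφ : IsometricFilling φ) {κ : M → ℝ}
    (hκ : Continuous κ) (h0 : ∀ x, 0 ≤ κ x) {ε : ℝ} (hε : 0 < ε) :
    ∀ᶠ τ in 𝓝[>] (0:ℝ), ∫ o in {o | Metric.infDist ((cal A hφ).pt o) (range (gam φ)) < τ},
      κ ((cal A hφ).pt o) ∂(cal A hφ).μ ≤
      τ * ((∫ s in (0:ℝ)..(2 * Real.pi), κ (gam φ s)) + ε) := by
  classical
  have hrange : range (gam φ) = range φ := by
    ext x
    constructor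
    · rintro ⟨t, rfl⟩
      exact ⟨_, rfl⟩
    · rintro ⟨y, rfl⟩
      obtain ⟨t, rfl⟩ := QuotientAddGroup.mk_surjective y
      exact ⟨t, rfl⟩
  haveI := mu_fin A
  obtain ⟨B, hB0, hB⟩ := kap_bound hκ
  choose Q hQ0 hQ using fun k : Fin A.n => unif_hgt (A.P k) hφ
  set I : Fin A.n → ℝ := fun k => ∫ s, Psi A k κ (0, s) with hI
  have hI0 : ∀ k, 0 ≤ I k := by
    intro k
    apply integral_nonneg
    intro s
    unfold Psi
    apply indicator_nonneg
    intro z _
    exact mul_nonneg (Real.sqrt_nonneg _) (h0 _)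
  set η : ℝ := ε / (2 * (∑ k, I k + 1)) with hη
  have hS0 : 0 ≤ ∑ k, I k := Finset.sum_nonneg fun k _ => hI0 k
  have hη0 : 0 < η := by positivity
  choose δ hδ0 hδ using fun k : Fin A.n => hQ k η hη0
  -- the limit
  have hlim : Tendsto (fun τ : ℝ => ∑ k : Fin A.n, τ⁻¹ * ∫ p : ℝ × ℝ,
      (if p.1 < hk (A.P k) (Q k) η p.2 * τ then Psi A k κ p else 0)) (𝓝[>] 0)
      (𝓝 (∑ k : Fin A.n, ∫ s, hk (A.P k) (Q k) η s * Psi A k κ (0, s))) := by
    apply tendsto_finsetSum
    intro k _
    obtain ⟨Bk', hBk'⟩ := Psi_bound A k hκ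
    exact strip (Psi_meas A k hκ) hBk' (Psi_supp A k (κ := κ)) (Psi_lim A hφ k hκ)
      (hk_meas (A.P k) (Q k) η) (hk_bd (A.P k) (hQ0 k) hη0)
  have hlt : ∑ k : Fin A.n, ∫ s, hk (A.P k) (Q k) η s * Psi A k κ (0, s) <
      (∫ s in (0:ℝ)..(2 * Real.pi), κ (gam φ s)) + ε := by
    calc ∑ k : Fin A.n, ∫ s, hk (A.P k) (Q k) η s * Psi A k κ (0, s)
        ≤ ∑ k : Fin A.n, ((∫ t in (0:ℝ)..(2 * Real.pi), Bk A k κ φ t) + η * I k) :=
          Finset.sum_le_sum fun k _ => lim_le A k hκ h0 hφ (hQ0 k) hη0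
      _ = (∑ k : Fin A.n, ∫ t in (0:ℝ)..(2 * Real.pi), Bk A k κ φ t) + η * ∑ k, I k := by
          rw [Finset.sum_add_distrib, Finset.mul_sum]
      _ ≤ (∫ s in (0:ℝ)..(2 * Real.pi), κ (gam φ s)) + η * ∑ k, I k :=
          add_le_add (sum_Bk A hκ h0 hφ) le_rfl
      _ < _ := by
          have h1 : η * ∑ k, I k ≤ ε / 2 := by
            rw [hη, div_mul_eq_mul_div, div_le_div_iff₀ (by positivity) (by norm_num)]
            nlinarith
          linarith
  have hev := hlim.eventually (gt_mem_nhds hlt)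
  have hevδ : ∀ᶠ τ in 𝓝[>] (0:ℝ), ∀ k : Fin A.n, τ < δ k := by
    rw [eventually_all]
    intro k
    exact (gt_mem_nhds (hδ0 k)).filter_mono nhdsWithin_le_nhds
  filter_upwards [hev, hevδ, self_mem_nhdsWithin] with τ h1 h2 h3
  have h3' : 0 < τ := h3
  rw [hrange]
  show ∫ o in {o | Metric.infDist (cpx A o 0) (range φ) < τ}, κ (cpx A o 0) ∂(mu A) ≤ _
  have hset : NullMeasurableSet {o | Metric.infDist (cpx A o 0) (range φ) < τ} (mu A) := by
    apply nullMeasurableSet_lt
    · exact mpt_field A (u := fun x => Metric.infDist x (range φ))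
        ⟨1, Metric.lipschitz_infDist_pt _⟩
    · exact aemeasurable_const
  have hfm : AEMeasurable ({o | Metric.infDist (cpx A o 0) (range φ) < τ}.indicator
      (fun o => κ (cpx A o 0))) (mu A) := (kap_ae A hκ).indicator₀ hset
  have hfi : Integrable ({o | Metric.infDist (cpx A o 0) (range φ) < τ}.indicator
      (fun o => κ (cpx A o 0))) (mu A) := by
    apply Integrable.mono' (g := fun _ => B) (integrable_const _) hfm.aestronglyMeasurable
    refine Eventually.of_forall fun o => ?_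
    by_cases h : o ∈ {o | Metric.infDist (cpx A o 0) (range φ) < τ}
    · rw [indicator_of_mem h]; exact hB _
    · rw [indicator_of_notMem h, norm_zero]; exact hB0
  rw [← integral_indicator₀ hset, mu_int A hfi]
  have hsum : ∑ k : Fin A.n, ∫ z in im A k, √(dg (A.P k).e z) *
      ({o : Om | Metric.infDist (cpx A o 0) (range φ) < τ}.indicator
        (fun o => κ (cpx A o 0)) ((k : ℕ), z)) ≤
      ∑ k : Fin A.n, ∫ p : ℝ × ℝ,
        (if p.1 < hk (A.P k) (Q k) η p.2 * τ then Psi A k κ p else 0) :=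
    Finset.sum_le_sum fun k _ => piece_le A k hκ h0 (hQ0 k) hη0 h3'
      (fun x hx hxt => hδ k x hx (hxt.trans (h2 k)))
  refine hsum.trans ?_
  rw [← Finset.mul_sum] at h1
  rw [inv_mul_lt_iff₀ h3'] at h1
  exact h1.le

end Pool.Agent.FPM
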