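import Mathlib
import Pool.Agent.EWD.Defs
import Pool.Agent.FPX.S7Defs

/-
SU4D (helper66): definitions for the last step of the isoperimetric inequality of near minimisers.
`Colb`: there is a function `b` that vanishes exactly on the curve, whose level lines near the curve
have length at most the length of the curve, with weights. `Surg`: the conclusion of the surgery
lemma `su3`.
-/

open MeasureTheory Set Filter Topology
open scoped ENNReal NNReal

noncomputable section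

namespace Pool.Agent.FPM

open Pool.Agent.EWD Pool.Agent.FPX

variable {M : Type} [MetricSpace M] {γ : ℝ → M}

/-- collar property of the curve -/
def Colb (C : Calc M γ) : Prop := (∀ᵐ o ∂C.μ, C.pt o ∉ range γ) ∧
  ∃ b : M → ℝ, Lip b ∧ (∀ x, 0 ≤ b x) ∧ (∀ s, b (γ s) = 0) ∧ (∀ x, b x = 0 → x ∈ range γ) ∧
    ∀ ψ : M → ℝ, Lip ψ → (∀ x, 0 ≤ ψ x) → ∀ ε : ℝ, 0 < ε → ∀ᶠ σ : ℝ in 𝓝[>] 0,
      ∫ o in {o | b (C.pt o) < σ}, ψ (C.pt o) * √(C.gx b o ^ 2 + C.gy b o ^ 2) ∂C.μ
        ≤ σ * ((∫ s in (0 : ℝ)..(2 * Real.pi), ψ (γ s)) + ε)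

/-- surgery: the area enclosed by a level line whose components have diameter at most `2 b` -/
def Surg (C : Calc M γ) (ε : ℝ) : Prop := ∀ w : M → ℝ, Lip w → (∀ s, w (γ s) ≤ 0) →
  ∀ t l b : ℝ, 0 < t → 0 < b →
    HasDerivAt (fun s => ∫ o in {o | w (C.pt o) < s}, √(C.gx w o ^ 2 + C.gy w o ^ 2) ∂C.μ) l t →
    (∀ x y, w x = t → y ∈ connectedComponentIn {z | w z = t} x → dist x y ≤ 2 * b) →
    (C.μ {o | t < w (C.pt o)}).toReal ≤ 2 * b / Real.pi * l + ε

end Pool.Agent.FPM
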