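import Mathlib
import Pool.Agent.FPM.COL
import Pool.Agent.FPM.SU4D

/-
COLF (helper25): `Colb (cal A hφ)`.
-/

open MeasureTheory Set Filter Measure Manifold Bundle
open scoped ContDiff Topology ENNReal NNReal

set_option linter.unusedSectionVars false

namespace Pool.Agent.FPM

open Pool.Agent.H74.FAC Pool.Agent.EWD

variable {M : Type} [MetricSpace M] [ChartedSpace HP M] [IsManifold (𝓡∂ 2) ∞ M] [CompactSpace M]
  [RiemannianBundle (fun x : M => TangentSpace (𝓡∂ 2) x)]
  [IsContMDiffRiemannianBundle (𝓡∂ 2) ∞ E2 (fun x : M => TangentSpace (𝓡∂ 2) x)]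
  [IsRiemannianManifold (𝓡∂ 2) M]

theorem range_gam (φ : S1 → M) : range (gam φ) = range φ := by
  ext x
  constructor
  · rintro ⟨t, rfl⟩
    exact ⟨_, rfl⟩
  · rintro ⟨y, rfl⟩
    obtain ⟨t, rfl⟩ := QuotientAddGroup.mk_surjective y
    exact ⟨t, rfl⟩

theorem ae_notMem_range [Nonempty M] (A : Cov M) {φ : S1 → M} (hφ : IsometricFilling φ) :
    ∀ᵐ o ∂(cal A hφ).μ, (cal A hφ).pt o ∉ range (gam φ) := by
  show ∀ᵐ o ∂(mu A), cpx A o 0 ∉ range (gam φ)
  apply mu_ae
  intro k
  filter_upwards [im_O A k] with z hz hzi hmem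
  have hzO := hz hzi
  rw [cpx_zero, range_gam, hφ.range_eq, boundary_iff (A.P k).he (symm_mem_source (im_sub A k hzi)),
    ((A.P k).e.extend (𝓡∂ 2)).right_inv (im_sub A k hzi)] at hmem
  have : 0 < z 0 := hzO.2
  linarith

theorem colb_cal [Nonempty M] (A : Cov M) {φ : S1 → M} (hφ : IsometricFilling φ) :
    Colb (cal A hφ) := by
  refine ⟨ae_notMem_range A hφ, fun x => Metric.infDist x (range (gam φ)),
    ⟨1, Metric.lipschitz_infDist_pt _⟩, fun x => Metric.infDist_nonneg, ?_, ?_, ?_⟩
  · intro s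
    exact Metric.infDist_zero_of_mem ⟨s, rfl⟩
  · intro x hx
    have hcl : IsClosed (range (gam φ)) := by
      rw [range_gam]; exact (range_compact hφ).isClosed
    exact (hcl.mem_iff_infDist_zero (range_nonempty _)).2 hx
  · intro ψ hψ h0 ε hε
    have := (cal A hφ).fin
    filter_upwards [col A hφ hψ.cont h0 hε] with σ hσ
    refine le_trans ?_ hσ
    obtain ⟨B, hB0, hB⟩ := kap_bound hψ.cont
    have hb := (cal A hφ).bound (fun x => Metric.infDist x (range (gam φ))) 1
      (Metric.lipschitz_infDist_pt _)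
    have hi : Integrable (fun o => ψ ((cal A hφ).pt o)) (cal A hφ).μ := by
      apply Integrable.mono' (g := fun _ => B) (integrable_const _)
        ((cal A hφ).mpt ψ hψ).aestronglyMeasurable
      exact Eventually.of_forall fun o => hB _
    apply integral_mono_of_nonneg
    · exact Eventually.of_forall fun o => mul_nonneg (h0 _) (Real.sqrt_nonneg _)
    · exact hi.integrableOn
    · apply ae_restrict_of_ae
      filter_upwards [hb] with o ho
      have h1 : √((cal A hφ).gx (fun x => Metric.infDist x (range (gam φ))) o ^ 2 +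
          (cal A hφ).gy (fun x => Metric.infDist x (range (gam φ))) o ^ 2) ≤ 1 := by
        have : ((1 : ℝ≥0) : ℝ) ^ 2 = 1 := by norm_num
        rw [this] at ho
        exact Real.sqrt_le_one.2 ho
      exact mul_le_of_le_one_right (h0 _) h1

end Pool.Agent.FPM
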