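import Mathlib
import Pool.Agent.EWD.GDF
import Pool.Agent.EWD.LPA
import Pool.Agent.EWD.RUL
import Pool.Agent.EWD.WTR
import Pool.Agent.EWD.LZL
import Pool.Agent.EWD.STO
import Pool.Agent.EWD.CAL
import Pool.Agent.FPM.VZD

/-
RPL (helper84): on a smooth surface almost every value of a Lipschitz map into the plane is regular.
-/

open MeasureTheory Set Filter Measure Manifold Bundle
open scoped ContDiff Topology ENNReal NNReal

set_option linter.unusedSectionVars false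

namespace Pool.Agent.FPM

open Pool.Agent.EWD Pool.Agent.H74.FAC

/-- a Lipschitz map of the plane maps null sets to null sets -/
private theorem RPL_null {Φ : E2 → E2} {K : ℝ≥0} (hΦ : LipschitzWith K Φ)
    {S : Set E2} (hS : volume S = 0) : volume (Φ '' S) = 0 := by
  have hfr : (0 : ℝ) ≤ (Module.finrank ℝ E2 : ℝ) := Nat.cast_nonneg _
  have h1 : (μH[(Module.finrank ℝ E2 : ℝ)] : Measure E2) ≪ volume :=
    absolutelyContinuous_isAddHaarMeasure _ _
  have h2 : (volume : Measure E2) ≪ μH[(Module.finrank ℝ E2 : ℝ)] :=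
    absolutelyContinuous_isAddHaarMeasure _ _
  apply h2
  have h3 : μH[(Module.finrank ℝ E2 : ℝ)] S = 0 := h1 hS
  have h4 := (hΦ.lipschitzOnWith (s := S)).hausdorffMeasure_image_le hfr
  rw [h3, mul_zero] at h4
  exact nonpos_iff_eq_zero.1 h4

private theorem RPL_lip2 {U V : E2 → ℝ} {c d : ℝ≥0} (hU : LipschitzWith c U)
    (hV : LipschitzWith d V) : LipschitzWith (c + d) (fun z => (!₂[U z, V z] : E2)) := by
  apply LipschitzWith.of_dist_le_mul
  intro z w
  have h0 := hU.dist_le_mul z w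
  have h1 := hV.dist_le_mul z w
  rw [EuclideanSpace.dist_eq, Fin.sum_univ_two]
  have e0 : 0 ≤ dist (U z) (U w) := dist_nonneg
  have e1 : 0 ≤ dist (V z) (V w) := dist_nonneg
  have h3 : √(dist (U z) (U w) ^ 2 + dist (V z) (V w) ^ 2)
      ≤ dist (U z) (U w) + dist (V z) (V w) := by
    apply Real.sqrt_le_iff.2
    constructor
    · positivity
    · nlinarith [mul_nonneg e0 e1]
  refine le_trans (b := dist (U z) (U w) + dist (V z) (V w)) h3 ?_
  push_cast
  linarith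

private theorem RPL_det (D : E2 →L[ℝ] E2) :
    D.det = D (bv 0) 0 * D (bv 1) 1 - D (bv 1) 0 * D (bv 0) 1 := det_E2 D

variable {M : Type} [MetricSpace M] [ChartedSpace HP M] [IsManifold (𝓡∂ 2) ∞ M] [CompactSpace M]

/-- Sard for a Lipschitz map into the plane on a patch -/
theorem sard_pl (P : Patch M) {X Y : M → ℝ} (hX : Lip X) (hY : Lip Y) :
    ∀ᵐ v : E2, ∀ x ∈ P.V, X x = v 0 → Y x = v 1 →
      0 < (P.e.extend (𝓡∂ 2) x) 0 ∧
      DifferentiableAt ℝ (fun y => X ((P.e.extend (𝓡∂ 2)).symm y)) (P.e.extend (𝓡∂ 2) x) ∧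
      DifferentiableAt ℝ (fun y => Y ((P.e.extend (𝓡∂ 2)).symm y)) (P.e.extend (𝓡∂ 2) x) ∧
      Jc P.e X Y (P.e.extend (𝓡∂ 2) x) ≠ 0 := by
  obtain ⟨L, hL⟩ := hX
  obtain ⟨L', hL'⟩ := hY
  obtain ⟨c, U, hU, hUD⟩ := P.exists_ext hL
  obtain ⟨d, V, hV, hVD⟩ := P.exists_ext hL'
  have hΦ := RPL_lip2 hU hV
  set Φ : E2 → E2 := fun z => (!₂[U z, V z] : E2) with hΦdef
  set G : Set E2 := {z | DifferentiableAt ℝ U z ∧ DifferentiableAt ℝ V z ∧ z 0 ≠ 0} with hG
  have hline : ∀ᵐ z : E2, z 0 ≠ 0 := by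
    have hsub : volume ((LinearMap.ker ((EuclideanSpace.proj (0 : Fin 2) : E2 →L[ℝ] ℝ) :
        E2 →ₗ[ℝ] ℝ) : Submodule ℝ E2) : Set E2) = 0 := by
      apply Measure.addHaar_submodule
      intro h
      rw [LinearMap.ker_eq_top] at h
      have h1 : ((EuclideanSpace.proj (0 : Fin 2) : E2 →L[ℝ] ℝ) : E2 →ₗ[ℝ] ℝ)
          (EuclideanSpace.single 0 (1 : ℝ)) = 0 := by rw [h]; rfl
      simp at h1
    rw [ae_iff]
    refine measure_mono_null ?_ hsub
    intro z hz
    simp only [ne_eq, not_not, mem_ofPred_eq] at hz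
    simpa using hz
  have hGae : ∀ᵐ z : E2, z ∈ G := by
    filter_upwards [hU.ae_differentiableAt (μ := volume), hV.ae_differentiableAt (μ := volume),
      hline] with z h1 h2 h3
    exact ⟨h1, h2, h3⟩
  have hz1 : volume (Φ '' {z | ¬ z ∈ G}) = 0 := RPL_null hΦ (ae_iff.1 hGae)
  set s : Set E2 := {z | (DifferentiableAt ℝ U z ∧ DifferentiableAt ℝ V z) ∧
    fderiv ℝ U z (bv 0) * fderiv ℝ V z (bv 1) - fderiv ℝ U z (bv 1) * fderiv ℝ V z (bv 0) = 0}
    with hs
  have hder : ∀ z ∈ s, HasFDerivWithinAt Φ (fderiv ℝ Φ z) s z ∧ (fderiv ℝ Φ z).det = 0 := by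
    intro z hz
    have h1 : HasFDerivAt U (fderiv ℝ U z) z := hz.1.1.hasFDerivAt
    have h2 : HasFDerivAt V (fderiv ℝ V z) z := hz.1.2.hasFDerivAt
    have h3 : DifferentiableAt ℝ Φ z := by
      rw [differentiableAt_euclidean]
      intro i
      fin_cases i
      · exact hz.1.1
      · exact hz.1.2
    have h4 : ∀ w : E2, ∀ i : Fin 2, (fderiv ℝ Φ z w) i = fderiv ℝ (fun z => Φ z i) z w := by
      intro w i
      have h5 := ((EuclideanSpace.proj i : E2 →L[ℝ] ℝ).hasFDerivAt (x := Φ z)).comp z h3.hasFDerivAt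
      have h6 : fderiv ℝ (fun z => Φ z i) z
          = ((EuclideanSpace.proj i : E2 →L[ℝ] ℝ)).comp (fderiv ℝ Φ z) := h5.fderiv
      rw [h6]
      rfl
    refine ⟨h3.hasFDerivAt.hasFDerivWithinAt, ?_⟩
    rw [RPL_det, h4, h4, h4, h4]
    have e0 : (fun z => Φ z 0) = U := by
      funext z
      rfl
    have e1 : (fun z => Φ z 1) = V := by
      funext z
      rfl
    rw [e0, e1]
    exact hz.2
  have hz2 : volume (Φ '' s) = 0 :=
    addHaar_image_eq_zero_of_det_fderivWithin_eq_zero volume (fun z hz => (hder z hz).1)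
      (fun z hz => (hder z hz).2)
  have hae : ∀ᵐ y : E2, y ∉ Φ '' {z | ¬ z ∈ G} ∧ y ∉ Φ '' s :=
    (measure_eq_zero_iff_ae_notMem.1 hz1).and (measure_eq_zero_iff_ae_notMem.1 hz2)
  filter_upwards [hae] with v hv x hx hXx hYx
  have hD := P.mem_D_of_V hx
  set z := P.e.extend (𝓡∂ 2) x with hz
  have hUx : U z = X x := by rw [hUD _ hD, ext_left_inv (P.V_sub hx)]
  have hVx : V z = Y x := by rw [hVD _ hD, ext_left_inv (P.V_sub hx)]
  have hy' : Φ z = v := by
    ext i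
    fin_cases i
    · show U z = v 0
      rw [hUx, hXx]
    · show V z = v 1
      rw [hVx, hYx]
  have hzG : z ∈ G := by
    by_contra hcon
    exact hv.1 ⟨z, hcon, hy'⟩
  have hpos : 0 < z 0 := lt_of_le_of_ne (ext_nonneg _ _) (Ne.symm hzG.2.2)
  have hO : z ∈ P.O := ⟨hx.2, hpos⟩
  have hevX : (fun y => X ((P.e.extend (𝓡∂ 2)).symm y)) =ᶠ[𝓝 z] U := by
    filter_upwards [P.O_open.mem_nhds hO] with w hw
    rw [hUD w (P.O_sub_D hw)]
  have hevY : (fun y => Y ((P.e.extend (𝓡∂ 2)).symm y)) =ᶠ[𝓝 z] V := by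
    filter_upwards [P.O_open.mem_nhds hO] with w hw
    rw [hVD w (P.O_sub_D hw)]
  refine ⟨hpos, ?_, ?_, ?_⟩
  · rw [hevX.differentiableAt_iff]
    exact hzG.1
  · rw [hevY.differentiableAt_iff]
    exact hzG.2.1
  · unfold Jc
    rw [hevX.fderiv_eq, hevY.fderiv_eq]
    intro ht
    exact hv.2 ⟨z, ⟨⟨hzG.1, hzG.2.1⟩, ht⟩, hy'⟩

private theorem RPL_empty (A : Cov M) (f : M → ℝ) (u w : M → ℝ) : BT A f ∅ u w = 0 := by
  unfold BT
  simp

/-- additivity over finitely many disjoint sets -/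
private theorem RPL_sum (A : Cov M) {f : M → ℝ} (hf : Measurable[borel M] f) {B : ℝ}
    (hB : ∀ x, |f x| ≤ B) (Z : Finset M) (T : M → Set M)
    (hT : ∀ z ∈ Z, MeasurableSet[borel M] (T z))
    (hd : (Z : Set M).PairwiseDisjoint T) {u w : M → ℝ} (hu : Lip u) (hw : Lip w) :
    BT A f (⋃ z ∈ Z, T z) u w = ∑ z ∈ Z, BT A f (T z) u w := by
  classical
  let _ : MeasurableSpace M := borel M
  have _ : BorelSpace M := ⟨rfl⟩
  induction Z using Finset.induction_on with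
  | empty => simp [RPL_empty]
  | insert a Z ha ih =>
    have hT' : ∀ z ∈ Z, MeasurableSet[borel M] (T z) :=
      fun z hz => hT z (Finset.mem_insert_of_mem hz)
    have hd' : (Z : Set M).PairwiseDisjoint T :=
      hd.subset (by simp)
    rw [Finset.set_biUnion_insert, Finset.sum_insert ha, ← ih hT' hd']
    apply BT_union A hf hB (hT a (Finset.mem_insert_self _ _))
      (Finset.measurableSet_biUnion Z hT') _ hu hw
    rw [Set.disjoint_iUnion₂_right]
    intro z hz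
    refine hd (Finset.mem_coe.2 (Finset.mem_insert_self _ _))
      (Finset.mem_coe.2 (Finset.mem_insert_of_mem hz)) ?_
    rintro rfl
    exact ha hz

/-- the bound of the weight away from the zeros -/
private theorem RPL_weight {ψ q c ε B : ℝ} (hψ : |ψ| ≤ B) (hB : 0 ≤ B) (hc : 0 < c) (hq : c ≤ q) :
    |ψ * (2 * ε ^ 2 / (q + ε ^ 2) ^ 2)| ≤ B * (2 * ε ^ 2 / c ^ 2) := by
  rw [abs_mul]
  have h1 : 0 ≤ 2 * ε ^ 2 / (q + ε ^ 2) ^ 2 := by positivity
  rw [abs_of_nonneg h1]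
  have h2 : c ^ 2 ≤ (q + ε ^ 2) ^ 2 := by
    apply pow_le_pow_left₀ hc.le
    nlinarith [sq_nonneg ε]
  have h3 : 2 * ε ^ 2 / (q + ε ^ 2) ^ 2 ≤ 2 * ε ^ 2 / c ^ 2 :=
    div_le_div_of_nonneg_left (by positivity) (by positivity) h2
  exact mul_le_mul hψ h3 h1 hB

variable
  [RiemannianBundle (fun x : M => TangentSpace (𝓡∂ 2) x)]
  [IsContMDiffRiemannianBundle (𝓡∂ 2) ∞ E2 (fun x : M => TangentSpace (𝓡∂ 2) x)]
  [IsRiemannianManifold (𝓡∂ 2) M]

theorem vz_of_nondeg [Nonempty M] (A : Cov M) {φ : S1 → M} (hφ : IsometricFilling φ)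
    {X Y : M → ℝ} (lX : Lip X) (lY : Lip Y)
    (hz : ∀ x, X x = 0 → Y x = 0 → ∀ k, x ∈ (A.P k).V →
      0 < ((A.P k).e.extend (𝓡∂ 2) x) 0 ∧
      DifferentiableAt ℝ (fun y => X (((A.P k).e.extend (𝓡∂ 2)).symm y))
        ((A.P k).e.extend (𝓡∂ 2) x) ∧
      DifferentiableAt ℝ (fun y => Y (((A.P k).e.extend (𝓡∂ 2)).symm y))
        ((A.P k).e.extend (𝓡∂ 2) x) ∧
      Jc (A.P k).e X Y ((A.P k).e.extend (𝓡∂ 2) x) ≠ 0) :
    ∃ (Z : Finset M) (s : M → ℝ), Vz (cal A hφ) X Y Z s := by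
  classical
  let _ : MeasurableSpace M := borel M
  have _ : BorelSpace M := ⟨rfl⟩
  have cX : Continuous X := lX.cont
  have cY : Continuous Y := lY.cont
  choose l hl using A.cover
  -- finitely many zeros
  obtain ⟨Z, hZ⟩ : ∃ Z : Finset M, ∀ z, z ∈ Z ↔ X z = 0 ∧ Y z = 0 := by
    have hcl : IsClosed {x | X x = 0 ∧ Y x = 0} := by
      have h1 : IsClosed {x | X x = 0} := isClosed_eq cX continuous_const
      have h2 : IsClosed {x | Y x = 0} := isClosed_eq cY continuous_const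
      exact h1.inter h2
    have hiso : ∀ x : M, ∃ T : Set M, (X x = 0 ∧ Y x = 0) → IsOpen T ∧ x ∈ T ∧
        ∀ y ∈ T, X y = 0 → Y y = 0 → y = x := by
      intro x
      by_cases hx : X x = 0 ∧ Y x = 0
      · obtain ⟨h0, dX, dY, hJ⟩ := hz x hx.1 hx.2 (l x) (hl x)
        obtain ⟨T, hT1, hT2, -, -, hT3, -⟩ := local_zero_lip (A.P (l x)) lX lY
          (hl x) h0 hx.1 hx.2 dX dY hJ isOpen_univ (mem_univ x)
        exact ⟨T, fun _ => ⟨hT1, hT2, hT3⟩⟩
      · exact ⟨univ, fun h => absurd h hx⟩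
    choose T hT using hiso
    obtain ⟨t, ht1, ht2⟩ := hcl.isCompact.elim_nhds_subcover T
      (fun x hx => (hT x hx).1.mem_nhds (hT x hx).2.1)
    refine ⟨t, fun z => ⟨fun h => ht1 z h, fun h => ?_⟩⟩
    obtain ⟨x, hx, hzx⟩ := mem_iUnion₂.1 (ht2 h)
    have : z = x := (hT x (ht1 x hx)).2.2 z hzx h.1 h.2
    rw [this]
    exact hx
  -- disjoint neighbourhoods
  obtain ⟨U, hU, hUd⟩ := Z.finite_toSet.t2_separation
  have hloc : ∀ z : M, ∃ T : Set M, z ∈ Z → IsOpen T ∧ z ∈ T ∧ T ⊆ U z ∩ (A.P (l z)).V ∧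
      ∀ (ψ : M → ℝ) (B : ℝ), Lip ψ → (∀ x, |ψ x| ≤ B) →
        Tendsto (fun ε : ℝ => ∫ y in (A.P (l z)).e.extend (𝓡∂ 2) '' T,
          ψ (((A.P (l z)).e.extend (𝓡∂ 2)).symm y) *
            (2 * ε ^ 2 / (X (((A.P (l z)).e.extend (𝓡∂ 2)).symm y) ^ 2 +
            Y (((A.P (l z)).e.extend (𝓡∂ 2)).symm y) ^ 2 + ε ^ 2) ^ 2) *
            Jc (A.P (l z)).e X Y y) (𝓝[>] 0)
          (𝓝 (2 * Real.pi * ((if 0 < Jc (A.P (l z)).e X Y ((A.P (l z)).e.extend (𝓡∂ 2) z)
            then 1 else -1) * ψ z))) := by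
    intro z
    by_cases hzZ : z ∈ Z
    · have hx := (hZ z).1 hzZ
      obtain ⟨h0, dX, dY, hJ⟩ := hz z hx.1 hx.2 (l z) (hl z)
      obtain ⟨T, hT1, hT2, hT3, -, -, hT6⟩ := local_zero_lip (A.P (l z)) lX lY
        (hl z) h0 hx.1 hx.2 dX dY hJ
        ((hU z).2.inter (A.P (l z)).V_open) ⟨(hU z).1, hl z⟩
      exact ⟨T, fun _ => ⟨hT1, hT2, hT3, hT6⟩⟩
    · exact ⟨univ, fun h => absurd h hzZ⟩
  choose T hT using hloc
  refine ⟨Z, fun z => if 0 < Jc (A.P (l z)).e X Y ((A.P (l z)).e.extend (𝓡∂ 2) z)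
    then 1 else -1, ?_⟩
  refine ⟨?_, ?_, hZ, ?_⟩
  · -- no zeros on the boundary
    intro t
    by_contra hneg
    have hx : X (gam φ t) = 0 ∧ Y (gam φ t) = 0 := by
      have h1 := sq_nonneg (X (gam φ t))
      have h2 := sq_nonneg (Y (gam φ t))
      constructor
      · apply pow_eq_zero_iff two_ne_zero |>.1
        linarith
      · apply pow_eq_zero_iff two_ne_zero |>.1
        linarith
    obtain ⟨h0, -, -, -⟩ := hz _ hx.1 hx.2 (l (gam φ t)) (hl _)
    have hb : gam φ t ∈ (𝓡∂ 2).boundary M := by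
      rw [← hφ.range_eq]
      exact mem_range_self _
    rw [boundary_iff (A.P (l (gam φ t))).he ((A.P (l (gam φ t))).V_sub (hl _))] at hb
    linarith
  · intro z _
    show (if _ then (1 : ℝ) else -1) = 1 ∨ (if _ then (1 : ℝ) else -1) = -1
    split_ifs <;> simp
  · -- the limit
    intro ψ hψ
    obtain ⟨B, hB0, hB⟩ := hψ.bdd
    have cψ : Continuous ψ := hψ.cont
    set R : Set M := (⋃ z ∈ Z, T z)ᶜ with hR
    have hTo : ∀ z ∈ Z, IsOpen (T z) := fun z hz => (hT z hz).1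
    have hRc : IsClosed R := by
      rw [hR]
      exact (isOpen_biUnion hTo).isClosed_compl
    have cq : Continuous fun x => X x ^ 2 + Y x ^ 2 := (cX.pow 2).add (cY.pow 2)
    have hpos : ∀ x ∈ R, 0 < X x ^ 2 + Y x ^ 2 := by
      intro x hx
      by_contra hneg
      have h1 := sq_nonneg (X x)
      have h2 := sq_nonneg (Y x)
      have hxZ : x ∈ Z := by
        rw [hZ]
        constructor
        · apply pow_eq_zero_iff two_ne_zero |>.1
          linarith
        · apply pow_eq_zero_iff two_ne_zero |>.1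
          linarith
      exact hx (mem_iUnion₂.2 ⟨x, hxZ, (hT x hxZ).2.1⟩)
    obtain ⟨c, hc0, hc⟩ := hRc.isCompact.exists_forall_le' cq.continuousOn hpos
    have hdisj : (Z : Set M).PairwiseDisjoint T := by
      intro a ha b hb hab
      exact (hUd ha hb hab).mono ((hT a ha).2.2.1.trans inter_subset_left)
        ((hT b hb).2.2.1.trans inter_subset_left)
    obtain ⟨K, hK0, hK⟩ := BT_le A lX lY
    -- the weights
    set f : ℝ → M → ℝ := fun ε x => ψ x * (2 * ε ^ 2 / (X x ^ 2 + Y x ^ 2 + ε ^ 2) ^ 2) with hf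
    have hfc : ∀ ε : ℝ, 0 < ε → Continuous (f ε) := by
      intro ε hε
      refine cψ.mul (continuous_const.div ((cq.add continuous_const).pow 2) ?_)
      intro x
      have : 0 < X x ^ 2 + Y x ^ 2 + ε ^ 2 := by positivity
      positivity
    have hfb : ∀ ε : ℝ, 0 < ε → ∃ B', ∀ x, |f ε x| ≤ B' := by
      intro ε hε
      obtain ⟨B', hB'⟩ := isCompact_univ.exists_bound_of_continuousOn (hfc ε hε).continuousOn
      exact ⟨B', fun x => hB' x (mem_univ x)⟩
    have hdec : ∀ ε : ℝ, 0 < ε → BT A (f ε) univ X Y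
        = ∑ z ∈ Z, BT A (f ε) (T z) X Y + BT A (f ε) R X Y := by
      intro ε hε
      obtain ⟨B', hB'⟩ := hfb ε hε
      have hm : Measurable[borel M] (f ε) := (hfc ε hε).measurable
      have hTo' : IsOpen (⋃ z ∈ Z, T z) := isOpen_biUnion hTo
      rw [← RPL_sum A hm hB' Z T (fun z hz => (hTo z hz).measurableSet) hdisj lX lY,
        ← BT_union A hm hB' hTo'.measurableSet hRc.measurableSet
          disjoint_compl_right lX lY, hR, union_compl_self]
    have hRlim : Tendsto (fun ε : ℝ => BT A (f ε) R X Y) (𝓝[>] 0) (𝓝 0) := by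
      have h1 : Tendsto (fun ε : ℝ => B * (2 * ε ^ 2 / c ^ 2) * K) (𝓝[>] 0) (𝓝 0) := by
        have : Continuous fun ε : ℝ => B * (2 * ε ^ 2 / c ^ 2) * K := by fun_prop
        have h2 := this.tendsto 0
        simp only [ne_eq, OfNat.ofNat_ne_zero, not_false_eq_true, zero_pow, mul_zero, zero_div,
          zero_mul] at h2
        exact h2.mono_left nhdsWithin_le_nhds
      apply squeeze_zero_norm' _ h1
      filter_upwards [self_mem_nhdsWithin] with ε hε
      obtain ⟨B', hB'⟩ := hfb ε hε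
      rw [Real.norm_eq_abs]
      exact hK (f ε) (B * (2 * ε ^ 2 / c ^ 2)) B' R (hfc ε hε).measurable hB' hRc.measurableSet
        (by positivity) (fun x hx => RPL_weight (hB x) hB0 hc0 (hc x hx))
    have hTlim : ∀ z ∈ Z, Tendsto (fun ε : ℝ => BT A (f ε) (T z) X Y) (𝓝[>] 0)
        (𝓝 (2 * Real.pi * ((if 0 < Jc (A.P (l z)).e X Y ((A.P (l z)).e.extend (𝓡∂ 2) z)
            then 1 else -1) * ψ z))) := by
      intro z hzZ
      refine ((hT z hzZ).2.2.2 ψ B hψ hB).congr' ?_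
      filter_upwards [self_mem_nhdsWithin] with ε hε
      obtain ⟨B', hB'⟩ := hfb ε hε
      rw [BT_loc A (hfc ε hε).measurable hB' (hTo z hzZ).measurableSet (l z)
        ((hT z hzZ).2.2.1.trans inter_subset_right) lX lY]
    have hsum := (tendsto_finsetSum Z hTlim).add hRlim
    rw [add_zero, ← Finset.mul_sum] at hsum
    refine hsum.congr' ?_
    filter_upwards [self_mem_nhdsWithin] with ε hε
    rw [← hdec ε hε]
    exact (wint A (hfc ε hε) lX lY).symm


/-- the map to the product -/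
private theorem RPL_ae {p : ℝ × ℝ → Prop} (h : ∀ᵐ v : E2, p (v 0, v 1)) : ∀ᵐ v : ℝ × ℝ, p v := by
  have h2 : MeasurePreserving (fun v : ℝ × ℝ => WithLp.toLp 2 (MeasurableEquiv.finTwoArrow.symm v))
      volume volume :=
    (PiLp.volume_preserving_toLp (Fin 2)).comp ((volume_preserving_finTwoArrow ℝ).symm _)
  have h3 := h2.quasiMeasurePreserving.ae h
  filter_upwards [h3] with v hv
  exact hv

/-- almost every value of a Lipschitz map into the plane is regular -/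
theorem reg_pl [Nonempty M] (A : Cov M) {φ : S1 → M} (hφ : IsometricFilling φ) :
    RegPl (cal A hφ) := by
  intro X Y hX hY
  apply RPL_ae (p := fun v => ∃ (Z : Finset M) (s : M → ℝ),
    Vz (cal A hφ) (fun x => X x - v.1) (fun x => Y x - v.2) Z s)
  have h1 : ∀ᵐ v : E2, ∀ k, ∀ x ∈ (A.P k).V, X x = v 0 → Y x = v 1 →
      0 < ((A.P k).e.extend (𝓡∂ 2) x) 0 ∧
      DifferentiableAt ℝ (fun y => X (((A.P k).e.extend (𝓡∂ 2)).symm y))
        ((A.P k).e.extend (𝓡∂ 2) x) ∧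
      DifferentiableAt ℝ (fun y => Y (((A.P k).e.extend (𝓡∂ 2)).symm y))
        ((A.P k).e.extend (𝓡∂ 2) x) ∧
      Jc (A.P k).e X Y ((A.P k).e.extend (𝓡∂ 2) x) ≠ 0 :=
    ae_all_iff.2 fun k => sard_pl (A.P k) hX hY
  filter_upwards [h1] with v hv
  refine vz_of_nondeg A hφ (hX.sub (lip_const _)) (hY.sub (lip_const _)) ?_
  intro x hx hy k hk
  obtain ⟨a1, a2, a3, a4⟩ := hv k x hk (sub_eq_zero.1 hx) (sub_eq_zero.1 hy)
  refine ⟨a1, a2.sub_const _, a3.sub_const _, ?_⟩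
  unfold Jc at a4 ⊢
  rw [fderiv_sub_const, fderiv_sub_const]
  exact a4

end Pool.Agent.FPM
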