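import Mathlib
import Pool.Agent.EWD.Defs
import Pool.Agent.EWD.LPA
import Pool.Agent.EWD.RUL
import Pool.Agent.EWD.BNA

/-
FTW (helper69): the boundary identity for a cut-off of a level set, and the lower bound of the length
of a piece by the part of the boundary curve it separates.
-/

open MeasureTheory Set Filter Topology
open scoped ENNReal NNReal

noncomputable section

namespace Pool.Agent.FPM

open Pool.Agent.EWD

variable {M : Type} [MetricSpace M] {γ : ℝ → M}

/-- a cut-off `ζ` admissible at the level `t` of `g`: its values near the level set, and on the part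
of the boundary curve above the level, are `0` and `1` -/
structure Adc (γ : ℝ → M) (g : M → ℝ) (t : ℝ) (ζ : M → ℝ) : Prop where
  lip : Lip ζ
  lo : ∀ x, 0 ≤ ζ x
  hi : ∀ x, ζ x ≤ 1
  sep : ∃ δ : ℝ, 0 < δ ∧ ∀ x, |g x - t| ≤ δ → ζ x = 0 ∨ ζ x = 1
  bd : ∀ s, t ≤ g (γ s) → ζ (γ s) = 0 ∨ ζ (γ s) = 1

theorem bnd_nonneg (a b t : ℝ) : 0 ≤ bnd a b t := by
  unfold bnd
  exact le_max_left _ _

theorem bnd_le_one (a b t : ℝ) : bnd a b t ≤ 1 := by
  unfold bnd
  exact max_le zero_le_one (min_le_left _ _)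

theorem bnd_lo {a b t : ℝ} (hab : a < b) (h : t ≤ a) : bnd a b t = 0 := by
  unfold bnd
  have h1 : (t - a) / (b - a) ≤ 0 := div_nonpos_of_nonpos_of_nonneg (by linarith) (by linarith)
  rw [min_eq_right (by linarith), max_eq_left h1]

theorem bnd_hi {a b t : ℝ} (hab : a < b) (h : b ≤ t) : bnd a b t = 1 := by
  unfold bnd
  have h1 : 1 ≤ (t - a) / (b - a) := by
    rw [le_div_iff₀ (by linarith)]
    linarith
  rw [min_eq_left h1, max_eq_right zero_le_one]

theorem bnd_mid {a b t : ℝ} (hab : a < b) (h1 : a ≤ t) (h2 : t ≤ b) :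
    bnd a b t = (t - a) / (b - a) := by
  unfold bnd
  have h3 : (t - a) / (b - a) ≤ 1 := by
    rw [div_le_one (by linarith)]
    linarith
  have h4 : 0 ≤ (t - a) / (b - a) := div_nonneg (by linarith) (by linarith)
  rw [min_eq_right h3, max_eq_right h4]

/-- the derivative of a function with values in `[0, 1]` vanishes where it is `0` or `1` -/
theorem deriv_zero_of_ext {f : ℝ → ℝ} (h0 : ∀ s, 0 ≤ f s) (h1 : ∀ s, f s ≤ 1) {s : ℝ}
    (h : f s = 0 ∨ f s = 1) : deriv f s = 0 := by
  rcases h with h | h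
  · have h2 : IsLocalMin f s := Eventually.of_forall fun r => by
      change f s ≤ f r
      rw [h]
      exact h0 r
    exact h2.deriv_eq_zero
  · have h2 : IsLocalMax f s := Eventually.of_forall fun r => by
      change f r ≤ f s
      rw [h]
      exact h1 r
    exact h2.deriv_eq_zero

variable (C : Calc M γ)

/-- the gradient of a function with values in `[0, 1]` vanishes where it is `0` or `1` -/
theorem grad_zero_of_ext {f : M → ℝ} (h0 : ∀ s, 0 ≤ f s) (h1 : ∀ s, f s ≤ 1) {o : Om}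
    (h : f (C.pt o) = 0 ∨ f (C.pt o) = 1) : C.gx f o = 0 ∧ C.gy f o = 0 := by
  refine ⟨deriv_zero_of_ext (fun s => h0 _) (fun s => h1 _) h,
    deriv_zero_of_ext (fun s => h0 _) (fun s => h1 _) ?_⟩
  have e : C.py o 0 = C.pt o := C.same o
  rw [e]
  exact h

/-- the gradient of a band function -/
theorem ae_grad_bnd {g : M → ℝ} (hg : Lip g) {a b : ℝ} (hab : a < b) : ∀ᵐ o ∂C.μ,
    (a < g (C.pt o) → g (C.pt o) < b → C.gx (fun x => bnd a b (g x)) o = C.gx g o / (b - a) ∧
      C.gy (fun x => bnd a b (g x)) o = C.gy g o / (b - a)) ∧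
    (g (C.pt o) ≤ a ∨ b ≤ g (C.pt o) → C.gx (fun x => bnd a b (g x)) o = 0 ∧
      C.gy (fun x => bnd a b (g x)) o = 0) := by
  have key : ∀ (f : ℝ → ℝ) (d : ℝ), HasDerivAt f d 0 → a < f 0 → f 0 < b →
      deriv (fun s => bnd a b (f s)) 0 = d / (b - a) := by
    intro f d hf h1 h2
    have h3 : ∀ᶠ s in 𝓝 (0 : ℝ), f s ∈ Ioo a b := hf.continuousAt (Ioo_mem_nhds h1 h2)
    have h4 : (fun s => bnd a b (f s)) =ᶠ[𝓝 0] fun s => (f s - a) / (b - a) := by
      filter_upwards [h3] with s hs
      exact bnd_mid hab hs.1.le hs.2.le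
    rw [h4.deriv_eq]
    exact ((hf.sub_const a).div_const (b - a)).deriv
  filter_upwards [C.ae_has hg] with o ho
  have e : C.py o 0 = C.px o 0 := C.same o
  refine ⟨fun h1 h2 => ⟨key _ _ ho.1 h1 h2, key _ _ ho.2 ?_ ?_⟩, fun h => ?_⟩
  · rw [e]; exact h1
  · rw [e]; exact h2
  · refine grad_zero_of_ext C (fun x => bnd_nonneg a b _) (fun x => bnd_le_one a b _) ?_
    rcases h with h | h
    · left; exact bnd_lo hab h
    · right; exact bnd_hi hab h

theorem wed_antisymm (u w : M → ℝ) (o : Om) : C.wed u w o = - C.wed w u o := by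
  unfold Calc.wed
  ring

theorem integrable_wed {u w : M → ℝ} (hu : Lip u) (hw : Lip w) : Integrable (C.wed u w) C.μ := by
  obtain ⟨L, hL⟩ := hu
  obtain ⟨K, hK⟩ := hw
  have hm : AEMeasurable (C.wed u w) C.μ := by
    unfold Calc.wed
    exact ((C.meas_gx ⟨L, hL⟩).mul (C.meas_gy ⟨K, hK⟩)).sub ((C.meas_gy ⟨L, hL⟩).mul (C.meas_gx ⟨K, hK⟩))
  refine C.integrable_of_bdd hm (B := (L : ℝ) ^ 2 + (K : ℝ) ^ 2) ?_
  filter_upwards [C.ae_grad_le hL, C.ae_grad_le hK] with o h1 h2
  unfold Calc.wed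
  rw [abs_le]
  constructor <;> nlinarith [sq_nonneg (C.gx u o + C.gy w o), sq_nonneg (C.gx u o - C.gy w o),
    sq_nonneg (C.gy u o + C.gx w o), sq_nonneg (C.gy u o - C.gx w o)]

/-- the part of the boundary curve above the level `t` in the piece `ζ` -/
def Apt (γ : ℝ → M) (g : M → ℝ) (t : ℝ) (ζ : M → ℝ) : Set ℝ := {s | ζ (γ s) = 1 ∧ t < g (γ s)}

/-- its length -/
def Gz (γ : ℝ → M) (g : M → ℝ) (t : ℝ) (ζ : M → ℝ) : ℝ :=
  (volume (Apt γ g t ζ ∩ Ioc 0 (2 * Real.pi))).toReal

/-- the mass of `H` in the piece `ζ` below the level -/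
def mz (C : Calc M γ) (H : Om → ℝ) (g ζ : M → ℝ) (t : ℝ) : ℝ :=
  ∫ o in {o | g (C.pt o) < t}, ζ (C.pt o) * H o ∂C.μ

/-- the core identity -/
theorem FTW_core [CompactSpace M] {g p ζ : M → ℝ} {t : ℝ} (hg : Lip g) (hp : Lip p) (hζ : Adc γ g t ζ) :
    ∃ δ : ℝ, 0 < δ ∧ ∀ h, 0 < h → h < δ →
      ∫ o, ζ (C.pt o) * C.wed p (fun x => bnd t (t + h) (g x)) o ∂C.μ =
        - C.sg * ∫ s in (0 : ℝ)..(2 * Real.pi),
          ζ (γ s) * bnd t (t + h) (g (γ s)) * deriv (fun s => p (γ s)) s := by
  obtain ⟨δ, hδ, hs⟩ := hζ.sep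
  refine ⟨δ, hδ, fun h h0 hh => ?_⟩
  have lh : Lip (fun x => bnd t (t + h) (g x)) := lip_bnd hg (by linarith)
  have ld : Lip (fun x => bnd t (t + δ) (g x)) := lip_bnd hg (by linarith)
  -- first Stokes formula
  have s1 := C.stokes (fun x => ζ x * bnd t (t + h) (g x)) p (hζ.lip.mul lh) hp
  have s2 := C.stokes (fun x => p x * bnd t (t + δ) (g x)) ζ (hp.mul ld) hζ.lip
  have z2 : ∫ s in (0 : ℝ)..(2 * Real.pi), (p (γ s) * bnd t (t + δ) (g (γ s))) *
      deriv (fun s => ζ (γ s)) s = 0 := by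
    have : ∀ s, (p (γ s) * bnd t (t + δ) (g (γ s))) * deriv (fun s => ζ (γ s)) s = 0 := by
      intro s
      rcases le_or_gt (g (γ s)) t with h1 | h1
      · rw [bnd_lo (by linarith) h1]
        ring
      · rw [deriv_zero_of_ext (fun s => hζ.lo _) (fun s => hζ.hi _) (hζ.bd s h1.le)]
        ring
    simp only [this]
    simp
  rw [z2, mul_zero] at s2
  have e1 : ∀ᵐ o ∂C.μ, ζ (C.pt o) * C.wed p (fun x => bnd t (t + h) (g x)) o =
      - C.wed (fun x => ζ x * bnd t (t + h) (g x)) p o -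
        C.wed (fun x => p x * bnd t (t + δ) (g x)) ζ o := by
    filter_upwards [C.ae_mul hζ.lip lh, C.ae_mul hp ld, ae_grad_bnd C hg (show t < t + δ by linarith),
      ae_grad_bnd C hg (show t < t + h by linarith)] with o o1 o2 o3 o4
    unfold Calc.wed
    rw [o1.1, o1.2, o2.1, o2.2]
    by_cases hz : ζ (C.pt o) = 0 ∨ ζ (C.pt o) = 1
    · obtain ⟨z1, z2⟩ := grad_zero_of_ext C hζ.lo hζ.hi hz
      rw [z1, z2]
      ring
    · have h5 : δ < |g (C.pt o) - t| := by
        by_contra h6
        exact hz (hs _ (not_lt.1 h6))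
      rcases lt_abs.1 h5 with h6 | h6
      · have e3 := o3.2 (Or.inr (by linarith))
        rw [e3.1, e3.2, bnd_hi (by linarith) (by linarith), bnd_hi (by linarith) (by linarith)]
        have e4 := o4.2 (Or.inr (by linarith))
        rw [e4.1, e4.2]
        ring
      · have e3 := o3.2 (Or.inl (by linarith))
        rw [e3.1, e3.2, bnd_lo (by linarith) (by linarith), bnd_lo (by linarith) (by linarith)]
        have e4 := o4.2 (Or.inl (by linarith))
        rw [e4.1, e4.2]
        ring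
  rw [integral_congr_ae e1, integral_sub, integral_neg]
  · have s1' : ∫ o, C.wed (fun x => ζ x * bnd t (t + h) (g x)) p o ∂C.μ = _ := s1
    have s2' : ∫ o, C.wed (fun x => p x * bnd t (t + δ) (g x)) ζ o ∂C.μ = 0 := s2
    rw [s1', s2']
    ring
  · exact (integrable_wed C (hζ.lip.mul lh) hp).neg
  · exact integrable_wed C (hp.mul ld) hζ.lip

/-- the curve is an isometry on short arcs -/
theorem bd_dist (hγ : Bd γ) {s t : ℝ} (h1 : s ≤ t) (h2 : t ≤ s + Real.pi) :
    dist (γ s) (γ t) = t - s := by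
  refine le_antisymm ?_ ?_
  · have h3 := hγ.lip.dist_le_mul s t
    rw [Real.dist_eq, abs_sub_comm, abs_of_nonneg (by linarith)] at h3
    simpa using h3
  · have h3 := hγ.anti s
    have h4 := hγ.lip.dist_le_mul t (s + Real.pi)
    rw [Real.dist_eq, abs_sub_comm, abs_of_nonneg (by linarith)] at h4
    have h5 := dist_triangle (γ s) (γ t) (γ (s + Real.pi))
    simp only [NNReal.coe_one, one_mul] at h4
    linarith

theorem bd_per_int (hγ : Bd γ) (t : ℝ) (n : ℤ) : γ (t + n * (2 * Real.pi)) = γ t := by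
  have h : Function.Periodic γ (2 * Real.pi) := hγ.per
  exact h.int_mul n t

/-- periodic 1-Lipschitz functions on the line are restrictions of 1-Lipschitz functions on the
surface -/
theorem bd_ext (hγ : Bd γ) {Θ : ℝ → ℝ} (hΘ : LipschitzWith 1 Θ)
    (hper : ∀ t, Θ (t + 2 * Real.pi) = Θ t) :
    ∃ p : M → ℝ, LipschitzWith 1 p ∧ ∀ t, p (γ t) = Θ t := by
  have hpi := Real.pi_pos
  have hp : Function.Periodic Θ (2 * Real.pi) := hper
  have key : ∀ s t : ℝ, |Θ s - Θ t| ≤ dist (γ s) (γ t) := by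
    intro s t
    -- move `t` close to `s`
    obtain ⟨n, hn⟩ : ∃ n : ℤ, s - Real.pi ≤ t + n * (2 * Real.pi) ∧
        t + n * (2 * Real.pi) ≤ s + Real.pi := by
      refine ⟨⌊(s + Real.pi - t) / (2 * Real.pi)⌋, ?_, ?_⟩
      · have h1 := Int.lt_floor_add_one ((s + Real.pi - t) / (2 * Real.pi))
        rw [div_lt_iff₀ (by positivity)] at h1
        linarith
      · have h1 := Int.floor_le ((s + Real.pi - t) / (2 * Real.pi))
        rw [le_div_iff₀ (by positivity)] at h1
        linarith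
    have e1 : Θ t = Θ (t + n * (2 * Real.pi)) := (hp.int_mul n t).symm
    have e2 : γ t = γ (t + n * (2 * Real.pi)) := (bd_per_int hγ t n).symm
    rw [e1, e2]
    set t' := t + n * (2 * Real.pi)
    have h3 : |Θ s - Θ t'| ≤ |s - t'| := by
      have := hΘ.dist_le_mul s t'
      rw [Real.dist_eq, Real.dist_eq] at this
      simpa using this
    rcases le_total s t' with h | h
    · rw [bd_dist hγ h hn.2]
      rw [abs_sub_comm s, abs_of_nonneg (by linarith : 0 ≤ t' - s)] at h3
      exact h3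
    · rw [dist_comm, bd_dist hγ h (by linarith [hn.1])]
      rw [abs_of_nonneg (by linarith : 0 ≤ s - t')] at h3
      exact h3
  choose! inv hinv using (fun (x : M) (hx : x ∈ range γ) => (hx : ∃ s, γ s = x))
  have h1 : LipschitzOnWith 1 (fun x => Θ (inv x)) (range γ) := by
    refine LipschitzOnWith.of_dist_le_mul fun x hx y hy => ?_
    rw [Real.dist_eq]
    have := key (inv x) (inv y)
    rw [hinv x hx, hinv y hy] at this
    simpa using this
  obtain ⟨p, hp1, hp2⟩ := h1.extend_real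
  refine ⟨p, hp1, fun t => ?_⟩
  have h2 := hp2 (mem_range_self (f := γ) t)
  simp only at h2
  rw [← h2]
  have h3 := key (inv (γ t)) t
  rw [hinv (γ t) (mem_range_self t), dist_self] at h3
  have := abs_nonpos_iff.1 h3
  linarith

theorem meas_Apt (hγ : Bd γ) {g ζ : M → ℝ} (hg : Lip g) (hζ : Lip ζ) (t : ℝ) :
    MeasurableSet (Apt γ g t ζ) := by
  have h1 : Continuous fun s => ζ (γ s) := hζ.cont.comp hγ.lip.continuous
  have h2 : Continuous fun s => g (γ s) := hg.cont.comp hγ.lip.continuous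
  exact (h1.measurable (measurableSet_singleton 1)).inter (measurableSet_lt measurable_const h2.measurable)

theorem FTW_lim (hγ : Bd γ) {g p ζ : M → ℝ} {t : ℝ} (hg : Lip g) {K : ℝ≥0}
    (hp : LipschitzWith K p) (hζ : Adc γ g t ζ) :
    Tendsto (fun h : ℝ => ∫ s in (0 : ℝ)..(2 * Real.pi),
        ζ (γ s) * bnd t (t + h) (g (γ s)) * deriv (fun s => p (γ s)) s) (𝓝[>] 0)
      (𝓝 (∫ s in Apt γ g t ζ ∩ Ioc 0 (2 * Real.pi), deriv (fun s => p (γ s)) s)) := by
  have hpi := Real.pi_pos
  have h1 : Continuous fun s => ζ (γ s) := hζ.lip.cont.comp hγ.lip.continuous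
  have h2 : Continuous fun s => g (γ s) := hg.cont.comp hγ.lip.continuous
  have hlip : LipschitzWith K (fun s => p (γ s)) := by
    have := hp.comp hγ.lip
    rwa [mul_one] at this
  have hd : ∀ s, |deriv (fun s => p (γ s)) s| ≤ K := fun s => by
    have := norm_deriv_le_of_lipschitz (x₀ := s) hlip
    rwa [Real.norm_eq_abs] at this
  have e : ∫ s in Apt γ g t ζ ∩ Ioc 0 (2 * Real.pi), deriv (fun s => p (γ s)) s =
      ∫ s in (0 : ℝ)..(2 * Real.pi), (Apt γ g t ζ).indicator (deriv (fun s => p (γ s))) s := by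
    rw [intervalIntegral.integral_of_le (by positivity), inter_comm,
      ← setIntegral_indicator (meas_Apt hγ hg hζ.lip t)]
  rw [e]
  refine intervalIntegral.tendsto_integral_filter_of_dominated_convergence (fun _ => (K : ℝ))
    (Eventually.of_forall fun h => ?_) (Eventually.of_forall fun h => ?_) intervalIntegrable_const ?_
  · have h3 : Measurable fun s => bnd t (t + h) (g (γ s)) := by
      unfold bnd
      exact measurable_const.max (measurable_const.min ((h2.measurable.sub_const t).div_const _))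
    exact ((h1.measurable.mul h3).mul (measurable_deriv _)).aestronglyMeasurable
  · refine Eventually.of_forall fun s _ => ?_
    rw [Real.norm_eq_abs, abs_mul, abs_mul, abs_of_nonneg (hζ.lo _), abs_of_nonneg (bnd_nonneg _ _ _)]
    have h4 : ζ (γ s) * bnd t (t + h) (g (γ s)) ≤ 1 :=
      mul_le_one₀ (hζ.hi _) (bnd_nonneg _ _ _) (bnd_le_one _ _ _)
    calc _ ≤ 1 * (K : ℝ) := mul_le_mul h4 (hd s) (abs_nonneg _) zero_le_one
      _ = K := one_mul _
  · refine Eventually.of_forall fun s _ => ?_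
    rcases le_or_gt (g (γ s)) t with h3 | h3
    · have e1 : (Apt γ g t ζ).indicator (deriv (fun s => p (γ s))) s = 0 :=
        indicator_of_notMem (fun h => absurd h.2 (not_lt.2 h3)) _
      rw [e1]
      refine Tendsto.congr' ?_ tendsto_const_nhds
      filter_upwards [self_mem_nhdsWithin] with h hh
      rw [bnd_lo (by linarith [mem_Ioi.1 hh]) h3]
      ring
    · have e2 : ∀ᶠ h : ℝ in 𝓝[>] 0, ζ (γ s) * bnd t (t + h) (g (γ s)) * deriv (fun s => p (γ s)) s =
          (Apt γ g t ζ).indicator (deriv (fun s => p (γ s))) s := by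
        have h4 : ∀ᶠ h : ℝ in 𝓝[>] 0, h < g (γ s) - t :=
          mem_nhdsWithin_of_mem_nhds (Iio_mem_nhds (by linarith))
        filter_upwards [self_mem_nhdsWithin, h4] with h hh h5
        rw [bnd_hi (by linarith [mem_Ioi.1 hh]) (by linarith), mul_one]
        rcases hζ.bd s h3.le with h6 | h6
        · rw [h6, indicator_of_notMem (fun h => by
            have h7 : ζ (γ s) = 1 := h.1
            rw [h6] at h7
            exact zero_ne_one h7)]
          ring
        · have h7 : s ∈ Apt γ g t ζ := ⟨h6, h3⟩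
          rw [h6, indicator_of_mem h7, one_mul]
      exact Tendsto.congr' (e2.mono fun h hh => hh.symm) tendsto_const_nhds

theorem meas_pt_lt {g : M → ℝ} (hg : Lip g) (t : ℝ) : NullMeasurableSet {o | g (C.pt o) < t} C.μ :=
  nullMeasurableSet_lt (C.meas_pt hg) aemeasurable_const

theorem FTW_bound [CompactSpace M] (hγ : Bd γ) {g p ζ : M → ℝ} {t : ℝ} (hg : Lip g) {K : ℝ≥0}
    (hp : LipschitzWith K p) (hζ : Adc γ g t ζ) {H : Om → ℝ} (hH : Integrable H C.μ)
    (hpg : ∀ᵐ o ∂C.μ, |C.wed p g o| ≤ H o) {S : ℝ} (hS : HasDerivAt (mz C H g ζ) S t) :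
    |∫ s in Apt γ g t ζ ∩ Ioc 0 (2 * Real.pi), deriv (fun s => p (γ s)) s| ≤ S := by
  obtain ⟨δ, hδ, hc⟩ := FTW_core C hg ⟨K, hp⟩ hζ
  have hi : Integrable (fun o => ζ (C.pt o) * H o) C.μ := by
    refine hH.bdd_mul (c := 1) (C.meas_pt hζ.lip).aestronglyMeasurable ?_
    refine Eventually.of_forall fun o => ?_
    rw [Real.norm_eq_abs, abs_of_nonneg (hζ.lo _)]
    exact hζ.hi _
  -- upper bound
  have h1 : ∀ h, 0 < h → h < δ → |∫ o, ζ (C.pt o) * C.wed p (fun x => bnd t (t + h) (g x)) o ∂C.μ| ≤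
      (mz C H g ζ (t + h) - mz C H g ζ t) / h := by
    intro h h0 hh
    have e0 : ∀ r, mz C H g ζ r = ∫ o, {o | g (C.pt o) < r}.indicator (fun o => ζ (C.pt o) * H o) o
        ∂C.μ := fun r => (integral_indicator₀ (meas_pt_lt C hg r)).symm
    have i0 : ∀ r, Integrable ({o | g (C.pt o) < r}.indicator (fun o => ζ (C.pt o) * H o)) C.μ :=
      fun r => hi.indicator₀ (meas_pt_lt C hg r)
    rw [e0, e0, ← integral_sub (i0 _) (i0 _), ← integral_div]
    refine (abs_integral_le_integral_abs).trans (integral_mono_ae ?_ ?_ ?_)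
    · refine Integrable.abs ?_
      refine (integrable_wed C ⟨K, hp⟩ (lip_bnd hg (show t < t + h by linarith))).bdd_mul (c := 1)
        (C.meas_pt hζ.lip).aestronglyMeasurable ?_
      refine Eventually.of_forall fun o => ?_
      rw [Real.norm_eq_abs, abs_of_nonneg (hζ.lo _)]
      exact hζ.hi _
    · exact ((i0 _).sub (i0 _)).div_const h
    · filter_upwards [ae_grad_bnd C hg (show t < t + h by linarith), hpg] with o o1 o2
      rw [abs_mul, abs_of_nonneg (hζ.lo _)]
      have o3 : 0 ≤ H o := (abs_nonneg _).trans o2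
      by_cases h5 : t < g (C.pt o) ∧ g (C.pt o) < t + h
      · have h6 := o1.1 h5.1 h5.2
        have h7 : o ∈ {o | g (C.pt o) < t + h} := h5.2
        have h7' : o ∉ {o | g (C.pt o) < t} := fun h8 => absurd (h8 : g (C.pt o) < t) (not_lt.2 h5.1.le)
        rw [indicator_of_mem h7, indicator_of_notMem h7', sub_zero]
        have h8 : C.wed p (fun x => bnd t (t + h) (g x)) o = C.wed p g o / h := by
          unfold Calc.wed
          rw [h6.1, h6.2]
          have : t + h - t = h := by ring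
          rw [this]
          ring
        rw [h8, abs_div, abs_of_pos h0, mul_div_assoc]
        exact mul_le_mul_of_nonneg_left (div_le_div_of_nonneg_right o2 h0.le) (hζ.lo _)
      · have h6 : g (C.pt o) ≤ t ∨ t + h ≤ g (C.pt o) := by
          by_contra h7
          push Not at h7
          exact h5 h7
        have h7 := o1.2 h6
        have h8 : C.wed p (fun x => bnd t (t + h) (g x)) o = 0 := by
          unfold Calc.wed
          rw [h7.1, h7.2]
          ring
        rw [h8, abs_zero, mul_zero]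
        refine div_nonneg ?_ h0.le
        have h9 : 0 ≤ ζ (C.pt o) * H o := mul_nonneg (hζ.lo _) o3
        by_cases h10 : g (C.pt o) < t
        · have m1 : o ∈ {o | g (C.pt o) < t} := h10
          have m2 : o ∈ {o | g (C.pt o) < t + h} := by
            change g (C.pt o) < t + h
            linarith
          rw [indicator_of_mem m1, indicator_of_mem m2, sub_self]
        · have m1 : o ∉ {o | g (C.pt o) < t} := h10
          rw [indicator_of_notMem m1, sub_zero]
          exact indicator_apply_nonneg fun _ => h9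
  have h2 : Tendsto (fun h : ℝ => (mz C H g ζ (t + h) - mz C H g ζ t) / h) (𝓝[>] 0) (𝓝 S) := by
    have h3 := hS.tendsto_slope_zero_right
    refine h3.congr fun h => ?_
    rw [smul_eq_mul]
    ring
  have h3 : Tendsto (fun h : ℝ => |C.sg * ∫ s in (0 : ℝ)..(2 * Real.pi),
        ζ (γ s) * bnd t (t + h) (g (γ s)) * deriv (fun s => p (γ s)) s|) (𝓝[>] 0)
      (𝓝 |C.sg * ∫ s in Apt γ g t ζ ∩ Ioc 0 (2 * Real.pi), deriv (fun s => p (γ s)) s|) :=
    ((FTW_lim hγ hg hp hζ).const_mul C.sg).abs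
  have h4 : |C.sg| = 1 := by
    rcases C.pm with h | h <;> rw [h] <;> norm_num
  have h5 := le_of_tendsto_of_tendsto h3 h2 (by
    have h6 : ∀ᶠ h : ℝ in 𝓝[>] 0, h < δ := mem_nhdsWithin_of_mem_nhds (Iio_mem_nhds hδ)
    filter_upwards [self_mem_nhdsWithin, h6] with h hh h7
    have h8 := h1 h hh h7
    rw [hc h hh h7, neg_mul, abs_neg] at h8
    exact h8)
  rwa [abs_mul, h4, one_mul] at h5

omit C in
theorem Gz_nonneg (γ : ℝ → M) (g : M → ℝ) (t : ℝ) (ζ : M → ℝ) : 0 ≤ Gz γ g t ζ :=
  ENNReal.toReal_nonneg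

omit C in
theorem Gz_le (γ : ℝ → M) (g : M → ℝ) (t : ℝ) (ζ : M → ℝ) : Gz γ g t ζ ≤ 2 * Real.pi := by
  have hpi := Real.pi_pos
  unfold Gz
  refine ENNReal.toReal_le_of_le_ofReal (by positivity) ?_
  refine (measure_mono inter_subset_right).trans ?_
  rw [Real.volume_Ioc, sub_zero]

omit C in
/-- a test function with two slopes -/
theorem FTW_test (hγ : Bd γ) {g ζ : M → ℝ} (hg : Lip g) (hζ : Lip ζ) (t : ℝ) {a b : ℝ}
    (ha : |a| ≤ 1) (hb : |b| ≤ 1) (hab : a * Gz γ g t ζ + b * (2 * Real.pi - Gz γ g t ζ) = 0) :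
    ∃ p : M → ℝ, LipschitzWith 1 p ∧
      ∫ s in Apt γ g t ζ ∩ Ioc 0 (2 * Real.pi), deriv (fun s => p (γ s)) s = a * Gz γ g t ζ := by
  classical
  have hpi := Real.pi_pos
  set A := Apt γ g t ζ with hA
  have mA : MeasurableSet A := meas_Apt hγ hg hζ t
  set σ : ℝ → ℝ := fun s => if s ∈ A then a else b with hσ
  have mσ : Measurable σ := Measurable.ite mA measurable_const measurable_const
  have bσ : ∀ s, ‖σ s‖ ≤ 1 := by
    intro s
    simp only [hσ]
    split_ifs
    · exact ha
    · exact hb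
  have iσ : ∀ u v : ℝ, IntervalIntegrable σ volume u v := fun u v =>
    (intervalIntegrable_const (c := (1 : ℝ))).mono_fun mσ.aestronglyMeasurable
      (Eventually.of_forall fun s => by simpa using bσ s)
  have pσ : Function.Periodic σ (2 * Real.pi) := by
    intro s
    have : s + 2 * Real.pi ∈ A ↔ s ∈ A := by
      simp only [hA, Apt, Set.mem_ofPred_eq, hγ.per s]
    simp only [hσ, this]
  have vA : (volume (A ∩ Ioc 0 (2 * Real.pi))) ≠ ⊤ := by
    refine ne_top_of_le_ne_top ?_ (measure_mono inter_subset_right)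
    rw [Real.volume_Ioc]
    exact ENNReal.ofReal_ne_top
  have tσ : ∫ s in (0 : ℝ)..(2 * Real.pi), σ s = 0 := by
    have e : σ = fun s => A.indicator (fun _ => a - b) s + b := by
      funext s
      simp only [hσ, indicator]
      split_ifs <;> ring
    rw [intervalIntegral.integral_of_le (by positivity), e, integral_add, integral_indicator mA,
      Measure.restrict_restrict mA]
    · simp only [integral_const, Measure.real, Measure.restrict_apply MeasurableSet.univ,
        univ_inter, Real.volume_Ioc, smul_eq_mul, sub_zero,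
        ENNReal.toReal_ofReal (by positivity : (0 : ℝ) ≤ 2 * Real.pi)]
      have : (volume (A ∩ Ioc 0 (2 * Real.pi))).toReal = Gz γ g t ζ := rfl
      rw [this]
      linarith
    · exact (integrable_const _).indicator mA
    · exact integrable_const _
  set Θ : ℝ → ℝ := fun x => ∫ s in (0 : ℝ)..x, σ s with hΘ
  have lΘ : LipschitzWith 1 Θ := by
    refine LipschitzWith.of_dist_le_mul fun x y => ?_
    rw [Real.dist_eq, Real.dist_eq, hΘ]
    simp only
    rw [intervalIntegral.integral_interval_sub_left (iσ _ _) (iσ _ _), ← Real.norm_eq_abs]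
    refine (intervalIntegral.norm_integral_le_of_norm_le_const fun s _ => bσ s).trans ?_
    rw [NNReal.coe_one]
  have perΘ : ∀ x, Θ (x + 2 * Real.pi) = Θ x := by
    intro x
    have h1 := pσ.intervalIntegral_add_eq x 0
    rw [zero_add, tσ] at h1
    have h2 := intervalIntegral.integral_interval_sub_left (iσ 0 (x + 2 * Real.pi)) (iσ 0 x)
    simp only [hΘ]
    linarith
  obtain ⟨p, hp1, hp2⟩ := bd_ext hγ lΘ perΘ
  refine ⟨p, hp1, ?_⟩
  have e1 : (fun s => p (γ s)) = Θ := funext hp2
  rw [e1]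
  have li : LocallyIntegrable σ volume := by
    refine (locallyIntegrable_const (1 : ℝ)).mono mσ.aestronglyMeasurable ?_
    exact Eventually.of_forall fun s => by simpa using bσ s
  have e2 : ∀ᵐ s : ℝ, deriv Θ s = σ s := by
    filter_upwards [LocallyIntegrable.ae_hasDerivAt_integral li] with s hs
    exact (hs 0).deriv
  rw [setIntegral_congr_ae (g := fun _ => a) (mA.inter measurableSet_Ioc) (by
    filter_upwards [e2] with s hs h1
    rw [hs]
    simp only [hσ, if_pos h1.1])]
  rw [setIntegral_const, smul_eq_mul, mul_comm]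
  rfl

/-- the length of a piece of the level set is at least the length of the part of the boundary curve
it separates, or of the complement of this part -/
theorem FTW [CompactSpace M] (hγ : Bd γ) {g ζ : M → ℝ} {t : ℝ} (hg : Lip g) (hζ : Adc γ g t ζ)
    {H : Om → ℝ} (hH : Integrable H C.μ)
    (hpg : ∀ p : M → ℝ, LipschitzWith 1 p → ∀ᵐ o ∂C.μ, |C.wed p g o| ≤ H o) {S : ℝ}
    (hS : HasDerivAt (mz C H g ζ) S t) : min (Gz γ g t ζ) (2 * Real.pi - Gz γ g t ζ) ≤ S := by
  have hpi := Real.pi_pos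
  have hG0 := Gz_nonneg γ g t ζ
  have hG1 := Gz_le γ g t ζ
  rcases le_or_gt (Gz γ g t ζ) Real.pi with h | h
  · obtain ⟨p, hp1, hp2⟩ := FTW_test hγ hg hζ.lip t (a := 1)
      (b := - Gz γ g t ζ / (2 * Real.pi - Gz γ g t ζ)) (by norm_num) (by
        rw [abs_div, abs_neg, abs_of_nonneg hG0, abs_of_nonneg (by linarith), div_le_one (by linarith)]
        linarith) (by
        rw [div_mul_cancel₀ _ (by linarith : (2 * Real.pi - Gz γ g t ζ) ≠ 0)]
        ring)
    have h1 := FTW_bound C hγ hg hp1 hζ hH (hpg p hp1) hS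
    rw [hp2, one_mul, abs_of_nonneg hG0] at h1
    exact (min_le_left _ _).trans h1
  · obtain ⟨p, hp1, hp2⟩ := FTW_test hγ hg hζ.lip t (a := (2 * Real.pi - Gz γ g t ζ) / Gz γ g t ζ)
      (b := -1) (by
        rw [abs_div, abs_of_nonneg hG0, abs_of_nonneg (by linarith), div_le_one (by linarith)]
        linarith) (by norm_num) (by
        rw [div_mul_cancel₀ _ (by linarith : (Gz γ g t ζ) ≠ 0)]
        ring)
    have h1 := FTW_bound C hγ hg hp1 hζ hH (hpg p hp1) hS
    rw [hp2, div_mul_cancel₀ _ (by linarith : (Gz γ g t ζ) ≠ 0), abs_of_nonneg (by linarith)] at h1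
    exact (min_le_right _ _).trans h1

end Pool.Agent.FPM
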