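import Mathlib
import Pool.Agent.FPM.FTW

/-
DCB1 (helper19): the boundary identity on rectangles. `ζ` is a cut-off whose values are `0` and `1` on the
band `{c ≤ g ≤ d}` and on the part `{c ≤ g}` of the boundary curve.
-/

open MeasureTheory Set Filter Topology
open scoped ENNReal NNReal

noncomputable section

namespace Pool.Agent.FPM

open Pool.Agent.EWD

variable {M : Type} [MetricSpace M] {γ : ℝ → M}

/-- `ζ` is admissible for all levels in `[c, d]` -/
structure Adb (γ : ℝ → M) (g : M → ℝ) (c d : ℝ) (ζ : M → ℝ) : Prop where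
  lip : Lip ζ
  lo : ∀ x, 0 ≤ ζ x
  hi : ∀ x, ζ x ≤ 1
  sep : ∀ x, c ≤ g x → g x ≤ d → ζ x = 0 ∨ ζ x = 1
  bd : ∀ s, c ≤ g (γ s) → ζ (γ s) = 0 ∨ ζ (γ s) = 1

/-- admissible levels form an open set -/
theorem Adc.exists_Adb {g ζ : M → ℝ} {t : ℝ} (h : Adc γ g t ζ) :
    ∃ δ : ℝ, 0 < δ ∧ Adb γ g (t - δ) (t + δ) ζ := by
  obtain ⟨δ, hδ, hs⟩ := h.sep
  refine ⟨δ, hδ, h.lip, h.lo, h.hi, fun x h1 h2 => hs x ?_, fun s h1 => ?_⟩
  · rw [abs_le]
    constructor <;> linarith
  · rcases le_total t (g (γ s)) with h2 | h2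
    · exact h.bd s h2
    · refine hs _ ?_
      rw [abs_le]
      constructor <;> linarith

theorem Adb.mono {g ζ : M → ℝ} {c d c' d' : ℝ} (h : Adb γ g c d ζ) (hc : c ≤ c') (hd : d' ≤ d) :
    Adb γ g c' d' ζ :=
  ⟨h.lip, h.lo, h.hi, fun x h1 h2 => h.sep x (hc.trans h1) (h2.trans hd),
    fun s h1 => h.bd s (hc.trans h1)⟩

variable (C : Calc M γ)

/-- the identity for a band function of `g` -/
theorem dcb_star [CompactSpace M] {g p ζ : M → ℝ} {c d : ℝ} (hcd : c < d) (hg : Lip g) (hp : Lip p)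
    (hζ : Adb γ g c d ζ) {a b : ℝ} (hca : c ≤ a) (hab : a < b) (hbd : b ≤ d) :
    ∫ o, ζ (C.pt o) * C.wed (fun x => bnd a b (g x)) p o ∂C.μ =
      C.sg * ∫ r in (0 : ℝ)..(2 * Real.pi),
        ζ (γ r) * bnd a b (g (γ r)) * deriv (fun s => p (γ s)) r := by
  have lh : Lip (fun x => bnd a b (g x)) := lip_bnd hg hab
  have ld : Lip (fun x => bnd c d (g x)) := lip_bnd hg hcd
  have s1 := C.stokes (fun x => ζ x * bnd a b (g x)) p (hζ.lip.mul lh) hp
  have s2 := C.stokes (fun x => p x * bnd c d (g x)) ζ (hp.mul ld) hζ.lip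
  have z2 : ∫ s in (0 : ℝ)..(2 * Real.pi), (p (γ s) * bnd c d (g (γ s))) *
      deriv (fun s => ζ (γ s)) s = 0 := by
    have : ∀ s, (p (γ s) * bnd c d (g (γ s))) * deriv (fun s => ζ (γ s)) s = 0 := by
      intro s
      rcases le_or_gt (g (γ s)) c with h1 | h1
      · rw [bnd_lo hcd h1]
        ring
      · rw [deriv_zero_of_ext (fun s => hζ.lo _) (fun s => hζ.hi _) (hζ.bd s h1.le)]
        ring
    simp only [this]
    simp
  rw [z2, mul_zero] at s2
  have e1 : ∀ᵐ o ∂C.μ, ζ (C.pt o) * C.wed (fun x => bnd a b (g x)) p o =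
      C.wed (fun x => ζ x * bnd a b (g x)) p o +
        C.wed (fun x => p x * bnd c d (g x)) ζ o := by
    filter_upwards [C.ae_mul hζ.lip lh, C.ae_mul hp ld, ae_grad_bnd C hg hcd,
      ae_grad_bnd C hg hab] with o o1 o2 o3 o4
    unfold Calc.wed
    rw [o1.1, o1.2, o2.1, o2.2]
    by_cases hz : ζ (C.pt o) = 0 ∨ ζ (C.pt o) = 1
    · obtain ⟨z1, z2⟩ := grad_zero_of_ext C hζ.lo hζ.hi hz
      rw [z1, z2]
      ring
    · have h5 : g (C.pt o) < c ∨ d < g (C.pt o) := by
        by_contra h6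
        push Not at h6
        exact hz (hζ.sep _ h6.1 h6.2)
      rcases h5 with h6 | h6
      · have e3 := o3.2 (Or.inl h6.le)
        rw [e3.1, e3.2, bnd_lo hcd h6.le, bnd_lo hab (by linarith)]
        have e4 := o4.2 (Or.inl (by linarith))
        rw [e4.1, e4.2]
        ring
      · have e3 := o3.2 (Or.inr h6.le)
        rw [e3.1, e3.2, bnd_hi hcd h6.le, bnd_hi hab (by linarith)]
        have e4 := o4.2 (Or.inr (by linarith))
        rw [e4.1, e4.2]
        ring
  rw [integral_congr_ae e1, integral_add]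
  · have s1' : ∫ o, C.wed (fun x => ζ x * bnd a b (g x)) p o ∂C.μ = _ := s1
    have s2' : ∫ o, C.wed (fun x => p x * bnd c d (g x)) ζ o ∂C.μ = 0 := s2
    rw [s1', s2', add_zero]
  · exact integrable_wed C (hζ.lip.mul lh) hp
  · exact integrable_wed C (hp.mul ld) hζ.lip

/-- the derivative of a band function along a curve -/
theorem deriv_bnd {f : ℝ → ℝ} {a b x : ℝ} (hab : a < b) (hf : DifferentiableAt ℝ f x) :
    deriv (fun s => bnd a b (f s)) x = (Ioo a b).indicator (fun _ => deriv f x / (b - a)) (f x) := by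
  by_cases h : f x ∈ Ioo a b
  · rw [indicator_of_mem h]
    have h3 : ∀ᶠ s in 𝓝 x, f s ∈ Ioo a b := hf.continuousAt (Ioo_mem_nhds h.1 h.2)
    have h4 : (fun s => bnd a b (f s)) =ᶠ[𝓝 x] fun s => (f s - a) / (b - a) := by
      filter_upwards [h3] with s hs
      exact bnd_mid hab hs.1.le hs.2.le
    rw [h4.deriv_eq]
    exact ((hf.hasDerivAt.sub_const a).div_const (b - a)).deriv
  · rw [indicator_of_notMem h]
    refine deriv_zero_of_ext (fun s => bnd_nonneg _ _ _) (fun s => bnd_le_one _ _ _) ?_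
    simp only [mem_Ioo, not_and_or, not_lt] at h
    rcases h with h | h
    · left; exact bnd_lo hab h
    · right; exact bnd_hi hab h

/-- the identity on a rectangle -/
theorem dcb_rect [CompactSpace M] (hγ : Bd γ) {g p ζ : M → ℝ} {c d : ℝ} (hcd : c < d) (hg : Lip g)
    (hp : Lip p) (hζ : Adb γ g c d ζ) {a b a' b' : ℝ} (hca : c ≤ a) (hab : a < b) (hbd : b ≤ d)
    (hab' : a' < b') :
    ∫ o, (Ioo a b ×ˢ Ioo a' b').indicator (fun _ => ζ (C.pt o) * C.wed g p o)
        ((g (C.pt o), p (C.pt o)) : ℝ × ℝ) ∂C.μ =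
      C.sg * ∫ r in (0 : ℝ)..(2 * Real.pi), (Ioo a' b').indicator (fun _ =>
        ζ (γ r) * ((b - a) * bnd a b (g (γ r))) * deriv (fun s => p (γ s)) r) (p (γ r)) := by
  have lp : Lip (fun x => bnd a' b' (p x)) := lip_bnd hp hab'
  have h0 := dcb_star C hcd hg lp hζ hca hab hbd
  have e1 : ∀ᵐ o ∂C.μ, (Ioo a b ×ˢ Ioo a' b').indicator (fun _ => ζ (C.pt o) * C.wed g p o)
      ((g (C.pt o), p (C.pt o)) : ℝ × ℝ) = ((b - a) * (b' - a')) *
      (ζ (C.pt o) * C.wed (fun x => bnd a b (g x)) (fun x => bnd a' b' (p x)) o) := by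
    filter_upwards [C.ae_has hg, C.ae_has hp] with o h1 h2
    have e : C.py o 0 = C.px o 0 := C.same o
    have gx1 : C.gx (fun x => bnd a b (g x)) o = _ := deriv_bnd hab h1.1.differentiableAt
    have gy1 : C.gy (fun x => bnd a b (g x)) o = _ := deriv_bnd hab h1.2.differentiableAt
    have gx2 : C.gx (fun x => bnd a' b' (p x)) o = _ := deriv_bnd hab' h2.1.differentiableAt
    have gy2 : C.gy (fun x => bnd a' b' (p x)) o = _ := deriv_bnd hab' h2.2.differentiableAt
    rw [e] at gy1 gy2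
    have hb : b - a ≠ 0 := by linarith
    have hb' : b' - a' ≠ 0 := by linarith
    have pe : C.pt o = C.px o 0 := rfl
    rw [pe]
    unfold Calc.wed
    rw [gx1, gy1, gx2, gy2]
    by_cases m1 : g (C.px o 0) ∈ Ioo a b
    · by_cases m2 : p (C.px o 0) ∈ Ioo a' b'
      · have m : ((g (C.px o 0), p (C.px o 0)) : ℝ × ℝ) ∈ Ioo a b ×ˢ Ioo a' b' := ⟨m1, m2⟩
        rw [indicator_of_mem m, indicator_of_mem m1, indicator_of_mem m1, indicator_of_mem m2,
          indicator_of_mem m2]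
        have k1 : deriv (fun s => g (C.px o s)) 0 = C.gx g o := rfl
        have k2 : deriv (fun s => g (C.py o s)) 0 = C.gy g o := rfl
        have k3 : deriv (fun s => p (C.px o s)) 0 = C.gx p o := rfl
        have k4 : deriv (fun s => p (C.py o s)) 0 = C.gy p o := rfl
        rw [k1, k2, k3, k4]
        field_simp
      · have m : ((g (C.px o 0), p (C.px o 0)) : ℝ × ℝ) ∉ Ioo a b ×ˢ Ioo a' b' := fun h => m2 h.2
        rw [indicator_of_notMem m, indicator_of_notMem m2, indicator_of_notMem m2]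
        ring
    · have m : ((g (C.px o 0), p (C.px o 0)) : ℝ × ℝ) ∉ Ioo a b ×ˢ Ioo a' b' := fun h => m1 h.1
      rw [indicator_of_notMem m, indicator_of_notMem m1, indicator_of_notMem m1]
      ring
  rw [integral_congr_ae e1, integral_const_mul, h0]
  have hd : ∀ᵐ r : ℝ, DifferentiableAt ℝ (fun s => p (γ s)) r := by
    obtain ⟨L, hL⟩ := hp
    exact (hL.comp hγ.lip).ae_differentiableAt
  have e2 : ∫ r in (0 : ℝ)..(2 * Real.pi), (Ioo a' b').indicator (fun _ =>
        ζ (γ r) * ((b - a) * bnd a b (g (γ r))) * deriv (fun s => p (γ s)) r) (p (γ r)) =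
      ∫ r in (0 : ℝ)..(2 * Real.pi), ((b - a) * (b' - a')) * (ζ (γ r) * bnd a b (g (γ r)) *
        deriv (fun s => bnd a' b' (p (γ s))) r) := by
    refine intervalIntegral.integral_congr_ae ?_
    filter_upwards [hd] with r hr _
    rw [deriv_bnd hab' hr]
    have hb' : b' - a' ≠ 0 := by linarith
    by_cases m2 : p (γ r) ∈ Ioo a' b'
    · rw [indicator_of_mem m2, indicator_of_mem m2]
      field_simp
    · rw [indicator_of_notMem m2, indicator_of_notMem m2]
      ring
  rw [e2, intervalIntegral.integral_const_mul]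
  ring

end Pool.Agent.FPM
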