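import Mathlib
import Pool.Agent.EWD.LPA
import Pool.Agent.EWD.RUL
import Pool.Agent.EWD.CRB
import Pool.Agent.EWD.SVA
import Pool.Agent.EWD.PAI
import Pool.Agent.FPM.VZD

/-
CNT: the counting lemma (helper20). For almost every level `t` the values that a Lipschitz function `θ`
takes on the level set `{w = t}` of a function `w` which is constant on the boundary curve have measure at
most half of the length of the level set.
-/

open MeasureTheory Set Filter Topology
open scoped ENNReal NNReal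

noncomputable section

namespace Pool.Agent.FPM

open Pool.Agent.EWD

/-! ### the kernel -/

/-- the kernel on the plane -/
def kr (ε : ℝ) (z : ℝ × ℝ) : ℝ := 2 * ε ^ 2 / (z.1 ^ 2 + z.2 ^ 2 + ε ^ 2) ^ 2

theorem kr_nonneg (ε : ℝ) (z : ℝ × ℝ) : 0 ≤ kr ε z := by
  unfold kr
  positivity

theorem kr_cont {ε : ℝ} (hε : 0 < ε) : Continuous (kr ε) := by
  unfold kr
  refine continuous_const.div (by fun_prop) ?_
  intro z
  positivity

private theorem CNT_mp : MeasurePreserving (fun p : EuclideanSpace ℝ (Fin 2) => ((p 0, p 1) : ℝ × ℝ)) := by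
  have h1 : MeasurePreserving (WithLp.ofLp : EuclideanSpace ℝ (Fin 2) → (Fin 2 → ℝ)) :=
    PiLp.volume_preserving_ofLp (Fin 2)
  exact (volume_preserving_finTwoArrow ℝ).comp h1

theorem kr_int {ε : ℝ} (hε : 0 < ε) : ∫⁻ z : ℝ × ℝ, ENNReal.ofReal (kr ε z) = ENNReal.ofReal (2 * Real.pi) := by
  obtain ⟨h1, h2⟩ := integral_peak hε
  rw [← h2, ofReal_integral_eq_lintegral_ofReal h1 (Eventually.of_forall fun p => by positivity)]
  rw [← CNT_mp.lintegral_comp ((kr_cont hε).measurable.ennreal_ofReal)]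
  refine lintegral_congr fun p => ?_
  congr 1
  unfold kr
  rw [EuclideanSpace.norm_sq_eq, Fin.sum_univ_two, Real.norm_eq_abs, Real.norm_eq_abs, sq_abs, sq_abs]

/-- the total integral of a translate -/
theorem kr_int' {ε : ℝ} (hε : 0 < ε) (a : ℝ × ℝ) :
    ∫⁻ v : ℝ × ℝ, ENNReal.ofReal (kr ε (a - v)) = ENNReal.ofReal (2 * Real.pi) := by
  rw [← kr_int hε]
  exact lintegral_sub_left_eq_self (fun z => ENNReal.ofReal (kr ε z)) a

/-- far from the origin the kernel is small -/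
theorem kr_far {ε r : ℝ} (hr : 0 < r) {z : ℝ × ℝ} (hz : r ≤ |z.1|) :
    kr ε z ≤ ε ^ 2 * (1 + 1 / r ^ 2) ^ 2 * kr 1 z := by
  unfold kr
  have h1 : r ^ 2 ≤ z.1 ^ 2 := by
    rw [← sq_abs z.1]
    exact pow_le_pow_left₀ hr.le hz 2
  have h2 : 0 < z.1 ^ 2 := lt_of_lt_of_le (by positivity) h1
  have h3 : 0 < z.1 ^ 2 + z.2 ^ 2 := by positivity
  have h4 : z.1 ^ 2 + z.2 ^ 2 + 1 ^ 2 ≤ (1 + 1 / r ^ 2) * (z.1 ^ 2 + z.2 ^ 2) := by
    have h5 : 1 ≤ 1 / r ^ 2 * (z.1 ^ 2 + z.2 ^ 2) := by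
      rw [one_div, ← div_eq_inv_mul, one_le_div (by positivity)]
      nlinarith [sq_nonneg z.2]
    nlinarith
  have h6 : 2 * ε ^ 2 / (z.1 ^ 2 + z.2 ^ 2 + ε ^ 2) ^ 2 ≤ 2 * ε ^ 2 / (z.1 ^ 2 + z.2 ^ 2) ^ 2 := by
    refine div_le_div_of_nonneg_left (by positivity) (by positivity) ?_
    exact pow_le_pow_left₀ h3.le (by nlinarith [sq_nonneg ε]) 2
  refine h6.trans ?_
  have h7 : (z.1 ^ 2 + z.2 ^ 2 + 1 ^ 2) ^ 2 ≤ ((1 + 1 / r ^ 2) * (z.1 ^ 2 + z.2 ^ 2)) ^ 2 :=
    pow_le_pow_left₀ (by positivity) h4 2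
  rw [div_le_iff₀ (by positivity)]
  have h8 : ε ^ 2 * (1 + 1 / r ^ 2) ^ 2 * (2 * 1 ^ 2 / (z.1 ^ 2 + z.2 ^ 2 + 1 ^ 2) ^ 2) * (z.1 ^ 2 + z.2 ^ 2) ^ 2
      = 2 * ε ^ 2 * (((1 + 1 / r ^ 2) * (z.1 ^ 2 + z.2 ^ 2)) ^ 2 / (z.1 ^ 2 + z.2 ^ 2 + 1 ^ 2) ^ 2) := by
    ring
  rw [h8]
  have h9 : 1 ≤ ((1 + 1 / r ^ 2) * (z.1 ^ 2 + z.2 ^ 2)) ^ 2 / (z.1 ^ 2 + z.2 ^ 2 + 1 ^ 2) ^ 2 := by
    rw [one_le_div (by positivity)]
    exact h7
  nlinarith [sq_nonneg ε]

/-- the scale -/
def ek (k : ℕ) : ℝ := 1 / (k + 1)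

theorem ek_pos (k : ℕ) : 0 < ek k := by
  unfold ek
  positivity

theorem ek_tend : Tendsto ek atTop (𝓝[>] 0) := by
  rw [tendsto_nhdsWithin_iff]
  exact ⟨tendsto_one_div_add_atTop_nhds_zero_nat, Eventually.of_forall fun k => ek_pos k⟩

theorem ek_tend0 : Tendsto ek atTop (𝓝 0) := ek_tend.mono_right nhdsWithin_le_nhds

/-! ### the averaged counting function -/

section abs

variable {Ω : Type} [MeasurableSpace Ω] (μ : Measure Ω)

/-- the smoothed counting function -/
def gk (Q P : Ω → ℝ) (W : Ω → ℝ≥0∞) (k : ℕ) (v : ℝ × ℝ) : ℝ≥0∞ :=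
  ∫⁻ o, ENNReal.ofReal (kr (ek k) ((Q o, P o) - v)) * W o ∂μ

variable [SFinite μ] {Q P : Ω → ℝ} {W : Ω → ℝ≥0∞}

private theorem CNT_meas (hQ : Measurable Q) (hP : Measurable P) (hW : Measurable W) (k : ℕ) :
    Measurable fun q : (ℝ × ℝ) × Ω => ENNReal.ofReal (kr (ek k) ((Q q.2, P q.2) - q.1)) * W q.2 := by
  refine Measurable.mul ?_ (hW.comp measurable_snd)
  refine ((kr_cont (ek_pos k)).measurable.comp ?_).ennreal_ofReal
  exact ((hQ.comp measurable_snd).prodMk (hP.comp measurable_snd)).sub measurable_fst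

theorem gk_meas (hQ : Measurable Q) (hP : Measurable P) (hW : Measurable W) (k : ℕ) :
    Measurable (gk μ Q P W k) :=
  (CNT_meas hQ hP hW k).lintegral_prod_right'

/-- the bound over a closed set of levels -/
theorem gk_closed (hQ : Measurable Q) (hP : Measurable P) (hW : Measurable W) (hWf : ∀ o, W o ≠ ∞)
    (hfin : ∫⁻ o, W o ∂μ ≠ ∞) {U : Set ℝ} (hU : IsClosed U) :
    ∫⁻ v in U ×ˢ (univ : Set ℝ), liminf (fun k => gk μ Q P W k v) atTop ≤
      ENNReal.ofReal (2 * Real.pi) * ∫⁻ o in Q ⁻¹' U, W o ∂μ := by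
  set S : Set (ℝ × ℝ) := U ×ˢ (univ : Set ℝ) with hS
  have hSm : MeasurableSet S := hU.measurableSet.prod MeasurableSet.univ
  refine (lintegral_liminf_le fun k => gk_meas μ hQ hP hW k).trans ?_
  set F : ℕ → Ω → ℝ≥0∞ := fun k o => ∫⁻ v in S, ENNReal.ofReal (kr (ek k) ((Q o, P o) - v)) with hF
  have hswap : ∀ k, ∫⁻ v in S, gk μ Q P W k v = ∫⁻ o, F k o * W o ∂μ := by
    intro k
    unfold gk
    rw [lintegral_lintegral_swap (CNT_meas hQ hP hW k).aemeasurable]
    refine lintegral_congr fun o => ?_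
    simp only [hF]
    rw [lintegral_mul_const]
    exact ((kr_cont (ek_pos k)).measurable.comp (measurable_const.sub measurable_id)).ennreal_ofReal
  simp only [hswap]
  have hFle : ∀ k o, F k o ≤ ENNReal.ofReal (2 * Real.pi) := by
    intro k o
    simp only [hF]
    refine (setLIntegral_le_lintegral _ _).trans ?_
    rw [kr_int' (ek_pos k)]
  have hFm : ∀ k, Measurable (F k) := by
    intro k
    have h1 : Measurable fun q : Ω × (ℝ × ℝ) => ENNReal.ofReal (kr (ek k) ((Q q.1, P q.1) - q.2)) := by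
      refine ((kr_cont (ek_pos k)).measurable.comp ?_).ennreal_ofReal
      exact ((hQ.comp measurable_fst).prodMk (hP.comp measurable_fst)).sub measurable_snd
    exact h1.lintegral_prod_right'
  have hlim : ∀ o, Q o ∉ U → Tendsto (fun k => F k o) atTop (𝓝 0) := by
    intro o ho
    obtain ⟨r, hr, hball⟩ := Metric.isOpen_iff.1 hU.isOpen_compl (Q o) ho
    have hfar : ∀ v ∈ S, r ≤ |((Q o, P o) - v : ℝ × ℝ).1| := by
      intro v hv
      by_contra hlt
      push Not at hlt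
      have : v.1 ∈ Uᶜ := by
        apply hball
        rw [Metric.mem_ball, dist_comm, Real.dist_eq]
        exact hlt
      exact this hv.1
    have hle : ∀ k, F k o ≤ ENNReal.ofReal (ek k ^ 2 * (1 + 1 / r ^ 2) ^ 2) * ENNReal.ofReal (2 * Real.pi) := by
      intro k
      calc F k o ≤ ∫⁻ v in S, ENNReal.ofReal (ek k ^ 2 * (1 + 1 / r ^ 2) ^ 2) *
            ENNReal.ofReal (kr 1 ((Q o, P o) - v)) := by
            refine setLIntegral_mono' hSm fun v hv => ?_
            rw [← ENNReal.ofReal_mul (by positivity)]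
            exact ENNReal.ofReal_le_ofReal (kr_far hr (hfar v hv))
        _ ≤ ∫⁻ v, ENNReal.ofReal (ek k ^ 2 * (1 + 1 / r ^ 2) ^ 2) *
            ENNReal.ofReal (kr 1 ((Q o, P o) - v)) := setLIntegral_le_lintegral _ _
        _ = _ := by
            rw [lintegral_const_mul, kr_int' one_pos]
            exact ((kr_cont one_pos).measurable.comp (measurable_const.sub measurable_id)).ennreal_ofReal
    refine tendsto_of_tendsto_of_tendsto_of_le_of_le tendsto_const_nhds ?_ (fun k => bot_le) hle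
    have h1 : Tendsto (fun k => ek k ^ 2 * (1 + 1 / r ^ 2) ^ 2) atTop (𝓝 0) := by
      have := (ek_tend0.pow 2).mul_const ((1 + 1 / r ^ 2) ^ 2)
      simpa using this
    have h2 := ENNReal.tendsto_ofReal h1
    rw [ENNReal.ofReal_zero] at h2
    have h3 := ENNReal.Tendsto.mul_const h2 (b := ENNReal.ofReal (2 * Real.pi)) (Or.inr ENNReal.ofReal_ne_top)
    rwa [zero_mul] at h3
  refine (liminf_le_limsup).trans ?_
  have hls := limsup_lintegral_le (μ := μ) (f := fun k o => F k o * W o)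
    (fun o => ENNReal.ofReal (2 * Real.pi) * W o) (fun k => (hFm k).mul hW)
    (fun k => Eventually.of_forall fun o => mul_le_mul' (hFle k o) le_rfl) (by
      rw [lintegral_const_mul _ hW]
      exact ENNReal.mul_ne_top ENNReal.ofReal_ne_top hfin)
  refine hls.trans ?_
  rw [← lintegral_const_mul _ hW, ← lintegral_indicator (hQ hU.measurableSet)]
  refine lintegral_mono fun o => ?_
  by_cases ho : Q o ∈ U
  · rw [indicator_of_mem (by exact ho)]
    refine limsup_le_of_le (by isBoundedDefault) (Eventually.of_forall fun k => ?_)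
    exact mul_le_mul' (hFle k o) le_rfl
  · rw [indicator_of_notMem (by exact ho)]
    have h3 := ENNReal.Tendsto.mul_const (hlim o ho) (b := W o) (Or.inr (hWf o))
    rw [zero_mul] at h3
    rw [h3.limsup_eq]

/-- the smoothed counting function, integrated over one level -/
def Gk (Q P : Ω → ℝ) (W : Ω → ℝ≥0∞) (t : ℝ) : ℝ≥0∞ :=
  ∫⁻ s : ℝ, liminf (fun k => gk μ Q P W k (t, s)) atTop

theorem lim_meas (hQ : Measurable Q) (hP : Measurable P) (hW : Measurable W) :
    Measurable fun v => liminf (fun k => gk μ Q P W k v) atTop :=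
  Measurable.liminf fun k => gk_meas μ hQ hP hW k

theorem Gk_meas (hQ : Measurable Q) (hP : Measurable P) (hW : Measurable W) :
    Measurable (Gk μ Q P W) :=
  (lim_meas μ hQ hP hW).lintegral_prod_right'

theorem Gk_closed (hQ : Measurable Q) (hP : Measurable P) (hW : Measurable W) (hWf : ∀ o, W o ≠ ∞)
    (hfin : ∫⁻ o, W o ∂μ ≠ ∞) {U : Set ℝ} (hU : IsClosed U) :
    ∫⁻ t in U, Gk μ Q P W t ≤ ENNReal.ofReal (2 * Real.pi) * ∫⁻ o in Q ⁻¹' U, W o ∂μ := by
  refine le_trans (le_of_eq ?_) (gk_closed μ hQ hP hW hWf hfin hU)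
  rw [Measure.volume_eq_prod, ← Measure.prod_restrict, Measure.restrict_univ,
    lintegral_prod _ (lim_meas μ hQ hP hW).aemeasurable]
  rfl

/-- the distribution function of the levels -/
def La (Q : Ω → ℝ) (W : Ω → ℝ≥0∞) (t : ℝ) : ℝ := (∫⁻ o in Q ⁻¹' (Iio t), W o ∂μ).toReal

theorem La_mono (hfin : ∫⁻ o, W o ∂μ ≠ ∞) : Monotone (La μ Q W) := by
  intro a b hab
  refine ENNReal.toReal_mono (ne_top_of_le_ne_top hfin (setLIntegral_le_lintegral _ _)) ?_
  exact lintegral_mono_set (preimage_mono (Iio_subset_Iio hab))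

theorem La_Icc (hQ : Measurable Q) (hfin : ∫⁻ o, W o ∂μ ≠ ∞) {a b c : ℝ} (hab : a ≤ b) (hbc : b < c) :
    ∫⁻ o in Q ⁻¹' (Icc a b), W o ∂μ ≤ ENNReal.ofReal (La μ Q W c - La μ Q W a) := by
  have hne : ∀ S : Set Ω, ∫⁻ o in S, W o ∂μ ≠ ∞ := fun S =>
    ne_top_of_le_ne_top hfin (setLIntegral_le_lintegral _ _)
  have h1 : ∫⁻ o in Q ⁻¹' (Icc a b), W o ∂μ + ∫⁻ o in Q ⁻¹' (Iio a), W o ∂μ ≤
      ∫⁻ o in Q ⁻¹' (Iio c), W o ∂μ := by
    rw [← lintegral_union (hQ measurableSet_Iio)]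
    · refine lintegral_mono_set ?_
      rintro o (ho | ho)
      · exact lt_of_le_of_lt ho.2 hbc
      · exact lt_trans ho (lt_of_le_of_lt hab hbc)
    · rw [Set.disjoint_left]
      intro o ho1 ho2
      exact absurd ho2 (not_lt.2 ho1.1)
  unfold La
  rw [ENNReal.ofReal_sub _ ENNReal.toReal_nonneg, ENNReal.ofReal_toReal (hne _),
    ENNReal.ofReal_toReal (hne _)]
  exact ENNReal.le_sub_of_add_le_right (hne _) h1

theorem Gk_le (hQ : Measurable Q) (hP : Measurable P) (hW : Measurable W) (hWf : ∀ o, W o ≠ ∞)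
    (hfin : ∫⁻ o, W o ∂μ ≠ ∞) : ∀ᵐ t : ℝ, DifferentiableAt ℝ (La μ Q W) t ∧
      Gk μ Q P W t ≤ ENNReal.ofReal (2 * Real.pi * deriv (La μ Q W) t) := by
  have hG : ∫⁻ t, Gk μ Q P W t ≠ ∞ := by
    have h1 := Gk_closed μ hQ hP hW hWf hfin (isClosed_univ (X := ℝ))
    rw [Measure.restrict_univ, preimage_univ, Measure.restrict_univ] at h1
    exact ne_top_of_le_ne_top (ENNReal.mul_ne_top ENNReal.ofReal_ne_top hfin) h1
  have h1 := (IsUnifLocDoublingMeasure.vitaliFamily (volume : Measure ℝ) 1).ae_tendsto_lintegral_div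
    (Gk_meas μ hQ hP hW).aemeasurable hG
  have h2 := (La_mono μ (Q := Q) hfin).ae_differentiableAt
  filter_upwards [h1, h2] with x hx1 hx2
  refine ⟨hx2, ?_⟩
  have hx3 := hx1.comp (Real.tendsto_Icc_vitaliFamily_right x)
  have hD := hx2.hasDerivAt
  rw [hasDerivAt_iff_tendsto_slope] at hD
  have hy : Tendsto (fun y : ℝ => y + (y - x) ^ 2) (𝓝[>] x) (𝓝[≠] x) := by
    rw [tendsto_nhdsWithin_iff]
    constructor
    · have : Continuous fun y : ℝ => y + (y - x) ^ 2 := by fun_prop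
      have h3 := this.tendsto x
      simp only [sub_self, ne_eq, OfNat.ofNat_ne_zero, not_false_eq_true, zero_pow, add_zero] at h3
      exact h3.mono_left nhdsWithin_le_nhds
    · filter_upwards [self_mem_nhdsWithin] with y hy
      have hy' : x < y := hy
      have : x < y + (y - x) ^ 2 := by nlinarith [sq_nonneg (y - x)]
      exact this.ne'
  have h3 : Tendsto (fun y : ℝ => 2 * Real.pi * (slope (La μ Q W) x (y + (y - x) ^ 2) * (1 + (y - x))))
      (𝓝[>] x) (𝓝 (2 * Real.pi * (deriv (La μ Q W) x * 1))) := by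
    refine ((hD.comp hy).mul ?_).const_mul _
    have : Continuous fun y : ℝ => 1 + (y - x) := by fun_prop
    have h4 := this.tendsto x
    simp only [sub_self, add_zero] at h4
    exact h4.mono_left nhdsWithin_le_nhds
  rw [mul_one] at h3
  refine le_of_tendsto_of_tendsto hx3 (ENNReal.tendsto_ofReal h3) ?_
  filter_upwards [self_mem_nhdsWithin] with y hy0
  have hy1 : x < y := hy0
  have hyx : 0 < y - x := sub_pos.2 hy1
  simp only [Function.comp_apply]
  rw [Real.volume_Icc]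
  refine ENNReal.div_le_of_le_mul ?_
  refine (Gk_closed μ hQ hP hW hWf hfin isClosed_Icc).trans ?_
  have h5 : y < y + (y - x) ^ 2 := by nlinarith [sq_pos_of_pos hyx]
  refine (mul_le_mul' le_rfl (La_Icc μ hQ hfin hy1.le h5)).trans ?_
  rw [← ENNReal.ofReal_mul (by positivity), ← ENNReal.ofReal_mul' hyx.le]
  refine ENNReal.ofReal_le_ofReal (le_of_eq ?_)
  rw [slope_def_field]
  have h6 : y + (y - x) ^ 2 - x = (y - x) * (1 + (y - x)) := by ring
  rw [h6]
  have h7 : 1 + (y - x) ≠ 0 := by positivity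
  field_simp

end abs

/-! ### the zeros -/

variable {M : Type} [MetricSpace M] {γ : ℝ → M}

theorem wed_sub_const (C : Calc M γ) (u w : M → ℝ) (a b : ℝ) (o : Om) :
    C.wed (fun x => u x - a) (fun x => w x - b) o = C.wed u w o := by
  unfold Calc.wed Calc.gx Calc.gy
  simp only [deriv_sub_const]

/-- if `X` is constant on the boundary, the signs of the zeros sum to zero -/
theorem Vz.sum_zero [CompactSpace M] {C : Calc M γ} (hγ : Bd γ) {X Y : M → ℝ} (lX : Lip X) (lY : Lip Y)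
    {b : ℝ} (hb : ∀ t, X (γ t) = b) {Z : Finset M} {s : M → ℝ} (hV : Vz C X Y Z s) :
    ∑ z ∈ Z, s z = 0 := by
  have h0 : ∀ ε : ℝ, 0 < ε → ∫ o, (fun _ => (1 : ℝ)) (C.pt o) *
      (2 * ε ^ 2 / (X (C.pt o) ^ 2 + Y (C.pt o) ^ 2 + ε ^ 2) ^ 2) * C.wed X Y o ∂C.μ = 0 := by
    intro ε hε
    have h1 := stokes_eps C hγ (lip_const (M := M) 1) lX lY hε
    have h2 : ∫ o, (qf X Y (C.pt o) / (qf X Y (C.pt o) + ε ^ 2)) * C.cr (fun _ => (1 : ℝ)) X Y o ∂C.μ = 0 := by
      refine integral_eq_zero_of_ae (Eventually.of_forall fun o => ?_)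
      simp only [Calc.cr, (C.ae_const 1 o).1, (C.ae_const 1 o).2, zero_mul, sub_zero, zero_div, mul_zero,
        Pi.zero_apply]
    rw [h2, zero_add] at h1
    rw [h1]
    -- the boundary term
    set c : ℝ := √(b ^ 2 + ε ^ 2) with hc
    have hc0 : 0 < c := Real.sqrt_pos.2 (by positivity)
    have hc2 : c ^ 2 = b ^ 2 + ε ^ 2 := Real.sq_sqrt (by positivity)
    have lA : Lip (fun x => Real.arctan (Y x / c)) := by
      have l1 : Lip (fun x => c⁻¹ * Y x) := lY.const_mul c⁻¹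
      have l2 : LipschitzWith 1 Real.arctan := by
        refine lipschitzWith_of_nnnorm_deriv_le Real.differentiable_arctan fun x => ?_
        rw [Real.deriv_arctan]
        rw [← NNReal.coe_le_coe, coe_nnnorm, Real.norm_of_nonneg (by positivity), NNReal.coe_one]
        rw [div_le_one (by positivity)]
        nlinarith [sq_nonneg x]
      have l3 := l1.comp l2
      have e : (fun x => Real.arctan (Y x / c)) = fun x => Real.arctan (c⁻¹ * Y x) := by
        funext x
        rw [div_eq_inv_mul]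
      rw [e]
      exact l3
    have h3 := C.stokes (fun _ => (1 : ℝ)) _ (lip_const 1) lA
    have h4 : ∫ o, (deriv (fun s => (fun _ => (1 : ℝ)) (C.px o s)) 0 *
        deriv (fun s => (fun x => Real.arctan (Y x / c)) (C.py o s)) 0
        - deriv (fun s => (fun _ => (1 : ℝ)) (C.py o s)) 0 *
        deriv (fun s => (fun x => Real.arctan (Y x / c)) (C.px o s)) 0) ∂C.μ = 0 := by
      refine integral_eq_zero_of_ae (Eventually.of_forall fun o => ?_)
      simp only [deriv_const, zero_mul, sub_zero, Pi.zero_apply]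
    rw [h4] at h3
    have hsg : C.sg ≠ 0 := by
      rcases C.pm with h | h <;> rw [h] <;> norm_num
    have h5 : ∫ t in (0 : ℝ)..(2 * Real.pi), (1 : ℝ) * deriv (fun s => Real.arctan (Y (γ s) / c)) t = 0 := by
      rcases mul_eq_zero.1 h3.symm with h | h
      · exact absurd h hsg
      · exact h
    have hYd : ∀ᵐ t : ℝ, DifferentiableAt ℝ (fun s => Y (γ s)) t := by
      obtain ⟨L, hL⟩ := lY
      exact (hL.comp hγ.lip).ae_differentiableAt
    have h6 : ∫ t in (0 : ℝ)..(2 * Real.pi), (fun _ => (1 : ℝ)) (γ t) *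
        ((X (γ t) * deriv (fun s => Y (γ s)) t - Y (γ t) * deriv (fun s => X (γ s)) t) /
          (X (γ t) ^ 2 + Y (γ t) ^ 2 + ε ^ 2)) =
        ∫ t in (0 : ℝ)..(2 * Real.pi), (b / c) * ((1 : ℝ) * deriv (fun s => Real.arctan (Y (γ s) / c)) t) := by
      refine intervalIntegral.integral_congr_ae ?_
      filter_upwards [hYd] with t ht _
      have e1 : deriv (fun s => X (γ s)) t = 0 := by
        have : (fun s => X (γ s)) = fun _ => b := funext hb
        rw [this, deriv_const]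
      have e2 : HasDerivAt (fun s => Real.arctan (Y (γ s) / c))
          (1 / (1 + (Y (γ t) / c) ^ 2) * (deriv (fun s => Y (γ s)) t / c)) t :=
        (ht.hasDerivAt.div_const c).arctan
      rw [e1, e2.deriv, hb]
      have e3 : b ^ 2 + Y (γ t) ^ 2 + ε ^ 2 = c ^ 2 * (1 + (Y (γ t) / c) ^ 2) := by
        field_simp
        linarith
      rw [e3]
      have e4 : 1 + (Y (γ t) / c) ^ 2 ≠ 0 := by positivity
      field_simp
      ring
    rw [h6, intervalIntegral.integral_const_mul, h5, mul_zero, mul_zero]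
  have h1 := hV.lim (fun _ => 1) (lip_const 1)
  have h2 : Tendsto (fun ε : ℝ => ∫ o, (fun _ => (1 : ℝ)) (C.pt o) *
      (2 * ε ^ 2 / (X (C.pt o) ^ 2 + Y (C.pt o) ^ 2 + ε ^ 2) ^ 2) * C.wed X Y o ∂C.μ) (𝓝[>] 0) (𝓝 0) := by
    refine tendsto_const_nhds.congr' ?_
    filter_upwards [self_mem_nhdsWithin] with ε hε
    exact (h0 ε hε).symm
  have h3 := tendsto_nhds_unique h1 h2
  have hpi := Real.pi_pos
  simp only [mul_one] at h3
  rcases mul_eq_zero.1 h3 with h | h
  · exact absurd h (by positivity)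
  · exact h

/-- there are no zeros or at least two -/
theorem two_le_card {Z : Finset M} {s : M → ℝ} (hpm : ∀ z ∈ Z, s z = 1 ∨ s z = -1)
    (hs : ∑ z ∈ Z, s z = 0) {x : M} (hx : x ∈ Z) : 2 ≤ Z.card := by
  by_contra hlt
  have h1 : Z.card = 1 := by
    have : 0 < Z.card := Finset.card_pos.2 ⟨x, hx⟩
    omega
  obtain ⟨z, hz⟩ := Finset.card_eq_one.1 h1
  rw [hz, Finset.sum_singleton] at hs
  rcases hpm z (by rw [hz]; exact Finset.mem_singleton_self z) with h | h <;> rw [h] at hs <;> norm_num at hs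

/-- a Lipschitz function with given values on a finite set -/
private theorem CNT_ext (Z : Finset M) {s : M → ℝ} (hs : ∀ z ∈ Z, s z = 1 ∨ s z = -1) :
    ∃ ψ : M → ℝ, Lip ψ ∧ (∀ x, |ψ x| ≤ 1) ∧ ∀ z ∈ Z, ψ z = s z := by
  classical
  set K : ℝ := ∑ z ∈ Z, ∑ z' ∈ Z, |s z - s z'| / dist z z' with hK
  have hnn : ∀ z z' : M, 0 ≤ |s z - s z'| / dist z z' := fun z z' => div_nonneg (abs_nonneg _) dist_nonneg
  have hK0 : 0 ≤ K := Finset.sum_nonneg fun z _ => Finset.sum_nonneg fun z' _ => hnn z z'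
  have h1 : ∀ z ∈ Z, ∀ z' ∈ Z, |s z - s z'| ≤ K * dist z z' := by
    intro z hz z' hz'
    rcases eq_or_ne z z' with h | h
    · rw [h]; simp
    · have hd : 0 < dist z z' := dist_pos.2 h
      rw [← div_le_iff₀ hd]
      calc |s z - s z'| / dist z z' ≤ ∑ z' ∈ Z, |s z - s z'| / dist z z' :=
            Finset.single_le_sum (f := fun z' => |s z - s z'| / dist z z') (fun i _ => hnn z i) hz'
        _ ≤ K := Finset.single_le_sum (f := fun z => ∑ z' ∈ Z, |s z - s z'| / dist z z')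
            (fun i _ => Finset.sum_nonneg fun j _ => hnn i j) hz
  have h2 : LipschitzOnWith ⟨K, hK0⟩ s (Z : Set M) := by
    refine LipschitzOnWith.of_dist_le_mul fun x hx y hy => ?_
    rw [Real.dist_eq]
    exact h1 x hx y hy
  obtain ⟨g, hg, hgs⟩ := h2.extend_real
  refine ⟨fun x => max (-1) (min 1 (g x)), ?_, ?_, ?_⟩
  · exact ⟨_, (hg.const_min 1).const_max (-1)⟩
  · intro x
    rw [abs_le]
    exact ⟨le_max_left _ _, max_le (by norm_num) (min_le_left _ _)⟩
  · intro z hz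
    have h3 : g z = s z := (hgs hz).symm
    simp only [h3]
    rcases hs z hz with h | h <;> rw [h] <;> norm_num

/-- the number of zeros is bounded by the lower limit of the smoothed counting functions -/
theorem card_le {C : Calc M γ} {X Y : M → ℝ} {Z : Finset M} {s : M → ℝ} (hV : Vz C X Y Z s) :
    ENNReal.ofReal (2 * Real.pi * Z.card) ≤ liminf (fun k : ℕ => ∫⁻ o, ENNReal.ofReal
      (kr (ek k) (X (C.pt o), Y (C.pt o))) * ENNReal.ofReal |C.wed X Y o| ∂C.μ) atTop := by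
  obtain ⟨ψ, hψ, hψ1, hψs⟩ := CNT_ext Z hV.pm
  have h1 := (hV.lim ψ hψ).comp ek_tend
  have h2 : (∑ z ∈ Z, s z * ψ z) = Z.card := by
    have : ∀ z ∈ Z, s z * ψ z = 1 := by
      intro z hz
      rw [hψs z hz]
      rcases hV.pm z hz with h | h <;> rw [h] <;> norm_num
    rw [Finset.sum_congr rfl this]
    simp
  rw [h2] at h1
  have h3 := ENNReal.tendsto_ofReal h1
  rw [← h3.liminf_eq]
  refine liminf_le_liminf (Eventually.of_forall fun k => ?_)
  simp only [Function.comp_apply]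
  refine (ENNReal.ofReal_le_ofReal (le_abs_self _)).trans ?_
  rw [← Real.norm_eq_abs, ofReal_norm]
  refine (enorm_integral_le_lintegral_enorm _).trans ?_
  refine lintegral_mono fun o => ?_
  rw [← ENNReal.ofReal_mul (kr_nonneg _ _), ← ofReal_norm, Real.norm_eq_abs, abs_mul, abs_mul]
  refine ENNReal.ofReal_le_ofReal (mul_le_mul_of_nonneg_right ?_ (abs_nonneg _))
  have h5 : 0 ≤ kr (ek k) (X (C.pt o), Y (C.pt o)) := kr_nonneg _ _
  have h6 : |2 * ek k ^ 2 / (X (C.pt o) ^ 2 + Y (C.pt o) ^ 2 + ek k ^ 2) ^ 2|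
      = kr (ek k) (X (C.pt o), Y (C.pt o)) := abs_of_nonneg h5
  rw [h6]
  have h7 := mul_le_mul_of_nonneg_right (hψ1 (C.pt o)) h5
  rwa [one_mul] at h7

/-! ### the counting lemma -/

variable [CompactSpace M]

theorem count_vol {C : Calc M γ} (hγ : Bd γ) (hR : RegPl C) {w θ : M → ℝ} (lw : Lip w) (lθ : Lip θ)
    {b : ℝ} (hw : ∀ t, w (γ t) = b) {h : Om → ℝ} (hi : Integrable h C.μ)
    (hh : ∀ᵐ o ∂C.μ, |C.wed w θ o| ≤ h o) :
    ∀ᵐ t : ℝ, DifferentiableAt ℝ (fun r => ∫ o in {o | w (C.pt o) < r}, h o ∂C.μ) t ∧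
      volume (θ '' {x | w x = t}) ≤
      ENNReal.ofReal (deriv (fun r => ∫ o in {o | w (C.pt o) < r}, h o ∂C.μ) t / 2) := by
  haveI := C.fin
  -- measurable versions
  obtain ⟨Q, hQm, hQ⟩ := C.meas_pt lw
  obtain ⟨P, hPm, hP⟩ := C.meas_pt lθ
  obtain ⟨H, hHm, hH⟩ := hi.1.aemeasurable
  set W : Om → ℝ≥0∞ := fun o => ENNReal.ofReal (H o) with hW
  have hWm : Measurable W := hHm.ennreal_ofReal
  have hWf : ∀ o, W o ≠ ∞ := fun o => ENNReal.ofReal_ne_top
  have hh0 : ∀ᵐ o ∂C.μ, 0 ≤ h o := by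
    filter_upwards [hh] with o ho
    exact (abs_nonneg _).trans ho
  have hfin : ∫⁻ o, W o ∂C.μ ≠ ∞ := by
    have h1 : ∫⁻ o, W o ∂C.μ = ∫⁻ o, ENNReal.ofReal (h o) ∂C.μ := by
      refine lintegral_congr_ae ?_
      filter_upwards [hH] with o ho
      simp only [hW, ho]
    rw [h1, ← ofReal_integral_eq_lintegral_ofReal hi hh0]
    exact ENNReal.ofReal_ne_top
  have hLa : (fun r => ∫ o in {o | w (C.pt o) < r}, h o ∂C.μ) = La C.μ Q W := by
    funext r
    have e1 : ({o | w (C.pt o) < r} : Set Om) =ᵐ[C.μ] (Q ⁻¹' (Iio r) : Set Om) := by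
      filter_upwards [hQ] with o ho
      change (w (C.pt o) < r) = (Q o < r)
      rw [ho]
    rw [setIntegral_congr_set e1]
    unfold La
    rw [integral_eq_lintegral_of_nonneg_ae (ae_restrict_of_ae hh0) hi.1.restrict]
    congr 1
    refine lintegral_congr_ae (ae_restrict_of_ae ?_)
    filter_upwards [hH] with o ho
    simp only [hW, ho]
  rw [hLa]
  have h1 := Gk_le C.μ hQm hPm hWm hWf hfin
  have h2 : ∀ᵐ t : ℝ, ∀ᵐ s : ℝ, ∃ (Z : Finset M) (sg : M → ℝ),
      Vz C (fun x => w x - t) (fun x => θ x - s) Z sg := by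
    have := hR w θ lw lθ
    rw [Measure.volume_eq_prod] at this
    exact Measure.ae_ae_of_ae_prod this
  filter_upwards [h1, h2] with t ht1 ht2
  refine ⟨ht1.1, ?_⟩
  set K : Set ℝ := θ '' {x | w x = t} with hK
  have hKc : IsCompact K := (isClosed_eq lw.cont continuous_const).isCompact.image lθ.cont
  have h3 : ∀ᵐ s : ℝ, s ∈ K → ENNReal.ofReal (4 * Real.pi) ≤
      liminf (fun k => gk C.μ Q P W k (t, s)) atTop := by
    filter_upwards [ht2] with s hs hsK
    obtain ⟨Z, sg, hV⟩ := hs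
    obtain ⟨x, hx, hxs⟩ := hsK
    have lX : Lip (fun x => w x - t) := lw.sub (lip_const t)
    have lY : Lip (fun x => θ x - s) := lθ.sub (lip_const s)
    have h4 := hV.sum_zero hγ lX lY (b := b - t) (fun r => by rw [hw])
    have hxZ : x ∈ Z := by
      rw [hV.zero]
      have hx' : w x = t := hx
      exact ⟨by rw [hx', sub_self], by rw [hxs, sub_self]⟩
    have h5 := two_le_card hV.pm h4 hxZ
    have h6 : ENNReal.ofReal (4 * Real.pi) ≤ ENNReal.ofReal (2 * Real.pi * Z.card) := by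
      refine ENNReal.ofReal_le_ofReal ?_
      have h7 : (2 : ℝ) ≤ Z.card := by exact_mod_cast h5
      nlinarith [Real.pi_pos]
    refine h6.trans ((card_le hV).trans ?_)
    refine liminf_le_liminf (Eventually.of_forall fun k => ?_)
    unfold gk
    refine lintegral_mono_ae ?_
    filter_upwards [hQ, hP, hH, hh] with o ho1 ho2 ho3 ho4
    rw [wed_sub_const]
    have e : ((Q o, P o) - (t, s) : ℝ × ℝ) = (w (C.pt o) - t, θ (C.pt o) - s) := by
      rw [← ho1, ← ho2]
      rfl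
    rw [e]
    refine mul_le_mul' le_rfl ?_
    simp only [hW]
    rw [← ho3]
    exact ENNReal.ofReal_le_ofReal ho4
  have h4 : ENNReal.ofReal (4 * Real.pi) * volume K ≤ Gk C.μ Q P W t := by
    rw [← setLIntegral_const]
    unfold Gk
    refine (setLIntegral_mono_ae' hKc.measurableSet h3).trans ?_
    exact setLIntegral_le_lintegral _ _
  have h5 := h4.trans ht1.2
  have h6 : ENNReal.ofReal (2 * Real.pi * deriv (La C.μ Q W) t) =
      ENNReal.ofReal (4 * Real.pi) * ENNReal.ofReal (deriv (La C.μ Q W) t / 2) := by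
    rw [← ENNReal.ofReal_mul (by positivity)]
    congr 1
    ring
  rw [h6] at h5
  have hpi := Real.pi_pos
  exact (ENNReal.mul_le_mul_iff_right (by simp [hpi]) ENNReal.ofReal_ne_top).1 h5

/-- the oscillation of `θ` over connected subsets of the level sets, for all functions `θ` of a class
simultaneously -/
theorem count_conn {C : Calc M γ} (hγ : Bd γ) (hR : RegPl C) {w : M → ℝ} (lw : Lip w)
    {b : ℝ} (hw : ∀ t, w (γ t) = b) {h : Om → ℝ} (hi : Integrable h C.μ) (h0 : ∀ᵐ o ∂C.μ, 0 ≤ h o) :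
    ∀ᵐ t : ℝ, DifferentiableAt ℝ (fun r => ∫ o in {o | w (C.pt o) < r}, h o ∂C.μ) t ∧
      ∀ θ : M → ℝ, Lip θ → (∀ᵐ o ∂C.μ, |C.wed w θ o| ≤ h o) →
        ∀ K : Set M, K ⊆ {x | w x = t} → IsPreconnected K → ∀ x ∈ K, ∀ y ∈ K,
          2 * |θ x - θ y| ≤ deriv (fun r => ∫ o in {o | w (C.pt o) < r}, h o ∂C.μ) t := by
  classical
  set F : Set C(M, ℝ) := {f | Lip f ∧ ∀ᵐ o ∂C.μ, |C.wed w f o| ≤ h o} with hF
  obtain ⟨D, hDc, hDd⟩ := TopologicalSpace.exists_countable_dense F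
  have hne : ∀ᵐ t : ℝ, DifferentiableAt ℝ (fun r => ∫ o in {o | w (C.pt o) < r}, h o ∂C.μ) t := by
    have hz : ∀ᵐ o ∂C.μ, |C.wed w (fun _ => (0 : ℝ)) o| ≤ h o := by
      filter_upwards [h0] with o ho
      have : C.wed w (fun _ => (0 : ℝ)) o = 0 := by
        unfold Calc.wed
        rw [(C.ae_const 0 o).1, (C.ae_const 0 o).2]
        ring
      rw [this, abs_zero]
      exact ho
    filter_upwards [count_vol hγ hR lw (lip_const 0) hw hi hz] with t ht
    exact ht.1
  have hD : ∀ᵐ t : ℝ, ∀ f ∈ D, volume ((f : C(M, ℝ)) '' {x | w x = t}) ≤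
      ENNReal.ofReal (deriv (fun r => ∫ o in {o | w (C.pt o) < r}, h o ∂C.μ) t / 2) := by
    rw [ae_ball_iff hDc]
    intro f _
    filter_upwards [count_vol hγ hR lw f.2.1 hw hi f.2.2] with t ht
    exact ht.2
  have hmono : Monotone (fun r => ∫ o in {o | w (C.pt o) < r}, h o ∂C.μ) := by
    intro r r' hrr
    refine setIntegral_mono_set hi.integrableOn (ae_restrict_of_ae h0) ?_
    refine LE.le.eventuallyLE ?_
    intro o ho
    exact lt_of_lt_of_le ho hrr
  filter_upwards [hne, hD] with t ht1 ht2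
  refine ⟨ht1, ?_⟩
  have hpos : 0 ≤ deriv (fun r => ∫ o in {o | w (C.pt o) < r}, h o ∂C.μ) t := hmono.deriv_nonneg
  intro θ lθ hθ K hK hKc x hx y hy
  -- the countable family
  have key : ∀ f ∈ D, 2 * |(f : C(M, ℝ)) x - (f : C(M, ℝ)) y| ≤
      deriv (fun r => ∫ o in {o | w (C.pt o) < r}, h o ∂C.μ) t := by
    intro f hf
    have h1 := ht2 f hf
    have h2 : IsPreconnected ((f : C(M, ℝ)) '' K) := hKc.image _ (f : C(M, ℝ)).continuous.continuousOn
    have h3 : uIcc ((f : C(M, ℝ)) x) ((f : C(M, ℝ)) y) ⊆ (f : C(M, ℝ)) '' K :=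
      h2.ordConnected.uIcc_subset (mem_image_of_mem _ hx) (mem_image_of_mem _ hy)
    have h4 : ENNReal.ofReal |(f : C(M, ℝ)) x - (f : C(M, ℝ)) y| ≤
        ENNReal.ofReal (deriv (fun r => ∫ o in {o | w (C.pt o) < r}, h o ∂C.μ) t / 2) := by
      refine le_trans ?_ h1
      refine le_trans ?_ (measure_mono (h3.trans (image_mono hK)))
      rw [Real.volume_interval, abs_sub_comm]
    rw [ENNReal.ofReal_le_ofReal_iff (by positivity)] at h4
    linarith
  -- density
  set f₀ : F := ⟨⟨θ, lθ.cont⟩, lθ, hθ⟩ with hf₀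
  have hcl : IsClosed {f : F | 2 * |(f : C(M, ℝ)) x - (f : C(M, ℝ)) y| ≤
      deriv (fun r => ∫ o in {o | w (C.pt o) < r}, h o ∂C.μ) t} := by
    refine isClosed_le ?_ continuous_const
    have c1 : Continuous fun f : F => (f : C(M, ℝ)) x := (continuous_eval_const x).comp continuous_subtype_val
    have c2 : Continuous fun f : F => (f : C(M, ℝ)) y := (continuous_eval_const y).comp continuous_subtype_val
    exact continuous_const.mul (c1.sub c2).abs
  have h5 : f₀ ∈ {f : F | 2 * |(f : C(M, ℝ)) x - (f : C(M, ℝ)) y| ≤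
      deriv (fun r => ∫ o in {o | w (C.pt o) < r}, h o ∂C.μ) t} := by
    have h6 : closure D ⊆ {f : F | 2 * |(f : C(M, ℝ)) x - (f : C(M, ℝ)) y| ≤
      deriv (fun r => ∫ o in {o | w (C.pt o) < r}, h o ∂C.μ) t} := hcl.closure_subset_iff.2 key
    exact h6 (hDd f₀)
  exact h5

/-! ### functions that are nonpositive on the boundary -/

omit [CompactSpace M] in
/-- the gradient of the positive part -/
theorem ae_pos (C : Calc M γ) {w : M → ℝ} (lw : Lip w) : ∀ᵐ o ∂C.μ,
    (C.gx (fun x => max (w x) 0) o = C.gx w o ∧ C.gy (fun x => max (w x) 0) o = C.gy w o) ∨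
    (C.gx (fun x => max (w x) 0) o = 0 ∧ C.gy (fun x => max (w x) 0) o = 0) := by
  have l0 : Lip (fun x => max (w x) 0) := lw.max (lip_const 0)
  filter_upwards [C.ae_has lw, C.ae_has l0] with o h1 h2
  have key : ∀ (p : ℝ → M) (g g' : ℝ), HasDerivAt (fun s => w (p s)) g 0 →
      HasDerivAt (fun s => max (w (p s)) 0) g' 0 →
      (0 < w (p 0) → g' = g) ∧ (w (p 0) ≤ 0 → g' = 0) := by
    intro p g g' hg hg'
    constructor
    · intro hpos
      have h3 : (fun s => max (w (p s)) 0) =ᶠ[𝓝 0] fun s => w (p s) := by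
        filter_upwards [hg.continuousAt.eventually (lt_mem_nhds hpos)] with s hs
        exact max_eq_left hs.le
      exact (hg'.congr_of_eventuallyEq h3.symm).unique hg
    · intro hle
      have h3 : IsLocalMin (fun s => max (w (p s)) 0) 0 := by
        refine Eventually.of_forall fun s => ?_
        change max (w (p 0)) 0 ≤ max (w (p s)) 0
        rw [max_eq_right hle]
        exact le_max_right _ _
      exact h3.hasDerivAt_eq_zero hg'
  have hx := key (C.px o) _ _ h1.1 h2.1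
  have hy := key (C.py o) _ _ h1.2 h2.2
  have e : C.py o 0 = C.px o 0 := C.same o
  rcases lt_or_ge 0 (w (C.px o 0)) with h | h
  · left
    exact ⟨hx.1 h, hy.1 (by rw [e]; exact h)⟩
  · right
    exact ⟨hx.2 h, hy.2 (by rw [e]; exact h)⟩

/-- the positive part has the same level sets and the same distribution function -/
private theorem CNT_pos {C : Calc M γ} {w : M → ℝ} {h : Om → ℝ} {t : ℝ} (ht : 0 < t) :
    (fun r => ∫ o in {o | max (w (C.pt o)) 0 < r}, h o ∂C.μ) =ᶠ[𝓝 t]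
      fun r => ∫ o in {o | w (C.pt o) < r}, h o ∂C.μ := by
  filter_upwards [lt_mem_nhds ht] with r hr
  have : ({o | max (w (C.pt o)) 0 < r} : Set Om) = {o | w (C.pt o) < r} := by
    ext o
    simp only [mem_setOf_eq, max_lt_iff]
    exact ⟨fun h => h.1, fun h => ⟨h, hr⟩⟩
  rw [this]

private theorem CNT_lev {w : M → ℝ} {t : ℝ} (ht : 0 < t) : {x | max (w x) 0 = t} = {x | w x = t} := by
  ext x
  simp only [mem_setOf_eq]
  constructor
  · intro h
    rcases max_choice (w x) 0 with h1 | h1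
    · rw [← h, h1]
    · rw [h1] at h
      exact absurd h ht.ne
  · intro h
    rw [h, max_eq_left ht.le]

private theorem CNT_wed {C : Calc M γ} {w θ : M → ℝ} (lw : Lip w) {h : Om → ℝ}
    (hh : ∀ᵐ o ∂C.μ, |C.wed w θ o| ≤ h o) :
    ∀ᵐ o ∂C.μ, |C.wed (fun x => max (w x) 0) θ o| ≤ h o := by
  filter_upwards [ae_pos C lw, hh] with o h1 h2
  unfold Calc.wed at h2 ⊢
  rcases h1 with h1 | h1
  · rw [h1.1, h1.2]
    exact h2
  · rw [h1.1, h1.2, zero_mul, zero_mul, sub_zero, abs_zero]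
    exact (abs_nonneg _).trans h2

/-- the measure of the values of `θ` on the level set is at most half of the length of the level set -/
theorem count_vol' {C : Calc M γ} (hγ : Bd γ) (hR : RegPl C) {w θ : M → ℝ} (lw : Lip w) (lθ : Lip θ)
    (hw : ∀ t, w (γ t) ≤ 0) {h : Om → ℝ} (hi : Integrable h C.μ)
    (hh : ∀ᵐ o ∂C.μ, |C.wed w θ o| ≤ h o) :
    ∀ᵐ t : ℝ, 0 < t → DifferentiableAt ℝ (fun r => ∫ o in {o | w (C.pt o) < r}, h o ∂C.μ) t ∧
      volume (θ '' {x | w x = t}) ≤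
      ENNReal.ofReal (deriv (fun r => ∫ o in {o | w (C.pt o) < r}, h o ∂C.μ) t / 2) := by
  have l0 : Lip (fun x => max (w x) 0) := lw.max (lip_const 0)
  filter_upwards [count_vol hγ hR l0 lθ (b := 0) (fun t => max_eq_right (hw t)) hi (CNT_wed lw hh)]
    with t ht hpos
  have e := CNT_pos (C := C) (w := w) (h := h) hpos
  rw [e.deriv_eq, CNT_lev hpos] at ht
  exact ⟨ht.1.congr_of_eventuallyEq e.symm, ht.2⟩

/-- the oscillation over connected subsets of the level sets -/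
theorem count_conn' {C : Calc M γ} (hγ : Bd γ) (hR : RegPl C) {w : M → ℝ} (lw : Lip w)
    (hw : ∀ t, w (γ t) ≤ 0) {h : Om → ℝ} (hi : Integrable h C.μ) (h0 : ∀ᵐ o ∂C.μ, 0 ≤ h o) :
    ∀ᵐ t : ℝ, 0 < t → DifferentiableAt ℝ (fun r => ∫ o in {o | w (C.pt o) < r}, h o ∂C.μ) t ∧
      ∀ θ : M → ℝ, Lip θ → (∀ᵐ o ∂C.μ, |C.wed w θ o| ≤ h o) →
        ∀ K : Set M, K ⊆ {x | w x = t} → IsPreconnected K → ∀ x ∈ K, ∀ y ∈ K,
          2 * |θ x - θ y| ≤ deriv (fun r => ∫ o in {o | w (C.pt o) < r}, h o ∂C.μ) t := by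
  have l0 : Lip (fun x => max (w x) 0) := lw.max (lip_const 0)
  filter_upwards [count_conn hγ hR l0 (b := 0) (fun t => max_eq_right (hw t)) hi h0] with t ht hpos
  have e := CNT_pos (C := C) (w := w) (h := h) hpos
  rw [e.deriv_eq, CNT_lev hpos] at ht
  refine ⟨ht.1.congr_of_eventuallyEq e.symm, ?_⟩
  intro θ lθ hθ
  exact ht.2 θ lθ (CNT_wed lw hθ)

omit [CompactSpace M] in
private theorem CNT_cs (C : Calc M γ) {w θ : M → ℝ} (hθ : LipschitzWith 1 θ) :
    ∀ᵐ o ∂C.μ, |C.wed w θ o| ≤ √(C.gx w o ^ 2 + C.gy w o ^ 2) := by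
  filter_upwards [C.ae_grad_le hθ] with o ho
  rw [NNReal.coe_one, one_pow] at ho
  refine Real.le_sqrt_of_sq_le ?_
  rw [sq_abs]
  unfold Calc.wed
  nlinarith [sq_nonneg (C.gx w o * C.gx θ o + C.gy w o * C.gy θ o), sq_nonneg (C.gx w o), sq_nonneg (C.gy w o)]

omit [CompactSpace M] in
theorem integrable_grad (C : Calc M γ) {w : M → ℝ} (lw : Lip w) :
    Integrable (fun o => √(C.gx w o ^ 2 + C.gy w o ^ 2)) C.μ := by
  obtain ⟨L, hL⟩ := lw
  refine C.integrable_of_bdd (B := L) ?_ ?_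
  · exact (((C.meas_gx ⟨L, hL⟩).pow_const 2).add ((C.meas_gy ⟨L, hL⟩).pow_const 2)).sqrt
  · filter_upwards [C.ae_grad_le hL] with o ho
    rw [abs_of_nonneg (Real.sqrt_nonneg _)]
    exact Real.sqrt_le_iff.2 ⟨L.coe_nonneg, ho⟩

/-- for almost every level `t > 0` twice the distance of two points in the same connected component of
`{w = t}` is at most the length of the level set -/
theorem count_dist {C : Calc M γ} (hγ : Bd γ) (hR : RegPl C) {w : M → ℝ} (lw : Lip w)
    (hw : ∀ t, w (γ t) ≤ 0) :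
    ∀ᵐ t : ℝ, 0 < t →
      DifferentiableAt ℝ (fun r => ∫ o in {o | w (C.pt o) < r}, √(C.gx w o ^ 2 + C.gy w o ^ 2) ∂C.μ) t ∧
      ∀ x y, w x = t → y ∈ connectedComponentIn {z | w z = t} x →
        2 * dist x y ≤ deriv (fun r => ∫ o in {o | w (C.pt o) < r},
          √(C.gx w o ^ 2 + C.gy w o ^ 2) ∂C.μ) t := by
  filter_upwards [count_conn' hγ hR lw hw (integrable_grad C lw)
    (Eventually.of_forall fun o => Real.sqrt_nonneg _)] with t ht hpos
  refine ⟨(ht hpos).1, ?_⟩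
  intro x y hx hy
  have l1 : LipschitzWith 1 (fun z => dist x z) := LipschitzWith.dist_right x
  have h1 := (ht hpos).2 (fun z => dist x z) ⟨1, l1⟩ (CNT_cs C l1) _
    (connectedComponentIn_subset _ x) isPreconnected_connectedComponentIn
    x (mem_connectedComponentIn hx) y hy
  rwa [dist_self, zero_sub, abs_neg, abs_of_nonneg dist_nonneg] at h1

end Pool.Agent.FPM
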