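import Mathlib
import Pool.Agent.FPM.CNT

/-
DCB2 (helper19): the smoothed counting function is bounded by the image measure (closed and Borel
subsets of the plane), and the positive and negative zeros of a Lipschitz map.
-/

open MeasureTheory Set Filter Topology
open scoped ENNReal NNReal

noncomputable section

namespace Pool.Agent.FPM

open Pool.Agent.EWD

theorem kr_far' {ε r : ℝ} (hr : 0 < r) {z : ℝ × ℝ} (hz : r ≤ |z.1| ∨ r ≤ |z.2|) :
    kr ε z ≤ ε ^ 2 * (1 + 1 / r ^ 2) ^ 2 * kr 1 z := by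
  rcases hz with h | h
  · exact kr_far hr h
  · have h1 := kr_far (ε := ε) hr (z := (z.2, z.1)) h
    have e : ∀ δ : ℝ, kr δ (z.2, z.1) = kr δ z := by
      intro δ
      unfold kr
      rw [add_comm (z.2 ^ 2)]
    rwa [e, e] at h1

section abs

variable {Ω : Type} [MeasurableSpace Ω] (μ : Measure Ω) [SFinite μ] {Q P : Ω → ℝ} {W : Ω → ℝ≥0∞}

private theorem DCB2_meas (hQ : Measurable Q) (hP : Measurable P) (hW : Measurable W) (k : ℕ) :
    Measurable fun q : (ℝ × ℝ) × Ω => ENNReal.ofReal (kr (ek k) ((Q q.2, P q.2) - q.1)) * W q.2 := by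
  refine Measurable.mul ?_ (hW.comp measurable_snd)
  refine ((kr_cont (ek_pos k)).measurable.comp ?_).ennreal_ofReal
  exact ((hQ.comp measurable_snd).prodMk (hP.comp measurable_snd)).sub measurable_fst

/-- the bound over a closed set -/
theorem gk_closed2 (hQ : Measurable Q) (hP : Measurable P) (hW : Measurable W) (hWf : ∀ o, W o ≠ ∞)
    (hfin : ∫⁻ o, W o ∂μ ≠ ∞) {S : Set (ℝ × ℝ)} (hS : IsClosed S) :
    ∫⁻ v in S, liminf (fun k => gk μ Q P W k v) atTop ≤
      ENNReal.ofReal (2 * Real.pi) * ∫⁻ o in (fun o => (Q o, P o)) ⁻¹' S, W o ∂μ := by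
  have hSm : MeasurableSet S := hS.measurableSet
  have hQP : Measurable fun o => (Q o, P o) := hQ.prodMk hP
  refine (lintegral_liminf_le fun k => gk_meas μ hQ hP hW k).trans ?_
  set F : ℕ → Ω → ℝ≥0∞ := fun k o => ∫⁻ v in S, ENNReal.ofReal (kr (ek k) ((Q o, P o) - v)) with hF
  have hswap : ∀ k, ∫⁻ v in S, gk μ Q P W k v = ∫⁻ o, F k o * W o ∂μ := by
    intro k
    unfold gk
    rw [lintegral_lintegral_swap (DCB2_meas hQ hP hW k).aemeasurable]
    refine lintegral_congr fun o => ?_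
    simp only [hF]
    rw [lintegral_mul_const]
    exact ((kr_cont (ek_pos k)).measurable.comp (measurable_const.sub measurable_id)).ennreal_ofReal
  simp only [hswap]
  have hFle : ∀ k o, F k o ≤ ENNReal.ofReal (2 * Real.pi) := by
    intro k o
    simp only [hF]
    refine (setLIntegral_le_lintegral _ _).trans ?_
    rw [kr_int' (ek_pos k)]
  have hFm : ∀ k, Measurable (F k) := by
    intro k
    have h1 : Measurable fun q : Ω × (ℝ × ℝ) => ENNReal.ofReal (kr (ek k) ((Q q.1, P q.1) - q.2)) := by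
      refine ((kr_cont (ek_pos k)).measurable.comp ?_).ennreal_ofReal
      exact ((hQ.comp measurable_fst).prodMk (hP.comp measurable_fst)).sub measurable_snd
    exact h1.lintegral_prod_right'
  have hlim : ∀ o, (Q o, P o) ∉ S → Tendsto (fun k => F k o) atTop (𝓝 0) := by
    intro o ho
    obtain ⟨r, hr, hball⟩ := Metric.isOpen_iff.1 hS.isOpen_compl (Q o, P o) ho
    have hfar : ∀ v ∈ S, r ≤ |((Q o, P o) - v : ℝ × ℝ).1| ∨ r ≤ |((Q o, P o) - v : ℝ × ℝ).2| := by
      intro v hv
      by_contra hlt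
      push Not at hlt
      have : v ∈ Sᶜ := by
        apply hball
        rw [Metric.mem_ball, dist_comm, Prod.dist_eq, Real.dist_eq, Real.dist_eq]
        exact max_lt hlt.1 hlt.2
      exact this hv
    have hle : ∀ k, F k o ≤ ENNReal.ofReal (ek k ^ 2 * (1 + 1 / r ^ 2) ^ 2) * ENNReal.ofReal (2 * Real.pi) := by
      intro k
      calc F k o ≤ ∫⁻ v in S, ENNReal.ofReal (ek k ^ 2 * (1 + 1 / r ^ 2) ^ 2) *
            ENNReal.ofReal (kr 1 ((Q o, P o) - v)) := by
            refine setLIntegral_mono' hSm fun v hv => ?_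
            rw [← ENNReal.ofReal_mul (by positivity)]
            exact ENNReal.ofReal_le_ofReal (kr_far' hr (hfar v hv))
        _ ≤ ∫⁻ v, ENNReal.ofReal (ek k ^ 2 * (1 + 1 / r ^ 2) ^ 2) *
            ENNReal.ofReal (kr 1 ((Q o, P o) - v)) := setLIntegral_le_lintegral _ _
        _ = _ := by
            rw [lintegral_const_mul, kr_int' one_pos]
            exact ((kr_cont one_pos).measurable.comp (measurable_const.sub measurable_id)).ennreal_ofReal
    refine tendsto_of_tendsto_of_tendsto_of_le_of_le tendsto_const_nhds ?_ (fun k => bot_le) hle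
    have h1 : Tendsto (fun k => ek k ^ 2 * (1 + 1 / r ^ 2) ^ 2) atTop (𝓝 0) := by
      have := (ek_tend0.pow 2).mul_const ((1 + 1 / r ^ 2) ^ 2)
      simpa using this
    have h2 := ENNReal.tendsto_ofReal h1
    rw [ENNReal.ofReal_zero] at h2
    have h3 := ENNReal.Tendsto.mul_const h2 (b := ENNReal.ofReal (2 * Real.pi)) (Or.inr ENNReal.ofReal_ne_top)
    rwa [zero_mul] at h3
  refine (liminf_le_limsup).trans ?_
  have hls := limsup_lintegral_le (μ := μ) (f := fun k o => F k o * W o)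
    (fun o => ENNReal.ofReal (2 * Real.pi) * W o) (fun k => (hFm k).mul hW)
    (fun k => Eventually.of_forall fun o => mul_le_mul' (hFle k o) le_rfl) (by
      rw [lintegral_const_mul _ hW]
      exact ENNReal.mul_ne_top ENNReal.ofReal_ne_top hfin)
  refine hls.trans ?_
  rw [← lintegral_const_mul _ hW, ← lintegral_indicator (hQP hSm)]
  refine lintegral_mono fun o => ?_
  by_cases ho : (Q o, P o) ∈ S
  · rw [indicator_of_mem (by exact ho)]
    refine limsup_le_of_le (by isBoundedDefault) (Eventually.of_forall fun k => ?_)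
    exact mul_le_mul' (hFle k o) le_rfl
  · rw [indicator_of_notMem (by exact ho)]
    have h3 := ENNReal.Tendsto.mul_const (hlim o ho) (b := W o) (Or.inr (hWf o))
    rw [zero_mul] at h3
    rw [h3.limsup_eq]

/-- the set where the smoothed counting function is at least `2π` has measure at most the image
measure -/
theorem gk_le_map (hQ : Measurable Q) (hP : Measurable P) (hW : Measurable W) (hWf : ∀ o, W o ≠ ∞)
    (hfin : ∫⁻ o, W o ∂μ ≠ ∞) {S : Set (ℝ × ℝ)} (hS : MeasurableSet S) :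
    volume (S ∩ {v | ENNReal.ofReal (2 * Real.pi) ≤ liminf (fun k => gk μ Q P W k v) atTop}) ≤
      ∫⁻ o in (fun o => (Q o, P o)) ⁻¹' S, W o ∂μ := by
  have hpi := Real.pi_pos
  set G : ℝ × ℝ → ℝ≥0∞ := fun v => liminf (fun k => gk μ Q P W k v) atTop with hG
  have hGm : Measurable G := lim_meas μ hQ hP hW
  have hQP : Measurable fun o => (Q o, P o) := hQ.prodMk hP
  set ν : Measure (ℝ × ℝ) := volume.withDensity G with hν
  have hνu : ν univ ≠ ∞ := by
    rw [hν, withDensity_apply _ MeasurableSet.univ]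
    have h1 := gk_closed2 μ hQ hP hW hWf hfin (isClosed_univ (X := ℝ × ℝ))
    rw [preimage_univ, Measure.restrict_univ (μ := μ)] at h1
    exact ne_top_of_le_ne_top (ENNReal.mul_ne_top ENNReal.ofReal_ne_top hfin) h1
  have : IsFiniteMeasure ν := ⟨lt_top_iff_ne_top.2 hνu⟩
  have h2 : ν S ≤ ENNReal.ofReal (2 * Real.pi) * ∫⁻ o in (fun o => (Q o, P o)) ⁻¹' S, W o ∂μ := by
    refine le_of_forall_lt fun r hr => ?_
    obtain ⟨F, hFS, hF, hrF⟩ := hS.exists_lt_isClosed_of_ne_top (measure_ne_top ν S) hr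
    refine lt_of_lt_of_le hrF ?_
    rw [hν, withDensity_apply _ hF.measurableSet]
    refine (gk_closed2 μ hQ hP hW hWf hfin hF).trans ?_
    exact mul_le_mul' le_rfl (lintegral_mono_set (preimage_mono hFS))
  have hA : MeasurableSet {v | ENNReal.ofReal (2 * Real.pi) ≤ G v} :=
    measurableSet_le measurable_const hGm
  have h3 : ENNReal.ofReal (2 * Real.pi) * volume (S ∩ {v | ENNReal.ofReal (2 * Real.pi) ≤ G v}) ≤ ν S := by
    rw [hν, withDensity_apply _ hS, ← setLIntegral_const]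
    refine (setLIntegral_mono' (hS.inter hA) fun v hv => hv.2).trans ?_
    exact lintegral_mono_set inter_subset_left
  exact (ENNReal.mul_le_mul_iff_right (by simp [hpi]) ENNReal.ofReal_ne_top).1 (h3.trans h2)

end abs

variable {M : Type} [MetricSpace M] {γ : ℝ → M}

/-- a function that is `1` at `z` and `0` at the other points of `Z` -/
private theorem DCB2_bump (Z : Finset M) (z : M) : ∃ ψ : M → ℝ, Lip ψ ∧ (∀ x, 0 ≤ ψ x) ∧
    (∀ x, ψ x ≤ 1) ∧ ψ z = 1 ∧ ∀ y ∈ Z, y ≠ z → ψ y = 0 := by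
  classical
  obtain ⟨r, hr, hZ⟩ : ∃ r : ℝ, 0 < r ∧ ∀ y ∈ Z, y ≠ z → r ≤ dist y z := by
    by_cases h : (Z.filter fun y => y ≠ z).Nonempty
    · obtain ⟨y, hy, hm⟩ := Finset.exists_min_image (Z.filter fun y => y ≠ z) (fun y => dist y z) h
      refine ⟨dist y z, dist_pos.2 (Finset.mem_filter.1 hy).2, fun x hx hxz => ?_⟩
      exact hm x (Finset.mem_filter.2 ⟨hx, hxz⟩)
    · refine ⟨1, one_pos, fun y hy hyz => ?_⟩
      exact absurd ⟨y, Finset.mem_filter.2 ⟨hy, hyz⟩⟩ h
  refine ⟨fun x => max 0 (1 - r⁻¹ * dist x z), ?_, fun x => le_max_left _ _, fun x => ?_, ?_, ?_⟩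
  · have l1 : Lip (fun x : M => dist x z) := ⟨1, LipschitzWith.dist_left z⟩
    exact (lip_const 0).max ((lip_const 1).sub (l1.const_mul r⁻¹))
  · refine max_le zero_le_one ?_
    have : 0 ≤ r⁻¹ * dist x z := by positivity
    linarith
  · show max 0 (1 - r⁻¹ * dist z z) = 1
    rw [dist_self, mul_zero, sub_zero, max_eq_right zero_le_one]
  · intro y hy hyz
    have h1 := hZ y hy hyz
    have h2 : 1 ≤ r⁻¹ * dist y z := by
      rw [← div_eq_inv_mul, one_le_div hr]
      exact h1
    exact max_eq_left (by linarith)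

variable [CompactSpace M]

/-- a zero with sign `σ` contributes to the smoothed count of the part of sign `σ` -/
theorem zero_sign {C : Calc M γ} {X Y ζ : M → ℝ} {Z : Finset M} {s : M → ℝ} (hV : Vz C X Y Z s)
    (hζ : Lip ζ) {z : M} (hz : z ∈ Z) (hz1 : ζ z = 1) :
    ENNReal.ofReal (2 * Real.pi) ≤ liminf (fun k : ℕ => ∫⁻ o, ENNReal.ofReal
      (kr (ek k) (X (C.pt o), Y (C.pt o))) * ENNReal.ofReal (s z * (ζ (C.pt o) * C.wed X Y o)) ∂C.μ)
      atTop := by
  obtain ⟨ψ, hψ, hψ0, hψ1, hψz, hψZ⟩ := DCB2_bump Z z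
  have hs : s z = 1 ∨ s z = -1 := hV.pm z hz
  have hss : s z * s z = 1 := by
    rcases hs with h | h <;> rw [h] <;> norm_num
  have l : Lip (fun x => s z * (ζ x * ψ x)) := (hζ.mul hψ).const_mul _
  have h1 := (hV.lim _ l).comp ek_tend
  have h2 : (∑ y ∈ Z, s y * (s z * (ζ y * ψ y))) = 1 := by
    rw [Finset.sum_eq_single z]
    · rw [hz1, hψz]
      linarith
    · intro y hy hyz
      rw [hψZ y hy hyz]
      ring
    · intro h
      exact absurd hz h
  rw [h2, mul_one] at h1
  have h3 := ENNReal.tendsto_ofReal h1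
  rw [← h3.liminf_eq]
  refine liminf_le_liminf (Eventually.of_forall fun k => ?_)
  simp only [Function.comp_apply]
  set f : Om → ℝ := fun o => s z * (ζ (C.pt o) * ψ (C.pt o)) *
    (2 * ek k ^ 2 / (X (C.pt o) ^ 2 + Y (C.pt o) ^ 2 + ek k ^ 2) ^ 2) * C.wed X Y o with hf
  have h4 : ENNReal.ofReal (∫ o, f o ∂C.μ) ≤ ∫⁻ o, ENNReal.ofReal (f o) ∂C.μ := by
    by_cases hi : Integrable f C.μ
    · rw [integral_eq_lintegral_pos_part_sub_lintegral_neg_part hi]
      refine (ENNReal.ofReal_le_ofReal (sub_le_self _ ENNReal.toReal_nonneg)).trans ?_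
      exact ENNReal.ofReal_toReal_le
    · rw [integral_undef hi, ENNReal.ofReal_zero]
      exact bot_le
  refine h4.trans (lintegral_mono fun o => ?_)
  rw [← ENNReal.ofReal_mul (kr_nonneg _ _)]
  have h5 : 0 ≤ kr (ek k) (X (C.pt o), Y (C.pt o)) := kr_nonneg _ _
  have e : f o = ψ (C.pt o) * (kr (ek k) (X (C.pt o), Y (C.pt o)) *
      (s z * (ζ (C.pt o) * C.wed X Y o))) := by
    simp only [hf, kr]
    ring
  rw [e]
  have h6 := hψ1 (C.pt o)
  have h7 := hψ0 (C.pt o)
  rcases le_total 0 (kr (ek k) (X (C.pt o), Y (C.pt o)) * (s z * (ζ (C.pt o) * C.wed X Y o))) with h | h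
  · exact ENNReal.ofReal_le_ofReal (mul_le_of_le_one_left h h6)
  · rw [ENNReal.ofReal_of_nonpos (mul_nonpos_of_nonneg_of_nonpos h7 h)]
    exact bot_le

end Pool.Agent.FPM
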