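import Mathlib
import Pool.Agent.FPM.CNT
import Pool.Agent.FPM.FTW

/-
DCB3 (helper19): the boundary strip: the map `(r, t) ↦ (t, f r)` and its image measure.
-/

open MeasureTheory Set Filter Topology
open scoped ENNReal NNReal

noncomputable section

namespace Pool.Agent.FPM

open Pool.Agent.EWD

/-- the derivative of the map `(r, t) ↦ (t, f r)` -/
private def SwL (c : ℝ) : ℝ × ℝ →L[ℝ] ℝ × ℝ :=
  (ContinuousLinearMap.snd ℝ ℝ ℝ).prod (c • ContinuousLinearMap.fst ℝ ℝ ℝ)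

private theorem SwL_det (c : ℝ) : (SwL c).det = -c := by
  rw [ContinuousLinearMap.det, ← LinearMap.det_toMatrix (Module.Basis.finTwoProd ℝ), Matrix.det_fin_two]
  simp [LinearMap.toMatrix_apply, SwL]

/-- the map `(r, t) ↦ (t, f r)` -/
def Sw (f : ℝ → ℝ) (q : ℝ × ℝ) : ℝ × ℝ := (q.2, f q.1)

private theorem Sw_der {f : ℝ → ℝ} {q : ℝ × ℝ} (h : DifferentiableAt ℝ f q.1) :
    HasFDerivAt (Sw f) (SwL (deriv f q.1)) q := by
  have h1 : HasFDerivAt (fun q : ℝ × ℝ => q.2) (ContinuousLinearMap.snd ℝ ℝ ℝ) q :=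
    hasFDerivAt_snd
  have h2 : HasFDerivAt (fun q : ℝ × ℝ => f q.1) (deriv f q.1 • ContinuousLinearMap.fst ℝ ℝ ℝ) q :=
    h.hasDerivAt.comp_hasFDerivAt q hasFDerivAt_fst
  exact h1.prodMk h2

theorem Sw_area {f : ℝ → ℝ} {A : Set (ℝ × ℝ)} (hA : MeasurableSet A)
    (hd : ∀ q ∈ A, DifferentiableAt ℝ f q.1) :
    volume (Sw f '' A) ≤ ∫⁻ q in A, ENNReal.ofReal |deriv f q.1| := by
  have h := addHaar_image_le_lintegral_abs_det_fderiv (volume : Measure (ℝ × ℝ)) hA
    (f := Sw f) (f' := fun q => SwL (deriv f q.1)) (fun q hq => (Sw_der (hd q hq)).hasFDerivWithinAt)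
  simp only [SwL_det, abs_neg] at h
  exact h

/-- Sard in one variable -/
theorem sard_one {f : ℝ → ℝ} {K : ℝ≥0} (hf : LipschitzWith K f) :
    ∀ᵐ a : ℝ, ∀ x : ℝ, f x = a → DifferentiableAt ℝ f x ∧ deriv f x ≠ 0 := by
  have h1 : volume (f '' {x | ¬ DifferentiableAt ℝ f x}) = 0 := by
    have ha : volume {x | ¬ DifferentiableAt ℝ f x} = 0 := hf.ae_differentiableAt
    have hb := hf.hausdorffMeasure_image_le (d := 1) zero_le_one {x | ¬ DifferentiableAt ℝ f x}
    rw [hausdorffMeasure_real, ha, mul_zero] at hb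
    exact le_antisymm hb (zero_le)
  have h2 : volume (f '' {x | DifferentiableAt ℝ f x ∧ deriv f x = 0}) = 0 := by
    refine addHaar_image_eq_zero_of_det_fderivWithin_eq_zero (f' := fun _ => (0 : ℝ →L[ℝ] ℝ)) volume ?_ ?_
    · rintro x ⟨hx, hx0⟩
      have := hx.hasDerivAt.hasFDerivAt.hasFDerivWithinAt (s := {x | DifferentiableAt ℝ f x ∧ deriv f x = 0})
      rw [hx0] at this
      have h0 : (ContinuousLinearMap.toSpanSingleton ℝ (0 : ℝ)) = 0 := by
        ext
        simp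
      rw [h0] at this
      exact this
    · intro x _
      rw [ContinuousLinearMap.det]
      simp
  have h3 : volume (f '' {x | ¬ DifferentiableAt ℝ f x} ∪ f '' {x | DifferentiableAt ℝ f x ∧ deriv f x = 0}) = 0 :=
    measure_union_null h1 h2
  rw [ae_iff]
  refine measure_mono_null ?_ h3
  intro a ha
  simp only [Set.mem_ofPred_eq, not_forall] at ha
  obtain ⟨x, hx, hn⟩ := ha
  by_cases hd : DifferentiableAt ℝ f x
  · right
    refine ⟨x, ⟨hd, ?_⟩, hx⟩
    by_contra h0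
    exact hn ⟨hd, h0⟩
  · left
    exact ⟨x, hd, hx⟩

theorem sard_strip {f : ℝ → ℝ} {K : ℝ≥0} (hf : LipschitzWith K f) :
    ∀ᵐ v : ℝ × ℝ, ∀ x : ℝ, f x = v.2 → DifferentiableAt ℝ f x ∧ deriv f x ≠ 0 := by
  have h := sard_one hf
  rw [Measure.volume_eq_prod]
  exact Measure.quasiMeasurePreserving_snd.ae h

/-- the length of the part of `(a, b)` below `x` -/
theorem vol_bnd {a b : ℝ} (hab : a < b) (x : ℝ) :
    volume (Ioo a b ∩ Iio x) = ENNReal.ofReal ((b - a) * bnd a b x) := by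
  rw [Ioo_inter_Iio, Real.volume_Ioo]
  rcases le_or_gt x a with h | h
  · rw [bnd_lo hab h, mul_zero, ENNReal.ofReal_zero]
    exact ENNReal.ofReal_of_nonpos (by linarith [min_le_right b x])
  · congr 1
    rcases le_or_gt b x with h' | h'
    · rw [bnd_hi hab h', min_eq_left h', mul_one]
    · rw [bnd_mid hab h.le h'.le, min_eq_right h'.le]
      have : b - a ≠ 0 := by linarith
      field_simp

end Pool.Agent.FPM
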