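import Mathlib
import Pool.Agent.FPM.DCB2
import Pool.Agent.FPM.DCB3

/-
DCB4 (helper19): double covering, abstract form. `Q, P` are the level function and the potential on the
surface, `J` the signed density, `f, q` the potential and the level function on the boundary curve, `B` the
part of the boundary curve in the piece.
-/

open MeasureTheory Set Filter Topology
open scoped ENNReal NNReal

noncomputable section

namespace Pool.Agent.FPM

open Pool.Agent.EWD

variable {Ω : Type} [MeasurableSpace Ω]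

/-- the data -/
structure DcbDat (μ : Measure Ω) (Q P J : Ω → ℝ) (f q : ℝ → ℝ) (B : Set ℝ) (c d σ : ℝ) : Prop where
  hQ : Measurable Q
  hP : Measurable P
  hJ : Measurable J
  iJ : Integrable J μ
  lf : LipschitzWith 1 f
  mq : Measurable q
  mB : MeasurableSet B
  fB : volume B ≠ ∞
  cd : c < d
  ss : σ = 1 ∨ σ = -1
  rect : ∀ a b a' b', c ≤ a → a < b → b ≤ d → a' < b' →
    ∫ o, (Ioo a b ×ˢ Ioo a' b').indicator (fun _ => J o) ((Q o, P o) : ℝ × ℝ) ∂μ =
      - σ * ∫ r in B, (Ioo a' b').indicator (fun _ => ((b - a) * bnd a b (q r)) * deriv f r) (f r)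

/-- the boundary strip -/
def Sg (q : ℝ → ℝ) (B : Set ℝ) (c d : ℝ) : Set (ℝ × ℝ) :=
  {z | z.1 ∈ B ∧ (c < z.2 ∧ z.2 < d) ∧ z.2 < q z.1}

/-- the image measure of the surface part -/
def mG (μ : Measure Ω) (Q P J : Ω → ℝ) (s : ℝ) : Measure (ℝ × ℝ) :=
  (μ.withDensity fun o => ENNReal.ofReal (s * J o)).map fun o => (Q o, P o)

/-- the image measure of the boundary part -/
def mC (f q : ℝ → ℝ) (B : Set ℝ) (c d s : ℝ) : Measure (ℝ × ℝ) :=
  (((volume : Measure (ℝ × ℝ)).restrict (Sg q B c d)).withDensity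
    fun z => ENNReal.ofReal (s * deriv f z.1)).map (Sw f)

namespace DcbDat

variable {μ : Measure Ω} {Q P J : Ω → ℝ} {f q : ℝ → ℝ} {B : Set ℝ} {c d σ : ℝ}

theorem mSw (hf : LipschitzWith 1 f) : Measurable (Sw f) :=
  measurable_snd.prodMk (hf.continuous.measurable.comp measurable_fst)

theorem mSg (mq : Measurable q) (mB : MeasurableSet B) : MeasurableSet (Sg q B c d) := by
  have h1 : MeasurableSet {z : ℝ × ℝ | z.1 ∈ B} := measurable_fst mB
  have h2 : MeasurableSet {z : ℝ × ℝ | c < z.2 ∧ z.2 < d} := measurable_snd measurableSet_Ioo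
  have h3 : MeasurableSet {z : ℝ × ℝ | z.2 < q z.1} :=
    measurableSet_lt measurable_snd (mq.comp measurable_fst)
  exact h1.inter (h2.inter h3)

theorem vSg (fB : volume B ≠ ∞) : volume (Sg q B c d) ≠ ∞ := by
  have h : Sg q B c d ⊆ B ×ˢ Ioo c d := fun z hz => ⟨hz.1, hz.2.1⟩
  refine ne_top_of_le_ne_top ?_ (measure_mono h)
  rw [Measure.volume_eq_prod, Measure.prod_prod, Real.volume_Ioo]
  exact ENNReal.mul_ne_top fB ENNReal.ofReal_ne_top

theorem mG_apply (h : DcbDat μ Q P J f q B c d σ) (s : ℝ) {S : Set (ℝ × ℝ)} (hS : MeasurableSet S) :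
    mG μ Q P J s S = ∫⁻ o in (fun o => (Q o, P o)) ⁻¹' S, ENNReal.ofReal (s * J o) ∂μ := by
  have hm : Measurable fun o => (Q o, P o) := h.hQ.prodMk h.hP
  rw [mG, Measure.map_apply hm hS, withDensity_apply _ (hm hS)]

theorem mC_apply (h : DcbDat μ Q P J f q B c d σ) (s : ℝ) {S : Set (ℝ × ℝ)} (hS : MeasurableSet S) :
    mC f q B c d s S = ∫⁻ z in Sw f ⁻¹' S ∩ Sg q B c d, ENNReal.ofReal (s * deriv f z.1) := by
  rw [mC, Measure.map_apply (mSw h.lf) hS, withDensity_apply _ (mSw h.lf hS),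
    Measure.restrict_restrict (mSw h.lf hS)]

theorem mG_fin (h : DcbDat μ Q P J f q B c d σ) (s : ℝ) : mG μ Q P J s univ ≠ ∞ := by
  rw [h.mG_apply s MeasurableSet.univ, preimage_univ, Measure.restrict_univ]
  have := (h.iJ.const_mul s).2
  rw [hasFiniteIntegral_iff_enorm] at this
  refine ne_top_of_le_ne_top this.ne (lintegral_mono fun o => ?_)
  rw [← ofReal_norm]
  exact ENNReal.ofReal_le_ofReal (le_abs_self _)

theorem abs_deriv_le (lf : LipschitzWith 1 f) (r : ℝ) : |deriv f r| ≤ 1 := by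
  have := norm_deriv_le_of_lipschitz (x₀ := r) lf
  rwa [Real.norm_eq_abs, NNReal.coe_one] at this

theorem mC_fin (h : DcbDat μ Q P J f q B c d σ) (s : ℝ) : mC f q B c d s univ ≠ ∞ := by
  rw [h.mC_apply s MeasurableSet.univ, preimage_univ, univ_inter]
  have h1 : ∫⁻ z in Sg q B c d, ENNReal.ofReal (s * deriv f z.1) ≤
      ∫⁻ _z in Sg q B c d, ENNReal.ofReal |s| := by
    refine lintegral_mono fun z => ENNReal.ofReal_le_ofReal ?_
    refine (le_abs_self _).trans ?_
    rw [abs_mul]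
    exact mul_le_of_le_one_right (abs_nonneg _) (abs_deriv_le h.lf _)
  refine ne_top_of_le_ne_top ?_ h1
  rw [setLIntegral_const]
  exact ENNReal.mul_ne_top ENNReal.ofReal_ne_top (vSg h.fB)

/-- the total signed measure of a rectangle -/
theorem rect_eq (h : DcbDat μ Q P J f q B c d σ) {a b a' b' : ℝ} (hca : c ≤ a) (hab : a < b)
    (hbd : b ≤ d) (hab' : a' < b') :
    mG μ Q P J 1 (Ioo a b ×ˢ Ioo a' b') + mC f q B c d σ (Ioo a b ×ˢ Ioo a' b') =
      mG μ Q P J (-1) (Ioo a b ×ˢ Ioo a' b') + mC f q B c d (-σ) (Ioo a b ×ˢ Ioo a' b') := by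
  set R : Set (ℝ × ℝ) := Ioo a b ×ˢ Ioo a' b' with hR
  have mR : MeasurableSet R := measurableSet_Ioo.prod measurableSet_Ioo
  have hm : Measurable fun o => (Q o, P o) := h.hQ.prodMk h.hP
  have f1 : mG μ Q P J 1 R ≠ ∞ := ne_top_of_le_ne_top (h.mG_fin 1) (measure_mono (subset_univ _))
  have f2 : mG μ Q P J (-1) R ≠ ∞ := ne_top_of_le_ne_top (h.mG_fin (-1)) (measure_mono (subset_univ _))
  have f3 : mC f q B c d σ R ≠ ∞ := ne_top_of_le_ne_top (h.mC_fin σ) (measure_mono (subset_univ _))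
  have f4 : mC f q B c d (-σ) R ≠ ∞ := ne_top_of_le_ne_top (h.mC_fin (-σ)) (measure_mono (subset_univ _))
  -- surface part
  have e1 : (mG μ Q P J 1 R).toReal - (mG μ Q P J (-1) R).toReal =
      ∫ o, R.indicator (fun _ => J o) ((Q o, P o) : ℝ × ℝ) ∂μ := by
    have h1 : (fun o => R.indicator (fun _ => J o) ((Q o, P o) : ℝ × ℝ)) =
        ((fun o => (Q o, P o)) ⁻¹' R).indicator J := by
      funext o
      by_cases ho : (Q o, P o) ∈ R
      · rw [indicator_of_mem ho, indicator_of_mem (by exact ho)]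
      · rw [indicator_of_notMem ho, indicator_of_notMem (by exact ho)]
    rw [h1, integral_indicator (hm mR), h.mG_apply 1 mR, h.mG_apply (-1) mR,
      integral_eq_lintegral_pos_part_sub_lintegral_neg_part h.iJ.restrict]
    simp only [one_mul, neg_one_mul]
  -- boundary part
  have iF : Integrable ((Sw f ⁻¹' R ∩ Sg q B c d).indicator fun z : ℝ × ℝ => σ * deriv f z.1)
      (volume : Measure (ℝ × ℝ)) := by
    have m1 : MeasurableSet (Sw f ⁻¹' R ∩ Sg q B c d) := (mSw h.lf mR).inter (mSg h.mq h.mB)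
    rw [integrable_indicator_iff m1]
    have v1 : volume (Sw f ⁻¹' R ∩ Sg q B c d) ≠ ∞ :=
      ne_top_of_le_ne_top (vSg h.fB) (measure_mono inter_subset_right)
    refine Measure.integrableOn_of_bounded (M := |σ|) v1 ?_ ?_
    · exact ((measurable_deriv f).comp measurable_fst).const_mul σ |>.aestronglyMeasurable
    · refine Eventually.of_forall fun z => ?_
      rw [Real.norm_eq_abs, abs_mul]
      exact mul_le_of_le_one_right (abs_nonneg _) (abs_deriv_le h.lf _)
  have m1 : MeasurableSet (Sw f ⁻¹' R ∩ Sg q B c d) := (mSw h.lf mR).inter (mSg h.mq h.mB)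
  have e2 : (mC f q B c d σ R).toReal - (mC f q B c d (-σ) R).toReal =
      ∫ z, (Sw f ⁻¹' R ∩ Sg q B c d).indicator (fun z : ℝ × ℝ => σ * deriv f z.1) z := by
    rw [integral_indicator m1, h.mC_apply σ mR, h.mC_apply (-σ) mR,
      integral_eq_lintegral_pos_part_sub_lintegral_neg_part ((integrable_indicator_iff m1).1 iF)]
    simp only [neg_mul]
  have e3 : ∫ z, (Sw f ⁻¹' R ∩ Sg q B c d).indicator (fun z : ℝ × ℝ => σ * deriv f z.1) z =
      σ * ∫ r in B, (Ioo a' b').indicator (fun _ => ((b - a) * bnd a b (q r)) * deriv f r) (f r) := by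
    rw [Measure.volume_eq_prod] at iF ⊢
    rw [integral_prod _ iF, ← integral_const_mul, ← integral_indicator h.mB]
    refine integral_congr_ae (Eventually.of_forall fun r => ?_)
    simp only
    by_cases hr : r ∈ B ∧ f r ∈ Ioo a' b'
    · rw [indicator_of_mem hr.1, indicator_of_mem hr.2]
      have e4 : (fun t : ℝ => (Sw f ⁻¹' R ∩ Sg q B c d).indicator (fun z : ℝ × ℝ => σ * deriv f z.1)
          (r, t)) = (Ioo a b ∩ Iio (q r)).indicator fun _ => σ * deriv f r := by
        funext t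
        by_cases ht : t ∈ Ioo a b ∩ Iio (q r)
        · have : (r, t) ∈ Sw f ⁻¹' R ∩ Sg q B c d :=
            ⟨⟨ht.1, hr.2⟩, hr.1, ⟨lt_of_le_of_lt hca ht.1.1, lt_of_lt_of_le ht.1.2 hbd⟩, ht.2⟩
          rw [indicator_of_mem this, indicator_of_mem ht]
        · have : (r, t) ∉ Sw f ⁻¹' R ∩ Sg q B c d := fun h' => ht ⟨h'.1.1, h'.2.2.2⟩
          rw [indicator_of_notMem this, indicator_of_notMem ht]
      rw [e4, integral_indicator (measurableSet_Ioo.inter measurableSet_Iio), setIntegral_const,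
        Measure.real, vol_bnd hab, ENNReal.toReal_ofReal (mul_nonneg (by linarith) (bnd_nonneg _ _ _)),
        smul_eq_mul]
      ring
    · have e4 : (fun t : ℝ => (Sw f ⁻¹' R ∩ Sg q B c d).indicator (fun z : ℝ × ℝ => σ * deriv f z.1)
          (r, t)) = fun _ => 0 := by
        funext t
        refine indicator_of_notMem (fun h' => hr ⟨h'.2.1, h'.1.2⟩) _
      rw [e4, integral_zero]
      by_cases hB : r ∈ B
      · have h2 : f r ∉ Ioo a' b' := fun h' => hr ⟨hB, h'⟩
        rw [indicator_of_mem hB, indicator_of_notMem h2, mul_zero]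
      · rw [indicator_of_notMem hB]
  have e5 := h.rect a b a' b' hca hab hbd hab'
  have e6 : (mG μ Q P J 1 R).toReal + (mC f q B c d σ R).toReal =
      (mG μ Q P J (-1) R).toReal + (mC f q B c d (-σ) R).toReal := by
    rw [e3] at e2
    rw [e5] at e1
    linarith
  rw [← ENNReal.toReal_eq_toReal_iff' (ENNReal.add_ne_top.2 ⟨f1, f3⟩) (ENNReal.add_ne_top.2 ⟨f2, f4⟩),
    ENNReal.toReal_add f1 f3, ENNReal.toReal_add f2 f4]
  exact e6

end DcbDat

end Pool.Agent.FPM
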