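import Mathlib
import Pool.Agent.FPM.DCB4

/-
DCB5 (helper19): double covering, abstract form: every value is covered twice.
-/

open MeasureTheory Set Filter Topology
open scoped ENNReal NNReal

noncomputable section

namespace Pool.Agent.FPM

open Pool.Agent.EWD

/-- two sets whose parts have measure at most `ν` -/
theorem hull_union {ν : Measure (ℝ × ℝ)} {T : Set (ℝ × ℝ)} {E₁ E₂ : Set (ℝ × ℝ)}
    (h1 : ∀ S, MeasurableSet S → S ⊆ T → volume (S ∩ E₁) ≤ ν S)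
    (h2 : ∀ S, MeasurableSet S → S ⊆ T → volume (S ∩ E₂) ≤ ν S) :
    ∀ S, MeasurableSet S → S ⊆ T → volume (S ∩ (E₁ ∪ E₂)) ≤ ν S := by
  intro S hS hST
  set E := toMeasurable volume E₁ with hE
  have mE : MeasurableSet E := measurableSet_toMeasurable _ _
  have h3 : volume (S ∩ E) = volume (S ∩ E ∩ E₁) := by
    have e1 : volume (E ∩ S) = volume (E₁ ∩ S) := Measure.measure_toMeasurable_inter_of_sFinite hS E₁
    rw [inter_comm S E, e1]
    congr 1
    ext x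
    simp only [mem_inter_iff]
    constructor
    · rintro ⟨ha, hb⟩
      exact ⟨⟨subset_toMeasurable volume E₁ ha, hb⟩, ha⟩
    · rintro ⟨⟨-, hb⟩, ha⟩
      exact ⟨ha, hb⟩
  have h4 : S ∩ (E₁ ∪ E₂) ⊆ (S ∩ E) ∪ ((S \ E) ∩ E₂) := by
    rintro x ⟨hx, hx'⟩
    by_cases hxE : x ∈ E
    · exact Or.inl ⟨hx, hxE⟩
    · rcases hx' with h | h
      · exact absurd (subset_toMeasurable volume E₁ h) hxE
      · exact Or.inr ⟨⟨hx, hxE⟩, h⟩
  calc volume (S ∩ (E₁ ∪ E₂)) ≤ volume (S ∩ E) + volume ((S \ E) ∩ E₂) :=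
        (measure_mono h4).trans (measure_union_le _ _)
    _ ≤ ν (S ∩ E) + ν (S \ E) := by
        refine add_le_add ?_ (h2 _ (hS.diff mE) (sdiff_subset.trans hST))
        rw [h3]
        exact h1 _ (hS.inter mE) (inter_subset_left.trans hST)
    _ = ν S := measure_inter_add_sdiff S mE

private theorem piC : IsPiSystem (image2 (· ×ˢ ·) (⋃ (a : ℚ) (b : ℚ) (_ : a < b), {Ioo (a : ℝ) (b : ℝ)})
    (⋃ (a : ℚ) (b : ℚ) (_ : a < b), {Ioo (a : ℝ) (b : ℝ)}) : Set (Set (ℝ × ℝ))) :=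
  Real.isPiSystem_Ioo_rat.prod Real.isPiSystem_Ioo_rat

private theorem span1 : IsCountablySpanning (⋃ (a : ℚ) (b : ℚ) (_ : a < b), {Ioo (a : ℝ) (b : ℝ)}) := by
  refine ⟨fun n => Ioo (((-(n + 1 : ℕ) : ℚ) : ℝ)) (((n + 1 : ℕ) : ℚ) : ℝ), fun n => ?_, ?_⟩
  · simp only [mem_iUnion, mem_singleton_iff]
    refine ⟨(-(n + 1 : ℕ) : ℚ), ((n + 1 : ℕ) : ℚ), ?_, rfl⟩
    have : (0 : ℚ) < ((n + 1 : ℕ) : ℚ) := by positivity
    linarith
  · rw [iUnion_eq_univ_iff]
    intro x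
    obtain ⟨n, hn⟩ := exists_nat_gt |x|
    refine ⟨n, ?_⟩
    rw [abs_lt] at hn
    push_cast
    constructor <;> linarith [hn.1, hn.2]

private theorem genC : (Prod.instMeasurableSpace : MeasurableSpace (ℝ × ℝ)) = MeasurableSpace.generateFrom
    (image2 (· ×ˢ ·) (⋃ (a : ℚ) (b : ℚ) (_ : a < b), {Ioo (a : ℝ) (b : ℝ)})
    (⋃ (a : ℚ) (b : ℚ) (_ : a < b), {Ioo (a : ℝ) (b : ℝ)})) := by
  refine (generateFrom_eq_prod ?_ ?_ span1 span1).symm
  · rw [← Real.borel_eq_generateFrom_Ioo_rat]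
    exact (BorelSpace.measurable_eq (α := ℝ)).symm
  · rw [← Real.borel_eq_generateFrom_Ioo_rat]
    exact (BorelSpace.measurable_eq (α := ℝ)).symm

variable {Ω : Type} [MeasurableSpace Ω]

namespace DcbDat

variable {μ : Measure Ω} {Q P J : Ω → ℝ} {f q : ℝ → ℝ} {B : Set ℝ} {c d σ : ℝ}

/-- the two image measures agree on the strip -/
theorem meas_eq (h : DcbDat μ Q P J f q B c d σ) {S : Set (ℝ × ℝ)} (hS : MeasurableSet S)
    (hST : S ⊆ Ioo c d ×ˢ univ) :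
    (mG μ Q P J 1 + mC f q B c d σ) S = (mG μ Q P J (-1) + mC f q B c d (-σ)) S := by
  set T : Set (ℝ × ℝ) := Ioo c d ×ˢ univ with hT
  have mT : MeasurableSet T := measurableSet_Ioo.prod MeasurableSet.univ
  have fin : ∀ (s : ℝ) (S : Set (ℝ × ℝ)), (mG μ Q P J s + mC f q B c d (s * σ)) S ≠ ∞ := by
    intro s S
    refine ne_top_of_le_ne_top ?_ (measure_mono (subset_univ S))
    rw [Measure.add_apply]
    exact ENNReal.add_ne_top.2 ⟨h.mG_fin s, h.mC_fin (s * σ)⟩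
  have key : (mG μ Q P J 1 + mC f q B c d σ).restrict T =
      (mG μ Q P J (-1) + mC f q B c d (-σ)).restrict T := by
    refine Measure.ext_of_generateFrom_of_iUnion _
      (fun n : ℕ => Ioo (((-(n + 1 : ℕ) : ℚ) : ℝ)) (((n + 1 : ℕ) : ℚ) : ℝ) ×ˢ
        Ioo (((-(n + 1 : ℕ) : ℚ) : ℝ)) (((n + 1 : ℕ) : ℚ) : ℝ)) genC piC ?_ ?_ ?_ ?_
    · rw [iUnion_eq_univ_iff]
      rintro ⟨x, y⟩
      obtain ⟨n, hn⟩ := exists_nat_gt (max |x| |y|)
      have h1 := (le_max_left |x| |y|).trans_lt hn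
      have h2 := (le_max_right |x| |y|).trans_lt hn
      rw [abs_lt] at h1 h2
      refine ⟨n, ?_⟩
      push_cast
      exact ⟨⟨by linarith [h1.1], by linarith [h1.2]⟩, ⟨by linarith [h2.1], by linarith [h2.2]⟩⟩
    · intro n
      have : Ioo (((-(n + 1 : ℕ) : ℚ) : ℝ)) (((n + 1 : ℕ) : ℚ) : ℝ) ∈
          (⋃ (a : ℚ) (b : ℚ) (_ : a < b), {Ioo (a : ℝ) (b : ℝ)}) := by
        simp only [mem_iUnion, mem_singleton_iff]
        refine ⟨(-(n + 1 : ℕ) : ℚ), ((n + 1 : ℕ) : ℚ), ?_, rfl⟩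
        have : (0 : ℚ) < ((n + 1 : ℕ) : ℚ) := by positivity
        linarith
      exact ⟨_, this, _, this, rfl⟩
    · intro n
      have := fin 1 (T ∩ univ)
      rw [one_mul] at this
      refine ne_top_of_le_ne_top (fin 1 univ) ?_
      rw [one_mul]
      exact (Measure.restrict_apply_le _ _).trans (measure_mono (subset_univ _))
    · rintro S ⟨S₁, hS₁, S₂, hS₂, rfl⟩
      simp only [mem_iUnion, mem_singleton_iff] at hS₁ hS₂
      obtain ⟨a, b, hab, rfl⟩ := hS₁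
      obtain ⟨a', b', hab', rfl⟩ := hS₂
      have mR : MeasurableSet (Ioo (a : ℝ) b ×ˢ Ioo (a' : ℝ) b') :=
        measurableSet_Ioo.prod measurableSet_Ioo
      rw [Measure.restrict_apply mR, Measure.restrict_apply mR]
      have e : Ioo (a : ℝ) b ×ˢ Ioo (a' : ℝ) b' ∩ T =
          Ioo (max (a : ℝ) c) (min (b : ℝ) d) ×ˢ Ioo (a' : ℝ) b' := by
        rw [hT, prod_inter_prod, Ioo_inter_Ioo, inter_univ]
      rw [e]
      by_cases hlt : max (a : ℝ) c < min (b : ℝ) d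
      · rw [Measure.add_apply, Measure.add_apply]
        exact h.rect_eq (le_max_right _ _) hlt (min_le_right _ _) (by exact_mod_cast hab')
      · rw [Ioo_eq_empty hlt, empty_prod, measure_empty, measure_empty]
  have h1 := congrArg (fun m : Measure (ℝ × ℝ) => m S) key
  simp only [Measure.restrict_apply hS] at h1
  rwa [inter_eq_left.2 hST] at h1

/-- every value is covered twice -/
theorem cover [SFinite μ] (h : DcbDat μ Q P J f q B c d σ) {G : Set (ℝ × ℝ)}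
    (hG : ∀ᵐ v : ℝ × ℝ, v ∈ G →
      ENNReal.ofReal (2 * Real.pi) ≤ liminf (fun k => gk μ Q P (fun o => ENNReal.ofReal (1 * J o)) k v) atTop ∨
      ENNReal.ofReal (2 * Real.pi) ≤ liminf (fun k => gk μ Q P (fun o => ENNReal.ofReal (-1 * J o)) k v) atTop)
    {S : Set (ℝ × ℝ)} (hS : MeasurableSet S) (hST : S ⊆ Ioo c d ×ˢ univ) :
    2 * volume (S ∩ (G ∪ Sw f '' Sg q B c d)) ≤
      ∫⁻ o in (fun o => (Q o, P o)) ⁻¹' S, ENNReal.ofReal |J o| ∂μ +
        volume (Sw f ⁻¹' S ∩ Sg q B c d) := by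
  set T : Set (ℝ × ℝ) := Ioo c d ×ˢ univ with hT
  set ν : Measure (ℝ × ℝ) := mG μ Q P J 1 + mC f q B c d σ with hν
  set ν' : Measure (ℝ × ℝ) := mG μ Q P J (-1) + mC f q B c d (-σ) with hν'
  have heq : ∀ S, MeasurableSet S → S ⊆ T → ν S = ν' S := fun S hS hST => h.meas_eq hS hST
  set N : Set (ℝ × ℝ) := {z | DifferentiableAt ℝ f z.1} with hN
  have mN : MeasurableSet N := measurable_fst (measurableSet_of_differentiableAt ℝ f)
  -- surface parts
  have gs : ∀ s : ℝ, ∀ S, MeasurableSet S →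
      volume (S ∩ {v | ENNReal.ofReal (2 * Real.pi) ≤
        liminf (fun k => gk μ Q P (fun o => ENNReal.ofReal (s * J o)) k v) atTop}) ≤ mG μ Q P J s S := by
    intro s S hS
    rw [h.mG_apply s hS]
    refine gk_le_map μ h.hQ h.hP (h.hJ.const_mul s).ennreal_ofReal (fun o => ENNReal.ofReal_ne_top) ?_ hS
    have := h.mG_fin s
    rwa [h.mG_apply s MeasurableSet.univ, preimage_univ, Measure.restrict_univ] at this
  -- boundary parts
  have cs : ∀ s : ℝ, |s| = 1 → ∀ S, MeasurableSet S →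
      volume (S ∩ Sw f '' (Sg q B c d ∩ (N ∩ {z | 0 < s * deriv f z.1}))) ≤ mC f q B c d s S := by
    intro s hs S hS
    rw [h.mC_apply s hS]
    have mD : MeasurableSet {z : ℝ × ℝ | 0 < s * deriv f z.1} :=
      measurableSet_lt measurable_const (((measurable_deriv f).comp measurable_fst).const_mul s)
    set A : Set (ℝ × ℝ) := Sw f ⁻¹' S ∩ Sg q B c d ∩ (N ∩ {z | 0 < s * deriv f z.1}) with hA
    have mA : MeasurableSet A := ((mSw h.lf hS).inter (mSg h.mq h.mB)).inter (mN.inter mD)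
    have h1 : S ∩ Sw f '' (Sg q B c d ∩ (N ∩ {z | 0 < s * deriv f z.1})) ⊆ Sw f '' A := by
      rintro v ⟨hv, z, hz, rfl⟩
      exact ⟨z, ⟨⟨hv, hz.1⟩, hz.2⟩, rfl⟩
    refine (measure_mono h1).trans ((Sw_area mA fun z hz => hz.2.1).trans ?_)
    have h2 : ∫⁻ z in A, ENNReal.ofReal |deriv f z.1| = ∫⁻ z in A, ENNReal.ofReal (s * deriv f z.1) := by
      refine setLIntegral_congr_fun mA fun z hz => ?_
      have h3 : 0 < s * deriv f z.1 := hz.2.2
      rw [← abs_of_pos h3, abs_mul, hs, one_mul]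
    rw [h2]
    exact lintegral_mono_set inter_subset_left
  have hσ : |σ| = 1 := by
    rcases h.ss with h1 | h1 <;> rw [h1] <;> norm_num
  set E₁ : Set (ℝ × ℝ) := {v | ENNReal.ofReal (2 * Real.pi) ≤
        liminf (fun k => gk μ Q P (fun o => ENNReal.ofReal (1 * J o)) k v) atTop} with hE₁
  set E₂ : Set (ℝ × ℝ) := Sw f '' (Sg q B c d ∩ (N ∩ {z | 0 < σ * deriv f z.1})) with hE₂
  set E₃ : Set (ℝ × ℝ) := {v | ENNReal.ofReal (2 * Real.pi) ≤
        liminf (fun k => gk μ Q P (fun o => ENNReal.ofReal (-1 * J o)) k v) atTop} with hE₃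
  set E₄ : Set (ℝ × ℝ) := Sw f '' (Sg q B c d ∩ (N ∩ {z | 0 < -σ * deriv f z.1})) with hE₄
  have k1 : ∀ S, MeasurableSet S → S ⊆ T → volume (S ∩ E₁) ≤ ν S := fun S hS _ =>
    (gs 1 S hS).trans (Measure.le_iff'.1 (Measure.le_add_right le_rfl) S)
  have k2 : ∀ S, MeasurableSet S → S ⊆ T → volume (S ∩ E₂) ≤ ν S := fun S hS _ =>
    (cs σ hσ S hS).trans (Measure.le_iff'.1 (Measure.le_add_left le_rfl) S)
  have k3 : ∀ S, MeasurableSet S → S ⊆ T → volume (S ∩ E₃) ≤ ν S := fun S hS hST => by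
    rw [heq S hS hST]
    exact (gs (-1) S hS).trans (Measure.le_iff'.1 (Measure.le_add_right le_rfl) S)
  have k4 : ∀ S, MeasurableSet S → S ⊆ T → volume (S ∩ E₄) ≤ ν S := fun S hS hST => by
    rw [heq S hS hST]
    refine (cs (-σ) (by rw [abs_neg, hσ]) S hS).trans (Measure.le_iff'.1 (Measure.le_add_left le_rfl) S)
  have k := hull_union (hull_union (hull_union k1 k2) k3) k4
  have hsub : (S ∩ (G ∪ Sw f '' Sg q B c d) : Set (ℝ × ℝ)) ≤ᵐ[volume]
      (S ∩ (E₁ ∪ E₂ ∪ E₃ ∪ E₄) : Set (ℝ × ℝ)) := by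
    filter_upwards [hG, sard_strip h.lf] with v h1 h2 hv
    refine ⟨hv.1, ?_⟩
    rcases hv.2 with h3 | ⟨z, hz, hzv⟩
    · rcases h1 h3 with h4 | h4
      · exact Or.inl (Or.inl (Or.inl h4))
      · exact Or.inl (Or.inr h4)
    · have h5 : f z.1 = v.2 := by rw [← hzv]; rfl
      obtain ⟨h6, h7⟩ := h2 z.1 h5
      rcases lt_or_gt_of_ne (mul_ne_zero (by rw [← abs_ne_zero, hσ]; exact one_ne_zero) h7 :
        σ * deriv f z.1 ≠ 0) with h8 | h8
      · refine Or.inr ⟨z, ⟨hz, h6, ?_⟩, hzv⟩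
        show 0 < -σ * deriv f z.1
        linarith
      · exact Or.inl (Or.inl (Or.inr ⟨z, ⟨hz, h6, h8⟩, hzv⟩))
  have e1 : volume (S ∩ (G ∪ Sw f '' Sg q B c d)) ≤ ν S := (measure_mono_ae hsub).trans (k S hS hST)
  have e2 : 2 * volume (S ∩ (G ∪ Sw f '' Sg q B c d)) ≤ ν S + ν' S := by
    rw [← heq S hS hST, ← two_mul]
    exact mul_le_mul' le_rfl e1
  have e3 : ν S + ν' S = ∫⁻ o in (fun o => (Q o, P o)) ⁻¹' S, ENNReal.ofReal |J o| ∂μ +
      ∫⁻ z in Sw f ⁻¹' S ∩ Sg q B c d, ENNReal.ofReal |deriv f z.1| := by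
    rw [hν, hν', Measure.add_apply, Measure.add_apply, h.mG_apply 1 hS, h.mG_apply (-1) hS,
      h.mC_apply σ hS, h.mC_apply (-σ) hS]
    have a1 : ∀ x : ℝ, ENNReal.ofReal (1 * x) + ENNReal.ofReal (-1 * x) = ENNReal.ofReal |x| := by
      intro x
      rcases le_total 0 x with hx | hx
      · rw [ENNReal.ofReal_of_nonpos (by linarith : -1 * x ≤ 0), add_zero, abs_of_nonneg hx, one_mul]
      · rw [ENNReal.ofReal_of_nonpos (by linarith : 1 * x ≤ 0), zero_add, abs_of_nonpos hx, neg_one_mul]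
    have a2 : ∀ x : ℝ, ENNReal.ofReal (σ * x) + ENNReal.ofReal (-σ * x) = ENNReal.ofReal |x| := by
      intro x
      rcases h.ss with h1 | h1
      · rw [h1]; exact a1 x
      · rw [h1, neg_neg, add_comm]; exact a1 x
    have b1 : ∫⁻ o in (fun o => (Q o, P o)) ⁻¹' S, ENNReal.ofReal (1 * J o) ∂μ +
        ∫⁻ o in (fun o => (Q o, P o)) ⁻¹' S, ENNReal.ofReal (-1 * J o) ∂μ =
        ∫⁻ o in (fun o => (Q o, P o)) ⁻¹' S, ENNReal.ofReal |J o| ∂μ := by
      rw [← lintegral_add_left (h.hJ.const_mul 1).ennreal_ofReal]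
      exact lintegral_congr fun o => a1 _
    have b2 : (∫⁻ z in Sw f ⁻¹' S ∩ Sg q B c d, ENNReal.ofReal (σ * deriv f z.1)) +
        (∫⁻ z in Sw f ⁻¹' S ∩ Sg q B c d, ENNReal.ofReal (-σ * deriv f z.1)) =
        ∫⁻ z in Sw f ⁻¹' S ∩ Sg q B c d, ENNReal.ofReal |deriv f z.1| := by
      have mD : Measurable fun z : ℝ × ℝ => ENNReal.ofReal (σ * deriv f z.1) :=
        (((measurable_deriv f).comp measurable_fst).const_mul σ).ennreal_ofReal
      rw [← lintegral_add_left mD]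
      exact lintegral_congr fun z => a2 _
    rw [← b1, ← b2]
    abel
  rw [e3] at e2
  refine e2.trans (add_le_add le_rfl ?_)
  rw [← setLIntegral_one]
  refine lintegral_mono fun z => ?_
  rw [← ENNReal.ofReal_one]
  exact ENNReal.ofReal_le_ofReal (abs_deriv_le h.lf _)

end DcbDat

end Pool.Agent.FPM
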