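import Mathlib
import Pool.Agent.FPM.DCB5

/-
DCB6 (helper19): double covering, abstract form, for almost every level.
-/

open MeasureTheory Set Filter Topology
open scoped ENNReal NNReal

noncomputable section

namespace Pool.Agent.FPM

open Pool.Agent.EWD

variable {Ω : Type} [MeasurableSpace Ω]

/-- differentiation of an inequality between integrals over intervals -/
theorem diff_ineq {μ : Measure Ω} [SFinite μ] {Q : Ω → ℝ} {W : Ω → ℝ≥0∞} (hQ : Measurable Q)
    (hfin : ∫⁻ o, W o ∂μ ≠ ∞) {e g : ℝ → ℝ≥0∞} (me : Measurable e) (mg : Measurable g)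
    (fe : ∫⁻ t, e t ≠ ∞) (fg : ∫⁻ t, g t ≠ ∞) {c d : ℝ}
    (hle : ∀ x y : ℝ, c < x → x ≤ y → y < d →
      ∫⁻ t in Icc x y, e t ≤ ∫⁻ o in Q ⁻¹' Icc x y, W o ∂μ + ∫⁻ t in Icc x y, g t) :
    ∀ᵐ t : ℝ, t ∈ Ioo c d → DifferentiableAt ℝ (La μ Q W) t ∧
      e t ≤ ENNReal.ofReal (deriv (La μ Q W) t) + g t := by
  have h1 := (IsUnifLocDoublingMeasure.vitaliFamily (volume : Measure ℝ) 1).ae_tendsto_lintegral_div
    me.aemeasurable fe
  have h1' := (IsUnifLocDoublingMeasure.vitaliFamily (volume : Measure ℝ) 1).ae_tendsto_lintegral_div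
    mg.aemeasurable fg
  have h2 := (La_mono μ (Q := Q) hfin).ae_differentiableAt
  filter_upwards [h1, h1', h2] with x hx1 hx1' hx2 hxI
  refine ⟨hx2, ?_⟩
  have hx3 := hx1.comp (Real.tendsto_Icc_vitaliFamily_right x)
  have hx3' := hx1'.comp (Real.tendsto_Icc_vitaliFamily_right x)
  have hD := hx2.hasDerivAt
  rw [hasDerivAt_iff_tendsto_slope] at hD
  have hy : Tendsto (fun y : ℝ => y + (y - x) ^ 2) (𝓝[>] x) (𝓝[≠] x) := by
    rw [tendsto_nhdsWithin_iff]
    constructor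
    · have : Continuous fun y : ℝ => y + (y - x) ^ 2 := by fun_prop
      have h3 := this.tendsto x
      simp only [sub_self, ne_eq, OfNat.ofNat_ne_zero, not_false_eq_true, zero_pow, add_zero] at h3
      exact h3.mono_left nhdsWithin_le_nhds
    · filter_upwards [self_mem_nhdsWithin] with y hy
      have hy' : x < y := hy
      have : x < y + (y - x) ^ 2 := by nlinarith [sq_nonneg (y - x)]
      exact this.ne'
  have h3 : Tendsto (fun y : ℝ => slope (La μ Q W) x (y + (y - x) ^ 2) * (1 + (y - x)))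
      (𝓝[>] x) (𝓝 (deriv (La μ Q W) x * 1)) := by
    refine (hD.comp hy).mul ?_
    have : Continuous fun y : ℝ => 1 + (y - x) := by fun_prop
    have h4 := this.tendsto x
    simp only [sub_self, add_zero] at h4
    exact h4.mono_left nhdsWithin_le_nhds
  rw [mul_one] at h3
  have h4 : ∀ᶠ y in 𝓝[>] x, y < d := mem_nhdsWithin_of_mem_nhds (Iio_mem_nhds hxI.2)
  refine le_of_tendsto_of_tendsto hx3 ((ENNReal.tendsto_ofReal h3).add hx3') ?_
  filter_upwards [self_mem_nhdsWithin, h4] with y hy0 hyd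
  have hy1 : x < y := hy0
  have hyx : 0 < y - x := sub_pos.2 hy1
  simp only [Function.comp_apply]
  rw [Real.volume_Icc]
  refine ENNReal.div_le_of_le_mul ?_
  refine (hle x y hxI.1 hy1.le hyd).trans ?_
  have h5 : y < y + (y - x) ^ 2 := by nlinarith [sq_pos_of_pos hyx]
  rw [add_mul, ENNReal.div_mul_cancel (by simpa using hy1) ENNReal.ofReal_ne_top]
  refine add_le_add ?_ le_rfl
  refine (La_Icc μ hQ hfin hy1.le h5).trans ?_
  rw [← ENNReal.ofReal_mul' hyx.le]
  refine ENNReal.ofReal_le_ofReal (le_of_eq ?_)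
  rw [slope_def_field]
  have h6 : y + (y - x) ^ 2 - x = (y - x) * (1 + (y - x)) := by ring
  rw [h6]
  have h7 : 1 + (y - x) ≠ 0 := by positivity
  field_simp

namespace DcbDat

variable {μ : Measure Ω} {Q P J : Ω → ℝ} {f q : ℝ → ℝ} {B : Set ℝ} {c d σ : ℝ}

/-- double covering for almost every level -/
theorem slice [SFinite μ] (h : DcbDat μ Q P J f q B c d σ) {G : Set (ℝ × ℝ)}
    (hG : ∀ᵐ v : ℝ × ℝ, v ∈ G →
      ENNReal.ofReal (2 * Real.pi) ≤ liminf (fun k => gk μ Q P (fun o => ENNReal.ofReal (1 * J o)) k v) atTop ∨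
      ENNReal.ofReal (2 * Real.pi) ≤ liminf (fun k => gk μ Q P (fun o => ENNReal.ofReal (-1 * J o)) k v) atTop)
    {W : Ω → ℝ≥0∞} (hW : ∀ᵐ o ∂μ, ENNReal.ofReal |J o| ≤ W o) (hfin : ∫⁻ o, W o ∂μ ≠ ∞) :
    ∀ᵐ t : ℝ, t ∈ Ioo c d → DifferentiableAt ℝ (La μ Q W) t ∧
      2 * volume {s | (t, s) ∈ G ∨ ∃ r ∈ B, t < q r ∧ f r = s} ≤
        ENNReal.ofReal (deriv (La μ Q W) t) + volume (B ∩ {r | t < q r}) := by
  set T : Set (ℝ × ℝ) := Ioo c d ×ˢ univ with hT
  have mT : MeasurableSet T := measurableSet_Ioo.prod MeasurableSet.univ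
  set U : Set (ℝ × ℝ) := G ∪ Sw f '' Sg q B c d with hU
  set E : Set (ℝ × ℝ) := toMeasurable volume (T ∩ U) ∩ T with hE
  have mE : MeasurableSet E := (measurableSet_toMeasurable _ _).inter mT
  have hull : ∀ S : Set (ℝ × ℝ), MeasurableSet S → S ⊆ T → volume (S ∩ E) = volume (S ∩ U) := by
    intro S hS hST
    have e1 : volume (toMeasurable volume (T ∩ U) ∩ S) = volume ((T ∩ U) ∩ S) :=
      Measure.measure_toMeasurable_inter_of_sFinite hS _
    have e2 : S ∩ E = toMeasurable volume (T ∩ U) ∩ S := by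
      rw [hE]
      ext x
      simp only [mem_inter_iff]
      constructor
      · rintro ⟨h1, h2, -⟩
        exact ⟨h2, h1⟩
      · rintro ⟨h1, h2⟩
        exact ⟨h2, h1, hST h2⟩
    have e3 : S ∩ U = (T ∩ U) ∩ S := by
      ext x
      simp only [mem_inter_iff]
      constructor
      · rintro ⟨h1, h2⟩
        exact ⟨⟨hST h1, h2⟩, h1⟩
      · rintro ⟨⟨-, h1⟩, h2⟩
        exact ⟨h2, h1⟩
    rw [e2, e1, e3]
  have hcov : ∀ S : Set (ℝ × ℝ), MeasurableSet S → S ⊆ T → 2 * volume (S ∩ E) ≤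
      ∫⁻ o in (fun o => (Q o, P o)) ⁻¹' S, W o ∂μ + volume (Sw f ⁻¹' S ∩ Sg q B c d) := by
    intro S hS hST
    rw [hull S hS hST]
    refine (h.cover hG hS hST).trans (add_le_add ?_ le_rfl)
    exact lintegral_mono_ae (ae_restrict_of_ae hW)
  -- the slices
  set e : ℝ → ℝ≥0∞ := fun t => volume (Prod.mk t ⁻¹' E) with he
  have me : Measurable e := measurable_measure_prodMk_left mE
  set g : ℝ → ℝ≥0∞ := fun t => volume ((fun r => (r, t)) ⁻¹' Sg q B c d) with hg
  have mg : Measurable g := measurable_measure_prodMk_right (mSg h.mq h.mB)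
  have ie : ∀ I : Set ℝ, MeasurableSet I → ∫⁻ t in I, e t = volume ((I ×ˢ univ) ∩ E) := by
    intro I hI
    rw [Measure.volume_eq_prod, Measure.prod_apply ((hI.prod MeasurableSet.univ).inter mE),
      ← lintegral_indicator hI]
    refine lintegral_congr fun t => ?_
    by_cases ht : t ∈ I
    · rw [indicator_of_mem ht]
      have : Prod.mk t ⁻¹' ((I ×ˢ univ) ∩ E) = Prod.mk t ⁻¹' E := by
        ext s
        simp [ht]
      rw [this]
    · rw [indicator_of_notMem ht]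
      symm
      have : Prod.mk t ⁻¹' ((I ×ˢ univ) ∩ E) = ∅ := by
        ext s
        simp [ht]
      rw [this, measure_empty]
  have ig : ∀ I : Set ℝ, MeasurableSet I → ∫⁻ t in I, g t =
      volume (Sw f ⁻¹' (I ×ˢ univ) ∩ Sg q B c d) := by
    intro I hI
    have m1 : MeasurableSet (Sw f ⁻¹' (I ×ˢ univ) ∩ Sg q B c d) :=
      (mSw h.lf (hI.prod MeasurableSet.univ)).inter (mSg h.mq h.mB)
    rw [Measure.volume_eq_prod, Measure.prod_apply_symm m1, ← lintegral_indicator hI]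
    refine lintegral_congr fun t => ?_
    by_cases ht : t ∈ I
    · rw [indicator_of_mem ht]
      have : (fun r => (r, t)) ⁻¹' (Sw f ⁻¹' (I ×ˢ univ) ∩ Sg q B c d) =
          (fun r => (r, t)) ⁻¹' Sg q B c d := by
        ext r
        simp [ht, Sw]
      rw [this]
    · rw [indicator_of_notMem ht]
      symm
      have : (fun r => (r, t)) ⁻¹' (Sw f ⁻¹' (I ×ˢ univ) ∩ Sg q B c d) = ∅ := by
        ext r
        simp [ht, Sw]
      rw [this, measure_empty]
  have fg : ∫⁻ t, g t ≠ ∞ := by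
    rw [← setLIntegral_univ, ig univ MeasurableSet.univ]
    exact ne_top_of_le_ne_top (vSg h.fB) (measure_mono inter_subset_right)
  have fe : ∫⁻ t, 2 * e t ≠ ∞ := by
    rw [lintegral_const_mul _ me, ← setLIntegral_univ, ie univ MeasurableSet.univ]
    have h1 := hcov T mT subset_rfl
    have h2 : (univ ×ˢ univ ∩ E : Set (ℝ × ℝ)) = T ∩ E := by
      rw [univ_prod_univ, univ_inter, inter_eq_right.2 inter_subset_right]
    rw [h2]
    refine ne_top_of_le_ne_top ?_ h1
    refine ENNReal.add_ne_top.2 ⟨?_, ?_⟩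
    · exact ne_top_of_le_ne_top hfin (setLIntegral_le_lintegral _ _)
    · exact ne_top_of_le_ne_top (vSg h.fB) (measure_mono inter_subset_right)
  have key := diff_ineq (c := c) (d := d) h.hQ hfin (me.const_mul 2) mg fe fg (by
    intro x y hcx hxy hyd
    have hI : (Icc x y ×ˢ (univ : Set ℝ)) ⊆ T := by
      rw [hT]
      exact prod_mono (fun t ht => ⟨lt_of_lt_of_le hcx ht.1, lt_of_le_of_lt ht.2 hyd⟩) subset_rfl
    rw [lintegral_const_mul _ me, ie _ measurableSet_Icc, ig _ measurableSet_Icc]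
    refine (hcov _ (measurableSet_Icc.prod MeasurableSet.univ) hI).trans (le_of_eq ?_)
    congr 3
    ext o
    simp)
  filter_upwards [key] with t ht htI
  obtain ⟨h1, h2⟩ := ht htI
  refine ⟨h1, ?_⟩
  have s1 : {s | (t, s) ∈ G ∨ ∃ r ∈ B, t < q r ∧ f r = s} ⊆ Prod.mk t ⁻¹' E := by
    intro s hs
    refine ⟨subset_toMeasurable volume _ ⟨⟨htI, mem_univ _⟩, ?_⟩, ⟨htI, mem_univ _⟩⟩
    rcases hs with hs | ⟨r, hr, hr1, hr2⟩
    · exact Or.inl hs
    · exact Or.inr ⟨(r, t), ⟨hr, ⟨htI.1, htI.2⟩, hr1⟩, by rw [Sw, hr2]⟩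
  have s2 : (fun r => (r, t)) ⁻¹' Sg q B c d ⊆ B ∩ {r | t < q r} := fun r hr => ⟨hr.1, hr.2.2⟩
  refine (mul_le_mul' le_rfl (measure_mono s1)).trans (h2.trans (add_le_add le_rfl (measure_mono s2)))

end DcbDat

end Pool.Agent.FPM
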