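import Mathlib
import Pool.Agent.FPM.FTW

/-
TMB (helper69): the pieces of the boundary of a superlevel set, level part and boundary curve part
together: theorem B of FAC_helper19_S6 from the double covering (F1) and FTW (F2).
-/

open MeasureTheory Set Filter Topology
open scoped ENNReal NNReal

noncomputable section

namespace Pool.Agent.FPM

open Pool.Agent.EWD

/-- `P` is an open and closed part of the compact set `K` -/
structure Pc {M : Type} [MetricSpace M] (K P : Set M) : Prop where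
  sub : P ⊆ K
  cl : IsClosed P
  cl' : IsClosed (K \ P)

section top

variable {M : Type} [MetricSpace M] [CompactSpace M]

/-- small pieces around a component -/
theorem TMB_piece {K : Set M} (hK : IsClosed K) {x : M} (hx : x ∈ K) {W : Set M} (hW : IsOpen W)
    (hC : connectedComponentIn K x ⊆ W) : ∃ P, Pc K P ∧ x ∈ P ∧ P ⊆ W := by
  have : CompactSpace ↥K := isCompact_iff_compactSpace.1 hK.isCompact
  have hdir : Directed (· ⊇ ·) (fun s : { s : Set ↥K // IsClopen s ∧ (⟨x, hx⟩ : ↥K) ∈ s } => (s : Set ↥K)) := by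
    intro s t
    exact ⟨⟨s.1 ∩ t.1, s.2.1.inter t.2.1, s.2.2, t.2.2⟩, inter_subset_left, inter_subset_right⟩
  have : Nonempty { s : Set ↥K // IsClopen s ∧ (⟨x, hx⟩ : ↥K) ∈ s } := ⟨⟨univ, isClopen_univ, mem_univ _⟩⟩
  obtain ⟨V, hV⟩ := exists_subset_nhds_of_compactSpace hdir (fun s => s.2.1.isClosed)
    (U := Subtype.val ⁻¹' W) (by
      intro z hz
      rw [← connectedComponent_eq_iInter_isClopen] at hz
      refine (hW.preimage continuous_subtype_val).mem_nhds (hC ?_)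
      rw [connectedComponentIn_eq_image hx]
      exact ⟨z, hz, rfl⟩)
  refine ⟨Subtype.val '' V.1, ⟨?_, ?_, ?_⟩, ⟨⟨x, hx⟩, V.2.2, rfl⟩, ?_⟩
  · rintro _ ⟨z, -, rfl⟩
    exact z.2
  · exact (hK.isClosedEmbedding_subtypeVal.isClosedMap) _ V.2.1.isClosed
  · have e : K \ (Subtype.val '' V.1) = Subtype.val '' (V.1)ᶜ := by
      ext z
      constructor
      · rintro ⟨h1, h2⟩
        exact ⟨⟨z, h1⟩, fun h3 => h2 ⟨_, h3, rfl⟩, rfl⟩
      · rintro ⟨w, hw, rfl⟩
        refine ⟨w.2, ?_⟩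
        rintro ⟨v, hv, hvw⟩
        exact hw (by rwa [Subtype.ext hvw] at hv)
    rw [e]
    exact (hK.isClosedEmbedding_subtypeVal.isClosedMap) _ V.2.1.isOpen.isClosed_compl
  · rintro _ ⟨z, hz, rfl⟩
    exact hV hz

/-- a compact set whose points have small pieces is covered by finitely many disjoint open sets -/
theorem TMB_cover {K : Set M} (hK : IsClosed K) {b η : ℝ} (hη : 0 < η)
    (h : ∀ x ∈ K, ∃ P, Pc K P ∧ x ∈ P ∧ ∀ y ∈ P, ∀ z ∈ P, dist y z ≤ b) :
    ∃ (n : ℕ) (O : Fin n → Set M), (∀ i, IsOpen (O i)) ∧ (∀ i j, i ≠ j → Disjoint (O i) (O j)) ∧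
      K ⊆ ⋃ i, O i ∧ ∀ i, ∀ x ∈ O i, ∀ y ∈ O i, dist x y ≤ b + η := by
  classical
  choose! P hP hxP hPb using h
  -- relatively open sets: complement of `K \ P`
  obtain ⟨T, hTK, hT⟩ := hK.isCompact.elim_nhds_subcover (fun x => (K \ P x)ᶜ) (fun x hx =>
    (hP x hx).cl'.isOpen_compl.mem_nhds (fun h => h.2 (hxP x hx)))
  -- order the finite set
  set n := T.card with hn
  obtain ⟨e⟩ : Nonempty (Fin n ≃ ↥T) := ⟨T.equivFin.symm⟩
  set Q : Fin n → Set M := fun i => P (e i) \ ⋃ j : Fin n, ⋃ (_ : j < i), P (e j) with hQ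
  have hPe : ∀ i, Pc K (P (e i)) := fun i => hP _ (hTK _ (e i).2)
  have hQc : ∀ i, IsClosed (Q i) := by
    intro i
    have e1 : Q i = P (e i) ∩ ⋂ j : Fin n, ⋂ (_ : j < i), (K \ P (e j)) := by
      ext z
      simp only [hQ, Set.mem_sdiff, mem_iUnion, not_exists, mem_inter_iff, mem_iInter]
      constructor
      · rintro ⟨h1, h2⟩
        exact ⟨h1, fun j hj => ⟨(hPe i).sub h1, h2 j hj⟩⟩
      · rintro ⟨h1, h2⟩
        exact ⟨h1, fun j hj => (h2 j hj).2⟩
    rw [e1]
    exact (hPe i).cl.inter (isClosed_iInter fun j => isClosed_iInter fun _ => (hPe j).cl')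
  have hQd : ∀ i j, i ≠ j → Disjoint (Q i) (Q j) := by
    have key : ∀ i j, i < j → Disjoint (Q i) (Q j) := by
      intro i j hij
      rw [Set.disjoint_left]
      intro z hz1 hz2
      exact hz2.2 (mem_iUnion₂.2 ⟨i, hij, hz1.1⟩)
    intro i j hij
    rcases lt_or_gt_of_ne hij with h | h
    · exact key i j h
    · exact (key j i h).symm
  have hQK : K ⊆ ⋃ i, Q i := by
    intro z hz
    have h1 : ∃ i : Fin n, z ∈ P (e i) := by
      have h2 := hT hz
      rw [mem_iUnion₂] at h2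
      obtain ⟨x, hx, hzx⟩ := h2
      refine ⟨e.symm ⟨x, hx⟩, ?_⟩
      rw [Equiv.apply_symm_apply]
      by_contra h3
      exact hzx ⟨hz, h3⟩
    have hne : (Finset.univ.filter fun i : Fin n => z ∈ P (e i)).Nonempty := by
      obtain ⟨i, hi⟩ := h1
      exact ⟨i, by simp [hi]⟩
    set i₀ := (Finset.univ.filter fun i : Fin n => z ∈ P (e i)).min' hne with hi₀
    have h2 : i₀ ∈ (Finset.univ.filter fun i : Fin n => z ∈ P (e i)) := Finset.min'_mem _ hne
    refine mem_iUnion.2 ⟨i₀, (Finset.mem_filter.1 h2).2, ?_⟩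
    rw [mem_iUnion₂]
    rintro ⟨j, hj, hzj⟩
    have h3 := Finset.min'_le (Finset.univ.filter fun i : Fin n => z ∈ P (e i)) j (by simp [hzj])
    exact absurd hj (not_lt.2 h3)
  -- a common radius
  have hρ : ∃ ρ : ℝ, 0 < ρ ∧ ∀ i j, i ≠ j →
      Disjoint (Metric.thickening ρ (Q i)) (Metric.thickening ρ (Q j)) := by
    have h1 : ∀ p : Fin n × Fin n, ∃ ρ : ℝ, 0 < ρ ∧ (p.1 ≠ p.2 →
        Disjoint (Metric.thickening ρ (Q p.1)) (Metric.thickening ρ (Q p.2))) := by
      intro p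
      by_cases hp : p.1 = p.2
      · exact ⟨1, one_pos, fun h => absurd hp h⟩
      · obtain ⟨δ, hδ, h⟩ := (hQd p.1 p.2 hp).exists_thickenings (hQc _).isCompact (hQc _)
        exact ⟨δ, hδ, fun _ => h⟩
    choose ρ hρ0 hρ1 using h1
    rcases isEmpty_or_nonempty (Fin n) with hn | hn
    · exact ⟨1, one_pos, fun i => (hn.false i).elim⟩
    · set ρ₀ := Finset.univ.inf' (Finset.univ_nonempty (α := Fin n × Fin n)) ρ with hρ₀
      refine ⟨ρ₀, ?_, fun i j hij => ?_⟩
      · rw [hρ₀, Finset.lt_inf'_iff]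
        intro p _
        exact hρ0 p
      · have h2 : ρ₀ ≤ ρ (i, j) := Finset.inf'_le _ (Finset.mem_univ _)
        exact (hρ1 (i, j) hij).mono (Metric.thickening_mono h2 _) (Metric.thickening_mono h2 _)
  obtain ⟨ρ, hρ0, hρ1⟩ := hρ
  set r := min ρ (η / 2) with hr
  have hr0 : 0 < r := lt_min hρ0 (by linarith)
  refine ⟨n, fun i => Metric.thickening r (Q i), fun i => Metric.isOpen_thickening, fun i j hij =>
    (hρ1 i j hij).mono (Metric.thickening_mono (min_le_left _ _) _)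
      (Metric.thickening_mono (min_le_left _ _) _), ?_, ?_⟩
  · exact hQK.trans (iUnion_mono fun i => Metric.self_subset_thickening hr0 _)
  · intro i x hx y hy
    obtain ⟨x', hx', hxx⟩ := Metric.mem_thickening_iff.1 hx
    obtain ⟨y', hy', hyy⟩ := Metric.mem_thickening_iff.1 hy
    have h1 := hPb (e i) (hTK _ (e i).2) x' hx'.1 y' hy'.1
    have h2 : r ≤ η / 2 := min_le_right _ _
    have h3 : dist x y ≤ dist x x' + dist x' y' + dist y' y := dist_triangle4 _ _ _ _
    rw [dist_comm y' y] at h3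
    linarith

/-- a cut-off of the piece `P` of `K` -/
def Cut (ζ : M → ℝ) (K P : Set M) : Prop := ∃ V V' : Set M, IsOpen V ∧ IsOpen V' ∧ P ⊆ V ∧
  K \ P ⊆ V' ∧ (∀ x ∈ V, ζ x = 1) ∧ ∀ x ∈ V', ζ x = 0

/-- a countable family of cut-offs that separates the pieces of all compact sets -/
theorem TMB_family : ∃ Z : ℕ → M → ℝ, (∀ n, Lip (Z n)) ∧ (∀ n x, 0 ≤ Z n x) ∧ (∀ n x, Z n x ≤ 1) ∧
    (∀ K P : Set M, Pc K P → ∃ n, Cut (Z n) K P) := by
  classical
  set L : Set C(M, ℝ) := {f | Lip (fun x => f x)} with hL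
  have h1L : (ContinuousMap.const M (1 : ℝ)) ∈ L := lip_const 1
  have : Nonempty ↥L := ⟨⟨_, h1L⟩⟩
  set u := TopologicalSpace.denseSeq ↥L with hu
  refine ⟨fun n x => bnd (1 / 3) (2 / 3) ((u n : C(M, ℝ)) x), fun n => ?_, fun n x => bnd_nonneg _ _ _,
    fun n x => bnd_le_one _ _ _, ?_⟩
  · exact lip_bnd (u n).2 (by norm_num)
  have key : ∀ f : C(M, ℝ), f ∈ L → ∃ n, ∀ x, (5 / 6 < f x → bnd (1 / 3) (2 / 3) ((u n : C(M, ℝ)) x) = 1) ∧
      (f x < 1 / 6 → bnd (1 / 3) (2 / 3) ((u n : C(M, ℝ)) x) = 0) := by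
    intro f hf
    obtain ⟨n, hn⟩ := (TopologicalSpace.denseRange_denseSeq ↥L).exists_dist_lt (⟨f, hf⟩ : ↥L)
      (show (0 : ℝ) < 1 / 6 by norm_num)
    refine ⟨n, fun x => ?_⟩
    have h1 : |f x - (u n : C(M, ℝ)) x| < 1 / 6 := by
      have h2 : dist (f x) ((u n : C(M, ℝ)) x) ≤ dist f (u n : C(M, ℝ)) := ContinuousMap.dist_apply_le_dist x
      rw [Real.dist_eq] at h2
      exact lt_of_le_of_lt h2 hn
    rw [abs_lt] at h1
    constructor
    · intro h3
      exact bnd_hi (by norm_num) (by linarith)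
    · intro h3
      exact bnd_lo (by norm_num) (by linarith)
  intro K P hP
  rcases (K \ P).eq_empty_or_nonempty with h | h
  · obtain ⟨n, hn⟩ := key _ h1L
    refine ⟨n, univ, ∅, isOpen_univ, isOpen_empty, subset_univ _, h.subset, fun x _ => ?_, fun x hx =>
      (notMem_empty x hx).elim⟩
    exact (hn x).1 (by
      change (5 / 6 : ℝ) < 1
      norm_num)
  · have hdis : Disjoint P (K \ P) := Set.disjoint_left.2 fun x hx h2 => h2.2 hx
    obtain ⟨δ, hδ, hd⟩ := hdis.exists_thickenings hP.cl.isCompact hP.cl'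
    have hc : Continuous fun x => Metric.infDist x (K \ P) / δ :=
      (Metric.continuous_infDist_pt _).div_const _
    have hl : Lip fun x => Metric.infDist x (K \ P) / δ := by
      have h1 : Lip fun x => Metric.infDist x (K \ P) := ⟨1, Metric.lipschitz_infDist_pt _⟩
      have h2 := h1.const_mul δ⁻¹
      have e : (fun x => Metric.infDist x (K \ P) / δ) = fun x => δ⁻¹ * Metric.infDist x (K \ P) := by
        funext x
        ring
      rw [e]
      exact h2
    obtain ⟨n, hn⟩ := key ⟨_, hc⟩ hl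
    refine ⟨n, {x | 5 / 6 < Metric.infDist x (K \ P) / δ}, {x | Metric.infDist x (K \ P) / δ < 1 / 6},
      isOpen_lt continuous_const hc, isOpen_lt hc continuous_const, fun x hx => ?_, fun x hx => ?_,
      fun x hx => (hn x).1 hx, fun x hx => (hn x).2 hx⟩
    · change 5 / 6 < Metric.infDist x (K \ P) / δ
      have h3 : δ ≤ Metric.infDist x (K \ P) := by
        by_contra h4
        have h5 : x ∈ Metric.thickening δ (K \ P) := by
          rw [Metric.mem_thickening_iff_infDist_lt h]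
          exact not_le.1 h4
        exact Set.disjoint_left.1 hd (Metric.self_subset_thickening hδ _ hx) h5
      have h4 : 1 ≤ Metric.infDist x (K \ P) / δ := by
        rw [le_div_iff₀ hδ]
        linarith
      linarith
    · change Metric.infDist x (K \ P) / δ < 1 / 6
      rw [Metric.infDist_zero_of_mem hx, zero_div]
      norm_num

/-- a neighbourhood of a level set contains the neighbouring levels -/
theorem TMB_lev {g : M → ℝ} (hg : Continuous g) {t : ℝ} {V : Set M} (hV : IsOpen V)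
    (h : ∀ x, g x = t → x ∈ V) : ∃ δ : ℝ, 0 < δ ∧ ∀ x, |g x - t| ≤ δ → x ∈ V := by
  have hc : Continuous fun x => |g x - t| := (hg.sub continuous_const).abs
  rcases (Vᶜ).eq_empty_or_nonempty with h1 | h1
  · refine ⟨1, one_pos, fun x _ => ?_⟩
    by_contra h2
    have : x ∈ Vᶜ := h2
    rw [h1] at this
    exact this
  · obtain ⟨x₀, hx₀, hm⟩ := hV.isClosed_compl.isCompact.exists_isMinOn h1 hc.continuousOn
    have h3 : 0 < |g x₀ - t| := by
      rw [abs_pos, sub_ne_zero]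
      exact fun h4 => hx₀ (h x₀ h4)
    refine ⟨|g x₀ - t| / 2, by linarith, fun x hx => ?_⟩
    by_contra h2
    have h4 : |g x₀ - t| ≤ |g x - t| := hm h2
    linarith

end top

section lev

variable {M : Type} [MetricSpace M] {γ : ℝ → M}

/-- the boundary of the superlevel set: level set and the part of the boundary curve -/
def Kt (γ : ℝ → M) (g : M → ℝ) (t : ℝ) : Set M := {x | g x = t} ∪ (range γ ∩ {x | t ≤ g x})

theorem range_eq (hγ : Bd γ) : range γ = γ '' Icc 0 (2 * Real.pi) := by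
  have h : Function.Periodic γ (2 * Real.pi) := hγ.per
  rw [← h.image_Icc (by positivity) 0, zero_add]

theorem Kt_closed (hγ : Bd γ) {g : M → ℝ} (hg : Continuous g) (t : ℝ) : IsClosed (Kt γ g t) := by
  refine (isClosed_eq hg continuous_const).union (IsClosed.inter ?_ (isClosed_le continuous_const hg))
  rw [range_eq hγ]
  exact (isCompact_Icc.image hγ.lip.continuous).isClosed

variable [CompactSpace M]

theorem Cut.adc {g ζ : M → ℝ} (hg : Continuous g) {t : ℝ} {P : Set M} (hl : Lip ζ)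
    (h0 : ∀ x, 0 ≤ ζ x) (h1 : ∀ x, ζ x ≤ 1) (hc : Cut ζ (Kt γ g t) P) : Adc γ g t ζ := by
  obtain ⟨V, V', hV, hV', hP, hP', h2, h3⟩ := hc
  have hK : ∀ x ∈ Kt γ g t, x ∈ V ∪ V' := fun x hx => by
    by_cases h4 : x ∈ P
    · exact Or.inl (hP h4)
    · exact Or.inr (hP' ⟨hx, h4⟩)
  have h4 : ∀ x ∈ V ∪ V', ζ x = 0 ∨ ζ x = 1 := fun x hx => by
    rcases hx with h | h
    · exact Or.inr (h2 x h)
    · exact Or.inl (h3 x h)
  obtain ⟨δ, hδ, h5⟩ := TMB_lev hg (hV.union hV') (fun x hx => hK x (Or.inl hx))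
  exact ⟨hl, h0, h1, ⟨δ, hδ, fun x hx => h4 x (h5 x hx)⟩, fun s hs =>
    h4 _ (hK _ (Or.inr ⟨mem_range_self s, hs⟩))⟩

variable (C : Calc M γ)

omit [CompactSpace M] in
theorem integrable_zH {ζ : M → ℝ} (hl : Lip ζ) (h0 : ∀ x, 0 ≤ ζ x) (h1 : ∀ x, ζ x ≤ 1)
    {H : Om → ℝ} (hH : Integrable H C.μ) : Integrable (fun o => ζ (C.pt o) * H o) C.μ := by
  refine hH.bdd_mul (c := 1) (C.meas_pt hl).aestronglyMeasurable ?_
  refine Eventually.of_forall fun o => ?_
  rw [Real.norm_eq_abs, abs_of_nonneg (h0 _)]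
  exact h1 _

omit [CompactSpace M] in
theorem mz_eq {g : M → ℝ} (hg : Lip g) (H : Om → ℝ) (ζ : M → ℝ) (r : ℝ) : mz C H g ζ r =
    ∫ o, {o | g (C.pt o) < r}.indicator (fun o => ζ (C.pt o) * H o) o ∂C.μ :=
  (integral_indicator₀ (meas_pt_lt C hg r)).symm

theorem mz_mono {g ζ : M → ℝ} (hg : Lip g) (hl : Lip ζ) (h0 : ∀ x, 0 ≤ ζ x) (h1 : ∀ x, ζ x ≤ 1)
    {H : Om → ℝ} (hH : Integrable H C.μ) (hH0 : ∀ᵐ o ∂C.μ, 0 ≤ H o) : Monotone (mz C H g ζ) := by
  intro r r' hr
  rw [mz_eq C hg, mz_eq C hg]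
  refine integral_mono_ae ((integrable_zH C hl h0 h1 hH).indicator₀ (meas_pt_lt C hg _))
    ((integrable_zH C hl h0 h1 hH).indicator₀ (meas_pt_lt C hg _)) ?_
  filter_upwards [hH0] with o ho
  have h9 : 0 ≤ ζ (C.pt o) * H o := mul_nonneg (h0 _) ho
  by_cases h : g (C.pt o) < r
  · have m1 : o ∈ {o | g (C.pt o) < r} := h
    have m2 : o ∈ {o | g (C.pt o) < r'} := lt_of_lt_of_le h hr
    rw [indicator_of_mem m1, indicator_of_mem m2]
  · have m1 : o ∉ {o | g (C.pt o) < r} := h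
    rw [indicator_of_notMem m1]
    exact indicator_apply_nonneg fun _ => h9

/-- additivity of the lengths of two pieces -/
theorem mz_add {g ζ ζ' ζ'' : M → ℝ} (hg : Lip g) (hl : Lip ζ) (h0 : ∀ x, 0 ≤ ζ x) (h1 : ∀ x, ζ x ≤ 1)
    (hl' : Lip ζ') (h0' : ∀ x, 0 ≤ ζ' x) (h1' : ∀ x, ζ' x ≤ 1)
    (hl'' : Lip ζ'') (h0'' : ∀ x, 0 ≤ ζ'' x) (h1'' : ∀ x, ζ'' x ≤ 1)
    {H : Om → ℝ} (hH : Integrable H C.μ) {t δ : ℝ} (hδ : 0 < δ)
    (h : ∀ x, |g x - t| ≤ δ → ζ x + ζ' x = ζ'' x) {a b : ℝ}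
    (ha : HasDerivAt (mz C H g ζ) a t) (hb : HasDerivAt (mz C H g ζ') b t) :
    HasDerivAt (mz C H g ζ'') (a + b) t := by
  have hc : ∀ r, |r - t| ≤ δ → mz C H g ζ'' r = mz C H g ζ r + mz C H g ζ' r +
      (mz C H g ζ'' t - mz C H g ζ t - mz C H g ζ' t) := by
    intro r hr
    have i1 := integrable_zH C hl h0 h1 hH
    have i2 := integrable_zH C hl' h0' h1' hH
    have i3 := integrable_zH C hl'' h0'' h1'' hH
    have e0 : ∀ r, mz C H g ζ'' r - mz C H g ζ r - mz C H g ζ' r = ∫ o, {o | g (C.pt o) < r}.indicator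
        (fun o => ζ'' (C.pt o) * H o - ζ (C.pt o) * H o - ζ' (C.pt o) * H o) o ∂C.μ := by
      intro r
      rw [integral_indicator₀ (meas_pt_lt C hg r)]
      unfold mz
      have j1 := integral_sub (μ := C.μ.restrict {o | g (C.pt o) < r}) i3.integrableOn i1.integrableOn
      have j2 := integral_sub (μ := C.μ.restrict {o | g (C.pt o) < r})
        (i3.integrableOn.sub i1.integrableOn) i2.integrableOn
      simp only [Pi.sub_apply] at j2
      rw [j2, j1]
    have e : mz C H g ζ'' r - mz C H g ζ r - mz C H g ζ' r =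
        mz C H g ζ'' t - mz C H g ζ t - mz C H g ζ' t := by
      rw [e0, e0]
      refine integral_congr_ae (Eventually.of_forall fun o => ?_)
      have hz : |g (C.pt o) - t| ≤ δ → ζ'' (C.pt o) * H o - ζ (C.pt o) * H o - ζ' (C.pt o) * H o = 0 := by
        intro h2
        rw [← h _ h2]
        ring
      by_cases h3 : g (C.pt o) < r
      · have m3 : o ∈ {o | g (C.pt o) < r} := h3
        simp only [indicator_of_mem m3]
        by_cases h4 : g (C.pt o) < t
        · have m4 : o ∈ {o | g (C.pt o) < t} := h4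
          simp only [indicator_of_mem m4]
        · have m4 : o ∉ {o | g (C.pt o) < t} := h4
          simp only [indicator_of_notMem m4]
          refine hz ?_
          rw [abs_le] at hr ⊢
          constructor <;> linarith
      · have m3 : o ∉ {o | g (C.pt o) < r} := h3
        simp only [indicator_of_notMem m3]
        by_cases h4 : g (C.pt o) < t
        · have m4 : o ∈ {o | g (C.pt o) < t} := h4
          simp only [indicator_of_mem m4]
          refine (hz ?_).symm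
          rw [abs_le] at hr ⊢
          constructor <;> linarith
        · have m4 : o ∉ {o | g (C.pt o) < t} := h4
          simp only [indicator_of_notMem m4]
    linarith
  have h2 := (ha.add hb).add_const (mz C H g ζ'' t - mz C H g ζ t - mz C H g ζ' t)
  refine h2.congr_of_eventuallyEq ?_
  have h3 : ∀ᶠ r in 𝓝 t, |r - t| ≤ δ := by
    have := Metric.closedBall_mem_nhds t hδ
    filter_upwards [this] with r hr
    rwa [Metric.mem_closedBall, Real.dist_eq] at hr
  filter_upwards [h3] with r hr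
  exact hc r hr

theorem mz_deriv_nonneg {g ζ : M → ℝ} (hg : Lip g) (hl : Lip ζ) (h0 : ∀ x, 0 ≤ ζ x)
    (h1 : ∀ x, ζ x ≤ 1) {H : Om → ℝ} (hH : Integrable H C.μ) (hH0 : ∀ᵐ o ∂C.μ, 0 ≤ H o) (t : ℝ) :
    0 ≤ deriv (mz C H g ζ) t := (mz_mono C hg hl h0 h1 hH hH0).deriv_nonneg

omit [CompactSpace M] in
theorem Gz_eq_int (hγ : Bd γ) {g ζ : M → ℝ} (hg : Lip g) (hl : Lip ζ) (t : ℝ) :
    Gz γ g t ζ = ∫ s in (0 : ℝ)..(2 * Real.pi), (Apt γ g t ζ).indicator (fun _ => (1 : ℝ)) s := by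
  have hpi := Real.pi_pos
  rw [intervalIntegral.integral_of_le (by positivity), integral_indicator (meas_Apt hγ hg hl t),
    Measure.restrict_restrict (meas_Apt hγ hg hl t)]
  simp only [integral_const, Measure.real, Measure.restrict_apply MeasurableSet.univ, univ_inter,
    smul_eq_mul, mul_one]
  rfl

omit [CompactSpace M] in
/-- the parts of the curve in two pieces, one of which contains the antipodes of the other -/
theorem Gz_anti (hγ : Bd γ) {g ζ ζ' : M → ℝ} (hg : Lip g) (hl : Lip ζ) (hl' : Lip ζ') (t : ℝ)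
    (h : ∀ s ∈ Apt γ g t ζ, s + Real.pi ∈ Apt γ g t ζ') : Gz γ g t ζ ≤ Gz γ g t ζ' := by
  have hpi := Real.pi_pos
  rw [Gz_eq_int hγ hg hl, Gz_eq_int hγ hg hl']
  set f : ℝ → ℝ := (Apt γ g t ζ').indicator (fun _ => (1 : ℝ)) with hf
  have hper : Function.Periodic f (2 * Real.pi) := by
    intro s
    have : s + 2 * Real.pi ∈ Apt γ g t ζ' ↔ s ∈ Apt γ g t ζ' := by
      simp only [Apt, Set.mem_ofPred_eq, hγ.per s]
    simp only [hf]
    by_cases h1 : s ∈ Apt γ g t ζ'
    · rw [indicator_of_mem h1, indicator_of_mem (this.2 h1)]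
    · rw [indicator_of_notMem h1, indicator_of_notMem (fun h2 => h1 (this.1 h2))]
  have e1 : ∫ s in (0 : ℝ)..(2 * Real.pi), f s = ∫ s in (0 : ℝ)..(2 * Real.pi), f (s + Real.pi) := by
    rw [intervalIntegral.integral_comp_add_right f Real.pi, zero_add, add_comm (2 * Real.pi) Real.pi,
      hper.intervalIntegral_add_eq Real.pi 0, zero_add]
  rw [e1]
  have ii : ∀ (ζ₀ : M → ℝ), Lip ζ₀ → ∀ c : ℝ, IntervalIntegrable
      (fun s => (Apt γ g t ζ₀).indicator (fun _ => (1 : ℝ)) (s + c)) volume 0 (2 * Real.pi) := by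
    intro ζ₀ hl₀ c
    have hm : Measurable ((Apt γ g t ζ₀).indicator (fun _ => (1 : ℝ))) :=
      measurable_const.indicator (meas_Apt hγ hg hl₀ t)
    refine (intervalIntegrable_const (c := (1 : ℝ))).mono_fun
      (hm.comp (measurable_add_const c)).aestronglyMeasurable (Eventually.of_forall fun s => ?_)
    simp only [indicator]
    split_ifs <;> simp
  have i1 := ii ζ hl 0
  simp only [add_zero] at i1
  refine intervalIntegral.integral_mono_on (by positivity) i1 (ii ζ' hl' Real.pi) fun s _ => ?_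
  change _ ≤ (Apt γ g t ζ').indicator (fun _ => (1 : ℝ)) (s + Real.pi)
  by_cases h1 : s ∈ Apt γ g t ζ
  · rw [indicator_of_mem h1, indicator_of_mem (h s h1)]
  · rw [indicator_of_notMem h1]
    exact indicator_apply_nonneg fun _ => zero_le_one

omit [CompactSpace M] in
theorem Gz_mono (γ : ℝ → M) (g : M → ℝ) (t : ℝ) {ζ ζ' : M → ℝ}
    (h : Apt γ g t ζ ⊆ Apt γ g t ζ') : Gz γ g t ζ ≤ Gz γ g t ζ' := by
  unfold Gz
  refine ENNReal.toReal_mono ?_ (measure_mono (inter_subset_inter_left _ h))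
  refine ne_top_of_le_ne_top ?_ (measure_mono inter_subset_right)
  rw [Real.volume_Ioc]
  exact ENNReal.ofReal_ne_top

/-- the double covering for one cut-off and one function -/
def DC (C : Calc M γ) (H : Om → ℝ) (g p ζ : M → ℝ) (t : ℝ) : Prop := Adc γ g t ζ →
  2 * volume (p '' {x | (g x = t ∨ (x ∈ range γ ∧ t ≤ g x)) ∧ ζ x = 1}) ≤
    ENNReal.ofReal (deriv (mz C H g ζ) t + Gz γ g t ζ)

omit [CompactSpace M] in
/-- a function on a connected subset of a piece -/
theorem TMB_osc {H : Om → ℝ} {g p ζ : M → ℝ} {t : ℝ} (hp : Continuous p)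
    (h : DC C H g p ζ t) (hζ : Adc γ g t ζ) (hnn : 0 ≤ deriv (mz C H g ζ) t + Gz γ g t ζ)
    {Z : Set M} (hZ : IsPreconnected Z)
    (hZK : ∀ x ∈ Z, (g x = t ∨ (x ∈ range γ ∧ t ≤ g x)) ∧ ζ x = 1) {x y : M} (hx : x ∈ Z) (hy : y ∈ Z) :
    p x - p y ≤ (deriv (mz C H g ζ) t + Gz γ g t ζ) / 2 := by
  have h1 := h hζ
  have h2 : Icc (p y) (p x) ⊆ p '' {x | (g x = t ∨ (x ∈ range γ ∧ t ≤ g x)) ∧ ζ x = 1} := by
    have h3 : IsPreconnected (p '' Z) := hZ.image p hp.continuousOn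
    have h4 := h3.Icc_subset (mem_image_of_mem p hy) (mem_image_of_mem p hx)
    exact h4.trans (image_mono hZK)
  have h3 : 2 * ENNReal.ofReal (p x - p y) ≤
      ENNReal.ofReal (deriv (mz C H g ζ) t + Gz γ g t ζ) := by
    refine le_trans ?_ h1
    gcongr
    rw [← Real.volume_Icc]
    exact measure_mono h2
  have h4 : ENNReal.ofReal (2 * (p x - p y)) ≤ ENNReal.ofReal (deriv (mz C H g ζ) t + Gz γ g t ζ) := by
    rwa [ENNReal.ofReal_mul (by norm_num), ENNReal.ofReal_ofNat]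
  have h5 := (ENNReal.ofReal_le_ofReal_iff hnn).1 h4
  linarith

/-- theorem B -/
theorem TMB (hγ : Bd γ) {g : M → ℝ} (hg : Lip g) (hev : ∀ s, g (γ (s + Real.pi)) = g (γ s))
    {H : Om → ℝ} (hH : Integrable H C.μ)
    (hpg : ∀ p : M → ℝ, LipschitzWith 1 p → ∀ᵐ o ∂C.μ, |C.wed p g o| ≤ H o)
    (hF1 : ∀ p ζ : M → ℝ, LipschitzWith 1 p → Lip ζ → (∀ x, 0 ≤ ζ x) → (∀ x, ζ x ≤ 1) →
      ∀ᵐ t : ℝ, DC C H g p ζ t) :
    ∀ᵐ t : ℝ, deriv (mz C H g fun _ => 1) t < Real.pi → Gz γ g t (fun _ => 1) ≤ Real.pi →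
      Gz γ g t (fun _ => 1) ≤ deriv (mz C H g fun _ => 1) t ∧
      ∀ η : ℝ, 0 < η → ∃ (n : ℕ) (O : Fin n → Set M), (∀ i, IsOpen (O i)) ∧
        (∀ i j, i ≠ j → Disjoint (O i) (O j)) ∧ Kt γ g t ⊆ ⋃ i, O i ∧
        ∀ i, ∀ x ∈ O i, ∀ y ∈ O i, dist x y ≤ deriv (mz C H g fun _ => 1) t / 2 + η := by
  have hpi := Real.pi_pos
  rcases isEmpty_or_nonempty M with hM | hM
  · exact (hM.false (γ 0)).elim
  have hH0 : ∀ᵐ o ∂C.μ, 0 ≤ H o := by
    filter_upwards [hpg (fun _ => 0) ((LipschitzWith.const 0).weaken zero_le_one)] with o ho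
    exact (abs_nonneg _).trans ho
  obtain ⟨Z, hZl, hZ0, hZ1, hZc⟩ := TMB_family (M := M)
  have hl1 : Lip (fun _ : M => (1 : ℝ)) := lip_const 1
  -- the exceptional set
  have a1 : ∀ᵐ t : ℝ, ∀ n m : ℕ, DC C H g (fun y => dist y (TopologicalSpace.denseSeq M m)) (Z n) t := by
    rw [ae_all_iff]
    intro n
    rw [ae_all_iff]
    intro m
    exact hF1 _ _ (LipschitzWith.dist_left _) (hZl n) (hZ0 n) (hZ1 n)
  have a2 : ∀ᵐ t : ℝ, ∀ n : ℕ, DifferentiableAt ℝ (mz C H g (Z n)) t := by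
    rw [ae_all_iff]
    intro n
    exact (mz_mono C hg (hZl n) (hZ0 n) (hZ1 n) hH hH0).ae_differentiableAt
  have a3 : ∀ᵐ t : ℝ, DifferentiableAt ℝ (mz C H g fun _ => 1) t :=
    (mz_mono C hg hl1 (fun _ => zero_le_one) (fun _ => le_rfl) hH hH0).ae_differentiableAt
  filter_upwards [a1, a2, a3] with t t1 t2 t3 hS hG
  set S := deriv (mz C H g fun _ => 1) t with hSdef
  set G := Gz γ g t (fun _ => 1) with hGdef
  have adc1 : Adc γ g t (fun _ => 1) := ⟨hl1, fun _ => zero_le_one, fun _ => le_rfl,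
    ⟨1, one_pos, fun _ _ => Or.inr rfl⟩, fun _ _ => Or.inr rfl⟩
  have hKc : IsClosed (Kt γ g t) := Kt_closed hγ hg.cont t
  have hG0 : 0 ≤ G := Gz_nonneg γ g t _
  have hGS : G ≤ S := by
    have h1 := FTW C hγ hg adc1 hH hpg t3.hasDerivAt
    rw [min_eq_left (by linarith)] at h1
    exact h1
  refine ⟨hGS, ?_⟩
  -- numbers of a piece
  have piece : ∀ P, Pc (Kt γ g t) P → ∃ n, Adc γ g t (Z n) ∧ (∀ x ∈ P, Z n x = 1) ∧
      (∀ x ∈ Kt γ g t \ P, Z n x = 0) ∧ Cut (Z n) (Kt γ g t) P := by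
    intro P hP
    obtain ⟨n, hn⟩ := hZc _ P hP
    refine ⟨n, hn.adc hg.cont (hZl n) (hZ0 n) (hZ1 n), ?_, ?_, hn⟩
    · obtain ⟨V, V', _, _, h1, _, h2, _⟩ := hn
      exact fun x hx => h2 x (h1 hx)
    · obtain ⟨V, V', _, _, _, h1, _, h2⟩ := hn
      exact fun x hx => h2 x (h1 hx)
  have Gle : ∀ n, Gz γ g t (Z n) ≤ G := fun n => Gz_mono γ g t fun s hs => ⟨rfl, hs.2⟩
  have Gle' : ∀ n, Adc γ g t (Z n) → Gz γ g t (Z n) ≤ deriv (mz C H g (Z n)) t := by
    intro n hn
    have h1 := FTW C hγ hg hn hH hpg (t2 n).hasDerivAt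
    have h2 := Gle n
    rw [min_eq_left (by linarith)] at h1
    exact h1
  have Snn : ∀ n, 0 ≤ deriv (mz C H g (Z n)) t := fun n =>
    mz_deriv_nonneg C hg (hZl n) (hZ0 n) (hZ1 n) hH hH0 t
  have conn : ∀ n, Adc γ g t (Z n) → ∀ A : Set M, IsPreconnected A →
      (∀ x ∈ A, x ∈ Kt γ g t ∧ Z n x = 1) → ∀ x ∈ A, ∀ y ∈ A,
      dist x y ≤ (deriv (mz C H g (Z n)) t + Gz γ g t (Z n)) / 2 := by
    intro n hn A hA hAK x hx y hy
    have h1 : ∀ m, dist x (TopologicalSpace.denseSeq M m) - dist y (TopologicalSpace.denseSeq M m) ≤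
        (deriv (mz C H g (Z n)) t + Gz γ g t (Z n)) / 2 := fun m =>
      TMB_osc C (continuous_id.dist continuous_const) (t1 n m) hn
        (add_nonneg (Snn n) (Gz_nonneg _ _ _ _)) hA hAK hx hy
    refine le_of_forall_pos_le_add fun e he => ?_
    obtain ⟨m, hm⟩ := (TopologicalSpace.denseRange_denseSeq M).exists_dist_lt y (half_pos he)
    have h2 := h1 m
    have h3 := dist_triangle x (TopologicalSpace.denseSeq M m) y
    rw [dist_comm (TopologicalSpace.denseSeq M m) y] at h3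
    linarith
  -- a piece without antipodal points
  have small : ∀ P, Pc (Kt γ g t) P → (∀ s, γ s ∈ P → γ (s + Real.pi) ∈ P → False) →
      ∀ n, Adc γ g t (Z n) → (∀ x ∈ P, Z n x = 1) → (∀ x ∈ Kt γ g t \ P, Z n x = 0) →
      Cut (Z n) (Kt γ g t) P → deriv (mz C H g (Z n)) t + Gz γ g t (Z n) ≤ S := by
    intro P hP hanti n hn hn1 hn0 hcut
    have hP' : Pc (Kt γ g t) (Kt γ g t \ P) := by
      refine ⟨sdiff_subset, hP.cl', ?_⟩
      rw [sdiff_sdiff_cancel_left hP.sub]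
      exact hP.cl
    obtain ⟨m, hm, hm1, hm0, hcut'⟩ := piece _ hP'
    rw [sdiff_sdiff_cancel_left hP.sub] at hm0
    have h1 : Gz γ g t (Z n) ≤ Gz γ g t (Z m) := by
      refine Gz_anti hγ hg (hZl n) (hZl m) t fun s hs => ?_
      have h2 : γ s ∈ Kt γ g t := Or.inr ⟨mem_range_self s, hs.2.le⟩
      have h3 : γ (s + Real.pi) ∈ Kt γ g t := Or.inr ⟨mem_range_self _, by
        change t ≤ g (γ (s + Real.pi))
        rw [hev s]
        exact hs.2.le⟩
      have h4 : γ s ∈ P := by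
        by_contra h5
        have h6 := hn0 _ ⟨h2, h5⟩
        rw [hs.1] at h6
        exact one_ne_zero h6
      refine ⟨hm1 _ ⟨h3, fun h5 => hanti s h4 h5⟩, ?_⟩
      change t < g (γ (s + Real.pi))
      rw [hev s]
      exact hs.2
    have h2 := Gle' m hm
    have h3 : S = deriv (mz C H g (Z n)) t + deriv (mz C H g (Z m)) t := by
      obtain ⟨V, V', hV, hV', hPV, hPV', v1, v0⟩ := hcut
      obtain ⟨W, W', hW, hW', hPW, hPW', w1, w0⟩ := hcut'
      rw [sdiff_sdiff_cancel_left hP.sub] at hPW'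
      obtain ⟨δ, hδ, h4⟩ := TMB_lev hg.cont (t := t) (V := (V ∩ W') ∪ (V' ∩ W))
        ((hV.inter hW').union (hV'.inter hW)) (fun x hx => by
          have h5 : x ∈ Kt γ g t := Or.inl hx
          by_cases h6 : x ∈ P
          · exact Or.inl ⟨hPV h6, hPW' h6⟩
          · exact Or.inr ⟨hPV' ⟨h5, h6⟩, hPW ⟨h5, h6⟩⟩)
      have h5 := mz_add C hg (hZl n) (hZ0 n) (hZ1 n) (hZl m) (hZ0 m) (hZ1 m) hl1
        (fun _ => zero_le_one) (fun _ => le_rfl) hH hδ (fun x hx => by
          rcases h4 x hx with h6 | h6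
          · rw [v1 x h6.1, w0 x h6.2, add_zero]
          · rw [v0 x h6.1, w1 x h6.2, zero_add]) (t2 n).hasDerivAt (t2 m).hasDerivAt
      exact h5.deriv
    linarith
  -- components are small
  have comp0 : ∀ x ∈ Kt γ g t, ∀ y ∈ connectedComponentIn (Kt γ g t) x,
      ∀ z ∈ connectedComponentIn (Kt γ g t) x, dist y z ≤ (S + G) / 2 := by
    intro x hx y hy z hz
    obtain ⟨n, hn, hn1, -, hcut⟩ := piece (Kt γ g t) ⟨subset_rfl, hKc, by
      rw [Set.sdiff_self]
      exact isClosed_empty⟩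
    have h1 := conn n hn _ isPreconnected_connectedComponentIn
      (fun w hw => ⟨connectedComponentIn_subset _ _ hw, hn1 _ (connectedComponentIn_subset _ _ hw)⟩)
      y hy z hz
    have h2 := Gle n
    have h3 : deriv (mz C H g (Z n)) t = S := by
      obtain ⟨V, V', hV, hV', hPV, hPV', v1, v0⟩ := hcut
      obtain ⟨δ, hδ, h4⟩ := TMB_lev hg.cont (t := t) hV (fun x hx => hPV (Or.inl hx))
      have h5 := mz_add C hg (hZl n) (hZ0 n) (hZ1 n) (lip_const 0) (fun _ => le_rfl)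
        (fun _ => zero_le_one) hl1 (fun _ => zero_le_one) (fun _ => le_rfl) hH hδ (fun x hx => by
          rw [v1 x (h4 x hx), add_zero]) (t2 n).hasDerivAt (b := 0) (by
          have : mz C H g (fun _ => 0) = fun _ => 0 := by
            funext r
            unfold mz
            simp
          rw [this]
          exact hasDerivAt_const _ _)
      rw [add_zero] at h5
      exact h5.deriv.symm
    linarith
  have comp1 : ∀ x ∈ Kt γ g t, ∀ y ∈ connectedComponentIn (Kt γ g t) x,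
      ∀ z ∈ connectedComponentIn (Kt γ g t) x, dist y z ≤ S / 2 := by
    intro x hx y hy z hz
    set r : ℝ := (Real.pi - (S + G) / 2) / 4 with hr
    have hr0 : 0 < r := by
      rw [hr]
      linarith
    obtain ⟨P, hP, hxP, hPW⟩ := TMB_piece hKc hx (Metric.isOpen_thickening (δ := r)
      (E := connectedComponentIn (Kt γ g t) x)) (Metric.self_subset_thickening hr0 _)
    have hanti : ∀ s, γ s ∈ P → γ (s + Real.pi) ∈ P → False := by
      intro s h1 h2
      obtain ⟨a, ha, ha'⟩ := Metric.mem_thickening_iff.1 (hPW h1)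
      obtain ⟨b, hb, hb'⟩ := Metric.mem_thickening_iff.1 (hPW h2)
      have h3 := comp0 x hx a ha b hb
      have h4 := hγ.anti s
      have h5 := dist_triangle4 (γ s) a b (γ (s + Real.pi))
      rw [dist_comm b] at h5
      rw [hr] at ha' hb'
      linarith
    obtain ⟨n, hn, hn1, hn0, hcut⟩ := piece P hP
    have h6 : connectedComponentIn (Kt γ g t) x ⊆ P := by
      have h7 := isPreconnected_closed_iff.1
        (isPreconnected_connectedComponentIn (x := x) (F := Kt γ g t)) P (Kt γ g t \ P) hP.cl hP.cl'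
        (fun w hw => by
          by_cases h8 : w ∈ P
          · exact Or.inl h8
          · exact Or.inr ⟨connectedComponentIn_subset _ _ hw, h8⟩)
        ⟨x, mem_connectedComponentIn hx, hxP⟩
      intro w hw
      by_contra h8
      obtain ⟨v, -, hv1, hv2⟩ := h7 ⟨w, hw, connectedComponentIn_subset _ _ hw, h8⟩
      exact hv2.2 hv1
    have h7 := conn n hn _ isPreconnected_connectedComponentIn
      (fun w hw => ⟨connectedComponentIn_subset _ _ hw, hn1 _ (h6 hw)⟩) y hy z hz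
    have h8 := small P hP hanti n hn hn1 hn0 hcut
    linarith
  intro η hη
  obtain ⟨n, O, h1, h2, h3, h4⟩ := TMB_cover hKc (b := S / 2 + η / 2) (half_pos hη) (by
    intro x hx
    obtain ⟨P, hP, hxP, hPW⟩ := TMB_piece hKc hx (Metric.isOpen_thickening (δ := η / 4)
      (E := connectedComponentIn (Kt γ g t) x)) (Metric.self_subset_thickening (by linarith) _)
    refine ⟨P, hP, hxP, fun y hy z hz => ?_⟩
    obtain ⟨a, ha, ha'⟩ := Metric.mem_thickening_iff.1 (hPW hy)
    obtain ⟨b, hb, hb'⟩ := Metric.mem_thickening_iff.1 (hPW hz)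
    have h3 := comp1 x hx a ha b hb
    have h5 := dist_triangle4 y a b z
    rw [dist_comm b] at h5
    linarith)
  refine ⟨n, O, h1, h2, h3, fun i x hx y hy => ?_⟩
  have h5 := h4 i x hx y hy
  linarith

end lev

end Pool.Agent.FPM
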