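import Mathlib
import Pool.Agent.FPM.DCB6
import Pool.Agent.FPM.DCB1
import Pool.Agent.FPM.TMB

/-
DCB7 (helper19): double covering at `2π` (F1): for almost every level the values of a 1-Lipschitz function
on the piece `ζ` of the level set, together with the part of the boundary curve above the level, have
measure at most half of the sum of the lengths.
-/

open MeasureTheory Set Filter Topology
open scoped ENNReal NNReal

noncomputable section

namespace Pool.Agent.FPM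

open Pool.Agent.EWD

variable {M : Type} [MetricSpace M] {γ : ℝ → M} [CompactSpace M]

/-- one band -/
theorem F1_band (C : Calc M γ) (hγ : Bd γ) (hR : RegPl C) {g p ζ : M → ℝ} (hg : Lip g)
    (hp : LipschitzWith 1 p) {c d : ℝ} (hcd : c < d) (hζ : Adb γ g c d ζ) {H : Om → ℝ}
    (hH : Integrable H C.μ) (hpg : ∀ᵐ o ∂C.μ, |C.wed p g o| ≤ H o) :
    ∀ᵐ t : ℝ, t ∈ Ioo c d →
      2 * volume (p '' {x | (g x = t ∨ (x ∈ range γ ∧ t ≤ g x)) ∧ ζ x = 1}) ≤
        ENNReal.ofReal (deriv (mz C H g ζ) t + Gz γ g t ζ) := by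
  have := C.fin
  have hpi := Real.pi_pos
  have lp : Lip p := ⟨1, hp⟩
  obtain ⟨Q, hQm, hQ⟩ := C.meas_pt hg
  obtain ⟨P, hPm, hP⟩ := C.meas_pt lp
  have iJ : Integrable (fun o => ζ (C.pt o) * C.wed g p o) C.μ :=
    integrable_zH C hζ.lip hζ.lo hζ.hi (integrable_wed C hg lp)
  obtain ⟨J, hJm, hJ⟩ := iJ.1.aemeasurable
  have hJ' : (fun o => ζ (C.pt o) * C.wed g p o) =ᵐ[C.μ] J := hJ
  have iJ' : Integrable J C.μ := iJ.congr hJ'
  have hH0 : ∀ᵐ o ∂C.μ, 0 ≤ H o := by
    filter_upwards [hpg] with o ho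
    exact (abs_nonneg _).trans ho
  have iW : Integrable (fun o => ζ (C.pt o) * H o) C.μ := integrable_zH C hζ.lip hζ.lo hζ.hi hH
  have iW0 : ∀ᵐ o ∂C.μ, 0 ≤ ζ (C.pt o) * H o := by
    filter_upwards [hH0] with o ho
    exact mul_nonneg (hζ.lo _) ho
  obtain ⟨V, hVm, hV⟩ := iW.1.aemeasurable
  have hV' : (fun o => ζ (C.pt o) * H o) =ᵐ[C.μ] V := hV
  set W : Om → ℝ≥0∞ := fun o => ENNReal.ofReal (V o) with hW
  have hfin : ∫⁻ o, W o ∂C.μ ≠ ∞ := by
    have h1 : ∫⁻ o, W o ∂C.μ = ∫⁻ o, ENNReal.ofReal (ζ (C.pt o) * H o) ∂C.μ := by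
      refine lintegral_congr_ae ?_
      filter_upwards [hV'] with o ho
      simp only [hW, ← ho]
    rw [h1, ← ofReal_integral_eq_lintegral_ofReal iW iW0]
    exact ENNReal.ofReal_ne_top
  have hLa : mz C H g ζ = La C.μ Q W := by
    funext r
    have e1 : ({o | g (C.pt o) < r} : Set Om) =ᵐ[C.μ] (Q ⁻¹' (Iio r) : Set Om) := by
      filter_upwards [hQ] with o ho
      change (g (C.pt o) < r) = (Q o < r)
      rw [ho]
    unfold mz
    rw [setIntegral_congr_set e1]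
    unfold La
    rw [integral_eq_lintegral_of_nonneg_ae (ae_restrict_of_ae iW0) iW.1.restrict]
    congr 1
    refine lintegral_congr_ae (ae_restrict_of_ae ?_)
    filter_upwards [hV'] with o ho
    simp only [hW, ← ho]
  have c1 : Continuous fun r => ζ (γ r) := hζ.lip.cont.comp hγ.lip.continuous
  have c2 : Continuous fun r => g (γ r) := hg.cont.comp hγ.lip.continuous
  set B : Set ℝ := {r | ζ (γ r) = 1} ∩ Ioc 0 (2 * Real.pi) with hB
  have mB1 : MeasurableSet {r | ζ (γ r) = 1} := c1.measurable (measurableSet_singleton 1)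
  have mB : MeasurableSet B := mB1.inter measurableSet_Ioc
  have lf : LipschitzWith 1 fun r => p (γ r) := by
    have := hp.comp hγ.lip
    rwa [mul_one] at this
  have hD : DcbDat C.μ Q P J (fun r => p (γ r)) (fun r => g (γ r)) B c d (-C.sg) := by
    refine ⟨hQm, hPm, hJm, iJ', lf, c2.measurable, mB, ?_, hcd, ?_, ?_⟩
    · refine ne_top_of_le_ne_top ?_ (measure_mono inter_subset_right)
      rw [Real.volume_Ioc]
      exact ENNReal.ofReal_ne_top
    · rcases C.pm with h | h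
      · exact Or.inr (by rw [h])
      · exact Or.inl (by rw [h]; norm_num)
    · intro a b a' b' hca hab hbd hab'
      have h1 := dcb_rect C hγ hcd hg lp hζ hca hab hbd hab'
      have h2 : ∫ o, (Ioo a b ×ˢ Ioo a' b').indicator (fun _ => J o) ((Q o, P o) : ℝ × ℝ) ∂C.μ =
          ∫ o, (Ioo a b ×ˢ Ioo a' b').indicator (fun _ => ζ (C.pt o) * C.wed g p o)
            ((g (C.pt o), p (C.pt o)) : ℝ × ℝ) ∂C.μ := by
        refine integral_congr_ae ?_
        filter_upwards [hQ, hP, hJ'] with o h1 h2 h3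
        simp only [h1, h2, h3]
      rw [h2, h1, neg_neg, intervalIntegral.integral_of_le (by positivity)]
      congr 1
      rw [hB, ← Measure.restrict_restrict mB1, ← integral_indicator mB1]
      refine integral_congr_ae (Eventually.of_forall fun r => ?_)
      simp only
      rcases le_or_gt (g (γ r)) c with h3 | h3
      · have h6 : bnd a b (g (γ r)) = 0 := bnd_lo hab (h3.trans hca)
        by_cases h5 : r ∈ {r | ζ (γ r) = 1}
        · rw [indicator_of_mem h5, h6]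
          simp
        · rw [indicator_of_notMem h5, h6]
          simp
      · rcases hζ.bd r h3.le with h4 | h4
        · have h5 : r ∉ {r | ζ (γ r) = 1} := fun h6 => by
            have h7 : ζ (γ r) = 1 := h6
            rw [h4] at h7
            exact zero_ne_one h7
          rw [indicator_of_notMem h5, h4]
          simp
        · have h5 : r ∈ {r | ζ (γ r) = 1} := h4
          rw [indicator_of_mem h5, h4, one_mul]
  -- the surface part
  set G : Set (ℝ × ℝ) := {v | ∃ x, g x = v.1 ∧ p x = v.2 ∧ ζ x = 1} with hGdef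
  have hG : ∀ᵐ v : ℝ × ℝ, v ∈ G →
      ENNReal.ofReal (2 * Real.pi) ≤
        liminf (fun k => gk C.μ Q P (fun o => ENNReal.ofReal (1 * J o)) k v) atTop ∨
      ENNReal.ofReal (2 * Real.pi) ≤
        liminf (fun k => gk C.μ Q P (fun o => ENNReal.ofReal (-1 * J o)) k v) atTop := by
    filter_upwards [hR g p hg lp] with v hv hvG
    obtain ⟨Z, s, hVz⟩ := hv
    obtain ⟨x, hx1, hx2, hx3⟩ := hvG
    have hxZ : x ∈ Z := by
      rw [hVz.zero]
      exact ⟨by rw [hx1, sub_self], by rw [hx2, sub_self]⟩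
    have h1 := zero_sign hVz hζ.lip hxZ hx3
    have key : ∀ σ : ℝ, (fun k : ℕ => ∫⁻ o, ENNReal.ofReal
        (kr (ek k) (g (C.pt o) - v.1, p (C.pt o) - v.2)) * ENNReal.ofReal (σ * (ζ (C.pt o) *
          C.wed (fun x => g x - v.1) (fun x => p x - v.2) o)) ∂C.μ) =
        fun k => gk C.μ Q P (fun o => ENNReal.ofReal (σ * J o)) k v := by
      intro σ
      funext k
      unfold gk
      refine lintegral_congr_ae ?_
      filter_upwards [hQ, hP, hJ'] with o h1 h2 h3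
      rw [wed_sub_const, h3]
      have e : ((Q o, P o) - v : ℝ × ℝ) = (g (C.pt o) - v.1, p (C.pt o) - v.2) := by
        rw [← h1, ← h2]
        rfl
      rw [e]
    rcases hVz.pm x hxZ with h2 | h2
    · left
      rw [h2, key] at h1
      exact h1
    · right
      rw [h2, key] at h1
      exact h1
  have hWJ : ∀ᵐ o ∂C.μ, ENNReal.ofReal |J o| ≤ W o := by
    filter_upwards [hJ', hV', hpg] with o h1 h2 h3
    simp only [hW]
    rw [← h1, ← h2]
    refine ENNReal.ofReal_le_ofReal ?_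
    rw [abs_mul, abs_of_nonneg (hζ.lo _), wed_antisymm, abs_neg]
    exact mul_le_mul_of_nonneg_left h3 (hζ.lo _)
  filter_upwards [hD.slice hG hWJ hfin] with t ht htI
  obtain ⟨-, h2⟩ := ht htI
  have s1 : p '' {x | (g x = t ∨ (x ∈ range γ ∧ t ≤ g x)) ∧ ζ x = 1} ⊆
      {s | (t, s) ∈ G ∨ ∃ r ∈ B, t < g (γ r) ∧ p (γ r) = s} := by
    rintro s ⟨x, ⟨hx, hx1⟩, rfl⟩
    rcases hx with hx | ⟨hx, hxt⟩
    · exact Or.inl ⟨x, hx, rfl, hx1⟩
    · rcases hxt.eq_or_lt with h3 | h3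
      · exact Or.inl ⟨x, h3.symm, rfl, hx1⟩
      · right
        have hper : Function.Periodic γ (2 * Real.pi) := hγ.per
        rw [← hper.image_Ioc (by positivity) 0, zero_add] at hx
        obtain ⟨r, hr, rfl⟩ := hx
        exact ⟨r, ⟨hx1, hr⟩, h3, rfl⟩
  refine (mul_le_mul' le_rfl (measure_mono s1)).trans (h2.trans ?_)
  have e1 : B ∩ {r | t < g (γ r)} = Apt γ g t ζ ∩ Ioc 0 (2 * Real.pi) := by
    ext r
    constructor
    · rintro ⟨⟨h3, h4⟩, h5⟩
      exact ⟨⟨h3, h5⟩, h4⟩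
    · rintro ⟨⟨h3, h5⟩, h4⟩
      exact ⟨⟨h3, h4⟩, h5⟩
  have fin1 : volume (Apt γ g t ζ ∩ Ioc 0 (2 * Real.pi)) ≠ ∞ := by
    refine ne_top_of_le_ne_top ?_ (measure_mono inter_subset_right)
    rw [Real.volume_Ioc]
    exact ENNReal.ofReal_ne_top
  have e2 : volume (B ∩ {r | t < g (γ r)}) = ENNReal.ofReal (Gz γ g t ζ) := by
    rw [e1]
    unfold Gz
    rw [ENNReal.ofReal_toReal fin1]
  have h3 : 0 ≤ deriv (mz C H g ζ) t := mz_deriv_nonneg C hg hζ.lip hζ.lo hζ.hi hH hH0 t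
  rw [e2, ← hLa, ENNReal.ofReal_add h3 (Gz_nonneg _ _ _ _)]

/-- F1: the double covering -/
theorem F1 (C : Calc M γ) (hγ : Bd γ) (hR : RegPl C) {g p ζ : M → ℝ} (hg : Lip g)
    (hp : LipschitzWith 1 p) {H : Om → ℝ} (hH : Integrable H C.μ) (hpg : ∀ᵐ o ∂C.μ, |C.wed p g o| ≤ H o) :
    ∀ᵐ t : ℝ, DC C H g p ζ t := by
  have key : ∀ᵐ t : ℝ, ∀ c d : ℚ, (c : ℝ) < d → Adb γ g c d ζ → t ∈ Ioo (c : ℝ) d →
      2 * volume (p '' {x | (g x = t ∨ (x ∈ range γ ∧ t ≤ g x)) ∧ ζ x = 1}) ≤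
        ENNReal.ofReal (deriv (mz C H g ζ) t + Gz γ g t ζ) := by
    rw [ae_all_iff]
    intro c
    rw [ae_all_iff]
    intro d
    by_cases hcd : (c : ℝ) < d
    · by_cases hz : Adb γ g c d ζ
      · filter_upwards [F1_band C hγ hR hg hp hcd hz hH hpg] with t ht _ _
        exact ht
      · exact Eventually.of_forall fun t _ h => absurd h hz
    · exact Eventually.of_forall fun t h => absurd h hcd
  filter_upwards [key] with t ht hadc
  obtain ⟨δ, hδ, hA⟩ := hadc.exists_Adb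
  obtain ⟨c, hc1, hc2⟩ := exists_rat_btwn (show t - δ < t by linarith)
  obtain ⟨d, hd1, hd2⟩ := exists_rat_btwn (show t < t + δ by linarith)
  exact ht c d (hc2.trans hd1) (hA.mono hc1.le hd2.le) ⟨hc2, hd1⟩

/-- theorem B without hypotheses -/
theorem TMB' (C : Calc M γ) (hγ : Bd γ) (hR : RegPl C) {g : M → ℝ} (hg : Lip g)
    (hev : ∀ s, g (γ (s + Real.pi)) = g (γ s)) {H : Om → ℝ} (hH : Integrable H C.μ)
    (hpg : ∀ p : M → ℝ, LipschitzWith 1 p → ∀ᵐ o ∂C.μ, |C.wed p g o| ≤ H o) :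
    ∀ᵐ t : ℝ, deriv (mz C H g fun _ => 1) t < Real.pi → Gz γ g t (fun _ => 1) ≤ Real.pi →
      Gz γ g t (fun _ => 1) ≤ deriv (mz C H g fun _ => 1) t ∧
      ∀ η : ℝ, 0 < η → ∃ (n : ℕ) (O : Fin n → Set M), (∀ i, IsOpen (O i)) ∧
        (∀ i j, i ≠ j → Disjoint (O i) (O j)) ∧ Kt γ g t ⊆ ⋃ i, O i ∧
        ∀ i, ∀ x ∈ O i, ∀ y ∈ O i, dist x y ≤ deriv (mz C H g fun _ => 1) t / 2 + η :=
  TMB C hγ hg hev hH hpg fun p _ hp _ _ _ => F1 C hγ hR hg hp hH (hpg p hp)

end Pool.Agent.FPM
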