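import Mathlib
import Pool.Agent.FPM.NMI

/-
INH (helper63): inheritance of boundary properties: near the curve the two calculi agree.
-/

open MeasureTheory Set Filter Topology
open scoped ENNReal NNReal

noncomputable section

namespace Pool.Agent.FPM

open Pool.Agent.EWD Pool.Agent.FPX

variable {M : Type} [MetricSpace M] {γ : ℝ → M} {C : CalcR M γ} (D : Dat C) [CompactSpace M]

/-- integrals over sets for the new measure (no measurability needed) -/
theorem new_setInt (S : Set Om) (f : Om → ℝ) :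
    ∫ o in S, f o ∂(newC D).μ = ∫ o in S, 1 / D.det o * f o ∂C.μ := by
  have := C.fin
  show ∫ o in S, f o ∂(nu D) = _
  unfold nu
  rw [restrict_withDensity', integral_withDensity_eq_integral_toReal_smul₀
    (meas_dens D.toFr).aemeasurable (Filter.Eventually.of_forall fun _ => ENNReal.ofReal_lt_top)]
  refine integral_congr_ae (Filter.Eventually.of_forall fun o => ?_)
  simp only [smul_eq_mul]
  rw [ENNReal.toReal_ofReal (D.inv_det_pos o).le]

/-- the integral of `f du ∧ dw` over a set does not depend on the metric -/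
theorem new_setInt_wed {u w : M → ℝ} (hu : Lip u) (hw : Lip w) (S : Set Om) (f : Om → ℝ) :
    ∫ o in S, f o * (newC D).wed u w o ∂(newC D).μ = ∫ o in S, f o * C.wed u w o ∂C.μ := by
  rw [new_setInt]
  refine integral_congr_ae ?_
  filter_upwards [ae_restrict_of_ae (new_wed D hu hw)] with o ho
  rw [ho]
  have h3 := D.det_pos o
  field_simp

/-- the set where a boundary function is small lies near the curve -/
theorem near_of_small {b : M → ℝ} (hb : Continuous b)
    (hz : ∀ x, b x ≤ 0 → x ∈ range γ) {r : ℝ} (hr : 0 < r) :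
    ∃ σ₀ : ℝ, 0 < σ₀ ∧ ∀ x, b x < σ₀ → Metric.infDist x (range γ) < r := by
  by_cases hne : {x : M | r ≤ Metric.infDist x (range γ)}.Nonempty
  · have hcl : IsClosed {x : M | r ≤ Metric.infDist x (range γ)} :=
      isClosed_le continuous_const (Metric.continuous_infDist_pt _)
    obtain ⟨x₀, hx₀, hmin⟩ := hcl.isCompact.exists_isMinOn hne hb.continuousOn
    have hpos : 0 < b x₀ := by
      by_contra hcon
      push Not at hcon
      have h1 := hz x₀ hcon
      have h2 : Metric.infDist x₀ (range γ) = 0 := Metric.infDist_zero_of_mem h1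
      have h3 : r ≤ Metric.infDist x₀ (range γ) := hx₀
      linarith
    refine ⟨b x₀, hpos, fun x hx => ?_⟩
    by_contra hcon
    push Not at hcon
    have := hmin hcon
    exact absurd hx (not_lt.2 this)
  · refine ⟨1, one_pos, fun x _ => ?_⟩
    by_contra hcon
    push Not at hcon
    exact hne ⟨x, hcon⟩

/-- where a boundary function is small the metrics agree -/
theorem new_small {b : M → ℝ} (hb : Continuous b)
    (hz : ∀ x, b x ≤ 0 → x ∈ range γ) : ∃ σ₀ : ℝ, 0 < σ₀ ∧ ∀ u : M → ℝ, Lip u → ∀ᵐ o ∂C.μ,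
      b (C.pt o) < σ₀ → D.det o = 1 ∧ (newC D).gx u o = C.gx u o ∧ (newC D).gy u o = C.gy u o := by
  obtain ⟨r, hr, h1⟩ := D.near
  obtain ⟨σ₀, hσ, h2⟩ := near_of_small hb hz hr
  refine ⟨σ₀, hσ, fun u hu => ?_⟩
  filter_upwards [h1, new_grad D hu] with o h3 h4 hlt
  obtain ⟨a1, b1, c1, d1⟩ := h3 (h2 _ hlt)
  rw [h4.1, h4.2]
  unfold Fr.det
  rw [a1, b1, c1, d1]
  norm_num

/-- inheritance of collar estimates -/
theorem new_collar {b : M → ℝ} (hb : Lip b) (hz : ∀ x, b x ≤ 0 → x ∈ range γ)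
    (ψ : M → ℝ) :
    ∃ σ₀ : ℝ, 0 < σ₀ ∧ ∀ σ ≤ σ₀, ∫ o in {o | b ((newC D).pt o) < σ}, ψ ((newC D).pt o) *
        √((newC D).gx b o ^ 2 + (newC D).gy b o ^ 2) ∂(newC D).μ
      = ∫ o in {o | b (C.pt o) < σ}, ψ (C.pt o) * √(C.gx b o ^ 2 + C.gy b o ^ 2) ∂C.μ := by
  obtain ⟨σ₀, hσ, h1⟩ := new_small D hb.cont hz
  refine ⟨σ₀, hσ, fun σ hσσ => ?_⟩
  rw [new_setInt]
  have hset : {o | b ((newC D).pt o) < σ} = {o | b (C.pt o) < σ} := by
    ext o
    simp only [new_pt]
    rfl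
  rw [hset]
  have hnull : NullMeasurableSet {o | b (C.pt o) < σ} C.μ :=
    nullMeasurableSet_lt (C.meas_pt hb) aemeasurable_const
  refine setIntegral_congr_ae₀ hnull ?_
  filter_upwards [h1 b hb] with o h2 h3
  obtain ⟨h4, h5, h6⟩ := h2 (lt_of_lt_of_le h3 hσσ)
  rw [h4, h5, h6, new_pt]
  rw [div_one, one_mul]
  rfl

/-- inheritance of collar estimates, in the form used by SU4 -/
theorem new_colb_ev {b : M → ℝ} (hb : Lip b) (hz : ∀ x, b x ≤ 0 → x ∈ range γ)
    {ψ : M → ℝ} {R : ℝ} (h : ∀ᶠ σ in 𝓝[>] (0 : ℝ),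
      ∫ o in {o | b (C.pt o) < σ}, ψ (C.pt o) * √(C.gx b o ^ 2 + C.gy b o ^ 2) ∂C.μ ≤ σ * R) :
    ∀ᶠ σ in 𝓝[>] (0 : ℝ), ∫ o in {o | b ((newC D).pt o) < σ}, ψ ((newC D).pt o) *
        √((newC D).gx b o ^ 2 + (newC D).gy b o ^ 2) ∂(newC D).μ ≤ σ * R := by
  obtain ⟨σ₀, hσ, h1⟩ := new_collar D hb hz ψ
  filter_upwards [h, Ioo_mem_nhdsGT hσ] with σ h2 h3
  rw [h1 σ h3.2.le]
  exact h2

/-- almost no parameter is on the curve -/
theorem new_notMem (h : ∀ᵐ o ∂C.μ, C.pt o ∉ range γ) : ∀ᵐ o ∂(newC D).μ, (newC D).pt o ∉ range (ga γ D) := by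
  rw [new_ae]
  filter_upwards [h] with o ho
  rw [new_pt]
  exact ho

end Pool.Agent.FPM
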