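import Mathlib
import Pool.Agent.EWD.RUL

/-
SU1 (helper93): the algebra of the surgery. In an orthonormal frame of the old metric the new metric
is `α + q qᵀ`; `sA` is the inverse of its symmetric square root, so that `|sA ξ|` is the new norm of
the covector `ξ`.
-/

open MeasureTheory Set Filter Topology
open scoped ENNReal NNReal

noncomputable section

namespace Pool.Agent.FPM

/-- `√(α + |q|²)` -/
def sS (α p q : ℝ) : ℝ := √(α + (p ^ 2 + q ^ 2))

/-- `(1 - A √α) / |q|²` along `q` -/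
def sK (α p q : ℝ) : ℝ := 1 / (sS α p q * (sS α p q + √α))

/-- first entry of the frame change -/
def sA11 (α p q : ℝ) : ℝ := (1 - sK α p q * p ^ 2) / √α

/-- off diagonal entry of the frame change -/
def sA12 (α p q : ℝ) : ℝ := -(sK α p q * (p * q)) / √α

/-- last entry of the frame change -/
def sA22 (α p q : ℝ) : ℝ := (1 - sK α p q * q ^ 2) / √α

theorem sS_pos {α : ℝ} (hα : 0 < α) (p q : ℝ) : 0 < sS α p q := by
  unfold sS
  positivity

theorem sS_sq {α : ℝ} (hα : 0 < α) (p q : ℝ) : sS α p q ^ 2 = α + (p ^ 2 + q ^ 2) := by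
  unfold sS
  exact Real.sq_sqrt (by positivity)

theorem sqrt_le_sS {α : ℝ} (_hα : 0 < α) (p q : ℝ) : √α ≤ sS α p q := by
  unfold sS
  exact Real.sqrt_le_sqrt (by nlinarith [sq_nonneg p, sq_nonneg q])

/-- `K |q|² = 1 - √α / S` -/
theorem sK_mul {α : ℝ} (hα : 0 < α) (p q : ℝ) :
    sK α p q * (p ^ 2 + q ^ 2) = 1 - √α / sS α p q := by
  have h1 := sS_pos hα p q
  have h2 : 0 < √α := Real.sqrt_pos.2 hα
  have h3 := sS_sq hα p q
  have h4 : √α ^ 2 = α := Real.sq_sqrt hα.le
  unfold sK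
  have h5 : p ^ 2 + q ^ 2 = (sS α p q - √α) * (sS α p q + √α) := by nlinarith
  rw [h5]
  field_simp

theorem sA_det {α : ℝ} (hα : 0 < α) (p q : ℝ) :
    sA11 α p q * sA22 α p q - sA12 α p q ^ 2 = 1 / (√α * sS α p q) := by
  have h1 := sS_pos hα p q
  have h2 : 0 < √α := Real.sqrt_pos.2 hα
  have h3 := sK_mul hα p q
  have h4 : √α ^ 2 = α := Real.sq_sqrt hα.le
  have h5 : sA11 α p q * sA22 α p q - sA12 α p q ^ 2 = (1 - sK α p q * (p ^ 2 + q ^ 2)) / √α ^ 2 := by
    unfold sA11 sA12 sA22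
    field_simp
    ring
  rw [h5, h3]
  field_simp
  ring

theorem sA_det_pos {α : ℝ} (hα : 0 < α) (p q : ℝ) :
    0 < sA11 α p q * sA22 α p q - sA12 α p q ^ 2 := by
  rw [sA_det hα]
  have h1 := sS_pos hα p q
  have h2 : 0 < √α := Real.sqrt_pos.2 hα
  positivity

/-- the area factor -/
theorem sA_area {α : ℝ} (hα : 0 < α) (p q : ℝ) :
    1 / (sA11 α p q * sA22 α p q - sA12 α p q ^ 2) = √α * sS α p q := by
  rw [sA_det hα, one_div_one_div]

theorem sA_area_le {α : ℝ} (hα : 0 < α) (p q : ℝ) :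
    √α * sS α p q ≤ α + √α * √(p ^ 2 + q ^ 2) := by
  have h2 : 0 < √α := Real.sqrt_pos.2 hα
  have h4 : √α * √α = α := Real.mul_self_sqrt hα.le
  have h5 : sS α p q ≤ √α + √(p ^ 2 + q ^ 2) := by
    unfold sS
    refine Real.sqrt_le_iff.2 ⟨by positivity, ?_⟩
    have e1 := Real.sq_sqrt hα.le
    have e2 := Real.sq_sqrt (show 0 ≤ p ^ 2 + q ^ 2 by positivity)
    have e3 : 0 ≤ √α * √(p ^ 2 + q ^ 2) := by positivity
    nlinarith
  calc √α * sS α p q ≤ √α * (√α + √(p ^ 2 + q ^ 2)) := mul_le_mul_of_nonneg_left h5 h2.le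
    _ = _ := by rw [mul_add, h4]

/-- the new norm of a covector -/
theorem sA_norm {α : ℝ} (hα : 0 < α) (p q x y : ℝ) :
    (sA11 α p q * x + sA12 α p q * y) ^ 2 + (sA12 α p q * x + sA22 α p q * y) ^ 2
      = (x ^ 2 + y ^ 2 - (p * x + q * y) ^ 2 / (α + (p ^ 2 + q ^ 2))) / α := by
  have h1 := sS_pos hα p q
  have h2 : 0 < √α := Real.sqrt_pos.2 hα
  have h3 := sK_mul hα p q
  have h4 : √α ^ 2 = α := Real.sq_sqrt hα.le
  have h6 := sS_sq hα p q
  rw [← h6]
  set K := sK α p q with hK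
  set S := sS α p q with hS
  have h7 : K * (p ^ 2 + q ^ 2) * S = S - √α := by
    rw [h3]; field_simp
  have h8 : 2 * K - K * (K * (p ^ 2 + q ^ 2)) = 1 / S ^ 2 := by
    have h9 : K * (S * (S + √α)) = 1 := by
      rw [hK]
      unfold sK
      rw [← hS]
      field_simp
    rw [h3]
    have h10 : K = 1 / (S * (S + √α)) := by
      rw [hK]
      unfold sK
      rw [← hS]
    rw [h10]
    field_simp
    ring
  have h11 : (sA11 α p q * x + sA12 α p q * y) ^ 2 + (sA12 α p q * x + sA22 α p q * y) ^ 2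
      = (x ^ 2 + y ^ 2 - (2 * K - K * (K * (p ^ 2 + q ^ 2))) * (p * x + q * y) ^ 2) / √α ^ 2 := by
    unfold sA11 sA12 sA22
    rw [← hK]
    field_simp
    ring
  rw [h11, h8, h4]
  ring

/-- the Cauchy-Schwarz inequality of the surgery -/
theorem sA_le {α : ℝ} (hα : 0 < α) (p q : ℝ) {a b : ℝ} (hab : a ^ 2 + b ^ 2 ≤ 1) (X Y : ℝ) :
    (sA11 α p q * (X * a + Y * p) + sA12 α p q * (X * b + Y * q)) ^ 2
      + (sA12 α p q * (X * a + Y * p) + sA22 α p q * (X * b + Y * q)) ^ 2 ≤ X ^ 2 / α + Y ^ 2 := by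
  rw [sA_norm hα]
  have h1 : 0 < α + (p ^ 2 + q ^ 2) := by positivity
  have h2 : X ^ 2 / α + Y ^ 2 - ((X * a + Y * p) ^ 2 + (X * b + Y * q) ^ 2
      - (p * (X * a + Y * p) + q * (X * b + Y * q)) ^ 2 / (α + (p ^ 2 + q ^ 2))) / α
      = (X ^ 2 * (α + (p ^ 2 + q ^ 2)) * (1 - (a ^ 2 + b ^ 2)) + (X * (p * a + q * b) - α * Y) ^ 2)
        / (α * (α + (p ^ 2 + q ^ 2))) := by
    field_simp
    ring
  have h3 : 0 ≤ (X ^ 2 * (α + (p ^ 2 + q ^ 2)) * (1 - (a ^ 2 + b ^ 2)) + (X * (p * a + q * b) - α * Y) ^ 2)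
        / (α * (α + (p ^ 2 + q ^ 2))) := by
    have : 0 ≤ 1 - (a ^ 2 + b ^ 2) := by linarith
    positivity
  linarith

/-- the depth function of the profile on the potential `m` -/
def sR (a r : ℝ) : ℝ := max 0 (1 - max 0 (r - a) / (Real.pi / 2))

/-- truncation at `± a` -/
def sC (a s : ℝ) : ℝ := max (-a) (min a s)

/-- the profile of the surgery: `m + s` at depth `0`, `0` at depth `a + π / 2` -/
def sG (a m s r : ℝ) : ℝ := m * sR a r +
  2 * a / Real.pi * Real.arcsin (Real.sin (Real.pi * sC a s / (2 * a)) * Real.cos (Real.pi * sC a r / (2 * a)))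

/-- the factor of the metric at depth `r` -/
def sAl (a κ r : ℝ) : ℝ := max κ (Real.cos (Real.pi * sC a r / (2 * a)) ^ 2)

theorem sAl_ge (a κ r : ℝ) : κ ≤ sAl a κ r := le_max_left _ _

theorem sC_eq {a s : ℝ} (h1 : -a ≤ s) (h2 : s ≤ a) : sC a s = s := by
  unfold sC
  rw [min_eq_right h2, max_eq_right h1]

theorem sC_top {a s : ℝ} (h0 : 0 ≤ a) (h : a ≤ s) : sC a s = a := by
  unfold sC
  rw [min_eq_left h, max_eq_right (by linarith)]

theorem sC_mem {a : ℝ} (h0 : 0 ≤ a) (s : ℝ) : -a ≤ sC a s ∧ sC a s ≤ a :=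
  ⟨le_max_left _ _, max_le (by linarith) (min_le_left _ _)⟩

theorem sR_zero {a r : ℝ} (h : r ≤ a) : sR a r = 1 := by
  unfold sR
  rw [max_eq_left (by linarith : r - a ≤ 0)]
  simp

theorem sR_end {a r : ℝ} (h : a + Real.pi / 2 ≤ r) : sR a r = 0 := by
  have hp : 0 < Real.pi / 2 := by positivity
  unfold sR
  have h1 : Real.pi / 2 ≤ r - a := by linarith
  have h2 : 1 ≤ max 0 (r - a) / (Real.pi / 2) := by
    rw [le_div_iff₀ hp, one_mul]
    exact h1.trans (le_max_right _ _)
  exact max_eq_left (by linarith)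

theorem sR_mem (a r : ℝ) : 0 ≤ sR a r ∧ sR a r ≤ 1 := by
  have hp : 0 < Real.pi / 2 := by positivity
  refine ⟨le_max_left _ _, max_le zero_le_one ?_⟩
  have : 0 ≤ max 0 (r - a) / (Real.pi / 2) := by positivity
  linarith

/-- the angle at depth `0` -/
theorem sG_zero {a m s : ℝ} (ha : 0 < a) (hs : |s| ≤ a) {r : ℝ} (hr : r = 0) : sG a m s r = m + s := by
  subst hr
  obtain ⟨h1, h2⟩ := abs_le.1 hs
  have hp := Real.pi_pos
  unfold sG
  rw [sR_zero ha.le, sC_eq h1 h2, sC_eq (by linarith) ha.le]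
  simp only [mul_zero, zero_div, Real.cos_zero, mul_one]
  rw [Real.arcsin_sin]
  · field_simp
  · rw [← neg_div, div_le_div_iff₀ two_pos (by positivity)]
    nlinarith
  · rw [div_le_div_iff₀ (by positivity) two_pos]
    nlinarith

theorem sG_deep {a m s r : ℝ} (ha : 0 < a) (hr : a ≤ r) : sG a m s r = m * sR a r := by
  have hp := Real.pi_pos
  unfold sG
  rw [sC_top ha.le hr]
  have : Real.pi * a / (2 * a) = Real.pi / 2 := by field_simp
  rw [this, Real.cos_pi_div_two]
  simp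

theorem sG_end {a m s r : ℝ} (ha : 0 < a) (hr : a + Real.pi / 2 ≤ r) : sG a m s r = 0 := by
  have hp := Real.pi_pos
  rw [sG_deep ha (by linarith), sR_end hr, mul_zero]

theorem sC_neg {a : ℝ} (h0 : 0 ≤ a) (s : ℝ) : sC a (-s) = - sC a s := by
  unfold sC
  rcases le_total s a with h1 | h1
  · rcases le_total (-a) s with h2 | h2
    · rw [min_eq_right h1, max_eq_right h2, min_eq_right (by linarith : -s ≤ a),
        max_eq_right (by linarith : -a ≤ -s)]
    · rw [min_eq_right h1, max_eq_left h2, min_eq_left (by linarith : a ≤ -s),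
        max_eq_right (by linarith : -a ≤ a), neg_neg]
  · rw [min_eq_left h1, max_eq_right (by linarith : -a ≤ a), min_eq_right (by linarith : -s ≤ a),
      max_eq_left (by linarith : -s ≤ -a)]

theorem sG_neg {a m s r : ℝ} (ha : 0 < a) : sG a (-m) (-s) r = - sG a m s r := by
  unfold sG
  rw [sC_neg ha.le]
  have e : Real.pi * -sC a s / (2 * a) = -(Real.pi * sC a s / (2 * a)) := by ring
  rw [e, Real.sin_neg]
  have e2 : -Real.sin (Real.pi * sC a s / (2 * a)) * Real.cos (Real.pi * sC a r / (2 * a))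
      = -(Real.sin (Real.pi * sC a s / (2 * a)) * Real.cos (Real.pi * sC a r / (2 * a))) := by ring
  rw [e2, Real.arcsin_neg]
  ring

theorem SU1_lt {A B : ℝ} (hA : A ∈ Ioo (-(Real.pi / 2)) (Real.pi / 2)) :
    (Real.sin A * Real.cos B) ^ 2 < 1 := by
  have hcA : 0 < Real.cos A := Real.cos_pos_of_mem_Ioo hA
  have h1 := Real.sin_sq_add_cos_sq A
  have h2 := Real.sin_sq_add_cos_sq B
  have h3 : Real.sin A ^ 2 < 1 := by nlinarith [mul_pos hcA hcA]
  have h4 : Real.cos B ^ 2 ≤ 1 := by nlinarith [sq_nonneg (Real.sin B)]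
  rw [mul_pow]
  nlinarith [sq_nonneg (Real.sin A), sq_nonneg (Real.cos B)]

theorem SU1_asin {v : ℝ} (hv : v ^ 2 < 1) : HasDerivAt Real.arcsin (1 / √(1 - v ^ 2)) v := by
  refine Real.hasDerivAt_arcsin ?_ ?_
  · intro h
    rw [h] at hv
    norm_num at hv
  · intro h
    rw [h] at hv
    norm_num at hv

theorem SU1_cl : closure (Ioo (-(Real.pi / 2)) (Real.pi / 2)) = Icc (-(Real.pi / 2)) (Real.pi / 2) := by
  have hp := Real.pi_pos
  exact closure_Ioo (by linarith)

/-- the latitude of a point of the sphere is 1-Lipschitz in the first angle -/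
theorem SU1_left {A A' B : ℝ} (hA : A ∈ Icc (-(Real.pi / 2)) (Real.pi / 2))
    (hA' : A' ∈ Icc (-(Real.pi / 2)) (Real.pi / 2)) :
    |Real.arcsin (Real.sin A * Real.cos B) - Real.arcsin (Real.sin A' * Real.cos B)| ≤ |A - A'| := by
  have hd : ∀ x ∈ Ioo (-(Real.pi / 2)) (Real.pi / 2),
      HasDerivAt (fun x => Real.arcsin (Real.sin x * Real.cos B))
        (1 / √(1 - (Real.sin x * Real.cos B) ^ 2) * (Real.cos x * Real.cos B)) x := by
    intro x hx
    exact (SU1_asin (SU1_lt hx)).comp x ((Real.hasDerivAt_sin x).mul_const _)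
  have h : LipschitzOnWith 1 (fun x => Real.arcsin (Real.sin x * Real.cos B))
      (Ioo (-(Real.pi / 2)) (Real.pi / 2)) := by
    refine Convex.lipschitzOnWith_of_nnnorm_deriv_le
      (fun x hx => (hd x hx).differentiableAt) (fun x hx => ?_) (convex_Ioo _ _)
    rw [← NNReal.coe_le_coe, coe_nnnorm, NNReal.coe_one]
    rw [(hd x hx).deriv, Real.norm_eq_abs, ← sq_le_one_iff_abs_le_one, mul_pow, div_pow, one_pow]
    have h1 := SU1_lt (B := B) hx
    have h0 : 0 < 1 - (Real.sin x * Real.cos B) ^ 2 := by linarith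
    rw [Real.sq_sqrt h0.le, one_div, inv_mul_le_iff₀ h0, mul_one, mul_pow, mul_pow]
    have h2 := Real.sin_sq_add_cos_sq x
    have h3 := Real.sin_sq_add_cos_sq B
    nlinarith [sq_nonneg (Real.sin B)]
  have h2 := h.closure (by
    refine Continuous.continuousOn ?_
    exact Real.continuous_arcsin.comp (Real.continuous_sin.mul continuous_const))
  rw [SU1_cl] at h2
  have h3 := h2.dist_le_mul A hA A' hA'
  rwa [NNReal.coe_one, one_mul, Real.dist_eq, Real.dist_eq] at h3

theorem SU1_right {A B B' : ℝ} (hA : A ∈ Icc (-(Real.pi / 2)) (Real.pi / 2)) :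
    |Real.arcsin (Real.sin A * Real.cos B) - Real.arcsin (Real.sin A * Real.cos B')| ≤ |B - B'| := by
  have key : ∀ A ∈ Ioo (-(Real.pi / 2)) (Real.pi / 2),
      |Real.arcsin (Real.sin A * Real.cos B) - Real.arcsin (Real.sin A * Real.cos B')| ≤ |B - B'| := by
    intro A hA
    have hd : ∀ x ∈ (univ : Set ℝ),
        HasDerivAt (fun x => Real.arcsin (Real.sin A * Real.cos x))
          (1 / √(1 - (Real.sin A * Real.cos x) ^ 2) * (Real.sin A * -Real.sin x)) x := by
      intro x _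
      exact (SU1_asin (SU1_lt hA)).comp x ((Real.hasDerivAt_cos x).const_mul _)
    have h := Convex.norm_image_sub_le_of_norm_deriv_le (C := 1)
      (fun x hx => (hd x hx).differentiableAt) (fun x hx => ?_) convex_univ (mem_univ B') (mem_univ B)
    · simpa using h
    · rw [(hd x hx).deriv, Real.norm_eq_abs, ← sq_le_one_iff_abs_le_one, mul_pow, div_pow, one_pow]
      have h1 := SU1_lt (B := x) hA
      have h0 : 0 < 1 - (Real.sin A * Real.cos x) ^ 2 := by linarith
      rw [Real.sq_sqrt h0.le, one_div, inv_mul_le_iff₀ h0, mul_one, mul_pow, mul_pow]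
      have h2 := Real.sin_sq_add_cos_sq x
      have h3 := Real.sin_sq_add_cos_sq A
      nlinarith [sq_nonneg (Real.cos A)]
  rw [← SU1_cl] at hA
  refine le_on_closure key ?_ continuousOn_const hA
  refine Continuous.continuousOn ?_
  exact ((Real.continuous_arcsin.comp (Real.continuous_sin.mul continuous_const)).sub
    (Real.continuous_arcsin.comp (Real.continuous_sin.mul continuous_const))).abs

theorem sC_lip (a : ℝ) (s s' : ℝ) : |sC a s - sC a s'| ≤ |s - s'| := by
  have h : LipschitzWith 1 (fun t : ℝ => sC a t) := (LipschitzWith.id.const_min a).const_max (-a)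
  have h1 := h.dist_le_mul s s'
  rwa [NNReal.coe_one, one_mul, Real.dist_eq, Real.dist_eq] at h1

theorem sR_lip (a r r' : ℝ) : |sR a r - sR a r'| ≤ |r - r'| := by
  have hp : 0 < Real.pi / 2 := by positivity
  have hp1 : 1 ≤ Real.pi / 2 := by linarith [Real.pi_gt_three]
  have h : LipschitzWith 1 (fun t : ℝ => max 0 (1 - t)) := by
    refine LipschitzWith.const_max ?_ 0
    refine LipschitzWith.of_dist_le_mul fun x y => ?_
    rw [NNReal.coe_one, one_mul, Real.dist_eq, Real.dist_eq, abs_sub_comm x y]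
    exact le_of_eq (by congr 1; ring)
  have h1 := h.dist_le_mul (max 0 (r - a) / (Real.pi / 2)) (max 0 (r' - a) / (Real.pi / 2))
  rw [NNReal.coe_one, one_mul, Real.dist_eq, Real.dist_eq] at h1
  refine h1.trans ?_
  rw [← sub_div, abs_div, abs_of_pos hp, div_le_iff₀ hp]
  have h2 : LipschitzWith 1 (fun t : ℝ => max 0 (t - a)) := by
    refine LipschitzWith.const_max ?_ 0
    refine LipschitzWith.of_dist_le_mul fun x y => ?_
    rw [NNReal.coe_one, one_mul, Real.dist_eq, Real.dist_eq]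
    exact le_of_eq (by congr 1; ring)
  have h3 := h2.dist_le_mul r r'
  rw [NNReal.coe_one, one_mul, Real.dist_eq, Real.dist_eq] at h3
  nlinarith [abs_nonneg (r - r')]

theorem SU1_ang {a : ℝ} (ha : 0 < a) (s : ℝ) :
    Real.pi * sC a s / (2 * a) ∈ Icc (-(Real.pi / 2)) (Real.pi / 2) := by
  have hp := Real.pi_pos
  obtain ⟨h1, h2⟩ := sC_mem ha.le s
  constructor
  · rw [← neg_div, div_le_div_iff₀ two_pos (by positivity)]
    nlinarith
  · rw [div_le_div_iff₀ (by positivity) two_pos]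
    nlinarith

/-- the profile is Lipschitz -/
theorem sG_lip {a m : ℝ} (ha : 0 < a) (hm : |m| ≤ Real.pi / 2) (s s' r r' : ℝ) :
    |sG a m s r - sG a m s' r'| ≤ |s - s'| + 3 * |r - r'| := by
  have hp := Real.pi_pos
  have hp4 : Real.pi < 4 := Real.pi_lt_four
  have h1 := SU1_left (B := Real.pi * sC a r / (2 * a)) (SU1_ang ha s) (SU1_ang ha s')
  have h2 := SU1_right (B := Real.pi * sC a r / (2 * a)) (B' := Real.pi * sC a r' / (2 * a)) (SU1_ang ha s')
  have e1 : |Real.pi * sC a s / (2 * a) - Real.pi * sC a s' / (2 * a)| = Real.pi / (2 * a) * |sC a s - sC a s'| := by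
    have e3 : 0 < Real.pi / (2 * a) := by positivity
    nth_rewrite 1 [← abs_of_pos e3]
    rw [← abs_mul]
    congr 1
    ring
  have e2 : |Real.pi * sC a r / (2 * a) - Real.pi * sC a r' / (2 * a)| = Real.pi / (2 * a) * |sC a r - sC a r'| := by
    have e3 : 0 < Real.pi / (2 * a) := by positivity
    nth_rewrite 1 [← abs_of_pos e3]
    rw [← abs_mul]
    congr 1
    ring
  rw [e1] at h1
  rw [e2] at h2
  set P := Real.arcsin (Real.sin (Real.pi * sC a s / (2 * a)) * Real.cos (Real.pi * sC a r / (2 * a))) with hP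
  set Q := Real.arcsin (Real.sin (Real.pi * sC a s' / (2 * a)) * Real.cos (Real.pi * sC a r / (2 * a))) with hQ
  set T := Real.arcsin (Real.sin (Real.pi * sC a s' / (2 * a)) * Real.cos (Real.pi * sC a r' / (2 * a))) with hT
  have e : sG a m s r - sG a m s' r' = m * (sR a r - sR a r') + 2 * a / Real.pi * (P - Q)
      + 2 * a / Real.pi * (Q - T) := by
    unfold sG
    rw [← hP, ← hT]
    ring
  rw [e]
  have hc : 0 < 2 * a / Real.pi := by positivity
  have h3 : |m * (sR a r - sR a r')| ≤ 2 * |r - r'| := by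
    rw [abs_mul]
    exact mul_le_mul (by linarith) (sR_lip a r r') (abs_nonneg _) (by norm_num)
  have h4 : |2 * a / Real.pi * (P - Q)| ≤ |s - s'| := by
    rw [abs_mul, abs_of_pos hc]
    calc 2 * a / Real.pi * |P - Q| ≤ 2 * a / Real.pi * (Real.pi / (2 * a) * |sC a s - sC a s'|) :=
          mul_le_mul_of_nonneg_left h1 hc.le
      _ = |sC a s - sC a s'| := by field_simp
      _ ≤ _ := sC_lip a s s'
  have h5 : |2 * a / Real.pi * (Q - T)| ≤ |r - r'| := by
    rw [abs_mul, abs_of_pos hc]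
    calc 2 * a / Real.pi * |Q - T| ≤ 2 * a / Real.pi * (Real.pi / (2 * a) * |sC a r - sC a r'|) :=
          mul_le_mul_of_nonneg_left h2 hc.le
      _ = |sC a r - sC a r'| := by field_simp
      _ ≤ _ := sC_lip a r r'
  calc |m * (sR a r - sR a r') + 2 * a / Real.pi * (P - Q) + 2 * a / Real.pi * (Q - T)|
      ≤ |m * (sR a r - sR a r')| + |2 * a / Real.pi * (P - Q)| + |2 * a / Real.pi * (Q - T)| :=
        abs_add_three _ _ _
    _ ≤ _ := by linarith

/-- the derivative of the profile along a curve; `X` and `Y` are its partial derivatives -/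
theorem sG_deriv {a m s r κ : ℝ} (ha : 0 < a) (hκ : 0 < κ) (hm : |m| ≤ Real.pi / 2) (hs : |s| < a)
    (hr : -a < r) (hra : r ≠ a) (hrb : r ≠ a + Real.pi / 2) :
    ∃ X Y : ℝ, X ^ 2 / sAl a κ r + Y ^ 2 ≤ 1 ∧ ∀ (f g : ℝ → ℝ) (f' g' : ℝ), f 0 = s → g 0 = r →
      HasDerivAt f f' 0 → HasDerivAt g g' 0 →
      HasDerivAt (fun t => sG a m (f t) (g t)) (X * f' + Y * g') 0 := by
  have hp := Real.pi_pos
  have hal : 0 < sAl a κ r := lt_of_lt_of_le hκ (sAl_ge a κ r)
  obtain ⟨hs1, hs2⟩ := abs_lt.1 hs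
  rcases lt_or_gt_of_ne hra with hr2 | hr2
  · set A : ℝ := Real.pi * s / (2 * a) with hA
    set B : ℝ := Real.pi * r / (2 * a) with hB
    set v : ℝ := Real.sin A * Real.cos B with hv
    have hA1 : -(Real.pi / 2) < A := by
      rw [hA, ← neg_div, div_lt_div_iff₀ two_pos (by positivity)]
      nlinarith
    have hA2 : A < Real.pi / 2 := by
      rw [hA, div_lt_div_iff₀ (by positivity) two_pos]
      nlinarith
    have hcA : 0 < Real.cos A := Real.cos_pos_of_mem_Ioo ⟨hA1, hA2⟩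
    have hsA : Real.sin A ^ 2 < 1 := by
      have := Real.sin_sq_add_cos_sq A
      nlinarith [sq_nonneg (Real.cos A), mul_pos hcA hcA]
    have hcB : Real.cos B ^ 2 ≤ 1 := by
      have := Real.sin_sq_add_cos_sq B
      nlinarith [sq_nonneg (Real.sin B)]
    have hv2 : v ^ 2 < 1 := by
      rw [hv, mul_pow]
      nlinarith [sq_nonneg (Real.sin A), sq_nonneg (Real.cos B)]
    have hv0 : 0 < 1 - v ^ 2 := by linarith
    have hd : 0 < √(1 - v ^ 2) := Real.sqrt_pos.2 hv0
    have hdd : √(1 - v ^ 2) ^ 2 = 1 - v ^ 2 := Real.sq_sqrt hv0.le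
    refine ⟨Real.cos A * Real.cos B / √(1 - v ^ 2), -(Real.sin A * Real.sin B) / √(1 - v ^ 2), ?_, ?_⟩
    · have e1 : Real.cos B ^ 2 ≤ sAl a κ r := by
        unfold sAl
        rw [sC_eq hr.le hr2.le]
        exact le_max_right _ _
      have e2 : (Real.cos A * Real.cos B / √(1 - v ^ 2)) ^ 2 / sAl a κ r
          ≤ Real.cos A ^ 2 / (1 - v ^ 2) := by
        rw [div_le_iff₀ hal, div_pow, hdd, mul_pow, div_mul_eq_mul_div]
        exact div_le_div_of_nonneg_right (mul_le_mul_of_nonneg_left e1 (sq_nonneg _)) hv0.le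
      have e3 : (-(Real.sin A * Real.sin B) / √(1 - v ^ 2)) ^ 2
          = Real.sin A ^ 2 * Real.sin B ^ 2 / (1 - v ^ 2) := by
        rw [div_pow, hdd]
        ring
      have e4 : Real.cos A ^ 2 / (1 - v ^ 2) + Real.sin A ^ 2 * Real.sin B ^ 2 / (1 - v ^ 2) = 1 := by
        rw [← add_div, div_eq_one_iff_eq hv0.ne', hv, mul_pow, Real.sin_sq B, Real.cos_sq' A]
        ring
      rw [e3]
      linarith
    · intro f g f' g' hf0 hg0 hf hg
      have hfc : ∀ᶠ t in 𝓝 (0 : ℝ), -a < f t ∧ f t < a := by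
        have := hf.continuousAt.eventually (Ioo_mem_nhds (a := -a) (b := a) (by rw [hf0]; exact hs1)
          (by rw [hf0]; exact hs2))
        exact this
      have hgc : ∀ᶠ t in 𝓝 (0 : ℝ), -a < g t ∧ g t < a := by
        have := hg.continuousAt.eventually (Ioo_mem_nhds (a := -a) (b := a) (by rw [hg0]; exact hr)
          (by rw [hg0]; exact hr2))
        exact this
      have hvs : Real.sin (Real.pi * f 0 / (2 * a)) * Real.cos (Real.pi * g 0 / (2 * a)) = v := by
        rw [hf0, hg0]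
      have h1 : HasDerivAt (fun t => Real.pi * f t / (2 * a)) (Real.pi * f' / (2 * a)) 0 :=
        (hf.const_mul Real.pi).div_const _
      have h2 : HasDerivAt (fun t => Real.pi * g t / (2 * a)) (Real.pi * g' / (2 * a)) 0 :=
        (hg.const_mul Real.pi).div_const _
      have h3 := h1.sin.mul h2.cos
      have hv1 : v ≠ -1 := by
        intro h
        rw [h] at hv2
        norm_num at hv2
      have hv1' : v ≠ 1 := by
        intro h
        rw [h] at hv2
        norm_num at hv2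
      have h4 : HasDerivAt Real.arcsin (1 / √(1 - v ^ 2))
          (Real.sin (Real.pi * f 0 / (2 * a)) * Real.cos (Real.pi * g 0 / (2 * a))) := by
        rw [hvs]
        exact Real.hasDerivAt_arcsin hv1 hv1'
      have h5 := (h4.comp (0 : ℝ) h3).const_mul (2 * a / Real.pi)
      have h6 := (hasDerivAt_const (0 : ℝ) m).add h5
      refine (h6.congr_of_eventuallyEq ?_).congr_deriv ?_
      · filter_upwards [hfc, hgc] with t ht1 ht2
        simp only [sG, Pi.add_apply, Function.comp_apply, Pi.mul_apply]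
        rw [sR_zero ht2.2.le, sC_eq ht1.1.le ht1.2.le, sC_eq ht2.1.le ht2.2.le, mul_one]
      · rw [hf0, hg0, ← hA, ← hB]
        field_simp
        ring
  · rcases lt_or_gt_of_ne hrb with hr3 | hr3
    · refine ⟨0, -(m / (Real.pi / 2)), ?_, ?_⟩
      · have : (m / (Real.pi / 2)) ^ 2 ≤ 1 := by
          rw [div_pow, div_le_one (by positivity)]
          exact sq_le_sq' (by linarith [(abs_le.1 hm).1]) (abs_le.1 hm).2
        simp only [ne_eq, OfNat.ofNat_ne_zero, not_false_eq_true, zero_pow, zero_div, zero_add, neg_sq]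
        exact this
      · intro f g f' g' hf0 hg0 hf hg
        have hgc : ∀ᶠ t in 𝓝 (0 : ℝ), a < g t ∧ g t < a + Real.pi / 2 := by
          have := hg.continuousAt.eventually (Ioo_mem_nhds (a := a) (b := a + Real.pi / 2)
            (by rw [hg0]; exact hr2) (by rw [hg0]; exact hr3))
          exact this
        have h1 : HasDerivAt (fun t => m * (1 - (g t - a) / (Real.pi / 2)))
            (m * (0 - (g' - 0) / (Real.pi / 2))) 0 :=
          ((hasDerivAt_const (0 : ℝ) (1 : ℝ)).sub ((hg.sub (hasDerivAt_const (0 : ℝ) a)).div_const _)).const_mul m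
        refine (h1.congr_of_eventuallyEq ?_).congr_deriv ?_
        · filter_upwards [hgc] with t ht
          rw [sG_deep ha ht.1.le]
          unfold sR
          rw [max_eq_right (by linarith [ht.1] : (0 : ℝ) ≤ g t - a), max_eq_right]
          rw [sub_nonneg, div_le_one (by positivity)]
          linarith [ht.2]
        · ring
    · refine ⟨0, 0, by simp, ?_⟩
      intro f g f' g' hf0 hg0 hf hg
      have hgc : ∀ᶠ t in 𝓝 (0 : ℝ), a + Real.pi / 2 < g t := by
        have := hg.continuousAt.eventually (Ioi_mem_nhds (a := a + Real.pi / 2)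
          (by rw [hg0]; exact hr3))
        exact this
      have h2 : HasDerivAt (fun t => sG a m (f t) (g t)) 0 0 := by
        refine (hasDerivAt_const (0 : ℝ) (0 : ℝ)).congr_of_eventuallyEq ?_
        filter_upwards [hgc] with t ht
        exact sG_end ha ht.le
      refine h2.congr_deriv ?_
      ring

/-- the derivative of the profile along a curve, kinks included -/
theorem sG_deriv' {a m s r κ : ℝ} (ha : 0 < a) (hκ : 0 < κ) (hm : |m| ≤ Real.pi / 2) (hs : |s| < a)
    (hr : 0 ≤ r) :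
    ∃ X Y : ℝ, X ^ 2 / sAl a κ r + Y ^ 2 ≤ 1 ∧ ∀ (f g : ℝ → ℝ) (f' g' : ℝ), f 0 = s → g 0 = r →
      HasDerivAt f f' 0 → HasDerivAt g g' 0 → (r = a ∨ r = a + Real.pi / 2 → g' = 0) →
      HasDerivAt (fun t => sG a m (f t) (g t)) (X * f' + Y * g') 0 := by
  by_cases hk : r = a ∨ r = a + Real.pi / 2
  · have hp := Real.pi_pos
    have hra : a ≤ r := by
      rcases hk with h | h <;> rw [h]
      linarith
    refine ⟨0, 0, by simp, ?_⟩
    intro f g f' g' hf0 hg0 hf hg hz
    have hg' := hz hk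
    rw [hg'] at hg
    rw [hasDerivAt_iff_isLittleO] at hg ⊢
    simp only [sub_zero, smul_zero, zero_mul, add_zero] at hg ⊢
    refine Asymptotics.IsBigO.trans_isLittleO ?_ hg
    refine Asymptotics.IsBigO.of_bound 3 (Eventually.of_forall fun t => ?_)
    have h1 := sG_lip (m := m) ha hm (f t) (f t) (g t) r
    rw [sub_self, abs_zero, zero_add] at h1
    have h2 : sG a m (f t) r = sG a m (f 0) r := by
      rw [sG_deep ha hra, sG_deep ha hra]
    rw [h2] at h1
    rw [Real.norm_eq_abs, Real.norm_eq_abs, hg0]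
    exact h1
  · push Not at hk
    obtain ⟨X, Y, h1, h2⟩ := sG_deriv ha hκ hm hs (by linarith : -a < r) hk.1 hk.2
    exact ⟨X, Y, h1, fun f g f' g' hf0 hg0 hf hg _ => h2 f g f' g' hf0 hg0 hf hg⟩

theorem SU1_abs {f : ℝ → ℝ} {d : ℝ} (h0 : f 0 = 0) (h : HasDerivAt (fun s => |f s|) d 0) :
    HasDerivAt f 0 0 := by
  have h1 : IsLocalMin (fun s => |f s|) 0 := by
    refine Eventually.of_forall fun s => ?_
    simp only [h0, abs_zero]
    exact abs_nonneg _
  have h2 := h1.hasDerivAt_eq_zero h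
  rw [h2, hasDerivAt_iff_isLittleO] at h
  rw [hasDerivAt_iff_isLittleO]
  simp only [h0, abs_zero, sub_zero, smul_zero] at h ⊢
  exact Asymptotics.isLittleO_abs_left.1 h

variable {M : Type} [MetricSpace M] {γ : ℝ → M}

open Pool.Agent.EWD

/-- almost everywhere on a level set the gradient vanishes -/
theorem grad_level (C : Calc M γ) {w : M → ℝ} (hw : Lip w) (c : ℝ) :
    ∀ᵐ o ∂C.μ, w (C.pt o) = c → C.gx w o = 0 ∧ C.gy w o = 0 := by
  have h1 : Lip (fun x => w x - c) := hw.sub (lip_const c)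
  have h2 : Lip (fun x => |w x - c|) := by
    obtain ⟨L, hL⟩ := h1
    exact ⟨_, (lipschitzWith_one_norm (E := ℝ)).comp hL⟩
  filter_upwards [C.ae_has h2, C.ae_has hw] with o ho1 ho2 hc
  have e1 := SU1_abs (f := fun s => w (C.px o s) - c) (by
    change w (C.pt o) - c = 0
    rw [hc, sub_self]) ho1.1
  have e2 := SU1_abs (f := fun s => w (C.py o s) - c) (by
    rw [C.py_zero, hc, sub_self]) ho1.2
  have e3 := ho2.1.sub (hasDerivAt_const (0 : ℝ) c)
  have e4 := ho2.2.sub (hasDerivAt_const (0 : ℝ) c)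
  rw [sub_zero] at e3 e4
  exact ⟨e3.unique e1, e4.unique e2⟩

/-- the new norm of the gradient of the new potential is at most one -/
theorem surg_grad (C : Calc M γ) {θ w : M → ℝ} (hθ : Lip θ) (hw : Lip w)
    (hθ1 : ∀ᵐ o ∂C.μ, C.gx θ o ^ 2 + C.gy θ o ^ 2 ≤ 1) {a κ c t m : ℝ} (ha : 0 < a) (hκ : 0 < κ)
    (hc : 0 < c) (hm : |m| ≤ Real.pi / 2) :
    ∀ᵐ o ∂C.μ, t ≤ w (C.pt o) → |θ (C.pt o) - m| < a →
      (sA11 (sAl a κ (c * (w (C.pt o) - t))) (c * C.gx w o) (c * C.gy w o) *
          C.gx (fun x => sG a m (θ x - m) (c * max (w x - t) 0)) o +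
        sA12 (sAl a κ (c * (w (C.pt o) - t))) (c * C.gx w o) (c * C.gy w o) *
          C.gy (fun x => sG a m (θ x - m) (c * max (w x - t) 0)) o) ^ 2 +
      (sA12 (sAl a κ (c * (w (C.pt o) - t))) (c * C.gx w o) (c * C.gy w o) *
          C.gx (fun x => sG a m (θ x - m) (c * max (w x - t) 0)) o +
        sA22 (sAl a κ (c * (w (C.pt o) - t))) (c * C.gx w o) (c * C.gy w o) *
          C.gy (fun x => sG a m (θ x - m) (c * max (w x - t) 0)) o) ^ 2 ≤ 1 := by
  have hwt : Lip (fun x => max (w x - t) 0) := (hw.sub (lip_const t)).max (lip_const 0)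
  filter_upwards [hθ1, C.ae_has hθ, C.ae_has hw, C.ae_has hwt, grad_level C hw t,
    grad_level C hw (t + a / c), grad_level C hw (t + (a + Real.pi / 2) / c),
    grad_level C hwt 0] with o h1 h2 h3 h4 h5 h6 h7 h8 ht hs
  set r : ℝ := c * (w (C.pt o) - t) with hr
  have hr0 : 0 ≤ r := mul_nonneg hc.le (by linarith)
  obtain ⟨X, Y, hXY, hd⟩ := sG_deriv' (κ := κ) ha hκ hm hs hr0
  -- the derivative of the truncated depth
  have h9 : C.gx (fun x => max (w x - t) 0) o = C.gx w o ∧ C.gy (fun x => max (w x - t) 0) o = C.gy w o := by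
    rcases ht.eq_or_lt with h | h
    · have e1 := h5 h.symm
      have e2 := h8 (by simp [← h])
      rw [e1.1, e1.2, e2.1, e2.2]
      exact ⟨rfl, rfl⟩
    · constructor
      · have e1 := h3.1.sub (hasDerivAt_const (0 : ℝ) t)
        rw [sub_zero] at e1
        refine h4.1.unique (e1.congr_of_eventuallyEq ?_)
        have e2 := h3.1.continuousAt.eventually (Ioi_mem_nhds (show t < w (C.px o 0) from h))
        filter_upwards [e2] with s hs
        have hs' : t < _ := hs
        rw [max_eq_left (by linarith)]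
        rfl
      · have e1 := h3.2.sub (hasDerivAt_const (0 : ℝ) t)
        rw [sub_zero] at e1
        refine h4.2.unique (e1.congr_of_eventuallyEq ?_)
        have e2 := h3.2.continuousAt.eventually (Ioi_mem_nhds (show t < w (C.py o 0) from by
          rw [C.py_zero]; exact h))
        filter_upwards [e2] with s hs
        have hs' : t < _ := hs
        rw [max_eq_left (by linarith)]
        rfl
  have hkink : r = a ∨ r = a + Real.pi / 2 → C.gx w o = 0 ∧ C.gy w o = 0 := by
    intro h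
    rcases h with h | h
    · refine h6 ?_
      rw [← h, hr]
      field_simp
      ring
    · refine h7 ?_
      rw [← h, hr]
      field_simp
      ring
  have ep : max (w (C.pt o) - t) 0 = w (C.pt o) - t := max_eq_left (by linarith)
  have hX : C.gx (fun x => sG a m (θ x - m) (c * max (w x - t) 0)) o
      = X * C.gx θ o + Y * (c * C.gx w o) := by
    have e1 := h2.1.sub (hasDerivAt_const (0 : ℝ) m)
    have e2 := h4.1.const_mul c
    rw [sub_zero] at e1
    rw [h9.1] at e2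
    refine HasDerivAt.deriv (hd (fun s => θ (C.px o s) - m) (fun s => c * max (w (C.px o s) - t) 0) _ _
      rfl ?_ e1 e2 ?_)
    · change c * max (w (C.pt o) - t) 0 = r
      rw [ep]
    · intro h
      rw [(hkink h).1, mul_zero]
  have hY : C.gy (fun x => sG a m (θ x - m) (c * max (w x - t) 0)) o
      = X * C.gy θ o + Y * (c * C.gy w o) := by
    have e1 := h2.2.sub (hasDerivAt_const (0 : ℝ) m)
    have e2 := h4.2.const_mul c
    rw [sub_zero] at e1
    rw [h9.2] at e2
    refine HasDerivAt.deriv (hd (fun s => θ (C.py o s) - m) (fun s => c * max (w (C.py o s) - t) 0) _ _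
      ?_ ?_ e1 e2 ?_)
    · rw [C.py_zero]
    · rw [C.py_zero, ep]
    · intro h
      rw [(hkink h).2, mul_zero]
  rw [hX, hY]
  have hal : 0 < sAl a κ r := lt_of_lt_of_le hκ (sAl_ge a κ r)
  exact (sA_le hal (c * C.gx w o) (c * C.gy w o) h1 X Y).trans hXY

/-! bounds and measurability of the frame change -/

theorem sA11_le {α : ℝ} (hα : 0 < α) (p q : ℝ) : |sA11 α p q| ≤ 1 / √α := by
  have h2 : 0 < √α := Real.sqrt_pos.2 hα
  have h4 : √α ^ 2 = α := Real.sq_sqrt hα.le
  have h := sA_norm hα p q 1 0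
  have h5 : 0 ≤ (p * 1 + q * 0) ^ 2 / (α + (p ^ 2 + q ^ 2)) := by positivity
  have h6 : sA11 α p q ^ 2 ≤ (1 / √α) ^ 2 := by
    rw [div_pow, h4, one_pow]
    have h7 : sA11 α p q ^ 2 ≤ (1 ^ 2 + 0 ^ 2 - (p * 1 + q * 0) ^ 2 / (α + (p ^ 2 + q ^ 2))) / α := by
      rw [← h]
      nlinarith [sq_nonneg (sA12 α p q * 1 + sA22 α p q * 0)]
    refine h7.trans (div_le_div_of_nonneg_right ?_ hα.le)
    linarith
  exact abs_le_of_sq_le_sq h6 (by positivity)

theorem sA12_le {α : ℝ} (hα : 0 < α) (p q : ℝ) : |sA12 α p q| ≤ 1 / √α := by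
  have h2 : 0 < √α := Real.sqrt_pos.2 hα
  have h4 : √α ^ 2 = α := Real.sq_sqrt hα.le
  have h := sA_norm hα p q 1 0
  have h5 : 0 ≤ (p * 1 + q * 0) ^ 2 / (α + (p ^ 2 + q ^ 2)) := by positivity
  have h6 : sA12 α p q ^ 2 ≤ (1 / √α) ^ 2 := by
    rw [div_pow, h4, one_pow]
    have h7 : sA12 α p q ^ 2 ≤ (1 ^ 2 + 0 ^ 2 - (p * 1 + q * 0) ^ 2 / (α + (p ^ 2 + q ^ 2))) / α := by
      rw [← h]
      nlinarith [sq_nonneg (sA11 α p q * 1 + sA12 α p q * 0)]
    refine h7.trans (div_le_div_of_nonneg_right ?_ hα.le)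
    linarith
  exact abs_le_of_sq_le_sq h6 (by positivity)

theorem sA22_le {α : ℝ} (hα : 0 < α) (p q : ℝ) : |sA22 α p q| ≤ 1 / √α := by
  have h2 : 0 < √α := Real.sqrt_pos.2 hα
  have h4 : √α ^ 2 = α := Real.sq_sqrt hα.le
  have h := sA_norm hα p q 0 1
  have h5 : 0 ≤ (p * 0 + q * 1) ^ 2 / (α + (p ^ 2 + q ^ 2)) := by positivity
  have h6 : sA22 α p q ^ 2 ≤ (1 / √α) ^ 2 := by
    rw [div_pow, h4, one_pow]
    have h7 : sA22 α p q ^ 2 ≤ (0 ^ 2 + 1 ^ 2 - (p * 0 + q * 1) ^ 2 / (α + (p ^ 2 + q ^ 2))) / α := by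
      rw [← h]
      nlinarith [sq_nonneg (sA11 α p q * 0 + sA12 α p q * 1)]
    refine h7.trans (div_le_div_of_nonneg_right ?_ hα.le)
    linarith
  exact abs_le_of_sq_le_sq h6 (by positivity)

/-- a lower bound of the determinant -/
theorem sA_det_ge {α p q Q : ℝ} (hα : 0 < α) (hα1 : α ≤ 1) (hQ : p ^ 2 + q ^ 2 ≤ Q ^ 2) :
    1 / √(1 + Q ^ 2) ≤ sA11 α p q * sA22 α p q - sA12 α p q ^ 2 := by
  rw [sA_det hα]
  have h1 := sS_pos hα p q
  have h2 : 0 < √α := Real.sqrt_pos.2 hα
  have h3 : √α ≤ 1 := Real.sqrt_le_one.2 hα1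
  have h4 : sS α p q ≤ √(1 + Q ^ 2) := by
    unfold sS
    exact Real.sqrt_le_sqrt (by linarith)
  refine one_div_le_one_div_of_le (by positivity) ?_
  calc √α * sS α p q ≤ 1 * √(1 + Q ^ 2) := mul_le_mul h3 h4 h1.le zero_le_one
    _ = _ := one_mul _

theorem measurable_sS : Measurable fun x : ℝ × ℝ × ℝ => sS x.1 x.2.1 x.2.2 := by
  unfold sS
  fun_prop

theorem measurable_sK : Measurable fun x : ℝ × ℝ × ℝ => sK x.1 x.2.1 x.2.2 := by
  unfold sK
  exact measurable_const.div (measurable_sS.mul (measurable_sS.add (Real.continuous_sqrt.measurable.comp measurable_fst)))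

theorem measurable_sA11 : Measurable fun x : ℝ × ℝ × ℝ => sA11 x.1 x.2.1 x.2.2 := by
  unfold sA11
  exact (measurable_const.sub (measurable_sK.mul (by fun_prop))).div
    (Real.continuous_sqrt.measurable.comp measurable_fst)

theorem measurable_sA12 : Measurable fun x : ℝ × ℝ × ℝ => sA12 x.1 x.2.1 x.2.2 := by
  unfold sA12
  exact (measurable_sK.mul (by fun_prop)).neg.div (Real.continuous_sqrt.measurable.comp measurable_fst)

theorem measurable_sA22 : Measurable fun x : ℝ × ℝ × ℝ => sA22 x.1 x.2.1 x.2.2 := by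
  unfold sA22
  exact (measurable_const.sub (measurable_sK.mul (by fun_prop))).div
    (Real.continuous_sqrt.measurable.comp measurable_fst)

theorem continuous_sC (a : ℝ) : Continuous fun r => sC a r := by
  unfold sC
  fun_prop

theorem continuous_sAl (a κ : ℝ) : Continuous fun r => sAl a κ r := by
  unfold sAl
  have h := continuous_sC a
  fun_prop

theorem sAl_pos {a κ : ℝ} (hκ : 0 < κ) (r : ℝ) : 0 < sAl a κ r := lt_of_lt_of_le hκ (sAl_ge a κ r)

theorem sAl_le {a κ : ℝ} (hκ : κ ≤ 1) (r : ℝ) : sAl a κ r ≤ 1 := by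
  unfold sAl
  refine max_le hκ ?_
  have := Real.sin_sq_add_cos_sq (Real.pi * sC a r / (2 * a))
  nlinarith [sq_nonneg (Real.sin (Real.pi * sC a r / (2 * a)))]

/-- the profile of the lengths -/
def sL (a r : ℝ) : ℝ := Real.cos (Real.pi * sC a r / (2 * a))

theorem continuous_sL (a : ℝ) : Continuous fun r => sL a r := by
  unfold sL
  have h := continuous_sC a
  fun_prop

theorem sL_nonneg {a : ℝ} (ha : 0 < a) (r : ℝ) : 0 ≤ sL a r :=
  Real.cos_nonneg_of_mem_Icc (SU1_ang ha r)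

theorem sL_le (a r : ℝ) : sL a r ≤ 1 := Real.cos_le_one _

theorem sL_deep {a r : ℝ} (ha : 0 < a) (hr : a ≤ r) : sL a r = 0 := by
  have hp := Real.pi_pos
  unfold sL
  rw [sC_top ha.le hr]
  have : Real.pi * a / (2 * a) = Real.pi / 2 := by field_simp
  rw [this, Real.cos_pi_div_two]

theorem sL_eq {a r : ℝ} (ha : 0 < a) (h0 : 0 ≤ r) (hr : r ≤ a) :
    sL a r = Real.cos (Real.pi * r / (2 * a)) := by
  unfold sL
  rw [sC_eq (by linarith) hr]

theorem sqrt_sAl_le {a κ : ℝ} (ha : 0 < a) (hκ : 0 ≤ κ) (r : ℝ) : √(sAl a κ r) ≤ √κ + sL a r := by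
  have h1 := sL_nonneg ha r
  have h2 := Real.sqrt_nonneg κ
  have h3 := Real.sq_sqrt hκ
  refine Real.sqrt_le_iff.2 ⟨by positivity, ?_⟩
  unfold sAl
  refine max_le ?_ ?_
  · nlinarith [mul_nonneg h1 h2]
  · change sL a r ^ 2 ≤ _
    nlinarith [mul_nonneg h1 h2]

/-- the length of the cap: `∫₀^a cos (π r / 2a) dr = 2a/π` -/
theorem integral_sL {a b : ℝ} (ha : 0 < a) (hb : a ≤ b) : ∫ r in (0 : ℝ)..b, sL a r = 2 * a / Real.pi := by
  have hp := Real.pi_pos
  have hi : ∀ x y : ℝ, IntervalIntegrable (fun r => sL a r) volume x y :=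
    fun x y => (continuous_sL a).intervalIntegrable x y
  rw [← intervalIntegral.integral_add_adjacent_intervals (hi 0 a) (hi a b)]
  have h1 : ∫ r in a..b, sL a r = 0 := by
    rw [intervalIntegral.integral_congr (g := fun _ => (0 : ℝ))]
    · simp
    · intro r hr
      rw [uIcc_of_le hb] at hr
      exact sL_deep ha hr.1
  have h2 : ∫ r in (0 : ℝ)..a, sL a r = ∫ r in (0 : ℝ)..a, Real.cos (Real.pi / (2 * a) * r) := by
    refine intervalIntegral.integral_congr ?_
    intro r hr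
    rw [uIcc_of_le ha.le] at hr
    simp only
    rw [sL_eq ha hr.1 hr.2]
    congr 1
    ring
  have hne : Real.pi / (2 * a) ≠ 0 := by positivity
  rw [h1, h2, intervalIntegral.integral_comp_mul_left Real.cos hne, integral_cos]
  have e : Real.pi / (2 * a) * a = Real.pi / 2 := by field_simp
  rw [e, mul_zero, Real.sin_pi_div_two, Real.sin_zero, smul_eq_mul]
  field_simp
  ring

/-- the area factor of the surgery -/
theorem sA_area_le' {a κ : ℝ} (ha : 0 < a) (hκ : 0 < κ) (r p q : ℝ) :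
    1 / (sA11 (sAl a κ r) p q * sA22 (sAl a κ r) p q - sA12 (sAl a κ r) p q ^ 2)
      ≤ sAl a κ r + (√κ + sL a r) * √(p ^ 2 + q ^ 2) := by
  have hal := sAl_pos (a := a) hκ r
  rw [sA_area hal]
  refine (sA_area_le hal p q).trans ?_
  have h1 := mul_le_mul_of_nonneg_right (sqrt_sAl_le ha hκ.le r) (Real.sqrt_nonneg (p ^ 2 + q ^ 2))
  linarith

end Pool.Agent.FPM
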