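import Mathlib

/-
FPM/SU3A (helper22): the area of a thin collar. If `V(s) = ∫_{W < s} g` is differentiable at `t`
with derivative `l`, then the integral of `f (c (W - t)) c g` over `t < W < t + δ`, `c = R / δ`,
has upper limit at most `l ∫_0^R f` as `δ → 0`, for `f` nonnegative and decreasing.
-/

set_option autoImplicit false

open Set Filter Topology MeasureTheory

namespace Pool.Agent.FPM

/-- Riemann sums of a decreasing function -/
private theorem alm_riemann {f : ℝ → ℝ} (hf : AntitoneOn f (Ici 0)) (hf0 : ∀ r, 0 ≤ f r) {R : ℝ}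
    (hR : 0 < R) {N : ℕ} (hN : 0 < N) :
    R / N * ∑ j ∈ Finset.range N, f (R * j / N) ≤ (∫ r in (0 : ℝ)..R, f r) + R / N * f 0 := by
  have hN' : (0 : ℝ) < N := by exact_mod_cast hN
  have hc : 0 < R / N := div_pos hR hN'
  have hanti : AntitoneOn (fun x => f (R / N * x)) (Icc (0 : ℝ) (0 + (N : ℕ))) := by
    intro x hx y hy hxy
    exact hf (mul_nonneg hc.le hx.1) (mul_nonneg hc.le hy.1) (mul_le_mul_of_nonneg_left hxy hc.le)
  have h1 := hanti.sum_le_integral
  have h2 : ∫ x in (0 : ℝ)..(0 + (N : ℕ)), f (R / N * x) = (R / N)⁻¹ * ∫ r in (0 : ℝ)..R, f r := by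
    rw [intervalIntegral.integral_comp_mul_left (fun x => f x) hc.ne']
    rw [mul_zero, zero_add, div_mul_cancel₀ R hN'.ne', smul_eq_mul]
  rw [h2] at h1
  have h3 : R / N * ∑ i ∈ Finset.range N, f (R / N * (0 + ((i + 1 : ℕ) : ℝ)))
      ≤ ∫ r in (0 : ℝ)..R, f r := by
    have := mul_le_mul_of_nonneg_left h1 hc.le
    rwa [← mul_assoc, mul_inv_cancel₀ hc.ne', one_mul] at this
  have h4 : ∑ j ∈ Finset.range N, f (R * j / N)
      ≤ (∑ i ∈ Finset.range N, f (R / N * (0 + ((i + 1 : ℕ) : ℝ)))) + (f 0 - f R) := by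
    have h5 : ∑ j ∈ Finset.range (N + 1), f (R * j / N)
        = (∑ i ∈ Finset.range N, f (R * ((i + 1 : ℕ) : ℝ) / N)) + f (R * ((0 : ℕ) : ℝ) / N) :=
      Finset.sum_range_succ' _ _
    have h6 : ∑ j ∈ Finset.range (N + 1), f (R * j / N)
        = (∑ j ∈ Finset.range N, f (R * j / N)) + f (R * N / N) := Finset.sum_range_succ _ _
    have h7 : f (R * N / N) = f R := by rw [mul_div_assoc, div_self hN'.ne', mul_one]
    have h8 : f (R * ((0 : ℕ) : ℝ) / N) = f 0 := by simp
    have h9 : ∀ i : ℕ, f (R / N * (0 + ((i + 1 : ℕ) : ℝ))) = f (R * ((i + 1 : ℕ) : ℝ) / N) := by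
      intro i
      congr 1
      ring
    simp_rw [h9]
    rw [h7] at h6
    rw [h8] at h5
    linarith
  have h10 := mul_le_mul_of_nonneg_left h4 hc.le
  have h11 : 0 ≤ R / N * f R := mul_nonneg hc.le (hf0 R)
  have h12 : R / N * ((∑ i ∈ Finset.range N, f (R / N * (0 + ((i + 1 : ℕ) : ℝ)))) + (f 0 - f R))
      = R / N * (∑ i ∈ Finset.range N, f (R / N * (0 + ((i + 1 : ℕ) : ℝ)))) + R / N * f 0
        - R / N * f R := by ring
  linarith

/-- the area limit -/
theorem area_limit {Ω : Type} [MeasurableSpace Ω] {μ : Measure Ω} {W g : Ω → ℝ}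
    (hW : AEMeasurable W μ) (hg : Integrable g μ) (hg0 : ∀ᵐ o ∂μ, 0 ≤ g o) {t l R : ℝ} (hR : 0 < R)
    (hl : HasDerivAt (fun s => ∫ o in {o | W o < s}, g o ∂μ) l t)
    {f : ℝ → ℝ} (hf : AntitoneOn f (Ici 0)) (hf0 : ∀ r, 0 ≤ f r)
    {η : ℝ} (hη : 0 < η) :
    ∃ δ₀ : ℝ, 0 < δ₀ ∧ ∀ δ, 0 < δ → δ ≤ δ₀ →
      ∫ o in {o | t < W o ∧ W o < t + δ}, f (R / δ * (W o - t)) * (R / δ) * g o ∂μ
        ≤ l * (∫ r in (0 : ℝ)..R, f r) + η := by
  classical
  set V : ℝ → ℝ := fun s => ∫ o in {o | W o < s}, g o ∂μ with hV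
  set I : ℝ → Ω → ℝ := fun s => {o | W o < s}.indicator g with hI
  have hnull : ∀ s, NullMeasurableSet {o | W o < s} μ := fun s =>
    nullMeasurableSet_lt hW aemeasurable_const
  have hVI : ∀ s, V s = ∫ o, I s o ∂μ := fun s => (integral_indicator₀ (hnull s)).symm
  have hIint : ∀ s, Integrable (I s) μ := fun s => hg.indicator₀ (hnull s)
  have hImono : ∀ o, 0 ≤ g o → ∀ s s', s ≤ s' → I s o ≤ I s' o := by
    intro o ho s s' hss
    simp only [hI]
    by_cases h1 : W o < s
    · have h2 : W o < s' := lt_of_lt_of_le h1 hss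
      rw [indicator_of_mem (show o ∈ {o | W o < s} from h1),
        indicator_of_mem (show o ∈ {o | W o < s'} from h2)]
    · rw [indicator_of_notMem (show o ∉ {o | W o < s} from h1)]
      by_cases h2 : W o < s'
      · rw [indicator_of_mem (show o ∈ {o | W o < s'} from h2)]
        exact ho
      · rw [indicator_of_notMem (show o ∉ {o | W o < s'} from h2)]
  have hVmono : ∀ s s', s ≤ s' → V s ≤ V s' := by
    intro s s' hss
    rw [hVI, hVI]
    apply integral_mono_ae (hIint s) (hIint s')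
    filter_upwards [hg0] with o ho
    exact hImono o ho s s' hss
  have hlit := hasDerivAt_iff_isLittleO_nhds_zero.1 hl
  have hlit' : ∀ κ : ℝ, 0 < κ → ∃ d : ℝ, 0 < d ∧ ∀ h, 0 ≤ h → h ≤ d →
      |V (t + h) - V t - h * l| ≤ κ * h := by
    intro κ hκ
    have h1 := hlit.def hκ
    rw [Metric.eventually_nhds_iff] at h1
    obtain ⟨d, hd, hd'⟩ := h1
    refine ⟨d / 2, by linarith, fun h h2 h3 => ?_⟩
    have h4 := hd' (y := h) (by rw [dist_zero_right, Real.norm_eq_abs, abs_of_nonneg h2]; linarith)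
    rw [Real.norm_eq_abs, Real.norm_eq_abs, abs_of_nonneg h2, smul_eq_mul] at h4
    exact h4
  have hl0 : 0 ≤ l := by
    by_contra hcon
    push Not at hcon
    obtain ⟨d, hd, hd'⟩ := hlit' (-l / 2) (by linarith)
    have h1 := hd' d hd.le le_rfl
    have h2 := hVmono t (t + d) (by linarith)
    have h3 := (abs_le.1 h1).2
    nlinarith
  have hf00 : 0 ≤ f 0 := hf0 0
  -- number of slices
  obtain ⟨N, hN⟩ := exists_nat_gt (2 * (l * R * f 0) / η)
  have hN0 : 0 < N := by
    rcases Nat.eq_zero_or_pos N with h | h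
    · subst h
      have : 0 ≤ 2 * (l * R * f 0) / η := by positivity
      simp only [Nat.cast_zero] at hN
      linarith
    · exact h
  have hN' : (0 : ℝ) < N := by exact_mod_cast hN0
  have hN1 : l * (R / N * f 0) ≤ η / 2 := by
    rw [div_lt_iff₀ hη] at hN
    have : l * (R / N * f 0) = l * R * f 0 / N := by ring
    rw [this, div_le_iff₀ hN']
    linarith
  set κ : ℝ := η / (4 * (R * N * f 0) + 4) with hκ
  have hden : 0 < 4 * (R * N * f 0) + 4 := by positivity
  have hκ0 : 0 < κ := div_pos hη hden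
  have hκ1 : 2 * κ * (R * (N * f 0)) ≤ η / 2 := by
    have : 2 * κ * (R * (N * f 0)) = (2 * (R * N * f 0)) * η / (4 * (R * N * f 0) + 4) := by
      rw [hκ]
      ring
    rw [this, div_le_iff₀ hden]
    nlinarith
  obtain ⟨d, hd, hd'⟩ := hlit' κ hκ0
  refine ⟨d, hd, fun δ hδ hδd => ?_⟩
  have hc : 0 < R / δ := div_pos hR hδ
  have hcol : NullMeasurableSet {o | t < W o ∧ W o < t + δ} μ :=
    (nullMeasurableSet_lt aemeasurable_const hW).inter (nullMeasurableSet_lt hW aemeasurable_const)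
  set τ : ℕ → ℝ := fun j => t + δ * j / N with hτ
  have hτj : ∀ j : ℕ, 0 ≤ δ * (j : ℝ) / N := fun j => by positivity
  have hτN : ∀ j, j ≤ N → δ * (j : ℝ) / N ≤ δ := by
    intro j hj
    rw [div_le_iff₀ hN']
    have : (j : ℝ) ≤ N := by exact_mod_cast hj
    exact mul_le_mul_of_nonneg_left this hδ.le
  have hstep : ∀ j, j < N → V (τ (j + 1)) - V (τ j) ≤ l * δ / N + 2 * κ * δ := by
    intro j hj
    have h1 := hd' _ (hτj (j + 1)) ((hτN (j + 1) hj).trans hδd)
    have h2 := hd' _ (hτj j) ((hτN j hj.le).trans hδd)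
    have h3 := (abs_le.1 h1).2
    have h4 := (abs_le.1 h2).1
    have h5 : κ * (δ * ((j + 1 : ℕ) : ℝ) / N) ≤ κ * δ :=
      mul_le_mul_of_nonneg_left (hτN (j + 1) hj) hκ0.le
    have h6 : κ * (δ * (j : ℝ) / N) ≤ κ * δ := mul_le_mul_of_nonneg_left (hτN j hj.le) hκ0.le
    have h7 : δ * ((j + 1 : ℕ) : ℝ) / N * l - δ * (j : ℝ) / N * l = l * δ / N := by
      push_cast
      ring
    simp only [hτ]
    linarith
  have hsub : ∀ j : ℕ, Integrable (fun o => f (R * j / N) * (R / δ) *
      (I (τ (j + 1)) o - I (τ j) o)) μ := fun j => ((hIint _).sub (hIint _)).const_mul _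
  have hbound : ∫ o in {o | t < W o ∧ W o < t + δ}, f (R / δ * (W o - t)) * (R / δ) * g o ∂μ
      ≤ ∑ j ∈ Finset.range N, f (R * j / N) * (R / δ) * (V (τ (j + 1)) - V (τ j)) := by
    have h1 : ∑ j ∈ Finset.range N, f (R * j / N) * (R / δ) * (V (τ (j + 1)) - V (τ j))
        = ∫ o, ∑ j ∈ Finset.range N, f (R * j / N) * (R / δ) * (I (τ (j + 1)) o - I (τ j) o) ∂μ := by
      rw [integral_finsetSum _ (fun j _ => hsub j)]
      apply Finset.sum_congr rfl
      intro j _
      rw [integral_const_mul, integral_sub (hIint _) (hIint _), ← hVI, ← hVI]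
    rw [h1, ← integral_indicator₀ hcol]
    apply integral_mono_of_nonneg
    · filter_upwards [hg0] with o ho
      show (0 : ℝ) ≤ _
      by_cases hmem : t < W o ∧ W o < t + δ
      · rw [indicator_of_mem (show o ∈ {o | t < W o ∧ W o < t + δ} from hmem)]
        exact mul_nonneg (mul_nonneg (hf0 _) hc.le) ho
      · rw [indicator_of_notMem (show o ∉ {o | t < W o ∧ W o < t + δ} from hmem)]
    · exact integrable_finsetSum _ fun j _ => hsub j
    · filter_upwards [hg0] with o ho
      have hterm : ∀ j : ℕ, 0 ≤ f (R * j / N) * (R / δ) * (I (τ (j + 1)) o - I (τ j) o) := by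
        intro j
        apply mul_nonneg (mul_nonneg (hf0 _) hc.le)
        have : τ j ≤ τ (j + 1) := by
          simp only [hτ]
          push_cast
          have : δ * (j : ℝ) / N ≤ δ * ((j : ℝ) + 1) / N :=
            div_le_div_of_nonneg_right (mul_le_mul_of_nonneg_left (by linarith) hδ.le) hN'.le
          linarith
        linarith [hImono o ho _ _ this]
      by_cases hmem : t < W o ∧ W o < t + δ
      · rw [indicator_of_mem (show o ∈ {o | t < W o ∧ W o < t + δ} from hmem)]
        obtain ⟨hm1, hm2⟩ := hmem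
        set j : ℕ := ⌊N * (W o - t) / δ⌋₊ with hj
        have hx0 : 0 ≤ N * (W o - t) / δ := by
          apply div_nonneg (mul_nonneg hN'.le (by linarith)) hδ.le
        have hj1 : (j : ℝ) ≤ N * (W o - t) / δ := Nat.floor_le hx0
        have hj2 : N * (W o - t) / δ < j + 1 := Nat.lt_floor_add_one _
        have hjN : j < N := by
          have h2 : N * (W o - t) / δ < N := by
            rw [div_lt_iff₀ hδ]
            exact mul_lt_mul_of_pos_left (by linarith) hN'
          have : (j : ℝ) < N := lt_of_le_of_lt hj1 h2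
          exact_mod_cast this
        refine le_trans ?_ (Finset.single_le_sum (fun i _ => hterm i) (Finset.mem_range.2 hjN))
        rw [le_div_iff₀ hδ] at hj1
        rw [div_lt_iff₀ hδ] at hj2
        have h3 : ¬ W o < τ j := by
          simp only [hτ, not_lt]
          have : δ * (j : ℝ) / N ≤ W o - t := by
            rw [div_le_iff₀ hN']
            linarith
          linarith
        have h4 : W o < τ (j + 1) := by
          simp only [hτ]
          push_cast
          have : W o - t < δ * ((j : ℝ) + 1) / N := by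
            rw [lt_div_iff₀ hN']
            linarith
          linarith
        have h5 : I (τ (j + 1)) o = g o := indicator_of_mem (show o ∈ {o | W o < τ (j + 1)} from h4) g
        have h6 : I (τ j) o = 0 := indicator_of_notMem (show o ∉ {o | W o < τ j} from h3) g
        rw [h5, h6, sub_zero]
        apply mul_le_mul_of_nonneg_right _ ho
        apply mul_le_mul_of_nonneg_right _ hc.le
        apply hf
        · exact mem_Ici.2 (by positivity)
        · exact mem_Ici.2 (mul_nonneg hc.le (by linarith))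
        · rw [div_mul_eq_mul_div, div_le_div_iff₀ hN' hδ]
          have := mul_le_mul_of_nonneg_left hj1 hR.le
          nlinarith
      · rw [indicator_of_notMem (show o ∉ {o | t < W o ∧ W o < t + δ} from hmem)]
        exact Finset.sum_nonneg fun j _ => hterm j
  refine hbound.trans ?_
  have h1 : ∑ j ∈ Finset.range N, f (R * j / N) * (R / δ) * (V (τ (j + 1)) - V (τ j))
      ≤ ∑ j ∈ Finset.range N, f (R * j / N) * (R / δ) * (l * δ / N + 2 * κ * δ) := by
    apply Finset.sum_le_sum
    intro j hj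
    exact mul_le_mul_of_nonneg_left (hstep j (Finset.mem_range.1 hj)) (mul_nonneg (hf0 _) hc.le)
  refine h1.trans ?_
  rw [← Finset.sum_mul, ← Finset.sum_mul]
  have h2 : (∑ j ∈ Finset.range N, f (R * j / N)) * (R / δ) * (l * δ / N + 2 * κ * δ)
      = l * (R / N * ∑ j ∈ Finset.range N, f (R * j / N))
        + 2 * κ * (R * ∑ j ∈ Finset.range N, f (R * j / N)) := by
    field_simp
  rw [h2]
  have h3 := mul_le_mul_of_nonneg_left (alm_riemann hf hf0 hR hN0) hl0
  have h4 : ∑ j ∈ Finset.range N, f (R * j / N) ≤ N * f 0 := by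
    calc ∑ j ∈ Finset.range N, f (R * j / N) ≤ ∑ _j ∈ Finset.range N, f 0 :=
          Finset.sum_le_sum fun j _ => hf (mem_Ici.2 le_rfl) (mem_Ici.2 (by positivity)) (by positivity)
      _ = N * f 0 := by rw [Finset.sum_const, Finset.card_range, nsmul_eq_mul]
  have h5 : 2 * κ * (R * ∑ j ∈ Finset.range N, f (R * j / N)) ≤ 2 * κ * (R * (N * f 0)) :=
    mul_le_mul_of_nonneg_left (mul_le_mul_of_nonneg_left h4 hR.le) (by positivity)
  have h6 : l * ((∫ r in (0 : ℝ)..R, f r) + R / N * f 0)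
      = l * (∫ r in (0 : ℝ)..R, f r) + l * (R / N * f 0) := by ring
  linarith

/-- thin collars have small measure -/
theorem collar_small {Ω : Type} [MeasurableSpace Ω] {μ : Measure Ω} [IsFiniteMeasure μ] {W : Ω → ℝ}
    (hW : AEMeasurable W μ) (t : ℝ) {η : ℝ} (hη : 0 < η) :
    ∃ δ₀ : ℝ, 0 < δ₀ ∧ ∀ δ, 0 < δ → δ ≤ δ₀ →
      (μ {o | t < W o ∧ W o < t + δ}).toReal ≤ η := by
  set S : ℕ → Set Ω := fun n => {o | t < W o ∧ W o < t + 1 / ((n : ℝ) + 1)} with hS
  have hnull : ∀ n, NullMeasurableSet (S n) μ := fun n =>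
    (nullMeasurableSet_lt aemeasurable_const hW).inter (nullMeasurableSet_lt hW aemeasurable_const)
  have hanti : Antitone S := by
    intro n m hnm o ho
    refine ⟨ho.1, lt_of_lt_of_le ho.2 ?_⟩
    have h1 : (n : ℝ) + 1 ≤ (m : ℝ) + 1 := by
      have : (n : ℝ) ≤ m := by exact_mod_cast hnm
      linarith
    have h2 : 1 / ((m : ℝ) + 1) ≤ 1 / ((n : ℝ) + 1) :=
      one_div_le_one_div_of_le (by positivity) h1
    linarith
  have hemp : ⋂ n, S n = ∅ := by
    rw [eq_empty_iff_forall_notMem]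
    intro o ho
    rw [mem_iInter] at ho
    have h1 : 0 < W o - t := by linarith [(ho 0).1]
    obtain ⟨n, hn⟩ := exists_nat_one_div_lt h1
    have h2 := (ho n).2
    linarith
  have htend := tendsto_measure_iInter_atTop hnull hanti ⟨0, measure_ne_top μ _⟩
  rw [hemp, measure_empty] at htend
  have htend' : Tendsto (fun n => (μ (S n)).toReal) atTop (𝓝 0) := by
    have := (ENNReal.tendsto_toReal ENNReal.zero_ne_top).comp htend
    rwa [ENNReal.toReal_zero] at this
  obtain ⟨n, hn⟩ := ((tendsto_order.1 htend').2 η hη).exists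
  refine ⟨1 / ((n : ℝ) + 1), by positivity, fun δ hδ hδ' => ?_⟩
  refine le_trans ?_ hn.le
  apply ENNReal.toReal_mono (measure_ne_top μ _)
  apply measure_mono
  intro o ho
  exact ⟨ho.1, lt_of_lt_of_le ho.2 (by linarith)⟩

end Pool.Agent.FPM
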