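import Mathlib

/-
FPM/SU3G (helper22): gluing of the competitor. `u = θ` below the level `t`, and
`u = G m (θ - m) (c (w - t))` above, where `m` is constant on the pieces of the collar.
-/

set_option autoImplicit false

open Set Filter Topology
open scoped NNReal

namespace Pool.Agent.FPM

/-- the centre of a small set of reals -/
theorem centre {S : Set ℝ} {B b : ℝ} (hB : 0 ≤ B) (hS : ∀ x ∈ S, |x| ≤ B)
    (hd : ∀ x ∈ S, ∀ y ∈ S, |x - y| ≤ 2 * b) : ∃ m : ℝ, |m| ≤ B ∧ ∀ x ∈ S, |x - m| ≤ b := by
  rcases S.eq_empty_or_nonempty with hE | hE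
  · subst hE
    exact ⟨0, by rwa [abs_zero], fun x hx => absurd hx (notMem_empty x)⟩
  · have hba : BddAbove S := ⟨B, fun x hx => (abs_le.1 (hS x hx)).2⟩
    have hbb : BddBelow S := ⟨-B, fun x hx => (abs_le.1 (hS x hx)).1⟩
    have h1 : sSup S ≤ B := csSup_le hE fun x hx => (abs_le.1 (hS x hx)).2
    have h2 : -B ≤ sInf S := le_csInf hE fun x hx => (abs_le.1 (hS x hx)).1
    have h3 : sInf S ≤ sSup S := by
      obtain ⟨x, hx⟩ := hE
      exact (csInf_le hbb hx).trans (le_csSup hba hx)
    have h4 : sSup S - sInf S ≤ 2 * b := by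
      have h5 : sSup S ≤ sInf S + 2 * b := by
        apply csSup_le hE
        intro x hx
        have h6 : x - 2 * b ≤ sInf S := by
          apply le_csInf hE
          intro y hy
          have := (abs_le.1 (hd x hx y hy)).2
          linarith
        linarith
      linarith
    refine ⟨(sSup S + sInf S) / 2, ?_, ?_⟩
    · rw [abs_le]
      constructor <;> linarith
    · intro x hx
      have h5 := le_csSup hba hx
      have h6 := csInf_le hbb hx
      rw [abs_le]
      constructor <;> linarith

/-- the competitor -/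
noncomputable def comp {M ι : Type} (G : ℝ → ℝ → ℝ → ℝ) (w θ : M → ℝ) (lab : M → ι) (m : ι → ℝ)
    (t c : ℝ) (x : M) : ℝ :=
  if w x ≤ t then θ x else G (m (lab x)) (θ x - m (lab x)) (c * max (w x - t) 0)

variable {M : Type} [MetricSpace M]

/-- Lipschitz constant of the competitor; it does not depend on `θ` -/
noncomputable def compL (Lw : ℝ≥0) (δ a c ρ K : ℝ) : ℝ :=
  1 + K * (1 + c * Lw) + Real.pi / 2 * Lw / δ + 2 * (K * (a + Real.pi / 2)) / ρ

theorem comp_lip {w θ : M → ℝ} {Lw : ℝ≥0} (hw : LipschitzWith Lw w) (hθ : LipschitzWith 1 θ)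
    (hθb : ∀ x, |θ x| ≤ Real.pi / 2) {t δ a b c ρ K : ℝ} (hδ : 0 < δ) (hρ : 0 < ρ) (hK : 0 ≤ K)
    (ha : 0 ≤ a) (hc0 : 0 ≤ c) (hc : c * δ = a + Real.pi / 2) (hab : b ≤ a) {ι : Type} {lab : M → ι}
    (hsep : ∀ x y, t ≤ w x → w x ≤ t + δ → t ≤ w y → w y ≤ t + δ → lab x ≠ lab y → ρ ≤ dist x y)
    {m : ι → ℝ} (hm : ∀ i, |m i| ≤ Real.pi / 2)
    (hmb : ∀ x, t ≤ w x → w x ≤ t + δ → |θ x - m (lab x)| ≤ b)
    {G : ℝ → ℝ → ℝ → ℝ} (hG0 : ∀ m s, |s| ≤ a → G m s 0 = m + s)
    (hGc : ∀ m s r, a + Real.pi / 2 ≤ r → G m s r = 0)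
    (hGl : ∀ m s s' r r', |m| ≤ Real.pi / 2 → 0 ≤ r → 0 ≤ r' →
      |G m s r - G m s' r'| ≤ K * (|s - s'| + |r - r'|)) :
    ∀ x y, |comp G w θ lab m t c x - comp G w θ lab m t c y| ≤ compL Lw δ a c ρ K * dist x y := by
  have hpi := Real.pi_pos
  have hwd : ∀ x y, |w x - w y| ≤ Lw * dist x y := by
    intro x y
    have := hw.dist_le_mul x y
    rwa [Real.dist_eq] at this
  have hθd : ∀ x y, |θ x - θ y| ≤ dist x y := by
    intro x y
    have := hθ.dist_le_mul x y
    rwa [Real.dist_eq, NNReal.coe_one, one_mul] at this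
  have hL : (0 : ℝ) ≤ Lw := Lw.2
  -- the four parts of the constant
  have p1 : 0 ≤ K * (1 + c * Lw) := by positivity
  have p2 : 0 ≤ Real.pi / 2 * Lw / δ := by positivity
  have p3 : 0 ≤ 2 * (K * (a + Real.pi / 2)) / ρ := by positivity
  have hGb : ∀ m s r, |m| ≤ Real.pi / 2 → 0 ≤ r → |G m s r| ≤ K * (a + Real.pi / 2) := by
    intro m s r hm hr
    have h1 := hGl m s s r (max r (a + Real.pi / 2)) hm hr (le_max_of_le_left hr)
    rw [hGc m s _ (le_max_right _ _), sub_zero, sub_self, abs_zero, zero_add] at h1
    refine h1.trans (mul_le_mul_of_nonneg_left ?_ hK)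
    rcases le_total r (a + Real.pi / 2) with h | h
    · rw [max_eq_right h, abs_le]
      constructor <;> linarith
    · rw [max_eq_left h, sub_self, abs_zero]
      linarith
  -- estimate with the same label
  have hsame : ∀ i x y, |G (m i) (θ x - m i) (c * max (w x - t) 0)
      - G (m i) (θ y - m i) (c * max (w y - t) 0)| ≤ K * (1 + c * Lw) * dist x y := by
    intro i x y
    refine (hGl _ _ _ _ _ (hm i) (by positivity) (by positivity)).trans ?_
    rw [mul_assoc]
    apply mul_le_mul_of_nonneg_left _ hK
    have h1 : |θ x - m i - (θ y - m i)| ≤ dist x y := by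
      have : θ x - m i - (θ y - m i) = θ x - θ y := by ring
      rw [this]
      exact hθd x y
    have h2 : |c * max (w x - t) 0 - c * max (w y - t) 0| ≤ c * Lw * dist x y := by
      rw [← mul_sub, abs_mul, abs_of_nonneg hc0, mul_assoc]
      apply mul_le_mul_of_nonneg_left _ hc0
      refine le_trans (abs_max_sub_max_le_abs _ _ _) ?_
      have : w x - t - (w y - t) = w x - w y := by ring
      rw [this]
      exact hwd x y
    linarith
  -- ordered version
  have key : ∀ x y, w x ≤ w y →
      |comp G w θ lab m t c x - comp G w θ lab m t c y| ≤ compL Lw δ a c ρ K * dist x y := by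
    intro x y hxy
    have hd : 0 ≤ dist x y := dist_nonneg
    have q1 := mul_nonneg p1 hd
    have q2 := mul_nonneg p2 hd
    have q3 := mul_nonneg p3 hd
    have hsplit : compL Lw δ a c ρ K * dist x y = dist x y + K * (1 + c * Lw) * dist x y
        + Real.pi / 2 * Lw / δ * dist x y + 2 * (K * (a + Real.pi / 2)) / ρ * dist x y := by
      unfold compL
      ring
    rw [hsplit]
    have hwxy : w y - w x ≤ Lw * dist x y := by
      have := (abs_le.1 (hwd x y)).1
      linarith
    unfold comp
    by_cases hy : w y ≤ t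
    · rw [if_pos (hxy.trans hy), if_pos hy]
      linarith [hθd x y]
    · push Not at hy
      rw [if_neg (not_le.2 hy)]
      by_cases hx : w x ≤ t
      · rw [if_pos hx]
        rcases le_or_gt (w y) (t + δ) with hyd | hyd
        · have h1 := hmb y hy.le hyd
          have h2 : θ y = G (m (lab y)) (θ y - m (lab y)) 0 := by
            rw [hG0 _ _ (h1.trans hab)]
            ring
          have h3 := hGl (m (lab y)) (θ y - m (lab y)) (θ y - m (lab y)) 0 (c * max (w y - t) 0)
            (hm _) le_rfl (by positivity)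
          rw [← h2, sub_self, abs_zero, zero_add, zero_sub, abs_neg] at h3
          have h4 : |c * max (w y - t) 0| ≤ c * Lw * dist x y := by
            rw [max_eq_left (by linarith), abs_of_nonneg (mul_nonneg hc0 (by linarith)), mul_assoc]
            apply mul_le_mul_of_nonneg_left _ hc0
            linarith
          have h5 := mul_le_mul_of_nonneg_left h4 hK
          have h6 : |θ x - G (m (lab y)) (θ y - m (lab y)) (c * max (w y - t) 0)|
              ≤ |θ x - θ y| + |θ y - G (m (lab y)) (θ y - m (lab y)) (c * max (w y - t) 0)| :=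
            abs_sub_le _ _ _
          have h7 : K * (1 + c * Lw) * dist x y = K * dist x y + K * (c * Lw * dist x y) := by ring
          have h8 : 0 ≤ K * dist x y := mul_nonneg hK hd
          linarith [hθd x y]
        · have h1 : a + Real.pi / 2 ≤ c * max (w y - t) 0 := by
            rw [← hc, max_eq_left (by linarith)]
            exact mul_le_mul_of_nonneg_left (by linarith) hc0
          rw [hGc _ _ _ h1, sub_zero]
          have h2 : δ ≤ Lw * dist x y := by linarith
          have h3 : Real.pi / 2 ≤ Real.pi / 2 * Lw / δ * dist x y := by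
            have : Real.pi / 2 * Lw / δ * dist x y = Real.pi / 2 * (Lw * dist x y / δ) := by ring
            rw [this]
            have h4 : 1 ≤ Lw * dist x y / δ := (one_le_div hδ).2 h2
            nlinarith
          linarith [hθb x]
      · push Not at hx
        rw [if_neg (not_le.2 hx)]
        by_cases hlab : lab x = lab y
        · rw [← hlab]
          linarith [hsame (lab x) x y]
        · rcases le_or_gt (w y) (t + δ) with hyd | hyd
          · have h1 := hsep x y hx.le (hxy.trans hyd) hy.le hyd hlab
            have h2 := hGb (m (lab x)) (θ x - m (lab x)) (c * max (w x - t) 0) (hm _) (by positivity)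
            have h3 := hGb (m (lab y)) (θ y - m (lab y)) (c * max (w y - t) 0) (hm _) (by positivity)
            have h4 : 2 * (K * (a + Real.pi / 2))
                ≤ 2 * (K * (a + Real.pi / 2)) / ρ * dist x y := by
              have h5 : 0 ≤ 2 * (K * (a + Real.pi / 2)) := by positivity
              have h6 : 1 ≤ dist x y / ρ := (one_le_div hρ).2 h1
              have h7 : 2 * (K * (a + Real.pi / 2)) / ρ * dist x y
                  = 2 * (K * (a + Real.pi / 2)) * (dist x y / ρ) := by ring
              rw [h7]
              nlinarith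
            have h8 := abs_sub (G (m (lab x)) (θ x - m (lab x)) (c * max (w x - t) 0))
              (G (m (lab y)) (θ y - m (lab y)) (c * max (w y - t) 0))
            linarith
          · have h1 : a + Real.pi / 2 ≤ c * max (w y - t) 0 := by
              rw [← hc, max_eq_left (by linarith)]
              exact mul_le_mul_of_nonneg_left (by linarith) hc0
            have h2 := hsame (lab x) x y
            rw [hGc _ _ _ h1] at h2
            rw [hGc _ _ _ h1]
            linarith
  intro x y
  rcases le_total (w x) (w y) with h | h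
  · exact key x y h
  · rw [abs_sub_comm, dist_comm]
    exact key y x h

end Pool.Agent.FPM
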