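import Mathlib

/-
FPM/SU3P (helper22): labelling of the collar of a level set. If every connected component of the
level set `w = t` has diameter at most `2 b`, then for every `b' > b` a thin collar
`t ≤ w ≤ t + δ` splits into finitely many pieces at positive distances, of diameter at most `2 b'`.
-/

set_option autoImplicit false

open Set Filter Topology

namespace Pool.Agent.FPM

private theorem pcs_clopen {K : Type} [MetricSpace K] [CompactSpace K] {b η : ℝ} (hη : 0 < η)
    (hcomp : ∀ x y : K, y ∈ connectedComponent x → dist x y ≤ 2 * b) (x : K) :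
    ∃ V : Set K, IsClopen V ∧ x ∈ V ∧ ∀ y ∈ V, ∀ z ∈ V, dist y z ≤ 2 * b + 2 * η := by
  set U : Set K := {z | ∃ y ∈ connectedComponent x, dist z y < η} with hU
  have hUo : IsOpen U := by
    have : U = ⋃ y ∈ connectedComponent x, Metric.ball y η := by
      ext z
      simp [hU, Metric.mem_ball]
    rw [this]
    exact isOpen_biUnion fun y _ => Metric.isOpen_ball
  have hdir : Directed (· ⊇ ·) (fun s : { s : Set K // IsClopen s ∧ x ∈ s } => (s : Set K)) := by
    intro s t
    refine ⟨⟨s.1 ∩ t.1, s.2.1.inter t.2.1, s.2.2, t.2.2⟩, ?_, ?_⟩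
    · exact inter_subset_left
    · exact inter_subset_right
  have : Nonempty { s : Set K // IsClopen s ∧ x ∈ s } := ⟨⟨univ, isClopen_univ, mem_univ x⟩⟩
  obtain ⟨V, hV⟩ := exists_subset_nhds_of_compactSpace hdir (fun s => s.2.1.isClosed) (U := U) (by
    intro z hz
    rw [← connectedComponent_eq_iInter_isClopen] at hz
    exact hUo.mem_nhds ⟨z, hz, by rw [dist_self]; exact hη⟩)
  refine ⟨V.1, V.2.1, V.2.2, ?_⟩
  intro y hy z hz
  obtain ⟨y', hy', hyd⟩ := hV hy
  obtain ⟨z', hz', hzd⟩ := hV hz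
  have h1 : z' ∈ connectedComponent y' := by
    rw [connectedComponent_eq hy'] at hz'
    exact hz'
  have h2 := hcomp y' z' h1
  have h3 : dist y z ≤ dist y y' + dist y' z' + dist z' z := dist_triangle4 y y' z' z
  rw [dist_comm z' z] at h3
  linarith

/-- finite clopen labelling of a compact metric space whose components are small -/
private theorem pcs_label {K : Type} [MetricSpace K] [CompactSpace K] {b η : ℝ} (hη : 0 < η)
    (hcomp : ∀ x y : K, y ∈ connectedComponent x → dist x y ≤ 2 * b) :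
    ∃ (ι : Type) (_ : Finite ι) (c : K → ι) (ρ : ℝ), 0 < ρ ∧
      (∀ x y, dist x y < ρ → c x = c y) ∧ (∀ x y, c x = c y → dist x y ≤ 2 * b + 2 * η) := by
  classical
  choose V hV1 hV2 hV3 using pcs_clopen hη hcomp
  obtain ⟨T, hT⟩ := CompactSpace.elim_nhds_subcover V fun x => (hV1 x).isOpen.mem_nhds (hV2 x)
  set G : K → (↥T → ℝ) := fun z i => (V i.1).indicator (fun _ => (1 : ℝ)) z with hG
  have hGc : Continuous G := by
    apply continuous_pi
    intro i
    exact (continuous_const.indicator fun a ha => by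
      rw [(hV1 i.1).frontier_eq] at ha
      exact absurd ha (notMem_empty a))
  have hGu := CompactSpace.uniformContinuous_of_continuous hGc
  rw [Metric.uniformContinuous_iff] at hGu
  obtain ⟨ρ, hρ, hρ'⟩ := hGu 1 one_pos
  refine ⟨Set ↥T, inferInstance, fun z => {i | z ∈ V i.1}, ρ, hρ, ?_, ?_⟩
  · intro x y hxy
    have h1 := hρ' hxy
    ext i
    have h2 : dist (G x i) (G y i) < 1 := lt_of_le_of_lt (dist_le_pi_dist (G x) (G y) i) h1
    simp only [hG, Real.dist_eq] at h2
    show x ∈ V i.1 ↔ y ∈ V i.1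
    by_cases hx : x ∈ V i.1 <;> by_cases hy : y ∈ V i.1
    · simp [hx, hy]
    · rw [indicator_of_mem hx, indicator_of_notMem hy] at h2
      norm_num at h2
    · rw [indicator_of_notMem hx, indicator_of_mem hy] at h2
      norm_num at h2
    · simp [hx, hy]
  · intro x y hxy
    have hx : x ∈ ⋃ x ∈ T, V x := by
      rw [hT]
      exact mem_univ x
    rw [mem_iUnion₂] at hx
    obtain ⟨i, hi, hxi⟩ := hx
    have h1 : (⟨i, hi⟩ : ↥T) ∈ {i : ↥T | x ∈ V i.1} := hxi
    have hxy' : {i : ↥T | x ∈ V i.1} = {i : ↥T | y ∈ V i.1} := hxy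
    rw [hxy'] at h1
    exact hV3 i x hxi y h1

/-- the labelling of the collar -/
theorem pieces {M : Type} [MetricSpace M] [CompactSpace M] {w : M → ℝ} (hw : Continuous w)
    {t b b' : ℝ} (hbb : b < b')
    (hcomp : ∀ x y, w x = t → y ∈ connectedComponentIn {z | w z = t} x → dist x y ≤ 2 * b) :
    ∃ (ι : Type) (_ : Finite ι) (lab : M → ι) (ρ δ : ℝ), 0 < ρ ∧ 0 < δ ∧
      (∀ x y, t ≤ w x → w x ≤ t + δ → t ≤ w y → w y ≤ t + δ → lab x ≠ lab y → ρ ≤ dist x y) ∧
      (∀ x y, t ≤ w x → w x ≤ t + δ → t ≤ w y → w y ≤ t + δ → lab x = lab y →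
        dist x y ≤ 2 * b') := by
  classical
  have hKc : IsClosed {z | w z = t} := isClosed_eq hw continuous_const
  have : CompactSpace ↥{z | w z = t} := isCompact_iff_compactSpace.1 hKc.isCompact
  have hη : 0 < (b' - b) / 2 := by linarith
  obtain ⟨ι, hι, c, ρ₁, hρ₁, hc1, hc2⟩ := pcs_label (K := ↥{z | w z = t}) (b := b) hη (by
    intro x y hxy
    have h1 : (y : M) ∈ connectedComponentIn {z | w z = t} (x : M) := by
      rw [connectedComponentIn_eq_image x.2]
      exact ⟨y, hxy, rfl⟩
    exact hcomp x.1 y.1 x.2 h1)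
  set ρ₀ : ℝ := min (ρ₁ / 3) ((b' - b) / 2) with hρ₀
  have hρ₀p : 0 < ρ₀ := lt_min (by linarith) hη
  -- points of a thin collar are near the level set
  obtain ⟨δ, hδ, hnear⟩ : ∃ δ : ℝ, 0 < δ ∧ ∀ x, t ≤ w x → w x ≤ t + δ →
      ∃ k : ↥{z | w z = t}, dist x k < ρ₀ := by
    set S : Set M := {x | t ≤ w x ∧ ∀ k : ↥{z | w z = t}, ρ₀ ≤ dist x k} with hS
    have hSc : IsClosed S := by
      have : S = {x | t ≤ w x} ∩ ⋂ k : ↥{z | w z = t}, {x | ρ₀ ≤ dist x k} := by
        ext x
        simp [hS]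
      rw [this]
      refine (isClosed_le continuous_const hw).inter (isClosed_iInter fun k => ?_)
      exact isClosed_le continuous_const (continuous_id.dist continuous_const)
    rcases S.eq_empty_or_nonempty with hSe | hSn
    · refine ⟨1, one_pos, fun x hx _ => ?_⟩
      by_contra hcon
      push Not at hcon
      have : x ∈ S := ⟨hx, hcon⟩
      rw [hSe] at this
      exact this
    · obtain ⟨x₀, hx₀, hmin⟩ := hSc.isCompact.exists_isMinOn hSn hw.continuousOn
      have hx₀t : t < w x₀ := by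
        refine lt_of_le_of_ne hx₀.1 fun h => ?_
        have := hx₀.2 ⟨x₀, h.symm⟩
        rw [dist_self] at this
        linarith
      refine ⟨(w x₀ - t) / 2, by linarith, fun x hx hx' => ?_⟩
      by_contra hcon
      push Not at hcon
      have hxS : x ∈ S := ⟨hx, hcon⟩
      have h1 : w x₀ ≤ w x := hmin hxS
      linarith
  by_cases hne : Nonempty ι
  · set lab : M → ι := fun x => if h : ∃ k : ↥{z | w z = t}, dist x k < ρ₀ then c h.choose
      else Classical.choice hne with hlab
    have hl : ∀ x, t ≤ w x → w x ≤ t + δ → ∃ k : ↥{z | w z = t}, dist x k < ρ₀ ∧ lab x = c k := by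
      intro x h1 h2
      have h := hnear x h1 h2
      refine ⟨h.choose, h.choose_spec, ?_⟩
      simp only [hlab]
      rw [dif_pos h]
    refine ⟨ι, hι, lab, ρ₀, δ, hρ₀p, hδ, ?_, ?_⟩
    · intro x y h1 h2 h3 h4 hxy
      obtain ⟨k, hk, hk'⟩ := hl x h1 h2
      obtain ⟨k', hkk, hkk'⟩ := hl y h3 h4
      by_contra hcon
      push Not at hcon
      apply hxy
      rw [hk', hkk']
      apply hc1
      have h5 : dist (k : M) (k' : M) ≤ dist (k : M) x + dist x y + dist y (k' : M) :=
        dist_triangle4 _ _ _ _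
      rw [dist_comm (k : M) x] at h5
      have h6 : ρ₀ ≤ ρ₁ / 3 := min_le_left _ _
      have h7 : dist k k' = dist (k : M) (k' : M) := rfl
      rw [h7]
      linarith
    · intro x y h1 h2 h3 h4 hxy
      obtain ⟨k, hk, hk'⟩ := hl x h1 h2
      obtain ⟨k', hkk, hkk'⟩ := hl y h3 h4
      rw [hk', hkk'] at hxy
      have h8 : dist (k : M) (k' : M) ≤ 2 * b + 2 * ((b' - b) / 2) := hc2 k k' hxy
      have h5 : dist x y ≤ dist x (k : M) + dist (k : M) (k' : M) + dist (k' : M) y :=
        dist_triangle4 _ _ _ _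
      rw [dist_comm (k' : M) y] at h5
      have h6 : ρ₀ ≤ (b' - b) / 2 := min_le_right _ _
      linarith
  · -- no labels: the level set is empty
    have hemp : ∀ x, t ≤ w x → w x ≤ t + δ → False := by
      intro x h1 h2
      obtain ⟨k, _⟩ := hnear x h1 h2
      exact hne ⟨c k⟩
    refine ⟨Unit, inferInstance, fun _ => (), ρ₀, δ, hρ₀p, hδ, ?_, ?_⟩
    · intro x y h1 h2 _ _ _
      exact (hemp x h1 h2).elim
    · intro x y h1 h2 _ _ _
      exact (hemp x h1 h2).elim

end Pool.Agent.FPM
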