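import Pool.Agent.FPM.NMD
import Pool.Agent.FPM.SU1
import Pool.Agent.FPM.SU3A
import Pool.Agent.FPM.SU3G
import Pool.Agent.FPM.SU3P

/-
FPM/SU3 (helper22): the surgery. On a near-minimal surface, the part `w > t` behind a level set all
components of which have diameter at most `2 b` has area at most `(2 b / π) l + ε`, where `l` is the
length of the level set, the derivative at `t` of `s ↦ ∫_{w < s} |∇w|`.
-/

set_option autoImplicit false

open Set Filter Topology MeasureTheory
open scoped NNReal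

noncomputable section

namespace Pool.Agent.FPM

open Pool.Agent.EWD

variable {M : Type} [MetricSpace M] {γ : ℝ → M}

/-- near-minimality for frame changes given almost everywhere -/
theorem nm_ae {C : Calc M γ} {ε : ℝ} (h : NM C ε) {a b c d : Om → ℝ} (ha : AEMeasurable a C.μ)
    (hb : AEMeasurable b C.μ) (hc : AEMeasurable c C.μ) (hd : AEMeasurable d C.μ) {K κ : ℝ}
    (hκ : 0 < κ)
    (hbd : ∀ᵐ o ∂C.μ, |a o| ≤ K ∧ |b o| ≤ K ∧ |c o| ≤ K ∧ |d o| ≤ K ∧ κ ≤ a o * d o - b o * c o)
    (hnear : ∃ r : ℝ, 0 < r ∧ ∀ᵐ o ∂C.μ, Metric.infDist (C.pt o) (range γ) < r →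
      a o = 1 ∧ b o = 0 ∧ c o = 0 ∧ d o = 1) (L : ℝ≥0)
    (hu : ∀ t, ∃ u : M → ℝ, LipschitzWith L u ∧
      (∀ᵐ o ∂C.μ, (a o * C.gx u o + b o * C.gy u o) ^ 2 +
        (c o * C.gx u o + d o * C.gy u o) ^ 2 ≤ 1) ∧
      (∀ s s', |u (γ s) - u (γ s')| ≤ |s - s'|) ∧ Real.pi ≤ u (γ t) - u (γ (t + Real.pi))) :
    C.vol - ε ≤ ∫ o, 1 / (a o * d o - b o * c o) ∂C.μ := by
  classical
  set a' := ha.mk a with ha'
  set b' := hb.mk b with hb'
  set c' := hc.mk c with hc'
  set d' := hd.mk d with hd'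
  have ma : Measurable a' := ha.measurable_mk
  have mb : Measurable b' := hb.measurable_mk
  have mc : Measurable c' := hc.measurable_mk
  have md : Measurable d' := hd.measurable_mk
  set S : Set Om := {o | |a' o| ≤ K ∧ |b' o| ≤ K ∧ |c' o| ≤ K ∧ |d' o| ≤ K ∧
    κ ≤ a' o * d' o - b' o * c' o} with hS
  have hSm : MeasurableSet S := by
    have m1 : Measurable fun o => |a' o| := continuous_abs.measurable.comp ma
    have m2 : Measurable fun o => |b' o| := continuous_abs.measurable.comp mb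
    have m3 : Measurable fun o => |c' o| := continuous_abs.measurable.comp mc
    have m4 : Measurable fun o => |d' o| := continuous_abs.measurable.comp md
    have m5 : Measurable fun o => a' o * d' o - b' o * c' o := (ma.mul md).sub (mb.mul mc)
    exact (measurableSet_le m1 measurable_const).inter ((measurableSet_le m2 measurable_const).inter
      ((measurableSet_le m3 measurable_const).inter ((measurableSet_le m4 measurable_const).inter
        (measurableSet_le measurable_const m5))))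
  have hK1 : (1 : ℝ) ≤ max K 1 := le_max_right _ _
  have hK2 : K ≤ max K 1 := le_max_left _ _
  set A : Fr :=
    { a := fun o => if o ∈ S then a' o else 1
      b := fun o => if o ∈ S then b' o else 0
      c := fun o => if o ∈ S then c' o else 0
      d := fun o => if o ∈ S then d' o else 1
      ma := Measurable.ite hSm ma measurable_const
      mb := Measurable.ite hSm mb measurable_const
      mc := Measurable.ite hSm mc measurable_const
      md := Measurable.ite hSm md measurable_const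
      K := max K 1
      κ := min κ 1
      ba := fun o => by
        by_cases ho : o ∈ S
        · rw [if_pos ho]; exact ho.1.trans hK2
        · rw [if_neg ho, abs_one]; exact hK1
      bb := fun o => by
        by_cases ho : o ∈ S
        · rw [if_pos ho]; exact ho.2.1.trans hK2
        · rw [if_neg ho, abs_zero]; linarith
      bc := fun o => by
        by_cases ho : o ∈ S
        · rw [if_pos ho]; exact ho.2.2.1.trans hK2
        · rw [if_neg ho, abs_zero]; linarith
      bd := fun o => by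
        by_cases ho : o ∈ S
        · rw [if_pos ho]; exact ho.2.2.2.1.trans hK2
        · rw [if_neg ho, abs_one]; exact hK1
      κ0 := lt_min hκ one_pos
      dt := fun o => by
        by_cases ho : o ∈ S
        · simp only [if_pos ho]
          exact (min_le_left _ _).trans ho.2.2.2.2
        · simp only [if_neg ho]
          have := min_le_right κ 1
          linarith } with hA
  have hae : ∀ᵐ o ∂C.μ, A.a o = a o ∧ A.b o = b o ∧ A.c o = c o ∧ A.d o = d o := by
    filter_upwards [ha.ae_eq_mk, hb.ae_eq_mk, hc.ae_eq_mk, hd.ae_eq_mk, hbd] with o h1 h2 h3 h4 h5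
    have e1 : a' o = a o := h1.symm
    have e2 : b' o = b o := h2.symm
    have e3 : c' o = c o := h3.symm
    have e4 : d' o = d o := h4.symm
    have ho : o ∈ S := by
      show |a' o| ≤ K ∧ |b' o| ≤ K ∧ |c' o| ≤ K ∧ |d' o| ≤ K ∧ κ ≤ a' o * d' o - b' o * c' o
      rw [e1, e2, e3, e4]
      exact h5
    refine ⟨?_, ?_, ?_, ?_⟩
    · show (if o ∈ S then a' o else 1) = a o
      rw [if_pos ho, e1]
    · show (if o ∈ S then b' o else 0) = b o
      rw [if_pos ho, e2]
    · show (if o ∈ S then c' o else 0) = c o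
      rw [if_pos ho, e3]
    · show (if o ∈ S then d' o else 1) = d o
      rw [if_pos ho, e4]
  have hN : NearC C A := by
    obtain ⟨r, hr, hr'⟩ := hnear
    refine ⟨r, hr, ?_⟩
    filter_upwards [hr', hae] with o h1 h2 h3
    rw [h2.1, h2.2.1, h2.2.2.1, h2.2.2.2]
    exact h1 h3
  have h1 := h A L hN (by
    intro t
    obtain ⟨u, hu1, hu2, hu3, hu4⟩ := hu t
    refine ⟨u, ⟨hu1, ?_, hu3⟩, hu4⟩
    filter_upwards [hu2, hae] with o h1 h2
    unfold Fr.n2
    rw [h2.1, h2.2.1, h2.2.2.1, h2.2.2.2]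
    exact h1)
  refine h1.trans (le_of_eq ?_)
  apply integral_congr_ae
  filter_upwards [hae] with o h2
  unfold Fr.det
  rw [h2.1, h2.2.1, h2.2.2.1, h2.2.2.2]

/-- locality of the gradient -/
theorem loc_eq (C : Calc M γ) {u v : M → ℝ} (hu : Lip u) (hv : Lip v) :
    ∀ᵐ o ∂C.μ, u (C.pt o) = v (C.pt o) → C.gx u o = C.gx v o ∧ C.gy u o = C.gy v o := by
  filter_upwards [grad_level C (hu.sub hv) 0, C.ae_sub hu hv] with o h1 h2 h3
  have h4 := h1 (by rw [h3, sub_self])
  rw [h2.1, h2.2] at h4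
  exact ⟨by linarith [h4.1], by linarith [h4.2]⟩

/-- an entry of the change of the metric -/
def eA (a κ c t : ℝ) (f : ℝ → ℝ → ℝ → ℝ) (d : ℝ) (C : Calc M γ) (w : M → ℝ) (o : Om) : ℝ :=
  if w (C.pt o) ≤ t then d
  else f (sAl a κ (c * (w (C.pt o) - t))) (c * C.gx w o) (c * C.gy w o)

theorem eA_meas {a κ c t : ℝ} {f : ℝ → ℝ → ℝ → ℝ}
    (hf : Measurable fun x : ℝ × ℝ × ℝ => f x.1 x.2.1 x.2.2) (d : ℝ) (C : Calc M γ) {w : M → ℝ}
    (hw : Lip w) : AEMeasurable (eA a κ c t f d C w) C.μ := by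
  have h1 : Measurable fun x : ℝ × ℝ × ℝ =>
      if x.1 ≤ t then d else f (sAl a κ (c * (x.1 - t))) (c * x.2.1) (c * x.2.2) := by
    apply Measurable.ite (measurableSet_le measurable_fst measurable_const) measurable_const
    have h2 : Measurable fun x : ℝ × ℝ × ℝ => (sAl a κ (c * (x.1 - t)), c * x.2.1, c * x.2.2) := by
      have h3 := (continuous_sAl a κ).measurable
      exact ((h3.comp (by fun_prop : Measurable fun x : ℝ × ℝ × ℝ => c * (x.1 - t))).prodMk
        ((by fun_prop : Measurable fun x : ℝ × ℝ × ℝ => c * x.2.1).prodMk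
          (by fun_prop : Measurable fun x : ℝ × ℝ × ℝ => c * x.2.2)))
    exact hf.comp h2
  exact h1.comp_aemeasurable ((C.meas_pt hw).prodMk ((C.meas_gx hw).prodMk (C.meas_gy hw)))

/-- `sL` decreases -/
theorem sL_anti {a : ℝ} (ha : 0 < a) : AntitoneOn (fun r => sL a r) (Ici 0) := by
  intro r hr s hs hrs
  have hp := Real.pi_pos
  have h0 : ∀ r : ℝ, 0 ≤ r → 0 ≤ sC a r := by
    intro r hr
    exact le_max_of_le_right (le_min ha.le hr)
  have h1 : sC a r ≤ sC a s := max_le_max le_rfl (min_le_min le_rfl hrs)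
  unfold sL
  apply Real.cos_le_cos_of_nonneg_of_le_pi
  · have := h0 r hr
    positivity
  · have := (SU1_ang ha s).2
    linarith
  · apply div_le_div_of_nonneg_right _ (by positivity)
    exact mul_le_mul_of_nonneg_left h1 hp.le

theorem sAl_deep {a κ r : ℝ} (ha : 0 < a) (hκ : 0 ≤ κ) (hr : a ≤ r) : sAl a κ r = κ := by
  unfold sAl
  have h := sL_deep ha hr
  unfold sL at h
  rw [h]
  simp [hκ]

/-- the truncated distance to a point of the curve -/
def pot (γ : ℝ → M) (t : ℝ) (x : M) : ℝ :=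
  sC (Real.pi / 2) (dist x (γ (t + Real.pi)) - Real.pi / 2)

theorem pot_lip (t : ℝ) : LipschitzWith 1 (pot γ t) := by
  apply LipschitzWith.of_dist_le_mul
  intro x y
  rw [NNReal.coe_one, one_mul, Real.dist_eq]
  unfold pot
  refine (sC_lip _ _ _).trans ?_
  have : dist x (γ (t + Real.pi)) - Real.pi / 2 - (dist y (γ (t + Real.pi)) - Real.pi / 2)
      = dist x (γ (t + Real.pi)) - dist y (γ (t + Real.pi)) := by ring
  rw [this]
  exact abs_dist_sub_le x y _

theorem pot_bd (t : ℝ) (x : M) : |pot γ t x| ≤ Real.pi / 2 := by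
  have hp := Real.pi_pos
  have := sC_mem (a := Real.pi / 2) (by positivity) (dist x (γ (t + Real.pi)) - Real.pi / 2)
  exact abs_le.2 this

theorem pot_end (hγ : Bd γ) (t : ℝ) : Real.pi ≤ pot γ t (γ t) - pot γ t (γ (t + Real.pi)) := by
  have hp := Real.pi_pos
  have h1 : pot γ t (γ t) = Real.pi / 2 := by
    unfold pot
    apply sC_top (by positivity)
    linarith [hγ.anti t]
  have h2 : pot γ t (γ (t + Real.pi)) = -(Real.pi / 2) := by
    unfold pot
    rw [dist_self]
    rw [show (0 : ℝ) - Real.pi / 2 = -(Real.pi / 2) by ring, sC_neg (by positivity),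
      sC_top (by positivity) le_rfl]
  rw [h1, h2]
  linarith

/-- the competitors of one surgery -/
theorem su3_comp (hγ : Bd γ) (C : Calc M γ) {w : M → ℝ} {Lw : ℝ≥0} (hw : LipschitzWith Lw w)
    (h0 : ∀ s, w (γ s) ≤ 0) {t δ a b c ρ κ : ℝ} (ht : 0 < t) (hδ : 0 < δ) (hρ : 0 < ρ) (ha : 0 < a)
    (hc0 : 0 < c) (hc : c * δ = a + Real.pi / 2) (hab : b < a) (hκ : 0 < κ)
    {ι : Type} [Finite ι] {lab : M → ι}
    (hsep : ∀ x y, t ≤ w x → w x ≤ t + δ → t ≤ w y → w y ≤ t + δ → lab x ≠ lab y → ρ ≤ dist x y)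
    (hdiam : ∀ x y, t ≤ w x → w x ≤ t + δ → t ≤ w y → w y ≤ t + δ → lab x = lab y →
      dist x y ≤ 2 * b) (t₀ : ℝ) :
    ∃ u : M → ℝ, LipschitzWith (Real.toNNReal (compL Lw δ a c ρ 3)) u ∧
      (∀ᵐ o ∂C.μ, (eA a κ c t sA11 1 C w o * C.gx u o + eA a κ c t sA12 0 C w o * C.gy u o) ^ 2 +
        (eA a κ c t sA12 0 C w o * C.gx u o + eA a κ c t sA22 1 C w o * C.gy u o) ^ 2 ≤ 1) ∧
      (∀ s s', |u (γ s) - u (γ s')| ≤ |s - s'|) ∧
      Real.pi ≤ u (γ t₀) - u (γ (t₀ + Real.pi)) := by
  have hp := Real.pi_pos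
  set θ : M → ℝ := pot γ t₀ with hθ
  have hθl : LipschitzWith 1 θ := pot_lip t₀
  have hθb : ∀ x, |θ x| ≤ Real.pi / 2 := pot_bd t₀
  have hcen : ∀ i : ι, ∃ m : ℝ, |m| ≤ Real.pi / 2 ∧
      ∀ x, t ≤ w x → w x ≤ t + δ → lab x = i → |θ x - m| ≤ b := by
    intro i
    obtain ⟨m, hm1, hm2⟩ := centre (S := {v | ∃ x, t ≤ w x ∧ w x ≤ t + δ ∧ lab x = i ∧ θ x = v})
      (B := Real.pi / 2) (b := b) (by positivity) (by
        rintro v ⟨x, _, _, _, rfl⟩
        exact hθb x) (by
        rintro v ⟨x, hx1, hx2, hx3, rfl⟩ v' ⟨y, hy1, hy2, hy3, rfl⟩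
        have h1 := hdiam x y hx1 hx2 hy1 hy2 (hx3.trans hy3.symm)
        have h2 := hθl.dist_le_mul x y
        rw [Real.dist_eq, NNReal.coe_one, one_mul] at h2
        exact h2.trans h1)
    exact ⟨m, hm1, fun x h1 h2 h3 => hm2 _ ⟨x, h1, h2, h3, rfl⟩⟩
  choose m hm hmb using hcen
  set u : M → ℝ := comp (sG a) w θ lab m t c with hu
  have hG0 : ∀ m s, |s| ≤ a → sG a m s 0 = m + s := fun m s hs => sG_zero ha hs rfl
  have hGc : ∀ m s r, a + Real.pi / 2 ≤ r → sG a m s r = 0 := fun m s r hr => sG_end ha hr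
  have hGl : ∀ m s s' r r', |m| ≤ Real.pi / 2 → 0 ≤ r → 0 ≤ r' →
      |sG a m s r - sG a m s' r'| ≤ 3 * (|s - s'| + |r - r'|) := by
    intro m s s' r r' hm _ _
    have := sG_lip ha hm s s' r r'
    have h2 := abs_nonneg (s - s')
    linarith
  have hul := comp_lip hw hθl hθb hδ hρ (by norm_num : (0 : ℝ) ≤ 3) ha.le hc0.le hc hab.le hsep hm
    (fun x h1 h2 => hmb (lab x) x h1 h2 rfl) hG0 hGc hGl
  have hL0 : 0 ≤ compL Lw δ a c ρ 3 := by
    unfold compL
    positivity
  have hulip : LipschitzWith (Real.toNNReal (compL Lw δ a c ρ 3)) u := by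
    apply LipschitzWith.of_dist_le_mul
    intro x y
    rw [Real.coe_toNNReal _ hL0, Real.dist_eq]
    exact hul x y
  refine ⟨u, hulip, ?_, ?_, ?_⟩
  · -- gradient
    have hwL : Lip w := ⟨Lw, hw⟩
    have hθL : Lip θ := ⟨1, hθl⟩
    have huL : Lip u := ⟨_, hulip⟩
    have hvl : ∀ i : ι, LipschitzWith (Real.toNNReal (3 * (1 + c * Lw)))
        (fun x => sG a (m i) (θ x - m i) (c * max (w x - t) 0)) := by
      intro i
      apply LipschitzWith.of_dist_le_mul
      intro x y
      rw [Real.coe_toNNReal _ (by positivity), Real.dist_eq]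
      refine (hGl _ _ _ _ _ (hm i) (by positivity) (by positivity)).trans ?_
      rw [mul_assoc]
      apply mul_le_mul_of_nonneg_left _ (by norm_num)
      have h1 : |θ x - m i - (θ y - m i)| ≤ dist x y := by
        have e : θ x - m i - (θ y - m i) = θ x - θ y := by ring
        rw [e]
        have := hθl.dist_le_mul x y
        rwa [Real.dist_eq, NNReal.coe_one, one_mul] at this
      have h2 : |c * max (w x - t) 0 - c * max (w y - t) 0| ≤ c * Lw * dist x y := by
        rw [← mul_sub, abs_mul, abs_of_nonneg hc0.le, mul_assoc]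
        apply mul_le_mul_of_nonneg_left _ hc0.le
        refine le_trans (abs_max_sub_max_le_abs _ _ _) ?_
        have e : w x - t - (w y - t) = w x - w y := by ring
        rw [e]
        have := hw.dist_le_mul x y
        rwa [Real.dist_eq] at this
      linarith
    have hvL : ∀ i : ι, Lip (fun x => sG a (m i) (θ x - m i) (c * max (w x - t) 0)) :=
      fun i => ⟨_, hvl i⟩
    have hθ1 : ∀ᵐ o ∂C.μ, C.gx θ o ^ 2 + C.gy θ o ^ 2 ≤ 1 := by
      have := C.bound θ 1 hθl
      filter_upwards [this] with o ho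
      have : ((1 : ℝ≥0) : ℝ) ^ 2 = 1 := by norm_num
      rw [this] at ho
      exact ho
    have hall : ∀ᵐ o ∂C.μ, ∀ i : ι,
        (u (C.pt o) = sG a (m i) (θ (C.pt o) - m i) (c * max (w (C.pt o) - t) 0) →
          C.gx u o = C.gx (fun x => sG a (m i) (θ x - m i) (c * max (w x - t) 0)) o ∧
          C.gy u o = C.gy (fun x => sG a (m i) (θ x - m i) (c * max (w x - t) 0)) o) ∧
        (t ≤ w (C.pt o) → |θ (C.pt o) - m i| < a →
          (sA11 (sAl a κ (c * (w (C.pt o) - t))) (c * C.gx w o) (c * C.gy w o) *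
              C.gx (fun x => sG a (m i) (θ x - m i) (c * max (w x - t) 0)) o +
            sA12 (sAl a κ (c * (w (C.pt o) - t))) (c * C.gx w o) (c * C.gy w o) *
              C.gy (fun x => sG a (m i) (θ x - m i) (c * max (w x - t) 0)) o) ^ 2 +
          (sA12 (sAl a κ (c * (w (C.pt o) - t))) (c * C.gx w o) (c * C.gy w o) *
              C.gx (fun x => sG a (m i) (θ x - m i) (c * max (w x - t) 0)) o +
            sA22 (sAl a κ (c * (w (C.pt o) - t))) (c * C.gx w o) (c * C.gy w o) *
              C.gy (fun x => sG a (m i) (θ x - m i) (c * max (w x - t) 0)) o) ^ 2 ≤ 1) := by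
      rw [ae_all_iff]
      intro i
      filter_upwards [loc_eq C huL (hvL i), surg_grad C hθL hwL hθ1 ha hκ hc0 (hm i)]
        with o h1 h2
      exact ⟨h1, h2⟩
    filter_upwards [hall, loc_eq C huL hθL, grad_level C huL 0, hθ1] with o h1 h2 h3 h4
    unfold eA
    by_cases hwt : w (C.pt o) ≤ t
    · simp only [if_pos hwt]
      have h5 : u (C.pt o) = θ (C.pt o) := by
        simp only [hu, comp, if_pos hwt]
      obtain ⟨e1, e2⟩ := h2 h5
      rw [e1, e2]
      linarith
    · simp only [if_neg hwt]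
      push Not at hwt
      rcases le_or_gt (w (C.pt o)) (t + δ) with hwd | hwd
      · have h5 := h1 (lab (C.pt o))
        have h6 : u (C.pt o) = sG a (m (lab (C.pt o))) (θ (C.pt o) - m (lab (C.pt o)))
            (c * max (w (C.pt o) - t) 0) := by
          simp only [hu, comp, if_neg (not_le.2 hwt)]
        obtain ⟨e1, e2⟩ := h5.1 h6
        rw [e1, e2]
        apply h5.2 hwt.le
        exact lt_of_le_of_lt (hmb _ _ hwt.le hwd rfl) hab
      · have h6 : u (C.pt o) = 0 := by
          simp only [hu, comp, if_neg (not_le.2 hwt)]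
          apply hGc
          rw [← hc, max_eq_left (by linarith)]
          exact mul_le_mul_of_nonneg_left (by linarith) hc0.le
        obtain ⟨e1, e2⟩ := h3 h6
        rw [e1, e2]
        norm_num
  · intro s s'
    have e : ∀ s, u (γ s) = θ (γ s) := by
      intro s
      simp only [hu, comp, if_pos ((h0 s).trans ht.le)]
    rw [e, e]
    have h1 := hθl.dist_le_mul (γ s) (γ s')
    rw [Real.dist_eq, NNReal.coe_one, one_mul] at h1
    have h2 := hγ.lip.dist_le_mul s s'
    rw [NNReal.coe_one, one_mul, Real.dist_eq] at h2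
    exact h1.trans h2
  · have e : ∀ s, u (γ s) = θ (γ s) := by
      intro s
      simp only [hu, comp, if_pos ((h0 s).trans ht.le)]
    rw [e, e]
    exact pot_end hγ t₀

/-- the surgery behind a level set of small components -/
theorem su3 [CompactSpace M] (hγ : Bd γ) (C : Calc M γ) {ε : ℝ} (hmin : NM C ε) {w : M → ℝ}
    (hw : Lip w) (h0 : ∀ s, w (γ s) ≤ 0) {t l b : ℝ} (ht : 0 < t)
    (hl : HasDerivAt (fun s => ∫ o in {o | w (C.pt o) < s}, √(C.gx w o ^ 2 + C.gy w o ^ 2) ∂C.μ) l t)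
    (hb : 0 ≤ b)
    (hcomp : ∀ x y, w x = t → y ∈ connectedComponentIn {z | w z = t} x → dist x y ≤ 2 * b) :
    (C.μ {o | t < w (C.pt o)}).toReal ≤ 2 * b / Real.pi * l + ε := by
  have hp := Real.pi_pos
  have := C.fin
  obtain ⟨Lw, hLw⟩ := hw
  have hw : Lip w := ⟨Lw, hLw⟩
  have hW : AEMeasurable (fun o => w (C.pt o)) C.μ := C.meas_pt hw
  set g : Om → ℝ := fun o => √(C.gx w o ^ 2 + C.gy w o ^ 2) with hg
  have hg0 : ∀ o, 0 ≤ g o := fun o => Real.sqrt_nonneg _
  have hgb : ∀ᵐ o ∂C.μ, g o ≤ Lw := by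
    filter_upwards [C.bound w Lw hLw] with o ho
    exact Real.sqrt_le_iff.2 ⟨Lw.2, ho⟩
  have hgm : AEMeasurable g C.μ := by
    have := ((C.meas_gx hw).pow_const 2).add ((C.meas_gy hw).pow_const 2)
    exact Real.continuous_sqrt.measurable.comp_aemeasurable this
  have hgi : Integrable g C.μ := by
    refine Calc.integrable_of_bdd C hgm (B := Lw) ?_
    filter_upwards [hgb] with o ho
    rwa [abs_of_nonneg (hg0 o)]
  have hnull : ∀ s, NullMeasurableSet {o | w (C.pt o) < s} C.μ := fun s =>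
    nullMeasurableSet_lt hW aemeasurable_const
  have hl0 : 0 ≤ l := by
    apply hl.nonneg_of_monotone
    intro s s' hss
    have e : ∀ s, ∫ o in {o | w (C.pt o) < s}, g o ∂C.μ
        = ∫ o, {o | w (C.pt o) < s}.indicator g o ∂C.μ := fun s => (integral_indicator₀ (hnull s)).symm
    show ∫ o in {o | w (C.pt o) < s}, g o ∂C.μ ≤ ∫ o in {o | w (C.pt o) < s'}, g o ∂C.μ
    rw [e, e]
    apply integral_mono (hgi.indicator₀ (hnull s)) (hgi.indicator₀ (hnull s'))
    apply indicator_le_indicator_of_subset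
    · intro o ho
      exact lt_of_lt_of_le ho hss
    · exact hg0
  apply le_of_forall_pos_le_add
  intro ζ hζ
  -- parameters
  set τ : ℝ := ζ / (4 * (l + 1)) with hτ
  have hτ0 : 0 < τ := by positivity
  set a : ℝ := b + τ with ha
  have ha0 : 0 < a := by linarith
  have hal : 2 * a / Real.pi * l ≤ 2 * b / Real.pi * l + ζ / 4 := by
    have h1 : 2 * a / Real.pi * l = 2 * b / Real.pi * l + 2 / Real.pi * (τ * l) := by
      rw [ha]
      ring
    have h2 : τ * l ≤ ζ / 4 := by
      have : τ * l = ζ / 4 * (l / (l + 1)) := by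
        rw [hτ]
        field_simp
      rw [this]
      have h3 : l / (l + 1) ≤ 1 := (div_le_one (by linarith)).2 (by linarith)
      nlinarith
    have h3 : 2 / Real.pi ≤ 1 := (div_le_one hp).2 (by linarith [Real.pi_gt_three])
    have h4 : 0 ≤ τ * l := by positivity
    have h5 : 2 / Real.pi * (τ * l) ≤ 1 * (τ * l) := mul_le_mul_of_nonneg_right h3 h4
    rw [h1]
    linarith
  obtain ⟨ι, hι, lab, ρ, δ₁, hρ, hδ₁, hsep, hdiam⟩ := pieces (hw.cont) (t := t) (b := b)
    (b' := b + τ / 2) (by linarith) hcomp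
  obtain ⟨δ₂, hδ₂, harea⟩ := area_limit (μ := C.μ) (W := fun o => w (C.pt o)) (g := g) hW hgi
    (Eventually.of_forall hg0) (t := t) (l := l) (R := a + Real.pi / 2) (by positivity) hl
    (f := fun r => sL a r) (sL_anti ha0) (sL_nonneg ha0) (η := ζ / 4) (by positivity)
  obtain ⟨δ₃, hδ₃, hcol⟩ := collar_small (μ := C.μ) (W := fun o => w (C.pt o)) hW t
    (η := ζ / 4) (by positivity)
  set δ : ℝ := min δ₁ (min δ₂ δ₃) with hδ
  have hδ0 : 0 < δ := lt_min hδ₁ (lt_min hδ₂ hδ₃)
  have hδ1 : δ ≤ δ₁ := min_le_left _ _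
  have hδ2 : δ ≤ δ₂ := (min_le_right _ _).trans (min_le_left _ _)
  have hδ3 : δ ≤ δ₃ := (min_le_right _ _).trans (min_le_right _ _)
  set c : ℝ := (a + Real.pi / 2) / δ with hc
  have hc0 : 0 < c := by positivity
  have hcδ : c * δ = a + Real.pi / 2 := div_mul_cancel₀ _ hδ0.ne'
  set V : ℝ := C.vol with hV
  have hV0 : 0 ≤ V := ENNReal.toReal_nonneg
  set G0 : ℝ := ∫ o, g o ∂C.μ with hG0
  have hG00 : 0 ≤ G0 := integral_nonneg hg0
  set x₀ : ℝ := min 1 (ζ / (4 * (V + c * G0 + 1))) with hx₀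
  have hx0 : 0 < x₀ := lt_min one_pos (by positivity)
  have hx1 : x₀ ≤ 1 := min_le_left _ _
  have hx2 : x₀ * (V + c * G0) ≤ ζ / 4 := by
    have h1 : x₀ ≤ ζ / (4 * (V + c * G0 + 1)) := min_le_right _ _
    have h2 : 0 ≤ V + c * G0 := by positivity
    calc x₀ * (V + c * G0) ≤ ζ / (4 * (V + c * G0 + 1)) * (V + c * G0) :=
          mul_le_mul_of_nonneg_right h1 h2
      _ = ζ / 4 * ((V + c * G0) / (V + c * G0 + 1)) := by field_simp
      _ ≤ ζ / 4 * 1 := by
          apply mul_le_mul_of_nonneg_left _ (by positivity)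
          exact (div_le_one (by linarith)).2 (by linarith)
      _ = ζ / 4 := mul_one _
  set κ : ℝ := x₀ ^ 2 with hκ
  have hκ0 : 0 < κ := by positivity
  have hκ1 : κ ≤ 1 := pow_le_one₀ hx0.le hx1
  have hκs : √κ = x₀ := Real.sqrt_sq hx0.le
  have hκx : κ ≤ x₀ := by
    rw [hκ, sq]
    nlinarith
  have hal0 : ∀ r, 0 < sAl a κ r := sAl_pos hκ0
  -- the new metric
  have hal1 : ∀ r, 1 / √(sAl a κ r) ≤ 1 / x₀ := by
    intro r
    rw [← hκs]
    exact one_div_le_one_div_of_le (Real.sqrt_pos.2 hκ0) (Real.sqrt_le_sqrt (sAl_ge a κ r))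
  have h1x : 1 ≤ 1 / x₀ := (one_le_div hx0).2 hx1
  set Q : ℝ := c * Lw with hQ
  have hQ0 : 0 ≤ Q := mul_nonneg hc0.le Lw.2
  have hdet : ∀ᵐ o ∂C.μ, (c * C.gx w o) ^ 2 + (c * C.gy w o) ^ 2 ≤ Q ^ 2 := by
    filter_upwards [C.bound w Lw hLw] with o ho
    have h1 : (c * C.gx w o) ^ 2 + (c * C.gy w o) ^ 2 = c ^ 2 * (C.gx w o ^ 2 + C.gy w o ^ 2) := by
      ring
    rw [h1, hQ, mul_pow]
    exact mul_le_mul_of_nonneg_left ho (by positivity)
  have hdet1 : 1 / √(1 + Q ^ 2) ≤ 1 := by
    rw [div_le_one (by positivity)]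
    exact Real.one_le_sqrt.2 (by nlinarith [sq_nonneg Q])
  have key := nm_ae hmin (a := eA a κ c t sA11 1 C w) (b := eA a κ c t sA12 0 C w)
    (c := eA a κ c t sA12 0 C w) (d := eA a κ c t sA22 1 C w)
    (eA_meas measurable_sA11 1 C hw) (eA_meas measurable_sA12 0 C hw)
    (eA_meas measurable_sA12 0 C hw) (eA_meas measurable_sA22 1 C hw)
    (K := 1 / x₀) (κ := 1 / √(1 + Q ^ 2)) (by positivity)
    (by
      filter_upwards [hdet] with o ho
      unfold eA
      by_cases hwt : w (C.pt o) ≤ t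
      · simp only [if_pos hwt, abs_one, abs_zero]
        refine ⟨h1x, by positivity, by positivity, h1x, ?_⟩
        rw [mul_one, mul_zero, sub_zero]
        exact hdet1
      · simp only [if_neg hwt]
        refine ⟨(sA11_le (hal0 _) _ _).trans (hal1 _), (sA12_le (hal0 _) _ _).trans (hal1 _),
          (sA12_le (hal0 _) _ _).trans (hal1 _), (sA22_le (hal0 _) _ _).trans (hal1 _), ?_⟩
        have h1 := sA_det_ge (hal0 (c * (w (C.pt o) - t))) (sAl_le hκ1 _) ho
        rw [sq (sA12 _ _ _)] at h1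
        exact h1)
    (by
      have hr : 0 < t / (Lw + 1) := div_pos ht (by positivity)
      refine ⟨t / (Lw + 1), hr, Eventually.of_forall fun o ho => ?_⟩
      have hwt : w (C.pt o) ≤ t := by
        obtain ⟨y, ⟨s, rfl⟩, hy⟩ := (Metric.infDist_lt_iff (range_nonempty γ)).1 ho
        have h1 := hLw.dist_le_mul (C.pt o) (γ s)
        rw [Real.dist_eq] at h1
        have h2 := (abs_le.1 h1).2
        have h3 := h0 s
        have h4 : (Lw : ℝ) * dist (C.pt o) (γ s) ≤ Lw * (t / (Lw + 1)) :=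
          mul_le_mul_of_nonneg_left hy.le Lw.2
        have h5 : (Lw : ℝ) * (t / (Lw + 1)) ≤ t := by
          have h6 : (Lw : ℝ) * (t / (Lw + 1)) = t * (Lw / (Lw + 1)) := by ring
          rw [h6]
          have h7 : (Lw : ℝ) / (Lw + 1) ≤ 1 := (div_le_one (by positivity)).2 (by linarith)
          nlinarith
        linarith
      unfold eA
      simp only [if_pos hwt]
      exact ⟨trivial, trivial, trivial, trivial⟩)
    (Real.toNNReal (compL Lw δ a c ρ 3))
    (fun t₀ => su3_comp hγ C hLw h0 ht hδ0 hρ ha0 hc0 hcδ (b := b + τ / 2) (by linarith) hκ0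
      (fun x y h1 h2 h3 h4 => hsep x y h1 (by linarith) h3 (by linarith))
      (fun x y h1 h2 h3 h4 => hdiam x y h1 (by linarith) h3 (by linarith)) t₀)
  -- the new area
  have hle : NullMeasurableSet {o | w (C.pt o) ≤ t} C.μ := nullMeasurableSet_le hW aemeasurable_const
  have hcl : NullMeasurableSet {o | t < w (C.pt o) ∧ w (C.pt o) < t + δ} C.μ :=
    (nullMeasurableSet_lt aemeasurable_const hW).inter (nullMeasurableSet_lt hW aemeasurable_const)
  have hfi : Integrable (fun o => sL a (c * (w (C.pt o) - t)) * c * g o) C.μ := by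
    have h1 : AEMeasurable (fun o => sL a (c * (w (C.pt o) - t))) C.μ :=
      (continuous_sL a).measurable.comp_aemeasurable ((hW.sub_const t).const_mul c)
    refine Calc.integrable_of_bdd C ((h1.mul_const c).mul hgm) (B := c * Lw) ?_
    filter_upwards [hgb] with o ho
    have h2 := sL_nonneg ha0 (c * (w (C.pt o) - t))
    have h3 := sL_le a (c * (w (C.pt o) - t))
    have h4 := hg0 o
    rw [abs_of_nonneg (by positivity)]
    apply mul_le_mul _ ho h4 hc0.le
    nlinarith
  set F : Om → ℝ := fun o => {o | w (C.pt o) ≤ t}.indicator (fun _ => (1 : ℝ)) o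
    + {o | t < w (C.pt o) ∧ w (C.pt o) < t + δ}.indicator (fun _ => (1 : ℝ)) o
    + {o | t < w (C.pt o) ∧ w (C.pt o) < t + δ}.indicator
        (fun o => sL a (c * (w (C.pt o) - t)) * c * g o) o
    + (x₀ + x₀ * c * g o) with hF
  have i1 : Integrable (fun o => {o | w (C.pt o) ≤ t}.indicator (fun _ => (1 : ℝ)) o) C.μ :=
    (integrable_const (1 : ℝ)).indicator₀ hle
  have i2 : Integrable (fun o => {o | t < w (C.pt o) ∧ w (C.pt o) < t + δ}.indicator
      (fun _ => (1 : ℝ)) o) C.μ := (integrable_const (1 : ℝ)).indicator₀ hcl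
  have i3 : Integrable (fun o => {o | t < w (C.pt o) ∧ w (C.pt o) < t + δ}.indicator
      (fun o => sL a (c * (w (C.pt o) - t)) * c * g o) o) C.μ := hfi.indicator₀ hcl
  have i4 : Integrable (fun o => x₀ + x₀ * c * g o) C.μ :=
    (integrable_const x₀).add (hgi.const_mul (x₀ * c))
  have hbound : ∫ o, 1 / (eA a κ c t sA11 1 C w o * eA a κ c t sA22 1 C w o
      - eA a κ c t sA12 0 C w o * eA a κ c t sA12 0 C w o) ∂C.μ ≤ ∫ o, F o ∂C.μ := by
    apply integral_mono_of_nonneg
    · filter_upwards with o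
      unfold eA
      by_cases hwt : w (C.pt o) ≤ t
      · simp only [if_pos hwt]
        norm_num
      · simp only [if_neg hwt]
        have := sA_det_pos (hal0 (c * (w (C.pt o) - t))) (c * C.gx w o) (c * C.gy w o)
        rw [sq (sA12 _ _ _)] at this
        exact (one_div_pos.2 this).le
    · exact ((i1.add i2).add i3).add i4
    · filter_upwards with o
      have hgo := hg0 o
      have h4 : 0 ≤ x₀ + x₀ * c * g o := by positivity
      have h5 : √((c * C.gx w o) ^ 2 + (c * C.gy w o) ^ 2) = c * g o := by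
        have e : (c * C.gx w o) ^ 2 + (c * C.gy w o) ^ 2
            = c ^ 2 * (C.gx w o ^ 2 + C.gy w o ^ 2) := by ring
        rw [e, Real.sqrt_mul (by positivity), Real.sqrt_sq hc0.le]
      show _ ≤ F o
      simp only [hF]
      unfold eA
      by_cases hwt : w (C.pt o) ≤ t
      · have hn : o ∉ {o | t < w (C.pt o) ∧ w (C.pt o) < t + δ} := fun h => not_lt.2 hwt h.1
        simp only [if_pos hwt]
        rw [indicator_of_mem (show o ∈ {o | w (C.pt o) ≤ t} from hwt), indicator_of_notMem hn,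
          indicator_of_notMem hn]
        norm_num
        linarith
      · simp only [if_neg hwt]
        rw [indicator_of_notMem (show o ∉ {o | w (C.pt o) ≤ t} from hwt)]
        push Not at hwt
        have h6 := sA_area_le' ha0 hκ0 (c * (w (C.pt o) - t)) (c * C.gx w o) (c * C.gy w o)
        rw [h5, hκs, sq (sA12 _ _ _)] at h6
        refine h6.trans ?_
        rcases lt_or_ge (w (C.pt o)) (t + δ) with hwd | hwd
        · have hm : o ∈ {o | t < w (C.pt o) ∧ w (C.pt o) < t + δ} := ⟨hwt, hwd⟩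
          rw [indicator_of_mem hm, indicator_of_mem hm]
          have h7 := sAl_le (a := a) hκ1 (c * (w (C.pt o) - t))
          have h8 : (x₀ + sL a (c * (w (C.pt o) - t))) * (c * g o)
              = x₀ * c * g o + sL a (c * (w (C.pt o) - t)) * c * g o := by ring
          rw [h8]
          linarith
        · have hn : o ∉ {o | t < w (C.pt o) ∧ w (C.pt o) < t + δ} := fun h => not_lt.2 hwd h.2
          rw [indicator_of_notMem hn, indicator_of_notMem hn]
          have h9 : a ≤ c * (w (C.pt o) - t) := by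
            have : c * δ ≤ c * (w (C.pt o) - t) := mul_le_mul_of_nonneg_left (by linarith) hc0.le
            linarith
          rw [sAl_deep ha0 hκ0.le h9, sL_deep ha0 h9]
          have h8 : (x₀ + 0) * (c * g o) = x₀ * c * g o := by ring
          rw [h8]
          linarith
  have hFint : ∫ o, F o ∂C.μ = (C.μ {o | w (C.pt o) ≤ t}).toReal
      + (C.μ {o | t < w (C.pt o) ∧ w (C.pt o) < t + δ}).toReal
      + (∫ o in {o | t < w (C.pt o) ∧ w (C.pt o) < t + δ}, sL a (c * (w (C.pt o) - t)) * c * g o ∂C.μ)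
      + (x₀ * V + x₀ * c * G0) := by
    have j1 := integral_add i1 i2
    have j2 := integral_add (i1.add i2) i3
    have j3 := integral_add ((i1.add i2).add i3) i4
    have j4 : ∫ o, (x₀ + x₀ * c * g o) ∂C.μ = x₀ * V + x₀ * c * G0 := by
      rw [integral_add (integrable_const x₀) (hgi.const_mul (x₀ * c)), integral_const_mul,
        integral_const, smul_eq_mul, measureReal_def, mul_comm (C.μ univ).toReal x₀]
      rfl
    have k1 : ∫ o, {o | w (C.pt o) ≤ t}.indicator (fun _ => (1 : ℝ)) o ∂C.μ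
        = (C.μ {o | w (C.pt o) ≤ t}).toReal := by
      rw [integral_indicator₀ hle, setIntegral_const, smul_eq_mul, mul_one, measureReal_def]
    have k2 : ∫ o, {o | t < w (C.pt o) ∧ w (C.pt o) < t + δ}.indicator (fun _ => (1 : ℝ)) o ∂C.μ
        = (C.μ {o | t < w (C.pt o) ∧ w (C.pt o) < t + δ}).toReal := by
      rw [integral_indicator₀ hcl, setIntegral_const, smul_eq_mul, mul_one, measureReal_def]
    have k3 := integral_indicator₀ (μ := C.μ)
      (f := fun o => sL a (c * (w (C.pt o) - t)) * c * g o) hcl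
    rw [← j4, ← k1, ← k2, ← k3, ← j1]
    exact j3.trans (congrArg (fun x => x + ∫ o, (x₀ + x₀ * c * g o) ∂C.μ) j2)
  have h1 : ∫ o in {o | t < w (C.pt o) ∧ w (C.pt o) < t + δ},
      sL a (c * (w (C.pt o) - t)) * c * g o ∂C.μ ≤ l * (2 * a / Real.pi) + ζ / 4 := by
    have h2 := harea δ hδ0 hδ2
    rw [integral_sL ha0 (by linarith)] at h2
    exact h2
  have h2 := hcol δ hδ0 hδ3
  have hsplit : V = (C.μ {o | w (C.pt o) ≤ t}).toReal + (C.μ {o | t < w (C.pt o)}).toReal := by
    have h3 := measure_add_measure_compl₀ hle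
    have h4 : {o | w (C.pt o) ≤ t}ᶜ = {o | t < w (C.pt o)} := by
      ext o
      simp
    rw [h4] at h3
    rw [hV]
    unfold Calc.vol
    rw [← h3, ENNReal.toReal_add (measure_ne_top _ _) (measure_ne_top _ _)]
  have h5 : x₀ * V + x₀ * c * G0 ≤ ζ / 4 := by
    have : x₀ * V + x₀ * c * G0 = x₀ * (V + c * G0) := by ring
    rw [this]
    exact hx2
  have h6 : l * (2 * a / Real.pi) = 2 * a / Real.pi * l := mul_comm _ _
  linarith

end Pool.Agent.FPM
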