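import Mathlib
import Pool.Agent.FPX.S7B
import Pool.Agent.FPM.SU1
import Pool.Agent.FPM.FTW

/-
SU4S (helper69): the isoperimetric inequality `Isop` from the inequality for one side.
-/

open MeasureTheory Set Filter Topology
open scoped ENNReal NNReal

noncomputable section

namespace Pool.Agent.FPM

open Pool.Agent.EWD Pool.Agent.FPX

variable {M : Type} [MetricSpace M] {γ : ℝ → M} (C : Calc M γ)

/-- the levels of a function on a finite measure space are null sets, with countably many
exceptions -/
theorem ae_level {α : Type} [MeasurableSpace α] {μ : Measure α} [IsFiniteMeasure μ] {f : α → ℝ}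
    (hf : AEMeasurable f μ) : ∀ᵐ t : ℝ, μ {x | f x = t} = 0 := by
  have h1 : Set.Countable {t : ℝ | 0 < μ {x | f x = t}} := by
    exact Measure.countable_meas_level_set_pos₀ hf.nullMeasurable
  have h2 := h1.measure_zero volume
  rw [measure_eq_zero_iff_ae_notMem] at h2
  filter_upwards [h2] with t ht
  by_contra h3
  exact ht (pos_iff_ne_zero.2 h3)

/-- monotonicity of the level integral -/
theorem lev_mono {g : M → ℝ} (hg : Lip g) : Monotone (lev C g) := by
  intro r r' hr
  unfold lev
  refine setIntegral_mono_set (int_gn C hg).integrableOn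
    (Eventually.of_forall fun o => gn_nonneg C g o) ?_
  refine Eventually.of_forall fun o ho => ?_
  exact lt_of_lt_of_le (show g (C.pt o) < r from ho) hr

/-- the level integral of `-g` -/
theorem lev_neg {g : M → ℝ} (hg : Lip g) (r : ℝ) :
    lev C (fun x => -g x) r = (∫ o, gn C g o ∂C.μ) - lev C g (-r) := by
  have hm : NullMeasurableSet {o | -g (C.pt o) < r} C.μ := meas_pt_lt C hg.neg r
  have hm' : NullMeasurableSet {o | g (C.pt o) < -r} C.μ := meas_pt_lt C hg (-r)
  have hi := int_gn C hg
  unfold lev
  simp only [gn_neg]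
  rw [← integral_indicator₀ hm, ← integral_indicator₀ hm', ← integral_sub hi (hi.indicator₀ hm')]
  refine integral_congr_ae ?_
  filter_upwards [grad_level C hg (-r)] with o ho
  rcases lt_trichotomy (g (C.pt o)) (-r) with h | h | h
  · have h1 : o ∉ {o | -g (C.pt o) < r} := fun h2 => by
      have h3 : -g (C.pt o) < r := h2
      linarith
    have h2 : o ∈ {o | g (C.pt o) < -r} := h
    rw [indicator_of_notMem h1, indicator_of_mem h2, sub_self]
  · have h1 : o ∉ {o | -g (C.pt o) < r} := fun h2 => by
      have h3 : -g (C.pt o) < r := h2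
      linarith
    have h2 : o ∉ {o | g (C.pt o) < -r} := fun h2 => by
      have h3 : g (C.pt o) < -r := h2
      linarith
    rw [indicator_of_notMem h1, indicator_of_notMem h2]
    unfold gn
    rw [(ho h).1, (ho h).2]
    simp
  · have h1 : o ∈ {o | -g (C.pt o) < r} := by
      change -g (C.pt o) < r
      linarith
    have h2 : o ∉ {o | g (C.pt o) < -r} := fun h2 => by
      have h3 : g (C.pt o) < -r := h2
      linarith
    rw [indicator_of_mem h1, indicator_of_notMem h2, sub_zero]

theorem isop_of_side (hγ : Bd γ) {ε : ℝ} (hε : 0 ≤ ε) (hv : C.vol ≤ 2 * Real.pi + 2 * ε)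
    (side : ∀ g : M → ℝ, Lip g → EvenB γ g → ∀ᵐ t : ℝ, deriv (lev C g) t < Real.pi →
      Gz γ g t (fun _ => 1) ≤ Real.pi →
      (C.μ {o | t < g (C.pt o)}).toReal ≤ deriv (lev C g) t ^ 2 / Real.pi + ε) :
    Isop C Real.pi ε := by
  have hpi := Real.pi_pos
  have := C.fin
  intro g hg he
  have a1 : ∀ᵐ t : ℝ, DifferentiableAt ℝ (lev C g) t := (lev_mono C hg).ae_differentiableAt
  have a2 := side g hg he
  have a3 : ∀ᵐ t : ℝ, deriv (lev C fun x => -g x) (-t) < Real.pi →
      Gz γ (fun x => -g x) (-t) (fun _ => 1) ≤ Real.pi →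
      (C.μ {o | -t < -g (C.pt o)}).toReal ≤ deriv (lev C fun x => -g x) (-t) ^ 2 / Real.pi + ε :=
    (Measure.measurePreserving_neg (volume : Measure ℝ)).quasiMeasurePreserving.ae
      (side _ hg.neg (even_neg he))
  have a4 : ∀ᵐ t : ℝ, C.μ {o | g (C.pt o) = t} = 0 := ae_level (C.meas_pt hg)
  filter_upwards [a1, a2, a3, a4] with t t1 t2 t3 t4
  refine ⟨t1, ?_⟩
  have hd : deriv (lev C fun x => -g x) (-t) = deriv (lev C g) t := by
    have h1 : HasDerivAt (fun r => (∫ o, gn C g o ∂C.μ) - lev C g (-r)) (deriv (lev C g) t) (-t) := by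
      have h2 : HasDerivAt (lev C g) (deriv (lev C g) t) (- -t) := by
        rw [neg_neg]
        exact t1.hasDerivAt
      have h3 := (h2.comp (-t) (hasDerivAt_neg (-t))).const_sub (∫ o, gn C g o ∂C.μ)
      have e : -(deriv (lev C g) t * -1) = deriv (lev C g) t := by ring
      rw [e] at h3
      exact h3
    have h2 : (lev C fun x => -g x) = fun r => (∫ o, gn C g o ∂C.μ) - lev C g (-r) :=
      funext fun r => lev_neg C hg r
    rw [h2]
    exact h1.deriv
  set S := deriv (lev C g) t with hS
  have hS0 : 0 ≤ S := (lev_mono C hg).deriv_nonneg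
  -- areas
  have e1 : sup' C g t = (C.μ {o | t < g (C.pt o)}).toReal := by
    unfold sup'
    congr 1
    refine le_antisymm ?_ (measure_mono fun o ho => le_of_lt (show t < g (C.pt o) from ho))
    have h1 : {o | t ≤ g (C.pt o)} ⊆ {o | t < g (C.pt o)} ∪ {o | g (C.pt o) = t} := by
      intro o ho
      rcases (show t ≤ g (C.pt o) from ho).lt_or_eq with h | h
      · exact Or.inl h
      · exact Or.inr h.symm
    refine (measure_mono h1).trans ((measure_union_le _ _).trans ?_)
    rw [t4, add_zero]
  have e2 : C.vol - sup' C g t ≤ (C.μ {o | -t < -g (C.pt o)}).toReal := by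
    have h1 : (univ : Set Om) ⊆ {o | t ≤ g (C.pt o)} ∪ {o | -t < -g (C.pt o)} := by
      intro o _
      rcases le_or_gt t (g (C.pt o)) with h | h
      · exact Or.inl h
      · exact Or.inr (by
          change -t < -g (C.pt o)
          linarith)
    have h2 : C.μ univ ≤ C.μ {o | t ≤ g (C.pt o)} + C.μ {o | -t < -g (C.pt o)} :=
      (measure_mono h1).trans (measure_union_le _ _)
    have h3 := ENNReal.toReal_mono (by finiteness) h2
    rw [ENNReal.toReal_add (measure_ne_top _ _) (measure_ne_top _ _)] at h3
    unfold Calc.vol sup'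
    linarith
  -- boundary parts
  have e3 : Gz γ g t (fun _ => 1) + Gz γ (fun x => -g x) (-t) (fun _ => 1) ≤ 2 * Real.pi := by
    unfold Gz
    have v : ∀ A : Set ℝ, volume (A ∩ Ioc 0 (2 * Real.pi)) ≠ ⊤ := fun A => by
      refine ne_top_of_le_ne_top ?_ (measure_mono inter_subset_right)
      rw [Real.volume_Ioc]
      exact ENNReal.ofReal_ne_top
    rw [← ENNReal.toReal_add (v _) (v _), ← measure_union]
    · refine ENNReal.toReal_le_of_le_ofReal (by positivity) ?_
      refine (measure_mono (union_subset inter_subset_right inter_subset_right)).trans ?_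
      rw [Real.volume_Ioc, sub_zero]
    · rw [Set.disjoint_left]
      intro s h1 h2
      have h3 : t < g (γ s) := h1.1.2
      have h4 : -t < -g (γ s) := h2.1.2
      linarith
    · exact (meas_Apt hγ hg.neg (lip_const 1) (-t)).inter measurableSet_Ioc
  have key : min (sup' C g t) (C.vol - sup' C g t) ≤ S ^ 2 / Real.pi + ε := by
    rcases lt_or_ge S Real.pi with h | h
    · rcases le_or_gt (Gz γ g t (fun _ => 1)) Real.pi with h1 | h1
      · have := t2 h h1
        rw [← e1] at this
        exact (min_le_left _ _).trans this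
      · have := t3 (by rw [hd]; exact h) (by linarith)
        rw [hd] at this
        exact (min_le_right _ _).trans (e2.trans this)
    · have h1 : Real.pi ≤ S ^ 2 / Real.pi := by
        rw [le_div_iff₀ hpi]
        nlinarith
      rcases le_total (sup' C g t) (C.vol - sup' C g t) with h2 | h2
      · rw [min_eq_left h2]
        linarith
      · rw [min_eq_right h2]
        linarith
  have h1 : Real.pi * (S ^ 2 / Real.pi) = S ^ 2 := mul_div_cancel₀ _ hpi.ne'
  nlinarith

end Pool.Agent.FPM
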