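import Mathlib
import Pool.Agent.EWD.RUL
import Pool.Agent.EWD.BNA
import Pool.Agent.FPM.TMB
import Pool.Agent.FPM.SU1
import Pool.Agent.FPM.SU3A
import Pool.Agent.FPM.SU4S
import Pool.Agent.FPM.SU4D

/-
SU4A (helper66): the isoperimetric inequality for one side. The function of the surgery is
`w = min (max (g - t) 0) b`, where `b` is the boundary function of `Colb`.
-/

open MeasureTheory Set Filter Topology
open scoped ENNReal NNReal

namespace Pool.Agent.FPM

open Pool.Agent.EWD Pool.Agent.FPX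

/-- a monotone function has points where its derivative is at most the average slope -/
theorem exists_level {f : ℝ → ℝ} (hf : Monotone f) {s0 K K' : ℝ} (hs : 0 < s0) (h0 : 0 ≤ f 0)
    (h1 : f s0 ≤ s0 * K) (hK : K < K') :
    ∃ s, 0 < s ∧ s < s0 ∧ DifferentiableAt ℝ f s ∧ deriv f s ≤ K' := by
  by_contra hcon
  push Not at hcon
  have hae : ∀ᵐ s ∂(volume.restrict (Ioo 0 s0)), K' ≤ deriv f s := by
    rw [ae_restrict_iff' measurableSet_Ioo]
    filter_upwards [hf.ae_differentiableAt] with s hd hs'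
    exact (hcon s hs'.1 hs'.2 hd).le
  have hI := (hf.monotoneOn (uIcc 0 s0)).intervalIntegrable_deriv
  have h2 := (hf.monotoneOn (uIcc 0 s0)).intervalIntegral_deriv_mem_uIcc
  have h3 : s0 * K' ≤ ∫ x in (0:ℝ)..s0, deriv f x := by
    have h4 : ∫ _ in (0:ℝ)..s0, K' = s0 * K' := by simp
    rw [← h4]
    refine intervalIntegral.integral_mono_ae_restrict hs.le intervalIntegrable_const hI ?_
    rw [← restrict_Ioo_eq_restrict_Icc]
    exact hae
  rw [uIcc_of_le (by linarith [hf hs.le])] at h2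
  have h5 := h2.2
  nlinarith

variable {M : Type} [MetricSpace M] {γ : ℝ → M} (C : Calc M γ)

/-- the gradient of the minimum -/
theorem ae_min {u b : M → ℝ} (hu : Lip u) (hb : Lip b) : ∀ᵐ o ∂C.μ,
    (u (C.pt o) ≤ b (C.pt o) → C.gx (fun x => min (u x) (b x)) o = C.gx u o ∧
      C.gy (fun x => min (u x) (b x)) o = C.gy u o) ∧
    (b (C.pt o) ≤ u (C.pt o) → C.gx (fun x => min (u x) (b x)) o = C.gx b o ∧
      C.gy (fun x => min (u x) (b x)) o = C.gy b o) := by
  have key : ∀ (p : ℝ → M) (g g' : ℝ) (u b : M → ℝ), HasDerivAt (fun s => u (p s)) g 0 →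
      HasDerivAt (fun s => min (u (p s)) (b (p s))) g' 0 → u (p 0) ≤ b (p 0) → g' = g := by
    intro p g g' u b h1 h2 h3
    have h4 : IsLocalMin (fun s => u (p s) - min (u (p s)) (b (p s))) 0 := by
      refine Eventually.of_forall fun s => ?_
      change u (p 0) - min (u (p 0)) (b (p 0)) ≤ u (p s) - min (u (p s)) (b (p s))
      rw [min_eq_left h3, sub_self]
      exact sub_nonneg.2 (min_le_left _ _)
    have h5 := h4.hasDerivAt_eq_zero (h1.sub h2)
    linarith
  filter_upwards [C.ae_has hu, C.ae_has hb, C.ae_has (hu.min hb)] with o h1 h2 h3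
  have e : C.py o 0 = C.px o 0 := C.same o
  refine ⟨fun h => ⟨key (C.px o) _ _ u b h1.1 h3.1 h, key (C.py o) _ _ u b h1.2 h3.2 (by rw [e]; exact h)⟩,
    fun h => ⟨key (C.px o) _ _ b u h2.1 (by simpa only [min_comm] using h3.1) h,
      key (C.py o) _ _ b u h2.2 (by simpa only [min_comm] using h3.2) (by rw [e]; exact h)⟩⟩

/-- the gradient of the positive part -/
theorem ae_pos' {g : M → ℝ} (hg : Lip g) (t : ℝ) : ∀ᵐ o ∂C.μ,
    (g (C.pt o) ≤ t → C.gx (fun x => max (g x - t) 0) o = 0 ∧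
      C.gy (fun x => max (g x - t) 0) o = 0) ∧
    (t ≤ g (C.pt o) → C.gx (fun x => max (g x - t) 0) o = C.gx g o ∧
      C.gy (fun x => max (g x - t) 0) o = C.gy g o) := by
  have key : ∀ (p : ℝ → M) (a a' : ℝ), HasDerivAt (fun s => g (p s)) a 0 →
      HasDerivAt (fun s => max (g (p s) - t) 0) a' 0 →
      (g (p 0) ≤ t → a' = 0) ∧ (t ≤ g (p 0) → a' = a) := by
    intro p a a' h1 h2
    constructor
    · intro h
      have h3 : IsLocalMin (fun s => max (g (p s) - t) 0) 0 := by
        refine Eventually.of_forall fun s => ?_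
        change max (g (p 0) - t) 0 ≤ max (g (p s) - t) 0
        rw [max_eq_right (by linarith)]
        exact le_max_right _ _
      exact h3.hasDerivAt_eq_zero h2
    · intro h
      have h3 : IsLocalMin (fun s => max (g (p s) - t) 0 - (g (p s) - t)) 0 := by
        refine Eventually.of_forall fun s => ?_
        change max (g (p 0) - t) 0 - (g (p 0) - t) ≤ max (g (p s) - t) 0 - (g (p s) - t)
        rw [max_eq_left (by linarith), sub_self]
        exact sub_nonneg.2 (le_max_left _ _)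
      have h5 := h3.hasDerivAt_eq_zero (h2.sub (h1.sub_const t))
      linarith
  have l1 : Lip (fun x => max (g x - t) 0) := (hg.sub (lip_const t)).max (lip_const 0)
  filter_upwards [C.ae_has hg, C.ae_has l1] with o h1 h2
  have e : C.py o 0 = C.px o 0 := C.same o
  have h3 := key (C.px o) _ _ h1.1 h2.1
  have h4 := key (C.py o) _ _ h1.2 h2.2
  refine ⟨fun h => ⟨h3.1 h, h4.1 (by rw [e]; exact h)⟩, fun h => ⟨h3.2 h, h4.2 (by rw [e]; exact h)⟩⟩

theorem lev_eq {g : M → ℝ} (hg : Lip g) (r : ℝ) : lev C g r =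
    ∫ o, {o | g (C.pt o) < r}.indicator (gn C g) o ∂C.μ :=
  (integral_indicator₀ (meas_pt_lt C hg r)).symm

theorem mz_one (g : M → ℝ) : mz C (gn C g) g (fun _ => 1) = lev C g := by
  funext t
  simp only [mz, lev, one_mul]

theorem gn_cs {g p : M → ℝ} (hp : LipschitzWith 1 p) : ∀ᵐ o ∂C.μ, |C.wed p g o| ≤ gn C g o := by
  filter_upwards [C.ae_grad_le hp] with o ho
  rw [NNReal.coe_one, one_pow] at ho
  refine Real.le_sqrt_of_sq_le ?_
  rw [sq_abs]
  unfold Calc.wed
  nlinarith [sq_nonneg (C.gx p o * C.gx g o + C.gy p o * C.gy g o), sq_nonneg (C.gx g o),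
    sq_nonneg (C.gy g o)]

/-- the levels of `w = min (max (g - t) 0) b` near zero are short -/
theorem lev_min_le {g b ψ : M → ℝ} (hg : Lip g) (hb : Lip b) (hψ : Lip ψ) (t : ℝ) {s : ℝ} (hs : 0 < s)
    (hb0 : ∀ x, 0 ≤ b x) (hψ0 : ∀ x, 0 ≤ ψ x) (hψ1 : ∀ x, ψ x ≤ 1) (hψt : ∀ x, t ≤ g x → ψ x = 1) :
    lev C (fun x => min (max (g x - t) 0) (b x)) s ≤ (lev C g (t + s) - lev C g t) +
      ∫ o in {o | b (C.pt o) < s}, ψ (C.pt o) * √(C.gx b o ^ 2 + C.gy b o ^ 2) ∂C.μ := by
  have l1 : Lip (fun x => max (g x - t) 0) := (hg.sub (lip_const t)).max (lip_const 0)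
  have l2 : Lip (fun x => min (max (g x - t) 0) (b x)) := l1.min hb
  have i1 := int_gn C hg
  have i2 := integrable_zH C hψ hψ0 hψ1 (int_gn C hb)
  have j1 := i1.indicator₀ (meas_pt_lt C hg (t + s))
  have j2 := i1.indicator₀ (meas_pt_lt C hg t)
  have j3 := i2.indicator₀ (meas_pt_lt C hb s)
  have e3 : ∫ o in {o | b (C.pt o) < s}, ψ (C.pt o) * √(C.gx b o ^ 2 + C.gy b o ^ 2) ∂C.μ =
      ∫ o, {o | b (C.pt o) < s}.indicator (fun o => ψ (C.pt o) * gn C b o) o ∂C.μ :=
    (integral_indicator₀ (meas_pt_lt C hb s)).symm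
  have e4 : (∫ o, {o | g (C.pt o) < t + s}.indicator (gn C g) o ∂C.μ) -
      (∫ o, {o | g (C.pt o) < t}.indicator (gn C g) o ∂C.μ) +
      ∫ o, {o | b (C.pt o) < s}.indicator (fun o => ψ (C.pt o) * gn C b o) o ∂C.μ =
      ∫ o, ({o | g (C.pt o) < t + s}.indicator (gn C g) o - {o | g (C.pt o) < t}.indicator (gn C g) o +
        {o | b (C.pt o) < s}.indicator (fun o => ψ (C.pt o) * gn C b o) o) ∂C.μ := by
    rw [← integral_sub j1 j2]
    exact (integral_add (j1.sub j2) j3).symm
  rw [e3, lev_eq C l2, lev_eq C hg, lev_eq C hg, e4]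
  refine integral_mono_ae ((int_gn C l2).indicator₀ (meas_pt_lt C l2 _)) ((j1.sub j2).add j3) ?_
  filter_upwards [ae_min C l1 hb, ae_pos' C hg t] with o h1 h2
  have n1 := gn_nonneg C g o
  have n2 : 0 ≤ ψ (C.pt o) * gn C b o := mul_nonneg (hψ0 _) (gn_nonneg C b o)
  have n3 : 0 ≤ {o | b (C.pt o) < s}.indicator (fun o => ψ (C.pt o) * gn C b o) o :=
    indicator_apply_nonneg fun _ => n2
  have n4 : {o | g (C.pt o) < t}.indicator (gn C g) o ≤ {o | g (C.pt o) < t + s}.indicator (gn C g) o := by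
    by_cases h : g (C.pt o) < t
    · have m1 : o ∈ {o | g (C.pt o) < t} := h
      have m2 : o ∈ {o | g (C.pt o) < t + s} := by
        change g (C.pt o) < t + s
        linarith
      rw [indicator_of_mem m1, indicator_of_mem m2]
    · have m1 : o ∉ {o | g (C.pt o) < t} := h
      rw [indicator_of_notMem m1]
      exact indicator_apply_nonneg fun _ => n1
  change {o | min (max (g (C.pt o) - t) 0) (b (C.pt o)) < s}.indicator
    (gn C fun x => min (max (g x - t) 0) (b x)) o ≤
    {o | g (C.pt o) < t + s}.indicator (gn C g) o - {o | g (C.pt o) < t}.indicator (gn C g) o +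
    {o | b (C.pt o) < s}.indicator (fun o => ψ (C.pt o) * gn C b o) o
  by_cases hw : min (max (g (C.pt o) - t) 0) (b (C.pt o)) < s
  swap
  · have m0 : o ∉ {o | min (max (g (C.pt o) - t) 0) (b (C.pt o)) < s} := hw
    rw [indicator_of_notMem m0]
    linarith
  have m0 : o ∈ {o | min (max (g (C.pt o) - t) 0) (b (C.pt o)) < s} := hw
  rw [indicator_of_mem m0]
  rcases le_total (max (g (C.pt o) - t) 0) (b (C.pt o)) with hle | hle
  · have e1 : gn C (fun x => min (max (g x - t) 0) (b x)) o = gn C (fun x => max (g x - t) 0) o := by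
      unfold gn
      rw [(h1.1 hle).1, (h1.1 hle).2]
    rcases le_or_gt (g (C.pt o)) t with hgt | hgt
    · have e2 : gn C (fun x => max (g x - t) 0) o = 0 := by
        unfold gn
        rw [(h2.1 hgt).1, (h2.1 hgt).2]
        simp
      rw [e1, e2]
      linarith
    · have e2 : gn C (fun x => max (g x - t) 0) o = gn C g o := by
        unfold gn
        rw [(h2.2 hgt.le).1, (h2.2 hgt.le).2]
      rw [min_eq_left hle, max_eq_left (by linarith)] at hw
      have m1 : o ∈ {o | g (C.pt o) < t + s} := by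
        change g (C.pt o) < t + s
        linarith
      have m2 : o ∉ {o | g (C.pt o) < t} := not_lt.2 hgt.le
      rw [e1, e2, indicator_of_mem m1, indicator_of_notMem m2]
      linarith
  · rcases le_or_gt (g (C.pt o)) t with hgt | hgt
    · have e0 : max (g (C.pt o) - t) 0 = 0 := max_eq_right (by linarith)
      have hle' : max (g (C.pt o) - t) 0 ≤ b (C.pt o) := by
        rw [e0]
        exact hb0 _
      have e1 : gn C (fun x => min (max (g x - t) 0) (b x)) o = 0 := by
        unfold gn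
        rw [(h1.1 hle').1, (h1.1 hle').2, (h2.1 hgt).1, (h2.1 hgt).2]
        simp
      rw [e1]
      linarith
    · have e1 : gn C (fun x => min (max (g x - t) 0) (b x)) o = gn C b o := by
        unfold gn
        rw [(h1.2 hle).1, (h1.2 hle).2]
      rw [min_eq_right hle] at hw
      have m1 : o ∈ {o | b (C.pt o) < s} := hw
      rw [e1, indicator_of_mem m1, hψt _ hgt.le, one_mul]
      linarith

/-- the weights of the collar -/
theorem weight_lim (hγ : Bd γ) {g : M → ℝ} (hg : Lip g) {t : ℝ}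
    (ht : volume {s : ℝ | s ∈ Ioc 0 (2 * Real.pi) ∧ g (γ s) = t} = 0) :
    Tendsto (fun n : ℕ => ∫ s in (0 : ℝ)..(2 * Real.pi), bnd (t - 1 / ((n : ℝ) + 1)) t (g (γ s))) atTop
      (𝓝 (Gz γ g t fun _ => 1)) := by
  have hpi := Real.pi_pos
  have hgc : Continuous fun s => g (γ s) := hg.cont.comp hγ.lip.continuous
  rw [Gz_eq_int hγ hg (lip_const 1)]
  refine intervalIntegral.tendsto_integral_filter_of_dominated_convergence (fun _ => (1 : ℝ)) ?_ ?_
    intervalIntegrable_const ?_
  · refine Eventually.of_forall fun n => ?_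
    have hc : Continuous fun s => bnd (t - 1 / ((n : ℝ) + 1)) t (g (γ s)) := by
      unfold bnd
      exact continuous_const.max (continuous_const.min ((hgc.sub continuous_const).div_const _))
    exact hc.aestronglyMeasurable
  · refine Eventually.of_forall fun n => Eventually.of_forall fun s _ => ?_
    rw [Real.norm_eq_abs, abs_of_nonneg (bnd_nonneg _ _ _)]
    exact bnd_le_one _ _ _
  · have h0 : ∀ᵐ s : ℝ, s ∈ Ioc 0 (2 * Real.pi) → g (γ s) ≠ t := by
      rw [ae_iff]
      refine measure_mono_null (fun s hs => ?_) ht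
      simp only [Set.mem_ofPred_eq, Classical.not_imp, not_not] at hs
      exact hs
    filter_upwards [h0] with s hs hmem
    rw [uIoc_of_le (by positivity)] at hmem
    rcases lt_or_gt_of_ne (hs hmem) with h | h
    · have h1 : s ∉ Apt γ g t (fun _ => 1) := fun h2 => absurd h2.2 (not_lt.2 h.le)
      rw [indicator_of_notMem h1]
      refine tendsto_const_nhds.congr' ?_
      have h2 : Tendsto (fun n : ℕ => 1 / ((n : ℝ) + 1)) atTop (𝓝 0) := tendsto_one_div_add_atTop_nhds_zero_nat
      filter_upwards [h2.eventually (Iio_mem_nhds (sub_pos.2 h))] with n hn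
      have hn' : 1 / ((n : ℝ) + 1) < t - g (γ s) := hn
      exact (bnd_lo (by linarith [show (0 : ℝ) < 1 / ((n : ℝ) + 1) by positivity]) (by linarith)).symm
    · have h1 : s ∈ Apt γ g t (fun _ => 1) := ⟨rfl, h⟩
      rw [indicator_of_mem h1]
      refine tendsto_const_nhds.congr fun n => ?_
      exact (bnd_hi (by linarith [show (0 : ℝ) < 1 / ((n : ℝ) + 1) by positivity]) h.le).symm

/-- almost every level meets the curve in a null set -/
theorem ae_level_null (hγ : Bd γ) {g : M → ℝ} (hg : Lip g) :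
    ∀ᵐ t : ℝ, volume {s : ℝ | s ∈ Ioc 0 (2 * Real.pi) ∧ g (γ s) = t} = 0 := by
  have hgc : Continuous fun s => g (γ s) := hg.cont.comp hγ.lip.continuous
  have h1 := Measure.countable_meas_level_set_pos (μ := volume.restrict (Ioc 0 (2 * Real.pi)))
    hgc.measurable
  filter_upwards [h1.ae_notMem volume] with t ht
  have h2 : (volume.restrict (Ioc 0 (2 * Real.pi))) {a | g (γ a) = t} = 0 := by
    by_contra h
    exact ht (pos_iff_ne_zero.2 h)
  have h3 : MeasurableSet {a | g (γ a) = t} := hgc.measurable (measurableSet_singleton t)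
  rw [Measure.restrict_apply h3] at h2
  refine measure_mono_null (fun s hs => ?_) h2
  exact ⟨hs.2, hs.1⟩

theorem side [CompactSpace M] (hγ : Bd γ) (hC : Colb C) {ε : ℝ} (hS : Surg C ε)
    (hF1 : ∀ g : M → ℝ, Lip g → ∀ p ζ : M → ℝ, LipschitzWith 1 p → Lip ζ → (∀ x, 0 ≤ ζ x) →
      (∀ x, ζ x ≤ 1) → ∀ᵐ t : ℝ, DC C (gn C g) g p ζ t) {g : M → ℝ} (hg : Lip g) (he : EvenB γ g) :
    ∀ᵐ t : ℝ, deriv (lev C g) t < Real.pi → Gz γ g t (fun _ => 1) ≤ Real.pi →
      (C.μ {o | t < g (C.pt o)}).toReal ≤ deriv (lev C g) t ^ 2 / Real.pi + ε := by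
  have hpi := Real.pi_pos
  have := C.fin
  obtain ⟨hC1, b, hbL, hb0, hbγ, hbr, hcol⟩ := hC
  have hB := TMB C hγ hg he (int_gn C hg) (fun p hp => gn_cs C hp)
    (fun p ζ hp hζ h0 h1 => hF1 g hg p ζ hp hζ h0 h1)
  rw [mz_one] at hB
  filter_upwards [hB, (lev_mono C hg).ae_differentiableAt, ae_level_null hγ hg] with t ht hd hnull hS1 hG1
  obtain ⟨hGS, hO⟩ := ht hS1 hG1
  set S := deriv (lev C g) t with hSdef
  set G := Gz γ g t (fun _ => 1) with hGdef
  have hS0 : 0 ≤ S := (lev_mono C hg).deriv_nonneg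
  have hG0 : 0 ≤ G := Gz_nonneg _ _ _ _
  set w : M → ℝ := fun x => min (max (g x - t) 0) (b x) with hw
  have l1 : Lip (fun x => max (g x - t) 0) := (hg.sub (lip_const t)).max (lip_const 0)
  have lw : Lip w := l1.min hbL
  have hw0 : ∀ x, 0 ≤ w x := fun x => le_min (le_max_right _ _) (hb0 x)
  have hwpos : ∀ x, 0 < w x → t < g x := by
    intro x hx
    by_contra hcon
    have h1 : w x ≤ max (g x - t) 0 := min_le_left _ _
    rw [max_eq_right (by linarith)] at h1
    linarith
  have hwpos' : ∀ x, t < g x → x ∉ range γ → 0 < w x := by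
    intro x hx hxr
    refine lt_min ?_ ?_
    · exact lt_max_of_lt_left (by linarith)
    · exact lt_of_le_of_ne (hb0 x) fun h => hxr (hbr x h.symm)
  -- the estimate with errors
  have main : ∀ η : ℝ, 0 < η → (C.μ {o | t < g (C.pt o)}).toReal ≤
      (S / 2 + η) / Real.pi * (S + G + 4 * η) + ε + η := by
    intro η hη
    obtain ⟨n, O, hOo, hOd, hOc, hOdist⟩ := hO η hη
    -- the collar weight
    have hψ := (weight_lim hγ hg hnull).eventually (Iio_mem_nhds (show G < G + η by linarith))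
    obtain ⟨m, hm⟩ := hψ.exists
    have hm' : ∫ s in (0 : ℝ)..(2 * Real.pi), bnd (t - 1 / ((m : ℝ) + 1)) t (g (γ s)) < G + η := hm
    have hm0 : (0 : ℝ) < 1 / ((m : ℝ) + 1) := by positivity
    set ψ : M → ℝ := fun x => bnd (t - 1 / ((m : ℝ) + 1)) t (g x) with hψd
    have lψ : Lip ψ := lip_bnd hg (by linarith)
    have hψ0 : ∀ x, 0 ≤ ψ x := fun x => bnd_nonneg _ _ _
    have hψ1 : ∀ x, ψ x ≤ 1 := fun x => bnd_le_one _ _ _
    have hψt : ∀ x, t ≤ g x → ψ x = 1 := fun x hx => bnd_hi (by linarith) hx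
    have ev1 := hcol ψ lψ hψ0 η hη
    have ev2 : ∀ᶠ σ : ℝ in 𝓝[>] 0, lev C g (t + σ) - lev C g t ≤ σ * (S + η) := by
      have h1 := hd.hasDerivAt.tendsto_slope_zero
      have h2 : Tendsto (fun h : ℝ => h⁻¹ • (lev C g (t + h) - lev C g t)) (𝓝[>] 0) (𝓝 S) :=
        h1.mono_left (nhdsWithin_mono 0 fun x hx => ne_of_gt hx)
      filter_upwards [h2.eventually (Iio_mem_nhds (show S < S + η by linarith)), self_mem_nhdsWithin]
        with σ hσ hσ0
      have hσ0' : (0 : ℝ) < σ := hσ0
      have h3 : σ⁻¹ * (lev C g (t + σ) - lev C g t) < S + η := hσ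
      have h4 := mul_lt_mul_of_pos_left h3 hσ0'
      rw [← mul_assoc, mul_inv_cancel₀ hσ0'.ne', one_mul] at h4
      exact h4.le
    -- compactness
    obtain ⟨δ, hδ, hδO⟩ : ∃ δ : ℝ, 0 < δ ∧ ∀ x, 0 < w x → w x < δ → x ∈ ⋃ i, O i := by
      have hcpt : IsCompact ((⋃ i, O i)ᶜ ∩ {x | t ≤ g x}) :=
        ((isOpen_iUnion hOo).isClosed_compl.inter (isClosed_le continuous_const hg.cont)).isCompact
      rcases ((⋃ i, O i)ᶜ ∩ {x | t ≤ g x}).eq_empty_or_nonempty with hem | hne
      · refine ⟨1, one_pos, fun x hx _ => ?_⟩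
        by_contra hcon
        have : x ∈ ((⋃ i, O i)ᶜ ∩ {x | t ≤ g x}) := ⟨hcon, (hwpos x hx).le⟩
        rw [hem] at this
        exact this
      · obtain ⟨x0, hx0, hmin⟩ := hcpt.exists_isMinOn hne lw.cont.continuousOn
        have hx0w : 0 < w x0 := by
          have h1 : x0 ∉ Kt γ g t := fun h => hx0.1 (hOc h)
          have h2 : t ≤ g x0 := hx0.2
          refine hwpos' x0 (lt_of_le_of_ne h2 fun h => h1 (Or.inl h.symm)) fun h => h1 (Or.inr ⟨h, h2⟩)
        refine ⟨w x0, hx0w, fun x hx hlt => ?_⟩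
        by_contra hcon
        exact absurd (hmin ⟨hcon, (hwpos x hx).le⟩) (not_le.2 hlt)
    -- small collars
    obtain ⟨δ', hδ', hsm⟩ := collar_small (μ := C.μ) (C.meas_pt lw) 0 hη
    -- the level
    have hev := ev1.and (ev2.and (Ioo_mem_nhdsGT (show (0 : ℝ) < min δ δ' from lt_min hδ hδ')))
    obtain ⟨s0, h1, h2, h3⟩ := hev.exists
    have hs0 : 0 < s0 := h3.1
    have hs0δ : s0 < δ := h3.2.trans_le (min_le_left _ _)
    have hs0δ' : s0 < δ' := h3.2.trans_le (min_le_right _ _)
    have hlen : lev C w s0 ≤ s0 * (S + G + 3 * η) := by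
      have h4 := lev_min_le C hg hbL lψ t hs0 hb0 hψ0 hψ1 hψt
      have h5 : s0 * ((∫ s in (0 : ℝ)..(2 * Real.pi), ψ (γ s)) + η) ≤ s0 * (G + η + η) :=
        mul_le_mul_of_nonneg_left (by linarith) hs0.le
      calc lev C w s0 ≤ _ := h4
        _ ≤ s0 * (S + η) + s0 * (G + η + η) := by linarith
        _ = s0 * (S + G + 3 * η) := by ring
    have hlev0 : 0 ≤ lev C w 0 := integral_nonneg fun o => gn_nonneg C w o
    obtain ⟨s, hs1, hs2, hsd, hsl⟩ := exists_level (lev_mono C lw) (K' := S + G + 4 * η) hs0 hlev0 hlen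
      (by linarith)
    -- the surgery
    have hcomp : ∀ x y, w x = s → y ∈ connectedComponentIn {z | w z = s} x →
        dist x y ≤ 2 * (S / 4 + η / 2) := by
      intro x y hx hy
      have hxm : x ∈ {z | w z = s} := hx
      have hsub : connectedComponentIn {z | w z = s} x ⊆ ⋃ i, O i := by
        intro z hz
        have hz2 : z ∈ {z | w z = s} := connectedComponentIn_subset _ _ hz
        have hz' : w z = s := hz2
        exact hδO z (by rw [hz']; exact hs1) (by rw [hz']; linarith)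
      obtain ⟨i, hi⟩ := mem_iUnion.1 (hsub (mem_connectedComponentIn hxm))
      have hUV : connectedComponentIn {z | w z = s} x ⊆ O i ∪ ⋃ j, ⋃ (_ : j ≠ i), O j := by
        intro z hz
        obtain ⟨j, hj⟩ := mem_iUnion.1 (hsub hz)
        by_cases hji : j = i
        · left
          rw [← hji]
          exact hj
        · right
          exact mem_iUnion₂.2 ⟨j, hji, hj⟩
      have hdisj : Disjoint (O i) (⋃ j, ⋃ (_ : j ≠ i), O j) := by
        rw [disjoint_iUnion₂_right]
        intro j hj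
        exact hOd i j (Ne.symm hj)
      have hsub' : connectedComponentIn {z | w z = s} x ⊆ O i :=
        IsPreconnected.subset_left_of_subset_union (hOo i)
          (isOpen_iUnion fun j => isOpen_iUnion fun _ => hOo j) hdisj hUV
          ⟨x, mem_connectedComponentIn hxm, hi⟩ isPreconnected_connectedComponentIn
      have h5 := hOdist i x hi y (hsub' hy)
      linarith
    have hwγ : ∀ r, w (γ r) ≤ 0 := fun r => (min_le_right _ _).trans (hbγ r).le
    have h6 := hS w lw hwγ s (deriv (lev C w) s) (S / 4 + η / 2) hs1 (by linarith) hsd.hasDerivAt hcomp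
    -- areas
    have h7 : (C.μ {o | t < g (C.pt o)}).toReal ≤ (C.μ {o | s < w (C.pt o)}).toReal +
        (C.μ {o | 0 < w (C.pt o) ∧ w (C.pt o) < 0 + δ'}).toReal := by
      rw [← ENNReal.toReal_add (measure_ne_top _ _) (measure_ne_top _ _)]
      refine ENNReal.toReal_mono (ENNReal.add_ne_top.2 ⟨measure_ne_top _ _, measure_ne_top _ _⟩) ?_
      refine le_trans (measure_mono_ae ?_) (measure_union_le _ _)
      filter_upwards [hC1] with o ho hto
      have h8 : 0 < w (C.pt o) := hwpos' _ hto ho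
      by_cases h9 : s < w (C.pt o)
      · exact Or.inl h9
      · exact Or.inr ⟨h8, by linarith [not_lt.1 h9]⟩
    have h8 := hsm δ' hδ' le_rfl
    have h9 : 2 * (S / 4 + η / 2) / Real.pi * deriv (lev C w) s ≤
        (S / 2 + η) / Real.pi * (S + G + 4 * η) := by
      have e1 : 2 * (S / 4 + η / 2) = S / 2 + η := by ring
      rw [e1]
      exact mul_le_mul_of_nonneg_left hsl (by positivity)
    linarith
  have hlim : Tendsto (fun η : ℝ => (S / 2 + η) / Real.pi * (S + G + 4 * η) + ε + η) (𝓝[>] 0)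
      (𝓝 ((S / 2 + 0) / Real.pi * (S + G + 4 * 0) + ε + 0)) := by
    have hc : Continuous fun η : ℝ => (S / 2 + η) / Real.pi * (S + G + 4 * η) + ε + η := by fun_prop
    exact hc.continuousWithinAt
  have hfin := ge_of_tendsto hlim (eventually_mem_nhdsWithin.mono fun η hη => main η hη)
  refine hfin.trans ?_
  have h1 : (S / 2 + 0) / Real.pi * (S + G + 4 * 0) ≤ S ^ 2 / Real.pi := by
    rw [add_zero, mul_zero, add_zero, div_mul_eq_mul_div]
    exact div_le_div_of_nonneg_right (by nlinarith) hpi.le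
  linarith

end Pool.Agent.FPM
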