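import Mathlib
import Pool.Agent.FPM.SU4A
import Pool.Agent.FPM.SU4S
import Pool.Agent.FPM.SU3
import Pool.Agent.FPM.INH
import Pool.Agent.FPM.DCB7

/-
SU4 (helper66): the isoperimetric inequality `Isop C π ε` for near minimisers, and the inheritance of
the collar property.
-/

open MeasureTheory Set Filter Topology
open scoped ENNReal NNReal

noncomputable section

namespace Pool.Agent.FPM

open Pool.Agent.EWD Pool.Agent.FPX

variable {M : Type} [MetricSpace M] {γ : ℝ → M}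

/-- the surgery lemma for near minimisers -/
theorem surg_of_nm [CompactSpace M] (hγ : Bd γ) (C : Calc M γ) {ε : ℝ} (hmin : NM C ε) : Surg C ε :=
  fun _ hw h0 _ _ _ ht hb hl hcomp => su3 hγ C hmin hw h0 ht hl hb.le hcomp

/-- the isoperimetric inequality for near minimisers of small area, from the double covering -/
theorem isop_nm [CompactSpace M] (hγ : Bd γ) (C : Calc M γ) (hC : Colb C) {ε : ℝ} (hε : 0 ≤ ε)
    (hmin : NM C ε) (hv : C.vol ≤ 2 * Real.pi + 2 * ε)
    (hF1 : ∀ g : M → ℝ, Lip g → ∀ p ζ : M → ℝ, LipschitzWith 1 p → Lip ζ → (∀ x, 0 ≤ ζ x) →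
      (∀ x, ζ x ≤ 1) → ∀ᵐ t : ℝ, DC C (gn C g) g p ζ t) : Isop C Real.pi ε :=
  isop_of_side C hγ hε hv fun _ hg he => side C hγ hC (surg_of_nm hγ C hmin) hF1 hg he

/-- the isoperimetric inequality for near minimisers of small area -/
theorem isop_nm' [CompactSpace M] (hγ : Bd γ) (C : Calc M γ) (hR : RegPl C) (hC : Colb C) {ε : ℝ}
    (hε : 0 ≤ ε) (hmin : NM C ε) (hv : C.vol ≤ 2 * Real.pi + 2 * ε) : Isop C Real.pi ε :=
  isop_nm hγ C hC hε hmin hv fun _ hg _ _ hp _ _ _ =>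
    F1 C hγ hR hg hp (int_gn C hg) (gn_cs C hp)

/-- the collar property is inherited -/
theorem new_colb [CompactSpace M] {C : CalcR M γ} (D : Dat C) (h : Colb C.toCalc) : Colb (newC D) := by
  obtain ⟨h1, b, hb, hb0, hbγ, hbr, hcol⟩ := h
  refine ⟨new_notMem D h1, b, (lip_iff D b).2 hb, hb0, hbγ, hbr, fun ψ hψ hψ0 ε hε => ?_⟩
  exact new_colb_ev D hb (fun x hx => hbr x (le_antisymm hx (hb0 x)))
    (hcol ψ ((lip_iff D ψ).1 hψ) hψ0 ε hε)

/-- every filling of area less than `2 π` has near minimal measurable metrics with the isoperimetric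
inequality -/
theorem exists_isop [Nonempty M] [CompactSpace M] {C : CalcR M γ} (hγ : Bd γ) (hR : RegPl C.toCalc)
    (hC : Colb C.toCalc) (hv : C.vol ≤ 2 * Real.pi) {ε : ℝ} (hε : 0 < ε) :
    ∃ D : Dat C, Bd (ga γ D) ∧ NM (newC D) ε ∧ (newC D).vol ≤ C.vol ∧ RegPl (newC D) ∧
      Colb (newC D) ∧ Isop (newC D) Real.pi ε := by
  obtain ⟨D, h1, h2, h3⟩ := exists_nm C hγ hε
  have h4 := new_regPl D hR
  have h5 := new_colb D hC
  exact ⟨D, h1, h2, h3, h4, h5, isop_nm' h1 (newC D) h4 h5 hε.le h2 (by linarith)⟩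

end Pool.Agent.FPM
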