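import Mathlib
import Pool.Agent.FPM.SU4
import Pool.Agent.FPM.COLF
import Pool.Agent.FPM.RPL

/-
ISO (helper66): the isoperimetric inequality of near minimisers, for isometric fillings of the circle.
-/

open Set MeasureTheory Filter Topology Bundle Manifold
open scoped ENNReal NNReal ContDiff Manifold

noncomputable section

namespace Pool.Agent.FPM

open Pool.Agent.EWD Pool.Agent.FPX Pool.Agent.H74.FAC

variable {M : Type} [MetricSpace M] [ChartedSpace HP M] [IsManifold (𝓡∂ 2) ∞ M] [CompactSpace M]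
  [RiemannianBundle (fun x : M => TangentSpace (𝓡∂ 2) x)]
  [IsContMDiffRiemannianBundle (𝓡∂ 2) ∞ E2 (fun x : M => TangentSpace (𝓡∂ 2) x)]
  [IsRiemannianManifold (𝓡∂ 2) M]

/-- near minimal measurable metrics on a filling of area at most `2 π`, with the isoperimetric
inequality -/
theorem isop_fill [Nonempty M] (A : Cov M) {φ : S1 → M} (hφ : IsometricFilling φ)
    (hv : (cal A hφ).vol ≤ 2 * Real.pi) {ε : ℝ} (hε : 0 < ε) :
    ∃ D : Dat (calR A hφ), Bd (ga (gam φ) D) ∧ NM (newC D) ε ∧ (newC D).vol ≤ (cal A hφ).vol ∧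
      RegPl (newC D) ∧ Colb (newC D) ∧ Isop (newC D) Real.pi ε :=
  exists_isop (C := calR A hφ) (bd_gam hφ) (reg_pl A hφ) (colb_cal A hφ) hv hε

end Pool.Agent.FPM
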