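import Mathlib
import Pool.Agent.FPM.SU4

/-
ODI (helper93): isoperimetric inequalities for near minimisers without evenness. `side1`: a superlevel
set whose trace on the curve has length `G ≤ π` has area at most `(l + G)² / 2 π`. `odd_isop`: for a
function that is odd along the curve the area of `{t < |g|}` is at most `l² / π`, where `l` is the
length of `{|g| = t}`, for all `t > 0` (no minimum with the complement).
-/

open MeasureTheory Set Filter Topology
open scoped ENNReal NNReal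

noncomputable section

namespace Pool.Agent.FPM

open Pool.Agent.EWD Pool.Agent.FPX

variable {M : Type} [MetricSpace M] {γ : ℝ → M}

/-- `u` takes opposite values at opposite points of the curve `γ` -/
def OddB (γ : ℝ → M) (u : M → ℝ) : Prop := ∀ t, u (γ (t + Real.pi)) = - u (γ t)

theorem OddB.neg {u : M → ℝ} (h : OddB γ u) : OddB γ fun x => - u x := fun t =>
  congrArg Neg.neg (h t)

theorem OddB.even_abs {u : M → ℝ} (h : OddB γ u) : EvenB γ fun x => |u x| := fun t => by
  change |u (γ (t + Real.pi))| = |u (γ t)|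
  rw [h t, abs_neg]

theorem lip_abs {u : M → ℝ} (hu : Lip u) : Lip fun x => |u x| := by
  have h : Lip fun x => max (u x) (-u x) := hu.max hu.neg
  exact h

section Gz

/-- the indicator of the part of the curve above the level -/
def gI (γ : ℝ → M) (g : M → ℝ) (t s : ℝ) : ℝ := (Apt γ g t (fun _ => 1)).indicator (fun _ => (1 : ℝ)) s

theorem gI_of {g : M → ℝ} {t s : ℝ} (h : t < g (γ s)) : gI γ g t s = 1 :=
  indicator_of_mem (show s ∈ Apt γ g t (fun _ => 1) from ⟨rfl, h⟩) _

theorem gI_not {g : M → ℝ} {t s : ℝ} (h : ¬ t < g (γ s)) : gI γ g t s = 0 :=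
  indicator_of_notMem (fun h2 : s ∈ Apt γ g t (fun _ => 1) => h h2.2) _

theorem gI_int (hγ : Bd γ) {g : M → ℝ} (hg : Lip g) (t c : ℝ) :
    IntervalIntegrable (fun s => gI γ g t (s + c)) volume 0 (2 * Real.pi) := by
  have hm : Measurable (gI γ g t) := measurable_const.indicator (meas_Apt hγ hg (lip_const 1) t)
  refine (intervalIntegrable_const (c := (1 : ℝ))).mono_fun
    (hm.comp (measurable_add_const c)).aestronglyMeasurable (Eventually.of_forall fun s => ?_)
  change ‖gI γ g t (s + c)‖ ≤ ‖(1 : ℝ)‖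
  by_cases h : t < g (γ (s + c))
  · rw [gI_of h]
  · rw [gI_not h]
    simp

theorem gI_shift (hγ : Bd γ) (g : M → ℝ) (t : ℝ) :
    ∫ s in (0 : ℝ)..(2 * Real.pi), gI γ g t (s + Real.pi) = ∫ s in (0 : ℝ)..(2 * Real.pi), gI γ g t s := by
  have hper : Function.Periodic (gI γ g t) (2 * Real.pi) := by
    intro s
    have hs : γ (s + 2 * Real.pi) = γ s := hγ.per s
    by_cases h1 : t < g (γ s)
    · rw [gI_of h1, gI_of (by rw [hs]; exact h1)]
    · rw [gI_not h1, gI_not (by rw [hs]; exact h1)]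
  rw [intervalIntegral.integral_comp_add_right (gI γ g t) Real.pi, zero_add,
    add_comm (2 * Real.pi) Real.pi, hper.intervalIntegral_add_eq Real.pi 0, zero_add]

/-- the trace of a superlevel set of an odd function has length at most `π` -/
theorem odd_Gz_le (hγ : Bd γ) {g : M → ℝ} (hg : Lip g) (ho : OddB γ g) {t : ℝ} (ht : 0 < t) :
    Gz γ g t (fun _ => 1) ≤ Real.pi := by
  have hpi := Real.pi_pos
  have e0 : Gz γ g t (fun _ => 1) = ∫ s in (0 : ℝ)..(2 * Real.pi), gI γ g t s :=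
    Gz_eq_int hγ hg (lip_const 1) t
  have i0 := gI_int hγ hg t 0
  simp only [add_zero] at i0
  have i1 := gI_int hγ hg t Real.pi
  have h1 : (∫ s in (0 : ℝ)..(2 * Real.pi), gI γ g t s) +
      ∫ s in (0 : ℝ)..(2 * Real.pi), gI γ g t (s + Real.pi) ≤ ∫ _ in (0 : ℝ)..(2 * Real.pi), (1 : ℝ) := by
    rw [← intervalIntegral.integral_add i0 i1]
    refine intervalIntegral.integral_mono_on (by positivity) (i0.add i1) intervalIntegrable_const
      fun s _ => ?_
    by_cases h2 : t < g (γ s)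
    · have h3 : ¬ t < g (γ (s + Real.pi)) := by
        rw [ho s]
        linarith
      rw [gI_of h2, gI_not h3, add_zero]
    · rw [gI_not h2, zero_add]
      by_cases h3 : t < g (γ (s + Real.pi))
      · rw [gI_of h3]
      · rw [gI_not h3]
        exact zero_le_one
  rw [gI_shift hγ g t, intervalIntegral.integral_const, smul_eq_mul, mul_one, sub_zero] at h1
  rw [e0]
  linarith

theorem odd_Gz_neg_le (hγ : Bd γ) {g : M → ℝ} (hg : Lip g) (ho : OddB γ g) (t : ℝ) :
    Gz γ g t (fun _ => 1) ≤ Gz γ (fun x => - g x) t (fun _ => 1) := by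
  have hpi := Real.pi_pos
  have e0 : Gz γ g t (fun _ => 1) = ∫ s in (0 : ℝ)..(2 * Real.pi), gI γ g t s :=
    Gz_eq_int hγ hg (lip_const 1) t
  have e1 : Gz γ (fun x => - g x) t (fun _ => 1) =
      ∫ s in (0 : ℝ)..(2 * Real.pi), gI γ (fun x => - g x) t s :=
    Gz_eq_int hγ hg.neg (lip_const 1) t
  have i0 := gI_int hγ hg t 0
  simp only [add_zero] at i0
  rw [e0, e1, ← gI_shift hγ (fun x => - g x) t]
  refine intervalIntegral.integral_mono_on (by positivity) i0 (gI_int hγ hg.neg t Real.pi) fun s _ => ?_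
  by_cases h2 : t < g (γ s)
  · have h3 : t < - g (γ (s + Real.pi)) := by
      rw [ho s, neg_neg]
      exact h2
    rw [gI_of h2, gI_of (g := fun x => - g x) h3]
  · rw [gI_not h2]
    by_cases h3 : t < - g (γ (s + Real.pi))
    · rw [gI_of (g := fun x => - g x) h3]
      exact zero_le_one
    · rw [gI_not (g := fun x => - g x) h3]

/-- the traces of `{t < g}` and `{t < - g}` have the same length -/
theorem odd_Gz_neg (hγ : Bd γ) {g : M → ℝ} (hg : Lip g) (ho : OddB γ g) (t : ℝ) :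
    Gz γ (fun x => - g x) t (fun _ => 1) = Gz γ g t (fun _ => 1) := by
  refine le_antisymm ?_ (odd_Gz_neg_le hγ hg ho t)
  have h := odd_Gz_neg_le hγ hg.neg ho.neg t
  simpa only [neg_neg] using h

end Gz

variable (C : Calc M γ)

/-- the pieces of the boundary of a superlevel set, without parity -/
theorem TMBO [CompactSpace M] (hγ : Bd γ) {g : M → ℝ} (hg : Lip g)
    {H : Om → ℝ} (hH : Integrable H C.μ)
    (hpg : ∀ p : M → ℝ, LipschitzWith 1 p → ∀ᵐ o ∂C.μ, |C.wed p g o| ≤ H o)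
    (hF1 : ∀ p ζ : M → ℝ, LipschitzWith 1 p → Lip ζ → (∀ x, 0 ≤ ζ x) → (∀ x, ζ x ≤ 1) →
      ∀ᵐ t : ℝ, DC C H g p ζ t) :
    ∀ᵐ t : ℝ, Gz γ g t (fun _ => 1) ≤ Real.pi →
      Gz γ g t (fun _ => 1) ≤ deriv (mz C H g fun _ => 1) t ∧
      ∀ η : ℝ, 0 < η → ∃ (n : ℕ) (O : Fin n → Set M), (∀ i, IsOpen (O i)) ∧
        (∀ i j, i ≠ j → Disjoint (O i) (O j)) ∧ Kt γ g t ⊆ ⋃ i, O i ∧
        ∀ i, ∀ x ∈ O i, ∀ y ∈ O i, dist x y ≤
          (deriv (mz C H g fun _ => 1) t + Gz γ g t (fun _ => 1)) / 2 + η := by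
  have hpi := Real.pi_pos
  rcases isEmpty_or_nonempty M with hM | hM
  · exact (hM.false (γ 0)).elim
  have hH0 : ∀ᵐ o ∂C.μ, 0 ≤ H o := by
    filter_upwards [hpg (fun _ => 0) ((LipschitzWith.const 0).weaken zero_le_one)] with o ho
    exact (abs_nonneg _).trans ho
  obtain ⟨Z, hZl, hZ0, hZ1, hZc⟩ := TMB_family (M := M)
  have hl1 : Lip (fun _ : M => (1 : ℝ)) := lip_const 1
  have a1 : ∀ᵐ t : ℝ, ∀ n m : ℕ, DC C H g (fun y => dist y (TopologicalSpace.denseSeq M m)) (Z n) t := by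
    rw [ae_all_iff]
    intro n
    rw [ae_all_iff]
    intro m
    exact hF1 _ _ (LipschitzWith.dist_left _) (hZl n) (hZ0 n) (hZ1 n)
  have a2 : ∀ᵐ t : ℝ, ∀ n : ℕ, DifferentiableAt ℝ (mz C H g (Z n)) t := by
    rw [ae_all_iff]
    intro n
    exact (mz_mono C hg (hZl n) (hZ0 n) (hZ1 n) hH hH0).ae_differentiableAt
  have a3 : ∀ᵐ t : ℝ, DifferentiableAt ℝ (mz C H g fun _ => 1) t :=
    (mz_mono C hg hl1 (fun _ => zero_le_one) (fun _ => le_rfl) hH hH0).ae_differentiableAt
  filter_upwards [a1, a2, a3] with t t1 t2 t3 hG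
  set S := deriv (mz C H g fun _ => 1) t with hSdef
  set G := Gz γ g t (fun _ => 1) with hGdef
  have adc1 : Adc γ g t (fun _ => 1) := ⟨hl1, fun _ => zero_le_one, fun _ => le_rfl,
    ⟨1, one_pos, fun _ _ => Or.inr rfl⟩, fun _ _ => Or.inr rfl⟩
  have hKc : IsClosed (Kt γ g t) := Kt_closed hγ hg.cont t
  have hG0 : 0 ≤ G := Gz_nonneg γ g t _
  have hGS : G ≤ S := by
    have h1 := FTW C hγ hg adc1 hH hpg t3.hasDerivAt
    rw [min_eq_left (by linarith)] at h1
    exact h1
  refine ⟨hGS, ?_⟩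
  have piece : ∀ P, Pc (Kt γ g t) P → ∃ n, Adc γ g t (Z n) ∧ (∀ x ∈ P, Z n x = 1) ∧
      (∀ x ∈ Kt γ g t \ P, Z n x = 0) ∧ Cut (Z n) (Kt γ g t) P := by
    intro P hP
    obtain ⟨n, hn⟩ := hZc _ P hP
    refine ⟨n, hn.adc hg.cont (hZl n) (hZ0 n) (hZ1 n), ?_, ?_, hn⟩
    · obtain ⟨V, V', _, _, h1, _, h2, _⟩ := hn
      exact fun x hx => h2 x (h1 hx)
    · obtain ⟨V, V', _, _, _, h1, _, h2⟩ := hn
      exact fun x hx => h2 x (h1 hx)
  have Gle : ∀ n, Gz γ g t (Z n) ≤ G := fun n => Gz_mono γ g t fun s hs => ⟨rfl, hs.2⟩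
  have Snn : ∀ n, 0 ≤ deriv (mz C H g (Z n)) t := fun n =>
    mz_deriv_nonneg C hg (hZl n) (hZ0 n) (hZ1 n) hH hH0 t
  have conn : ∀ n, Adc γ g t (Z n) → ∀ A : Set M, IsPreconnected A →
      (∀ x ∈ A, x ∈ Kt γ g t ∧ Z n x = 1) → ∀ x ∈ A, ∀ y ∈ A,
      dist x y ≤ (deriv (mz C H g (Z n)) t + Gz γ g t (Z n)) / 2 := by
    intro n hn A hA hAK x hx y hy
    have h1 : ∀ m, dist x (TopologicalSpace.denseSeq M m) - dist y (TopologicalSpace.denseSeq M m) ≤
        (deriv (mz C H g (Z n)) t + Gz γ g t (Z n)) / 2 := fun m =>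
      TMB_osc C (continuous_id.dist continuous_const) (t1 n m) hn
        (add_nonneg (Snn n) (Gz_nonneg _ _ _ _)) hA hAK hx hy
    refine le_of_forall_pos_le_add fun e he => ?_
    obtain ⟨m, hm⟩ := (TopologicalSpace.denseRange_denseSeq M).exists_dist_lt y (half_pos he)
    have h2 := h1 m
    have h3 := dist_triangle x (TopologicalSpace.denseSeq M m) y
    rw [dist_comm (TopologicalSpace.denseSeq M m) y] at h3
    linarith
  have comp0 : ∀ x ∈ Kt γ g t, ∀ y ∈ connectedComponentIn (Kt γ g t) x,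
      ∀ z ∈ connectedComponentIn (Kt γ g t) x, dist y z ≤ (S + G) / 2 := by
    intro x hx y hy z hz
    obtain ⟨n, hn, hn1, -, hcut⟩ := piece (Kt γ g t) ⟨subset_rfl, hKc, by
      rw [Set.sdiff_self]
      exact isClosed_empty⟩
    have h1 := conn n hn _ isPreconnected_connectedComponentIn
      (fun w hw => ⟨connectedComponentIn_subset _ _ hw, hn1 _ (connectedComponentIn_subset _ _ hw)⟩)
      y hy z hz
    have h2 := Gle n
    have h3 : deriv (mz C H g (Z n)) t = S := by
      obtain ⟨V, V', hV, hV', hPV, hPV', v1, v0⟩ := hcut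
      obtain ⟨δ, hδ, h4⟩ := TMB_lev hg.cont (t := t) hV (fun x hx => hPV (Or.inl hx))
      have h5 := mz_add C hg (hZl n) (hZ0 n) (hZ1 n) (lip_const 0) (fun _ => le_rfl)
        (fun _ => zero_le_one) hl1 (fun _ => zero_le_one) (fun _ => le_rfl) hH hδ (fun x hx => by
          rw [v1 x (h4 x hx), add_zero]) (t2 n).hasDerivAt (b := 0) (by
          have : mz C H g (fun _ => 0) = fun _ => 0 := by
            funext r
            unfold mz
            simp
          rw [this]
          exact hasDerivAt_const _ _)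
      rw [add_zero] at h5
      exact h5.deriv.symm
    linarith
  intro η hη
  obtain ⟨n, O, h1, h2, h3, h4⟩ := TMB_cover hKc (b := (S + G) / 2 + η / 2) (half_pos hη) (by
    intro x hx
    obtain ⟨P, hP, hxP, hPW⟩ := TMB_piece hKc hx (Metric.isOpen_thickening (δ := η / 4)
      (E := connectedComponentIn (Kt γ g t) x)) (Metric.self_subset_thickening (by linarith) _)
    refine ⟨P, hP, hxP, fun y hy z hz => ?_⟩
    obtain ⟨a, ha, ha'⟩ := Metric.mem_thickening_iff.1 (hPW hy)
    obtain ⟨b, hb, hb'⟩ := Metric.mem_thickening_iff.1 (hPW hz)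
    have h3 := comp0 x hx a ha b hb
    have h5 := dist_triangle4 y a b z
    rw [dist_comm b] at h5
    linarith)
  refine ⟨n, O, h1, h2, h3, fun i x hx y hy => ?_⟩
  have h5 := h4 i x hx y hy
  linarith

/-- the area of a superlevel set whose trace has length `G ≤ π` is at most `(l + G)² / 2 π` -/
theorem side1 [CompactSpace M] (hγ : Bd γ) (hC : Colb C) {ε : ℝ} (hS : Surg C ε)
    (hF1 : ∀ g : M → ℝ, Lip g → ∀ p ζ : M → ℝ, LipschitzWith 1 p → Lip ζ → (∀ x, 0 ≤ ζ x) →
      (∀ x, ζ x ≤ 1) → ∀ᵐ t : ℝ, DC C (gn C g) g p ζ t) {g : M → ℝ} (hg : Lip g) :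
    ∀ᵐ t : ℝ, Gz γ g t (fun _ => 1) ≤ Real.pi →
      Gz γ g t (fun _ => 1) ≤ deriv (lev C g) t ∧
      (C.μ {o | t < g (C.pt o)}).toReal ≤
        (deriv (lev C g) t + Gz γ g t (fun _ => 1)) ^ 2 / (2 * Real.pi) + ε := by
  have hpi := Real.pi_pos
  have := C.fin
  obtain ⟨hC1, b, hbL, hb0, hbγ, hbr, hcol⟩ := hC
  have hB := TMBO C hγ hg (int_gn C hg) (fun p hp => gn_cs C hp)
    (fun p ζ hp hζ h0 h1 => hF1 g hg p ζ hp hζ h0 h1)
  rw [mz_one] at hB
  filter_upwards [hB, (lev_mono C hg).ae_differentiableAt, ae_level_null hγ hg] with t ht hd hnull hG1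
  obtain ⟨hGS, hO⟩ := ht hG1
  refine ⟨hGS, ?_⟩
  set S := deriv (lev C g) t with hSdef
  set G := Gz γ g t (fun _ => 1) with hGdef
  have hS0 : 0 ≤ S := (lev_mono C hg).deriv_nonneg
  have hG0 : 0 ≤ G := Gz_nonneg _ _ _ _
  set w : M → ℝ := fun x => min (max (g x - t) 0) (b x) with hw
  have l1 : Lip (fun x => max (g x - t) 0) := (hg.sub (lip_const t)).max (lip_const 0)
  have lw : Lip w := l1.min hbL
  have hw0 : ∀ x, 0 ≤ w x := fun x => le_min (le_max_right _ _) (hb0 x)
  have hwpos : ∀ x, 0 < w x → t < g x := by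
    intro x hx
    by_contra hcon
    have h1 : w x ≤ max (g x - t) 0 := min_le_left _ _
    rw [max_eq_right (by linarith)] at h1
    linarith
  have hwpos' : ∀ x, t < g x → x ∉ range γ → 0 < w x := by
    intro x hx hxr
    refine lt_min ?_ ?_
    · exact lt_max_of_lt_left (by linarith)
    · exact lt_of_le_of_ne (hb0 x) fun h => hxr (hbr x h.symm)
  -- the estimate with errors
  have main : ∀ η : ℝ, 0 < η → (C.μ {o | t < g (C.pt o)}).toReal ≤
      ((S + G) / 2 + η) / Real.pi * (S + G + 4 * η) + ε + η := by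
    intro η hη
    obtain ⟨n, O, hOo, hOd, hOc, hOdist⟩ := hO η hη
    -- the collar weight
    have hψ := (weight_lim hγ hg hnull).eventually (Iio_mem_nhds (show G < G + η by linarith))
    obtain ⟨m, hm⟩ := hψ.exists
    have hm' : ∫ s in (0 : ℝ)..(2 * Real.pi), bnd (t - 1 / ((m : ℝ) + 1)) t (g (γ s)) < G + η := hm
    have hm0 : (0 : ℝ) < 1 / ((m : ℝ) + 1) := by positivity
    set ψ : M → ℝ := fun x => bnd (t - 1 / ((m : ℝ) + 1)) t (g x) with hψd
    have lψ : Lip ψ := lip_bnd hg (by linarith)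
    have hψ0 : ∀ x, 0 ≤ ψ x := fun x => bnd_nonneg _ _ _
    have hψ1 : ∀ x, ψ x ≤ 1 := fun x => bnd_le_one _ _ _
    have hψt : ∀ x, t ≤ g x → ψ x = 1 := fun x hx => bnd_hi (by linarith) hx
    have ev1 := hcol ψ lψ hψ0 η hη
    have ev2 : ∀ᶠ σ : ℝ in 𝓝[>] 0, lev C g (t + σ) - lev C g t ≤ σ * (S + η) := by
      have h1 := hd.hasDerivAt.tendsto_slope_zero
      have h2 : Tendsto (fun h : ℝ => h⁻¹ • (lev C g (t + h) - lev C g t)) (𝓝[>] 0) (𝓝 S) :=
        h1.mono_left (nhdsWithin_mono 0 fun x hx => ne_of_gt hx)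
      filter_upwards [h2.eventually (Iio_mem_nhds (show S < S + η by linarith)), self_mem_nhdsWithin]
        with σ hσ hσ0
      have hσ0' : (0 : ℝ) < σ := hσ0
      have h3 : σ⁻¹ * (lev C g (t + σ) - lev C g t) < S + η := hσ
      have h4 := mul_lt_mul_of_pos_left h3 hσ0'
      rw [← mul_assoc, mul_inv_cancel₀ hσ0'.ne', one_mul] at h4
      exact h4.le
    -- compactness
    obtain ⟨δ, hδ, hδO⟩ : ∃ δ : ℝ, 0 < δ ∧ ∀ x, 0 < w x → w x < δ → x ∈ ⋃ i, O i := by
      have hcpt : IsCompact ((⋃ i, O i)ᶜ ∩ {x | t ≤ g x}) :=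
        ((isOpen_iUnion hOo).isClosed_compl.inter (isClosed_le continuous_const hg.cont)).isCompact
      rcases ((⋃ i, O i)ᶜ ∩ {x | t ≤ g x}).eq_empty_or_nonempty with hem | hne
      · refine ⟨1, one_pos, fun x hx _ => ?_⟩
        by_contra hcon
        have : x ∈ ((⋃ i, O i)ᶜ ∩ {x | t ≤ g x}) := ⟨hcon, (hwpos x hx).le⟩
        rw [hem] at this
        exact this
      · obtain ⟨x0, hx0, hmin⟩ := hcpt.exists_isMinOn hne lw.cont.continuousOn
        have hx0w : 0 < w x0 := by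
          have h1 : x0 ∉ Kt γ g t := fun h => hx0.1 (hOc h)
          have h2 : t ≤ g x0 := hx0.2
          refine hwpos' x0 (lt_of_le_of_ne h2 fun h => h1 (Or.inl h.symm)) fun h => h1 (Or.inr ⟨h, h2⟩)
        refine ⟨w x0, hx0w, fun x hx hlt => ?_⟩
        by_contra hcon
        exact absurd (hmin ⟨hcon, (hwpos x hx).le⟩) (not_le.2 hlt)
    -- small collars
    obtain ⟨δ', hδ', hsm⟩ := collar_small (μ := C.μ) (C.meas_pt lw) 0 hη
    -- the level
    have hev := ev1.and (ev2.and (Ioo_mem_nhdsGT (show (0 : ℝ) < min δ δ' from lt_min hδ hδ')))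
    obtain ⟨s0, h1, h2, h3⟩ := hev.exists
    have hs0 : 0 < s0 := h3.1
    have hs0δ : s0 < δ := h3.2.trans_le (min_le_left _ _)
    have hs0δ' : s0 < δ' := h3.2.trans_le (min_le_right _ _)
    have hlen : lev C w s0 ≤ s0 * (S + G + 3 * η) := by
      have h4 := lev_min_le C hg hbL lψ t hs0 hb0 hψ0 hψ1 hψt
      have h5 : s0 * ((∫ s in (0 : ℝ)..(2 * Real.pi), ψ (γ s)) + η) ≤ s0 * (G + η + η) :=
        mul_le_mul_of_nonneg_left (by linarith) hs0.le
      calc lev C w s0 ≤ _ := h4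
        _ ≤ s0 * (S + η) + s0 * (G + η + η) := by linarith
        _ = s0 * (S + G + 3 * η) := by ring
    have hlev0 : 0 ≤ lev C w 0 := integral_nonneg fun o => gn_nonneg C w o
    obtain ⟨s, hs1, hs2, hsd, hsl⟩ := exists_level (lev_mono C lw) (K' := S + G + 4 * η) hs0 hlev0 hlen
      (by linarith)
    -- the surgery
    have hcomp : ∀ x y, w x = s → y ∈ connectedComponentIn {z | w z = s} x →
        dist x y ≤ 2 * ((S + G) / 4 + η / 2) := by
      intro x y hx hy
      have hxm : x ∈ {z | w z = s} := hx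
      have hsub : connectedComponentIn {z | w z = s} x ⊆ ⋃ i, O i := by
        intro z hz
        have hz2 : z ∈ {z | w z = s} := connectedComponentIn_subset _ _ hz
        have hz' : w z = s := hz2
        exact hδO z (by rw [hz']; exact hs1) (by rw [hz']; linarith)
      obtain ⟨i, hi⟩ := mem_iUnion.1 (hsub (mem_connectedComponentIn hxm))
      have hUV : connectedComponentIn {z | w z = s} x ⊆ O i ∪ ⋃ j, ⋃ (_ : j ≠ i), O j := by
        intro z hz
        obtain ⟨j, hj⟩ := mem_iUnion.1 (hsub hz)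
        by_cases hji : j = i
        · left
          rw [← hji]
          exact hj
        · right
          exact mem_iUnion₂.2 ⟨j, hji, hj⟩
      have hdisj : Disjoint (O i) (⋃ j, ⋃ (_ : j ≠ i), O j) := by
        rw [disjoint_iUnion₂_right]
        intro j hj
        exact hOd i j (Ne.symm hj)
      have hsub' : connectedComponentIn {z | w z = s} x ⊆ O i :=
        IsPreconnected.subset_left_of_subset_union (hOo i)
          (isOpen_iUnion fun j => isOpen_iUnion fun _ => hOo j) hdisj hUV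
          ⟨x, mem_connectedComponentIn hxm, hi⟩ isPreconnected_connectedComponentIn
      have h5 := hOdist i x hi y (hsub' hy)
      linarith
    have hwγ : ∀ r, w (γ r) ≤ 0 := fun r => (min_le_right _ _).trans (hbγ r).le
    have h6 := hS w lw hwγ s (deriv (lev C w) s) ((S + G) / 4 + η / 2) hs1 (by linarith) hsd.hasDerivAt
      hcomp
    -- areas
    have h7 : (C.μ {o | t < g (C.pt o)}).toReal ≤ (C.μ {o | s < w (C.pt o)}).toReal +
        (C.μ {o | 0 < w (C.pt o) ∧ w (C.pt o) < 0 + δ'}).toReal := by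
      rw [← ENNReal.toReal_add (measure_ne_top _ _) (measure_ne_top _ _)]
      refine ENNReal.toReal_mono (ENNReal.add_ne_top.2 ⟨measure_ne_top _ _, measure_ne_top _ _⟩) ?_
      refine le_trans (measure_mono_ae ?_) (measure_union_le _ _)
      filter_upwards [hC1] with o ho hto
      have h8 : 0 < w (C.pt o) := hwpos' _ hto ho
      by_cases h9 : s < w (C.pt o)
      · exact Or.inl h9
      · exact Or.inr ⟨h8, by linarith [not_lt.1 h9]⟩
    have h8 := hsm δ' hδ' le_rfl
    have h9 : 2 * ((S + G) / 4 + η / 2) / Real.pi * deriv (lev C w) s ≤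
        ((S + G) / 2 + η) / Real.pi * (S + G + 4 * η) := by
      have e1 : 2 * ((S + G) / 4 + η / 2) = (S + G) / 2 + η := by ring
      rw [e1]
      exact mul_le_mul_of_nonneg_left hsl (by positivity)
    linarith
  have hlim : Tendsto (fun η : ℝ => ((S + G) / 2 + η) / Real.pi * (S + G + 4 * η) + ε + η) (𝓝[>] 0)
      (𝓝 (((S + G) / 2 + 0) / Real.pi * (S + G + 4 * 0) + ε + 0)) := by
    have hc : Continuous fun η : ℝ => ((S + G) / 2 + η) / Real.pi * (S + G + 4 * η) + ε + η := by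
      fun_prop
    exact hc.continuousWithinAt
  have hfin := ge_of_tendsto hlim (eventually_mem_nhdsWithin.mono fun η hη => main η hη)
  refine hfin.trans (le_of_eq ?_)
  have h1 : ((S + G) / 2 + 0) / Real.pi * (S + G + 4 * 0) = (S + G) ^ 2 / (2 * Real.pi) := by
    field_simp
    ring
  rw [h1, add_zero]

/-- the gradient of the absolute value -/
theorem gn_abs {g : M → ℝ} (hg : Lip g) : ∀ᵐ o ∂C.μ, gn C (fun x => |g x|) o = gn C g o := by
  have key : ∀ (p : ℝ → M) (a a' : ℝ), HasDerivAt (fun s => g (p s)) a 0 →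
      HasDerivAt (fun s => |g (p s)|) a' 0 → a' ^ 2 = a ^ 2 := by
    intro p a a' h1 h2
    rcases le_total 0 (g (p 0)) with h | h
    · have h3 : IsLocalMin (fun s => |g (p s)| - g (p s)) 0 := by
        refine Eventually.of_forall fun s => ?_
        change |g (p 0)| - g (p 0) ≤ |g (p s)| - g (p s)
        rw [abs_of_nonneg h, sub_self]
        exact sub_nonneg.2 (le_abs_self _)
      have h4 := h3.hasDerivAt_eq_zero (h2.sub h1)
      have h5 : a' = a := by linarith
      rw [h5]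
    · have h3 : IsLocalMin (fun s => |g (p s)| + g (p s)) 0 := by
        refine Eventually.of_forall fun s => ?_
        change |g (p 0)| + g (p 0) ≤ |g (p s)| + g (p s)
        rw [abs_of_nonpos h, neg_add_cancel]
        linarith [neg_abs_le (g (p s))]
      have h4 := h3.hasDerivAt_eq_zero (h2.add h1)
      have h5 : a' = -a := by linarith
      rw [h5, neg_sq]
  have l1 : Lip (fun x => |g x|) := lip_abs hg
  filter_upwards [C.ae_has hg, C.ae_has l1] with o h1 h2
  unfold gn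
  rw [key (C.px o) _ _ h1.1 h2.1, key (C.py o) _ _ h1.2 h2.2]

/-- the level integral of `|g|` -/
theorem lev_abs {g : M → ℝ} (hg : Lip g) {t : ℝ} (ht : 0 < t) :
    lev C (fun x => |g x|) t = lev C g t + lev C (fun x => -g x) t - ∫ o, gn C g o ∂C.μ := by
  have hm1 : NullMeasurableSet {o | g (C.pt o) < t} C.μ := meas_pt_lt C hg t
  have hm2 : NullMeasurableSet {o | -g (C.pt o) < t} C.μ := meas_pt_lt C hg.neg t
  have hm3 : NullMeasurableSet {o | |g (C.pt o)| < t} C.μ := meas_pt_lt C (lip_abs hg) t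
  have hi := int_gn C hg
  unfold lev
  simp only [gn_neg]
  rw [← integral_indicator₀ hm1, ← integral_indicator₀ hm2, ← integral_indicator₀ hm3]
  have e1 := integral_add (hi.indicator₀ hm1) (hi.indicator₀ hm2)
  have e2 := integral_sub ((hi.indicator₀ hm1).add (hi.indicator₀ hm2)) hi
  simp only [Pi.add_apply] at e1 e2
  rw [← e1, ← e2]
  refine integral_congr_ae ?_
  filter_upwards [gn_abs C hg] with o ho
  by_cases h1 : g (C.pt o) < t
  · have m1 : o ∈ {o | g (C.pt o) < t} := h1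
    by_cases h2 : -g (C.pt o) < t
    · have m2 : o ∈ {o | -g (C.pt o) < t} := h2
      have m3 : o ∈ {o | |g (C.pt o)| < t} := abs_lt.2 ⟨by linarith, h1⟩
      rw [indicator_of_mem m1, indicator_of_mem m2, indicator_of_mem m3, ho]
      ring
    · have m2 : o ∉ {o | -g (C.pt o) < t} := h2
      have m3 : o ∉ {o | |g (C.pt o)| < t} := fun h => h2 (by
        have h4 : |g (C.pt o)| < t := h
        linarith [neg_abs_le (g (C.pt o))])
      rw [indicator_of_mem m1, indicator_of_notMem m2, indicator_of_notMem m3]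
      ring
  · have m1 : o ∉ {o | g (C.pt o) < t} := h1
    have m2 : o ∈ {o | -g (C.pt o) < t} := by
      change -g (C.pt o) < t
      linarith
    have m3 : o ∉ {o | |g (C.pt o)| < t} := fun h => h1 (by
      have h4 : |g (C.pt o)| < t := h
      linarith [le_abs_self (g (C.pt o))])
    rw [indicator_of_notMem m1, indicator_of_mem m2, indicator_of_notMem m3]
    ring

/-- isoperimetric inequality for the superlevel sets of the absolute value of odd functions -/
def IsopO (κ ε : ℝ) : Prop :=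
  ∀ g : M → ℝ, Lip g → OddB γ g → ∀ᵐ t : ℝ, 0 < t → DifferentiableAt ℝ (lev C fun x => |g x|) t ∧
    κ * ((C.μ {o | t < |g (C.pt o)|}).toReal - ε) ≤ deriv (lev C fun x => |g x|) t ^ 2

theorem isopO_of_surg [CompactSpace M] (hγ : Bd γ) (hC : Colb C) {ε : ℝ} (hS : Surg C ε)
    (hF1 : ∀ g : M → ℝ, Lip g → ∀ p ζ : M → ℝ, LipschitzWith 1 p → Lip ζ → (∀ x, 0 ≤ ζ x) →
      (∀ x, ζ x ≤ 1) → ∀ᵐ t : ℝ, DC C (gn C g) g p ζ t) : IsopO C Real.pi (2 * ε) := by
  have hpi := Real.pi_pos
  have := C.fin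
  intro g hg ho
  have a1 : ∀ᵐ t : ℝ, DifferentiableAt ℝ (lev C g) t := (lev_mono C hg).ae_differentiableAt
  have a2 : ∀ᵐ t : ℝ, DifferentiableAt ℝ (lev C fun x => -g x) t := (lev_mono C hg.neg).ae_differentiableAt
  filter_upwards [a1, a2, side1 C hγ hC hS hF1 hg, side1 C hγ hC hS hF1 hg.neg] with
    t d1 d2 s1 s2 ht
  have hev : (lev C fun x => |g x|) =ᶠ[𝓝 t]
      fun r => lev C g r + lev C (fun x => -g x) r - ∫ o, gn C g o ∂C.μ := by
    filter_upwards [Ioi_mem_nhds ht] with r hr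
    exact lev_abs C hg hr
  have hd : HasDerivAt (lev C fun x => |g x|) (deriv (lev C g) t + deriv (lev C fun x => -g x) t) t :=
    ((d1.hasDerivAt.add d2.hasDerivAt).sub_const _).congr_of_eventuallyEq hev
  refine ⟨hd.differentiableAt, ?_⟩
  rw [hd.deriv]
  have g1 := odd_Gz_le hγ hg ho ht
  have g2 := odd_Gz_neg hγ hg ho t
  obtain ⟨e1, e2⟩ := s1 g1
  rw [g2] at s2
  obtain ⟨e3, e4⟩ := s2 g1
  have g0 : 0 ≤ Gz γ g t (fun _ => 1) := Gz_nonneg _ _ _ _
  set G := Gz γ g t (fun _ => 1) with hG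
  set S1 := deriv (lev C g) t with hS1
  set S2 := deriv (lev C fun x => -g x) t with hS2
  have h1 : (C.μ {o | t < |g (C.pt o)|}).toReal ≤ (C.μ {o | t < g (C.pt o)}).toReal +
      (C.μ {o | t < -g (C.pt o)}).toReal := by
    rw [← ENNReal.toReal_add (measure_ne_top _ _) (measure_ne_top _ _)]
    refine ENNReal.toReal_mono (ENNReal.add_ne_top.2 ⟨measure_ne_top _ _, measure_ne_top _ _⟩) ?_
    refine le_trans (measure_mono fun o ho => ?_) (measure_union_le _ _)
    exact lt_abs.1 (show t < |g (C.pt o)| from ho)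
  have h2 : (S1 + G) ^ 2 / (2 * Real.pi) ≤ (S1 + S2) ^ 2 / (2 * Real.pi) :=
    div_le_div_of_nonneg_right (pow_le_pow_left₀ (by linarith) (by linarith) 2) (by positivity)
  have h3 : (S2 + G) ^ 2 / (2 * Real.pi) ≤ (S1 + S2) ^ 2 / (2 * Real.pi) :=
    div_le_div_of_nonneg_right (pow_le_pow_left₀ (by linarith) (by linarith) 2) (by positivity)
  have h5 : (S1 + S2) ^ 2 / (2 * Real.pi) + (S1 + S2) ^ 2 / (2 * Real.pi) = (S1 + S2) ^ 2 / Real.pi := by
    field_simp
    ring
  have h6 : Real.pi * ((S1 + S2) ^ 2 / Real.pi) = (S1 + S2) ^ 2 := mul_div_cancel₀ _ hpi.ne'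
  have h7 : (C.μ {o | t < |g (C.pt o)|}).toReal - 2 * ε ≤ (S1 + S2) ^ 2 / Real.pi := by linarith
  calc Real.pi * ((C.μ {o | t < |g (C.pt o)|}).toReal - 2 * ε) ≤
        Real.pi * ((S1 + S2) ^ 2 / Real.pi) := mul_le_mul_of_nonneg_left h7 hpi.le
    _ = (S1 + S2) ^ 2 := h6

/-- the isoperimetric inequality of near minimisers for odd functions -/
theorem isopO_nm [CompactSpace M] (hγ : Bd γ) (C : Calc M γ) (hR : RegPl C) (hC : Colb C) {ε : ℝ}
    (hmin : NM C ε) : IsopO C Real.pi (2 * ε) :=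
  isopO_of_surg C hγ hC (surg_of_nm hγ C hmin) fun _ hg _ _ hp _ _ _ =>
    F1 C hγ hR hg hp (int_gn C hg) (gn_cs C hp)

end Pool.Agent.FPM
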