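import Mathlib
import Pool.Agent.FPM.ISO
import Pool.Agent.FPM.ODI
import Pool.Agent.FPX.REG
import Pool.Agent.H74.FAC.Surf
import Pool.Agent.EWD.TMF

/-
CLS (helper66): the area bound follows from a statement about near minimal measurable metrics only.
`NearM C ε` collects everything that is known about them. What remains is `Close`.
-/

open Set MeasureTheory Filter Topology Bundle Manifold
open scoped ENNReal NNReal ContDiff Manifold

noncomputable section

namespace Pool.Agent.FPM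

open Pool.Agent.EWD Pool.Agent.FPX Pool.Agent.H74.FAC

/-- what is known about a near minimal metric -/
structure NearM {M : Type} [MetricSpace M] {γ : ℝ → M} (C : Calc M γ) (ε : ℝ) : Prop where
  bd : Bd γ
  nm : NM C ε
  regpl : RegPl C
  colb : Colb C
  regae : RegAE C
  isop : Isop C Real.pi ε
  isopO : IsopO C Real.pi (2 * ε)

/-- the closing step for the bound `c` -/
def Close (c : ℝ) : Prop :=
  ∃ ε : ℝ, 0 < ε ∧ ∀ (M : Type) [MetricSpace M] [CompactSpace M] [Nonempty M] (γ : ℝ → M)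
    (C : Calc M γ), NearM C ε → c ≤ C.vol

variable {M : Type} [MetricSpace M] [ChartedSpace HP M] [IsManifold (𝓡∂ 2) ∞ M] [CompactSpace M]
  [RiemannianBundle (fun x : M => TangentSpace (𝓡∂ 2) x)]
  [IsContMDiffRiemannianBundle (𝓡∂ 2) ∞ E2 (fun x : M => TangentSpace (𝓡∂ 2) x)]
  [IsRiemannianManifold (𝓡∂ 2) M]

/-- near minimal metrics exist -/
theorem exists_nearM [Nonempty M] (A : Cov M) {φ : S1 → M} (hφ : IsometricFilling φ)
    (hv : (cal A hφ).vol ≤ 2 * Real.pi) {ε : ℝ} (hε : 0 < ε) :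
    ∃ D : Dat (calR A hφ), NearM (newC D) ε ∧ (newC D).vol ≤ (cal A hφ).vol := by
  obtain ⟨D, h1, h2, h3, h4, h5, h6⟩ := isop_fill A hφ hv hε
  exact ⟨D, ⟨h1, h2, h4, h5, new_regAE D (reg_ae A hφ), h6, isopO_nm h1 (newC D) h4 h5 h2⟩, h3⟩

/-- the bound for the calculus of a filling -/
theorem vol_of_close {c : ℝ} (hc : c ≤ 2 * Real.pi) (h : Close c) [Nonempty M] (A : Cov M)
    {φ : S1 → M} (hφ : IsometricFilling φ) : c ≤ (cal A hφ).vol := by
  by_contra hlt
  rw [not_le] at hlt
  obtain ⟨ε, hε, h⟩ := h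
  obtain ⟨D, h1, h2⟩ := exists_nearM A hφ (by linarith) hε
  have := h _ _ (newC D) h1
  linarith

/-- the bound for the area -/
theorem area_of_close {c : ℝ} (hc : c ≤ 2 * Real.pi) (h : Close c) (ho : Orientable M)
    {φ : S1 → M} (hφ : IsometricFilling φ) : ENNReal.ofReal c ≤ area M := by
  have : Nonempty M := ⟨φ 0⟩
  obtain ⟨A⟩ := exists_cov (M := M) ho
  exact (ENNReal.ofReal_le_ofReal (vol_of_close hc h A hφ)).trans (cal_vol_le A hφ)

/-- the sharp bound from all smaller ones -/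
theorem area_two_pi (h : ∀ δ : ℝ, 0 < δ → Close (2 * Real.pi - δ)) (ho : Orientable M)
    {φ : S1 → M} (hφ : IsometricFilling φ) : ENNReal.ofReal (2 * Real.pi) ≤ area M := by
  have : Nonempty M := ⟨φ 0⟩
  obtain ⟨A⟩ := exists_cov (M := M) ho
  refine le_trans (ENNReal.ofReal_le_ofReal ?_) (cal_vol_le A hφ)
  refine le_of_forall_pos_sub_le fun δ hδ => ?_
  exact vol_of_close (by linarith) (h δ hδ) A hφ

end Pool.Agent.FPM
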