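import Mathlib
import Pool.Agent.EWD.GRM

/-
LOC (helper66): in small charts the Riemannian distance is bounded below by the norm of the
difference of the coordinates, with a constant arbitrarily close to one.
-/

open MeasureTheory Set Filter Measure Manifold Bundle
open scoped ContDiff Topology ENNReal NNReal

set_option linter.unusedSectionVars false

namespace Pool.Agent.FPM

open Pool.Agent.H74.FAC Pool.Agent.EWD

variable {M : Type} [MetricSpace M] [ChartedSpace HP M] [IsManifold (𝓡∂ 2) ∞ M] [CompactSpace M]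
  [RiemannianBundle (fun x : M => TangentSpace (𝓡∂ 2) x)]
  [IsContMDiffRiemannianBundle (𝓡∂ 2) ∞ E2 (fun x : M => TangentSpace (𝓡∂ 2) x)]
  [IsRiemannianManifold (𝓡∂ 2) M]
  {e : OpenPartialHomeomorph M HP}

/-- the length of a curve given in coordinates is at least the increment of a linear function whose
norm is at most one along the curve -/
theorem length_ge (he : e ∈ IsManifold.maximalAtlas (𝓡∂ 2) ∞ M) {c : ℝ → E2} {a b : ℝ}
    (hab : a < b) (hc : ContDiffOn ℝ 1 c (Icc a b))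
    (hct : ∀ t ∈ Icc a b, c t ∈ (e.extend (𝓡∂ 2)).target) (L : E2 →L[ℝ] ℝ)
    (hL : ∀ t ∈ Icc a b, ∀ v, |L v| ≤ ‖dv e (c t) v‖) :
    ENNReal.ofReal |L (c b - c a)|
      ≤ pathELength (𝓡∂ 2) ((e.extend (𝓡∂ 2)).symm ∘ c) a b := by
  set γ := (e.extend (𝓡∂ 2)).symm ∘ c with hγ
  have hf : ContDiffOn ℝ 1 (fun t => L (c t)) (Icc a b) := L.contDiff.comp_contDiffOn hc
  have h1 : ‖L (c b) - L (c a)‖ₑ ≤ ∫⁻ t in Icc a b, ‖derivWithin (fun t => L (c t)) (Icc a b) t‖ₑ :=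
    enorm_sub_le_lintegral_derivWithin_Icc_of_contDiffOn_Icc hf hab.le
  have h2 : ENNReal.ofReal |L (c b - c a)| = ‖L (c b) - L (c a)‖ₑ := by
    rw [map_sub, ← Real.norm_eq_abs, ofReal_norm]
  rw [h2]
  refine h1.trans ?_
  rw [pathELength_eq_lintegral_mfderivWithin_Icc]
  apply setLIntegral_mono' measurableSet_Icc (fun t ht ↦ ?_)
  have hcd : DifferentiableWithinAt ℝ c (Icc a b) t :=
    (hc.differentiableOn one_ne_zero) t ht
  have hcm : MDifferentiableWithinAt 𝓘(ℝ, ℝ) 𝓘(ℝ, E2) c (Icc a b) t :=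
    hcd.mdifferentiableWithinAt
  have hu : UniqueMDiffWithinAt 𝓘(ℝ, ℝ) (Icc a b) t := by
    rw [uniqueMDiffWithinAt_iff_uniqueDiffWithinAt]
    exact uniqueDiffOn_Icc hab t ht
  have h3 : mfderivWithin 𝓘(ℝ, ℝ) (𝓡∂ 2) γ (Icc a b) t =
      (mfderivWithin 𝓘(ℝ, E2) (𝓡∂ 2) (e.extend (𝓡∂ 2)).symm (range (𝓡∂ 2)) (c t)) ∘L
        (mfderivWithin 𝓘(ℝ, ℝ) 𝓘(ℝ, E2) c (Icc a b) t) := by
    apply mfderivWithin_comp
    · have h1 : MDifferentiableWithinAt 𝓘(ℝ, E2) (𝓡∂ 2) (e.extend (𝓡∂ 2)).symm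
          (e.extend (𝓡∂ 2)).target (c t) := ((cmd_symm he) _ (hct t ht)).mdifferentiableWithinAt (by simp)
      exact h1.mono_of_mem_nhdsWithin (target_mem_nhdsWithin (hct t ht))
    · exact hcm
    · exact fun s hs => e.extend_target_subset_range (hct s hs)
    · exact hu
  have h4 : (mfderivWithin 𝓘(ℝ, ℝ) 𝓘(ℝ, E2) c (Icc a b) t (1 : ℝ) : E2)
      = derivWithin c (Icc a b) t := by
    rw [← fderivWithin_derivWithin, mfderivWithin_eq_fderivWithin]
    rfl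
  have h5 : mfderivWithin 𝓘(ℝ, ℝ) (𝓡∂ 2) γ (Icc a b) t (1 : ℝ)
      = dv e (c t) (derivWithin c (Icc a b) t) := by
    rw [h3]
    show (mfderivWithin 𝓘(ℝ, E2) (𝓡∂ 2) (e.extend (𝓡∂ 2)).symm (range (𝓡∂ 2)) (c t))
      (mfderivWithin 𝓘(ℝ, ℝ) 𝓘(ℝ, E2) c (Icc a b) t (1 : ℝ)) = _
    rw [h4]
    rfl
  have h6 : derivWithin (fun t => L (c t)) (Icc a b) t = L (derivWithin c (Icc a b) t) := by
    have := (L.hasFDerivAt.comp_hasDerivWithinAt t hcd.hasDerivWithinAt)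
    exact this.derivWithin (uniqueDiffOn_Icc hab t ht)
  have h7 : ‖mfderivWithin 𝓘(ℝ, ℝ) (𝓡∂ 2) γ (Icc a b) t (1 : ℝ)‖ₑ
      = ‖dv e (c t) (derivWithin c (Icc a b) t)‖ₑ := by
    rw [h5]
  have h8 : ‖derivWithin (fun t => L (c t)) (Icc a b) t‖ₑ
      ≤ ‖dv e (c t) (derivWithin c (Icc a b) t)‖ₑ := by
    rw [h6, ← ofReal_norm, ← ofReal_norm, Real.norm_eq_abs]
    exact ENNReal.ofReal_le_ofReal (hL t ht _)
  exact h8.trans h7.symm.le

/-- the smallest eigenvalue of the gram matrix is at least `det / trace` -/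
theorem norm_dv_ge (he : e ∈ IsManifold.maximalAtlas (𝓡∂ 2) ∞ M) {z : E2}
    (hz : z ∈ (e.extend (𝓡∂ 2)).target) (v : E2) :
    dg e z / (g0 e z + g2 e z) * ‖v‖ ^ 2 ≤ ‖dv e z v‖ ^ 2 := by
  have h0 := g0_pos he hz
  have hd := dg_pos he hz
  have h2 : 0 < g2 e z := by
    have : 0 < g0 e z * g2 e z := by
      unfold dg at hd
      nlinarith [mul_self_nonneg (g1 e z)]
    exact (pos_iff_pos_of_mul_pos this).1 h0
  have hv : v = v 0 • bv 0 + v 1 • bv 1 := by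
    conv_lhs => rw [← pt_self v]
    rw [pt_eq]
  have hn : ‖v‖ ^ 2 = v 0 ^ 2 + v 1 ^ 2 := by
    rw [EuclideanSpace.norm_sq_eq]
    simp [Fin.sum_univ_two]
  have key : ‖dv e z v‖ ^ 2 = v 0 ^ 2 * g0 e z + 2 * (v 0 * v 1) * g1 e z + v 1 ^ 2 * g2 e z := by
    conv_lhs => rw [hv]
    exact norm_dv_sq e z (v 0) (v 1)
  rw [key, hn]
  set a := g0 e z
  set b := g1 e z
  set c := g2 e z
  set x := v 0
  set y := v 1
  have hac : 0 < a + c := by linarith
  rw [div_mul_eq_mul_div, div_le_iff₀ hac]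
  have hdd : dg e z = a * c - b * b := rfl
  rw [hdd]
  -- (a + c) (a x² + 2 b x y + c y²) - (a c - b²) (x² + y²)
  --   = (a x + b y)² + (b x + c y)²
  nlinarith [sq_nonneg (a * x + b * y), sq_nonneg (b * x + c * y)]

/-- near a point the norms of the tangent spaces are almost constant -/
theorem norm_dv_near (he : e ∈ IsManifold.maximalAtlas (𝓡∂ 2) ∞ M) {z0 : E2}
    (hz0 : z0 ∈ (e.extend (𝓡∂ 2)).target) {η : ℝ} (hη : 0 < η) :
    ∀ᶠ w in 𝓝[(e.extend (𝓡∂ 2)).target] z0, ∀ v, (1 - η) * ‖dv e z0 v‖ ≤ ‖dv e w v‖ := by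
  rcases le_or_gt 1 η with h1 | h1
  · filter_upwards with w v
    have : (1 - η) * ‖dv e z0 v‖ ≤ 0 := mul_nonpos_of_nonpos_of_nonneg (by linarith) (norm_nonneg _)
    exact this.trans (norm_nonneg _)
  have h0 := g0_pos he hz0
  have hd := dg_pos he hz0
  have h2 : 0 < g2 e z0 := by
    have : 0 < g0 e z0 * g2 e z0 := by
      unfold dg at hd
      nlinarith [mul_self_nonneg (g1 e z0)]
    exact (pos_iff_pos_of_mul_pos this).1 h0
  set l := dg e z0 / (g0 e z0 + g2 e z0) with hl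
  have hlp : 0 < l := by positivity
  set δ := η * l / 4 with hδ
  have hδp : 0 < δ := by positivity
  have c0 := ((continuousOn_g0 he) z0 hz0)
  have c1 := ((continuousOn_g1 he) z0 hz0)
  have c2 : ContinuousWithinAt (g2 e) (e.extend (𝓡∂ 2)).target z0 :=
    (continuousOn_inner_dv he (bv 1) (bv 1)) z0 hz0
  have e0 : ∀ᶠ w in 𝓝[(e.extend (𝓡∂ 2)).target] z0, |g0 e w - g0 e z0| < δ := by
    have := Metric.tendsto_nhds.1 c0 δ hδp
    simpa [Real.dist_eq] using this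
  have e1 : ∀ᶠ w in 𝓝[(e.extend (𝓡∂ 2)).target] z0, |g1 e w - g1 e z0| < δ := by
    have := Metric.tendsto_nhds.1 c1 δ hδp
    simpa [Real.dist_eq] using this
  have e2 : ∀ᶠ w in 𝓝[(e.extend (𝓡∂ 2)).target] z0, |g2 e w - g2 e z0| < δ := by
    have := Metric.tendsto_nhds.1 c2 δ hδp
    simpa [Real.dist_eq] using this
  filter_upwards [e0, e1, e2] with w h3 h4 h5 v
  have hv : v = v 0 • bv 0 + v 1 • bv 1 := by
    conv_lhs => rw [← pt_self v]
    rw [pt_eq]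
  have hn : ‖v‖ ^ 2 = v 0 ^ 2 + v 1 ^ 2 := by
    rw [EuclideanSpace.norm_sq_eq]
    simp [Fin.sum_univ_two]
  have key : ∀ z, ‖dv e z v‖ ^ 2 = v 0 ^ 2 * g0 e z + 2 * (v 0 * v 1) * g1 e z + v 1 ^ 2 * g2 e z := by
    intro z
    conv_lhs => rw [hv]
    exact norm_dv_sq e z (v 0) (v 1)
  have hlow := norm_dv_ge he hz0 v
  rw [← hl] at hlow
  set x := v 0
  set y := v 1
  have hxy : |2 * (x * y)| ≤ x ^ 2 + y ^ 2 := by
    rw [abs_le]
    constructor <;> nlinarith [sq_nonneg (x + y), sq_nonneg (x - y)]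
  have h6 : ‖dv e z0 v‖ ^ 2 - 2 * δ * ‖v‖ ^ 2 ≤ ‖dv e w v‖ ^ 2 := by
    rw [key, key, hn]
    have a1 : x ^ 2 * (g0 e z0 - g0 e w) ≤ x ^ 2 * δ := by
      apply mul_le_mul_of_nonneg_left _ (sq_nonneg x)
      have := (abs_lt.1 h3).1
      linarith
    have a2 : y ^ 2 * (g2 e z0 - g2 e w) ≤ y ^ 2 * δ := by
      apply mul_le_mul_of_nonneg_left _ (sq_nonneg y)
      have := (abs_lt.1 h5).1
      linarith
    have a3 : 2 * (x * y) * (g1 e z0 - g1 e w) ≤ (x ^ 2 + y ^ 2) * δ := by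
      calc 2 * (x * y) * (g1 e z0 - g1 e w) ≤ |2 * (x * y) * (g1 e z0 - g1 e w)| := le_abs_self _
        _ = |2 * (x * y)| * |g1 e w - g1 e z0| := by rw [abs_mul, abs_sub_comm (g1 e z0)]
        _ ≤ (x ^ 2 + y ^ 2) * δ := by
          apply mul_le_mul hxy h4.le (abs_nonneg _) (by positivity)
    nlinarith [a1, a2, a3]
  have h7 : (1 - η) ^ 2 * ‖dv e z0 v‖ ^ 2 ≤ ‖dv e w v‖ ^ 2 := by
    refine le_trans ?_ h6
    have h8 : 2 * δ * ‖v‖ ^ 2 ≤ η / 2 * ‖dv e z0 v‖ ^ 2 := by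
      have : 2 * δ * ‖v‖ ^ 2 = η / 2 * (l * ‖v‖ ^ 2) := by rw [hδ]; ring
      rw [this]
      apply mul_le_mul_of_nonneg_left hlow (by positivity)
    have h9 : (1 - η) ^ 2 ≤ 1 - η / 2 := by nlinarith
    nlinarith [mul_le_mul_of_nonneg_right h9 (sq_nonneg ‖dv e z0 v‖)]
  have h10 : ((1 - η) * ‖dv e z0 v‖) ^ 2 ≤ ‖dv e w v‖ ^ 2 := by rw [mul_pow]; exact h7
  exact le_of_sq_le_sq h10 (norm_nonneg _)

/-- linear functional that computes the norm of one tangent vector -/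
theorem exists_dual (e : OpenPartialHomeomorph M HP) (z0 v0 : E2) : ∃ L : E2 →L[ℝ] ℝ,
    L v0 = ‖dv e z0 v0‖ ∧ ∀ v, |L v| ≤ ‖dv e z0 v‖ := by
  rcases eq_or_ne (dv e z0 v0) 0 with h | h
  · refine ⟨0, ?_, fun v => ?_⟩
    · rw [h, norm_zero]
      rfl
    · show |(0 : ℝ)| ≤ _
      rw [abs_zero]
      exact norm_nonneg _
  · let L0 : E2 →ₗ[ℝ] ℝ :=
      { toFun := fun v => ‖dv e z0 v0‖⁻¹ * inner ℝ (dv e z0 v0) (dv e z0 v)
        map_add' := fun v w => by rw [dv_add, inner_add_right]; ring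
        map_smul' := fun c v => by
          rw [dv_smul, real_inner_smul_right, RingHom.id_apply, smul_eq_mul]; ring }
    have hpos : 0 < ‖dv e z0 v0‖ := norm_pos_iff.2 h
    refine ⟨LinearMap.toContinuousLinearMap L0, ?_, fun v => ?_⟩
    · show ‖dv e z0 v0‖⁻¹ * inner ℝ (dv e z0 v0) (dv e z0 v0) = _
      rw [real_inner_self_eq_norm_sq]
      field_simp
    · show |‖dv e z0 v0‖⁻¹ * inner ℝ (dv e z0 v0) (dv e z0 v)| ≤ _
      rw [abs_mul, abs_of_pos (inv_pos.2 hpos), inv_mul_le_iff₀ hpos]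
      exact abs_real_inner_le_norm _ _

/-- lower bound of the distance in a small chart -/
theorem loc_lower (he : e ∈ IsManifold.maximalAtlas (𝓡∂ 2) ∞ M) {z0 : E2}
    (hz0 : z0 ∈ (e.extend (𝓡∂ 2)).target) {η : ℝ} (hη : 0 < η) :
    ∃ ρ > 0, (Metric.ball z0 ρ ∩ {z : E2 | 0 ≤ z 0} ⊆ (e.extend (𝓡∂ 2)).target) ∧
      ∀ z ∈ Metric.ball z0 ρ ∩ {z : E2 | 0 ≤ z 0}, ∀ z' ∈ Metric.ball z0 ρ ∩ {z : E2 | 0 ≤ z 0},
      (1 - η) * ‖dv e z0 (z' - z)‖
        ≤ dist ((e.extend (𝓡∂ 2)).symm z) ((e.extend (𝓡∂ 2)).symm z') := by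
  -- a ball on which the norms are controlled
  obtain ⟨r, hr, K, hsub, hlip⟩ := exists_good_ball he hz0
  have hmem : (e.extend (𝓡∂ 2)).target ∈ 𝓝[{z : E2 | 0 ≤ z 0}] z0 := by
    have := target_mem_nhdsWithin hz0
    rwa [range_eq] at this
  rcases le_or_gt 1 η with hη1 | hη1
  · refine ⟨r, hr, hsub, fun z _ z' _ => ?_⟩
    have : (1 - η) * ‖dv e z0 (z' - z)‖ ≤ 0 :=
      mul_nonpos_of_nonpos_of_nonneg (by linarith) (norm_nonneg _)
    exact this.trans dist_nonneg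
  have hnear := norm_dv_near he hz0 (η := η / 2) (by positivity)
  obtain ⟨r1, hr1, hr1'⟩ := Metric.mem_nhdsWithin_iff.1 hnear
  set ρ2 := min r r1 / 2 with hρ2
  have hρ2p : 0 < ρ2 := by positivity
  have hin : ∀ z, dist z z0 ≤ ρ2 → 0 ≤ z 0 → z ∈ (e.extend (𝓡∂ 2)).target ∧
      ∀ v, (1 - η / 2) * ‖dv e z0 v‖ ≤ ‖dv e z v‖ := by
    intro z hz h0
    have h1 : z ∈ Metric.ball z0 r := by
      rw [Metric.mem_ball]
      have := min_le_left r r1
      linarith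
    have h2 : z ∈ Metric.ball z0 r1 := by
      rw [Metric.mem_ball]
      have := min_le_right r r1
      linarith
    have h3 := hsub ⟨h1, h0⟩
    exact ⟨h3, hr1' ⟨h2, h3⟩⟩
  -- constants
  set C2 := ‖dv e z0 (bv 0)‖ + ‖dv e z0 (bv 1)‖ + 1 with hC2
  have hC2p : 0 < C2 := by positivity
  have hup : ∀ v, ‖dv e z0 v‖ ≤ C2 * ‖v‖ := by
    intro v
    have := norm_dv_le (e := e) z0 v
    nlinarith [norm_nonneg v]
  have h0 := g0_pos he hz0
  have hd := dg_pos he hz0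
  have h2 : 0 < g2 e z0 := by
    have : 0 < g0 e z0 * g2 e z0 := by
      unfold dg at hd
      nlinarith [mul_self_nonneg (g1 e z0)]
    exact (pos_iff_pos_of_mul_pos this).1 h0
  set l := dg e z0 / (g0 e z0 + g2 e z0) with hl
  have hlp : 0 < l := by positivity
  set c1 := √l with hc1
  have hc1p : 0 < c1 := Real.sqrt_pos.2 hlp
  have hdown : ∀ v, c1 * ‖v‖ ≤ ‖dv e z0 v‖ := by
    intro v
    have := norm_dv_ge he hz0 v
    apply le_of_sq_le_sq _ (norm_nonneg _)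
    rw [mul_pow, hc1, Real.sq_sqrt hlp.le]
    exact this
  set ρ := ρ2 / (2 * (1 + 2 * C2 / c1)) with hρ
  have hden : 0 < 1 + 2 * C2 / c1 := by positivity
  have hρp : 0 < ρ := by positivity
  have hρk : ρ * (1 + 2 * C2 / c1) = ρ2 / 2 := by
    rw [hρ]; field_simp
  have hρle : ρ ≤ ρ2 / 2 := by
    rw [← hρk]
    have : 0 ≤ 2 * C2 / c1 := by positivity
    nlinarith
  refine ⟨ρ, hρp, ?_, ?_⟩
  · rintro z ⟨hz, hz0'⟩
    rw [Metric.mem_ball] at hz
    exact (hin z (by linarith) hz0').1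
  rintro z ⟨hz, hzn⟩ z' ⟨hz', hzn'⟩
  rw [Metric.mem_ball] at hz hz'
  have hzt := (hin z (by linarith) hzn).1
  have hzt' := (hin z' (by linarith) hzn').1
  by_contra hcon
  push Not at hcon
  set R := (1 - η) * ‖dv e z0 (z' - z)‖ with hR
  -- a short path
  have hlt : riemannianEDist (𝓡∂ 2) ((e.extend (𝓡∂ 2)).symm z) ((e.extend (𝓡∂ 2)).symm z')
      < ENNReal.ofReal R := by
    rw [← IsRiemannianManifold.out (I := 𝓡∂ 2), edist_dist]
    exact (ENNReal.ofReal_lt_ofReal_iff_of_nonneg dist_nonneg).2 hcon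
  obtain ⟨γ, hγ0, hγ1, hγs, hγl, -⟩ :=
    exists_lt_locally_constant_of_riemannianEDist_lt hlt zero_lt_one
  -- the closed and the open neighbourhood
  set Kc : Set E2 := Metric.closedBall z0 ρ2 ∩ {z : E2 | 0 ≤ z 0} with hKc
  have hKcc : IsCompact Kc := by
    apply (isCompact_closedBall _ _).inter_right
    have : Continuous (fun z : E2 => z 0) := by fun_prop
    exact isClosed_le continuous_const this
  have hKct : Kc ⊆ (e.extend (𝓡∂ 2)).target := fun w hw => (hin w hw.1 hw.2).1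
  set F : Set M := (e.extend (𝓡∂ 2)).symm '' Kc with hF
  have hFc : IsClosed F := by
    apply IsCompact.isClosed
    exact hKcc.image_of_continuousOn (e.continuousOn_extend_symm.mono hKct)
  have hFs : ∀ p ∈ F, p ∈ e.source ∧ e.extend (𝓡∂ 2) p ∈ Kc := by
    rintro p ⟨w, hw, rfl⟩
    refine ⟨symm_mem_source (hKct hw), ?_⟩
    rw [(e.extend (𝓡∂ 2)).right_inv (hKct hw)]
    exact hw
  set V : Set M := {p ∈ e.source | e.extend (𝓡∂ 2) p ∈ Metric.ball z0 ρ2} with hV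
  have hVo : IsOpen V := by
    have h := e.isOpen_extend_preimage' (I := 𝓡∂ 2) (Metric.isOpen_ball (x := z0) (ε := ρ2))
    have : V = (e.extend (𝓡∂ 2)).source ∩ (e.extend (𝓡∂ 2)) ⁻¹' (Metric.ball z0 ρ2) := by
      rw [OpenPartialHomeomorph.extend_source]
      rfl
    rw [this]
    exact h
  have hVF : V ⊆ F := by
    rintro p ⟨hp1, hp2⟩
    exact ⟨e.extend (𝓡∂ 2) p, ⟨Metric.ball_subset_closedBall hp2, ext_nonneg _ _⟩,
      ext_left_inv hp1⟩
  -- increments of the coordinates are controlled by the length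
  have hkey : ∀ t, 0 ≤ t → t ≤ 1 → (∀ s ∈ Icc (0 : ℝ) t, γ s ∈ F) →
      (1 - η / 2) * ‖dv e z0 (e.extend (𝓡∂ 2) (γ t) - z)‖ < R := by
    intro t ht0 ht1 hts
    have hRpos : 0 < R := lt_of_le_of_lt dist_nonneg hcon
    rcases ht0.eq_or_lt with rfl | htp
    · rw [hγ0, (e.extend (𝓡∂ 2)).right_inv hzt, sub_self]
      have : dv e z0 (0 : E2) = 0 := by
        unfold dv
        exact map_zero _
      rw [this, norm_zero, mul_zero]
      exact hRpos
    set c : ℝ → E2 := fun s => e.extend (𝓡∂ 2) (γ s) with hc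
    have hcs : ContDiffOn ℝ 1 c (Icc 0 t) := by
      rw [← contMDiffOn_iff_contDiffOn]
      have h1 : ContMDiffOn (𝓡∂ 2) 𝓘(ℝ, E2) 1 (e.extend (𝓡∂ 2)) e.source :=
        (e.contMDiffOn_extend he).of_le (by simp)
      exact h1.comp hγs.contMDiffOn (fun s hs => (hFs _ (hts s hs)).1)
    obtain ⟨L, hL1, hL2⟩ := exists_dual (M := M) e z0 (e.extend (𝓡∂ 2) (γ t) - z)
    have hlen := length_ge he htp hcs (fun s hs => hKct (hFs _ (hts s hs)).2) ((1 - η / 2) • L)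
      (fun s hs v => by
        have h1 := (hin (c s) (hFs _ (hts s hs)).2.1 (hFs _ (hts s hs)).2.2).2 v
        have h2 : |((1 - η / 2) • L) v| = (1 - η / 2) * |L v| := by
          show |(1 - η / 2) • L v| = _
          rw [smul_eq_mul, abs_mul, abs_of_pos (by linarith)]
        rw [h2]
        refine le_trans ?_ h1
        exact mul_le_mul_of_nonneg_left (hL2 v) (by linarith))
    have hcong : pathELength (𝓡∂ 2) ((e.extend (𝓡∂ 2)).symm ∘ c) 0 t = pathELength (𝓡∂ 2) γ 0 t := by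
      apply pathELength_congr
      intro s hs
      exact ext_left_inv (hFs _ (hts s hs)).1
    rw [hcong] at hlen
    have hmono : pathELength (𝓡∂ 2) γ 0 t ≤ pathELength (𝓡∂ 2) γ 0 1 :=
      pathELength_mono le_rfl ht1
    have hfin := lt_of_le_of_lt (hlen.trans hmono) hγl
    have h3 := (ENNReal.ofReal_lt_ofReal_iff hRpos).1 hfin
    have h4 : |((1 - η / 2) • L) (c t - c 0)|
        = (1 - η / 2) * ‖dv e z0 (e.extend (𝓡∂ 2) (γ t) - z)‖ := by
      have h5 : c 0 = z := by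
        show e.extend (𝓡∂ 2) (γ 0) = z
        rw [hγ0, (e.extend (𝓡∂ 2)).right_inv hzt]
      show |(1 - η / 2) • L (c t - c 0)| = _
      rw [h5]
      show |(1 - η / 2) • L (e.extend (𝓡∂ 2) (γ t) - z)| = _
      rw [hL1, smul_eq_mul, abs_mul, abs_of_pos (by linarith), abs_of_nonneg (norm_nonneg _)]
    rw [h4] at h3
    exact h3
  have hR2 : R ≤ (1 - η) * (C2 * (2 * ρ)) := by
    rw [hR]
    apply mul_le_mul_of_nonneg_left _ (by linarith)
    refine (hup _).trans ?_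
    apply mul_le_mul_of_nonneg_left _ hC2p.le
    have : ‖z' - z‖ ≤ dist z' z0 + dist z z0 := by
      rw [← dist_eq_norm]
      exact dist_triangle_right _ _ _
    linarith
  -- the path stays in `F`
  have hstay : Icc (0 : ℝ) 1 ⊆ γ ⁻¹' F := by
    have A_closed : IsClosed (γ ⁻¹' F ∩ Icc 0 1) :=
      (hFc.preimage hγs.continuous).inter isClosed_Icc
    have zero_mem : (0 : ℝ) ∈ γ ⁻¹' F := by
      show γ 0 ∈ F
      rw [hγ0]
      exact ⟨z, ⟨by rw [Metric.mem_closedBall]; linarith, hzn⟩, rfl⟩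
    apply A_closed.Icc_subset_of_forall_mem_nhdsGT_of_Icc_subset zero_mem
    rintro t₁ ⟨ht₁0, ht₁1⟩ t₁_mem
    suffices γ t₁ ∈ V from
      hγs.continuous.continuousWithinAt <| mem_of_superset (hVo.mem_nhds this) hVF
    have h1 := hkey t₁ ht₁0 ht₁1.le (fun s hs => t₁_mem hs)
    refine ⟨(hFs _ (t₁_mem (right_mem_Icc.2 ht₁0))).1, ?_⟩
    set v := e.extend (𝓡∂ 2) (γ t₁) - z with hv
    have h3 : c1 * ‖v‖ ≤ 2 * (C2 * ρ) := by
      have h4 : (1 - η / 2) * (c1 * ‖v‖) ≤ (1 - η / 2) * (2 * (C2 * ρ)) := by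
        have a1 : (1 - η / 2) * (c1 * ‖v‖) ≤ (1 - η / 2) * ‖dv e z0 v‖ :=
          mul_le_mul_of_nonneg_left (hdown v) (by linarith)
        have a2 : (1 - η) * (C2 * (2 * ρ)) ≤ (1 - η / 2) * (2 * (C2 * ρ)) := by
          have : 0 ≤ C2 * ρ := by positivity
          nlinarith
        linarith
      exact le_of_mul_le_mul_left h4 (by linarith)
    have h5 : ‖v‖ ≤ 2 * C2 / c1 * ρ := by
      rw [div_mul_eq_mul_div, le_div_iff₀ hc1p]
      linarith
    rw [Metric.mem_ball]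
    have h6 : dist (e.extend (𝓡∂ 2) (γ t₁)) z0 ≤ ‖v‖ + dist z z0 := by
      rw [hv, ← dist_eq_norm]
      exact dist_triangle _ _ _
    nlinarith
  have hfinal := hkey 1 zero_le_one le_rfl hstay
  rw [hγ1, (e.extend (𝓡∂ 2)).right_inv hzt', hR] at hfinal
  have : (1 - η) * ‖dv e z0 (z' - z)‖ ≤ (1 - η / 2) * ‖dv e z0 (z' - z)‖ := by
    apply mul_le_mul_of_nonneg_right _ (norm_nonneg _)
    linarith
  linarith

end Pool.Agent.FPM
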