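import Mathlib
import Pool.Agent.FPM.LOC

/-
COA (helper66): lower bound of the distance to the boundary in a chart.
-/

open MeasureTheory Set Filter Measure Manifold Bundle
open scoped ContDiff Topology ENNReal NNReal

set_option linter.unusedSectionVars false

noncomputable section

namespace Pool.Agent.FPM

open Pool.Agent.H74.FAC Pool.Agent.EWD

variable {M : Type} [MetricSpace M] [ChartedSpace HP M] [IsManifold (𝓡∂ 2) ∞ M] [CompactSpace M]
  [RiemannianBundle (fun x : M => TangentSpace (𝓡∂ 2) x)]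
  [IsContMDiffRiemannianBundle (𝓡∂ 2) ∞ E2 (fun x : M => TangentSpace (𝓡∂ 2) x)]
  [IsRiemannianManifold (𝓡∂ 2) M]
  {e : OpenPartialHomeomorph M HP}

/-- `1 / |dz₀|`, the factor between the first coordinate and the distance to the boundary -/
def qq0 (e : OpenPartialHomeomorph M HP) (z : E2) : ℝ := √(dg e z / g2 e z)

theorem g2_pos (he : e ∈ IsManifold.maximalAtlas (𝓡∂ 2) ∞ M)
    {z : E2} (hz : z ∈ (e.extend (𝓡∂ 2)).target) : 0 < g2 e z := by
  have h0 := g0_pos he hz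
  have hd := dg_pos he hz
  have : 0 < g0 e z * g2 e z := by
    unfold dg at hd
    nlinarith [mul_self_nonneg (g1 e z)]
  exact (pos_iff_pos_of_mul_pos this).1 h0

theorem continuousOn_g2 (he : e ∈ IsManifold.maximalAtlas (𝓡∂ 2) ∞ M) :
    ContinuousOn (g2 e) (e.extend (𝓡∂ 2)).target :=
  continuousOn_inner_dv he _ _

theorem continuousOn_qq0 (he : e ∈ IsManifold.maximalAtlas (𝓡∂ 2) ∞ M) :
    ContinuousOn (qq0 e) (e.extend (𝓡∂ 2)).target :=
  ((continuousOn_dg he).div (continuousOn_g2 he) fun _ hz => (g2_pos he hz).ne').sqrt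

theorem qq0_pos (he : e ∈ IsManifold.maximalAtlas (𝓡∂ 2) ∞ M)
    {z : E2} (hz : z ∈ (e.extend (𝓡∂ 2)).target) : 0 < qq0 e z :=
  Real.sqrt_pos.2 (div_pos (dg_pos he hz) (g2_pos he hz))

theorem norm_dv_ge_fst (he : e ∈ IsManifold.maximalAtlas (𝓡∂ 2) ∞ M) {z : E2}
    (hz : z ∈ (e.extend (𝓡∂ 2)).target) (v : E2) : |v 0| * qq0 e z ≤ ‖dv e z v‖ := by
  have h2 := g2_pos he hz
  have hd := dg_pos he hz
  apply le_of_sq_le_sq _ (norm_nonneg _)
  have hv : v = v 0 • bv 0 + v 1 • bv 1 := by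
    conv_lhs => rw [← pt_self v]
    rw [pt_eq]
  have key : ‖dv e z v‖ ^ 2 = v 0 ^ 2 * g0 e z + 2 * (v 0 * v 1) * g1 e z + v 1 ^ 2 * g2 e z := by
    conv_lhs => rw [hv]
    exact norm_dv_sq e z (v 0) (v 1)
  rw [mul_pow, sq_abs, key, qq0, Real.sq_sqrt (div_nonneg hd.le h2.le), mul_div_assoc',
    div_le_iff₀ h2]
  have hdd : dg e z = g0 e z * g2 e z - g1 e z * g1 e z := rfl
  rw [hdd]
  nlinarith [sq_nonneg (v 0 * g1 e z + v 1 * g2 e z)]

variable {φ : S1 → M} (hφ : IsometricFilling φ)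

include hφ in
theorem zeta_local (he : e ∈ IsManifold.maximalAtlas (𝓡∂ 2) ∞ M) {z0 : E2}
    (hz0 : z0 ∈ (e.extend (𝓡∂ 2)).target) (h00 : z0 0 = 0) {η : ℝ} (hη : 0 < η) (hη1 : η < 1) :
    ∀ᶠ z in 𝓝[(e.extend (𝓡∂ 2)).target] z0,
      (1 - η) * (z 0 * qq0 e z) ≤ Metric.infDist ((e.extend (𝓡∂ 2)).symm z) (range φ) := by
  obtain ⟨ρ, hρ, hρt, hρl⟩ := loc_lower he hz0 (η := η / 2) (by positivity)
  set x0 := (e.extend (𝓡∂ 2)).symm z0 with hx0
  have hx0s : x0 ∈ e.source := symm_mem_source hz0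
  have hex0 : e.extend (𝓡∂ 2) x0 = z0 := (e.extend (𝓡∂ 2)).right_inv hz0
  set V : Set M := {p ∈ e.source | e.extend (𝓡∂ 2) p ∈ Metric.ball z0 ρ} with hV
  have hVo : IsOpen V := by
    have h := e.isOpen_extend_preimage' (I := 𝓡∂ 2) (Metric.isOpen_ball (x := z0) (ε := ρ))
    have : V = (e.extend (𝓡∂ 2)).source ∩ (e.extend (𝓡∂ 2)) ⁻¹' (Metric.ball z0 ρ) := by
      rw [OpenPartialHomeomorph.extend_source]
      rfl
    rw [this]
    exact h
  have hxV : x0 ∈ V := ⟨hx0s, by rw [hex0]; exact Metric.mem_ball_self hρ⟩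
  obtain ⟨r0, hr0, hr0V⟩ := Metric.isOpen_iff.1 hVo x0 hxV
  have hcs : ContinuousWithinAt (e.extend (𝓡∂ 2)).symm (e.extend (𝓡∂ 2)).target z0 :=
    e.continuousOn_extend_symm z0 hz0
  have hcq : ContinuousWithinAt (qq0 e) (e.extend (𝓡∂ 2)).target z0 := continuousOn_qq0 he z0 hz0
  have hc0 : Continuous (fun z : E2 => z 0) := by fun_prop
  have hq0 : 0 < qq0 e z0 := qq0_pos he hz0
  have e1 : ∀ᶠ z in 𝓝[(e.extend (𝓡∂ 2)).target] z0, z ∈ Metric.ball z0 ρ :=
    nhdsWithin_le_nhds (Metric.ball_mem_nhds _ hρ)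
  have e2 : ∀ᶠ z in 𝓝[(e.extend (𝓡∂ 2)).target] z0,
      dist ((e.extend (𝓡∂ 2)).symm z) x0 < r0 / 2 :=
    Metric.tendsto_nhds.1 hcs _ (by positivity)
  have e3 : ∀ᶠ z in 𝓝[(e.extend (𝓡∂ 2)).target] z0, z 0 * qq0 e z < r0 / 2 := by
    have : Tendsto (fun z : E2 => z 0 * qq0 e z) (𝓝[(e.extend (𝓡∂ 2)).target] z0)
        (𝓝 (z0 0 * qq0 e z0)) := (hc0.continuousWithinAt (s := (e.extend (𝓡∂ 2)).target)).mul hcq
    rw [h00, zero_mul] at this
    exact this.eventually_lt_const (by positivity)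
  have e4 : ∀ᶠ z in 𝓝[(e.extend (𝓡∂ 2)).target] z0, (1 - η) * qq0 e z < (1 - η / 2) * qq0 e z0 := by
    have : Tendsto (fun z : E2 => (1 - η) * qq0 e z) (𝓝[(e.extend (𝓡∂ 2)).target] z0)
        (𝓝 ((1 - η) * qq0 e z0)) := hcq.const_mul _
    apply this.eventually_lt_const
    nlinarith
  filter_upwards [e1, e2, e3, e4, self_mem_nhdsWithin] with z h1 h2 h3 h4 hzt
  have hz0n : 0 ≤ z 0 := by
    have := e.extend_target_subset_range (I := 𝓡∂ 2) hzt
    rw [range_eq] at this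
    exact this
  have hne : (range φ).Nonempty := ⟨φ 0, mem_range_self _⟩
  rw [Metric.le_infDist hne]
  rintro y ⟨t, rfl⟩
  rcases lt_or_ge (dist ((e.extend (𝓡∂ 2)).symm z) (φ t)) (r0 / 2) with h5 | h5
  · have hy : φ t ∈ V := by
      apply hr0V
      rw [Metric.mem_ball]
      have := dist_triangle_left (φ t) x0 ((e.extend (𝓡∂ 2)).symm z)
      linarith
    have hyb : φ t ∈ (𝓡∂ 2).boundary M := by rw [← hφ.range_eq]; exact mem_range_self _
    rw [boundary_iff he hy.1] at hyb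
    have h6 := hρl z ⟨h1, hz0n⟩ (e.extend (𝓡∂ 2) (φ t)) ⟨hy.2, ext_nonneg _ _⟩
    rw [ext_left_inv hy.1] at h6
    refine le_trans ?_ h6
    have h7 := norm_dv_ge_fst he hz0 (e.extend (𝓡∂ 2) (φ t) - z)
    have h8 : |(e.extend (𝓡∂ 2) (φ t) - z) 0| = z 0 := by
      show |(e.extend (𝓡∂ 2) (φ t)) 0 - z 0| = z 0
      rw [hyb, zero_sub, abs_neg, abs_of_nonneg hz0n]
    rw [h8] at h7
    calc (1 - η) * (z 0 * qq0 e z) = z 0 * ((1 - η) * qq0 e z) := by ring
      _ ≤ z 0 * ((1 - η / 2) * qq0 e z0) := mul_le_mul_of_nonneg_left h4.le hz0n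
      _ = (1 - η / 2) * (z 0 * qq0 e z0) := by ring
      _ ≤ _ := mul_le_mul_of_nonneg_left h7 (by linarith)
  · have hnn : 0 ≤ z 0 * qq0 e z := mul_nonneg hz0n (Real.sqrt_nonneg _)
    nlinarith

/-- the closed half ball of a patch -/
def Kc (P : Patch M) : Set E2 := Metric.closedBall P.c P.r ∩ {z : E2 | 0 ≤ z 0}

theorem Kc_compact (P : Patch M) : IsCompact (Kc P) := by
  apply (isCompact_closedBall _ _).inter_right
  have : Continuous (fun z : E2 => z 0) := by fun_prop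
  exact isClosed_le continuous_const this

theorem Kc_sub (P : Patch M) : Kc P ⊆ (P.e.extend (𝓡∂ 2)).target := by
  intro z hz
  apply P.sub
  refine ⟨?_, hz.2⟩
  have h1 := hz.1
  rw [Metric.mem_closedBall] at h1
  rw [Metric.mem_ball]
  have := P.hr
  linarith

include hφ in
/-- the distance to the boundary in a patch, near the boundary -/
theorem zeta_patch (P : Patch M) {η : ℝ} (hη : 0 < η) (hη1 : η < 1) :
    ∃ τ0 > 0, ∀ z ∈ Kc P, Metric.infDist ((P.e.extend (𝓡∂ 2)).symm z) (range φ) < τ0 →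
      (1 - η) * (z 0 * qq0 P.e z)
        ≤ Metric.infDist ((P.e.extend (𝓡∂ 2)).symm z) (range φ) := by
  have key : ∃ τ0 > 0, ∀ z ∈ Kc P ∩ Kc P, Metric.infDist ((P.e.extend (𝓡∂ 2)).symm z) (range φ) < τ0 →
      (1 - η) * (z 0 * qq0 P.e z)
        ≤ Metric.infDist ((P.e.extend (𝓡∂ 2)).symm z) (range φ) := by
    refine (Kc_compact P).induction_on (p := fun s => ∃ τ0 > 0, ∀ z ∈ s ∩ Kc P,
      Metric.infDist ((P.e.extend (𝓡∂ 2)).symm z) (range φ) < τ0 →
      (1 - η) * (z 0 * qq0 P.e z)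
        ≤ Metric.infDist ((P.e.extend (𝓡∂ 2)).symm z) (range φ)) ?_ ?_ ?_ ?_
    · exact ⟨1, one_pos, fun z hz => absurd hz.1 (notMem_empty z)⟩
    · rintro s t hst ⟨τ0, hτ0, h⟩
      exact ⟨τ0, hτ0, fun z hz => h z ⟨hst hz.1, hz.2⟩⟩
    · rintro s t ⟨τ1, hτ1, h1⟩ ⟨τ2, hτ2, h2⟩
      refine ⟨min τ1 τ2, lt_min hτ1 hτ2, fun z hz hlt => ?_⟩
      rcases hz.1 with hs | ht
      · exact h1 z ⟨hs, hz.2⟩ (hlt.trans_le (min_le_left _ _))
      · exact h2 z ⟨ht, hz.2⟩ (hlt.trans_le (min_le_right _ _))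
    · intro z0 hz0
      have hz0t := Kc_sub P hz0
      rcases (show (0 : ℝ) ≤ z0 0 from hz0.2).eq_or_lt with h0 | h0
      · have h1 := zeta_local hφ P.he hz0t h0.symm hη hη1
        have h2 : ∀ᶠ z in 𝓝[Kc P] z0, (1 - η) * (z 0 * qq0 P.e z)
            ≤ Metric.infDist ((P.e.extend (𝓡∂ 2)).symm z) (range φ) :=
          nhdsWithin_mono z0 (Kc_sub P) h1
        exact ⟨_, h2, 1, one_pos, fun z hz _ => hz.1⟩
      · -- an interior point: the distance is bounded below nearby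
        have hnb : (P.e.extend (𝓡∂ 2)).symm z0 ∉ range φ := by
          rw [hφ.range_eq, boundary_iff P.he (symm_mem_source hz0t),
            (P.e.extend (𝓡∂ 2)).right_inv hz0t]
          exact h0.ne'
        have hcl : IsClosed (range φ) := by
          have hc : Continuous φ := by
            have : Isometry φ := Isometry.of_dist_eq hφ.dist_eq
            exact this.continuous
          exact (isCompact_range hc).isClosed
        have hne : (range φ).Nonempty := ⟨φ 0, mem_range_self _⟩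
        have hpos : 0 < Metric.infDist ((P.e.extend (𝓡∂ 2)).symm z0) (range φ) :=
          (hcl.notMem_iff_infDist_pos hne).1 hnb
        set d0 := Metric.infDist ((P.e.extend (𝓡∂ 2)).symm z0) (range φ) with hd0
        have hct : ContinuousWithinAt (fun z =>
            Metric.infDist ((P.e.extend (𝓡∂ 2)).symm z) (range φ)) (Kc P) z0 := by
          have h1 : ContinuousWithinAt (P.e.extend (𝓡∂ 2)).symm (P.e.extend (𝓡∂ 2)).target z0 :=
            P.e.continuousOn_extend_symm z0 hz0t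
          have h2 := (Metric.continuous_infDist_pt (range φ)).continuousAt.comp_continuousWithinAt
            (h1.mono (Kc_sub P))
          exact h2
        have h3 : ∀ᶠ z in 𝓝[Kc P] z0,
            d0 / 2 < Metric.infDist ((P.e.extend (𝓡∂ 2)).symm z) (range φ) :=
          hct.eventually_const_lt (by
            show d0 / 2 < d0
            linarith)
        exact ⟨_, h3, d0 / 2, by positivity, fun z hz hlt => absurd hz.1 (not_lt.2 hlt.le)⟩
  obtain ⟨τ0, hτ0, h⟩ := key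
  exact ⟨τ0, hτ0, fun z hz => h z ⟨hz, hz⟩⟩

end Pool.Agent.FPM
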