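import Mathlib

/-
DBL (helper80): the functions on the line that measure the part of the curve in a periodic set and the
part outside it.
-/

open MeasureTheory Set Filter Topology

noncomputable section

namespace Pool.Agent.FPM.DBL

/-- the triangular wave with the period `2 v` -/
def twv (v x : ℝ) : ℝ := Metric.infDist x (range fun m : ℤ => 2 * v * m)

theorem twv_lip (v x y : ℝ) : |twv v x - twv v y| ≤ |x - y| := by
  have h := (Metric.lipschitz_infDist_pt (range fun m : ℤ => 2 * v * (m : ℝ))).dist_le_mul x y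
  rw [Real.dist_eq, Real.dist_eq, NNReal.coe_one, one_mul] at h
  exact h

theorem twv_per (v x : ℝ) : twv v (x + 2 * v) = twv v x := by
  have key : ∀ y : ℝ, twv v (y + 2 * v) ≤ twv v y := by
    intro y
    unfold twv
    refine (Metric.le_infDist ⟨_, mem_range_self (0 : ℤ)⟩).2 ?_
    rintro _ ⟨m, rfl⟩
    refine (Metric.infDist_le_dist_of_mem (mem_range_self (m + 1))).trans (le_of_eq ?_)
    simp only
    rw [Real.dist_eq, Real.dist_eq]
    congr 1
    push_cast
    ring
  refine le_antisymm (key x) ?_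
  unfold twv
  refine (Metric.le_infDist ⟨_, mem_range_self (0 : ℤ)⟩).2 ?_
  rintro _ ⟨m, rfl⟩
  refine (Metric.infDist_le_dist_of_mem (mem_range_self (m - 1))).trans (le_of_eq ?_)
  simp only
  rw [Real.dist_eq, Real.dist_eq]
  congr 1
  push_cast
  ring

theorem twv_zero (v : ℝ) : twv v 0 = 0 := by
  unfold twv
  refine le_antisymm ?_ Metric.infDist_nonneg
  refine (Metric.infDist_le_dist_of_mem (mem_range_self (0 : ℤ))).trans (le_of_eq ?_)
  simp

theorem twv_half {v : ℝ} (hv : 0 ≤ v) : v ≤ twv v v := by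
  unfold twv
  refine (Metric.le_infDist ⟨_, mem_range_self (0 : ℤ)⟩).2 ?_
  rintro _ ⟨m, rfl⟩
  simp only
  rw [Real.dist_eq]
  have e : v - 2 * v * (m : ℝ) = v * (1 - 2 * m) := by ring
  rw [e, abs_mul, abs_of_nonneg hv]
  have h1 : (1 : ℝ) ≤ |1 - 2 * (m : ℝ)| := by
    have h2 : (1 : ℤ) ≤ |1 - 2 * m| := Int.one_le_abs (by omega)
    have h3 : ((1 : ℤ) : ℝ) ≤ ((|1 - 2 * m| : ℤ) : ℝ) := Int.cast_le.2 h2
    push_cast at h3
    exact h3
  nlinarith

/-- the cell of the grid -/
def cel (N : ℕ) (u : ℝ) : ℤ := ⌊u * N / Real.pi⌋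

/-- the indicator of the marked cells -/
def gch (N : ℕ) (B : Finset ℤ) (u : ℝ) : ℝ := if cel N u % N ∈ B then 1 else 0

/-- the length of the marked part -/
def gX (N : ℕ) (B : Finset ℤ) (u : ℝ) : ℝ := ∫ r in (0 : ℝ)..u, gch N B r

theorem cel_add {N : ℕ} (u : ℝ) : cel N (u + Real.pi) = cel N u + N := by
  have hpi := Real.pi_pos
  unfold cel
  have e : (u + Real.pi) * N / Real.pi = u * N / Real.pi + (N : ℤ) := by
    field_simp
    push_cast
    ring
  rw [e, Int.floor_add_intCast]

theorem gch_per (N : ℕ) (B : Finset ℤ) : Function.Periodic (gch N B) Real.pi := by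
  intro u
  unfold gch
  rw [cel_add, Int.add_emod_right]

theorem gch_nonneg (N : ℕ) (B : Finset ℤ) (u : ℝ) : 0 ≤ gch N B u := by
  unfold gch
  split_ifs <;> norm_num

theorem gch_le (N : ℕ) (B : Finset ℤ) (u : ℝ) : gch N B u ≤ 1 := by
  unfold gch
  split_ifs <;> norm_num

theorem gch_meas (N : ℕ) (B : Finset ℤ) : Measurable (gch N B) := by
  unfold gch
  refine Measurable.ite ?_ measurable_const measurable_const
  have h1 : Measurable (cel N) := by
    unfold cel
    exact Int.measurable_floor.comp ((measurable_id.mul_const _).div_const _)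
  exact h1 (MeasurableSet.of_discrete (s := {k : ℤ | k % (N : ℤ) ∈ B}))

theorem gch_int (N : ℕ) (B : Finset ℤ) (a b : ℝ) : IntervalIntegrable (gch N B) volume a b := by
  refine (intervalIntegrable_const (c := (1 : ℝ))).mono_fun (gch_meas N B).aestronglyMeasurable ?_
  refine Eventually.of_forall fun u => ?_
  change ‖gch N B u‖ ≤ ‖(1 : ℝ)‖
  rw [Real.norm_eq_abs, Real.norm_eq_abs, abs_of_nonneg (gch_nonneg N B u), abs_one]
  exact gch_le N B u

theorem gX_sub (N : ℕ) (B : Finset ℤ) (a b : ℝ) : gX N B b - gX N B a = ∫ r in a..b, gch N B r := by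
  unfold gX
  rw [intervalIntegral.integral_interval_sub_left (gch_int N B _ _) (gch_int N B _ _)]

theorem gX_mono (N : ℕ) (B : Finset ℤ) {a b : ℝ} (h : a ≤ b) : gX N B a ≤ gX N B b := by
  have h1 : 0 ≤ ∫ r in a..b, gch N B r := intervalIntegral.integral_nonneg h fun u _ => gch_nonneg N B u
  have h2 := gX_sub N B a b
  linarith

theorem gX_le (N : ℕ) (B : Finset ℤ) {a b : ℝ} (h : a ≤ b) : gX N B b - gX N B a ≤ b - a := by
  rw [gX_sub]
  have h1 := intervalIntegral.integral_mono_on h (gch_int N B a b) (intervalIntegrable_const (c := (1 : ℝ)))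
    fun u _ => gch_le N B u
  rwa [intervalIntegral.integral_const, smul_eq_mul, mul_one] at h1

theorem gX_zero (N : ℕ) (B : Finset ℤ) : gX N B 0 = 0 := by
  unfold gX
  exact intervalIntegral.integral_same

theorem gX_per (N : ℕ) (B : Finset ℤ) (u : ℝ) : gX N B (u + Real.pi) = gX N B u + gX N B Real.pi := by
  have h1 := (gch_per N B).intervalIntegral_add_eq u 0
  have h2 := gX_sub N B u (u + Real.pi)
  have h3 : gX N B Real.pi = ∫ r in (0 : ℝ)..Real.pi, gch N B r := rfl
  rw [zero_add] at h1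
  linarith

theorem cel_le {N : ℕ} (hN : 0 < N) {u v : ℝ} (h : u ≤ v) : cel N u ≤ cel N v := by
  unfold cel
  refine Int.floor_le_floor ?_
  have hpi := Real.pi_pos
  gcongr

/-- in one cell -/
theorem gX_cell {N : ℕ} (hN : 0 < N) (B : Finset ℤ) {a b : ℝ} (hab : a ≤ b) (h : cel N a = cel N b) :
    gX N B b - gX N B a = gch N B a * (b - a) := by
  rw [gX_sub]
  have h1 : ∫ r in a..b, gch N B r = ∫ r in a..b, gch N B a := by
    refine intervalIntegral.integral_congr fun r hr => ?_
    rw [uIcc_of_le hab] at hr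
    have h2 := cel_le hN hr.1
    have h3 := cel_le hN hr.2
    have h4 : cel N r = cel N a := by omega
    simp only [gch, h4]
  rw [h1, intervalIntegral.integral_const, smul_eq_mul]
  ring

/-- the left end of the cell -/
def lef (N : ℕ) (k : ℤ) : ℝ := k * Real.pi / N

theorem lef_le {N : ℕ} (hN : 0 < N) (u : ℝ) : lef N (cel N u) ≤ u := by
  have hpi := Real.pi_pos
  have hN' : (0 : ℝ) < N := by exact_mod_cast hN
  unfold lef cel
  have h1 := Int.floor_le (u * N / Real.pi)
  rw [div_le_iff₀ hN']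
  rwa [le_div_iff₀ hpi] at h1

theorem cel_lef {N : ℕ} (hN : 0 < N) (k : ℤ) : cel N (lef N k) = k := by
  have hpi := Real.pi_pos
  have hN' : (0 : ℝ) < N := by exact_mod_cast hN
  unfold lef cel
  have e : (k * Real.pi / N : ℝ) * N / Real.pi = k := by field_simp
  rw [e, Int.floor_intCast]

theorem lt_lef {N : ℕ} (hN : 0 < N) (u : ℝ) : u < lef N (cel N u) + Real.pi / N := by
  have hpi := Real.pi_pos
  have hN' : (0 : ℝ) < N := by exact_mod_cast hN
  unfold lef cel
  have h1 := Int.lt_floor_add_one (u * N / Real.pi)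
  rw [div_lt_iff₀ hpi] at h1
  rw [← add_div, lt_div_iff₀ hN']
  linarith

/-- two points of a cell are close -/
theorem cel_close {N : ℕ} (hN : 0 < N) {u v : ℝ} (h : cel N u = cel N v) : |u - v| ≤ Real.pi / N := by
  have h1 := lef_le hN u
  have h2 := lt_lef hN u
  have h3 := lef_le hN v
  have h4 := lt_lef hN v
  rw [h] at h1 h2
  exact abs_le.2 ⟨by linarith, by linarith⟩

/-- the wave of the marked part -/
def Fv (N : ℕ) (B : Finset ℤ) (a u : ℝ) : ℝ := twv (gX N B Real.pi) (gX N B u - gX N B a)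

/-- the wave of the other part -/
def Fu (N : ℕ) (B : Finset ℤ) (b u : ℝ) : ℝ :=
  twv (Real.pi - gX N B Real.pi) ((u - gX N B u) - (b - gX N B b))

theorem vol_nonneg (N : ℕ) (B : Finset ℤ) : 0 ≤ gX N B Real.pi ∧ gX N B Real.pi ≤ Real.pi := by
  have h1 := gX_mono N B Real.pi_pos.le
  have h2 := gX_le N B Real.pi_pos.le
  rw [gX_zero] at h1 h2
  exact ⟨h1, by linarith⟩

theorem Fv_per (N : ℕ) (B : Finset ℤ) (a u : ℝ) : Fv N B a (u + 2 * Real.pi) = Fv N B a u := by
  unfold Fv
  have e : u + 2 * Real.pi = u + Real.pi + Real.pi := by ring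
  rw [e, gX_per, gX_per]
  have e2 : gX N B u + gX N B Real.pi + gX N B Real.pi - gX N B a =
      gX N B u - gX N B a + 2 * gX N B Real.pi := by ring
  rw [e2, twv_per]

theorem Fu_per (N : ℕ) (B : Finset ℤ) (b u : ℝ) : Fu N B b (u + 2 * Real.pi) = Fu N B b u := by
  unfold Fu
  have e : u + 2 * Real.pi = u + Real.pi + Real.pi := by ring
  have e1 : gX N B (u + 2 * Real.pi) = gX N B u + gX N B Real.pi + gX N B Real.pi := by
    rw [e, gX_per, gX_per]
  have e2 : u + 2 * Real.pi - gX N B (u + 2 * Real.pi) - (b - gX N B b) =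
      u - gX N B u - (b - gX N B b) + 2 * (Real.pi - gX N B Real.pi) := by
    rw [e1]
    ring
  rw [e2, twv_per]

/-- the joint Lipschitz bound -/
theorem FF_lip (N : ℕ) (B : Finset ℤ) (a b u v : ℝ) :
    |Fv N B a u - Fv N B a v| + |Fu N B b u - Fu N B b v| ≤ |u - v| := by
  wlog h : u ≤ v generalizing u v
  · have := this v u (le_of_not_ge h)
    rwa [abs_sub_comm (Fv N B a v), abs_sub_comm (Fu N B b v), abs_sub_comm v] at this
  have h1 := twv_lip (gX N B Real.pi) (gX N B u - gX N B a) (gX N B v - gX N B a)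
  have h2 := twv_lip (Real.pi - gX N B Real.pi) ((u - gX N B u) - (b - gX N B b))
    ((v - gX N B v) - (b - gX N B b))
  have h3 := gX_mono N B h
  have h4 := gX_le N B h
  have e1 : |gX N B u - gX N B a - (gX N B v - gX N B a)| = gX N B v - gX N B u := by
    rw [abs_of_nonpos (by linarith)]
    ring
  have e2 : |u - gX N B u - (b - gX N B b) - (v - gX N B v - (b - gX N B b))| =
      (v - u) - (gX N B v - gX N B u) := by
    rw [abs_of_nonpos (by linarith)]
    ring
  rw [e1] at h1
  rw [e2] at h2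
  rw [abs_sub_comm u v, abs_of_nonneg (by linarith : 0 ≤ v - u)]
  unfold Fv Fu
  linarith

/-- the two 1-Lipschitz functions -/
theorem sum_lip (N : ℕ) (B : Finset ℤ) (a b : ℝ) :
    LipschitzWith 1 fun u => Fv N B a u + Fu N B b u := by
  refine LipschitzWith.of_dist_le_mul fun u v => ?_
  rw [Real.dist_eq, Real.dist_eq, NNReal.coe_one, one_mul]
  have h := FF_lip N B a b u v
  have e : Fv N B a u + Fu N B b u - (Fv N B a v + Fu N B b v) =
      (Fv N B a u - Fv N B a v) + (Fu N B b u - Fu N B b v) := by ring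
  rw [e]
  exact (abs_add_le _ _).trans h

theorem dif_lip (N : ℕ) (B : Finset ℤ) (a b : ℝ) :
    LipschitzWith 1 fun u => Fv N B a u - Fu N B b u := by
  refine LipschitzWith.of_dist_le_mul fun u v => ?_
  rw [Real.dist_eq, Real.dist_eq, NNReal.coe_one, one_mul]
  have h := FF_lip N B a b u v
  have e : Fv N B a u - Fu N B b u - (Fv N B a v - Fu N B b v) =
      (Fv N B a u - Fv N B a v) - (Fu N B b u - Fu N B b v) := by ring
  rw [e]
  exact (abs_sub _ _).trans h

/-- the oscillation between opposite points -/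
theorem Fv_osc (N : ℕ) (B : Finset ℤ) (a s : ℝ) :
    gX N B Real.pi - 2 * |s - a| ≤ Fv N B a (s + Real.pi) - Fv N B a s := by
  have h1 := FF_lip N B a 0 s a
  have h2 := FF_lip N B a 0 (s + Real.pi) (a + Real.pi)
  have h3 : Fv N B a a = 0 := by
    unfold Fv
    rw [sub_self, twv_zero]
  have h4 : gX N B Real.pi ≤ Fv N B a (a + Real.pi) := by
    unfold Fv
    rw [gX_per, add_sub_cancel_left]
    exact twv_half (vol_nonneg N B).1
  have e : s + Real.pi - (a + Real.pi) = s - a := by ring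
  rw [e] at h2
  have h5 := abs_nonneg (Fu N B 0 s - Fu N B 0 a)
  have h6 := abs_nonneg (Fu N B 0 (s + Real.pi) - Fu N B 0 (a + Real.pi))
  have h7 := (abs_le.1 (le_trans (by linarith) h1 : |Fv N B a s - Fv N B a a| ≤ |s - a|)).2
  have h8 := (abs_le.1 (le_trans (by linarith) h2 :
    |Fv N B a (s + Real.pi) - Fv N B a (a + Real.pi)| ≤ |s - a|)).1
  linarith

theorem Fu_osc (N : ℕ) (B : Finset ℤ) (b s : ℝ) :
    Real.pi - gX N B Real.pi - 2 * |s - b| ≤ Fu N B b (s + Real.pi) - Fu N B b s := by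
  have h1 := FF_lip N B 0 b s b
  have h2 := FF_lip N B 0 b (s + Real.pi) (b + Real.pi)
  have h3 : Fu N B b b = 0 := by
    unfold Fu
    rw [sub_self, twv_zero]
  have h4 : Real.pi - gX N B Real.pi ≤ Fu N B b (b + Real.pi) := by
    unfold Fu
    have e : b + Real.pi - gX N B (b + Real.pi) - (b - gX N B b) = Real.pi - gX N B Real.pi := by
      rw [gX_per]
      ring
    rw [e]
    exact twv_half (by linarith [(vol_nonneg N B).2])
  have e : s + Real.pi - (b + Real.pi) = s - b := by ring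
  rw [e] at h2
  have h5 := abs_nonneg (Fv N B 0 s - Fv N B 0 b)
  have h6 := abs_nonneg (Fv N B 0 (s + Real.pi) - Fv N B 0 (b + Real.pi))
  have h7 := (abs_le.1 (le_trans (by linarith) h1 : |Fu N B b s - Fu N B b b| ≤ |s - b|)).2
  have h8 := (abs_le.1 (le_trans (by linarith) h2 :
    |Fu N B b (s + Real.pi) - Fu N B b (b + Real.pi)| ≤ |s - b|)).1
  linarith

/-- the values on the other part -/
def valV (N : ℕ) (B : Finset ℤ) (a : ℝ) : Set ℝ := range fun k : ℤ => Fv N B a (lef N k)

/-- the values on the marked part -/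
def valU (N : ℕ) (B : Finset ℤ) (b : ℝ) : Set ℝ := range fun k : ℤ => Fu N B b (lef N k)

theorem valV_ct (N : ℕ) (B : Finset ℤ) (a : ℝ) : (valV N B a).Countable := countable_range _

theorem valU_ct (N : ℕ) (B : Finset ℤ) (b : ℝ) : (valU N B b).Countable := countable_range _

theorem Fv_mem {N : ℕ} (hN : 0 < N) (B : Finset ℤ) (a u : ℝ) (h : cel N u % N ∉ B) :
    Fv N B a u ∈ valV N B a := by
  refine ⟨cel N u, ?_⟩
  have h1 := gX_cell hN B (lef_le hN u) (cel_lef hN _)
  have h2 : gch N B (lef N (cel N u)) = 0 := by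
    unfold gch
    rw [cel_lef hN, if_neg h]
  rw [h2, zero_mul] at h1
  have h3 : gX N B u = gX N B (lef N (cel N u)) := by linarith
  simp only
  unfold Fv
  rw [h3]

theorem Fu_mem {N : ℕ} (hN : 0 < N) (B : Finset ℤ) (b u : ℝ) (h : cel N u % N ∈ B) :
    Fu N B b u ∈ valU N B b := by
  refine ⟨cel N u, ?_⟩
  have h1 := gX_cell hN B (lef_le hN u) (cel_lef hN _)
  have h2 : gch N B (lef N (cel N u)) = 1 := by
    unfold gch
    rw [cel_lef hN, if_pos h]
  rw [h2, one_mul] at h1
  simp only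
  unfold Fu
  congr 1
  linarith

end Pool.Agent.FPM.DBL
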