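import Mathlib
import Pool.Agent.FPM.FTW

/-
HUL (helper19): a closed set that meets the curve, such that the perimeter of any three of its points
on the curve is less than the length of the curve, meets the curve in an arc shorter than half the
curve, with both ends in the set.
-/

open MeasureTheory Set Filter Topology
open scoped ENNReal NNReal

noncomputable section

namespace Pool.Agent.FPM

open Pool.Agent.EWD

variable {M : Type} [MetricSpace M] {γ : ℝ → M}

theorem gam_int (hγ : Bd γ) (s : ℝ) (m : ℤ) : γ (s + m * (2 * Real.pi)) = γ s := by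
  have h : Function.Periodic γ (2 * Real.pi) := hγ.per
  exact h.int_mul m s

/-- a parameter in a given window -/
theorem gam_window (s a : ℝ) : ∃ m : ℤ, s + m * (2 * Real.pi) ∈ Ico a (a + 2 * Real.pi) := by
  obtain ⟨m, hm, -⟩ := existsUnique_add_zsmul_mem_Ico Real.two_pi_pos s a
  refine ⟨m, ?_⟩
  rwa [zsmul_eq_mul] at hm

/-- the hull of the trace -/
theorem hull (hγ : Bd γ) {P : Set M} (hP : IsClosed P) (hne : ∃ s, γ s ∈ P)
    (h3 : ∀ a b c, γ a ∈ P → γ b ∈ P → γ c ∈ P →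
      dist (γ a) (γ b) + dist (γ b) (γ c) + dist (γ c) (γ a) < 2 * Real.pi) :
    ∃ p q : ℝ, p ≤ q ∧ q < p + Real.pi ∧ γ p ∈ P ∧ γ q ∈ P ∧
      ∀ s, γ s ∈ P → ∃ m : ℤ, s + m * (2 * Real.pi) ∈ Icc p q := by
  have hpi := Real.pi_pos
  have hc := hγ.lip.continuous
  set K : Set ℝ := {s | s ∈ Icc 0 (2 * Real.pi) ∧ γ s ∈ P} with hK
  have hKc : IsCompact K := by
    have : K = Icc 0 (2 * Real.pi) ∩ γ ⁻¹' P := rfl
    rw [this]
    exact isCompact_Icc.inter_right (hP.preimage hc)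
  have red : ∀ s, γ s ∈ P → ∃ r ∈ K, γ r = γ s := by
    intro s hs
    obtain ⟨m, hm⟩ := gam_window s 0
    rw [zero_add] at hm
    refine ⟨_, ⟨⟨hm.1, hm.2.le⟩, ?_⟩, gam_int hγ s m⟩
    rw [gam_int hγ]
    exact hs
  obtain ⟨s₀, hs₀⟩ := hne
  obtain ⟨r₀, hr₀, -⟩ := red s₀ hs₀
  obtain ⟨⟨a, b⟩, hab, hmax⟩ := (hKc.prod hKc).exists_isMaxOn ⟨(r₀, r₀), hr₀, hr₀⟩
    (f := fun x : ℝ × ℝ => dist (γ x.1) (γ x.2))
    ((hc.comp continuous_fst).dist (hc.comp continuous_snd)).continuousOn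
  have hmax' : ∀ s s', γ s ∈ P → γ s' ∈ P → dist (γ s) (γ s') ≤ dist (γ a) (γ b) := by
    intro s s' hs hs'
    obtain ⟨r, hr, er⟩ := red s hs
    obtain ⟨r', hr', er'⟩ := red s' hs'
    have := hmax (show ((r, r') : ℝ × ℝ) ∈ K ×ˢ K from ⟨hr, hr'⟩)
    rw [← er, ← er']
    exact this
  have haP : γ a ∈ P := hab.1.2
  have hbP : γ b ∈ P := hab.2.2
  -- the ends
  obtain ⟨p, q, hpq, hqp, hp, hq, hD⟩ : ∃ p q : ℝ, p ≤ q ∧ q ≤ p + Real.pi ∧ γ p ∈ P ∧ γ q ∈ P ∧
      dist (γ a) (γ b) = dist (γ p) (γ q) := by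
    obtain ⟨m, hm⟩ := gam_window b a
    have e := gam_int hγ b m
    rcases le_or_gt (b + m * (2 * Real.pi)) (a + Real.pi) with h | h
    · exact ⟨a, b + m * (2 * Real.pi), hm.1, h, haP, by rw [e]; exact hbP, by rw [e]⟩
    · have e2 : γ (a + 2 * Real.pi) = γ a := hγ.per a
      refine ⟨b + m * (2 * Real.pi), a + 2 * Real.pi, hm.2.le, by linarith, by rw [e]; exact hbP,
        by rw [e2]; exact haP, ?_⟩
      rw [e, e2, dist_comm]
  rw [bd_dist hγ hpq hqp] at hD
  have hD' : q - p < Real.pi := by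
    have h1 := h3 a b a haP hbP haP
    rw [dist_self, dist_comm (γ b), hD] at h1
    linarith
  refine ⟨p, q, hpq, by linarith, hp, hq, fun s hs => ?_⟩
  obtain ⟨m, hm⟩ := gam_window s p
  refine ⟨m, hm.1, ?_⟩
  by_contra hcon
  rw [not_le] at hcon
  set s' := s + m * (2 * Real.pi) with hs'
  have hs'P : γ s' ∈ P := by
    rw [hs', gam_int hγ]
    exact hs
  have e2 : γ (p + 2 * Real.pi) = γ p := hγ.per p
  have e3 : γ (q + 2 * Real.pi) = γ q := hγ.per q
  have m1 := hmax' p s' hp hs'P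
  have m2 := hmax' q s' hq hs'P
  rw [hD] at m1 m2
  have hm2 := hm.2
  rcases le_or_gt s' (p + Real.pi) with h1 | h1
  · rw [bd_dist hγ hm.1 h1] at m1
    linarith
  · rcases le_or_gt (q + Real.pi) s' with h2 | h2
    · rw [← e3, dist_comm, bd_dist hγ (by linarith) (by linarith)] at m2
      linarith
    · have d1 : dist (γ s') (γ p) = p + 2 * Real.pi - s' := by
        rw [← e2, bd_dist hγ (by linarith) (by linarith)]
      have d2 : dist (γ q) (γ s') = s' - q := bd_dist hγ hcon.le h2.le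
      have d3 : dist (γ p) (γ q) = q - p := bd_dist hγ hpq hqp
      have h4 := h3 p q s' hp hq hs'P
      rw [d1, d2, d3] at h4
      linarith

end Pool.Agent.FPM
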