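import Mathlib

/-
I57H (helper80), module D of ISO57: hulls of the large pieces of the boundary, `π`-periodic union, the arc `I`.
-/

open MeasureTheory Set Filter Topology
open scoped ENNReal NNReal

noncomputable section

namespace Pool.Agent.FPM

/-- the `π`-periodic union of the hulls `[p i, q i]` -/
def hullV {ι : Type} (p q : ι → ℝ) : Set ℝ :=
  {s | ∃ i, ∃ m : ℤ, s + m * Real.pi ∈ Icc (p i) (q i)}

theorem hullV_add {ι : Type} {p q : ι → ℝ} (s : ℝ) (k : ℤ) :
    s + k * Real.pi ∈ hullV p q ↔ s ∈ hullV p q := by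
  constructor
  · rintro ⟨i, m, h⟩
    refine ⟨i, k + m, ?_⟩
    have : s + ((k + m : ℤ) : ℝ) * Real.pi = s + k * Real.pi + m * Real.pi := by push_cast; ring
    rwa [this]
  · rintro ⟨i, m, h⟩
    refine ⟨i, m - k, ?_⟩
    have : s + k * Real.pi + ((m - k : ℤ) : ℝ) * Real.pi = s + m * Real.pi := by push_cast; ring
    rwa [this]

/-- finitely many integers `m` with `x ≤ m π ≤ y` -/
theorem finite_mpi (x y : ℝ) : {m : ℤ | x ≤ m * Real.pi ∧ m * Real.pi ≤ y}.Finite := by
  have hpi := Real.pi_pos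
  refine (Set.finite_Icc (⌊x / Real.pi⌋) (⌈y / Real.pi⌉)).subset ?_
  rintro m ⟨h1, h2⟩
  constructor
  · have : x / Real.pi ≤ m := by rw [div_le_iff₀ hpi]; linarith
    exact Int.floor_le_iff.mpr (by linarith [this] : x / Real.pi < (m : ℝ) + 1)
  · have : (m : ℝ) ≤ y / Real.pi := by rw [le_div_iff₀ hpi]; linarith
    exact Int.le_ceil_iff.mpr (by linarith [this] : (m : ℝ) - 1 < y / Real.pi)

/-- a positive number that works for all pairs -/
theorem unif_pos {ι : Type} [Finite ι] {P : ι → ℤ → ℝ → Prop}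
    (hmono : ∀ i m d d', P i m d → 0 < d' → d' ≤ d → P i m d')
    (hex : ∀ i m, ∃ d > 0, P i m d) (hfin : ∀ i, {m | ¬ P i m 1}.Finite) :
    ∃ d > 0, ∀ i m, P i m d := by
  classical
  choose δ hδ0 hδ using hex
  have hS : {x : ι × ℤ | ¬ P x.1 x.2 1}.Finite := by
    have h1 : {x : ι × ℤ | ¬ P x.1 x.2 1} ⊆ ⋃ i : ι, (fun m : ℤ => (i, m)) '' {m | ¬ P i m 1} := by
      rintro ⟨i, m⟩ h
      exact mem_iUnion.mpr ⟨i, m, h, rfl⟩
    exact (Set.finite_iUnion fun i => (hfin i).image _).subset h1
  have hmin : ∀ F : Finset (ι × ℤ), ∃ d > 0, ∀ x ∈ F, d ≤ δ x.1 x.2 := by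
    intro F
    induction F using Finset.induction_on with
    | empty => exact ⟨1, one_pos, by simp⟩
    | insert a F _ ih =>
      obtain ⟨d, hd, h⟩ := ih
      refine ⟨min d (δ a.1 a.2), lt_min hd (hδ0 _ _), ?_⟩
      intro m hm
      rcases Finset.mem_insert.mp hm with rfl | hm
      · exact min_le_right _ _
      · exact (min_le_left _ _).trans (h m hm)
  obtain ⟨d, hd, h⟩ := hmin hS.toFinset
  refine ⟨min d 1, lt_min hd one_pos, ?_⟩
  intro i m
  by_cases hm : P i m 1
  · exact hmono i m 1 _ hm (lt_min hd one_pos) (min_le_right _ _)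
  · have : (i, m) ∈ hS.toFinset := by simpa using hm
    exact hmono i m _ _ (hδ i m) (lt_min hd one_pos) ((min_le_left _ _).trans (h _ this))

theorem hullV_closed {ι : Type} [Finite ι] {p q : ι → ℝ} : IsClosed (hullV p q) := by
  rw [← isOpen_compl_iff, Metric.isOpen_iff]
  intro s hs
  obtain ⟨d, hd, h⟩ := unif_pos (ι := ι)
    (P := fun i m d => ∀ y, dist y s < d → y + (m : ℝ) * Real.pi ∉ Icc (p i) (q i))
    (by intro i m d d' h _ hle y hy; exact h y (lt_of_lt_of_le hy hle))
    (by
      intro i m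
      have hcl : IsClosed ((fun y : ℝ => y + m * Real.pi) ⁻¹' Icc (p i) (q i)) :=
        isClosed_Icc.preimage (by fun_prop)
      have hop := hcl.isOpen_compl
      rw [Metric.isOpen_iff] at hop
      obtain ⟨δ, hδ, hb⟩ := hop s (fun h => hs ⟨i, m, h⟩)
      exact ⟨δ, hδ, fun y hy h => hb (Metric.mem_ball.mpr hy) h⟩)
    (by
      intro i
      refine (finite_mpi (p i - s - 1) (q i - s + 1)).subset ?_
      intro m hm
      simp only [mem_ofPred_eq, not_forall, not_not] at hm
      obtain ⟨y, hy, h1, h2⟩ := hm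
      rw [Real.dist_eq] at hy
      have h3 := abs_lt.mp hy
      exact ⟨by linarith [h3.2], by linarith [h3.1]⟩)
  refine ⟨d, hd, ?_⟩
  intro y hy
  rintro ⟨i, m, hm⟩
  exact h i m y (Metric.mem_ball.mp hy) hm

/-- **the arc**: the component of the periodic union of the hulls around a given hull -/
theorem hull_arc {ι : Type} [Finite ι] {p q : ι → ℝ} (hpq : ∀ i, p i ≤ q i) {x0 : ℝ}
    (hx0 : x0 ∉ hullV p q) (i0 : ι) :
    ∃ e1 e2 τ : ℝ, 0 < τ ∧ e1 ≤ p i0 ∧ q i0 ≤ e2 ∧ e2 + τ ≤ e1 + Real.pi ∧ Icc e1 e2 ⊆ hullV p q ∧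
      ∀ i, ∀ m : ℤ, (e1 ≤ p i + m * Real.pi ∧ q i + m * Real.pi ≤ e2) ∨
        (q i + m * Real.pi + τ ≤ e1 ∨ e2 + τ ≤ p i + m * Real.pi) := by
  have hpi := Real.pi_pos
  set V := hullV p q with hV
  have hcl : IsClosed V := hullV_closed
  have hmem : ∀ i, ∀ m : ℤ, ∀ s, p i + m * Real.pi ≤ s → s ≤ q i + m * Real.pi → s ∈ V := by
    intro i m s h1 h2
    refine ⟨i, -m, ?_⟩
    push_cast
    exact ⟨by linarith, by linarith⟩
  -- the window
  obtain ⟨a, haV, hap, hqb, hbV⟩ : ∃ a, a ∉ V ∧ a < p i0 ∧ q i0 < a + Real.pi ∧ a + Real.pi ∉ V := by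
    set k : ℤ := ⌊(p i0 - x0) / Real.pi⌋ with hk
    have h1 : (k : ℝ) ≤ (p i0 - x0) / Real.pi := Int.floor_le _
    have h2 : (p i0 - x0) / Real.pi < k + 1 := Int.lt_floor_add_one _
    rw [le_div_iff₀ hpi] at h1
    rw [div_lt_iff₀ hpi] at h2
    have ha : x0 + k * Real.pi ∉ V := fun h => hx0 ((hullV_add x0 k).mp h)
    have hb : x0 + k * Real.pi + Real.pi ∉ V := by
      intro h
      apply hx0
      rw [← hullV_add x0 (k + 1)]
      have : x0 + ((k + 1 : ℤ) : ℝ) * Real.pi = x0 + k * Real.pi + Real.pi := by push_cast; ring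
      rwa [this]
    refine ⟨x0 + k * Real.pi, ha, ?_, ?_, hb⟩
    · rcases lt_or_eq_of_le (by linarith : x0 + k * Real.pi ≤ p i0) with h | h
      · exact h
      · exact absurd (hmem i0 0 _ (by simp [h]) (by simp [h]; exact hpq i0)) ha
    · by_contra hc
      push Not at hc
      exact hb (hmem i0 0 _ (by push_cast; linarith) (by push_cast; linarith))
  -- right end
  set R : Set ℝ := {y | p i0 ≤ y ∧ Icc (p i0) y ⊆ V} with hR
  have hRb : ∀ y ∈ R, y < a + Real.pi := by
    intro y hy
    by_contra hc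
    push Not at hc
    exact hbV (hy.2 ⟨by linarith [hpq i0], hc⟩)
  have hq0 : q i0 ∈ R := ⟨hpq i0, fun s hs => hmem i0 0 s (by simpa using hs.1) (by simpa using hs.2)⟩
  have hRbdd : BddAbove R := ⟨a + Real.pi, fun y hy => (hRb y hy).le⟩
  set e2 := sSup R with he2
  have he2q : q i0 ≤ e2 := le_csSup hRbdd hq0
  have hRsub : Icc (p i0) e2 ⊆ V := by
    have h1 : Ico (p i0) e2 ⊆ V := by
      intro s hs
      obtain ⟨y, hy, hsy⟩ := exists_lt_of_lt_csSup ⟨_, hq0⟩ hs.2
      exact hy.2 ⟨hs.1, hsy.le⟩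
    rcases eq_or_lt_of_le ((hpq i0).trans he2q) with h | h
    · intro s hs
      have : s = p i0 := le_antisymm (by rw [h]; exact hs.2) hs.1
      rw [this]
      exact hmem i0 0 _ (by simp) (by simpa using hpq i0)
    · have := hcl.closure_subset_iff.mpr h1
      rwa [closure_Ico h.ne] at this
  have he2R : e2 ∈ R := ⟨(hpq i0).trans he2q, hRsub⟩
  have he2b := hRb e2 he2R
  -- left end
  set L : Set ℝ := {x | x ≤ q i0 ∧ Icc x (q i0) ⊆ V} with hL
  have hLa : ∀ x ∈ L, a < x := by
    intro x hx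
    by_contra hc
    push Not at hc
    exact haV (hx.2 ⟨hc, by linarith [hpq i0]⟩)
  have hp0 : p i0 ∈ L := ⟨hpq i0, fun s hs => hmem i0 0 s (by simpa using hs.1) (by simpa using hs.2)⟩
  have hLbdd : BddBelow L := ⟨a, fun x hx => (hLa x hx).le⟩
  set e1 := sInf L with he1
  have he1p : e1 ≤ p i0 := csInf_le hLbdd hp0
  have hLsub : Icc e1 (q i0) ⊆ V := by
    have h1 : Ioc e1 (q i0) ⊆ V := by
      intro s hs
      obtain ⟨y, hy, hsy⟩ := exists_lt_of_csInf_lt ⟨_, hp0⟩ hs.1
      exact hy.2 ⟨hsy.le, hs.2⟩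
    rcases eq_or_lt_of_le (he1p.trans (hpq i0)) with h | h
    · intro s hs
      have : s = q i0 := le_antisymm hs.2 (by rw [← h]; exact hs.1)
      rw [this]
      exact hmem i0 0 _ (by simpa using hpq i0) (by simp)
    · have := hcl.closure_subset_iff.mpr h1
      rwa [closure_Ioc h.ne] at this
  have he1L : e1 ∈ L := ⟨he1p.trans (hpq i0), hLsub⟩
  have he1a := hLa e1 he1L
  have hsub : Icc e1 e2 ⊆ V := by
    intro s hs
    rcases le_or_gt s (q i0) with h | h
    · exact hLsub ⟨hs.1, h⟩
    · exact hRsub ⟨(hpq i0).trans h.le, hs.2⟩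
  have hle : e1 ≤ e2 := he1p.trans ((hpq i0).trans he2q)
  -- dichotomy
  have hdich : ∀ i, ∀ m : ℤ, (e1 ≤ p i + m * Real.pi ∧ q i + m * Real.pi ≤ e2) ∨
      (q i + m * Real.pi < e1 ∨ e2 < p i + m * Real.pi) := by
    intro i m
    by_cases hc : q i + m * Real.pi < e1 ∨ e2 < p i + m * Real.pi
    · exact Or.inr hc
    left
    push Not at hc
    obtain ⟨h1, h2⟩ := hc
    have hsub2 : Icc (p i + m * Real.pi) (q i + m * Real.pi) ⊆ V := fun s hs => hmem i m s hs.1 hs.2
    constructor
    · by_contra hc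
      push Not at hc
      have : p i + m * Real.pi ∈ L := by
        refine ⟨by linarith [hpq i0], ?_⟩
        intro s hs
        rcases le_or_gt s (q i + m * Real.pi) with h | h
        · exact hsub2 ⟨hs.1, h⟩
        · exact hLsub ⟨h1.trans h.le, hs.2⟩
      exact absurd (csInf_le hLbdd this) (not_le.mpr hc)
    · by_contra hc
      push Not at hc
      have : q i + m * Real.pi ∈ R := by
        refine ⟨by linarith [hpq i0], ?_⟩
        intro s hs
        rcases le_or_gt (p i + m * Real.pi) s with h | h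
        · exact hsub2 ⟨h, hs.2⟩
        · exact hRsub ⟨hs.1, h.le.trans h2⟩
      exact absurd (le_csSup hRbdd this) (not_le.mpr hc)
  obtain ⟨τ, hτ, hτd⟩ := unif_pos (ι := ι)
    (P := fun i m d => (e1 ≤ p i + m * Real.pi ∧ q i + m * Real.pi ≤ e2) ∨
        (q i + m * Real.pi + d ≤ e1 ∨ e2 + d ≤ p i + m * Real.pi))
    (by
      intro i m d d' h _ hle
      rcases h with h | h | h
      · exact Or.inl h
      · exact Or.inr (Or.inl (by linarith))
      · exact Or.inr (Or.inr (by linarith)))
    (by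
      intro i m
      rcases hdich i m with h | h | h
      · exact ⟨1, one_pos, Or.inl h⟩
      · exact ⟨e1 - (q i + m * Real.pi), by linarith, Or.inr (Or.inl (by linarith))⟩
      · exact ⟨p i + m * Real.pi - e2, by linarith, Or.inr (Or.inr (by linarith))⟩)
    (by
      intro i
      refine (finite_mpi (e1 - 1 - q i) (e2 + 1 - p i)).subset ?_
      intro m hm
      simp only [mem_ofPred_eq, not_or, not_le] at hm
      exact ⟨by linarith [hm.2.1], by linarith [hm.2.2]⟩)
  refine ⟨e1, e2, min τ (Real.pi - (e2 - e1)), lt_min hτ (by linarith), he1p, he2q, ?_, hsub, ?_⟩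
  · linarith [min_le_right τ (Real.pi - (e2 - e1))]
  · intro i m
    have hm := min_le_left τ (Real.pi - (e2 - e1))
    rcases hτd i m with h | h | h
    · exact Or.inl h
    · exact Or.inr (Or.inl (by linarith))
    · exact Or.inr (Or.inr (by linarith))

section measure

variable {ι : Type} [Fintype ι] {p q : ι → ℝ}

theorem per_indicator {A : Set ℝ} {c : ℝ} (hA : ∀ s, s + c ∈ A ↔ s ∈ A) :
    Function.Periodic (A.indicator (fun _ => (1 : ℝ))) c := by
  intro s
  by_cases h : s ∈ A
  · rw [indicator_of_mem h, indicator_of_mem ((hA s).mpr h)]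
  · rw [indicator_of_notMem h, indicator_of_notMem (fun h' => h ((hA s).mp h'))]

theorem ii_indicator {A : Set ℝ} (hA : MeasurableSet A) (a b : ℝ) :
    IntervalIntegrable (A.indicator (fun _ => (1 : ℝ))) volume a b := by
  constructor
  · exact (integrable_const (1 : ℝ)).indicator hA
  · exact (integrable_const (1 : ℝ)).indicator hA

theorem int_indicator {A : Set ℝ} (hA : MeasurableSet A) {a b : ℝ} (hab : a ≤ b) :
    ∫ s in a..b, A.indicator (fun _ => (1 : ℝ)) s = (volume (A ∩ Ioc a b)).toReal := by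
  rw [intervalIntegral.integral_of_le hab, integral_indicator hA, Measure.restrict_restrict hA]
  simp [Measure.real]

/-- periodic hull -/
def hullP (p q : ℝ) : Set ℝ := {s | ∃ m : ℤ, s + m * Real.pi ∈ Icc p q}

theorem meas_hullP (p q : ℝ) : MeasurableSet (hullP p q) := by
  have : hullP p q = ⋃ m : ℤ, (fun s : ℝ => s + m * Real.pi) ⁻¹' Icc p q := by
    ext s
    simp only [hullP, mem_ofPred_eq, mem_iUnion, mem_preimage]
  rw [this]
  exact MeasurableSet.iUnion fun m => measurableSet_Icc.preimage (by fun_prop)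

theorem int_hullP {p q : ℝ} (h : p ≤ q) (hlt : q - p < Real.pi) (x : ℝ) :
    ∫ s in x..x + Real.pi, (hullP p q).indicator (fun _ => (1 : ℝ)) s ≤ q - p := by
  have hpi := Real.pi_pos
  have hper : Function.Periodic ((hullP p q).indicator (fun _ => (1 : ℝ))) Real.pi := by
    apply per_indicator
    intro s
    constructor
    · rintro ⟨m, hm⟩
      refine ⟨m + 1, ?_⟩
      have : s + ((m + 1 : ℤ) : ℝ) * Real.pi = s + Real.pi + m * Real.pi := by push_cast; ring
      rwa [this]
    · rintro ⟨m, hm⟩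
      refine ⟨m - 1, ?_⟩
      have : s + Real.pi + ((m - 1 : ℤ) : ℝ) * Real.pi = s + m * Real.pi := by push_cast; ring
      rwa [this]
  rw [hper.intervalIntegral_add_eq x p, int_indicator (meas_hullP p q) (by linarith)]
  have hsub : hullP p q ∩ Ioc p (p + Real.pi) ⊆ Ioc p q ∪ {p + Real.pi} := by
    rintro s ⟨⟨m, hm1, hm2⟩, hs1, hs2⟩
    rcases lt_trichotomy m 0 with hm | hm | hm
    · right
      have : (m : ℝ) ≤ -1 := by exact_mod_cast Int.le_sub_one_of_lt hm
      have : (m : ℝ) * Real.pi ≤ -1 * Real.pi := mul_le_mul_of_nonneg_right this hpi.le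
      exact le_antisymm hs2 (by linarith)
    · left
      subst hm
      exact ⟨hs1, by simpa using hm2⟩
    · exfalso
      have : (1 : ℝ) ≤ m := by exact_mod_cast hm
      have : 1 * Real.pi ≤ (m : ℝ) * Real.pi := mul_le_mul_of_nonneg_right this hpi.le
      linarith
  have hle : volume (hullP p q ∩ Ioc p (p + Real.pi)) ≤ ENNReal.ofReal (q - p) := by
    calc volume (hullP p q ∩ Ioc p (p + Real.pi)) ≤ volume (Ioc p q ∪ {p + Real.pi}) := measure_mono hsub
      _ ≤ volume (Ioc p q) + volume ({p + Real.pi} : Set ℝ) := measure_union_le _ _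
      _ = ENNReal.ofReal (q - p) := by simp
  calc (volume (hullP p q ∩ Ioc p (p + Real.pi))).toReal ≤ (ENNReal.ofReal (q - p)).toReal :=
        ENNReal.toReal_mono ENNReal.ofReal_ne_top hle
    _ = q - p := ENNReal.toReal_ofReal (by linarith)

/-- **the cut point**: if the hulls and the dust are short, some point is outside all hulls and traces (mod `π`) -/
theorem hull_gap (hpq : ∀ i, p i ≤ q i) (hlt : ∀ i, q i - p i < Real.pi)
    {A D N : Set ℝ} (hA : MeasurableSet A) (hD : MeasurableSet D) (hN : volume N = 0)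
    (hAper : ∀ s, s + Real.pi ∈ A ↔ s ∈ A)
    (hcov : ∀ s ∈ A, s ∈ D ∨ ∃ i, ∃ m : ℤ, s + m * (2 * Real.pi) ∈ Icc (p i) (q i))
    (hsum : ∑ i, (q i - p i) + (volume (D ∩ Ioc 0 (2 * Real.pi))).toReal <
      Real.pi + (volume (A ∩ Ioc 0 (2 * Real.pi))).toReal / 2) :
    ∃ x0 ∈ Ioc 0 Real.pi, x0 ∉ hullV p q ∧ x0 ∉ A ∧ x0 ∉ N := by
  classical
  have hpi := Real.pi_pos
  by_contra hcon
  push Not at hcon
  -- the counting function
  set c : ℝ → ℝ := fun s => ∑ i, (hullP (p i) (q i)).indicator (fun _ => (1 : ℝ)) s +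
    (D.indicator (fun _ => (1 : ℝ)) s + D.indicator (fun _ => (1 : ℝ)) (s + Real.pi)) with hc
  have hnn : ∀ (B : Set ℝ) s, 0 ≤ B.indicator (fun _ => (1 : ℝ)) s := fun B s =>
    indicator_nonneg (fun _ _ => zero_le_one) s
  have hle1 : ∀ (B : Set ℝ) s, B.indicator (fun _ => (1 : ℝ)) s ≤ 1 := fun B s => by
    by_cases h : s ∈ B
    · rw [indicator_of_mem h]
    · rw [indicator_of_notMem h]; exact zero_le_one
  have hsumnn : ∀ s, 0 ≤ ∑ i, (hullP (p i) (q i)).indicator (fun _ => (1 : ℝ)) s := fun s =>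
    Finset.sum_nonneg fun i _ => hnn _ s
  have hone : ∀ s i, s ∈ hullP (p i) (q i) →
      1 ≤ ∑ i, (hullP (p i) (q i)).indicator (fun _ => (1 : ℝ)) s := by
    intro s i h
    calc (1 : ℝ) = (hullP (p i) (q i)).indicator (fun _ => (1 : ℝ)) s := by rw [indicator_of_mem h]
      _ ≤ _ := Finset.single_le_sum (f := fun i => (hullP (p i) (q i)).indicator (fun _ => (1 : ℝ)) s)
        (fun i _ => hnn _ s) (Finset.mem_univ i)
  have htwo : ∀ s i j, i ≠ j → s ∈ hullP (p i) (q i) → s ∈ hullP (p j) (q j) →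
      2 ≤ ∑ i, (hullP (p i) (q i)).indicator (fun _ => (1 : ℝ)) s := by
    intro s i j hij hi hj
    calc (2 : ℝ) = ∑ k ∈ {i, j}, (hullP (p k) (q k)).indicator (fun _ => (1 : ℝ)) s := by
          rw [Finset.sum_pair hij, indicator_of_mem hi, indicator_of_mem hj]; norm_num
      _ ≤ _ := Finset.sum_le_sum_of_subset_of_nonneg (Finset.subset_univ _) (fun k _ _ => hnn _ s)
  have hpt : ∀ s ∈ Ioc 0 Real.pi, s ∉ N → 1 + A.indicator (fun _ => (1 : ℝ)) s ≤ c s := by
    intro s hs hsN
    by_cases hsA : s ∈ A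
    · rw [indicator_of_mem hsA]
      have hA2 : s + Real.pi ∈ A := (hAper s).mpr hsA
      simp only [hc]
      rcases hcov s hsA with h1 | ⟨i, m, h1⟩
      · rcases hcov _ hA2 with h2 | ⟨j, m', h2⟩
        · rw [indicator_of_mem h1, indicator_of_mem h2]
          linarith [hsumnn s]
        · have := hone s j ⟨2 * m' + 1, by
            have : s + ((2 * m' + 1 : ℤ) : ℝ) * Real.pi = s + Real.pi + m' * (2 * Real.pi) := by push_cast; ring
            rwa [this]⟩
          rw [indicator_of_mem h1]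
          linarith [hnn D (s + Real.pi)]
      · have h1' : s ∈ hullP (p i) (q i) := ⟨2 * m, by
            have : s + ((2 * m : ℤ) : ℝ) * Real.pi = s + m * (2 * Real.pi) := by push_cast; ring
            rwa [this]⟩
        rcases hcov _ hA2 with h2 | ⟨j, m', h2⟩
        · have := hone s i h1'
          rw [indicator_of_mem h2]
          linarith [hnn D s]
        · have h2' : s ∈ hullP (p j) (q j) := ⟨2 * m' + 1, by
            have : s + ((2 * m' + 1 : ℤ) : ℝ) * Real.pi = s + Real.pi + m' * (2 * Real.pi) := by push_cast; ring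
            rwa [this]⟩
          have hij : i ≠ j := by
            rintro rfl
            -- two different translates in one short hull
            have hd : (1 : ℤ) ≤ |2 * m - (2 * m' + 1)| := by
              apply Int.one_le_abs
              omega
            have hd' : (1 : ℝ) ≤ |(2 * m : ℝ) - (2 * m' + 1)| := by exact_mod_cast hd
            have h3 : |(2 * (m : ℝ) - (2 * m' + 1)) * Real.pi| ≤ q i - p i := by
              rw [abs_le]
              constructor
              · linarith [h1.1, h1.2, h2.1, h2.2]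
              · linarith [h1.1, h1.2, h2.1, h2.2]
            rw [abs_mul, abs_of_pos hpi] at h3
            have := mul_le_mul_of_nonneg_right hd' hpi.le
            linarith [hlt i]
          have := htwo s i j hij h1' h2'
          linarith [hnn D s, hnn D (s + Real.pi)]
    · rw [indicator_of_notMem hsA]
      have hV : s ∈ hullV p q := by
        by_contra h
        exact hsN (hcon s hs h hsA)
      obtain ⟨i, m, hm⟩ := hV
      have := hone s i ⟨m, hm⟩
      simp only [hc]
      linarith [hnn D s, hnn D (s + Real.pi)]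
  -- integrate
  have hiiA := ii_indicator hA 0 Real.pi
  have hiiD := ii_indicator hD 0 Real.pi
  have hiiD2 : IntervalIntegrable (fun s => D.indicator (fun _ => (1 : ℝ)) (s + Real.pi)) volume 0 Real.pi := by
    have := (ii_indicator hD (0 + Real.pi) (Real.pi + Real.pi)).comp_add_right Real.pi
    simpa using this
  have hiiS : IntervalIntegrable (fun s => ∑ i, (hullP (p i) (q i)).indicator (fun _ => (1 : ℝ)) s) volume 0 Real.pi := by
    have := IntervalIntegrable.sum (μ := volume) (a := 0) (b := Real.pi) Finset.univ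
      (f := fun i => (hullP (p i) (q i)).indicator (fun _ => (1 : ℝ)))
      (fun i _ => ii_indicator (meas_hullP (p i) (q i)) 0 Real.pi)
    have hfn : (fun s => ∑ i, (hullP (p i) (q i)).indicator (fun _ => (1 : ℝ)) s) =
        ∑ i, (hullP (p i) (q i)).indicator (fun _ => (1 : ℝ)) := by
      funext s
      simp
    rw [hfn]
    exact this
  have hiic : IntervalIntegrable c volume 0 Real.pi := hiiS.add (hiiD.add hiiD2)
  have hint : ∫ s in (0 : ℝ)..Real.pi, (1 + A.indicator (fun _ => (1 : ℝ)) s) ≤ ∫ s in (0 : ℝ)..Real.pi, c s := by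
    rw [intervalIntegral.integral_of_le hpi.le, intervalIntegral.integral_of_le hpi.le]
    refine setIntegral_mono_ae_restrict ?_ ?_ ?_
    · exact (intervalIntegrable_iff_integrableOn_Ioc_of_le hpi.le).mp (intervalIntegrable_const.add hiiA)
    · exact (intervalIntegrable_iff_integrableOn_Ioc_of_le hpi.le).mp hiic
    · have hN' : ∀ᵐ s ∂(volume : Measure ℝ), s ∉ N := by
        rw [ae_iff]
        simpa using hN
      filter_upwards [ae_restrict_mem measurableSet_Ioc, ae_restrict_of_ae hN'] with s hs hsN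
      exact hpt s hs hsN
  have hhalf : ∀ {B : Set ℝ} (hB : MeasurableSet B), (∫ s in (0 : ℝ)..Real.pi, B.indicator (fun _ => (1 : ℝ)) s) +
      (∫ s in (0 : ℝ)..Real.pi, B.indicator (fun _ => (1 : ℝ)) (s + Real.pi)) = (volume (B ∩ Ioc 0 (2 * Real.pi))).toReal := by
    intro B hB
    rw [intervalIntegral.integral_comp_add_right (fun s => B.indicator (fun _ => (1 : ℝ)) s), zero_add,
      intervalIntegral.integral_add_adjacent_intervals (ii_indicator hB _ _) (ii_indicator hB _ _),
      int_indicator hB (by linarith)]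
    congr 4
    ring
  have e1 : ∫ s in (0 : ℝ)..Real.pi, (1 + A.indicator (fun _ => (1 : ℝ)) s) =
      Real.pi + (volume (A ∩ Ioc 0 (2 * Real.pi))).toReal / 2 := by
    rw [intervalIntegral.integral_add intervalIntegrable_const hiiA]
    have h1 := hhalf hA
    have h2 : ∀ s, A.indicator (fun _ => (1 : ℝ)) (s + Real.pi) = A.indicator (fun _ => (1 : ℝ)) s :=
      fun s => per_indicator hAper s
    simp only [h2] at h1
    simp only [intervalIntegral.integral_const, sub_zero, smul_eq_mul, mul_one]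
    linarith
  have e2 : ∫ s in (0 : ℝ)..Real.pi, c s ≤ ∑ i, (q i - p i) + (volume (D ∩ Ioc 0 (2 * Real.pi))).toReal := by
    simp only [hc]
    rw [intervalIntegral.integral_add hiiS (hiiD.add hiiD2), intervalIntegral.integral_add hiiD hiiD2, hhalf hD,
      intervalIntegral.integral_finsetSum (fun i _ => ii_indicator (meas_hullP (p i) (q i)) 0 Real.pi)]
    have : ∑ i, ∫ s in (0 : ℝ)..Real.pi, (hullP (p i) (q i)).indicator (fun _ => (1 : ℝ)) s ≤ ∑ i, (q i - p i) := by
      apply Finset.sum_le_sum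
      intro i _
      have := int_hullP (hpq i) (hlt i) 0
      rwa [zero_add] at this
    linarith
  linarith

end measure

end Pool.Agent.FPM
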