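import Mathlib
import Pool.Agent.FPM.I57H

/-
I57H2 (helper80), module D of ISO57 (version 2): bookkeeping for one component of the periodic union of the hulls.
-/

open MeasureTheory Set Filter Topology
open scoped ENNReal NNReal

noncomputable section

namespace Pool.Agent.FPM

/-- the trace of a piece sits in one translate of its hull -/
theorem trace_window {B : Set ℝ} (hB : MeasurableSet B)
    (hper : ∀ s, s + 2 * Real.pi ∈ B ↔ s ∈ B) {p q : ℝ} (hlt : q - p < 2 * Real.pi)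
    (hsub : ∀ s ∈ B, ∃ m : ℤ, s + m * (2 * Real.pi) ∈ Icc p q) (m : ℤ) :
    volume (B ∩ Ioc 0 (2 * Real.pi)) =
      volume (B ∩ Icc (p + m * (2 * Real.pi)) (q + m * (2 * Real.pi))) := by
  have hpi := Real.pi_pos
  set δ := (2 * Real.pi - (q - p)) / 2 with hδ
  have hδ0 : 0 < δ := by rw [hδ]; linarith
  set x := p + m * (2 * Real.pi) - δ with hx
  have hset : B ∩ Ioc x (x + 2 * Real.pi) = B ∩ Icc (p + m * (2 * Real.pi)) (q + m * (2 * Real.pi)) := by
    ext s
    constructor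
    · rintro ⟨hs, h1, h2⟩
      refine ⟨hs, ?_⟩
      obtain ⟨n, h3, h4⟩ := hsub s hs
      rcases lt_trichotomy (-n) m with h | h | h
      · exfalso
        have h5 : ((-n : ℤ) : ℝ) ≤ m - 1 := by exact_mod_cast Int.le_sub_one_of_lt h
        push_cast at h5
        have h6 : (-(n : ℝ)) * (2 * Real.pi) ≤ (m - 1) * (2 * Real.pi) :=
          mul_le_mul_of_nonneg_right h5 (by positivity)
        linarith
      · have h5 : ((-n : ℤ) : ℝ) = m := by exact_mod_cast h
        push_cast at h5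
        rw [← h5]
        constructor
        · linarith
        · linarith
      · exfalso
        have h5 : (m : ℝ) + 1 ≤ ((-n : ℤ) : ℝ) := by exact_mod_cast h
        push_cast at h5
        have h6 : ((m : ℝ) + 1) * (2 * Real.pi) ≤ (-(n : ℝ)) * (2 * Real.pi) :=
          mul_le_mul_of_nonneg_right h5 (by positivity)
        linarith
    · rintro ⟨hs, h1, h2⟩
      exact ⟨hs, by linarith, by linarith⟩
  have h1 : (volume (B ∩ Ioc 0 (2 * Real.pi))).toReal = (volume (B ∩ Ioc x (x + 2 * Real.pi))).toReal := by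
    rw [← int_indicator hB (by linarith), ← int_indicator hB (by linarith)]
    have := (per_indicator hper).intervalIntegral_add_eq 0 x
    rwa [zero_add] at this
  rw [← hset]
  have hf : ∀ a b : ℝ, volume (B ∩ Ioc a b) ≠ ∞ := fun a b =>
    ne_top_of_le_ne_top (by simp) (measure_mono (inter_subset_right : B ∩ Ioc a b ⊆ Ioc a b))
  exact (ENNReal.toReal_eq_toReal_iff' (hf _ _) (hf _ _)).mp h1

/-- one side: hulls inside `[e1, e2]`, all others away from it -/
theorem side_book {ι : Type} [Fintype ι] {p q : ι → ℝ} (hpq : ∀ i, p i ≤ q i) {e1 e2 : ℝ}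
    (hlt : e2 < e1 + Real.pi)
    (hdich : ∀ i, ∀ m : ℤ, (e1 ≤ p i + m * (2 * Real.pi) ∧ q i + m * (2 * Real.pi) ≤ e2) ∨
        (q i + m * (2 * Real.pi) < e1 ∨ e2 < p i + m * (2 * Real.pi)))
    {A E : Set ℝ} {B : ι → Set ℝ} (hA : MeasurableSet A) (hB : ∀ j, MeasurableSet (B j))
    (hBper : ∀ j s, s + 2 * Real.pi ∈ B j ↔ s ∈ B j)
    (hdis : ∀ i j, i ≠ j → Disjoint (B i) (B j))
    (hBh : ∀ j, ∀ s ∈ B j, ∃ m : ℤ, s + m * (2 * Real.pi) ∈ Icc (p j) (q j))
    (hBA : ∀ j, B j ⊆ A) (hcov : ∀ s ∈ A, s ∈ E ∨ ∃ j, s ∈ B j)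
    {U : Finset ι} {m : ι → ℤ}
    (hU : ∀ j, j ∈ U ↔ ∃ n : ℤ, e1 ≤ p j + n * (2 * Real.pi) ∧ q j + n * (2 * Real.pi) ≤ e2)
    (hm : ∀ j ∈ U, e1 ≤ p j + m j * (2 * Real.pi) ∧ q j + m j * (2 * Real.pi) ≤ e2) :
    (∑ j ∈ U, volume (B j ∩ Ioc 0 (2 * Real.pi)) ≤ volume (A ∩ Ioc e1 e2)) ∧
    (volume (A ∩ Ioc e1 e2) ≤ ∑ j ∈ U, volume (B j ∩ Ioc 0 (2 * Real.pi)) + volume (E ∩ Ioc e1 e2)) ∧
    (volume (A ∩ Ioc e1 e2) +
        2 * volume ((⋃ j ∈ U, Icc (p j + m j * (2 * Real.pi)) (q j + m j * (2 * Real.pi))) \ A) +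
        ∑ j ∈ U, volume (B j ∩ Ioc 0 (2 * Real.pi)) ≤
      2 * ∑ j ∈ U, ENNReal.ofReal (q j - p j) + volume (E ∩ Ioc e1 e2)) ∧
    (∀ s ∈ Icc e1 e2, s ∈ A → s ∈ E ∨
        s ∈ ⋃ j ∈ U, Icc (p j + m j * (2 * Real.pi)) (q j + m j * (2 * Real.pi))) := by
  have hpi := Real.pi_pos
  set UU := ⋃ j ∈ U, Icc (p j + m j * (2 * Real.pi)) (q j + m j * (2 * Real.pi)) with hUU
  have hUUm : MeasurableSet UU := Finset.measurableSet_biUnion _ fun j _ => measurableSet_Icc
  -- a point of an inner translate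
  have huniq : ∀ j, ∀ n : ℤ, ∀ s ∈ Icc e1 e2, s + n * (2 * Real.pi) ∈ Icc (p j) (q j) →
      j ∈ U ∧ s ∈ Icc (p j + m j * (2 * Real.pi)) (q j + m j * (2 * Real.pi)) := by
    intro j n s hs hn
    have h1 : e1 ≤ p j + ((-n : ℤ) : ℝ) * (2 * Real.pi) ∧ q j + ((-n : ℤ) : ℝ) * (2 * Real.pi) ≤ e2 := by
      rcases hdich j (-n) with h | h | h
      · exact h
      · push_cast at h
        linarith [hn.2, hs.1]
      · push_cast at h
        linarith [hn.1, hs.2]
    have hjU : j ∈ U := (hU j).mpr ⟨-n, h1⟩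
    have h2 := hm j hjU
    have h3 : m j = -n := by
      by_contra hne
      have h4 : (1 : ℤ) ≤ |m j - (-n)| := Int.one_le_abs (by intro h; exact hne (by linarith))
      have h5 : (1 : ℝ) ≤ |(m j : ℝ) - ((-n : ℤ) : ℝ)| := by exact_mod_cast h4
      have h6 : |((m j : ℝ) - ((-n : ℤ) : ℝ)) * (2 * Real.pi)| ≤ e2 - e1 := by
        rw [abs_le]
        constructor
        · linarith [hpq j, h1.2, h2.1]
        · linarith [hpq j, h1.1, h2.2]
      rw [abs_mul, abs_of_pos (by positivity : (0 : ℝ) < 2 * Real.pi)] at h6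
      have := mul_le_mul_of_nonneg_right h5 (by positivity : (0 : ℝ) ≤ 2 * Real.pi)
      linarith
    refine ⟨hjU, ?_⟩
    rw [h3]
    push_cast
    exact ⟨by linarith [hn.1], by linarith [hn.2]⟩
  have hcovU : ∀ s ∈ Icc e1 e2, s ∈ A → s ∈ E ∨ s ∈ UU := by
    intro s hs hsA
    rcases hcov s hsA with h | ⟨j, hj⟩
    · exact Or.inl h
    · right
      obtain ⟨n, hn⟩ := hBh j s hj
      obtain ⟨h1, h2⟩ := huniq j n s hs hn
      exact mem_iUnion₂.mpr ⟨j, h1, h2⟩
  have hGj : ∀ j ∈ U, volume (B j ∩ Ioc 0 (2 * Real.pi)) =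
      volume (B j ∩ Icc (p j + m j * (2 * Real.pi)) (q j + m j * (2 * Real.pi))) := by
    intro j hj
    refine trace_window (hB j) (hBper j) ?_ (hBh j) (m j)
    have := hm j hj
    linarith
  have hIccIoc : ∀ S : Set ℝ, volume (S ∩ Icc e1 e2) = volume (S ∩ Ioc e1 e2) := by
    intro S
    apply le_antisymm
    · calc volume (S ∩ Icc e1 e2) ≤ volume ((S ∩ Ioc e1 e2) ∪ {e1}) := by
            apply measure_mono
            rintro s ⟨h1, h2, h3⟩
            rcases eq_or_lt_of_le h2 with h | h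
            · exact Or.inr h.symm
            · exact Or.inl ⟨h1, h, h3⟩
        _ ≤ volume (S ∩ Ioc e1 e2) + volume ({e1} : Set ℝ) := measure_union_le _ _
        _ = volume (S ∩ Ioc e1 e2) := by simp
    · exact measure_mono (inter_subset_inter_right _ Ioc_subset_Icc_self)
  have hUUsub : UU ⊆ Icc e1 e2 := by
    intro s hs
    obtain ⟨j, hj, h⟩ := mem_iUnion₂.mp hs
    have := hm j hj
    exact ⟨by linarith [h.1], by linarith [h.2]⟩
  -- traces inside UU n A
  have hsumle : ∑ j ∈ U, volume (B j ∩ Ioc 0 (2 * Real.pi)) ≤ volume (UU ∩ A) := by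
    calc ∑ j ∈ U, volume (B j ∩ Ioc 0 (2 * Real.pi))
        = ∑ j ∈ U, volume (B j ∩ Icc (p j + m j * (2 * Real.pi)) (q j + m j * (2 * Real.pi))) :=
          Finset.sum_congr rfl hGj
      _ = volume (⋃ j ∈ U, B j ∩ Icc (p j + m j * (2 * Real.pi)) (q j + m j * (2 * Real.pi))) := by
          rw [measure_biUnion_finset]
          · intro i _ j _ hij
            exact (hdis i j hij).mono inter_subset_left inter_subset_left
          · intro j _
            exact (hB j).inter measurableSet_Icc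
      _ ≤ volume (UU ∩ A) := by
          apply measure_mono
          intro s hs
          obtain ⟨j, hj, h1, h2⟩ := mem_iUnion₂.mp hs
          exact ⟨mem_iUnion₂.mpr ⟨j, hj, h2⟩, hBA j h1⟩
  have hUUA : volume (UU ∩ A) ≤ volume (A ∩ Ioc e1 e2) := by
    rw [← hIccIoc]
    exact measure_mono fun s hs => ⟨hs.2, hUUsub hs.1⟩
  have hAle : volume (A ∩ Ioc e1 e2) ≤ volume (UU ∩ A) + volume (E ∩ Ioc e1 e2) := by
    refine (measure_mono ?_).trans (measure_union_le _ _)
    rintro s ⟨h1, h2⟩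
    rcases hcovU s (Ioc_subset_Icc_self h2) h1 with h | h
    · exact Or.inr ⟨h, h2⟩
    · exact Or.inl ⟨h, h1⟩
  refine ⟨hsumle.trans hUUA, ?_, ?_, hcovU⟩
  · -- c2
    calc volume (A ∩ Ioc e1 e2) ≤
        volume ((⋃ j ∈ U, B j ∩ Icc (p j + m j * (2 * Real.pi)) (q j + m j * (2 * Real.pi))) ∪
          (E ∩ Ioc e1 e2)) := by
          apply measure_mono
          rintro s ⟨h1, h2⟩
          rcases hcov s h1 with h | ⟨j, hj⟩
          · exact Or.inr ⟨h, h2⟩
          · left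
            obtain ⟨n, hn⟩ := hBh j s hj
            obtain ⟨h3, h4⟩ := huniq j n s (Ioc_subset_Icc_self h2) hn
            exact mem_iUnion₂.mpr ⟨j, h3, hj, h4⟩
      _ ≤ volume (⋃ j ∈ U, B j ∩ Icc (p j + m j * (2 * Real.pi)) (q j + m j * (2 * Real.pi))) +
          volume (E ∩ Ioc e1 e2) := measure_union_le _ _
      _ ≤ ∑ j ∈ U, volume (B j ∩ Icc (p j + m j * (2 * Real.pi)) (q j + m j * (2 * Real.pi))) +
          volume (E ∩ Ioc e1 e2) := by
          gcongr
          exact measure_biUnion_finset_le _ _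
      _ = _ := by rw [Finset.sum_congr rfl hGj]
  · -- b
    have h1 : volume UU ≤ ∑ j ∈ U, ENNReal.ofReal (q j - p j) := by
      refine (measure_biUnion_finset_le _ _).trans (Finset.sum_le_sum ?_)
      intro j _
      rw [Real.volume_Icc]
      apply le_of_eq
      congr 1
      ring
    have h2 : volume (UU ∩ A) + volume (UU \ A) = volume UU := measure_inter_add_sdiff _ hA
    calc volume (A ∩ Ioc e1 e2) + 2 * volume (UU \ A) + ∑ j ∈ U, volume (B j ∩ Ioc 0 (2 * Real.pi))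
        ≤ (volume (UU ∩ A) + volume (E ∩ Ioc e1 e2)) + 2 * volume (UU \ A) + volume (UU ∩ A) := by
          gcongr
      _ = 2 * (volume (UU ∩ A) + volume (UU \ A)) + volume (E ∩ Ioc e1 e2) := by ring
      _ = 2 * volume UU + volume (E ∩ Ioc e1 e2) := by rw [h2]
      _ ≤ _ := by gcongr

/-- **bookkeeping for one component** -/
theorem hull_book {ι : Type} [Fintype ι] {p q : ι → ℝ} (hpq : ∀ i, p i ≤ q i) {e1 e2 τ : ℝ}
    (hτ : 0 < τ) (hle : e1 ≤ e2) (hlt : e2 + τ ≤ e1 + Real.pi) (hsub : Icc e1 e2 ⊆ hullV p q)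
    (hdich : ∀ i, ∀ m : ℤ, (e1 ≤ p i + m * Real.pi ∧ q i + m * Real.pi ≤ e2) ∨
        (q i + m * Real.pi + τ ≤ e1 ∨ e2 + τ ≤ p i + m * Real.pi))
    {A E : Set ℝ} {B : ι → Set ℝ} (hA : MeasurableSet A) (hB : ∀ j, MeasurableSet (B j))
    (hAper : ∀ s, s + Real.pi ∈ A ↔ s ∈ A)
    (hBper : ∀ j s, s + 2 * Real.pi ∈ B j ↔ s ∈ B j)
    (hdis : ∀ i j, i ≠ j → Disjoint (B i) (B j))
    (hBh : ∀ j, ∀ s ∈ B j, ∃ m : ℤ, s + m * (2 * Real.pi) ∈ Icc (p j) (q j))
    (hBA : ∀ j, B j ⊆ A) (hcov : ∀ s ∈ A, s ∈ E ∨ ∃ j, s ∈ B j) :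
    ∃ (U L : Finset ι) (m : ι → ℤ), Disjoint U L ∧
      (∀ j, j ∈ U ↔ ∃ n : ℤ, e1 ≤ p j + n * (2 * Real.pi) ∧ q j + n * (2 * Real.pi) ≤ e2) ∧
      (∀ j, j ∈ L ↔ ∃ n : ℤ, e1 + Real.pi ≤ p j + n * (2 * Real.pi) ∧
        q j + n * (2 * Real.pi) ≤ e2 + Real.pi) ∧
      (∀ j ∈ U, e1 ≤ p j + m j * (2 * Real.pi) ∧ q j + m j * (2 * Real.pi) ≤ e2) ∧
      (∀ j ∈ L, e1 + Real.pi ≤ p j + m j * (2 * Real.pi) ∧ q j + m j * (2 * Real.pi) ≤ e2 + Real.pi) ∧
      (∀ j, j ∉ U → j ∉ L → ∀ n : ℤ, q j + n * Real.pi + τ ≤ e1 ∨ e2 + τ ≤ p j + n * Real.pi) ∧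
      ∃ G gU gL E1 E2 : ℝ,
        G = (volume (A ∩ Ioc e1 e2)).toReal ∧
        G = (volume (A ∩ Ioc (e1 + Real.pi) (e2 + Real.pi))).toReal ∧
        gU = (volume ((⋃ j ∈ U, Icc (p j + m j * (2 * Real.pi)) (q j + m j * (2 * Real.pi))) \ A)).toReal ∧
        gL = (volume ((⋃ j ∈ L, Icc (p j + m j * (2 * Real.pi)) (q j + m j * (2 * Real.pi))) \ A)).toReal ∧
        E1 = (volume (E ∩ Ioc e1 e2)).toReal ∧
        E2 = (volume (E ∩ Ioc (e1 + Real.pi) (e2 + Real.pi))).toReal ∧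
        e2 - e1 ≤ ∑ j ∈ L, (q j - p j) + gU + E2 ∧
        e2 - e1 ≤ ∑ j ∈ U, (q j - p j) + gL + E1 ∧
        G + 2 * gU + ∑ j ∈ U, (volume (B j ∩ Ioc 0 (2 * Real.pi))).toReal ≤ 2 * ∑ j ∈ U, (q j - p j) + E1 ∧
        G + 2 * gL + ∑ j ∈ L, (volume (B j ∩ Ioc 0 (2 * Real.pi))).toReal ≤ 2 * ∑ j ∈ L, (q j - p j) + E2 ∧
        ∑ j ∈ U, (volume (B j ∩ Ioc 0 (2 * Real.pi))).toReal ≤ G ∧
        G ≤ ∑ j ∈ U, (volume (B j ∩ Ioc 0 (2 * Real.pi))).toReal + E1 ∧
        ∑ j ∈ L, (volume (B j ∩ Ioc 0 (2 * Real.pi))).toReal ≤ G ∧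
        G ≤ ∑ j ∈ L, (volume (B j ∩ Ioc 0 (2 * Real.pi))).toReal + E2 := by
  classical
  have hpi := Real.pi_pos
  set U : Finset ι := Finset.univ.filter
    (fun j => ∃ n : ℤ, e1 ≤ p j + n * (2 * Real.pi) ∧ q j + n * (2 * Real.pi) ≤ e2) with hUdef
  set L : Finset ι := Finset.univ.filter
    (fun j => ∃ n : ℤ, e1 + Real.pi ≤ p j + n * (2 * Real.pi) ∧ q j + n * (2 * Real.pi) ≤ e2 + Real.pi) with hLdef
  have hU : ∀ j, j ∈ U ↔ ∃ n : ℤ, e1 ≤ p j + n * (2 * Real.pi) ∧ q j + n * (2 * Real.pi) ≤ e2 := by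
    intro j; simp [hUdef]
  have hL : ∀ j, j ∈ L ↔ ∃ n : ℤ, e1 + Real.pi ≤ p j + n * (2 * Real.pi) ∧
      q j + n * (2 * Real.pi) ≤ e2 + Real.pi := by
    intro j; simp [hLdef]
  have hUL : ∀ j, j ∈ U → j ∉ L := by
    intro j h1 h2
    obtain ⟨n, h3, h4⟩ := (hU j).mp h1
    obtain ⟨k, h5, h6⟩ := (hL j).mp h2
    have h7 := hpq j
    have h8 : 0 < ((k : ℝ) - n) * (2 * Real.pi) := by linarith
    have h9 : ((k : ℝ) - n) * (2 * Real.pi) < 1 * (2 * Real.pi) := by linarith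
    have h10 : (0 : ℝ) < (k : ℝ) - n := by
      by_contra hc
      push Not at hc
      have := mul_nonpos_of_nonpos_of_nonneg hc (by positivity : (0 : ℝ) ≤ 2 * Real.pi)
      linarith
    have h11 : (k : ℝ) - n < 1 := lt_of_mul_lt_mul_right h9 (by positivity)
    have h12 : (0 : ℤ) < k - n := by exact_mod_cast h10
    have h13 : k - n < (1 : ℤ) := by exact_mod_cast h11
    omega
  have hex : ∀ j, ∃ n : ℤ, (j ∈ U → e1 ≤ p j + n * (2 * Real.pi) ∧ q j + n * (2 * Real.pi) ≤ e2) ∧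
      (j ∈ L → e1 + Real.pi ≤ p j + n * (2 * Real.pi) ∧ q j + n * (2 * Real.pi) ≤ e2 + Real.pi) := by
    intro j
    by_cases h1 : j ∈ U
    · obtain ⟨n, hn⟩ := (hU j).mp h1
      exact ⟨n, fun _ => hn, fun h => absurd h (hUL j h1)⟩
    · by_cases h2 : j ∈ L
      · obtain ⟨n, hn⟩ := (hL j).mp h2
        exact ⟨n, fun h => absurd h h1, fun _ => hn⟩
      · exact ⟨0, fun h => absurd h h1, fun h => absurd h h2⟩
  choose m hm using hex
  have hmU := fun j (h : j ∈ U) => (hm j).1 h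
  have hmL := fun j (h : j ∈ L) => (hm j).2 h
  -- dichotomies for the two sides
  have hdU : ∀ i, ∀ m : ℤ, (e1 ≤ p i + m * (2 * Real.pi) ∧ q i + m * (2 * Real.pi) ≤ e2) ∨
        (q i + m * (2 * Real.pi) < e1 ∨ e2 < p i + m * (2 * Real.pi)) := by
    intro i m
    have := hdich i (2 * m)
    push_cast at this
    have e : (2 * (m : ℝ)) * Real.pi = m * (2 * Real.pi) := by ring
    rw [e] at this
    rcases this with h | h | h
    · exact Or.inl h
    · exact Or.inr (Or.inl (by linarith))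
    · exact Or.inr (Or.inr (by linarith))
  have hdL : ∀ i, ∀ m : ℤ, (e1 + Real.pi ≤ p i + m * (2 * Real.pi) ∧ q i + m * (2 * Real.pi) ≤ e2 + Real.pi) ∨
        (q i + m * (2 * Real.pi) < e1 + Real.pi ∨ e2 + Real.pi < p i + m * (2 * Real.pi)) := by
    intro i m
    have := hdich i (2 * m - 1)
    push_cast at this
    have e : (2 * (m : ℝ) - 1) * Real.pi = m * (2 * Real.pi) - Real.pi := by ring
    rw [e] at this
    rcases this with h | h | h
    · exact Or.inl ⟨by linarith [h.1], by linarith [h.2]⟩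
    · exact Or.inr (Or.inl (by linarith))
    · exact Or.inr (Or.inr (by linarith))
  obtain ⟨u1, u2, u3, u4⟩ := side_book hpq (by linarith : e2 < e1 + Real.pi) hdU hA hB hBper hdis hBh hBA hcov hU hmU
  obtain ⟨l1, l2, l3, l4⟩ := side_book hpq (by linarith : e2 + Real.pi < e1 + Real.pi + Real.pi) hdL hA hB hBper hdis
    hBh hBA hcov hL hmL
  set UU := ⋃ j ∈ U, Icc (p j + m j * (2 * Real.pi)) (q j + m j * (2 * Real.pi)) with hUU
  set LL := ⋃ j ∈ L, Icc (p j + m j * (2 * Real.pi)) (q j + m j * (2 * Real.pi)) with hLL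
  have hGG : volume (A ∩ Ioc (e1 + Real.pi) (e2 + Real.pi)) = volume (A ∩ Ioc e1 e2) := by
    rw [← measure_preimage_add_right volume Real.pi (A ∩ Ioc (e1 + Real.pi) (e2 + Real.pi))]
    congr 1
    ext s
    simp only [mem_preimage, mem_inter_iff, mem_Ioc, hAper s, add_lt_add_iff_right, add_le_add_iff_right]
  rw [hGG] at l1 l2 l3
  -- every point of the arc
  have hpt : ∀ s ∈ Icc e1 e2, s ∈ UU ∨ s + Real.pi ∈ LL := by
    intro s hs
    obtain ⟨i, n, hn⟩ := hsub hs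
    have hin : e1 ≤ p i + ((-n : ℤ) : ℝ) * Real.pi ∧ q i + ((-n : ℤ) : ℝ) * Real.pi ≤ e2 := by
      rcases hdich i (-n) with h | h | h
      · exact h
      · push_cast at h
        linarith [hn.2, hs.1]
      · push_cast at h
        linarith [hn.1, hs.2]
    push_cast at hin
    rcases Int.even_or_odd' n with ⟨k, hk | hk⟩
    · left
      have hkr : (n : ℝ) = 2 * k := by exact_mod_cast hk
      rw [hkr] at hin hn
      have hiU : i ∈ U := (hU i).mpr ⟨-k, by push_cast; linarith [hin.1], by push_cast; linarith [hin.2]⟩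
      have h2 := hmU i hiU
      have h3 : m i = -k := by
        by_contra hne
        have h4 : (1 : ℤ) ≤ |m i - (-k)| := Int.one_le_abs (by intro h; exact hne (by linarith))
        have h5 : (1 : ℝ) ≤ |(m i : ℝ) - ((-k : ℤ) : ℝ)| := by exact_mod_cast h4
        have h6 : |((m i : ℝ) - ((-k : ℤ) : ℝ)) * (2 * Real.pi)| ≤ e2 - e1 := by
          push_cast
          rw [abs_le]
          constructor
          · linarith [hpq i, hin.2, h2.1]
          · linarith [hpq i, hin.1, h2.2]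
        rw [abs_mul, abs_of_pos (by positivity : (0 : ℝ) < 2 * Real.pi)] at h6
        have := mul_le_mul_of_nonneg_right h5 (by positivity : (0 : ℝ) ≤ 2 * Real.pi)
        linarith
      refine mem_iUnion₂.mpr ⟨i, hiU, ?_⟩
      rw [h3]
      push_cast
      exact ⟨by linarith [hn.1], by linarith [hn.2]⟩
    · right
      have hkr : (n : ℝ) = 2 * k + 1 := by exact_mod_cast hk
      rw [hkr] at hin hn
      have hiL : i ∈ L := (hL i).mpr ⟨-k, by push_cast; linarith [hin.1], by push_cast; linarith [hin.2]⟩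
      have h2 := hmL i hiL
      have h3 : m i = -k := by
        by_contra hne
        have h4 : (1 : ℤ) ≤ |m i - (-k)| := Int.one_le_abs (by intro h; exact hne (by linarith))
        have h5 : (1 : ℝ) ≤ |(m i : ℝ) - ((-k : ℤ) : ℝ)| := by exact_mod_cast h4
        have h6 : |((m i : ℝ) - ((-k : ℤ) : ℝ)) * (2 * Real.pi)| ≤ e2 - e1 := by
          push_cast
          rw [abs_le]
          constructor
          · linarith [hpq i, hin.2, h2.1]
          · linarith [hpq i, hin.1, h2.2]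
        rw [abs_mul, abs_of_pos (by positivity : (0 : ℝ) < 2 * Real.pi)] at h6
        have := mul_le_mul_of_nonneg_right h5 (by positivity : (0 : ℝ) ≤ 2 * Real.pi)
        linarith
      refine mem_iUnion₂.mpr ⟨i, hiL, ?_⟩
      rw [h3]
      push_cast
      exact ⟨by linarith [hn.1], by linarith [hn.2]⟩
  have hIccIoc : ∀ (S : Set ℝ) (a b : ℝ), volume (S ∩ Icc a b) ≤ volume (S ∩ Ioc a b) := by
    intro S a b
    calc volume (S ∩ Icc a b) ≤ volume ((S ∩ Ioc a b) ∪ {a}) := by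
          apply measure_mono
          rintro s ⟨h1, h2, h3⟩
          rcases eq_or_lt_of_le h2 with h | h
          · exact Or.inr h.symm
          · exact Or.inl ⟨h1, h, h3⟩
      _ ≤ volume (S ∩ Ioc a b) + volume ({a} : Set ℝ) := measure_union_le _ _
      _ = volume (S ∩ Ioc a b) := by simp
  have hvU : volume UU ≤ ∑ j ∈ U, ENNReal.ofReal (q j - p j) := by
    refine (measure_biUnion_finset_le _ _).trans (Finset.sum_le_sum ?_)
    intro j _
    rw [Real.volume_Icc]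
    apply le_of_eq
    congr 1
    ring
  have hvL : volume LL ≤ ∑ j ∈ L, ENNReal.ofReal (q j - p j) := by
    refine (measure_biUnion_finset_le _ _).trans (Finset.sum_le_sum ?_)
    intro j _
    rw [Real.volume_Icc]
    apply le_of_eq
    congr 1
    ring
  have a1 : ENNReal.ofReal (e2 - e1) ≤ ∑ j ∈ L, ENNReal.ofReal (q j - p j) + volume (UU \ A) +
      volume (E ∩ Ioc (e1 + Real.pi) (e2 + Real.pi)) := by
    calc ENNReal.ofReal (e2 - e1) = volume (Icc e1 e2) := by rw [Real.volume_Icc]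
      _ ≤ volume (((fun s : ℝ => s + Real.pi) ⁻¹' LL) ∪ (UU \ A) ∪
          ((fun s : ℝ => s + Real.pi) ⁻¹' (E ∩ Icc (e1 + Real.pi) (e2 + Real.pi)))) := by
          apply measure_mono
          intro s hs
          by_cases h1 : s + Real.pi ∈ LL
          · exact Or.inl (Or.inl h1)
          · have h2 : s ∈ UU := (hpt s hs).resolve_right h1
            by_cases h3 : s ∈ A
            · right
              have h4 : s + Real.pi ∈ Icc (e1 + Real.pi) (e2 + Real.pi) := ⟨by linarith [hs.1], by linarith [hs.2]⟩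
              rcases l4 (s + Real.pi) h4 ((hAper s).mpr h3) with h | h
              · exact ⟨h, h4⟩
              · exact absurd h h1
            · exact Or.inl (Or.inr ⟨h2, h3⟩)
      _ ≤ volume ((fun s : ℝ => s + Real.pi) ⁻¹' LL) + volume (UU \ A) +
          volume ((fun s : ℝ => s + Real.pi) ⁻¹' (E ∩ Icc (e1 + Real.pi) (e2 + Real.pi))) :=
          (measure_union_le _ _).trans (by gcongr; exact measure_union_le _ _)
      _ ≤ _ := by
          rw [measure_preimage_add_right, measure_preimage_add_right]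
          exact add_le_add (add_le_add hvL le_rfl) (hIccIoc _ _ _)
  have a2 : ENNReal.ofReal (e2 - e1) ≤ ∑ j ∈ U, ENNReal.ofReal (q j - p j) + volume (LL \ A) +
      volume (E ∩ Ioc e1 e2) := by
    calc ENNReal.ofReal (e2 - e1) = volume (Icc e1 e2) := by rw [Real.volume_Icc]
      _ ≤ volume (UU ∪ ((fun s : ℝ => s + Real.pi) ⁻¹' (LL \ A)) ∪ (E ∩ Icc e1 e2)) := by
          apply measure_mono
          intro s hs
          by_cases h1 : s ∈ UU
          · exact Or.inl (Or.inl h1)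
          · have h2 : s + Real.pi ∈ LL := (hpt s hs).resolve_left h1
            by_cases h3 : s ∈ A
            · right
              rcases u4 s hs h3 with h | h
              · exact ⟨h, hs⟩
              · exact absurd h h1
            · exact Or.inl (Or.inr ⟨h2, fun h => h3 ((hAper s).mp h)⟩)
      _ ≤ volume UU + volume ((fun s : ℝ => s + Real.pi) ⁻¹' (LL \ A)) + volume (E ∩ Icc e1 e2) :=
          (measure_union_le _ _).trans (by gcongr; exact measure_union_le _ _)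
      _ ≤ _ := by
          rw [measure_preimage_add_right]
          exact add_le_add (add_le_add hvU le_rfl) (hIccIoc _ _ _)
  -- finiteness
  have hf1 : ∀ (S : Set ℝ) (a b : ℝ), volume (S ∩ Ioc a b) ≠ ∞ := fun S a b =>
    ne_top_of_le_ne_top (by simp) (measure_mono (inter_subset_right : S ∩ Ioc a b ⊆ Ioc a b))
  have hfs : ∀ F : Finset ι, ∑ j ∈ F, ENNReal.ofReal (q j - p j) ≠ ∞ := fun F =>
    ENNReal.sum_ne_top.mpr fun j _ => ENNReal.ofReal_ne_top
  have hfU : volume (UU \ A) ≠ ∞ :=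
    ne_top_of_le_ne_top (hfs U) ((measure_mono sdiff_subset).trans hvU)
  have hfL : volume (LL \ A) ≠ ∞ :=
    ne_top_of_le_ne_top (hfs L) ((measure_mono sdiff_subset).trans hvL)
  have hfB : ∀ F : Finset ι, ∑ j ∈ F, volume (B j ∩ Ioc 0 (2 * Real.pi)) ≠ ∞ := fun F =>
    ENNReal.sum_ne_top.mpr fun j _ => hf1 _ _ _
  have hrs : ∀ F : Finset ι, (∑ j ∈ F, ENNReal.ofReal (q j - p j)).toReal = ∑ j ∈ F, (q j - p j) := by
    intro F
    rw [ENNReal.toReal_sum fun j _ => ENNReal.ofReal_ne_top]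
    exact Finset.sum_congr rfl fun j _ => ENNReal.toReal_ofReal (by linarith [hpq j])
  have hrB : ∀ F : Finset ι, (∑ j ∈ F, volume (B j ∩ Ioc 0 (2 * Real.pi))).toReal =
      ∑ j ∈ F, (volume (B j ∩ Ioc 0 (2 * Real.pi))).toReal := fun F =>
    ENNReal.toReal_sum fun j _ => hf1 _ _ _
  have hadd : ∀ x y : ℝ≥0∞, x ≠ ∞ → y ≠ ∞ → x + y ≠ ∞ := fun x y h1 h2 => ENNReal.add_ne_top.mpr ⟨h1, h2⟩
  refine ⟨U, L, m, ?_, hU, hL, hmU, hmL, ?_, _, _, _, _, _, rfl, ?_, rfl, rfl, rfl, rfl, ?_⟩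
  · rw [Finset.disjoint_left]
    exact hUL
  · intro j h1 h2 n
    rcases hdich j n with h | h
    · exfalso
      rcases Int.even_or_odd' n with ⟨k, hk | hk⟩
      · apply h1
        refine (hU j).mpr ⟨k, ?_⟩
        have hkr : (n : ℝ) = 2 * k := by exact_mod_cast hk
        rw [hkr] at h
        exact ⟨by linarith [h.1], by linarith [h.2]⟩
      · apply h2
        refine (hL j).mpr ⟨k + 1, ?_⟩
        have hkr : (n : ℝ) = 2 * k + 1 := by exact_mod_cast hk
        rw [hkr] at h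
        push_cast
        exact ⟨by linarith [h.1], by linarith [h.2]⟩
    · exact h
  · rw [hGG]
  · refine ⟨?_, ?_, ?_, ?_, ?_, ?_, ?_, ?_⟩
    · have := ENNReal.toReal_mono (hadd _ _ (hadd _ _ (hfs L) hfU) (hf1 _ _ _)) a1
      rwa [ENNReal.toReal_add (hadd _ _ (hfs L) hfU) (hf1 _ _ _), ENNReal.toReal_add (hfs L) hfU, hrs,
        ENNReal.toReal_ofReal (by linarith)] at this
    · have := ENNReal.toReal_mono (hadd _ _ (hadd _ _ (hfs U) hfL) (hf1 _ _ _)) a2
      rwa [ENNReal.toReal_add (hadd _ _ (hfs U) hfL) (hf1 _ _ _), ENNReal.toReal_add (hfs U) hfL, hrs,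
        ENNReal.toReal_ofReal (by linarith)] at this
    · have := ENNReal.toReal_mono (hadd _ _ (ENNReal.mul_ne_top (by simp) (hfs U)) (hf1 _ _ _)) u3
      rw [ENNReal.toReal_add (hadd _ _ (hf1 _ _ _) (ENNReal.mul_ne_top (by simp) hfU)) (hfB U),
        ENNReal.toReal_add (hf1 _ _ _) (ENNReal.mul_ne_top (by simp) hfU),
        ENNReal.toReal_add (ENNReal.mul_ne_top (by simp) (hfs U)) (hf1 _ _ _), ENNReal.toReal_mul,
        ENNReal.toReal_mul, hrs, hrB] at this
      simpa using this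
    · have := ENNReal.toReal_mono (hadd _ _ (ENNReal.mul_ne_top (by simp) (hfs L)) (hf1 _ _ _)) l3
      rw [ENNReal.toReal_add (hadd _ _ (hf1 _ _ _) (ENNReal.mul_ne_top (by simp) hfL)) (hfB L),
        ENNReal.toReal_add (hf1 _ _ _) (ENNReal.mul_ne_top (by simp) hfL),
        ENNReal.toReal_add (ENNReal.mul_ne_top (by simp) (hfs L)) (hf1 _ _ _), ENNReal.toReal_mul,
        ENNReal.toReal_mul, hrs, hrB] at this
      simpa using this
    · have := ENNReal.toReal_mono (hf1 _ _ _) u1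
      rwa [hrB] at this
    · have := ENNReal.toReal_mono (hadd _ _ (hfB U) (hf1 _ _ _)) u2
      rwa [ENNReal.toReal_add (hfB U) (hf1 _ _ _), hrB] at this
    · have := ENNReal.toReal_mono (hf1 _ _ _) l1
      rwa [hrB] at this
    · have := ENNReal.toReal_mono (hadd _ _ (hfB L) (hf1 _ _ _)) l2
      rwa [ENNReal.toReal_add (hfB L) (hf1 _ _ _), hrB] at this

end Pool.Agent.FPM
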