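import Mathlib
import Pool.Agent.FPM.FTW

/-
I57D0 (helper57): definitions for the isoperimetric inequality with the surgery along an arc
`I = [e1, e2]` of the curve. `sE`, `dE`: coordinate along the arc and distance defect; `phiT`, `rhoT`:
the potentials.
-/

open MeasureTheory Set Filter Topology
open scoped ENNReal NNReal

noncomputable section

namespace Pool.Agent.FPM

open Pool.Agent.EWD

variable {M : Type} [MetricSpace M]

/-- the potential `max (-π/2) (π/2 - d(x, γ t))` -/
def phiT (γ : ℝ → M) (t : ℝ) (x : M) : ℝ := max (-(Real.pi / 2)) (Real.pi / 2 - dist x (γ t))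

/-- the potential of the arc -/
def rhoT (γ : ℝ → M) (e1 e2 t : ℝ) (x : M) : ℝ :=
  Real.pi / 2 - max (dist x (γ e1) - (t - e1)) (dist x (γ e2) - (e2 - t))

/-- the coordinate along the arc, between `0` and `e2 - e1` -/
def sE (γ : ℝ → M) (e1 e2 : ℝ) (x : M) : ℝ := (dist x (γ e1) - dist x (γ e2) + (e2 - e1)) / 2

/-- the defect in the triangle inequality -/
def dE (γ : ℝ → M) (e1 e2 : ℝ) (x : M) : ℝ := (dist x (γ e1) + dist x (γ e2) - (e2 - e1)) / 2

end Pool.Agent.FPM
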