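import Mathlib
import Pool.Agent.FPM.SU4A
import Pool.Agent.FPM.I57D0

/-
I57LP (helper57): the data of the pieces of the boundary of `{t < f}` at one level, for `f = |g|`.
-/

open MeasureTheory Set Filter Topology
open scoped ENNReal NNReal

noncomputable section

namespace Pool.Agent.FPM

open Pool.Agent.EWD Pool.Agent.FPX

variable {M : Type} [MetricSpace M] {γ : ℝ → M}

/-- The pieces of `Kt γ f t`: `big` pieces satisfy the perimeter inequality, the others have diameter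
at most `θ`; `tr` are the big pieces that meet the curve, with hulls `[p, q]`; `l` is the total length,
`θ'` the error. -/
structure LP57 (C : Calc M γ) (f : M → ℝ) (t θ θ' l : ℝ) {ι : Type} [Fintype ι] (big tr : Finset ι)
    (Z : ι → M → ℝ) (O : ι → Set M) (S p q : ι → ℝ) : Prop where
  op : ∀ i, IsOpen (O i)
  dj : ∀ i j, i ≠ j → Disjoint (O i) (O j)
  cov : Kt γ f t ⊆ ⋃ i, O i
  lip : ∀ i, Lip (Z i)
  lo : ∀ i x, 0 ≤ Z i x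
  hi : ∀ i x, Z i x ≤ 1
  one : ∀ i, ∀ x ∈ O i, Z i x = 1
  zer : ∀ i j, j ≠ i → ∀ x ∈ O j, Z i x = 0
  der : ∀ i, HasDerivAt (mz C (gn C f) f (Z i)) (S i) t
  GS : ∀ i, Gz γ f t (Z i) ≤ S i
  sumS : ∑ i, S i = l
  SGl : ∀ i, S i + Gz γ f t (Z i) ≤ l
  dust : ∀ i, i ∉ big → ∀ x ∈ O i, ∀ y ∈ O i, dist x y ≤ θ
  per : ∀ i ∈ big, ∀ x ∈ O i, ∀ y ∈ O i, ∀ z ∈ O i,
    dist x y + dist y z + dist z x ≤ S i + Gz γ f t (Z i) + θ'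
  trb : tr ⊆ big
  notr : ∀ i ∈ big, i ∉ tr → ∀ s, γ s ∈ O i → f (γ s) < t
  hle : ∀ i ∈ tr, p i ≤ q i
  hlt : ∀ i ∈ tr, q i < p i + Real.pi
  hp : ∀ i ∈ tr, γ (p i) ∈ O i ∧ t ≤ f (γ (p i))
  hq : ∀ i ∈ tr, γ (q i) ∈ O i ∧ t ≤ f (γ (q i))
  hull : ∀ i ∈ tr, ∀ s, γ s ∈ O i → t ≤ f (γ s) → ∃ n : ℤ, s + n * (2 * Real.pi) ∈ Icc (p i) (q i)
  t3 : ∀ i ∈ tr, ∀ (e1 e2 : ℚ) (n : ℤ), (e1 : ℝ) ≤ p i + n * (2 * Real.pi) →
    q i + n * (2 * Real.pi) ≤ (e2 : ℝ) → ∃ D : ℝ,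
      HasDerivAt (mz C (fun o => dE γ e1 e2 (C.pt o) * gn C f o) f (Z i)) D t ∧
      D ≤ (S i ^ 2 - (2 * (q i - p i) - Gz γ f t (Z i)) ^ 2) / 4 + θ'

end Pool.Agent.FPM
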