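import Mathlib
import Pool.Agent.FPM.DCB7

/-
DCL (helper19): the double covering F1 localised in the values of the 1-Lipschitz function.
-/

open MeasureTheory Set Filter Topology
open scoped ENNReal NNReal

noncomputable section

namespace Pool.Agent.FPM

open Pool.Agent.EWD

namespace DcbDat

variable {Ω : Type} [MeasurableSpace Ω]
variable {μ : Measure Ω} {Q P J : Ω → ℝ} {f q : ℝ → ℝ} {B : Set ℝ} {c d σ : ℝ}

/-- double covering for almost every level, values in `I` -/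
theorem slice_loc [SFinite μ] (h : DcbDat μ Q P J f q B c d σ) {G : Set (ℝ × ℝ)}
    (hG : ∀ᵐ v : ℝ × ℝ, v ∈ G →
      ENNReal.ofReal (2 * Real.pi) ≤ liminf (fun k => gk μ Q P (fun o => ENNReal.ofReal (1 * J o)) k v) atTop ∨
      ENNReal.ofReal (2 * Real.pi) ≤ liminf (fun k => gk μ Q P (fun o => ENNReal.ofReal (-1 * J o)) k v) atTop)
    {W : Ω → ℝ≥0∞} (hW : ∀ᵐ o ∂μ, ENNReal.ofReal |J o| ≤ W o) (hfin : ∫⁻ o, W o ∂μ ≠ ∞)
    {I : Set ℝ} (hI : MeasurableSet I) :
    ∀ᵐ t : ℝ, t ∈ Ioo c d → DifferentiableAt ℝ (La μ Q ((P ⁻¹' I).indicator W)) t ∧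
      2 * volume (I ∩ {s | (t, s) ∈ G ∨ ∃ r ∈ B, t < q r ∧ f r = s}) ≤
        ENNReal.ofReal (deriv (La μ Q ((P ⁻¹' I).indicator W)) t) +
          volume (B ∩ {r | t < q r ∧ f r ∈ I}) := by
  set T : Set (ℝ × ℝ) := Ioo c d ×ˢ univ with hT
  have mT : MeasurableSet T := measurableSet_Ioo.prod MeasurableSet.univ
  set V : Set (ℝ × ℝ) := univ ×ˢ I with hV
  have mV : MeasurableSet V := MeasurableSet.univ.prod hI
  set U : Set (ℝ × ℝ) := G ∪ Sw f '' Sg q B c d with hU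
  set E : Set (ℝ × ℝ) := toMeasurable volume (T ∩ (U ∩ V)) ∩ T with hE
  have mE : MeasurableSet E := (measurableSet_toMeasurable _ _).inter mT
  have mPI : MeasurableSet (P ⁻¹' I) := h.hP hI
  set W' : Ω → ℝ≥0∞ := (P ⁻¹' I).indicator W with hW'
  have hfin' : ∫⁻ o, W' o ∂μ ≠ ∞ :=
    ne_top_of_le_ne_top hfin (lintegral_mono fun o => indicator_le_self _ _ o)
  have hull : ∀ S : Set (ℝ × ℝ), MeasurableSet S → S ⊆ T →
      volume (S ∩ E) = volume (S ∩ (U ∩ V)) := by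
    intro S hS hST
    have e1 : volume (toMeasurable volume (T ∩ (U ∩ V)) ∩ S) = volume ((T ∩ (U ∩ V)) ∩ S) :=
      Measure.measure_toMeasurable_inter_of_sFinite hS _
    have e2 : S ∩ E = toMeasurable volume (T ∩ (U ∩ V)) ∩ S := by
      rw [hE]
      ext x
      simp only [mem_inter_iff]
      constructor
      · rintro ⟨h1, h2, -⟩
        exact ⟨h2, h1⟩
      · rintro ⟨h1, h2⟩
        exact ⟨h2, h1, hST h2⟩
    have e3 : S ∩ (U ∩ V) = (T ∩ (U ∩ V)) ∩ S := by
      ext x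
      simp only [mem_inter_iff]
      constructor
      · rintro ⟨h1, h2⟩
        exact ⟨⟨hST h1, h2⟩, h1⟩
      · rintro ⟨⟨-, h1⟩, h2⟩
        exact ⟨h2, h1⟩
    rw [e2, e1, e3]
  set R : Set (ℝ × ℝ) := {z : ℝ × ℝ | f z.1 ∈ I} with hR
  have mR : MeasurableSet R := (h.lf.continuous.measurable.comp measurable_fst) hI
  have hcov : ∀ S : Set (ℝ × ℝ), MeasurableSet S → S ⊆ T → 2 * volume (S ∩ E) ≤
      ∫⁻ o in (fun o => (Q o, P o)) ⁻¹' S, W' o ∂μ + volume (Sw f ⁻¹' S ∩ (Sg q B c d ∩ R)) := by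
    intro S hS hST
    rw [hull S hS hST]
    have e0 : S ∩ (U ∩ V) = (S ∩ V) ∩ U := by
      rw [inter_comm U V, ← inter_assoc]
    rw [e0]
    refine (h.cover hG (hS.inter mV) (inter_subset_left.trans hST)).trans (add_le_add ?_ ?_)
    · have e1 : (fun o => (Q o, P o)) ⁻¹' (S ∩ V) = (fun o => (Q o, P o)) ⁻¹' S ∩ P ⁻¹' I := by
        ext o
        simp [hV]
      rw [e1]
      refine (lintegral_mono_ae (ae_restrict_of_ae hW)).trans (le_of_eq ?_)
      rw [hW', lintegral_indicator mPI, Measure.restrict_restrict mPI, inter_comm]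
    · refine measure_mono ?_
      rintro z ⟨hz1, hz2⟩
      refine ⟨hz1.1, hz2, ?_⟩
      exact hz1.2.2
  -- the slices
  set e : ℝ → ℝ≥0∞ := fun t => volume (Prod.mk t ⁻¹' E) with he
  have me : Measurable e := measurable_measure_prodMk_left mE
  set Sg' : Set (ℝ × ℝ) := Sg q B c d ∩ R with hSg'
  have mSg' : MeasurableSet Sg' := (mSg h.mq h.mB).inter mR
  have vSg' : volume Sg' ≠ ∞ := ne_top_of_le_ne_top (vSg h.fB) (measure_mono inter_subset_left)
  set g : ℝ → ℝ≥0∞ := fun t => volume ((fun r => (r, t)) ⁻¹' Sg') with hg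
  have mg : Measurable g := measurable_measure_prodMk_right mSg'
  have ie : ∀ I : Set ℝ, MeasurableSet I → ∫⁻ t in I, e t = volume ((I ×ˢ univ) ∩ E) := by
    intro I hI
    rw [Measure.volume_eq_prod, Measure.prod_apply ((hI.prod MeasurableSet.univ).inter mE),
      ← lintegral_indicator hI]
    refine lintegral_congr fun t => ?_
    by_cases ht : t ∈ I
    · rw [indicator_of_mem ht]
      have : Prod.mk t ⁻¹' ((I ×ˢ univ) ∩ E) = Prod.mk t ⁻¹' E := by
        ext s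
        simp [ht]
      rw [this]
    · rw [indicator_of_notMem ht]
      symm
      have : Prod.mk t ⁻¹' ((I ×ˢ univ) ∩ E) = ∅ := by
        ext s
        simp [ht]
      rw [this, measure_empty]
  have ig : ∀ I : Set ℝ, MeasurableSet I → ∫⁻ t in I, g t =
      volume (Sw f ⁻¹' (I ×ˢ univ) ∩ Sg') := by
    intro I hI
    have m1 : MeasurableSet (Sw f ⁻¹' (I ×ˢ univ) ∩ Sg') :=
      (mSw h.lf (hI.prod MeasurableSet.univ)).inter mSg'
    rw [Measure.volume_eq_prod, Measure.prod_apply_symm m1, ← lintegral_indicator hI]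
    refine lintegral_congr fun t => ?_
    by_cases ht : t ∈ I
    · rw [indicator_of_mem ht]
      have : (fun r => (r, t)) ⁻¹' (Sw f ⁻¹' (I ×ˢ univ) ∩ Sg') =
          (fun r => (r, t)) ⁻¹' Sg' := by
        ext r
        simp [ht, Sw]
      rw [this]
    · rw [indicator_of_notMem ht]
      symm
      have : (fun r => (r, t)) ⁻¹' (Sw f ⁻¹' (I ×ˢ univ) ∩ Sg') = ∅ := by
        ext r
        simp [ht, Sw]
      rw [this, measure_empty]
  have fg : ∫⁻ t, g t ≠ ∞ := by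
    rw [← setLIntegral_univ, ig univ MeasurableSet.univ]
    exact ne_top_of_le_ne_top vSg' (measure_mono inter_subset_right)
  have fe : ∫⁻ t, 2 * e t ≠ ∞ := by
    rw [lintegral_const_mul _ me, ← setLIntegral_univ, ie univ MeasurableSet.univ]
    have h1 := hcov T mT subset_rfl
    have h2 : (univ ×ˢ univ ∩ E : Set (ℝ × ℝ)) = T ∩ E := by
      rw [univ_prod_univ, univ_inter, inter_eq_right.2 inter_subset_right]
    rw [h2]
    refine ne_top_of_le_ne_top ?_ h1
    refine ENNReal.add_ne_top.2 ⟨?_, ?_⟩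
    · exact ne_top_of_le_ne_top hfin' (setLIntegral_le_lintegral _ _)
    · exact ne_top_of_le_ne_top vSg' (measure_mono inter_subset_right)
  have key := diff_ineq (c := c) (d := d) h.hQ hfin' (me.const_mul 2) mg fe fg (by
    intro x y hcx hxy hyd
    have hI : (Icc x y ×ˢ (univ : Set ℝ)) ⊆ T := by
      rw [hT]
      exact prod_mono (fun t ht => ⟨lt_of_lt_of_le hcx ht.1, lt_of_le_of_lt ht.2 hyd⟩) subset_rfl
    rw [lintegral_const_mul _ me, ie _ measurableSet_Icc, ig _ measurableSet_Icc]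
    refine (hcov _ (measurableSet_Icc.prod MeasurableSet.univ) hI).trans (le_of_eq ?_)
    congr 3
    ext o
    simp)
  filter_upwards [key] with t ht htI
  obtain ⟨h1, h2⟩ := ht htI
  refine ⟨h1, ?_⟩
  have s1 : I ∩ {s | (t, s) ∈ G ∨ ∃ r ∈ B, t < q r ∧ f r = s} ⊆ Prod.mk t ⁻¹' E := by
    rintro s ⟨hsI, hs⟩
    refine ⟨subset_toMeasurable volume _ ⟨⟨htI, mem_univ _⟩, ?_, ⟨mem_univ _, hsI⟩⟩, ⟨htI, mem_univ _⟩⟩
    rcases hs with hs | ⟨r, hr, hr1, hr2⟩
    · exact Or.inl hs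
    · exact Or.inr ⟨(r, t), ⟨hr, ⟨htI.1, htI.2⟩, hr1⟩, by rw [Sw, hr2]⟩
  have s2 : (fun r => (r, t)) ⁻¹' Sg' ⊆ B ∩ {r | t < q r ∧ f r ∈ I} :=
    fun r hr => ⟨hr.1.1, hr.1.2.2, hr.2⟩
  refine (mul_le_mul' le_rfl (measure_mono s1)).trans (h2.trans (add_le_add le_rfl (measure_mono s2)))

end DcbDat

variable {M : Type} [MetricSpace M] {γ : ℝ → M}

/-- the density `H` on `{p ∈ I}` -/
def HI (C : Calc M γ) (H : Om → ℝ) (p : M → ℝ) (I : Set ℝ) (o : Om) : ℝ :=
  I.indicator (fun _ => H o) (p (C.pt o))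

/-- the length of the part of the boundary curve in the piece `ζ` above the level, with `p ∈ I` -/
def GI (γ : ℝ → M) (g : M → ℝ) (t : ℝ) (ζ p : M → ℝ) (I : Set ℝ) : ℝ :=
  (volume (Apt γ g t ζ ∩ {r | p (γ r) ∈ I} ∩ Ioc 0 (2 * Real.pi))).toReal

omit [MetricSpace M] in
theorem GI_nonneg (γ : ℝ → M) (g : M → ℝ) (t : ℝ) (ζ p : M → ℝ) (I : Set ℝ) :
    0 ≤ GI γ g t ζ p I := ENNReal.toReal_nonneg

theorem HI_nonneg {C : Calc M γ} {H : Om → ℝ} {o : Om} (h : 0 ≤ H o) (p : M → ℝ) (I : Set ℝ) :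
    0 ≤ HI C H p I o := indicator_apply_nonneg fun _ => h

theorem HI_le {C : Calc M γ} {H : Om → ℝ} {o : Om} (h : 0 ≤ H o) (p : M → ℝ) (I : Set ℝ) :
    HI C H p I o ≤ H o := by
  unfold HI
  by_cases h1 : p (C.pt o) ∈ I
  · rw [indicator_of_mem h1]
  · rw [indicator_of_notMem h1]
    exact h

theorem HI_integrable (C : Calc M γ) {H : Om → ℝ} (hH : Integrable H C.μ) {p : M → ℝ} (hp : Lip p)
    {I : Set ℝ} (hI : MeasurableSet I) : Integrable (HI C H p I) C.μ := by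
  have h1 : NullMeasurableSet {o | p (C.pt o) ∈ I} C.μ := (C.meas_pt hp).nullMeasurable hI
  have h2 := hH.indicator₀ h1
  refine h2.congr (Eventually.of_forall fun o => ?_)
  simp only [HI]
  by_cases h3 : p (C.pt o) ∈ I
  · have h4 : o ∈ {o | p (C.pt o) ∈ I} := h3
    rw [indicator_of_mem h3, indicator_of_mem h4]
  · have h4 : o ∉ {o | p (C.pt o) ∈ I} := h3
    rw [indicator_of_notMem h3, indicator_of_notMem h4]

variable [CompactSpace M]

/-- one band -/
theorem F1_band_loc (C : Calc M γ) (hγ : Bd γ) (hR : RegPl C) {g p ζ : M → ℝ} (hg : Lip g)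
    (hp : LipschitzWith 1 p) {c d : ℝ} (hcd : c < d) (hζ : Adb γ g c d ζ) {H : Om → ℝ}
    (hH : Integrable H C.μ) (hpg : ∀ᵐ o ∂C.μ, |C.wed p g o| ≤ H o) {I : Set ℝ} (hI : MeasurableSet I) :
    ∀ᵐ t : ℝ, t ∈ Ioo c d → DifferentiableAt ℝ (mz C (HI C H p I) g ζ) t ∧
      2 * volume (I ∩ p '' {x | (g x = t ∨ (x ∈ range γ ∧ t ≤ g x)) ∧ ζ x = 1}) ≤
        ENNReal.ofReal (deriv (mz C (HI C H p I) g ζ) t + GI γ g t ζ p I) := by
  have := C.fin
  have hpi := Real.pi_pos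
  have lp : Lip p := ⟨1, hp⟩
  obtain ⟨Q, hQm, hQ⟩ := C.meas_pt hg
  obtain ⟨P, hPm, hP⟩ := C.meas_pt lp
  have iJ : Integrable (fun o => ζ (C.pt o) * C.wed g p o) C.μ :=
    integrable_zH C hζ.lip hζ.lo hζ.hi (integrable_wed C hg lp)
  obtain ⟨J, hJm, hJ⟩ := iJ.1.aemeasurable
  have hJ' : (fun o => ζ (C.pt o) * C.wed g p o) =ᵐ[C.μ] J := hJ
  have iJ' : Integrable J C.μ := iJ.congr hJ'
  have hH0 : ∀ᵐ o ∂C.μ, 0 ≤ H o := by
    filter_upwards [hpg] with o ho
    exact (abs_nonneg _).trans ho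
  have iW : Integrable (fun o => ζ (C.pt o) * H o) C.μ := integrable_zH C hζ.lip hζ.lo hζ.hi hH
  have iW0 : ∀ᵐ o ∂C.μ, 0 ≤ ζ (C.pt o) * H o := by
    filter_upwards [hH0] with o ho
    exact mul_nonneg (hζ.lo _) ho
  have hHI := HI_integrable C hH lp hI
  have iWI : Integrable (fun o => ζ (C.pt o) * HI C H p I o) C.μ :=
    integrable_zH C hζ.lip hζ.lo hζ.hi hHI
  have iWI0 : ∀ᵐ o ∂C.μ, 0 ≤ ζ (C.pt o) * HI C H p I o := by
    filter_upwards [hH0] with o ho
    exact mul_nonneg (hζ.lo _) (HI_nonneg ho _ _)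
  obtain ⟨V, hVm, hV⟩ := iW.1.aemeasurable
  have hV' : (fun o => ζ (C.pt o) * H o) =ᵐ[C.μ] V := hV
  set W : Om → ℝ≥0∞ := fun o => ENNReal.ofReal (V o) with hW
  have hfin : ∫⁻ o, W o ∂C.μ ≠ ∞ := by
    have h1 : ∫⁻ o, W o ∂C.μ = ∫⁻ o, ENNReal.ofReal (ζ (C.pt o) * H o) ∂C.μ := by
      refine lintegral_congr_ae ?_
      filter_upwards [hV'] with o ho
      simp only [hW, ← ho]
    rw [h1, ← ofReal_integral_eq_lintegral_ofReal iW iW0]
    exact ENNReal.ofReal_ne_top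
  have hLa : mz C (HI C H p I) g ζ = La C.μ Q ((P ⁻¹' I).indicator W) := by
    funext r
    have e1 : ({o | g (C.pt o) < r} : Set Om) =ᵐ[C.μ] (Q ⁻¹' (Iio r) : Set Om) := by
      filter_upwards [hQ] with o ho
      change (g (C.pt o) < r) = (Q o < r)
      rw [ho]
    unfold mz
    rw [setIntegral_congr_set e1]
    unfold La
    rw [integral_eq_lintegral_of_nonneg_ae (ae_restrict_of_ae iWI0) iWI.1.restrict]
    congr 1
    refine lintegral_congr_ae (ae_restrict_of_ae ?_)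
    filter_upwards [hV', hP] with o ho hPo
    unfold HI
    by_cases h3 : p (C.pt o) ∈ I
    · have h4 : o ∈ P ⁻¹' I := by
        change P o ∈ I
        rw [← hPo]
        exact h3
      rw [indicator_of_mem h3, indicator_of_mem h4]
      simp only [hW, ← ho]
    · have h4 : o ∉ P ⁻¹' I := by
        intro h5
        have h6 : P o ∈ I := h5
        rw [← hPo] at h6
        exact h3 h6
      rw [indicator_of_notMem h3, indicator_of_notMem h4, mul_zero, ENNReal.ofReal_zero]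
  have c1 : Continuous fun r => ζ (γ r) := hζ.lip.cont.comp hγ.lip.continuous
  have c2 : Continuous fun r => g (γ r) := hg.cont.comp hγ.lip.continuous
  set B : Set ℝ := {r | ζ (γ r) = 1} ∩ Ioc 0 (2 * Real.pi) with hB
  have mB1 : MeasurableSet {r | ζ (γ r) = 1} := c1.measurable (measurableSet_singleton 1)
  have mB : MeasurableSet B := mB1.inter measurableSet_Ioc
  have lf : LipschitzWith 1 fun r => p (γ r) := by
    have := hp.comp hγ.lip
    rwa [mul_one] at this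
  have hD : DcbDat C.μ Q P J (fun r => p (γ r)) (fun r => g (γ r)) B c d (-C.sg) := by
    refine ⟨hQm, hPm, hJm, iJ', lf, c2.measurable, mB, ?_, hcd, ?_, ?_⟩
    · refine ne_top_of_le_ne_top ?_ (measure_mono inter_subset_right)
      rw [Real.volume_Ioc]
      exact ENNReal.ofReal_ne_top
    · rcases C.pm with h | h
      · exact Or.inr (by rw [h])
      · exact Or.inl (by rw [h]; norm_num)
    · intro a b a' b' hca hab hbd hab'
      have h1 := dcb_rect C hγ hcd hg lp hζ hca hab hbd hab'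
      have h2 : ∫ o, (Ioo a b ×ˢ Ioo a' b').indicator (fun _ => J o) ((Q o, P o) : ℝ × ℝ) ∂C.μ =
          ∫ o, (Ioo a b ×ˢ Ioo a' b').indicator (fun _ => ζ (C.pt o) * C.wed g p o)
            ((g (C.pt o), p (C.pt o)) : ℝ × ℝ) ∂C.μ := by
        refine integral_congr_ae ?_
        filter_upwards [hQ, hP, hJ'] with o h1 h2 h3
        simp only [h1, h2, h3]
      rw [h2, h1, neg_neg, intervalIntegral.integral_of_le (by positivity)]
      congr 1
      rw [hB, ← Measure.restrict_restrict mB1, ← integral_indicator mB1]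
      refine integral_congr_ae (Eventually.of_forall fun r => ?_)
      simp only
      rcases le_or_gt (g (γ r)) c with h3 | h3
      · have h6 : bnd a b (g (γ r)) = 0 := bnd_lo hab (h3.trans hca)
        by_cases h5 : r ∈ {r | ζ (γ r) = 1}
        · rw [indicator_of_mem h5, h6]
          simp
        · rw [indicator_of_notMem h5, h6]
          simp
      · rcases hζ.bd r h3.le with h4 | h4
        · have h5 : r ∉ {r | ζ (γ r) = 1} := fun h6 => by
            have h7 : ζ (γ r) = 1 := h6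
            rw [h4] at h7
            exact zero_ne_one h7
          rw [indicator_of_notMem h5, h4]
          simp
        · have h5 : r ∈ {r | ζ (γ r) = 1} := h4
          rw [indicator_of_mem h5, h4, one_mul]
  -- the surface part
  set G : Set (ℝ × ℝ) := {v | ∃ x, g x = v.1 ∧ p x = v.2 ∧ ζ x = 1} with hGdef
  have hG : ∀ᵐ v : ℝ × ℝ, v ∈ G →
      ENNReal.ofReal (2 * Real.pi) ≤
        liminf (fun k => gk C.μ Q P (fun o => ENNReal.ofReal (1 * J o)) k v) atTop ∨
      ENNReal.ofReal (2 * Real.pi) ≤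
        liminf (fun k => gk C.μ Q P (fun o => ENNReal.ofReal (-1 * J o)) k v) atTop := by
    filter_upwards [hR g p hg lp] with v hv hvG
    obtain ⟨Z, s, hVz⟩ := hv
    obtain ⟨x, hx1, hx2, hx3⟩ := hvG
    have hxZ : x ∈ Z := by
      rw [hVz.zero]
      exact ⟨by rw [hx1, sub_self], by rw [hx2, sub_self]⟩
    have h1 := zero_sign hVz hζ.lip hxZ hx3
    have key : ∀ σ : ℝ, (fun k : ℕ => ∫⁻ o, ENNReal.ofReal
        (kr (ek k) (g (C.pt o) - v.1, p (C.pt o) - v.2)) * ENNReal.ofReal (σ * (ζ (C.pt o) *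
          C.wed (fun x => g x - v.1) (fun x => p x - v.2) o)) ∂C.μ) =
        fun k => gk C.μ Q P (fun o => ENNReal.ofReal (σ * J o)) k v := by
      intro σ
      funext k
      unfold gk
      refine lintegral_congr_ae ?_
      filter_upwards [hQ, hP, hJ'] with o h1 h2 h3
      rw [wed_sub_const, h3]
      have e : ((Q o, P o) - v : ℝ × ℝ) = (g (C.pt o) - v.1, p (C.pt o) - v.2) := by
        rw [← h1, ← h2]
        rfl
      rw [e]
    rcases hVz.pm x hxZ with h2 | h2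
    · left
      rw [h2, key] at h1
      exact h1
    · right
      rw [h2, key] at h1
      exact h1
  have hWJ : ∀ᵐ o ∂C.μ, ENNReal.ofReal |J o| ≤ W o := by
    filter_upwards [hJ', hV', hpg] with o h1 h2 h3
    simp only [hW]
    rw [← h1, ← h2]
    refine ENNReal.ofReal_le_ofReal ?_
    rw [abs_mul, abs_of_nonneg (hζ.lo _), wed_antisymm, abs_neg]
    exact mul_le_mul_of_nonneg_left h3 (hζ.lo _)
  filter_upwards [hD.slice_loc hG hWJ hfin hI] with t ht htI
  obtain ⟨h20, h2⟩ := ht htI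
  rw [← hLa] at h20
  refine ⟨h20, ?_⟩
  have s1 : p '' {x | (g x = t ∨ (x ∈ range γ ∧ t ≤ g x)) ∧ ζ x = 1} ⊆
      {s | (t, s) ∈ G ∨ ∃ r ∈ B, t < g (γ r) ∧ p (γ r) = s} := by
    rintro s ⟨x, ⟨hx, hx1⟩, rfl⟩
    rcases hx with hx | ⟨hx, hxt⟩
    · exact Or.inl ⟨x, hx, rfl, hx1⟩
    · rcases hxt.eq_or_lt with h3 | h3
      · exact Or.inl ⟨x, h3.symm, rfl, hx1⟩
      · right
        have hper : Function.Periodic γ (2 * Real.pi) := hγ.per
        rw [← hper.image_Ioc (by positivity) 0, zero_add] at hx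
        obtain ⟨r, hr, rfl⟩ := hx
        exact ⟨r, ⟨hx1, hr⟩, h3, rfl⟩
  refine (mul_le_mul' le_rfl (measure_mono (inter_subset_inter_right _ s1))).trans (h2.trans ?_)
  have e1 : B ∩ {r | t < g (γ r) ∧ p (γ r) ∈ I} =
      Apt γ g t ζ ∩ {r | p (γ r) ∈ I} ∩ Ioc 0 (2 * Real.pi) := by
    ext r
    constructor
    · rintro ⟨⟨h3, h4⟩, h5, h6⟩
      exact ⟨⟨⟨h3, h5⟩, h6⟩, h4⟩
    · rintro ⟨⟨⟨h3, h5⟩, h6⟩, h4⟩
      exact ⟨⟨h3, h4⟩, h5, h6⟩
  have fin1 : volume (Apt γ g t ζ ∩ {r | p (γ r) ∈ I} ∩ Ioc 0 (2 * Real.pi)) ≠ ∞ := by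
    refine ne_top_of_le_ne_top ?_ (measure_mono inter_subset_right)
    rw [Real.volume_Ioc]
    exact ENNReal.ofReal_ne_top
  have e2 : volume (B ∩ {r | t < g (γ r) ∧ p (γ r) ∈ I}) = ENNReal.ofReal (GI γ g t ζ p I) := by
    rw [e1]
    unfold GI
    rw [ENNReal.ofReal_toReal fin1]
  have h3 : 0 ≤ deriv (mz C (HI C H p I) g ζ) t := mz_deriv_nonneg C hg hζ.lip hζ.lo hζ.hi hHI (by
    filter_upwards [hH0] with o ho
    exact HI_nonneg ho _ _) t
  rw [e2, ← hLa, ENNReal.ofReal_add h3 (GI_nonneg _ _ _ _ _ _)]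

/-- the localised double covering for one cut-off and one function -/
def DCI (C : Calc M γ) (H : Om → ℝ) (g p ζ : M → ℝ) (I : Set ℝ) (t : ℝ) : Prop := Adc γ g t ζ →
  DifferentiableAt ℝ (mz C (HI C H p I) g ζ) t ∧
  2 * volume (I ∩ p '' {x | (g x = t ∨ (x ∈ range γ ∧ t ≤ g x)) ∧ ζ x = 1}) ≤
    ENNReal.ofReal (deriv (mz C (HI C H p I) g ζ) t + GI γ g t ζ p I)

/-- F1, localised -/
theorem F1_loc (C : Calc M γ) (hγ : Bd γ) (hR : RegPl C) {g p ζ : M → ℝ} (hg : Lip g)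
    (hp : LipschitzWith 1 p) {H : Om → ℝ} (hH : Integrable H C.μ) (hpg : ∀ᵐ o ∂C.μ, |C.wed p g o| ≤ H o)
    {I : Set ℝ} (hI : MeasurableSet I) : ∀ᵐ t : ℝ, DCI C H g p ζ I t := by
  have key : ∀ᵐ t : ℝ, ∀ c d : ℚ, (c : ℝ) < d → Adb γ g c d ζ → t ∈ Ioo (c : ℝ) d →
      DifferentiableAt ℝ (mz C (HI C H p I) g ζ) t ∧
      2 * volume (I ∩ p '' {x | (g x = t ∨ (x ∈ range γ ∧ t ≤ g x)) ∧ ζ x = 1}) ≤
        ENNReal.ofReal (deriv (mz C (HI C H p I) g ζ) t + GI γ g t ζ p I) := by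
    rw [ae_all_iff]
    intro c
    rw [ae_all_iff]
    intro d
    by_cases hcd : (c : ℝ) < d
    · by_cases hz : Adb γ g c d ζ
      · filter_upwards [F1_band_loc C hγ hR hg hp hcd hz hH hpg hI] with t ht _ _
        exact ht
      · exact Eventually.of_forall fun t _ h => absurd h hz
    · exact Eventually.of_forall fun t h => absurd h hcd
  filter_upwards [key] with t ht hadc
  obtain ⟨δ, hδ, hA⟩ := hadc.exists_Adb
  obtain ⟨c, hc1, hc2⟩ := exists_rat_btwn (show t - δ < t by linarith)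
  obtain ⟨d, hd1, hd2⟩ := exists_rat_btwn (show t < t + δ by linarith)
  exact ht c d (hc2.trans hd1) (hA.mono hc1.le hd2.le) ⟨hc2, hd1⟩

/-- the masses of disjoint parts -/
theorem mz_sum_le (C : Calc M γ) {g ζ : M → ℝ} (hg : Lip g) (hl : Lip ζ) (h0 : ∀ x, 0 ≤ ζ x)
    (h1 : ∀ x, ζ x ≤ 1) {H : Om → ℝ} (hH : Integrable H C.μ) (hH0 : ∀ᵐ o ∂C.μ, 0 ≤ H o) {k : ℕ}
    {p : Fin k → M → ℝ} (hp : ∀ i, Lip (p i)) {I : Fin k → Set ℝ} (hI : ∀ i, MeasurableSet (I i))
    (hdis : ∀ i j, i ≠ j → ∀ x, p i x ∈ I i → p j x ∉ I j) {t : ℝ}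
    (hd : ∀ i, DifferentiableAt ℝ (mz C (HI C H (p i) (I i)) g ζ) t)
    (hd0 : DifferentiableAt ℝ (mz C H g ζ) t) :
    ∑ i, deriv (mz C (HI C H (p i) (I i)) g ζ) t ≤ deriv (mz C H g ζ) t := by
  have hi : ∀ i, Integrable (HI C H (p i) (I i)) C.μ := fun i => HI_integrable C hH (hp i) (hI i)
  have hs : Integrable (fun o => ∑ i, HI C H (p i) (I i) o) C.μ := integrable_finsetSum _ fun i _ => hi i
  set R : Om → ℝ := fun o => H o - ∑ i, HI C H (p i) (I i) o with hR
  have hRi : Integrable R C.μ := hH.sub hs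
  have hR0 : ∀ᵐ o ∂C.μ, 0 ≤ R o := by
    filter_upwards [hH0] with o ho
    simp only [hR]
    by_cases hex : ∃ i, p i (C.pt o) ∈ I i
    · obtain ⟨i, hi⟩ := hex
      have e1 : ∑ j, HI C H (p j) (I j) o = HI C H (p i) (I i) o := by
        refine Finset.sum_eq_single i (fun j _ hj => ?_) (fun h => absurd (Finset.mem_univ i) h)
        unfold HI
        rw [indicator_of_notMem (hdis i j (Ne.symm hj) _ hi)]
      rw [e1]
      have := HI_le (C := C) ho (p i) (I i)
      linarith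
    · have e1 : ∑ j, HI C H (p j) (I j) o = 0 := by
        refine Finset.sum_eq_zero fun j _ => ?_
        unfold HI
        rw [indicator_of_notMem (fun h => hex ⟨j, h⟩)]
      rw [e1, sub_zero]
      exact ho
  have e : mz C R g ζ = fun r => mz C H g ζ r - ∑ i, mz C (HI C H (p i) (I i)) g ζ r := by
    funext r
    unfold mz
    rw [← integral_finsetSum _ (fun i _ => (integrable_zH C hl h0 h1 (hi i)).integrableOn),
      ← integral_sub (integrable_zH C hl h0 h1 hH).integrableOn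
        (integrable_finsetSum _ fun i _ => (integrable_zH C hl h0 h1 (hi i)).integrableOn)]
    congr 1
    funext o
    simp only [hR]
    rw [mul_sub, Finset.mul_sum]
  have h2 : 0 ≤ deriv (mz C R g ζ) t := mz_deriv_nonneg C hg hl h0 h1 hRi hR0 t
  have h3 : HasDerivAt (fun r => mz C H g ζ r - ∑ i, mz C (HI C H (p i) (I i)) g ζ r)
      (deriv (mz C H g ζ) t - ∑ i, deriv (mz C (HI C H (p i) (I i)) g ζ) t) t :=
    hd0.hasDerivAt.sub (HasDerivAt.fun_sum fun i _ => (hd i).hasDerivAt)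
  rw [e, h3.deriv] at h2
  linarith

omit [CompactSpace M] in
/-- the boundary lengths of disjoint parts -/
theorem GI_sum_le (hγ : Bd γ) {g ζ : M → ℝ} (hg : Lip g) (hl : Lip ζ) {k : ℕ}
    {p : Fin k → M → ℝ} (hp : ∀ i, Lip (p i)) {I : Fin k → Set ℝ} (hI : ∀ i, MeasurableSet (I i))
    (hdis : ∀ i j, i ≠ j → ∀ x, p i x ∈ I i → p j x ∉ I j) (t : ℝ) :
    ∑ i, GI γ g t ζ (p i) (I i) ≤ Gz γ g t ζ := by
  have hm : ∀ i, MeasurableSet (Apt γ g t ζ ∩ {r | p i (γ r) ∈ I i} ∩ Ioc 0 (2 * Real.pi)) := fun i =>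
    ((meas_Apt hγ hg hl t).inter (((hp i).cont.comp hγ.lip.continuous).measurable (hI i))).inter
      measurableSet_Ioc
  have fin0 : volume (Apt γ g t ζ ∩ Ioc 0 (2 * Real.pi)) ≠ ∞ := by
    refine ne_top_of_le_ne_top ?_ (measure_mono inter_subset_right)
    rw [Real.volume_Ioc]
    exact ENNReal.ofReal_ne_top
  have sub : ∀ i, Apt γ g t ζ ∩ {r | p i (γ r) ∈ I i} ∩ Ioc 0 (2 * Real.pi) ⊆
      Apt γ g t ζ ∩ Ioc 0 (2 * Real.pi) := fun i x hx => ⟨hx.1.1, hx.2⟩
  unfold GI Gz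
  rw [← ENNReal.toReal_sum fun i _ => ne_top_of_le_ne_top fin0 (measure_mono (sub i))]
  refine ENNReal.toReal_mono fin0 ?_
  have h1 := measure_iUnion (μ := volume) (f := fun i => Apt γ g t ζ ∩ {r | p i (γ r) ∈ I i} ∩
    Ioc 0 (2 * Real.pi)) (by
      intro i j hij
      change Disjoint _ _
      rw [Set.disjoint_left]
      intro x hx hx'
      exact hdis i j hij _ hx.1.2 hx'.1.2) hm
  rw [tsum_fintype] at h1
  rw [← h1]
  exact measure_mono (iUnion_subset sub)

/-- the double covering for disjoint balls and connected subsets of a piece -/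
theorem F1_balls (C : Calc M γ) (hγ : Bd γ) (hR : RegPl C) {g : M → ℝ} (hg : Lip g)
    {H : Om → ℝ} (hH : Integrable H C.μ)
    (hpg : ∀ p : M → ℝ, LipschitzWith 1 p → ∀ᵐ o ∂C.μ, |C.wed p g o| ≤ H o)
    {Z : ℕ → M → ℝ} (hZl : ∀ n, Lip (Z n)) (hZ0 : ∀ n x, 0 ≤ Z n x) (hZ1 : ∀ n x, Z n x ≤ 1) :
    ∀ᵐ t : ℝ, ∀ n, Adc γ g t (Z n) → ∀ (k : ℕ) (z : Fin k → M) (r : Fin k → ℝ),
      (∀ i j, i ≠ j → Disjoint (Metric.ball (z i) (r i)) (Metric.ball (z j) (r j))) →
      ∀ A : Fin k → Set M, (∀ i, IsPreconnected (A i)) →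
      (∀ i, ∀ x ∈ A i, x ∈ Kt γ g t ∧ Z n x = 1) →
      ∀ x y : Fin k → M, (∀ i, x i ∈ A i) → (∀ i, y i ∈ A i) →
      ∑ i, 2 * (min (r i) (dist (y i) (z i)) - dist (x i) (z i)) ≤
        deriv (mz C H g (Z n)) t + Gz γ g t (Z n) := by
  rcases isEmpty_or_nonempty M with hM | hM
  · exact (hM.false (γ 0)).elim
  have hH0 : ∀ᵐ o ∂C.μ, 0 ≤ H o := by
    filter_upwards [hpg (fun _ => 0) ((LipschitzWith.const 0).weaken zero_le_one)] with o ho
    exact (abs_nonneg _).trans ho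
  have a1 : ∀ᵐ t : ℝ, ∀ (n m : ℕ) (q : ℚ),
      DCI C H g (fun y => dist y (TopologicalSpace.denseSeq M m)) (Z n) (Iio (q : ℝ)) t := by
    rw [ae_all_iff]
    intro n
    rw [ae_all_iff]
    intro m
    rw [ae_all_iff]
    intro q
    exact F1_loc C hγ hR hg (LipschitzWith.dist_left _) hH (hpg _ (LipschitzWith.dist_left _))
      measurableSet_Iio
  have a2 : ∀ᵐ t : ℝ, ∀ n : ℕ, DifferentiableAt ℝ (mz C H g (Z n)) t := by
    rw [ae_all_iff]
    intro n
    exact (mz_mono C hg (hZl n) (hZ0 n) (hZ1 n) hH hH0).ae_differentiableAt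
  filter_upwards [a1, a2] with t t1 t2 n hn k z r hdis A hA hAK x y hx hy
  refine le_of_forall_pos_le_add fun η hη => ?_
  set e : ℝ := η / (6 * k + 1) with he
  have hk0 : (0 : ℝ) ≤ k := Nat.cast_nonneg k
  have he0 : 0 < e := by positivity
  have hek : (6 * k) * e ≤ η := by
    rw [he, ← mul_div_assoc, div_le_iff₀ (by positivity)]
    nlinarith
  have hm : ∀ i, ∃ m, dist (z i) (TopologicalSpace.denseSeq M m) < e := fun i =>
    (TopologicalSpace.denseRange_denseSeq M).exists_dist_lt (z i) he0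
  choose m hm using hm
  have hq : ∀ i, ∃ q : ℚ, r i - 2 * e < q ∧ (q : ℝ) < r i - e := fun i =>
    exists_rat_btwn (by linarith)
  choose q hq1 hq2 using hq
  set p : Fin k → M → ℝ := fun i w => dist w (TopologicalSpace.denseSeq M (m i)) with hp
  set I : Fin k → Set ℝ := fun i => Iio (q i : ℝ) with hI
  have hpl : ∀ i, Lip (p i) := fun i => ⟨1, LipschitzWith.dist_left _⟩
  have hIm : ∀ i, MeasurableSet (I i) := fun i => measurableSet_Iio
  have hin : ∀ i w, p i w ∈ I i → w ∈ Metric.ball (z i) (r i) := by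
    intro i w hw
    have h1 : dist w (TopologicalSpace.denseSeq M (m i)) < q i := hw
    have h2 := dist_triangle w (TopologicalSpace.denseSeq M (m i)) (z i)
    rw [dist_comm (TopologicalSpace.denseSeq M (m i)) (z i)] at h2
    rw [Metric.mem_ball]
    linarith [hm i, hq2 i]
  have hdis' : ∀ i j, i ≠ j → ∀ w, p i w ∈ I i → p j w ∉ I j := fun i j hij w h1 h2 =>
    Set.disjoint_left.1 (hdis i j hij) (hin i w h1) (hin j w h2)
  have hD : ∀ i, DCI C H g (p i) (Z n) (I i) t := fun i => t1 n (m i) (q i)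
  have s1 := mz_sum_le C hg (hZl n) (hZ0 n) (hZ1 n) hH hH0 hpl hIm hdis' (fun i => (hD i hn).1) (t2 n)
  have s2 := GI_sum_le hγ hg (hZl n) hpl hIm hdis' t
  have each : ∀ i, 2 * (min (q i : ℝ) (p i (y i)) - p i (x i)) ≤
      deriv (mz C (HI C H (p i) (I i)) g (Z n)) t + GI γ g t (Z n) (p i) (I i) := by
    intro i
    have hnn : 0 ≤ deriv (mz C (HI C H (p i) (I i)) g (Z n)) t + GI γ g t (Z n) (p i) (I i) :=
      add_nonneg (mz_deriv_nonneg C hg (hZl n) (hZ0 n) (hZ1 n) (HI_integrable C hH (hpl i) (hIm i)) (by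
        filter_upwards [hH0] with o ho
        exact HI_nonneg ho _ _) t) (GI_nonneg _ _ _ _ _ _)
    have h1 := (hD i hn).2
    have h2 : Ico (p i (x i)) (min (q i : ℝ) (p i (y i))) ⊆
        I i ∩ p i '' {x | (g x = t ∨ (x ∈ range γ ∧ t ≤ g x)) ∧ Z n x = 1} := by
      intro s hs
      refine ⟨lt_of_lt_of_le hs.2 (min_le_left _ _), ?_⟩
      have h3 : IsPreconnected (p i '' A i) := (hA i).image (p i) (hpl i).cont.continuousOn
      have h4 := h3.Icc_subset (mem_image_of_mem (p i) (hx i)) (mem_image_of_mem (p i) (hy i))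
      obtain ⟨w, hw, hw'⟩ := h4 ⟨hs.1, hs.2.le.trans (min_le_right _ _)⟩
      exact ⟨w, hAK i w hw, hw'⟩
    have h3 : 2 * ENNReal.ofReal (min (q i : ℝ) (p i (y i)) - p i (x i)) ≤
        ENNReal.ofReal (deriv (mz C (HI C H (p i) (I i)) g (Z n)) t + GI γ g t (Z n) (p i) (I i)) := by
      refine le_trans ?_ h1
      gcongr
      rw [← Real.volume_Ico]
      exact measure_mono h2
    have h4 : ENNReal.ofReal (2 * (min (q i : ℝ) (p i (y i)) - p i (x i))) ≤
        ENNReal.ofReal (deriv (mz C (HI C H (p i) (I i)) g (Z n)) t + GI γ g t (Z n) (p i) (I i)) := by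
      rwa [ENNReal.ofReal_mul (by norm_num), ENNReal.ofReal_ofNat]
    exact (ENNReal.ofReal_le_ofReal_iff hnn).1 h4
  have fin : ∀ i, 2 * (min (r i) (dist (y i) (z i)) - dist (x i) (z i)) ≤
      2 * (min (q i : ℝ) (p i (y i)) - p i (x i)) + 6 * e := by
    intro i
    have h1 := dist_triangle (x i) (z i) (TopologicalSpace.denseSeq M (m i))
    have h2 := dist_triangle (y i) (TopologicalSpace.denseSeq M (m i)) (z i)
    rw [dist_comm (TopologicalSpace.denseSeq M (m i)) (z i)] at h2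
    have h3 : min (r i) (dist (y i) (z i)) ≤ min (q i : ℝ) (p i (y i)) + 2 * e := by
      have h5 : min (r i) (dist (y i) (z i)) - 2 * e ≤ min (q i : ℝ) (p i (y i)) := by
        refine le_min (by linarith [min_le_left (r i) (dist (y i) (z i)), hq1 i]) ?_
        change min (r i) (dist (y i) (z i)) - 2 * e ≤ dist (y i) (TopologicalSpace.denseSeq M (m i))
        linarith [hm i, min_le_right (r i) (dist (y i) (z i))]
      linarith
    have h4 : p i (x i) ≤ dist (x i) (z i) + e := by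
      change dist (x i) (TopologicalSpace.denseSeq M (m i)) ≤ _
      linarith [hm i]
    linarith
  have t3 : ∑ i, 2 * (min (r i) (dist (y i) (z i)) - dist (x i) (z i)) ≤
      ∑ i : Fin k, ((deriv (mz C (HI C H (p i) (I i)) g (Z n)) t + GI γ g t (Z n) (p i) (I i)) + 6 * e) :=
    Finset.sum_le_sum fun i _ => (fin i).trans (by linarith [each i])
  rw [Finset.sum_add_distrib, Finset.sum_add_distrib] at t3
  simp only [Finset.sum_const, Finset.card_univ, Fintype.card_fin, nsmul_eq_mul] at t3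
  nlinarith

end Pool.Agent.FPM
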