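import Mathlib
import Pool.Agent.FPM.DCM
import Pool.Agent.FPM.TMB

/-
TRI0 (helper19): the perimeter of three points of a connected part of a piece is at most the length of
the piece, level part and curve part together.
-/

open MeasureTheory Set Filter Topology
open scoped ENNReal NNReal

noncomputable section

namespace Pool.Agent.FPM

open Pool.Agent.EWD

variable {M : Type} [MetricSpace M] {γ : ℝ → M} [CompactSpace M]

omit [CompactSpace M] in
/-- balls of three points that touch each other -/
theorem ball3_disj {a b : M} {r s : ℝ} (h : r + s ≤ dist a b) :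
    Disjoint (Metric.ball a r) (Metric.ball b s) := by
  rw [Set.disjoint_left]
  intro w h1 h2
  rw [Metric.mem_ball] at h1 h2
  have h3 := dist_triangle a w b
  rw [dist_comm a w] at h3
  linarith

/-- the perimeter of three points -/
theorem TRI0 (C : Calc M γ) (hγ : Bd γ) (hR : RegPl C) {g : M → ℝ} (hg : Lip g)
    {H : Om → ℝ} (hH : Integrable H C.μ)
    (hpg : ∀ p : M → ℝ, LipschitzWith 1 p → ∀ᵐ o ∂C.μ, |C.wed p g o| ≤ H o)
    {Z : ℕ → M → ℝ} (hZl : ∀ n, Lip (Z n)) (hZ0 : ∀ n x, 0 ≤ Z n x) (hZ1 : ∀ n x, Z n x ≤ 1) :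
    ∀ᵐ t : ℝ, ∀ n, Adc γ g t (Z n) → ∀ A : Set M, IsPreconnected A →
      (∀ x ∈ A, x ∈ Kt γ g t ∧ Z n x = 1) → ∀ ρ : ℝ, ∀ x y z : M,
      (∃ a ∈ A, dist x a ≤ ρ) → (∃ a ∈ A, dist y a ≤ ρ) → (∃ a ∈ A, dist z a ≤ ρ) →
      dist x y + dist y z + dist z x ≤ deriv (mz C H g (Z n)) t + Gz γ g t (Z n) + 6 * ρ := by
  filter_upwards [F1_balls C hγ hR hg hH hpg hZl hZ0 hZ1] with t ht n hn A hA hAK ρ x y z hx hy hz
  obtain ⟨a, ha, hxa⟩ := hx
  obtain ⟨b, hb, hyb⟩ := hy
  obtain ⟨c, hc, hzc⟩ := hz
  have t1 := dist_triangle a b c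
  have t2 := dist_triangle b c a
  have t3 := dist_triangle c a b
  rw [dist_comm c a] at t2 t3
  rw [dist_comm b a] at t2
  rw [dist_comm c b] at t3
  set r1 : ℝ := (dist a b + dist a c - dist b c) / 2 with h1
  set r2 : ℝ := (dist a b + dist b c - dist a c) / 2 with h2
  set r3 : ℝ := (dist a c + dist b c - dist a b) / 2 with h3
  have d12 : Disjoint (Metric.ball a r1) (Metric.ball b r2) := ball3_disj (by rw [h1, h2]; linarith)
  have d13 : Disjoint (Metric.ball a r1) (Metric.ball c r3) := ball3_disj (by rw [h1, h3]; linarith)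
  have d23 : Disjoint (Metric.ball b r2) (Metric.ball c r3) := ball3_disj (by rw [h2, h3]; linarith)
  have key := ht n hn 3 ![a, b, c] ![r1, r2, r3] (by
    intro i j hij
    fin_cases i <;> fin_cases j <;> first | exact absurd rfl hij | skip
    · exact d12
    · exact d13
    · exact d12.symm
    · exact d23
    · exact d13.symm
    · exact d23.symm) (fun _ => A) (fun _ => hA) (fun _ => hAK) ![a, b, c] ![b, c, a] (by
    intro i
    fin_cases i
    · exact ha
    · exact hb
    · exact hc) (by
    intro i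
    fin_cases i
    · exact hb
    · exact hc
    · exact ha)
  rw [Fin.sum_univ_three] at key
  simp only [Matrix.cons_val_zero, Matrix.cons_val_one, Matrix.cons_val, dist_self, sub_zero] at key
  rw [dist_comm b a, dist_comm c b, min_eq_left (by rw [h1]; linarith), min_eq_left (by rw [h2]; linarith),
    min_eq_left (by rw [h3]; linarith)] at key
  have e1 := dist_triangle4 x a b y
  have e2 := dist_triangle4 y b c z
  have e3 := dist_triangle4 z c a x
  rw [dist_comm b y] at e1
  rw [dist_comm c z] at e2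
  rw [dist_comm a x, dist_comm c a] at e3
  linarith

end Pool.Agent.FPM
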