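import Mathlib
import Pool.Agent.FPM.TRI0

/-
TRI (helper87): the integral of the excess `(dist x (γ p) + dist x (γ q) - (q - p)) / 2` over the level part
of a piece of the boundary with the hull `[p, q]`.
-/

open MeasureTheory Set Filter Topology
open scoped ENNReal NNReal

noncomputable section

namespace Pool.Agent.FPM

open Pool.Agent.EWD

variable {M : Type} [MetricSpace M] {γ : ℝ → M}

section lin

variable (C : Calc M γ)

theorem mz_sub {g ζ : M → ℝ} (hl : Lip ζ) (h0 : ∀ x, 0 ≤ ζ x) (h1 : ∀ x, ζ x ≤ 1)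
    {H₁ H₂ : Om → ℝ} (i₁ : Integrable H₁ C.μ) (i₂ : Integrable H₂ C.μ) (r : ℝ) :
    mz C (fun o => H₂ o - H₁ o) g ζ r = mz C H₂ g ζ r - mz C H₁ g ζ r := by
  unfold mz
  rw [← integral_sub (integrable_zH C hl h0 h1 i₂).integrableOn
    (integrable_zH C hl h0 h1 i₁).integrableOn]
  refine integral_congr_ae (Eventually.of_forall fun o => ?_)
  simp only
  ring

theorem mz_add' {g ζ : M → ℝ} (hl : Lip ζ) (h0 : ∀ x, 0 ≤ ζ x) (h1 : ∀ x, ζ x ≤ 1)
    {H₁ H₂ : Om → ℝ} (i₁ : Integrable H₁ C.μ) (i₂ : Integrable H₂ C.μ) (r : ℝ) :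
    mz C (fun o => H₁ o + H₂ o) g ζ r = mz C H₁ g ζ r + mz C H₂ g ζ r := by
  unfold mz
  rw [← integral_add (integrable_zH C hl h0 h1 i₁).integrableOn
    (integrable_zH C hl h0 h1 i₂).integrableOn]
  refine integral_congr_ae (Eventually.of_forall fun o => ?_)
  simp only
  ring

theorem mz_const_mul {g ζ : M → ℝ} {H : Om → ℝ} (c r : ℝ) :
    mz C (fun o => c * H o) g ζ r = c * mz C H g ζ r := by
  unfold mz
  rw [← integral_const_mul]
  refine integral_congr_ae (Eventually.of_forall fun o => ?_)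
  simp only
  ring

theorem mz_sum {g ζ : M → ℝ} (hl : Lip ζ) (h0 : ∀ x, 0 ≤ ζ x) (h1 : ∀ x, ζ x ≤ 1)
    {ι : Type} (s : Finset ι) {H : ι → Om → ℝ} (i₁ : ∀ i ∈ s, Integrable (H i) C.μ) (r : ℝ) :
    mz C (fun o => ∑ i ∈ s, H i o) g ζ r = ∑ i ∈ s, mz C (H i) g ζ r := by
  unfold mz
  rw [← integral_finsetSum s fun i hi => (integrable_zH C hl h0 h1 (i₁ i hi)).integrableOn]
  refine integral_congr_ae (Eventually.of_forall fun o => ?_)
  simp only
  rw [Finset.mul_sum]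

theorem mz_incr_le [CompactSpace M] {g ζ : M → ℝ} (hg : Lip g) (hl : Lip ζ) (h0 : ∀ x, 0 ≤ ζ x) (h1 : ∀ x, ζ x ≤ 1)
    {H₁ H₂ : Om → ℝ} (i₁ : Integrable H₁ C.μ) (i₂ : Integrable H₂ C.μ)
    (hle : ∀ᵐ o ∂C.μ, H₁ o ≤ H₂ o) {a b : ℝ} (hab : a ≤ b) :
    mz C H₁ g ζ b - mz C H₁ g ζ a ≤ mz C H₂ g ζ b - mz C H₂ g ζ a := by
  have h2 := mz_mono C hg hl h0 h1 (i₂.sub i₁) (by
    filter_upwards [hle] with o ho
    simp only [Pi.sub_apply]
    linarith) hab
  have e : (H₂ - H₁ : Om → ℝ) = fun o => H₂ o - H₁ o := rfl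
  rw [e, mz_sub C hl h0 h1 i₁ i₂, mz_sub C hl h0 h1 i₁ i₂] at h2
  linarith

end lin

theorem tri_gam_le (hγ : Bd γ) (s t : ℝ) : dist (γ s) (γ t) ≤ |s - t| := by
  have := hγ.lip.dist_le_mul s t
  rwa [NNReal.coe_one, one_mul, Real.dist_eq] at this

theorem tri_gam_eq (hγ : Bd γ) {s t : ℝ} (h0 : s ≤ t) (h1 : t ≤ s + Real.pi) :
    dist (γ s) (γ t) = t - s := by
  have a1 := tri_gam_le hγ s t
  have a2 := tri_gam_le hγ t (s + Real.pi)
  have a3 := hγ.anti s
  have a4 := dist_triangle (γ s) (γ t) (γ (s + Real.pi))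
  rw [abs_sub_comm, abs_of_nonneg (by linarith)] at a1 a2
  linarith

/-- a periodic set has the same measure in every period -/
theorem tri_per_vol {A : Set ℝ} (hA : MeasurableSet A) (hper : ∀ s, s + 2 * Real.pi ∈ A ↔ s ∈ A) (a : ℝ) :
    volume (A ∩ Ioc 0 (2 * Real.pi)) = volume (A ∩ Ioc a (a + 2 * Real.pi)) := by
  have hpi : 0 < 2 * Real.pi := by positivity
  have f1 := isAddFundamentalDomain_Ioc hpi 0 volume
  have f2 := isAddFundamentalDomain_Ioc hpi a volume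
  rw [zero_add] at f1
  have key : ∀ (k : ℤ) (s : ℝ), s + k * (2 * Real.pi) ∈ A ↔ s ∈ A := by
    intro k
    induction k with
    | zero => intro s; simp
    | succ n ih =>
      intro s
      rw [← ih s, ← hper (s + (n : ℤ) * (2 * Real.pi))]
      have e : s + ((n : ℤ) + 1 : ℤ) * (2 * Real.pi) = s + (n : ℤ) * (2 * Real.pi) + 2 * Real.pi := by
        push_cast
        ring
      rw [e]
    | pred n ih =>
      intro s
      rw [← ih s, ← hper (s + (-(n : ℤ) - 1 : ℤ) * (2 * Real.pi))]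
      have e : s + (-(n : ℤ) - 1 : ℤ) * (2 * Real.pi) + 2 * Real.pi = s + (-(n : ℤ) : ℤ) * (2 * Real.pi) := by
        push_cast
        ring
      rw [e]
  refine f1.measure_set_eq f2 hA ?_
  rintro ⟨x, hx⟩
  obtain ⟨k, rfl⟩ := AddSubgroup.mem_zmultiples_iff.1 hx
  ext s
  change k • (2 * Real.pi) + s ∈ A ↔ s ∈ A
  rw [← key k s, zsmul_eq_mul, add_comm]

/-- the part of the boundary curve of a piece with the hull `[p, q]` -/
theorem GI_hull (hγ : Bd γ) {g ζ P : M → ℝ} {t : ℝ} (hg : Lip g) (hl : Lip ζ) (hP : Continuous P)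
    {I : Set ℝ} (hI : MeasurableSet I) {p q : ℝ} (hpq : q < p + 2 * Real.pi)
    (hull : ∀ s, ζ (γ s) = 1 → t ≤ g (γ s) → ∃ m : ℤ, s + m * (2 * Real.pi) ∈ Icc p q) {a b : ℝ}
    (hab : a ≤ b) (h : ∀ s ∈ Icc p q, P (γ s) ∈ I → s ∈ Icc a b) : GI γ g t ζ P I ≤ b - a := by
  have hpi := Real.pi_pos
  set A : Set ℝ := Apt γ g t ζ ∩ {r | P (γ r) ∈ I} with hAd
  have mA : MeasurableSet A := (meas_Apt hγ hg hl t).inter ((hP.comp hγ.lip.continuous).measurable hI)
  have pA : ∀ s, s + 2 * Real.pi ∈ A ↔ s ∈ A := by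
    intro s
    simp only [hAd, Apt, mem_inter_iff, mem_ofPred_eq, hγ.per s]
  unfold GI
  rw [← hAd, tri_per_vol mA pA (q - 2 * Real.pi), sub_add_cancel]
  have h1 : A ∩ Ioc (q - 2 * Real.pi) q ⊆ Icc a b := by
    rintro s ⟨⟨⟨h2, h3⟩, h4⟩, h5, h6⟩
    obtain ⟨m, hm1, hm2⟩ := hull s h2 h3.le
    have hm : m = 0 := by
      rcases lt_trichotomy m 0 with h7 | h7 | h7
      · have h8 : (m : ℝ) ≤ -1 := by exact_mod_cast (show m ≤ -1 by omega)
        nlinarith
      · exact h7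
      · have h8 : (1 : ℝ) ≤ m := by exact_mod_cast (show 1 ≤ m by omega)
        nlinarith
    rw [hm] at hm1 hm2
    simp only [Int.cast_zero, zero_mul, add_zero] at hm1 hm2
    exact h s ⟨hm1, hm2⟩ h4
  have h2 : volume (A ∩ Ioc (q - 2 * Real.pi) q) ≤ ENNReal.ofReal (b - a) := by
    rw [← Real.volume_Icc]
    exact measure_mono h1
  have h3 := ENNReal.toReal_mono ENNReal.ofReal_ne_top h2
  rwa [ENNReal.toReal_ofReal (by linarith)] at h3

/-- lower bound of a Riemann sum -/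
theorem riem_min {r y : ℝ} (hy : 0 ≤ y) (N : ℕ) :
    min y (N * r) ≤ ∑ j ∈ Finset.range N, r * (if (j : ℝ) * r ≤ y then 1 else 0) := by
  induction N with
  | zero => simp [hy]
  | succ N ih =>
    rw [Finset.sum_range_succ]
    by_cases h : (N : ℝ) * r ≤ y
    · rw [if_pos h]
      rw [min_eq_right h] at ih
      push_cast
      refine (min_le_right _ _).trans ?_
      linarith
    · rw [if_neg h]
      rw [min_eq_left (not_le.1 h).le] at ih
      refine (min_le_left _ _).trans ?_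
      linarith

/-- the three disjoint sets below the distance `v` -/
def cj (z₁ z₂ : M) (r₁ v : ℝ) (x : M) : ℝ :=
  (Iio (min v r₁)).indicator (fun _ => (1 : ℝ)) (dist x z₁) +
    (Iio (min v r₁)).indicator (fun _ => (1 : ℝ)) (dist x z₂) +
      (Ico r₁ v).indicator (fun _ => (1 : ℝ)) (min (dist x z₁) (dist x z₂))

theorem cj_le {z₁ z₂ : M} {r₁ : ℝ} (hz : 2 * r₁ ≤ dist z₁ z₂) (v : ℝ) (x : M) :
    cj z₁ z₂ r₁ v x ≤ 1 := by
  unfold cj
  have h3 : dist z₁ z₂ ≤ dist x z₁ + dist x z₂ := by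
    have := dist_triangle z₁ x z₂
    rwa [dist_comm z₁ x] at this
  by_cases b1 : dist x z₁ ∈ Iio (min v r₁)
  · have c1 : dist x z₁ < r₁ := lt_of_lt_of_le b1 (min_le_right _ _)
    have b2 : dist x z₂ ∉ Iio (min v r₁) := fun h5 => by
      have c2 : dist x z₂ < r₁ := lt_of_lt_of_le h5 (min_le_right _ _)
      linarith
    have b3 : min (dist x z₁) (dist x z₂) ∉ Ico r₁ v := fun h5 => by
      have := h5.1.trans (min_le_left _ _)
      linarith
    rw [indicator_of_mem b1, indicator_of_notMem b2, indicator_of_notMem b3]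
    norm_num
  · rw [indicator_of_notMem b1]
    by_cases b2 : dist x z₂ ∈ Iio (min v r₁)
    · have c1 : dist x z₂ < r₁ := lt_of_lt_of_le b2 (min_le_right _ _)
      have b3 : min (dist x z₁) (dist x z₂) ∉ Ico r₁ v := fun h5 => by
        have := h5.1.trans (min_le_right _ _)
        linarith
      rw [indicator_of_mem b2, indicator_of_notMem b3]
      norm_num
    · rw [indicator_of_notMem b2, zero_add, zero_add]
      exact indicator_le_self' (fun _ _ => zero_le_one) _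

theorem cj_zero {z₁ z₂ : M} {r₁ v : ℝ} {x : M} (h : v ≤ min (dist x z₁) (dist x z₂)) :
    cj z₁ z₂ r₁ v x = 0 := by
  unfold cj
  have b1 : dist x z₁ ∉ Iio (min v r₁) := fun h5 => by
    have c1 : dist x z₁ < v := lt_of_lt_of_le h5 (min_le_left _ _)
    have := h.trans (min_le_left _ _)
    linarith
  have b2 : dist x z₂ ∉ Iio (min v r₁) := fun h5 => by
    have c1 : dist x z₂ < v := lt_of_lt_of_le h5 (min_le_left _ _)
    have := h.trans (min_le_right _ _)
    linarith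
  have b3 : min (dist x z₁) (dist x z₂) ∉ Ico r₁ v := fun h5 => absurd h5.2 (not_lt.2 h)
  rw [indicator_of_notMem b1, indicator_of_notMem b2, indicator_of_notMem b3]
  norm_num

/-- the bound of the weight by a Riemann sum -/
theorem weight_le {e₁ e₂ z₁ z₂ x : M} {D r ε r₁ : ℝ} {N : ℕ} (hr : 0 ≤ r)
    (h1 : dist e₁ z₁ < ε) (h2 : dist e₂ z₂ < ε) (hN : D ≤ N * r + 3 * ε)
    (hz : 2 * r₁ ≤ dist z₁ z₂) :
    min (min (dist x e₁) (dist x e₂)) D ≤ 3 * ε + ∑ j ∈ Finset.range N, r * (1 -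
      cj z₁ z₂ r₁ ((j : ℝ) * r) x) := by
  have hε : 0 < ε := lt_of_le_of_lt dist_nonneg h1
  set y : ℝ := min (dist x z₁) (dist x z₂) with hy
  have hy0 : 0 ≤ y := le_min dist_nonneg dist_nonneg
  have h3 : min (min (dist x e₁) (dist x e₂)) D ≤ 3 * ε + min y (N * r) := by
    have a1 : dist x e₁ ≤ dist x z₁ + ε := by
      have := dist_triangle x z₁ e₁
      rw [dist_comm z₁ e₁] at this
      linarith
    have a2 : dist x e₂ ≤ dist x z₂ + ε := by
      have := dist_triangle x z₂ e₂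
      rw [dist_comm z₂ e₂] at this
      linarith
    have a3 : min (dist x e₁) (dist x e₂) ≤ y + ε := by
      rw [hy, ← min_add_add_right]
      exact min_le_min a1 a2
    rcases le_total y (N * r) with h | h
    · rw [min_eq_left h]
      refine (min_le_left _ _).trans ?_
      linarith
    · rw [min_eq_right h]
      refine (min_le_right _ _).trans ?_
      linarith
  refine h3.trans (add_le_add le_rfl ((riem_min hy0 N).trans
    (Finset.sum_le_sum fun j _ => mul_le_mul_of_nonneg_left ?_ hr)))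
  by_cases h4 : (j : ℝ) * r ≤ y
  · rw [if_pos h4, cj_zero h4, sub_zero]
  · rw [if_neg h4]
    have := cj_le hz ((j : ℝ) * r) x
    linarith

/-- lower bound of the length of the level part in `{p ∈ I}` from a connected set -/
theorem low_gen {C : Calc M γ} {H : Om → ℝ} {g p ζ : M → ℝ} {t : ℝ} (hζ : Adc γ g t ζ)
    (hpc : Continuous p) {I : Set ℝ} {a b : ℝ} (hI : Ico a b ⊆ I) (hd : DCI C H g p ζ I t)
    (hnn : 0 ≤ deriv (mz C (HI C H p I) g ζ) t) {A : Set M} (hA : IsPreconnected A)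
    (hAK : ∀ x ∈ A, x ∈ Kt γ g t ∧ ζ x = 1) {x y : M} (hx : x ∈ A) (hy : y ∈ A) :
    2 * (min b (p y) - max a (p x)) - GI γ g t ζ p I ≤ deriv (mz C (HI C H p I) g ζ) t := by
  have h1 := (hd hζ).2
  have h2 : Ico (max a (p x)) (min b (p y)) ⊆
      I ∩ p '' {x | (g x = t ∨ (x ∈ range γ ∧ t ≤ g x)) ∧ ζ x = 1} := by
    intro s hs
    refine ⟨hI ⟨(le_max_left _ _).trans hs.1, lt_of_lt_of_le hs.2 (min_le_left _ _)⟩, ?_⟩
    have h3 : IsPreconnected (p '' A) := hA.image p hpc.continuousOn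
    have h4 := h3.Icc_subset (mem_image_of_mem p hx) (mem_image_of_mem p hy)
    obtain ⟨w, hw, hw'⟩ := h4 ⟨(le_max_right _ _).trans hs.1, hs.2.le.trans (min_le_right _ _)⟩
    exact ⟨w, hAK w hw, hw'⟩
  have h3 : 2 * ENNReal.ofReal (min b (p y) - max a (p x)) ≤
      ENNReal.ofReal (deriv (mz C (HI C H p I) g ζ) t + GI γ g t ζ p I) := by
    refine le_trans ?_ h1
    gcongr
    rw [← Real.volume_Ico]
    exact measure_mono h2
  have h4 : ENNReal.ofReal (2 * (min b (p y) - max a (p x))) ≤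
      ENNReal.ofReal (deriv (mz C (HI C H p I) g ζ) t + GI γ g t ζ p I) := by
    rwa [ENNReal.ofReal_mul (by norm_num), ENNReal.ofReal_ofNat]
  have h5 := (ENNReal.ofReal_le_ofReal_iff (add_nonneg hnn (GI_nonneg _ _ _ _ _ _))).1 h4
  linarith

theorem lip_min_dist (a b : M) : LipschitzWith 1 (fun x : M => min (dist x a) (dist x b)) := by
  have := (LipschitzWith.dist_left a).min (LipschitzWith.dist_left b)
  rwa [max_self] at this

/-- the good levels -/
structure GoodT (C : Calc M γ) (H : Om → ℝ) (g : M → ℝ) (z : ℕ → M) (ζ : M → ℝ) (t : ℝ) : Prop where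
  dcl : ∀ (m : ℕ) (q : ℚ), DCI C H g (fun x => dist x (z m)) ζ (Iio (q : ℝ)) t
  dcm : ∀ (m n : ℕ) (q r : ℚ), DCI C H g (fun x => min (dist x (z m)) (dist x (z n))) ζ
    (Ico (q : ℝ) r) t
  dif : DifferentiableAt ℝ (mz C H g ζ) t

variable [CompactSpace M]

theorem goodT_ae (C : Calc M γ) (hγ : Bd γ) (hR : RegPl C) {g : M → ℝ} (hg : Lip g) {H : Om → ℝ}
    (hH : Integrable H C.μ) (hpg : ∀ p : M → ℝ, LipschitzWith 1 p → ∀ᵐ o ∂C.μ, |C.wed p g o| ≤ H o)
    (z : ℕ → M) {ζ : M → ℝ} (hl : Lip ζ) (h0 : ∀ x, 0 ≤ ζ x) (h1 : ∀ x, ζ x ≤ 1) :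
    ∀ᵐ t : ℝ, GoodT C H g z ζ t := by
  have hH0 : ∀ᵐ o ∂C.μ, 0 ≤ H o := by
    filter_upwards [hpg (fun _ => 0) ((LipschitzWith.const 0).weaken zero_le_one)] with o ho
    exact (abs_nonneg _).trans ho
  have a1 : ∀ᵐ t : ℝ, ∀ (m : ℕ) (q : ℚ), DCI C H g (fun x => dist x (z m)) ζ (Iio (q : ℝ)) t := by
    rw [ae_all_iff]
    intro m
    rw [ae_all_iff]
    intro q
    exact F1_loc C hγ hR hg (LipschitzWith.dist_left _) hH (hpg _ (LipschitzWith.dist_left _))
      measurableSet_Iio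
  have a2 : ∀ᵐ t : ℝ, ∀ (m n : ℕ) (q r : ℚ), DCI C H g (fun x => min (dist x (z m)) (dist x (z n))) ζ
      (Ico (q : ℝ) r) t := by
    rw [ae_all_iff]
    intro m
    rw [ae_all_iff]
    intro n
    rw [ae_all_iff]
    intro q
    rw [ae_all_iff]
    intro r
    exact F1_loc C hγ hR hg (lip_min_dist _ _) hH (hpg _ (lip_min_dist _ _)) measurableSet_Ico
  have a3 : ∀ᵐ t : ℝ, DifferentiableAt ℝ (mz C H g ζ) t :=
    (mz_mono C hg hl h0 h1 hH hH0).ae_differentiableAt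
  filter_upwards [a1, a2, a3] with t t1 t2 t3
  exact ⟨t1, t2, t3⟩

/-- the ball around a dense centre near an end -/
theorem ball_low {C : Calc M γ} {H : Om → ℝ} {g ζ : M → ℝ} {t : ℝ} (hg : Lip g)
    (hH : Integrable H C.μ) (hH0 : ∀ᵐ o ∂C.μ, 0 ≤ H o) (hζ : Adc γ g t ζ) {A : Set M}
    (hA : IsPreconnected A) (hAK : ∀ x ∈ A, x ∈ Kt γ g t ∧ ζ x = 1) {x y e z : M} (hx : x ∈ A)
    (hy : y ∈ A) {D κ ε u : ℝ} (hκ : 0 ≤ κ) (hε : 0 < ε) (ez : dist e z < ε) (d1 : dist x e ≤ κ)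
    (d3 : D - κ ≤ dist y e) (hu : u ≤ D)
    (hd : DCI C H g (fun x => dist x z) ζ (Iio u) t)
    (hGI : 0 ≤ u → GI γ g t ζ (fun x => dist x z) (Iio u) ≤ u + ε) :
    u - 4 * κ - 5 * ε ≤ deriv (mz C (HI C H (fun x => dist x z) (Iio u)) g ζ) t ∧
      0 ≤ deriv (mz C (HI C H (fun x => dist x z) (Iio u)) g ζ) t := by
  have lz : Lip (fun x : M => dist x z) := ⟨1, LipschitzWith.dist_left _⟩
  have hnn : 0 ≤ deriv (mz C (HI C H (fun x => dist x z) (Iio u)) g ζ) t :=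
    mz_deriv_nonneg C hg hζ.lip hζ.lo hζ.hi (HI_integrable C hH lz measurableSet_Iio) (by
      filter_upwards [hH0] with o ho
      exact HI_nonneg ho _ _) t
  refine ⟨?_, hnn⟩
  rcases lt_or_ge u 0 with hu0 | hu0
  · linarith
  have h1 := low_gen hζ lz.cont (I := Iio u) (a := dist x z) (b := u) (fun s hs => hs.2) hd hnn hA hAK
    hx hy
  have h2 := hGI hu0
  have h3 : dist x z ≤ κ + ε := by
    have := dist_triangle x e z
    linarith
  have h4 : D - κ - ε ≤ dist y z := by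
    have := dist_triangle y z e
    rw [dist_comm z e] at this
    linarith
  have h5 : u - κ - ε ≤ min u (dist y z) := le_min (by linarith) (by linarith)
  have h6 : max (dist x z) (dist x z) ≤ κ + ε := by
    rw [max_self]
    exact h3
  linarith

/-- the length of the level part below the distance `v` from the two ends -/
theorem low_sum {C : Calc M γ} (hγ : Bd γ) {H : Om → ℝ} {g ζ : M → ℝ} {t : ℝ} (hg : Lip g)
    (hH : Integrable H C.μ) (hH0 : ∀ᵐ o ∂C.μ, 0 ≤ H o) (hζ : Adc γ g t ζ) {p q : ℝ} (hpq : p ≤ q)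
    (hq : q ≤ p + Real.pi)
    (hull : ∀ s, ζ (γ s) = 1 → t ≤ g (γ s) → ∃ m : ℤ, s + m * (2 * Real.pi) ∈ Icc p q) {A : Set M}
    (hA : IsPreconnected A) (hAK : ∀ x ∈ A, x ∈ Kt γ g t ∧ ζ x = 1) {x₁ x₂ y z₁ z₂ : M} (h1 : x₁ ∈ A)
    (h2 : x₂ ∈ A) (h3 : y ∈ A) {D κ ε r₁ v : ℝ} (hκ : 0 ≤ κ) (hε : 0 < ε) (e1 : dist (γ p) z₁ < ε)
    (e2 : dist (γ q) z₂ < ε) (d1 : dist x₁ (γ p) ≤ κ) (d2 : dist x₂ (γ q) ≤ κ)
    (d3 : D - κ ≤ dist y (γ p)) (d4 : D - κ ≤ dist y (γ q)) (hv : v ≤ D)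
    (hr : min D ((q - p) / 2) - 2 * ε < r₁) (hr' : r₁ < min D ((q - p) / 2) - ε)
    (D1 : DCI C H g (fun x => dist x z₁) ζ (Iio (min v r₁)) t)
    (D2 : DCI C H g (fun x => dist x z₂) ζ (Iio (min v r₁)) t)
    (D3 : DCI C H g (fun x => min (dist x z₁) (dist x z₂)) ζ (Ico r₁ v) t) :
    2 * v - 12 * κ - 24 * ε ≤ deriv (mz C (HI C H (fun x => dist x z₁) (Iio (min v r₁))) g ζ) t +
      deriv (mz C (HI C H (fun x => dist x z₂) (Iio (min v r₁))) g ζ) t +
      deriv (mz C (HI C H (fun x => min (dist x z₁) (dist x z₂)) (Ico r₁ v)) g ζ) t := by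
  have hpi := Real.pi_pos
  have hq2 : q < p + 2 * Real.pi := by linarith
  set u : ℝ := min v r₁ with hu
  have huv : u ≤ v := min_le_left _ _
  have lP : Lip (fun x : M => min (dist x z₁) (dist x z₂)) := ⟨1, lip_min_dist _ _⟩
  have b1 := ball_low hg hH hH0 hζ hA hAK h1 h3 hκ hε e1 d1 d3 (huv.trans hv) D1 (by
    intro hu0
    have := GI_hull hγ hg hζ.lip (P := fun x => dist x z₁) (continuous_id.dist continuous_const)
      (I := Iio u) measurableSet_Iio hq2 hull (a := p) (b := p + u + ε) (by linarith) (by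
      rintro s ⟨hs1, hs2⟩ hs3
      have hs4 : dist (γ s) z₁ < u := hs3
      have hs5 := dist_triangle (γ p) z₁ (γ s)
      rw [tri_gam_eq hγ hs1 (by linarith), dist_comm z₁] at hs5
      exact ⟨hs1, by linarith⟩)
    linarith)
  have b2 := ball_low hg hH hH0 hζ hA hAK h2 h3 hκ hε e2 d2 d4 (huv.trans hv) D2 (by
    intro hu0
    have := GI_hull hγ hg hζ.lip (P := fun x => dist x z₂) (continuous_id.dist continuous_const)
      (I := Iio u) measurableSet_Iio hq2 hull (a := q - u - ε) (b := q) (by linarith) (by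
      rintro s ⟨hs1, hs2⟩ hs3
      have hs4 : dist (γ s) z₂ < u := hs3
      have hs5 := dist_triangle (γ s) z₂ (γ q)
      rw [tri_gam_eq hγ hs2 (by linarith), dist_comm z₂] at hs5
      exact ⟨by linarith, hs2⟩)
    linarith)
  have nn3 : 0 ≤ deriv (mz C (HI C H (fun x => min (dist x z₁) (dist x z₂)) (Ico r₁ v)) g ζ) t :=
    mz_deriv_nonneg C hg hζ.lip hζ.lo hζ.hi (HI_integrable C hH lP measurableSet_Ico) (by
      filter_upwards [hH0] with o ho
      exact HI_nonneg ho _ _) t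
  rcases le_or_gt v r₁ with hvr | hvr
  · rw [min_eq_left hvr] at hu
    rw [hu] at b1 b2 ⊢
    linarith [b1.1, b2.1]
  · rw [min_eq_right hvr.le] at hu
    rw [hu] at b1 b2 ⊢
    rcases le_or_gt D ((q - p) / 2) with hDh | hDh
    · rw [min_eq_left hDh] at hr
      linarith [b1.1, b2.1]
    · rw [min_eq_right hDh.le] at hr hr'
      have m1 := low_gen hζ lP.cont (I := Ico r₁ v) (a := r₁) (b := v) subset_rfl D3 nn3 hA hAK h1 h3
      have m2 : GI γ g t ζ (fun x => min (dist x z₁) (dist x z₂)) (Ico r₁ v) ≤ 6 * ε := by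
        have := GI_hull hγ hg hζ.lip (P := fun x => min (dist x z₁) (dist x z₂)) lP.cont
          (I := Ico r₁ v) measurableSet_Ico hq2 hull (a := p + r₁ - ε) (b := q - r₁ + ε)
          (by linarith) (by
          rintro s ⟨hs1, hs2⟩ hs3
          have hs4 : r₁ ≤ dist (γ s) z₁ := hs3.1.trans (min_le_left _ _)
          have hs5 : r₁ ≤ dist (γ s) z₂ := hs3.1.trans (min_le_right _ _)
          have hs6 := dist_triangle (γ s) (γ p) z₁
          rw [dist_comm (γ s) (γ p), tri_gam_eq hγ hs1 (by linarith)] at hs6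
          have hs7 := dist_triangle (γ s) (γ q) z₂
          rw [tri_gam_eq hγ hs2 (by linarith)] at hs7
          exact ⟨by linarith, by linarith⟩)
        linarith
      have m3 : min (dist x₁ z₁) (dist x₁ z₂) ≤ κ + ε := by
        refine (min_le_left _ _).trans ?_
        have := dist_triangle x₁ (γ p) z₁
        linarith
      have m4 : D - κ - ε ≤ min (dist y z₁) (dist y z₂) := by
        have c1 := dist_triangle y z₁ (γ p)
        have c2 := dist_triangle y z₂ (γ q)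
        rw [dist_comm z₁] at c1
        rw [dist_comm z₂] at c2
        exact le_min (by linarith) (by linarith)
      have m5 : v - κ - ε ≤ min v (min (dist y z₁) (dist y z₂)) := le_min (by linarith) (by linarith)
      have m6 : max r₁ (min (dist x₁ z₁) (dist x₁ z₂)) ≤ r₁ + κ + 3 * ε := max_le (by linarith)
        (by linarith)
      linarith [b1.1, b2.1]

/-- the densities of the three sets -/
def Kj (C : Calc M γ) (H : Om → ℝ) (z₁ z₂ : M) (r₁ v : ℝ) (o : Om) : ℝ :=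
  HI C H (fun x => dist x z₁) (Iio (min v r₁)) o + HI C H (fun x => dist x z₂) (Iio (min v r₁)) o +
    HI C H (fun x => min (dist x z₁) (dist x z₂)) (Ico r₁ v) o

omit [CompactSpace M] in
theorem Kj_eq (C : Calc M γ) (H : Om → ℝ) (z₁ z₂ : M) (r₁ v : ℝ) (o : Om) :
    Kj C H z₁ z₂ r₁ v o = H o * cj z₁ z₂ r₁ v (C.pt o) := by
  unfold Kj cj HI
  have key : ∀ (I : Set ℝ) (s : ℝ), I.indicator (fun _ => H o) s = H o * I.indicator (fun _ => (1 : ℝ)) s := by
    intro I s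
    by_cases h : s ∈ I
    · rw [indicator_of_mem h, indicator_of_mem h, mul_one]
    · rw [indicator_of_notMem h, indicator_of_notMem h, mul_zero]
  rw [key, key, key]
  ring

/-- the integral of `min (dist (γ p)) (dist (γ q)) D` over the level part of a piece with the hull
`[p, q]` (one-sided difference quotients) -/
theorem TRI_int {C : Calc M γ} (hγ : Bd γ) {H : Om → ℝ} {g ζ : M → ℝ} {t : ℝ} (hg : Lip g)
    (hH : Integrable H C.μ) (hH0 : ∀ᵐ o ∂C.μ, 0 ≤ H o) {z : ℕ → M} (hz : DenseRange z)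
    (hG : GoodT C H g z ζ t) (hζ : Adc γ g t ζ) {p q : ℝ} (hpq : p ≤ q) (hq : q ≤ p + Real.pi)
    (hull : ∀ s, ζ (γ s) = 1 → t ≤ g (γ s) → ∃ m : ℤ, s + m * (2 * Real.pi) ∈ Icc p q) {A : Set M}
    (hA : IsPreconnected A) (hAK : ∀ x ∈ A, x ∈ Kt γ g t ∧ ζ x = 1) {x₁ x₂ y : M} (h1 : x₁ ∈ A)
    (h2 : x₂ ∈ A) (h3 : y ∈ A) {D κ : ℝ} (hD0 : 0 ≤ D) (hκ : 0 ≤ κ) (d1 : dist x₁ (γ p) ≤ κ)
    (d2 : dist x₂ (γ q) ≤ κ) (d3 : D - κ ≤ dist y (γ p)) (d4 : D - κ ≤ dist y (γ q))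
    {η : ℝ} (hη : 0 < η) :
    ∃ δ : ℝ, 0 < δ ∧ ∀ h : ℝ, 0 < h → h < δ →
      mz C (fun o => H o * min (min (dist (C.pt o) (γ p)) (dist (C.pt o) (γ q))) D) g ζ (t + h) -
        mz C (fun o => H o * min (min (dist (C.pt o) (γ p)) (dist (C.pt o) (γ q))) D) g ζ t ≤
          h * (deriv (mz C H g ζ) t * D - D ^ 2 + 12 * κ * D + η) := by
  set e₁ : M := γ p with he₁
  set e₂ : M := γ q with he₂
  have hee : dist e₁ e₂ = q - p := tri_gam_eq hγ hpq hq
  set S := deriv (mz C H g ζ) t with hS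
  have hS0 : 0 ≤ S := mz_deriv_nonneg C hg hζ.lip hζ.lo hζ.hi hH hH0 t
  set w : M → ℝ := fun x => min (min (dist x e₁) (dist x e₂)) D with hw
  have lw : Lip w := by
    have l1 := (lip_min_dist e₁ e₂).min (LipschitzWith.const D (α := M))
    exact ⟨_, l1⟩
  have w0 : ∀ x, 0 ≤ w x := fun x => le_min (le_min dist_nonneg dist_nonneg) hD0
  have wD : ∀ x, w x ≤ D := fun x => min_le_right _ _
  have iw : Integrable (fun o => H o * w (C.pt o)) C.μ := by
    have h1 := hH.bdd_mul (c := D) (C.meas_pt lw).aestronglyMeasurable (Eventually.of_forall fun o => by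
      rw [Real.norm_eq_abs, abs_of_nonneg (w0 _)]
      exact wD _)
    refine h1.congr (Eventually.of_forall fun o => ?_)
    simp only
    ring
  rcases hD0.eq_or_lt with hD00 | hDpos
  · -- `D = 0`
    have e : (fun o => H o * min (min (dist (C.pt o) e₁) (dist (C.pt o) e₂)) D) = fun _ => (0 : ℝ) := by
      funext o
      have h1 : min (min (dist (C.pt o) e₁) (dist (C.pt o) e₂)) D = 0 := by
        rw [← hD00]
        exact min_eq_right (le_min dist_nonneg dist_nonneg)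
      rw [h1, mul_zero]
    have e2 : ∀ r, mz C (fun _ => (0 : ℝ)) g ζ r = 0 := by
      intro r
      unfold mz
      simp
    refine ⟨1, one_pos, fun h h0 _ => ?_⟩
    rw [e, e2, e2, ← hD00]
    nlinarith
  -- the parameters
  obtain ⟨ε, hε, N, qq, hq0, hN1, hN2, hval⟩ : ∃ (ε : ℝ) (_ : 0 < ε) (N : ℕ) (qq : ℚ), (0 : ℝ) ≤ qq ∧
      (N : ℝ) * qq ≤ D - 2 * ε ∧ D ≤ N * qq + 3 * ε ∧
      3 * ε * S + (N * qq * S - (qq : ℝ) ^ 2 * (N * (N - 1)) + (12 * κ + 24 * ε) * (N * qq)) <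
        S * D - D ^ 2 + 12 * κ * D + η := by
    set ε : ℝ := min (D / 8) (η / (4 * (3 * S + 30 * D + 1))) with hεd
    have hden : 0 < 4 * (3 * S + 30 * D + 1) := by positivity
    have hε : 0 < ε := lt_min (by linarith) (div_pos hη hden)
    have hε1 : ε ≤ D / 8 := min_le_left _ _
    have hε2 : ε * (4 * (3 * S + 30 * D + 1)) ≤ η := by
      have h1 : ε ≤ η / (4 * (3 * S + 30 * D + 1)) := min_le_right _ _
      rwa [le_div_iff₀ hden] at h1
    obtain ⟨N, hN⟩ := exists_nat_gt (max 1 (4 * D ^ 2 / η))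
    have hN0 : (0 : ℝ) < N := lt_of_lt_of_le one_pos (le_of_lt (lt_of_le_of_lt (le_max_left _ _) hN))
    have hNη : 4 * D ^ 2 < N * η := by
      have h1 := lt_of_le_of_lt (le_max_right _ _) hN
      rwa [div_lt_iff₀ hη] at h1
    obtain ⟨q, hq1, hq2⟩ := exists_rat_btwn (show (D - 3 * ε) / N < (D - 2 * ε) / N by
      gcongr
      linarith)
    rw [div_lt_iff₀ hN0] at hq1
    rw [lt_div_iff₀ hN0] at hq2
    have hqp : (0 : ℝ) < q := by
      by_contra h1
      have h2 : (q : ℝ) * N ≤ 0 := mul_nonpos_of_nonpos_of_nonneg (not_lt.1 h1) hN0.le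
      linarith
    refine ⟨ε, hε, N, q, hqp.le, by linarith, by linarith, ?_⟩
    set x : ℝ := N * q with hx
    have hx1 : x ≤ D - 2 * ε := by
      rw [hx]
      linarith
    have hx2 : D - 3 * ε ≤ x := by
      rw [hx]
      linarith
    have e1 : (q : ℝ) ^ 2 * (N * (N - 1)) = x ^ 2 - x * q := by
      rw [hx]
      ring
    have h1 : (q : ℝ) * D < η / 4 := by
      have h2 : x ≤ D := by linarith
      have h3 : (q : ℝ) * D * N ≤ D ^ 2 := by
        have : (q : ℝ) * D * N = D * x := by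
          rw [hx]
          ring
        rw [this]
        nlinarith
      by_contra h4
      have h5 : η / 4 * N ≤ (q : ℝ) * D * N := mul_le_mul_of_nonneg_right (not_lt.1 h4) hN0.le
      linarith
    have h2 : x * q ≤ (q : ℝ) * D := by nlinarith
    have h3 : -x ^ 2 ≤ -D ^ 2 + 6 * ε * D := by nlinarith
    have h4 : x * S ≤ S * D := by nlinarith
    have h5 : 24 * ε * x ≤ 24 * ε * D := by nlinarith
    have h6 : 12 * κ * x ≤ 12 * κ * D := mul_le_mul_of_nonneg_left (by linarith) (by linarith)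
    have h7 : ε * (3 * S + 30 * D) ≤ η / 4 := by nlinarith
    rw [e1]
    linarith
  obtain ⟨m₁, hm₁⟩ := hz.exists_dist_lt e₁ hε
  obtain ⟨m₂, hm₂⟩ := hz.exists_dist_lt e₂ hε
  obtain ⟨r₁, hr1, hr2⟩ := exists_rat_btwn
    (show min D ((q - p) / 2) - 2 * ε < min D ((q - p) / 2) - ε by linarith)
  have hzz : 2 * (r₁ : ℝ) ≤ dist (z m₁) (z m₂) := by
    have h1 := dist_triangle4 e₁ (z m₁) (z m₂) e₂
    rw [dist_comm (z m₂) e₂] at h1
    have h2 : min D ((q - p) / 2) ≤ (q - p) / 2 := min_le_right _ _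
    linarith
  have lp₁ : Lip fun x : M => dist x (z m₁) := ⟨1, LipschitzWith.dist_left _⟩
  have lp₂ : Lip fun x : M => dist x (z m₂) := ⟨1, LipschitzWith.dist_left _⟩
  have lp₃ : Lip fun x : M => min (dist x (z m₁)) (dist x (z m₂)) := ⟨1, lip_min_dist _ _⟩
  -- casts
  have cv : ∀ j : ℕ, ((j * qq : ℚ) : ℝ) = (j : ℝ) * qq := fun j => by push_cast; ring
  have cu : ∀ j : ℕ, ((min (j * qq) r₁ : ℚ) : ℝ) = min ((j : ℝ) * qq) r₁ := fun j => by
    rw [Rat.cast_min, cv]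
  have D1 : ∀ j : ℕ, DCI C H g (fun x => dist x (z m₁)) ζ (Iio (min ((j : ℝ) * qq) r₁)) t := fun j => by
    have := hG.dcl m₁ (min (j * qq) r₁)
    rwa [cu] at this
  have D2 : ∀ j : ℕ, DCI C H g (fun x => dist x (z m₂)) ζ (Iio (min ((j : ℝ) * qq) r₁)) t := fun j => by
    have := hG.dcl m₂ (min (j * qq) r₁)
    rwa [cu] at this
  have D3 : ∀ j : ℕ, DCI C H g (fun x => min (dist x (z m₁)) (dist x (z m₂))) ζ
      (Ico (r₁ : ℝ) ((j : ℝ) * qq)) t := fun j => by
    have := hG.dcm m₁ m₂ r₁ (j * qq)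
    rwa [cv] at this
  have i1 : ∀ j : ℕ, Integrable (HI C H (fun x => dist x (z m₁)) (Iio (min ((j : ℝ) * qq) r₁))) C.μ :=
    fun j => HI_integrable C hH lp₁ measurableSet_Iio
  have i2 : ∀ j : ℕ, Integrable (HI C H (fun x => dist x (z m₂)) (Iio (min ((j : ℝ) * qq) r₁))) C.μ :=
    fun j => HI_integrable C hH lp₂ measurableSet_Iio
  have i3 : ∀ j : ℕ, Integrable (HI C H (fun x => min (dist x (z m₁)) (dist x (z m₂)))
      (Ico (r₁ : ℝ) ((j : ℝ) * qq))) C.μ := fun j => HI_integrable C hH lp₃ measurableSet_Ico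
  set K : ℕ → Om → ℝ := fun j => Kj C H (z m₁) (z m₂) r₁ ((j : ℝ) * qq) with hK
  have iK : ∀ j, Integrable (K j) C.μ := fun j => ((i1 j).add (i2 j)).add (i3 j)
  set T : ℕ → Om → ℝ := fun j o => (qq : ℝ) * (H o - K j o) with hT
  have iT : ∀ j, Integrable (T j) C.μ := fun j => (hH.sub (iK j)).const_mul _
  set Ht : Om → ℝ := fun o => 3 * ε * H o + ∑ j ∈ Finset.range N, T j o with hHt
  have iS : Integrable (fun o => ∑ j ∈ Finset.range N, T j o) C.μ :=
    integrable_finsetSum _ fun j _ => iT j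
  have iHt : Integrable Ht C.μ := (hH.const_mul (3 * ε)).add iS
  set dd : ℕ → ℝ := fun j => deriv (mz C (HI C H (fun x => dist x (z m₁)) (Iio (min ((j : ℝ) * qq) r₁))) g ζ) t +
      deriv (mz C (HI C H (fun x => dist x (z m₂)) (Iio (min ((j : ℝ) * qq) r₁))) g ζ) t +
      deriv (mz C (HI C H (fun x => min (dist x (z m₁)) (dist x (z m₂))) (Ico (r₁ : ℝ) ((j : ℝ) * qq))) g ζ) t
    with hdd
  -- the derivative of the upper bound
  have mK : ∀ j r, mz C (K j) g ζ r =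
      mz C (HI C H (fun x => dist x (z m₁)) (Iio (min ((j : ℝ) * qq) r₁))) g ζ r +
      mz C (HI C H (fun x => dist x (z m₂)) (Iio (min ((j : ℝ) * qq) r₁))) g ζ r +
      mz C (HI C H (fun x => min (dist x (z m₁)) (dist x (z m₂))) (Ico (r₁ : ℝ) ((j : ℝ) * qq))) g ζ r := by
    intro j r
    have i12 : Integrable (fun o => HI C H (fun x => dist x (z m₁)) (Iio (min ((j : ℝ) * qq) r₁)) o +
        HI C H (fun x => dist x (z m₂)) (Iio (min ((j : ℝ) * qq) r₁)) o) C.μ := (i1 j).add (i2 j)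
    have a1 := mz_add' C (g := g) hζ.lip hζ.lo hζ.hi i12 (i3 j) r
    have a2 := mz_add' C (g := g) hζ.lip hζ.lo hζ.hi (i1 j) (i2 j) r
    exact a1.trans (congrArg₂ (· + ·) a2 rfl)
  have dK : ∀ j, HasDerivAt (mz C (K j) g ζ) (dd j) t := by
    intro j
    have e : mz C (K j) g ζ = fun r => mz C (HI C H (fun x => dist x (z m₁)) (Iio (min ((j : ℝ) * qq) r₁))) g ζ r +
      mz C (HI C H (fun x => dist x (z m₂)) (Iio (min ((j : ℝ) * qq) r₁))) g ζ r +
      mz C (HI C H (fun x => min (dist x (z m₁)) (dist x (z m₂))) (Ico (r₁ : ℝ) ((j : ℝ) * qq))) g ζ r :=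
      funext fun r => mK j r
    rw [e]
    exact (((D1 j) hζ).1.hasDerivAt.add ((D2 j) hζ).1.hasDerivAt).add ((D3 j) hζ).1.hasDerivAt
  have mT : ∀ j r, mz C (T j) g ζ r = (qq : ℝ) * (mz C H g ζ r - mz C (K j) g ζ r) := by
    intro j r
    have a1 := mz_const_mul C (g := g) (ζ := ζ) (H := fun o => H o - K j o) (qq : ℝ) r
    rw [mz_sub C hζ.lip hζ.lo hζ.hi (iK j) hH] at a1
    exact a1
  have mHt : mz C Ht g ζ = fun r => 3 * ε * mz C H g ζ r + ∑ j ∈ Finset.range N,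
      (qq : ℝ) * (mz C H g ζ r - mz C (K j) g ζ r) := by
    funext r
    have a1 := mz_add' C (g := g) hζ.lip hζ.lo hζ.hi (hH.const_mul (3 * ε)) iS r
    rw [mz_const_mul C, mz_sum C hζ.lip hζ.lo hζ.hi _ fun j _ => iT j] at a1
    simp only [mT] at a1
    exact a1
  have hder : HasDerivAt (mz C Ht g ζ) (3 * ε * S + ∑ j ∈ Finset.range N,
      (qq : ℝ) * (S - dd j)) t := by
    rw [mHt]
    refine (hG.dif.hasDerivAt.const_mul _).add ?_
    refine HasDerivAt.fun_sum fun j _ => ?_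
    exact (hG.dif.hasDerivAt.sub (dK j)).const_mul _
  have low : ∀ j ∈ Finset.range N, 2 * ((j : ℝ) * qq) - 12 * κ - 24 * ε ≤ dd j := by
    intro j hj
    have hjN : (j : ℝ) * qq ≤ N * qq :=
      mul_le_mul_of_nonneg_right (by exact_mod_cast (Finset.mem_range.1 hj).le) hq0
    exact low_sum hγ hg hH hH0 hζ hpq hq hull hA hAK h1 h2 h3 hκ hε hm₁ hm₂ d1 d2 d3 d4
      (by linarith) hr1 hr2 (D1 j) (D2 j) (D3 j)
  have hsum : ∀ n : ℕ, ∑ j ∈ Finset.range n, (qq : ℝ) * (S - (2 * ((j : ℝ) * qq) - 12 * κ - 24 * ε)) =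
      n * qq * S - (qq : ℝ) ^ 2 * (n * (n - 1)) + (12 * κ + 24 * ε) * (n * qq) := by
    intro n
    induction n with
    | zero => simp
    | succ n ih =>
      rw [Finset.sum_range_succ, ih]
      push_cast
      ring
  have hDt : 3 * ε * S + ∑ j ∈ Finset.range N, (qq : ℝ) * (S - dd j) <
      S * D - D ^ 2 + 12 * κ * D + η := by
    refine lt_of_le_of_lt ?_ hval
    refine add_le_add le_rfl ?_
    rw [← hsum N]
    refine Finset.sum_le_sum fun j hj => mul_le_mul_of_nonneg_left ?_ hq0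
    have := low j hj
    linarith
  -- comparison of the densities
  have hle : ∀ᵐ o ∂C.μ, H o * min (min (dist (C.pt o) e₁) (dist (C.pt o) e₂)) D ≤ Ht o := by
    filter_upwards [hH0] with o ho
    have h1 := weight_le (x := C.pt o) (D := D) (r₁ := r₁) hq0 hm₁ hm₂ hN2 hzz
    have h2 := mul_le_mul_of_nonneg_left h1 ho
    refine h2.trans (le_of_eq ?_)
    simp only [hHt, hT, hK, Kj_eq]
    rw [mul_add, Finset.mul_sum]
    congr 1
    · ring
    · refine Finset.sum_congr rfl fun j _ => ?_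
      ring
  set val : ℝ := S * D - D ^ 2 + 12 * κ * D + η with hv
  set Dt : ℝ := 3 * ε * S + ∑ j ∈ Finset.range N, (qq : ℝ) * (S - dd j) with hDtd
  have hc : 0 < val - Dt := by linarith
  have h9 := (hasDerivAt_iff_isLittleO_nhds_zero.1 hder).def hc
  obtain ⟨δ, hδ, hball⟩ := Metric.eventually_nhds_iff.1 h9
  refine ⟨δ, hδ, fun h h0 h1 => ?_⟩
  have h2 := hball (y := h) (by
    rw [dist_zero_right, Real.norm_eq_abs, abs_of_pos h0]
    exact h1)
  rw [Real.norm_eq_abs, Real.norm_eq_abs, abs_of_pos h0, smul_eq_mul] at h2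
  have h3 := (abs_le.1 h2).2
  have h4 := mz_incr_le C hg hζ.lip hζ.lo hζ.hi iw iHt hle (show t ≤ t + h by linarith)
  refine h4.trans ?_
  nlinarith

omit [CompactSpace M] in
/-- comparison of the increments -/
theorem mz_incr_loc (C : Calc M γ) {g ζ : M → ℝ} (hg : Lip g) (hl : Lip ζ) (h0 : ∀ x, 0 ≤ ζ x)
    (h1 : ∀ x, ζ x ≤ 1) {H₁ H₂ : Om → ℝ} (i₁ : Integrable H₁ C.μ) (i₂ : Integrable H₂ C.μ) {a b : ℝ}
    (hab : a ≤ b) (hle : ∀ᵐ o ∂C.μ, a ≤ g (C.pt o) → g (C.pt o) < b →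
      ζ (C.pt o) * H₁ o ≤ ζ (C.pt o) * H₂ o) :
    mz C H₁ g ζ b - mz C H₁ g ζ a ≤ mz C H₂ g ζ b - mz C H₂ g ζ a := by
  have j : ∀ {H : Om → ℝ}, Integrable H C.μ → ∀ r : ℝ,
      Integrable ({o | g (C.pt o) < r}.indicator (fun o => ζ (C.pt o) * H o)) C.μ := fun hH r =>
    (integrable_zH C hl h0 h1 hH).indicator₀ (meas_pt_lt C hg r)
  rw [mz_eq C hg, mz_eq C hg, mz_eq C hg, mz_eq C hg, ← integral_sub (j i₁ b) (j i₁ a),
    ← integral_sub (j i₂ b) (j i₂ a)]
  refine integral_mono_ae ((j i₁ b).sub (j i₁ a)) ((j i₂ b).sub (j i₂ a)) ?_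
  filter_upwards [hle] with o ho
  by_cases ha : g (C.pt o) < a
  · have m1 : o ∈ {o | g (C.pt o) < a} := ha
    have m2 : o ∈ {o | g (C.pt o) < b} := lt_of_lt_of_le ha hab
    simp only [indicator_of_mem m1, indicator_of_mem m2, sub_self, le_refl]
  · have m1 : o ∉ {o | g (C.pt o) < a} := ha
    by_cases hb : g (C.pt o) < b
    · have m2 : o ∈ {o | g (C.pt o) < b} := hb
      simp only [indicator_of_notMem m1, indicator_of_mem m2, sub_zero]
      exact ho (not_lt.1 ha) hb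
    · have m2 : o ∉ {o | g (C.pt o) < b} := hb
      simp only [indicator_of_notMem m1, indicator_of_notMem m2, sub_zero, le_refl]

/-- the final numerical step -/
theorem tri_num {S G h D ρ : ℝ} (hS : 0 ≤ S) (hG0 : 0 ≤ G) (hGh : G ≤ h) (hh : h ≤ Real.pi) (hSG : S + G ≤ 2 * Real.pi)
    (hρ0 : 0 < ρ) (hρ : ρ ≤ 1) (hD0 : 0 ≤ D) (hD : D ≤ (S + G) / 2 - h + 3 * ρ) :
    S * D - D ^ 2 + 12 * (2 * ρ) * D ≤ (S ^ 2 - (2 * h - G) ^ 2) / 4 + 199 * ρ := by
  have hpi := Real.pi_lt_d2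
  have hpi0 := Real.pi_pos
  set e : ℝ := (S + G) / 2 - h with he
  have e1 : (S ^ 2 - (2 * h - G) ^ 2) / 4 = S * e - e ^ 2 := by
    rw [he]
    ring
  rw [e1]
  have hh0 : 0 ≤ h := hG0.trans hGh
  have he2 : e ≤ S / 2 := by rw [he]; linarith
  have hS2 : S ≤ 6.3 := by linarith
  have hD4 : D ≤ 6.2 := by linarith
  have h1 : 12 * (2 * ρ) * D ≤ 148.8 * ρ := by nlinarith
  have heL : -(3 * ρ) ≤ e := by linarith
  have hS3 : S * ρ ≤ 6.3 * ρ := mul_le_mul_of_nonneg_right hS2 hρ0.le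
  rcases le_total D e with h2 | h2
  · have h3 : S * D - D ^ 2 ≤ S * e - e ^ 2 := by nlinarith
    linarith
  · have h3 : S * D ≤ S * e + 3 * (S * ρ) := by nlinarith
    have h4 : e ^ 2 - D ^ 2 ≤ 9 * ρ := by
      rcases le_total 0 e with h5 | h5
      · nlinarith
      · nlinarith
    linarith

/-- the integral of the excess over the level part of a piece with the hull `[p, q]` -/
theorem TRI (C : Calc M γ) (hγ : Bd γ) (hR : RegPl C) {g : M → ℝ} (hg : Lip g)
    {H : Om → ℝ} (hH : Integrable H C.μ)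
    (hpg : ∀ p : M → ℝ, LipschitzWith 1 p → ∀ᵐ o ∂C.μ, |C.wed p g o| ≤ H o)
    {Z : ℕ → M → ℝ} (hZl : ∀ n, Lip (Z n)) (hZ0 : ∀ n x, 0 ≤ Z n x) (hZ1 : ∀ n x, Z n x ≤ 1) :
    ∀ᵐ t : ℝ, ∀ n, Adc γ g t (Z n) → ∀ (A : Set M) (p q ρ : ℝ), IsPreconnected A →
      (∀ x ∈ A, x ∈ Kt γ g t ∧ Z n x = 1) → p ≤ q → q < p + Real.pi → 0 < ρ → ρ ≤ 1 →
      (∃ x ∈ A, dist x (γ p) ≤ ρ) → (∃ x ∈ A, dist x (γ q) ≤ ρ) →
      (∀ s, Z n (γ s) = 1 → t ≤ g (γ s) → ∃ m : ℤ, s + m * (2 * Real.pi) ∈ Icc p q) →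
      (∃ δ : ℝ, 0 < δ ∧ ∀ x, |g x - t| ≤ δ → Z n x ≠ 0 → ∃ a ∈ A, dist x a ≤ ρ) →
      deriv (mz C H g (Z n)) t + Gz γ g t (Z n) < 2 * Real.pi →
      ∀ e1 e2 D : ℝ, e1 ≤ p → q ≤ e2 →
      HasDerivAt (mz C (fun o => (dist (C.pt o) (γ e1) + dist (C.pt o) (γ e2) - (e2 - e1)) / 2 * H o) g
        (Z n)) D t →
      D ≤ (deriv (mz C H g (Z n)) t ^ 2 - (2 * (q - p) - Gz γ g t (Z n)) ^ 2) / 4 + 200 * ρ := by
  rcases isEmpty_or_nonempty M with hM | hM
  · exact (hM.false (γ 0)).elim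
  have hpi := Real.pi_pos
  have hH0 : ∀ᵐ o ∂C.μ, 0 ≤ H o := by
    filter_upwards [hpg (fun _ => 0) ((LipschitzWith.const 0).weaken zero_le_one)] with o ho
    exact (abs_nonneg _).trans ho
  have a1 : ∀ᵐ t : ℝ, ∀ n : ℕ, GoodT C H g (TopologicalSpace.denseSeq M) (Z n) t := by
    rw [ae_all_iff]
    intro n
    exact goodT_ae C hγ hR hg hH hpg _ (hZl n) (hZ0 n) (hZ1 n)
  filter_upwards [a1, TRI0 C hγ hR hg hH hpg hZl hZ0 hZ1] with t hG0 hT0 n hn A p q ρ hA hAK hpq hq hρ0 hρ1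
    hAp hAq hull hnear hSG e1 e2 D he1 he2 hD
  have hG := hG0 n
  have hT := hT0 n hn A hA hAK
  obtain ⟨x₁, hx₁, dx₁⟩ := hAp
  obtain ⟨x₂, hx₂, dx₂⟩ := hAq
  obtain ⟨δ₀, hδ₀, hnr⟩ := hnear
  set S := deriv (mz C H g (Z n)) t with hS
  set G := Gz γ g t (Z n) with hGd
  have hS0 : 0 ≤ S := mz_deriv_nonneg C hg (hZl n) (hZ0 n) (hZ1 n) hH hH0 t
  have hG00 : 0 ≤ G := ENNReal.toReal_nonneg
  have hGh : G ≤ q - p := by
    have h1 := GI_hull hγ hg (hZl n) (P := fun _ => (0 : ℝ)) continuous_const (I := univ)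
      MeasurableSet.univ (by linarith) hull hpq (fun s hs _ => hs)
    have h2 : GI γ g t (Z n) (fun _ => (0 : ℝ)) univ = G := by
      rw [hGd]
      unfold GI Gz
      congr 2
      ext r
      simp
    rwa [h2] at h1
  have hee : dist (γ p) (γ q) = q - p := tri_gam_eq hγ hpq (by linarith)
  -- the perimeter
  have hper : ∀ x, (∃ a ∈ A, dist x a ≤ ρ) → dist x (γ p) + dist x (γ q) + (q - p) ≤ S + G + 6 * ρ := by
    intro x hx
    have h1 := hT ρ x (γ p) (γ q) hx ⟨x₁, hx₁, by rw [dist_comm]; exact dx₁⟩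
      ⟨x₂, hx₂, by rw [dist_comm]; exact dx₂⟩
    rw [hee, dist_comm (γ q) x] at h1
    linarith
  set m : M → ℝ := fun x => min (dist x (γ p)) (dist x (γ q)) with hm
  have hm0 : ∀ x, 0 ≤ m x := fun x => le_min dist_nonneg dist_nonneg
  have hbdd : BddAbove (m '' A) := by
    refine ⟨S + G + 6 * ρ, ?_⟩
    rintro _ ⟨x, hx, rfl⟩
    have h1 := hper x ⟨x, hx, by rw [dist_self]; exact hρ0.le⟩
    have h2 : m x ≤ dist x (γ p) := min_le_left _ _
    have h3 : 0 ≤ dist x (γ q) := dist_nonneg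
    linarith
  have hne : (m '' A).Nonempty := ⟨_, mem_image_of_mem m hx₁⟩
  set R : ℝ := sSup (m '' A) with hR
  have hR0 : 0 ≤ R := (hm0 x₁).trans (le_csSup hbdd (mem_image_of_mem m hx₁))
  obtain ⟨_, ⟨y, hy, rfl⟩, hyR⟩ := exists_lt_of_lt_csSup hne (show R - ρ < R by linarith)
  set D₀ : ℝ := min ((S + G) / 2 - (q - p) + 3 * ρ) (R + ρ) with hD₀
  have hD₀0 : 0 ≤ D₀ := by
    refine le_min ?_ (by linarith)
    have h1 := hper x₁ ⟨x₁, hx₁, by rw [dist_self]; exact hρ0.le⟩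
    have h2 := dist_triangle (γ p) x₁ (γ q)
    rw [hee, dist_comm (γ p)] at h2
    linarith
  have d3 : D₀ - 2 * ρ ≤ dist y (γ p) := by
    have h1 : D₀ ≤ R + ρ := min_le_right _ _
    have h2 : m y ≤ dist y (γ p) := min_le_left _ _
    linarith
  have d4 : D₀ - 2 * ρ ≤ dist y (γ q) := by
    have h1 : D₀ ≤ R + ρ := min_le_right _ _
    have h2 : m y ≤ dist y (γ q) := min_le_right _ _
    linarith
  -- the weight
  set wt : M → ℝ := fun x => (dist x (γ e1) + dist x (γ e2) - (e2 - e1)) / 2 with hwt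
  have hwle : ∀ x, (∃ a ∈ A, dist x a ≤ ρ) → wt x ≤ min (min (dist x (γ p)) (dist x (γ q))) D₀ := by
    rintro x ⟨a, ha, hxa⟩
    have h1 := hper x ⟨a, ha, hxa⟩
    have h2 : dist x (γ e1) ≤ dist x (γ p) + (p - e1) := by
      have c1 := dist_triangle x (γ p) (γ e1)
      have c2 := tri_gam_le hγ p e1
      rw [abs_of_nonneg (by linarith)] at c2
      linarith
    have h3 : dist x (γ e2) ≤ dist x (γ q) + (e2 - q) := by
      have c1 := dist_triangle x (γ q) (γ e2)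
      have c2 := tri_gam_le hγ q e2
      rw [abs_sub_comm, abs_of_nonneg (by linarith)] at c2
      linarith
    have h4 : wt x ≤ (dist x (γ p) + dist x (γ q) - (q - p)) / 2 := by
      simp only [hwt]
      linarith
    have h5 := dist_triangle x (γ p) (γ q)
    have h6 := dist_triangle x (γ q) (γ p)
    rw [hee] at h5
    rw [dist_comm (γ q), hee] at h6
    have h7 : wt x ≤ min (dist x (γ p)) (dist x (γ q)) := le_min (by linarith) (by linarith)
    refine le_min h7 (le_min (by linarith) ?_)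
    refine h7.trans ?_
    have h8 : m a ≤ R := le_csSup hbdd (mem_image_of_mem m ha)
    have h9 : m x ≤ m a + ρ := by
      have c1 := (lip_min_dist (γ p) (γ q)).dist_le_mul x a
      rw [NNReal.coe_one, one_mul, Real.dist_eq] at c1
      have c2 := (abs_le.1 c1).2
      change m x - m a ≤ dist x a at c2
      linarith
    change m x ≤ R + ρ
    linarith
  have lwt : Lip wt := by
    have l1 : Lip (fun x : M => dist x (γ e1)) := ⟨1, LipschitzWith.dist_left _⟩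
    have l2 : Lip (fun x : M => dist x (γ e2)) := ⟨1, LipschitzWith.dist_left _⟩
    have l3 := ((l1.add l2).add (lip_const (-(e2 - e1)))).const_mul (1 / 2)
    have e : wt = fun x => 1 / 2 * (dist x (γ e1) + dist x (γ e2) + -(e2 - e1)) := by
      funext x
      simp only [hwt]
      ring
    rw [e]
    exact l3
  obtain ⟨B, hB⟩ : ∃ B, ∀ x, ‖wt x‖ ≤ B := by
    obtain ⟨B, hB⟩ := isCompact_univ.exists_bound_of_continuousOn lwt.cont.continuousOn
    exact ⟨B, fun x => hB x (mem_univ x)⟩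
  have iwt : Integrable (fun o => wt (C.pt o) * H o) C.μ :=
    hH.bdd_mul (c := B) (C.meas_pt lwt).aestronglyMeasurable (Eventually.of_forall fun o => hB _)
  have lw2 : Lip (fun x : M => min (min (dist x (γ p)) (dist x (γ q))) D₀) :=
    ⟨_, (lip_min_dist (γ p) (γ q)).min (LipschitzWith.const D₀ (α := M))⟩
  have iw2 : Integrable (fun o => H o * min (min (dist (C.pt o) (γ p)) (dist (C.pt o) (γ q))) D₀) C.μ := by
    have h1 := hH.bdd_mul (c := D₀) (C.meas_pt lw2).aestronglyMeasurable (Eventually.of_forall fun o => by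
      rw [Real.norm_eq_abs, abs_of_nonneg (le_min (hm0 _) hD₀0)]
      exact min_le_right _ _)
    refine h1.congr (Eventually.of_forall fun o => ?_)
    simp only
    ring
  -- the derivative
  have key : D ≤ S * D₀ - D₀ ^ 2 + 12 * (2 * ρ) * D₀ + ρ := by
    obtain ⟨δ₁, hδ₁, hint⟩ := TRI_int hγ hg hH hH0 (TopologicalSpace.denseRange_denseSeq M) hG hn hpq
      (by linarith) hull hA hAK hx₁ hx₂ hy hD₀0 (κ := 2 * ρ) (by linarith) (by linarith) (by linarith)
      d3 d4 hρ0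
    have h1 : ∀ᶠ h in 𝓝[>] (0 : ℝ), h⁻¹ • (mz C (fun o => wt (C.pt o) * H o) g (Z n) (t + h) -
        mz C (fun o => wt (C.pt o) * H o) g (Z n) t) ≤ S * D₀ - D₀ ^ 2 + 12 * (2 * ρ) * D₀ + ρ := by
      filter_upwards [Ioo_mem_nhdsGT (show (0 : ℝ) < min δ₀ δ₁ from lt_min hδ₀ hδ₁)] with h hh
      have hh1 : h < δ₀ := hh.2.trans_le (min_le_left _ _)
      have hh2 : h < δ₁ := hh.2.trans_le (min_le_right _ _)
      have h2 := hint h hh.1 hh2
      have h3 := mz_incr_loc C hg (hZl n) (hZ0 n) (hZ1 n) iwt iw2 (show t ≤ t + h by linarith [hh.1]) (by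
        filter_upwards [hH0] with o ho h4 h5
        by_cases h6 : Z n (C.pt o) = 0
        · rw [h6, zero_mul, zero_mul]
        · refine mul_le_mul_of_nonneg_left ?_ (hZ0 n _)
          rw [mul_comm (wt (C.pt o))]
          refine mul_le_mul_of_nonneg_left (hwle _ (hnr _ ?_ h6)) ho
          rw [abs_le]
          constructor <;> linarith)
      rw [smul_eq_mul, inv_mul_le_iff₀ hh.1]
      exact h3.trans h2
    have h2 := hD.hasDerivWithinAt (s := Ioi t)
    have h3 := (hasDerivAt_iff_tendsto_slope_zero.1 hD).mono_left (nhdsGT_le_nhdsNE (0 : ℝ))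
    exact le_of_tendsto h3 h1
  have hnum := tri_num hS0 hG00 hGh (by linarith) hSG.le hρ0 hρ1 hD₀0 (min_le_left _ _)
  linarith

end Pool.Agent.FPM
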