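import Mathlib
import Pool.Agent.FPM.I57LP
import Pool.Agent.FPM.I57H2
import Pool.Agent.FPM.TRI
import Pool.Agent.FPM.HUL

/-
I57D1 (helper19): small lemmas about the traces on the curve of the pieces of the boundary (module G2d of
the isoperimetric inequality ISO57).
-/

open MeasureTheory Set Filter Topology
open scoped ENNReal NNReal

noncomputable section

namespace Pool.Agent.FPM

open Pool.Agent.EWD Pool.Agent.FPX

variable {M : Type} [MetricSpace M] {γ : ℝ → M} {C : Calc M γ} {f : M → ℝ} {t θ θ' l : ℝ} {ι : Type}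
  [Fintype ι] {big tr : Finset ι} {Z : ι → M → ℝ} {O : ι → Set M} {S p q : ι → ℝ}

theorem d1_fin (A : Set ℝ) (a b : ℝ) : volume (A ∩ Ioc a b) ≠ ∞ :=
  ne_top_of_le_ne_top (by simp) (measure_mono (inter_subset_right : A ∩ Ioc a b ⊆ Ioc a b))

/-- the function `Z i` on the part of the curve above the level -/
theorem LP57.Z_iff (h : LP57 C f t θ θ' l big tr Z O S p q) {s : ℝ} (hs : t ≤ f (γ s)) (i : ι) :
    Z i (γ s) = 1 ↔ γ s ∈ O i := by
  constructor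
  · intro h1
    obtain ⟨j, hj⟩ := mem_iUnion.1 (h.cov (Or.inr ⟨⟨s, rfl⟩, hs⟩))
    by_cases hij : j = i
    · rwa [hij] at hj
    · rw [h.zer i j hij _ hj] at h1
      exact absurd h1 zero_ne_one
  · exact h.one i _

theorem LP57.tr_eq (h : LP57 C f t θ θ' l big tr Z O S p q) (i : ι) :
    Apt γ f t (Z i) = {s | γ s ∈ O i ∧ t < f (γ s)} := by
  ext s
  simp only [Apt, mem_ofPred_eq]
  constructor
  · rintro ⟨h1, h2⟩
    exact ⟨(h.Z_iff h2.le i).1 h1, h2⟩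
  · rintro ⟨h1, h2⟩
    exact ⟨(h.Z_iff h2.le i).2 h1, h2⟩

/-- (a) -/
theorem LP57.gz_tr (h : LP57 C f t θ θ' l big tr Z O S p q) (i : ι) :
    Gz γ f t (Z i) = (volume ({s | γ s ∈ O i ∧ t < f (γ s)} ∩ Ioc 0 (2 * Real.pi))).toReal := by
  unfold Gz
  rw [h.tr_eq i]

theorem LP57.meas_tr (hγ : Bd γ) (hf : Lip f) (h : LP57 C f t θ θ' l big tr Z O S p q) (i : ι) :
    MeasurableSet {s | γ s ∈ O i ∧ t < f (γ s)} := by
  rw [← h.tr_eq i]
  exact meas_Apt hγ hf (h.lip i) t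

omit [Fintype ι] in
theorem d1_per (hγ : Bd γ) (i : ι) (s : ℝ) : s + 2 * Real.pi ∈ {s | γ s ∈ O i ∧ t < f (γ s)} ↔
    s ∈ {s | γ s ∈ O i ∧ t < f (γ s)} := by
  simp only [mem_ofPred_eq, hγ.per]

/-- (a), in any window -/
theorem LP57.gz_tr' (hγ : Bd γ) (hf : Lip f) (h : LP57 C f t θ θ' l big tr Z O S p q) (i : ι) (a : ℝ) :
    Gz γ f t (Z i) = (volume ({s | γ s ∈ O i ∧ t < f (γ s)} ∩ Ioc a (a + 2 * Real.pi))).toReal := by
  rw [h.gz_tr i, tri_per_vol (h.meas_tr hγ hf i) (fun s => d1_per hγ i s) a]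

/-- (a), for several pieces -/
theorem LP57.gz_sum_tr (hγ : Bd γ) (hf : Lip f) (h : LP57 C f t θ θ' l big tr Z O S p q) (D : Finset ι)
    (a : ℝ) : (volume ({s | ∃ i ∈ D, γ s ∈ O i ∧ t < f (γ s)} ∩ Ioc a (a + 2 * Real.pi))).toReal =
      ∑ i ∈ D, Gz γ f t (Z i) := by
  have e1 : {s | ∃ i ∈ D, γ s ∈ O i ∧ t < f (γ s)} ∩ Ioc a (a + 2 * Real.pi) =
      ⋃ i ∈ D, ({s | γ s ∈ O i ∧ t < f (γ s)} ∩ Ioc a (a + 2 * Real.pi)) := by
    ext s
    simp only [mem_inter_iff, mem_iUnion, mem_ofPred_eq, exists_prop]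
    constructor
    · rintro ⟨⟨i, hi, h1, h2⟩, h3⟩
      exact ⟨i, hi, ⟨h1, h2⟩, h3⟩
    · rintro ⟨i, hi, ⟨h1, h2⟩, h3⟩
      exact ⟨⟨i, hi, h1, h2⟩, h3⟩
  rw [e1, measure_biUnion_finset, ENNReal.toReal_sum fun i _ => d1_fin _ _ _]
  · exact Finset.sum_congr rfl fun i _ => (h.gz_tr' hγ hf i a).symm
  · intro i hi j hj hij
    change Disjoint _ _
    rw [Set.disjoint_left]
    rintro s ⟨⟨h1, -⟩, -⟩ ⟨⟨h3, -⟩, -⟩
    exact Set.disjoint_left.1 (h.dj i j hij) h1 h3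
  · intro i hi
    exact (h.meas_tr hγ hf i).inter measurableSet_Ioc

/-- (b) -/
theorem LP57.gz_le_h (hγ : Bd γ) (hf : Lip f) (h : LP57 C f t θ θ' l big tr Z O S p q) {i : ι} (hi : i ∈ tr) :
    Gz γ f t (Z i) ≤ q i - p i := by
  have hpi := Real.pi_pos
  have h1 := h.hlt i hi
  have h2 := h.hle i hi
  rw [h.gz_tr i, trace_window (h.meas_tr hγ hf i) (fun s => d1_per hγ i s) (p := p i) (q := q i)
    (by linarith) (fun s hs => h.hull i hi s hs.1 hs.2.le) 0]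
  refine ENNReal.toReal_le_of_le_ofReal (by linarith) ?_
  refine (measure_mono inter_subset_right).trans ?_
  rw [Real.volume_Icc]
  refine ENNReal.ofReal_le_ofReal ?_
  push_cast
  linarith

theorem d1_win (hγ : Bd γ) {a b θ s s' : ℝ} (h0 : 0 ≤ θ)
    (h1 : s ∈ Ioc (a - θ) (a - θ + 2 * Real.pi)) (h2 : s' ∈ Icc a b) (h3 : dist (γ s) (γ s') ≤ θ) :
    s ≤ b + θ ∨ s = a - θ + 2 * Real.pi := by
  have hpi := Real.pi_pos
  obtain ⟨h4, h5⟩ := h1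
  obtain ⟨h6, h7⟩ := h2
  rcases le_or_gt s s' with h8 | h8
  · left; linarith
  · rcases le_or_gt s (s' + Real.pi) with h9 | h9
    · rw [dist_comm, tri_gam_eq hγ h8.le h9] at h3
      left; linarith
    · have e : γ (s' + 2 * Real.pi) = γ s' := hγ.per s'
      rw [← e, tri_gam_eq hγ (by linarith) (by linarith)] at h3
      right
      linarith

/-- (c) -/
theorem LP57.dust_tr (hγ : Bd γ) (hf : Lip f) (h : LP57 C f t θ θ' l big tr Z O S p q) {D : Finset ι}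
    {a b : ℝ} (hD : ∀ i ∈ D, i ∉ big ∧ ∃ s ∈ Icc a b, γ s ∈ O i) (_hab : a ≤ b) (hθ : 0 ≤ θ)
    (_h2 : b - a + 2 * θ ≤ 2 * Real.pi) :
    ∑ i ∈ D, Gz γ f t (Z i) ≤
      (volume ({s | ∃ i, i ∉ big ∧ γ s ∈ O i ∧ t < f (γ s)} ∩ Ioc a b)).toReal + 2 * θ := by
  have hpi := Real.pi_pos
  rw [← h.gz_sum_tr hγ hf D (a - θ)]
  have hsub : {s | ∃ i ∈ D, γ s ∈ O i ∧ t < f (γ s)} ∩ Ioc (a - θ) (a - θ + 2 * Real.pi) ⊆
      (({s | ∃ i, i ∉ big ∧ γ s ∈ O i ∧ t < f (γ s)} ∩ Ioc a b) ∪ (Ioc (a - θ) a ∪ Ioc b (b + θ))) ∪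
        {a - θ + 2 * Real.pi} := by
    rintro s ⟨⟨i, hi, h3, h4⟩, h5⟩
    obtain ⟨h6, s', hs', h7⟩ := hD i hi
    rcases d1_win hγ hθ h5 hs' (h.dust i h6 _ h3 _ h7) with h8 | h8
    · left
      rcases le_or_gt s a with h9 | h9
      · right; left; exact ⟨h5.1, h9⟩
      · rcases le_or_gt s b with h10 | h10
        · left; exact ⟨⟨i, h6, h3, h4⟩, h9, h10⟩
        · right; right; exact ⟨h10, h8⟩
    · right; exact h8
  have hfin : volume ({s | ∃ i, i ∉ big ∧ γ s ∈ O i ∧ t < f (γ s)} ∩ Ioc a b) ≠ ∞ := d1_fin _ _ _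
  have e2 : ENNReal.ofReal θ + ENNReal.ofReal θ = ENNReal.ofReal (2 * θ) := by
    rw [← ENNReal.ofReal_add hθ hθ]
    congr 1
    ring
  have hle : volume ({s | ∃ i ∈ D, γ s ∈ O i ∧ t < f (γ s)} ∩ Ioc (a - θ) (a - θ + 2 * Real.pi)) ≤
      volume ({s | ∃ i, i ∉ big ∧ γ s ∈ O i ∧ t < f (γ s)} ∩ Ioc a b) + ENNReal.ofReal (2 * θ) := by
    refine (measure_mono hsub).trans ?_
    refine (measure_union_le _ _).trans ?_
    rw [Real.volume_singleton, add_zero]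
    refine (measure_union_le _ _).trans ?_
    refine add_le_add le_rfl ?_
    refine (measure_union_le _ _).trans ?_
    rw [Real.volume_Ioc, Real.volume_Ioc, ← e2]
    refine add_le_add (le_of_eq ?_) (le_of_eq ?_) <;> congr 1 <;> ring
  calc _ ≤ (volume ({s | ∃ i, i ∉ big ∧ γ s ∈ O i ∧ t < f (γ s)} ∩ Ioc a b) +
        ENNReal.ofReal (2 * θ)).toReal := ENNReal.toReal_mono (by finiteness) hle
    _ = _ := by
      rw [ENNReal.toReal_add hfin (by finiteness), ENNReal.toReal_ofReal (by linarith)]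

/-- (d) -/
theorem LP57.dust_tr2 (hγ : Bd γ) (hf : Lip f) (h : LP57 C f t θ θ' l big tr Z O S p q) {D : Finset ι}
    {a b : ℝ} (hD : ∀ i, i ∉ big → ∀ s ∈ Icc a b, γ s ∈ O i → t ≤ f (γ s) → i ∈ D)
    (hab : b ≤ a + 2 * Real.pi) :
    (volume ({s | ∃ i, i ∉ big ∧ γ s ∈ O i ∧ t < f (γ s)} ∩ Ioc a b)).toReal ≤
      ∑ i ∈ D, Gz γ f t (Z i) := by
  rw [← h.gz_sum_tr hγ hf D a]
  refine ENNReal.toReal_mono (d1_fin _ _ _) (measure_mono ?_)
  rintro s ⟨⟨i, h1, h2, h3⟩, h4, h5⟩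
  exact ⟨⟨i, hD i h1 s ⟨h4.le, h5⟩ h2 h3.le, h2, h3⟩, h4, h5.trans hab⟩

omit [MetricSpace M] in
/-- (e) the part of the strips below the level -/
theorem strip57 (hev : ∀ s, f (γ (s + Real.pi)) = f (γ s)) {κ : Type} {J : Finset κ} {P Q e e' : κ → ℝ}
    {ρ : ℝ} (hρ : 0 ≤ ρ) (hJ : ∀ j ∈ J, P j ≤ Q j ∧ P j - ρ ≤ e j ∧ e' j ≤ Q j + ρ) :
    (volume ({s | ∃ j ∈ J, s ∈ Ioc (e j + Real.pi) (e' j + Real.pi)} ∩ {s | f (γ s) ≤ t})).toReal ≤
      (volume ((⋃ j ∈ J, Icc (P j) (Q j)) \ {s | t < f (γ s)})).toReal + 2 * ρ * J.card := by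
  have e1 : (fun s => s + Real.pi) ⁻¹' ({s | ∃ j ∈ J, s ∈ Ioc (e j + Real.pi) (e' j + Real.pi)} ∩
      {s | f (γ s) ≤ t}) = {s | ∃ j ∈ J, s ∈ Ioc (e j) (e' j)} ∩ {s | f (γ s) ≤ t} := by
    ext s
    simp only [mem_preimage, mem_inter_iff, mem_ofPred_eq, hev, mem_Ioc, add_lt_add_iff_right,
      add_le_add_iff_right]
  have e2 : volume ({s | ∃ j ∈ J, s ∈ Ioc (e j + Real.pi) (e' j + Real.pi)} ∩ {s | f (γ s) ≤ t}) =
      volume ({s | ∃ j ∈ J, s ∈ Ioc (e j) (e' j)} ∩ {s | f (γ s) ≤ t}) := by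
    rw [← e1, measure_preimage_add_right]
  rw [e2]
  have hsub : {s | ∃ j ∈ J, s ∈ Ioc (e j) (e' j)} ∩ {s | f (γ s) ≤ t} ⊆
      ((⋃ j ∈ J, Icc (P j) (Q j)) \ {s | t < f (γ s)}) ∪
        ⋃ j ∈ J, (Ioc (P j - ρ) (P j) ∪ Ioc (Q j) (Q j + ρ)) := by
    rintro s ⟨⟨j, hj, h1, h2⟩, h3⟩
    obtain ⟨h4, h5, h6⟩ := hJ j hj
    by_cases hs : s ∈ Icc (P j) (Q j)
    · left
      refine ⟨mem_iUnion₂.2 ⟨j, hj, hs⟩, fun h7 => ?_⟩
      have h7 : t < f (γ s) := h7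
      have h3 : f (γ s) ≤ t := h3
      linarith
    · right
      refine mem_iUnion₂.2 ⟨j, hj, ?_⟩
      rcases lt_or_ge s (P j) with h8 | h8
      · left; exact ⟨by linarith, h8.le⟩
      · right
        refine ⟨?_, by linarith⟩
        by_contra h9
        exact hs ⟨h8, not_lt.1 h9⟩
  have hfin : volume ((⋃ j ∈ J, Icc (P j) (Q j)) \ {s | t < f (γ s)}) ≠ ∞ := by
    refine ne_top_of_le_ne_top ?_ ((measure_mono sdiff_subset).trans (measure_biUnion_finset_le J _))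
    exact (ENNReal.sum_lt_top.2 fun j _ => by rw [Real.volume_Icc]; exact ENNReal.ofReal_lt_top).ne
  have hle : volume ({s | ∃ j ∈ J, s ∈ Ioc (e j) (e' j)} ∩ {s | f (γ s) ≤ t}) ≤
      volume ((⋃ j ∈ J, Icc (P j) (Q j)) \ {s | t < f (γ s)}) + ENNReal.ofReal (2 * ρ * J.card) := by
    refine (measure_mono hsub).trans ((measure_union_le _ _).trans (add_le_add le_rfl ?_))
    refine (measure_biUnion_finset_le J _).trans ?_
    have h1 : ∀ j ∈ J, volume (Ioc (P j - ρ) (P j) ∪ Ioc (Q j) (Q j + ρ)) ≤ ENNReal.ofReal (2 * ρ) := by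
      intro j hj
      refine (measure_union_le _ _).trans ?_
      rw [Real.volume_Ioc, Real.volume_Ioc, ← ENNReal.ofReal_add (by linarith) (by linarith)]
      exact ENNReal.ofReal_le_ofReal (by linarith)
    refine (Finset.sum_le_sum h1).trans ?_
    rw [Finset.sum_const, nsmul_eq_mul, ← ENNReal.ofReal_natCast, ← ENNReal.ofReal_mul (by positivity)]
    exact ENNReal.ofReal_le_ofReal (by linarith)
  calc _ ≤ (volume ((⋃ j ∈ J, Icc (P j) (Q j)) \ {s | t < f (γ s)}) +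
        ENNReal.ofReal (2 * ρ * J.card)).toReal := ENNReal.toReal_mono (by finiteness) hle
    _ = _ := by
      rw [ENNReal.toReal_add hfin (by finiteness), ENNReal.toReal_ofReal (by positivity)]

end Pool.Agent.FPM
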