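import Mathlib
import Pool.Agent.FPM.DBL
import Pool.Agent.FPM.TRI
import Pool.Agent.FPM.I57D1

/-
DBM (helper80): for a function that is even along the curve: if a connected part of the perimeter of
`{t < g}` and a connected part of the perimeter of `{g < t}` both reach two opposite points of the curve,
then the level line `g = t` has length at least `2 π`.
-/

open MeasureTheory Set Filter Topology
open scoped ENNReal NNReal

noncomputable section

namespace Pool.Agent.FPM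

open Pool.Agent.EWD Pool.Agent.FPX DBL

variable {M : Type} [MetricSpace M] {γ : ℝ → M}

/-- the two functions on the surface -/
structure Wv (γ : ℝ → M) (N : ℕ) (B : Finset ℤ) (a b : ℝ) (P Q : M → ℝ) : Prop where
  lv : LipschitzWith 1 P
  lu : LipschitzWith 1 Q
  ls : LipschitzWith 1 fun x => P x + Q x
  ld : LipschitzWith 1 fun x => P x - Q x
  ev : ∀ u, P (γ u) = Fv N B a u
  eu : ∀ u, Q (γ u) = Fu N B b u

theorem wv_exists (hγ : Bd γ) (N : ℕ) (B : Finset ℤ) (a b : ℝ) : ∃ P Q : M → ℝ, Wv γ N B a b P Q := by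
  obtain ⟨p, hp, hp'⟩ := bd_ext hγ (sum_lip N B a b) (fun t => by
    simp only [Fv_per, Fu_per])
  obtain ⟨q, hq, hq'⟩ := bd_ext hγ (dif_lip N B a b) (fun t => by
    simp only [Fv_per, Fu_per])
  have kp : ∀ x y, |p x - p y| ≤ dist x y := fun x y => by
    have := hp.dist_le_mul x y
    rwa [Real.dist_eq, NNReal.coe_one, one_mul] at this
  have kq : ∀ x y, |q x - q y| ≤ dist x y := fun x y => by
    have := hq.dist_le_mul x y
    rwa [Real.dist_eq, NNReal.coe_one, one_mul] at this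
  refine ⟨fun x => (p x + q x) / 2, fun x => (p x - q x) / 2, ?_, ?_, ?_, ?_, ?_, ?_⟩
  · refine LipschitzWith.of_dist_le_mul fun x y => ?_
    rw [Real.dist_eq, NNReal.coe_one, one_mul]
    obtain ⟨h1, h2⟩ := abs_le.1 (kp x y)
    obtain ⟨h3, h4⟩ := abs_le.1 (kq x y)
    exact abs_le.2 ⟨by linarith, by linarith⟩
  · refine LipschitzWith.of_dist_le_mul fun x y => ?_
    rw [Real.dist_eq, NNReal.coe_one, one_mul]
    obtain ⟨h1, h2⟩ := abs_le.1 (kp x y)
    obtain ⟨h3, h4⟩ := abs_le.1 (kq x y)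
    exact abs_le.2 ⟨by linarith, by linarith⟩
  · have e : (fun x => (p x + q x) / 2 + (p x - q x) / 2) = p := by
      funext x
      ring
    rw [e]
    exact hp
  · have e : (fun x => (p x + q x) / 2 - (p x - q x) / 2) = q := by
      funext x
      ring
    rw [e]
    exact hq
  · intro u
    rw [hp', hq']
    ring
  · intro u
    rw [hp', hq']
    ring

/-- the densities of the two functions add up to at most one -/
theorem wv_wed (C : Calc M γ) {N : ℕ} {B : Finset ℤ} {a b : ℝ} {P Q g : M → ℝ}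
    (h : Wv γ N B a b P Q) : ∀ᵐ o ∂C.μ, |C.wed P g o| + |C.wed Q g o| ≤ gn C g o := by
  have lP : Lip P := ⟨1, h.lv⟩
  have lQ : Lip Q := ⟨1, h.lu⟩
  filter_upwards [gn_cs C (g := g) h.ls, gn_cs C (g := g) h.ld, C.ae_add lP lQ, C.ae_sub lP lQ]
    with o h1 h2 h3 h4
  have e1 : C.wed (fun x => P x + Q x) g o = C.wed P g o + C.wed Q g o := by
    unfold Calc.wed
    rw [h3.1, h3.2]
    ring
  have e2 : C.wed (fun x => P x - Q x) g o = C.wed P g o - C.wed Q g o := by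
    unfold Calc.wed
    rw [h4.1, h4.2]
    ring
  rw [e1] at h1
  rw [e2] at h2
  obtain ⟨a1, a2⟩ := abs_le.1 h1
  obtain ⟨a3, a4⟩ := abs_le.1 h2
  rcases abs_cases (C.wed P g o) with ⟨b1, b2⟩ | ⟨b1, b2⟩ <;>
    rcases abs_cases (C.wed Q g o) with ⟨b3, b4⟩ | ⟨b3, b4⟩ <;> rw [b1, b3] <;> linarith

/-- the mass of `H` above a level -/
theorem mz_neg_one (C : Calc M γ) {g : M → ℝ} (hg : Lip g) {H : Om → ℝ} (hH : Integrable H C.μ)
    (h0 : ∀ c : ℝ, ∀ᵐ o ∂C.μ, g (C.pt o) = c → H o = 0) (r : ℝ) :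
    mz C H (fun x => -g x) (fun _ => 1) r = (∫ o, H o ∂C.μ) - mz C H g (fun _ => 1) (-r) := by
  have hm : NullMeasurableSet {o | -g (C.pt o) < r} C.μ := meas_pt_lt C hg.neg r
  have hm' : NullMeasurableSet {o | g (C.pt o) < -r} C.μ := meas_pt_lt C hg (-r)
  unfold mz
  simp only [one_mul]
  rw [← integral_indicator₀ hm, ← integral_indicator₀ hm', ← integral_sub hH (hH.indicator₀ hm')]
  refine integral_congr_ae ?_
  filter_upwards [h0 (-r)] with o ho
  rcases lt_trichotomy (g (C.pt o)) (-r) with h | h | h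
  · have h1 : o ∉ {o | -g (C.pt o) < r} := fun h2 => by
      have h3 : -g (C.pt o) < r := h2
      linarith
    have h2 : o ∈ {o | g (C.pt o) < -r} := h
    rw [indicator_of_notMem h1, indicator_of_mem h2, sub_self]
  · have h1 : o ∉ {o | -g (C.pt o) < r} := fun h2 => by
      have h3 : -g (C.pt o) < r := h2
      linarith
    have h2 : o ∉ {o | g (C.pt o) < -r} := fun h2 => by
      have h3 : g (C.pt o) < -r := h2
      linarith
    rw [indicator_of_notMem h1, indicator_of_notMem h2, ho h, sub_zero]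
  · have h1 : o ∈ {o | -g (C.pt o) < r} := by
      change -g (C.pt o) < r
      linarith
    have h2 : o ∉ {o | g (C.pt o) < -r} := fun h2 => by
      have h3 : g (C.pt o) < -r := h2
      linarith
    rw [indicator_of_mem h1, indicator_of_notMem h2, sub_zero]

/-- comparison of the derivatives -/
theorem mz_deriv_le [CompactSpace M] (C : Calc M γ) {g ζ : M → ℝ} (hg : Lip g) (hl : Lip ζ)
    (h0 : ∀ x, 0 ≤ ζ x) (h1 : ∀ x, ζ x ≤ 1) {H₁ H₂ : Om → ℝ} (i₁ : Integrable H₁ C.μ)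
    (i₂ : Integrable H₂ C.μ) (hle : ∀ᵐ o ∂C.μ, H₁ o ≤ H₂ o) {t : ℝ}
    (d₁ : DifferentiableAt ℝ (mz C H₁ g ζ) t) (d₂ : DifferentiableAt ℝ (mz C H₂ g ζ) t) :
    deriv (mz C H₁ g ζ) t ≤ deriv (mz C H₂ g ζ) t := by
  have h2 := mz_mono C hg hl h0 h1 (i₂.sub i₁) (by
    filter_upwards [hle] with o ho
    simp only [Pi.sub_apply]
    linarith)
  have e : mz C (H₂ - H₁) g ζ = fun r => mz C H₂ g ζ r - mz C H₁ g ζ r := by
    funext r
    exact mz_sub C hl h0 h1 i₁ i₂ r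
  rw [e] at h2
  have h3 := h2.deriv_nonneg (x := t)
  have h4 := (d₂.hasDerivAt.sub d₁.hasDerivAt).deriv
  have h5 : deriv (fun r => mz C H₂ g ζ r - mz C H₁ g ζ r) t =
      deriv (mz C H₂ g ζ) t - deriv (mz C H₁ g ζ) t := h4
  linarith

/-- the oscillation on a connected part of the perimeter of a function with countably many values on
most of the trace -/
theorem osc_le {C : Calc M γ} {H : Om → ℝ} {g p : M → ℝ} {t : ℝ} {F : Set ℝ} (hF : F.Countable)
    (hpc : Continuous p) (hadc : Adc γ g t fun _ => 1) (hd : DCI C H g p (fun _ => 1) Fᶜ t)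
    (hnn : 0 ≤ deriv (mz C (HI C H p Fᶜ) g fun _ => 1) t) {A : Set M} (hA : IsPreconnected A)
    (hAK : A ⊆ Kt γ g t) {x y : M} (hx : x ∈ A) (hy : y ∈ A) :
    2 * (p y - p x) ≤ deriv (mz C (HI C H p Fᶜ) g fun _ => 1) t + GI γ g t (fun _ => 1) p Fᶜ := by
  have h1 := (hd hadc).2
  have h2 : Icc (p x) (p y) \ F ⊆
      Fᶜ ∩ p '' {x | (g x = t ∨ (x ∈ range γ ∧ t ≤ g x)) ∧ (1 : ℝ) = 1} := by
    rintro s ⟨hs, hsF⟩
    refine ⟨hsF, ?_⟩
    have h3 : IsPreconnected (p '' A) := hA.image p hpc.continuousOn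
    have h4 := h3.Icc_subset (mem_image_of_mem p hx) (mem_image_of_mem p hy)
    obtain ⟨w, hw, hw'⟩ := h4 hs
    exact ⟨w, ⟨hAK hw, rfl⟩, hw'⟩
  have h3 : 2 * ENNReal.ofReal (p y - p x) ≤
      ENNReal.ofReal (deriv (mz C (HI C H p Fᶜ) g fun _ => 1) t + GI γ g t (fun _ => 1) p Fᶜ) := by
    refine le_trans ?_ h1
    gcongr
    rw [← Real.volume_Icc, ← measure_sdiff_null (s := Icc (p x) (p y)) (hF.measure_zero volume)]
    exact measure_mono h2
  have h4 : ENNReal.ofReal (2 * (p y - p x)) ≤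
      ENNReal.ofReal (deriv (mz C (HI C H p Fᶜ) g fun _ => 1) t + GI γ g t (fun _ => 1) p Fᶜ) := by
    rwa [ENNReal.ofReal_mul (by norm_num), ENNReal.ofReal_ofNat]
  exact (ENNReal.ofReal_le_ofReal_iff (add_nonneg hnn (GI_nonneg _ _ _ _ _ _))).1 h4

theorem cel_add_int {N : ℕ} (u : ℝ) (m : ℤ) : cel N (u + m * Real.pi) = cel N u + m * N := by
  have hpi := Real.pi_pos
  unfold cel
  have e : (u + m * Real.pi) * N / Real.pi = u * N / Real.pi + ((m * N : ℤ) : ℝ) := by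
    push_cast
    field_simp
  rw [e, Int.floor_add_intCast]

/-- the part of the curve just above a level is short -/
theorem small_above (hγ : Bd γ) {g : M → ℝ} (hg : Lip g) (t : ℝ) {η : ℝ} (hη : 0 < η) :
    ∃ r : ℝ, 0 < r ∧ (volume {s : ℝ | s ∈ Ioc 0 (2 * Real.pi) ∧ t < g (γ s) ∧ g (γ s) < t + r}).toReal ≤ η := by
  have hc : Continuous fun s => g (γ s) := hg.cont.comp hγ.lip.continuous
  set S : ℕ → Set ℝ := fun n => {s : ℝ | s ∈ Ioc 0 (2 * Real.pi) ∧ t < g (γ s) ∧ g (γ s) < t + 1 / (n + 1)}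
    with hS
  have hm : ∀ n, MeasurableSet (S n) := fun n =>
    measurableSet_Ioc.inter ((measurableSet_lt measurable_const hc.measurable).inter
      (measurableSet_lt hc.measurable measurable_const))
  have hanti : Antitone S := by
    intro m n hmn s hs
    refine ⟨hs.1, hs.2.1, hs.2.2.trans_le ?_⟩
    have h1 : (m : ℝ) ≤ n := by exact_mod_cast hmn
    have h2 : (0 : ℝ) < m + 1 := by positivity
    gcongr
  have hfin : volume (S 0) ≠ ∞ := by
    refine ne_top_of_le_ne_top ?_ (measure_mono (fun s (hs : s ∈ S 0) => hs.1))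
    rw [Real.volume_Ioc]
    exact ENNReal.ofReal_ne_top
  have hinter : ⋂ n, S n = ∅ := by
    rw [Set.eq_empty_iff_forall_notMem]
    intro s hs
    rw [mem_iInter] at hs
    have h1 := (hs 0).2.1
    obtain ⟨n, hn⟩ := exists_nat_one_div_lt (show 0 < g (γ s) - t by linarith)
    have h2 := (hs n).2.2
    linarith
  have h1 := tendsto_measure_iInter_atTop (μ := volume) (fun n => (hm n).nullMeasurableSet) hanti ⟨0, hfin⟩
  rw [hinter, measure_empty] at h1
  have h2 : ∀ᶠ n in atTop, volume (S n) < ENNReal.ofReal η :=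
    h1.eventually (Iio_mem_nhds (ENNReal.ofReal_pos.2 hη))
  obtain ⟨n, hn⟩ := h2.exists
  refine ⟨1 / (n + 1), by positivity, ?_⟩
  exact ENNReal.toReal_le_of_le_ofReal hη.le hn.le

/-- the marked cells -/
theorem marked (hγ : Bd γ) {g : M → ℝ} (hg : Lip g) (hev : ∀ s, g (γ (s + Real.pi)) = g (γ s)) (t : ℝ)
    {η : ℝ} (hη : 0 < η) : ∃ (N : ℕ) (B : Finset ℤ), 0 < N ∧
      (∀ u, g (γ u) < t → cel N u % N ∈ B) ∧
      (volume {s : ℝ | s ∈ Ioc 0 (2 * Real.pi) ∧ t < g (γ s) ∧ cel N s % N ∈ B}).toReal ≤ η := by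
  classical
  have hpi := Real.pi_pos
  obtain ⟨r, hr, hr'⟩ := small_above hγ hg t hη
  obtain ⟨L, hL⟩ := id hg
  have hLip : ∀ u v, g (γ u) - g (γ v) ≤ L * |u - v| := by
    intro u v
    have h1 := hL.dist_le_mul (γ u) (γ v)
    have h2 := hγ.lip.dist_le_mul u v
    rw [Real.dist_eq] at h1 h2
    rw [NNReal.coe_one, one_mul] at h2
    exact (le_abs_self _).trans (h1.trans (mul_le_mul_of_nonneg_left h2 L.2))
  obtain ⟨N, hN⟩ := exists_nat_gt (L * Real.pi / r)
  have hN0 : (0 : ℝ) < N := lt_of_le_of_lt (by positivity) hN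
  have hNn : 0 < N := by exact_mod_cast hN0
  have hLN : L * (Real.pi / N) < r := by
    rw [← mul_div_assoc, div_lt_iff₀ hN0]
    rw [div_lt_iff₀ hr] at hN
    linarith
  have hp : Function.Periodic (fun u => g (γ u)) Real.pi := hev
  have hNz : (0 : ℤ) < N := by exact_mod_cast hNn
  refine ⟨N, (Finset.Ico (0 : ℤ) N).filter fun k => ∃ u, cel N u = k ∧ g (γ u) ≤ t, hNn, ?_, ?_⟩
  · intro u hu
    refine Finset.mem_filter.2 ⟨Finset.mem_Ico.2 ⟨Int.emod_nonneg _ hNz.ne', Int.emod_lt_of_pos _ hNz⟩, ?_⟩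
    refine ⟨u + ((-(cel N u / N) : ℤ) : ℝ) * Real.pi, ?_, ?_⟩
    · rw [cel_add_int]
      have := Int.emod_add_mul_ediv (cel N u) N
      linarith
    · have h1 := hp.int_mul (-(cel N u / N)) u
      rw [h1]
      exact hu.le
  · refine le_trans (ENNReal.toReal_mono ?_ (measure_mono ?_)) hr'
    · refine ne_top_of_le_ne_top ?_ (measure_mono (fun s hs => (hs.1 : s ∈ Ioc 0 (2 * Real.pi))))
      rw [Real.volume_Ioc]
      exact ENNReal.ofReal_ne_top
    · rintro s ⟨h1, h2, h3⟩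
      refine ⟨h1, h2, ?_⟩
      obtain ⟨-, u, hu1, hu2⟩ := Finset.mem_filter.1 h3
      have h4 : cel N (u + ((cel N s / N : ℤ) : ℝ) * Real.pi) = cel N s := by
        rw [cel_add_int, hu1]
        have := Int.emod_add_mul_ediv (cel N s) N
        linarith
      have h5 := hp.int_mul (cel N s / N) u
      have h6 := cel_close hNn h4.symm
      have h7 := hLip s (u + ((cel N s / N : ℤ) : ℝ) * Real.pi)
      rw [h5] at h7
      have h8 : (L : ℝ) * |s - (u + ((cel N s / N : ℤ) : ℝ) * Real.pi)| ≤ L * (Real.pi / N) :=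
        mul_le_mul_of_nonneg_left h6 L.2
      linarith

/-- the level line is long if both perimeters connect opposite points -/
theorem DBM [CompactSpace M] (C : Calc M γ) (hγ : Bd γ) (hR : RegPl C) {g : M → ℝ} (hg : Lip g)
    (hev : ∀ s, g (γ (s + Real.pi)) = g (γ s)) : ∀ᵐ t : ℝ, ∀ A A' : Set M, IsPreconnected A →
      IsPreconnected A' → A ⊆ Kt γ g t → A' ⊆ Kt γ (fun x => -g x) (-t) → ∀ ρ s s' : ℝ,
      (∃ a ∈ A, dist (γ s) a ≤ ρ) → (∃ a ∈ A, dist (γ (s + Real.pi)) a ≤ ρ) →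
      (∃ a ∈ A', dist (γ s') a ≤ ρ) → (∃ a ∈ A', dist (γ (s' + Real.pi)) a ≤ ρ) →
      2 * Real.pi ≤ deriv (lev C g) t + 8 * ρ := by
  have hpi := Real.pi_pos
  have hl1 : Lip (fun _ : M => (1 : ℝ)) := lip_const 1
  choose P Q hPQ using fun (i : ℕ × Finset ℤ × ℚ × ℚ) => wv_exists hγ i.1 i.2.1 (i.2.2.1 : ℝ) (i.2.2.2 : ℝ)
  have adc1 : ∀ (f : M → ℝ) (t : ℝ), Adc γ f t fun _ => 1 := fun f t =>
    ⟨hl1, fun _ => zero_le_one, fun _ => le_rfl, ⟨1, one_pos, fun _ _ => Or.inr rfl⟩, fun _ _ => Or.inr rfl⟩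
  have iP : ∀ i, Integrable (fun o => |C.wed (P i) g o|) C.μ := fun i =>
    (integrable_wed C ⟨1, (hPQ i).lv⟩ hg).abs
  have iQ : ∀ i, Integrable (fun o => |C.wed (Q i) g o|) C.μ := fun i =>
    (integrable_wed C ⟨1, (hPQ i).lu⟩ hg).abs
  have nn : ∀ p : M → ℝ, ∀ᵐ o ∂C.μ, 0 ≤ |C.wed p g o| := fun p => Eventually.of_forall fun o => abs_nonneg _
  have wn : ∀ p : M → ℝ, ∀ o, C.wed p (fun x => -g x) o = -C.wed p g o := by
    intro p o
    unfold Calc.wed Calc.gx Calc.gy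
    rw [deriv.fun_neg, deriv.fun_neg]
    ring
  have a1 : ∀ᵐ t : ℝ, ∀ i, DCI C (fun o => |C.wed (P i) g o|) g (P i) (fun _ => 1)
      (valV i.1 i.2.1 (i.2.2.1 : ℝ))ᶜ t := by
    rw [ae_all_iff]
    intro i
    exact F1_loc C hγ hR hg (hPQ i).lv (iP i) (Eventually.of_forall fun o => le_rfl)
      (valV_ct _ _ _).measurableSet.compl
  have a2' : ∀ᵐ t : ℝ, ∀ i, DCI C (fun o => |C.wed (Q i) g o|) (fun x => -g x) (Q i) (fun _ => 1)
      (valU i.1 i.2.1 (i.2.2.2 : ℝ))ᶜ t := by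
    rw [ae_all_iff]
    intro i
    exact F1_loc C hγ hR hg.neg (hPQ i).lu (iQ i) (Eventually.of_forall fun o => by
      rw [wn, abs_neg]) (valU_ct _ _ _).measurableSet.compl
  have a2 : ∀ᵐ t : ℝ, ∀ i, DCI C (fun o => |C.wed (Q i) g o|) (fun x => -g x) (Q i) (fun _ => 1)
      (valU i.1 i.2.1 (i.2.2.2 : ℝ))ᶜ (-t) :=
    (Measure.measurePreserving_neg (volume : Measure ℝ)).quasiMeasurePreserving.ae a2'
  have a3 : ∀ᵐ t : ℝ, ∀ i, DifferentiableAt ℝ (mz C (fun o => |C.wed (P i) g o|) g fun _ => 1) t := by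
    rw [ae_all_iff]
    intro i
    exact (mz_mono C hg hl1 (fun _ => zero_le_one) (fun _ => le_rfl) (iP i) (nn _)).ae_differentiableAt
  have a4 : ∀ᵐ t : ℝ, ∀ i, DifferentiableAt ℝ (mz C (fun o => |C.wed (Q i) g o|) g fun _ => 1) t := by
    rw [ae_all_iff]
    intro i
    exact (mz_mono C hg hl1 (fun _ => zero_le_one) (fun _ => le_rfl) (iQ i) (nn _)).ae_differentiableAt
  have a5 : ∀ᵐ t : ℝ, DifferentiableAt ℝ (lev C g) t := (lev_mono C hg).ae_differentiableAt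
  filter_upwards [a1, a2, a3, a4, a5] with t t1 t2 t3 t4 t5 A A' hA hA' hAK hAK' ρ s s' h1 h2 h3 h4
  obtain ⟨x₁, hx₁, dx₁⟩ := h1
  obtain ⟨y₁, hy₁, dy₁⟩ := h2
  obtain ⟨x₂, hx₂, dx₂⟩ := h3
  obtain ⟨y₂, hy₂, dy₂⟩ := h4
  refine le_of_forall_pos_le_add fun e he => ?_
  set η : ℝ := e / 9 with hη
  have hη0 : 0 < η := by positivity
  obtain ⟨N, B, hN, hB1, hB2⟩ := marked hγ hg hev t hη0
  obtain ⟨a, ha1, ha2⟩ := exists_rat_btwn (show s - η < s by linarith)
  obtain ⟨b, hb1, hb2⟩ := exists_rat_btwn (show s' - η < s' by linarith)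
  set i : ℕ × Finset ℤ × ℚ × ℚ := (N, B, a, b) with hi
  have hw : Wv γ N B (a : ℝ) (b : ℝ) (P i) (Q i) := hPQ i
  have c1 : |s - a| ≤ η := abs_le.2 ⟨by linarith, by linarith⟩
  have c2 : |s' - b| ≤ η := abs_le.2 ⟨by linarith, by linarith⟩
  -- the first function
  have lP : Lip (P i) := ⟨1, hw.lv⟩
  have lQ : Lip (Q i) := ⟨1, hw.lu⟩
  have mV : MeasurableSet (valV N B (a : ℝ))ᶜ := (valV_ct _ _ _).measurableSet.compl
  have mU : MeasurableSet (valU N B (b : ℝ))ᶜ := (valU_ct _ _ _).measurableSet.compl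
  have jP := HI_integrable C (iP i) lP mV
  have jQ := HI_integrable C (iQ i) lQ mU
  have n1 : 0 ≤ deriv (mz C (HI C (fun o => |C.wed (P i) g o|) (P i) (valV N B (a : ℝ))ᶜ) g fun _ => 1) t :=
    mz_deriv_nonneg C hg hl1 (fun _ => zero_le_one) (fun _ => le_rfl) jP
      (Eventually.of_forall fun o => HI_nonneg (abs_nonneg _) _ _) t
  have n2 : 0 ≤ deriv (mz C (HI C (fun o => |C.wed (Q i) g o|) (Q i) (valU N B (b : ℝ))ᶜ)
      (fun x => -g x) fun _ => 1) (-t) :=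
    mz_deriv_nonneg C hg.neg hl1 (fun _ => zero_le_one) (fun _ => le_rfl) jQ
      (Eventually.of_forall fun o => HI_nonneg (abs_nonneg _) _ _) (-t)
  have o1 := osc_le (valV_ct N B (a : ℝ)) lP.cont (adc1 g t) (t1 i) n1 hA hAK hx₁ hy₁
  have o2 := osc_le (valU_ct N B (b : ℝ)) lQ.cont (adc1 _ (-t)) (t2 i) n2 hA' hAK' hx₂ hy₂
  have g1 : GI γ g t (fun _ => 1) (P i) (valV N B (a : ℝ))ᶜ ≤ η := by
    refine le_trans (ENNReal.toReal_mono ?_ (measure_mono ?_)) hB2
    · refine ne_top_of_le_ne_top ?_ (measure_mono (fun s hs => (hs.1 : s ∈ Ioc 0 (2 * Real.pi))))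
      rw [Real.volume_Ioc]
      exact ENNReal.ofReal_ne_top
    · rintro r ⟨⟨⟨-, r1⟩, r2⟩, r3⟩
      refine ⟨r3, r1, ?_⟩
      by_contra hcon
      have r2' : P i (γ r) ∈ (valV N B (a : ℝ))ᶜ := r2
      rw [hw.ev] at r2'
      exact r2' (Fv_mem hN B a r hcon)
  have g2 : GI γ (fun x => -g x) (-t) (fun _ => 1) (Q i) (valU N B (b : ℝ))ᶜ = 0 := by
    unfold GI
    have e1 : Apt γ (fun x => -g x) (-t) (fun _ => 1) ∩ {r | Q i (γ r) ∈ (valU N B (b : ℝ))ᶜ} ∩
        Ioc 0 (2 * Real.pi) = ∅ := by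
      rw [Set.eq_empty_iff_forall_notMem]
      rintro r ⟨⟨⟨-, r1⟩, r2⟩, -⟩
      have r1' : -t < -g (γ r) := r1
      have r2' : Q i (γ r) ∈ (valU N B (b : ℝ))ᶜ := r2
      rw [hw.eu] at r2'
      exact r2' (Fu_mem hN B b r (hB1 r (by linarith)))
    rw [e1, measure_empty, ENNReal.toReal_zero]
  have p1 : gX N B Real.pi - 2 * η - 2 * ρ ≤ P i y₁ - P i x₁ := by
    have k1 := Fv_osc N B a s
    have k2 := hw.lv.dist_le_mul (γ s) x₁
    have k3 := hw.lv.dist_le_mul (γ (s + Real.pi)) y₁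
    rw [Real.dist_eq, NNReal.coe_one, one_mul, hw.ev] at k2 k3
    have k4 := (abs_le.1 k2).1
    have k5 := (abs_le.1 k3).2
    linarith
  have p2 : Real.pi - gX N B Real.pi - 2 * η - 2 * ρ ≤ Q i y₂ - Q i x₂ := by
    have k1 := Fu_osc N B b s'
    have k2 := hw.lu.dist_le_mul (γ s') x₂
    have k3 := hw.lu.dist_le_mul (γ (s' + Real.pi)) y₂
    rw [Real.dist_eq, NNReal.coe_one, one_mul, hw.eu] at k2 k3
    have k4 := (abs_le.1 k2).1
    have k5 := (abs_le.1 k3).2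
    linarith
  -- comparison
  have d1 := ((t1 i) (adc1 g t)).1
  have d2 := ((t2 i) (adc1 _ (-t))).1
  have z0 : ∀ c : ℝ, ∀ᵐ o ∂C.μ, g (C.pt o) = c → |C.wed (Q i) g o| = 0 := by
    intro c
    filter_upwards [grad_level C hg c] with o ho hc
    obtain ⟨q1, q2⟩ := ho hc
    unfold Calc.wed
    rw [q1, q2]
    simp
  have hneg : mz C (fun o => |C.wed (Q i) g o|) (fun x => -g x) (fun _ => 1) =
      fun r => (∫ o, |C.wed (Q i) g o| ∂C.μ) - mz C (fun o => |C.wed (Q i) g o|) g (fun _ => 1) (-r) :=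
    funext fun r => mz_neg_one C hg (iQ i) z0 r
  have hder : HasDerivAt (mz C (fun o => |C.wed (Q i) g o|) (fun x => -g x) fun _ => 1)
      (deriv (mz C (fun o => |C.wed (Q i) g o|) g fun _ => 1) t) (-t) := by
    rw [hneg]
    have q1 : HasDerivAt (mz C (fun o => |C.wed (Q i) g o|) g fun _ => 1)
        (deriv (mz C (fun o => |C.wed (Q i) g o|) g fun _ => 1) t) (-(-t)) := by
      rw [neg_neg]
      exact (t4 i).hasDerivAt
    have q2 := (q1.comp (-t) (hasDerivAt_neg (-t))).const_sub (∫ o, |C.wed (Q i) g o| ∂C.μ)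
    refine q2.congr_deriv ?_
    ring
  have f1 := mz_deriv_le C hg hl1 (fun _ => zero_le_one) (fun _ => le_rfl) jP (iP i)
    (Eventually.of_forall fun o => HI_le (abs_nonneg _) _ _) d1 (t3 i)
  have f2 := mz_deriv_le C hg.neg hl1 (fun _ => zero_le_one) (fun _ => le_rfl) jQ (iQ i)
    (Eventually.of_forall fun o => HI_le (abs_nonneg _) _ _) d2 hder.differentiableAt
  rw [hder.deriv] at f2
  have hsum : HasDerivAt (mz C (fun o => |C.wed (P i) g o| + |C.wed (Q i) g o|) g fun _ => 1)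
      (deriv (mz C (fun o => |C.wed (P i) g o|) g fun _ => 1) t +
        deriv (mz C (fun o => |C.wed (Q i) g o|) g fun _ => 1) t) t := by
    have q1 : mz C (fun o => |C.wed (P i) g o| + |C.wed (Q i) g o|) g (fun _ => 1) = fun r =>
        mz C (fun o => |C.wed (P i) g o|) g (fun _ => 1) r +
          mz C (fun o => |C.wed (Q i) g o|) g (fun _ => 1) r :=
      funext fun r => mz_add' C hl1 (fun _ => zero_le_one) (fun _ => le_rfl) (iP i) (iQ i) r
    rw [q1]
    exact (t3 i).hasDerivAt.add (t4 i).hasDerivAt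
  have f3 := mz_deriv_le C hg hl1 (fun _ => zero_le_one) (fun _ => le_rfl) ((iP i).add (iQ i))
    (int_gn C hg) (wv_wed C hw) hsum.differentiableAt (by
      rw [mz_one]
      exact t5)
  have f3' : deriv (mz C (fun o => |C.wed (P i) g o| + |C.wed (Q i) g o|) g fun _ => 1) t ≤
      deriv (lev C g) t := by
    rw [← mz_one C g]
    exact f3
  rw [hsum.deriv] at f3'
  rw [g2] at o2
  linarith

end Pool.Agent.FPM
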