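import Mathlib
import Pool.Agent.FPM.DCB7

/-
DCL (helper87): the double covering F1 localised to the part of the piece where the 1-Lipschitz function
`p` has values in an open interval, and the multi-ball inequality: disjoint sets `{a_i < p_i < b_i}` share
the length of the piece.
-/

open MeasureTheory Set Filter Topology
open scoped ENNReal NNReal

noncomputable section

namespace Pool.Agent.FPM

open Pool.Agent.EWD

variable {M : Type} [MetricSpace M] {γ : ℝ → M}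

/-- the density on the part where `p` has values in `(a, b)` -/
def HzL (C : Calc M γ) (H : Om → ℝ) (p : M → ℝ) (a b : ℝ) : Om → ℝ :=
  fun o => (p ⁻¹' Ioo a b).indicator (fun _ => H o) (C.pt o)

/-- the length of the part of the boundary curve in the piece where `p` has values in `(a, b)` -/
def GzL (γ : ℝ → M) (g p : M → ℝ) (a b t : ℝ) (ζ : M → ℝ) : ℝ :=
  (volume ((Apt γ g t ζ ∩ {s | p (γ s) ∈ Ioo a b}) ∩ Ioc 0 (2 * Real.pi))).toReal

omit [MetricSpace M] in
theorem GzL_nonneg (γ : ℝ → M) (g p : M → ℝ) (a b t : ℝ) (ζ : M → ℝ) : 0 ≤ GzL γ g p a b t ζ :=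
  ENNReal.toReal_nonneg

theorem HzL_nonneg (C : Calc M γ) {H : Om → ℝ} (p : M → ℝ) (a b : ℝ) (hH : ∀ᵐ o ∂C.μ, 0 ≤ H o) :
    ∀ᵐ o ∂C.μ, 0 ≤ HzL C H p a b o := by
  filter_upwards [hH] with o ho
  exact indicator_apply_nonneg fun _ => ho

theorem HzL_integrable (C : Calc M γ) {H : Om → ℝ} {p : M → ℝ} (hp : Lip p) (a b : ℝ)
    (hH : Integrable H C.μ) : Integrable (HzL C H p a b) C.μ := by
  have h1 : HzL C H p a b = {o | p (C.pt o) ∈ Ioo a b}.indicator H := by
    funext o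
    unfold HzL
    by_cases h : p (C.pt o) ∈ Ioo a b
    · rw [indicator_of_mem (show C.pt o ∈ p ⁻¹' Ioo a b from h),
        indicator_of_mem (show o ∈ {o | p (C.pt o) ∈ Ioo a b} from h)]
    · rw [indicator_of_notMem (show C.pt o ∉ p ⁻¹' Ioo a b from h),
        indicator_of_notMem (show o ∉ {o | p (C.pt o) ∈ Ioo a b} from h)]
  rw [h1]
  refine hH.indicator₀ ?_
  exact (C.meas_pt hp).nullMeasurable measurableSet_Ioo

variable [CompactSpace M]

/-- one band -/
theorem F1L_band (C : Calc M γ) (hγ : Bd γ) (hR : RegPl C) {g p ζ : M → ℝ} (hg : Lip g)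
    (hp : LipschitzWith 1 p) {c d : ℝ} (hcd : c < d) (hζ : Adb γ g c d ζ) (a₀ b₀ : ℝ) {H : Om → ℝ}
    (hH : Integrable H C.μ) (hpg : ∀ᵐ o ∂C.μ, |C.wed p g o| ≤ H o) :
    ∀ᵐ t : ℝ, t ∈ Ioo c d →
      2 * volume (p '' {x | (g x = t ∨ (x ∈ range γ ∧ t ≤ g x)) ∧ ζ x = 1} ∩ Ioo a₀ b₀) ≤
        ENNReal.ofReal (deriv (mz C (HzL C H p a₀ b₀) g ζ) t + GzL γ g p a₀ b₀ t ζ) := by
  have := C.fin
  have hpi := Real.pi_pos
  have lp : Lip p := ⟨1, hp⟩
  obtain ⟨Q, hQm, hQ⟩ := C.meas_pt hg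
  obtain ⟨P, hPm, hP⟩ := C.meas_pt lp
  set I₀ : Set ℝ := Ioo a₀ b₀ with hI₀
  have iJ : Integrable (fun o => ζ (C.pt o) * C.wed g p o) C.μ :=
    integrable_zH C hζ.lip hζ.lo hζ.hi (integrable_wed C hg lp)
  obtain ⟨J₁, hJ₁m, hJ₁⟩ := iJ.1.aemeasurable
  have hJ₁' : (fun o => ζ (C.pt o) * C.wed g p o) =ᵐ[C.μ] J₁ := hJ₁
  have iJ₁ : Integrable J₁ C.μ := iJ.congr hJ₁'
  set J : Om → ℝ := (P ⁻¹' I₀).indicator J₁ with hJdef
  have mPI : MeasurableSet (P ⁻¹' I₀) := hPm measurableSet_Ioo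
  have hJm : Measurable J := hJ₁m.indicator mPI
  have iJ' : Integrable J C.μ := iJ₁.indicator mPI
  have hH0 : ∀ᵐ o ∂C.μ, 0 ≤ H o := by
    filter_upwards [hpg] with o ho
    exact (abs_nonneg _).trans ho
  have hHL : Integrable (HzL C H p a₀ b₀) C.μ := HzL_integrable C lp a₀ b₀ hH
  have hHL0 : ∀ᵐ o ∂C.μ, 0 ≤ HzL C H p a₀ b₀ o := HzL_nonneg C p a₀ b₀ hH0
  have iW : Integrable (fun o => ζ (C.pt o) * HzL C H p a₀ b₀ o) C.μ :=
    integrable_zH C hζ.lip hζ.lo hζ.hi hHL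
  have iW0 : ∀ᵐ o ∂C.μ, 0 ≤ ζ (C.pt o) * HzL C H p a₀ b₀ o := by
    filter_upwards [hHL0] with o ho
    exact mul_nonneg (hζ.lo _) ho
  obtain ⟨V, hVm, hV⟩ := iW.1.aemeasurable
  have hV' : (fun o => ζ (C.pt o) * HzL C H p a₀ b₀ o) =ᵐ[C.μ] V := hV
  set W : Om → ℝ≥0∞ := fun o => ENNReal.ofReal (V o) with hW
  have hfin : ∫⁻ o, W o ∂C.μ ≠ ∞ := by
    have h1 : ∫⁻ o, W o ∂C.μ = ∫⁻ o, ENNReal.ofReal (ζ (C.pt o) * HzL C H p a₀ b₀ o) ∂C.μ := by
      refine lintegral_congr_ae ?_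
      filter_upwards [hV'] with o ho
      simp only [hW, ← ho]
    rw [h1, ← ofReal_integral_eq_lintegral_ofReal iW iW0]
    exact ENNReal.ofReal_ne_top
  have hLa : mz C (HzL C H p a₀ b₀) g ζ = La C.μ Q W := by
    funext r
    have e1 : ({o | g (C.pt o) < r} : Set Om) =ᵐ[C.μ] (Q ⁻¹' (Iio r) : Set Om) := by
      filter_upwards [hQ] with o ho
      change (g (C.pt o) < r) = (Q o < r)
      rw [ho]
    unfold mz
    rw [setIntegral_congr_set e1]
    unfold La
    rw [integral_eq_lintegral_of_nonneg_ae (ae_restrict_of_ae iW0) iW.1.restrict]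
    congr 1
    refine lintegral_congr_ae (ae_restrict_of_ae ?_)
    filter_upwards [hV'] with o ho
    simp only [hW, ← ho]
  have c1 : Continuous fun r => ζ (γ r) := hζ.lip.cont.comp hγ.lip.continuous
  have c2 : Continuous fun r => g (γ r) := hg.cont.comp hγ.lip.continuous
  have c3 : Continuous fun r => p (γ r) := hp.continuous.comp hγ.lip.continuous
  set B₁ : Set ℝ := {r | ζ (γ r) = 1} ∩ Ioc 0 (2 * Real.pi) with hB₁
  have mB1 : MeasurableSet {r | ζ (γ r) = 1} := c1.measurable (measurableSet_singleton 1)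
  have mB₁ : MeasurableSet B₁ := mB1.inter measurableSet_Ioc
  set B : Set ℝ := B₁ ∩ {r | p (γ r) ∈ I₀} with hB
  have mI : MeasurableSet {r | p (γ r) ∈ I₀} := c3.measurable measurableSet_Ioo
  have mB : MeasurableSet B := mB₁.inter mI
  have lf : LipschitzWith 1 fun r => p (γ r) := by
    have := hp.comp hγ.lip
    rwa [mul_one] at this
  -- the rectangle identity of the piece
  have rect₁ : ∀ a b a' b', c ≤ a → a < b → b ≤ d → a' < b' →
      ∫ o, (Ioo a b ×ˢ Ioo a' b').indicator (fun _ => J₁ o) ((Q o, P o) : ℝ × ℝ) ∂C.μ =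
        - -C.sg * ∫ r in B₁, (Ioo a' b').indicator (fun _ => ((b - a) * bnd a b (g (γ r))) *
          deriv (fun r => p (γ r)) r) (p (γ r)) := by
    intro a b a' b' hca hab hbd hab'
    have h1 := dcb_rect C hγ hcd hg lp hζ hca hab hbd hab'
    have h2 : ∫ o, (Ioo a b ×ˢ Ioo a' b').indicator (fun _ => J₁ o) ((Q o, P o) : ℝ × ℝ) ∂C.μ =
        ∫ o, (Ioo a b ×ˢ Ioo a' b').indicator (fun _ => ζ (C.pt o) * C.wed g p o)
          ((g (C.pt o), p (C.pt o)) : ℝ × ℝ) ∂C.μ := by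
      refine integral_congr_ae ?_
      filter_upwards [hQ, hP, hJ₁'] with o h1 h2 h3
      simp only [h1, h2, h3]
    rw [h2, h1, neg_neg, intervalIntegral.integral_of_le (by positivity)]
    congr 1
    rw [hB₁, ← Measure.restrict_restrict mB1, ← integral_indicator mB1]
    refine integral_congr_ae (Eventually.of_forall fun r => ?_)
    simp only
    rcases le_or_gt (g (γ r)) c with h3 | h3
    · have h6 : bnd a b (g (γ r)) = 0 := bnd_lo hab (h3.trans hca)
      by_cases h5 : r ∈ {r | ζ (γ r) = 1}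
      · rw [indicator_of_mem h5, h6]
        simp
      · rw [indicator_of_notMem h5, h6]
        simp
    · rcases hζ.bd r h3.le with h4 | h4
      · have h5 : r ∉ {r | ζ (γ r) = 1} := fun h6 => by
          have h7 : ζ (γ r) = 1 := h6
          rw [h4] at h7
          exact zero_ne_one h7
        rw [indicator_of_notMem h5, h4]
        simp
      · have h5 : r ∈ {r | ζ (γ r) = 1} := h4
        rw [indicator_of_mem h5, h4, one_mul]
  have hD : DcbDat C.μ Q P J (fun r => p (γ r)) (fun r => g (γ r)) B c d (-C.sg) := by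
    refine ⟨hQm, hPm, hJm, iJ', lf, c2.measurable, mB, ?_, hcd, ?_, ?_⟩
    · refine ne_top_of_le_ne_top ?_ (measure_mono (inter_subset_left.trans inter_subset_right))
      rw [Real.volume_Ioc]
      exact ENNReal.ofReal_ne_top
    · rcases C.pm with h | h
      · exact Or.inr (by rw [h])
      · exact Or.inl (by rw [h]; norm_num)
    · intro a b a' b' hca hab hbd hab'
      -- the two localised integrands
      have e1 : ∀ o, (Ioo a b ×ˢ Ioo a' b').indicator (fun _ => J o) ((Q o, P o) : ℝ × ℝ) =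
          (Ioo a b ×ˢ Ioo (max a' a₀) (min b' b₀)).indicator (fun _ => J₁ o) ((Q o, P o) : ℝ × ℝ) := by
        intro o
        by_cases h1 : P o ∈ I₀
        · have h2 : J o = J₁ o := indicator_of_mem (show o ∈ P ⁻¹' I₀ from h1) _
          by_cases h3 : ((Q o, P o) : ℝ × ℝ) ∈ Ioo a b ×ˢ Ioo a' b'
          · have h4 : ((Q o, P o) : ℝ × ℝ) ∈ Ioo a b ×ˢ Ioo (max a' a₀) (min b' b₀) :=
              ⟨h3.1, max_lt h3.2.1 h1.1, lt_min h3.2.2 h1.2⟩
            rw [indicator_of_mem h3, indicator_of_mem h4, h2]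
          · have h4 : ((Q o, P o) : ℝ × ℝ) ∉ Ioo a b ×ˢ Ioo (max a' a₀) (min b' b₀) :=
              fun h5 => h3 ⟨h5.1, lt_of_le_of_lt (le_max_left _ _) h5.2.1,
                lt_of_lt_of_le h5.2.2 (min_le_left _ _)⟩
            rw [indicator_of_notMem h3, indicator_of_notMem h4]
        · have h2 : J o = 0 := indicator_of_notMem (show o ∉ P ⁻¹' I₀ from h1) _
          have h4 : ((Q o, P o) : ℝ × ℝ) ∉ Ioo a b ×ˢ Ioo (max a' a₀) (min b' b₀) :=
            fun h5 => h1 ⟨lt_of_le_of_lt (le_max_right _ _) h5.2.1,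
              lt_of_lt_of_le h5.2.2 (min_le_right _ _)⟩
          rw [indicator_of_notMem h4, h2]
          simp
      have e2 : ∫ r in B, (Ioo a' b').indicator (fun _ => ((b - a) * bnd a b (g (γ r))) *
            deriv (fun r => p (γ r)) r) (p (γ r)) =
          ∫ r in B₁, (Ioo (max a' a₀) (min b' b₀)).indicator (fun _ => ((b - a) * bnd a b (g (γ r))) *
            deriv (fun r => p (γ r)) r) (p (γ r)) := by
        rw [hB, inter_comm, ← Measure.restrict_restrict mI, ← integral_indicator mI]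
        refine integral_congr_ae (Eventually.of_forall fun r => ?_)
        simp only
        by_cases h1 : p (γ r) ∈ I₀
        · rw [indicator_of_mem (show r ∈ {r | p (γ r) ∈ I₀} from h1)]
          by_cases h3 : p (γ r) ∈ Ioo a' b'
          · have h4 : p (γ r) ∈ Ioo (max a' a₀) (min b' b₀) := ⟨max_lt h3.1 h1.1, lt_min h3.2 h1.2⟩
            rw [indicator_of_mem h3, indicator_of_mem h4]
          · have h4 : p (γ r) ∉ Ioo (max a' a₀) (min b' b₀) :=
              fun h5 => h3 ⟨lt_of_le_of_lt (le_max_left _ _) h5.1,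
                lt_of_lt_of_le h5.2 (min_le_left _ _)⟩
            rw [indicator_of_notMem h3, indicator_of_notMem h4]
        · have h4 : p (γ r) ∉ Ioo (max a' a₀) (min b' b₀) :=
            fun h5 => h1 ⟨lt_of_le_of_lt (le_max_right _ _) h5.1,
              lt_of_lt_of_le h5.2 (min_le_right _ _)⟩
          rw [indicator_of_notMem (show r ∉ {r | p (γ r) ∈ I₀} from h1), indicator_of_notMem h4]
      simp only [e1]
      rw [e2]
      rcases lt_or_ge (max a' a₀) (min b' b₀) with h | h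
      · exact rect₁ a b _ _ hca hab hbd h
      · rw [Ioo_eq_empty (not_lt.2 h), prod_empty]
        simp
  -- the surface part
  set G : Set (ℝ × ℝ) := {v | (∃ x, g x = v.1 ∧ p x = v.2 ∧ ζ x = 1) ∧ v.2 ∈ I₀} with hGdef
  have hG : ∀ᵐ v : ℝ × ℝ, v ∈ G →
      ENNReal.ofReal (2 * Real.pi) ≤
        liminf (fun k => gk C.μ Q P (fun o => ENNReal.ofReal (1 * J o)) k v) atTop ∨
      ENNReal.ofReal (2 * Real.pi) ≤
        liminf (fun k => gk C.μ Q P (fun o => ENNReal.ofReal (-1 * J o)) k v) atTop := by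
    filter_upwards [hR g p hg lp] with v hv hvG
    obtain ⟨Z, s, hVz⟩ := hv
    obtain ⟨⟨x, hx1, hx2, hx3⟩, hvI⟩ := hvG
    have hxZ : x ∈ Z := by
      rw [hVz.zero]
      exact ⟨by rw [hx1, sub_self], by rw [hx2, sub_self]⟩
    -- the localised cut-off
    obtain ⟨δ, hδ, hδI⟩ : ∃ δ : ℝ, 0 < δ ∧ ∀ u, |u - v.2| < δ → u ∈ I₀ := by
      refine ⟨min (v.2 - a₀) (b₀ - v.2), lt_min (by linarith [hvI.1]) (by linarith [hvI.2]),
        fun u hu => ?_⟩
      have h1 := lt_of_lt_of_le hu (min_le_left _ _)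
      have h2 := lt_of_lt_of_le hu (min_le_right _ _)
      rw [abs_lt] at h1 h2
      exact ⟨by linarith, by linarith⟩
    set χ : M → ℝ := fun y => max 0 (1 - δ⁻¹ * |p y - v.2|) with hχ
    have lχ : Lip χ := by
      have l1 : Lip (fun y => |p y - v.2|) := by
        obtain ⟨K, hK⟩ := lp.sub (lip_const v.2)
        exact ⟨1 * K, lipschitzWith_one_norm.comp hK⟩
      exact (lip_const 0).max ((lip_const 1).sub (l1.const_mul δ⁻¹))
    have χ0 : ∀ y, 0 ≤ χ y := fun y => le_max_left _ _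
    have χ1 : ∀ y, χ y ≤ 1 := fun y => by
      refine max_le zero_le_one ?_
      have : 0 ≤ δ⁻¹ * |p y - v.2| := by positivity
      linarith
    have χx : χ x = 1 := by
      show max 0 (1 - δ⁻¹ * |p x - v.2|) = 1
      rw [hx2, sub_self, abs_zero, mul_zero, sub_zero, max_eq_right zero_le_one]
    have χI : ∀ y, p y ∉ I₀ → χ y = 0 := by
      intro y hy
      have h1 : δ ≤ |p y - v.2| := by
        by_contra h2
        exact hy (hδI _ (not_le.1 h2))
      have h2 : 1 ≤ δ⁻¹ * |p y - v.2| := by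
        rw [← div_eq_inv_mul, one_le_div hδ]
        exact h1
      exact max_eq_left (by linarith)
    have h1 := zero_sign hVz (hζ.lip.mul lχ) hxZ (show ζ x * χ x = 1 by rw [hx3, χx, one_mul])
    have key : ∀ σ : ℝ, ENNReal.ofReal (2 * Real.pi) ≤ liminf (fun k : ℕ => ∫⁻ o, ENNReal.ofReal
        (kr (ek k) (g (C.pt o) - v.1, p (C.pt o) - v.2)) * ENNReal.ofReal (σ * ((ζ (C.pt o) *
          χ (C.pt o)) * C.wed (fun x => g x - v.1) (fun x => p x - v.2) o)) ∂C.μ) atTop →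
        ENNReal.ofReal (2 * Real.pi) ≤
          liminf (fun k => gk C.μ Q P (fun o => ENNReal.ofReal (σ * J o)) k v) atTop := by
      intro σ h2
      refine h2.trans (liminf_le_liminf (Eventually.of_forall fun k => ?_))
      unfold gk
      refine lintegral_mono_ae ?_
      filter_upwards [hQ, hP, hJ₁'] with o h1 h2 h3
      rw [wed_sub_const]
      have e : ((Q o, P o) - v : ℝ × ℝ) = (g (C.pt o) - v.1, p (C.pt o) - v.2) := by
        rw [← h1, ← h2]
        rfl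
      rw [e]
      refine mul_le_mul' le_rfl ?_
      by_cases h4 : p (C.pt o) ∈ I₀
      · have h5 : J o = J₁ o := indicator_of_mem (show o ∈ P ⁻¹' I₀ by
          change P o ∈ I₀
          rw [← h2]
          exact h4) _
        have e3 : σ * ((ζ (C.pt o) * χ (C.pt o)) * C.wed g p o) = χ (C.pt o) * (σ * J₁ o) := by
          rw [← h3]
          ring
        rw [h5, e3]
        rcases le_total 0 (σ * J₁ o) with h6 | h6
        · exact ENNReal.ofReal_le_ofReal (mul_le_of_le_one_left h6 (χ1 _))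
        · rw [ENNReal.ofReal_of_nonpos (mul_nonpos_of_nonneg_of_nonpos (χ0 _) h6)]
          exact bot_le
      · rw [χI _ h4]
        simp
    rcases hVz.pm x hxZ with h2 | h2
    · left
      rw [h2] at h1
      exact key 1 h1
    · right
      rw [h2] at h1
      exact key (-1) h1
  have hWJ : ∀ᵐ o ∂C.μ, ENNReal.ofReal |J o| ≤ W o := by
    filter_upwards [hJ₁', hV', hpg, hP] with o h1 h2 h3 h4
    simp only [hW]
    rw [← h2]
    refine ENNReal.ofReal_le_ofReal ?_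
    by_cases h5 : p (C.pt o) ∈ I₀
    · have h6 : J o = J₁ o := indicator_of_mem (show o ∈ P ⁻¹' I₀ by
        change P o ∈ I₀
        rw [← h4]
        exact h5) _
      have h7 : HzL C H p a₀ b₀ o = H o := indicator_of_mem (show C.pt o ∈ p ⁻¹' Ioo a₀ b₀ from h5) _
      rw [h6, h7, ← h1, abs_mul, abs_of_nonneg (hζ.lo _), wed_antisymm, abs_neg]
      exact mul_le_mul_of_nonneg_left h3 (hζ.lo _)
    · have h6 : J o = 0 := indicator_of_notMem (show o ∉ P ⁻¹' I₀ by
        change P o ∉ I₀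
        rw [← h4]
        exact h5) _
      rw [h6, abs_zero]
      have h7 : HzL C H p a₀ b₀ o = 0 := indicator_of_notMem (show C.pt o ∉ p ⁻¹' Ioo a₀ b₀ from h5) _
      rw [h7, mul_zero]
  filter_upwards [hD.slice hG hWJ hfin] with t ht htI
  obtain ⟨-, h2⟩ := ht htI
  have s1 : p '' {x | (g x = t ∨ (x ∈ range γ ∧ t ≤ g x)) ∧ ζ x = 1} ∩ Ioo a₀ b₀ ⊆
      {s | (t, s) ∈ G ∨ ∃ r ∈ B, t < g (γ r) ∧ p (γ r) = s} := by
    rintro s ⟨⟨x, ⟨hx, hx1⟩, rfl⟩, hxI⟩
    rcases hx with hx | ⟨hx, hxt⟩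
    · exact Or.inl ⟨⟨x, hx, rfl, hx1⟩, hxI⟩
    · rcases hxt.eq_or_lt with h3 | h3
      · exact Or.inl ⟨⟨x, h3.symm, rfl, hx1⟩, hxI⟩
      · right
        have hper : Function.Periodic γ (2 * Real.pi) := hγ.per
        rw [← hper.image_Ioc (by positivity) 0, zero_add] at hx
        obtain ⟨r, hr, rfl⟩ := hx
        exact ⟨r, ⟨⟨hx1, hr⟩, hxI⟩, h3, rfl⟩
  refine (mul_le_mul' le_rfl (measure_mono s1)).trans (h2.trans ?_)
  have e1 : B ∩ {r | t < g (γ r)} =
      (Apt γ g t ζ ∩ {s | p (γ s) ∈ Ioo a₀ b₀}) ∩ Ioc 0 (2 * Real.pi) := by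
    ext r
    constructor
    · rintro ⟨⟨⟨h3, h4⟩, h6⟩, h5⟩
      exact ⟨⟨⟨h3, h5⟩, h6⟩, h4⟩
    · rintro ⟨⟨⟨h3, h5⟩, h6⟩, h4⟩
      exact ⟨⟨⟨h3, h4⟩, h6⟩, h5⟩
  have fin1 : volume ((Apt γ g t ζ ∩ {s | p (γ s) ∈ Ioo a₀ b₀}) ∩ Ioc 0 (2 * Real.pi)) ≠ ∞ := by
    refine ne_top_of_le_ne_top ?_ (measure_mono inter_subset_right)
    rw [Real.volume_Ioc]
    exact ENNReal.ofReal_ne_top
  have e2 : volume (B ∩ {r | t < g (γ r)}) = ENNReal.ofReal (GzL γ g p a₀ b₀ t ζ) := by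
    rw [e1]
    unfold GzL
    rw [ENNReal.ofReal_toReal fin1]
  have h3 : 0 ≤ deriv (mz C (HzL C H p a₀ b₀) g ζ) t :=
    mz_deriv_nonneg C hg hζ.lip hζ.lo hζ.hi hHL hHL0 t
  rw [e2, ← hLa, ENNReal.ofReal_add h3 (GzL_nonneg _ _ _ _ _ _ _)]

/-- the localised double covering for one cut-off, one function and one interval -/
def DCL (C : Calc M γ) (H : Om → ℝ) (g p ζ : M → ℝ) (a b t : ℝ) : Prop := Adc γ g t ζ →
  2 * volume (p '' {x | (g x = t ∨ (x ∈ range γ ∧ t ≤ g x)) ∧ ζ x = 1} ∩ Ioo a b) ≤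
    ENNReal.ofReal (deriv (mz C (HzL C H p a b) g ζ) t + GzL γ g p a b t ζ)

/-- F1 localised -/
theorem F1L (C : Calc M γ) (hγ : Bd γ) (hR : RegPl C) {g p ζ : M → ℝ} (hg : Lip g)
    (hp : LipschitzWith 1 p) (a₀ b₀ : ℝ) {H : Om → ℝ} (hH : Integrable H C.μ)
    (hpg : ∀ᵐ o ∂C.μ, |C.wed p g o| ≤ H o) :
    ∀ᵐ t : ℝ, DCL C H g p ζ a₀ b₀ t := by
  have key : ∀ᵐ t : ℝ, ∀ c d : ℚ, (c : ℝ) < d → Adb γ g c d ζ → t ∈ Ioo (c : ℝ) d →
      2 * volume (p '' {x | (g x = t ∨ (x ∈ range γ ∧ t ≤ g x)) ∧ ζ x = 1} ∩ Ioo a₀ b₀) ≤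
        ENNReal.ofReal (deriv (mz C (HzL C H p a₀ b₀) g ζ) t + GzL γ g p a₀ b₀ t ζ) := by
    rw [ae_all_iff]
    intro c
    rw [ae_all_iff]
    intro d
    by_cases hcd : (c : ℝ) < d
    · by_cases hz : Adb γ g c d ζ
      · filter_upwards [F1L_band C hγ hR hg hp hcd hz a₀ b₀ hH hpg] with t ht _ _
        exact ht
      · exact Eventually.of_forall fun t _ h => absurd h hz
    · exact Eventually.of_forall fun t h => absurd h hcd
  filter_upwards [key] with t ht hadc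
  obtain ⟨δ, hδ, hA⟩ := hadc.exists_Adb
  obtain ⟨c, hc1, hc2⟩ := exists_rat_btwn (show t - δ < t by linarith)
  obtain ⟨d, hd1, hd2⟩ := exists_rat_btwn (show t < t + δ by linarith)
  exact ht c d (hc2.trans hd1) (hA.mono hc1.le hd2.le) ⟨hc2, hd1⟩

end Pool.Agent.FPM
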