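import Mathlib
import Pool.Agent.FPM.SU3
import Pool.Agent.FPM.TMB
import Pool.Agent.FPM.SU4D

/-
FPM/NMF (helper56): near minimality for changes of the metric up to the curve. In `NM` the frame change is
the identity near the curve; here this is not required, a thin shell near the curve repairs it.
-/

set_option autoImplicit false

open Set Filter Topology MeasureTheory
open scoped NNReal

noncomputable section

namespace Pool.Agent.FPM

open Pool.Agent.EWD

variable {M : Type} [MetricSpace M] {γ : ℝ → M}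

/-- a function that is 1-Lipschitz along the curve has a 1-Lipschitz extension -/
theorem nmf_ext (hγ : Bd γ) {u : M → ℝ} (h : ∀ s s', |u (γ s) - u (γ s')| ≤ |s - s'|) :
    ∃ U : M → ℝ, LipschitzWith 1 U ∧ ∀ s, U (γ s) = u (γ s) := by
  refine bd_ext hγ (Θ := fun s => u (γ s)) ?_ ?_
  · refine LipschitzWith.of_dist_le_mul fun s t => ?_
    rw [Real.dist_eq, Real.dist_eq, NNReal.coe_one, one_mul]
    exact h s t
  · intro t
    simp only [hγ.per]

/-- the distance to the curve -/
def rC (γ : ℝ → M) (x : M) : ℝ := Metric.infDist x (range γ)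

theorem rC_lip : LipschitzWith 1 (rC γ) := Metric.lipschitz_infDist_pt _

theorem rC_nonneg (x : M) : 0 ≤ rC γ x := Metric.infDist_nonneg

/-- two Lipschitz functions that agree along the curve are close near the curve -/
theorem nmf_close {u U : M → ℝ} {L K : ℝ≥0} (hu : LipschitzWith L u) (hU : LipschitzWith K U)
    (h : ∀ s, U (γ s) = u (γ s)) (x : M) : |u x - U x| ≤ (L + K) * rC γ x := by
  refine le_of_forall_pos_le_add fun e he => ?_
  have hLK : (0 : ℝ) ≤ L + K := by positivity
  have hlt : Metric.infDist x (range γ) < rC γ x + e / (L + K + 1) := by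
    have : 0 < e / (L + K + 1) := by positivity
    unfold rC
    linarith
  obtain ⟨y, ⟨s, rfl⟩, hy⟩ := (Metric.infDist_lt_iff (range_nonempty γ)).1 hlt
  have h1 := hu.dist_le_mul x (γ s)
  have h2 := hU.dist_le_mul x (γ s)
  rw [Real.dist_eq] at h1 h2
  rw [h s] at h2
  have h3 : |u x - U x| ≤ (L + K) * dist x (γ s) := by
    have e1 : u x - U x = (u x - u (γ s)) - (U x - u (γ s)) := by ring
    rw [e1]
    refine (abs_sub _ _).trans ?_
    linarith
  have h4 : (L + K : ℝ) * dist x (γ s) ≤ (L + K) * (rC γ x + e / (L + K + 1)) :=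
    mul_le_mul_of_nonneg_left hy.le hLK
  have h5 : (L + K : ℝ) * (e / (L + K + 1)) ≤ e := by
    have e1 : (L + K : ℝ) * (e / (L + K + 1)) = e * ((L + K) / (L + K + 1)) := by ring
    rw [e1]
    have h6 : (L + K : ℝ) / (L + K + 1) ≤ 1 := (div_le_one (by positivity)).2 (by linarith)
    nlinarith
  linarith

/-- the cut-off -/
def nmfL (γ : ℝ → M) (σ : ℝ) (x : M) : ℝ := max 0 (min 1 ((rC γ x - σ) / σ))

theorem nmfL_mem (σ : ℝ) (x : M) : 0 ≤ nmfL γ σ x ∧ nmfL γ σ x ≤ 1 :=
  ⟨le_max_left _ _, max_le zero_le_one (min_le_left _ _)⟩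

theorem nmfL_lo {σ : ℝ} (hσ : 0 < σ) {x : M} (h : rC γ x ≤ σ) : nmfL γ σ x = 0 := by
  unfold nmfL
  apply max_eq_left
  refine (min_le_right _ _).trans ?_
  exact div_nonpos_of_nonpos_of_nonneg (by linarith) hσ.le

theorem nmfL_hi {σ : ℝ} (hσ : 0 < σ) {x : M} (h : 2 * σ ≤ rC γ x) : nmfL γ σ x = 1 := by
  unfold nmfL
  have h1 : 1 ≤ (rC γ x - σ) / σ := by
    rw [le_div_iff₀ hσ]
    linarith
  rw [min_eq_left h1]
  exact max_eq_right zero_le_one

theorem nmfL_lip {σ : ℝ} (hσ : 0 < σ) (x y : M) : |nmfL γ σ x - nmfL γ σ y| ≤ dist x y / σ := by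
  unfold nmfL
  refine (abs_max_sub_max_le_max 0 (min 1 ((rC γ x - σ) / σ)) 0 (min 1 ((rC γ y - σ) / σ))).trans ?_
  rw [sub_self, abs_zero, max_eq_right (abs_nonneg _)]
  have h1 : |min 1 ((rC γ x - σ) / σ) - min 1 ((rC γ y - σ) / σ)| ≤
      |(rC γ x - σ) / σ - (rC γ y - σ) / σ| := by
    have := abs_min_sub_min_le_max 1 ((rC γ x - σ) / σ) 1 ((rC γ y - σ) / σ)
    simpa using this
  refine h1.trans ?_
  have e : (rC γ x - σ) / σ - (rC γ y - σ) / σ = (rC γ x - rC γ y) / σ := by ring
  rw [e, abs_div, abs_of_pos hσ]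
  apply div_le_div_of_nonneg_right _ hσ.le
  have := (rC_lip (γ := γ)).dist_le_mul x y
  rwa [Real.dist_eq, NNReal.coe_one, one_mul] at this

/-- the interpolation -/
theorem nmf_lip {u U : M → ℝ} {L : ℝ≥0} (hu : LipschitzWith L u) (hU : LipschitzWith 1 U)
    (h : ∀ s, U (γ s) = u (γ s)) {σ : ℝ} (hσ : 0 < σ) :
    LipschitzWith (3 * L + 4) fun x => U x + nmfL γ σ x * (u x - U x) := by
  have key : ∀ x y, rC γ y ≤ rC γ x → |nmfL γ σ x * (u x - U x) - nmfL γ σ y * (u y - U y)| ≤
      (3 * L + 3) * dist x y := by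
    intro x y hxy
    have h1 := hu.dist_le_mul x y
    have h2 := hU.dist_le_mul x y
    rw [Real.dist_eq] at h1 h2
    rw [NNReal.coe_one, one_mul] at h2
    have hd : 0 ≤ dist x y := dist_nonneg
    have h3 : |u x - U x - (u y - U y)| ≤ (L + 1) * dist x y := by
      have e : u x - U x - (u y - U y) = (u x - u y) - (U x - U y) := by ring
      rw [e]
      refine (abs_sub _ _).trans ?_
      linarith
    have h4 : |(nmfL γ σ x - nmfL γ σ y) * (u y - U y)| ≤ (2 * L + 2) * dist x y := by
      rcases le_or_gt (2 * σ) (rC γ y) with h5 | h5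
      · rw [nmfL_hi hσ h5, nmfL_hi hσ (h5.trans hxy), sub_self, zero_mul, abs_zero]
        positivity
      · rw [abs_mul]
        have h6 := nmf_close hu hU h y
        rw [NNReal.coe_one] at h6
        have h7 := nmfL_lip (γ := γ) hσ x y
        have h8 : |u y - U y| ≤ (L + 1) * (2 * σ) :=
          h6.trans (mul_le_mul_of_nonneg_left h5.le (by positivity))
        calc |nmfL γ σ x - nmfL γ σ y| * |u y - U y| ≤ dist x y / σ * ((L + 1) * (2 * σ)) :=
              mul_le_mul h7 h8 (abs_nonneg _) (by positivity)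
          _ = (2 * L + 2) * dist x y := by
              field_simp
    have h9 := nmfL_mem (γ := γ) σ x
    have h10 : |nmfL γ σ x * (u x - U x - (u y - U y))| ≤ (L + 1) * dist x y := by
      rw [abs_mul, abs_of_nonneg h9.1]
      calc nmfL γ σ x * |u x - U x - (u y - U y)| ≤ 1 * |u x - U x - (u y - U y)| :=
            mul_le_mul_of_nonneg_right h9.2 (abs_nonneg _)
        _ ≤ (L + 1) * dist x y := by rw [one_mul]; exact h3
    have e : nmfL γ σ x * (u x - U x) - nmfL γ σ y * (u y - U y) =
        nmfL γ σ x * (u x - U x - (u y - U y)) + (nmfL γ σ x - nmfL γ σ y) * (u y - U y) := by ring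
    rw [e]
    refine (abs_add_le _ _).trans ?_
    linarith
  refine LipschitzWith.of_dist_le_mul fun x y => ?_
  rw [Real.dist_eq]
  have h2 := hU.dist_le_mul x y
  rw [Real.dist_eq, NNReal.coe_one, one_mul] at h2
  have h3 : |nmfL γ σ x * (u x - U x) - nmfL γ σ y * (u y - U y)| ≤ (3 * L + 3) * dist x y := by
    rcases le_total (rC γ y) (rC γ x) with h4 | h4
    · exact key x y h4
    · rw [abs_sub_comm, dist_comm]
      exact key y x h4
  have e : U x + nmfL γ σ x * (u x - U x) - (U y + nmfL γ σ y * (u y - U y)) =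
      (U x - U y) + (nmfL γ σ x * (u x - U x) - nmfL γ σ y * (u y - U y)) := by ring
  rw [e]
  refine (abs_add_le _ _).trans ?_
  push_cast
  linarith

/-- NEAR MINIMALITY FOR CHANGES OF THE METRIC UP TO THE CURVE -/
theorem nmf_ae {C : Calc M γ} (hγ : Bd γ) {ε : ℝ} (h : NM C ε) (hnc : ∀ᵐ o ∂C.μ, C.pt o ∉ range γ)
    {a b c d : Om → ℝ} (ha : AEMeasurable a C.μ) (hb : AEMeasurable b C.μ) (hc : AEMeasurable c C.μ)
    (hd : AEMeasurable d C.μ) {K κ : ℝ} (hκ : 0 < κ)
    (hbd : ∀ᵐ o ∂C.μ, |a o| ≤ K ∧ |b o| ≤ K ∧ |c o| ≤ K ∧ |d o| ≤ K ∧ κ ≤ a o * d o - b o * c o)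
    (L : ℝ≥0)
    (hu : ∀ t, ∃ u : M → ℝ, LipschitzWith L u ∧
      (∀ᵐ o ∂C.μ, (a o * C.gx u o + b o * C.gy u o) ^ 2 +
        (c o * C.gx u o + d o * C.gy u o) ^ 2 ≤ 1) ∧
      (∀ s s', |u (γ s) - u (γ s')| ≤ |s - s'|) ∧ Real.pi ≤ u (γ t) - u (γ (t + Real.pi))) :
    C.vol - ε ≤ ∫ o, 1 / (a o * d o - b o * c o) ∂C.μ := by
  have := C.fin
  have hpi := Real.pi_pos
  have hrL : Lip (rC γ) := ⟨1, rC_lip⟩
  have hr : AEMeasurable (fun o => rC γ (C.pt o)) C.μ := C.meas_pt hrL
  have hcomp : IsClosed (range γ) := by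
    have e : range γ = γ '' Icc 0 (2 * Real.pi) := range_eq hγ
    rw [e]
    exact (isCompact_Icc.image hγ.lip.continuous).isClosed
  have hpos : ∀ᵐ o ∂C.μ, 0 < rC γ (C.pt o) := by
    filter_upwards [hnc] with o ho
    exact (hcomp.notMem_iff_infDist_pos (range_nonempty γ)).1 ho
  set B : ℝ := ((3 * L + 4 : ℝ≥0) : ℝ) with hB
  have hB4 : (4 : ℝ) ≤ B := by
    have : (0 : ℝ) ≤ L := L.2
    rw [hB]
    push_cast
    linarith
  have hB0 : (0 : ℝ) < B := by linarith
  refine le_of_forall_pos_le_add fun η hη => ?_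
  obtain ⟨δ, hδ, hδ'⟩ := collar_small (μ := C.μ) hr 0 (η := η / (B ^ 2 + 1)) (by positivity)
  set σ : ℝ := δ / 2 with hσ
  have hσ0 : 0 < σ := by positivity
  have hS : (C.μ {o | 0 < rC γ (C.pt o) ∧ rC γ (C.pt o) < 2 * σ}).toReal ≤ η / (B ^ 2 + 1) := by
    have h1 := hδ' δ hδ le_rfl
    have e : 0 + δ = 2 * σ := by rw [hσ]; ring
    rwa [e] at h1
  have m1 : NullMeasurableSet {o | rC γ (C.pt o) < σ} C.μ := nullMeasurableSet_lt hr aemeasurable_const
  have m2 : NullMeasurableSet {o | rC γ (C.pt o) < 2 * σ} C.μ :=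
    nullMeasurableSet_lt hr aemeasurable_const
  -- the entries
  have mk : ∀ (f : Om → ℝ) (z1 z2 : ℝ), AEMeasurable f C.μ → AEMeasurable
      (fun o => if rC γ (C.pt o) < σ then z1 else if rC γ (C.pt o) < 2 * σ then z2 else f o) C.μ := by
    intro f z1 z2 hf
    have h1 : Measurable fun x : ℝ × ℝ => if x.1 < σ then z1 else if x.1 < 2 * σ then z2 else x.2 := by
      apply Measurable.ite (measurableSet_lt measurable_fst measurable_const) measurable_const
      exact Measurable.ite (measurableSet_lt measurable_fst measurable_const) measurable_const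
        measurable_snd
    exact h1.comp_aemeasurable (hr.prodMk hf)
  set a' : Om → ℝ := fun o => if rC γ (C.pt o) < σ then 1 else if rC γ (C.pt o) < 2 * σ then 1 / B else a o
    with ha'
  set b' : Om → ℝ := fun o => if rC γ (C.pt o) < σ then 0 else if rC γ (C.pt o) < 2 * σ then 0 else b o
    with hb'
  set c' : Om → ℝ := fun o => if rC γ (C.pt o) < σ then 0 else if rC γ (C.pt o) < 2 * σ then 0 else c o
    with hc'
  set d' : Om → ℝ := fun o => if rC γ (C.pt o) < σ then 1 else if rC γ (C.pt o) < 2 * σ then 1 / B else d o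
    with hd'
  have hB1 : 1 / B ≤ 1 := by
    rw [div_le_one hB0]
    linarith
  have hBp : 0 < 1 / B := by positivity
  have key := nm_ae h (a := a') (b := b') (c := c') (d := d') (mk a 1 (1 / B) ha) (mk b 0 0 hb)
    (mk c 0 0 hc) (mk d 1 (1 / B) hd) (K := max K 1) (κ := min κ (1 / B * (1 / B)))
    (lt_min hκ (by positivity))
    (by
      filter_upwards [hbd] with o ho
      have hBB : 1 / B * (1 / B) ≤ 1 := by nlinarith
      simp only [ha', hb', hc', hd']
      by_cases h1 : rC γ (C.pt o) < σ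
      · simp only [if_pos h1, abs_one, abs_zero]
        refine ⟨le_max_right _ _, ?_, ?_, le_max_right _ _, ?_⟩
        · exact le_trans zero_le_one (le_max_right _ _)
        · exact le_trans zero_le_one (le_max_right _ _)
        · refine (min_le_right _ _).trans ?_
          linarith
      · simp only [if_neg h1]
        by_cases h2 : rC γ (C.pt o) < 2 * σ
        · simp only [if_pos h2, abs_zero, abs_of_pos hBp]
          refine ⟨hB1.trans (le_max_right _ _), ?_, ?_, hB1.trans (le_max_right _ _), ?_⟩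
          · exact le_trans zero_le_one (le_max_right _ _)
          · exact le_trans zero_le_one (le_max_right _ _)
          · refine (min_le_right _ _).trans ?_
            linarith
        · simp only [if_neg h2]
          exact ⟨ho.1.trans (le_max_left _ _), ho.2.1.trans (le_max_left _ _),
            ho.2.2.1.trans (le_max_left _ _), ho.2.2.2.1.trans (le_max_left _ _),
            (min_le_left _ _).trans ho.2.2.2.2⟩)
    ⟨σ, hσ0, Eventually.of_forall fun o ho => by
      have h1 : rC γ (C.pt o) < σ := ho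
      simp only [ha', hb', hc', hd', if_pos h1]
      exact ⟨trivial, trivial, trivial, trivial⟩⟩
    (3 * L + 4)
    (by
      intro t
      obtain ⟨u, h1, h2, h3, h4⟩ := hu t
      obtain ⟨U, hU1, hU2⟩ := nmf_ext hγ h3
      set v : M → ℝ := fun x => U x + nmfL γ σ x * (u x - U x) with hv
      have hvl : LipschitzWith (3 * L + 4) v := nmf_lip h1 hU1 hU2 hσ0
      have hvL : Lip v := ⟨_, hvl⟩
      have hγ0 : ∀ s, rC γ (γ s) = 0 := fun s => Metric.infDist_zero_of_mem (mem_range_self s)
      have hvγ : ∀ s, v (γ s) = u (γ s) := by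
        intro s
        simp only [hv]
        rw [hU2 s, sub_self, mul_zero, add_zero]
      refine ⟨v, hvl, ?_, ?_, ?_⟩
      · filter_upwards [h2, loc_eq C hvL ⟨1, hU1⟩, loc_eq C hvL ⟨L, h1⟩, C.bound v _ hvl,
          C.bound U 1 hU1] with o g1 g2 g3 g4 g5
        have g4' : C.gx v o ^ 2 + C.gy v o ^ 2 ≤ B ^ 2 := g4
        have g5' : C.gx U o ^ 2 + C.gy U o ^ 2 ≤ 1 := by
          have g6 : C.gx U o ^ 2 + C.gy U o ^ 2 ≤ ((1 : ℝ≥0) : ℝ) ^ 2 := g5
          rw [NNReal.coe_one, one_pow] at g6
          exact g6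
        simp only [ha', hb', hc', hd']
        by_cases k1 : rC γ (C.pt o) < σ
        · simp only [if_pos k1]
          obtain ⟨e1, e2⟩ := g2 (by
            simp only [hv]
            rw [nmfL_lo hσ0 k1.le, zero_mul, add_zero])
          rw [e1, e2]
          linarith
        · simp only [if_neg k1]
          by_cases k2 : rC γ (C.pt o) < 2 * σ
          · simp only [if_pos k2]
            have e : (1 / B * C.gx v o + 0 * C.gy v o) ^ 2 + (0 * C.gx v o + 1 / B * C.gy v o) ^ 2 =
                (C.gx v o ^ 2 + C.gy v o ^ 2) / B ^ 2 := by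
              field_simp
              ring
            rw [e, div_le_one (by positivity)]
            exact g4'
          · simp only [if_neg k2]
            obtain ⟨e1, e2⟩ := g3 (by
              simp only [hv]
              rw [nmfL_hi hσ0 (not_lt.1 k2), one_mul]
              ring)
            rw [e1, e2]
            exact g1
      · intro s s'
        rw [hvγ, hvγ]
        exact h3 s s'
      · rw [hvγ, hvγ]
        exact h4)
  refine key.trans ?_
  -- the area
  have hdet : ∀ᵐ o ∂C.μ, 0 < 1 / (a o * d o - b o * c o) ∧ 1 / (a o * d o - b o * c o) ≤ 1 / κ := by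
    filter_upwards [hbd] with o ho
    have h1 : 0 < a o * d o - b o * c o := hκ.trans_le ho.2.2.2.2
    exact ⟨by positivity, one_div_le_one_div_of_le hκ ho.2.2.2.2⟩
  have i0 : Integrable (fun o => 1 / (a o * d o - b o * c o)) C.μ := by
    refine Calc.integrable_of_bdd C ?_ (B := 1 / κ) ?_
    · exact (((ha.mul hd).sub (hb.mul hc)).const_div 1)
    · filter_upwards [hdet] with o ho
      rw [abs_of_pos ho.1]
      exact ho.2
  set S : Set Om := {o | rC γ (C.pt o) < 2 * σ} with hSd
  have i1 : Integrable (fun o => S.indicator (fun _ => B ^ 2 + 1) o) C.μ :=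
    (integrable_const (B ^ 2 + 1)).indicator₀ m2
  have h1 : ∫ o, 1 / (a' o * d' o - b' o * c' o) ∂C.μ ≤
      ∫ o, (1 / (a o * d o - b o * c o) + S.indicator (fun _ => B ^ 2 + 1) o) ∂C.μ := by
    apply integral_mono_of_nonneg
    · filter_upwards [hdet] with o ho
      simp only [ha', hb', hc', hd']
      by_cases h1 : rC γ (C.pt o) < σ
      · simp only [if_pos h1]
        norm_num
      · simp only [if_neg h1]
        by_cases h2 : rC γ (C.pt o) < 2 * σ
        · simp only [if_pos h2]
          show (0 : ℝ) ≤ 1 / (1 / B * (1 / B) - 0 * 0)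
          rw [mul_zero, sub_zero]
          positivity
        · simp only [if_neg h2]
          exact ho.1.le
    · exact i0.add i1
    · filter_upwards [hdet] with o ho
      simp only [ha', hb', hc', hd']
      by_cases h1 : rC γ (C.pt o) < σ
      · have h2 : o ∈ S := by
          show rC γ (C.pt o) < 2 * σ
          linarith
        simp only [if_pos h1]
        rw [indicator_of_mem h2]
        have h3 : (0 : ℝ) ≤ B ^ 2 := by positivity
        have h4 : (1 : ℝ) / (1 * 1 - 0 * 0) = 1 := by norm_num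
        rw [h4]
        linarith [ho.1]
      · simp only [if_neg h1]
        by_cases h2 : rC γ (C.pt o) < 2 * σ
        · have h3 : o ∈ S := h2
          simp only [if_pos h2]
          rw [indicator_of_mem h3]
          have h4 : (1 : ℝ) / (1 / B * (1 / B) - 0 * 0) = B ^ 2 := by
            field_simp
            ring
          rw [h4]
          linarith [ho.1]
        · have h3 : o ∉ S := h2
          simp only [if_neg h2]
          rw [indicator_of_notMem h3, add_zero]
  refine h1.trans ?_
  rw [integral_add i0 i1]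
  have h2 : ∫ o, S.indicator (fun _ => B ^ 2 + 1) o ∂C.μ ≤ η := by
    rw [integral_indicator₀ m2, setIntegral_const, smul_eq_mul, measureReal_def]
    have h3 : (C.μ S).toReal ≤ η / (B ^ 2 + 1) := by
      refine le_trans ?_ hS
      refine ENNReal.toReal_mono (measure_ne_top _ _) (measure_mono_ae ?_)
      filter_upwards [hpos] with o ho hoS
      exact ⟨ho, hoS⟩
    calc (C.μ S).toReal * (B ^ 2 + 1) ≤ η / (B ^ 2 + 1) * (B ^ 2 + 1) :=
          mul_le_mul_of_nonneg_right h3 (by positivity)
      _ = η := div_mul_cancel₀ _ (by positivity)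
  linarith

end Pool.Agent.FPM
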