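import Mathlib
import Pool.Agent.FPM.NMF

/-
FPM/I57A (helper56): near minimality for metrics `α g + (p, q) ⊗ (p, q)` given almost everywhere, with
potentials for half of the curve only.
-/

set_option autoImplicit false

open Set Filter Topology MeasureTheory
open scoped NNReal

noncomputable section

namespace Pool.Agent.FPM

open Pool.Agent.EWD

/-- the covector `(x, y)` has norm at most one for the metric `α g + (p, q) ⊗ (p, q)` -/
def Dn (α p q x y : ℝ) : Prop :=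
  ∃ X Y a b : ℝ, x = X * a + Y * p ∧ y = X * b + Y * q ∧ a ^ 2 + b ^ 2 ≤ 1 ∧ X ^ 2 / α + Y ^ 2 ≤ 1

theorem Dn.neg {α p q x y : ℝ} (h : Dn α p q x y) : Dn α p q (-x) (-y) := by
  obtain ⟨X, Y, a, b, h1, h2, h3, h4⟩ := h
  refine ⟨-X, -Y, a, b, ?_, ?_, h3, ?_⟩
  · rw [h1]; ring
  · rw [h2]; ring
  · rw [neg_sq, neg_sq]; exact h4

/-- a covector of the old norm at most one -/
theorem Dn.one {x y : ℝ} (h : x ^ 2 + y ^ 2 ≤ 1) : Dn 1 0 0 x y :=
  ⟨1, 0, x, y, by ring, by ring, h, by norm_num⟩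

theorem Dn.zero (α p q : ℝ) : Dn α p q 0 0 := ⟨0, 0, 0, 0, by ring, by ring, by norm_num, by norm_num⟩

/-- a multiple of `(p, q)` -/
theorem Dn.par {α p q Y x y : ℝ} (hY : |Y| ≤ 1) (hx : x = Y * p) (hy : y = Y * q) :
    Dn α p q x y := by
  refine ⟨0, Y, 0, 0, by rw [hx]; ring, by rw [hy]; ring, by norm_num, ?_⟩
  have h1 : Y ^ 2 ≤ 1 := by
    rw [← sq_abs]
    exact pow_le_one₀ (abs_nonneg _) hY
  have h2 : (0 : ℝ) ^ 2 / α = 0 := by simp
  rw [h2, zero_add]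
  exact h1

theorem Dn.norm {α p q x y : ℝ} (hα : 0 < α) (h : Dn α p q x y) :
    (sA11 α p q * x + sA12 α p q * y) ^ 2 + (sA12 α p q * x + sA22 α p q * y) ^ 2 ≤ 1 := by
  obtain ⟨X, Y, a, b, h1, h2, h3, h4⟩ := h
  rw [h1, h2]
  exact (sA_le hα p q h3 X Y).trans h4

variable {M : Type} [MetricSpace M] {γ : ℝ → M}

theorem meas3 {μ : Measure Om} {f : ℝ → ℝ → ℝ → ℝ} (hf : Measurable fun x : ℝ × ℝ × ℝ => f x.1 x.2.1 x.2.2)
    {α p q : Om → ℝ} (mα : AEMeasurable α μ) (mp : AEMeasurable p μ) (mq : AEMeasurable q μ) :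
    AEMeasurable (fun o => f (α o) (p o) (q o)) μ := by
  have m3 : AEMeasurable (fun o => (α o, p o, q o)) μ := mα.prodMk (mp.prodMk mq)
  have h := hf.comp_aemeasurable m3
  exact h

theorem nm_met {C : Calc M γ} (hγ : Bd γ) {ε : ℝ} (h : NM C ε) (hnc : ∀ᵐ o ∂C.μ, C.pt o ∉ range γ)
    {α p q : Om → ℝ} (mα : AEMeasurable α C.μ) (mp : AEMeasurable p C.μ) (mq : AEMeasurable q C.μ)
    {κ K : ℝ} (hκ : 0 < κ) (hb : ∀ᵐ o ∂C.μ, κ ≤ α o ∧ α o ≤ K ∧ p o ^ 2 + q o ^ 2 ≤ K ^ 2)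
    (L : ℝ≥0) (T : ℝ)
    (hu : ∀ t ∈ Icc T (T + Real.pi), ∃ u : M → ℝ, LipschitzWith L u ∧
      (∀ᵐ o ∂C.μ, Dn (α o) (p o) (q o) (C.gx u o) (C.gy u o)) ∧
      (∀ s s', |u (γ s) - u (γ s')| ≤ |s - s'|) ∧ Real.pi ≤ u (γ t) - u (γ (t + Real.pi))) :
    C.vol - ε ≤ ∫ o, √(α o) * sS (α o) (p o) (q o) ∂C.μ := by
  have hpi := Real.pi_pos
  -- all points of the curve
  have hu' : ∀ t, ∃ u : M → ℝ, LipschitzWith L u ∧
      (∀ᵐ o ∂C.μ, Dn (α o) (p o) (q o) (C.gx u o) (C.gy u o)) ∧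
      (∀ s s', |u (γ s) - u (γ s')| ≤ |s - s'|) ∧ Real.pi ≤ u (γ t) - u (γ (t + Real.pi)) := by
    have key : ∀ t ∈ Icc T (T + 2 * Real.pi), ∃ u : M → ℝ, LipschitzWith L u ∧
        (∀ᵐ o ∂C.μ, Dn (α o) (p o) (q o) (C.gx u o) (C.gy u o)) ∧
        (∀ s s', |u (γ s) - u (γ s')| ≤ |s - s'|) ∧ Real.pi ≤ u (γ t) - u (γ (t + Real.pi)) := by
      intro t ht
      rcases le_total t (T + Real.pi) with h1 | h1
      · exact hu t ⟨ht.1, h1⟩
      · obtain ⟨u, u1, u2, u3, u4⟩ := hu (t - Real.pi) ⟨by linarith, by linarith [ht.2]⟩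
        have u1' : LipschitzWith L fun x => -u x := u1.neg
        refine ⟨fun x => -u x, u1', ?_, ?_, ?_⟩
        · filter_upwards [u2] with o ho
          have e1 : C.gx (fun x => -u x) o = -C.gx u o := by
            unfold Calc.gx
            exact deriv.fun_neg
          have e2 : C.gy (fun x => -u x) o = -C.gy u o := by
            unfold Calc.gy
            exact deriv.fun_neg
          rw [e1, e2]
          exact ho.neg
        · intro s s'
          have e1 : -u (γ s) - -u (γ s') = -(u (γ s) - u (γ s')) := by ring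
          rw [e1, abs_neg]
          exact u3 s s'
        · have e1 : γ (t + Real.pi) = γ (t - Real.pi) := by
            have := hγ.per (t - Real.pi)
            rw [← this]
            congr 1
            ring
          have e2 : t - Real.pi + Real.pi = t := by ring
          rw [e2] at u4
          rw [e1]
          linarith
    intro t
    set n : ℤ := ⌊(t - T) / (2 * Real.pi)⌋ with hn
    have h1 : (n : ℝ) ≤ (t - T) / (2 * Real.pi) := Int.floor_le _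
    have h2 : (t - T) / (2 * Real.pi) < n + 1 := Int.lt_floor_add_one _
    rw [le_div_iff₀ (by positivity)] at h1
    rw [div_lt_iff₀ (by positivity)] at h2
    obtain ⟨u, u1, u2, u3, u4⟩ := key (t + (-n : ℤ) * (2 * Real.pi)) ⟨by push_cast; linarith,
      by push_cast; linarith⟩
    refine ⟨u, u1, u2, u3, ?_⟩
    have e1 := bd_per_int hγ t (-n)
    have e2 := bd_per_int hγ (t + Real.pi) (-n)
    have e3 : t + Real.pi + (-n : ℤ) * (2 * Real.pi) = t + (-n : ℤ) * (2 * Real.pi) + Real.pi := by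
      ring
    rw [e3] at e2
    rw [e1, e2] at u4
    exact u4
  have hK0 : ∀ᵐ o ∂C.μ, 0 < K := by
    filter_upwards [hb] with o ho
    linarith [ho.1, ho.2.1]
  have ma := meas3 measurable_sA11 mα mp mq
  have mb := meas3 measurable_sA12 mα mp mq
  have md := meas3 measurable_sA22 mα mp mq
  have hKK : 0 < √(|K| + 1) * √(|K| + 1 + K ^ 2) := by positivity
  have hbd : ∀ᵐ o ∂C.μ, |sA11 (α o) (p o) (q o)| ≤ 1 / √κ ∧ |sA12 (α o) (p o) (q o)| ≤ 1 / √κ ∧
      |sA12 (α o) (p o) (q o)| ≤ 1 / √κ ∧ |sA22 (α o) (p o) (q o)| ≤ 1 / √κ ∧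
      1 / (√(|K| + 1) * √(|K| + 1 + K ^ 2)) ≤
        sA11 (α o) (p o) (q o) * sA22 (α o) (p o) (q o) -
          sA12 (α o) (p o) (q o) * sA12 (α o) (p o) (q o) := by
    filter_upwards [hb] with o ho
    obtain ⟨h1, h2, h3⟩ := ho
    have hα : 0 < α o := hκ.trans_le h1
    have h4 : 1 / √(α o) ≤ 1 / √κ :=
      one_div_le_one_div_of_le (Real.sqrt_pos.2 hκ) (Real.sqrt_le_sqrt h1)
    have g1 : |sA11 (α o) (p o) (q o)| ≤ 1 / √κ := (sA11_le hα _ _).trans h4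
    have g2 : |sA12 (α o) (p o) (q o)| ≤ 1 / √κ := (sA12_le hα _ _).trans h4
    have g3 : |sA22 (α o) (p o) (q o)| ≤ 1 / √κ := (sA22_le hα _ _).trans h4
    have hd := sA_det hα (p o) (q o)
    rw [sq] at hd
    rw [hd]
    have h5 : 0 < √(α o) := Real.sqrt_pos.2 hα
    have h6 := sS_pos hα (p o) (q o)
    have hKa : K ≤ |K| := le_abs_self K
    have g4 : √(α o) ≤ √(|K| + 1) := Real.sqrt_le_sqrt (by linarith)
    have g5 : sS (α o) (p o) (q o) ≤ √(|K| + 1 + K ^ 2) := by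
      unfold sS
      exact Real.sqrt_le_sqrt (by linarith)
    have g6 : √(α o) * sS (α o) (p o) (q o) ≤ √(|K| + 1) * √(|K| + 1 + K ^ 2) :=
      mul_le_mul g4 g5 h6.le (Real.sqrt_nonneg _)
    exact ⟨g1, g2, g2, g3, one_div_le_one_div_of_le (mul_pos h5 h6) g6⟩
  have hu2 : ∀ t, ∃ u : M → ℝ, LipschitzWith L u ∧
      (∀ᵐ o ∂C.μ, (sA11 (α o) (p o) (q o) * C.gx u o + sA12 (α o) (p o) (q o) * C.gy u o) ^ 2 +
        (sA12 (α o) (p o) (q o) * C.gx u o + sA22 (α o) (p o) (q o) * C.gy u o) ^ 2 ≤ 1) ∧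
      (∀ s s', |u (γ s) - u (γ s')| ≤ |s - s'|) ∧ Real.pi ≤ u (γ t) - u (γ (t + Real.pi)) := by
    intro t
    obtain ⟨u, u1, u2, u3, u4⟩ := hu' t
    have u5 : ∀ᵐ o ∂C.μ, (sA11 (α o) (p o) (q o) * C.gx u o + sA12 (α o) (p o) (q o) * C.gy u o) ^ 2 +
        (sA12 (α o) (p o) (q o) * C.gx u o + sA22 (α o) (p o) (q o) * C.gy u o) ^ 2 ≤ 1 := by
      filter_upwards [u2, hb] with o h1 h2
      exact h1.norm (hκ.trans_le h2.1)
    exact ⟨u, u1, u5, u3, u4⟩
  have key := nmf_ae (C := C) hγ h hnc ma mb mb md (one_div_pos.2 hKK) hbd L hu2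
  rw [integral_congr_ae (g := fun o => √(α o) * sS (α o) (p o) (q o))] at key
  · exact key
  · filter_upwards [hb] with o ho
    have hα : 0 < α o := hκ.trans_le ho.1
    have h1 := sA_area hα (p o) (q o)
    rw [sq] at h1
    exact h1

end Pool.Agent.FPM
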