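import Mathlib
import Pool.Agent.FPM.I57A
import Pool.Agent.FPM.FTW

/-
FPM/I57B (helper56): gradients of the potentials of the surgery across the curve: the collapse onto the
curve (`cF`) and the cap (`capF`).
-/

set_option autoImplicit false

open Set Filter Topology MeasureTheory
open scoped NNReal

noncomputable section

namespace Pool.Agent.FPM

open Pool.Agent.EWD

/-- the tent -/
def chi (t₀ τ : ℝ) : ℝ := Real.pi / 2 - |τ - t₀|

theorem chi_lip (t₀ τ τ' : ℝ) : |chi t₀ τ - chi t₀ τ'| ≤ |τ - τ'| := by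
  unfold chi
  have e : Real.pi / 2 - |τ - t₀| - (Real.pi / 2 - |τ' - t₀|) = |τ' - t₀| - |τ - t₀| := by ring
  rw [e]
  refine (abs_abs_sub_abs_le_abs_sub _ _).trans ?_
  have e2 : τ' - t₀ - (τ - t₀) = -(τ - τ') := by ring
  rw [e2, abs_neg]

theorem chi_bd {T t₀ τ : ℝ} (h1 : t₀ ∈ Icc T (T + Real.pi)) (h2 : τ ∈ Icc T (T + Real.pi)) :
    |chi t₀ τ| ≤ Real.pi / 2 := by
  unfold chi
  have h3 : |τ - t₀| ≤ Real.pi := abs_le.2 ⟨by linarith [h1.2, h2.1], by linarith [h1.1, h2.2]⟩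
  have h4 := abs_nonneg (τ - t₀)
  exact abs_le.2 ⟨by linarith, by linarith⟩

variable {M : Type} [MetricSpace M] {γ : ℝ → M}

/-- the potential along the curve is the tent -/
theorem pot_curve (hγ : Bd γ) {t₀ τ : ℝ} (h : |τ - t₀| ≤ Real.pi) : pot γ t₀ (γ τ) = chi t₀ τ := by
  have hpi := Real.pi_pos
  have hd : dist (γ τ) (γ (t₀ + Real.pi)) = Real.pi - |τ - t₀| := by
    obtain ⟨h1, h2⟩ := abs_le.1 h
    rcases le_total t₀ τ with h3 | h3
    · rw [bd_dist hγ (by linarith : τ ≤ t₀ + Real.pi) (by linarith), abs_of_nonneg (by linarith)]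
      ring
    · have e1 : γ (t₀ + Real.pi) = γ (t₀ - Real.pi) := by
        rw [← hγ.per (t₀ - Real.pi)]
        congr 1
        ring
      rw [e1, dist_comm, bd_dist hγ (by linarith : t₀ - Real.pi ≤ τ) (by linarith),
        abs_of_nonpos (by linarith)]
      ring
  unfold pot chi
  rw [hd]
  have h1 := abs_nonneg (τ - t₀)
  rw [sC_eq (by linarith) (by linarith)]
  ring

/-- chain rule for the tent -/
theorem chi_comp (C : Calc M γ) {q : M → ℝ} (hq : Lip q) (t₀ : ℝ) :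
    Lip (fun x => chi t₀ (q x)) ∧ ∀ᵐ o ∂C.μ, ∃ Y : ℝ, |Y| ≤ 1 ∧
      C.gx (fun x => chi t₀ (q x)) o = Y * C.gx q o ∧ C.gy (fun x => chi t₀ (q x)) o = Y * C.gy q o := by
  have hL : Lip (fun x => chi t₀ (q x)) := by
    refine hq.comp (K := 1) (f := chi t₀) (LipschitzWith.of_dist_le_mul fun a b => ?_)
    rw [Real.dist_eq, Real.dist_eq, NNReal.coe_one, one_mul]
    exact chi_lip t₀ a b
  refine ⟨hL, ?_⟩
  have key : ∀ (p : ℝ → M) (g : ℝ), HasDerivAt (fun s => q (p s)) g 0 →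
      (t₀ < q (p 0) → deriv (fun s => chi t₀ (q (p s))) 0 = -1 * g) ∧
      (q (p 0) < t₀ → deriv (fun s => chi t₀ (q (p s))) 0 = 1 * g) := by
    intro p g hg
    constructor
    · intro h
      have h1 : ∀ᶠ s in 𝓝 (0 : ℝ), t₀ < q (p s) := hg.continuousAt (Ioi_mem_nhds h)
      have h2 : (fun s => chi t₀ (q (p s))) =ᶠ[𝓝 0] fun s => Real.pi / 2 - (q (p s) - t₀) := by
        filter_upwards [h1] with s hs
        unfold chi
        rw [abs_of_pos (by linarith)]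
      rw [h2.deriv_eq, ((hg.sub_const t₀).const_sub (Real.pi / 2)).deriv]
      ring
    · intro h
      have h1 : ∀ᶠ s in 𝓝 (0 : ℝ), q (p s) < t₀ := hg.continuousAt (Iio_mem_nhds h)
      have h2 : (fun s => chi t₀ (q (p s))) =ᶠ[𝓝 0] fun s => Real.pi / 2 + (q (p s) - t₀) := by
        filter_upwards [h1] with s hs
        unfold chi
        rw [abs_of_neg (by linarith)]
        ring
      rw [h2.deriv_eq, ((hg.sub_const t₀).const_add (Real.pi / 2)).deriv]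
      ring
  filter_upwards [C.ae_has hq, grad_level C hq t₀, grad_level C hL (Real.pi / 2)] with o h1 h2 h3
  have e : C.py o 0 = C.px o 0 := C.same o
  rcases lt_trichotomy (q (C.pt o)) t₀ with h | h | h
  · exact ⟨1, by norm_num, (key _ _ h1.1).2 h, (key _ _ h1.2).2 (by rw [e]; exact h)⟩
  · have h4 := h3 (by
      rw [h]
      unfold chi
      simp)
    refine ⟨0, by norm_num, ?_, ?_⟩
    · rw [h4.1, zero_mul]
    · rw [h4.2, zero_mul]
  · exact ⟨-1, by norm_num, (key _ _ h1.1).1 h, (key _ _ h1.2).1 (by rw [e]; exact h)⟩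

/-- convex combination of two covectors of norm at most one -/
theorem conv2 {l a b a' b' : ℝ} (h0 : 0 ≤ l) (h1 : l ≤ 1) (h2 : a ^ 2 + b ^ 2 ≤ 1)
    (h3 : a' ^ 2 + b' ^ 2 ≤ 1) :
    ((1 - l) * a + l * a') ^ 2 + ((1 - l) * b + l * b') ^ 2 ≤ 1 := by
  have e : ((1 - l) * a + l * a') ^ 2 + ((1 - l) * b + l * b') ^ 2 =
      (1 - l) * (a ^ 2 + b ^ 2) + l * (a' ^ 2 + b' ^ 2) - l * (1 - l) * ((a - a') ^ 2 + (b - b') ^ 2) := by
    ring
  rw [e]
  have h4 : 0 ≤ l * (1 - l) * ((a - a') ^ 2 + (b - b') ^ 2) :=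
    mul_nonneg (mul_nonneg h0 (by linarith)) (by positivity)
  nlinarith [mul_le_mul_of_nonneg_left h2 (by linarith : 0 ≤ 1 - l), mul_le_mul_of_nonneg_left h3 h0]

/-- the new potential behind a level set that is collapsed onto the curve -/
def cF (v w sf ψ : M → ℝ) (T δ t₀ : ℝ) (x : M) : ℝ :=
  (1 - bnd 0 δ (v x)) * ψ x + bnd 0 δ (v x) * ((1 - bnd (2 * δ) (3 * δ) (w x)) *
    chi t₀ ((1 - bnd δ (2 * δ) (w x)) * sf x + bnd δ (2 * δ) (w x) * T))

/-- the moving point of the curve -/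
def cS (w sf : M → ℝ) (T δ : ℝ) (x : M) : ℝ :=
  (1 - bnd δ (2 * δ) (w x)) * sf x + bnd δ (2 * δ) (w x) * T

/-- a product of bounded Lipschitz functions -/
theorem lip_mul_bd {f g : M → ℝ} {A B : ℝ} {K L : ℝ≥0} (hA : 0 ≤ A) (hB : 0 ≤ B) (hf : LipschitzWith K f)
    (hg : LipschitzWith L g) (hfA : ∀ x, |f x| ≤ A) (hgB : ∀ x, |g x| ≤ B) :
    LipschitzWith (Real.toNNReal (A * L + B * K)) fun x => f x * g x := by
  have hc : 0 ≤ A * L + B * K := by positivity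
  refine LipschitzWith.of_dist_le_mul fun x y => ?_
  rw [Real.coe_toNNReal _ hc, Real.dist_eq]
  have h1 := hf.dist_le_mul x y
  have h2 := hg.dist_le_mul x y
  rw [Real.dist_eq] at h1 h2
  have e : f x * g x - f y * g y = f x * (g x - g y) + g y * (f x - f y) := by ring
  rw [e]
  calc |f x * (g x - g y) + g y * (f x - f y)| ≤ |f x| * |g x - g y| + |g y| * |f x - f y| := by
        rw [← abs_mul, ← abs_mul]
        exact abs_add_le _ _
    _ ≤ A * (L * dist x y) + B * (K * dist x y) :=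
        add_le_add (mul_le_mul (hfA x) h2 (abs_nonneg _) hA) (mul_le_mul (hgB y) h1 (abs_nonneg _) hB)
    _ = (A * L + B * K) * dist x y := by ring

theorem bnd_abs (a b r : ℝ) : |bnd a b r| ≤ 1 := by
  rw [abs_of_nonneg (bnd_nonneg a b r)]
  exact bnd_le_one a b r

theorem bnd_abs' (a b r : ℝ) : |1 - bnd a b r| ≤ 1 := by
  have h1 := bnd_nonneg a b r
  have h2 := bnd_le_one a b r
  exact abs_le.2 ⟨by linarith, by linarith⟩

omit [MetricSpace M] in
theorem cS_mem {w sf : M → ℝ} {T δ : ℝ} (hs : ∀ x, sf x ∈ Icc T (T + Real.pi)) (x : M) :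
    cS w sf T δ x ∈ Icc T (T + Real.pi) := by
  have h1 := bnd_nonneg δ (2 * δ) (w x)
  have h2 := bnd_le_one δ (2 * δ) (w x)
  have hpi := Real.pi_pos
  obtain ⟨h3, h4⟩ := hs x
  unfold cS
  constructor <;> nlinarith

theorem cS_lip {w sf : M → ℝ} {T δ : ℝ} (hδ : 0 < δ) (hw : Lip w) (hsf : Lip sf)
    (hs : ∀ x, sf x ∈ Icc T (T + Real.pi)) : Lip (cS w sf T δ) := by
  have hpi := Real.pi_pos
  obtain ⟨K, hK⟩ := hsf.sub (lip_const T)
  obtain ⟨L, hL⟩ := (lip_const (M := M) 1).sub (lip_bnd hw (show δ < 2 * δ by linarith))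
  have h1 := lip_mul_bd (A := 1) (B := Real.pi) zero_le_one hpi.le hL hK
    (fun x => bnd_abs' _ _ _) (fun x => by
      rw [abs_of_nonneg (by linarith [(hs x).1])]
      linarith [(hs x).2])
  have h2 : Lip (fun x => (1 - bnd δ (2 * δ) (w x)) * (sf x - T)) := ⟨_, h1⟩
  have h3 := h2.add (lip_const T)
  have e : cS w sf T δ = fun x => (1 - bnd δ (2 * δ) (w x)) * (sf x - T) + T := by
    funext x
    unfold cS
    ring
  rw [e]
  exact h3

omit [MetricSpace M] in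
theorem cF_eq (v w sf ψ : M → ℝ) (T δ t₀ : ℝ) (x : M) : cF v w sf ψ T δ t₀ x =
    (1 - bnd 0 δ (v x)) * ψ x + bnd 0 δ (v x) * ((1 - bnd (2 * δ) (3 * δ) (w x)) *
      chi t₀ (cS w sf T δ x)) := rfl

/-- the collapse potentials are uniformly Lipschitz -/
theorem cF_lip {v w sf : M → ℝ} {T δ : ℝ} (hδ : 0 < δ) (hv : Lip v) (hw : Lip w) (hsf : Lip sf)
    (hs : ∀ x, sf x ∈ Icc T (T + Real.pi)) (Λ : ℝ≥0) :
    ∃ L : ℝ≥0, ∀ t₀ ∈ Icc T (T + Real.pi), ∀ ψ : M → ℝ, LipschitzWith Λ ψ → (∀ x, |ψ x| ≤ Real.pi / 2) →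
      LipschitzWith L (cF v w sf ψ T δ t₀) := by
  have hpi := Real.pi_pos
  obtain ⟨K1, hK1⟩ := lip_bnd hv hδ
  obtain ⟨K2, hK2⟩ := (lip_const (M := M) 1).sub (lip_bnd hv hδ)
  obtain ⟨K3, hK3⟩ := (lip_const (M := M) 1).sub (lip_bnd hw (show 2 * δ < 3 * δ by linarith))
  obtain ⟨K4, hK4⟩ := cS_lip (T := T) hδ hw hsf hs
  refine ⟨Real.toNNReal (1 * Λ + Real.pi / 2 * K2) + Real.toNNReal (1 * (Real.toNNReal (1 * K4 +
    Real.pi / 2 * K3) : ℝ≥0) + Real.pi / 2 * K1), fun t₀ ht₀ ψ hψ hψb => ?_⟩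
  have h1 := lip_mul_bd (A := 1) (B := Real.pi / 2) zero_le_one (by positivity) hK2 hψ
    (fun x => bnd_abs' _ _ _) hψb
  have h2 : LipschitzWith K4 (fun x => chi t₀ (cS w sf T δ x)) := by
    refine LipschitzWith.of_dist_le_mul fun x y => ?_
    rw [Real.dist_eq]
    refine (chi_lip _ _ _).trans ?_
    have := hK4.dist_le_mul x y
    rwa [Real.dist_eq] at this
  have hcb : ∀ x, |chi t₀ (cS w sf T δ x)| ≤ Real.pi / 2 := fun x => chi_bd ht₀ (cS_mem hs x)
  have h3 := lip_mul_bd (A := 1) (B := Real.pi / 2) zero_le_one (by positivity) hK3 h2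
    (fun x => bnd_abs' _ _ _) hcb
  have h4 := lip_mul_bd (A := 1) (B := Real.pi / 2) zero_le_one (by positivity) hK1 h3
    (fun x => bnd_abs _ _ _) (fun x => by
      rw [abs_mul]
      calc |1 - bnd (2 * δ) (3 * δ) (w x)| * |chi t₀ (cS w sf T δ x)| ≤ 1 * (Real.pi / 2) :=
            mul_le_mul (bnd_abs' _ _ _) (hcb x) (abs_nonneg _) zero_le_one
        _ = _ := one_mul _)
  exact h1.add h4

omit [MetricSpace M] in
theorem cF_bd {v w sf ψ : M → ℝ} {T δ t₀ : ℝ} (hs : ∀ x, sf x ∈ Icc T (T + Real.pi))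
    (ht₀ : t₀ ∈ Icc T (T + Real.pi)) (hψb : ∀ x, |ψ x| ≤ Real.pi / 2) (x : M) :
    |cF v w sf ψ T δ t₀ x| ≤ Real.pi := by
  have hpi := Real.pi_pos
  rw [cF_eq]
  have hcb : |chi t₀ (cS w sf T δ x)| ≤ Real.pi / 2 := chi_bd ht₀ (cS_mem hs x)
  refine (abs_add_le _ _).trans ?_
  rw [abs_mul, abs_mul, abs_mul]
  have h1 : |1 - bnd 0 δ (v x)| * |ψ x| ≤ 1 * (Real.pi / 2) :=
    mul_le_mul (bnd_abs' _ _ _) (hψb x) (abs_nonneg _) zero_le_one
  have h2 : |1 - bnd (2 * δ) (3 * δ) (w x)| * |chi t₀ (cS w sf T δ x)| ≤ 1 * (Real.pi / 2) :=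
    mul_le_mul (bnd_abs' _ _ _) hcb (abs_nonneg _) zero_le_one
  have h3 : |bnd 0 δ (v x)| * (|1 - bnd (2 * δ) (3 * δ) (w x)| * |chi t₀ (cS w sf T δ x)|) ≤
      1 * (1 * (Real.pi / 2)) := mul_le_mul (bnd_abs _ _ _) h2 (by positivity) zero_le_one
  linarith

omit [MetricSpace M] in
/-- outside the region -/
theorem cF_out {v w sf ψ : M → ℝ} {T δ t₀ : ℝ} (hδ : 0 < δ) {x : M} (h : v x ≤ 0) :
    cF v w sf ψ T δ t₀ x = ψ x := by
  unfold cF
  rw [bnd_lo hδ h]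
  ring

omit [MetricSpace M] in
/-- deep inside the region -/
theorem cF_in {v w sf ψ : M → ℝ} {T δ t₀ : ℝ} (hδ : 0 < δ) {x : M} (hwv : w x ≤ max (v x) 0)
    (h : 3 * δ ≤ w x) : cF v w sf ψ T δ t₀ x = 0 := by
  have h1 : δ ≤ v x := by
    rcases le_total (v x) 0 with h2 | h2
    · rw [max_eq_right h2] at hwv
      linarith
    · rw [max_eq_left h2] at hwv
      linarith
  unfold cF
  rw [bnd_hi hδ h1, bnd_hi (by linarith) h]
  ring

omit [MetricSpace M] in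
/-- along the curve -/
theorem cF_curve {v w sf ψ : M → ℝ} {T δ t₀ : ℝ} (hδ : 0 < δ) {x : M} (hw : w x = 0)
    (h : chi t₀ (sf x) = ψ x) : cF v w sf ψ T δ t₀ x = ψ x := by
  unfold cF
  rw [hw, bnd_lo (by linarith : δ < 2 * δ) hδ.le, bnd_lo (by linarith : 2 * δ < 3 * δ) (by linarith)]
  have e : (1 - 0) * sf x + 0 * T = sf x := by ring
  rw [e, h]
  ring

/-- the gradient of the collapse potential -/
theorem cF_grad (C : Calc M γ) {v w sf ψ dl : M → ℝ} {T δ t₀ : ℝ} (hδ : 0 < δ) (hv : Lip v) (hw : Lip w)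
    (hsf : LipschitzWith 1 sf) (hs : ∀ x, sf x ∈ Icc T (T + Real.pi)) (ht₀ : t₀ ∈ Icc T (T + Real.pi))
    (hψ : Lip ψ) (hψb : ∀ x, |ψ x| ≤ Real.pi / 2) (hwv : ∀ x, w x ≤ max (v x) 0) (κ : ℝ) :
    ∀ᵐ o ∂C.μ,
      (0 < v (C.pt o) → v (C.pt o) < δ → C.gx ψ o ^ 2 + C.gy ψ o ^ 2 ≤ 1 →
        |ψ (C.pt o) - chi t₀ (sf (C.pt o))| ≤ dl (C.pt o) → 0 < dl (C.pt o) →
        Dn 2 (√2 * dl (C.pt o) / δ * C.gx v o) (√2 * dl (C.pt o) / δ * C.gy v o)
          (C.gx (cF v w sf ψ T δ t₀) o) (C.gy (cF v w sf ψ T δ t₀) o)) ∧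
      (δ ≤ v (C.pt o) → w (C.pt o) ≤ 2 * δ →
        Dn κ (C.gx (cS w sf T δ) o) (C.gy (cS w sf T δ) o)
          (C.gx (cF v w sf ψ T δ t₀) o) (C.gy (cF v w sf ψ T δ t₀) o)) ∧
      (2 * δ < w (C.pt o) →
        Dn κ (Real.pi / 2 * C.gx (fun x => bnd (2 * δ) (3 * δ) (w x)) o)
          (Real.pi / 2 * C.gy (fun x => bnd (2 * δ) (3 * δ) (w x)) o)
          (C.gx (cF v w sf ψ T δ t₀) o) (C.gy (cF v w sf ψ T δ t₀) o)) := by
  have hpi := Real.pi_pos
  have hsL : Lip sf := ⟨1, hsf⟩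
  obtain ⟨Λ, hΛ⟩ := id hψ
  obtain ⟨L, hL⟩ := cF_lip (T := T) hδ hv hw hsL hs Λ
  have hF : Lip (cF v w sf ψ T δ t₀) := ⟨L, hL t₀ ht₀ ψ hΛ hψb⟩
  have lS : Lip (cS w sf T δ) := cS_lip hδ hw hsL hs
  obtain ⟨lc1, hc1⟩ := chi_comp C hsL t₀
  obtain ⟨lc2, hc2⟩ := chi_comp C lS t₀
  -- the function in the layer
  have lb : Lip (fun x => bnd 0 δ (v x)) := lip_bnd hv hδ
  have ld : Lip (fun x => chi t₀ (sf x) - ψ x) := lc1.sub hψ
  have lb3 : Lip (fun x => bnd (2 * δ) (3 * δ) (w x)) := lip_bnd hw (by linarith)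
  have hprod : Lip (fun x => bnd 0 δ (v x) * (chi t₀ (sf x) - ψ x)) := by
    obtain ⟨K1, h1⟩ := lb
    obtain ⟨K2, h2⟩ := ld
    refine ⟨_, lip_mul_bd (A := 1) (B := Real.pi) zero_le_one hpi.le h1 h2 (fun x => bnd_abs _ _ _)
      fun x => ?_⟩
    have h3 := chi_bd ht₀ (hs x)
    have h4 := hψb x
    refine (abs_sub _ _).trans ?_
    linarith
  have lG : Lip (fun x => ψ x + bnd 0 δ (v x) * (chi t₀ (sf x) - ψ x)) := hψ.add hprod
  have lD : Lip (fun x => chi t₀ T * (1 - bnd (2 * δ) (3 * δ) (w x))) :=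
    ((lip_const (M := M) 1).sub lb3).const_mul _
  have hsg : ∀ᵐ o ∂C.μ, C.gx sf o ^ 2 + C.gy sf o ^ 2 ≤ 1 := by
    filter_upwards [C.ae_grad_le hsf] with o ho
    rwa [NNReal.coe_one, one_pow] at ho
  filter_upwards [loc_eq C hF lG, loc_eq C hF lc2, loc_eq C hF lD, C.ae_add hψ hprod,
    C.ae_mul lb ld, C.ae_sub lc1 hψ, ae_grad_bnd C hv hδ, hc1, hc2, hsg,
    C.ae_const_mul ((lip_const (M := M) 1).sub lb3) (chi t₀ T), C.ae_sub (lip_const (M := M) 1) lb3]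
    with o h1 h2 h3 h4 h5 h6 h7 h8 h9 h10 h11 h12
  obtain ⟨Y1, hY1, hx1, hy1⟩ := h8
  obtain ⟨Y2, hY2, hx2, hy2⟩ := h9
  have hwv' := hwv (C.pt o)
  refine ⟨fun a1 a2 a3 a4 a5 => ?_, fun a1 a2 => ?_, fun a1 => ?_⟩
  · -- the layer
    have hw1 : w (C.pt o) < δ := by
      rw [max_eq_left a1.le] at hwv'
      linarith
    have e0 : cF v w sf ψ T δ t₀ (C.pt o) =
        ψ (C.pt o) + bnd 0 δ (v (C.pt o)) * (chi t₀ (sf (C.pt o)) - ψ (C.pt o)) := by
      unfold cF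
      rw [bnd_lo (by linarith : δ < 2 * δ) hw1.le, bnd_lo (by linarith : 2 * δ < 3 * δ) (by linarith)]
      have e : (1 - 0) * sf (C.pt o) + 0 * T = sf (C.pt o) := by ring
      rw [e]
      ring
    obtain ⟨k1, k2⟩ := h1 e0
    obtain ⟨k3, k4⟩ := h7.1 a1 a2
    rw [sub_zero] at k3 k4
    set l := bnd 0 δ (v (C.pt o)) with hl
    have hl0 : 0 ≤ l := bnd_nonneg _ _ _
    have hl1 : l ≤ 1 := bnd_le_one _ _ _
    set D := dl (C.pt o) with hD
    have hD0 : D ≠ 0 := a5.ne'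
    have h2p : (0 : ℝ) < √2 := Real.sqrt_pos.2 two_pos
    have h22 : √2 ^ 2 = (2 : ℝ) := Real.sq_sqrt two_pos.le
    have hY1' : Y1 ^ 2 ≤ 1 := by
      rw [← sq_abs]
      exact pow_le_one₀ (abs_nonneg _) hY1
    have hv2 : (Y1 * C.gx sf o) ^ 2 + (Y1 * C.gy sf o) ^ 2 ≤ 1 := by
      have e : (Y1 * C.gx sf o) ^ 2 + (Y1 * C.gy sf o) ^ 2 =
          Y1 ^ 2 * (C.gx sf o ^ 2 + C.gy sf o ^ 2) := by ring
      rw [e]
      exact mul_le_one₀ hY1' (by positivity) h10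
    refine ⟨1, (chi t₀ (sf (C.pt o)) - ψ (C.pt o)) / (√2 * D), (1 - l) * C.gx ψ o + l * (Y1 * C.gx sf o),
      (1 - l) * C.gy ψ o + l * (Y1 * C.gy sf o), ?_, ?_, conv2 hl0 hl1 a3 hv2, ?_⟩
    · rw [k1, h4.1, h5.1, h6.1, k3, hx1]
      field_simp
      ring
    · rw [k2, h4.2, h5.2, h6.2, k4, hy1]
      field_simp
      ring
    · rw [div_pow, mul_pow, h22]
      have h13 : (chi t₀ (sf (C.pt o)) - ψ (C.pt o)) ^ 2 ≤ D ^ 2 := by
        rw [abs_sub_comm] at a4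
        exact sq_le_sq' (by linarith [(abs_le.1 a4).1]) (abs_le.1 a4).2
      have h14 : (chi t₀ (sf (C.pt o)) - ψ (C.pt o)) ^ 2 / (2 * D ^ 2) ≤ 1 / 2 := by
        rw [div_le_div_iff₀ (by positivity) (by norm_num)]
        linarith
      linarith
  · -- the image on the curve
    have e0 : cF v w sf ψ T δ t₀ (C.pt o) = chi t₀ (cS w sf T δ (C.pt o)) := by
      rw [cF_eq, bnd_hi hδ a1, bnd_lo (by linarith : 2 * δ < 3 * δ) a2]
      ring
    obtain ⟨k1, k2⟩ := h2 e0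
    exact Dn.par hY2 (k1.trans hx2) (k2.trans hy2)
  · -- the contraction of a point
    have hv1 : δ ≤ v (C.pt o) := by
      rcases le_total (v (C.pt o)) 0 with h | h
      · rw [max_eq_right h] at hwv'
        linarith
      · rw [max_eq_left h] at hwv'
        linarith
    have e0 : cF v w sf ψ T δ t₀ (C.pt o) = chi t₀ T * (1 - bnd (2 * δ) (3 * δ) (w (C.pt o))) := by
      rw [cF_eq, bnd_hi hδ hv1]
      unfold cS
      rw [bnd_hi (by linarith : δ < 2 * δ) a1.le]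
      have e : (1 - 1) * sf (C.pt o) + 1 * T = T := by ring
      rw [e]
      ring
    obtain ⟨k1, k2⟩ := h3 e0
    have hT : |chi t₀ T| ≤ Real.pi / 2 := chi_bd ht₀ ⟨le_rfl, by linarith⟩
    have hc := C.ae_const 1 o
    refine Dn.par (Y := -(chi t₀ T / (Real.pi / 2))) ?_ ?_ ?_
    · rw [abs_neg, abs_div, abs_of_pos (by positivity : 0 < Real.pi / 2), div_le_one (by positivity)]
      exact hT
    · rw [k1, h11.1, h12.1, hc.1]
      field_simp
      ring
    · rw [k2, h11.2, h12.2, hc.2]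
      field_simp
      ring

/-- the new potential behind a level set with a cap -/
def capF (w ψ : M → ℝ) (a m c t : ℝ) (x : M) : ℝ := sG a m (ψ x - m) (c * max (w x - t) 0)

theorem capF_lip {w : M → ℝ} (hw : Lip w) {a c : ℝ} (ha : 0 < a) (hc : 0 < c) (t : ℝ) (Λ : ℝ≥0) :
    ∃ L : ℝ≥0, ∀ m : ℝ, |m| ≤ Real.pi / 2 → ∀ ψ : M → ℝ, LipschitzWith Λ ψ →
      LipschitzWith L (capF w ψ a m c t) := by
  obtain ⟨Lw, hLw⟩ := hw
  refine ⟨Real.toNNReal (3 * (Λ + c * Lw)), fun m hm ψ hψ => LipschitzWith.of_dist_le_mul fun x y => ?_⟩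
  rw [Real.coe_toNNReal _ (by positivity), Real.dist_eq]
  unfold capF
  refine (sG_lip ha hm _ _ _ _).trans ?_
  have h1 : |ψ x - m - (ψ y - m)| ≤ Λ * dist x y := by
    have e : ψ x - m - (ψ y - m) = ψ x - ψ y := by ring
    rw [e]
    have := hψ.dist_le_mul x y
    rwa [Real.dist_eq] at this
  have h2 : |c * max (w x - t) 0 - c * max (w y - t) 0| ≤ c * Lw * dist x y := by
    rw [← mul_sub, abs_mul, abs_of_nonneg hc.le, mul_assoc]
    apply mul_le_mul_of_nonneg_left _ hc.le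
    refine le_trans (abs_max_sub_max_le_abs _ _ _) ?_
    have e : w x - t - (w y - t) = w x - w y := by ring
    rw [e]
    have := hLw.dist_le_mul x y
    rwa [Real.dist_eq] at this
  have h3 := abs_nonneg (ψ x - m - (ψ y - m))
  linarith

omit [MetricSpace M] in
theorem capF_bd {w ψ : M → ℝ} {a m c t : ℝ} (ha : 0 < a) (hm : |m| ≤ Real.pi / 2) (x : M) :
    |capF w ψ a m c t x| ≤ Real.pi / 2 + a := by
  have hpi := Real.pi_pos
  unfold capF sG
  refine (abs_add_le _ _).trans (add_le_add ?_ ?_)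
  · rw [abs_mul]
    have h1 := sR_mem a (c * max (w x - t) 0)
    rw [abs_of_nonneg h1.1]
    calc |m| * sR a (c * max (w x - t) 0) ≤ Real.pi / 2 * 1 :=
          mul_le_mul hm h1.2 h1.1 (by positivity)
      _ = _ := mul_one _
  · rw [abs_mul, abs_of_nonneg (by positivity : 0 ≤ 2 * a / Real.pi)]
    have h1 : |Real.arcsin (Real.sin (Real.pi * sC a (ψ x - m) / (2 * a)) *
        Real.cos (Real.pi * sC a (c * max (w x - t) 0) / (2 * a)))| ≤ Real.pi / 2 :=
      abs_le.2 ⟨Real.neg_pi_div_two_le_arcsin _, Real.arcsin_le_pi_div_two _⟩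
    calc 2 * a / Real.pi * _ ≤ 2 * a / Real.pi * (Real.pi / 2) :=
          mul_le_mul_of_nonneg_left h1 (by positivity)
      _ = a := by field_simp

omit [MetricSpace M] in
theorem capF_out {w ψ : M → ℝ} {a m c t : ℝ} (ha : 0 < a) {x : M} (h : w x ≤ t)
    (hs : |ψ x - m| ≤ a) : capF w ψ a m c t x = ψ x := by
  unfold capF
  rw [max_eq_right (by linarith), mul_zero, sG_zero ha hs rfl]
  ring

omit [MetricSpace M] in
theorem capF_in {w ψ : M → ℝ} {a m c t δ : ℝ} (ha : 0 < a) (hc : 0 < c) (hcδ : c * δ = a + Real.pi / 2)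
    {x : M} (h : t + δ ≤ w x) : capF w ψ a m c t x = 0 := by
  unfold capF
  refine sG_end ha ?_
  rw [← hcδ]
  refine mul_le_mul_of_nonneg_left ?_ hc.le
  exact le_max_of_le_left (by linarith)

/-- the gradient of the cap potential -/
theorem capF_grad (C : Calc M γ) {θ w : M → ℝ} (hθ : Lip θ) (hw : Lip w)
    {a κ c t m : ℝ} (ha : 0 < a) (hκ : 0 < κ)
    (hc : 0 < c) (hm : |m| ≤ Real.pi / 2) :
    ∀ᵐ o ∂C.μ, t ≤ w (C.pt o) → |θ (C.pt o) - m| < a → C.gx θ o ^ 2 + C.gy θ o ^ 2 ≤ 1 →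
      Dn (sAl a κ (c * (w (C.pt o) - t))) (c * C.gx w o) (c * C.gy w o)
        (C.gx (capF w θ a m c t) o) (C.gy (capF w θ a m c t) o) := by
  have hwt : Lip (fun x => max (w x - t) 0) := (hw.sub (lip_const t)).max (lip_const 0)
  filter_upwards [C.ae_has hθ, C.ae_has hw, C.ae_has hwt, grad_level C hw t,
    grad_level C hw (t + a / c), grad_level C hw (t + (a + Real.pi / 2) / c),
    grad_level C hwt 0] with o h2 h3 h4 h5 h6 h7 h8 ht hs h1
  set r : ℝ := c * (w (C.pt o) - t) with hr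
  have hr0 : 0 ≤ r := mul_nonneg hc.le (by linarith)
  obtain ⟨X, Y, hXY, hd⟩ := sG_deriv' (κ := κ) ha hκ hm hs hr0
  -- the derivative of the truncated depth
  have h9 : C.gx (fun x => max (w x - t) 0) o = C.gx w o ∧ C.gy (fun x => max (w x - t) 0) o = C.gy w o := by
    rcases ht.eq_or_lt with h | h
    · have e1 := h5 h.symm
      have e2 := h8 (by simp [← h])
      rw [e1.1, e1.2, e2.1, e2.2]
      exact ⟨rfl, rfl⟩
    · constructor
      · have e1 := h3.1.sub (hasDerivAt_const (0 : ℝ) t)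
        rw [sub_zero] at e1
        refine h4.1.unique (e1.congr_of_eventuallyEq ?_)
        have e2 := h3.1.continuousAt.eventually (Ioi_mem_nhds (show t < w (C.px o 0) from h))
        filter_upwards [e2] with s hs
        have hs' : t < _ := hs
        rw [max_eq_left (by linarith)]
        rfl
      · have e1 := h3.2.sub (hasDerivAt_const (0 : ℝ) t)
        rw [sub_zero] at e1
        refine h4.2.unique (e1.congr_of_eventuallyEq ?_)
        have e2 := h3.2.continuousAt.eventually (Ioi_mem_nhds (show t < w (C.py o 0) from by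
          rw [C.py_zero]; exact h))
        filter_upwards [e2] with s hs
        have hs' : t < _ := hs
        rw [max_eq_left (by linarith)]
        rfl
  have hkink : r = a ∨ r = a + Real.pi / 2 → C.gx w o = 0 ∧ C.gy w o = 0 := by
    intro h
    rcases h with h | h
    · refine h6 ?_
      rw [← h, hr]
      field_simp
      ring
    · refine h7 ?_
      rw [← h, hr]
      field_simp
      ring
  have ep : max (w (C.pt o) - t) 0 = w (C.pt o) - t := max_eq_left (by linarith)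
  have hX : C.gx (capF w θ a m c t) o
      = X * C.gx θ o + Y * (c * C.gx w o) := by
    have e1 := h2.1.sub (hasDerivAt_const (0 : ℝ) m)
    have e2 := h4.1.const_mul c
    rw [sub_zero] at e1
    rw [h9.1] at e2
    refine HasDerivAt.deriv (hd (fun s => θ (C.px o s) - m) (fun s => c * max (w (C.px o s) - t) 0) _ _
      rfl ?_ e1 e2 ?_)
    · change c * max (w (C.pt o) - t) 0 = r
      rw [ep]
    · intro h
      rw [(hkink h).1, mul_zero]
  have hY : C.gy (capF w θ a m c t) o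
      = X * C.gy θ o + Y * (c * C.gy w o) := by
    have e1 := h2.2.sub (hasDerivAt_const (0 : ℝ) m)
    have e2 := h4.2.const_mul c
    rw [sub_zero] at e1
    rw [h9.2] at e2
    refine HasDerivAt.deriv (hd (fun s => θ (C.py o s) - m) (fun s => c * max (w (C.py o s) - t) 0) _ _
      ?_ ?_ e1 e2 ?_)
    · rw [C.py_zero]
    · rw [C.py_zero, ep]
    · intro h
      rw [(hkink h).2, mul_zero]
  exact ⟨X, Y, C.gx θ o, C.gy θ o, hX, hY, h1, hXY⟩

end Pool.Agent.FPM
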