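import Mathlib
import Pool.Agent.FPM.TMB

/-
I57T (helper19): the topology of the pieces of a compact set. Finitely many components get separate
open and closed neighbourhoods, the rest is cut into small pieces.
-/

open MeasureTheory Set Filter Topology
open scoped ENNReal NNReal

namespace Pool.Agent.FPM

section top

variable {M : Type} [MetricSpace M] [CompactSpace M]

/-- finitely many disjoint closed sets have disjoint thickenings of a common radius -/
theorem thick_disj {ι : Type} [Finite ι] {Q : ι → Set M} (hQc : ∀ i, IsClosed (Q i))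
    (hQd : ∀ i j, i ≠ j → Disjoint (Q i) (Q j)) :
    ∃ ρ : ℝ, 0 < ρ ∧ ∀ i j, i ≠ j → Disjoint (Metric.thickening ρ (Q i)) (Metric.thickening ρ (Q j)) := by
  classical
  have := Fintype.ofFinite ι
  have h1 : ∀ p : ι × ι, ∃ ρ : ℝ, 0 < ρ ∧ (p.1 ≠ p.2 →
      Disjoint (Metric.thickening ρ (Q p.1)) (Metric.thickening ρ (Q p.2))) := by
    intro p
    by_cases hp : p.1 = p.2
    · exact ⟨1, one_pos, fun h => absurd hp h⟩
    · obtain ⟨δ, hδ, h⟩ := (hQd p.1 p.2 hp).exists_thickenings (hQc _).isCompact (hQc _)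
      exact ⟨δ, hδ, fun _ => h⟩
  choose ρ hρ0 hρ1 using h1
  rcases isEmpty_or_nonempty ι with hn | hn
  · exact ⟨1, one_pos, fun i => (hn.false i).elim⟩
  · set ρ₀ := Finset.univ.inf' (Finset.univ_nonempty (α := ι × ι)) ρ with hρ₀
    refine ⟨ρ₀, ?_, fun i j hij => ?_⟩
    · rw [hρ₀, Finset.lt_inf'_iff]
      intro p _
      exact hρ0 p
    · have h2 : ρ₀ ≤ ρ (i, j) := Finset.inf'_le _ (Finset.mem_univ _)
      exact (hρ1 (i, j) hij).mono (Metric.thickening_mono h2 _) (Metric.thickening_mono h2 _)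

omit [CompactSpace M] in
theorem comp_closed {K : Set M} (hK : IsClosed K) (x : M) : IsClosed (connectedComponentIn K x) := by
  by_cases hx : x ∈ K
  · rw [connectedComponentIn_eq_image hx]
    exact hK.isClosedEmbedding_subtypeVal.isClosedMap _ isClosed_connectedComponent
  · rw [connectedComponentIn_eq_empty hx]
    exact isClosed_empty

omit [CompactSpace M] in
/-- a component that meets a piece lies in the piece -/
theorem comp_sub_pc {K P : Set M} (hP : Pc K P) {x : M} (hx : x ∈ P) : connectedComponentIn K x ⊆ P := by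
  have h7 := isPreconnected_closed_iff.1
    (isPreconnected_connectedComponentIn (x := x) (F := K)) P (K \ P) hP.cl hP.cl'
    (fun w hw => by
      by_cases h8 : w ∈ P
      · exact Or.inl h8
      · exact Or.inr ⟨connectedComponentIn_subset _ _ hw, h8⟩)
    ⟨x, mem_connectedComponentIn (hP.sub hx), hx⟩
  intro w hw
  by_contra h8
  obtain ⟨v, -, hv1, hv2⟩ := h7 ⟨w, hw, connectedComponentIn_subset _ _ hw, h8⟩
  exact hv2.2 hv1

omit [CompactSpace M] in
theorem comp_disj {K : Set M} {x y : M} (h : y ∉ connectedComponentIn K x) :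
    Disjoint (connectedComponentIn K x) (connectedComponentIn K y) := by
  rw [Set.disjoint_left]
  intro z hz hz'
  have h1 := connectedComponentIn_eq hz
  have h2 := connectedComponentIn_eq hz'
  have h3 : y ∈ K := by
    by_contra h4
    rw [connectedComponentIn_eq_empty h4] at hz'
    exact hz'
  exact h (by
    rw [h1, ← h2]
    exact mem_connectedComponentIn h3)

omit [CompactSpace M] in
theorem Pc.inter {K P Q : Set M} (hP : Pc K P) (hQ : Pc K Q) : Pc K (P ∩ Q) := by
  refine ⟨inter_subset_left.trans hP.sub, hP.cl.inter hQ.cl, ?_⟩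
  have e : K \ (P ∩ Q) = (K \ P) ∪ (K \ Q) := sdiff_inter
  rw [e]
  exact hP.cl'.union hQ.cl'

/-- separate pieces around finitely many components -/
theorem comp_sep {K : Set M} (hK : IsClosed K) {k : ℕ} {x : Fin k → M} (hx : ∀ i, x i ∈ K)
    (hd : ∀ i j, i ≠ j → x j ∉ connectedComponentIn K (x i)) {ρ : ℝ} (hρ : 0 < ρ) :
    ∃ P : Fin k → Set M, (∀ i, Pc K (P i)) ∧ (∀ i, connectedComponentIn K (x i) ⊆ P i) ∧
      (∀ i, P i ⊆ Metric.thickening ρ (connectedComponentIn K (x i))) ∧
      ∀ i j, i ≠ j → Disjoint (P i) (P j) := by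
  obtain ⟨r, hr, hrd⟩ := thick_disj (Q := fun i => connectedComponentIn K (x i))
    (fun i => comp_closed hK _) (fun i j hij => comp_disj (hd i j hij))
  have h1 : ∀ i, ∃ P, Pc K P ∧ x i ∈ P ∧
      P ⊆ Metric.thickening (min r ρ) (connectedComponentIn K (x i)) := fun i =>
    TMB_piece hK (hx i) Metric.isOpen_thickening (Metric.self_subset_thickening (lt_min hr hρ) _)
  choose P h2 h3 h4 using h1
  refine ⟨P, h2, fun i => comp_sub_pc (h2 i) (h3 i), fun i => (h4 i).trans
    (Metric.thickening_mono (min_le_right _ _) _), fun i j hij => ?_⟩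
  exact (hrd i j hij).mono ((h4 i).trans (Metric.thickening_mono (min_le_left _ _) _))
    ((h4 j).trans (Metric.thickening_mono (min_le_left _ _) _))

/-- the partition: finitely many components with separate neighbourhoods, small pieces otherwise -/
theorem part57 {K : Set M} (hK : IsClosed K) {k : ℕ} {x : Fin k → M} (hx : ∀ i, x i ∈ K)
    (hd : ∀ i j, i ≠ j → x j ∉ connectedComponentIn K (x i)) {θ ρ : ℝ} (hθ : 0 < θ) (hρ : 0 < ρ)
    (hsm : ∀ y ∈ K, (∀ i, y ∉ connectedComponentIn K (x i)) → ∀ z ∈ connectedComponentIn K y,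
      dist y z ≤ θ / 4) :
    ∃ (m : ℕ) (P : Fin k ⊕ Fin m → Set M), (∀ i, Pc K (P i)) ∧ (∀ i j, i ≠ j → Disjoint (P i) (P j)) ∧
      K ⊆ ⋃ i, P i ∧ (∀ i, connectedComponentIn K (x i) ⊆ P (Sum.inl i)) ∧
      (∀ i, P (Sum.inl i) ⊆ Metric.thickening ρ (connectedComponentIn K (x i))) ∧
      ∀ j, ∀ y ∈ P (Sum.inr j), ∀ z ∈ P (Sum.inr j), dist y z ≤ 3 / 4 * θ := by
  obtain ⟨P, hP, hPc, hPt, hPd⟩ := comp_sep hK hx hd hρ
  set K' : Set M := K \ ⋃ i, P i with hK'
  have eK' : K' = K ∩ ⋂ i, (K \ P i) := by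
    ext z
    simp only [hK', Set.mem_sdiff, mem_iUnion, not_exists, mem_inter_iff, mem_iInter]
    constructor
    · rintro ⟨h1, h2⟩
      exact ⟨h1, fun i => ⟨h1, h2 i⟩⟩
    · rintro ⟨h1, h2⟩
      exact ⟨h1, fun i => (h2 i).2⟩
  have hK'c : IsClosed K' := by
    rw [eK']
    exact hK.inter (isClosed_iInter fun i => (hP i).cl')
  have hK'p : Pc K K' := by
    refine ⟨sdiff_subset, hK'c, ?_⟩
    have e : K \ K' = ⋃ i, P i := by
      rw [hK']
      exact sdiff_sdiff_cancel_left (iUnion_subset fun i => (hP i).sub)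
    rw [e]
    exact isClosed_iUnion_of_finite fun i => (hP i).cl
  obtain ⟨m, O, hO, hOd, hOc, hOb⟩ := TMB_cover hK'c (b := 5 / 8 * θ) (η := θ / 8) (by linarith) (by
    intro y hy
    have hyK : y ∈ K := hy.1
    have h1 : ∀ z ∈ connectedComponentIn K y, dist y z ≤ θ / 4 := hsm y hyK fun i hi =>
      hy.2 (mem_iUnion.2 ⟨i, hPc i hi⟩)
    obtain ⟨Q, hQ, hyQ, hQW⟩ := TMB_piece hK hyK (Metric.isOpen_thickening (δ := θ / 16)
      (E := connectedComponentIn K y)) (Metric.self_subset_thickening (by linarith) _)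
    refine ⟨Q ∩ K', ⟨inter_subset_right, hQ.cl.inter hK'c, ?_⟩, ⟨hyQ, hy⟩, ?_⟩
    · have e : K' \ (Q ∩ K') = K' ∩ (K \ Q) := by
        ext z
        simp only [Set.mem_sdiff, mem_inter_iff, not_and]
        constructor
        · rintro ⟨h2, h3⟩
          exact ⟨h2, h2.1, fun h4 => h3 h4 h2⟩
        · rintro ⟨h2, h3, h4⟩
          exact ⟨h2, fun h5 => absurd h5 h4⟩
      rw [e]
      exact hK'c.inter hQ.cl'
    · intro a ha b hb
      obtain ⟨a', ha', haa⟩ := Metric.mem_thickening_iff.1 (hQW ha.1)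
      obtain ⟨b', hb', hbb⟩ := Metric.mem_thickening_iff.1 (hQW hb.1)
      have h2 := h1 a' ha'
      have h3 := h1 b' hb'
      have h4 := dist_triangle4 a a' b' b
      have h5 := dist_triangle a' y b'
      rw [dist_comm b' b] at h4
      rw [dist_comm a' y] at h5
      linarith)
  have hO' : ∀ j, Pc K (O j ∩ K') := by
    intro j
    have h1 : IsClosed (O j ∩ K') := by
      have e : O j ∩ K' = K' ∩ (⋃ l, ⋃ (_ : l ≠ j), O l)ᶜ := by
        ext z
        simp only [mem_inter_iff, mem_compl_iff, mem_iUnion, not_exists]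
        constructor
        · rintro ⟨h2, h3⟩
          exact ⟨h3, fun l hl h4 => Set.disjoint_left.1 (hOd l j hl) h4 h2⟩
        · rintro ⟨h2, h3⟩
          obtain ⟨l, hl⟩ := mem_iUnion.1 (hOc h2)
          by_cases hlj : l = j
          · rw [hlj] at hl
            exact ⟨hl, h2⟩
          · exact absurd hl (h3 l hlj)
      rw [e]
      exact hK'c.inter (isOpen_iUnion fun l => isOpen_iUnion fun _ => hO l).isClosed_compl
    refine ⟨inter_subset_right.trans hK'p.sub, h1, ?_⟩
    have e : K \ (O j ∩ K') = (K \ K') ∪ (K' ∩ (O j)ᶜ) := by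
      ext z
      simp only [Set.mem_sdiff, mem_inter_iff, mem_union, mem_compl_iff, not_and]
      constructor
      · rintro ⟨h2, h3⟩
        by_cases h4 : z ∈ K'
        · exact Or.inr ⟨h4, fun h5 => h3 h5 h4⟩
        · exact Or.inl ⟨h2, h4⟩
      · rintro (⟨h2, h3⟩ | ⟨h2, h3⟩)
        · exact ⟨h2, fun _ => h3⟩
        · exact ⟨h2.1, fun h4 => absurd h4 h3⟩
    rw [e]
    exact hK'p.cl'.union (hK'c.inter (hO j).isClosed_compl)
  refine ⟨m, Sum.elim P fun j => O j ∩ K', ?_, ?_, ?_, fun i => hPc i, fun i => hPt i, ?_⟩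
  · rintro (i | j)
    · exact hP i
    · exact hO' j
  · rintro (i | i) (j | j) hij
    · exact hPd i j fun h => hij (by rw [h])
    · change Disjoint (P i) (O j ∩ K')
      rw [Set.disjoint_left]
      exact fun z h1 h2 => h2.2.2 (mem_iUnion.2 ⟨i, h1⟩)
    · change Disjoint (O i ∩ K') (P j)
      rw [Set.disjoint_left]
      exact fun z h2 h1 => h2.2.2 (mem_iUnion.2 ⟨j, h1⟩)
    · exact (hOd i j fun h => hij (by rw [h])).mono inter_subset_left inter_subset_left
  · intro z hz
    by_cases h1 : z ∈ ⋃ i, P i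
    · obtain ⟨i, hi⟩ := mem_iUnion.1 h1
      exact mem_iUnion.2 ⟨Sum.inl i, hi⟩
    · obtain ⟨j, hj⟩ := mem_iUnion.1 (hOc ⟨hz, h1⟩)
      exact mem_iUnion.2 ⟨Sum.inr j, hj, hz, h1⟩
  · intro j y hy z hz
    have := hOb j y hy.1 z hz.1
    linarith

end top

end Pool.Agent.FPM
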