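import Mathlib
import Pool.Agent.FPM.TMB
import Pool.Agent.FPM.DCM
import Pool.Agent.FPM.I57T

/-
I57L (helper19): additivity of the lengths of the pieces.
-/

open MeasureTheory Set Filter Topology
open scoped ENNReal NNReal

noncomputable section

namespace Pool.Agent.FPM

open Pool.Agent.EWD

variable {M : Type} [MetricSpace M] {γ : ℝ → M} (C : Calc M γ)

/-- a mass that is nonnegative near the level grows -/
theorem mz_loc_nonneg {g : M → ℝ} (hg : Lip g) {D : Om → ℝ} (hD : Integrable D C.μ) {t δ c : ℝ}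
    (hδ : 0 < δ) (h : ∀ᵐ o ∂C.μ, |g (C.pt o) - t| ≤ δ → 0 ≤ D o)
    (hc : HasDerivAt (mz C D g fun _ => 1) c t) : 0 ≤ c := by
  have h1 := hc.tendsto_slope_zero_right
  refine ge_of_tendsto h1 ?_
  filter_upwards [Ioo_mem_nhdsGT hδ] with r hr
  have hr0 : 0 < r := hr.1
  have hr1 : r < δ := hr.2
  rw [smul_eq_mul]
  refine mul_nonneg (inv_nonneg.2 hr0.le) (sub_nonneg.2 ?_)
  have i1 : Integrable (fun o => (1 : ℝ) * D o) C.μ := by simpa only [one_mul] using hD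
  rw [mz_eq C hg, mz_eq C hg]
  refine integral_mono_ae (i1.indicator₀ (meas_pt_lt C hg _)) (i1.indicator₀ (meas_pt_lt C hg _)) ?_
  filter_upwards [h] with o ho
  by_cases h2 : g (C.pt o) < t
  · have m1 : o ∈ {o | g (C.pt o) < t} := h2
    have m2 : o ∈ {o | g (C.pt o) < t + r} := by
      change g (C.pt o) < t + r
      linarith
    rw [indicator_of_mem m1, indicator_of_mem m2]
  · have m1 : o ∉ {o | g (C.pt o) < t} := h2
    rw [indicator_of_notMem m1]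
    refine indicator_apply_nonneg fun h3 => ?_
    have h4 : g (C.pt o) < t + r := h3
    rw [one_mul]
    refine ho ?_
    rw [abs_le]
    constructor <;> linarith

/-- comparison of two finite families of masses near the level -/
theorem mz_fam_le {g : M → ℝ} (hg : Lip g) {ι κ : Type} [Fintype ι] [Fintype κ] {ζ : ι → M → ℝ}
    (hl : ∀ i, Lip (ζ i)) (h0 : ∀ i x, 0 ≤ ζ i x) (h1 : ∀ i x, ζ i x ≤ 1) {H : ι → Om → ℝ}
    (hH : ∀ i, Integrable (H i) C.μ) {ζ' : κ → M → ℝ} (hl' : ∀ i, Lip (ζ' i)) (h0' : ∀ i x, 0 ≤ ζ' i x)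
    (h1' : ∀ i x, ζ' i x ≤ 1) {H' : κ → Om → ℝ} (hH' : ∀ i, Integrable (H' i) C.μ) {t δ : ℝ}
    (hδ : 0 < δ) (h : ∀ᵐ o ∂C.μ, |g (C.pt o) - t| ≤ δ →
      ∑ i, ζ i (C.pt o) * H i o ≤ ∑ j, ζ' j (C.pt o) * H' j o) {a : ι → ℝ} {b : κ → ℝ}
    (ha : ∀ i, HasDerivAt (mz C (H i) g (ζ i)) (a i) t)
    (hb : ∀ j, HasDerivAt (mz C (H' j) g (ζ' j)) (b j) t) : ∑ i, a i ≤ ∑ j, b j := by
  set D : Om → ℝ := fun o => ∑ j, ζ' j (C.pt o) * H' j o - ∑ i, ζ i (C.pt o) * H i o with hDd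
  have i1 : ∀ i, Integrable (fun o => ζ i (C.pt o) * H i o) C.μ := fun i =>
    integrable_zH C (hl i) (h0 i) (h1 i) (hH i)
  have i2 : ∀ j, Integrable (fun o => ζ' j (C.pt o) * H' j o) C.μ := fun j =>
    integrable_zH C (hl' j) (h0' j) (h1' j) (hH' j)
  have j1 : Integrable (fun o => ∑ i, ζ i (C.pt o) * H i o) C.μ := integrable_finsetSum _ fun i _ => i1 i
  have j2 : Integrable (fun o => ∑ j, ζ' j (C.pt o) * H' j o) C.μ := integrable_finsetSum _ fun i _ => i2 i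
  have hD : Integrable D C.μ := j2.sub j1
  have e : mz C D g (fun _ => 1) = fun r => ∑ j, mz C (H' j) g (ζ' j) r - ∑ i, mz C (H i) g (ζ i) r := by
    funext r
    unfold mz
    rw [← integral_finsetSum _ (fun i _ => (i1 i).integrableOn),
      ← integral_finsetSum _ (fun i _ => (i2 i).integrableOn),
      ← integral_sub j2.integrableOn j1.integrableOn]
    congr 1
    funext o
    simp only [hDd, one_mul]
  have h3 : HasDerivAt (mz C D g fun _ => 1) (∑ j, b j - ∑ i, a i) t := by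
    rw [e]
    exact (HasDerivAt.fun_sum fun i _ => hb i).sub (HasDerivAt.fun_sum fun i _ => ha i)
  have h4 := mz_loc_nonneg C hg hD hδ (by
    filter_upwards [h] with o ho h5
    exact sub_nonneg.2 (ho h5)) h3
  linarith

/-- the curve parts of disjoint pieces -/
theorem Gz_fam_le (hγ : Bd γ) {g : M → ℝ} (hg : Lip g) {ι : Type} [Fintype ι] {ζ : ι → M → ℝ}
    (hl : ∀ i, Lip (ζ i)) {t : ℝ} (hd : ∀ i j, i ≠ j → ∀ s, ζ i (γ s) = 1 → ζ j (γ s) = 1 → g (γ s) ≤ t) :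
    ∑ i, Gz γ g t (ζ i) ≤ Gz γ g t (fun _ => 1) := by
  classical
  have hm : ∀ i, MeasurableSet (Apt γ g t (ζ i) ∩ Ioc 0 (2 * Real.pi)) := fun i =>
    (meas_Apt hγ hg (hl i) t).inter measurableSet_Ioc
  have v : ∀ A : Set ℝ, volume (A ∩ Ioc 0 (2 * Real.pi)) ≠ ∞ := fun A => by
    refine ne_top_of_le_ne_top ?_ (measure_mono inter_subset_right)
    rw [Real.volume_Ioc]
    exact ENNReal.ofReal_ne_top
  unfold Gz
  rw [← ENNReal.toReal_sum fun i _ => v _]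
  refine ENNReal.toReal_mono (v _) ?_
  have h1 := measure_iUnion (μ := volume) (f := fun i => Apt γ g t (ζ i) ∩ Ioc 0 (2 * Real.pi)) (by
      intro i j hij
      change Disjoint _ _
      rw [Set.disjoint_left]
      intro s hs hs'
      have h2 := hd i j hij s hs.1.1 hs'.1.1
      have h3 : t < g (γ s) := hs.1.2
      linarith) hm
  rw [tsum_fintype] at h1
  rw [← h1]
  exact measure_mono (iUnion_subset fun i s hs => ⟨⟨rfl, hs.1.2⟩, hs.2⟩)

/-- the curve parts of pieces that cover the part above the level -/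
theorem Gz_fam_ge {g : M → ℝ} {ι : Type} [Fintype ι] {ζ : ι → M → ℝ} {t : ℝ}
    (hc : ∀ s, t < g (γ s) → ∃ i, ζ i (γ s) = 1) :
    Gz γ g t (fun _ => 1) ≤ ∑ i, Gz γ g t (ζ i) := by
  classical
  have v : ∀ A : Set ℝ, volume (A ∩ Ioc 0 (2 * Real.pi)) ≠ ∞ := fun A => by
    refine ne_top_of_le_ne_top ?_ (measure_mono inter_subset_right)
    rw [Real.volume_Ioc]
    exact ENNReal.ofReal_ne_top
  unfold Gz
  rw [← ENNReal.toReal_sum fun i _ => v _]
  refine ENNReal.toReal_mono (ENNReal.sum_ne_top.2 fun i _ => v _) ?_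
  refine le_trans (measure_mono (t := ⋃ i, Apt γ g t (ζ i) ∩ Ioc 0 (2 * Real.pi)) ?_)
    (measure_iUnion_fintype_le _ _)
  intro s hs
  obtain ⟨i, hi⟩ := hc s hs.1.2
  exact mem_iUnion.2 ⟨i, ⟨hi, hs.1.2⟩, hs.2⟩


variable [CompactSpace M]

/-- the lengths of the pieces of a partition -/
theorem part_len (hγ : Bd γ) {g : M → ℝ} (hg : Lip g) {H : Om → ℝ} (hH : Integrable H C.μ)
    {Z : ℕ → M → ℝ} (hZl : ∀ n, Lip (Z n)) (hZ0 : ∀ n x, 0 ≤ Z n x) (hZ1 : ∀ n x, Z n x ≤ 1)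
    (hZc : ∀ K P : Set M, Pc K P → ∃ n, Cut (Z n) K P) {t : ℝ}
    (hdif : ∀ n, DifferentiableAt ℝ (mz C H g (Z n)) t)
    (hdif1 : DifferentiableAt ℝ (mz C H g fun _ => 1) t)
    {ι : Type} [Fintype ι] {P : ι → Set M} (hP : ∀ i, Pc (Kt γ g t) (P i))
    (hd : ∀ i j, i ≠ j → Disjoint (P i) (P j)) (hcov : Kt γ g t ⊆ ⋃ i, P i) {r0 : ℝ} (hr0 : 0 < r0) :
    ∃ (O : ι → Set M) (n : ι → ℕ), (∀ i, IsOpen (O i)) ∧ (∀ i j, i ≠ j → Disjoint (O i) (O j)) ∧
      (∀ i, P i ⊆ O i) ∧ (∀ i, O i ⊆ Metric.thickening r0 (P i)) ∧ (∀ i, ∀ x ∈ O i, Z (n i) x = 1) ∧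
      (∀ i j, i ≠ j → ∀ x ∈ O j, Z (n i) x = 0) ∧ (∀ i, Adc γ g t (Z (n i))) ∧
      ∑ i, deriv (mz C H g (Z (n i))) t = deriv (mz C H g fun _ => 1) t ∧
      ∑ i, Gz γ g t (Z (n i)) = Gz γ g t (fun _ => 1) := by
  classical
  obtain ⟨r, hr, hrd⟩ := thick_disj (fun i => (hP i).cl) hd
  have h1 : ∀ i, ∃ n, Cut (Z n) (Kt γ g t) (P i) := fun i => hZc _ _ (hP i)
  choose n hn using h1
  have hn' := hn
  choose V V' hV hV' hPV hPV' hV1 hV0 using hn'
  set O : ι → Set M := fun i => Metric.thickening (min r0 r) (P i) ∩ V i ∩ ⋂ j, ⋂ (_ : j ≠ i), V' j with hO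
  have hOo : ∀ i, IsOpen (O i) := fun i => (Metric.isOpen_thickening.inter (hV i)).inter
    (isOpen_iInter_of_finite fun j => isOpen_iInter_of_finite fun _ => hV' j)
  have hPO : ∀ i, P i ⊆ O i := by
    intro i x hx
    refine ⟨⟨Metric.self_subset_thickening (lt_min hr0 hr) _ hx, hPV i hx⟩, ?_⟩
    rw [mem_iInter₂]
    intro j hj
    exact hPV' j ⟨(hP i).sub hx, fun h => Set.disjoint_left.1 (hd j i hj) h hx⟩
  have hO1 : ∀ i, ∀ x ∈ O i, Z (n i) x = 1 := fun i x hx => hV1 i x hx.1.2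
  have hO0 : ∀ i j, i ≠ j → ∀ x ∈ O j, Z (n i) x = 0 := fun i j hij x hx => by
    have h2 := hx.2
    rw [mem_iInter₂] at h2
    exact hV0 i x (h2 i hij)
  have hOd : ∀ i j, i ≠ j → Disjoint (O i) (O j) := fun i j hij =>
    (hrd i j hij).mono
      (fun x hx => Metric.thickening_mono (min_le_right _ _) _ hx.1.1)
      (fun x hx => Metric.thickening_mono (min_le_right _ _) _ hx.1.1)
  have hKO : Kt γ g t ⊆ ⋃ i, O i := hcov.trans (iUnion_mono hPO)
  have hadc : ∀ i, Adc γ g t (Z (n i)) := fun i => (hn i).adc hg.cont (hZl _) (hZ0 _) (hZ1 _)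
  have hsum : ∀ x ∈ ⋃ i, O i, ∑ i, Z (n i) x = 1 := by
    intro x hx
    obtain ⟨i, hi⟩ := mem_iUnion.1 hx
    rw [Finset.sum_eq_single i (fun j _ hj => hO0 j i hj x hi) (fun h => absurd (Finset.mem_univ i) h)]
    exact hO1 i x hi
  obtain ⟨δ, hδ, hδO⟩ := TMB_lev hg.cont (isOpen_iUnion hOo) (t := t) fun x hx => hKO (Or.inl hx)
  have hl1 : Lip (fun _ : M => (1 : ℝ)) := lip_const 1
  have eqn : ∀ᵐ o ∂C.μ, |g (C.pt o) - t| ≤ δ →
      ∑ i, Z (n i) (C.pt o) * H o = ∑ _j : Unit, (1 : ℝ) * H o := by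
    refine Eventually.of_forall fun o ho => ?_
    rw [← Finset.sum_mul, hsum _ (hδO _ ho)]
    simp
  refine ⟨O, n, hOo, hOd, hPO, fun i x hx => Metric.thickening_mono (min_le_left _ _) _ hx.1.1,
    hO1, hO0, hadc, le_antisymm ?_ ?_, le_antisymm ?_ ?_⟩
  · have h2 := mz_fam_le C hg (ι := ι) (κ := Unit) (fun i => hZl (n i)) (fun i => hZ0 (n i))
      (fun i => hZ1 (n i)) (fun _ => hH) (ζ' := fun _ _ => 1) (fun _ => hl1) (fun _ _ => zero_le_one)
      (fun _ _ => le_rfl) (fun _ => hH) hδ (by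
        filter_upwards [eqn] with o ho h3
        exact (ho h3).le) (fun i => (hdif (n i)).hasDerivAt) (fun _ => hdif1.hasDerivAt)
    simpa using h2
  · have h2 := mz_fam_le C hg (ι := Unit) (κ := ι) (ζ := fun _ _ => 1) (fun _ => hl1)
      (fun _ _ => zero_le_one) (fun _ _ => le_rfl) (fun _ => hH) (fun i => hZl (n i)) (fun i => hZ0 (n i))
      (fun i => hZ1 (n i)) (fun _ => hH) hδ (by
        filter_upwards [eqn] with o ho h3
        exact (ho h3).ge) (fun _ => hdif1.hasDerivAt) (fun i => (hdif (n i)).hasDerivAt)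
    simpa using h2
  · refine Gz_fam_le hγ hg (fun i => hZl (n i)) fun i j hij s h2 h3 => ?_
    by_contra h4
    rw [not_le] at h4
    obtain ⟨l, hl⟩ := mem_iUnion.1 (hKO (Or.inr ⟨mem_range_self s, h4.le⟩))
    have h5 : l = i := by
      by_contra h6
      rw [hO0 i l (Ne.symm h6) _ hl] at h2
      exact zero_ne_one h2
    have h6 : l = j := by
      by_contra h6
      rw [hO0 j l (Ne.symm h6) _ hl] at h3
      exact zero_ne_one h3
    exact hij (h5.symm.trans h6)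
  · refine Gz_fam_ge fun s hs => ?_
    obtain ⟨l, hl⟩ := mem_iUnion.1 (hKO (Or.inr ⟨mem_range_self s, hs.le⟩))
    exact ⟨l, hO1 l _ hl⟩

end Pool.Agent.FPM
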