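import Mathlib
import Pool.Agent.FPM.TRI0
import Pool.Agent.FPM.HUL
import Pool.Agent.FPM.I57L

/-
I57C (helper19): the pieces of the boundary of a superlevel set: finitely many large pieces, each with
its own length, curve part and hull, and small pieces.
-/

open MeasureTheory Set Filter Topology
open scoped ENNReal NNReal

noncomputable section

namespace Pool.Agent.FPM

open Pool.Agent.EWD

variable {M : Type} [MetricSpace M] {γ : ℝ → M}

/-- a partition of the boundary `Kt γ g t` into `k` large pieces (around the components `A i`) and `m`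
pieces of diameter at most `θ`, with cut-offs `Z`; `θ'` is the error -/
structure Pcs (C : Calc M γ) (H : Om → ℝ) (g : M → ℝ) (t θ θ' : ℝ) {k m : ℕ} (A : Fin k → Set M)
    (Z : Fin k ⊕ Fin m → M → ℝ) (O : Fin k ⊕ Fin m → Set M) : Prop where
  op : ∀ i, IsOpen (O i)
  dj : ∀ i j, i ≠ j → Disjoint (O i) (O j)
  cov : Kt γ g t ⊆ ⋃ i, O i
  one : ∀ i, ∀ x ∈ O i, Z i x = 1
  zer : ∀ i j, i ≠ j → ∀ x ∈ O j, Z i x = 0
  adc : ∀ i, Adc γ g t (Z i)
  der : ∀ i, DifferentiableAt ℝ (mz C H g (Z i)) t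
  S0 : ∀ i, 0 ≤ deriv (mz C H g (Z i)) t
  G0 : ∀ i, 0 ≤ Gz γ g t (Z i)
  sumS : ∑ i, deriv (mz C H g (Z i)) t = deriv (mz C H g fun _ => 1) t
  sumG : ∑ i, Gz γ g t (Z i) = Gz γ g t (fun _ => 1)
  GS : ∀ i, Gz γ g t (Z i) ≤ deriv (mz C H g (Z i)) t
  dust : ∀ j : Fin m, ∀ x ∈ O (Sum.inr j), ∀ y ∈ O (Sum.inr j), dist x y ≤ θ
  conn : ∀ i : Fin k, IsPreconnected (A i)
  ne : ∀ i : Fin k, (A i).Nonempty
  AK : ∀ i : Fin k, A i ⊆ Kt γ g t
  AO : ∀ i : Fin k, A i ⊆ O (Sum.inl i)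
  near : ∀ i : Fin k, ∀ x ∈ O (Sum.inl i), ∃ a ∈ A i, dist x a ≤ θ'
  per : ∀ i : Fin k, ∀ x ∈ O (Sum.inl i), ∀ y ∈ O (Sum.inl i), ∀ z ∈ O (Sum.inl i),
    dist x y + dist y z + dist z x ≤
      deriv (mz C H g (Z (Sum.inl i))) t + Gz γ g t (Z (Sum.inl i)) + θ'
  hull : ∀ i : Fin k, (∀ s, γ s ∈ O (Sum.inl i) → g (γ s) < t) ∨ ∃ p q : ℝ, p ≤ q ∧ q < p + Real.pi ∧
    (γ p ∈ O (Sum.inl i) ∧ t ≤ g (γ p)) ∧ (γ q ∈ O (Sum.inl i) ∧ t ≤ g (γ q)) ∧
    ∀ s, γ s ∈ O (Sum.inl i) → t ≤ g (γ s) → ∃ n : ℤ, s + n * (2 * Real.pi) ∈ Icc p q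

namespace Pcs

variable {C : Calc M γ} {H : Om → ℝ} {g : M → ℝ} {t θ θ' : ℝ} {k m : ℕ} {A : Fin k → Set M}
  {Z : Fin k ⊕ Fin m → M → ℝ} {O : Fin k ⊕ Fin m → Set M}

/-- the diameter of a large piece -/
theorem diam (h : Pcs C H g t θ θ' A Z O) (i : Fin k) {x y : M} (hx : x ∈ O (Sum.inl i))
    (hy : y ∈ O (Sum.inl i)) :
    dist x y ≤ (deriv (mz C H g (Z (Sum.inl i))) t + Gz γ g t (Z (Sum.inl i)) + θ') / 2 := by
  have h1 := h.per i x hx y hy y hy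
  rw [dist_self, dist_comm y x] at h1
  linarith

/-- the tripod inequality -/
theorem tri (h : Pcs C H g t θ θ' A Z O) (hγ : Bd γ) (i : Fin k) {p q : ℝ} (h1 : p ≤ q)
    (h2 : q < p + Real.pi) (hp : γ p ∈ O (Sum.inl i)) (hq : γ q ∈ O (Sum.inl i)) {x : M}
    (hx : x ∈ O (Sum.inl i)) : dist x (γ p) + dist x (γ q) + (q - p) ≤
      deriv (mz C H g (Z (Sum.inl i))) t + Gz γ g t (Z (Sum.inl i)) + θ' := by
  have h3 := h.per i x hx (γ p) hp (γ q) hq
  rw [bd_dist hγ h1 h2.le, dist_comm (γ q) x] at h3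
  linarith

/-- the length of the hull -/
theorem hull_le (h : Pcs C H g t θ θ' A Z O) (hγ : Bd γ) (i : Fin k) {p q : ℝ} (h1 : p ≤ q)
    (h2 : q < p + Real.pi) (hp : γ p ∈ O (Sum.inl i)) (hq : γ q ∈ O (Sum.inl i)) :
    q - p ≤ (deriv (mz C H g (Z (Sum.inl i))) t + Gz γ g t (Z (Sum.inl i)) + θ') / 2 := by
  have h3 := h.diam i hp hq
  rwa [bd_dist hγ h1 h2.le] at h3

end Pcs

section det

variable [CompactSpace M] (C : Calc M γ)

/-- the number of large components -/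
theorem count57 (hγ : Bd γ) {g : M → ℝ} (hg : Lip g) {H : Om → ℝ} (hH : Integrable H C.μ)
    (hH0 : ∀ᵐ o ∂C.μ, 0 ≤ H o)
    {Z : ℕ → M → ℝ} (hZl : ∀ n, Lip (Z n)) (hZ0 : ∀ n x, 0 ≤ Z n x) (hZ1 : ∀ n x, Z n x ≤ 1)
    (hZc : ∀ K P : Set M, Pc K P → ∃ n, Cut (Z n) K P) {t : ℝ}
    (hdif : ∀ n, DifferentiableAt ℝ (mz C H g (Z n)) t)
    (hdif1 : DifferentiableAt ℝ (mz C H g fun _ => 1) t)
    (htri : ∀ n, Adc γ g t (Z n) → ∀ A : Set M, IsPreconnected A →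
      (∀ x ∈ A, x ∈ Kt γ g t ∧ Z n x = 1) → ∀ ρ : ℝ, ∀ x y z : M,
      (∃ a ∈ A, dist x a ≤ ρ) → (∃ a ∈ A, dist y a ≤ ρ) → (∃ a ∈ A, dist z a ≤ ρ) →
      dist x y + dist y z + dist z x ≤ deriv (mz C H g (Z n)) t + Gz γ g t (Z n) + 6 * ρ)
    {θ : ℝ} {k : ℕ} {x y : Fin k → M} (hx : ∀ i, x i ∈ Kt γ g t)
    (hd : ∀ i j, i ≠ j → x j ∉ connectedComponentIn (Kt γ g t) (x i))
    (hy : ∀ i, y i ∈ connectedComponentIn (Kt γ g t) (x i)) (hxy : ∀ i, θ / 4 ≤ dist (x i) (y i)) :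
    k * (θ / 2) ≤ deriv (mz C H g fun _ => 1) t + Gz γ g t (fun _ => 1) := by
  have hK := Kt_closed hγ hg.cont t
  have hdm : 0 ≤ Metric.diam (univ : Set M) := Metric.diam_nonneg
  obtain ⟨m, P, hP, hPd, hPc, hPA, -, -⟩ := part57 hK hx hd
    (θ := 4 * (Metric.diam (univ : Set M) + 1)) (ρ := 1) (by linarith) one_pos (by
      intro a _ _ b _
      have := Metric.dist_le_diam_of_mem (isCompact_univ (X := M)).isBounded (mem_univ a) (mem_univ b)
      linarith)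
  obtain ⟨O, n, -, -, hPO, -, hO1, -, hadc, hsS, hsG⟩ :=
    part_len C hγ hg hH hZl hZ0 hZ1 hZc hdif hdif1 hP hPd hPc one_pos
  have Snn : ∀ n, 0 ≤ deriv (mz C H g (Z n)) t := fun n =>
    mz_deriv_nonneg C hg (hZl n) (hZ0 n) (hZ1 n) hH hH0 t
  have key : ∀ i : Fin k, θ / 2 ≤ deriv (mz C H g (Z (n (Sum.inl i)))) t +
      Gz γ g t (Z (n (Sum.inl i))) := by
    intro i
    have h1 := htri _ (hadc (Sum.inl i)) _ (isPreconnected_connectedComponentIn (x := x i)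
      (F := Kt γ g t)) (fun w hw => ⟨connectedComponentIn_subset _ _ hw,
        hO1 _ _ (hPO _ (hPA i hw))⟩) 0 (x i) (y i) (y i)
      ⟨x i, mem_connectedComponentIn (hx i), by rw [dist_self]⟩
      ⟨y i, hy i, by rw [dist_self]⟩ ⟨y i, hy i, by rw [dist_self]⟩
    rw [dist_self, dist_comm (y i) (x i)] at h1
    have h2 := hxy i
    linarith
  have h1 : ∑ _i : Fin k, θ / 2 ≤ ∑ i : Fin k, (deriv (mz C H g (Z (n (Sum.inl i)))) t +
      Gz γ g t (Z (n (Sum.inl i)))) := Finset.sum_le_sum fun i _ => key i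
  rw [Finset.sum_const, Finset.card_univ, Fintype.card_fin, nsmul_eq_mul, Finset.sum_add_distrib] at h1
  rw [Fintype.sum_sum_type] at hsS hsG
  have h2 : 0 ≤ ∑ j : Fin m, deriv (mz C H g (Z (n (Sum.inr j)))) t :=
    Finset.sum_nonneg fun j _ => Snn _
  have h3 : 0 ≤ ∑ j : Fin m, Gz γ g t (Z (n (Sum.inr j))) :=
    Finset.sum_nonneg fun j _ => Gz_nonneg _ _ _ _
  linarith

/-- the pieces at a good level -/
theorem pcs_det (hγ : Bd γ) {g : M → ℝ} (hg : Lip g) {H : Om → ℝ} (hH : Integrable H C.μ)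
    (hH0 : ∀ᵐ o ∂C.μ, 0 ≤ H o)
    {Z : ℕ → M → ℝ} (hZl : ∀ n, Lip (Z n)) (hZ0 : ∀ n x, 0 ≤ Z n x) (hZ1 : ∀ n x, Z n x ≤ 1)
    (hZc : ∀ K P : Set M, Pc K P → ∃ n, Cut (Z n) K P) {t : ℝ}
    (hdif : ∀ n, DifferentiableAt ℝ (mz C H g (Z n)) t)
    (hdif1 : DifferentiableAt ℝ (mz C H g fun _ => 1) t)
    (htri : ∀ n, Adc γ g t (Z n) → ∀ A : Set M, IsPreconnected A →
      (∀ x ∈ A, x ∈ Kt γ g t ∧ Z n x = 1) → ∀ ρ : ℝ, ∀ x y z : M,
      (∃ a ∈ A, dist x a ≤ ρ) → (∃ a ∈ A, dist y a ≤ ρ) → (∃ a ∈ A, dist z a ≤ ρ) →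
      dist x y + dist y z + dist z x ≤ deriv (mz C H g (Z n)) t + Gz γ g t (Z n) + 6 * ρ)
    (hftw : ∀ n, Adc γ g t (Z n) → Gz γ g t (Z n) ≤ deriv (mz C H g (Z n)) t)
    (hSG : deriv (mz C H g fun _ => 1) t + Gz γ g t (fun _ => 1) < 2 * Real.pi)
    {θ : ℝ} (hθ : 0 < θ) :
    ∃ (k : ℕ) (A : Fin k → Set M), ∀ θ' : ℝ, 0 < θ' → ∃ (m : ℕ) (n : Fin k ⊕ Fin m → ℕ)
      (O : Fin k ⊕ Fin m → Set M), Pcs C H g t θ θ' A (fun i => Z (n i)) O := by
  classical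
  have hK := Kt_closed hγ hg.cont t
  have Snn : ∀ n, 0 ≤ deriv (mz C H g (Z n)) t := fun n =>
    mz_deriv_nonneg C hg (hZl n) (hZ0 n) (hZ1 n) hH hH0 t
  set S := deriv (mz C H g fun _ => 1) t with hS
  set G := Gz γ g t (fun _ => 1) with hG
  set Fam : ℕ → Prop := fun k => ∃ x y : Fin k → M, (∀ i, x i ∈ Kt γ g t) ∧
    (∀ i j, i ≠ j → x j ∉ connectedComponentIn (Kt γ g t) (x i)) ∧
    (∀ i, y i ∈ connectedComponentIn (Kt γ g t) (x i)) ∧ ∀ i, θ / 4 ≤ dist (x i) (y i) with hFam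
  set N : ℕ := ⌊(S + G) / (θ / 2)⌋₊ with hN
  have bound : ∀ k, Fam k → k ≤ N := by
    rintro k ⟨x, y, hx, hd, hy, hxy⟩
    have h1 := count57 C hγ hg hH hH0 hZl hZ0 hZ1 hZc hdif hdif1 htri hx hd hy hxy
    refine Nat.le_floor ?_
    rw [le_div_iff₀ (by linarith)]
    exact h1
  have fam0 : Fam 0 := ⟨Fin.elim0, Fin.elim0, fun i => i.elim0, fun i => i.elim0, fun i => i.elim0,
    fun i => i.elim0⟩
  set k := Nat.findGreatest Fam N with hk
  have famk : Fam k := Nat.findGreatest_spec (Nat.zero_le N) fam0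
  have nfam : ¬ Fam (k + 1) := fun h =>
    Nat.findGreatest_is_greatest (Nat.lt_succ_self k) (bound _ h) h
  obtain ⟨x, y, hx, hd, hy, hxy⟩ := famk
  -- other components are small
  have hsm : ∀ a ∈ Kt γ g t, (∀ i, a ∉ connectedComponentIn (Kt γ g t) (x i)) →
      ∀ b ∈ connectedComponentIn (Kt γ g t) a, dist a b ≤ θ / 4 := by
    intro a ha hna b hb
    by_contra hcon
    rw [not_le] at hcon
    refine nfam ⟨Fin.cons a x, Fin.cons b y, ?_, ?_, ?_, ?_⟩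
    · intro i
      refine Fin.cases ?_ (fun i => ?_) i
      · exact ha
      · exact hx i
    · intro i j
      refine Fin.cases ?_ (fun i => ?_) i
      · refine Fin.cases ?_ (fun j => ?_) j
        · exact fun h => absurd rfl h
        · intro _
          simp only [Fin.cons_zero, Fin.cons_succ]
          intro h1
          refine hna j ?_
          rw [← connectedComponentIn_eq h1]
          exact mem_connectedComponentIn ha
      · refine Fin.cases ?_ (fun j => ?_) j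
        · intro _
          simp only [Fin.cons_zero, Fin.cons_succ]
          exact hna i
        · intro hij
          simp only [Fin.cons_succ]
          exact hd i j fun h => hij (by rw [h])
    · intro i
      refine Fin.cases ?_ (fun i => ?_) i
      · exact hb
      · exact hy i
    · intro i
      refine Fin.cases ?_ (fun i => ?_) i
      · exact hcon.le
      · exact hxy i
  refine ⟨k, fun i => connectedComponentIn (Kt γ g t) (x i), fun θ' hθ' => ?_⟩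
  -- the errors
  set ρ : ℝ := min (θ' / 6) ((2 * Real.pi - (S + G)) / 12) with hρ
  have hρ0 : 0 < ρ := lt_min (by linarith) (by linarith)
  have hρ1 : 6 * ρ ≤ θ' := by
    have := min_le_left (θ' / 6) ((2 * Real.pi - (S + G)) / 12)
    rw [← hρ] at this
    linarith
  have hρ2 : S + G + 6 * ρ < 2 * Real.pi := by
    have := min_le_right (θ' / 6) ((2 * Real.pi - (S + G)) / 12)
    rw [← hρ] at this
    linarith
  obtain ⟨m, P, hP, hPd, hPc, hPA, hPt, hPs⟩ := part57 hK hx hd hθ (ρ := ρ / 2) (by linarith) hsm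
  obtain ⟨O, n, hOo, hOd, hPO, hOP, hO1, hO0, hadc, hsS, hsG⟩ :=
    part_len C hγ hg hH hZl hZ0 hZ1 hZc hdif hdif1 hP hPd hPc (r0 := min (ρ / 2) (θ / 8))
      (lt_min (by linarith) (by linarith))
  have near : ∀ i : Fin k, ∀ w ∈ O (Sum.inl i), ∃ a ∈ connectedComponentIn (Kt γ g t) (x i),
      dist w a ≤ ρ := by
    intro i w hw
    obtain ⟨b, hb, hwb⟩ := Metric.mem_thickening_iff.1 (hOP _ hw)
    obtain ⟨a, ha, hba⟩ := Metric.mem_thickening_iff.1 (hPt i hb)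
    refine ⟨a, ha, ?_⟩
    have h1 := dist_triangle w b a
    have h2 := min_le_left (ρ / 2) (θ / 8)
    linarith
  have per : ∀ i : Fin k, ∀ x ∈ O (Sum.inl i), ∀ y ∈ O (Sum.inl i), ∀ z ∈ O (Sum.inl i),
      dist x y + dist y z + dist z x ≤
        deriv (mz C H g (Z (n (Sum.inl i)))) t + Gz γ g t (Z (n (Sum.inl i))) + 6 * ρ := by
    intro i a ha b hb c hc
    exact htri _ (hadc (Sum.inl i)) _ (isPreconnected_connectedComponentIn (x := x i)
      (F := Kt γ g t)) (fun w hw => ⟨connectedComponentIn_subset _ _ hw,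
        hO1 _ _ (hPO _ (hPA i hw))⟩) ρ a b c (near i a ha) (near i b hb) (near i c hc)
  have SGle : ∀ i, deriv (mz C H g (Z (n i))) t + Gz γ g t (Z (n i)) ≤ S + G := by
    intro i
    have h1 : deriv (mz C H g (Z (n i))) t ≤ S := by
      rw [hS, ← hsS]
      exact Finset.single_le_sum (f := fun i => deriv (mz C H g (Z (n i))) t)
        (fun j _ => Snn _) (Finset.mem_univ i)
    have h2 : Gz γ g t (Z (n i)) ≤ G := by
      rw [hG, ← hsG]
      exact Finset.single_le_sum (f := fun i => Gz γ g t (Z (n i)))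
        (fun j _ => Gz_nonneg _ _ _ _) (Finset.mem_univ i)
    linarith
  -- the trace of a piece
  have trace : ∀ i, ∀ s, γ s ∈ O i → t ≤ g (γ s) → γ s ∈ P i := by
    intro i s h1 h2
    have h3 : γ s ∈ Kt γ g t := Or.inr ⟨mem_range_self s, h2⟩
    obtain ⟨j, hj⟩ := mem_iUnion.1 (hPc h3)
    by_cases hij : j = i
    · rwa [hij] at hj
    · exact absurd h1 (Set.disjoint_left.1 (hOd j i hij) (hPO j hj))
  refine ⟨m, n, O, hOo, hOd, hPc.trans (iUnion_mono hPO), hO1, hO0, hadc, fun i => hdif _,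
    fun i => Snn _, fun i => Gz_nonneg _ _ _ _, hsS, hsG, fun i => hftw _ (hadc i), ?_,
    fun i => isPreconnected_connectedComponentIn, fun i => ⟨x i, mem_connectedComponentIn (hx i)⟩,
    fun i => connectedComponentIn_subset _ _, fun i => (hPA i).trans (hPO _), ?_, ?_, ?_⟩
  · intro j a ha b hb
    obtain ⟨a', ha', haa⟩ := Metric.mem_thickening_iff.1 (hOP _ ha)
    obtain ⟨b', hb', hbb⟩ := Metric.mem_thickening_iff.1 (hOP _ hb)
    have h1 := hPs j a' ha' b' hb'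
    have h2 := dist_triangle4 a a' b' b
    rw [dist_comm b' b] at h2
    have h3 := min_le_right (ρ / 2) (θ / 8)
    linarith
  · intro i w hw
    obtain ⟨a, ha, h1⟩ := near i w hw
    exact ⟨a, ha, by linarith⟩
  · intro i a ha b hb c hc
    have := per i a ha b hb c hc
    linarith
  · intro i
    by_cases hne : ∃ s, γ s ∈ P (Sum.inl i) ∩ {w | t ≤ g w}
    · right
      obtain ⟨p, q, hpq, hqp, hp, hq, htr⟩ := hull hγ
        ((hP (Sum.inl i)).cl.inter (isClosed_le continuous_const hg.cont)) hne (by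
          intro a b c ha hb hc
          have h1 := per i _ (hPO _ ha.1) _ (hPO _ hb.1) _ (hPO _ hc.1)
          have h2 := SGle (Sum.inl i)
          linarith)
      exact ⟨p, q, hpq, hqp, ⟨hPO _ hp.1, hp.2⟩, ⟨hPO _ hq.1, hq.2⟩, fun s h1 h2 =>
        htr s ⟨trace _ s h1 h2, h2⟩⟩
    · left
      intro s hs
      by_contra h1
      rw [not_lt] at h1
      exact hne ⟨s, trace _ s hs h1, h1⟩

/-- the pieces at almost every level -/
theorem pcs0 (hγ : Bd γ) (hR : RegPl C) {g : M → ℝ} (hg : Lip g) {H : Om → ℝ} (hH : Integrable H C.μ)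
    (hpg : ∀ p : M → ℝ, LipschitzWith 1 p → ∀ᵐ o ∂C.μ, |C.wed p g o| ≤ H o)
    {Z : ℕ → M → ℝ} (hZl : ∀ n, Lip (Z n)) (hZ0 : ∀ n x, 0 ≤ Z n x) (hZ1 : ∀ n x, Z n x ≤ 1)
    (hZc : ∀ K P : Set M, Pc K P → ∃ n, Cut (Z n) K P) :
    ∀ᵐ t : ℝ, DifferentiableAt ℝ (mz C H g fun _ => 1) t ∧
      (deriv (mz C H g fun _ => 1) t + Gz γ g t (fun _ => 1) < 2 * Real.pi →
      Gz γ g t (fun _ => 1) ≤ Real.pi →
      Gz γ g t (fun _ => 1) ≤ deriv (mz C H g fun _ => 1) t ∧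
      ∀ θ : ℝ, 0 < θ → ∃ (k : ℕ) (A : Fin k → Set M), ∀ θ' : ℝ, 0 < θ' → ∃ (m : ℕ)
        (n : Fin k ⊕ Fin m → ℕ) (O : Fin k ⊕ Fin m → Set M),
        Pcs C H g t θ θ' A (fun i => Z (n i)) O) := by
  have hpi := Real.pi_pos
  have hH0 : ∀ᵐ o ∂C.μ, 0 ≤ H o := by
    filter_upwards [hpg (fun _ => 0) ((LipschitzWith.const 0).weaken zero_le_one)] with o ho
    exact (abs_nonneg _).trans ho
  have hl1 : Lip (fun _ : M => (1 : ℝ)) := lip_const 1
  have a2 : ∀ᵐ t : ℝ, ∀ n : ℕ, DifferentiableAt ℝ (mz C H g (Z n)) t := by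
    rw [ae_all_iff]
    intro n
    exact (mz_mono C hg (hZl n) (hZ0 n) (hZ1 n) hH hH0).ae_differentiableAt
  have a3 : ∀ᵐ t : ℝ, DifferentiableAt ℝ (mz C H g fun _ => 1) t :=
    (mz_mono C hg hl1 (fun _ => zero_le_one) (fun _ => le_rfl) hH hH0).ae_differentiableAt
  filter_upwards [TRI0 C hγ hR hg hH hpg hZl hZ0 hZ1, a2, a3] with t t1 t2 t3
  refine ⟨t3, fun hSG hG => ?_⟩
  have adc1 : Adc γ g t (fun _ => 1) := ⟨hl1, fun _ => zero_le_one, fun _ => le_rfl,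
    ⟨1, one_pos, fun _ _ => Or.inr rfl⟩, fun _ _ => Or.inr rfl⟩
  have key : ∀ ζ : M → ℝ, Adc γ g t ζ → DifferentiableAt ℝ (mz C H g ζ) t →
      Gz γ g t ζ ≤ deriv (mz C H g ζ) t := by
    intro ζ hζ hd
    have h1 := FTW C hγ hg hζ hH hpg hd.hasDerivAt
    have h2 : Gz γ g t ζ ≤ Gz γ g t (fun _ => 1) := Gz_mono γ g t fun s hs => ⟨rfl, hs.2⟩
    rw [min_eq_left (by linarith)] at h1
    exact h1
  refine ⟨key _ adc1 t3, fun θ hθ => ?_⟩
  exact pcs_det C hγ hg hH hH0 hZl hZ0 hZ1 hZc t2 t3 t1 (fun n hn => key _ hn (t2 n)) hSG hθ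

end det

end Pool.Agent.FPM
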