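import Mathlib
import Pool.Agent.FPM.I57E0

/-
FPM/I57E (helper56): the surgery with collapses onto the curve and caps.
-/

set_option autoImplicit false

open Set Filter Topology MeasureTheory
open scoped NNReal

noncomputable section

namespace Pool.Agent.FPM

open Pool.Agent.EWD Pool.Agent.FPX

/-- a function defined by cases is measurable -/
theorem aem_ite {Ω : Type} [MeasurableSpace Ω] {μ : Measure Ω} {P : Ω → Prop} [DecidablePred P]
    {f g : Ω → ℝ} (hP : NullMeasurableSet {o | P o} μ) (hf : AEMeasurable f μ) (hg : AEMeasurable g μ) :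
    AEMeasurable (fun o => if P o then f o else g o) μ := by
  have e : (fun o => if P o then f o else g o) = fun o => {o | P o}.indicator f o + {o | P o}ᶜ.indicator g o := by
    funext o
    by_cases h : P o
    · have h1 : o ∈ {o | P o} := h
      have h2 : o ∉ {o | P o}ᶜ := fun h3 => h3 h1
      rw [indicator_of_mem h1, indicator_of_notMem h2, if_pos h, add_zero]
    · have h1 : o ∉ {o | P o} := h
      have h2 : o ∈ {o | P o}ᶜ := h
      rw [indicator_of_notMem h1, indicator_of_mem h2, if_neg h, zero_add]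
  rw [e]
  exact (hf.indicator₀ hP).add (hg.indicator₀ hP.compl)

variable {M : Type} [MetricSpace M] {γ : ℝ → M}

theorem null_open (C : Calc M γ) {O : Set M} (hO : IsOpen O) : NullMeasurableSet {o | C.pt o ∈ O} C.μ := by
  rcases (Oᶜ).eq_empty_or_nonempty with h | h
  · have e : {o | C.pt o ∈ O} = univ := by
      ext o
      simp only [Set.mem_ofPred_eq, mem_univ, iff_true]
      by_contra h1
      have h2 : C.pt o ∈ Oᶜ := h1
      rw [h] at h2
      exact h2
    rw [e]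
    exact nullMeasurableSet_univ
  · have hl : Lip (fun x => Metric.infDist x Oᶜ) := ⟨1, Metric.lipschitz_infDist_pt _⟩
    have e : {o | C.pt o ∈ O} = {o | 0 < Metric.infDist (C.pt o) Oᶜ} := by
      ext o
      simp only [Set.mem_ofPred_eq]
      rw [← hO.isClosed_compl.notMem_iff_infDist_pos h]
      simp only [Set.mem_compl_iff, not_not]
    rw [e]
    exact nullMeasurableSet_lt aemeasurable_const (C.meas_pt hl)

theorem pick_meas (C : Calc M γ) {ι : Type} [Fintype ι] {O : ι → Set M} (hO : ∀ i, IsOpen (O i))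
    {f : ι → Om → ℝ} (hf : ∀ i, AEMeasurable (f i) C.μ) :
    AEMeasurable (fun o => pick O (fun i => f i o) (C.pt o)) C.μ := by
  have e : (fun o => pick O (fun i => f i o) (C.pt o)) =
      fun o => ∑ i, {o | C.pt o ∈ O i}.indicator (f i) o := by
    funext o
    unfold pick
    refine Finset.sum_congr rfl fun i _ => ?_
    by_cases h : C.pt o ∈ O i
    · have h1 : o ∈ {o | C.pt o ∈ O i} := h
      rw [indicator_of_mem h, indicator_of_mem h1]
    · have h1 : o ∉ {o | C.pt o ∈ O i} := h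
      rw [indicator_of_notMem h, indicator_of_notMem h1]
  rw [e]
  exact Finset.aemeasurable_fun_sum Finset.univ fun i _ => (hf i).indicator₀ (null_open C (hO i))

theorem reg_meas (C : Calc M γ) {ι : Type} [Fintype ι] {O : ι → Set M} (hO : ∀ i, IsOpen (O i))
    {v w : M → ℝ} (hv : Lip v) (hw : Lip w) (W1 z zin : ℝ)
    {f : ι → Om → ℝ} (hf : ∀ i, AEMeasurable (f i) C.μ) :
    AEMeasurable (fun o => reg O v w W1 z zin (fun i => f i o) (C.pt o)) C.μ := by
  unfold reg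
  exact aem_ite (nullMeasurableSet_le (C.meas_pt hv) aemeasurable_const) aemeasurable_const
    (aem_ite (nullMeasurableSet_le aemeasurable_const (C.meas_pt hw)) aemeasurable_const
      (pick_meas C hO hf))

theorem gn_mul (C : Calc M γ) (g : M → ℝ) {c : ℝ} (hc : 0 ≤ c) (o : Om) :
    √((c * C.gx g o) ^ 2 + (c * C.gy g o) ^ 2) = c * gn C g o := by
  have e : (c * C.gx g o) ^ 2 + (c * C.gy g o) ^ 2 = c ^ 2 * (C.gx g o ^ 2 + C.gy g o ^ 2) := by ring
  rw [e, Real.sqrt_mul (by positivity), Real.sqrt_sq hc]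
  rfl

theorem int7 {μ : Measure Om} {f1 f2 f3 f4 f5 f6 f7 : Om → ℝ} (j1 : Integrable f1 μ) (j2 : Integrable f2 μ)
    (j3 : Integrable f3 μ) (j4 : Integrable f4 μ) (j5 : Integrable f5 μ) (j6 : Integrable f6 μ)
    (j7 : Integrable f7 μ) : ∫ o, (f1 o + f2 o + f3 o + f4 o + f5 o + f6 o + f7 o) ∂μ =
      ∫ o, f1 o ∂μ + ∫ o, f2 o ∂μ + ∫ o, f3 o ∂μ + ∫ o, f4 o ∂μ + ∫ o, f5 o ∂μ + ∫ o, f6 o ∂μ
        + ∫ o, f7 o ∂μ := by
  have k2 : Integrable (fun o => f1 o + f2 o) μ := j1.add j2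
  have k3 : Integrable (fun o => f1 o + f2 o + f3 o) μ := k2.add j3
  have k4 : Integrable (fun o => f1 o + f2 o + f3 o + f4 o) μ := k3.add j4
  have k5 : Integrable (fun o => f1 o + f2 o + f3 o + f4 o + f5 o) μ := k4.add j5
  have k6 : Integrable (fun o => f1 o + f2 o + f3 o + f4 o + f5 o + f6 o) μ := k5.add j6
  rw [integral_add k6 j7, integral_add k5 j6, integral_add k4 j5, integral_add k3 j4,
    integral_add k2 j3, integral_add j1 j2]

/-- the area inequality of the surgery, with parameters -/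
theorem surg57_area [CompactSpace M] (hγ : Bd γ) (C : Calc M γ) {ε : ℝ} (hmin : NM C ε)
    (hpt : ∀ᵐ o ∂C.μ, C.pt o ∉ range γ)
    {v w : M → ℝ} (hv : Lip v) (hw : Lip w) (hw0 : ∀ x, 0 ≤ w x) (hwv : ∀ x, w x ≤ max (v x) 0)
    (hwγ : ∀ r, w (γ r) = 0)
    {ι : Type} [Fintype ι] [DecidableEq ι] {O : ι → Set M} (hO : ∀ i, IsOpen (O i))
    (hd : ∀ i j, i ≠ j → Disjoint (O i) (O j))
    {W0 : ℝ} (hcov : ∀ x, 0 ≤ v x → w x ≤ W0 → x ∈ ⋃ i, O i) (J : Finset ι) {T : ℝ}
    {sf del : ι → M → ℝ}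
    (hsf : ∀ i ∈ J, LipschitzWith 1 (sf i)) (hsT : ∀ i ∈ J, ∀ x, sf i x ∈ Icc T (T + Real.pi))
    (hdel : ∀ i ∈ J, Lip (del i)) (hdel0 : ∀ i ∈ J, ∀ x, 0 ≤ del i x)
    (hsγ : ∀ i ∈ J, ∀ x ∈ O i, x ∈ range γ → 0 < v x → x = γ (sf i x))
    {b a c : ι → ℝ} (ha : ∀ i, 0 < a i) (hba : ∀ i ∉ J, b i < a i) (hc : ∀ i, 0 < c i)
    {η : ℝ} (hη : 0 < η) (Λ : ℝ≥0)
    (hψ : ∀ t₀ ∈ Icc T (T + Real.pi), ∃ ψ : M → ℝ, LipschitzWith Λ ψ ∧ (∀ x, |ψ x| ≤ Real.pi / 2) ∧
      (∀ r, ψ (γ r) = pot γ t₀ (γ r)) ∧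
      (∀ᵐ o ∂C.μ, (v (C.pt o) ≤ 0 ∨ w (C.pt o) < W0) → C.gx ψ o ^ 2 + C.gy ψ o ^ 2 ≤ 1) ∧
      (∀ i ∈ J, ∀ x ∈ O i, 0 < v x → w x < W0 →
        |ψ x - (Real.pi / 2 - |sf i x - t₀|)| ≤ del i x + η) ∧
      (∀ i ∉ J, ∃ m : ℝ, |m| ≤ Real.pi / 2 ∧ ∀ x ∈ O i, 0 < v x → w x < W0 → |ψ x - m| ≤ b i))
    {δ s δ' : ℝ} (hδ : 0 < δ) (hδs : 3 * δ ≤ s) (hδ' : 0 < δ')
    (hs : s + δ' < W0) (hcd : ∀ i, c i * δ' = a i + Real.pi / 2) {ζ : ℝ} (hζ : 0 < ζ) :
    (C.μ {o | 0 < v (C.pt o)}).toReal ≤ ε + 2 * (C.μ {o | 0 < v (C.pt o) ∧ v (C.pt o) < δ}).toReal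
      + (C.μ {o | 0 < v (C.pt o) ∧ w (C.pt o) ≤ s}).toReal
      + (C.μ {o | s < w (C.pt o) ∧ w (C.pt o) < s + δ'}).toReal
      + ∑ i ∈ J, 2 / δ * ∫ o in {o | 0 < v (C.pt o) ∧ v (C.pt o) < δ ∧ C.pt o ∈ O i},
          (del i (C.pt o) + η) * gn C v o ∂C.μ
      + ∑ i ∈ Jᶜ, ∫ o in {o | s < w (C.pt o) ∧ w (C.pt o) < s + δ'},
          sL (a i) (c i * (w (C.pt o) - s)) * c i *
            ((O i).indicator (fun _ => (1 : ℝ)) (C.pt o) * gn C w o) ∂C.μ
      + ζ := by
  classical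
  have hpi := Real.pi_pos
  have := C.fin
  have hs0 : 0 < s := by linarith
  obtain ⟨Lv, hLv⟩ := id hv
  obtain ⟨Lw, hLw⟩ := id hw
  -- bounds
  have lμ : Lip (fun x => bnd (2 * δ) (3 * δ) (w x)) := lip_bnd hw (by linarith)
  obtain ⟨Lm, hLm⟩ := id lμ
  have hSb : ∀ i, ∃ L : ℝ≥0, i ∈ J → LipschitzWith L (cS w (sf i) T δ) := by
    intro i
    by_cases hi : i ∈ J
    · obtain ⟨L, hL⟩ := cS_lip (T := T) hδ hw ⟨1, hsf i hi⟩ (hsT i hi)
      exact ⟨L, fun _ => hL⟩
    · exact ⟨0, fun h => absurd h hi⟩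
  choose LS hLS using hSb
  have hDb : ∀ i, ∃ B : ℝ, 0 ≤ B ∧ (i ∈ J → ∀ x, |del i x| ≤ B) := by
    intro i
    by_cases hi : i ∈ J
    · obtain ⟨B, hB0, hB⟩ := (hdel i hi).bdd
      exact ⟨B, hB0, fun _ => hB⟩
    · exact ⟨0, le_rfl, fun h => absurd h hi⟩
  choose BD hBD0 hBD using hDb
  set Ki : ι → ℝ := fun i => √2 * (BD i + η) / δ * Lv + LS i + Real.pi / 2 * Lm + c i * Lw with hKi
  have hKi0 : ∀ i, 0 ≤ Ki i := by
    intro i
    have h1 := hBD0 i
    have h2 := (hc i).le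
    simp only [hKi]
    positivity
  set K : ℝ := 2 + ∑ i, Ki i with hK
  have hKs : 0 ≤ ∑ i, Ki i := Finset.sum_nonneg fun i _ => hKi0 i
  have hK0 : 0 < K := by linarith
  have hKK : ∀ i, Ki i ≤ K := by
    intro i
    have h1 : Ki i ≤ ∑ i, Ki i := Finset.single_le_sum (f := Ki) (fun j _ => hKi0 j) (Finset.mem_univ i)
    linarith
  set V : ℝ := C.vol with hV
  have hV0 : 0 ≤ V := ENNReal.toReal_nonneg
  set x₀ : ℝ := min 1 (ζ / ((1 + K) * (V + 1))) with hx₀
  have hx0 : 0 < x₀ := lt_min one_pos (by positivity)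
  have hx1 : x₀ ≤ 1 := min_le_left _ _
  have hx2 : x₀ * (1 + K) * V ≤ ζ := by
    have h1 : x₀ ≤ ζ / ((1 + K) * (V + 1)) := min_le_right _ _
    calc x₀ * (1 + K) * V ≤ ζ / ((1 + K) * (V + 1)) * (1 + K) * V := by
          refine mul_le_mul_of_nonneg_right (mul_le_mul_of_nonneg_right h1 (by positivity)) hV0
      _ = ζ * (V / (V + 1)) := by field_simp
      _ ≤ ζ * 1 := by
          apply mul_le_mul_of_nonneg_left _ hζ.le
          exact (div_le_one (by linarith)).2 (by linarith)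
      _ = ζ := mul_one _
  set κ : ℝ := x₀ ^ 2 with hκ
  have hκ0 : 0 < κ := by positivity
  have hκ1 : κ ≤ 1 := pow_le_one₀ hx0.le hx1
  have hκs : √κ = x₀ := Real.sqrt_sq hx0.le
  have hκx : κ ≤ x₀ := by
    rw [hκ, sq]
    nlinarith
  obtain ⟨L, hL⟩ := surg57_u hγ C hv hw hw0 hwv hwγ hO hd hcov J hsf hsT hdel0 hsγ ha hba hc hη Λ hδ hδs
    hδ' hs hcd hκ0
  -- the metric
  set α : Om → ℝ := fun o => reg O v w (s + δ') 1 κ
    (fun i => alL (i ∈ J) κ δ s (a i) (c i) (v (C.pt o)) (w (C.pt o))) (C.pt o) with hα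
  set P : Om → ℝ := fun o => reg O v w (s + δ') 0 0 (fun i => peL (i ∈ J) δ s (c i) (v (C.pt o))
    (w (C.pt o)) (del i (C.pt o) + η) (C.gx v o) (C.gx (cS w (sf i) T δ) o)
    (C.gx (fun x => bnd (2 * δ) (3 * δ) (w x)) o) (C.gx w o)) (C.pt o) with hP
  set Q : Om → ℝ := fun o => reg O v w (s + δ') 0 0 (fun i => peL (i ∈ J) δ s (c i) (v (C.pt o))
    (w (C.pt o)) (del i (C.pt o) + η) (C.gy v o) (C.gy (cS w (sf i) T δ) o)
    (C.gy (fun x => bnd (2 * δ) (3 * δ) (w x)) o) (C.gy w o)) (C.pt o) with hQ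
  have mv := C.meas_pt hv
  have mw := C.meas_pt hw
  have mα : AEMeasurable α C.μ := by
    refine reg_meas C hO hv hw _ _ _ fun i => ?_
    unfold alL
    by_cases hi : i ∈ J
    · simp only [if_pos hi]
      exact aem_ite (nullMeasurableSet_lt mv aemeasurable_const) aemeasurable_const aemeasurable_const
    · simp only [if_neg hi]
      refine aem_ite (nullMeasurableSet_le mw aemeasurable_const) aemeasurable_const ?_
      exact (continuous_sAl (a i) κ).measurable.comp_aemeasurable ((mw.sub_const s).const_mul (c i))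
  have mPe : ∀ (f : (M → ℝ) → Om → ℝ), (∀ u : M → ℝ, Lip u → AEMeasurable (f u) C.μ) →
      AEMeasurable (fun o => reg O v w (s + δ') 0 0 (fun i => peL (i ∈ J) δ s (c i) (v (C.pt o))
      (w (C.pt o)) (del i (C.pt o) + η) (f v o) (f (cS w (sf i) T δ) o)
      (f (fun x => bnd (2 * δ) (3 * δ) (w x)) o) (f w o)) (C.pt o)) C.μ := by
    intro f hf
    refine reg_meas C hO hv hw _ _ _ fun i => ?_
    unfold peL
    by_cases hi : i ∈ J
    · simp only [if_pos hi]
      refine aem_ite (nullMeasurableSet_lt mv aemeasurable_const) ?_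
        (aem_ite (nullMeasurableSet_le mw aemeasurable_const) ?_ ?_)
      · exact ((((C.meas_pt (hdel i hi)).add_const η).const_mul √2).div_const δ).mul (hf v hv)
      · exact hf _ ⟨_, hLS i hi⟩
      · exact (hf _ lμ).const_mul _
    · simp only [if_neg hi]
      exact aem_ite (nullMeasurableSet_le mw aemeasurable_const) aemeasurable_const
        ((hf w hw).const_mul _)
  have mP : AEMeasurable P C.μ := mPe C.gx fun u hu => C.meas_gx hu
  have mQ : AEMeasurable Q C.μ := mPe C.gy fun u hu => C.meas_gy hu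
  -- the sets
  have n1 : NullMeasurableSet {o | v (C.pt o) ≤ 0} C.μ := nullMeasurableSet_le mv aemeasurable_const
  have n2 : NullMeasurableSet {o | 0 < v (C.pt o) ∧ v (C.pt o) < δ} C.μ :=
    (nullMeasurableSet_lt aemeasurable_const mv).inter (nullMeasurableSet_lt mv aemeasurable_const)
  have n3 : NullMeasurableSet {o | 0 < v (C.pt o) ∧ w (C.pt o) ≤ s} C.μ :=
    (nullMeasurableSet_lt aemeasurable_const mv).inter (nullMeasurableSet_le mw aemeasurable_const)
  have n4 : NullMeasurableSet {o | s < w (C.pt o) ∧ w (C.pt o) < s + δ'} C.μ :=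
    (nullMeasurableSet_lt aemeasurable_const mw).inter (nullMeasurableSet_lt mw aemeasurable_const)
  have n5 : ∀ i, NullMeasurableSet {o | 0 < v (C.pt o) ∧ v (C.pt o) < δ ∧ C.pt o ∈ O i} C.μ := fun i =>
    (nullMeasurableSet_lt aemeasurable_const mv).inter
      ((nullMeasurableSet_lt mv aemeasurable_const).inter (null_open C (hO i)))
  set F5 : ι → Om → ℝ := fun i o => {o | 0 < v (C.pt o) ∧ v (C.pt o) < δ ∧ C.pt o ∈ O i}.indicator
    (fun o => (del i (C.pt o) + η) * gn C v o) o with hF5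
  set F6 : ι → Om → ℝ := fun i o => {o | s < w (C.pt o) ∧ w (C.pt o) < s + δ'}.indicator
    (fun o => sL (a i) (c i * (w (C.pt o) - s)) * c i *
      ((O i).indicator (fun _ => (1 : ℝ)) (C.pt o) * gn C w o)) o with hF6
  have hgv := int_gn C hv
  have hgw := int_gn C hw
  have i5 : ∀ i ∈ J, Integrable (F5 i) C.μ := by
    intro i hi
    refine Integrable.indicator₀ ?_ (n5 i)
    refine hgv.bdd_mul (c := BD i + η) ((C.meas_pt (hdel i hi)).add_const η).aestronglyMeasurable ?_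
    refine Eventually.of_forall fun o => ?_
    rw [Real.norm_eq_abs]
    refine (abs_add_le _ _).trans ?_
    rw [abs_of_pos hη]
    linarith [hBD i hi (C.pt o)]
  have mind : ∀ i, AEMeasurable (fun o => (O i).indicator (fun _ => (1 : ℝ)) (C.pt o)) C.μ := by
    intro i
    have h1 := (aemeasurable_const (b := (1 : ℝ)) (μ := C.μ)).indicator₀ (null_open C (hO i))
    refine h1.congr (Eventually.of_forall fun o => ?_)
    simp only [indicator, Set.mem_ofPred_eq]
  have bind : ∀ i o, 0 ≤ (O i).indicator (fun _ => (1 : ℝ)) (C.pt o) ∧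
      (O i).indicator (fun _ => (1 : ℝ)) (C.pt o) ≤ 1 := by
    intro i o
    simp only [indicator]
    split_ifs <;> norm_num
  have i6 : ∀ i ∈ Jᶜ, Integrable (F6 i) C.μ := by
    intro i _
    refine Integrable.indicator₀ ?_ n4
    have h2 : AEMeasurable (fun o => sL (a i) (c i * (w (C.pt o) - s)) * c i) C.μ :=
      ((continuous_sL (a i)).measurable.comp_aemeasurable ((mw.sub_const s).const_mul (c i))).mul_const _
    refine Integrable.bdd_mul (c := 1 * c i) ?_ h2.aestronglyMeasurable ?_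
    · refine hgw.bdd_mul (c := 1) (mind i).aestronglyMeasurable ?_
      refine Eventually.of_forall fun o => ?_
      rw [Real.norm_eq_abs, abs_of_nonneg (bind i o).1]
      exact (bind i o).2
    · refine Eventually.of_forall fun o => ?_
      rw [Real.norm_eq_abs, abs_mul, abs_of_nonneg (sL_nonneg (ha i) _), abs_of_pos (hc i)]
      exact mul_le_mul_of_nonneg_right (sL_le _ _) (hc i).le
  have F5n : ∀ i ∈ J, ∀ o, 0 ≤ F5 i o := by
    intro i hi o
    simp only [hF5]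
    refine indicator_apply_nonneg fun _ => ?_
    exact mul_nonneg (by linarith [hdel0 i hi (C.pt o)]) (gn_nonneg C v o)
  have F6n : ∀ i, ∀ o, 0 ≤ F6 i o := by
    intro i o
    simp only [hF6]
    refine indicator_apply_nonneg fun _ => ?_
    exact mul_nonneg (mul_nonneg (sL_nonneg (ha i) _) (hc i).le)
      (mul_nonneg (bind i o).1 (gn_nonneg C w o))
  set Bd : Om → ℝ := fun o => {o | v (C.pt o) ≤ 0}.indicator (fun _ => (1 : ℝ)) o
    + {o | 0 < v (C.pt o) ∧ v (C.pt o) < δ}.indicator (fun _ => (2 : ℝ)) o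
    + {o | 0 < v (C.pt o) ∧ w (C.pt o) ≤ s}.indicator (fun _ => (1 : ℝ)) o
    + {o | s < w (C.pt o) ∧ w (C.pt o) < s + δ'}.indicator (fun _ => (1 : ℝ)) o
    + ∑ i ∈ J, 2 / δ * F5 i o + ∑ i ∈ Jᶜ, F6 i o + x₀ * (1 + K) with hBd
  -- pointwise estimates
  have hLSg : ∀ᵐ o ∂C.μ, ∀ i ∈ J, C.gx (cS w (sf i) T δ) o ^ 2 + C.gy (cS w (sf i) T δ) o ^ 2 ≤ (LS i : ℝ) ^ 2 := by
    rw [ae_all_iff]
    intro i
    by_cases hi : i ∈ J
    · filter_upwards [C.ae_grad_le (hLS i hi)] with o ho _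
      exact ho
    · exact Eventually.of_forall fun o h => absurd h hi
  have hmain : ∀ᵐ o ∂C.μ, κ ≤ α o ∧ α o ≤ 2 ∧ √(P o ^ 2 + Q o ^ 2) ≤ K ∧
      α o + √(α o) * √(P o ^ 2 + Q o ^ 2) ≤ Bd o := by
    filter_upwards [gn_bd C hLv, gn_bd C hLw, hLSg, C.ae_grad_le hLm] with o g1 g2 g3 g4
    have z1 : 0 ≤ {o | v (C.pt o) ≤ 0}.indicator (fun _ => (1 : ℝ)) o :=
      indicator_apply_nonneg fun _ => zero_le_one
    have z2 : 0 ≤ {o | 0 < v (C.pt o) ∧ v (C.pt o) < δ}.indicator (fun _ => (2 : ℝ)) o :=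
      indicator_apply_nonneg fun _ => zero_le_two
    have z3 : 0 ≤ {o | 0 < v (C.pt o) ∧ w (C.pt o) ≤ s}.indicator (fun _ => (1 : ℝ)) o :=
      indicator_apply_nonneg fun _ => zero_le_one
    have z4 : 0 ≤ {o | s < w (C.pt o) ∧ w (C.pt o) < s + δ'}.indicator (fun _ => (1 : ℝ)) o :=
      indicator_apply_nonneg fun _ => zero_le_one
    have z5 : 0 ≤ ∑ i ∈ J, 2 / δ * F5 i o := Finset.sum_nonneg fun i hi =>
      mul_nonneg (by positivity) (F5n i hi o)
    have z6 : 0 ≤ ∑ i ∈ Jᶜ, F6 i o := Finset.sum_nonneg fun i _ => F6n i o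
    have z7 : 0 ≤ x₀ * (1 + K) := by positivity
    have z8 : x₀ ≤ x₀ * (1 + K) := by nlinarith
    have s0 : √((0 : ℝ) ^ 2 + 0 ^ 2) = 0 := by norm_num
    have q1 := gn_nonneg C v o
    have q2 := gn_nonneg C w o
    simp only [hα, hP, hQ, hBd]
    unfold reg
    rcases le_or_gt (v (C.pt o)) 0 with hx | hx
    · simp only [if_pos hx]
      have m1 : o ∈ {o | v (C.pt o) ≤ 0} := hx
      rw [s0, indicator_of_mem m1, Real.sqrt_one]
      refine ⟨hκ1, by norm_num, hK0.le, ?_⟩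
      linarith
    · simp only [if_neg (not_le.2 hx)]
      rcases lt_or_ge (w (C.pt o)) (s + δ') with hx' | hx'
      · simp only [if_neg (not_le.2 hx')]
        obtain ⟨i, hi⟩ : ∃ i, C.pt o ∈ O i := mem_iUnion.1 (hcov _ hx.le (by linarith))
        rw [pick_eq hd _ hi, pick_eq hd _ hi, pick_eq hd _ hi]
        have hKi' := hKK i
        have r1 : 0 ≤ √2 * (BD i + η) / δ * Lv := by
          have := hBD0 i
          positivity
        have r2 : (0 : ℝ) ≤ LS i := (LS i).2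
        have r3 : 0 ≤ Real.pi / 2 * Lm := by positivity
        have r4 : 0 ≤ c i * Lw := mul_nonneg (hc i).le Lw.2
        have hKe : Ki i = √2 * (BD i + η) / δ * Lv + LS i + Real.pi / 2 * Lm + c i * Lw := rfl
        unfold alL peL
        by_cases hiJ : i ∈ J
        · simp only [if_pos hiJ]
          rcases lt_or_ge (v (C.pt o)) δ with h2 | h2
          · simp only [if_pos h2]
            have hD0 : 0 ≤ √2 * (del i (C.pt o) + η) / δ := by
              have := hdel0 i hiJ (C.pt o)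
              positivity
            rw [gn_mul C v hD0 o]
            have hD1 : √2 * (del i (C.pt o) + η) / δ ≤ √2 * (BD i + η) / δ := by
              have h3 := (le_abs_self _).trans (hBD i hiJ (C.pt o))
              exact div_le_div_of_nonneg_right
                (mul_le_mul_of_nonneg_left (by linarith) (Real.sqrt_nonneg 2)) hδ.le
            have h4 : √2 * (del i (C.pt o) + η) / δ * gn C v o ≤ √2 * (BD i + η) / δ * Lv :=
              mul_le_mul hD1 g1 q1 (hD0.trans hD1)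
            refine ⟨by linarith, le_rfl, by linarith, ?_⟩
            have m2 : o ∈ {o | 0 < v (C.pt o) ∧ v (C.pt o) < δ} := ⟨hx, h2⟩
            have m5 : o ∈ {o | 0 < v (C.pt o) ∧ v (C.pt o) < δ ∧ C.pt o ∈ O i} := ⟨hx, h2, hi⟩
            have h5 : 2 / δ * F5 i o ≤ ∑ i ∈ J, 2 / δ * F5 i o :=
              Finset.single_le_sum (f := fun i => 2 / δ * F5 i o) (fun j hj =>
                mul_nonneg (by positivity) (F5n j hj o)) hiJ
            have h6 : F5 i o = (del i (C.pt o) + η) * gn C v o := indicator_of_mem m5 _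
            have h22 : √2 * √2 = (2 : ℝ) := Real.mul_self_sqrt zero_le_two
            have h7 : √2 * (√2 * (del i (C.pt o) + η) / δ * gn C v o) =
                2 / δ * ((del i (C.pt o) + η) * gn C v o) := by
              calc √2 * (√2 * (del i (C.pt o) + η) / δ * gn C v o) =
                  (√2 * √2) / δ * ((del i (C.pt o) + η) * gn C v o) := by ring
                _ = _ := by rw [h22]
            rw [indicator_of_mem m2]
            rw [h6] at h5
            linarith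
          · simp only [if_neg (not_lt.2 h2)]
            have key : ∀ n : ℝ, 0 ≤ n → n ≤ K → κ ≤ κ ∧ κ ≤ 2 ∧ n ≤ K ∧ κ + √κ * n ≤
                {o | v (C.pt o) ≤ 0}.indicator (fun _ => (1 : ℝ)) o
                + {o | 0 < v (C.pt o) ∧ v (C.pt o) < δ}.indicator (fun _ => (2 : ℝ)) o
                + {o | 0 < v (C.pt o) ∧ w (C.pt o) ≤ s}.indicator (fun _ => (1 : ℝ)) o
                + {o | s < w (C.pt o) ∧ w (C.pt o) < s + δ'}.indicator (fun _ => (1 : ℝ)) o
                + ∑ i ∈ J, 2 / δ * F5 i o + ∑ i ∈ Jᶜ, F6 i o + x₀ * (1 + K) := by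
              intro n hn0 hn
              refine ⟨le_rfl, by linarith, hn, ?_⟩
              rw [hκs]
              have : x₀ * n ≤ x₀ * K := mul_le_mul_of_nonneg_left hn hx0.le
              nlinarith
            rcases le_or_gt (w (C.pt o)) (2 * δ) with h3 | h3
            · simp only [if_pos h3]
              refine key _ (Real.sqrt_nonneg _) ?_
              have h4 : √(C.gx (cS w (sf i) T δ) o ^ 2 + C.gy (cS w (sf i) T δ) o ^ 2) ≤ LS i :=
                Real.sqrt_le_iff.2 ⟨(LS i).2, g3 i hiJ⟩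
              linarith
            · simp only [if_neg (not_le.2 h3)]
              refine key _ (Real.sqrt_nonneg _) ?_
              rw [gn_mul C _ (by positivity : 0 ≤ Real.pi / 2) o]
              have h4 : gn C (fun x => bnd (2 * δ) (3 * δ) (w x)) o ≤ Lm :=
                Real.sqrt_le_iff.2 ⟨Lm.2, g4⟩
              have h5 : Real.pi / 2 * gn C (fun x => bnd (2 * δ) (3 * δ) (w x)) o ≤ Real.pi / 2 * Lm :=
                mul_le_mul_of_nonneg_left h4 (by positivity)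
              linarith
        · simp only [if_neg hiJ]
          rcases le_or_gt (w (C.pt o)) s with h3 | h3
          · simp only [if_pos h3]
            have m3 : o ∈ {o | 0 < v (C.pt o) ∧ w (C.pt o) ≤ s} := ⟨hx, h3⟩
            rw [s0, indicator_of_mem m3, Real.sqrt_one]
            refine ⟨hκ1, by norm_num, hK0.le, ?_⟩
            linarith
          · simp only [if_neg (not_le.2 h3)]
            rw [gn_mul C w (hc i).le o]
            have m4 : o ∈ {o | s < w (C.pt o) ∧ w (C.pt o) < s + δ'} := ⟨h3, hx'⟩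
            have h4 : c i * gn C w o ≤ c i * Lw := mul_le_mul_of_nonneg_left g2 (hc i).le
            have h40 : 0 ≤ c i * gn C w o := mul_nonneg (hc i).le q2
            have h5 := sAl_le (a := a i) hκ1 (c i * (w (C.pt o) - s))
            have h6 := sqrt_sAl_le (ha i) hκ0.le (c i * (w (C.pt o) - s))
            rw [hκs] at h6
            have h7 : F6 i o ≤ ∑ i ∈ Jᶜ, F6 i o :=
              Finset.single_le_sum (f := fun i => F6 i o) (fun j _ => F6n j o)
                (Finset.mem_compl.2 hiJ)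
            have h8 : F6 i o = sL (a i) (c i * (w (C.pt o) - s)) * c i * gn C w o := by
              simp only [hF6]
              rw [indicator_of_mem m4, indicator_of_mem hi, one_mul]
            have h9 := sAl_ge (a i) κ (c i * (w (C.pt o) - s))
            refine ⟨h9, by linarith, by linarith, ?_⟩
            have h10 : √(sAl (a i) κ (c i * (w (C.pt o) - s))) * (c i * gn C w o) ≤
                (x₀ + sL (a i) (c i * (w (C.pt o) - s))) * (c i * gn C w o) :=
              mul_le_mul_of_nonneg_right h6 h40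
            have h11 : x₀ * (c i * gn C w o) ≤ x₀ * K := mul_le_mul_of_nonneg_left (by linarith) hx0.le
            rw [indicator_of_mem m4]
            rw [h8] at h7
            nlinarith
      · simp only [if_pos hx']
        rw [s0, mul_zero]
        refine ⟨le_rfl, by linarith, hK0.le, ?_⟩
        linarith
  -- near minimality
  have hb' : ∀ᵐ o ∂C.μ, κ ≤ α o ∧ α o ≤ K ∧ P o ^ 2 + Q o ^ 2 ≤ K ^ 2 := by
    filter_upwards [hmain] with o ho
    obtain ⟨h1, h2, h3, _⟩ := ho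
    refine ⟨h1, by linarith, ?_⟩
    have h4 : 0 ≤ P o ^ 2 + Q o ^ 2 := by positivity
    calc P o ^ 2 + Q o ^ 2 = √(P o ^ 2 + Q o ^ 2) ^ 2 := (Real.sq_sqrt h4).symm
      _ ≤ K ^ 2 := pow_le_pow_left₀ (Real.sqrt_nonneg _) h3 2
  have hu : ∀ t ∈ Icc T (T + Real.pi), ∃ u : M → ℝ, LipschitzWith L u ∧
      (∀ᵐ o ∂C.μ, Dn (α o) (P o) (Q o) (C.gx u o) (C.gy u o)) ∧
      (∀ s s', |u (γ s) - u (γ s')| ≤ |s - s'|) ∧ Real.pi ≤ u (γ t) - u (γ (t + Real.pi)) := by
    intro t ht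
    obtain ⟨ψ, p1, p2, p3, p4, p5, p6⟩ := hψ t ht
    obtain ⟨u, u1, u2, u3, u4⟩ := hL t ht ψ p1 p2 p3 p4 p5 p6
    exact ⟨u, u1, u2, u3, u4⟩
  have hnm := nm_met hγ hmin hpt mα mP mQ hκ0 hb' L T hu
  -- the integral
  have j1 : Integrable (fun o => {o | v (C.pt o) ≤ 0}.indicator (fun _ => (1 : ℝ)) o) C.μ :=
    (integrable_const _).indicator₀ n1
  have j2 : Integrable (fun o => {o | 0 < v (C.pt o) ∧ v (C.pt o) < δ}.indicator (fun _ => (2 : ℝ)) o) C.μ :=
    (integrable_const _).indicator₀ n2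
  have j3 : Integrable (fun o => {o | 0 < v (C.pt o) ∧ w (C.pt o) ≤ s}.indicator (fun _ => (1 : ℝ)) o) C.μ :=
    (integrable_const _).indicator₀ n3
  have j4 : Integrable (fun o => {o | s < w (C.pt o) ∧ w (C.pt o) < s + δ'}.indicator (fun _ => (1 : ℝ)) o) C.μ :=
    (integrable_const _).indicator₀ n4
  have j5 : Integrable (fun o => ∑ i ∈ J, 2 / δ * F5 i o) C.μ :=
    integrable_finsetSum _ fun i hi => (i5 i hi).const_mul _
  have j6 : Integrable (fun o => ∑ i ∈ Jᶜ, F6 i o) C.μ := integrable_finsetSum _ fun i hi => i6 i hi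
  have j7 : Integrable (fun _ : Om => x₀ * (1 + K)) C.μ := integrable_const _
  have jB : Integrable Bd C.μ := ((((((j1.add j2).add j3).add j4).add j5).add j6).add j7)
  have mS : AEMeasurable (fun o => √(α o) * sS (α o) (P o) (Q o)) C.μ := by
    have h1 : AEMeasurable (fun o => sS (α o) (P o) (Q o)) C.μ := by
      refine meas3 ?_ mα mP mQ
      unfold sS
      fun_prop
    exact mα.sqrt.mul h1
  have hle : ∫ o, √(α o) * sS (α o) (P o) (Q o) ∂C.μ ≤ ∫ o, Bd o ∂C.μ := by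
    refine integral_mono_of_nonneg ?_ jB ?_
    · exact Eventually.of_forall fun o => mul_nonneg (Real.sqrt_nonneg _) (Real.sqrt_nonneg _)
    · filter_upwards [hmain] with o ho
      exact (sA_area_le (hκ0.trans_le ho.1) (P o) (Q o)).trans ho.2.2.2
  have e1 : ∫ o, {o | v (C.pt o) ≤ 0}.indicator (fun _ => (1 : ℝ)) o ∂C.μ = (C.μ {o | v (C.pt o) ≤ 0}).toReal := by
    rw [integral_indicator₀ n1, setIntegral_const, smul_eq_mul, mul_one]
    rfl
  have e2 : ∫ o, {o | 0 < v (C.pt o) ∧ v (C.pt o) < δ}.indicator (fun _ => (2 : ℝ)) o ∂C.μ =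
      2 * (C.μ {o | 0 < v (C.pt o) ∧ v (C.pt o) < δ}).toReal := by
    rw [integral_indicator₀ n2, setIntegral_const, smul_eq_mul, mul_comm]
    rfl
  have e3 : ∫ o, {o | 0 < v (C.pt o) ∧ w (C.pt o) ≤ s}.indicator (fun _ => (1 : ℝ)) o ∂C.μ =
      (C.μ {o | 0 < v (C.pt o) ∧ w (C.pt o) ≤ s}).toReal := by
    rw [integral_indicator₀ n3, setIntegral_const, smul_eq_mul, mul_one]
    rfl
  have e4 : ∫ o, {o | s < w (C.pt o) ∧ w (C.pt o) < s + δ'}.indicator (fun _ => (1 : ℝ)) o ∂C.μ =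
      (C.μ {o | s < w (C.pt o) ∧ w (C.pt o) < s + δ'}).toReal := by
    rw [integral_indicator₀ n4, setIntegral_const, smul_eq_mul, mul_one]
    rfl
  have e5 : ∫ o, ∑ i ∈ J, 2 / δ * F5 i o ∂C.μ = ∑ i ∈ J, 2 / δ *
      ∫ o in {o | 0 < v (C.pt o) ∧ v (C.pt o) < δ ∧ C.pt o ∈ O i}, (del i (C.pt o) + η) * gn C v o ∂C.μ := by
    rw [integral_finsetSum J fun i hi => (i5 i hi).const_mul (2 / δ)]
    refine Finset.sum_congr rfl fun i hi => ?_
    rw [integral_const_mul]
    simp only [hF5]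
    rw [integral_indicator₀ (n5 i)]
  have e6 : ∫ o, ∑ i ∈ Jᶜ, F6 i o ∂C.μ = ∑ i ∈ Jᶜ, ∫ o in {o | s < w (C.pt o) ∧ w (C.pt o) < s + δ'},
          sL (a i) (c i * (w (C.pt o) - s)) * c i *
            ((O i).indicator (fun _ => (1 : ℝ)) (C.pt o) * gn C w o) ∂C.μ := by
    rw [integral_finsetSum Jᶜ fun i hi => i6 i hi]
    refine Finset.sum_congr rfl fun i hi => ?_
    simp only [hF6]
    rw [integral_indicator₀ n4]
  have e7 : ∫ _ : Om, x₀ * (1 + K) ∂C.μ = x₀ * (1 + K) * V := by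
    rw [integral_const, smul_eq_mul, mul_comm]
    rfl
  have eB : ∫ o, Bd o ∂C.μ = (C.μ {o | v (C.pt o) ≤ 0}).toReal
      + 2 * (C.μ {o | 0 < v (C.pt o) ∧ v (C.pt o) < δ}).toReal
      + (C.μ {o | 0 < v (C.pt o) ∧ w (C.pt o) ≤ s}).toReal
      + (C.μ {o | s < w (C.pt o) ∧ w (C.pt o) < s + δ'}).toReal
      + ∑ i ∈ J, 2 / δ * ∫ o in {o | 0 < v (C.pt o) ∧ v (C.pt o) < δ ∧ C.pt o ∈ O i},
          (del i (C.pt o) + η) * gn C v o ∂C.μ
      + ∑ i ∈ Jᶜ, ∫ o in {o | s < w (C.pt o) ∧ w (C.pt o) < s + δ'},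
          sL (a i) (c i * (w (C.pt o) - s)) * c i *
            ((O i).indicator (fun _ => (1 : ℝ)) (C.pt o) * gn C w o) ∂C.μ
      + x₀ * (1 + K) * V := by
    rw [← e1, ← e2, ← e3, ← e4, ← e5, ← e6, ← e7]
    exact int7 j1 j2 j3 j4 j5 j6 j7
  -- the volume
  have hVs : V = (C.μ {o | v (C.pt o) ≤ 0}).toReal + (C.μ {o | 0 < v (C.pt o)}).toReal := by
    have n0 : NullMeasurableSet {o | 0 < v (C.pt o)} C.μ := nullMeasurableSet_lt aemeasurable_const mv
    have h1 : C.μ univ = C.μ {o | v (C.pt o) ≤ 0} + C.μ {o | 0 < v (C.pt o)} := by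
      rw [← measure_union₀ n0]
      · congr 1
        ext o
        simp only [mem_univ, mem_union, Set.mem_ofPred_eq, true_iff]
        exact le_or_gt _ _
      · refine Disjoint.aedisjoint ?_
        rw [Set.disjoint_left]
        intro o h1 h2
        have h3 : v (C.pt o) ≤ 0 := h1
        have h4 : 0 < v (C.pt o) := h2
        linarith
    have h2 : V = (C.μ univ).toReal := rfl
    rw [h2, h1, ENNReal.toReal_add (measure_ne_top _ _) (measure_ne_top _ _)]
  rw [eB] at hle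
  have hfin := hnm.trans hle
  have hV' : C.vol = V := rfl
  rw [hV'] at hfin
  linarith

/-- the surgery -/
theorem surg57 [CompactSpace M] (hγ : Bd γ) (C : Calc M γ) {ε : ℝ} (hmin : NM C ε)
    (hpt : ∀ᵐ o ∂C.μ, C.pt o ∉ range γ)
    {v w : M → ℝ} (hv : Lip v) (hw : Lip w) (hw0 : ∀ x, 0 ≤ w x) (hwv : ∀ x, w x ≤ max (v x) 0)
    (hwγ : ∀ r, w (γ r) = 0)
    {ι : Type} [Fintype ι] [DecidableEq ι] {O : ι → Set M} (hO : ∀ i, IsOpen (O i))
    (hd : ∀ i j, i ≠ j → Disjoint (O i) (O j))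
    {W0 : ℝ} (_hW0 : 0 < W0) (hcov : ∀ x, 0 ≤ v x → w x ≤ W0 → x ∈ ⋃ i, O i) (J : Finset ι) {T : ℝ}
    {sf del : ι → M → ℝ}
    (hsf : ∀ i ∈ J, LipschitzWith 1 (sf i)) (hsT : ∀ i ∈ J, ∀ x, sf i x ∈ Icc T (T + Real.pi))
    (hdel : ∀ i ∈ J, Lip (del i)) (hdel0 : ∀ i ∈ J, ∀ x, 0 ≤ del i x)
    (hsγ : ∀ i ∈ J, ∀ x ∈ O i, x ∈ range γ → 0 < v x → x = γ (sf i x))
    {b : ι → ℝ} (hb : ∀ i ∉ J, 0 < b i) {η : ℝ} (hη : 0 < η) (Λ : ℝ≥0)
    (hψ : ∀ t₀ ∈ Icc T (T + Real.pi), ∃ ψ : M → ℝ, LipschitzWith Λ ψ ∧ (∀ x, |ψ x| ≤ Real.pi / 2) ∧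
      (∀ r, ψ (γ r) = pot γ t₀ (γ r)) ∧
      (∀ᵐ o ∂C.μ, (v (C.pt o) ≤ 0 ∨ w (C.pt o) < W0) → C.gx ψ o ^ 2 + C.gy ψ o ^ 2 ≤ 1) ∧
      (∀ i ∈ J, ∀ x ∈ O i, 0 < v x → w x < W0 →
        |ψ x - (Real.pi / 2 - |sf i x - t₀|)| ≤ del i x + η) ∧
      (∀ i ∉ J, ∃ m : ℝ, |m| ≤ Real.pi / 2 ∧ ∀ x ∈ O i, 0 < v x → w x < W0 → |ψ x - m| ≤ b i))
    {δ s : ℝ} (hδ : 0 < δ) (hδs : 3 * δ ≤ s) (hs : s < W0) {ℓ : ι → ℝ}
    (hℓ : ∀ i ∉ J, HasDerivAt (fun r => ∫ o in {o | w (C.pt o) < r},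
      (O i).indicator (fun _ => (1 : ℝ)) (C.pt o) * gn C w o ∂C.μ) (ℓ i) s) :
    (C.μ {o | 0 < v (C.pt o)}).toReal ≤ ε + 2 * (C.μ {o | 0 < v (C.pt o) ∧ v (C.pt o) < δ}).toReal
      + (C.μ {o | 0 < v (C.pt o) ∧ w (C.pt o) ≤ s}).toReal
      + ∑ i ∈ J, 2 / δ * ∫ o in {o | 0 < v (C.pt o) ∧ v (C.pt o) < δ ∧ C.pt o ∈ O i},
          (del i (C.pt o) + η) * gn C v o ∂C.μ
      + ∑ i ∈ Jᶜ, 2 * b i / Real.pi * ℓ i := by
  classical
  have hpi := Real.pi_pos
  have := C.fin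
  have mw := C.meas_pt hw
  have hgw := int_gn C hw
  refine le_of_forall_pos_le_add fun ζ hζ => ?_
  set ζ' : ℝ := ζ / 4 with hζ'
  have hζp : 0 < ζ' := by positivity
  -- the heights of the caps
  set Λs : ℝ := ∑ i ∈ Jᶜ, |ℓ i| with hΛs
  have hΛ0 : 0 ≤ Λs := Finset.sum_nonneg fun i _ => abs_nonneg _
  set τ : ℝ := ζ' / (1 + Λs) with hτ
  have hτ0 : 0 < τ := by positivity
  have hτs : τ * Λs ≤ ζ' := by
    have e : τ * Λs = ζ' * (Λs / (1 + Λs)) := by rw [hτ]; ring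
    rw [e]
    have h4 : Λs / (1 + Λs) ≤ 1 := (div_le_one (by positivity)).2 (by linarith)
    nlinarith
  set a : ι → ℝ := fun i => |b i| + τ with ha
  have ha0 : ∀ i, 0 < a i := fun i => by
    have := abs_nonneg (b i)
    simp only [ha]
    linarith
  set N : ℝ := (Finset.card (Jᶜ) : ℝ) + 1 with hN
  have hN0 : 0 < N := by positivity
  -- the widths of the caps
  have hA : ∀ i, ∃ d : ℝ, 0 < d ∧ (i ∉ J → ∀ δ', 0 < δ' → δ' ≤ d →
      ∫ o in {o | s < w (C.pt o) ∧ w (C.pt o) < s + δ'},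
        sL (a i) ((a i + Real.pi / 2) / δ' * (w (C.pt o) - s)) * ((a i + Real.pi / 2) / δ') *
          ((O i).indicator (fun _ => (1 : ℝ)) (C.pt o) * gn C w o) ∂C.μ
        ≤ ℓ i * (∫ r in (0 : ℝ)..(a i + Real.pi / 2), sL (a i) r) + ζ' / N) := by
    intro i
    by_cases hi : i ∈ J
    · exact ⟨1, one_pos, fun h => absurd hi h⟩
    · have mind : AEMeasurable (fun o => (O i).indicator (fun _ => (1 : ℝ)) (C.pt o)) C.μ := by
        have h1 := (aemeasurable_const (b := (1 : ℝ)) (μ := C.μ)).indicator₀ (null_open C (hO i))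
        refine h1.congr (Eventually.of_forall fun o => ?_)
        simp only [indicator, Set.mem_ofPred_eq]
      have bind : ∀ o, 0 ≤ (O i).indicator (fun _ => (1 : ℝ)) (C.pt o) ∧
          (O i).indicator (fun _ => (1 : ℝ)) (C.pt o) ≤ 1 := by
        intro o
        simp only [indicator]
        split_ifs <;> norm_num
      have hg : Integrable (fun o => (O i).indicator (fun _ => (1 : ℝ)) (C.pt o) * gn C w o) C.μ := by
        refine hgw.bdd_mul (c := 1) mind.aestronglyMeasurable ?_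
        refine Eventually.of_forall fun o => ?_
        rw [Real.norm_eq_abs, abs_of_nonneg (bind o).1]
        exact (bind o).2
      have hg0 : ∀ᵐ o ∂C.μ, 0 ≤ (O i).indicator (fun _ => (1 : ℝ)) (C.pt o) * gn C w o :=
        Eventually.of_forall fun o => mul_nonneg (bind o).1 (gn_nonneg C w o)
      have hR : 0 < a i + Real.pi / 2 := by linarith [ha0 i]
      obtain ⟨d, hd0, hd⟩ := area_limit mw hg hg0 hR (hℓ i hi) (sL_anti (ha0 i)) (sL_nonneg (ha0 i))
        (η := ζ' / N) (by positivity)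
      exact ⟨d, hd0, fun _ => hd⟩
  choose d hd0 hd1 using hA
  obtain ⟨d', hd'0, hd'⟩ := collar_small mw s hζp
  -- the width
  obtain ⟨δ', g1, g2, g3, g4⟩ : ∃ δ' : ℝ, 0 < δ' ∧ δ' ≤ d' ∧ s + δ' < W0 ∧ ∀ i, δ' ≤ d i := by
    rcases isEmpty_or_nonempty ι with hι | hι
    · refine ⟨min d' ((W0 - s) / 2), lt_min hd'0 (by linarith), min_le_left _ _, ?_, fun i => (hι.false i).elim⟩
      have := min_le_right d' ((W0 - s) / 2)
      linarith
    · have h1 : 0 < Finset.univ.inf' Finset.univ_nonempty d := by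
        rw [Finset.lt_inf'_iff]
        exact fun i _ => hd0 i
      refine ⟨min (Finset.univ.inf' Finset.univ_nonempty d) (min d' ((W0 - s) / 2)),
        lt_min h1 (lt_min hd'0 (by linarith)), (min_le_right _ _).trans (min_le_left _ _), ?_, fun i => ?_⟩
      · have := (min_le_right (Finset.univ.inf' Finset.univ_nonempty d) (min d' ((W0 - s) / 2))).trans
          (min_le_right _ _)
        linarith
      · exact (min_le_left _ _).trans (Finset.inf'_le _ (Finset.mem_univ i))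
  have hc : ∀ i, 0 < (a i + Real.pi / 2) / δ' := fun i => by
    have := ha0 i
    positivity
  have hcd : ∀ i, (a i + Real.pi / 2) / δ' * δ' = a i + Real.pi / 2 := fun i =>
    div_mul_cancel₀ _ g1.ne'
  have hba : ∀ i ∉ J, b i < a i := fun i _ => by
    have := le_abs_self (b i)
    simp only [ha]
    linarith
  have key := surg57_area hγ C hmin hpt hv hw hw0 hwv hwγ hO hd hcov J hsf hsT hdel hdel0 hsγ ha0 hba hc hη Λ
    hψ hδ hδs g1 g3 hcd hζp
  -- the caps
  have hcap : ∑ i ∈ Jᶜ, ∫ o in {o | s < w (C.pt o) ∧ w (C.pt o) < s + δ'},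
          sL (a i) ((a i + Real.pi / 2) / δ' * (w (C.pt o) - s)) * ((a i + Real.pi / 2) / δ') *
            ((O i).indicator (fun _ => (1 : ℝ)) (C.pt o) * gn C w o) ∂C.μ
      ≤ ∑ i ∈ Jᶜ, 2 * b i / Real.pi * ℓ i + 2 * ζ' := by
    have h1 : ∀ i ∈ Jᶜ, ∫ o in {o | s < w (C.pt o) ∧ w (C.pt o) < s + δ'},
          sL (a i) ((a i + Real.pi / 2) / δ' * (w (C.pt o) - s)) * ((a i + Real.pi / 2) / δ') *
            ((O i).indicator (fun _ => (1 : ℝ)) (C.pt o) * gn C w o) ∂C.μ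
        ≤ 2 * b i / Real.pi * ℓ i + τ * |ℓ i| + ζ' / N := by
      intro i hi
      have hiJ : i ∉ J := Finset.mem_compl.1 hi
      have h2 := hd1 i hiJ δ' g1 (g4 i)
      rw [integral_sL (ha0 i) (by linarith)] at h2
      have h3 : a i = b i + τ := by
        simp only [ha]
        rw [abs_of_pos (hb i hiJ)]
      have h4 : ℓ i * (2 * a i / Real.pi) ≤ 2 * b i / Real.pi * ℓ i + τ * |ℓ i| := by
        rw [h3]
        have e : ℓ i * (2 * (b i + τ) / Real.pi) = 2 * b i / Real.pi * ℓ i + 2 / Real.pi * (τ * ℓ i) := by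
          ring
        rw [e]
        have h5 : τ * ℓ i ≤ τ * |ℓ i| := mul_le_mul_of_nonneg_left (le_abs_self _) hτ0.le
        have h6 : 0 ≤ τ * |ℓ i| := by positivity
        have h7 : 2 / Real.pi ≤ 1 := (div_le_one hpi).2 (by linarith [Real.pi_gt_three])
        have h8 : 0 ≤ 2 / Real.pi := by positivity
        have h9 : 2 / Real.pi * (τ * ℓ i) ≤ 2 / Real.pi * (τ * |ℓ i|) := mul_le_mul_of_nonneg_left h5 h8
        nlinarith
      linarith
    refine (Finset.sum_le_sum h1).trans ?_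
    rw [Finset.sum_add_distrib, Finset.sum_add_distrib, ← Finset.mul_sum, Finset.sum_const, nsmul_eq_mul]
    have h10 : (Finset.card (Jᶜ) : ℝ) * (ζ' / N) ≤ ζ' := by
      have e : (Finset.card (Jᶜ) : ℝ) * (ζ' / N) = ζ' * ((Finset.card (Jᶜ) : ℝ) / N) := by ring
      rw [e]
      have h4 : (Finset.card (Jᶜ) : ℝ) / N ≤ 1 := (div_le_one hN0).2 (by rw [hN]; linarith)
      nlinarith
    linarith
  have hcol := hd' δ' g1 g2
  linarith

end Pool.Agent.FPM
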