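import Mathlib
import Pool.Agent.FPM.I57D0
import Pool.Agent.FPM.SU3

/-
FPM/I57P (helper30): the potentials of the isoperimetric inequality ISO57 (helper57), several charts.
`uJ γ J e e' η t0 = max (phiT t0) (rhoT (e i) (e' i) t0 - η)`, maximum over the charts `i ∈ J` with
`t0 ∈ [e i, e' i]`. Everything follows from triangle inequalities and the fact that the curve is an
isometry on arcs of length at most `π`.
-/

set_option autoImplicit false

open Set Filter Topology MeasureTheory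
open scoped NNReal

noncomputable section

namespace Pool.Agent.FPM

open Pool.Agent.EWD

variable {M : Type} [MetricSpace M] {γ : ℝ → M}

/-! ### elementary facts -/

theorem lip1_of {X : Type} [PseudoMetricSpace X] {f : X → ℝ} (h : ∀ x y, f x - f y ≤ dist x y) :
    LipschitzWith 1 f := by
  refine LipschitzWith.of_dist_le_mul fun x y => ?_
  rw [Real.dist_eq, NNReal.coe_one, one_mul, abs_le]
  have h1 := h x y
  have h2 := h y x
  rw [dist_comm] at h2
  constructor <;> linarith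

theorem lip1_le {X : Type} [PseudoMetricSpace X] {f : X → ℝ} (h : LipschitzWith 1 f) (x y : X) :
    |f x - f y| ≤ dist x y := by
  have := h.dist_le_mul x y
  rwa [Real.dist_eq, NNReal.coe_one, one_mul] at this

private theorem dtri (x y z : M) : dist x z - dist y z ≤ dist x y := by
  have := dist_triangle x y z
  linarith

theorem sE_lip (e1 e2 : ℝ) : LipschitzWith 1 (sE γ e1 e2) := by
  refine lip1_of fun x y => ?_
  have h1 := dtri x y (γ e1)
  have h2 := dtri y x (γ e2)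
  rw [dist_comm y x] at h2
  unfold sE
  linarith

theorem dE_lip (e1 e2 : ℝ) : LipschitzWith 1 (dE γ e1 e2) := by
  refine lip1_of fun x y => ?_
  have h1 := dtri x y (γ e1)
  have h2 := dtri x y (γ e2)
  unfold dE
  linarith

theorem gam_dist_le (hγ : Bd γ) (s t : ℝ) : dist (γ s) (γ t) ≤ |s - t| := by
  have := hγ.lip.dist_le_mul s t
  simpa [Real.dist_eq] using this

theorem sE_nonneg (hγ : Bd γ) {e1 e2 : ℝ} (h : e1 ≤ e2) (x : M) : 0 ≤ sE γ e1 e2 x := by
  have h1 := dist_triangle x (γ e1) (γ e2)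
  have h2 := gam_dist_le hγ e1 e2
  rw [abs_sub_comm, abs_of_nonneg (by linarith)] at h2
  unfold sE
  linarith

theorem sE_le (hγ : Bd γ) {e1 e2 : ℝ} (h : e1 ≤ e2) (x : M) : sE γ e1 e2 x ≤ e2 - e1 := by
  have h1 := dist_triangle x (γ e2) (γ e1)
  have h2 := gam_dist_le hγ e2 e1
  rw [abs_of_nonneg (by linarith)] at h2
  unfold sE
  linarith

theorem dE_nonneg (hγ : Bd γ) {e1 e2 : ℝ} (h : e1 ≤ e2) (h2 : e2 ≤ e1 + Real.pi) (x : M) :
    0 ≤ dE γ e1 e2 x := by
  have h1 := dist_triangle_left (γ e1) (γ e2) x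
  rw [bd_dist hγ h h2] at h1
  unfold dE
  linarith

/-- the position of a point of the arc -/
theorem sE_gam (hγ : Bd γ) {e1 e2 r : ℝ} (h1 : e1 ≤ r) (h2 : r ≤ e2) (h3 : e2 ≤ e1 + Real.pi) :
    sE γ e1 e2 (γ r) = r - e1 := by
  have k1 := bd_dist hγ h1 (by linarith)
  have k2 := bd_dist hγ h2 (by linarith)
  rw [dist_comm] at k1
  unfold sE
  rw [k1, k2]
  ring

theorem dE_gam (hγ : Bd γ) {e1 e2 r : ℝ} (h1 : e1 ≤ r) (h2 : r ≤ e2) (h3 : e2 ≤ e1 + Real.pi) :
    dE γ e1 e2 (γ r) = 0 := by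
  have k1 := bd_dist hγ h1 (by linarith)
  have k2 := bd_dist hγ h2 (by linarith)
  rw [dist_comm] at k1
  unfold dE
  rw [k1, k2]
  ring

theorem dist_e1 (e1 e2 : ℝ) (x : M) : dist x (γ e1) = sE γ e1 e2 x + dE γ e1 e2 x := by
  unfold sE dE
  ring

theorem dist_e2 (e1 e2 : ℝ) (x : M) :
    dist x (γ e2) = dE γ e1 e2 x - sE γ e1 e2 x + (e2 - e1) := by
  unfold sE dE
  ring

/-- (B1): lower bound for the distance from a point of the curve before the end of the arc -/
theorem dist_lo (hγ : Bd γ) {e1 e2 r : ℝ} (h1 : r ≤ e2) (h2 : e2 ≤ r + Real.pi) (x : M) :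
    e1 + sE γ e1 e2 x - r - dE γ e1 e2 x ≤ dist x (γ r) := by
  have k1 := dist_triangle_left (γ r) (γ e2) x
  rw [bd_dist hγ h1 h2, dist_e2 e1 e2] at k1
  linarith

/-- (B1): lower bound for the distance from a point of the curve after the beginning of the arc -/
theorem dist_hi (hγ : Bd γ) {e1 e2 r : ℝ} (h1 : e1 ≤ r) (h2 : r ≤ e1 + Real.pi) (x : M) :
    r - (e1 + sE γ e1 e2 x) - dE γ e1 e2 x ≤ dist x (γ r) := by
  have k1 := dist_triangle_left (γ e1) (γ r) x
  rw [bd_dist hγ h1 h2, dist_e1 e1 e2] at k1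
  linarith

theorem phiT_lip (t : ℝ) : LipschitzWith 1 (phiT γ t) := by
  refine lip1_of fun x y => ?_
  have h1 := dtri y x (γ t)
  rw [dist_comm y x] at h1
  unfold phiT
  rcases le_total (Real.pi / 2 - dist x (γ t)) (-(Real.pi / 2)) with h | h
  · rw [max_eq_left h]
    have := le_max_left (-(Real.pi / 2)) (Real.pi / 2 - dist y (γ t))
    have := dist_nonneg (x := x) (y := y)
    linarith
  · rw [max_eq_right h]
    have := le_max_right (-(Real.pi / 2)) (Real.pi / 2 - dist y (γ t))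
    linarith

theorem rhoT_lip (e1 e2 t : ℝ) : LipschitzWith 1 (rhoT γ e1 e2 t) := by
  refine lip1_of fun x y => ?_
  have h1 := dtri y x (γ e1)
  have h2 := dtri y x (γ e2)
  rw [dist_comm y x] at h1 h2
  unfold rhoT
  have : max (dist y (γ e1) - (t - e1)) (dist y (γ e2) - (e2 - t)) ≤
      max (dist x (γ e1) - (t - e1)) (dist x (γ e2) - (e2 - t)) + dist x y := by
    refine max_le ?_ ?_
    · have := le_max_left (dist x (γ e1) - (t - e1)) (dist x (γ e2) - (e2 - t))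
      linarith
    · have := le_max_right (dist x (γ e1) - (t - e1)) (dist x (γ e2) - (e2 - t))
      linarith
  linarith

theorem phiT_abs (t : ℝ) (x : M) : |phiT γ t x| ≤ Real.pi / 2 := by
  have hpi := Real.pi_pos
  rw [abs_le]
  refine ⟨le_max_left _ _, max_le (by linarith) ?_⟩
  have := dist_nonneg (x := x) (y := γ t)
  linarith

theorem phiT_ge (t : ℝ) (x : M) : Real.pi / 2 - dist x (γ t) ≤ phiT γ t x := le_max_right _ _

/-- the exact formula for the potential of the arc -/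
theorem rhoT_eq (e1 e2 t : ℝ) (x : M) :
    rhoT γ e1 e2 t x = Real.pi / 2 - |e1 + sE γ e1 e2 x - t| - dE γ e1 e2 x := by
  unfold rhoT
  rw [dist_e1 e1 e2, dist_e2 e1 e2]
  set s := sE γ e1 e2 x
  set d := dE γ e1 e2 x
  rcases le_total t (e1 + s) with h | h
  · rw [abs_of_nonneg (by linarith), max_eq_left (by linarith)]
    ring
  · rw [abs_of_nonpos (by linarith), max_eq_right (by linarith)]
    ring

/-- near the curve outside the opposite arc the potential of the arc is smaller -/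
theorem rhoT_gam (hγ : Bd γ) {e1 e2 t r : ℝ} (ht1 : e1 ≤ t) (ht2 : t ≤ e2)
    (h1 : e2 - Real.pi ≤ r) (h2 : r ≤ e1 + Real.pi) : rhoT γ e1 e2 t (γ r) ≤ phiT γ t (γ r) := by
  refine le_trans ?_ (phiT_ge t (γ r))
  unfold rhoT
  rcases le_total r t with h | h
  · have k1 := bd_dist hγ h (by linarith)
    have k2 := bd_dist hγ (h.trans ht2) (by linarith)
    have k3 := le_max_right (dist (γ r) (γ e1) - (t - e1)) (dist (γ r) (γ e2) - (e2 - t))
    rw [k1]
    rw [k2] at k3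
    rw [k2]
    linarith
  · have k1 := bd_dist hγ h (by linarith)
    have k2 := bd_dist hγ (ht1.trans h) (by linarith)
    rw [dist_comm] at k1 k2
    have k3 := le_max_left (dist (γ r) (γ e1) - (t - e1)) (dist (γ r) (γ e2) - (e2 - t))
    rw [k1]
    rw [k2] at k3
    rw [k2]
    linarith

theorem rhoT_near (hγ : Bd γ) {e1 e2 t η r : ℝ} (ht1 : e1 ≤ t) (ht2 : t ≤ e2)
    (h1 : e2 - Real.pi ≤ r) (h2 : r ≤ e1 + Real.pi) {x : M} (hx : dist x (γ r) ≤ η / 2) :
    rhoT γ e1 e2 t x - η ≤ phiT γ t x := by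
  have k1 := rhoT_gam hγ ht1 ht2 h1 h2
  have k4 := (abs_le.mp (lip1_le (rhoT_lip (γ := γ) e1 e2 t) x (γ r))).2
  have k5 := (abs_le.mp (lip1_le (phiT_lip (γ := γ) t) x (γ r))).1
  linarith

/-- the window of the potential of the arc -/
theorem rhoT_anti (hγ : Bd γ) (e1 e2 t : ℝ) (x : M) : rhoT γ e1 e2 t x ≤ -(Real.pi / 2)
    + (dist x (γ (e1 + Real.pi)) + dist x (γ (e2 + Real.pi)) + (e2 - e1)) / 2 := by
  have h1 := le_max_left (dist x (γ e1) - (t - e1)) (dist x (γ e2) - (e2 - t))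
  have h2 := le_max_right (dist x (γ e1) - (t - e1)) (dist x (γ e2) - (e2 - t))
  have h3 := hγ.anti e1
  have h4 := hγ.anti e2
  have h5 := dist_triangle_left (γ e1) (γ (e1 + Real.pi)) x
  have h6 := dist_triangle_left (γ e2) (γ (e2 + Real.pi)) x
  unfold rhoT
  linarith

theorem phiT_anti (hγ : Bd γ) (t : ℝ) (x : M) :
    phiT γ t x ≤ -(Real.pi / 2) + dist x (γ (t + Real.pi)) := by
  refine max_le (by linarith [dist_nonneg (x := x) (y := γ (t + Real.pi))]) ?_
  have h3 := hγ.anti t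
  have h5 := dist_triangle_left (γ t) (γ (t + Real.pi)) x
  linarith

/-- item (7) -/
theorem dist_mid (hγ : Bd γ) {e1 e2 t : ℝ} (ht1 : e1 ≤ t) (ht2 : t ≤ e2) (x : M) :
    dist x (γ (t + Real.pi)) ≤
      (dist x (γ (e1 + Real.pi)) + dist x (γ (e2 + Real.pi)) + (e2 - e1)) / 2 := by
  have h1 := dist_triangle x (γ (e1 + Real.pi)) (γ (t + Real.pi))
  have h2 := dist_triangle x (γ (e2 + Real.pi)) (γ (t + Real.pi))
  have h3 := gam_dist_le hγ (e1 + Real.pi) (t + Real.pi)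
  have h4 := gam_dist_le hγ (e2 + Real.pi) (t + Real.pi)
  rw [abs_sub_comm, abs_of_nonneg (by linarith)] at h3
  rw [abs_of_nonneg (by linarith)] at h4
  linarith

/-- item (5) -/
theorem phiT_curve (hγ : Bd γ) (t0 s : ℝ) : phiT γ t0 (γ s) = pot γ t0 (γ s) := by
  have hpi := Real.pi_pos
  -- move `s` to `[t0 - π, t0 + π)`
  obtain ⟨m, hm1, hm2⟩ : ∃ m : ℤ, t0 - Real.pi ≤ s + m * (2 * Real.pi) ∧
      s + m * (2 * Real.pi) ≤ t0 + Real.pi := by
    have h := existsUnique_add_zsmul_mem_Ico (a := 2 * Real.pi) Real.two_pi_pos s (t0 - Real.pi)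
    obtain ⟨m, hm, -⟩ := h
    refine ⟨m, ?_⟩
    rw [zsmul_eq_mul] at hm
    exact ⟨hm.1, by linarith [hm.2]⟩
  rw [← bd_per_int hγ s m]
  set r := s + m * (2 * Real.pi)
  unfold phiT pot
  rcases le_total r t0 with h | h
  · have k1 := bd_dist hγ h (by linarith)
    have k2 : dist (γ r) (γ (t0 + Real.pi)) = Real.pi - (t0 - r) := by
      have e : γ (t0 + Real.pi) = γ (t0 - Real.pi) := by
        rw [← hγ.per (t0 - Real.pi)]
        congr 1
        ring
      rw [e, dist_comm, bd_dist hγ hm1 (by linarith)]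
      ring
    rw [k1, k2, max_eq_right (by linarith), sC_eq (by linarith) (by linarith)]
    ring
  · have k1 := bd_dist hγ h (by linarith)
    rw [dist_comm] at k1
    have k2 := bd_dist hγ hm2 (by linarith)
    rw [k1, k2, max_eq_right (by linarith), sC_eq (by linarith) (by linarith)]
    ring

/-! ### several charts -/

variable {ι : Type}

/-- the potential -/
def uJ (γ : ℝ → M) (J : Finset ι) (e e' : ι → ℝ) (η t0 : ℝ) (x : M) : ℝ :=
  (J.filter fun i => e i ≤ t0 ∧ t0 ≤ e' i).fold max (phiT γ t0 x)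
    (fun i => rhoT γ (e i) (e' i) t0 x - η)

variable {J : Finset ι} {e e' : ι → ℝ} {η t0 : ℝ}

theorem uJ_le {x : M} {c : ℝ} (h1 : phiT γ t0 x ≤ c)
    (h2 : ∀ i ∈ J, e i ≤ t0 → t0 ≤ e' i → rhoT γ (e i) (e' i) t0 x - η ≤ c) :
    uJ γ J e e' η t0 x ≤ c := by
  unfold uJ
  rw [Finset.fold_max_le]
  refine ⟨h1, fun i hi => ?_⟩
  rw [Finset.mem_filter] at hi
  exact h2 i hi.1 hi.2.1 hi.2.2

theorem phi_le_uJ (x : M) : phiT γ t0 x ≤ uJ γ J e e' η t0 x := by
  unfold uJ
  rw [Finset.le_fold_max]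
  exact Or.inl le_rfl

theorem rho_le_uJ {i : ι} (hi : i ∈ J) (h1 : e i ≤ t0) (h2 : t0 ≤ e' i) (x : M) :
    rhoT γ (e i) (e' i) t0 x - η ≤ uJ γ J e e' η t0 x := by
  unfold uJ
  rw [Finset.le_fold_max]
  exact Or.inr ⟨i, Finset.mem_filter.mpr ⟨hi, h1, h2⟩, le_rfl⟩

/-- item (1) -/
theorem uJ_lip : LipschitzWith 1 (uJ γ J e e' η t0) := by
  refine lip1_of fun x y => ?_
  have : uJ γ J e e' η t0 x ≤ uJ γ J e e' η t0 y + dist x y := by
    refine uJ_le ?_ fun i hi h1 h2 => ?_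
    · have k1 := (abs_le.mp (lip1_le (phiT_lip (γ := γ) t0) x y)).2
      have k2 := phi_le_uJ (γ := γ) (J := J) (e := e) (e' := e') (η := η) (t0 := t0) y
      linarith
    · have k1 := (abs_le.mp (lip1_le (rhoT_lip (γ := γ) (e i) (e' i) t0) x y)).2
      have k2 := rho_le_uJ (γ := γ) (η := η) hi h1 h2 y
      linarith
  linarith

variable {T : ℝ}

/-- item (1) -/
theorem uJ_abs (hγ : Bd γ) (hJ : ∀ i ∈ J, T ≤ e i ∧ e i ≤ e' i ∧ e' i ≤ T + Real.pi) (hη : 0 ≤ η)
    (x : M) : |uJ γ J e e' η t0 x| ≤ Real.pi / 2 := by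
  have hp := abs_le.mp (phiT_abs (γ := γ) t0 x)
  rw [abs_le]
  refine ⟨hp.1.trans (phi_le_uJ x), uJ_le hp.2 fun i hi _ _ => ?_⟩
  obtain ⟨a1, a2, a3⟩ := hJ i hi
  rw [rhoT_eq]
  have := dE_nonneg hγ a2 (by linarith) x
  have := abs_nonneg (e i + sE γ (e i) (e' i) x - t0)
  linarith

/-- item (2) -/
theorem uJ_chart (hγ : Bd γ) (hJ : ∀ i ∈ J, T ≤ e i ∧ e i ≤ e' i ∧ e' i ≤ T + Real.pi)
    (hη : 0 ≤ η) (h0 : T ≤ t0) (h1 : t0 ≤ T + Real.pi) {i : ι} (hi : i ∈ J) (x : M) :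
    |uJ γ J e e' η t0 x - (Real.pi / 2 - |e i + sE γ (e i) (e' i) x - t0|)| ≤
      dE γ (e i) (e' i) x + η := by
  obtain ⟨a1, a2, a3⟩ := hJ i hi
  have hpi := Real.pi_pos
  have k1 := sE_nonneg hγ a2 x
  have k2 := sE_le hγ a2 x
  have k3 := dE_nonneg hγ a2 (by linarith) x
  set s := sE γ (e i) (e' i) x with hs
  set d := dE γ (e i) (e' i) x with hd
  have habs : |e i + s - t0| ≤ Real.pi := by
    rw [abs_le]
    constructor <;> linarith
  have dlo : ∀ r : ℝ, T ≤ r → r ≤ e' i → e i + s - r - d ≤ dist x (γ r) := fun r q1 q2 =>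
    dist_lo hγ q2 (by linarith) x
  have dhi : ∀ r : ℝ, e i ≤ r → r ≤ T + Real.pi → r - (e i + s) - d ≤ dist x (γ r) := fun r q1 q2 =>
    dist_hi hγ q1 (by linarith) x
  rw [abs_le]
  constructor
  · -- lower bound
    rcases le_total t0 (e i) with c1 | c1
    · have b1 := phiT_ge (γ := γ) t0 x
      have b2 := phi_le_uJ (γ := γ) (J := J) (e := e) (e' := e') (η := η) (t0 := t0) x
      have b3 := dist_triangle x (γ (e i)) (γ t0)
      have b4 := gam_dist_le hγ (e i) t0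
      rw [abs_of_nonneg (by linarith)] at b4
      rw [dist_e1 (e i) (e' i), ← hs, ← hd] at b3
      rw [abs_of_nonneg (by linarith)]
      linarith
    rcases le_total t0 (e' i) with c2 | c2
    · have b1 := rho_le_uJ (γ := γ) (η := η) hi c1 c2 x
      rw [rhoT_eq, ← hs, ← hd] at b1
      linarith
    · have b1 := phiT_ge (γ := γ) t0 x
      have b2 := phi_le_uJ (γ := γ) (J := J) (e := e) (e' := e') (η := η) (t0 := t0) x
      have b3 := dist_triangle x (γ (e' i)) (γ t0)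
      have b4 := gam_dist_le hγ (e' i) t0
      rw [abs_sub_comm, abs_of_nonneg (by linarith)] at b4
      rw [dist_e2 (e i) (e' i), ← hs, ← hd] at b3
      rw [abs_of_nonpos (by linarith)]
      linarith
  · -- upper bound
    have key : ∀ r : ℝ, T ≤ r → r ≤ T + Real.pi → |e i + s - r| - d ≤ dist x (γ r) ∨
        |e i + s - r| ≤ 0 := by
      intro r q1 q2
      rcases le_total r (e i + s) with c | c
      · left
        rw [abs_of_nonneg (by linarith)]
        exact dlo r q1 (by linarith)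
      · left
        rw [abs_of_nonpos (by linarith)]
        have := dhi r (by linarith) q2
        linarith
    have hup : uJ γ J e e' η t0 x ≤ Real.pi / 2 - |e i + s - t0| + d := by
      refine uJ_le ?_ fun j hj b1 b2 => ?_
      · refine max_le (by linarith) ?_
        rcases key t0 h0 h1 with h | h
        · linarith
        · linarith [dist_nonneg (x := x) (y := γ t0)]
      · obtain ⟨c1, c2, c3⟩ := hJ j hj
        have m1 := le_max_left (dist x (γ (e j)) - (t0 - e j)) (dist x (γ (e' j)) - (e' j - t0))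
        have m2 := le_max_right (dist x (γ (e j)) - (t0 - e j)) (dist x (γ (e' j)) - (e' j - t0))
        unfold rhoT
        rcases le_total t0 (e i + s) with c | c
        · rw [abs_of_nonneg (by linarith)]
          have := dlo (e j) c1 (by linarith)
          linarith
        · rw [abs_of_nonpos (by linarith)]
          have := dhi (e' j) (by linarith) c3
          linarith
    linarith

/-- item (3) -/
theorem uJ_near (hγ : Bd γ) (hJ : ∀ i ∈ J, T ≤ e i ∧ e i ≤ e' i ∧ e' i ≤ T + Real.pi)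
    (hη : 0 ≤ η) {s : ℝ} (hs : ∀ i ∈ J, e i ≤ t0 → t0 ≤ e' i → ∀ m : ℤ,
      s + m * (2 * Real.pi) ∉ Ioo (e i + Real.pi) (e' i + Real.pi)) {x : M}
    (hx : dist x (γ s) ≤ η / 2) : uJ γ J e e' η t0 x = phiT γ t0 x := by
  have _ := hη
  refine le_antisymm (uJ_le le_rfl fun i hi h1 h2 => ?_) (phi_le_uJ x)
  obtain ⟨a1, a2, a3⟩ := hJ i hi
  obtain ⟨m, hm1, hm2⟩ : ∃ m : ℤ, e' i - Real.pi ≤ s + m * (2 * Real.pi) ∧
      s + m * (2 * Real.pi) < e' i + Real.pi := by
    have h := existsUnique_add_zsmul_mem_Ico (a := 2 * Real.pi) Real.two_pi_pos s (e' i - Real.pi)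
    obtain ⟨m, hm, -⟩ := h
    refine ⟨m, ?_⟩
    rw [zsmul_eq_mul] at hm
    exact ⟨hm.1, by linarith [hm.2]⟩
  have h3 : s + m * (2 * Real.pi) ≤ e i + Real.pi := by
    by_contra hc
    exact hs i hi h1 h2 m ⟨not_le.mp hc, hm2⟩
  rw [← bd_per_int hγ s m] at hx
  exact rhoT_near hγ h1 h2 hm1 h3 hx

/-- item (4) -/
theorem uJ_window (hγ : Bd γ) (_hJ : ∀ i ∈ J, T ≤ e i ∧ e i ≤ e' i ∧ e' i ≤ T + Real.pi)
    (hη : 0 ≤ η) {x : M} {R : ℝ} (hR : 0 ≤ R) (h : ∀ i ∈ J, e i ≤ t0 → t0 ≤ e' i →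
      (dist x (γ (e i + Real.pi)) + dist x (γ (e' i + Real.pi)) + (e' i - e i)) / 2 ≤ R)
    (h' : dist x (γ (t0 + Real.pi)) ≤ R) : uJ γ J e e' η t0 x ≤ -(Real.pi / 2) + R := by
  have _ := hR
  refine uJ_le ?_ fun i hi h1 h2 => ?_
  · have := phiT_anti hγ t0 x
    linarith
  · have k1 := rhoT_anti hγ (e i) (e' i) t0 x
    have k2 := h i hi h1 h2
    linarith

/-- item (6) -/
theorem uJ_cut (hγ : Bd γ) (hJ : ∀ i ∈ J, T ≤ e i ∧ e i ≤ e' i ∧ e' i ≤ T + Real.pi) (hη : 0 ≤ η)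
    {ζ : M → ℝ} (z0 : ∀ x, 0 ≤ ζ x) (z1 : ∀ x, ζ x ≤ 1) {L : ℝ≥0} (hζ : LipschitzWith L ζ) :
    LipschitzWith (3 + 4 * L) fun x => phiT γ t0 x + (1 - ζ x) *
      (uJ γ J e e' η t0 x - phiT γ t0 x) := by
  have hpi := Real.pi_pos
  have hpi4 : Real.pi ≤ 4 := Real.pi_le_four
  have hL : (0 : ℝ) ≤ L := L.2
  refine LipschitzWith.of_dist_le_mul fun x y => ?_
  rw [Real.dist_eq]
  have a1 := abs_le.mp (lip1_le (uJ_lip (γ := γ) (J := J) (e := e) (e' := e') (η := η) (t0 := t0)) x y)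
  have a2 := abs_le.mp (lip1_le (phiT_lip (γ := γ) t0) x y)
  have a3 := hζ.dist_le_mul x y
  rw [Real.dist_eq] at a3
  have b1 := abs_le.mp (uJ_abs (t0 := t0) hγ hJ hη y)
  have b2 := abs_le.mp (phiT_abs (γ := γ) t0 y)
  set D := dist x y
  have hD : 0 ≤ D := dist_nonneg
  set a := uJ γ J e e' η t0 x
  set b := uJ γ J e e' η t0 y
  set p := phiT γ t0 x
  set q := phiT γ t0 y
  have c1 : |(a - p) - (b - q)| ≤ 2 * D := by
    rw [abs_le]
    constructor <;> linarith
  have c2 : |b - q| ≤ 4 := by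
    rw [abs_le]
    constructor <;> linarith
  have e0 : p + (1 - ζ x) * (a - p) - (q + (1 - ζ y) * (b - q)) =
      (p - q) + (1 - ζ x) * ((a - p) - (b - q)) - (ζ x - ζ y) * (b - q) := by ring
  have h1 : |1 - ζ x| ≤ 1 := by
    rw [abs_le]
    constructor <;> linarith [z0 x, z1 x]
  have c3 : |(1 - ζ x) * ((a - p) - (b - q))| ≤ 2 * D := by
    rw [abs_mul]
    have := mul_le_mul h1 c1 (abs_nonneg _) zero_le_one
    linarith
  have c4 : |(ζ x - ζ y) * (b - q)| ≤ L * D * 4 := by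
    rw [abs_mul]
    exact mul_le_mul a3 c2 (abs_nonneg _) (by positivity)
  have c5 : |p - q| ≤ D := abs_le.mpr a2
  rw [e0]
  have h2 := abs_sub (p - q + (1 - ζ x) * ((a - p) - (b - q))) ((ζ x - ζ y) * (b - q))
  have h3 := abs_add_le (p - q) ((1 - ζ x) * ((a - p) - (b - q)))
  push_cast
  nlinarith

end Pool.Agent.FPM
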