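import Mathlib
import Pool.Agent.FPM.I57P

/-
I57G (helper57): the geometry of the strips of the surgery along arcs of the curve. `psiD` is the
function that is `1` away from the uncovered part of the curve and `-1` near it; the cut-off family
of potentials is equal to `uJ` off the strips.
-/

open MeasureTheory Set Filter Topology
open scoped ENNReal NNReal

noncomputable section

namespace Pool.Agent.FPM

open Pool.Agent.EWD

variable {M : Type} [MetricSpace M] {γ : ℝ → M} {ι : Type}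

/-- the parameters of the open strips -/
def stB (J : Finset ι) (e e' : ι → ℝ) : Set ℝ :=
  {s | ∃ i ∈ J, ∃ m : ℤ, s + m * (2 * Real.pi) ∈ Ioo (e i + Real.pi) (e' i + Real.pi)}

theorem notMem_stB {T : ℝ} {J : Finset ι} {e e' : ι → ℝ}
    (hJ : ∀ i ∈ J, T ≤ e i ∧ e i ≤ e' i ∧ e' i ≤ T + Real.pi) : T ∉ stB J e e' := by
  rintro ⟨i, hi, m, h1, h2⟩
  have hp := Real.pi_pos
  obtain ⟨h3, h4, h5⟩ := hJ i hi
  have h6 : Real.pi < m * (2 * Real.pi) := by linarith
  have h7 : (m : ℝ) * (2 * Real.pi) < 2 * Real.pi := by linarith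
  have h8 : (0 : ℝ) < m := by
    by_contra h
    have : (m : ℝ) * (2 * Real.pi) ≤ 0 := mul_nonpos_of_nonpos_of_nonneg (not_lt.1 h) (by positivity)
    linarith
  have h9 : (m : ℝ) < 1 := by
    by_contra h
    have : 1 * (2 * Real.pi) ≤ (m : ℝ) * (2 * Real.pi) :=
      mul_le_mul_of_nonneg_right (not_lt.1 h) (by positivity)
    linarith
  have h10 : (0 : ℤ) < m := by exact_mod_cast h8
  have h11 : m < (1 : ℤ) := by exact_mod_cast h9
  omega

/-- distance to the part of the curve outside the strips -/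
def dJ (γ : ℝ → M) (J : Finset ι) (e e' : ι → ℝ) (x : M) : ℝ := Metric.infDist x (γ '' (stB J e e')ᶜ)

theorem dJ_lip (J : Finset ι) (e e' : ι → ℝ) : LipschitzWith 1 (dJ γ J e e') := Metric.lipschitz_infDist_pt _

theorem dJ_near {T : ℝ} {J : Finset ι} {e e' : ι → ℝ}
    (hJ : ∀ i ∈ J, T ≤ e i ∧ e i ≤ e' i ∧ e' i ≤ T + Real.pi) {x : M} {r : ℝ} (h : dJ γ J e e' x < r) :
    ∃ s, s ∉ stB J e e' ∧ dist x (γ s) < r := by
  have hne : (γ '' (stB J e e')ᶜ).Nonempty := ⟨γ T, mem_image_of_mem γ (notMem_stB hJ)⟩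
  obtain ⟨y, ⟨s, hs, rfl⟩, hy⟩ := (Metric.infDist_lt_iff hne).1 h
  exact ⟨s, hs, hy⟩

theorem dJ_pos {J : Finset ι} {e e' : ι → ℝ} {s : ℝ} (h : 0 < dJ γ J e e' (γ s)) : s ∈ stB J e e' := by
  by_contra hs
  have : dJ γ J e e' (γ s) = 0 := Metric.infDist_zero_of_mem (mem_image_of_mem γ hs)
  linarith

/-- `-1` near the uncovered part of the curve, `1` away from it -/
def psiD (γ : ℝ → M) (J : Finset ι) (e e' : ι → ℝ) (η : ℝ) (x : M) : ℝ :=
  max (-1) (min 1 (8 / η * dJ γ J e e' x - 3))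

theorem psiD_mem (J : Finset ι) (e e' : ι → ℝ) (η : ℝ) (x : M) :
    -1 ≤ psiD γ J e e' η x ∧ psiD γ J e e' η x ≤ 1 :=
  ⟨le_max_left _ _, max_le (by norm_num) (min_le_left _ _)⟩

theorem psiD_lip (J : Finset ι) (e e' : ι → ℝ) {η : ℝ} (hη : 0 < η) : Lip (psiD γ J e e' η) := by
  have h1 : LipschitzWith (8 / η).toNNReal fun x => 8 / η * dJ γ J e e' x - 3 := by
    refine LipschitzWith.of_dist_le_mul fun x y => ?_
    rw [Real.dist_eq, Real.coe_toNNReal _ (by positivity)]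
    have h2 := (dJ_lip (γ := γ) J e e').dist_le_mul x y
    rw [Real.dist_eq, NNReal.coe_one, one_mul] at h2
    have e1 : 8 / η * dJ γ J e e' x - 3 - (8 / η * dJ γ J e e' y - 3) =
        8 / η * (dJ γ J e e' x - dJ γ J e e' y) := by ring
    rw [e1, abs_mul, abs_of_pos (by positivity : 0 < 8 / η)]
    exact mul_le_mul_of_nonneg_left h2 (by positivity)
  exact ⟨_, (h1.const_min 1).const_max (-1)⟩

theorem psiD_nonneg {J : Finset ι} {e e' : ι → ℝ} {η : ℝ} (hη : 0 < η) {x : M}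
    (h : 0 ≤ psiD γ J e e' η x) : η * 3 / 8 ≤ dJ γ J e e' x := by
  unfold psiD at h
  have h1 : 0 ≤ 8 / η * dJ γ J e e' x - 3 := by
    by_contra hcon
    push Not at hcon
    have : max (-1 : ℝ) (min 1 (8 / η * dJ γ J e e' x - 3)) < 0 :=
      max_lt (by norm_num) (lt_of_le_of_lt (min_le_right _ _) hcon)
    linarith
  have h2 : 3 ≤ 8 / η * dJ γ J e e' x := by linarith
  rw [div_mul_eq_mul_div, le_div_iff₀ hη] at h2
  linarith

theorem psiD_one {J : Finset ι} {e e' : ι → ℝ} {η : ℝ} (hη : 0 < η) {x : M}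
    (h : η / 2 ≤ dJ γ J e e' x) : psiD γ J e e' η x = 1 := by
  unfold psiD
  have h2 : 4 ≤ 8 / η * dJ γ J e e' x := by
    rw [div_mul_eq_mul_div, le_div_iff₀ hη]
    linarith
  rw [min_eq_left (by linarith)]
  exact max_eq_right (by norm_num)

/-- the cut-off -/
def zC (b : M → ℝ) (k : ℝ) (x : M) : ℝ := max 0 (min 1 (2 - b x / k))

theorem zC_mem (b : M → ℝ) (k : ℝ) (x : M) : 0 ≤ zC b k x ∧ zC b k x ≤ 1 :=
  ⟨le_max_left _ _, max_le zero_le_one (min_le_left _ _)⟩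

theorem zC_one {b : M → ℝ} {k : ℝ} (hk : 0 < k) {x : M} (h : b x ≤ k) : zC b k x = 1 := by
  unfold zC
  have h1 : b x / k ≤ 1 := (div_le_one hk).2 h
  rw [min_eq_left (by linarith)]
  exact max_eq_right zero_le_one

theorem zC_zero {b : M → ℝ} {k : ℝ} (hk : 0 < k) {x : M} (h : 2 * k ≤ b x) : zC b k x = 0 := by
  unfold zC
  have h1 : 2 ≤ b x / k := by
    rw [le_div_iff₀ hk]
    exact h
  have h2 : min 1 (2 - b x / k) ≤ 0 := (min_le_right _ _).trans (by linarith)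
  exact max_eq_left h2

theorem zC_lip {b : M → ℝ} {Lb : ℝ≥0} (hb : LipschitzWith Lb b) {k : ℝ} (hk : 0 < k) :
    LipschitzWith (Lb / k.toNNReal) (zC b k) := by
  have h1 : LipschitzWith (Lb / k.toNNReal) fun x => 2 - b x / k := by
    refine LipschitzWith.of_dist_le_mul fun x y => ?_
    rw [Real.dist_eq, NNReal.coe_div, Real.coe_toNNReal _ hk.le]
    have h2 := hb.dist_le_mul x y
    rw [Real.dist_eq] at h2
    have e1 : 2 - b x / k - (2 - b y / k) = -((b x - b y) / k) := by ring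
    rw [e1, abs_neg, abs_div, abs_of_pos hk, div_mul_eq_mul_div]
    exact div_le_div_of_nonneg_right h2 hk.le
  exact (h1.const_min 1).const_max 0

variable [CompactSpace M]

/-- points near the curve, measured by `b` -/
theorem near_curve (hγ : Bd γ) {b : M → ℝ} (hb : Lip b) (hb0 : ∀ x, 0 ≤ b x)
    (hbr : ∀ x, b x = 0 → x ∈ range γ) {ρ : ℝ} (hρ : 0 < ρ) :
    ∃ ω : ℝ, 0 < ω ∧ ∀ x, b x ≤ ω → ∃ s, dist x (γ s) < ρ := by
  set F : Set M := {x | ρ ≤ Metric.infDist x (range γ)} with hF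
  have hFc : IsCompact F := (isClosed_le continuous_const (Metric.continuous_infDist_pt _)).isCompact
  rcases F.eq_empty_or_nonempty with hE | hE
  · refine ⟨1, one_pos, fun x _ => ?_⟩
    have h1 : x ∉ F := by
      rw [hE]
      exact notMem_empty x
    have h2 : Metric.infDist x (range γ) < ρ := not_le.1 h1
    obtain ⟨y, ⟨s, rfl⟩, hy⟩ := (Metric.infDist_lt_iff (range_nonempty γ)).1 h2
    exact ⟨s, hy⟩
  · obtain ⟨x0, hx0, hmin⟩ := hFc.exists_isMinOn hE hb.cont.continuousOn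
    have h0 : 0 < b x0 := by
      refine lt_of_le_of_ne (hb0 x0) fun h => ?_
      have h1 : Metric.infDist x0 (range γ) = 0 := Metric.infDist_zero_of_mem (hbr x0 h.symm)
      have h2 : ρ ≤ Metric.infDist x0 (range γ) := hx0
      linarith
    refine ⟨b x0 / 2, by positivity, fun x hx => ?_⟩
    have h1 : x ∉ F := by
      intro h
      have h3 : b x0 ≤ b x := hmin h
      linarith
    have h2 : Metric.infDist x (range γ) < ρ := not_le.1 h1
    obtain ⟨y, ⟨s, rfl⟩, hy⟩ := (Metric.infDist_lt_iff (range_nonempty γ)).1 h2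
    exact ⟨s, hy⟩

/-- the strips are inside the labels `k i` -/
theorem strip_in (hγ : Bd γ) {b : M → ℝ} (hb : Lip b) (hb0 : ∀ x, 0 ≤ b x)
    (hbr : ∀ x, b x = 0 → x ∈ range γ) {J : Finset ι} {e e' : ι → ℝ} {O : ι → Set M}
    (hO : ∀ i, IsOpen (O i)) {k : ι → ι}
    (hk : ∀ i ∈ J, γ '' Icc (e i + Real.pi) (e' i + Real.pi) ⊆ O (k i)) {η : ℝ} (hη : 0 < η) :
    ∃ ω : ℝ, 0 < ω ∧ ∀ x, b x ≤ ω → η * 3 / 8 ≤ dJ γ J e e' x → ∃ i ∈ J, x ∈ O (k i) := by
  set F : Set M := {x | η * 3 / 8 ≤ dJ γ J e e' x} ∩ (⋃ i ∈ J, O (k i))ᶜ with hF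
  have hFc : IsCompact F := by
    refine (IsClosed.inter (isClosed_le continuous_const (dJ_lip J e e').continuous) ?_).isCompact
    exact (isOpen_biUnion fun i _ => hO (k i)).isClosed_compl
  have key : ∀ x ∈ F, 0 < b x := by
    rintro x ⟨h1, h2⟩
    refine lt_of_le_of_ne (hb0 x) fun h => ?_
    obtain ⟨s, rfl⟩ := hbr x h.symm
    have h3 : η * 3 / 8 ≤ dJ γ J e e' (γ s) := h1
    obtain ⟨i, hi, m, hm⟩ := dJ_pos (lt_of_lt_of_le (by positivity) h3)
    apply h2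
    refine mem_iUnion₂.2 ⟨i, hi, hk i hi ?_⟩
    refine ⟨s + m * (2 * Real.pi), ⟨hm.1.le, hm.2.le⟩, ?_⟩
    exact bd_per_int hγ s m
  rcases F.eq_empty_or_nonempty with hE | hE
  · refine ⟨1, one_pos, fun x _ hx => ?_⟩
    by_contra hcon
    have h1 : x ∈ F := ⟨hx, fun h => hcon (by
      obtain ⟨i, hi, hxi⟩ := mem_iUnion₂.1 h
      exact ⟨i, hi, hxi⟩)⟩
    rw [hE] at h1
    exact h1
  · obtain ⟨x0, hx0, hmin⟩ := hFc.exists_isMinOn hE hb.cont.continuousOn
    have h0 := key x0 hx0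
    refine ⟨b x0 / 2, by positivity, fun x hbx hx => ?_⟩
    by_contra hcon
    have h1 : x ∈ F := ⟨hx, fun h => hcon (by
      obtain ⟨i, hi, hxi⟩ := mem_iUnion₂.1 h
      exact ⟨i, hi, hxi⟩)⟩
    have h3 : b x0 ≤ b x := hmin h1
    linarith

omit [CompactSpace M] in
/-- a neighbourhood of the closed strips -/
theorem strip_nbhd (hγ : Bd γ) {J : Finset ι} {e e' : ι → ℝ} {O : ι → Set M}
    (hO : ∀ i, IsOpen (O i)) {k : ι → ι}
    (hk : ∀ i ∈ J, γ '' Icc (e i + Real.pi) (e' i + Real.pi) ⊆ O (k i)) :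
    ∃ ρ : ℝ, 0 < ρ ∧ ∀ i ∈ J, ∀ s ∈ Icc (e i + Real.pi) (e' i + Real.pi), ∀ x, dist x (γ s) < ρ → x ∈ O (k i) := by
  classical
  induction J using Finset.induction_on with
  | empty => exact ⟨1, one_pos, fun i hi => absurd hi (Finset.notMem_empty i)⟩
  | insert i J hiJ ih =>
    obtain ⟨ρ1, hρ1, h1⟩ := ih fun j hj => hk j (Finset.mem_insert_of_mem hj)
    have hc : IsCompact (γ '' Icc (e i + Real.pi) (e' i + Real.pi)) :=
      isCompact_Icc.image hγ.lip.continuous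
    obtain ⟨ρ2, hρ2, h2⟩ := hc.exists_thickening_subset_open (hO (k i)) (hk i (Finset.mem_insert_self i J))
    refine ⟨min ρ1 ρ2, lt_min hρ1 hρ2, fun j hj s hs x hx => ?_⟩
    rcases Finset.mem_insert.1 hj with rfl | hj
    · apply h2
      rw [Metric.mem_thickening_iff]
      exact ⟨γ s, mem_image_of_mem γ hs, lt_of_lt_of_le hx (min_le_right _ _)⟩
    · exact h1 j hj s hs x (lt_of_lt_of_le hx (min_le_left _ _))

/-- the potentials of the surgery -/
theorem st_geo (hγ : Bd γ) {b : M → ℝ} (hb : Lip b) (hb0 : ∀ x, 0 ≤ b x) (hbγ : ∀ s, b (γ s) = 0)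
    (hbr : ∀ x, b x = 0 → x ∈ range γ) {T : ℝ} {J : Finset ι} {e e' : ι → ℝ}
    (hJ : ∀ i ∈ J, T ≤ e i ∧ e i ≤ e' i ∧ e' i ≤ T + Real.pi) {O : ι → Set M}
    (hO : ∀ i, IsOpen (O i)) (hd : ∀ i j, i ≠ j → Disjoint (O i) (O j)) {k : ι → ι} {r : ι → ℝ}
    (hk : ∀ i ∈ J, k i ∉ J ∧ γ '' Icc (e i + Real.pi) (e' i + Real.pi) ⊆ O (k i) ∧
      ∀ x ∈ O (k i), (dist x (γ (e i + Real.pi)) + dist x (γ (e' i + Real.pi)) + (e' i - e i)) / 2 ≤ r (k i))
    (hr : ∀ i, i ∉ J → 0 < r i ∧ ∀ x ∈ O i, ∀ y ∈ O i, dist x y ≤ r i) {η : ℝ} (hη : 0 < η) :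
    ∃ ω1 : ℝ, 0 < ω1 ∧ (∀ x, b x ≤ ω1 → 0 ≤ psiD γ J e e' η x → ∃ i ∈ J, x ∈ O (k i)) ∧
      ∀ κ : ℝ, 0 < κ → 2 * κ ≤ ω1 → ∃ Λ : ℝ≥0, ∀ t0 : ℝ, T ≤ t0 → t0 ≤ T + Real.pi →
        ∃ ψ : M → ℝ, LipschitzWith Λ ψ ∧ (∀ x, |ψ x| ≤ Real.pi / 2) ∧ (∀ s, ψ (γ s) = pot γ t0 (γ s)) ∧
          (∀ x, (psiD γ J e e' η x = 1 → b x ≤ κ ∨ 2 * κ ≤ b x) → ψ x = phiT γ t0 x ∨ ψ x = uJ γ J e e' η t0 x) ∧
          (∀ i ∈ J, ∀ x ∈ O i, |ψ x - (Real.pi / 2 - |e i + sE γ (e i) (e' i) x - t0|)| ≤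
            dE γ (e i) (e' i) x + η) ∧
          (∀ i, i ∉ J → ∀ x ∈ O i, ∀ y ∈ O i, |ψ x - ψ y| ≤ r i) := by
  have hp := Real.pi_pos
  obtain ⟨Lb, hLb⟩ := hb
  have hb : Lip b := ⟨Lb, hLb⟩
  obtain ⟨ω2, hω2, hω2'⟩ := strip_in hγ hb hb0 hbr hO (fun i hi => (hk i hi).2.1) hη
  obtain ⟨ρ, hρ, hρ'⟩ := strip_nbhd hγ hO (fun i hi => (hk i hi).2.1)
  obtain ⟨ω3, hω3, hω3'⟩ := near_curve hγ hb hb0 hbr (ρ := min ρ (η / 2)) (lt_min hρ (by positivity))
  refine ⟨min ω2 ω3, lt_min hω2 hω3, fun x hx h0 => ?_, fun κ hκ hκω => ?_⟩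
  · exact hω2' x (hx.trans (min_le_left _ _)) (psiD_nonneg hη h0)
  · have hκ2 : 2 * κ ≤ ω2 := hκω.trans (min_le_left _ _)
    have hκ3 : 2 * κ ≤ ω3 := hκω.trans (min_le_right _ _)
    refine ⟨3 + 4 * (Lb / κ.toNNReal), fun t0 ht0 ht1 => ?_⟩
    have hub : ∀ x, |uJ γ J e e' η t0 x| ≤ Real.pi / 2 := fun x => uJ_abs hγ hJ hη.le x
    have hφb : ∀ x, |phiT γ t0 x| ≤ Real.pi / 2 := fun x => phiT_abs t0 x
    have hφu : ∀ x, phiT γ t0 x ≤ uJ γ J e e' η t0 x := fun x => phi_le_uJ x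
    have hz := zC_mem b κ
    set ψ : M → ℝ := fun x => phiT γ t0 x + (1 - zC b κ x) * (uJ γ J e e' η t0 x - phiT γ t0 x) with hψ
    -- between the two potentials
    have hlo : ∀ x, phiT γ t0 x ≤ ψ x := by
      intro x
      have h1 := mul_nonneg (sub_nonneg.2 (hz x).2) (sub_nonneg.2 (hφu x))
      simp only [hψ]
      linarith
    have hhi : ∀ x, ψ x ≤ uJ γ J e e' η t0 x := by
      intro x
      have h1 := mul_nonneg (hz x).1 (sub_nonneg.2 (hφu x))
      have h2 : ψ x = uJ γ J e e' η t0 x - zC b κ x * (uJ γ J e e' η t0 x - phiT γ t0 x) := by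
        simp only [hψ]
        ring
      linarith
    have hfar : ∀ x, dJ γ J e e' x < η / 2 → uJ γ J e e' η t0 x = phiT γ t0 x := by
      intro x hx
      obtain ⟨s, hs, hxs⟩ := dJ_near hJ hx
      exact uJ_near hγ hJ hη.le (fun i hi _ _ m hm => hs ⟨i, hi, m, hm⟩) hxs.le
    have heq : ∀ x, uJ γ J e e' η t0 x = phiT γ t0 x → ψ x = uJ γ J e e' η t0 x := by
      intro x hx
      simp only [hψ]
      rw [hx, sub_self, mul_zero, add_zero]
    have hz0 : ∀ x, 2 * κ ≤ b x → ψ x = uJ γ J e e' η t0 x := by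
      intro x hx
      simp only [hψ]
      rw [zC_zero hκ hx]
      ring
    have hz1 : ∀ x, b x ≤ κ → ψ x = phiT γ t0 x := by
      intro x hx
      simp only [hψ]
      rw [zC_one hκ hx]
      ring
    refine ⟨ψ, uJ_cut hγ hJ hη.le (fun x => (hz x).1) (fun x => (hz x).2) (zC_lip hLb hκ), fun x => ?_, fun s => ?_,
      fun x hx => ?_, fun i hi x hx => ?_, fun i hi x hx y hy => ?_⟩
    · rw [abs_le]
      exact ⟨(abs_le.1 (hφb x)).1.trans (hlo x), (hhi x).trans (abs_le.1 (hub x)).2⟩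
    · rw [hz1 (γ s) (by rw [hbγ s]; exact hκ.le)]
      exact phiT_curve hγ t0 s
    · rcases lt_or_ge (dJ γ J e e' x) (η / 2) with h1 | h1
      · exact Or.inr (heq x (hfar x h1))
      · rcases hx (psiD_one hη h1) with h2 | h2
        · exact Or.inl (hz1 x h2)
        · exact Or.inr (hz0 x h2)
    · have hu : ψ x = uJ γ J e e' η t0 x := by
        rcases lt_or_ge (dJ γ J e e' x) (η / 2) with h1 | h1
        · exact heq x (hfar x h1)
        · rcases le_or_gt (2 * κ) (b x) with h2 | h2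
          · exact hz0 x h2
          · exfalso
            obtain ⟨j, hj, hxj⟩ := hω2' x (h2.le.trans hκ2) (by linarith)
            have h3 : i ≠ k j := fun h => (hk j hj).1 (h ▸ hi)
            exact (Set.disjoint_left.1 (hd i (k j) h3)) hx hxj
      rw [hu]
      exact uJ_chart hγ hJ hη.le ht0 ht1 hi x
    · by_cases hA : ∃ j ∈ J, e j ≤ t0 ∧ t0 ≤ e' j ∧ k j = i
      · obtain ⟨j, hj, hj1, hj2, hji⟩ := hA
        have hri : 0 < r i := (hr i hi).1
        have hw : ∀ z ∈ O i, ψ z ≤ -(Real.pi / 2) + r i := by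
          intro z hz
          refine (hhi z).trans (uJ_window hγ hJ hη.le hri.le (fun j' hj' h1 h2 => ?_) ?_)
          · have h3 : k j' = k j := by
              by_contra hne
              have h4 : γ (t0 + Real.pi) ∈ O (k j') :=
                (hk j' hj').2.1 (mem_image_of_mem γ ⟨by linarith, by linarith⟩)
              have h5 : γ (t0 + Real.pi) ∈ O (k j) :=
                (hk j hj).2.1 (mem_image_of_mem γ ⟨by linarith, by linarith⟩)
              exact (Set.disjoint_left.1 (hd _ _ hne)) h4 h5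
            have h6 := (hk j' hj').2.2 z (by rw [h3, hji]; exact hz)
            rw [h3, hji] at h6
            exact h6
          · have h6 := (hk j hj).2.2 z (by rw [hji]; exact hz)
            rw [hji] at h6
            exact le_trans (dist_mid hγ hj1 hj2 z) h6
        have hl : ∀ z, -(Real.pi / 2) ≤ ψ z := fun z => (abs_le.1 (hφb z)).1.trans (hlo z)
        rw [abs_le]
        constructor
        · linarith [hw y hy, hl x]
        · linarith [hw x hx, hl y]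
      · have hu : ∀ z ∈ O i, ψ z = uJ γ J e e' η t0 z := by
          intro z hz
          rcases le_or_gt (2 * κ) (b z) with h2 | h2
          · exact hz0 z h2
          · obtain ⟨s, hs⟩ := hω3' z (h2.le.trans hκ3)
            refine heq z (uJ_near hγ hJ hη.le (s := s) (fun j hj h3 h4 m hm => ?_)
              (hs.le.trans (min_le_right _ _)))
            have h5 : z ∈ O (k j) := by
              refine hρ' j hj (s + m * (2 * Real.pi)) ⟨hm.1.le, hm.2.le⟩ z ?_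
              rw [bd_per_int hγ s m]
              exact lt_of_lt_of_le hs (min_le_left _ _)
            have h6 : i ≠ k j := fun h => hA ⟨j, hj, h3, h4, h.symm⟩
            exact (Set.disjoint_left.1 (hd i (k j) h6)) hz h5
        rw [hu x hx, hu y hy]
        have h1 := (uJ_lip (γ := γ) (J := J) (e := e) (e' := e') (η := η) (t0 := t0)).dist_le_mul x y
        rw [Real.dist_eq, NNReal.coe_one, one_mul] at h1
        exact h1.trans ((hr i hi).2 x hx y hy)

end Pool.Agent.FPM
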