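import Mathlib
import Pool.Agent.FPM.SU4A

/-
I57V (helper42): F labels of the surgery of I57: in the level integrals of `w` the indicator of the
open set `O i` may be replaced by the cut-off function `Z i`, because `w` has gradient `0` almost
everywhere on `{w = 0}` and `{0 < w < W0}` is covered by the sets `O j`.
-/

open MeasureTheory Set Filter Topology
open scoped ENNReal NNReal

noncomputable section

namespace Pool.Agent.FPM

open Pool.Agent.EWD Pool.Agent.FPX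

variable {M : Type} [MetricSpace M] {γ : ℝ → M}

/-- pointwise form of `st_F` -/
theorem st_F_ae (C : Calc M γ) {w : M → ℝ} (hw : Lip w) (hw0 : ∀ x, 0 ≤ w x) {ι : Type}
    {O : ι → Set M} (hd : ∀ i j, i ≠ j → Disjoint (O i) (O j)) {W0 : ℝ}
    (hcov : ∀ x, 0 < w x → w x < W0 → x ∈ ⋃ i, O i) {Z : ι → M → ℝ}
    (hZO : ∀ i, ∀ x ∈ O i, Z i x = 1) (hZd : ∀ i j, j ≠ i → ∀ x ∈ O j, Z i x = 0) (i : ι) {r : ℝ}
    (hr : r ≤ W0) :
    ∀ᵐ o ∂C.μ, o ∈ {o | w (C.pt o) < r} →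
      (O i).indicator (fun _ => (1 : ℝ)) (C.pt o) * gn C w o = Z i (C.pt o) * gn C w o := by
  filter_upwards [grad_level C hw 0] with o ho hlt
  rcases (hw0 (C.pt o)).lt_or_eq with h | h
  · obtain ⟨j, hj⟩ := mem_iUnion.1 (hcov _ h (lt_of_lt_of_le hlt hr))
    by_cases hji : j = i
    · subst hji
      rw [indicator_of_mem hj, hZO j _ hj]
    · have hni : C.pt o ∉ O i := fun hi => (hd i j (Ne.symm hji)).le_bot ⟨hi, hj⟩
      rw [indicator_of_notMem hni, hZd i j hji _ hj]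
  · obtain ⟨h1, h2⟩ := ho h.symm
    have h3 : gn C w o = 0 := by
      unfold gn
      rw [h1, h2]
      simp
    rw [h3, mul_zero, mul_zero]

/-- F labels: the indicator of `O i` and the cut-off function `Z i` give the same integrals -/
theorem st_F (C : Calc M γ) {w : M → ℝ} (hw : Lip w) (hw0 : ∀ x, 0 ≤ w x) {ι : Type}
    {O : ι → Set M} (_hO : ∀ i, IsOpen (O i)) (hd : ∀ i j, i ≠ j → Disjoint (O i) (O j)) {W0 : ℝ}
    (hcov : ∀ x, 0 < w x → w x < W0 → x ∈ ⋃ i, O i) {Z : ι → M → ℝ} (_hZ : ∀ i, Lip (Z i))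
    (_hZ0 : ∀ i x, 0 ≤ Z i x) (_hZ1 : ∀ i x, Z i x ≤ 1) (hZO : ∀ i, ∀ x ∈ O i, Z i x = 1)
    (hZd : ∀ i j, j ≠ i → ∀ x ∈ O j, Z i x = 0) (i : ι) {r : ℝ} (hr : r < W0) :
    ∫ o in {o | w (C.pt o) < r}, (O i).indicator (fun _ => (1 : ℝ)) (C.pt o) * gn C w o ∂C.μ =
      ∫ o in {o | w (C.pt o) < r}, Z i (C.pt o) * gn C w o ∂C.μ := by
  refine setIntegral_congr_ae₀ ?_ (st_F_ae C hw hw0 hd hcov hZO hZd i hr.le)
  exact (C.meas_pt hw).nullMeasurableSet_preimage measurableSet_Iio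

/-- F labels: transfer of the derivative at a level below `W0` -/
theorem st_F_der (C : Calc M γ) {w : M → ℝ} (hw : Lip w) (hw0 : ∀ x, 0 ≤ w x) {ι : Type}
    {O : ι → Set M} (hO : ∀ i, IsOpen (O i)) (hd : ∀ i j, i ≠ j → Disjoint (O i) (O j)) {W0 : ℝ}
    (hcov : ∀ x, 0 < w x → w x < W0 → x ∈ ⋃ i, O i) {Z : ι → M → ℝ} (hZ : ∀ i, Lip (Z i))
    (hZ0 : ∀ i x, 0 ≤ Z i x) (hZ1 : ∀ i x, Z i x ≤ 1) (hZO : ∀ i, ∀ x ∈ O i, Z i x = 1)
    (hZd : ∀ i j, j ≠ i → ∀ x ∈ O j, Z i x = 0) (i : ι) {s D : ℝ} (hs : s < W0)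
    (h : HasDerivAt (fun r => ∫ o in {o | w (C.pt o) < r}, Z i (C.pt o) * gn C w o ∂C.μ) D s) :
    HasDerivAt (fun r => ∫ o in {o | w (C.pt o) < r},
      (O i).indicator (fun _ => (1 : ℝ)) (C.pt o) * gn C w o ∂C.μ) D s := by
  refine h.congr_of_eventuallyEq ?_
  filter_upwards [Iio_mem_nhds hs] with r hr
  exact st_F C hw hw0 hO hd hcov hZ hZ0 hZ1 hZO hZd i hr

end Pool.Agent.FPM
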