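import Mathlib
import Pool.Agent.FPM.SU4A

/-
I57W (helper19): level lengths of the removal function with a strip along a part of the curve, with
finitely many weights, and a common level for a finite family.
-/

open MeasureTheory Set Filter Topology
open scoped ENNReal NNReal

noncomputable section

namespace Pool.Agent.FPM

open Pool.Agent.EWD Pool.Agent.FPX

/-- finitely many monotone functions have a common level where the weighted slopes are at most the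
average -/
theorem exists_level_fam {ι : Type} [Fintype ι] {f : ι → ℝ → ℝ} (hf : ∀ i, Monotone (f i)) {c : ι → ℝ}
    (hc : ∀ i, 0 ≤ c i) {s0 K K' : ℝ} (hs : 0 < s0) (h0 : ∀ i, 0 ≤ f i 0)
    (h1 : ∑ i, c i * f i s0 ≤ s0 * K) (hK : K < K') {P : ℝ → Prop} (hP : ∀ᵐ s : ℝ, P s) :
    ∃ s, 0 < s ∧ s < s0 ∧ P s ∧ (∀ i, DifferentiableAt ℝ (f i) s) ∧ ∑ i, c i * deriv (f i) s ≤ K' := by
  by_contra hcon
  push Not at hcon
  set F : ℝ → ℝ := fun s => ∑ i, c i * f i s with hF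
  have hFm : Monotone F := fun a b hab =>
    Finset.sum_le_sum fun i _ => mul_le_mul_of_nonneg_left (hf i hab) (hc i)
  have hae : ∀ᵐ s ∂(volume.restrict (Ioo 0 s0)), K' ≤ deriv F s := by
    rw [ae_restrict_iff' measurableSet_Ioo]
    have h2 : ∀ᵐ s : ℝ, ∀ i, DifferentiableAt ℝ (f i) s := by
      rw [ae_all_iff]
      exact fun i => (hf i).ae_differentiableAt
    filter_upwards [h2, hP] with s hd hp hs'
    have h3 : HasDerivAt F (∑ i, c i * deriv (f i) s) s :=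
      HasDerivAt.fun_sum fun i _ => (hd i).hasDerivAt.const_mul (c i)
    rw [h3.deriv]
    exact (hcon s hs'.1 hs'.2 hp hd).le
  have hI := (hFm.monotoneOn (uIcc 0 s0)).intervalIntegrable_deriv
  have h2 := (hFm.monotoneOn (uIcc 0 s0)).intervalIntegral_deriv_mem_uIcc
  have h3 : s0 * K' ≤ ∫ x in (0:ℝ)..s0, deriv F x := by
    have h4 : ∫ _ in (0:ℝ)..s0, K' = s0 * K' := by simp
    rw [← h4]
    refine intervalIntegral.integral_mono_ae_restrict hs.le intervalIntegrable_const hI ?_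
    rw [← restrict_Ioo_eq_restrict_Icc]
    exact hae
  rw [uIcc_of_le (by linarith [hFm hs.le])] at h2
  have h5 := h2.2
  have h6 : 0 ≤ F 0 := Finset.sum_nonneg fun i _ => mul_nonneg (hc i) (h0 i)
  have h7 : F s0 ≤ s0 * K := h1
  nlinarith

variable {M : Type} [MetricSpace M] {γ : ℝ → M} (C : Calc M γ)

/-- the gradient of the maximum -/
theorem ae_max57 {u b : M → ℝ} (hu : Lip u) (hb : Lip b) : ∀ᵐ o ∂C.μ,
    (b (C.pt o) ≤ u (C.pt o) → C.gx (fun x => max (u x) (b x)) o = C.gx u o ∧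
      C.gy (fun x => max (u x) (b x)) o = C.gy u o) ∧
    (u (C.pt o) ≤ b (C.pt o) → C.gx (fun x => max (u x) (b x)) o = C.gx b o ∧
      C.gy (fun x => max (u x) (b x)) o = C.gy b o) := by
  have key : ∀ (p : ℝ → M) (g g' : ℝ) (u b : M → ℝ), HasDerivAt (fun s => u (p s)) g 0 →
      HasDerivAt (fun s => max (u (p s)) (b (p s))) g' 0 → b (p 0) ≤ u (p 0) → g' = g := by
    intro p g g' u b h1 h2 h3
    have h4 : IsLocalMin (fun s => max (u (p s)) (b (p s)) - u (p s)) 0 := by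
      refine Eventually.of_forall fun s => ?_
      change max (u (p 0)) (b (p 0)) - u (p 0) ≤ max (u (p s)) (b (p s)) - u (p s)
      rw [max_eq_left h3, sub_self]
      exact sub_nonneg.2 (le_max_left _ _)
    have h5 := h4.hasDerivAt_eq_zero (h2.sub h1)
    linarith
  filter_upwards [C.ae_has hu, C.ae_has hb, C.ae_has (hu.max hb)] with o h1 h2 h3
  have e : C.py o 0 = C.px o 0 := C.same o
  refine ⟨fun h => ⟨key (C.px o) _ _ u b h1.1 h3.1 h, key (C.py o) _ _ u b h1.2 h3.2 (by rw [e]; exact h)⟩,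
    fun h => ⟨key (C.px o) _ _ b u h2.1 (by simpa only [max_comm] using h3.1) h,
      key (C.py o) _ _ b u h2.2 (by simpa only [max_comm] using h3.2) (by rw [e]; exact h)⟩⟩

theorem gn_of_eq {u w : M → ℝ} {o : Om} (h : C.gx u o = C.gx w o ∧ C.gy u o = C.gy w o) :
    gn C u o = gn C w o := by
  unfold gn
  rw [h.1, h.2]

/-- the gradient of the strip function -/
theorem gn_strip {ψ b : M → ℝ} (hψ : Lip ψ) (hb : Lip b) {c ω : ℝ} (hc : 0 ≤ c) (hω : 0 < ω) :
    ∀ᵐ o ∂C.μ, gn C (fun x => c * (ψ x - b x / ω)) o ≤ c * (gn C ψ o + gn C b o / ω) := by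
  have hb' : Lip fun x => ω⁻¹ * b x := hb.const_mul ω⁻¹
  filter_upwards [C.ae_const_mul (hψ.sub hb') c, C.ae_sub hψ hb', C.ae_const_mul hb ω⁻¹] with o h1 h2 h3
  have e : (fun x => c * (ψ x - b x / ω)) = fun x => c * (ψ x - ω⁻¹ * b x) := by
    funext x
    rw [div_eq_inv_mul]
  rw [e]
  have ex : C.gx (fun x => c * (ψ x - ω⁻¹ * b x)) o = c * (C.gx ψ o - ω⁻¹ * C.gx b o) := by
    rw [h1.1, h2.1, h3.1]
  have ey : C.gy (fun x => c * (ψ x - ω⁻¹ * b x)) o = c * (C.gy ψ o - ω⁻¹ * C.gy b o) := by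
    rw [h1.2, h2.2, h3.2]
  have n1 := gn_nonneg C ψ o
  have n2 := gn_nonneg C b o
  have s1 := gn_sq C ψ o
  have s2 := gn_sq C b o
  have hω' : 0 < ω⁻¹ := inv_pos.2 hω
  have key : (C.gx ψ o - ω⁻¹ * C.gx b o) ^ 2 + (C.gy ψ o - ω⁻¹ * C.gy b o) ^ 2 ≤
      (gn C ψ o + ω⁻¹ * gn C b o) ^ 2 := by
    have h4 : -(C.gx ψ o * C.gx b o + C.gy ψ o * C.gy b o) ≤ gn C ψ o * gn C b o := by
      refine le_of_sq_le_sq ?_ (mul_nonneg n1 n2)
      rw [mul_pow, s1, s2, neg_sq]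
      nlinarith [sq_nonneg (C.gx ψ o * C.gy b o - C.gy ψ o * C.gx b o)]
    have h5 : 2 * ω⁻¹ * -(C.gx ψ o * C.gx b o + C.gy ψ o * C.gy b o) ≤
        2 * ω⁻¹ * (gn C ψ o * gn C b o) := mul_le_mul_of_nonneg_left h4 (by positivity)
    have e1 : (gn C ψ o + ω⁻¹ * gn C b o) ^ 2 = gn C ψ o ^ 2 + 2 * ω⁻¹ * (gn C ψ o * gn C b o) +
        ω⁻¹ ^ 2 * gn C b o ^ 2 := by ring
    rw [e1, s1, s2]
    nlinarith
  unfold gn at *
  rw [ex, ey]
  refine Real.sqrt_le_iff.2 ⟨by positivity, ?_⟩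
  have e2 : (c * (√(C.gx ψ o ^ 2 + C.gy ψ o ^ 2) + √(C.gx b o ^ 2 + C.gy b o ^ 2) / ω)) ^ 2 =
      c ^ 2 * (√(C.gx ψ o ^ 2 + C.gy ψ o ^ 2) + ω⁻¹ * √(C.gx b o ^ 2 + C.gy b o ^ 2)) ^ 2 := by
    rw [div_eq_inv_mul]
    ring
  rw [e2]
  calc (c * (C.gx ψ o - ω⁻¹ * C.gx b o)) ^ 2 + (c * (C.gy ψ o - ω⁻¹ * C.gy b o)) ^ 2 =
        c ^ 2 * ((C.gx ψ o - ω⁻¹ * C.gx b o) ^ 2 + (C.gy ψ o - ω⁻¹ * C.gy b o) ^ 2) := by ring
    _ ≤ _ := mul_le_mul_of_nonneg_left key (sq_nonneg c)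


/-- the removal function -/
def wrem (g ψ b : M → ℝ) (t c ω : ℝ) (x : M) : ℝ :=
  min (max (max (g x - t) 0) (c * (ψ x - b x / ω))) (b x)

theorem lip_strip {ψ b : M → ℝ} (hψ : Lip ψ) (hb : Lip b) (c ω : ℝ) :
    Lip fun x => c * (ψ x - b x / ω) := by
  have e : (fun x => c * (ψ x - b x / ω)) = fun x => c * (ψ x - ω⁻¹ * b x) := by
    funext x
    rw [div_eq_inv_mul]
  rw [e]
  exact (hψ.sub (hb.const_mul ω⁻¹)).const_mul c

theorem lip_wrem {g ψ b : M → ℝ} (hg : Lip g) (hψ : Lip ψ) (hb : Lip b) (t c ω : ℝ) :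
    Lip (wrem g ψ b t c ω) :=
  (((hg.sub (lip_const t)).max (lip_const 0)).max (lip_strip hψ hb c ω)).min hb

theorem ind_nonneg {α : Type} {s : Set α} {f : α → ℝ} {o : α} (h : 0 ≤ f o) :
    0 ≤ s.indicator f o := indicator_apply_nonneg fun _ => h

/-- the level lengths of the removal function -/
theorem wlev_le [CompactSpace M] {g b ψ W Ψ1 Ψ2 : M → ℝ} {L : ℝ≥0} (hg : Lip g) (hb : Lip b) (hψ : LipschitzWith L ψ)
    (hW : Lip W) (h1 : Lip Ψ1) (h2 : Lip Ψ2) (hb0 : ∀ᵐ o ∂C.μ, 0 < b (C.pt o))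
    (hψ1 : ∀ x, ψ x ≤ 1) (hW0 : ∀ x, 0 ≤ W x) (hW1 : ∀ x, W x ≤ 1)
    (h10 : ∀ x, 0 ≤ Ψ1 x) (h11 : ∀ x, Ψ1 x ≤ 1) (h20 : ∀ x, 0 ≤ Ψ2 x) (h21 : ∀ x, Ψ2 x ≤ 1)
    {t s0 c ω m : ℝ} (hs : 0 < s0) (hc : 0 < c) (hω : 0 < ω)
    (k1 : ∀ x, t < g x → Ψ1 x = 1) (k2 : ∀ x, 1 / m ≤ ψ x → Ψ1 x = 1)
    (k3 : ∀ x, g x < t + s0 → 1 / m ≤ ψ x → Ψ2 x = 1) :
    mz C (gn C (wrem g ψ b t c ω)) (wrem g ψ b t c ω) W s0 ≤
      mz C (gn C b) b (fun x => W x * Ψ1 x) s0 + mz C (gn C b) b (fun _ => 1) (c / m) +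
      (mz C (gn C g) g W (t + s0) - mz C (gn C g) g W t) +
      c * (L * (C.μ {o | 0 < b (C.pt o) ∧ b (C.pt o) < 0 + ω}).toReal +
        ω⁻¹ * mz C (gn C b) b (fun x => W x * Ψ2 x) ω + ω⁻¹ * mz C (gn C b) b (fun _ => 1) (ω / m)) := by
  have := C.fin
  have lψ : Lip ψ := ⟨L, hψ⟩
  set w := wrem g ψ b t c ω with hw
  have lw : Lip w := lip_wrem hg lψ hb t c ω
  have lB : Lip (fun x => max (g x - t) 0) := (hg.sub (lip_const t)).max (lip_const 0)
  have lS : Lip fun x => c * (ψ x - b x / ω) := lip_strip lψ hb c ω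
  have lA := lB.max lS
  have lW1 : Lip fun x => W x * Ψ1 x := hW.mul h1
  have lW2 : Lip fun x => W x * Ψ2 x := hW.mul h2
  have lo : Lip (fun _ : M => (1 : ℝ)) := lip_const 1
  have ib := int_gn C hb
  have ig := int_gn C hg
  have iw := int_gn C lw
  have j1 := integrable_zH C lW1 (fun x => mul_nonneg (hW0 x) (h10 x))
    (fun x => mul_le_one₀ (hW1 x) (h10 x) (h11 x)) ib
  have j2 := integrable_zH C lo (fun _ => zero_le_one) (fun _ => le_rfl) ib
  have j3 := integrable_zH C hW hW0 hW1 ig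
  have j4 := integrable_zH C lW2 (fun x => mul_nonneg (hW0 x) (h20 x))
    (fun x => mul_le_one₀ (hW1 x) (h20 x) (h21 x)) ib
  have j5 := integrable_zH C hW hW0 hW1 iw
  have mE : NullMeasurableSet {o | 0 < b (C.pt o) ∧ b (C.pt o) < 0 + ω} C.μ :=
    (nullMeasurableSet_lt aemeasurable_const (C.meas_pt hb)).inter
      (nullMeasurableSet_lt (C.meas_pt hb) aemeasurable_const)
  -- the six terms
  set R1 : Om → ℝ := {o | b (C.pt o) < s0}.indicator (fun o => W (C.pt o) * Ψ1 (C.pt o) * gn C b o) with hR1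
  set R2 : Om → ℝ := {o | b (C.pt o) < c / m}.indicator (fun o => 1 * gn C b o) with hR2
  set R3 : Om → ℝ := {o | g (C.pt o) < t + s0}.indicator (fun o => W (C.pt o) * gn C g o) with hR3
  set R3' : Om → ℝ := {o | g (C.pt o) < t}.indicator (fun o => W (C.pt o) * gn C g o) with hR3'
  set R4 : Om → ℝ := {o | 0 < b (C.pt o) ∧ b (C.pt o) < 0 + ω}.indicator (fun _ => (1 : ℝ)) with hR4
  set R5 : Om → ℝ := {o | b (C.pt o) < ω}.indicator (fun o => W (C.pt o) * Ψ2 (C.pt o) * gn C b o) with hR5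
  set R6 : Om → ℝ := {o | b (C.pt o) < ω / m}.indicator (fun o => 1 * gn C b o) with hR6
  have i1 : Integrable R1 C.μ := j1.indicator₀ (meas_pt_lt C hb s0)
  have i2 : Integrable R2 C.μ := j2.indicator₀ (meas_pt_lt C hb _)
  have i3 : Integrable R3 C.μ := j3.indicator₀ (meas_pt_lt C hg _)
  have i3' : Integrable R3' C.μ := j3.indicator₀ (meas_pt_lt C hg _)
  have i4 : Integrable R4 C.μ := (integrable_const (1 : ℝ)).indicator₀ mE
  have i5 : Integrable R5 C.μ := j4.indicator₀ (meas_pt_lt C hb _)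
  have i6 : Integrable R6 C.μ := j2.indicator₀ (meas_pt_lt C hb _)
  have e4 : ∫ o, R4 o ∂C.μ = (C.μ {o | 0 < b (C.pt o) ∧ b (C.pt o) < 0 + ω}).toReal := by
    rw [hR4, integral_indicator₀ mE]
    simp [Measure.real]
  have eq : mz C (gn C b) b (fun x => W x * Ψ1 x) s0 + mz C (gn C b) b (fun _ => 1) (c / m) +
      (mz C (gn C g) g W (t + s0) - mz C (gn C g) g W t) +
      c * (L * (C.μ {o | 0 < b (C.pt o) ∧ b (C.pt o) < 0 + ω}).toReal +
        ω⁻¹ * mz C (gn C b) b (fun x => W x * Ψ2 x) ω + ω⁻¹ * mz C (gn C b) b (fun _ => 1) (ω / m)) =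
      ∫ o, (R1 o + R2 o + (R3 o - R3' o) + c * (L * R4 o + ω⁻¹ * R5 o + ω⁻¹ * R6 o)) ∂C.μ := by
    rw [mz_eq C hb, mz_eq C hb, mz_eq C hb, mz_eq C hb, mz_eq C hg, mz_eq C hg, ← e4]
    have a1 := integral_add (i1.add i2) (i3.sub i3')
    have a2 := integral_add i1 i2
    have a3 := integral_sub i3 i3'
    have a4 := integral_add (((i4.const_mul (L : ℝ)).add (i5.const_mul ω⁻¹))) (i6.const_mul ω⁻¹)
    have a5 := integral_add (i4.const_mul (L : ℝ)) (i5.const_mul ω⁻¹)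
    have a6 := integral_add ((i1.add i2).add (i3.sub i3'))
      ((((i4.const_mul (L : ℝ)).add (i5.const_mul ω⁻¹)).add (i6.const_mul ω⁻¹)).const_mul c)
    simp only [Pi.add_apply, Pi.sub_apply, integral_const_mul] at a1 a2 a3 a4 a5 a6
    rw [a6, a1, a2, a3, a4, a5]
  rw [eq, mz_eq C lw]
  refine integral_mono_ae (j5.indicator₀ (meas_pt_lt C lw _)) (((i1.add i2).add (i3.sub i3')).add
    ((((i4.const_mul (L : ℝ)).add (i5.const_mul ω⁻¹)).add (i6.const_mul ω⁻¹)).const_mul c)) ?_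
  filter_upwards [hb0, ae_min C lA hb, ae_max57 C lB lS, ae_pos' C hg t, gn_strip C lψ hb hc.le hω,
    gn_bd C hψ] with o ob oA oB op oS oL
  change {o | w (C.pt o) < s0}.indicator (fun o => W (C.pt o) * gn C w o) o ≤
    R1 o + R2 o + (R3 o - R3' o) + c * (L * R4 o + ω⁻¹ * R5 o + ω⁻¹ * R6 o)
  have nb := gn_nonneg C b o
  have ng := gn_nonneg C g o
  have nψ := gn_nonneg C ψ o
  have nW := hW0 (C.pt o)
  have nW1 := hW1 (C.pt o)
  have n1 := h10 (C.pt o)
  have n2 := h20 (C.pt o)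
  have r1 : 0 ≤ R1 o := ind_nonneg (mul_nonneg (mul_nonneg nW n1) nb)
  have r2 : 0 ≤ R2 o := ind_nonneg (by rw [one_mul]; exact nb)
  have r5 : 0 ≤ R5 o := ind_nonneg (mul_nonneg (mul_nonneg nW n2) nb)
  have r6 : 0 ≤ R6 o := ind_nonneg (by rw [one_mul]; exact nb)
  have r4 : 0 ≤ R4 o := ind_nonneg zero_le_one
  have nL : (0 : ℝ) ≤ L := L.2
  have hω' : 0 < ω⁻¹ := inv_pos.2 hω
  have r3 : 0 ≤ R3 o - R3' o := by
    by_cases h : g (C.pt o) < t
    · have q1 : o ∈ {o | g (C.pt o) < t} := h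
      have q2 : o ∈ {o | g (C.pt o) < t + s0} := by
        change g (C.pt o) < t + s0
        linarith
      rw [hR3, hR3', indicator_of_mem q1, indicator_of_mem q2, sub_self]
    · have q1 : o ∉ {o | g (C.pt o) < t} := h
      rw [hR3', indicator_of_notMem q1, sub_zero]
      exact ind_nonneg (mul_nonneg nW ng)
  have r456 : 0 ≤ L * R4 o + ω⁻¹ * R5 o + ω⁻¹ * R6 o :=
    add_nonneg (add_nonneg (mul_nonneg nL r4) (mul_nonneg hω'.le r5)) (mul_nonneg hω'.le r6)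
  have rc := mul_nonneg hc.le r456
  by_cases hws : w (C.pt o) < s0
  swap
  · have q : o ∉ {o | w (C.pt o) < s0} := hws
    rw [indicator_of_notMem q]
    linarith
  have q : o ∈ {o | w (C.pt o) < s0} := hws
  rw [indicator_of_mem q]
  have wdef : w (C.pt o) = min (max (max (g (C.pt o) - t) 0) (c * (ψ (C.pt o) - b (C.pt o) / ω)))
    (b (C.pt o)) := rfl
  rcases le_or_gt (b (C.pt o)) (max (max (g (C.pt o) - t) 0) (c * (ψ (C.pt o) - b (C.pt o) / ω)))
    with hA | hA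
  · -- w = b
    have ew : gn C w o = gn C b o := gn_of_eq C (oA.2 hA)
    rw [wdef, min_eq_right hA] at hws
    rw [ew]
    have m1 : o ∈ {o | b (C.pt o) < s0} := hws
    by_cases hΨ : Ψ1 (C.pt o) = 1
    · have : R1 o = W (C.pt o) * gn C b o := by
        rw [hR1, indicator_of_mem m1, hΨ, mul_one]
      linarith
    · have hgt : g (C.pt o) ≤ t := by
        by_contra h
        exact hΨ (k1 _ (not_le.1 h))
      have hψm : ψ (C.pt o) < 1 / m := by
        by_contra h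
        exact hΨ (k2 _ (not_lt.1 h))
      have hB0 : max (g (C.pt o) - t) 0 = 0 := max_eq_right (by linarith)
      rw [hB0] at hA
      have hbs : b (C.pt o) ≤ c * (ψ (C.pt o) - b (C.pt o) / ω) := by
        rcases le_max_iff.1 hA with h | h
        · linarith
        · exact h
      have h3 : 0 < b (C.pt o) / ω := div_pos ob hω
      have h4 : b (C.pt o) < c / m := by
        calc b (C.pt o) ≤ c * (ψ (C.pt o) - b (C.pt o) / ω) := hbs
          _ < c * (1 / m) := mul_lt_mul_of_pos_left (by linarith) hc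
          _ = c / m := by ring
      have m2 : o ∈ {o | b (C.pt o) < c / m} := h4
      have : R2 o = gn C b o := by
        rw [hR2, indicator_of_mem m2, one_mul]
      have h5 : W (C.pt o) * gn C b o ≤ 1 * gn C b o := mul_le_mul_of_nonneg_right nW1 nb
      linarith
  · -- w = A
    have ew := gn_of_eq C (oA.1 hA.le)
    rw [wdef, min_eq_left hA.le] at hws
    have ew' : gn C w o = gn C (fun x => max (max (g x - t) 0) (c * (ψ x - b x / ω))) o := ew
    rw [ew']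
    rcases le_or_gt (c * (ψ (C.pt o) - b (C.pt o) / ω)) (max (g (C.pt o) - t) 0) with hB | hB
    · -- the level part
      have e1 := gn_of_eq C (oB.1 hB)
      rw [max_eq_left hB] at hws
      rw [e1]
      rcases le_or_gt (g (C.pt o)) t with hgt | hgt
      · have e2 : gn C (fun x => max (g x - t) 0) o = 0 := by
          unfold gn
          rw [(op.1 hgt).1, (op.1 hgt).2]
          simp
        rw [e2, mul_zero]
        linarith
      · have e2 : gn C (fun x => max (g x - t) 0) o = gn C g o := gn_of_eq C (op.2 hgt.le)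
        rw [max_eq_left (by linarith)] at hws
        have q1 : o ∈ {o | g (C.pt o) < t + s0} := by
          change g (C.pt o) < t + s0
          linarith
        have q2 : o ∉ {o | g (C.pt o) < t} := not_lt.2 hgt.le
        have : R3 o - R3' o = W (C.pt o) * gn C g o := by
          rw [hR3, hR3', indicator_of_mem q1, indicator_of_notMem q2, sub_zero]
        rw [e2]
        linarith
    · -- the strip part
      have e1 := gn_of_eq C (oB.2 hB.le)
      rw [max_eq_right hB.le] at hws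
      rw [e1]
      have h3 : 0 < c * (ψ (C.pt o) - b (C.pt o) / ω) := lt_of_le_of_lt (le_max_right _ _) hB
      have h4 : 0 < ψ (C.pt o) - b (C.pt o) / ω := pos_of_mul_pos_right h3 hc.le
      have h5 : b (C.pt o) < ω * ψ (C.pt o) := by
        have h6 : b (C.pt o) / ω < ψ (C.pt o) := by linarith
        rw [div_lt_iff₀ hω] at h6
        linarith
      have h6 : b (C.pt o) < ω := by
        have := mul_le_mul_of_nonneg_left (hψ1 (C.pt o)) hω.le
        linarith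
      have h7 : g (C.pt o) < t + s0 := by
        have := le_max_left (g (C.pt o) - t) 0
        linarith
      have m4 : o ∈ {o | 0 < b (C.pt o) ∧ b (C.pt o) < 0 + ω} := ⟨ob, by linarith⟩
      have E4 : R4 o = 1 := by rw [hR4, indicator_of_mem m4]
      have E56 : W (C.pt o) * gn C b o ≤ R5 o + R6 o := by
        rcases le_or_gt (1 / m) (ψ (C.pt o)) with h8 | h8
        · have m5 : o ∈ {o | b (C.pt o) < ω} := h6
          have : R5 o = W (C.pt o) * gn C b o := by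
            rw [hR5, indicator_of_mem m5, k3 _ h7 h8, mul_one]
          linarith
        · have h9 : b (C.pt o) < ω / m := by
            calc b (C.pt o) < ω * ψ (C.pt o) := h5
              _ ≤ ω * (1 / m) := mul_le_mul_of_nonneg_left h8.le hω.le
              _ = ω / m := by ring
          have m6 : o ∈ {o | b (C.pt o) < ω / m} := h9
          have : R6 o = gn C b o := by rw [hR6, indicator_of_mem m6, one_mul]
          have h5 : W (C.pt o) * gn C b o ≤ 1 * gn C b o := mul_le_mul_of_nonneg_right nW1 nb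
          linarith
      have E7 : W (C.pt o) * gn C (fun x => c * (ψ x - b x / ω)) o ≤
          c * (L * R4 o + ω⁻¹ * R5 o + ω⁻¹ * R6 o) := by
        have a1 : W (C.pt o) * gn C (fun x => c * (ψ x - b x / ω)) o ≤
            W (C.pt o) * (c * (gn C ψ o + gn C b o / ω)) := mul_le_mul_of_nonneg_left oS nW
        have a2 : W (C.pt o) * (c * (gn C ψ o + gn C b o / ω)) =
            c * (W (C.pt o) * gn C ψ o + ω⁻¹ * (W (C.pt o) * gn C b o)) := by
          rw [div_eq_inv_mul]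
          ring
        rw [a2] at a1
        refine a1.trans (mul_le_mul_of_nonneg_left ?_ hc.le)
        have a3 : W (C.pt o) * gn C ψ o ≤ 1 * L := mul_le_mul nW1 oL nψ zero_le_one
        have a4 := mul_le_mul_of_nonneg_left E56 hω'.le
        rw [E4]
        linarith
      linarith

/-- clamp of `a y` to `[0, 1]` -/
def mcl (a y : ℝ) : ℝ := max 0 (min 1 (a * y))

theorem mcl_nonneg (a y : ℝ) : 0 ≤ mcl a y := le_max_left _ _

theorem mcl_le_one (a y : ℝ) : mcl a y ≤ 1 := max_le zero_le_one (min_le_left _ _)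

theorem mcl_hi {a y : ℝ} (h : 1 ≤ a * y) : mcl a y = 1 := by
  unfold mcl
  rw [min_eq_left h, max_eq_right zero_le_one]

theorem mcl_lo {a y : ℝ} (ha : 0 ≤ a) (h : y ≤ 0) : mcl a y = 0 := by
  unfold mcl
  exact max_eq_left ((min_le_right _ _).trans (mul_nonpos_of_nonneg_of_nonpos ha h))

theorem lip_mcl {ψ : M → ℝ} (h : Lip ψ) (a : ℝ) : Lip fun x => mcl a (ψ x) :=
  (lip_const 0).max ((lip_const 1).min (h.const_mul a))

theorem cont_mcl (a : ℝ) : Continuous (mcl a) := by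
  unfold mcl
  fun_prop

/-- the weights along the curve, first kind -/
theorem wgt1 (hγ : Bd γ) {g ψ W : M → ℝ} (hg : Lip g) (hψ : Lip ψ) (hW : Lip W)
    (hW0 : ∀ x, 0 ≤ W x) (hW1 : ∀ x, W x ≤ 1) {t : ℝ}
    (ht : volume {s : ℝ | s ∈ Ioc 0 (2 * Real.pi) ∧ g (γ s) = t} = 0) :
    Tendsto (fun n : ℕ => ∫ s in (0 : ℝ)..(2 * Real.pi), W (γ s) *
        max (bnd (t - 1 / ((n : ℝ) + 1)) t (g (γ s))) (mcl ((n : ℝ) + 1) (ψ (γ s)))) atTop
      (𝓝 (∫ s in (0 : ℝ)..(2 * Real.pi), W (γ s) * (if t < g (γ s) ∨ 0 < ψ (γ s) then 1 else 0))) := by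
  have hpi := Real.pi_pos
  have hgc : Continuous fun s => g (γ s) := hg.cont.comp hγ.lip.continuous
  have hψc : Continuous fun s => ψ (γ s) := hψ.cont.comp hγ.lip.continuous
  have hWc : Continuous fun s => W (γ s) := hW.cont.comp hγ.lip.continuous
  refine intervalIntegral.tendsto_integral_filter_of_dominated_convergence (fun _ => (1 : ℝ)) ?_ ?_
    intervalIntegrable_const ?_
  · refine Eventually.of_forall fun n => ?_
    have hc : Continuous fun s => W (γ s) *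
        max (bnd (t - 1 / ((n : ℝ) + 1)) t (g (γ s))) (mcl ((n : ℝ) + 1) (ψ (γ s))) := by
      unfold bnd
      exact hWc.mul ((continuous_const.max (continuous_const.min ((hgc.sub continuous_const).div_const _))).max
        ((cont_mcl _).comp hψc))
    exact hc.aestronglyMeasurable
  · refine Eventually.of_forall fun n => Eventually.of_forall fun s _ => ?_
    have h1 : 0 ≤ max (bnd (t - 1 / ((n : ℝ) + 1)) t (g (γ s))) (mcl ((n : ℝ) + 1) (ψ (γ s))) :=
      (bnd_nonneg _ _ _).trans (le_max_left _ _)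
    have h2 : max (bnd (t - 1 / ((n : ℝ) + 1)) t (g (γ s))) (mcl ((n : ℝ) + 1) (ψ (γ s))) ≤ 1 :=
      max_le (bnd_le_one _ _ _) (mcl_le_one _ _)
    rw [Real.norm_eq_abs, abs_of_nonneg (mul_nonneg (hW0 _) h1)]
    exact mul_le_one₀ (hW1 _) h1 h2
  · have h0 : ∀ᵐ s : ℝ, s ∈ Ioc 0 (2 * Real.pi) → g (γ s) ≠ t := by
      rw [ae_iff]
      refine measure_mono_null (fun s hs => ?_) ht
      simp only [Set.mem_ofPred_eq, Classical.not_imp, not_not] at hs
      exact hs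
    filter_upwards [h0] with s hs hmem
    rw [uIoc_of_le (by positivity)] at hmem
    refine Tendsto.const_mul (W (γ s)) ?_
    have h2 : Tendsto (fun n : ℕ => 1 / ((n : ℝ) + 1)) atTop (𝓝 0) := tendsto_one_div_add_atTop_nhds_zero_nat
    rcases lt_or_ge 0 (ψ (γ s)) with h3 | h3
    · rw [if_pos (Or.inr h3)]
      refine tendsto_const_nhds.congr' ?_
      filter_upwards [h2.eventually (Iio_mem_nhds h3)] with n hn
      have hn' : 1 / ((n : ℝ) + 1) < ψ (γ s) := hn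
      have hn0 : (0 : ℝ) < (n : ℝ) + 1 := by positivity
      have h4 : 1 ≤ ((n : ℝ) + 1) * ψ (γ s) := by
        rw [div_lt_iff₀ hn0] at hn'
        linarith
      rw [mcl_hi h4, max_eq_right (bnd_le_one _ _ _)]
    · have h5 : ∀ n : ℕ, mcl ((n : ℝ) + 1) (ψ (γ s)) = 0 := fun n => mcl_lo (by positivity) h3
      rcases lt_or_gt_of_ne (hs hmem) with h | h
      · rw [if_neg (by
          rintro (h4 | h4)
          · linarith
          · linarith)]
        refine tendsto_const_nhds.congr' ?_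
        filter_upwards [h2.eventually (Iio_mem_nhds (sub_pos.2 h))] with n hn
        have hn' : 1 / ((n : ℝ) + 1) < t - g (γ s) := hn
        rw [bnd_lo (by linarith [show (0 : ℝ) < 1 / ((n : ℝ) + 1) by positivity]) (by linarith), h5,
          max_self]
      · rw [if_pos (Or.inl h)]
        refine tendsto_const_nhds.congr fun n => ?_
        rw [bnd_hi (by linarith [show (0 : ℝ) < 1 / ((n : ℝ) + 1) by positivity]) h.le,
          max_eq_left (mcl_le_one _ _)]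

/-- the weights along the curve, second kind -/
theorem wgt2 (hγ : Bd γ) {g ψ W : M → ℝ} (hg : Lip g) (hψ : Lip ψ) (hW : Lip W)
    (hW0 : ∀ x, 0 ≤ W x) (hW1 : ∀ x, W x ≤ 1) {t : ℝ} :
    Tendsto (fun n : ℕ => ∫ s in (0 : ℝ)..(2 * Real.pi), W (γ s) *
        ((1 - bnd (t + 1 / ((n : ℝ) + 1)) (t + 2 / ((n : ℝ) + 1)) (g (γ s))) *
          mcl ((n : ℝ) + 1) (ψ (γ s)))) atTop
      (𝓝 (∫ s in (0 : ℝ)..(2 * Real.pi), W (γ s) * (if g (γ s) ≤ t ∧ 0 < ψ (γ s) then 1 else 0))) := by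
  have hpi := Real.pi_pos
  have hgc : Continuous fun s => g (γ s) := hg.cont.comp hγ.lip.continuous
  have hψc : Continuous fun s => ψ (γ s) := hψ.cont.comp hγ.lip.continuous
  have hWc : Continuous fun s => W (γ s) := hW.cont.comp hγ.lip.continuous
  refine intervalIntegral.tendsto_integral_filter_of_dominated_convergence (fun _ => (1 : ℝ)) ?_ ?_
    intervalIntegrable_const ?_
  · refine Eventually.of_forall fun n => ?_
    have hc : Continuous fun s => W (γ s) *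
        ((1 - bnd (t + 1 / ((n : ℝ) + 1)) (t + 2 / ((n : ℝ) + 1)) (g (γ s))) *
          mcl ((n : ℝ) + 1) (ψ (γ s))) := by
      unfold bnd
      exact hWc.mul ((continuous_const.sub (continuous_const.max
        (continuous_const.min ((hgc.sub continuous_const).div_const _)))).mul
        ((cont_mcl _).comp hψc))
    exact hc.aestronglyMeasurable
  · refine Eventually.of_forall fun n => Eventually.of_forall fun s _ => ?_
    have a0 := bnd_nonneg (t + 1 / ((n : ℝ) + 1)) (t + 2 / ((n : ℝ) + 1)) (g (γ s))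
    have a1 := bnd_le_one (t + 1 / ((n : ℝ) + 1)) (t + 2 / ((n : ℝ) + 1)) (g (γ s))
    have b0 := mcl_nonneg ((n : ℝ) + 1) (ψ (γ s))
    have b1 := mcl_le_one ((n : ℝ) + 1) (ψ (γ s))
    have c0 := mul_nonneg (sub_nonneg.2 a1) b0
    have c1 := mul_le_one₀ (show 1 - bnd (t + 1 / ((n : ℝ) + 1)) (t + 2 / ((n : ℝ) + 1)) (g (γ s)) ≤ 1 by
      linarith) b0 b1
    rw [Real.norm_eq_abs, abs_of_nonneg (mul_nonneg (hW0 _) c0)]
    exact mul_le_one₀ (hW1 _) c0 c1
  · refine Eventually.of_forall fun s _ => ?_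
    refine Tendsto.const_mul (W (γ s)) ?_
    have h2 : Tendsto (fun n : ℕ => 1 / ((n : ℝ) + 1)) atTop (𝓝 0) := tendsto_one_div_add_atTop_nhds_zero_nat
    have h2' : Tendsto (fun n : ℕ => 2 * (1 / ((n : ℝ) + 1))) atTop (𝓝 (2 * 0)) := h2.const_mul 2
    rw [mul_zero] at h2'
    rcases lt_or_ge 0 (ψ (γ s)) with h3 | h3
    · rcases le_or_gt (g (γ s)) t with h | h
      · rw [if_pos ⟨h, h3⟩]
        refine tendsto_const_nhds.congr' ?_
        filter_upwards [h2.eventually (Iio_mem_nhds h3)] with n hn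
        have hn' : 1 / ((n : ℝ) + 1) < ψ (γ s) := hn
        have hn0 : (0 : ℝ) < (n : ℝ) + 1 := by positivity
        have h4 : 1 ≤ ((n : ℝ) + 1) * ψ (γ s) := by
          rw [div_lt_iff₀ hn0] at hn'
          linarith
        have h5 : (0 : ℝ) < 1 / ((n : ℝ) + 1) := by positivity
        have h6 : (2 : ℝ) / ((n : ℝ) + 1) = 2 * (1 / ((n : ℝ) + 1)) := by ring
        rw [mcl_hi h4, bnd_lo (by rw [h6]; linarith) (by linarith), sub_zero, mul_one]
      · rw [if_neg fun h4 => absurd h4.1 (not_le.2 h)]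
        refine tendsto_const_nhds.congr' ?_
        filter_upwards [h2'.eventually (Iio_mem_nhds (sub_pos.2 h))] with n hn
        have hn' : 2 * (1 / ((n : ℝ) + 1)) < g (γ s) - t := hn
        have h5 : (0 : ℝ) < 1 / ((n : ℝ) + 1) := by positivity
        have h6 : (2 : ℝ) / ((n : ℝ) + 1) = 2 * (1 / ((n : ℝ) + 1)) := by ring
        rw [bnd_hi (by rw [h6]; linarith) (by rw [h6]; linarith), sub_self, zero_mul]
    · have h5 : ∀ n : ℕ, mcl ((n : ℝ) + 1) (ψ (γ s)) = 0 := fun n => mcl_lo (by positivity) h3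
      rw [if_neg fun h4 => absurd h4.2 (not_lt.2 h3)]
      refine tendsto_const_nhds.congr fun n => ?_
      rw [h5, mul_zero]

/-- level lengths of the removal function with a strip: a common level for finitely many weights -/
theorem lev57 [CompactSpace M] (hγ : Bd γ) (hnot : ∀ᵐ o ∂C.μ, C.pt o ∉ range γ) {b : M → ℝ}
    (hb : Lip b) (hb0 : ∀ x, 0 ≤ b x) (hbr : ∀ x, b x = 0 → x ∈ range γ)
    (hcol : ∀ ψ : M → ℝ, Lip ψ → (∀ x, 0 ≤ ψ x) → ∀ ε : ℝ, 0 < ε → ∀ᶠ σ : ℝ in 𝓝[>] 0,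
      ∫ o in {o | b (C.pt o) < σ}, ψ (C.pt o) * √(C.gx b o ^ 2 + C.gy b o ^ 2) ∂C.μ
        ≤ σ * ((∫ s in (0 : ℝ)..(2 * Real.pi), ψ (γ s)) + ε))
    {g : M → ℝ} (hg : Lip g) {t : ℝ}
    (hnull : volume {s : ℝ | s ∈ Ioc 0 (2 * Real.pi) ∧ g (γ s) = t} = 0)
    {ψ0 : M → ℝ} (hψ : Lip ψ0) (hψ1 : ∀ x, ψ0 x ≤ 1) {ι : Type} [Fintype ι]
    {W : ι → M → ℝ} (hW : ∀ i, Lip (W i)) (hW0 : ∀ i x, 0 ≤ W i x) (hW1 : ∀ i x, W i x ≤ 1)
    {S c : ι → ℝ} (hS : ∀ i, HasDerivAt (mz C (gn C g) g (W i)) (S i) t) (hc : ∀ i, 0 ≤ c i)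
    {η : ℝ} (hη : 0 < η) :
    ∀ᶠ ω : ℝ in 𝓝[>] 0, ∀ τ : ℝ, 0 < τ → τ ≤ 1 → ∀ᶠ s0 : ℝ in 𝓝[>] 0, ∀ P : ℝ → Prop,
      (∀ᵐ s : ℝ, P s) → ∃ s, 0 < s ∧ s < s0 ∧ P s ∧
      (∀ i, DifferentiableAt ℝ (mz C (gn C (wrem g ψ0 b t ((1 + τ) * s0) ω))
        (wrem g ψ0 b t ((1 + τ) * s0) ω) (W i)) s) ∧
      ∑ i, c i * deriv (mz C (gn C (wrem g ψ0 b t ((1 + τ) * s0) ω))
        (wrem g ψ0 b t ((1 + τ) * s0) ω) (W i)) s ≤
      (1 + τ) * ∑ i, c i * (S i +
        ((∫ s in (0 : ℝ)..(2 * Real.pi), W i (γ s) * (if t < g (γ s) ∨ 0 < ψ0 (γ s) then 1 else 0)) +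
        ∫ s in (0 : ℝ)..(2 * Real.pi), W i (γ s) * (if g (γ s) ≤ t ∧ 0 < ψ0 (γ s) then 1 else 0))) + η := by
  have hpi := Real.pi_pos
  have := C.fin
  obtain ⟨L, hL⟩ := hψ
  have lψ : Lip ψ0 := ⟨L, hL⟩
  set X1 : ι → ℝ := fun i => ∫ s in (0 : ℝ)..(2 * Real.pi),
    W i (γ s) * (if t < g (γ s) ∨ 0 < ψ0 (γ s) then 1 else 0) with hX1
  set X2 : ι → ℝ := fun i => ∫ s in (0 : ℝ)..(2 * Real.pi),
    W i (γ s) * (if g (γ s) ≤ t ∧ 0 < ψ0 (γ s) then 1 else 0) with hX2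
  have X1n : ∀ i, 0 ≤ X1 i := fun i => intervalIntegral.integral_nonneg (by positivity) fun s _ =>
    mul_nonneg (hW0 i _) (by split_ifs <;> norm_num)
  have X2n : ∀ i, 0 ≤ X2 i := fun i => intervalIntegral.integral_nonneg (by positivity) fun s _ =>
    mul_nonneg (hW0 i _) (by split_ifs <;> norm_num)
  set Cs : ℝ := ∑ i, c i with hCs
  have Cs0 : 0 ≤ Cs := Finset.sum_nonneg fun i _ => hc i
  set ε : ℝ := η / (26 * (Cs + 1)) with hε
  have hε0 : 0 < ε := by positivity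
  have hεη : 13 * ε * Cs ≤ η / 2 := by
    rw [hε]
    have h1 : 13 * (η / (26 * (Cs + 1))) * Cs = η / 2 * (Cs / (Cs + 1)) := by
      field_simp
      ring
    rw [h1]
    have h2 : Cs / (Cs + 1) ≤ 1 := (div_le_one (by linarith)).2 (by linarith)
    exact mul_le_of_le_one_right (by linarith) h2
  -- the approximation of the weights
  have ev1 : ∀ᶠ n : ℕ in atTop, ∀ i, ∫ s in (0 : ℝ)..(2 * Real.pi), W i (γ s) *
      max (bnd (t - 1 / ((n : ℝ) + 1)) t (g (γ s))) (mcl ((n : ℝ) + 1) (ψ0 (γ s))) < X1 i + ε := by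
    rw [eventually_all]
    intro i
    exact (wgt1 hγ hg lψ (hW i) (hW0 i) (hW1 i) hnull).eventually
      (Iio_mem_nhds (show X1 i < X1 i + ε by linarith))
  have ev2 : ∀ᶠ n : ℕ in atTop, ∀ i, ∫ s in (0 : ℝ)..(2 * Real.pi), W i (γ s) *
      ((1 - bnd (t + 1 / ((n : ℝ) + 1)) (t + 2 / ((n : ℝ) + 1)) (g (γ s))) *
        mcl ((n : ℝ) + 1) (ψ0 (γ s))) < X2 i + ε := by
    rw [eventually_all]
    intro i
    exact (wgt2 hγ hg lψ (hW i) (hW0 i) (hW1 i)).eventually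
      (Iio_mem_nhds (show X2 i < X2 i + ε by linarith))
  have ev3 : ∀ᶠ n : ℕ in atTop, (2 * Real.pi + ε) * (1 / ((n : ℝ) + 1)) < ε := by
    have h2 : Tendsto (fun n : ℕ => (2 * Real.pi + ε) * (1 / ((n : ℝ) + 1))) atTop
      (𝓝 ((2 * Real.pi + ε) * 0)) := tendsto_one_div_add_atTop_nhds_zero_nat.const_mul _
    rw [mul_zero] at h2
    exact h2.eventually (Iio_mem_nhds hε0)
  obtain ⟨n, n1, n2, n3⟩ := (ev1.and (ev2.and ev3)).exists
  set m : ℝ := (n : ℝ) + 1 with hm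
  have hm0 : 0 < m := by positivity
  have hm1 : 0 < 1 / m := by positivity
  set Ψ1 : M → ℝ := fun x => max (bnd (t - 1 / m) t (g x)) (mcl m (ψ0 x)) with hΨ1
  set Ψ2 : M → ℝ := fun x => (1 - bnd (t + 1 / m) (t + 2 / m) (g x)) * mcl m (ψ0 x) with hΨ2
  have h2m : 2 / m = 2 * (1 / m) := by ring
  have lo : Lip (fun _ : M => (1 : ℝ)) := lip_const 1
  have lm : Lip (fun x => mcl m (ψ0 x)) := lip_mcl lψ m
  have l1 : Lip Ψ1 := (lip_bnd hg (by linarith)).max lm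
  have l2 : Lip Ψ2 := (lo.sub (lip_bnd hg (by rw [h2m]; linarith))).mul lm
  have m0 : ∀ x, 0 ≤ mcl m (ψ0 x) := fun x => mcl_nonneg _ _
  have h10 : ∀ x, 0 ≤ Ψ1 x := fun x => (bnd_nonneg _ _ _).trans (le_max_left _ _)
  have h11 : ∀ x, Ψ1 x ≤ 1 := fun x => max_le (bnd_le_one _ _ _) (mcl_le_one _ _)
  have h20 : ∀ x, 0 ≤ Ψ2 x := fun x => mul_nonneg (sub_nonneg.2 (bnd_le_one _ _ _)) (m0 x)
  have h21 : ∀ x, Ψ2 x ≤ 1 := fun x => mul_le_one₀ (by linarith [bnd_nonneg (t + 1 / m) (t + 2 / m) (g x)])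
    (m0 x) (mcl_le_one _ _)
  have mψ : ∀ x, 1 / m ≤ ψ0 x → mcl m (ψ0 x) = 1 := fun x hx => by
    refine mcl_hi ?_
    rw [div_le_iff₀ hm0] at hx
    linarith
  have k1 : ∀ x, t < g x → Ψ1 x = 1 := fun x hx => by
    simp only [hΨ1]
    rw [bnd_hi (by linarith) hx.le, max_eq_left (mcl_le_one _ _)]
  have k2 : ∀ x, 1 / m ≤ ψ0 x → Ψ1 x = 1 := fun x hx => by
    simp only [hΨ1]
    rw [mψ x hx, max_eq_right (bnd_le_one _ _ _)]
  have k3 : ∀ s0, s0 < 1 / m → ∀ x, g x < t + s0 → 1 / m ≤ ψ0 x → Ψ2 x = 1 := fun s0 hs x hx hx' => by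
    simp only [hΨ2]
    rw [mψ x hx', bnd_lo (by rw [h2m]; linarith) (by linarith), sub_zero, mul_one]
  have lW1 : ∀ i, Lip fun x => W i x * Ψ1 x := fun i => (hW i).mul l1
  have lW2 : ∀ i, Lip fun x => W i x * Ψ2 x := fun i => (hW i).mul l2
  -- the collar in terms of mz
  have col : ∀ ψ : M → ℝ, Lip ψ → (∀ x, 0 ≤ ψ x) → ∀ᶠ σ : ℝ in 𝓝[>] 0,
      mz C (gn C b) b ψ σ ≤ σ * ((∫ s in (0 : ℝ)..(2 * Real.pi), ψ (γ s)) + ε) := fun ψ h1 h2 =>
    hcol ψ h1 h2 ε hε0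
  have col1 : ∀ᶠ σ : ℝ in 𝓝[>] 0, mz C (gn C b) b (fun _ => 1) σ ≤ σ * (2 * Real.pi + ε) := by
    have h1 := col (fun _ => 1) lo fun _ => zero_le_one
    simpa using h1
  have tdiv : ∀ a : ℝ, 0 < a → Tendsto (fun ω : ℝ => a * ω / m) (𝓝[>] 0) (𝓝[>] 0) := by
    intro a ha
    refine tendsto_nhdsWithin_iff.2 ⟨?_, ?_⟩
    · have h1 : Tendsto (fun ω : ℝ => a * ω / m) (𝓝 0) (𝓝 (a * 0 / m)) :=
        (tendsto_id.const_mul a).div_const m
      rw [mul_zero, zero_div] at h1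
      exact h1.mono_left nhdsWithin_le_nhds
    · filter_upwards [self_mem_nhdsWithin] with ω hω
      have : (0 : ℝ) < ω := hω
      change 0 < a * ω / m
      positivity
  obtain ⟨δ, hδ, hδ'⟩ := collar_small (μ := C.μ) (C.meas_pt hb) 0 (η := ε / ((L : ℝ) + 1)) (by positivity)
  have ew2 : ∀ᶠ ω : ℝ in 𝓝[>] 0, ∀ i, mz C (gn C b) b (fun x => W i x * Ψ2 x) ω ≤
      ω * ((∫ s in (0 : ℝ)..(2 * Real.pi), W i (γ s) * Ψ2 (γ s)) + ε) := by
    rw [eventually_all]
    exact fun i => col _ (lW2 i) fun x => mul_nonneg (hW0 i x) (h20 x)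
  have ew3 : ∀ᶠ ω : ℝ in 𝓝[>] 0, mz C (gn C b) b (fun _ => 1) (1 * ω / m) ≤
      1 * ω / m * (2 * Real.pi + ε) := (tdiv 1 one_pos).eventually col1
  have hbp : ∀ᵐ o ∂C.μ, 0 < b (C.pt o) := by
    filter_upwards [hnot] with o ho
    exact lt_of_le_of_ne (hb0 _) fun h => ho (hbr _ h.symm)
  filter_upwards [ew2, ew3, Ioo_mem_nhdsGT hδ] with ω w2 w3 w4 τ hτ0 hτ1
  have hω : 0 < ω := w4.1
  rw [one_mul] at w3
  have wL : (L : ℝ) * (C.μ {o | 0 < b (C.pt o) ∧ b (C.pt o) < 0 + ω}).toReal ≤ ε := by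
    have h1 := hδ' ω hω w4.2.le
    have h2 : (L : ℝ) * (ε / ((L : ℝ) + 1)) ≤ ε := by
      have e1 : (L : ℝ) * (ε / ((L : ℝ) + 1)) = ε * ((L : ℝ) / ((L : ℝ) + 1)) := by ring
      rw [e1]
      exact mul_le_of_le_one_right hε0.le ((div_le_one (by positivity)).2 (by linarith))
    exact (mul_le_mul_of_nonneg_left h1 L.2).trans h2
  have es1 : ∀ᶠ s0 : ℝ in 𝓝[>] 0, ∀ i, mz C (gn C b) b (fun x => W i x * Ψ1 x) s0 ≤
      s0 * ((∫ s in (0 : ℝ)..(2 * Real.pi), W i (γ s) * Ψ1 (γ s)) + ε) := by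
    rw [eventually_all]
    exact fun i => col _ (lW1 i) fun x => mul_nonneg (hW0 i x) (h10 x)
  have es2 : ∀ᶠ s0 : ℝ in 𝓝[>] 0, mz C (gn C b) b (fun _ => 1) ((1 + τ) * s0 / m) ≤
      (1 + τ) * s0 / m * (2 * Real.pi + ε) := (tdiv (1 + τ) (by linarith)).eventually col1
  have es3 : ∀ᶠ s0 : ℝ in 𝓝[>] 0, ∀ i,
      mz C (gn C g) g (W i) (t + s0) - mz C (gn C g) g (W i) t ≤ s0 * (S i + ε) := by
    rw [eventually_all]
    intro i
    have h1 := (hS i).tendsto_slope_zero_right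
    filter_upwards [h1.eventually (Iio_mem_nhds (show S i < S i + ε by linarith)), self_mem_nhdsWithin]
      with σ hσ hσ0
    have hσ0' : (0 : ℝ) < σ := hσ0
    have h3 : σ⁻¹ * (mz C (gn C g) g (W i) (t + σ) - mz C (gn C g) g (W i) t) < S i + ε := hσ
    have h4 := mul_lt_mul_of_pos_left h3 hσ0'
    rw [← mul_assoc, mul_inv_cancel₀ hσ0'.ne', one_mul] at h4
    exact h4.le
  filter_upwards [es1, es2, es3, Ioo_mem_nhdsGT hm1] with s0 s1 s2 s3 s4 P hP
  have hs0 : 0 < s0 := s4.1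
  have hcc : 0 < (1 + τ) * s0 := mul_pos (by linarith) hs0
  have lw : Lip (wrem g ψ0 b t ((1 + τ) * s0) ω) := lip_wrem hg lψ hb t _ ω
  have iw := int_gn C lw
  have nw : ∀ᵐ o ∂C.μ, 0 ≤ gn C (wrem g ψ0 b t ((1 + τ) * s0) ω) o :=
    Eventually.of_forall fun o => gn_nonneg C _ o
  have S0 : ∀ i, 0 ≤ S i := fun i => by
    rw [← (hS i).deriv]
    exact mz_deriv_nonneg C hg (hW i) (hW0 i) (hW1 i) (int_gn C hg)
      (Eventually.of_forall fun o => gn_nonneg C _ o) t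
  have bound : ∀ i, mz C (gn C (wrem g ψ0 b t ((1 + τ) * s0) ω)) (wrem g ψ0 b t ((1 + τ) * s0) ω) (W i) s0
      ≤ s0 * ((1 + τ) * (S i + (X1 i + X2 i)) + 13 * ε) := by
    intro i
    have h1 := wlev_le C hg hb hL (hW i) l1 l2 hbp hψ1 (hW0 i) (hW1 i) h10 h11 h20 h21 hs0 hcc hω
      k1 k2 (k3 s0 s4.2)
    have a1 : mz C (gn C b) b (fun x => W i x * Ψ1 x) s0 ≤ s0 * (X1 i + 2 * ε) := by
      refine (s1 i).trans (mul_le_mul_of_nonneg_left ?_ hs0.le)
      have := n1 i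
      linarith
    have a2 : mz C (gn C b) b (fun _ => 1) ((1 + τ) * s0 / m) ≤ (1 + τ) * s0 * ε := by
      refine s2.trans ?_
      have e1 : (1 + τ) * s0 / m * (2 * Real.pi + ε) = (1 + τ) * s0 * ((2 * Real.pi + ε) * (1 / m)) := by
        ring
      rw [e1]
      exact mul_le_mul_of_nonneg_left n3.le hcc.le
    have a3 := s3 i
    have a4 : ω⁻¹ * mz C (gn C b) b (fun x => W i x * Ψ2 x) ω ≤ X2 i + 2 * ε := by
      have h3 := mul_le_mul_of_nonneg_left (w2 i) (inv_pos.2 hω).le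
      rw [← mul_assoc, inv_mul_cancel₀ hω.ne', one_mul] at h3
      have := n2 i
      linarith
    have a5 : ω⁻¹ * mz C (gn C b) b (fun _ => 1) (ω / m) ≤ ε := by
      have h3 := mul_le_mul_of_nonneg_left w3 (inv_pos.2 hω).le
      have e1 : ω⁻¹ * (ω / m * (2 * Real.pi + ε)) = (2 * Real.pi + ε) * (1 / m) := by
        field_simp
      rw [e1] at h3
      linarith
    have a6 : (1 + τ) * s0 * (L * (C.μ {o | 0 < b (C.pt o) ∧ b (C.pt o) < 0 + ω}).toReal +
        ω⁻¹ * mz C (gn C b) b (fun x => W i x * Ψ2 x) ω + ω⁻¹ * mz C (gn C b) b (fun _ => 1) (ω / m)) ≤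
        (1 + τ) * s0 * (ε + (X2 i + 2 * ε) + ε) :=
      mul_le_mul_of_nonneg_left (by linarith) hcc.le
    have hX := X1n i
    have hX' := X2n i
    have hS' := S0 i
    have p1 : 0 ≤ s0 * τ * X1 i := by positivity
    have p2 : 0 ≤ s0 * τ * S i := by positivity
    have p3 : s0 * τ * ε ≤ s0 * 1 * ε :=
      mul_le_mul_of_nonneg_right (mul_le_mul_of_nonneg_left hτ1 hs0.le) hε0.le
    nlinarith
  have fam := exists_level_fam (f := fun i => mz C (gn C (wrem g ψ0 b t ((1 + τ) * s0) ω))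
      (wrem g ψ0 b t ((1 + τ) * s0) ω) (W i))
    (fun i => mz_mono C lw (hW i) (hW0 i) (hW1 i) iw nw) hc hs0
    (fun i => integral_nonneg fun o => mul_nonneg (hW0 i _) (gn_nonneg C _ o))
    (K := (1 + τ) * ∑ i, c i * (S i + (X1 i + X2 i)) + 13 * ε * Cs)
    (K' := (1 + τ) * ∑ i, c i * (S i + (X1 i + X2 i)) + η) (by
      calc ∑ i, c i * mz C (gn C (wrem g ψ0 b t ((1 + τ) * s0) ω))
            (wrem g ψ0 b t ((1 + τ) * s0) ω) (W i) s0 ≤
            ∑ i, c i * (s0 * ((1 + τ) * (S i + (X1 i + X2 i)) + 13 * ε)) :=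
              Finset.sum_le_sum fun i _ => mul_le_mul_of_nonneg_left (bound i) (hc i)
        _ = s0 * ((1 + τ) * ∑ i, c i * (S i + (X1 i + X2 i)) + 13 * ε * Cs) := by
              rw [hCs, Finset.mul_sum, Finset.mul_sum, ← Finset.sum_add_distrib, Finset.mul_sum]
              refine Finset.sum_congr rfl fun i _ => ?_
              ring) (by linarith) hP
  exact fam

end Pool.Agent.FPM
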