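import Mathlib
import Pool.Agent.FPM.TMB
import Pool.Agent.FPM.SU3
import Pool.Agent.FPM.TRI

/-
I57X (helper57): the curve part of a label and the strips.
-/

open MeasureTheory Set Filter Topology
open scoped ENNReal NNReal

noncomputable section

namespace Pool.Agent.FPM

open Pool.Agent.EWD

variable {M : Type} [MetricSpace M] {γ : ℝ → M} {ι : Type}

theorem st_X (hγ : Bd γ) {g : M → ℝ} (hg : Lip g) (t : ℝ) {T : ℝ} [Fintype ι] {J : Finset ι} {e e' : ι → ℝ}
    (hJ : ∀ i ∈ J, T ≤ e i ∧ e i ≤ e' i ∧ e' i ≤ T + Real.pi) {O : ι → Set M}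
    (hd : ∀ i j, i ≠ j → Disjoint (O i) (O j)) (hcov : Kt γ g t ⊆ ⋃ i, O i) {Z : ι → M → ℝ}
    (hZ : ∀ i, Lip (Z i)) (hZ0 : ∀ i x, 0 ≤ Z i x) (hZ1 : ∀ i x, Z i x ≤ 1) (hZO : ∀ i, ∀ x ∈ O i, Z i x = 1)
    (hZd : ∀ i j, j ≠ i → ∀ x ∈ O j, Z i x = 0) {k : ι → ι}
    (hk : ∀ i ∈ J, γ '' Icc (e i + Real.pi) (e' i + Real.pi) ⊆ O (k i)) {ψ0 : M → ℝ} (_hψ : Lip ψ0)
    (hψs : ∀ s, 0 < ψ0 (γ s) → ∃ i ∈ J, ∃ m : ℤ, s + m * (2 * Real.pi) ∈ Ioo (e i + Real.pi) (e' i + Real.pi)) (i : ι) :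
    ∫ s in (0:ℝ)..(2 * Real.pi), Z i (γ s) * ((if t < g (γ s) ∨ 0 < ψ0 (γ s) then 1 else 0) +
      (if g (γ s) ≤ t ∧ 0 < ψ0 (γ s) then 1 else 0)) ≤ Gz γ g t (Z i) +
      2 * (volume ({s | ∃ j ∈ J, k j = i ∧ s ∈ Ioc (e j + Real.pi) (e' j + Real.pi)} ∩ {s | g (γ s) ≤ t})).toReal := by
  have hpi := Real.pi_pos
  -- the periodic strip set
  set B : Set ℝ := {s | ∃ j ∈ J, k j = i ∧ ∃ m : ℤ, s + m * (2 * Real.pi) ∈ Ioc (e j + Real.pi) (e' j + Real.pi)} ∩
    {s | g (γ s) ≤ t} with hB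
  have mB : MeasurableSet B := by
    refine MeasurableSet.inter ?_ (isClosed_le (hg.cont.comp hγ.lip.continuous) continuous_const).measurableSet
    have e0 : {s : ℝ | ∃ j ∈ J, k j = i ∧ ∃ m : ℤ, s + m * (2 * Real.pi) ∈ Ioc (e j + Real.pi) (e' j + Real.pi)} =
        ⋃ j ∈ (J : Set ι), ⋃ _ : k j = i, ⋃ m : ℤ, (fun s : ℝ => s + m * (2 * Real.pi)) ⁻¹'
          Ioc (e j + Real.pi) (e' j + Real.pi) := by
      ext s
      simp only [Set.mem_ofPred_eq, mem_iUnion, mem_preimage, exists_prop, Finset.mem_coe]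
    rw [e0]
    refine MeasurableSet.biUnion (Finset.countable_toSet J) fun j _ => ?_
    refine MeasurableSet.iUnion fun _ => MeasurableSet.iUnion fun m => ?_
    exact (measurable_id.add_const _) measurableSet_Ioc
  have pB : ∀ s, s + 2 * Real.pi ∈ B ↔ s ∈ B := by
    intro s
    have h1 : g (γ (s + 2 * Real.pi)) = g (γ s) := by rw [hγ.per s]
    simp only [hB, mem_inter_iff, Set.mem_ofPred_eq, h1]
    refine and_congr_left fun _ => ?_
    refine exists_congr fun j => and_congr_right fun _ => and_congr_right fun _ => ?_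
    constructor
    · rintro ⟨m, hm⟩
      refine ⟨m + 1, ?_⟩
      have e1 : s + ((m + 1 : ℤ) : ℝ) * (2 * Real.pi) = s + 2 * Real.pi + m * (2 * Real.pi) := by
        push_cast
        ring
      rw [e1]
      exact hm
    · rintro ⟨m, hm⟩
      refine ⟨m - 1, ?_⟩
      have e1 : s + 2 * Real.pi + ((m - 1 : ℤ) : ℝ) * (2 * Real.pi) = s + m * (2 * Real.pi) := by
        push_cast
        ring
      rw [e1]
      exact hm
  have vB : volume (B ∩ Ioc 0 (2 * Real.pi)) ≤ volume ({s | ∃ j ∈ J, k j = i ∧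
      s ∈ Ioc (e j + Real.pi) (e' j + Real.pi)} ∩ {s | g (γ s) ≤ t}) := by
    rw [tri_per_vol mB pB (T + Real.pi)]
    refine measure_mono ?_
    rintro s ⟨⟨⟨j, hj, hki, m, hm1, hm2⟩, hgs⟩, hs1, hs2⟩
    refine ⟨⟨j, hj, hki, ?_⟩, hgs⟩
    obtain ⟨a1, a2, a3⟩ := hJ j hj
    have h2 : (m : ℝ) * (2 * Real.pi) < 1 * (2 * Real.pi) := by linarith
    have h3 : (-1 : ℝ) * (2 * Real.pi) < m * (2 * Real.pi) := by linarith
    have h4 : (m : ℝ) < 1 := lt_of_mul_lt_mul_right h2 (by positivity)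
    have h5 : (-1 : ℝ) < m := lt_of_mul_lt_mul_right h3 (by positivity)
    have h6 : m < (1 : ℤ) := by exact_mod_cast h4
    have h7 : (-1 : ℤ) < m := by exact_mod_cast h5
    have h8 : m = 0 := by omega
    rw [h8, Int.cast_zero, zero_mul, add_zero] at hm1 hm2
    exact ⟨hm1, hm2⟩
  have fB : volume ({s | ∃ j ∈ J, k j = i ∧
      s ∈ Ioc (e j + Real.pi) (e' j + Real.pi)} ∩ {s | g (γ s) ≤ t}) ≠ ∞ := by
    refine ne_top_of_le_ne_top ?_ (measure_mono (t := Icc (T + Real.pi) (T + Real.pi + Real.pi)) ?_)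
    · rw [Real.volume_Icc]
      exact ENNReal.ofReal_ne_top
    · rintro s ⟨⟨j, hj, _, h1, h2⟩, _⟩
      obtain ⟨a1, a2, a3⟩ := hJ j hj
      exact ⟨by linarith, by linarith⟩
  -- the pointwise bound
  have hpt : ∀ s, Z i (γ s) * ((if t < g (γ s) ∨ 0 < ψ0 (γ s) then 1 else 0) +
      (if g (γ s) ≤ t ∧ 0 < ψ0 (γ s) then 1 else 0)) ≤
      (Apt γ g t (Z i)).indicator (fun _ => (1 : ℝ)) s + 2 * B.indicator (fun _ => (1 : ℝ)) s := by
    intro s
    have n1 : 0 ≤ (Apt γ g t (Z i)).indicator (fun _ => (1 : ℝ)) s := indicator_nonneg (fun _ _ => zero_le_one) s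
    have n2 : 0 ≤ B.indicator (fun _ => (1 : ℝ)) s := indicator_nonneg (fun _ _ => zero_le_one) s
    rcases lt_or_ge t (g (γ s)) with h | h
    · rw [if_pos (Or.inl h), if_neg (fun h' => absurd h'.1 (not_le.2 h)), add_zero, mul_one]
      obtain ⟨j, hj⟩ := mem_iUnion.1 (hcov (Or.inr ⟨mem_range_self s, h.le⟩))
      by_cases hij : j = i
      · subst hij
        have h1 := hZO j _ hj
        rw [indicator_of_mem (show s ∈ Apt γ g t (Z j) from ⟨h1, h⟩), h1]
        linarith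
      · rw [hZd i j hij _ hj]
        linarith
    · by_cases h0 : 0 < ψ0 (γ s)
      · rw [if_pos (Or.inr h0), if_pos ⟨h, h0⟩]
        obtain ⟨j, hj, m, hm⟩ := hψs s h0
        have h1 : γ s ∈ O (k j) := by
          rw [← bd_per_int hγ s m]
          exact hk j hj (mem_image_of_mem γ ⟨hm.1.le, hm.2.le⟩)
        by_cases hij : k j = i
        · rw [indicator_of_mem (show s ∈ B from ⟨⟨j, hj, hij, m, hm.1, hm.2.le⟩, h⟩)]
          linarith [hZ1 i (γ s)]
        · rw [hZd i (k j) hij _ h1]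
          linarith
      · rw [if_neg (fun h' => h'.elim (fun h'' => absurd h'' (not_lt.2 h)) h0), if_neg (fun h' => h0 h'.2),
          add_zero, mul_zero]
        linarith
  have mA := meas_Apt hγ hg (hZ i) t
  have iA : ∀ A : Set ℝ, MeasurableSet A → IntervalIntegrable (A.indicator fun _ => (1 : ℝ)) volume 0 (2 * Real.pi) := by
    intro A hA
    rw [intervalIntegrable_iff]
    exact (intervalIntegrable_iff.1 (intervalIntegrable_const (c := (1 : ℝ)))).indicator hA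
  have iR : IntervalIntegrable (fun s => (Apt γ g t (Z i)).indicator (fun _ => (1 : ℝ)) s +
      2 * B.indicator (fun _ => (1 : ℝ)) s) volume 0 (2 * Real.pi) :=
    (iA _ mA).add ((iA _ mB).const_mul 2)
  have h1 : ∫ s in (0:ℝ)..(2 * Real.pi), Z i (γ s) * ((if t < g (γ s) ∨ 0 < ψ0 (γ s) then 1 else 0) +
      (if g (γ s) ≤ t ∧ 0 < ψ0 (γ s) then 1 else 0)) ≤
      ∫ s in (0:ℝ)..(2 * Real.pi), ((Apt γ g t (Z i)).indicator (fun _ => (1 : ℝ)) s +
        2 * B.indicator (fun _ => (1 : ℝ)) s) := by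
    rw [intervalIntegral.integral_of_le (by positivity), intervalIntegral.integral_of_le (by positivity)]
    refine integral_mono_of_nonneg ?_ ?_ (Eventually.of_forall hpt)
    · refine Eventually.of_forall fun s => mul_nonneg (hZ0 i _) ?_
      split_ifs <;> norm_num
    · rw [intervalIntegrable_iff, uIoc_of_le (by positivity)] at iR
      exact iR
  refine h1.trans ?_
  rw [intervalIntegral.integral_add (iA _ mA) ((iA _ mB).const_mul 2), ← Gz_eq_int hγ hg (hZ i),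
    intervalIntegral.integral_const_mul]
  have h2 : ∫ s in (0:ℝ)..(2 * Real.pi), B.indicator (fun _ => (1 : ℝ)) s =
      (volume (B ∩ Ioc 0 (2 * Real.pi))).toReal := by
    rw [intervalIntegral.integral_of_le (by positivity), integral_indicator mB,
      Measure.restrict_restrict mB]
    simp only [integral_const, Measure.real, Measure.restrict_apply MeasurableSet.univ, univ_inter,
      smul_eq_mul, mul_one]
  rw [h2]
  have h3 := ENNReal.toReal_mono fB vB
  linarith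

end Pool.Agent.FPM
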