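import Mathlib
import Pool.Agent.FPM.SU3
import Pool.Agent.FPM.SU4A

/-
I57YC (helper89): the collar of the function of the surgery inside a large piece is the collar of the
level of the function itself.
-/

set_option autoImplicit false

open MeasureTheory Set Filter Topology
open scoped ENNReal NNReal

noncomputable section

namespace Pool.Agent.FPM

open Pool.Agent.EWD Pool.Agent.FPX

variable {M : Type} [MetricSpace M] {γ : ℝ → M}

/-- a Lipschitz function times the norm of a gradient is integrable -/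
theorem int_lip_gn [CompactSpace M] (C : Calc M γ) {f g : M → ℝ} (hf : Lip f) (hg : Lip g) :
    Integrable (fun o => f (C.pt o) * gn C g o) C.μ := by
  obtain ⟨K, hK⟩ := hf
  obtain ⟨B, hB⟩ := isCompact_univ.exists_bound_of_continuousOn (f := f) hK.continuous.continuousOn
  obtain ⟨L, hL⟩ := hg
  refine C.integrable_of_bdd ((C.meas_pt ⟨K, hK⟩).mul (aem_gn C ⟨L, hL⟩)) (B := B * L) ?_
  filter_upwards [gn_bd C hL] with o ho
  rw [abs_mul, abs_of_nonneg (gn_nonneg C g o)]
  have h1 := hB (C.pt o) (mem_univ _)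
  rw [Real.norm_eq_abs] at h1
  exact mul_le_mul h1 ho (gn_nonneg C g o) ((abs_nonneg _).trans h1)

/-- the collar of `v` in `U` is at most the collar of `g` at the level `t`, if `v = g - t` where `v` is
positive -/
theorem st_C_le [CompactSpace M] (C : Calc M γ) {g v f : M → ℝ} (hg : Lip g) (hv : Lip v) (hf : Lip f)
    (hf0 : ∀ x, 0 ≤ f x) {t : ℝ} {U : Set M} (hvU : ∀ x ∈ U, 0 < v x → v x = g x - t)
    {Z : M → ℝ} (hZ : Lip Z) (hZ0 : ∀ x, 0 ≤ Z x) (hZ1 : ∀ x, Z x ≤ 1) (hZU : ∀ x ∈ U, Z x = 1)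
    {δ : ℝ} (hδ : 0 < δ) :
    ∫ o in {o | 0 < v (C.pt o) ∧ v (C.pt o) < δ ∧ C.pt o ∈ U}, f (C.pt o) * gn C v o ∂C.μ ≤
      mz C (fun o => f (C.pt o) * gn C g o) g Z (t + δ) -
        mz C (fun o => f (C.pt o) * gn C g o) g Z t := by
  have lP : Lip (fun x => max (g x - t) 0) := (hg.sub (lip_const t)).max (lip_const 0)
  have mv := C.meas_pt hv
  have mg := C.meas_pt hg
  have mP := C.meas_pt lP
  have mZ := C.meas_pt hZ
  set B : Set Om := {o | (v (C.pt o) = max (g (C.pt o) - t) 0 ∧ Z (C.pt o) = 1) ∧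
    (0 < v (C.pt o) ∧ v (C.pt o) < δ)} with hB
  have nB : NullMeasurableSet B C.μ := by
    refine NullMeasurableSet.inter (NullMeasurableSet.inter ?_ ?_) (NullMeasurableSet.inter ?_ ?_)
    · exact nullMeasurableSet_eq_fun mv mP
    · exact nullMeasurableSet_eq_fun mZ aemeasurable_const
    · exact nullMeasurableSet_lt aemeasurable_const mv
    · exact nullMeasurableSet_lt mv aemeasurable_const
  have iv : Integrable (fun o => f (C.pt o) * gn C v o) C.μ := int_lip_gn C hf hv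
  have ig : Integrable (fun o => f (C.pt o) * gn C g o) C.μ := int_lip_gn C hf hg
  have iZ : Integrable (fun o => Z (C.pt o) * (f (C.pt o) * gn C g o)) C.μ := by
    refine ig.mono' ((mZ.mul ig.aemeasurable).aestronglyMeasurable) (Eventually.of_forall fun o => ?_)
    have h0 : 0 ≤ f (C.pt o) * gn C g o := mul_nonneg (hf0 _) (gn_nonneg C g o)
    rw [Real.norm_of_nonneg (mul_nonneg (hZ0 _) h0)]
    exact mul_le_of_le_one_left h0 (hZ1 _)
  have s1 : ∫ o in {o | 0 < v (C.pt o) ∧ v (C.pt o) < δ ∧ C.pt o ∈ U},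
      f (C.pt o) * gn C v o ∂C.μ ≤ ∫ o in B, f (C.pt o) * gn C v o ∂C.μ := by
    refine setIntegral_mono_set iv.integrableOn
      (Eventually.of_forall fun o => mul_nonneg (hf0 _) (gn_nonneg C v o)) ?_
    refine HasSubset.Subset.eventuallyLE ?_
    rintro o ⟨h1, h2, h3⟩
    have h4 := hvU _ h3 h1
    refine ⟨⟨?_, hZU _ h3⟩, h1, h2⟩
    rw [h4] at h1
    rw [h4, max_eq_left h1.le]
  have s2 : ∫ o in B, f (C.pt o) * gn C v o ∂C.μ =
      ∫ o, B.indicator (fun o => Z (C.pt o) * (f (C.pt o) * gn C g o)) o ∂C.μ := by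
    rw [← integral_indicator₀ nB]
    refine integral_congr_ae ?_
    filter_upwards [loc_eq C hv lP, ae_pos' C hg t] with o h1 h2
    by_cases ho : o ∈ B
    · rw [indicator_of_mem ho, indicator_of_mem ho]
      obtain ⟨⟨h3, h4⟩, h5, h6⟩ := ho
      have h7 := h1 h3
      have h8 : t ≤ g (C.pt o) := by
        rw [h3] at h5
        rcases lt_max_iff.1 h5 with h | h
        · linarith
        · exact absurd h (lt_irrefl 0)
      have h9 := h2.2 h8
      have e : gn C v o = gn C g o := by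
        unfold gn
        rw [h7.1, h7.2, h9.1, h9.2]
      rw [h4, e, one_mul]
    · rw [indicator_of_notMem ho, indicator_of_notMem ho]
  rw [mz_eq C hg, mz_eq C hg, ← integral_sub (iZ.indicator₀ (meas_pt_lt C hg _))
    (iZ.indicator₀ (meas_pt_lt C hg _))]
  refine s1.trans (s2.trans_le ?_)
  refine integral_mono_ae (iZ.indicator₀ nB) ((iZ.indicator₀ (meas_pt_lt C hg _)).sub
    (iZ.indicator₀ (meas_pt_lt C hg _))) (Eventually.of_forall fun o => ?_)
  have h0 : 0 ≤ Z (C.pt o) * (f (C.pt o) * gn C g o) :=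
    mul_nonneg (hZ0 _) (mul_nonneg (hf0 _) (gn_nonneg C g o))
  change B.indicator (fun o => Z (C.pt o) * (f (C.pt o) * gn C g o)) o ≤
    {o | g (C.pt o) < t + δ}.indicator (fun o => Z (C.pt o) * (f (C.pt o) * gn C g o)) o -
      {o | g (C.pt o) < t}.indicator (fun o => Z (C.pt o) * (f (C.pt o) * gn C g o)) o
  by_cases h1 : g (C.pt o) < t
  · have m1 : o ∈ {o | g (C.pt o) < t} := h1
    have m2 : o ∈ {o | g (C.pt o) < t + δ} := by
      change g (C.pt o) < t + δ
      linarith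
    have m3 : o ∉ B := by
      rintro ⟨⟨h3, h4⟩, h5, h6⟩
      rw [h3, max_eq_right (by linarith)] at h5
      exact lt_irrefl 0 h5
    rw [indicator_of_mem m1, indicator_of_mem m2, indicator_of_notMem m3, sub_self]
  · have m1 : o ∉ {o | g (C.pt o) < t} := h1
    rw [indicator_of_notMem m1, sub_zero]
    by_cases h2 : o ∈ B
    · have m2 : o ∈ {o | g (C.pt o) < t + δ} := by
        change g (C.pt o) < t + δ
        obtain ⟨⟨h3, h4⟩, h5, h6⟩ := h2
        rw [h3, max_eq_left (by linarith [not_lt.1 h1])] at h6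
        linarith
      rw [indicator_of_mem h2, indicator_of_mem m2]
    · rw [indicator_of_notMem h2]
      exact indicator_apply_nonneg fun _ => h0

/-- C labels: the collar of `v` is the collar of `g` -/
theorem st_C [CompactSpace M] (C : Calc M γ) {g v f : M → ℝ} (hg : Lip g) (hv : Lip v) (hf : Lip f)
    (hf0 : ∀ x, 0 ≤ f x) {t : ℝ} {U : Set M} (_hU : IsOpen U)
    (hvU : ∀ x ∈ U, 0 < v x → v x = g x - t)
    {Z : M → ℝ} (hZ : Lip Z) (hZ0 : ∀ x, 0 ≤ Z x) (hZ1 : ∀ x, Z x ≤ 1) (hZU : ∀ x ∈ U, Z x = 1)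
    {F : ℝ} (hF : HasDerivAt (mz C (fun o => f (C.pt o) * gn C g o) g Z) F t) {ζ : ℝ} (hζ : 0 < ζ) :
    ∀ᶠ δ in 𝓝[>] (0:ℝ), 1 / δ * ∫ o in {o | 0 < v (C.pt o) ∧ v (C.pt o) < δ ∧ C.pt o ∈ U},
      f (C.pt o) * gn C v o ∂C.μ ≤ F + ζ := by
  have h1 := hF.tendsto_slope_zero_right
  have h2 := h1.eventually_lt_const (show F < F + ζ by linarith)
  filter_upwards [h2, self_mem_nhdsWithin] with δ h3 h4
  have h5 : (0:ℝ) < δ := h4
  have h6 := st_C_le C hg hv hf hf0 hvU hZ hZ0 hZ1 hZU h5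
  rw [smul_eq_mul] at h3
  refine le_trans ?_ h3.le
  rw [one_div]
  exact mul_le_mul_of_nonneg_left h6 (inv_nonneg.2 h5.le)

end Pool.Agent.FPM
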