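import Mathlib
import Pool.Agent.FPM.I57S
import Pool.Agent.FPM.I57LP

/-
I57D2 (helper43): the area bounds of the surgery theorem without charts.
-/

open MeasureTheory Set Filter Topology
open scoped ENNReal NNReal

noncomputable section

namespace Pool.Agent.FPM

open Pool.Agent.EWD Pool.Agent.FPX

variable {M : Type} [MetricSpace M] {γ : ℝ → M} {ι : Type} [Fintype ι]

theorem LP57.S_nonneg {C : Calc M γ} {f : M → ℝ} {t θ θ' l : ℝ} {big tr : Finset ι} {Z : ι → M → ℝ}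
    {O : ι → Set M} {S p q : ι → ℝ} (LP : LP57 C f t θ θ' l big tr Z O S p q) (i : ι) : 0 ≤ S i :=
  (Gz_nonneg γ f t (Z i)).trans (LP.GS i)

theorem LP57.l_nonneg {C : Calc M γ} {f : M → ℝ} {t θ θ' l : ℝ} {big tr : Finset ι} {Z : ι → M → ℝ}
    {O : ι → Set M} {S p q : ι → ℝ} (LP : LP57 C f t θ θ' l big tr Z O S p q) : 0 ≤ l := by
  rw [← LP.sumS]
  exact Finset.sum_nonneg fun i _ => LP.S_nonneg i

theorem LP57.sum_G_le {C : Calc M γ} {f : M → ℝ} {t θ θ' l : ℝ} {big tr : Finset ι} {Z : ι → M → ℝ}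
    {O : ι → Set M} {S p q : ι → ℝ} (LP : LP57 C f t θ θ' l big tr Z O S p q) :
    ∑ i, (S i + Gz γ f t (Z i)) ≤ 2 * l := by
  have h : ∑ i, (S i + Gz γ f t (Z i)) ≤ ∑ i, 2 * S i :=
    Finset.sum_le_sum fun i _ => by linarith [LP.GS i]
  rw [← Finset.mul_sum, LP.sumS] at h
  exact h

variable [CompactSpace M] [DecidableEq ι]

/-- the area above a level is at most a sum of squares over the big pieces, up to errors -/
theorem fstrat57 (hγ : Bd γ) {C : Calc M γ} (hC : Colb C) {ε : ℝ} (hmin : NM C ε) {f : M → ℝ} (hf : Lip f)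
    {t : ℝ} (hnull : volume {s : ℝ | s ∈ Ioc 0 (2 * Real.pi) ∧ f (γ s) = t} = 0) {θ θ' l : ℝ} (hθ : 0 < θ)
    (hθ' : 0 ≤ θ') {big tr : Finset ι} {Z : ι → M → ℝ} {O : ι → Set M} {S p q : ι → ℝ}
    (LP : LP57 C f t θ θ' l big tr Z O S p q) :
    2 * Real.pi * ((C.μ {o | t < f (C.pt o)}).toReal - ε) ≤
      ∑ i ∈ big, (S i + Gz γ f t (Z i)) ^ 2 + 2 * l * θ' + 4 * l * θ := by
  have hpi := Real.pi_pos
  have hG0 : ∀ i, 0 ≤ Gz γ f t (Z i) := fun i => Gz_nonneg γ f t (Z i)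
  have hS0 : ∀ i, 0 ≤ S i := LP.S_nonneg
  have hl0 : 0 ≤ l := LP.l_nonneg
  refine le_of_forall_pos_le_add fun ζ hζ => ?_
  set τ : ℝ := ζ / (4 * (l + 1)) with hτ
  have hτ0 : 0 < τ := by positivity
  have hτl : 4 * l * τ ≤ ζ := by
    have h1 : 4 * l * τ = ζ * (l / (l + 1)) := by
      rw [hτ]
      field_simp
    rw [h1]
    have h2 : l / (l + 1) ≤ 1 := (div_le_one (by linarith)).2 (by linarith)
    nlinarith
  set r : ι → ℝ := fun i => if i ∈ big then (S i + Gz γ f t (Z i) + θ') / 2 + τ else θ with hr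
  have hr0 : ∀ i, 0 < r i := fun i => by
    simp only [hr]
    split_ifs with h
    · linarith [hS0 i, hG0 i]
    · exact hθ
  have hrd : ∀ i, ∀ x ∈ O i, ∀ y ∈ O i, dist x y ≤ r i := fun i x hx y hy => by
    simp only [hr]
    split_ifs with h
    · have h1 := LP.per i h x hx y hy x hx
      rw [dist_self, dist_comm y x] at h1
      linarith
    · exact LP.dust i h x hx y hy
  have h57 := st57 hγ hC hmin hf hnull (T := 0) LP.op LP.dj LP.cov LP.lip LP.lo LP.hi LP.one LP.zer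
    (D := fun _ => 0) LP.der (J := ∅) (e := fun _ => 0) (e' := fun _ => 0) (by simp) (by simp) (by simp)
    (k := id) (r := r) (by simp) (fun i _ => ⟨hr0 i, hrd i⟩)
  simp only [Finset.sum_empty, Finset.notMem_empty, false_and, exists_false, setOf_false, empty_inter,
    measure_empty, ENNReal.toReal_zero, mul_zero, add_zero, zero_add, Finset.compl_empty] at h57
  have h1 : 2 * Real.pi * ((C.μ {o | t < f (C.pt o)}).toReal - ε) ≤
      ∑ i, 2 * r i * (S i + Gz γ f t (Z i)) := by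
    have h2 : 2 * Real.pi * ∑ i, r i / Real.pi * (S i + Gz γ f t (Z i)) = ∑ i, 2 * r i * (S i + Gz γ f t (Z i)) := by
      rw [Finset.mul_sum]
      refine Finset.sum_congr rfl fun i _ => ?_
      field_simp
    rw [← h2]
    exact mul_le_mul_of_nonneg_left (by linarith) (by positivity)
  have h3 : ∀ i, 2 * r i * (S i + Gz γ f t (Z i)) ≤
      (if i ∈ big then (S i + Gz γ f t (Z i)) ^ 2 else 0) + (θ' + 2 * τ + 2 * θ) * (S i + Gz γ f t (Z i)) := by
    intro i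
    have hi := add_nonneg (hS0 i) (hG0 i)
    simp only [hr]
    split_ifs with h
    · nlinarith [mul_nonneg hθ.le hi]
    · nlinarith [mul_nonneg hθ' hi, mul_nonneg hτ0.le hi]
  have h4 : ∑ i, 2 * r i * (S i + Gz γ f t (Z i)) ≤ ∑ i ∈ big, (S i + Gz γ f t (Z i)) ^ 2 +
      (θ' + 2 * τ + 2 * θ) * (2 * l) := by
    refine (Finset.sum_le_sum fun i _ => h3 i).trans ?_
    rw [Finset.sum_add_distrib, ← Finset.mul_sum, Finset.sum_ite_mem, Finset.univ_inter]
    have h5 : (θ' + 2 * τ + 2 * θ) * ∑ i, (S i + Gz γ f t (Z i)) ≤ (θ' + 2 * τ + 2 * θ) * (2 * l) :=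
      mul_le_mul_of_nonneg_left LP.sum_G_le (by positivity)
    linarith
  nlinarith

omit [CompactSpace M] [DecidableEq ι] in
/-- a big piece which does not meet the curve above the level has no trace -/
theorem LP57.G_zero {C : Calc M γ} {f : M → ℝ} {t θ θ' l : ℝ} {big tr : Finset ι} {Z : ι → M → ℝ}
    {O : ι → Set M} {S p q : ι → ℝ} (LP : LP57 C f t θ θ' l big tr Z O S p q) {i : ι} (hi : i ∈ big)
    (hit : i ∉ tr) : Gz γ f t (Z i) = 0 := by
  have h : Apt γ f t (Z i) = ∅ := by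
    refine eq_empty_of_forall_notMem fun s hs => ?_
    obtain ⟨h1, h2⟩ := hs
    have h3 : γ s ∈ Kt γ f t := Or.inr ⟨mem_range_self s, h2.le⟩
    obtain ⟨j, hj⟩ := mem_iUnion.1 (LP.cov h3)
    by_cases hij : j = i
    · subst hij
      exact absurd h2 (not_lt.2 (LP.notr _ hi hit s hj).le)
    · rw [LP.zer i j hij _ hj] at h1
      exact zero_ne_one h1
  simp [Gz, h]

theorem fstrat57' (hγ : Bd γ) {C : Calc M γ} (hC : Colb C) {ε : ℝ} (hmin : NM C ε) {f : M → ℝ} (hf : Lip f)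
    {t : ℝ} (hnull : volume {s : ℝ | s ∈ Ioc 0 (2 * Real.pi) ∧ f (γ s) = t} = 0) {θ θ' l : ℝ} (hθ : 0 < θ)
    (hθ' : 0 ≤ θ') {big tr : Finset ι} {Z : ι → M → ℝ} {O : ι → Set M} {S p q : ι → ℝ}
    (LP : LP57 C f t θ θ' l big tr Z O S p q)
    (hi1 : big = ∅ ∨ ∃ i1, i1 ∈ big ∧ i1 ∉ tr ∧ ∀ i ∈ big, S i + Gz γ f t (Z i) ≤ S i1 + Gz γ f t (Z i1)) :
    2 * Real.pi * ((C.μ {o | t < f (C.pt o)}).toReal - ε) ≤ l ^ 2 + 2 * l * θ' + 4 * l * θ := by
  have h1 := fstrat57 hγ hC hmin hf hnull hθ hθ' LP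
  have hG0 : ∀ i, 0 ≤ Gz γ f t (Z i) := fun i => Gz_nonneg γ f t (Z i)
  have hS0 : ∀ i, 0 ≤ S i := LP.S_nonneg
  suffices h : ∑ i ∈ big, (S i + Gz γ f t (Z i)) ^ 2 ≤ l ^ 2 by linarith
  rcases hi1 with rfl | ⟨i1, hb, htr, hmax⟩
  · simpa using sq_nonneg l
  · rw [LP.G_zero hb htr, add_zero] at hmax
    have h2 : ∑ i ∈ big, (S i + Gz γ f t (Z i)) ^ 2 ≤ S i1 * ∑ i ∈ big, (S i + Gz γ f t (Z i)) := by
      rw [Finset.mul_sum]
      refine Finset.sum_le_sum fun i hi => ?_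
      rw [sq]
      exact mul_le_mul_of_nonneg_right (hmax i hi) (add_nonneg (hS0 i) (hG0 i))
    have h3 : ∑ i ∈ big, (S i + Gz γ f t (Z i)) ≤ S i1 + 2 * (l - S i1) := by
      have h4 : ∑ i ∈ big, (S i + Gz γ f t (Z i)) ≤ ∑ i, (S i + Gz γ f t (Z i)) :=
        Finset.sum_le_univ_sum_of_nonneg fun i => add_nonneg (hS0 i) (hG0 i)
      have h5 : ∑ i, (S i + Gz γ f t (Z i)) ≤ ∑ i, (2 * S i - if i = i1 then S i1 else 0) := by
        refine Finset.sum_le_sum fun i _ => ?_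
        split_ifs with h
        · subst h
          rw [LP.G_zero hb htr]
          linarith
        · linarith [LP.GS i]
      rw [Finset.sum_sub_distrib, ← Finset.mul_sum, LP.sumS, Finset.sum_ite_eq' Finset.univ i1] at h5
      simp only [Finset.mem_univ, if_true] at h5
      linarith
    have h6 : S i1 * ∑ i ∈ big, (S i + Gz γ f t (Z i)) ≤ S i1 * (S i1 + 2 * (l - S i1)) :=
      mul_le_mul_of_nonneg_left h3 (hS0 i1)
    nlinarith [sq_nonneg (l - S i1)]

end Pool.Agent.FPM
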