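import Mathlib
import Pool.Agent.FPM.I57L
import Pool.Agent.FPM.I57P

/-
I57R1 (helper80), module G2 of ISO57 (labels): topology of the merged label, masses of the merged
cut-offs, distances in the merged label.
-/

open MeasureTheory Set Filter Topology
open scoped ENNReal NNReal

noncomputable section

namespace Pool.Agent.FPM

open Pool.Agent.EWD

variable {M : Type} [MetricSpace M] {γ : ℝ → M}

/-- **merged label**: the pieces `i ∈ Q` and a thin neighbourhood of the compact set `F` form one label -/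
theorem lab_top [CompactSpace M] {ι : Type} [Fintype ι] {K F : Set M} (hK : IsCompact K) (hF : IsCompact F)
    (hFne : F.Nonempty)
    {O : ι → Set M} (hO : ∀ i, IsOpen (O i)) (hd : ∀ i j, i ≠ j → Disjoint (O i) (O j))
    (hcov : K ⊆ ⋃ i, O i) {Z : ι → M → ℝ} (hZ : ∀ i, Lip (Z i)) (hZ0 : ∀ i x, 0 ≤ Z i x)
    (hZ1 : ∀ i x, Z i x ≤ 1) (hZO : ∀ i, ∀ x ∈ O i, Z i x = 1)
    (hZd : ∀ i j, i ≠ j → ∀ x ∈ O j, Z i x = 0) (Q : Finset ι)
    (hQ : ∀ i, i ∉ Q → ∀ x ∈ K, x ∈ O i → x ∉ F) {ρ : ℝ} (hρ : 0 < ρ) :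
    ∃ (O' : Option ι → Set M) (Z' : Option ι → M → ℝ) (W : Set M),
      (∀ j, IsOpen (O' j)) ∧ (∀ i j, i ≠ j → Disjoint (O' i) (O' j)) ∧ K ⊆ ⋃ j, O' j ∧
      (∀ j, Lip (Z' j)) ∧ (∀ j x, 0 ≤ Z' j x) ∧ (∀ j x, Z' j x ≤ 1) ∧
      (∀ j, ∀ x ∈ O' j, Z' j x = 1) ∧ (∀ i j, i ≠ j → ∀ x ∈ O' j, Z' i x = 0) ∧
      F ⊆ O' none ∧ (∀ x ∈ O' none, (∃ i ∈ Q, x ∈ O i) ∨ ∃ y ∈ F, dist x y < ρ) ∧
      (∀ i ∈ Q, O i ⊆ O' none) ∧
      (∀ i, i ∉ Q → O' (some i) ⊆ O i) ∧ (∀ i ∈ Q, O' (some i) = ∅) ∧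
      IsOpen W ∧ K ⊆ W ∧ (∀ x ∈ W, Z' none x = ∑ i ∈ Q, Z i x) ∧
      (∀ i, i ∉ Q → ∀ x ∈ W, Z' (some i) x = Z i x) ∧ (∀ i ∈ Q, ∀ x, Z' (some i) x = 0) ∧
      (∀ i, i ∉ Q → ∀ x ∈ K, x ∈ O i → x ∈ O' (some i)) := by
  classical
  -- the compact set to be avoided
  set G : Set M := K ∩ ⋂ j ∈ Q, (O j)ᶜ with hG
  have hGc : IsCompact G := hK.inter_right (isClosed_biInter fun j _ => (hO j).isClosed_compl)
  have hGF : Disjoint F G := by
    rw [Set.disjoint_left]
    rintro x hx ⟨h1, h2⟩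
    obtain ⟨i, hi⟩ := mem_iUnion.mp (hcov h1)
    by_cases hiQ : i ∈ Q
    · exact (mem_iInter₂.mp h2 i hiQ) hi
    · exact hQ i hiQ x h1 hi hx
  obtain ⟨d0, hd0, hdd⟩ := hGF.exists_thickenings hF hGc.isClosed
  have hinf : ∀ x ∈ G, d0 ≤ Metric.infDist x F := by
    intro x hx
    by_contra h
    rw [not_le] at h
    have h1 : x ∈ Metric.thickening d0 F := by
      rw [Metric.mem_thickening_iff_infDist_lt hFne]
      exact h
    exact Set.disjoint_left.1 hdd h1 (Metric.self_subset_thickening hd0 _ hx)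
  set r : ℝ := min (d0 / 4) (ρ / 2) with hr
  have hr0 : 0 < r := lt_min (by linarith) (by linarith)
  have hrd : r ≤ d0 / 4 := min_le_left _ _
  have hrρ : r ≤ ρ / 2 := min_le_right _ _
  have hinfc : Continuous fun x : M => Metric.infDist x F := Metric.continuous_infDist_pt _
  have hinfl : Lip fun x : M => Metric.infDist x F := ⟨1, Metric.lipschitz_infDist_pt _⟩
  -- the cut-off: 1 on {infDist < r}, 0 on {2 r ≤ infDist}
  set χ : M → ℝ := fun x => bnd (-(2 * r)) (-r) (-(Metric.infDist x F)) with hχ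
  have hχl : Lip χ := by
    have h1 : Lip fun x : M => (-1 : ℝ) * Metric.infDist x F := hinfl.const_mul (-1)
    have h2 : Lip fun x : M => -(Metric.infDist x F) := by simpa using h1
    exact lip_bnd h2 (by linarith)
  have hχ0 : ∀ x, 0 ≤ χ x := fun x => bnd_nonneg _ _ _
  have hχ1 : ∀ x, χ x ≤ 1 := fun x => bnd_le_one _ _ _
  have hχhi : ∀ x, Metric.infDist x F ≤ r → χ x = 1 := fun x h => bnd_hi (by linarith) (by linarith)
  have hχlo : ∀ x, 2 * r ≤ Metric.infDist x F → χ x = 0 := fun x h => bnd_lo (by linarith) (by linarith)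
  have hZQl : Lip fun x => ∑ i ∈ Q, Z i x := lip_sum Q fun i _ => hZ i
  have hZQ0 : ∀ x, 0 ≤ ∑ i ∈ Q, Z i x := fun x => Finset.sum_nonneg fun i _ => hZ0 i x
  set O' : Option ι → Set M := fun j => match j with
    | none => {x | Metric.infDist x F < r} ∪ ⋃ i ∈ Q, O i
    | some i => if i ∈ Q then ∅ else O i ∩ {x | 2 * r < Metric.infDist x F} with hO'
  set Z' : Option ι → M → ℝ := fun j => match j with
    | none => fun x => max (χ x) (min 1 (∑ i ∈ Q, Z i x))
    | some i => if i ∈ Q then (fun _ => 0) else (fun x => Z i x * (1 - χ x)) with hZ'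
  have eOn : O' none = {x | Metric.infDist x F < r} ∪ ⋃ i ∈ Q, O i := rfl
  have eOs1 : ∀ i ∈ Q, O' (some i) = ∅ := fun i hi => by simp only [hO', if_pos hi]
  have eOs2 : ∀ i, i ∉ Q → O' (some i) = O i ∩ {x | 2 * r < Metric.infDist x F} := fun i hi => by
    simp only [hO', if_neg hi]
  have eZn : ∀ x, Z' none x = max (χ x) (min 1 (∑ i ∈ Q, Z i x)) := fun x => rfl
  have eZs1 : ∀ i ∈ Q, ∀ x, Z' (some i) x = 0 := fun i hi x => by simp only [hZ', if_pos hi]
  have eZs2 : ∀ i, i ∉ Q → ∀ x, Z' (some i) x = Z i x * (1 - χ x) := fun i hi x => by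
    simp only [hZ', if_neg hi]
  -- values of the sum
  have sumQ1 : ∀ i ∈ Q, ∀ x ∈ O i, ∑ j ∈ Q, Z j x = 1 := by
    intro i hi x hx
    rw [Finset.sum_eq_single_of_mem i hi (fun j _ hj => hZd j i hj x hx)]
    exact hZO i x hx
  have sumQ0 : ∀ i, i ∉ Q → ∀ x ∈ O i, ∑ j ∈ Q, Z j x = 0 := by
    intro i hi x hx
    exact Finset.sum_eq_zero fun j hj => hZd j i (fun h => hi (h ▸ hj)) x hx
  have hOpen : ∀ j, IsOpen (O' j) := by
    intro j
    cases j with
    | none =>
      rw [eOn]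
      exact (isOpen_lt hinfc continuous_const).union (isOpen_biUnion fun i _ => hO i)
    | some i =>
      by_cases hi : i ∈ Q
      · rw [eOs1 i hi]; exact isOpen_empty
      · rw [eOs2 i hi]
        exact (hO i).inter (isOpen_lt continuous_const hinfc)
  have hdn : ∀ i, Disjoint (O' none) (O' (some i)) := by
    intro i
    by_cases hi : i ∈ Q
    · rw [eOs1 i hi]; exact disjoint_empty _
    · rw [eOs2 i hi, eOn, Set.disjoint_left]
      rintro x (hx | hx) ⟨h1, h2⟩
      · have h3 : Metric.infDist x F < r := hx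
        have h4 : 2 * r < Metric.infDist x F := h2
        linarith
      · obtain ⟨j, hj, hxj⟩ := mem_iUnion₂.mp hx
        exact Set.disjoint_left.1 (hd j i (fun h => hi (h ▸ hj))) hxj h1
  have hKinf : ∀ i, i ∉ Q → ∀ x ∈ K, x ∈ O i → 2 * r < Metric.infDist x F := by
    intro i hi x hx hxi
    have hxG : x ∈ G := by
      refine ⟨hx, mem_iInter₂.mpr fun j hj => ?_⟩
      intro hxj
      exact Set.disjoint_left.1 (hd j i (fun h => hi (h ▸ hj))) hxj hxi
    linarith [hinf x hxG]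
  have hcov' : ∀ x ∈ K, (∃ i ∈ Q, x ∈ O i) ∨ ∃ i, i ∉ Q ∧ x ∈ O i ∧ 2 * r < Metric.infDist x F := by
    intro x hx
    obtain ⟨i, hi⟩ := mem_iUnion.mp (hcov hx)
    by_cases hiQ : i ∈ Q
    · exact Or.inl ⟨i, hiQ, hi⟩
    · exact Or.inr ⟨i, hiQ, hi, hKinf i hiQ x hx hi⟩
  refine ⟨O', Z', {x | (∃ i ∈ Q, x ∈ O i) ∨ ∃ i, i ∉ Q ∧ x ∈ O i ∧ 2 * r < Metric.infDist x F}, hOpen,
    ?_, ?_, ?_, ?_, ?_, ?_, ?_, ?_, ?_, ?_, ?_, eOs1, ?_, ?_, ?_, ?_, ?_, ?_⟩
  · -- disjoint
    intro i j hij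
    cases i with
    | none =>
      cases j with
      | none => exact absurd rfl hij
      | some j => exact hdn j
    | some i =>
      cases j with
      | none => exact (hdn i).symm
      | some j =>
        have hne : i ≠ j := fun h => hij (by rw [h])
        by_cases hi : i ∈ Q
        · rw [eOs1 i hi]; exact empty_disjoint _
        · by_cases hj : j ∈ Q
          · rw [eOs1 j hj]; exact disjoint_empty _
          · rw [eOs2 i hi, eOs2 j hj]
            exact (hd i j hne).mono inter_subset_left inter_subset_left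
  · -- cover
    intro x hx
    rcases hcov' x hx with ⟨i, hi, h⟩ | ⟨i, hi, h, h2⟩
    · exact mem_iUnion.mpr ⟨none, Or.inr (mem_iUnion₂.mpr ⟨i, hi, h⟩)⟩
    · refine mem_iUnion.mpr ⟨some i, ?_⟩
      rw [eOs2 i hi]
      exact ⟨h, h2⟩
  · -- Lip
    intro j
    cases j with
    | none => exact hχl.max ((lip_const 1).min hZQl)
    | some i =>
      by_cases hi : i ∈ Q
      · have : Z' (some i) = fun _ => 0 := by funext x; exact eZs1 i hi x
        rw [this]; exact lip_const 0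
      · have : Z' (some i) = fun x => Z i x * (1 - χ x) := by funext x; exact eZs2 i hi x
        rw [this]
        exact (hZ i).mul ((lip_const 1).sub hχl)
  · intro j x
    cases j with
    | none => rw [eZn]; exact le_max_of_le_left (hχ0 x)
    | some i =>
      by_cases hi : i ∈ Q
      · rw [eZs1 i hi]
      · rw [eZs2 i hi]
        exact mul_nonneg (hZ0 i x) (by linarith [hχ1 x])
  · intro j x
    cases j with
    | none => rw [eZn]; exact max_le (hχ1 x) (min_le_left _ _)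
    | some i =>
      by_cases hi : i ∈ Q
      · rw [eZs1 i hi]; exact zero_le_one
      · rw [eZs2 i hi]
        exact mul_le_one₀ (hZ1 i x) (by linarith [hχ1 x]) (by linarith [hχ0 x])
  · -- one
    intro j x hx
    cases j with
    | none =>
      rw [eZn]
      rcases hx with hx | hx
      · have h3 : Metric.infDist x F < r := hx
        rw [hχhi x h3.le]
        exact max_eq_left (min_le_left _ _)
      · obtain ⟨i, hi, hxi⟩ := mem_iUnion₂.mp hx
        rw [sumQ1 i hi x hxi, min_self]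
        exact max_eq_right (hχ1 x)
    | some i =>
      by_cases hi : i ∈ Q
      · rw [eOs1 i hi] at hx; exact absurd hx (notMem_empty x)
      · rw [eOs2 i hi] at hx
        have h4 : 2 * r < Metric.infDist x F := hx.2
        rw [eZs2 i hi, hZO i x hx.1, hχlo x h4.le]
        norm_num
  · -- zero
    intro i j hij x hx
    cases i with
    | none =>
      cases j with
      | none => exact absurd rfl hij
      | some j =>
        by_cases hj : j ∈ Q
        · rw [eOs1 j hj] at hx; exact absurd hx (notMem_empty x)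
        · rw [eOs2 j hj] at hx
          have h4 : 2 * r < Metric.infDist x F := hx.2
          rw [eZn, hχlo x h4.le, sumQ0 j hj x hx.1]
          simp
    | some i =>
      by_cases hi : i ∈ Q
      · exact eZs1 i hi x
      · rw [eZs2 i hi]
        cases j with
        | none =>
          rcases hx with hx | hx
          · have h3 : Metric.infDist x F < r := hx
            rw [hχhi x h3.le]
            ring
          · obtain ⟨j, hj, hxj⟩ := mem_iUnion₂.mp hx
            rw [hZd i j (fun h => hi (h ▸ hj)) x hxj, zero_mul]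
        | some j =>
          have hne : i ≠ j := fun h => hij (by rw [h])
          by_cases hj : j ∈ Q
          · rw [eOs1 j hj] at hx; exact absurd hx (notMem_empty x)
          · rw [eOs2 j hj] at hx
            rw [hZd i j hne x hx.1, zero_mul]
  · -- F inside
    intro x hx
    left
    change Metric.infDist x F < r
    rw [Metric.infDist_zero_of_mem hx]
    exact hr0
  · intro x hx
    rcases hx with hx | hx
    · right
      have h3 : Metric.infDist x F < r := hx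
      obtain ⟨y, hy, hxy⟩ := (Metric.infDist_lt_iff hFne).mp h3
      exact ⟨y, hy, by linarith⟩
    · left
      obtain ⟨i, hi, hxi⟩ := mem_iUnion₂.mp hx
      exact ⟨i, hi, hxi⟩
  · intro i hi x hx
    exact Or.inr (mem_iUnion₂.mpr ⟨i, hi, hx⟩)
  · intro i hi
    rw [eOs2 i hi]
    exact inter_subset_left
  · -- W open
    have e : {x | (∃ i ∈ Q, x ∈ O i) ∨ ∃ i, i ∉ Q ∧ x ∈ O i ∧ 2 * r < Metric.infDist x F} =
        (⋃ i ∈ Q, O i) ∪ ⋃ i ∈ {i : ι | i ∉ Q}, (O i ∩ {x | 2 * r < Metric.infDist x F}) := by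
      ext x
      simp only [mem_ofPred_eq, mem_union, mem_iUnion, mem_inter_iff, exists_prop]
    rw [e]
    exact (isOpen_biUnion fun i _ => hO i).union
      (isOpen_biUnion fun i _ => (hO i).inter (isOpen_lt continuous_const hinfc))
  · intro x hx
    exact hcov' x hx
  · intro x hx
    rw [eZn]
    rcases hx with ⟨i, hi, h⟩ | ⟨i, hi, h, h2⟩
    · rw [sumQ1 i hi x h, min_self]
      exact max_eq_right (hχ1 x)
    · rw [sumQ0 i hi x h, hχlo x h2.le]
      simp
  · intro i hi x hx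
    rw [eZs2 i hi]
    rcases hx with ⟨j, hj, h⟩ | ⟨j, hj, h, h2⟩
    · rw [hZd i j (fun h => hi (h ▸ hj)) x h, zero_mul]
    · rw [hχlo x h2.le, sub_zero, mul_one]
  · exact eZs1
  · intro i hi x hx hxi
    rw [eOs2 i hi]
    exact ⟨hxi, hKinf i hi x hx hxi⟩

section mass

variable (C : Calc M γ)

/-- a mass that vanishes near the level is locally constant -/
theorem mz_loc_zero {g : M → ℝ} (hg : Lip g) {D : Om → ℝ} {t δ : ℝ}
    (hδ : 0 < δ) (h : ∀ᵐ o ∂C.μ, |g (C.pt o) - t| ≤ δ → D o = 0) :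
    HasDerivAt (mz C D g fun _ => 1) 0 t := by
  have key : ∀ r, |r - t| < δ → mz C D g (fun _ => 1) r = mz C D g (fun _ => 1) t := by
    intro r hr
    rw [mz_eq C hg, mz_eq C hg]
    refine integral_congr_ae ?_
    filter_upwards [h] with o ho
    have hr' := abs_lt.mp hr
    by_cases h1 : g (C.pt o) < r
    · have m1 : o ∈ {o | g (C.pt o) < r} := h1
      rw [indicator_of_mem m1]
      by_cases h2 : g (C.pt o) < t
      · have m2 : o ∈ {o | g (C.pt o) < t} := h2
        rw [indicator_of_mem m2]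
      · have m2 : o ∉ {o | g (C.pt o) < t} := h2
        rw [indicator_of_notMem m2]
        rw [not_lt] at h2
        rw [ho (by rw [abs_le]; constructor <;> linarith), mul_zero]
    · have m1 : o ∉ {o | g (C.pt o) < r} := h1
      rw [indicator_of_notMem m1]
      rw [not_lt] at h1
      by_cases h2 : g (C.pt o) < t
      · have m2 : o ∈ {o | g (C.pt o) < t} := h2
        rw [indicator_of_mem m2, ho (by rw [abs_le]; constructor <;> linarith), mul_zero]
      · have m2 : o ∉ {o | g (C.pt o) < t} := h2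
        rw [indicator_of_notMem m2]
  refine (hasDerivAt_const t (mz C D g (fun _ => 1) t)).congr_of_eventuallyEq ?_
  have : ∀ᶠ r in 𝓝 t, |r - t| < δ := by
    have := Metric.ball_mem_nhds t hδ
    filter_upwards [this] with r hr
    rwa [Metric.mem_ball, Real.dist_eq] at hr
  filter_upwards [this] with r hr
  exact key r hr

/-- additivity of the lengths of finitely many pieces -/
theorem mz_sum_near {g : M → ℝ} (hg : Lip g) {ι : Type} (Q : Finset ι) {ζ : ι → M → ℝ}
    (hl : ∀ i ∈ Q, Lip (ζ i)) (h0 : ∀ i ∈ Q, ∀ x, 0 ≤ ζ i x) (h1 : ∀ i ∈ Q, ∀ x, ζ i x ≤ 1)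
    {ζ'' : M → ℝ} (hl'' : Lip ζ'') (h0'' : ∀ x, 0 ≤ ζ'' x) (h1'' : ∀ x, ζ'' x ≤ 1) {H : Om → ℝ}
    (hH : Integrable H C.μ) {t δ : ℝ} (hδ : 0 < δ) (h : ∀ x, |g x - t| ≤ δ → ζ'' x = ∑ i ∈ Q, ζ i x)
    {a : ι → ℝ} (ha : ∀ i ∈ Q, HasDerivAt (mz C H g (ζ i)) (a i) t) :
    HasDerivAt (mz C H g ζ'') (∑ i ∈ Q, a i) t := by
  set D : Om → ℝ := fun o => ζ'' (C.pt o) * H o - ∑ i ∈ Q, ζ i (C.pt o) * H o with hDd
  have i1 : ∀ i ∈ Q, Integrable (fun o => ζ i (C.pt o) * H o) C.μ := fun i hi =>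
    integrable_zH C (hl i hi) (h0 i hi) (h1 i hi) hH
  have i2 : Integrable (fun o => ζ'' (C.pt o) * H o) C.μ := integrable_zH C hl'' h0'' h1'' hH
  have j1 : Integrable (fun o => ∑ i ∈ Q, ζ i (C.pt o) * H o) C.μ := integrable_finsetSum _ i1
  have e : mz C H g ζ'' = fun r => (∑ i ∈ Q, mz C H g (ζ i) r) + mz C D g (fun _ => 1) r := by
    funext r
    unfold mz
    rw [← integral_finsetSum _ (fun i hi => (i1 i hi).integrableOn)]
    have j2 : Integrable (fun o => (1 : ℝ) * D o) C.μ := by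
      simp only [one_mul]
      exact i2.sub j1
    rw [← integral_add j1.integrableOn j2.integrableOn]
    congr 1
    funext o
    simp only [hDd]
    ring
  have h3 := mz_loc_zero C hg (D := D) hδ (t := t) (Eventually.of_forall fun o ho => by
    simp only [hDd]
    rw [h _ ho, Finset.sum_mul, sub_self])
  rw [e]
  have h4 := (HasDerivAt.fun_sum ha).add h3
  rwa [add_zero] at h4

end mass

/-- additivity of the curve parts -/
theorem Gz_sum (hγ : Bd γ) {g : M → ℝ} (hg : Lip g) {ι : Type} (Q : Finset ι) {ζ : ι → M → ℝ}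
    (hl : ∀ i ∈ Q, Lip (ζ i)) {ζ'' : M → ℝ} {t : ℝ}
    (h : ∀ s, t < g (γ s) → (ζ'' (γ s) = 1 ↔ ∃ i ∈ Q, ζ i (γ s) = 1))
    (hd : ∀ s, t < g (γ s) → ∀ i ∈ Q, ∀ j ∈ Q, i ≠ j → ζ i (γ s) = 1 → ζ j (γ s) ≠ 1) :
    Gz γ g t ζ'' = ∑ i ∈ Q, Gz γ g t (ζ i) := by
  have v : ∀ A : Set ℝ, volume (A ∩ Ioc 0 (2 * Real.pi)) ≠ ∞ := fun A => by
    refine ne_top_of_le_ne_top ?_ (measure_mono inter_subset_right)
    rw [Real.volume_Ioc]
    exact ENNReal.ofReal_ne_top
  unfold Gz
  rw [← ENNReal.toReal_sum fun i _ => v _, ← measure_biUnion_finset]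
  · congr 2
    ext s
    simp only [Apt, mem_inter_iff, mem_iUnion, mem_ofPred_eq, exists_prop]
    constructor
    · rintro ⟨⟨h1, h2⟩, h3⟩
      obtain ⟨i, hi, h4⟩ := (h s h2).mp h1
      exact ⟨i, hi, ⟨h4, h2⟩, h3⟩
    · rintro ⟨i, hi, ⟨h4, h2⟩, h3⟩
      exact ⟨⟨(h s h2).mpr ⟨i, hi, h4⟩, h2⟩, h3⟩
  · intro i hi j hj hij
    change Disjoint _ _
    rw [Set.disjoint_left]
    rintro s ⟨⟨h1, h2⟩, -⟩ ⟨⟨h3, -⟩, -⟩
    exact hd s h2 i hi j hj hij h1 h3
  · intro i hi
    exact (meas_Apt hγ hg (hl i hi) t).inter measurableSet_Ioc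

section metric

/-- tripod of a point of a piece with hull `[p, q]` inside `[E1, E2]` -/
theorem lab_tri (hγ : Bd γ) {E1 E2 p q u : ℝ} (h1 : E1 ≤ p) (h3 : q ≤ E2) {x : M}
    (h : dist x (γ p) + dist x (γ q) + (q - p) ≤ 2 * u) :
    (dist x (γ E1) + dist x (γ E2) + (E2 - E1)) / 2 ≤ (E2 - E1) + (u - (q - p)) := by
  have a1 := dist_triangle x (γ p) (γ E1)
  have a2 := dist_triangle x (γ q) (γ E2)
  have b1 := gam_dist_le hγ p E1
  have b2 := gam_dist_le hγ q E2
  rw [abs_of_nonneg (by linarith)] at b1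
  rw [abs_of_nonpos (by linarith)] at b2
  linarith

/-- two points of two pieces -/
theorem lab_pair (hγ : Bd γ) {E1 E2 p q u p' q' u' : ℝ} (h1 : E1 ≤ p) (h3 : q ≤ E2)
    (h1' : E1 ≤ p') (h3' : q' ≤ E2) {x y : M}
    (h : dist x (γ p) + dist x (γ q) + (q - p) ≤ 2 * u)
    (h' : dist y (γ p') + dist y (γ q') + (q' - p') ≤ 2 * u') :
    dist x y ≤ (E2 - E1) + (u - (q - p)) + (u' - (q' - p')) := by
  have a1 := dist_triangle x (γ p) (γ (max p p'))
  have a2 := dist_triangle x (γ q) (γ (min q q'))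
  have a3 := dist_triangle y (γ p') (γ (max p p'))
  have a4 := dist_triangle y (γ q') (γ (min q q'))
  have b1 := gam_dist_le hγ p (max p p')
  have b2 := gam_dist_le hγ q (min q q')
  have b3 := gam_dist_le hγ p' (max p p')
  have b4 := gam_dist_le hγ q' (min q q')
  rw [abs_of_nonpos (by linarith [le_max_left p p'])] at b1
  rw [abs_of_nonneg (by linarith [min_le_left q q'])] at b2
  rw [abs_of_nonpos (by linarith [le_max_right p p'])] at b3
  rw [abs_of_nonneg (by linarith [min_le_right q q'])] at b4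
  have c1 := dist_triangle x (γ (max p p')) y
  have c2 := dist_triangle x (γ (min q q')) y
  rw [dist_comm (γ (max p p')) y] at c1
  rw [dist_comm (γ (min q q')) y] at c2
  have d1 : max q q' + min q q' = q + q' := max_add_min q q'
  have d2 : max p p' + min p p' = p + p' := max_add_min p p'
  have d3 : max q q' ≤ E2 := max_le h3 h3'
  have d4 : E1 ≤ min p p' := le_min h1 h1'
  linarith

/-- a point near the arc -/
theorem lab_near (hγ : Bd γ) {E1 E2 c ρ : ℝ} (h1 : E1 ≤ c) (h2 : c ≤ E2) {x : M}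
    (h : dist x (γ c) ≤ ρ) :
    (dist x (γ E1) + dist x (γ E2) + (E2 - E1)) / 2 ≤ (E2 - E1) + ρ := by
  have a1 := dist_triangle x (γ c) (γ E1)
  have a2 := dist_triangle x (γ c) (γ E2)
  have b1 := gam_dist_le hγ c E1
  have b2 := gam_dist_le hγ c E2
  rw [abs_of_nonneg (by linarith)] at b1
  rw [abs_of_nonpos (by linarith)] at b2
  linarith

/-- a point near the arc and a point with a tripod bound -/
theorem lab_near_pair (hγ : Bd γ) {E1 E2 c ρ R : ℝ} (h1 : E1 ≤ c) (h2 : c ≤ E2) {x y : M}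
    (h : dist x (γ c) ≤ ρ) (hy : (dist y (γ E1) + dist y (γ E2) + (E2 - E1)) / 2 ≤ R) :
    dist x y ≤ ρ + R := by
  have a1 := dist_triangle y (γ E1) (γ c)
  have a2 := dist_triangle y (γ E2) (γ c)
  have b1 := gam_dist_le hγ E1 c
  have b2 := gam_dist_le hγ E2 c
  rw [abs_of_nonpos (by linarith)] at b1
  rw [abs_of_nonneg (by linarith)] at b2
  have a3 := dist_triangle x (γ c) y
  rw [dist_comm (γ c) y] at a3
  linarith

/-- **size of the merged label** -/
theorem lab_rad (hγ : Bd γ) {ι : Type} {E1 E2 ρ : ℝ} (hρ : 0 ≤ ρ) (L : Finset ι)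
    {P Q u : ι → ℝ} (hP : ∀ j ∈ L, E1 ≤ P j ∧ P j ≤ Q j ∧ Q j ≤ E2 ∧ Q j - P j ≤ u j) {O : ι → Set M}
    (hO : ∀ j ∈ L, ∀ x ∈ O j, dist x (γ (P j)) + dist x (γ (Q j)) + (Q j - P j) ≤ 2 * u j)
    (hOd : ∀ j ∈ L, ∀ x ∈ O j, ∀ y ∈ O j, dist x y ≤ u j) {X : Set M}
    (hX : ∀ x ∈ X, (∃ j ∈ L, x ∈ O j) ∨ ∃ c ∈ Icc E1 E2, dist x (γ c) ≤ ρ) :
    (∀ x ∈ X, (dist x (γ E1) + dist x (γ E2) + (E2 - E1)) / 2 ≤
      (E2 - E1) + ∑ j ∈ L, (u j - (Q j - P j)) + 2 * ρ) ∧
    (∀ x ∈ X, ∀ y ∈ X, dist x y ≤ (E2 - E1) + ∑ j ∈ L, (u j - (Q j - P j)) + 2 * ρ) := by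
  classical
  have hnn : ∀ j ∈ L, 0 ≤ u j - (Q j - P j) := fun j hj => by linarith [(hP j hj).2.2.2]
  have hone : ∀ j ∈ L, u j - (Q j - P j) ≤ ∑ j ∈ L, (u j - (Q j - P j)) := fun j hj =>
    Finset.single_le_sum (f := fun j => u j - (Q j - P j)) hnn hj
  have htwo : ∀ i ∈ L, ∀ j ∈ L, i ≠ j → (u i - (Q i - P i)) + (u j - (Q j - P j)) ≤
      ∑ j ∈ L, (u j - (Q j - P j)) := by
    intro i hi j hj hij
    calc (u i - (Q i - P i)) + (u j - (Q j - P j)) = ∑ k ∈ {i, j}, (u k - (Q k - P k)) := by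
          rw [Finset.sum_pair hij]
      _ ≤ _ := Finset.sum_le_sum_of_subset_of_nonneg (by
          intro k hk
          rcases Finset.mem_insert.mp hk with h | h
          · rw [h]; exact hi
          · rw [Finset.mem_singleton.mp h]; exact hj) (fun k hk _ => hnn k hk)
  have hs0 : 0 ≤ ∑ j ∈ L, (u j - (Q j - P j)) := Finset.sum_nonneg hnn
  have tri1 : ∀ x ∈ X, (dist x (γ E1) + dist x (γ E2) + (E2 - E1)) / 2 ≤
      (E2 - E1) + ∑ j ∈ L, (u j - (Q j - P j)) + ρ := by
    intro x hx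
    rcases hX x hx with ⟨j, hj, hxj⟩ | ⟨c, hc, hxc⟩
    · have h1 := lab_tri hγ (hP j hj).1 (hP j hj).2.2.1 (hO j hj x hxj)
      linarith [hone j hj]
    · have h1 := lab_near hγ hc.1 hc.2 hxc
      linarith
  refine ⟨fun x hx => by linarith [tri1 x hx], ?_⟩
  intro x hx y hy
  rcases hX x hx with ⟨j, hj, hxj⟩ | ⟨c, hc, hxc⟩
  · rcases hX y hy with ⟨i, hi, hyi⟩ | ⟨c, hc, hyc⟩
    · by_cases hij : j = i
      · subst hij
        have h1 := hOd j hj x hxj y hyi
        have h2 := hP j hj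
        linarith [hone j hj]
      · have h1 := lab_pair hγ (hP j hj).1 (hP j hj).2.2.1 (hP i hi).1 (hP i hi).2.2.1
          (hO j hj x hxj) (hO i hi y hyi)
        linarith [htwo j hj i hi hij]
    · have h1 := lab_near_pair hγ hc.1 hc.2 hyc (tri1 x hx)
      rw [dist_comm] at h1
      linarith
  · have h1 := lab_near_pair hγ hc.1 hc.2 hxc (tri1 y hy)
    linarith

end metric

end Pool.Agent.FPM
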