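import Mathlib
import Pool.Agent.FPM.I57LP
import Pool.Agent.FPM.I57H2
import Pool.Agent.FPM.I57R1

/-
I57K (helper80), module G2c of ISO57: the arc of one component of the hulls, bookkeeping for the pieces.
-/

open MeasureTheory Set Filter Topology
open scoped ENNReal NNReal

noncomputable section

namespace Pool.Agent.FPM

open Pool.Agent.EWD Pool.Agent.FPX

variable {M : Type} [MetricSpace M] {γ : ℝ → M}

/-- The arc `[e1, e2]`: `U` are the pieces with hull on the arc, `L` those with hull on the opposite arc. -/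
structure ARC57 (γ : ℝ → M) (f : M → ℝ) (t : ℝ) {ι : Type} (big tr : Finset ι) (Z : ι → M → ℝ)
    (O : ι → Set M) (p q : ι → ℝ) (e1 e2 τ : ℝ) (U L : Finset ι) (m : ι → ℤ)
    (G gU gL E1 E2 : ℝ) : Prop where
  τ0 : 0 < τ
  le : e1 ≤ e2
  lt : e2 + τ ≤ e1 + Real.pi
  Utr : U ⊆ tr
  Ltr : L ⊆ tr
  dj : Disjoint U L
  winU : ∀ j ∈ U, e1 ≤ p j + m j * (2 * Real.pi) ∧ q j + m j * (2 * Real.pi) ≤ e2
  winL : ∀ j ∈ L, e1 + Real.pi ≤ p j + m j * (2 * Real.pi) ∧
    q j + m j * (2 * Real.pi) ≤ e2 + Real.pi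
  far : ∀ j ∈ tr, j ∉ U → j ∉ L → ∀ n : ℤ,
    q j + n * Real.pi + τ ≤ e1 ∨ e2 + τ ≤ p j + n * Real.pi
  hG : G = (volume ({s | t < f (γ s)} ∩ Ioc e1 e2)).toReal
  hG' : G = (volume ({s | t < f (γ s)} ∩ Ioc (e1 + Real.pi) (e2 + Real.pi))).toReal
  hgU : gU = (volume ((⋃ j ∈ U, Icc (p j + m j * (2 * Real.pi)) (q j + m j * (2 * Real.pi))) \
    {s | t < f (γ s)})).toReal
  hgL : gL = (volume ((⋃ j ∈ L, Icc (p j + m j * (2 * Real.pi)) (q j + m j * (2 * Real.pi))) \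
    {s | t < f (γ s)})).toReal
  hE1 : E1 = (volume ({s | ∃ i, i ∉ big ∧ γ s ∈ O i ∧ t < f (γ s)} ∩ Ioc e1 e2)).toReal
  hE2 : E2 = (volume ({s | ∃ i, i ∉ big ∧ γ s ∈ O i ∧ t < f (γ s)} ∩
    Ioc (e1 + Real.pi) (e2 + Real.pi))).toReal
  a1 : e2 - e1 ≤ ∑ j ∈ L, (q j - p j) + gU + E2
  a2 : e2 - e1 ≤ ∑ j ∈ U, (q j - p j) + gL + E1
  b1 : G + 2 * gU + ∑ j ∈ U, Gz γ f t (Z j) ≤ 2 * ∑ j ∈ U, (q j - p j) + E1
  b2 : G + 2 * gL + ∑ j ∈ L, Gz γ f t (Z j) ≤ 2 * ∑ j ∈ L, (q j - p j) + E2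
  c1 : G = ∑ j ∈ U, Gz γ f t (Z j) + E1
  c2 : G = ∑ j ∈ L, Gz γ f t (Z j) + E2

namespace ARC57

variable {f : M → ℝ} {t : ℝ} {ι : Type} {big tr : Finset ι} {Z : ι → M → ℝ}
    {O : ι → Set M} {p q : ι → ℝ} {e1 e2 τ : ℝ} {U L : Finset ι} {m : ι → ℤ}
    {G gU gL E1 E2 : ℝ}

omit [MetricSpace M] in
theorem nonneg (h : ARC57 γ f t big tr Z O p q e1 e2 τ U L m G gU gL E1 E2) :
    0 ≤ G ∧ 0 ≤ gU ∧ 0 ≤ gL ∧ 0 ≤ E1 ∧ 0 ≤ E2 := by
  refine ⟨?_, ?_, ?_, ?_, ?_⟩
  · rw [h.hG]; exact ENNReal.toReal_nonneg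
  · rw [h.hgU]; exact ENNReal.toReal_nonneg
  · rw [h.hgL]; exact ENNReal.toReal_nonneg
  · rw [h.hE1]; exact ENNReal.toReal_nonneg
  · rw [h.hE2]; exact ENNReal.toReal_nonneg

theorem shift_vol {S : Set ℝ} {c : ℝ} (hS : ∀ s, s + c ∈ S ↔ s ∈ S) (a b : ℝ) :
    volume (S ∩ Ioc (a + c) (b + c)) = volume (S ∩ Ioc a b) := by
  rw [← measure_preimage_add_right volume c (S ∩ Ioc (a + c) (b + c))]
  congr 1
  ext s
  simp only [mem_preimage, mem_inter_iff, mem_Ioc, hS s, add_lt_add_iff_right, add_le_add_iff_right]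

/-- the opposite arc -/
theorem swap [DecidableEq ι] (hγ : Bd γ)
    (h : ARC57 γ f t big tr Z O p q e1 e2 τ U L m G gU gL E1 E2) :
    ARC57 γ f t big tr Z O p q (e1 + Real.pi) (e2 + Real.pi) τ L U
      (fun j => if j ∈ U then m j + 1 else m j) G gL gU E2 E1 := by
  have hpi := Real.pi_pos
  have hper : ∀ s, γ (s + 2 * Real.pi) = γ s := fun s => hγ.per s
  have hA : ∀ s, s + 2 * Real.pi ∈ {s | t < f (γ s)} ↔ s ∈ {s | t < f (γ s)} := by
    intro s
    change t < f (γ (s + 2 * Real.pi)) ↔ t < f (γ s)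
    rw [hper]
  have hE : ∀ s, s + 2 * Real.pi ∈ {s | ∃ i, i ∉ big ∧ γ s ∈ O i ∧ t < f (γ s)} ↔
      s ∈ {s | ∃ i, i ∉ big ∧ γ s ∈ O i ∧ t < f (γ s)} := by
    intro s
    change (∃ i, i ∉ big ∧ γ (s + 2 * Real.pi) ∈ O i ∧ t < f (γ (s + 2 * Real.pi))) ↔
      (∃ i, i ∉ big ∧ γ s ∈ O i ∧ t < f (γ s))
    rw [hper]
  have e12 : e1 + Real.pi + Real.pi = e1 + 2 * Real.pi := by ring
  have e22 : e2 + Real.pi + Real.pi = e2 + 2 * Real.pi := by ring
  have hnU : ∀ j ∈ L, j ∉ U := fun j hj hU => Finset.disjoint_left.mp h.dj hU hj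
  refine
    { τ0 := h.τ0
      le := by linarith [h.le]
      lt := by linarith [h.lt]
      Utr := h.Ltr
      Ltr := h.Utr
      dj := h.dj.symm
      winU := ?_
      winL := ?_
      far := ?_
      hG := h.hG'
      hG' := ?_
      hgU := ?_
      hgL := ?_
      hE1 := h.hE2
      hE2 := ?_
      a1 := by linarith [h.a2]
      a2 := by linarith [h.a1]
      b1 := h.b2
      b2 := h.b1
      c1 := h.c2
      c2 := h.c1 }
  · intro j hj
    simp only [if_neg (hnU j hj)]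
    exact h.winL j hj
  · intro j hj
    simp only [if_pos hj]
    have := h.winU j hj
    push_cast
    constructor <;> linarith [this.1, this.2]
  · intro j hj h1 h2 n
    have := h.far j hj h2 h1 (n - 1)
    push_cast at this
    rcases this with h3 | h3
    · left; linarith
    · right; linarith
  · rw [e12, e22, shift_vol hA]
    exact h.hG
  · rw [h.hgL]
    congr 2
    refine congrArg (· \ _) ?_
    refine iUnion₂_congr fun j hj => ?_
    simp only [if_neg (hnU j hj)]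
  · rw [h.hgU, ← measure_preimage_add_right volume (2 * Real.pi)
      ((⋃ j ∈ U, Icc (p j + ((if j ∈ U then m j + 1 else m j : ℤ) : ℝ) * (2 * Real.pi))
        (q j + ((if j ∈ U then m j + 1 else m j : ℤ) : ℝ) * (2 * Real.pi))) \ {s | t < f (γ s)})]
    congr 2
    ext s
    simp only [mem_preimage, Set.mem_sdiff, mem_iUnion, exists_prop]
    rw [hA s]
    refine and_congr_left fun _ => ?_
    refine exists_congr fun j => and_congr_right fun hj => ?_
    simp only [if_pos hj, mem_Icc]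
    push_cast
    constructor
    · rintro ⟨h1, h2⟩; constructor <;> linarith
    · rintro ⟨h1, h2⟩; constructor <;> linarith
  · rw [e12, e22, shift_vol hE]
    exact h.hE1

end ARC57

/-- lower bound for the traces in `[e1, e2]` -/
theorem side_ge {ι : Type} {p q : ι → ℝ} {A E : Set ℝ} {B : ι → Set ℝ} (hE : MeasurableSet E)
    (hB : ∀ j, MeasurableSet (B j)) (hBper : ∀ j s, s + 2 * Real.pi ∈ B j ↔ s ∈ B j)
    (hdis : ∀ i j, i ≠ j → Disjoint (B i) (B j)) (hdE : ∀ i, Disjoint (B i) E)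
    (hBh : ∀ j, ∀ s ∈ B j, ∃ m : ℤ, s + m * (2 * Real.pi) ∈ Icc (p j) (q j))
    (hBA : ∀ j, B j ⊆ A) (hEA : E ⊆ A) {U : Finset ι} {m : ι → ℤ} {e1 e2 : ℝ}
    (hlt : ∀ j, q j - p j < 2 * Real.pi)
    (hm : ∀ j ∈ U, e1 ≤ p j + m j * (2 * Real.pi) ∧ q j + m j * (2 * Real.pi) ≤ e2) :
    ∑ j ∈ U, (volume (B j ∩ Ioc 0 (2 * Real.pi))).toReal + (volume (E ∩ Ioc e1 e2)).toReal ≤
      (volume (A ∩ Ioc e1 e2)).toReal := by
  have hfin : ∀ (S : Set ℝ) (a b : ℝ), volume (S ∩ Ioc a b) ≠ ∞ := fun S a b =>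
    ne_top_of_le_ne_top (by simp) (measure_mono (inter_subset_right : S ∩ Ioc a b ⊆ Ioc a b))
  have hIccIoc : ∀ (S : Set ℝ) (a b : ℝ), volume (S ∩ Icc a b) ≤ volume (S ∩ Ioc a b) := by
    intro S a b
    calc volume (S ∩ Icc a b) ≤ volume ((S ∩ Ioc a b) ∪ {a}) := by
          apply measure_mono
          rintro s ⟨h1, h2, h3⟩
          rcases eq_or_lt_of_le h2 with h | h
          · exact Or.inr h.symm
          · exact Or.inl ⟨h1, h, h3⟩
      _ ≤ volume (S ∩ Ioc a b) + volume ({a} : Set ℝ) := measure_union_le _ _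
      _ = volume (S ∩ Ioc a b) := by simp
  have key : ∑ j ∈ U, volume (B j ∩ Ioc 0 (2 * Real.pi)) + volume (E ∩ Ioc e1 e2) ≤
      volume (A ∩ Ioc e1 e2) := by
    calc ∑ j ∈ U, volume (B j ∩ Ioc 0 (2 * Real.pi)) + volume (E ∩ Ioc e1 e2)
        = ∑ j ∈ U, volume (B j ∩ Icc (p j + m j * (2 * Real.pi)) (q j + m j * (2 * Real.pi))) +
          volume (E ∩ Ioc e1 e2) := by
          rw [Finset.sum_congr rfl fun j _ => trace_window (hB j) (hBper j) (hlt j) (hBh j) (m j)]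
      _ = volume (⋃ j ∈ U, B j ∩ Icc (p j + m j * (2 * Real.pi)) (q j + m j * (2 * Real.pi))) +
          volume (E ∩ Ioc e1 e2) := by
          rw [measure_biUnion_finset]
          · intro i _ j _ hij
            exact (hdis i j hij).mono inter_subset_left inter_subset_left
          · intro j _
            exact (hB j).inter measurableSet_Icc
      _ = volume ((⋃ j ∈ U, B j ∩ Icc (p j + m j * (2 * Real.pi)) (q j + m j * (2 * Real.pi))) ∪
          (E ∩ Ioc e1 e2)) := by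
          rw [measure_union _ (hE.inter measurableSet_Ioc)]
          rw [Set.disjoint_left]
          intro s hs hs'
          obtain ⟨j, hj, h1, -⟩ := mem_iUnion₂.mp hs
          exact Set.disjoint_left.mp (hdE j) h1 hs'.1
      _ ≤ volume (A ∩ Icc e1 e2) := by
          apply measure_mono
          rintro s (hs | hs)
          · obtain ⟨j, hj, h1, h2⟩ := mem_iUnion₂.mp hs
            have h3 := hm j hj
            exact ⟨hBA j h1, by linarith [h2.1, h3.1], by linarith [h2.2, h3.2]⟩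
          · exact ⟨hEA hs.1, Ioc_subset_Icc_self hs.2⟩
      _ ≤ volume (A ∩ Ioc e1 e2) := hIccIoc _ _ _
  have h1 := ENNReal.toReal_mono (hfin _ _ _) key
  rwa [ENNReal.toReal_add (ENNReal.sum_ne_top.mpr fun j _ => hfin _ _ _) (hfin _ _ _),
    ENNReal.toReal_sum fun j _ => hfin _ _ _] at h1

/-- **the arc of the piece `i0`** -/
theorem book57 (hγ : Bd γ) {C : Calc M γ} {f : M → ℝ} (hf : Lip f)
    (hev : ∀ s, f (γ (s + Real.pi)) = f (γ s)) {t θ θ' l : ℝ} {ι : Type} [Fintype ι]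
    {big tr : Finset ι} {Z : ι → M → ℝ} {O : ι → Set M} {S p q : ι → ℝ}
    (h : LP57 C f t θ θ' l big tr Z O S p q) (hθ' : 0 ≤ θ')
    (hl : l + big.card * θ' < 2 * Real.pi) {i0 : ι} (hi0 : i0 ∈ tr) :
    ∃ (e1 e2 τ : ℝ) (U L : Finset ι) (m : ι → ℤ) (G gU gL E1 E2 : ℝ),
      ARC57 γ f t big tr Z O p q e1 e2 τ U L m G gU gL E1 E2 ∧ i0 ∈ U := by
  classical
  have hpi := Real.pi_pos
  have hcont : Continuous fun s => f (γ s) := hf.cont.comp hγ.lip.continuous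
  have hper : ∀ s, γ (s + 2 * Real.pi) = γ s := fun s => hγ.per s
  set A : Set ℝ := {s | t < f (γ s)} with hAdef
  set E : Set ℝ := {s | ∃ i, i ∉ big ∧ γ s ∈ O i ∧ t < f (γ s)} with hEdef
  set Bt : ι → Set ℝ := fun j => {s | γ s ∈ O j ∧ t < f (γ s)} with hBt
  have hAo : IsOpen A := isOpen_lt continuous_const hcont
  have hBo : ∀ j, IsOpen (Bt j) := fun j => ((h.op j).preimage hγ.lip.continuous).inter hAo
  have hEU : E = ⋃ j ∈ Finset.univ.filter (fun j => j ∉ big), Bt j := by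
    ext s
    simp only [hEdef, hBt, mem_ofPred_eq, mem_iUnion, Finset.mem_filter, Finset.mem_univ, true_and,
      exists_prop]
  have hEo : IsOpen E := by
    rw [hEU]
    exact isOpen_biUnion fun j _ => hBo j
  have hcovO : ∀ s, t < f (γ s) → ∃ i, γ s ∈ O i := by
    intro s hs
    exact mem_iUnion.mp (h.cov (Or.inr ⟨⟨s, rfl⟩, le_of_lt hs⟩))
  have hApt : ∀ j, Apt γ f t (Z j) = Bt j := by
    intro j
    ext s
    constructor
    · rintro ⟨h1, h2⟩
      obtain ⟨i, hi⟩ := hcovO s h2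
      by_cases hij : i = j
      · subst hij
        exact ⟨hi, h2⟩
      · exfalso
        have h3 := h.zer j i hij _ hi
        rw [h1] at h3
        exact one_ne_zero h3
    · rintro ⟨h1, h2⟩
      exact ⟨h.one j _ h1, h2⟩
  have hGz : ∀ j, Gz γ f t (Z j) = (volume (Bt j ∩ Ioc 0 (2 * Real.pi))).toReal := by
    intro j
    rw [← hApt j]
    rfl
  have hG0 : ∀ j, 0 ≤ Gz γ f t (Z j) := fun j => ENNReal.toReal_nonneg
  have hA1 : Gz γ f t (fun _ => 1) = (volume (A ∩ Ioc 0 (2 * Real.pi))).toReal := by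
    unfold Gz
    congr 3
    ext s
    constructor
    · rintro ⟨-, h2⟩; exact h2
    · intro h2; exact ⟨rfl, h2⟩
  have hGsum : (volume (A ∩ Ioc 0 (2 * Real.pi))).toReal = ∑ i, Gz γ f t (Z i) := by
    rw [← hA1]
    refine Gz_sum hγ hf Finset.univ (fun i _ => h.lip i) ?_ ?_
    · intro s hs
      refine ⟨fun _ => ?_, fun _ => rfl⟩
      obtain ⟨i, hi⟩ := hcovO s hs
      exact ⟨i, Finset.mem_univ i, h.one i _ hi⟩
    · intro s hs i _ j _ hij h1 h2
      obtain ⟨k, hk⟩ := hcovO s hs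
      by_cases hki : k = i
      · have h3 := h.zer j k (fun hkj => hij (hki.symm.trans hkj)) _ hk
        rw [h2] at h3
        exact one_ne_zero h3
      · have h3 := h.zer i k hki _ hk
        rw [h1] at h3
        exact one_ne_zero h3
  have hfin : ∀ (S : Set ℝ) (a b : ℝ), volume (S ∩ Ioc a b) ≠ ∞ := fun S a b =>
    ne_top_of_le_ne_top (by simp) (measure_mono (inter_subset_right : S ∩ Ioc a b ⊆ Ioc a b))
  have hEle : (volume (E ∩ Ioc 0 (2 * Real.pi))).toReal ≤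
      ∑ j ∈ Finset.univ.filter (fun j => j ∉ big), Gz γ f t (Z j) := by
    have h1 : volume (E ∩ Ioc 0 (2 * Real.pi)) ≤
        ∑ j ∈ Finset.univ.filter (fun j => j ∉ big), volume (Bt j ∩ Ioc 0 (2 * Real.pi)) := by
      rw [hEU, iUnion₂_inter]
      exact measure_biUnion_finset_le _ _
    have h2 := ENNReal.toReal_mono (ENNReal.sum_ne_top.mpr fun j _ => hfin _ _ _) h1
    rw [ENNReal.toReal_sum fun j _ => hfin _ _ _] at h2
    refine h2.trans (le_of_eq ?_)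
    exact Finset.sum_congr rfl fun j _ => (hGz j).symm
  have hSG : ∀ i, 0 ≤ (S i + Gz γ f t (Z i)) / 2 := fun i => by linarith [hG0 i, h.GS i]
  -- the sum of the hulls
  have hqp : ∀ i ∈ tr, q i - p i ≤ (S i + Gz γ f t (Z i)) / 2 + θ' / 2 := by
    intro i hi
    have h1 := h.per i (h.trb hi) _ (h.hp i hi).1 _ (h.hq i hi).1 _ (h.hq i hi).1
    rw [dist_self, dist_comm (γ (q i)) (γ (p i)),
      bd_dist hγ (h.hle i hi) (h.hlt i hi).le] at h1
    linarith
  have hsum : ∑ i : {i // i ∈ tr}, (q i.1 - p i.1) + (volume (E ∩ Ioc 0 (2 * Real.pi))).toReal <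
      Real.pi + (volume (A ∩ Ioc 0 (2 * Real.pi))).toReal / 2 := by
    have h1 : ∑ i : {i // i ∈ tr}, (q i.1 - p i.1) = ∑ i ∈ tr, (q i - p i) :=
      Finset.sum_coe_sort tr (fun i => q i - p i)
    have h2 : ∑ i ∈ tr, (q i - p i) ≤ ∑ i ∈ tr, (S i + Gz γ f t (Z i)) / 2 + tr.card * (θ' / 2) := by
      calc ∑ i ∈ tr, (q i - p i) ≤ ∑ i ∈ tr, ((S i + Gz γ f t (Z i)) / 2 + θ' / 2) :=
            Finset.sum_le_sum hqp
        _ = _ := by rw [Finset.sum_add_distrib, Finset.sum_const, nsmul_eq_mul]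
    have h3 : (tr.card : ℝ) * (θ' / 2) ≤ big.card * (θ' / 2) := by
      have : (tr.card : ℝ) ≤ big.card := by exact_mod_cast Finset.card_le_card h.trb
      exact mul_le_mul_of_nonneg_right this (by linarith)
    have h4 : ∑ j ∈ Finset.univ.filter (fun j => j ∉ big), Gz γ f t (Z j) ≤
        ∑ j ∈ Finset.univ.filter (fun j => j ∉ big), (S j + Gz γ f t (Z j)) / 2 :=
      Finset.sum_le_sum fun j _ => by linarith [h.GS j]
    have h5 : ∑ i ∈ tr, (S i + Gz γ f t (Z i)) / 2 +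
        ∑ j ∈ Finset.univ.filter (fun j => j ∉ big), (S j + Gz γ f t (Z j)) / 2 ≤
        ∑ j, (S j + Gz γ f t (Z j)) / 2 := by
      rw [← Finset.sum_union]
      · exact Finset.sum_le_sum_of_subset_of_nonneg (Finset.subset_univ _) fun i _ _ => hSG i
      · rw [Finset.disjoint_left]
        intro i hi hi'
        exact (Finset.mem_filter.mp hi').2 (h.trb hi)
    have h6 : ∑ j, (S j + Gz γ f t (Z j)) / 2 =
        l / 2 + (volume (A ∩ Ioc 0 (2 * Real.pi))).toReal / 2 := by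
      rw [hGsum, ← h.sumS, ← Finset.sum_div, Finset.sum_add_distrib]
      ring
    rw [h1]
    linarith
  -- the family of the traced pieces
  have hpq' : ∀ i : {i // i ∈ tr}, p i.1 ≤ q i.1 := fun i => h.hle i.1 i.2
  have hlt' : ∀ i : {i // i ∈ tr}, q i.1 - p i.1 < Real.pi := fun i => by
    linarith [h.hlt i.1 i.2]
  have hAper : ∀ s, s + Real.pi ∈ A ↔ s ∈ A := by
    intro s
    change t < f (γ (s + Real.pi)) ↔ t < f (γ s)
    rw [hev]
  have hBper : ∀ (j : {i // i ∈ tr}) s, s + 2 * Real.pi ∈ Bt j.1 ↔ s ∈ Bt j.1 := by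
    intro j s
    change (γ (s + 2 * Real.pi) ∈ O j.1 ∧ t < f (γ (s + 2 * Real.pi))) ↔ (γ s ∈ O j.1 ∧ t < f (γ s))
    rw [hper]
  have hBh : ∀ j : {i // i ∈ tr}, ∀ s ∈ Bt j.1, ∃ m : ℤ, s + m * (2 * Real.pi) ∈ Icc (p j.1) (q j.1) := by
    rintro ⟨j, hj⟩ s ⟨h1, h2⟩
    exact h.hull j hj s h1 (le_of_lt h2)
  have hBA : ∀ j : {i // i ∈ tr}, Bt j.1 ⊆ A := fun j s hs => hs.2
  have hEA : E ⊆ A := by
    rintro s ⟨i, -, -, h1⟩
    exact h1
  have hdis : ∀ i j : {i // i ∈ tr}, i ≠ j → Disjoint (Bt i.1) (Bt j.1) := by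
    intro i j hij
    rw [Set.disjoint_left]
    intro s h1 h2
    exact Set.disjoint_left.mp (h.dj i.1 j.1 fun h3 => hij (Subtype.ext h3)) h1.1 h2.1
  have hdE : ∀ i : {i // i ∈ tr}, Disjoint (Bt i.1) E := by
    intro i
    rw [Set.disjoint_left]
    rintro s h1 ⟨j, hj, h2, -⟩
    exact Set.disjoint_left.mp (h.dj i.1 j fun h3 => hj (h3 ▸ h.trb i.2)) h1.1 h2
  have hcov' : ∀ s ∈ A, s ∈ E ∨ ∃ j : {i // i ∈ tr}, s ∈ Bt j.1 := by
    intro s hs
    obtain ⟨i, hi⟩ := hcovO s hs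
    by_cases h1 : i ∈ big
    · by_cases h2 : i ∈ tr
      · exact Or.inr ⟨⟨i, h2⟩, hi, hs⟩
      · exfalso
        have h3 := h.notr i h1 h2 s hi
        have h4 : t < f (γ s) := hs
        linarith
    · exact Or.inl ⟨i, h1, hi, hs⟩
  obtain ⟨x0, -, hx0, -, -⟩ := hull_gap (N := ∅) hpq' hlt' hAo.measurableSet hEo.measurableSet
    (measure_empty) hAper (fun s hs => by
      rcases hcov' s hs with h1 | ⟨j, h1⟩
      · exact Or.inl h1
      · exact Or.inr ⟨j, hBh j s h1⟩) hsum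
  obtain ⟨e1, e2, τ, hτ, he1, he2, hlt, hsub, hdich⟩ := hull_arc hpq' hx0 ⟨i0, hi0⟩
  have hle : e1 ≤ e2 := he1.trans ((hpq' ⟨i0, hi0⟩).trans he2)
  obtain ⟨U', L', m', hUL, hU, hL, hmU, hmL, hfar, G, gU, gL, E1, E2, dG, dG', dgU, dgL, dE1, dE2,
    a1, a2, b1, b2, c1, c2, c3, c4⟩ := hull_book hpq' hτ hle hlt hsub hdich hAo.measurableSet
      (B := fun j : {i // i ∈ tr} => Bt j.1) (E := E)
      (fun j => (hBo j.1).measurableSet) hAper hBper hdis hBh hBA hcov'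
  have hlt2 : ∀ j : {i // i ∈ tr}, q j.1 - p j.1 < 2 * Real.pi := fun j => by linarith [hlt' j]
  have g1 := side_ge (p := fun j : {i // i ∈ tr} => p j.1) (q := fun j : {i // i ∈ tr} => q j.1)
    hEo.measurableSet (fun j : {i // i ∈ tr} => (hBo j.1).measurableSet) hBper hdis hdE hBh hBA hEA
    hlt2 hmU
  have g2 := side_ge (p := fun j : {i // i ∈ tr} => p j.1) (q := fun j : {i // i ∈ tr} => q j.1)
    hEo.measurableSet (fun j : {i // i ∈ tr} => (hBo j.1).measurableSet) hBper hdis hdE hBh hBA hEA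
    hlt2 hmL
  rw [← dE1, ← dG] at g1
  rw [← dE2, ← dG'] at g2
  have hBG : ∀ F : Finset {i // i ∈ tr}, ∑ j ∈ F, (volume (Bt j.1 ∩ Ioc 0 (2 * Real.pi))).toReal =
      ∑ j ∈ F.map (Function.Embedding.subtype _), Gz γ f t (Z j) := by
    intro F
    rw [Finset.sum_map]
    exact Finset.sum_congr rfl fun j _ => (hGz j.1).symm
  have hpG : ∀ F : Finset {i // i ∈ tr}, ∑ j ∈ F, (q j.1 - p j.1) =
      ∑ j ∈ F.map (Function.Embedding.subtype _), (q j - p j) := by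
    intro F
    rw [Finset.sum_map]
    rfl
  have hmemF : ∀ (F : Finset {i // i ∈ tr}) (j : ι), j ∈ F.map (Function.Embedding.subtype _) ↔
      ∃ hj : j ∈ tr, (⟨j, hj⟩ : {i // i ∈ tr}) ∈ F := by
    intro F j
    rw [Finset.mem_map]
    constructor
    · rintro ⟨⟨k, hk⟩, h1, rfl⟩
      exact ⟨hk, h1⟩
    · rintro ⟨hj, h1⟩
      exact ⟨⟨j, hj⟩, h1, rfl⟩
  set m : ι → ℤ := fun j => if hj : j ∈ tr then m' ⟨j, hj⟩ else 0 with hmdef
  have hmm : ∀ j (hj : j ∈ tr), m j = m' ⟨j, hj⟩ := fun j hj => by simp only [hmdef, dif_pos hj]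
  have hUn : ∀ F : Finset {i // i ∈ tr},
      (⋃ j ∈ F, Icc (p j.1 + m' j * (2 * Real.pi)) (q j.1 + m' j * (2 * Real.pi))) =
      ⋃ j ∈ F.map (Function.Embedding.subtype _),
        Icc (p j + m j * (2 * Real.pi)) (q j + m j * (2 * Real.pi)) := by
    intro F
    ext s
    simp only [mem_iUnion, exists_prop]
    constructor
    · rintro ⟨⟨j, hj⟩, h1, h2⟩
      refine ⟨j, (hmemF F j).mpr ⟨hj, h1⟩, ?_⟩
      rw [hmm j hj]
      exact h2
    · rintro ⟨j, h1, h2⟩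
      obtain ⟨hj, h3⟩ := (hmemF F j).mp h1
      refine ⟨⟨j, hj⟩, h3, ?_⟩
      rw [hmm j hj] at h2
      exact h2
  rw [hpG, hBG] at b1 b2
  rw [hpG] at a1 a2
  rw [hBG] at c1 c2 c3 c4 g1 g2
  rw [hUn] at dgU dgL
  refine ⟨e1, e2, τ, U'.map (Function.Embedding.subtype _), L'.map (Function.Embedding.subtype _), m,
    G, gU, gL, E1, E2, ?_, ?_⟩
  · refine
      { τ0 := hτ
        le := hle
        lt := hlt
        Utr := ?_
        Ltr := ?_
        dj := ?_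
        winU := ?_
        winL := ?_
        far := ?_
        hG := dG
        hG' := dG'
        hgU := dgU
        hgL := dgL
        hE1 := dE1
        hE2 := dE2
        a1 := a1
        a2 := a2
        b1 := b1
        b2 := b2
        c1 := le_antisymm c2 g1
        c2 := le_antisymm c4 g2 }
    · intro j hj
      exact ((hmemF U' j).mp hj).1
    · intro j hj
      exact ((hmemF L' j).mp hj).1
    · exact (Finset.disjoint_map _).mpr hUL
    · intro j hj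
      obtain ⟨hj1, hj2⟩ := (hmemF U' j).mp hj
      rw [hmm j hj1]
      exact hmU ⟨j, hj1⟩ hj2
    · intro j hj
      obtain ⟨hj1, hj2⟩ := (hmemF L' j).mp hj
      rw [hmm j hj1]
      exact hmL ⟨j, hj1⟩ hj2
    · intro j hj h1 h2 n
      exact hfar ⟨j, hj⟩ (fun h3 => h1 ((hmemF U' j).mpr ⟨hj, h3⟩))
        (fun h3 => h2 ((hmemF L' j).mpr ⟨hj, h3⟩)) n
  · refine (hmemF U' i0).mpr ⟨hi0, (hU _).mpr ⟨0, ?_, ?_⟩⟩
    · push_cast
      linarith
    · push_cast
      linarith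

end Pool.Agent.FPM
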