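import Mathlib

/-!
# Real inequalities for the isoperimetric inequality across the curve (module F)

`five_quarters`: the real inequality behind `kappa = 8 pi / 5`;
`bk`: the bookkeeping lemma (sums over the pieces of the boundary).
-/

namespace Pool.Agent.FPM.I57N

open Real

/-- the real inequality: `X = L - e`. -/
theorem five_quarters {L e Q m q : ℝ} (he : 0 ≤ e) (hQ : 0 ≤ Q) (hq : 0 ≤ q)
    (hsum : q + Q + e ≤ L) (hm1 : m ≤ Q ^ 2) (hm2 : m ≤ Q * q) :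
    (L - e) ^ 2 + π * (e * (L - Q - e)) + m ≤ 5 / 4 * L ^ 2 := by
  obtain ⟨X, hX⟩ : ∃ X, X = L - e := ⟨_, rfl⟩
  have hL : L = X + e := by linarith
  subst hL
  have hXQ : 0 ≤ X - Q := by linarith
  have hX0 : 0 ≤ X := by linarith
  have hpi : π * (e * (X + e - Q - e)) ≤ 63 / 20 * (e * (X - Q)) := by
    have h1 : X + e - Q - e = X - Q := by ring
    rw [h1]
    have := Real.pi_lt_d2
    exact mul_le_mul_of_nonneg_right (by linarith) (mul_nonneg he hXQ)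
  have h2 : X + e - e = X := by ring
  rw [h2]
  rcases le_total Q (X / 2) with hc | hc
  · obtain ⟨t, ht⟩ : ∃ t, t = X / 2 - Q := ⟨_, rfl⟩
    have ht0 : 0 ≤ t := by linarith
    have hQt : Q = X / 2 - t := by linarith
    subst hQt
    nlinarith [mul_nonneg he ht0, mul_nonneg he (by linarith : (0:ℝ) ≤ X - 2 * t),
      mul_nonneg ht0 (by linarith : (0:ℝ) ≤ X - 2 * t), sq_nonneg (t - e), sq_nonneg t, sq_nonneg e]
  · obtain ⟨z, hz⟩ : ∃ z, z = X - Q := ⟨_, rfl⟩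
    have hz0 : 0 ≤ z := by linarith
    have hz1 : z ≤ X / 2 := by linarith
    have hQz : Q = X - z := by linarith
    subst hQz
    have hqz : q ≤ z := by linarith
    have h3 : (X - z) * q ≤ (X - z) * z := mul_le_mul_of_nonneg_left hqz hQ
    nlinarith [mul_nonneg he hz0, mul_nonneg he (by linarith : (0:ℝ) ≤ X - 2 * z),
      sq_nonneg (X / 2 - z), sq_nonneg e, mul_nonneg he hX0]

/-- sum of squares of non-negative numbers -/
theorem sum_sq_le {ι : Type*} (P : Finset ι) (ρ : ι → ℝ) (hρ : ∀ i, 0 ≤ ρ i) :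
    ∑ i ∈ P, ρ i ^ 2 ≤ (∑ i ∈ P, ρ i) ^ 2 := by
  classical
  rw [sq (∑ i ∈ P, ρ i), Finset.sum_mul]
  refine Finset.sum_le_sum fun i hi => ?_
  rw [sq]
  exact mul_le_mul_of_nonneg_left (Finset.single_le_sum (fun j _ => hρ j) hi) (hρ i)

/-- bookkeeping: `q, e, g, a` belong to the piece `j0`, `P` = other pieces of its side, `Q` = pieces
touching the opposite arc, `O` = other pieces of the opposite side, `N` = pieces without trace. -/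
theorem bk {ι : Type*} (P O Q N : Finset ι) (ρ : ι → ℝ) (hρ : ∀ i, 0 ≤ ρ i) {q e g a Γ L : ℝ}
    (hq : ∀ i ∈ P, ρ i ≤ q) (hq0 : 0 ≤ q) (he : 0 ≤ e) (ha : a = q - e) (hga : g ≤ a) (hΓ : g ≤ Γ)
    (hQΓ : Γ ≤ a + ∑ i ∈ Q, ρ i)
    (hside : q + ∑ i ∈ P, ρ i ≤ ∑ i ∈ Q, ρ i + ∑ i ∈ O, ρ i)
    (hL : (q - g) + ∑ i ∈ Q, ρ i + ∑ i ∈ O, ρ i + ∑ i ∈ N, ρ i ≤ L) :
    π * (e * (2 * q - g - e)) + (∑ i ∈ Q, ρ i + a - Γ) ^ 2 + ∑ i ∈ P, ρ i ^ 2 + ∑ i ∈ O, ρ i ^ 2 +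
      ∑ i ∈ N, ρ i ^ 2 ≤ 5 / 4 * L ^ 2 := by
  have hO := sum_sq_le O ρ hρ
  have hN := sum_sq_le N ρ hρ
  have hP1 := sum_sq_le P ρ hρ
  have hP2 : ∑ i ∈ P, ρ i ^ 2 ≤ (∑ i ∈ P, ρ i) * q := by
    rw [Finset.sum_mul]
    refine Finset.sum_le_sum fun i hi => ?_
    rw [sq]
    exact mul_le_mul_of_nonneg_left (hq i hi) (hρ i)
  have hO0 : 0 ≤ ∑ i ∈ O, ρ i := Finset.sum_nonneg fun i _ => hρ i
  have hN0 : 0 ≤ ∑ i ∈ N, ρ i := Finset.sum_nonneg fun i _ => hρ i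
  have hQ0 : 0 ≤ ∑ i ∈ Q, ρ i := Finset.sum_nonneg fun i _ => hρ i
  have hP0 : 0 ≤ ∑ i ∈ P, ρ i := Finset.sum_nonneg fun i _ => hρ i
  generalize hw : ∑ i ∈ O, ρ i = w at *
  generalize hn : ∑ i ∈ N, ρ i = n at *
  generalize hR : ∑ i ∈ Q, ρ i = R at *
  generalize hK : ∑ i ∈ P, ρ i = K at *
  generalize ∑ i ∈ P, ρ i ^ 2 = m at *
  have hX0 : 0 ≤ R + a - Γ := by linarith
  have hX : (R + a - Γ) ^ 2 + w ^ 2 ≤ (L - n - e) ^ 2 := by
    have h1 : (R + a - Γ) ^ 2 + w ^ 2 ≤ (R + a - Γ + w) ^ 2 := by nlinarith [mul_nonneg hX0 hO0]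
    have h2 : R + a - Γ + w ≤ L - n - e := by linarith
    exact h1.trans (pow_le_pow_left₀ (by linarith) h2 2)
  have he2 : e ≤ q - g := by linarith
  have hd : π * (e * (2 * q - g - e)) ≤ π * (e * (L - n - K - e)) :=
    mul_le_mul_of_nonneg_left (mul_le_mul_of_nonneg_left (by linarith) he) Real.pi_pos.le
  have h5 := five_quarters (L := L - n) he hP0 hq0 (by linarith) hP1 (by linarith [hP2])
  have h6 : 0 ≤ L - n := by linarith
  nlinarith [mul_nonneg h6 hN0]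

/-- the quadratic form behind `c0 = 1.1508` -/
theorem form_nonneg {b u w : ℝ} (hb : 0 ≤ b) (hu : 0 ≤ u) (hw : 0 ≤ w) :
    4829 / 5000 * (3927 / 1250 * (2 * b * u + u ^ 2) + (2 * b + u + w) ^ 2) +
      171 / 5000 * ((2 * b + u) ^ 2 + (2 * b + u + w) ^ 2) ≤ 2877 / 2500 * (2 * b + 2 * u + w) ^ 2 := by
  nlinarith [sq_nonneg (b - 10707 / 10000 * u), mul_nonneg hb hw, mul_nonneg hu hw, sq_nonneg w,
    sq_nonneg u]

/-- the case `x ≤ y` -/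
theorem num_le {A x y : ℝ} (hA : 0 ≤ A) (hx : A ≤ x) (hxy : x ≤ y) :
    π * (x ^ 2 - A ^ 2) + (y + A) ^ 2 ≤ 2877 / 2500 * (x + y) ^ 2 ∨
      (x + A) ^ 2 + (y + A) ^ 2 ≤ 2877 / 2500 * (x + y) ^ 2 := by
  by_contra hcon
  push Not at hcon
  obtain ⟨h1, h2⟩ := hcon
  have hpi : π * (x ^ 2 - A ^ 2) ≤ 3927 / 1250 * (x ^ 2 - A ^ 2) := by
    have h3 := Real.pi_lt_d4
    have h4 : 0 ≤ x ^ 2 - A ^ 2 := by nlinarith
    exact mul_le_mul_of_nonneg_right (by linarith) h4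
  have h5 := form_nonneg (b := A) (u := x - A) (w := y - x) hA (by linarith) (by linarith)
  nlinarith

/-- **module F**: `min {π(x²-A²)+(y+A)², π(y²-B²)+(x+B)², (x+G)²+(y+G)²} ≤ 1.1508 (x+y)²`. -/
theorem num3 {G A B x y : ℝ} (hG : 0 ≤ G) (hGA : G ≤ A) (hA : A ≤ x) (hGB : G ≤ B) (hB : B ≤ y) :
    π * (x ^ 2 - A ^ 2) + (y + A) ^ 2 ≤ 2877 / 2500 * (x + y) ^ 2 ∨
      π * (y ^ 2 - B ^ 2) + (x + B) ^ 2 ≤ 2877 / 2500 * (x + y) ^ 2 ∨
      (x + G) ^ 2 + (y + G) ^ 2 ≤ 2877 / 2500 * (x + y) ^ 2 := by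
  rcases le_total x y with hxy | hxy
  · rcases num_le (hG.trans hGA) hA hxy with h | h
    · exact Or.inl h
    · refine Or.inr (Or.inr (le_trans ?_ h))
      gcongr <;> linarith
  · rcases num_le (hG.trans hGB) hB hxy with h | h
    · refine Or.inr (Or.inl ?_)
      rw [add_comm x y]; exact h
    · refine Or.inr (Or.inr (le_trans ?_ (h.trans (le_of_eq (by ring)))))
      have h1 : (x + G) ^ 2 ≤ (x + B) ^ 2 := by gcongr <;> linarith
      have h2 : (y + G) ^ 2 ≤ (y + B) ^ 2 := by gcongr <;> linarith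
      linarith

/-- with the rest `z`: if `m ≤ c0 (x+y)²` then `m + 2 (x+y) z ≤ c0 (x+y+z)²`. -/
theorem num_rest {m x y z : ℝ} (hx : 0 ≤ x) (hy : 0 ≤ y) (hz : 0 ≤ z)
    (hm : m ≤ 2877 / 2500 * (x + y) ^ 2) :
    m + 2 * (x + y) * z ≤ 2877 / 2500 * (x + y + z) ^ 2 := by
  nlinarith [mul_nonneg (add_nonneg hx hy) hz, sq_nonneg z]

/-- a big piece with `S + G ≥ 3 h` is cheaper as an F label -/
theorem f_le_c {S G h : ℝ} (hG : 0 ≤ G) (hGh : G ≤ h) (h3 : 3 * h ≤ S + G) :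
    (S + G) ^ 2 ≤ π * (S ^ 2 - (2 * h - G) ^ 2) := by
  have hp := Real.pi_gt_d2
  have h1 : 0 ≤ S ^ 2 - (2 * h - G) ^ 2 := by nlinarith
  have h2 : 157 / 50 * (S ^ 2 - (2 * h - G) ^ 2) ≤ π * (S ^ 2 - (2 * h - G) ^ 2) :=
    mul_le_mul_of_nonneg_right (by linarith) h1
  refine le_trans ?_ h2
  obtain ⟨k, hk⟩ : ∃ k, k = S + G - 3 * h := ⟨_, rfl⟩
  obtain ⟨j, hj⟩ : ∃ j, j = h - G := ⟨_, rfl⟩
  have hk0 : 0 ≤ k := by linarith
  have hj0 : 0 ≤ j := by linarith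
  have hh : h = G + j := by linarith
  subst hh
  have hS : S = k + 3 * (G + j) - G := by linarith
  subst hS
  nlinarith [mul_nonneg hG hk0, mul_nonneg hj0 hk0, mul_nonneg hG hj0, sq_nonneg k, sq_nonneg j,
    sq_nonneg G]

end Pool.Agent.FPM.I57N
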