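import Mathlib
import Pool.Agent.FPM.I57N

/-
# ISO57, module G2d, real part (helper28)

`csum57` = the finite-sum inequality of `cstrat57` (one arc, charts `J`, the label of the opposite arc);
`fsum57` = the same for all labels F.
-/

open Real Finset

namespace Pool.Agent.FPM

/-- `∑ f g ≤ (∑ f) (∑ g)` for nonnegative `f`, `g` -/
theorem sum_mul_le57 {ι : Type*} (U : Finset ι) (f g : ι → ℝ) (hf : ∀ i ∈ U, 0 ≤ f i)
    (hg : ∀ i ∈ U, 0 ≤ g i) : ∑ i ∈ U, f i * g i ≤ (∑ i ∈ U, f i) * ∑ i ∈ U, g i := by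
  rw [Finset.sum_mul]
  exact Finset.sum_le_sum fun i hi =>
    mul_le_mul_of_nonneg_left (Finset.single_le_sum hg hi) (hf i hi)

/-- the square sum of the charts -/
theorem sq_sum57 {ι : Type*} (U : Finset ι) (S α : ι → ℝ) {θ' K : ℝ} (hθ' : 0 ≤ θ')
    (hK : (U.card : ℝ) ≤ K) (hS : ∀ i ∈ U, 0 ≤ S i) (hα : ∀ i ∈ U, 0 ≤ α i)
    (hd : ∀ i ∈ U, α i ≤ S i + θ') :
    ∑ i ∈ U, (S i ^ 2 - α i ^ 2) ≤
      (∑ i ∈ U, S i) ^ 2 - (∑ i ∈ U, α i) ^ 2 + K * θ' * (∑ i ∈ U, S i + ∑ i ∈ U, α i) := by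
  have h1 := sum_mul_le57 U (fun i => S i - α i + θ') (fun i => S i + α i)
    (fun i hi => by linarith [hd i hi]) (fun i hi => by linarith [hS i hi, hα i hi])
  have e1 : ∑ i ∈ U, (S i - α i + θ') * (S i + α i) =
      ∑ i ∈ U, (S i ^ 2 - α i ^ 2) + θ' * (∑ i ∈ U, S i + ∑ i ∈ U, α i) := by
    rw [← Finset.sum_add_distrib, Finset.mul_sum, ← Finset.sum_add_distrib]
    exact Finset.sum_congr rfl fun i _ => by ring
  have e2 : ∑ i ∈ U, (S i - α i + θ') = ∑ i ∈ U, S i - ∑ i ∈ U, α i + U.card * θ' := by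
    rw [Finset.sum_add_distrib, Finset.sum_sub_distrib, Finset.sum_const, nsmul_eq_mul]
  have e3 : ∑ i ∈ U, (S i + α i) = ∑ i ∈ U, S i + ∑ i ∈ U, α i := Finset.sum_add_distrib
  have hs : 0 ≤ ∑ i ∈ U, S i + ∑ i ∈ U, α i :=
    add_nonneg (Finset.sum_nonneg hS) (Finset.sum_nonneg hα)
  rw [e1, e2, e3] at h1
  have h2 : (U.card : ℝ) * θ' * (∑ i ∈ U, S i + ∑ i ∈ U, α i) ≤
      K * θ' * (∑ i ∈ U, S i + ∑ i ∈ U, α i) :=
    mul_le_mul_of_nonneg_right (mul_le_mul_of_nonneg_right hK hθ') hs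
  have h3 : 0 ≤ θ' * (∑ i ∈ U, S i + ∑ i ∈ U, α i) := mul_nonneg hθ' hs
  nlinarith

/-- the data that are common to `csum57` and `fsum57` -/
theorem base57 {ι : Type} [Fintype ι] [DecidableEq ι] {big U L Du Dl : Finset ι}
    (hUb : U ⊆ big) (hLb : L ⊆ big) (hUL : Disjoint U L)
    (hDu : ∀ i ∈ Du, i ∉ big) (hDl : ∀ i ∈ Dl, i ∉ big) (hDD : Disjoint Du Dl)
    {S G : ι → ℝ} {l : ℝ} (hl : ∑ i, S i = l) (hG : ∀ i, 0 ≤ G i) (hGS : ∀ i, G i ≤ S i)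
    {G0 E1 E2 : ℝ} (hE10 : 0 ≤ E1) (hE20 : 0 ≤ E2)
    (hE1 : G0 = ∑ i ∈ U, G i + E1) (hE2 : G0 = ∑ i ∈ L, G i + E2)
    (hE1' : E1 ≤ ∑ i ∈ Du, G i) (hE2' : E2 ≤ ∑ i ∈ Dl, G i)
    {i0 : ι} (hi0 : i0 ∈ U ∪ L) (hmax : ∀ i ∈ big, S i + G i ≤ S i0 + G i0)
    {x y z : ℝ} (hx : x = ∑ i ∈ U, S i + ∑ i ∈ Du, S i) (hy : y = ∑ i ∈ L, S i + ∑ i ∈ Dl, S i)
    (hz : z = l - x - y) :
    0 ≤ z ∧ 0 ≤ G0 ∧ G0 ≤ x ∧ G0 ≤ y ∧ (∀ i ∈ big, S i + G i ≤ x + y) ∧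
      ∑ i ∈ big \ (U ∪ L), S i ≤ z := by
  have hS : ∀ i, 0 ≤ S i := fun i => (hG i).trans (hGS i)
  have hGSs : ∀ T : Finset ι, ∑ i ∈ T, G i ≤ ∑ i ∈ T, S i := fun T =>
    Finset.sum_le_sum fun i _ => hGS i
  have hSn : ∀ T : Finset ι, 0 ≤ ∑ i ∈ T, S i := fun T => Finset.sum_nonneg fun i _ => hS i
  have hGn : ∀ T : Finset ι, 0 ≤ ∑ i ∈ T, G i := fun T => Finset.sum_nonneg fun i _ => hG i
  have hG0 : 0 ≤ G0 := by rw [hE1]; exact add_nonneg (hGn U) hE10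
  have hGx : G0 ≤ x := by
    rw [hE1, hx]
    exact add_le_add (hGSs U) (hE1'.trans (hGSs Du))
  have hGy : G0 ≤ y := by
    rw [hE2, hy]
    exact add_le_add (hGSs L) (hE2'.trans (hGSs Dl))
  -- disjointness
  have d1 : Disjoint (U ∪ L) (Du ∪ Dl) := by
    rw [Finset.disjoint_left]
    intro i hi hj
    have hb : i ∈ big := by
      rcases Finset.mem_union.1 hi with h | h
      · exact hUb h
      · exact hLb h
    rcases Finset.mem_union.1 hj with h | h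
    · exact hDu i h hb
    · exact hDl i h hb
  have s1 : ∑ i ∈ U ∪ L, S i = ∑ i ∈ U, S i + ∑ i ∈ L, S i := Finset.sum_union hUL
  have s2 : ∑ i ∈ Du ∪ Dl, S i = ∑ i ∈ Du, S i + ∑ i ∈ Dl, S i := Finset.sum_union hDD
  have s3 : ∑ i ∈ (U ∪ L) ∪ (Du ∪ Dl), S i = ∑ i ∈ U ∪ L, S i + ∑ i ∈ Du ∪ Dl, S i :=
    Finset.sum_union d1
  have d2 : Disjoint (big \ (U ∪ L)) ((U ∪ L) ∪ (Du ∪ Dl)) := by
    rw [Finset.disjoint_left]
    intro i hi hj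
    rw [Finset.mem_sdiff] at hi
    rcases Finset.mem_union.1 hj with h | h
    · exact hi.2 h
    · rcases Finset.mem_union.1 h with h' | h'
      · exact hDu i h' hi.1
      · exact hDl i h' hi.1
  have s4 : ∑ i ∈ (big \ (U ∪ L)) ∪ ((U ∪ L) ∪ (Du ∪ Dl)), S i =
      ∑ i ∈ big \ (U ∪ L), S i + ∑ i ∈ (U ∪ L) ∪ (Du ∪ Dl), S i := Finset.sum_union d2
  have s5 : ∑ i ∈ (big \ (U ∪ L)) ∪ ((U ∪ L) ∪ (Du ∪ Dl)), S i ≤ l := by
    rw [← hl]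
    exact Finset.sum_le_sum_of_subset_of_nonneg (Finset.subset_univ _) fun i _ _ => hS i
  have hrest : ∑ i ∈ big \ (U ∪ L), S i ≤ z := by
    rw [hz, hx, hy]
    linarith
  refine ⟨(hSn _).trans hrest, hG0, hGx, hGy, fun i hi => (hmax i hi).trans ?_, hrest⟩
  rcases Finset.mem_union.1 hi0 with h | h
  · have a1 : S i0 ≤ ∑ i ∈ U, S i := Finset.single_le_sum (fun i _ => hS i) h
    have a2 : G i0 ≤ ∑ i ∈ U, G i := Finset.single_le_sum (fun i _ => hG i) h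
    have a3 := hSn Du
    linarith
  · have a1 : S i0 ≤ ∑ i ∈ L, S i := Finset.single_le_sum (fun i _ => hS i) h
    have a2 : G i0 ≤ ∑ i ∈ L, G i := Finset.single_le_sum (fun i _ => hG i) h
    have a3 := hSn Dl
    linarith

/-- the rest of the big pieces -/
theorem rest57 {ι : Type} (T : Finset ι) {S G : ι → ℝ} {m z : ℝ} (hG : ∀ i, 0 ≤ G i)
    (hGS : ∀ i, G i ≤ S i) (hm : ∀ i ∈ T, S i + G i ≤ m) (hz : ∑ i ∈ T, S i ≤ z) (hm0 : 0 ≤ m) :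
    ∑ i ∈ T, (S i + G i) ^ 2 ≤ 2 * m * z := by
  have h1 : ∑ i ∈ T, (S i + G i) ^ 2 ≤ ∑ i ∈ T, 2 * m * S i := by
    refine Finset.sum_le_sum fun i hi => ?_
    have hS : 0 ≤ S i := (hG i).trans (hGS i)
    have h2 : (S i + G i) ^ 2 ≤ m * (S i + G i) := by
      rw [pow_two]
      exact mul_le_mul_of_nonneg_right (hm i hi) (add_nonneg hS (hG i))
    have h3 : m * (S i + G i) ≤ m * (2 * S i) :=
      mul_le_mul_of_nonneg_left (by linarith [hGS i]) hm0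
    linarith
  rw [← Finset.mul_sum] at h1
  exact h1.trans (mul_le_mul_of_nonneg_left hz (by positivity))

/-- **all F**: the level statement of `fstrat57` in the numbers of an arc -/
theorem fsum57 {ι : Type} [Fintype ι] [DecidableEq ι] {big U L Du Dl : Finset ι}
    (hUb : U ⊆ big) (hLb : L ⊆ big) (hUL : Disjoint U L)
    (hDu : ∀ i ∈ Du, i ∉ big) (hDl : ∀ i ∈ Dl, i ∉ big) (hDD : Disjoint Du Dl)
    {S G : ι → ℝ} {θ θ' l K : ℝ} (hθ : 0 ≤ θ) (hθ' : 0 ≤ θ') (hK : (big.card : ℝ) ≤ K)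
    (hsm : l + 2 * θ + 2 * K * θ' < 2 * π)
    (hl : ∑ i, S i = l) (hG : ∀ i, 0 ≤ G i) (hGS : ∀ i, G i ≤ S i)
    {G0 E1 E2 : ℝ} (hE10 : 0 ≤ E1) (hE20 : 0 ≤ E2)
    (hE1 : G0 = ∑ i ∈ U, G i + E1) (hE2 : G0 = ∑ i ∈ L, G i + E2)
    (hE1' : E1 ≤ ∑ i ∈ Du, G i) (hE2' : E2 ≤ ∑ i ∈ Dl, G i)
    {i0 : ι} (hi0 : i0 ∈ U ∪ L) (hmax : ∀ i ∈ big, S i + G i ≤ S i0 + G i0)
    {a x y z : ℝ} (hx : x = ∑ i ∈ U, S i + ∑ i ∈ Du, S i)
    (hy : y = ∑ i ∈ L, S i + ∑ i ∈ Dl, S i) (hz : z = l - x - y)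
    (hf : 2 * π * a ≤ ∑ i ∈ big, (S i + G i) ^ 2 + 2 * l * θ' + 4 * l * θ) :
    2 * π * a ≤ (x + G0) ^ 2 + (y + G0) ^ 2 + 2 * (x + y) * z + 10000 * (θ + K * θ') := by
  obtain ⟨hz0, hG0, hGx, hGy, hm, hrest⟩ := base57 hUb hLb hUL hDu hDl hDD hl hG hGS hE10 hE20
    hE1 hE2 hE1' hE2' hi0 hmax hx hy hz
  have hpi := Real.pi_lt_d2
  have hS : ∀ i, 0 ≤ S i := fun i => (hG i).trans (hGS i)
  have hSn : ∀ T : Finset ι, 0 ≤ ∑ i ∈ T, S i := fun T => Finset.sum_nonneg fun i _ => hS i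
  have hl0 : 0 ≤ l := by rw [← hl]; exact hSn _
  have hK1 : 1 ≤ K := by
    have hb : i0 ∈ big := by
      rcases Finset.mem_union.1 hi0 with h | h
      · exact hUb h
      · exact hLb h
    have h1 : 1 ≤ big.card := Finset.card_pos.2 ⟨i0, hb⟩
    exact le_trans (by exact_mod_cast h1) hK
  have hKθ : θ' ≤ K * θ' := by nlinarith
  -- split
  have hULb : U ∪ L ⊆ big := Finset.union_subset hUb hLb
  have s1 : ∑ i ∈ big, (S i + G i) ^ 2 = ∑ i ∈ big \ (U ∪ L), (S i + G i) ^ 2 +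
      ∑ i ∈ U ∪ L, (S i + G i) ^ 2 := (Finset.sum_sdiff hULb).symm
  have s2 : ∑ i ∈ U ∪ L, (S i + G i) ^ 2 = ∑ i ∈ U, (S i + G i) ^ 2 + ∑ i ∈ L, (S i + G i) ^ 2 :=
    Finset.sum_union hUL
  have sq : ∀ T : Finset ι, ∑ i ∈ T, (S i + G i) ^ 2 ≤ (∑ i ∈ T, S i + ∑ i ∈ T, G i) ^ 2 := by
    intro T
    have := sum_mul_le57 T (fun i => S i + G i) (fun i => S i + G i)
      (fun i _ => add_nonneg (hS i) (hG i)) (fun i _ => add_nonneg (hS i) (hG i))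
    rw [Finset.sum_add_distrib] at this
    calc ∑ i ∈ T, (S i + G i) ^ 2 = ∑ i ∈ T, (S i + G i) * (S i + G i) :=
          Finset.sum_congr rfl fun i _ => by ring
      _ ≤ _ := this
      _ = _ := by ring
  have u1 : (∑ i ∈ U, S i + ∑ i ∈ U, G i) ^ 2 ≤ (x + G0) ^ 2 := by
    refine pow_le_pow_left₀ (add_nonneg (hSn _) (Finset.sum_nonneg fun i _ => hG i)) ?_ 2
    rw [hx, hE1]
    linarith [hSn Du]
  have u2 : (∑ i ∈ L, S i + ∑ i ∈ L, G i) ^ 2 ≤ (y + G0) ^ 2 := by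
    refine pow_le_pow_left₀ (add_nonneg (hSn _) (Finset.sum_nonneg fun i _ => hG i)) ?_ 2
    rw [hy, hE2]
    linarith [hSn Dl]
  have r1 : ∑ i ∈ big \ (U ∪ L), (S i + G i) ^ 2 ≤ 2 * (x + y) * z :=
    rest57 _ hG hGS (fun i hi => hm i (Finset.mem_sdiff.1 hi).1) hrest (by linarith)
  have hl7 : l ≤ 7 := by nlinarith
  have e1 : 2 * l * θ' + 4 * l * θ ≤ 10000 * (θ + K * θ') := by
    have a1 : l * θ' ≤ 7 * (K * θ') := mul_le_mul hl7 hKθ hθ' (by norm_num)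
    have a2 : l * θ ≤ 7 * θ := mul_le_mul_of_nonneg_right hl7 hθ
    have a3 : 0 ≤ K * θ' := by positivity
    linarith
  have q1 := sq U
  have q2 := sq L
  linarith

/-- **charts on the arc**: the finite-sum inequality of `cstrat57` -/
theorem csum57 {ι : Type} [Fintype ι] [DecidableEq ι] {big U L J Du Dl : Finset ι}
    (hJU : J ⊆ U) (hUb : U ⊆ big) (hLb : L ⊆ big) (hUL : Disjoint U L)
    (hDu : ∀ i ∈ Du, i ∉ big) (hDl : ∀ i ∈ Dl, i ∉ big) (hDD : Disjoint Du Dl)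
    {S G h D : ι → ℝ} {θ θ' ρ l K : ℝ} (hθ : 0 ≤ θ) (hθ' : 0 ≤ θ') (hρ : 0 ≤ ρ) (hρθ : ρ ≤ θ')
    (hK : (big.card : ℝ) ≤ K) (hsm : l + 2 * θ + 2 * K * θ' < 2 * π)
    (hl : ∑ i, S i = l) (hG : ∀ i, 0 ≤ G i) (hGS : ∀ i, G i ≤ S i)
    (hGh : ∀ i ∈ U ∪ L, G i ≤ h i) (hh : ∀ i ∈ U ∪ L, 2 * h i ≤ S i + G i + θ')
    (hD : ∀ j ∈ J, D j ≤ (S j ^ 2 - (2 * h j - G j) ^ 2) / 4 + θ')
    (h3 : ∀ j ∈ U, j ∉ J → 3 * h j ≤ S j + G j)
    {G0 gU E1 E2 w : ℝ} (hgU : 0 ≤ gU) (hE10 : 0 ≤ E1) (hE20 : 0 ≤ E2)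
    (hE1 : G0 = ∑ i ∈ U, G i + E1) (hE2 : G0 = ∑ i ∈ L, G i + E2)
    (hw : w ≤ ∑ i ∈ L, h i + gU + E2)
    (hb : G0 + 2 * gU + ∑ i ∈ U, G i ≤ 2 * ∑ i ∈ U, h i + E1)
    (hE1' : E1 ≤ ∑ i ∈ Du, G i) (hE2' : E2 ≤ ∑ i ∈ Dl, G i)
    (hE2'' : ∑ i ∈ Dl, G i ≤ E2 + 2 * (ρ + θ))
    {i0 : ι} (hi0 : i0 ∈ U ∪ L) (hmax : ∀ i ∈ big, S i + G i ≤ S i0 + G i0)
    {a st R : ℝ} (hst0 : 0 ≤ st) (hst : st ≤ gU + 2 * ρ * K) (hR0 : 0 ≤ R)
    (hR : R ≤ w + 2 * ρ + ∑ i ∈ L, ((S i + G i + θ') / 2 - h i) + 2 * (θ + ρ))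
    (ha : a ≤ ∑ j ∈ J, 2 * D j + ∑ i ∈ big \ (J ∪ L), (S i + G i + θ') / 2 / π * (S i + G i) +
      ∑ i ∈ bigᶜ \ Dl, θ / π * (S i + G i) +
      R / π * (∑ i ∈ L, S i + ∑ i ∈ Dl, S i + (∑ i ∈ L, G i + ∑ i ∈ Dl, G i) + 2 * st))
    {x y z A : ℝ} (hx : x = ∑ i ∈ U, S i + ∑ i ∈ Du, S i)
    (hy : y = ∑ i ∈ L, S i + ∑ i ∈ Dl, S i) (hz : z = l - x - y) (hA : A = G0 + 2 * gU) :
    0 ≤ z ∧ 0 ≤ G0 ∧ G0 ≤ x ∧ G0 ≤ y ∧ G0 ≤ A ∧ A ≤ x + K * θ' ∧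
      2 * π * a ≤ π * (x ^ 2 - A ^ 2) + (y + A) ^ 2 + 2 * (x + y) * z +
        10000 * (θ + K * θ') := by
  obtain ⟨hz0, hG0, hGx, hGy, hm, hrest⟩ := base57 hUb hLb hUL hDu hDl hDD hl hG hGS hE10 hE20
    hE1 hE2 hE1' hE2' hi0 hmax hx hy hz
  have hpi0 := Real.pi_pos
  have hpi := Real.pi_lt_d2
  have hS : ∀ i, 0 ≤ S i := fun i => (hG i).trans (hGS i)
  have hSn : ∀ T : Finset ι, 0 ≤ ∑ i ∈ T, S i := fun T => Finset.sum_nonneg fun i _ => hS i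
  have hGn : ∀ T : Finset ι, 0 ≤ ∑ i ∈ T, G i := fun T => Finset.sum_nonneg fun i _ => hG i
  have hGSs : ∀ T : Finset ι, ∑ i ∈ T, G i ≤ ∑ i ∈ T, S i := fun T =>
    Finset.sum_le_sum fun i _ => hGS i
  have hSl : ∀ T : Finset ι, ∑ i ∈ T, S i ≤ l := fun T => by
    rw [← hl]
    exact Finset.sum_le_sum_of_subset_of_nonneg (Finset.subset_univ _) fun i _ _ => hS i
  have hl0 : 0 ≤ l := by rw [← hl]; exact hSn _
  have hK1 : 1 ≤ K := by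
    have hb : i0 ∈ big := by
      rcases Finset.mem_union.1 hi0 with h | h
      · exact hUb h
      · exact hLb h
    have h1 : 1 ≤ big.card := Finset.card_pos.2 ⟨i0, hb⟩
    exact le_trans (by exact_mod_cast h1) hK
  have hK0 : 0 ≤ K := by linarith
  -- the error `κ = K θ'`
  obtain ⟨κ, hκ⟩ : ∃ κ, κ = K * θ' := ⟨_, rfl⟩
  have hκ0 : 0 ≤ κ := by rw [hκ]; positivity
  have hKθ : θ' ≤ κ := by rw [hκ]; nlinarith
  have hsm' : l + 2 * θ + 2 * κ < 2 * π := by rw [hκ]; linarith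
  have hρK : ρ * K ≤ κ := by rw [hκ, mul_comm K]; exact mul_le_mul_of_nonneg_right hρθ hK0
  have hcU : (U.card : ℝ) ≤ K := le_trans (by exact_mod_cast Finset.card_le_card hUb) hK
  have hcL : (L.card : ℝ) ≤ K := le_trans (by exact_mod_cast Finset.card_le_card hLb) hK
  have hcUθ : (U.card : ℝ) * θ' ≤ κ := by rw [hκ]; exact mul_le_mul_of_nonneg_right hcU hθ'
  have hcLθ : (L.card : ℝ) * θ' ≤ κ := by rw [hκ]; exact mul_le_mul_of_nonneg_right hcL hθ'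
  rw [← hκ]
  -- `α = 2 h - G`
  have hα0 : ∀ i ∈ U, 0 ≤ 2 * h i - G i := fun i hi => by
    have := hGh i (Finset.mem_union_left _ hi)
    linarith [hG i]
  have hαS : ∀ i ∈ U, 2 * h i - G i ≤ S i + θ' := fun i hi => by
    have := hh i (Finset.mem_union_left _ hi)
    linarith
  have sα : ∑ i ∈ U, (2 * h i - G i) = 2 * ∑ i ∈ U, h i - ∑ i ∈ U, G i := by
    rw [Finset.sum_sub_distrib, ← Finset.mul_sum]
  have sαS : ∑ i ∈ U, (2 * h i - G i) ≤ ∑ i ∈ U, S i + κ := by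
    calc ∑ i ∈ U, (2 * h i - G i) ≤ ∑ i ∈ U, (S i + θ') := Finset.sum_le_sum hαS
      _ = ∑ i ∈ U, S i + U.card * θ' := by
          rw [Finset.sum_add_distrib, Finset.sum_const, nsmul_eq_mul]
      _ ≤ _ := by linarith
  have sα0 : 0 ≤ ∑ i ∈ U, (2 * h i - G i) := Finset.sum_nonneg hα0
  obtain ⟨X, hX⟩ : ∃ X, X = ∑ i ∈ U, S i := ⟨_, rfl⟩
  obtain ⟨α, hα⟩ : ∃ α, α = ∑ i ∈ U, (2 * h i - G i) := ⟨_, rfl⟩
  rw [← hα] at sα sαS sα0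
  rw [← hX] at sαS
  have hX0 : 0 ≤ X := by rw [hX]; exact hSn _
  have hXl : X ≤ l := by rw [hX]; exact hSl _
  have hAα : A ≤ α + E1 := by rw [hA, sα]; linarith
  have hA0 : 0 ≤ A := by rw [hA]; linarith
  have hxX : X + E1 ≤ x := by
    rw [hx, ← hX]
    linarith [hGSs Du]
  have hxyl : x + y ≤ l := by linarith
  have hx0 : 0 ≤ x := by linarith
  have hy0 : 0 ≤ y := by linarith
  have hE1l : E1 ≤ l := by linarith
  refine ⟨hz0, hG0, hGx, hGy, by rw [hA]; linarith, by linarith, ?_⟩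
  -- multiply by `2 π`
  have hm2 : 2 * π * a ≤ 2 * π * (∑ j ∈ J, 2 * D j +
      ∑ i ∈ big \ (J ∪ L), (S i + G i + θ') / 2 / π * (S i + G i) +
      ∑ i ∈ bigᶜ \ Dl, θ / π * (S i + G i) +
      R / π * (∑ i ∈ L, S i + ∑ i ∈ Dl, S i + (∑ i ∈ L, G i + ∑ i ∈ Dl, G i) + 2 * st)) :=
    mul_le_mul_of_nonneg_left ha (by positivity)
  obtain ⟨P, hP⟩ : ∃ P, P = ∑ i ∈ L, S i + ∑ i ∈ Dl, S i + (∑ i ∈ L, G i + ∑ i ∈ Dl, G i) +
    2 * st := ⟨_, rfl⟩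
  rw [← hP] at hm2
  have e0 : 2 * π * (∑ j ∈ J, 2 * D j +
      ∑ i ∈ big \ (J ∪ L), (S i + G i + θ') / 2 / π * (S i + G i) +
      ∑ i ∈ bigᶜ \ Dl, θ / π * (S i + G i) + R / π * P) =
      ∑ j ∈ J, 4 * π * D j + ∑ i ∈ big \ (J ∪ L), (S i + G i + θ') * (S i + G i) +
      ∑ i ∈ bigᶜ \ Dl, 2 * θ * (S i + G i) + 2 * R * P := by
    have q1 : 2 * π * ∑ j ∈ J, 2 * D j = ∑ j ∈ J, 4 * π * D j := by
      rw [Finset.mul_sum]
      exact Finset.sum_congr rfl fun i _ => by ring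
    have q2 : 2 * π * ∑ i ∈ big \ (J ∪ L), (S i + G i + θ') / 2 / π * (S i + G i) =
        ∑ i ∈ big \ (J ∪ L), (S i + G i + θ') * (S i + G i) := by
      rw [Finset.mul_sum]
      exact Finset.sum_congr rfl fun i _ => by field_simp
    have q3 : 2 * π * ∑ i ∈ bigᶜ \ Dl, θ / π * (S i + G i) =
        ∑ i ∈ bigᶜ \ Dl, 2 * θ * (S i + G i) := by
      rw [Finset.mul_sum]
      exact Finset.sum_congr rfl fun i _ => by field_simp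
    have q4 : 2 * π * (R / π * P) = 2 * R * P := by field_simp
    rw [mul_add, mul_add, mul_add, q1, q2, q3, q4]
  rw [e0] at hm2
  -- dust
  have f1 : ∑ i ∈ bigᶜ \ Dl, 2 * θ * (S i + G i) ≤ 4 * l * θ := by
    rw [← Finset.mul_sum, Finset.sum_add_distrib]
    have t1 := hSl (bigᶜ \ Dl)
    have t2 := hGSs (bigᶜ \ Dl)
    have : 2 * θ * (∑ i ∈ bigᶜ \ Dl, S i + ∑ i ∈ bigᶜ \ Dl, G i) ≤ 2 * θ * (2 * l) :=
      mul_le_mul_of_nonneg_left (by linarith) (by positivity)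
    linarith
  -- big, not chart, not L
  have f2 : ∑ i ∈ big \ (J ∪ L), (S i + G i + θ') * (S i + G i) =
      ∑ i ∈ big \ (J ∪ L), (S i + G i) ^ 2 +
        θ' * (∑ i ∈ big \ (J ∪ L), S i + ∑ i ∈ big \ (J ∪ L), G i) := by
    rw [← Finset.sum_add_distrib, Finset.mul_sum, ← Finset.sum_add_distrib]
    exact Finset.sum_congr rfl fun i _ => by ring
  have f3 : θ' * (∑ i ∈ big \ (J ∪ L), S i + ∑ i ∈ big \ (J ∪ L), G i) ≤ 2 * l * κ := by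
    have t1 := hSl (big \ (J ∪ L))
    have t2 := hGSs (big \ (J ∪ L))
    have t3 : θ' * (∑ i ∈ big \ (J ∪ L), S i + ∑ i ∈ big \ (J ∪ L), G i) ≤ θ' * (2 * l) :=
      mul_le_mul_of_nonneg_left (by linarith) hθ'
    have t4 : θ' * (2 * l) ≤ κ * (2 * l) := mul_le_mul_of_nonneg_right hKθ (by positivity)
    linarith
  have dUJ : Disjoint (U \ J) (big \ (U ∪ L)) := by
    rw [Finset.disjoint_left]
    intro i hi hj
    exact (Finset.mem_sdiff.1 hj).2 (Finset.mem_union_left _ (Finset.mem_sdiff.1 hi).1)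
  have f4 : big \ (J ∪ L) = (U \ J) ∪ (big \ (U ∪ L)) := by
    ext i
    simp only [Finset.mem_sdiff, Finset.mem_union]
    constructor
    · rintro ⟨hi, hn⟩
      by_cases hU : i ∈ U
      · exact Or.inl ⟨hU, fun hJ => hn (Or.inl hJ)⟩
      · exact Or.inr ⟨hi, fun hh => hh.elim hU fun hL => hn (Or.inr hL)⟩
    · rintro (⟨hU, hJ⟩ | ⟨hi, hn⟩)
      · refine ⟨hUb hU, fun hh => hh.elim hJ fun hL => ?_⟩
        exact Finset.disjoint_left.1 hUL hU hL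
      · exact ⟨hi, fun hh => hh.elim (fun hJ => hn (Or.inl (hJU hJ))) fun hL => hn (Or.inr hL)⟩
  have f5 : ∑ i ∈ big \ (J ∪ L), (S i + G i) ^ 2 =
      ∑ i ∈ U \ J, (S i + G i) ^ 2 + ∑ i ∈ big \ (U ∪ L), (S i + G i) ^ 2 := by
    rw [f4, Finset.sum_union dUJ]
  have f6 : ∑ i ∈ big \ (U ∪ L), (S i + G i) ^ 2 ≤ 2 * (x + y) * z :=
    rest57 _ hG hGS (fun i hi => hm i (Finset.mem_sdiff.1 hi).1) hrest (by linarith)
  have f7 : ∑ i ∈ U \ J, (S i + G i) ^ 2 ≤ ∑ i ∈ U \ J, π * (S i ^ 2 - (2 * h i - G i) ^ 2) := by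
    refine Finset.sum_le_sum fun i hi => ?_
    obtain ⟨hiU, hiJ⟩ := Finset.mem_sdiff.1 hi
    exact I57N.f_le_c (hG i) (hGh i (Finset.mem_union_left _ hiU)) (h3 i hiU hiJ)
  have f8 : ∑ j ∈ J, 4 * π * D j ≤ ∑ j ∈ J, π * (S j ^ 2 - (2 * h j - G j) ^ 2) + 4 * π * κ := by
    have t1 : ∑ j ∈ J, 4 * π * D j ≤
        ∑ j ∈ J, (π * (S j ^ 2 - (2 * h j - G j) ^ 2) + 4 * π * θ') := by
      refine Finset.sum_le_sum fun j hj => ?_
      have := mul_le_mul_of_nonneg_left (hD j hj) (by positivity : 0 ≤ 4 * π)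
      linarith
    have t2 : ∑ j ∈ J, (π * (S j ^ 2 - (2 * h j - G j) ^ 2) + 4 * π * θ') =
        ∑ j ∈ J, π * (S j ^ 2 - (2 * h j - G j) ^ 2) + 4 * π * (J.card * θ') := by
      rw [Finset.sum_add_distrib, Finset.sum_const, nsmul_eq_mul]
      ring
    have t3 : (J.card : ℝ) * θ' ≤ κ := by
      refine le_trans (mul_le_mul_of_nonneg_right ?_ hθ') hcUθ
      exact_mod_cast Finset.card_le_card hJU
    have t4 := mul_le_mul_of_nonneg_left t3 (by positivity : 0 ≤ 4 * π)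
    linarith
  have f9 : ∑ i ∈ U \ J, π * (S i ^ 2 - (2 * h i - G i) ^ 2) +
      ∑ j ∈ J, π * (S j ^ 2 - (2 * h j - G j) ^ 2) =
      π * ∑ i ∈ U, (S i ^ 2 - (2 * h i - G i) ^ 2) := by
    rw [Finset.sum_sdiff hJU, Finset.mul_sum]
  have f10 : ∑ i ∈ U, (S i ^ 2 - (2 * h i - G i) ^ 2) ≤ X ^ 2 - α ^ 2 + κ * (X + α) := by
    have := sq_sum57 U S (fun i => 2 * h i - G i) hθ' hcU (fun i _ => hS i) hα0 hαS
    rw [← hX, ← hα, ← hκ] at this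
    exact this
  -- `X² - α² ≤ x² - A² + 2 E1 κ`
  have f11 : X ^ 2 - α ^ 2 ≤ x ^ 2 - A ^ 2 + 2 * l * κ := by
    have t1 : (X + E1) ^ 2 ≤ x ^ 2 := pow_le_pow_left₀ (by linarith) hxX 2
    have t2 : A ^ 2 ≤ (α + E1) ^ 2 := pow_le_pow_left₀ hA0 hAα 2
    have t3 : E1 * (α - X) ≤ E1 * κ := mul_le_mul_of_nonneg_left (by linarith) hE10
    have t4 : E1 * κ ≤ l * κ := mul_le_mul_of_nonneg_right hE1l hκ0
    nlinarith
  have hα7 : α ≤ l + κ := by linarith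
  have hκπ : κ ≤ 3.15 := by linarith
  have hθπ : θ ≤ 3.15 := by linarith
  have hl7 : l ≤ 6.3 := by linarith
  -- the U part
  have f12 : π * ∑ i ∈ U, (S i ^ 2 - (2 * h i - G i) ^ 2) ≤ π * (x ^ 2 - A ^ 2) + 100 * κ := by
    have t1 : ∑ i ∈ U, (S i ^ 2 - (2 * h i - G i) ^ 2) ≤ x ^ 2 - A ^ 2 + 2 * l * κ + κ * (X + α) := by
      linarith
    have t2 : 2 * l * κ + κ * (X + α) ≤ 30 * κ := by
      have : κ * (X + α) ≤ κ * (2 * 6.3 + 3.15) := mul_le_mul_of_nonneg_left (by linarith) hκ0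
      have t5 : l * κ ≤ 6.3 * κ := mul_le_mul_of_nonneg_right hl7 hκ0
      linarith
    have t3 : π * ∑ i ∈ U, (S i ^ 2 - (2 * h i - G i) ^ 2) ≤ π * (x ^ 2 - A ^ 2 + 30 * κ) :=
      mul_le_mul_of_nonneg_left (by linarith) hpi0.le
    have t4 : π * (30 * κ) ≤ 100 * κ := by nlinarith
    linarith
  -- the label of the opposite arc
  have sL : ∑ i ∈ L, ((S i + G i + θ') / 2 - h i) =
      (∑ i ∈ L, S i + ∑ i ∈ L, G i + L.card * θ') / 2 - ∑ i ∈ L, h i := by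
    rw [Finset.sum_sub_distrib, ← Finset.sum_div, Finset.sum_add_distrib, Finset.sum_add_distrib,
      Finset.sum_const, nsmul_eq_mul]
  rw [sL] at hR
  have hDlS : E2 ≤ ∑ i ∈ Dl, S i := hE2'.trans (hGSs Dl)
  have hρκ : ρ ≤ κ := hρθ.trans hKθ
  have g1 : 2 * R ≤ y + A + (4 * θ + 10 * κ) := by
    have : 2 * R ≤ 2 * gU + 2 * E2 + (∑ i ∈ L, S i + ∑ i ∈ L, G i + κ) + 4 * θ + 8 * ρ := by
      linarith
    rw [hA, hy]
    linarith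
  have g2 : P ≤ y + A + (2 * θ + 6 * κ) := by
    rw [hP, hA, hy]
    have : ρ * K ≤ κ := hρK
    have h5 : 2 * ρ * K ≤ 2 * κ := by linarith
    linarith
  have hP0 : 0 ≤ P := by
    rw [hP]
    have := hSn L
    have := hSn Dl
    have := hGn L
    have := hGn Dl
    linarith
  obtain ⟨e, he⟩ : ∃ e, e = θ + κ := ⟨_, rfl⟩
  have he0 : 0 ≤ e := by rw [he]; linarith
  have heπ : e ≤ 3.15 := by rw [he]; linarith
  have hyA0 : 0 ≤ y + A := by linarith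
  have hyA : y + A ≤ 16 := by linarith
  have g3 : 2 * R * P ≤ (y + A) ^ 2 + 700 * e := by
    have t1 : 2 * R ≤ y + A + 10 * e := by rw [he]; linarith
    have t2 : P ≤ y + A + 10 * e := by rw [he]; linarith
    have t3 : 2 * R * P ≤ (y + A + 10 * e) * (y + A + 10 * e) :=
      mul_le_mul t1 t2 hP0 (by linarith)
    have t4 : (y + A + 10 * e) * (y + A + 10 * e) = (y + A) ^ 2 + (20 * (y + A) + 100 * e) * e := by
      ring
    have t5 : (20 * (y + A) + 100 * e) * e ≤ 700 * e := by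
      refine mul_le_mul_of_nonneg_right ?_ he0
      linarith
    linarith
  rw [f2, f5] at hm2
  have k1 : 4 * π * κ ≤ 13 * κ := mul_le_mul_of_nonneg_right (by linarith) hκ0
  have k2 : 4 * l * θ ≤ 26 * θ := mul_le_mul_of_nonneg_right (by linarith) hθ
  have k3 : 2 * l * κ ≤ 13 * κ := mul_le_mul_of_nonneg_right (by linarith) hκ0
  rw [he] at g3
  linarith

end Pool.Agent.FPM
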