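import Mathlib
import Pool.Agent.FPM.I57N

/-
# ISO57, module G3, real half (helper28)

`num57`: the numbers of the level statement with errors, errors to zero.
-/

open Real

namespace Pool.Agent.FPM.I57N

/-- one chart with a small error -/
theorem exp_clamp {e l x y G A : ℝ} (he : 0 ≤ e) (hy : 0 ≤ y) (hG : 0 ≤ G)
    (hA : 0 ≤ A) (hxy : x + y ≤ l) (h1 : G ≤ A + e) (h2 : A ≤ x + e) (h3 : G ≤ x) :
    ∃ A', G ≤ A' ∧ A' ≤ x ∧
      π * (x ^ 2 - A ^ 2) + (y + A) ^ 2 ≤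
        π * (x ^ 2 - A' ^ 2) + (y + A') ^ 2 + (12 * l + 5 * e) * e := by
  have hx : 0 ≤ x := hG.trans h3
  have hl : 0 ≤ l := by linarith
  have hpi : π ≤ 4 := Real.pi_le_four
  have hpi0 : 0 ≤ π := Real.pi_pos.le
  obtain ⟨A', hA'⟩ : ∃ A', A' = max G (min A x) := ⟨_, rfl⟩
  have hGA : G ≤ A' := by rw [hA']; exact le_max_left _ _
  have hAx : A' ≤ x := by rw [hA']; exact max_le h3 (min_le_right _ _)
  have hu : A' ≤ A + e := by
    rw [hA']
    exact max_le h1 ((min_le_left _ _).trans (by linarith))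
  have hd : A ≤ A' + e := by
    have : min A x ≤ A' := by rw [hA']; exact le_max_right _ _
    rcases le_total A x with h | h
    · rw [min_eq_left h] at this
      linarith
    · rw [min_eq_right h] at this
      linarith
  refine ⟨A', hGA, hAx, ?_⟩
  have hA'0 : 0 ≤ A' := hG.trans hGA
  -- first term
  have t1 : π * (x ^ 2 - A ^ 2) - π * (x ^ 2 - A' ^ 2) ≤ (8 * l + 4 * e) * e := by
    have e1 : π * (x ^ 2 - A ^ 2) - π * (x ^ 2 - A' ^ 2) = π * ((A' - A) * (A' + A)) := by ring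
    rw [e1]
    have e2 : (A' - A) * (A' + A) ≤ e * (2 * l + e) := by
      have h5 : (A' - A) * (A' + A) ≤ e * (A' + A) :=
        mul_le_mul_of_nonneg_right (by linarith) (by linarith)
      have h6 : e * (A' + A) ≤ e * (2 * l + e) := mul_le_mul_of_nonneg_left (by linarith) he
      linarith
    have e3 : π * ((A' - A) * (A' + A)) ≤ π * (e * (2 * l + e)) :=
      mul_le_mul_of_nonneg_left e2 hpi0
    have e4 : π * (e * (2 * l + e)) ≤ 4 * (e * (2 * l + e)) :=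
      mul_le_mul_of_nonneg_right hpi (by positivity)
    linarith
  have t2 : (y + A) ^ 2 - (y + A') ^ 2 ≤ (4 * l + e) * e := by
    have e1 : (y + A) ^ 2 - (y + A') ^ 2 = (A - A') * (2 * y + A + A') := by ring
    rw [e1]
    have h5 : (A - A') * (2 * y + A + A') ≤ e * (2 * y + A + A') :=
      mul_le_mul_of_nonneg_right (by linarith) (by linarith)
    have h6 : e * (2 * y + A + A') ≤ e * (4 * l + e) :=
      mul_le_mul_of_nonneg_left (by linarith) he
    linarith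
  linarith

/-- the real inequality with an error `e` -/
theorem num_err {e l m x y z G A B : ℝ} (he : 0 ≤ e) (hx : 0 ≤ x) (hy : 0 ≤ y) (hz : 0 ≤ z)
    (hG : 0 ≤ G) (hA : 0 ≤ A) (hB : 0 ≤ B) (hl : x + y + z = l)
    (hGA : G ≤ A + e) (hAx : A ≤ x + e) (hGB : G ≤ B + e) (hBy : B ≤ y + e)
    (hGx : G ≤ x) (hGy : G ≤ y)
    (h1 : m ≤ π * (x ^ 2 - A ^ 2) + (y + A) ^ 2 + 2 * (x + y) * z + (1 + l) * e)
    (h2 : m ≤ π * (y ^ 2 - B ^ 2) + (x + B) ^ 2 + 2 * (x + y) * z + (1 + l) * e)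
    (h3 : m ≤ (x + G) ^ 2 + (y + G) ^ 2 + 2 * (x + y) * z + (1 + l) * e) :
    m ≤ 2877 / 2500 * l ^ 2 + (13 * l + 5 * e + 1) * e := by
  have hl0 : 0 ≤ l := by linarith
  obtain ⟨A', a1, a2, a3⟩ := exp_clamp (l := l) he hy hG hA (by linarith) hGA hAx hGx
  obtain ⟨B', b1, b2, b3⟩ := exp_clamp (l := l) (x := y) (y := x) he hx hG hB (by linarith)
    hGB hBy hGy
  have hpos : 0 ≤ (12 * l + 5 * e) * e := by positivity
  rcases num3 hG a1 a2 b1 b2 with h | h | h
  · have := num_rest hx hy hz h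
    rw [hl] at this
    linarith
  · have := num_rest hx hy hz h
    rw [hl] at this
    linarith
  · have := num_rest hx hy hz h
    rw [hl] at this
    linarith

/-- **module G3, real half**: errors to zero. -/
theorem num57 {l a : ℝ} (hl : 0 ≤ l)
    (h : ∀ θ : ℝ, 0 < θ → ∃ K : ℕ, ∀ θ' : ℝ, 0 < θ' → ∃ x y z G A B : ℝ,
      0 ≤ x ∧ 0 ≤ y ∧ 0 ≤ z ∧ 0 ≤ G ∧ 0 ≤ A ∧ 0 ≤ B ∧ x + y + z = l ∧
      G ≤ A + 100 * (1 + l) * (θ + K * θ') ∧ A ≤ x + 100 * (1 + l) * (θ + K * θ') ∧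
      G ≤ B + 100 * (1 + l) * (θ + K * θ') ∧ B ≤ y + 100 * (1 + l) * (θ + K * θ') ∧
      G ≤ x ∧ G ≤ y ∧
      2 * π * a ≤ π * (x ^ 2 - A ^ 2) + (y + A) ^ 2 + 2 * (x + y) * z +
        (1 + l) * (100 * (1 + l) * (θ + K * θ')) ∧
      2 * π * a ≤ π * (y ^ 2 - B ^ 2) + (x + B) ^ 2 + 2 * (x + y) * z +
        (1 + l) * (100 * (1 + l) * (θ + K * θ')) ∧
      2 * π * a ≤ (x + G) ^ 2 + (y + G) ^ 2 + 2 * (x + y) * z +
        (1 + l) * (100 * (1 + l) * (θ + K * θ'))) :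
    2 * π * a ≤ 2877 / 2500 * l ^ 2 := by
  refine le_of_forall_pos_le_add fun ε hε => ?_
  -- choose e small
  obtain ⟨e, he0, he1, he⟩ : ∃ e : ℝ, 0 < e ∧ e ≤ 1 ∧ (13 * l + 6) * e ≤ ε := by
    refine ⟨min 1 (ε / (13 * l + 6)), lt_min one_pos (by positivity), min_le_left _ _, ?_⟩
    have hpos : 0 < 13 * l + 6 := by positivity
    calc (13 * l + 6) * min 1 (ε / (13 * l + 6)) ≤ (13 * l + 6) * (ε / (13 * l + 6)) :=
          mul_le_mul_of_nonneg_left (min_le_right _ _) hpos.le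
      _ = ε := by field_simp
  have hl1 : 0 < 100 * (1 + l) := by positivity
  obtain ⟨K, hK⟩ := h (e / (100 * (1 + l)) / 2) (by positivity)
  obtain ⟨x, y, z, G, A, B, hx, hy, hz, hG, hA, hB, hs, g1, g2, g3, g4, g5, g6, k1, k2, k3⟩ :=
    hK (e / (100 * (1 + l)) / 2 / (K + 1)) (by positivity)
  have hE : 100 * (1 + l) * (e / (100 * (1 + l)) / 2 + K * (e / (100 * (1 + l)) / 2 / (K + 1))) ≤
      e := by
    have q1 : (K : ℝ) * (e / (100 * (1 + l)) / 2 / (K + 1)) ≤ e / (100 * (1 + l)) / 2 := by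
      have hKp : (0 : ℝ) < K + 1 := by positivity
      rw [mul_div_assoc', div_le_iff₀ hKp, mul_comm]
      exact mul_le_mul_of_nonneg_left (by linarith) (by positivity)
    calc 100 * (1 + l) * (e / (100 * (1 + l)) / 2 + K * (e / (100 * (1 + l)) / 2 / (K + 1)))
        ≤ 100 * (1 + l) * (e / (100 * (1 + l)) / 2 + e / (100 * (1 + l)) / 2) :=
          mul_le_mul_of_nonneg_left (by linarith) hl1.le
      _ = e := by field_simp; ring
  have hE' := mul_le_mul_of_nonneg_left hE (by positivity : (0 : ℝ) ≤ 1 + l)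
  have := num_err he0.le hx hy hz hG hA hB hs (g1.trans (by linarith)) (g2.trans (by linarith))
    (g3.trans (by linarith)) (g4.trans (by linarith)) g5 g6 (k1.trans (by linarith))
    (k2.trans (by linarith)) (k3.trans (by linarith))
  have h9 : (13 * l + 5 * e + 1) * e ≤ (13 * l + 6) * e :=
    mul_le_mul_of_nonneg_right (by linarith) he0.le
  linarith

end Pool.Agent.FPM.I57N
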