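import Mathlib
import Pool.Agent.FPM.I57LP
import Pool.Agent.FPM.ODI
import Pool.Agent.FPM.I57NL

/-
I57Z (helper94): the isoperimetric inequality for odd functions with `κ = 5000 / 2877 * π = 1.7379 π` from
the decomposition of the level (`lp57_ae`, module G1) and the inequality at one level (`hlev`, modules G2, G3).
-/

open MeasureTheory Set Filter Topology
open scoped ENNReal NNReal

noncomputable section

namespace Pool.Agent.FPM

open Pool.Agent.EWD Pool.Agent.FPX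

variable {M : Type} [MetricSpace M] {γ : ℝ → M}

/-- module G1 at one level: for every `θ` a number `K` of big pieces, for every `θ'` a decomposition -/
def LPall (C : Calc M γ) (f : M → ℝ) (t l : ℝ) : Prop :=
  ∀ θ : ℝ, 0 < θ → ∃ K : ℕ, ∀ θ' : ℝ, 0 < θ' → ∃ (ι : Type) (_ : Fintype ι) (_ : DecidableEq ι)
    (big tr : Finset ι) (Z : ι → M → ℝ) (O : ι → Set M) (S p q : ι → ℝ), big.card ≤ K ∧
      LP57 C f t θ θ' l big tr Z O S p q

/-- module G1: the statement of `lp57_ae` -/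
def LPae (C : Calc M γ) : Prop :=
  ∀ g : M → ℝ, Lip g → OddB γ g → ∀ᵐ t : ℝ, 0 < t →
    DifferentiableAt ℝ (lev C fun x => |g x|) t ∧
    volume {s : ℝ | s ∈ Ioc 0 (2 * Real.pi) ∧ |g (γ s)| = t} = 0 ∧
    (deriv (lev C fun x => |g x|) t < 2 * Real.pi →
      LPall C (fun x => |g x|) t (deriv (lev C fun x => |g x|) t))

/-- modules G2, G3: the inequality at one level -/
def Lev57 (C : Calc M γ) (ε : ℝ) : Prop :=
  ∀ g : M → ℝ, Lip g → OddB γ g → ∀ t : ℝ, 0 < t →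
    DifferentiableAt ℝ (lev C fun x => |g x|) t →
    volume {s : ℝ | s ∈ Ioc 0 (2 * Real.pi) ∧ |g (γ s)| = t} = 0 →
    deriv (lev C fun x => |g x|) t < 2 * Real.pi →
    LPall C (fun x => |g x|) t (deriv (lev C fun x => |g x|) t) →
    2 * Real.pi * ((C.μ {o | t < |g (C.pt o)|}).toReal - ε) ≤
      2877 / 2500 * deriv (lev C fun x => |g x|) t ^ 2

theorem isopO57_of (C : Calc M γ) {ε : ℝ} (hε : 0 ≤ ε) (hv : C.vol ≤ 21 / 10 * Real.pi) (h1 : LPae C)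
    (h2 : Lev57 C ε) : IsopO C (5000 / 2877 * Real.pi) ε := by
  have hpi := Real.pi_pos
  have := C.fin
  intro g hg ho
  filter_upwards [h1 g hg ho] with t h ht
  obtain ⟨hd, hn, hl⟩ := h ht
  refine ⟨hd, ?_⟩
  rcases lt_or_ge (deriv (lev C fun x => |g x|) t) (2 * Real.pi) with hlt | hge
  · have h3 := h2 g hg ho t ht hd hn hlt (hl hlt)
    calc 5000 / 2877 * Real.pi * ((C.μ {o | t < |g (C.pt o)|}).toReal - ε) =
        2500 / 2877 * (2 * Real.pi * ((C.μ {o | t < |g (C.pt o)|}).toReal - ε)) := by ring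
      _ ≤ 2500 / 2877 * (2877 / 2500 * deriv (lev C fun x => |g x|) t ^ 2) :=
        mul_le_mul_of_nonneg_left h3 (by norm_num)
      _ = deriv (lev C fun x => |g x|) t ^ 2 := by ring
  · have h3 : (C.μ {o | t < |g (C.pt o)|}).toReal ≤ C.vol :=
      ENNReal.toReal_mono (measure_ne_top _ _) (measure_mono (subset_univ _))
    have h4 : (2 * Real.pi) ^ 2 ≤ deriv (lev C fun x => |g x|) t ^ 2 :=
      pow_le_pow_left₀ (by positivity) hge 2
    have h5 : (C.μ {o | t < |g (C.pt o)|}).toReal - ε ≤ 21 / 10 * Real.pi := by linarith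
    calc 5000 / 2877 * Real.pi * ((C.μ {o | t < |g (C.pt o)|}).toReal - ε) ≤
        5000 / 2877 * Real.pi * (21 / 10 * Real.pi) := mul_le_mul_of_nonneg_left h5 (by positivity)
      _ ≤ (2 * Real.pi) ^ 2 := by nlinarith [sq_nonneg Real.pi]
      _ ≤ _ := h4

/-- module G2: the numbers at one level (helper57's form: `θ, θ'` small depending on `l`, `K` any bound of the
number of big pieces, error `c (1 + l)² (θ + (1 + K) θ')`, for instance `10000 (θ + K θ')`) -/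
def LevN (C : Calc M γ) (ε c : ℝ) : Prop :=
  ∀ g : M → ℝ, Lip g → OddB γ g → ∀ t : ℝ, 0 < t →
    DifferentiableAt ℝ (lev C fun x => |g x|) t →
    volume {s : ℝ | s ∈ Ioc 0 (2 * Real.pi) ∧ |g (γ s)| = t} = 0 →
    ∀ l : ℝ, l = deriv (lev C fun x => |g x|) t → l < 2 * Real.pi →
    ∀ θ θ' K : ℝ, 0 < θ → 0 < θ' → ∀ (ι : Type) [Fintype ι] [DecidableEq ι] (big tr : Finset ι)
      (Z : ι → M → ℝ) (O : ι → Set M) (S p q : ι → ℝ), (big.card : ℝ) ≤ K →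
      LP57 C (fun x => |g x|) t θ θ' l big tr Z O S p q → l + 2 * θ + 2 * K * θ' < 2 * Real.pi →
      ∃ x y z G A B : ℝ, x + y + z = l ∧ 0 ≤ z ∧ 0 ≤ G ∧ G ≤ x ∧ G ≤ y ∧ G ≤ A ∧ G ≤ B ∧
        A ≤ x + K * θ' ∧ B ≤ y + K * θ' ∧
        2 * Real.pi * ((C.μ {o | t < |g (C.pt o)|}).toReal - ε) ≤
          Real.pi * (x ^ 2 - A ^ 2) + (y + A) ^ 2 + 2 * (x + y) * z + c * (1 + l) ^ 2 * (θ + (1 + K) * θ') ∧
        2 * Real.pi * ((C.μ {o | t < |g (C.pt o)|}).toReal - ε) ≤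
          Real.pi * (y ^ 2 - B ^ 2) + (x + B) ^ 2 + 2 * (x + y) * z + c * (1 + l) ^ 2 * (θ + (1 + K) * θ') ∧
        2 * Real.pi * ((C.μ {o | t < |g (C.pt o)|}).toReal - ε) ≤
          (x + G) ^ 2 + (y + G) ^ 2 + 2 * (x + y) * z + c * (1 + l) ^ 2 * (θ + (1 + K) * θ')

/-- from the numbers to the inequality at one level -/
theorem lev57_of (C : Calc M γ) {ε c : ℝ} (hc0 : 0 ≤ c) (h : LevN C ε c) : Lev57 C ε := by
  intro g hg ho t ht hd hn hlt hall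
  obtain ⟨l, hl⟩ : ∃ l, l = deriv (lev C fun x => |g x|) t := ⟨_, rfl⟩
  rw [← hl] at hlt hall ⊢
  have hpi := Real.pi_pos
  -- `0 ≤ l`
  have hl0 : 0 ≤ l := by
    obtain ⟨K, hK⟩ := hall 1 one_pos
    obtain ⟨ι, i1, i2, big, tr, Z, O, S, p, q, -, hLP⟩ := hK 1 one_pos
    rw [← hLP.sumS]
    exact Finset.sum_nonneg fun i _ => (Gz_nonneg _ _ _ _).trans (hLP.GS i)
  refine I57N.num57 hl0 fun θ hθ => ?_
  -- `θ₀` small
  obtain ⟨θ₀, h0, h0θ, h0l⟩ : ∃ θ₀ : ℝ, 0 < θ₀ ∧ θ₀ ≤ θ / (1 + c) ∧ 4 * θ₀ < 2 * Real.pi - l := by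
    refine ⟨min (θ / (1 + c)) ((2 * Real.pi - l) / 5), lt_min (by positivity) (by linarith), min_le_left _ _, ?_⟩
    have := min_le_right (θ / (1 + c)) ((2 * Real.pi - l) / 5)
    linarith
  obtain ⟨K, hK⟩ := hall θ₀ h0
  refine ⟨K + 1, fun θ' hθ' => ?_⟩
  have hK0 : (0 : ℝ) ≤ K := Nat.cast_nonneg K
  -- `θ₁` small
  obtain ⟨θ₁, h1, h1θ, h1l⟩ : ∃ θ₁ : ℝ, 0 < θ₁ ∧ θ₁ ≤ θ' / (1 + c) ∧ 4 * K * θ₁ < 2 * Real.pi - l := by
    refine ⟨min (θ' / (1 + c)) ((2 * Real.pi - l) / (4 * K + 4)),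
      lt_min (by positivity) (div_pos (by linarith) (by positivity)), min_le_left _ _, ?_⟩
    have h2 := min_le_right (θ' / (1 + c)) ((2 * Real.pi - l) / (4 * K + 4))
    have h3 : 0 < 2 * Real.pi - l := by linarith
    calc 4 * K * min (θ' / (1 + c)) ((2 * Real.pi - l) / (4 * K + 4))
        ≤ 4 * K * ((2 * Real.pi - l) / (4 * K + 4)) := mul_le_mul_of_nonneg_left h2 (by positivity)
      _ = (2 * Real.pi - l) * (K / (K + 1)) := by field_simp
      _ < (2 * Real.pi - l) * 1 := by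
          refine mul_lt_mul_of_pos_left ?_ h3
          rw [div_lt_one (by positivity)]
          linarith
      _ = 2 * Real.pi - l := mul_one _
  obtain ⟨ι, i1, i2, big, tr, Z, O, S, p, q, hc, hLP⟩ := hK θ₁ h1
  have hc' : (big.card : ℝ) ≤ K := by exact_mod_cast hc
  obtain ⟨x, y, z, G, A, B, e1, e2, e3, e4, e5, e6, e7, e8, e9, f1, f2, f3⟩ :=
    h g hg ho t ht hd hn l hl hlt θ₀ θ₁ K h0 h1 ι big tr Z O S p q hc' hLP (by linarith)
  have hθc : (1 + c) * θ₀ ≤ θ := by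
    have := mul_le_mul_of_nonneg_left h0θ (show 0 ≤ 1 + c by linarith)
    rwa [mul_div_cancel₀ _ (show 1 + c ≠ 0 by positivity)] at this
  have hθc' : (1 + c) * θ₁ ≤ θ' := by
    have := mul_le_mul_of_nonneg_left h1θ (show 0 ≤ 1 + c by linarith)
    rwa [mul_div_cancel₀ _ (show 1 + c ≠ 0 by positivity)] at this
  have hE : c * (1 + l) ^ 2 * (θ₀ + (1 + K) * θ₁) ≤
      (1 + l) * (100 * (1 + l) * (θ + ((K + 1 : ℕ) : ℝ) * θ')) := by
    have h3 : c * θ₀ ≤ θ := by linarith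
    have h3' : (1 + (K : ℝ)) * (c * θ₁) ≤ (1 + K) * θ' := mul_le_mul_of_nonneg_left (by linarith) (by positivity)
    have h4 : (1 + l) ^ 2 * (c * θ₀ + (1 + K) * (c * θ₁)) ≤ (1 + l) ^ 2 * (θ + (1 + K) * θ') :=
      mul_le_mul_of_nonneg_left (by linarith) (by positivity)
    have h5 : 0 ≤ (1 + l) ^ 2 * (θ + (1 + K) * θ') := by positivity
    push_cast
    nlinarith
  have hE2 : (K : ℝ) * θ₁ ≤ 100 * (1 + l) * (θ + ((K + 1 : ℕ) : ℝ) * θ') := by
    have h3 : (K : ℝ) * θ₁ ≤ (K + 1) * θ' := by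
      have h6 : θ₁ ≤ θ' := by nlinarith
      have h5 : (K : ℝ) * θ₁ ≤ K * θ' := mul_le_mul_of_nonneg_left h6 hK0
      linarith
    have h5 : θ + ((K + 1 : ℕ) : ℝ) * θ' ≤ 100 * (1 + l) * (θ + ((K + 1 : ℕ) : ℝ) * θ') := by
      have h6 : 0 ≤ θ + ((K + 1 : ℕ) : ℝ) * θ' := by positivity
      nlinarith [mul_nonneg hl0 h6]
    push_cast at h5 ⊢
    linarith
  have hE0 : 0 ≤ 100 * (1 + l) * (θ + ((K + 1 : ℕ) : ℝ) * θ') := by positivity
  exact ⟨x, y, z, G, A, B, by linarith, by linarith, e2, e3, by linarith, by linarith, e1,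
    by linarith, by linarith, by linarith, by linarith, e4, e5, by linarith, by linarith, by linarith⟩

/-- module G2 in helper57's form `level57` (file I57LV): `f` any Lipschitz function which is `π`-periodic along the
curve, error `c (θ + K θ')` -/
def LevF (C : Calc M γ) (ε c : ℝ) : Prop :=
  ∀ f : M → ℝ, Lip f → (∀ s, f (γ (s + Real.pi)) = f (γ s)) → ∀ t : ℝ,
    volume {s : ℝ | s ∈ Ioc 0 (2 * Real.pi) ∧ f (γ s) = t} = 0 → ∀ l : ℝ, l < 2 * Real.pi →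
    ∀ θ θ' K : ℝ, 0 < θ → 0 < θ' → ∀ (ι : Type) [Fintype ι] [DecidableEq ι] (big tr : Finset ι)
      (Z : ι → M → ℝ) (O : ι → Set M) (S p q : ι → ℝ), (big.card : ℝ) ≤ K →
      LP57 C f t θ θ' l big tr Z O S p q → l + 2 * θ + 2 * K * θ' < 2 * Real.pi →
      ∃ x y z G A B : ℝ, x + y + z = l ∧ 0 ≤ z ∧ 0 ≤ G ∧ G ≤ x ∧ G ≤ y ∧ G ≤ A ∧ G ≤ B ∧
        A ≤ x + K * θ' ∧ B ≤ y + K * θ' ∧
        2 * Real.pi * ((C.μ {o | t < f (C.pt o)}).toReal - ε) ≤
          Real.pi * (x ^ 2 - A ^ 2) + (y + A) ^ 2 + 2 * (x + y) * z + c * (θ + K * θ') ∧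
        2 * Real.pi * ((C.μ {o | t < f (C.pt o)}).toReal - ε) ≤
          Real.pi * (y ^ 2 - B ^ 2) + (x + B) ^ 2 + 2 * (x + y) * z + c * (θ + K * θ') ∧
        2 * Real.pi * ((C.μ {o | t < f (C.pt o)}).toReal - ε) ≤
          (x + G) ^ 2 + (y + G) ^ 2 + 2 * (x + y) * z + c * (θ + K * θ')

theorem levN_of (C : Calc M γ) {ε c : ℝ} (hc0 : 0 ≤ c) (h : LevF C ε c) : LevN C ε c := by
  intro g hg ho t _ _ hn l hl hlt θ θ' K hθ hθ' ι i1 i2 big tr Z O S p q hc hLP hsm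
  have hev : ∀ s, (fun x => |g x|) (γ (s + Real.pi)) = (fun x => |g x|) (γ s) := fun s => by
    have h1 : g (γ (s + Real.pi)) = -g (γ s) := ho s
    simp only
    rw [h1, abs_neg]
  have hgabs : Lip fun x => |g x| := by
    obtain ⟨Lg, hLg⟩ := hg
    refine ⟨Lg, LipschitzWith.of_dist_le_mul fun x y => ?_⟩
    refine le_trans ?_ (hLg.dist_le_mul x y)
    rw [Real.dist_eq, Real.dist_eq]
    exact abs_abs_sub_abs_le_abs_sub _ _
  obtain ⟨x, y, z, G, A, B, e1, e2, e3, e4, e5, e6, e7, e8, e9, f1, f2, f3⟩ :=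
    h (fun x => |g x|) hgabs hev t hn l hlt θ θ' K hθ hθ' ι big tr Z O S p q hc hLP hsm
  have hl0 : 0 ≤ l := by
    rw [← hLP.sumS]
    exact Finset.sum_nonneg fun i _ => (Gz_nonneg _ _ _ _).trans (hLP.GS i)
  have hK0 : 0 ≤ K := le_trans (Nat.cast_nonneg _) hc
  have hE : c * (θ + K * θ') ≤ c * (1 + l) ^ 2 * (θ + (1 + K) * θ') := by
    have h1 : c * (θ + K * θ') ≤ c * (θ + (1 + K) * θ') := mul_le_mul_of_nonneg_left (by nlinarith) hc0
    have h2 : 0 ≤ c * (θ + (1 + K) * θ') := by positivity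
    have h3 : 1 ≤ (1 + l) ^ 2 := one_le_pow₀ (by linarith)
    nlinarith
  exact ⟨x, y, z, G, A, B, e1, e2, e3, e4, e5, e6, e7, e8, e9, by linarith, by linarith, by linarith⟩

theorem isopO57_of' (C : Calc M γ) {ε c : ℝ} (hε : 0 ≤ ε) (hc0 : 0 ≤ c) (hv : C.vol ≤ 21 / 10 * Real.pi)
    (h1 : LPae C) (h2 : LevF C ε c) : IsopO C (5000 / 2877 * Real.pi) ε :=
  isopO57_of C hε hv h1 (lev57_of C hc0 (levN_of C hc0 h2))

end Pool.Agent.FPM
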