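import Mathlib
import Pool.Agent.FPM.I57C
import Pool.Agent.FPM.I57D0
import Pool.Agent.FPM.TRI

/-
PCS (helper19): the pieces of the boundary of a superlevel set, with the estimate of the integral of
the distance defect of a large piece (from `TRI` of helper87).
-/

open MeasureTheory Set Filter Topology
open scoped ENNReal NNReal

noncomputable section

namespace Pool.Agent.FPM

open Pool.Agent.EWD

variable {M : Type} [MetricSpace M] {γ : ℝ → M}

theorem Pcs.mono {C : Calc M γ} {H : Om → ℝ} {g : M → ℝ} {t θ θ' θ'' : ℝ} {k m : ℕ} {A : Fin k → Set M}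
    {Z : Fin k ⊕ Fin m → M → ℝ} {O : Fin k ⊕ Fin m → Set M} (h : Pcs C H g t θ θ' A Z O) (hθ : θ' ≤ θ'') :
    Pcs C H g t θ θ'' A Z O :=
  { h with
    near := fun i x hx => by
      obtain ⟨a, ha, h1⟩ := h.near i x hx
      exact ⟨a, ha, h1.trans hθ⟩
    per := fun i x hx y hy z hz => (h.per i x hx y hy z hz).trans (by linarith) }

theorem lip_dEpc (γ : ℝ → M) (e1 e2 : ℝ) : Lip (dE γ e1 e2) := by
  have l1 : Lip fun x => dist x (γ e1) := ⟨1, LipschitzWith.dist_left _⟩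
  have l2 : Lip fun x => dist x (γ e2) := ⟨1, LipschitzWith.dist_left _⟩
  have h := ((l1.add l2).sub (lip_const (e2 - e1))).const_mul (1 / 2)
  have e : dE γ e1 e2 = fun x => 1 / 2 * (dist x (γ e1) + dist x (γ e2) - (e2 - e1)) := by
    funext x
    unfold dE
    ring
  rw [e]
  exact h

theorem dE_nonneg57 (hγ : Bd γ) {e1 e2 : ℝ} (h1 : e1 ≤ e2) (h2 : e2 ≤ e1 + Real.pi) (x : M) :
    0 ≤ dE γ e1 e2 x := by
  have h3 := dist_triangle (γ e1) x (γ e2)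
  rw [bd_dist hγ h1 h2, dist_comm (γ e1) x] at h3
  unfold dE
  linarith

theorem dE_le57 [CompactSpace M] (γ : ℝ → M) (e1 e2 : ℝ) (x : M) :
    |dE γ e1 e2 x| ≤ Metric.diam (univ : Set M) + |e2 - e1| := by
  have h1 := Metric.dist_le_diam_of_mem (isCompact_univ (X := M)).isBounded (mem_univ x) (mem_univ (γ e1))
  have h2 := Metric.dist_le_diam_of_mem (isCompact_univ (X := M)).isBounded (mem_univ x) (mem_univ (γ e2))
  have h3 := dist_nonneg (x := x) (y := γ e1)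
  have h4 := dist_nonneg (x := x) (y := γ e2)
  have h5 := abs_le.1 (le_refl |e2 - e1|)
  unfold dE
  rw [abs_le]
  constructor <;> linarith

/-- the pieces at almost every level, with the integral of the defect -/
theorem pcs [CompactSpace M] (C : Calc M γ) (hγ : Bd γ) (hR : RegPl C) {g : M → ℝ} (hg : Lip g)
    {H : Om → ℝ} (hH : Integrable H C.μ)
    (hpg : ∀ p : M → ℝ, LipschitzWith 1 p → ∀ᵐ o ∂C.μ, |C.wed p g o| ≤ H o)
    {Z : ℕ → M → ℝ} (hZl : ∀ n, Lip (Z n)) (hZ0 : ∀ n x, 0 ≤ Z n x) (hZ1 : ∀ n x, Z n x ≤ 1)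
    (hZc : ∀ K P : Set M, Pc K P → ∃ n, Cut (Z n) K P) :
    ∀ᵐ t : ℝ, DifferentiableAt ℝ (mz C H g fun _ => 1) t ∧
      (∀ (e1 e2 : ℚ) (n : ℕ), (e1 : ℝ) ≤ e2 → (e2 : ℝ) ≤ e1 + Real.pi →
        DifferentiableAt ℝ (mz C (fun o => dE γ e1 e2 (C.pt o) * H o) g (Z n)) t) ∧
      (deriv (mz C H g fun _ => 1) t + Gz γ g t (fun _ => 1) < 2 * Real.pi →
      Gz γ g t (fun _ => 1) ≤ Real.pi →
      Gz γ g t (fun _ => 1) ≤ deriv (mz C H g fun _ => 1) t ∧
      ∀ θ : ℝ, 0 < θ → ∃ (k : ℕ) (A : Fin k → Set M), ∀ θ' : ℝ, 0 < θ' → ∃ (m : ℕ)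
        (n : Fin k ⊕ Fin m → ℕ) (O : Fin k ⊕ Fin m → Set M),
        Pcs C H g t θ θ' A (fun i => Z (n i)) O ∧
        ∀ (i : Fin k) (p q : ℝ), p ≤ q → q < p + Real.pi → γ p ∈ O (Sum.inl i) →
          γ q ∈ O (Sum.inl i) →
          (∀ s, γ s ∈ O (Sum.inl i) → t ≤ g (γ s) → ∃ m : ℤ, s + m * (2 * Real.pi) ∈ Icc p q) →
          ∀ e1 e2 D : ℝ, e1 ≤ p → q ≤ e2 →
          HasDerivAt (mz C (fun o => dE γ e1 e2 (C.pt o) * H o) g (Z (n (Sum.inl i)))) D t →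
          D ≤ (deriv (mz C H g (Z (n (Sum.inl i)))) t ^ 2 -
            (2 * (q - p) - Gz γ g t (Z (n (Sum.inl i)))) ^ 2) / 4 + θ') := by
  have hH0 : ∀ᵐ o ∂C.μ, 0 ≤ H o := by
    filter_upwards [hpg (fun _ => 0) ((LipschitzWith.const 0).weaken zero_le_one)] with o ho
    exact (abs_nonneg _).trans ho
  have a4 : ∀ᵐ t : ℝ, ∀ (e1 e2 : ℚ) (n : ℕ), (e1 : ℝ) ≤ e2 → (e2 : ℝ) ≤ e1 + Real.pi →
      DifferentiableAt ℝ (mz C (fun o => dE γ e1 e2 (C.pt o) * H o) g (Z n)) t := by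
    rw [ae_all_iff]
    intro e1
    rw [ae_all_iff]
    intro e2
    rw [ae_all_iff]
    intro n
    by_cases h1 : (e1 : ℝ) ≤ e2
    · by_cases h2 : (e2 : ℝ) ≤ e1 + Real.pi
      · have i1 : Integrable (fun o => dE γ e1 e2 (C.pt o) * H o) C.μ :=
          hH.bdd_mul (c := Metric.diam (univ : Set M) + |(e2 : ℝ) - e1|)
            (C.meas_pt (lip_dEpc γ _ _)).aestronglyMeasurable (Eventually.of_forall fun o => by
              rw [Real.norm_eq_abs]
              exact dE_le57 γ _ _ _)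
        have i2 : ∀ᵐ o ∂C.μ, 0 ≤ dE γ e1 e2 (C.pt o) * H o := by
          filter_upwards [hH0] with o ho
          exact mul_nonneg (dE_nonneg57 hγ h1 h2 _) ho
        filter_upwards [(mz_mono C hg (hZl n) (hZ0 n) (hZ1 n) i1 i2).ae_differentiableAt] with t ht _ _
        exact ht
      · exact Eventually.of_forall fun t _ h => absurd h h2
    · exact Eventually.of_forall fun t h => absurd h h1
  filter_upwards [pcs0 C hγ hR hg hH hpg hZl hZ0 hZ1 hZc, a4,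
    TRI C hγ hR hg hH hpg hZl hZ0 hZ1] with t t1 t2 t3
  refine ⟨t1.1, t2, fun hSG hG => ?_⟩
  obtain ⟨h1, h2⟩ := t1.2 hSG hG
  refine ⟨h1, fun θ hθ => ?_⟩
  obtain ⟨k, A, h3⟩ := h2 θ hθ
  refine ⟨k, A, fun θ' hθ' => ?_⟩
  obtain ⟨m, n, O, h4⟩ := h3 (min (θ' / 200) 1) (lt_min (by linarith) one_pos)
  have hle : min (θ' / 200) 1 ≤ θ' := (min_le_left _ _).trans (by linarith)
  refine ⟨m, n, O, h4.mono hle, fun i p q hpq hqp hp hq hull e1 e2 D he1 he2 hD => ?_⟩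
  have hK : ∀ x ∈ Kt γ g t, Z (n (Sum.inl i)) x ≠ 0 → x ∈ O (Sum.inl i) := by
    intro x hx h5
    obtain ⟨j, hj⟩ := mem_iUnion.1 (h4.cov hx)
    by_cases h6 : j = Sum.inl i
    · rwa [h6] at hj
    · exact absurd (h4.zer (Sum.inl i) j (Ne.symm h6) x hj) h5
  obtain ⟨δ, hδ, hδO⟩ := TMB_lev hg.cont (isOpen_iUnion h4.op) (t := t) fun x hx => h4.cov (Or.inl hx)
  obtain ⟨a, ha, hpa⟩ := h4.near i _ hp
  obtain ⟨b, hb, hqb⟩ := h4.near i _ hq
  rw [dist_comm] at hpa hqb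
  have hSGi : deriv (mz C H g (Z (n (Sum.inl i)))) t + Gz γ g t (Z (n (Sum.inl i))) < 2 * Real.pi := by
    have h5 : deriv (mz C H g (Z (n (Sum.inl i)))) t ≤ deriv (mz C H g fun _ => 1) t := by
      rw [← h4.sumS]
      exact Finset.single_le_sum (f := fun i => deriv (mz C H g (Z (n i))) t)
        (fun j _ => h4.S0 j) (Finset.mem_univ (Sum.inl i))
    have h6 : Gz γ g t (Z (n (Sum.inl i))) ≤ Gz γ g t (fun _ => 1) := by
      rw [← h4.sumG]
      exact Finset.single_le_sum (f := fun i => Gz γ g t (Z (n i)))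
        (fun j _ => h4.G0 j) (Finset.mem_univ (Sum.inl i))
    linarith
  have key := t3 (n (Sum.inl i)) (h4.adc (Sum.inl i)) (A i) p q (min (θ' / 200) 1) (h4.conn i)
    (fun x hx => ⟨h4.AK i hx, h4.one (Sum.inl i) x (h4.AO i hx)⟩) hpq hqp
    (lt_min (by linarith) one_pos) (min_le_right _ _) ⟨a, ha, hpa⟩ ⟨b, hb, hqb⟩
    (fun s hs1 hs2 => hull s (hK _ (Or.inr ⟨mem_range_self s, hs2⟩) (by
      rw [hs1]
      exact one_ne_zero)) hs2)
    ⟨δ, hδ, fun x hx hx' => by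
      obtain ⟨j, hj⟩ := mem_iUnion.1 (hδO x hx)
      by_cases h6 : j = Sum.inl i
      · rw [h6] at hj
        exact h4.near i x hj
      · exact absurd (h4.zer (Sum.inl i) j (Ne.symm h6) x hj) hx'⟩ hSGi e1 e2 D he1 he2 hD
  have h7 : min (θ' / 200) 1 ≤ θ' / 200 := min_le_left _ _
  linarith

end Pool.Agent.FPM
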