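import Mathlib
import Pool.Agent.FPM.PCS
import Pool.Agent.FPM.I57Z

/-
I57Q (helper87): the pieces of the boundary of `{t < |g|}`, `g` odd on the curve: the lists of the pieces
of `g` and of `-g` put together (`lp57_ae`).
-/

open MeasureTheory Set Filter Topology
open scoped ENNReal NNReal

noncomputable section

namespace Pool.Agent.FPM

open Pool.Agent.EWD Pool.Agent.FPX

variable {M : Type} [MetricSpace M] {γ : ℝ → M}

/-- weighted lengths are differentiable at almost every level -/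
theorem mz_diff_ae [CompactSpace M] (C : Calc M γ) {g ζ : M → ℝ} (hg : Lip g) (hl : Lip ζ)
    (h0 : ∀ x, 0 ≤ ζ x) (h1 : ∀ x, ζ x ≤ 1) {H : Om → ℝ} (hH : Integrable H C.μ)
    (hH0 : ∀ᵐ o ∂C.μ, 0 ≤ H o) {w : M → ℝ} (hw : Lip w) :
    ∀ᵐ t : ℝ, DifferentiableAt ℝ (mz C (fun o => w (C.pt o) * H o) g ζ) t := by
  obtain ⟨B, hB⟩ : ∃ B, ∀ x, ‖w x‖ ≤ B := by
    obtain ⟨B, hB⟩ := isCompact_univ.exists_bound_of_continuousOn hw.cont.continuousOn
    exact ⟨B, fun x => hB x (mem_univ x)⟩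
  have i1 : Integrable (fun o => w (C.pt o) * H o) C.μ :=
    hH.bdd_mul (c := B) (C.meas_pt hw).aestronglyMeasurable (Eventually.of_forall fun o => hB _)
  have i2 : Integrable (fun o => B * H o) C.μ := hH.const_mul B
  have i3 : Integrable (fun o => w (C.pt o) * H o + B * H o) C.μ := i1.add i2
  have n3 : ∀ᵐ o ∂C.μ, 0 ≤ w (C.pt o) * H o + B * H o := by
    filter_upwards [hH0] with o ho
    have h2 : -B ≤ w (C.pt o) := (abs_le.1 (hB (C.pt o))).1
    nlinarith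
  have a1 : ∀ᵐ t : ℝ, DifferentiableAt ℝ (mz C (fun o => w (C.pt o) * H o + B * H o) g ζ) t :=
    (mz_mono C hg hl h0 h1 i3 n3).ae_differentiableAt
  have a2 : ∀ᵐ t : ℝ, DifferentiableAt ℝ (mz C H g ζ) t :=
    (mz_mono C hg hl h0 h1 hH hH0).ae_differentiableAt
  filter_upwards [a1, a2] with t t1 t2
  have e : mz C (fun o => w (C.pt o) * H o) g ζ =
      fun r => mz C (fun o => w (C.pt o) * H o + B * H o) g ζ r - B * mz C H g ζ r := by
    funext r
    rw [mz_add' C hl h0 h1 i1 i2, mz_const_mul C]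
    ring
  rw [e]
  exact t1.sub (t2.const_mul B)

/-- the mass of a piece of `|g|` inside `{0 < g}` near the level -/
theorem mz_glue [CompactSpace M] (C : Calc M γ) {g ζ : M → ℝ} (hg : Lip g) (hl : Lip ζ) (h0 : ∀ x, 0 ≤ ζ x)
    (h1 : ∀ x, ζ x ≤ 1) {t : ℝ} (ht : 0 < t) {H H' : Om → ℝ} (hH : Integrable H C.μ)
    (hH' : Integrable H' C.μ) (he : ∀ᵐ o ∂C.μ, 0 < g (C.pt o) → H' o = H o) {D : ℝ} :
    HasDerivAt (mz C H' (fun x => |g x|) (fun x => ζ x * bnd (t / 4) (t / 2) (g x))) D t ↔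
      HasDerivAt (mz C H g ζ) D t := by
  have h42 : t / 4 < t / 2 := by linarith
  have lb : Lip (fun x => bnd (t / 4) (t / 2) (g x)) := lip_bnd hg h42
  have lz : Lip (fun x => ζ x * bnd (t / 4) (t / 2) (g x)) :=
    hl.mul lb
  have z0 : ∀ x, 0 ≤ ζ x * bnd (t / 4) (t / 2) (g x) := fun x => mul_nonneg (h0 x) (bnd_nonneg _ _ _)
  have z1 : ∀ x, ζ x * bnd (t / 4) (t / 2) (g x) ≤ 1 := fun x =>
    mul_le_one₀ (h1 x) (bnd_nonneg _ _ _) (bnd_le_one _ _ _)
  have j : ∀ r : ℝ, Integrable ({o | g (C.pt o) < r}.indicator (fun o => ζ (C.pt o) * H o)) C.μ :=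
    fun r => (integrable_zH C hl h0 h1 hH).indicator₀ (meas_pt_lt C hg r)
  have j' : ∀ r : ℝ, Integrable ({o | |g (C.pt o)| < r}.indicator
      (fun o => ζ (C.pt o) * bnd (t / 4) (t / 2) (g (C.pt o)) * H' o)) C.μ :=
    fun r => (integrable_zH C lz z0 z1 hH').indicator₀ (meas_pt_lt C (lip_abs hg) r)
  have key : ∀ r : ℝ, t / 2 < r →
      mz C H' (fun x => |g x|) (fun x => ζ x * bnd (t / 4) (t / 2) (g x)) r - mz C H g ζ r =
      mz C H' (fun x => |g x|) (fun x => ζ x * bnd (t / 4) (t / 2) (g x)) t - mz C H g ζ t := by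
    intro r hr
    rw [mz_eq C (lip_abs hg), mz_eq C hg, mz_eq C (lip_abs hg), mz_eq C hg,
      ← integral_sub (j' r) (j r), ← integral_sub (j' t) (j t)]
    refine integral_congr_ae ?_
    filter_upwards [he] with o ho
    have ht2 : t / 2 < t := by linarith
    have E : ∀ r : ℝ, t / 2 < r →
        ({o | |g (C.pt o)| < r}.indicator
          (fun o => ζ (C.pt o) * bnd (t / 4) (t / 2) (g (C.pt o)) * H' o) o -
        {o | g (C.pt o) < r}.indicator (fun o => ζ (C.pt o) * H o) o) =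
        if t / 2 ≤ g (C.pt o) then 0 else ζ (C.pt o) * bnd (t / 4) (t / 2) (g (C.pt o)) * H' o -
          ζ (C.pt o) * H o := by
      intro r hr
      by_cases h2 : t / 2 ≤ g (C.pt o)
      · rw [if_pos h2]
        have h3 : |g (C.pt o)| = g (C.pt o) := abs_of_nonneg (by linarith)
        have h4 : H' o = H o := ho (by linarith)
        by_cases h5 : g (C.pt o) < r
        · have m1 : o ∈ {o | |g (C.pt o)| < r} := by
            change |g (C.pt o)| < r
            rw [h3]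
            exact h5
          have m2 : o ∈ {o | g (C.pt o) < r} := h5
          rw [indicator_of_mem m1, indicator_of_mem m2, bnd_hi h42 h2, h4, mul_one, sub_self]
        · have m1 : o ∉ {o | |g (C.pt o)| < r} := by
            change ¬ |g (C.pt o)| < r
            rw [h3]
            exact h5
          have m2 : o ∉ {o | g (C.pt o) < r} := h5
          rw [indicator_of_notMem m1, indicator_of_notMem m2, sub_self]
      · rw [if_neg h2]
        rw [not_le] at h2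
        have m2 : o ∈ {o | g (C.pt o) < r} := by
          change g (C.pt o) < r
          linarith
        rw [indicator_of_mem m2]
        by_cases h5 : |g (C.pt o)| < r
        · have m1 : o ∈ {o | |g (C.pt o)| < r} := h5
          rw [indicator_of_mem m1]
        · have m1 : o ∉ {o | |g (C.pt o)| < r} := h5
          have h6 : g (C.pt o) ≤ t / 4 := by
            by_contra h7
            rw [not_le] at h7
            exact h5 (by rw [abs_of_nonneg (by linarith)]; linarith)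
          rw [indicator_of_notMem m1, bnd_lo h42 h6, mul_zero, zero_mul]
    rw [E r hr, E t ht2]
  have hev : mz C H' (fun x => |g x|) (fun x => ζ x * bnd (t / 4) (t / 2) (g x)) =ᶠ[𝓝 t] fun r =>
      mz C H g ζ r + (mz C H' (fun x => |g x|) (fun x => ζ x * bnd (t / 4) (t / 2) (g x)) t -
        mz C H g ζ t) := by
    filter_upwards [Ioi_mem_nhds (show t / 2 < t by linarith)] with r hr
    have := key r hr
    linarith
  rw [hev.hasDerivAt_iff]
  constructor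
  · intro h
    have h2 := h.sub_const (mz C H' (fun x => |g x|)
      (fun x => ζ x * bnd (t / 4) (t / 2) (g x)) t - mz C H g ζ t)
    simpa only [add_sub_cancel_right] using h2
  · intro h
    exact h.add_const _

omit [MetricSpace M] in
/-- the trace of a piece of `|g|` inside `{0 < g}` -/
theorem Gz_glue (γ : ℝ → M) (g ζ : M → ℝ) {t : ℝ} (ht : 0 < t) :
    Gz γ (fun x => |g x|) t (fun x => ζ x * bnd (t / 4) (t / 2) (g x)) = Gz γ g t ζ := by
  have h42 : t / 4 < t / 2 := by linarith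
  unfold Gz
  congr 3
  ext s
  simp only [Apt, mem_ofPred_eq]
  constructor
  · rintro ⟨h1, h2⟩
    rcases le_or_gt (g (γ s)) 0 with h3 | h3
    · rw [bnd_lo h42 (by linarith), mul_zero] at h1
      exact absurd h1 zero_ne_one
    · rw [abs_of_pos h3] at h2
      rw [bnd_hi h42 (by linarith), mul_one] at h1
      exact ⟨h1, h2⟩
  · rintro ⟨h1, h2⟩
    have h3 : 0 < g (γ s) := by linarith
    rw [abs_of_pos h3, bnd_hi h42 (by linarith), mul_one]
    exact ⟨h1, h2⟩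

/-- the pieces of `{t < f}` inside `{0 < g}`, where `f = |g|` -/
structure LH57 (C : Calc M γ) (f g : M → ℝ) (t θ θ' S₀ G₀ : ℝ) {ι : Type} [Fintype ι] (big tr : Finset ι)
    (Z : ι → M → ℝ) (O : ι → Set M) (S p q : ι → ℝ) : Prop where
  op : ∀ i, IsOpen (O i)
  dj : ∀ i j, i ≠ j → Disjoint (O i) (O j)
  pos : ∀ i, ∀ x ∈ O i, 0 < g x
  cov : ∀ x ∈ Kt γ f t, 0 < g x → ∃ i, x ∈ O i
  lip : ∀ i, Lip (Z i)
  lo : ∀ i x, 0 ≤ Z i x
  hi : ∀ i x, Z i x ≤ 1
  one : ∀ i, ∀ x ∈ O i, Z i x = 1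
  zer : ∀ i j, j ≠ i → ∀ x ∈ O j, Z i x = 0
  neg : ∀ i x, g x ≤ 0 → Z i x = 0
  der : ∀ i, HasDerivAt (mz C (gn C f) f (Z i)) (S i) t
  S0 : ∀ i, 0 ≤ S i
  GS : ∀ i, Gz γ f t (Z i) ≤ S i
  sumS : ∑ i, S i = S₀
  sumG : ∑ i, Gz γ f t (Z i) = G₀
  dust : ∀ i, i ∉ big → ∀ x ∈ O i, ∀ y ∈ O i, dist x y ≤ θ
  per : ∀ i ∈ big, ∀ x ∈ O i, ∀ y ∈ O i, ∀ z ∈ O i,
    dist x y + dist y z + dist z x ≤ S i + Gz γ f t (Z i) + θ'
  trb : tr ⊆ big
  notr : ∀ i ∈ big, i ∉ tr → ∀ s, γ s ∈ O i → f (γ s) < t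
  hle : ∀ i ∈ tr, p i ≤ q i
  hlt : ∀ i ∈ tr, q i < p i + Real.pi
  hp : ∀ i ∈ tr, γ (p i) ∈ O i ∧ t ≤ f (γ (p i))
  hq : ∀ i ∈ tr, γ (q i) ∈ O i ∧ t ≤ f (γ (q i))
  hull : ∀ i ∈ tr, ∀ s, γ s ∈ O i → t ≤ f (γ s) → ∃ n : ℤ, s + n * (2 * Real.pi) ∈ Icc (p i) (q i)
  t3 : ∀ i ∈ tr, ∀ (e1 e2 : ℚ) (n : ℤ), (e1 : ℝ) ≤ p i + n * (2 * Real.pi) →
    q i + n * (2 * Real.pi) ≤ (e2 : ℝ) → ∃ D : ℝ,
      HasDerivAt (mz C (fun o => dE γ e1 e2 (C.pt o) * gn C f o) f (Z i)) D t ∧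
      D ≤ (S i ^ 2 - (2 * (q i - p i) - Gz γ f t (Z i)) ^ 2) / 4 + θ'

/-- two halves give the list -/
theorem lh_glue {C : Calc M γ} {f g : M → ℝ} {t θ θ' S₁ S₂ G₀ : ℝ} (ht : 0 < t)
    (hfg : ∀ x, f x = |g x|) (h1 : G₀ ≤ S₁) (h2 : G₀ ≤ S₂)
    {ι : Type} [Fintype ι] {big tr : Finset ι} {Z : ι → M → ℝ} {O : ι → Set M} {S p q : ι → ℝ}
    (H : LH57 C f g t θ θ' S₁ G₀ big tr Z O S p q)
    {ι' : Type} [Fintype ι'] {big' tr' : Finset ι'} {Z' : ι' → M → ℝ} {O' : ι' → Set M}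
    {S' p' q' : ι' → ℝ} (H' : LH57 C f (fun x => -g x) t θ θ' S₂ G₀ big' tr' Z' O' S' p' q') :
    LP57 C f t θ θ' (S₁ + S₂) (big.disjSum big') (tr.disjSum tr') (Sum.elim Z Z') (Sum.elim O O')
      (Sum.elim S S') (Sum.elim p p') (Sum.elim q q') := by
  have gz0 : ∀ i, 0 ≤ Gz γ f t (Z i) := fun i => Gz_nonneg _ _ _ _
  have gz0' : ∀ i, 0 ≤ Gz γ f t (Z' i) := fun i => Gz_nonneg _ _ _ _
  refine ⟨?_, ?_, ?_, ?_, ?_, ?_, ?_, ?_, ?_, ?_, ?_, ?_, ?_, ?_, ?_, ?_, ?_, ?_, ?_, ?_, ?_, ?_⟩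
  · rintro (i | i)
    · exact H.op i
    · exact H'.op i
  · rintro (i | i) (j | j) hij
    · exact H.dj i j fun h => hij (by rw [h])
    · rw [Set.disjoint_left]
      intro x hx hx'
      have a1 := H.pos i x hx
      have a2 := H'.pos j x hx'
      linarith
    · rw [Set.disjoint_left]
      intro x hx hx'
      have a1 := H'.pos i x hx
      have a2 := H.pos j x hx'
      linarith
    · exact H'.dj i j fun h => hij (by rw [h])
  · intro x hx
    have hfx : t ≤ f x := by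
      rcases hx with hx | hx
      · exact le_of_eq (show f x = t from hx).symm
      · exact hx.2
    rcases lt_trichotomy (g x) 0 with h3 | h3 | h3
    · obtain ⟨i, hi⟩ := H'.cov x hx (by simpa using h3)
      exact mem_iUnion.2 ⟨Sum.inr i, hi⟩
    · rw [hfg, h3, abs_zero] at hfx
      linarith
    · obtain ⟨i, hi⟩ := H.cov x hx h3
      exact mem_iUnion.2 ⟨Sum.inl i, hi⟩
  · rintro (i | i)
    · exact H.lip i
    · exact H'.lip i
  · rintro (i | i) x
    · exact H.lo i x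
    · exact H'.lo i x
  · rintro (i | i) x
    · exact H.hi i x
    · exact H'.hi i x
  · rintro (i | i) x hx
    · exact H.one i x hx
    · exact H'.one i x hx
  · rintro (i | i) (j | j) hij x hx
    · exact H.zer i j (fun h => hij (by rw [h])) x hx
    · have a1 := H'.pos j x hx
      exact H.neg i x (by linarith)
    · have a1 := H.pos j x hx
      exact H'.neg i x (by linarith)
    · exact H'.zer i j (fun h => hij (by rw [h])) x hx
  · rintro (i | i)
    · exact H.der i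
    · exact H'.der i
  · rintro (i | i)
    · exact H.GS i
    · exact H'.GS i
  · rw [Fintype.sum_sum_type]
    simp only [Sum.elim_inl, Sum.elim_inr]
    rw [H.sumS, H'.sumS]
  · rintro (i | i)
    · have a1 : S i ≤ S₁ := by
        rw [← H.sumS]
        exact Finset.single_le_sum (f := S) (fun j _ => H.S0 j) (Finset.mem_univ i)
      have a2 : Gz γ f t (Z i) ≤ G₀ := by
        rw [← H.sumG]
        exact Finset.single_le_sum (f := fun i => Gz γ f t (Z i)) (fun j _ => gz0 j)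
          (Finset.mem_univ i)
      change S i + Gz γ f t (Z i) ≤ S₁ + S₂
      linarith
    · have a1 : S' i ≤ S₂ := by
        rw [← H'.sumS]
        exact Finset.single_le_sum (f := S') (fun j _ => H'.S0 j) (Finset.mem_univ i)
      have a2 : Gz γ f t (Z' i) ≤ G₀ := by
        rw [← H'.sumG]
        exact Finset.single_le_sum (f := fun i => Gz γ f t (Z' i)) (fun j _ => gz0' j)
          (Finset.mem_univ i)
      change S' i + Gz γ f t (Z' i) ≤ S₁ + S₂
      linarith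
  · rintro (i | i) hi
    · exact H.dust i fun h => hi (Finset.inl_mem_disjSum.2 h)
    · exact H'.dust i fun h => hi (Finset.inr_mem_disjSum.2 h)
  · rintro (i | i) hi
    · exact H.per i (Finset.inl_mem_disjSum.1 hi)
    · exact H'.per i (Finset.inr_mem_disjSum.1 hi)
  · exact Finset.disjSum_mono H.trb H'.trb
  · rintro (i | i) hi hi'
    · exact H.notr i (Finset.inl_mem_disjSum.1 hi) fun h => hi' (Finset.inl_mem_disjSum.2 h)
    · exact H'.notr i (Finset.inr_mem_disjSum.1 hi) fun h => hi' (Finset.inr_mem_disjSum.2 h)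
  · rintro (i | i) hi
    · exact H.hle i (Finset.inl_mem_disjSum.1 hi)
    · exact H'.hle i (Finset.inr_mem_disjSum.1 hi)
  · rintro (i | i) hi
    · exact H.hlt i (Finset.inl_mem_disjSum.1 hi)
    · exact H'.hlt i (Finset.inr_mem_disjSum.1 hi)
  · rintro (i | i) hi
    · exact H.hp i (Finset.inl_mem_disjSum.1 hi)
    · exact H'.hp i (Finset.inr_mem_disjSum.1 hi)
  · rintro (i | i) hi
    · exact H.hq i (Finset.inl_mem_disjSum.1 hi)
    · exact H'.hq i (Finset.inr_mem_disjSum.1 hi)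
  · rintro (i | i) hi
    · exact H.hull i (Finset.inl_mem_disjSum.1 hi)
    · exact H'.hull i (Finset.inr_mem_disjSum.1 hi)
  · rintro (i | i) hi
    · exact H.t3 i (Finset.inl_mem_disjSum.1 hi)
    · exact H'.t3 i (Finset.inr_mem_disjSum.1 hi)

theorem dE_int (hγ : Bd γ) (e1 e2 : ℝ) (n : ℤ) (x : M) :
    dE γ (e1 + n * (2 * Real.pi)) (e2 + n * (2 * Real.pi)) x = dE γ e1 e2 x := by
  unfold dE
  rw [gam_int hγ, gam_int hγ]
  ring

/-- the half list from the pieces of `g` -/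
theorem lh_of_pcs [CompactSpace M] (C : Calc M γ) (hγ : Bd γ) {g : M → ℝ} (hg : Lip g) {t : ℝ}
    (ht : 0 < t) {θ θ' : ℝ} {k m : ℕ} {A : Fin k → Set M} {Z : Fin k ⊕ Fin m → M → ℝ}
    {O : Fin k ⊕ Fin m → Set M} (hP : Pcs C (gn C g) g t θ θ' A Z O)
    (hT : ∀ (i : Fin k) (p q : ℝ), p ≤ q → q < p + Real.pi → γ p ∈ O (Sum.inl i) →
      γ q ∈ O (Sum.inl i) →
      (∀ s, γ s ∈ O (Sum.inl i) → t ≤ g (γ s) → ∃ m : ℤ, s + m * (2 * Real.pi) ∈ Icc p q) →
      ∀ e1 e2 D : ℝ, e1 ≤ p → q ≤ e2 →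
      HasDerivAt (mz C (fun o => dE γ e1 e2 (C.pt o) * gn C g o) g (Z (Sum.inl i))) D t →
      D ≤ (deriv (mz C (gn C g) g (Z (Sum.inl i))) t ^ 2 -
        (2 * (q - p) - Gz γ g t (Z (Sum.inl i))) ^ 2) / 4 + θ')
    (hdE : ∀ (e1 e2 : ℚ) i, DifferentiableAt ℝ
      (mz C (fun o => dE γ e1 e2 (C.pt o) * gn C g o) g (Z i)) t) :
    ∃ (tr : Finset (Fin k ⊕ Fin m)) (p q : Fin k ⊕ Fin m → ℝ),
      LH57 C (fun x => |g x|) g t θ θ' (deriv (lev C g) t) (Gz γ g t fun _ => 1)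
        (Finset.univ.image Sum.inl) tr (fun i x => Z i x * bnd (t / 4) (t / 2) (g x))
        (fun i => O i ∩ {x | t / 2 < g x}) (fun i => deriv (mz C (gn C g) g (Z i)) t) p q := by
  classical
  have h42 : t / 4 < t / 2 := by linarith
  set Hd : Fin k ⊕ Fin m → ℝ → ℝ → Prop := fun i p q => p ≤ q ∧ q < p + Real.pi ∧
    (γ p ∈ O i ∧ t ≤ g (γ p)) ∧ (γ q ∈ O i ∧ t ≤ g (γ q)) ∧
    ∀ s, γ s ∈ O i → t ≤ g (γ s) → ∃ n : ℤ, s + n * (2 * Real.pi) ∈ Icc p q with hHd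
  have hch : ∀ i, ∃ p q, (∃ p q, Hd i p q) → Hd i p q := by
    intro i
    by_cases h : ∃ p q, Hd i p q
    · obtain ⟨p, q, hpq⟩ := h
      exact ⟨p, q, fun _ => hpq⟩
    · exact ⟨0, 0, fun h' => absurd h' h⟩
  choose p q hpq using hch
  have hpos : ∀ x, t / 2 < g x → |g x| = g x := fun x hx => abs_of_pos (by linarith)
  have htr : ∀ i ∈ (Finset.univ.image Sum.inl).filter (fun i => ∃ p q, Hd i p q),
      Hd i (p i) (q i) := fun i hi => hpq i (Finset.mem_filter.1 hi).2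
  have gz : ∀ i, Gz γ (fun x => |g x|) t (fun x => Z i x * bnd (t / 4) (t / 2) (g x)) =
      Gz γ g t (Z i) := fun i => Gz_glue γ g (Z i) ht
  have i0 := int_gn C hg
  have i1 := int_gn C (lip_abs hg)
  have ga := gn_abs C hg
  refine ⟨(Finset.univ.image Sum.inl).filter (fun i => ∃ p q, Hd i p q), p, q, ?_, ?_, ?_, ?_, ?_,
    ?_, ?_, ?_, ?_, ?_, ?_, ?_, ?_, ?_, ?_, ?_, ?_, ?_, ?_, ?_, ?_, ?_, ?_, ?_, ?_⟩
  · exact fun i => (hP.op i).inter (isOpen_lt continuous_const hg.cont)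
  · exact fun i j hij => (hP.dj i j hij).mono inter_subset_left inter_subset_left
  · rintro i x ⟨-, hx⟩
    have : t / 2 < g x := hx
    linarith
  · intro x hx hx0
    have e0 : |g x| = g x := abs_of_pos hx0
    have h1 : t ≤ g x := by
      rcases hx with hx | hx
      · have : |g x| = t := hx
        linarith
      · have : t ≤ |g x| := hx.2
        linarith
    have h2 : x ∈ Kt γ g t := by
      rcases hx with hx | hx
      · left
        have : |g x| = t := hx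
        rw [e0] at this
        exact this
      · exact Or.inr ⟨hx.1, h1⟩
    obtain ⟨i, hi⟩ := mem_iUnion.1 (hP.cov h2)
    exact ⟨i, hi, show t / 2 < g x by linarith⟩
  · exact fun i => (hP.adc i).lip.mul (lip_bnd hg h42)
  · exact fun i x => mul_nonneg ((hP.adc i).lo x) (bnd_nonneg _ _ _)
  · exact fun i x => mul_le_one₀ ((hP.adc i).hi x) (bnd_nonneg _ _ _) (bnd_le_one _ _ _)
  · rintro i x ⟨hx, hx'⟩
    have hx2 : t / 2 < g x := hx'
    change Z i x * bnd (t / 4) (t / 2) (g x) = 1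
    rw [hP.one i x hx, bnd_hi h42 hx2.le, one_mul]
  · rintro i j hij x ⟨hx, -⟩
    change Z i x * bnd (t / 4) (t / 2) (g x) = 0
    rw [hP.zer i j (Ne.symm hij) x hx, zero_mul]
  · intro i x hx
    change Z i x * bnd (t / 4) (t / 2) (g x) = 0
    rw [bnd_lo h42 (by linarith), mul_zero]
  · intro i
    refine (mz_glue C hg (hP.adc i).lip (hP.adc i).lo (hP.adc i).hi ht i0 i1 ?_).2
      (hP.der i).hasDerivAt
    filter_upwards [ga] with o ho _
    exact ho
  · exact fun i => hP.S0 i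
  · intro i
    rw [gz]
    exact hP.GS i
  · rw [hP.sumS, mz_one]
  · simp only [gz]
    exact hP.sumG
  · intro i hi
    rcases i with i | j
    · exact absurd (Finset.mem_image_of_mem _ (Finset.mem_univ i)) hi
    · rintro x ⟨hx, -⟩ y ⟨hy, -⟩
      exact hP.dust j x hx y hy
  · intro i hi
    obtain ⟨j, -, rfl⟩ := Finset.mem_image.1 hi
    rintro x ⟨hx, -⟩ y ⟨hy, -⟩ z ⟨hz, -⟩
    rw [gz]
    exact hP.per j x hx y hy z hz
  · exact Finset.filter_subset _ _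
  · intro i hi hi'
    obtain ⟨j, -, rfl⟩ := Finset.mem_image.1 hi
    rintro s ⟨hs, hs'⟩
    have hs2 : t / 2 < g (γ s) := hs'
    rcases hP.hull j with h | ⟨p, q, h⟩
    · change |g (γ s)| < t
      rw [hpos _ hs2]
      exact h s hs
    · exact absurd (Finset.mem_filter.2 ⟨hi, p, q, h⟩) hi'
  · exact fun i hi => (htr i hi).1
  · exact fun i hi => (htr i hi).2.1
  · intro i hi
    have h := (htr i hi).2.2.1
    have h2 : t / 2 < g (γ (p i)) := by linarith [h.2]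
    refine ⟨⟨h.1, h2⟩, ?_⟩
    change t ≤ |g (γ (p i))|
    rw [hpos _ h2]
    exact h.2
  · intro i hi
    have h := (htr i hi).2.2.2.1
    have h2 : t / 2 < g (γ (q i)) := by linarith [h.2]
    refine ⟨⟨h.1, h2⟩, ?_⟩
    change t ≤ |g (γ (q i))|
    rw [hpos _ h2]
    exact h.2
  · rintro i hi s ⟨hs, hs'⟩ hst
    have hs2 : t / 2 < g (γ s) := hs'
    have hst2 : t ≤ |g (γ s)| := hst
    rw [hpos _ hs2] at hst2
    exact (htr i hi).2.2.2.2 s hs hst2
  · intro i hi e1 e2 n h1 h2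
    have hH := htr i hi
    obtain ⟨j, -, hj⟩ := Finset.mem_image.1 (Finset.mem_filter.1 hi).1
    have hd := (hdE e1 e2 i).hasDerivAt
    refine ⟨deriv (mz C (fun o => dE γ e1 e2 (C.pt o) * gn C g o) g (Z i)) t, ?_, ?_⟩
    · obtain ⟨B, hB0, hB⟩ := (lip_dEpc γ (e1 : ℝ) e2).bdd
      have j0 : Integrable (fun o => dE γ e1 e2 (C.pt o) * gn C g o) C.μ :=
        i0.bdd_mul (c := B) (C.meas_pt (lip_dEpc γ _ _)).aestronglyMeasurable
          (Eventually.of_forall fun o => hB _)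
      have j1 : Integrable (fun o => dE γ e1 e2 (C.pt o) * gn C (fun x => |g x|) o) C.μ :=
        i1.bdd_mul (c := B) (C.meas_pt (lip_dEpc γ _ _)).aestronglyMeasurable
          (Eventually.of_forall fun o => hB _)
      refine (mz_glue C hg (hP.adc i).lip (hP.adc i).lo (hP.adc i).hi ht j0 j1 ?_).2 hd
      filter_upwards [ga] with o ho _
      rw [ho]
    · rw [gz]
      subst hj
      refine hT j (p _) (q _) hH.1 hH.2.1 hH.2.2.1.1 hH.2.2.2.1.1 hH.2.2.2.2
        (e1 + ((-n : ℤ) : ℝ) * (2 * Real.pi)) (e2 + ((-n : ℤ) : ℝ) * (2 * Real.pi)) _ ?_ ?_ ?_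
      · push_cast
        linarith
      · push_cast
        linarith
      · simp only [dE_int hγ]
        exact hd

/-- the pieces of `{t < |g|}` at almost every level: module G1 -/
theorem lp57_ae [CompactSpace M] (hγ : Bd γ) (C : Calc M γ) (hR : RegPl C) : LPae C := by
  classical
  have hpi := Real.pi_pos
  intro g hg ho
  obtain ⟨Z, hZl, hZ0, hZ1, hZc⟩ := TMB_family (M := M)
  have gn0 : ∀ g : M → ℝ, ∀ᵐ o ∂C.μ, 0 ≤ gn C g o := fun g => Eventually.of_forall fun o => gn_nonneg C g o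
  have dEa : ∀ {g : M → ℝ}, Lip g → ∀ᵐ t : ℝ, ∀ (e1 e2 : ℚ) (n : ℕ), DifferentiableAt ℝ
      (mz C (fun o => dE γ e1 e2 (C.pt o) * gn C g o) g (Z n)) t := by
    intro g hg
    rw [ae_all_iff]
    intro e1
    rw [ae_all_iff]
    intro e2
    rw [ae_all_iff]
    intro n
    exact mz_diff_ae C hg (hZl n) (hZ0 n) (hZ1 n) (int_gn C hg) (gn0 g) (lip_dEpc γ _ _)
  have a1 : ∀ᵐ t : ℝ, DifferentiableAt ℝ (lev C g) t := (lev_mono C hg).ae_differentiableAt
  have a2 : ∀ᵐ t : ℝ, DifferentiableAt ℝ (lev C fun x => -g x) t := (lev_mono C hg.neg).ae_differentiableAt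
  filter_upwards [a1, a2, ae_level_null hγ (lip_abs hg),
    pcs C hγ hR hg (int_gn C hg) (fun p hp => gn_cs C hp) hZl hZ0 hZ1 hZc,
    pcs C hγ hR hg.neg (int_gn C hg.neg) (fun p hp => gn_cs C hp) hZl hZ0 hZ1 hZc, dEa hg, dEa hg.neg]
    with t d1 d2 hn s1 s2 f1 f2 ht
  have hev : (lev C fun x => |g x|) =ᶠ[𝓝 t]
      fun r => lev C g r + lev C (fun x => -g x) r - ∫ o, gn C g o ∂C.μ := by
    filter_upwards [Ioi_mem_nhds ht] with r hr
    exact lev_abs C hg hr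
  have hd : HasDerivAt (lev C fun x => |g x|) (deriv (lev C g) t + deriv (lev C fun x => -g x) t) t :=
    ((d1.hasDerivAt.add d2.hasDerivAt).sub_const _).congr_of_eventuallyEq hev
  refine ⟨hd.differentiableAt, hn, ?_⟩
  rw [hd.deriv]
  intro hS
  have g1 := odd_Gz_le hγ hg ho ht
  have g2 := odd_Gz_neg hγ hg ho t
  obtain ⟨-, -, s1⟩ := s1
  obtain ⟨-, -, s2⟩ := s2
  rw [mz_one, g2] at s2
  rw [mz_one] at s1
  set G := Gz γ g t (fun _ => 1) with hG
  set S1 := deriv (lev C g) t with hS1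
  set S2 := deriv (lev C fun x => -g x) t with hS2
  obtain ⟨⟨hG1, L1⟩, ⟨hG2, L2⟩⟩ : (G ≤ S1 ∧ ∀ θ : ℝ, 0 < θ → ∃ (k : ℕ) (A : Fin k → Set M),
      ∀ θ' : ℝ, 0 < θ' → ∃ (m : ℕ) (n : Fin k ⊕ Fin m → ℕ) (O : Fin k ⊕ Fin m → Set M),
        Pcs C (gn C g) g t θ θ' A (fun i => Z (n i)) O ∧
        ∀ (i : Fin k) (p q : ℝ), p ≤ q → q < p + Real.pi → γ p ∈ O (Sum.inl i) →
          γ q ∈ O (Sum.inl i) →
          (∀ s, γ s ∈ O (Sum.inl i) → t ≤ g (γ s) → ∃ m : ℤ, s + m * (2 * Real.pi) ∈ Icc p q) →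
          ∀ e1 e2 D : ℝ, e1 ≤ p → q ≤ e2 →
          HasDerivAt (mz C (fun o => dE γ e1 e2 (C.pt o) * gn C g o) g (Z (n (Sum.inl i)))) D t →
          D ≤ (deriv (mz C (gn C g) g (Z (n (Sum.inl i)))) t ^ 2 -
            (2 * (q - p) - Gz γ g t (Z (n (Sum.inl i)))) ^ 2) / 4 + θ') ∧
      (G ≤ S2 ∧ ∀ θ : ℝ, 0 < θ → ∃ (k : ℕ) (A : Fin k → Set M),
      ∀ θ' : ℝ, 0 < θ' → ∃ (m : ℕ) (n : Fin k ⊕ Fin m → ℕ) (O : Fin k ⊕ Fin m → Set M),
        Pcs C (gn C fun x => -g x) (fun x => -g x) t θ θ' A (fun i => Z (n i)) O ∧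
        ∀ (i : Fin k) (p q : ℝ), p ≤ q → q < p + Real.pi → γ p ∈ O (Sum.inl i) →
          γ q ∈ O (Sum.inl i) →
          (∀ s, γ s ∈ O (Sum.inl i) → t ≤ -g (γ s) → ∃ m : ℤ, s + m * (2 * Real.pi) ∈ Icc p q) →
          ∀ e1 e2 D : ℝ, e1 ≤ p → q ≤ e2 →
          HasDerivAt (mz C (fun o => dE γ e1 e2 (C.pt o) * gn C (fun x => -g x) o) (fun x => -g x)
            (Z (n (Sum.inl i)))) D t →
          D ≤ (deriv (mz C (gn C fun x => -g x) (fun x => -g x) (Z (n (Sum.inl i)))) t ^ 2 -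
            (2 * (q - p) - Gz γ (fun x => -g x) t (Z (n (Sum.inl i)))) ^ 2) / 4 + θ') := by
    rcases lt_or_ge S1 Real.pi with h | h
    · have b1 := s1 (by linarith) g1
      exact ⟨b1, s2 (by linarith [b1.1]) g1⟩
    · have b2 := s2 (by linarith) g1
      exact ⟨s1 (by linarith [b2.1]) g1, b2⟩
  intro θ hθ
  obtain ⟨k, A, L1⟩ := L1 θ hθ
  obtain ⟨k', A', L2⟩ := L2 θ hθ
  refine ⟨k + k', fun θ' hθ' => ?_⟩
  obtain ⟨m, n, O, hP, hT⟩ := L1 θ' hθ'
  obtain ⟨m', n', O', hP', hT'⟩ := L2 θ' hθ'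
  obtain ⟨tr, p, q, H⟩ := lh_of_pcs C hγ hg ht hP hT fun e1 e2 i => f1 e1 e2 (n i)
  obtain ⟨tr', p', q', H'⟩ := lh_of_pcs C hγ hg.neg ht hP' hT' fun e1 e2 i => f2 e1 e2 (n' i)
  simp only [abs_neg] at H'
  rw [g2] at H'
  refine ⟨(Fin k ⊕ Fin m) ⊕ (Fin k' ⊕ Fin m'), inferInstance, inferInstance, _, _, _, _, _, _, _, ?_,
    lh_glue ht (fun _ => rfl) hG1 hG2 H H'⟩
  rw [Finset.card_disjSum]
  refine add_le_add (Finset.card_image_le.trans ?_) (Finset.card_image_le.trans ?_)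
  · rw [Finset.card_univ, Fintype.card_fin]
  · rw [Finset.card_univ, Fintype.card_fin]

end Pool.Agent.FPM
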