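import Mathlib
import Pool.Agent.FPM.I57R1

/-
I57M (helper30), module G2a of ISO57 (glue on helper80's I57R1): relabelling of the pieces with
cut-offs. The pieces `i ∈ Q` and a thin neighbourhood of the compact set `Γ` form the label `none`.
-/

open MeasureTheory Set Filter Topology
open scoped ENNReal NNReal

noncomputable section

namespace Pool.Agent.FPM

open Pool.Agent.EWD

variable {M : Type} [MetricSpace M] {γ : ℝ → M}

theorem relab57 [CompactSpace M] (hγ : Bd γ) (C : Calc M γ) {f : M → ℝ} (hf : Lip f) {t : ℝ}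
    {ι : Type} [Fintype ι] {O : ι → Set M} {Z : ι → M → ℝ}
    (op : ∀ i, IsOpen (O i)) (dj : ∀ i j, i ≠ j → Disjoint (O i) (O j))
    (cov : Kt γ f t ⊆ ⋃ i, O i) (lip : ∀ i, Lip (Z i)) (lo : ∀ i x, 0 ≤ Z i x)
    (hi : ∀ i x, Z i x ≤ 1) (one : ∀ i, ∀ x ∈ O i, Z i x = 1)
    (zer : ∀ i j, j ≠ i → ∀ x ∈ O j, Z i x = 0)
    {Γ : Set M} (hΓ : IsCompact Γ) (hΓn : Γ.Nonempty) (Q : Finset ι)
    (hQ : ∀ i, i ∉ Q → ∀ x ∈ O i, x ∈ Kt γ f t → x ∉ Γ) {ρ : ℝ} (hρ : 0 < ρ) :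
    ∃ (O' : Option ι → Set M) (Z' : Option ι → M → ℝ),
      (∀ j, IsOpen (O' j)) ∧ (∀ i j, i ≠ j → Disjoint (O' i) (O' j)) ∧ Kt γ f t ⊆ ⋃ j, O' j ∧
      (∀ j, Lip (Z' j)) ∧ (∀ j x, 0 ≤ Z' j x) ∧ (∀ j x, Z' j x ≤ 1) ∧
      (∀ j, ∀ x ∈ O' j, Z' j x = 1) ∧ (∀ i j, j ≠ i → ∀ x ∈ O' j, Z' i x = 0) ∧
      Γ ⊆ O' none ∧ (∀ x ∈ O' none, (∃ i ∈ Q, x ∈ O i) ∨ ∃ y ∈ Γ, dist x y < ρ) ∧
      (∀ i, i ∉ Q → O' (some i) ⊆ O i) ∧ (∀ i ∈ Q, O' (some i) = ∅) ∧
      (∀ H : Om → ℝ, Integrable H C.μ →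
        (∀ i, i ∉ Q → ∀ D, HasDerivAt (mz C H f (Z i)) D t →
          HasDerivAt (mz C H f (Z' (some i))) D t) ∧
        (∀ i ∈ Q, HasDerivAt (mz C H f (Z' (some i))) 0 t) ∧
        (∀ S : ι → ℝ, (∀ i, HasDerivAt (mz C H f (Z i)) (S i) t) →
          HasDerivAt (mz C H f (Z' none)) (∑ i ∈ Q, S i) t)) ∧
      (∀ i, i ∉ Q → Gz γ f t (Z' (some i)) = Gz γ f t (Z i)) ∧
      (∀ i ∈ Q, Gz γ f t (Z' (some i)) = 0) ∧
      Gz γ f t (Z' none) = ∑ i ∈ Q, Gz γ f t (Z i) ∧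
      (∀ i ∈ Q, O i ⊆ O' none) ∧
      (∀ i, i ∉ Q → ∀ x ∈ Kt γ f t, x ∈ O i → x ∈ O' (some i)) ∧
      (∀ i ∈ Q, ∀ x, Z' (some i) x = 0) := by
  classical
  have hK : IsCompact (Kt γ f t) := (Kt_closed hγ hf.cont t).isCompact
  obtain ⟨O', Z', W, h1, h2, h3, h4, h5, h6, h7, h8, h9, h10, h11, h12, h13, hWo, hKW, hWn, hWs,
    hW0, h14⟩ := lab_top hK hΓ hΓn op dj cov lip lo hi one (fun i j hij => zer i j hij.symm) Q
    (fun i hiQ x hx hxO => hQ i hiQ x hxO hx) hρ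
  obtain ⟨δ, hδ, hδW⟩ := TMB_lev hf.cont hWo (t := t) fun x hx => hKW (Or.inl hx)
  have hcur : ∀ s, t < f (γ s) → γ s ∈ Kt γ f t := fun s hs => Or.inr ⟨mem_range_self s, hs.le⟩
  refine ⟨O', Z', h1, h2, h3, h4, h5, h6, h7, fun i j hij => h8 i j hij.symm, h9, h10, h12, h13,
    ?_, ?_, ?_, ?_, h11, h14, hW0⟩
  · intro H hH
    refine ⟨?_, ?_, ?_⟩
    · intro i hiQ D hD
      have := mz_sum_near C hf {i} (ζ := Z) (fun j _ => lip j) (fun j _ => lo j) (fun j _ => hi j)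
        (h4 (some i)) (h5 (some i)) (h6 (some i)) hH hδ
        (fun x hx => by rw [Finset.sum_singleton]; exact hWs i hiQ x (hδW x hx))
        (a := fun _ => D) (fun j hj => by rw [Finset.mem_singleton.mp hj]; exact hD)
      simpa using this
    · intro i hiQ
      have e : mz C H f (Z' (some i)) = fun _ => 0 := by
        funext r
        unfold mz
        simp only [hW0 i hiQ, zero_mul, integral_zero]
      rw [e]
      exact hasDerivAt_const t 0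
    · intro S hS
      exact mz_sum_near C hf Q (ζ := Z) (fun j _ => lip j) (fun j _ => lo j) (fun j _ => hi j)
        (h4 none) (h5 none) (h6 none) hH hδ (fun x hx => hWn x (hδW x hx)) (fun j _ => hS j)
  · intro i hiQ
    unfold Gz Apt
    congr 3
    ext s
    simp only [mem_ofPred_eq]
    refine and_congr_left fun hs => ?_
    rw [hWs i hiQ _ (hKW (hcur s hs))]
  · intro i hiQ
    unfold Gz Apt
    have e : ({s | Z' (some i) (γ s) = 1 ∧ t < f (γ s)} ∩ Ioc 0 (2 * Real.pi) : Set ℝ) = ∅ := by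
      ext s
      simp only [mem_inter_iff, mem_ofPred_eq, mem_empty_iff_false, iff_false]
      rintro ⟨⟨ha, -⟩, -⟩
      rw [hW0 i hiQ] at ha
      norm_num at ha
    rw [e, measure_empty, ENNReal.toReal_zero]
  · refine Gz_sum hγ hf Q (fun i _ => lip i) ?_ ?_
    · intro s hs
      obtain ⟨i0, hi0⟩ := mem_iUnion.mp (cov (hcur s hs))
      rw [hWn _ (hKW (hcur s hs))]
      by_cases hm : i0 ∈ Q
      · rw [Finset.sum_eq_single_of_mem i0 hm
          (fun j _ hj => zer j i0 hj.symm _ hi0), one i0 _ hi0]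
        exact ⟨fun _ => ⟨i0, hm, one i0 _ hi0⟩, fun _ => rfl⟩
      · rw [Finset.sum_eq_zero fun j hj => zer j i0 (fun h => hm (h ▸ hj)) _ hi0]
        constructor
        · intro h; norm_num at h
        · rintro ⟨j, hj, hj1⟩
          rw [zer j i0 (fun h => hm (h ▸ hj)) _ hi0] at hj1
          norm_num at hj1
    · intro s hs i hiQ j hjQ hij h1' h2'
      obtain ⟨i0, hi0⟩ := mem_iUnion.mp (cov (hcur s hs))
      have ha : i = i0 := by
        by_contra hne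
        rw [zer i i0 (fun h => hne h.symm) _ hi0] at h1'
        norm_num at h1'
      have hb : j = i0 := by
        by_contra hne
        rw [zer j i0 (fun h => hne h.symm) _ hi0] at h2'
        norm_num at h2'
      exact hij (ha.trans hb.symm)

end Pool.Agent.FPM
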