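import Mathlib
import Pool.Agent.FPM.I57V2
import Pool.Agent.FPM.I57D2
import Pool.Agent.FPM.I57NC
import Pool.Agent.FPM.I57Q
import Pool.Agent.FPM.I57Z

/-
I57LV (helper80), module LV of ISO57: the numbers `x, y, z, G, A, B` at one level.
-/

open MeasureTheory Set Filter Topology
open scoped ENNReal NNReal

noncomputable section

namespace Pool.Agent.FPM

open Pool.Agent.EWD Pool.Agent.FPX

variable {M : Type} [MetricSpace M] {γ : ℝ → M}

section width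

variable {C : Calc M γ} {f : M → ℝ} {t θ θ' l : ℝ} {ι : Type} [Fintype ι] [DecidableEq ι] {big tr : Finset ι}
  {Z : ι → M → ℝ} {O : ι → Set M} {S p q : ι → ℝ} {e1 e2 τ : ℝ} {U L : Finset ι} {m : ι → ℤ}
  {G gU gL E1 E2 : ℝ}

omit [DecidableEq ι] in
theorem LP57.G_nonneg (_h : LP57 C f t θ θ' l big tr Z O S p q) (i : ι) : 0 ≤ Gz γ f t (Z i) :=
  ENNReal.toReal_nonneg

omit [DecidableEq ι] in
theorem LP57.hull_le (hγ : Bd γ) (h : LP57 C f t θ θ' l big tr Z O S p q) {i : ι} (hi : i ∈ tr) :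
    2 * (q i - p i) ≤ S i + Gz γ f t (Z i) + θ' := by
  have h1 := h.per i (h.trb hi) _ (h.hp i hi).1 _ (h.hq i hi).1 _ (h.hq i hi).1
  rw [dist_self, dist_comm (γ (q i)) (γ (p i)),
    bd_dist hγ (h.hle i hi) (h.hlt i hi).le] at h1
  linarith

/-- the dust on the two arcs -/
theorem ARC57.dust_le (hγ : Bd γ) (hf : Lip f) (h : LP57 C f t θ θ' l big tr Z O S p q)
    (A : ARC57 γ f t big tr Z O p q e1 e2 τ U L m G gU gL E1 E2) :
    E1 + E2 ≤ ∑ i ∈ Finset.univ.filter (fun i => i ∉ big), Gz γ f t (Z i) := by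
  have hpi := Real.pi_pos
  set D : Finset ι := Finset.univ.filter (fun i => i ∉ big) with hD
  have hE : {s | ∃ i, i ∉ big ∧ γ s ∈ O i ∧ t < f (γ s)} =
      {s | ∃ i ∈ D, γ s ∈ O i ∧ t < f (γ s)} := by
    ext s
    simp only [hD, mem_ofPred_eq, Finset.mem_filter, Finset.mem_univ, true_and]
  have hEm : MeasurableSet {s | ∃ i ∈ D, γ s ∈ O i ∧ t < f (γ s)} := by
    have : {s | ∃ i ∈ D, γ s ∈ O i ∧ t < f (γ s)} = ⋃ i ∈ D, {s | γ s ∈ O i ∧ t < f (γ s)} := by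
      ext s
      simp only [mem_ofPred_eq, mem_iUnion, exists_prop]
    rw [this]
    exact Finset.measurableSet_biUnion _ fun i _ => h.meas_tr hγ hf i
  rw [← h.gz_sum_tr hγ hf D e1, A.hE1, A.hE2, hE, ← ENNReal.toReal_add (d1_fin _ _ _) (d1_fin _ _ _)]
  refine ENNReal.toReal_mono (d1_fin _ _ _) ?_
  rw [← measure_union _ (hEm.inter measurableSet_Ioc)]
  · apply measure_mono
    have h1 := A.lt
    have h2 := A.τ0
    have h3 := A.le
    rintro s (⟨h4, h5, h6⟩ | ⟨h4, h5, h6⟩)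
    · exact ⟨h4, h5, by linarith⟩
    · exact ⟨h4, by linarith, by linarith⟩
  · rw [Set.disjoint_left]
    rintro s ⟨-, -, h5⟩ ⟨-, h6, -⟩
    linarith [A.lt, A.τ0]

/-- **width of the arc** -/
theorem ARC57.width (hγ : Bd γ) (hf : Lip f) (h : LP57 C f t θ θ' l big tr Z O S p q)
    (hθ' : 0 ≤ θ') (A : ARC57 γ f t big tr Z O p q e1 e2 τ U L m G gU gL E1 E2) :
    2 * (e2 - e1) ≤ l + big.card * θ' := by
  have h1 := A.a1
  have h2 := A.b1
  have h3 := A.c1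
  have h4 := A.c2
  have h5 := A.dust_le hγ hf h
  have h6 : ∑ i ∈ Finset.univ.filter (fun i => i ∉ big), Gz γ f t (Z i) ≤
      ∑ i ∈ Finset.univ.filter (fun i => i ∉ big), S i := Finset.sum_le_sum fun i _ => h.GS i
  have h7 : ∀ F : Finset ι, F ⊆ tr → 2 * ∑ i ∈ F, (q i - p i) ≤
      ∑ i ∈ F, S i + ∑ i ∈ F, Gz γ f t (Z i) + F.card * θ' := by
    intro F hF
    rw [Finset.mul_sum, ← Finset.sum_add_distrib, ← nsmul_eq_mul, ← Finset.sum_const,
      ← Finset.sum_add_distrib]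
    exact Finset.sum_le_sum fun i hi => h.hull_le hγ (hF hi)
  have h8 := h7 U A.Utr
  have h9 := h7 L A.Ltr
  have h10 : ((U.card : ℝ) + L.card) * θ' ≤ big.card * θ' := by
    refine mul_le_mul_of_nonneg_right ?_ hθ'
    have : U.card + L.card ≤ big.card := by
      rw [← Finset.card_union_of_disjoint A.dj]
      exact Finset.card_le_card (Finset.union_subset (A.Utr.trans h.trb) (A.Ltr.trans h.trb))
    exact_mod_cast this
  have h11 : ∑ i ∈ U, S i + ∑ i ∈ L, S i + ∑ i ∈ Finset.univ.filter (fun i => i ∉ big), S i ≤ l := by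
    rw [← h.sumS, ← Finset.sum_union A.dj, ← Finset.sum_union]
    · exact Finset.sum_le_sum_of_subset_of_nonneg (Finset.subset_univ _) fun i _ _ =>
        (h.G_nonneg i).trans (h.GS i)
    · rw [Finset.disjoint_left]
      intro i hi hi'
      exact (Finset.mem_filter.mp hi').2 ((Finset.union_subset (A.Utr.trans h.trb) (A.Ltr.trans h.trb)) hi)
  linarith

/-- points of a dust piece cannot be near both arcs -/
theorem dust_far (hγ : Bd γ) {a b c : ℝ} {s s' : ℝ}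
    (hw : b - a + c < Real.pi) (h1 : s ∈ Icc a b) (h2 : s' ∈ Icc (a + Real.pi) (b + Real.pi))
    (h3 : dist (γ s) (γ s') ≤ c) : False := by
  have hpi := Real.pi_pos
  obtain ⟨h4, h5⟩ := h1
  obtain ⟨h6, h7⟩ := h2
  rcases le_or_gt s' (s + Real.pi) with h8 | h8
  · rcases le_or_gt s s' with h9 | h9
    · rw [bd_dist hγ h9 h8] at h3
      linarith
    · -- `s' < s` is impossible: `s - s' ≤ b - a - π < 0`
      by_cases h10 : 0 ≤ c
      · linarith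
      · have := dist_nonneg (x := γ s) (y := γ s')
        linarith
  · have e : γ (s + 2 * Real.pi) = γ s := hγ.per s
    rcases le_or_gt s' (s + 2 * Real.pi) with h9 | h9
    · rw [dist_comm, ← e, bd_dist hγ h9 (by linarith)] at h3
      linarith
    · by_cases h10 : 0 ≤ c
      · linarith
      · have := dist_nonneg (x := γ s) (y := γ s')
        linarith

end width

/-- **the numbers at one level** -/
theorem level57 [CompactSpace M] (hγ : Bd γ) {C : Calc M γ} (hC : Colb C) {ε : ℝ} (hmin : NM C ε)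
    {f : M → ℝ} (hf : Lip f) (hev : ∀ s, f (γ (s + Real.pi)) = f (γ s)) {t : ℝ}
    (hnull : volume {s : ℝ | s ∈ Ioc 0 (2 * Real.pi) ∧ f (γ s) = t} = 0)
    {θ θ' l K : ℝ} {ι : Type} [Fintype ι] [DecidableEq ι]
    {big tr : Finset ι} {Z : ι → M → ℝ} {O : ι → Set M} {S p q : ι → ℝ}
    (LP : LP57 C f t θ θ' l big tr Z O S p q) (hθ : 0 < θ) (hθ' : 0 < θ')
    (hK : (big.card : ℝ) ≤ K) (hsm : l + 2 * θ + 2 * K * θ' < 2 * Real.pi) :
    ∃ x y z G A B : ℝ, x + y + z = l ∧ 0 ≤ z ∧ 0 ≤ G ∧ G ≤ x ∧ G ≤ y ∧ G ≤ A ∧ G ≤ B ∧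
      A ≤ x + K * θ' ∧ B ≤ y + K * θ' ∧
      2 * Real.pi * ((C.μ {o | t < f (C.pt o)}).toReal - ε) ≤
        Real.pi * (x ^ 2 - A ^ 2) + (y + A) ^ 2 + 2 * (x + y) * z + 10000 * (θ + K * θ') ∧
      2 * Real.pi * ((C.μ {o | t < f (C.pt o)}).toReal - ε) ≤
        Real.pi * (y ^ 2 - B ^ 2) + (x + B) ^ 2 + 2 * (x + y) * z + 10000 * (θ + K * θ') ∧
      2 * Real.pi * ((C.μ {o | t < f (C.pt o)}).toReal - ε) ≤
        (x + G) ^ 2 + (y + G) ^ 2 + 2 * (x + y) * z + 10000 * (θ + K * θ') := by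
  have hpi := Real.pi_pos
  have hpi4 : Real.pi < 4 := Real.pi_lt_four
  have hG0 : ∀ i, 0 ≤ Gz γ f t (Z i) := LP.G_nonneg
  have hS0 : ∀ i, 0 ≤ S i := fun i => (hG0 i).trans (LP.GS i)
  have hl0 : 0 ≤ l := by
    rw [← LP.sumS]
    exact Finset.sum_nonneg fun i _ => hS0 i
  have hK0 : 0 ≤ K := (Nat.cast_nonneg _).trans hK
  have hKθ : 0 ≤ K * θ' := mul_nonneg hK0 hθ'.le
  have hl2 : l < 2 * Real.pi := by linarith
  -- the trivial case
  by_cases hcase : big = ∅ ∨ ∃ i1, i1 ∈ big ∧ i1 ∉ tr ∧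
      ∀ i ∈ big, S i + Gz γ f t (Z i) ≤ S i1 + Gz γ f t (Z i1)
  · -- the error terms are at most `60 (θ + K θ')`
    have h1 : 2 * Real.pi * ((C.μ {o | t < f (C.pt o)}).toReal - ε) ≤ l ^ 2 + 60 * (θ + K * θ') := by
      have h3 : 4 * l * θ ≤ 32 * θ := by
        have : 4 * l ≤ 32 := by linarith
        exact mul_le_mul_of_nonneg_right this hθ.le
      rcases big.eq_empty_or_nonempty with hb | hb
      · have LP' : LP57 C f t θ θ l big tr Z O S p q :=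
          { LP with
            per := fun i hi => absurd hi (by rw [hb]; exact Finset.notMem_empty i)
            t3 := fun i hi => absurd (LP.trb hi) (by rw [hb]; exact Finset.notMem_empty i) }
        have h2 := fstrat57' hγ hC hmin hf hnull hθ hθ.le LP' (Or.inl hb)
        have h4 : 2 * l * θ ≤ 16 * θ := by
          have : 2 * l ≤ 16 := by linarith
          exact mul_le_mul_of_nonneg_right this hθ.le
        linarith
      · have h2 := fstrat57' hγ hC hmin hf hnull hθ hθ'.le LP hcase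
        have h4 : 2 * l * θ' ≤ 16 * θ' := by
          have : 2 * l ≤ 16 := by linarith
          exact mul_le_mul_of_nonneg_right this hθ'.le
        have h5 : 1 * θ' ≤ K * θ' := by
          refine mul_le_mul_of_nonneg_right (le_trans ?_ hK) hθ'.le
          exact_mod_cast Finset.card_pos.mpr hb
        linarith
    have h5 : l ^ 2 ≤ Real.pi * l ^ 2 :=
      le_mul_of_one_le_left (sq_nonneg l) (by linarith [Real.pi_gt_three])
    refine ⟨l, 0, 0, 0, 0, 0, by ring, le_rfl, le_rfl, hl0, le_rfl, le_rfl, le_rfl, by linarith,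
      by linarith, ?_, ?_, ?_⟩ <;> linarith
  -- the piece with the largest boundary has a trace
  obtain ⟨i0, hi0b, hi0t, hmax⟩ : ∃ i0 ∈ big, i0 ∈ tr ∧
      ∀ i ∈ big, S i + Gz γ f t (Z i) ≤ S i0 + Gz γ f t (Z i0) := by
    rw [not_or] at hcase
    obtain ⟨h1, h2⟩ := hcase
    obtain ⟨i0, hi0, hm⟩ := big.exists_max_image (fun i => S i + Gz γ f t (Z i))
      (Finset.nonempty_iff_ne_empty.mpr h1)
    refine ⟨i0, hi0, ?_, hm⟩
    by_contra h3
    exact h2 ⟨i0, hi0, h3, hm⟩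
  have hcθ : (big.card : ℝ) * θ' ≤ K * θ' := mul_le_mul_of_nonneg_right hK hθ'.le
  obtain ⟨e1, e2, τ, U, L, m, G, gU, gL, E1, E2, A, hi0U⟩ := book57 hγ hf hev LP hθ'.le
    (by linarith) hi0t
  have hw := A.width hγ hf LP hθ'.le
  have hτ := A.τ0
  have hle := A.le
  obtain ⟨nG, ngU, ngL, nE1, nE2⟩ := A.nonneg
  -- the collar
  obtain ⟨ρ, hρ, hρτ, hρθ, hρw⟩ : ∃ ρ : ℝ, 0 < ρ ∧ 2 * ρ ≤ τ ∧ ρ ≤ θ' ∧
      2 * ρ + θ + (e2 - e1) < Real.pi := by
    have h1 : 0 < Real.pi - θ - (e2 - e1) := by linarith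
    refine ⟨min (τ / 2) (min θ' ((Real.pi - θ - (e2 - e1)) / 4)), ?_, ?_, ?_, ?_⟩
    · exact lt_min (by linarith) (lt_min hθ' (by linarith))
    · have := min_le_left (τ / 2) (min θ' ((Real.pi - θ - (e2 - e1)) / 4))
      linarith
    · exact (min_le_right _ _).trans (min_le_left _ _)
    · have := (min_le_right (τ / 2) (min θ' ((Real.pi - θ - (e2 - e1)) / 4))).trans (min_le_right _ _)
      linarith
  -- the dust near the arcs
  obtain ⟨Du, hDu⟩ : ∃ Du : Finset ι, ∀ i, i ∈ Du ↔ i ∉ big ∧ ∃ s ∈ Icc (e1 - ρ) (e2 + ρ),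
      γ s ∈ O i ∧ t ≤ f (γ s) := by
    classical
    exact ⟨Finset.univ.filter fun i => i ∉ big ∧ ∃ s ∈ Icc (e1 - ρ) (e2 + ρ),
      γ s ∈ O i ∧ t ≤ f (γ s), fun i => by simp⟩
  obtain ⟨Dl, hDl⟩ : ∃ Dl : Finset ι, ∀ i, i ∈ Dl ↔ i ∉ big ∧
      ∃ s ∈ Icc (e1 + Real.pi - ρ) (e2 + Real.pi + ρ), γ s ∈ O i ∧ t ≤ f (γ s) := by
    classical
    exact ⟨Finset.univ.filter fun i => i ∉ big ∧
      ∃ s ∈ Icc (e1 + Real.pi - ρ) (e2 + Real.pi + ρ), γ s ∈ O i ∧ t ≤ f (γ s), fun i => by simp⟩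
  have hDu' : ∀ i, i ∈ Du ↔ i ∉ big ∧
      ∃ s ∈ Icc (e1 + Real.pi + Real.pi - ρ) (e2 + Real.pi + Real.pi + ρ), γ s ∈ O i ∧ t ≤ f (γ s) := by
    intro i
    rw [hDu i]
    refine and_congr_right fun _ => ?_
    constructor
    · rintro ⟨s, ⟨h1, h2⟩, h3⟩
      refine ⟨s + 2 * Real.pi, ⟨by linarith, by linarith⟩, ?_⟩
      rw [hγ.per]
      exact h3
    · rintro ⟨s, ⟨h1, h2⟩, h3⟩
      refine ⟨s - 2 * Real.pi, ⟨by linarith, by linarith⟩, ?_⟩
      have e : γ (s - 2 * Real.pi) = γ s := by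
        rw [← hγ.per (s - 2 * Real.pi), sub_add_cancel]
      rw [e]
      exact h3
  have hDD : Disjoint Du Dl := by
    rw [Finset.disjoint_left]
    intro i h1 h2
    obtain ⟨h3, s, hs, h4, -⟩ := (hDu i).mp h1
    obtain ⟨-, s', hs', h5, -⟩ := (hDl i).mp h2
    refine dust_far hγ (a := e1 - ρ) (b := e2 + ρ) (c := θ) (by linarith) hs ?_
      (LP.dust i h3 _ h4 _ h5)
    exact ⟨by linarith [hs'.1], by linarith [hs'.2]⟩
  have hfin : ∀ (S : Set ℝ) (a b : ℝ), volume (S ∩ Ioc a b) ≠ ∞ := d1_fin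
  -- traces of the dust
  have hE1' : E1 ≤ ∑ i ∈ Du, Gz γ f t (Z i) := by
    rw [A.hE1]
    refine LP.dust_tr2 hγ hf ?_ (by linarith [A.lt])
    intro i hi s hs h1 h2
    exact (hDu i).mpr ⟨hi, s, ⟨by linarith [hs.1], by linarith [hs.2]⟩, h1, h2⟩
  have hE2' : E2 ≤ ∑ i ∈ Dl, Gz γ f t (Z i) := by
    rw [A.hE2]
    refine LP.dust_tr2 hγ hf ?_ (by linarith [A.lt])
    intro i hi s hs h1 h2
    exact (hDl i).mpr ⟨hi, s, ⟨by linarith [hs.1], by linarith [hs.2]⟩, h1, h2⟩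
  have hcol : ∀ a b : ℝ, a ≤ b →
      (volume ({s | ∃ i, i ∉ big ∧ γ s ∈ O i ∧ t < f (γ s)} ∩ Ioc (a - ρ) (b + ρ))).toReal ≤
      (volume ({s | ∃ i, i ∉ big ∧ γ s ∈ O i ∧ t < f (γ s)} ∩ Ioc a b)).toReal + 2 * ρ := by
    intro a b hab
    have h1 : volume ({s | ∃ i, i ∉ big ∧ γ s ∈ O i ∧ t < f (γ s)} ∩ Ioc (a - ρ) (b + ρ)) ≤
        volume ({s | ∃ i, i ∉ big ∧ γ s ∈ O i ∧ t < f (γ s)} ∩ Ioc a b) +
          (ENNReal.ofReal ρ + ENNReal.ofReal ρ) := by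
      calc volume ({s | ∃ i, i ∉ big ∧ γ s ∈ O i ∧ t < f (γ s)} ∩ Ioc (a - ρ) (b + ρ)) ≤
          volume (({s | ∃ i, i ∉ big ∧ γ s ∈ O i ∧ t < f (γ s)} ∩ Ioc a b) ∪
            (Ioc (a - ρ) a ∪ Ioc b (b + ρ))) := by
            apply measure_mono
            rintro s ⟨h2, h3, h4⟩
            rcases le_or_gt s a with h5 | h5
            · exact Or.inr (Or.inl ⟨h3, h5⟩)
            · rcases le_or_gt s b with h6 | h6
              · exact Or.inl ⟨h2, h5, h6⟩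
              · exact Or.inr (Or.inr ⟨h6, h4⟩)
        _ ≤ volume ({s | ∃ i, i ∉ big ∧ γ s ∈ O i ∧ t < f (γ s)} ∩ Ioc a b) +
            (volume (Ioc (a - ρ) a) + volume (Ioc b (b + ρ))) :=
            (measure_union_le _ _).trans (add_le_add le_rfl (measure_union_le _ _))
        _ = _ := by
            rw [Real.volume_Ioc, Real.volume_Ioc, sub_sub_cancel, add_sub_cancel_left]
    have h2 := ENNReal.toReal_mono (ENNReal.add_ne_top.mpr ⟨hfin _ _ _,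
      ENNReal.add_ne_top.mpr ⟨ENNReal.ofReal_ne_top, ENNReal.ofReal_ne_top⟩⟩) h1
    rw [ENNReal.toReal_add (hfin _ _ _) (ENNReal.add_ne_top.mpr ⟨ENNReal.ofReal_ne_top,
      ENNReal.ofReal_ne_top⟩), ENNReal.toReal_add ENNReal.ofReal_ne_top ENNReal.ofReal_ne_top,
      ENNReal.toReal_ofReal hρ.le] at h2
    linarith
  have hE1'' : ∑ i ∈ Du, Gz γ f t (Z i) ≤ E1 + 2 * (ρ + θ) := by
    have h1 := LP.dust_tr hγ hf (D := Du) (a := e1 - ρ) (b := e2 + ρ) (by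
      intro i hi
      obtain ⟨h1, s, h2, h3, -⟩ := (hDu i).mp hi
      exact ⟨h1, s, h2, h3⟩) (by linarith) hθ.le (by linarith)
    have h2 := hcol e1 e2 hle
    rw [← A.hE1] at h2
    linarith
  have hE2'' : ∑ i ∈ Dl, Gz γ f t (Z i) ≤ E2 + 2 * (ρ + θ) := by
    have h1 := LP.dust_tr hγ hf (D := Dl) (a := e1 + Real.pi - ρ) (b := e2 + Real.pi + ρ) (by
      intro i hi
      obtain ⟨h1, s, h2, h3, -⟩ := (hDl i).mp hi
      exact ⟨h1, s, h2, h3⟩) (by linarith) hθ.le (by linarith)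
    have h2 := hcol (e1 + Real.pi) (e2 + Real.pi) (by linarith)
    rw [← A.hE2] at h2
    linarith
  -- the two comparisons
  have hUb : U ⊆ big := A.Utr.trans LP.trb
  have hLb : L ⊆ big := A.Ltr.trans LP.trb
  have hDub : ∀ i ∈ Du, i ∉ big := fun i hi => ((hDu i).mp hi).1
  have hDlb : ∀ i ∈ Dl, i ∉ big := fun i hi => ((hDl i).mp hi).1
  have hULtr : ∀ i ∈ U ∪ L, i ∈ tr := fun i hi => (Finset.union_subset A.Utr A.Ltr) hi
  have hGh : ∀ i ∈ U ∪ L, Gz γ f t (Z i) ≤ q i - p i := fun i hi => LP.gz_le_h hγ hf (hULtr i hi)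
  have hh : ∀ i ∈ U ∪ L, 2 * (q i - p i) ≤ S i + Gz γ f t (Z i) + θ' := fun i hi =>
    LP.hull_le hγ (hULtr i hi)
  have hρK : 2 * ρ * big.card ≤ 2 * ρ * K := mul_le_mul_of_nonneg_left hK (by linarith)
  obtain ⟨J, D, st, R, hJU, hD, h3, hst0, hst, hR0, hR, ha⟩ :=
    cstrat57 hγ hC hmin hf hev hnull LP hθ hθ' A hρ hρτ hDl
  obtain ⟨r1, r2, r3, r4, r5, r6, r7⟩ := csum57 hJU hUb hLb A.dj hDub hDlb hDD hθ.le hθ'.le hρ.le hρθ hK hsm
    LP.sumS hG0 LP.GS hGh hh hD h3 ngU nE1 nE2 A.c1 A.c2 A.a1 A.b1 hE1' hE2' hE2''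
    (Finset.mem_union_left _ hi0U) hmax hst0 (by linarith) hR0 hR.le ha rfl rfl rfl rfl
  have A' := A.swap hγ
  obtain ⟨J', D', st', R', hJU', hD', h3', hst0', hst', hR0', hR', ha'⟩ :=
    cstrat57 hγ hC hmin hf hev hnull LP hθ hθ' A' hρ hρτ hDu'
  have hcomm : L ∪ U = U ∪ L := Finset.union_comm _ _
  obtain ⟨u1, u2, u3, u4, u5, u6, u7⟩ := csum57 hJU' hLb hUb A.dj.symm hDlb hDub hDD.symm hθ.le hθ'.le hρ.le hρθ
    hK hsm LP.sumS hG0 LP.GS (by rw [hcomm]; exact hGh) (by rw [hcomm]; exact hh) hD' h3' ngL nE2 nE1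
    A.c2 A.c1 A'.a1 A'.b1 hE2' hE1' hE1''
    (by rw [hcomm]; exact Finset.mem_union_left _ hi0U) hmax hst0' (by linarith) hR0' hR'.le ha' rfl rfl rfl rfl
  have hfs := fsum57 hUb hLb A.dj hDub hDlb hDD hθ.le hθ'.le hK hsm LP.sumS hG0 LP.GS nE1 nE2 A.c1 A.c2
    hE1' hE2' (Finset.mem_union_left _ hi0U) hmax rfl rfl rfl
    (fstrat57 hγ hC hmin hf hnull hθ hθ'.le LP)
  refine ⟨∑ i ∈ U, S i + ∑ i ∈ Du, S i, ∑ i ∈ L, S i + ∑ i ∈ Dl, S i,
    l - (∑ i ∈ U, S i + ∑ i ∈ Du, S i) - (∑ i ∈ L, S i + ∑ i ∈ Dl, S i), G, G + 2 * gU, G + 2 * gL,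
    by ring, r1, r2, r3, r4, r5, u5, r6, u6, r7, ?_, hfs⟩
  refine u7.trans ?_
  have e : l - (∑ i ∈ L, S i + ∑ i ∈ Dl, S i) - (∑ i ∈ U, S i + ∑ i ∈ Du, S i) =
    l - (∑ i ∈ U, S i + ∑ i ∈ Du, S i) - (∑ i ∈ L, S i + ∑ i ∈ Dl, S i) := by ring
  rw [e, add_comm (∑ i ∈ L, S i + ∑ i ∈ Dl, S i) (∑ i ∈ U, S i + ∑ i ∈ Du, S i)]

/-- `LevF` -/
theorem levF57 [CompactSpace M] (hγ : Bd γ) {C : Calc M γ} (hC : Colb C) {ε : ℝ} (hmin : NM C ε) :
    LevF C ε 10000 := by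
  intro f hf hev t hnull l _ θ θ' K hθ hθ' ι _ _ big tr Z O S p q hK LP hsm
  exact level57 hγ hC hmin hf hev hnull LP hθ hθ' hK hsm

/-- **the isoperimetric inequality for odd functions** -/
theorem isopO57 [CompactSpace M] (hγ : Bd γ) {C : Calc M γ} (hR : RegPl C) (hC : Colb C) {ε : ℝ}
    (hε : 0 ≤ ε) (hmin : NM C ε) (hv : C.vol ≤ 21 / 10 * Real.pi) :
    IsopO C (5000 / 2877 * Real.pi) ε :=
  isopO57_of' C hε (by norm_num) hv (lp57_ae hγ C hR) (levF57 hγ hC hmin)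

end Pool.Agent.FPM
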