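import Mathlib

/-!
# FAC / ISO57, module I57O: one-chart version, the real inequality and the choice of the arc

Notation (see FAC_helper57_ISO.md): a piece has `u = (S + G) / 2`, hull `h`, trace `G`, excess `e = u - h`.
Everything is written for `cost' = (π / 2) * cost`: an F-type piece costs `u ^ 2`, the C-type piece with its own
hull as arc costs `π * (u - h) * (u + h - G)` (`= (π / 2) * 2 * e * (S - e)`), and the cluster of the opposite arc with
the pieces `Q` touching it costs at most `(∑ Q u + h - GI) ^ 2`, `GI ≥ G` the trace on the arc.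

`core` : with `x, y` the largest `u` on the two sides, `φ, β` the sums of the other `u`, `L = x + y + φ + β - G`, one of
the three tests (all F; arc = hull of `x`; arc = hull of `y`) costs at most `1.184 * L ^ 2`, i.e.
`cost ≤ 0.592 * l ^ 2 / π`, `l = 2 L` (`κ = 1.6891 π`).
`fam` : the same for finite families of pieces.
-/

set_option autoImplicit false

open Real

namespace Pool.Agent.FPM.I57O

theorem stepA {t K e : ℝ} (ht : 0 ≤ t) (ht' : t ≤ 0.4288) (he : 0 ≤ e) (hK : K ≤ 1 - t) :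
    e * (π * K - 2 - (π - 1) * e) + t ^ 2 ≤ 0.184 := by
  have h1 := Real.pi_gt_d4
  have h2 := Real.pi_lt_d4
  have hK' : e * (π * K) ≤ e * (π * (1 - t)) :=
    mul_le_mul_of_nonneg_left (mul_le_mul_of_nonneg_left hK Real.pi_pos.le) he
  have hA : e * (π - 2 - (π - 1) * e) ≤ 0.184 := by
    have h3 : e * (π - 2 - (π - 1) * e) ≤ 1.1416 * e - 2.1415 * e ^ 2 := by
      nlinarith [mul_nonneg he (sub_nonneg.2 h2.le), mul_nonneg (sq_nonneg e) (sub_nonneg.2 h1.le)]
    nlinarith [sq_nonneg (e - 0.2665)]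
  have hB : 0.4288 * (0.4288 - π * e) + e * (π - 2 - (π - 1) * e) ≤ 0.184 := by
    nlinarith [sq_nonneg e]
  have hC : t ^ 2 ≤ 0.4288 * t := by nlinarith
  have hD : e * (π * (1 - t) - 2 - (π - 1) * e) + t ^ 2
      ≤ t * (0.4288 - π * e) + e * (π - 2 - (π - 1) * e) := by nlinarith
  have hE : t * (0.4288 - π * e) + e * (π - 2 - (π - 1) * e) ≤ 0.184 := by
    nlinarith [mul_nonneg ht (sub_nonneg.2 hB), mul_nonneg (sub_nonneg.2 ht') (sub_nonneg.2 hA)]
  nlinarith

theorem stepB {t K e z : ℝ} (ht : 0 ≤ t) (ht' : t ≤ 0.3) (he : 0 ≤ e) (hez : e ≤ z) (hz : z ≤ 0.1424)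
    (hK : K ≤ 1 + z - t) : e * (π * K - 2 - (π - 1) * e) + t ^ 2 ≤ 0.184 := by
  have h1 := Real.pi_gt_d4
  have h2 := Real.pi_lt_d4
  have he' : e ≤ 0.1424 := hez.trans hz
  have hK1 : K ≤ 1.1424 - t := by linarith
  have hK' : e * (π * K) ≤ e * (π * (1.1424 - t)) :=
    mul_le_mul_of_nonneg_left (mul_le_mul_of_nonneg_left hK1 Real.pi_pos.le) he
  have hA : e * (π * 1.1424 - 2 - (π - 1) * e) ≤ 0.184 := by
    nlinarith [mul_nonneg he (sub_nonneg.2 he')]
  have hB : 0.3 * (0.3 - π * e) + e * (π * 1.1424 - 2 - (π - 1) * e) ≤ 0.184 := by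
    nlinarith [mul_nonneg he (sub_nonneg.2 he')]
  have hC : t ^ 2 ≤ 0.3 * t := by nlinarith
  have hD : e * (π * (1.1424 - t) - 2 - (π - 1) * e) + t ^ 2
      ≤ t * (0.3 - π * e) + e * (π * 1.1424 - 2 - (π - 1) * e) := by nlinarith
  have hE : t * (0.3 - π * e) + e * (π * 1.1424 - 2 - (π - 1) * e) ≤ 0.184 := by
    nlinarith [mul_nonneg ht (sub_nonneg.2 hB), mul_nonneg (sub_nonneg.2 ht') (sub_nonneg.2 hA)]
  nlinarith

theorem stepC {x t : ℝ} (hx : 0 ≤ x) (hxt : x ≤ 1 - t) (ht : 0.3 ≤ t) (ht' : t ≤ 0.5) :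
    x ^ 2 + t ^ 2 ≤ 0.58 := by
  nlinarith

/-- The normalised inequality (`L = 1`) in the variables of the excesses. -/
theorem core_aux {x y s t w z e₁ e₂ : ℝ} (hx : 0 ≤ x) (hy : 0 ≤ y) (hs : 0 ≤ s) (ht : 0 ≤ t)
    (hxs : x + w ≤ 1 - s) (hyt : y + z ≤ 1 - t) (hw : 0 ≤ w) (hz : 0 ≤ z) (hws : w ≤ 1 - 2 * s)
    (hzt : z ≤ 1 - 2 * t) (he₁ : 0 ≤ e₁) (he₁z : e₁ ≤ z) (he₂ : 0 ≤ e₂) (he₂w : e₂ ≤ w) :
    x ^ 2 + y ^ 2 + s ^ 2 + t ^ 2 ≤ 1.184 ∨
    1 + e₁ * (π * (x + z) - 2 - (π - 1) * e₁) + s ^ 2 ≤ 1.184 ∨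
    1 + e₂ * (π * (y + w) - 2 - (π - 1) * e₂) + t ^ 2 ≤ 1.184 := by
  rcases le_or_gt s 0.3 with hs3 | hs3
  · -- case (I)
    rcases le_or_gt z w with hzw | hzw
    · right; left
      have := stepA (t := s) (K := x + z) hs (by linarith) he₁ (by linarith)
      linarith
    · rcases le_or_gt t 0.4288 with htb | htb
      · right; right
        have := stepA (t := t) (K := y + w) ht htb he₂ (by linarith)
        linarith
      · right; left
        have := stepB (t := s) (K := x + z) (z := z) hs hs3 he₁ he₁z (by linarith) (by linarith)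
        linarith
  · rcases le_or_gt t 0.3 with ht3 | ht3
    · rcases le_or_gt w z with hwz | hwz
      · right; right
        have := stepA (t := t) (K := y + w) ht (by linarith) he₂ (by linarith)
        linarith
      · rcases le_or_gt s 0.4288 with hsb | hsb
        · right; left
          have := stepA (t := s) (K := x + z) hs hsb he₁ (by linarith)
          linarith
        · right; right
          have := stepB (t := t) (K := y + w) (z := w) ht ht3 he₂ he₂w (by linarith) (by linarith)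
          linarith
    · left
      have h1 := stepC (x := x) (t := s) hx (by linarith) hs3.le (by linarith)
      have h2 := stepC (x := y) (t := t) hy (by linarith) ht3.le (by linarith)
      linarith

/-- The normalised inequality, `L = 1`. -/
theorem core_norm {x y φ β B₁ B₂ h₁ h₂ g₁ g₂ : ℝ} (hx : 0 ≤ x) (hy : 0 ≤ y) (hφ : 0 ≤ φ) (hβ : 0 ≤ β)
    (hB₁ : 0 ≤ B₁) (hB₁' : B₁ ≤ φ ^ 2) (hB₁'' : B₁ ≤ φ * x)
    (hB₂ : 0 ≤ B₂) (hB₂' : B₂ ≤ β ^ 2) (hB₂'' : B₂ ≤ β * y)
    (hg₁ : x + y + φ + β - 1 ≤ g₁ + φ) (hgh₁ : g₁ ≤ h₁) (hh₁ : h₁ ≤ x)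
    (hg₂ : x + y + φ + β - 1 ≤ g₂ + β) (hgh₂ : g₂ ≤ h₂) (hh₂ : h₂ ≤ y) :
    x ^ 2 + y ^ 2 + B₁ + B₂ ≤ 1.184 ∨
    π * (x - h₁) * (x + h₁ - g₁) + (1 - x + h₁) ^ 2 + B₁ ≤ 1.184 ∨
    π * (y - h₂) * (y + h₂ - g₂) + (1 - y + h₂) ^ 2 + B₂ ≤ 1.184 := by
  have hs : 0 ≤ √B₁ := Real.sqrt_nonneg _
  have ht : 0 ≤ √B₂ := Real.sqrt_nonneg _
  have hs2 : √B₁ ^ 2 = B₁ := Real.sq_sqrt hB₁
  have ht2 : √B₂ ^ 2 = B₂ := Real.sq_sqrt hB₂
  have hsφ : √B₁ ≤ φ := by rw [Real.sqrt_le_left hφ]; exact hB₁'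
  have htβ : √B₂ ≤ β := by rw [Real.sqrt_le_left hβ]; exact hB₂'
  have hs3 : 2 * √B₁ ≤ φ + x := by
    refine abs_le_of_sq_le_sq' ?_ (by positivity) |>.2
    nlinarith [sq_nonneg (φ - x)]
  have ht3 : 2 * √B₂ ≤ β + y := by
    refine abs_le_of_sq_le_sq' ?_ (by positivity) |>.2
    nlinarith [sq_nonneg (β - y)]
  rcases core_aux (x := x) (y := y) (s := √B₁) (t := √B₂) (w := 1 - x - φ) (z := 1 - y - β)
    (e₁ := x - h₁) (e₂ := y - h₂) hx hy hs ht (by linarith) (by linarith) (by linarith) (by linarith)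
    (by linarith) (by linarith) (by linarith) (by linarith) (by linarith) (by linarith) with h | h | h
  · left
    rw [hs2, ht2] at h
    exact h
  · right; left
    rw [hs2] at h
    have h1 : π * (x - h₁) * (x + h₁ - g₁) ≤ π * (x - h₁) * (x + (1 - y - β) - (x - h₁)) :=
      mul_le_mul_of_nonneg_left (by linarith) (mul_nonneg Real.pi_pos.le (by linarith))
    nlinarith
  · right; right
    rw [ht2] at h
    have h1 : π * (y - h₂) * (y + h₂ - g₂) ≤ π * (y - h₂) * (y + (1 - x - φ) - (y - h₂)) :=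
      mul_le_mul_of_nonneg_left (by linarith) (mul_nonneg Real.pi_pos.le (by linarith))
    nlinarith

/-- The real inequality: `x, y` the largest `u` on the two sides, `φ, β` the sums of the other `u`, `B₁, B₂` the sums
of their squares, `G` the trace on one side, `L = x + φ + y + β - G`. -/
theorem core {x y φ β B₁ B₂ h₁ h₂ g₁ g₂ G L : ℝ} (hx : 0 ≤ x) (hy : 0 ≤ y) (hφ : 0 ≤ φ) (hβ : 0 ≤ β)
    (hB₁ : 0 ≤ B₁) (hB₁' : B₁ ≤ φ ^ 2) (hB₁'' : B₁ ≤ φ * x)
    (hB₂ : 0 ≤ B₂) (hB₂' : B₂ ≤ β ^ 2) (hB₂'' : B₂ ≤ β * y) (hL : L = x + φ + (y + β) - G)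
    (hg₁ : G ≤ g₁ + φ) (hgh₁ : g₁ ≤ h₁) (hh₁ : h₁ ≤ x)
    (hg₂ : G ≤ g₂ + β) (hgh₂ : g₂ ≤ h₂) (hh₂ : h₂ ≤ y) :
    x ^ 2 + y ^ 2 + B₁ + B₂ ≤ 1.184 * L ^ 2 ∨
    π * (x - h₁) * (x + h₁ - g₁) + (L - x + h₁) ^ 2 + B₁ ≤ 1.184 * L ^ 2 ∨
    π * (y - h₂) * (y + h₂ - g₂) + (L - y + h₂) ^ 2 + B₂ ≤ 1.184 * L ^ 2 := by
  have hLx : x + φ ≤ L := by linarith
  have hLy : y + β ≤ L := by linarith
  rcases (show 0 ≤ L by linarith).eq_or_lt with h0 | h0
  · left
    have e1 : x = 0 := by linarith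
    have e2 : y = 0 := by linarith
    have e3 : φ = 0 := by linarith
    have e4 : β = 0 := by linarith
    subst e1 e2 e3 e4
    nlinarith
  · have hd : ∀ a b : ℝ, a ≤ b → a / L ≤ b / L := fun a b hab => div_le_div_of_nonneg_right hab h0.le
    have hdd : ∀ a b : ℝ, a ≤ b → a / L ^ 2 ≤ b / L ^ 2 := fun a b hab =>
      div_le_div_of_nonneg_right hab (by positivity)
    have hG : G = x + φ + (y + β) - L := by linarith
    have hLL : L ≠ 0 := h0.ne'
    rcases core_norm (x := x / L) (y := y / L) (φ := φ / L) (β := β / L) (B₁ := B₁ / L ^ 2)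
      (B₂ := B₂ / L ^ 2) (h₁ := h₁ / L) (h₂ := h₂ / L) (g₁ := g₁ / L) (g₂ := g₂ / L)
      (by positivity) (by positivity) (by positivity) (by positivity) (by positivity)
      (by rw [div_pow]; exact hdd _ _ hB₁')
      (by rw [div_mul_div_comm, ← sq]; exact hdd _ _ hB₁'') (by positivity)
      (by rw [div_pow]; exact hdd _ _ hB₂')
      (by rw [div_mul_div_comm, ← sq]; exact hdd _ _ hB₂'')
      (by
        have := hd _ _ hg₁
        rw [hG, sub_div, add_div, add_div, add_div, add_div, div_self hLL] at this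
        linarith)
      (hd _ _ hgh₁) (hd _ _ hh₁)
      (by
        have := hd _ _ hg₂
        rw [hG, sub_div, add_div, add_div, add_div, add_div, div_self hLL] at this
        linarith)
      (hd _ _ hgh₂) (hd _ _ hh₂) with h | h | h
    · left
      have e : x ^ 2 + y ^ 2 + B₁ + B₂ = ((x / L) ^ 2 + (y / L) ^ 2 + B₁ / L ^ 2 + B₂ / L ^ 2) * L ^ 2 := by
        field_simp
      rw [e]
      exact mul_le_mul_of_nonneg_right h (by positivity)
    · right; left
      have e : π * (x - h₁) * (x + h₁ - g₁) + (L - x + h₁) ^ 2 + B₁ =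
          (π * (x / L - h₁ / L) * (x / L + h₁ / L - g₁ / L) + (1 - x / L + h₁ / L) ^ 2 + B₁ / L ^ 2) * L ^ 2 := by
        field_simp
      rw [e]
      exact mul_le_mul_of_nonneg_right h (by positivity)
    · right; right
      have e : π * (y - h₂) * (y + h₂ - g₂) + (L - y + h₂) ^ 2 + B₂ =
          (π * (y / L - h₂ / L) * (y / L + h₂ / L - g₂ / L) + (1 - y / L + h₂ / L) ^ 2 + B₂ / L ^ 2) * L ^ 2 := by
        field_simp
      rw [e]
      exact mul_le_mul_of_nonneg_right h (by positivity)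

theorem sum_sq_le {ι : Type*} (s : Finset ι) {u : ι → ℝ} (hu : ∀ i ∈ s, 0 ≤ u i) :
    ∑ i ∈ s, u i ^ 2 ≤ (∑ i ∈ s, u i) ^ 2 := by
  have h1 : ∀ i ∈ s, u i ^ 2 ≤ u i * ∑ j ∈ s, u j := fun i hi => by
    rw [sq]
    exact mul_le_mul_of_nonneg_left (Finset.single_le_sum hu hi) (hu i hi)
  calc ∑ i ∈ s, u i ^ 2 ≤ ∑ i ∈ s, u i * ∑ j ∈ s, u j := Finset.sum_le_sum h1
    _ = (∑ i ∈ s, u i) ^ 2 := by rw [← Finset.sum_mul, sq]

theorem sum_sq_le_mul {ι : Type*} (s : Finset ι) {u : ι → ℝ} {x : ℝ} (hu : ∀ i ∈ s, 0 ≤ u i)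
    (hx : ∀ i ∈ s, u i ≤ x) : ∑ i ∈ s, u i ^ 2 ≤ (∑ i ∈ s, u i) * x := by
  rw [Finset.sum_mul]
  exact Finset.sum_le_sum fun i hi => by
    rw [sq]
    exact mul_le_mul_of_nonneg_left (hx i hi) (hu i hi)

/-- The merged cluster: the test with the hull of `i` costs at most the amount in `core`. -/
theorem merge {ι : Type*} [Fintype ι] [DecidableEq ι] (side : ι → Bool) (big : ι → Prop) [DecidablePred big]
    {u : ι → ℝ} (hu : ∀ i, 0 ≤ u i) {i : ι} {hi gi c R : ℝ}
    {Q : Finset ι} (hQ : ∀ k ∈ Q, side k ≠ side i) (hgc : gi ≤ c) (hcQ : c ≤ ∑ k ∈ Q, u k + hi)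
    (hR : ∑ j with side j ≠ side i, u j + hi - gi ≤ R) :
    (∑ k ∈ Q, u k + hi - c) ^ 2 + ∑ j with big j ∧ j ≠ i ∧ j ∉ Q, u j ^ 2 ≤
      R ^ 2 + ∑ j with big j ∧ side j = side i ∧ j ≠ i, u j ^ 2 := by
  classical
  set P : Finset ι := Finset.univ.filter (fun j => side j ≠ side i ∧ j ∉ Q) with hP
  have h1 : ∑ j with side j ≠ side i, u j = ∑ k ∈ Q, u k + ∑ k ∈ P, u k := by
    rw [← Finset.sum_union]
    · refine Finset.sum_congr ?_ fun _ _ => rfl
      ext j
      simp only [hP, Finset.mem_filter, Finset.mem_univ, true_and, Finset.mem_union]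
      constructor
      · intro hj
        by_cases hjQ : j ∈ Q
        · exact Or.inl hjQ
        · exact Or.inr ⟨hj, hjQ⟩
      · rintro (hj | hj)
        · exact hQ j hj
        · exact hj.1
    · rw [Finset.disjoint_left]
      intro j hj hj'
      exact (Finset.mem_filter.1 hj').2.2 hj
  have h2 : ∑ j with big j ∧ j ≠ i ∧ j ∉ Q, u j ^ 2 ≤
      ∑ k ∈ P, u k ^ 2 + ∑ j with big j ∧ side j = side i ∧ j ≠ i, u j ^ 2 := by
    rw [← Finset.sum_union]
    · refine Finset.sum_le_sum_of_subset_of_nonneg ?_ fun _ _ _ => sq_nonneg _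
      intro j hj
      simp only [hP, Finset.mem_filter, Finset.mem_univ, true_and, Finset.mem_union] at hj ⊢
      by_cases hs : side j = side i
      · exact Or.inr ⟨hj.1, hs, hj.2.1⟩
      · exact Or.inl ⟨hs, hj.2.2⟩
    · rw [Finset.disjoint_left]
      intro j hj hj'
      exact (Finset.mem_filter.1 hj).2.1 (Finset.mem_filter.1 hj').2.2.1
  have h3 := sum_sq_le P (u := u) fun k _ => hu k
  have h4 : 0 ≤ ∑ k ∈ P, u k := Finset.sum_nonneg fun k _ => hu k
  have h5 : 0 ≤ ∑ k ∈ Q, u k + hi - c := by linarith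
  have h6 : (∑ k ∈ Q, u k + hi - c) + ∑ k ∈ P, u k ≤ R := by linarith
  nlinarith [mul_nonneg h4 h5]

/-- **The choice of the test.**  Finitely many pieces `i` with `u i = (S i + G i) / 2`, hull `h i`, trace `g i`, side
`side i` (front or back arc after cutting the curve at an antipodal pair); `big` the pieces which are not dust;
`G` at most the trace on each side, `L = ∑ u - G`.  Either the test (everything F) costs at most `1.184 * L ^ 2`, or for
some big piece `i` (the largest of its side) the test with `i` collapsed onto its hull does, whatever the set `Q` of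
the pieces touching the opposite arc (`c ≥ g i` the trace on the arc) is. -/
theorem fam {ι : Type*} [Fintype ι] [DecidableEq ι] (side : ι → Bool) (big : ι → Prop) [DecidablePred big]
    {u h g : ι → ℝ} (hg0 : ∀ i, 0 ≤ g i) (hgu : ∀ i, g i ≤ u i) (hgh : ∀ i, big i → g i ≤ h i)
    (hhu : ∀ i, big i → h i ≤ u i) {G L : ℝ} (hG : ∀ b, G ≤ ∑ i with side i = b, g i) (hL : L = ∑ i, u i - G) :
    (∑ i with big i, u i ^ 2 ≤ 1.184 * L ^ 2) ∨
    ∃ i, big i ∧ ∀ (Q : Finset ι) (c : ℝ), (∀ k ∈ Q, side k ≠ side i) → g i ≤ c → c ≤ ∑ k ∈ Q, u k + h i →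
      π * (u i - h i) * (u i + h i - g i) + (∑ k ∈ Q, u k + h i - c) ^ 2
        + ∑ j with big j ∧ j ≠ i ∧ j ∉ Q, u j ^ 2 ≤ 1.184 * L ^ 2 := by
  classical
  have hu : ∀ i, 0 ≤ u i := fun i => (hg0 i).trans (hgu i)
  have hsplit : ∀ b, ∑ i, u i = ∑ i with side i = b, u i + ∑ i with side i ≠ b, u i := fun b => by
    rw [Finset.sum_filter_add_sum_filter_not]
  have hne : ∀ b : Bool, (Finset.univ.filter fun i => side i ≠ b) = Finset.univ.filter fun i => side i = !b := by
    intro b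
    ext i
    simp only [Finset.mem_filter, Finset.mem_univ, true_and]
    cases b <;> cases side i <;> simp
  have hUG : ∀ b, G ≤ ∑ i with side i = b, u i := fun b =>
    (hG b).trans (Finset.sum_le_sum fun i _ => hgu i)
  -- a side without big pieces
  by_cases hex : ∃ b, ∀ i, side i = b → ¬ big i
  · obtain ⟨b, hb⟩ := hex
    left
    have h1 : ∑ i with big i, u i ^ 2 ≤ ∑ i with side i ≠ b, u i ^ 2 := by
      refine Finset.sum_le_sum_of_subset_of_nonneg ?_ fun _ _ _ => sq_nonneg _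
      intro j hj
      simp only [Finset.mem_filter, Finset.mem_univ, true_and] at hj ⊢
      intro hjb
      exact hb j hjb hj
    have h2 := sum_sq_le (Finset.univ.filter fun i => side i ≠ b) (u := u) fun i _ => hu i
    have h3 : 0 ≤ ∑ i with side i ≠ b, u i := Finset.sum_nonneg fun i _ => hu i
    have h4 : ∑ i with side i ≠ b, u i ≤ L := by
      have := hsplit b
      have := hUG b
      linarith
    nlinarith
  · push Not at hex
    -- the largest big piece of each side
    have hmax : ∀ b, ∃ i, side i = b ∧ big i ∧ ∀ j, side j = b → big j → u j ≤ u i := by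
      intro b
      obtain ⟨i0, hi0, hi0'⟩ := hex b
      obtain ⟨i, hi, him⟩ := Finset.exists_max_image (Finset.univ.filter fun i => side i = b ∧ big i) u
        ⟨i0, by simp [hi0, hi0']⟩
      simp only [Finset.mem_filter, Finset.mem_univ, true_and] at hi him
      exact ⟨i, hi.1, hi.2, fun j hj hj' => him j ⟨hj, hj'⟩⟩
    choose I hIs hIb hIm using hmax
    let φ : Bool → ℝ := fun b => ∑ j with side j = b ∧ j ≠ I b, u j
    let B : Bool → ℝ := fun b => ∑ j with big j ∧ side j = b ∧ j ≠ I b, u j ^ 2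
    have hφ0 : ∀ b, 0 ≤ φ b := fun b => Finset.sum_nonneg fun i _ => hu i
    have hB0 : ∀ b, 0 ≤ B b := fun b => Finset.sum_nonneg fun i _ => sq_nonneg _
    have hsub : ∀ b, ∑ j with big j ∧ side j = b ∧ j ≠ I b, u j ≤ φ b := fun b => by
      refine Finset.sum_le_sum_of_subset_of_nonneg ?_ fun j _ _ => hu j
      intro j hj
      simp only [Finset.mem_filter, Finset.mem_univ, true_and] at hj ⊢
      exact ⟨hj.2.1, hj.2.2⟩
    have hsub0 : ∀ b, 0 ≤ ∑ j with big j ∧ side j = b ∧ j ≠ I b, u j := fun b =>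
      Finset.sum_nonneg fun i _ => hu i
    have hBa : ∀ b, B b ≤ φ b ^ 2 := fun b => by
      have := sum_sq_le (Finset.univ.filter fun j => big j ∧ side j = b ∧ j ≠ I b) (u := u) fun i _ => hu i
      have h2 := hsub b
      have h3 := hsub0 b
      nlinarith
    have hBb : ∀ b, B b ≤ φ b * u (I b) := fun b => by
      have := sum_sq_le_mul (Finset.univ.filter fun j => big j ∧ side j = b ∧ j ≠ I b) (u := u) (x := u (I b))
        (fun i _ => hu i) (fun i hi => by
          simp only [Finset.mem_filter, Finset.mem_univ, true_and] at hi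
          exact hIm b i hi.2.1 hi.1)
      exact this.trans (mul_le_mul_of_nonneg_right (hsub b) (hu _))
    have hins : ∀ b, (Finset.univ.filter fun j => side j = b) =
        insert (I b) (Finset.univ.filter fun j => side j = b ∧ j ≠ I b) := fun b => by
      ext j
      simp only [Finset.mem_filter, Finset.mem_univ, true_and, Finset.mem_insert]
      constructor
      · intro hj
        by_cases hjI : j = I b
        · exact Or.inl hjI
        · exact Or.inr ⟨hj, hjI⟩
      · rintro (hj | hj)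
        · rw [hj]
          exact hIs b
        · exact hj.1
    have hnot : ∀ b, I b ∉ Finset.univ.filter fun j => side j = b ∧ j ≠ I b := fun b => by simp
    have hside : ∀ b, ∑ j with side j = b, u j = u (I b) + φ b := fun b => by
      rw [hins b, Finset.sum_insert (hnot b)]
    have hsideg : ∀ b, G ≤ g (I b) + φ b := fun b => by
      refine (hG b).trans ?_
      rw [hins b, Finset.sum_insert (hnot b)]
      gcongr with j _
      exact Finset.sum_le_sum fun j _ => hgu j
    have hLL : ∀ b, L = u (I b) + φ b + (u (I !b) + φ !b) - G := fun b => by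
      rw [hL, hsplit b, hne b, hside b, hside !b]
    have hF : ∑ i with big i, u i ^ 2 = u (I true) ^ 2 + u (I false) ^ 2 + B true + B false := by
      have h1 : (Finset.univ.filter fun i => big i) =
          insert (I true) (insert (I false) ((Finset.univ.filter fun j => big j ∧ side j = true ∧ j ≠ I true) ∪
            (Finset.univ.filter fun j => big j ∧ side j = false ∧ j ≠ I false))) := by
        ext j
        simp only [Finset.mem_filter, Finset.mem_univ, true_and, Finset.mem_insert, Finset.mem_union]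
        constructor
        · intro hj
          by_cases h1 : j = I true
          · exact Or.inl h1
          · by_cases h2 : j = I false
            · exact Or.inr (Or.inl h2)
            · right; right
              cases hs : side j
              · exact Or.inr ⟨hj, rfl, h2⟩
              · exact Or.inl ⟨hj, rfl, h1⟩
        · rintro (hj | hj | hj | hj)
          · rw [hj]; exact hIb _
          · rw [hj]; exact hIb _
          · exact hj.1
          · exact hj.1
      have hTF : I true ≠ I false := fun h => by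
        have h1 := hIs true
        rw [h, hIs false] at h1
        exact absurd h1 (by simp)
      rw [h1, Finset.sum_insert, Finset.sum_insert, Finset.sum_union]
      · ring
      · rw [Finset.disjoint_left]
        intro j hj hj'
        have h1 := (Finset.mem_filter.1 hj).2.2.1
        have h2 := (Finset.mem_filter.1 hj').2.2.1
        rw [h1] at h2
        exact absurd h2 (by simp)
      · simp only [Finset.mem_union, Finset.mem_filter, Finset.mem_univ, true_and, not_or, not_and]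
        refine ⟨fun _ h _ => ?_, fun _ _ => by simp⟩
        rw [hIs false] at h
        exact absurd h (by simp)
      · simp only [Finset.mem_insert, Finset.mem_union, Finset.mem_filter, Finset.mem_univ, true_and, not_or,
          not_and]
        refine ⟨hTF, fun _ _ => by simp, fun _ h _ => ?_⟩
        rw [hIs true] at h
        exact absurd h (by simp)
    have hcase : ∀ b, π * (u (I b) - h (I b)) * (u (I b) + h (I b) - g (I b)) + (L - u (I b) + h (I b)) ^ 2 + B b
          ≤ 1.184 * L ^ 2 →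
        ∃ i, big i ∧ ∀ (Q : Finset ι) (c : ℝ), (∀ k ∈ Q, side k ≠ side i) → g i ≤ c → c ≤ ∑ k ∈ Q, u k + h i →
          π * (u i - h i) * (u i + h i - g i) + (∑ k ∈ Q, u k + h i - c) ^ 2
            + ∑ j with big j ∧ j ≠ i ∧ j ∉ Q, u j ^ 2 ≤ 1.184 * L ^ 2 := by
      intro b hb
      refine ⟨I b, hIb b, fun Q c hQ hgc hcQ => ?_⟩
      have hR : ∑ j with side j ≠ side (I b), u j + h (I b) - g (I b) ≤ L - u (I b) + h (I b) := by
        rw [hIs b]
        have h1 := hsplit b
        rw [hside b] at h1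
        have h2 := hsideg b
        linarith
      have := merge side big hu hQ hgc hcQ hR
      rw [hIs b] at this
      have h2 : ∑ j with big j ∧ side j = b ∧ j ≠ I b, u j ^ 2 = B b := rfl
      rw [h2] at this
      linarith
    rcases core (x := u (I true)) (y := u (I false)) (φ := φ true) (β := φ false) (B₁ := B true)
      (B₂ := B false) (h₁ := h (I true)) (h₂ := h (I false)) (g₁ := g (I true)) (g₂ := g (I false)) (G := G) (L := L)
      (hu _) (hu _) (hφ0 _) (hφ0 _) (hB0 _) (hBa _) (hBb _) (hB0 _) (hBa _) (hBb _) (hLL true)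
      (hsideg _) (hgh _ (hIb _)) (hhu _ (hIb _)) (hsideg _) (hgh _ (hIb _)) (hhu _ (hIb _)) with hc | hc | hc
    · left
      rw [hF]
      exact hc
    · right
      exact hcase true hc
    · right
      exact hcase false hc

/-- The same with the true costs: `l = 2 L`, `κ = π / 0.592 = 1.6891 π`. -/
theorem fam_cost {ι : Type*} [Fintype ι] [DecidableEq ι] (side : ι → Bool) (big : ι → Prop) [DecidablePred big]
    {u h g : ι → ℝ} (hg0 : ∀ i, 0 ≤ g i) (hgu : ∀ i, g i ≤ u i) (hgh : ∀ i, big i → g i ≤ h i)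
    (hhu : ∀ i, big i → h i ≤ u i) {G L : ℝ} (hG : ∀ b, G ≤ ∑ i with side i = b, g i) (hL : L = ∑ i, u i - G) :
    (∑ i with big i, u i / π * (2 * u i) ≤ (2 * L) ^ 2 / (π / 0.592)) ∨
    ∃ i, big i ∧ ∀ (Q : Finset ι) (c : ℝ), (∀ k ∈ Q, side k ≠ side i) → g i ≤ c → c ≤ ∑ k ∈ Q, u k + h i →
      2 * ((u i - h i) * (u i + h i - g i))
        + (∑ k ∈ Q, u k + h i - c) / π * (2 * (∑ k ∈ Q, u k + h i - c))
        + ∑ j with big j ∧ j ≠ i ∧ j ∉ Q, u j / π * (2 * u j) ≤ (2 * L) ^ 2 / (π / 0.592) := by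
  have hpi := Real.pi_pos
  have e0 : (2 * L) ^ 2 / (π / 0.592) = 2 / π * (1.184 * L ^ 2) := by
    field_simp
    ring
  have e1 : ∀ s : Finset ι, ∑ j ∈ s, u j / π * (2 * u j) = 2 / π * ∑ j ∈ s, u j ^ 2 := fun s => by
    rw [Finset.mul_sum]
    refine Finset.sum_congr rfl fun j _ => ?_
    ring
  rcases fam side big hg0 hgu hgh hhu hG hL with hc | ⟨i, hi, hc⟩
  · left
    rw [e0, e1]
    exact mul_le_mul_of_nonneg_left hc (by positivity)
  · right
    refine ⟨i, hi, fun Q c hQ hgc hcQ => ?_⟩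
    have h1 := mul_le_mul_of_nonneg_left (hc Q c hQ hgc hcQ) (show 0 ≤ 2 / π by positivity)
    rw [e0, e1]
    refine le_trans (le_of_eq ?_) h1
    field_simp

/-- Radius of the merged cluster, one piece: `tr k` the trace of the piece `k` on the arc of length `a`,
`c` their sum. -/
theorem rq_one {ι : Type*} [DecidableEq ι] {Q : Finset ι} {u tr : ι → ℝ} (htu : ∀ k ∈ Q, tr k ≤ u k) {a c : ℝ}
    (hc : c ≤ ∑ k ∈ Q, tr k) {k : ι} (hk : k ∈ Q) : u k + a - tr k ≤ ∑ j ∈ Q, u j + a - c := by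
  have h1 : ∑ j ∈ Q.erase k, tr j ≤ ∑ j ∈ Q.erase k, u j :=
    Finset.sum_le_sum fun j hj => htu j (Finset.mem_of_mem_erase hj)
  have h2 := Finset.add_sum_erase Q u hk
  have h3 := Finset.add_sum_erase Q tr hk
  linarith

/-- Radius of the merged cluster, two pieces. -/
theorem rq_two {ι : Type*} [DecidableEq ι] {Q : Finset ι} {u tr : ι → ℝ} (htu : ∀ k ∈ Q, tr k ≤ u k) {a c : ℝ}
    (hc : c ≤ ∑ k ∈ Q, tr k) {k j : ι} (hk : k ∈ Q) (hj : j ∈ Q) (hkj : k ≠ j) :
    (u k + a - tr k) + (u j + a - tr j) - a ≤ ∑ m ∈ Q, u m + a - c := by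
  have hj' : j ∈ Q.erase k := Finset.mem_erase.2 ⟨hkj.symm, hj⟩
  have h1 : ∑ m ∈ (Q.erase k).erase j, tr m ≤ ∑ m ∈ (Q.erase k).erase j, u m :=
    Finset.sum_le_sum fun m hm => htu m (Finset.mem_of_mem_erase (Finset.mem_of_mem_erase hm))
  have h2 := Finset.add_sum_erase Q u hk
  have h3 := Finset.add_sum_erase Q tr hk
  have h4 := Finset.add_sum_erase (Q.erase k) u hj'
  have h5 := Finset.add_sum_erase (Q.erase k) tr hj'
  linarith

/-- Radius of the merged cluster: the arc itself. -/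
theorem rq_arc {ι : Type*} {Q : Finset ι} {u tr : ι → ℝ} (htu : ∀ k ∈ Q, tr k ≤ u k) {a c : ℝ}
    (hc : c ≤ ∑ k ∈ Q, tr k) : a ≤ ∑ m ∈ Q, u m + a - c := by
  have h1 := Finset.sum_le_sum htu
  linarith

end Pool.Agent.FPM.I57O
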