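import Mathlib
import Pool.Agent.FPM.I57NL

/-
# ISO57, module G3, real limit (helper28)

`num57c` = the limit of the level statement with error `c (θ + K θ')`, for `l < 2π` and small `θ`, `θ'`.
-/

open Set Filter Topology

noncomputable section

namespace Pool.Agent.FPM

/-- the real core, errors to zero, with an arbitrary constant `c` in the error and the restriction
`l + 2 θ + 2 K θ' < 2 π` -/
theorem num57c {l a c : ℝ} (hc : 0 ≤ c) (hl : l < 2 * Real.pi)
    (h : ∀ θ : ℝ, 0 < θ → ∃ K : ℕ, ∀ θ' : ℝ, 0 < θ' → l + 2 * θ + 2 * K * θ' < 2 * Real.pi →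
      ∃ x y z G A B : ℝ, x + y + z = l ∧ 0 ≤ z ∧ 0 ≤ G ∧ G ≤ x ∧ G ≤ y ∧ G ≤ A ∧ G ≤ B ∧
        A ≤ x + K * θ' ∧ B ≤ y + K * θ' ∧
        2 * Real.pi * a ≤ Real.pi * (x ^ 2 - A ^ 2) + (y + A) ^ 2 + 2 * (x + y) * z +
          c * (θ + K * θ') ∧
        2 * Real.pi * a ≤ Real.pi * (y ^ 2 - B ^ 2) + (x + B) ^ 2 + 2 * (x + y) * z +
          c * (θ + K * θ') ∧
        2 * Real.pi * a ≤ (x + G) ^ 2 + (y + G) ^ 2 + 2 * (x + y) * z +
          c * (θ + K * θ')) :
    2 * Real.pi * a ≤ 2877 / 2500 * l ^ 2 := by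
  -- for every small `d` the numbers with `K θ' ≤ d` and error `2 c d`
  have key : ∀ d : ℝ, 0 < d → 4 * d < 2 * Real.pi - l → ∃ x y z G A B : ℝ,
      x + y + z = l ∧ 0 ≤ z ∧ 0 ≤ G ∧ G ≤ x ∧ G ≤ y ∧ G ≤ A ∧ G ≤ B ∧ A ≤ x + d ∧ B ≤ y + d ∧
        2 * Real.pi * a ≤ Real.pi * (x ^ 2 - A ^ 2) + (y + A) ^ 2 + 2 * (x + y) * z + 2 * c * d ∧
        2 * Real.pi * a ≤ Real.pi * (y ^ 2 - B ^ 2) + (x + B) ^ 2 + 2 * (x + y) * z + 2 * c * d ∧
        2 * Real.pi * a ≤ (x + G) ^ 2 + (y + G) ^ 2 + 2 * (x + y) * z + 2 * c * d := by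
    intro d hd h4
    obtain ⟨K, hK⟩ := h d hd
    have hK1 : (0 : ℝ) < 1 + K := by positivity
    have hth : (0 : ℝ) < d / (1 + K) := by positivity
    have e2 : (K : ℝ) * (d / (1 + K)) ≤ d := by
      have : (K : ℝ) * (d / (1 + K)) = d - d / (1 + K) := by
        field_simp
        ring
      linarith
    obtain ⟨x, y, z, G, A, B, h1, h2, h3, h5, h6, h7, h8, h9, h10, k1, k2, k3⟩ :=
      hK (d / (1 + K)) hth (by nlinarith)
    have e3 : c * (d + K * (d / (1 + K))) ≤ 2 * c * d := by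
      have := mul_le_mul_of_nonneg_left e2 hc
      linarith
    exact ⟨x, y, z, G, A, B, h1, h2, h3, h5, h6, h7, h8, by linarith, by linarith, by linarith,
      by linarith, by linarith⟩
  have hd0 : 0 < (2 * Real.pi - l) / 8 := by linarith
  have hl0 : 0 ≤ l := by
    obtain ⟨x, y, z, G, A, B, h1, h2, h3, h5, h6, -⟩ := key ((2 * Real.pi - l) / 8) hd0 (by linarith)
    linarith
  refine le_of_forall_pos_le_add fun ε hε => ?_
  -- choose the error `e`
  obtain ⟨e, he, he1, he2, he3⟩ : ∃ e : ℝ, 0 < e ∧ e ≤ 1 ∧ e ≤ (2 * Real.pi - l) / 8 ∧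
      (13 * l + 6) * e ≤ ε := by
    refine ⟨min (min 1 ((2 * Real.pi - l) / 8)) (ε / (13 * l + 6)),
      lt_min (lt_min one_pos hd0) (by positivity),
      (min_le_left _ _).trans (min_le_left _ _), (min_le_left _ _).trans (min_le_right _ _), ?_⟩
    have h1 : 0 < 13 * l + 6 := by positivity
    have h3 := mul_le_mul_of_nonneg_left (min_le_right (min 1 ((2 * Real.pi - l) / 8))
      (ε / (13 * l + 6))) h1.le
    have h4 : (13 * l + 6) * (ε / (13 * l + 6)) = ε := by field_simp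
    linarith
  have h200 : 1 ≤ 2 * c + 1 := by linarith
  have hd : 0 < e / (2 * c + 1) := by positivity
  have hde : e / (2 * c + 1) ≤ e := div_le_self he.le h200
  have hdd : 2 * c * (e / (2 * c + 1)) ≤ e := by
    have : 2 * c * (e / (2 * c + 1)) = e - e / (2 * c + 1) := by
      field_simp
      ring
    linarith
  obtain ⟨x, y, z, G, A, B, h1, h2, h3, h5, h6, h7, h8, h9, h10, k1, k2, k3⟩ :=
    key (e / (2 * c + 1)) hd (by linarith)
  have hle : 0 ≤ l * e := by positivity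
  have := I57N.num_err (e := e) (l := l) (m := 2 * Real.pi * a) (x := x) (y := y) (z := z) (G := G)
    (A := A) (B := B) he.le (h3.trans h5) (h3.trans h6) h2 h3 (h3.trans h7) (h3.trans h8) h1
    (by linarith) (by linarith) (by linarith) (by linarith) h5 h6 (by linarith) (by linarith)
    (by linarith)
  have h11 : (13 * l + 5 * e + 1) * e ≤ (13 * l + 6) * e :=
    mul_le_mul_of_nonneg_right (by linarith) he.le
  linarith

end Pool.Agent.FPM
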