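import Mathlib
import Pool.Agent.FPM.I57B
import Pool.Agent.FPX.S7B

/-
FPM/I58B (helper56): the layer of the collapse onto the curve with a cheaper metric (ISO58). In the layer
the tangential slope of the potentials is at most `X = (1 - l) + l |s_τ|`, the normal slope at most
`Y = 1 + D |dv| / δ`; the metric `2 X² g + (p, q) ⊗ (p, q)` with `(p, q)` parallel to `dv` and of square
`2 Y² - 2 X²` has area `2 X Y`.
-/

set_option autoImplicit false

open Set Filter Topology MeasureTheory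
open scoped NNReal

noncomputable section

namespace Pool.Agent.FPM

open Pool.Agent.EWD Pool.Agent.FPX

/-- a covector in the frame of the metric -/
theorem Dn_frame {α r n1 n2 x y : ℝ} (hα : 0 < α) (hn : n1 ^ 2 + n2 ^ 2 = 1)
    (h : (n1 * y - n2 * x) ^ 2 / α + (n1 * x + n2 * y) ^ 2 / (α + r ^ 2) ≤ 1) :
    Dn α (r * n1) (r * n2) x y := by
  set c : ℝ := n1 * x + n2 * y with hc
  set t : ℝ := n1 * y - n2 * x with ht
  have hx : x = c * n1 - t * n2 := by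
    rw [hc, ht]
    linear_combination (-x) * hn
  have hy : y = c * n2 + t * n1 := by
    rw [hc, ht]
    linear_combination (-y) * hn
  have hβ : 0 < α + r ^ 2 := by positivity
  set q : ℝ := c * α / (α + r ^ 2) with hq
  have hq' : q = c - c * r / (α + r ^ 2) * r := by
    rw [hq]
    field_simp
    ring
  have hsum : (q ^ 2 + t ^ 2) / α + (c * r / (α + r ^ 2)) ^ 2 = t ^ 2 / α + c ^ 2 / (α + r ^ 2) := by
    rw [hq]
    field_simp
    ring
  have hρ0 : 0 ≤ q ^ 2 + t ^ 2 := by positivity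
  rcases hρ0.eq_or_lt with h0 | h0
  · have hq0 : q = 0 := by nlinarith [sq_nonneg q, sq_nonneg t]
    have ht0 : t = 0 := by nlinarith [sq_nonneg q, sq_nonneg t]
    refine ⟨0, c * r / (α + r ^ 2), 0, 0, ?_, ?_, by norm_num, ?_⟩
    · rw [hx, ht0]
      have e : c = c * r / (α + r ^ 2) * r := by linarith
      linear_combination n1 * e
    · rw [hy, ht0]
      have e : c = c * r / (α + r ^ 2) * r := by linarith
      linear_combination n2 * e
    · have h2 : (0 : ℝ) ^ 2 / α = (q ^ 2 + t ^ 2) / α := by rw [← h0]; norm_num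
      rw [h2, hsum]
      exact h
  · set ρ : ℝ := √(q ^ 2 + t ^ 2) with hρ
    have hρp : 0 < ρ := Real.sqrt_pos.2 h0
    have hρ2 : ρ ^ 2 = q ^ 2 + t ^ 2 := Real.sq_sqrt hρ0
    refine ⟨ρ, c * r / (α + r ^ 2), (q * n1 - t * n2) / ρ, (q * n2 + t * n1) / ρ, ?_, ?_, ?_, ?_⟩
    · rw [mul_div_cancel₀ _ hρp.ne', hx, hq']
      ring
    · rw [mul_div_cancel₀ _ hρp.ne', hy, hq']
      ring
    · have e : ((q * n1 - t * n2) / ρ) ^ 2 + ((q * n2 + t * n1) / ρ) ^ 2 =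
          ((q ^ 2 + t ^ 2) * (n1 ^ 2 + n2 ^ 2)) / ρ ^ 2 := by
        rw [div_pow, div_pow]
        ring
      rw [e, hn, mul_one, hρ2, div_self h0.ne']
    · rw [hρ2, hsum]
      exact h

/-- the tangential slope -/
def x58 (l κ g w : ℝ) : ℝ := 1 - l * (1 - κ) * ((g - w) / g)

/-- the normal slope -/
def y58 (D δ g : ℝ) : ℝ := 1 + D * g / δ

/-- the vector of the metric -/
def p58 (X Y g gv : ℝ) : ℝ := √(2 * Y ^ 2 - 2 * X ^ 2) * (gv / g)

theorem r58 {g w : ℝ} (h0 : 0 ≤ w) (h1 : w ≤ g) : 0 ≤ (g - w) / g ∧ (g - w) / g ≤ 1 := by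
  have hg : 0 ≤ g := h0.trans h1
  refine ⟨div_nonneg (by linarith) hg, ?_⟩
  exact div_le_one_of_le₀ (by linarith) hg

theorem x58_le {l κ g w : ℝ} (hl0 : 0 ≤ l) (hκ1 : κ ≤ 1) (h0 : 0 ≤ w) (h1 : w ≤ g) : x58 l κ g w ≤ 1 := by
  have h := (r58 h0 h1).1
  have h2 : 0 ≤ l * (1 - κ) * ((g - w) / g) := mul_nonneg (mul_nonneg hl0 (by linarith)) h
  unfold x58
  linarith

theorem x58_ge {l κ g w : ℝ} (hl1 : l ≤ 1) (hκ1 : κ ≤ 1) (h0 : 0 ≤ w)
    (h1 : w ≤ g) : κ ≤ x58 l κ g w := by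
  obtain ⟨h2, h3⟩ := r58 h0 h1
  have h4 : l * (1 - κ) * ((g - w) / g) ≤ 1 * (1 - κ) * 1 :=
    mul_le_mul (mul_le_mul_of_nonneg_right hl1 (by linarith)) h3 h2 (by linarith)
  unfold x58
  linarith

theorem y58_ge {D δ g : ℝ} (hD : 0 ≤ D) (hδ : 0 < δ) (hg : 0 ≤ g) : 1 ≤ y58 D δ g := by
  unfold y58
  have : 0 ≤ D * g / δ := by positivity
  linarith

/-- the potentials in the layer -/
theorem layer58 {l κ D δ e px py sx sy vx vy Y1 g w : ℝ} (hl0 : 0 ≤ l) (hl1 : l ≤ 1) (hκ : 0 < κ)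
    (hκ1 : κ ≤ 1) (hδ : 0 < δ) (hD : 0 ≤ D) (he : |e| ≤ D) (hp : px ^ 2 + py ^ 2 ≤ 1)
    (hs : sx ^ 2 + sy ^ 2 ≤ 1) (hY1 : |Y1| ≤ 1) (hg : g = √(vx ^ 2 + vy ^ 2))
    (hw : w = |sx * vy - sy * vx|) :
    Dn (2 * x58 l κ g w ^ 2) (p58 (x58 l κ g w) (y58 D δ g) g vx) (p58 (x58 l κ g w) (y58 D δ g) g vy)
      ((1 - l) * px + l * (Y1 * sx) + e * (vx / δ)) ((1 - l) * py + l * (Y1 * sy) + e * (vy / δ)) := by
  have hg0 : 0 ≤ g := by
    rw [hg]
    exact Real.sqrt_nonneg _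
  have hg2 : g ^ 2 = vx ^ 2 + vy ^ 2 := by
    rw [hg, Real.sq_sqrt (by positivity)]
  have hw0 : 0 ≤ w := by
    rw [hw]
    exact abs_nonneg _
  have hY1' : Y1 ^ 2 ≤ 1 := by
    rw [← sq_abs]
    exact pow_le_one₀ (abs_nonneg _) hY1
  -- Cauchy-Schwarz
  have hwg : w ≤ g := by
    rw [hg, hw]
    refine Real.le_sqrt_of_sq_le ?_
    rw [sq_abs]
    nlinarith [sq_nonneg (sx * vx + sy * vy), mul_le_mul_of_nonneg_right hs (add_nonneg (sq_nonneg vx) (sq_nonneg vy))]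
  have hX1 := x58_le (κ := κ) hl0 hκ1 hw0 hwg
  have hX0 := x58_ge hl1 hκ1 hw0 hwg
  have hXp : 0 < x58 l κ g w := hκ.trans_le hX0
  have hY := y58_ge hD hδ hg0
  have hab : ∀ n1 n2 x y : ℝ, n1 ^ 2 + n2 ^ 2 = 1 → x ^ 2 + y ^ 2 ≤ 1 → |n1 * y - n2 * x| ≤ 1 ∧
      |n1 * x + n2 * y| ≤ 1 := by
    intro n1 n2 x y h1 h2
    have e1 : (n1 * y - n2 * x) ^ 2 + (n1 * x + n2 * y) ^ 2 = (n1 ^ 2 + n2 ^ 2) * (x ^ 2 + y ^ 2) := by
      ring
    rw [h1, one_mul] at e1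
    constructor
    · exact (sq_le_one_iff_abs_le_one _).1 (by nlinarith [sq_nonneg (n1 * x + n2 * y)])
    · exact (sq_le_one_iff_abs_le_one _).1 (by nlinarith [sq_nonneg (n1 * y - n2 * x)])
  rcases hg0.eq_or_lt with h0 | h0
  · -- the gradient vanishes
    have hvx : vx = 0 := by nlinarith [sq_nonneg vx, sq_nonneg vy]
    have hvy : vy = 0 := by nlinarith [sq_nonneg vx, sq_nonneg vy]
    have hX : x58 l κ g w = 1 := by
      unfold x58
      rw [← h0, div_zero, mul_zero, sub_zero]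
    have hv2 : (Y1 * sx) ^ 2 + (Y1 * sy) ^ 2 ≤ 1 := by
      have e : (Y1 * sx) ^ 2 + (Y1 * sy) ^ 2 = Y1 ^ 2 * (sx ^ 2 + sy ^ 2) := by ring
      rw [e]
      exact mul_le_one₀ hY1' (by positivity) hs
    rw [hX]
    refine ⟨1, 0, _, _, ?_, ?_, conv2 hl0 hl1 hp hv2, by norm_num⟩
    · rw [hvx]
      ring
    · rw [hvy]
      ring
  · -- the frame
    have hgne : g ≠ 0 := h0.ne'
    set n1 : ℝ := vx / g with hn1
    set n2 : ℝ := vy / g with hn2
    have hn : n1 ^ 2 + n2 ^ 2 = 1 := by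
      rw [hn1, hn2, div_pow, div_pow, ← add_div, ← hg2, div_self (by positivity)]
    have evx : vx = g * n1 := by
      rw [hn1]
      field_simp
    have evy : vy = g * n2 := by
      rw [hn2]
      field_simp
    obtain ⟨f1, f2⟩ := hab n1 n2 px py hn hp
    obtain ⟨f3, f4⟩ := hab n1 n2 sx sy hn hs
    have hws : |n1 * sy - n2 * sx| = w / g := by
      have e : sx * vy - sy * vx = -(g * (n1 * sy - n2 * sx)) := by
        rw [evx, evy]
        ring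
      rw [hw, e, abs_neg, abs_mul, abs_of_pos h0]
      field_simp
    have hXe : x58 l κ g w = (1 - l) + l * (κ + (1 - κ) * (w / g)) := by
      unfold x58
      field_simp
      ring
    have hwg1 : w / g ≤ 1 := (div_le_one h0).2 hwg
    have hwg0 : 0 ≤ w / g := by positivity
    have hXw : (1 - l) + l * (w / g) ≤ x58 l κ g w := by
      rw [hXe]
      have : w / g ≤ κ + (1 - κ) * (w / g) := by nlinarith
      have := mul_le_mul_of_nonneg_left this hl0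
      linarith
    set X := x58 l κ g w with hXd
    set Y := y58 D δ g with hYd
    have hr : √(2 * Y ^ 2 - 2 * X ^ 2) ^ 2 = 2 * Y ^ 2 - 2 * X ^ 2 := by
      refine Real.sq_sqrt ?_
      have : X ^ 2 ≤ Y ^ 2 := pow_le_pow_left₀ hXp.le (by linarith) 2
      linarith
    refine Dn_frame (by positivity) hn ?_
    rw [hr]
    set x := (1 - l) * px + l * (Y1 * sx) + e * (vx / δ) with hx
    set y := (1 - l) * py + l * (Y1 * sy) + e * (vy / δ) with hy
    have et : n1 * y - n2 * x = (1 - l) * (n1 * py - n2 * px) + l * Y1 * (n1 * sy - n2 * sx) := by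
      rw [hx, hy, evx, evy]
      ring
    have en : n1 * x + n2 * y = (1 - l) * (n1 * px + n2 * py) + l * Y1 * (n1 * sx + n2 * sy) + e * g / δ := by
      rw [hx, hy, evx, evy]
      linear_combination (e * g / δ) * hn
    have ht : |n1 * y - n2 * x| ≤ X := by
      rw [et]
      refine (abs_add_le _ _).trans ?_
      rw [abs_mul, abs_mul, abs_mul, abs_of_nonneg hl0, abs_of_nonneg (by linarith : 0 ≤ 1 - l), hws]
      have h1 : (1 - l) * |n1 * py - n2 * px| ≤ (1 - l) * 1 :=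
        mul_le_mul_of_nonneg_left f1 (by linarith)
      have h2 : l * |Y1| * (w / g) ≤ l * 1 * (w / g) :=
        mul_le_mul_of_nonneg_right (mul_le_mul_of_nonneg_left hY1 hl0) hwg0
      linarith
    have hnn : |n1 * x + n2 * y| ≤ Y := by
      rw [en]
      refine (abs_add_le _ _).trans ?_
      have h3 : |e * g / δ| ≤ D * g / δ := by
        rw [abs_div, abs_mul, abs_of_pos h0, abs_of_pos hδ]
        exact div_le_div_of_nonneg_right (mul_le_mul_of_nonneg_right he h0.le) hδ.le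
      have h4 : |(1 - l) * (n1 * px + n2 * py) + l * Y1 * (n1 * sx + n2 * sy)| ≤ 1 := by
        refine (abs_add_le _ _).trans ?_
        rw [abs_mul, abs_mul, abs_mul, abs_of_nonneg hl0, abs_of_nonneg (by linarith : 0 ≤ 1 - l)]
        have h1 : (1 - l) * |n1 * px + n2 * py| ≤ (1 - l) * 1 :=
          mul_le_mul_of_nonneg_left f2 (by linarith)
        have h2 : l * |Y1| * |n1 * sx + n2 * sy| ≤ l * 1 * 1 :=
          mul_le_mul (mul_le_mul_of_nonneg_left hY1 hl0) f4 (abs_nonneg _) (by linarith)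
        linarith
      rw [hYd]
      unfold y58
      linarith
    have hYp : 0 < Y := by linarith
    have g1 : (n1 * y - n2 * x) ^ 2 / (2 * X ^ 2) ≤ 1 / 2 := by
      rw [div_le_div_iff₀ (by positivity) (by norm_num)]
      have : (n1 * y - n2 * x) ^ 2 ≤ X ^ 2 := sq_le_sq' (by linarith [(abs_le.1 ht).1]) (abs_le.1 ht).2
      linarith
    have g2 : (n1 * x + n2 * y) ^ 2 / (2 * X ^ 2 + (2 * Y ^ 2 - 2 * X ^ 2)) ≤ 1 / 2 := by
      have e2 : 2 * X ^ 2 + (2 * Y ^ 2 - 2 * X ^ 2) = 2 * Y ^ 2 := by ring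
      rw [e2, div_le_div_iff₀ (by positivity) (by norm_num)]
      have : (n1 * x + n2 * y) ^ 2 ≤ Y ^ 2 := sq_le_sq' (by linarith [(abs_le.1 hnn).1]) (abs_le.1 hnn).2
      linarith
    linarith

/-- the size of the vector -/
theorem p58_sq {X Y g vx vy : ℝ} (hX : 0 ≤ X) (hXY : X ≤ Y) (hg : g = √(vx ^ 2 + vy ^ 2)) (h0 : 0 < g) :
    p58 X Y g vx ^ 2 + p58 X Y g vy ^ 2 = 2 * Y ^ 2 - 2 * X ^ 2 := by
  have hg2 : g ^ 2 = vx ^ 2 + vy ^ 2 := by
    rw [hg, Real.sq_sqrt (by positivity)]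
  have hr : √(2 * Y ^ 2 - 2 * X ^ 2) ^ 2 = 2 * Y ^ 2 - 2 * X ^ 2 := by
    refine Real.sq_sqrt ?_
    have : X ^ 2 ≤ Y ^ 2 := pow_le_pow_left₀ hX hXY 2
    linarith
  have e : p58 X Y g vx ^ 2 + p58 X Y g vy ^ 2 = √(2 * Y ^ 2 - 2 * X ^ 2) ^ 2 * ((vx ^ 2 + vy ^ 2) / g ^ 2) := by
    unfold p58
    rw [mul_pow, mul_pow, div_pow, div_pow]
    ring
  rw [e, hr, ← hg2, div_self (by positivity), mul_one]

/-- the area of the metric in the layer -/
theorem area58 {l κ D δ vx vy g w : ℝ} (hl0 : 0 ≤ l) (hl1 : l ≤ 1) (hκ : 0 < κ)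
    (hκ1 : κ ≤ 1) (hδ : 0 < δ) (hD : 0 ≤ D) (hg : g = √(vx ^ 2 + vy ^ 2)) (hw0 : 0 ≤ w) (hwg : w ≤ g) :
    √(2 * x58 l κ g w ^ 2) * sS (2 * x58 l κ g w ^ 2) (p58 (x58 l κ g w) (y58 D δ g) g vx)
        (p58 (x58 l κ g w) (y58 D δ g) g vy) ≤
      2 + 2 / δ * (D * ((1 - l) * g + l * w)) + κ * (2 * D / δ * g) ∧
    √(p58 (x58 l κ g w) (y58 D δ g) g vx ^ 2 + p58 (x58 l κ g w) (y58 D δ g) g vy ^ 2) ≤
      2 + 2 * D / δ * g := by
  have hg0 : 0 ≤ g := by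
    rw [hg]
    exact Real.sqrt_nonneg _
  have hX1 := x58_le (κ := κ) hl0 hκ1 hw0 hwg
  have hX0 := x58_ge hl1 hκ1 hw0 hwg
  have hXp : 0 < x58 l κ g w := hκ.trans_le hX0
  have hY := y58_ge hD hδ hg0
  have hDg : 0 ≤ D * g / δ := by positivity
  have s2 : √2 * √2 = (2 : ℝ) := Real.mul_self_sqrt zero_le_two
  have s1 : (0 : ℝ) ≤ √2 := Real.sqrt_nonneg _
  have s3 : √2 ≤ (2 : ℝ) := by nlinarith [Real.one_lt_sqrt_two]
  have n1 : 0 ≤ 2 / δ * (D * ((1 - l) * g + l * w)) := by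
    have : 0 ≤ (1 - l) * g + l * w := add_nonneg (mul_nonneg (by linarith) hg0) (mul_nonneg hl0 hw0)
    positivity
  have n2 : 0 ≤ κ * (2 * D / δ * g) := by positivity
  have n3 : 0 ≤ 2 * D / δ * g := by positivity
  rcases hg0.eq_or_lt with h0 | h0
  · have hX : x58 l κ g w = 1 := by
      unfold x58
      rw [← h0, div_zero, mul_zero, sub_zero]
    have e1 : ∀ z : ℝ, p58 (x58 l κ g w) (y58 D δ g) g z = 0 := by
      intro z
      unfold p58
      rw [← h0, div_zero, mul_zero]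
    rw [e1, e1, hX]
    unfold sS
    constructor
    · have e2 : (2 : ℝ) * 1 ^ 2 + (0 ^ 2 + 0 ^ 2) = 2 := by norm_num
      have e3 : (2 : ℝ) * 1 ^ 2 = 2 := by norm_num
      rw [e2, e3, s2]
      linarith
    · have e2 : (0 : ℝ) ^ 2 + 0 ^ 2 = 0 := by norm_num
      rw [e2, Real.sqrt_zero]
      linarith
  · have hsq := p58_sq (vx := vx) (vy := vy) hXp.le (by linarith) hg h0 (Y := y58 D δ g)
    have hXg : x58 l κ g w * g ≤ (1 - l) * g + l * w + κ * g := by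
      have e : x58 l κ g w * g = (1 - l) * g + l * (κ * g + (1 - κ) * w) := by
        unfold x58
        field_simp
        ring
      rw [e]
      have h1 : l * (κ * g + (1 - κ) * w) ≤ l * w + κ * g := by
        have h2 : l * (κ * g) ≤ 1 * (κ * g) := mul_le_mul_of_nonneg_right hl1 (by positivity)
        have h3 : (1 - κ) * w ≤ w := by nlinarith
        have h4 := mul_le_mul_of_nonneg_left h3 hl0
        linarith
      linarith
    set X := x58 l κ g w with hXd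
    set Y := y58 D δ g with hYd
    have hYp : 0 < Y := by linarith
    constructor
    · unfold sS
      rw [hsq]
      have e1 : 2 * X ^ 2 + (2 * Y ^ 2 - 2 * X ^ 2) = 2 * Y ^ 2 := by ring
      rw [e1, Real.sqrt_mul zero_le_two, Real.sqrt_mul zero_le_two, Real.sqrt_sq hXp.le,
        Real.sqrt_sq hYp.le]
      have e2 : √2 * X * (√2 * Y) = 2 * X + 2 / δ * (D * (X * g)) := by
        have e3 : √2 * X * (√2 * Y) = (√2 * √2) * (X * Y) := by ring
        rw [e3, s2, hYd]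
        unfold y58
        field_simp
      rw [e2]
      have h5 : 2 / δ * (D * (X * g)) ≤ 2 / δ * (D * ((1 - l) * g + l * w + κ * g)) :=
        mul_le_mul_of_nonneg_left (mul_le_mul_of_nonneg_left hXg hD) (by positivity)
      have e4 : 2 / δ * (D * ((1 - l) * g + l * w + κ * g)) =
          2 / δ * (D * ((1 - l) * g + l * w)) + κ * (2 * D / δ * g) := by
        ring
      linarith
    · rw [hsq]
      have h6 : √(2 * Y ^ 2 - 2 * X ^ 2) ≤ √(2 * Y ^ 2) := Real.sqrt_le_sqrt (by nlinarith [sq_nonneg X])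
      rw [Real.sqrt_mul zero_le_two, Real.sqrt_sq hYp.le] at h6
      have h7 : √2 * Y ≤ 2 * Y := mul_le_mul_of_nonneg_right s3 hYp.le
      have h8 : 2 * Y = 2 + 2 * D / δ * g := by
        rw [hYd]
        unfold y58
        field_simp
      linarith

theorem bnd_mid58 {δ r : ℝ} (hδ : 0 < δ) (h0 : 0 ≤ r) (h1 : r ≤ δ) : bnd 0 δ r = r / δ := by
  unfold bnd
  rw [sub_zero, sub_zero, min_eq_right ((div_le_one hδ).2 h1), max_eq_right (div_nonneg h0 hδ.le)]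

variable {M : Type} [MetricSpace M] {γ : ℝ → M}

/-- the gradient of the collapse potential -/
theorem cF_grad58 (C : Calc M γ) {v w sf ψ dl : M → ℝ} {T δ t₀ : ℝ} (hδ : 0 < δ) (hv : Lip v) (hw : Lip w)
    (hsf : LipschitzWith 1 sf) (hs : ∀ x, sf x ∈ Icc T (T + Real.pi)) (ht₀ : t₀ ∈ Icc T (T + Real.pi))
    (hψ : Lip ψ) (hψb : ∀ x, |ψ x| ≤ Real.pi / 2) (hwv : ∀ x, w x ≤ max (v x) 0) {κ : ℝ} (hκ : 0 < κ)
    (hκ1 : κ ≤ 1) :
    ∀ᵐ o ∂C.μ,
      0 < v (C.pt o) → v (C.pt o) < δ → C.gx ψ o ^ 2 + C.gy ψ o ^ 2 ≤ 1 →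
        |ψ (C.pt o) - chi t₀ (sf (C.pt o))| ≤ dl (C.pt o) → 0 < dl (C.pt o) →
        Dn (2 * x58 (bnd 0 δ (v (C.pt o))) κ (gn C v o) |C.wed sf v o| ^ 2)
          (p58 (x58 (bnd 0 δ (v (C.pt o))) κ (gn C v o) |C.wed sf v o|)
            (y58 (dl (C.pt o)) δ (gn C v o)) (gn C v o) (C.gx v o))
          (p58 (x58 (bnd 0 δ (v (C.pt o))) κ (gn C v o) |C.wed sf v o|)
            (y58 (dl (C.pt o)) δ (gn C v o)) (gn C v o) (C.gy v o))
          (C.gx (cF v w sf ψ T δ t₀) o) (C.gy (cF v w sf ψ T δ t₀) o) := by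
  have hpi := Real.pi_pos
  have hsL : Lip sf := ⟨1, hsf⟩
  obtain ⟨Λ, hΛ⟩ := id hψ
  obtain ⟨L, hL⟩ := cF_lip (T := T) hδ hv hw hsL hs Λ
  have hF : Lip (cF v w sf ψ T δ t₀) := ⟨L, hL t₀ ht₀ ψ hΛ hψb⟩
  obtain ⟨lc1, hc1⟩ := chi_comp C hsL t₀
  -- the function in the layer
  have lb : Lip (fun x => bnd 0 δ (v x)) := lip_bnd hv hδ
  have ld : Lip (fun x => chi t₀ (sf x) - ψ x) := lc1.sub hψ
  have hprod : Lip (fun x => bnd 0 δ (v x) * (chi t₀ (sf x) - ψ x)) := by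
    obtain ⟨K1, h1⟩ := lb
    obtain ⟨K2, h2⟩ := ld
    refine ⟨_, lip_mul_bd (A := 1) (B := Real.pi) zero_le_one hpi.le h1 h2 (fun x => bnd_abs _ _ _)
      fun x => ?_⟩
    have h3 := chi_bd ht₀ (hs x)
    have h4 := hψb x
    refine (abs_sub _ _).trans ?_
    linarith
  have lG : Lip (fun x => ψ x + bnd 0 δ (v x) * (chi t₀ (sf x) - ψ x)) := hψ.add hprod
  have hsg : ∀ᵐ o ∂C.μ, C.gx sf o ^ 2 + C.gy sf o ^ 2 ≤ 1 := by
    filter_upwards [C.ae_grad_le hsf] with o ho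
    rwa [NNReal.coe_one, one_pow] at ho
  filter_upwards [loc_eq C hF lG, C.ae_add hψ hprod, C.ae_mul lb ld, C.ae_sub lc1 hψ,
    ae_grad_bnd C hv hδ, hc1, hsg] with o h1 h4 h5 h6 h7 h8 h10
  obtain ⟨Y1, hY1, hx1, hy1⟩ := h8
  have hwv' := hwv (C.pt o)
  intro a1 a2 a3 a4 a5
  have hw1 : w (C.pt o) < δ := by
    rw [max_eq_left a1.le] at hwv'
    linarith
  have e0 : cF v w sf ψ T δ t₀ (C.pt o) =
      ψ (C.pt o) + bnd 0 δ (v (C.pt o)) * (chi t₀ (sf (C.pt o)) - ψ (C.pt o)) := by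
    unfold cF
    rw [bnd_lo (by linarith : δ < 2 * δ) hw1.le, bnd_lo (by linarith : 2 * δ < 3 * δ) (by linarith)]
    have e : (1 - 0) * sf (C.pt o) + 0 * T = sf (C.pt o) := by ring
    rw [e]
    ring
  obtain ⟨k1, k2⟩ := h1 e0
  obtain ⟨k3, k4⟩ := h7.1 a1 a2
  rw [sub_zero] at k3 k4
  have kx : C.gx (cF v w sf ψ T δ t₀) o = (1 - bnd 0 δ (v (C.pt o))) * C.gx ψ o +
      bnd 0 δ (v (C.pt o)) * (Y1 * C.gx sf o) + (chi t₀ (sf (C.pt o)) - ψ (C.pt o)) * (C.gx v o / δ) := by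
    rw [k1, h4.1, h5.1, h6.1, k3, hx1]
    ring
  have ky : C.gy (cF v w sf ψ T δ t₀) o = (1 - bnd 0 δ (v (C.pt o))) * C.gy ψ o +
      bnd 0 δ (v (C.pt o)) * (Y1 * C.gy sf o) + (chi t₀ (sf (C.pt o)) - ψ (C.pt o)) * (C.gy v o / δ) := by
    rw [k2, h4.2, h5.2, h6.2, k4, hy1]
    ring
  rw [kx, ky]
  rw [abs_sub_comm] at a4
  exact layer58 (bnd_nonneg _ _ _) (bnd_le_one _ _ _) hκ hκ1 hδ a5.le a4 a3 h10 hY1 rfl rfl

end Pool.Agent.FPM
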