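import Mathlib
import Pool.Agent.FPM.I57YC

/-
I58C (helper42): the collar of a chart with the weights `1 - v / δ` and `v / δ`.
-/

set_option autoImplicit false

open MeasureTheory Set Filter Topology
open scoped ENNReal NNReal

noncomputable section

namespace Pool.Agent.FPM

open Pool.Agent.EWD Pool.Agent.FPX

/-- the integral of the masses below the levels -/
theorem lay58c {Ω : Type} [MeasurableSpace Ω] {μ : Measure Ω} [IsFiniteMeasure μ] {u h : Ω → ℝ}
    (hu : AEMeasurable u μ) (hh : Integrable h μ) {δ : ℝ} (hδ : 0 ≤ δ) :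
    ∫ r in (0:ℝ)..δ, (∫ o, {o | u o < r}.indicator h o ∂μ) = ∫ o, max 0 (δ - max 0 (u o)) * h o ∂μ := by
  rw [intervalIntegral.integral_of_le hδ]
  have hm : NullMeasurableSet {z : Ω × ℝ | u z.1 < z.2} (μ.prod (volume.restrict (Ioc 0 δ))) :=
    nullMeasurableSet_lt (hu.comp_quasiMeasurePreserving Measure.quasiMeasurePreserving_fst)
      measurable_snd.aemeasurable
  have hint : Integrable (Function.uncurry fun (o : Ω) (r : ℝ) => {o | u o < r}.indicator h o)
      (μ.prod (volume.restrict (Ioc 0 δ))) := by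
    have h1 := (hh.comp_fst (volume.restrict (Ioc 0 δ))).indicator₀ hm
    refine h1.congr (Eventually.of_forall fun z => ?_)
    obtain ⟨o, r⟩ := z
    simp only [Function.uncurry, indicator, Set.mem_ofPred_eq]
  rw [← integral_integral_swap hint]
  refine integral_congr_ae (Eventually.of_forall fun o => ?_)
  simp only
  have e1 : (fun r => {o | u o < r}.indicator h o) = (Ioi (u o)).indicator fun _ => h o := by
    funext r
    simp only [indicator, Set.mem_ofPred_eq, mem_Ioi]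
  rw [e1, integral_indicator measurableSet_Ioi, setIntegral_const, smul_eq_mul]
  congr 1
  rw [measureReal_def, Measure.restrict_apply measurableSet_Ioi]
  have e2 : Ioi (u o) ∩ Ioc 0 δ = Ioc (max 0 (u o)) δ := by
    ext r
    simp only [mem_inter_iff, mem_Ioi, mem_Ioc, max_lt_iff]
    tauto
  rw [e2, Real.volume_Ioc, ENNReal.toReal_ofReal']
  exact max_comm _ _

/-- the average of a monotone function near a point where it is differentiable -/
theorem avg58c {m : ℝ → ℝ} (hm : Monotone m) {F t : ℝ} (h : HasDerivAt m F t) {ζ : ℝ} (hζ : 0 < ζ) :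
    ∀ᶠ δ in 𝓝[>] (0:ℝ), |m (t + δ) - m t - F * δ| ≤ ζ * δ ∧
      |(∫ r in (0:ℝ)..δ, m (t + r)) - δ * m t - F * δ ^ 2 / 2| ≤ ζ * δ ^ 2 / 2 := by
  have h1 := h.tendsto_slope_zero_right
  have h2 : ∀ᶠ δ in 𝓝[>] (0:ℝ), |m (t + δ) - m t - F * δ| ≤ ζ * δ := by
    have h3 := h1.eventually (Metric.ball_mem_nhds F hζ)
    filter_upwards [h3, self_mem_nhdsWithin] with δ h4 h5
    have h5 : (0:ℝ) < δ := h5
    rw [Real.dist_eq, smul_eq_mul] at h4
    have e : m (t + δ) - m t - F * δ = δ * (δ⁻¹ * (m (t + δ) - m t) - F) := by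
      field_simp
    rw [e, abs_mul, abs_of_pos h5]
    nlinarith [abs_nonneg (δ⁻¹ * (m (t + δ) - m t) - F)]
  obtain ⟨d, hd, hd'⟩ := (mem_nhdsGT_iff_exists_Ioo_subset).1 h2
  have hd : (0:ℝ) < d := hd
  filter_upwards [Ioo_mem_nhdsGT hd] with δ hδ
  refine ⟨hd' hδ, ?_⟩
  have key : ∀ r ∈ Icc (0:ℝ) δ, |m (t + r) - m t - F * r| ≤ ζ * r := by
    intro r hr
    rcases hr.1.eq_or_lt with h0 | h0
    · rw [← h0]
      simp
    · exact hd' ⟨h0, hr.2.trans_lt hδ.2⟩
  have i1 : IntervalIntegrable (fun r => m (t + r)) volume 0 δ :=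
    (Monotone.intervalIntegrable fun a b hab => hm (by linarith))
  have i2 : ∀ c : ℝ, IntervalIntegrable (fun r : ℝ => c * r) volume 0 δ := fun c =>
    (continuous_const.mul continuous_id).intervalIntegrable _ _
  have e2 : ∀ c : ℝ, ∫ r in (0:ℝ)..δ, c * r = c * δ ^ 2 / 2 := fun c => by
    rw [intervalIntegral.integral_const_mul, integral_id]
    ring
  have e3 : ∫ r in (0:ℝ)..δ, (m (t + r) - m t) = (∫ r in (0:ℝ)..δ, m (t + r)) - δ * m t := by
    rw [intervalIntegral.integral_sub i1 intervalIntegrable_const, intervalIntegral.integral_const]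
    simp
  have i3 : IntervalIntegrable (fun r => m (t + r) - m t) volume 0 δ := i1.sub intervalIntegrable_const
  have up := intervalIntegral.integral_mono_on hδ.1.le i3 (i2 (F + ζ)) fun r hr => by
    have := (abs_le.1 (key r hr)).2
    linarith
  have lo := intervalIntegral.integral_mono_on hδ.1.le (i2 (F - ζ)) i3 fun r hr => by
    have := (abs_le.1 (key r hr)).1
    linarith
  rw [e2, e3] at up lo
  rw [abs_le]
  constructor <;> linarith

variable {M : Type} [MetricSpace M] {γ : ℝ → M}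

/-- a Lipschitz function times a wedge product is integrable -/
theorem int_lip_wed [CompactSpace M] (C : Calc M γ) {f s g : M → ℝ} (hf : Lip f) (hs : Lip s) (hg : Lip g) :
    Integrable (fun o => f (C.pt o) * |C.wed s g o|) C.μ := by
  have i0 := (integrable_wed (C := C) hs hg).abs
  obtain ⟨K, hK0, hK⟩ := hf.bdd
  refine i0.bdd_mul (c := K) (C.meas_pt hf).aestronglyMeasurable ?_
  exact Eventually.of_forall fun o => by
    rw [Real.norm_eq_abs]
    exact hK _

/-- the integral of the masses in a piece -/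
theorem mz_layer (C : Calc M γ) {g Z : M → ℝ} (hg : Lip g) (hZ : Lip Z) (hZ0 : ∀ x, 0 ≤ Z x)
    (hZ1 : ∀ x, Z x ≤ 1) {H : Om → ℝ} (hH : Integrable H C.μ) (t : ℝ) {δ : ℝ} (hδ : 0 ≤ δ) :
    ∫ r in (0:ℝ)..δ, mz C H g Z (t + r) =
      ∫ o, max 0 (δ - max 0 (g (C.pt o) - t)) * (Z (C.pt o) * H o) ∂C.μ := by
  have := C.fin
  rw [← lay58c ((C.meas_pt hg).sub_const t) (integrable_zH C hZ hZ0 hZ1 hH) hδ]
  refine intervalIntegral.integral_congr fun r _ => ?_
  rw [mz_eq C hg]
  refine integral_congr_ae (Eventually.of_forall fun o => ?_)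
  simp only [indicator, Set.mem_ofPred_eq, sub_lt_iff_lt_add']

/-- the collar of `v` in `U` is at most the collar of `g` at the level `t` -/
theorem st_C58_le [CompactSpace M] (C : Calc M γ) {g v f s : M → ℝ} (hg : Lip g) (hv : Lip v) (hf : Lip f)
    (hs : Lip s) (hf0 : ∀ x, 0 ≤ f x) {t : ℝ} {U : Set M} (hvU : ∀ x ∈ U, 0 < v x → v x = g x - t)
    {Z : M → ℝ} (hZ : Lip Z) (hZ0 : ∀ x, 0 ≤ Z x) (hZ1 : ∀ x, Z x ≤ 1) (hZU : ∀ x ∈ U, Z x = 1)
    {δ : ℝ} (hδ : 0 < δ) :
    ∫ o in {o | 0 < v (C.pt o) ∧ v (C.pt o) < δ ∧ C.pt o ∈ U},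
        f (C.pt o) * ((1 - v (C.pt o) / δ) * gn C v o + v (C.pt o) / δ * |C.wed s v o|) ∂C.μ ≤
      1 / δ * ((∫ r in (0:ℝ)..δ, mz C (fun o => f (C.pt o) * gn C g o) g Z (t + r)) -
          δ * mz C (fun o => f (C.pt o) * gn C g o) g Z t) +
        ((mz C (fun o => f (C.pt o) * |C.wed s g o|) g Z (t + δ) -
            mz C (fun o => f (C.pt o) * |C.wed s g o|) g Z t) -
          1 / δ * ((∫ r in (0:ℝ)..δ, mz C (fun o => f (C.pt o) * |C.wed s g o|) g Z (t + r)) -
            δ * mz C (fun o => f (C.pt o) * |C.wed s g o|) g Z t)) := by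
  have := C.fin
  have lP : Lip (fun x => max (g x - t) 0) := (hg.sub (lip_const t)).max (lip_const 0)
  have mv := C.meas_pt hv
  have mg := C.meas_pt hg
  have mP := C.meas_pt lP
  have mZ := C.meas_pt hZ
  set B : Set Om := {o | (v (C.pt o) = max (g (C.pt o) - t) 0 ∧ Z (C.pt o) = 1) ∧
    (0 < v (C.pt o) ∧ v (C.pt o) < δ)} with hB
  have nB : NullMeasurableSet B C.μ := by
    refine NullMeasurableSet.inter (NullMeasurableSet.inter ?_ ?_) (NullMeasurableSet.inter ?_ ?_)
    · exact nullMeasurableSet_eq_fun mv mP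
    · exact nullMeasurableSet_eq_fun mZ aemeasurable_const
    · exact nullMeasurableSet_lt aemeasurable_const mv
    · exact nullMeasurableSet_lt mv aemeasurable_const
  have lq : Lip (fun x => v x / δ) := by
    have h := hv.const_mul (1 / δ)
    have e : (fun x => v x / δ) = fun x => 1 / δ * v x := by
      funext x
      ring
    rw [e]
    exact h
  have lq1 : Lip (fun x => 1 - v x / δ) := (lip_const 1).sub lq
  have iF : Integrable (fun o => (1 - v (C.pt o) / δ) * gn C v o + v (C.pt o) / δ * |C.wed s v o|) C.μ :=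
    (int_lip_gn C lq1 hv).add (int_lip_wed C lq hs hv)
  have iv : Integrable (fun o => f (C.pt o) *
      ((1 - v (C.pt o) / δ) * gn C v o + v (C.pt o) / δ * |C.wed s v o|)) C.μ := by
    obtain ⟨K, hK0, hK⟩ := hf.bdd
    refine iF.bdd_mul (c := K) (C.meas_pt hf).aestronglyMeasurable ?_
    exact Eventually.of_forall fun o => by
      rw [Real.norm_eq_abs]
      exact hK _
  have ig1 : Integrable (fun o => f (C.pt o) * gn C g o) C.μ := int_lip_gn C hf hg
  have ig2 : Integrable (fun o => f (C.pt o) * |C.wed s g o|) C.μ := int_lip_wed C hf hs hg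
  have iZ1 := integrable_zH C hZ hZ0 hZ1 ig1
  have iZ2 := integrable_zH C hZ hZ0 hZ1 ig2
  -- the weights
  set p : Om → ℝ := fun o => max 0 (δ - max 0 (g (C.pt o) - t)) with hp
  have mp : AEMeasurable p C.μ := by
    have h1 : AEMeasurable (fun o => max 0 (g (C.pt o) - t)) C.μ := aemeasurable_const.max (mg.sub_const t)
    exact aemeasurable_const.max (aemeasurable_const.sub h1)
  have bp : ∀ o, 0 ≤ p o ∧ p o ≤ δ := fun o =>
    ⟨le_max_left _ _, max_le hδ.le (by linarith [le_max_left 0 (g (C.pt o) - t)])⟩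
  have ip : ∀ {H : Om → ℝ}, Integrable H C.μ → Integrable (fun o => p o * H o) C.μ := by
    intro H hH
    refine hH.bdd_mul (c := δ) mp.aestronglyMeasurable ?_
    exact Eventually.of_forall fun o => by
      rw [Real.norm_eq_abs, abs_of_nonneg (bp o).1]
      exact (bp o).2
  have s1 : ∫ o in {o | 0 < v (C.pt o) ∧ v (C.pt o) < δ ∧ C.pt o ∈ U},
      f (C.pt o) * ((1 - v (C.pt o) / δ) * gn C v o + v (C.pt o) / δ * |C.wed s v o|) ∂C.μ ≤
      ∫ o in B, f (C.pt o) * ((1 - v (C.pt o) / δ) * gn C v o + v (C.pt o) / δ * |C.wed s v o|) ∂C.μ := by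
    have hsub : {o | 0 < v (C.pt o) ∧ v (C.pt o) < δ ∧ C.pt o ∈ U} ⊆ B := by
      rintro o ⟨h1, h2, h3⟩
      have h4 := hvU _ h3 h1
      refine ⟨⟨?_, hZU _ h3⟩, h1, h2⟩
      rw [h4] at h1
      rw [h4, max_eq_left h1.le]
    refine setIntegral_mono_set iv.integrableOn ?_ (HasSubset.Subset.eventuallyLE hsub)
    filter_upwards [ae_restrict_mem₀ nB] with o ho
    obtain ⟨-, h5, h6⟩ := ho
    have h7 : 0 ≤ v (C.pt o) / δ := div_nonneg h5.le hδ.le
    have h8 : v (C.pt o) / δ ≤ 1 := (div_le_one hδ).2 h6.le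
    exact mul_nonneg (hf0 _) (add_nonneg (mul_nonneg (by linarith) (gn_nonneg C v o))
      (mul_nonneg h7 (abs_nonneg _)))
  have s2 : ∫ o in B, f (C.pt o) * ((1 - v (C.pt o) / δ) * gn C v o + v (C.pt o) / δ * |C.wed s v o|) ∂C.μ =
      ∫ o, B.indicator (fun o => 1 / δ * (p o * (Z (C.pt o) * (f (C.pt o) * gn C g o))) +
        (Z (C.pt o) * (f (C.pt o) * |C.wed s g o|) -
          1 / δ * (p o * (Z (C.pt o) * (f (C.pt o) * |C.wed s g o|))))) o ∂C.μ := by
    rw [← integral_indicator₀ nB]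
    refine integral_congr_ae ?_
    filter_upwards [loc_eq C hv lP, ae_pos' C hg t] with o h1 h2
    by_cases ho : o ∈ B
    · rw [indicator_of_mem ho, indicator_of_mem ho]
      obtain ⟨⟨h3, h4⟩, h5, h6⟩ := ho
      have h7 := h1 h3
      have h8 : t ≤ g (C.pt o) := by
        rw [h3] at h5
        rcases lt_max_iff.1 h5 with h | h
        · linarith
        · exact absurd h (lt_irrefl 0)
      have h9 := h2.2 h8
      have e : gn C v o = gn C g o := by
        unfold gn
        rw [h7.1, h7.2, h9.1, h9.2]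
      have e' : C.wed s v o = C.wed s g o := by
        unfold Calc.wed
        rw [h7.1, h7.2, h9.1, h9.2]
      have h10 : v (C.pt o) = g (C.pt o) - t := by
        rw [h3, max_eq_left (by linarith)]
      have h11 : p o = δ - v (C.pt o) := by
        simp only [hp]
        rw [← h10, max_eq_right h5.le, max_eq_right (show 0 ≤ δ - v (C.pt o) by linarith)]
      rw [h4, e, e', h11]
      field_simp
      ring
    · rw [indicator_of_notMem ho, indicator_of_notMem ho]
  -- the right hand side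
  have e1 : ∀ {H : Om → ℝ}, Integrable H C.μ → (∫ r in (0:ℝ)..δ, mz C H g Z (t + r)) - δ * mz C H g Z t =
      ∫ o, (p o * (Z (C.pt o) * H o) -
        δ * {o | g (C.pt o) < t}.indicator (fun o => Z (C.pt o) * H o) o) ∂C.μ := by
    intro H hH
    rw [mz_layer C hg hZ hZ0 hZ1 hH t hδ.le, mz_eq C hg, ← integral_const_mul, ← integral_sub]
    · exact ip (integrable_zH C hZ hZ0 hZ1 hH)
    · exact ((integrable_zH C hZ hZ0 hZ1 hH).indicator₀ (meas_pt_lt C hg _)).const_mul δ
  rw [e1 ig1, e1 ig2, mz_eq C hg, mz_eq C hg, ← integral_sub (iZ2.indicator₀ (meas_pt_lt C hg _))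
    (iZ2.indicator₀ (meas_pt_lt C hg _)), ← integral_const_mul, ← integral_const_mul]
  have j1 : Integrable (fun o => 1 / δ * (p o * (Z (C.pt o) * (f (C.pt o) * gn C g o)) -
      δ * {o | g (C.pt o) < t}.indicator (fun o => Z (C.pt o) * (f (C.pt o) * gn C g o)) o)) C.μ :=
    ((ip iZ1).sub ((iZ1.indicator₀ (meas_pt_lt C hg _)).const_mul δ)).const_mul _
  have j2 : Integrable (fun o => 1 / δ * (p o * (Z (C.pt o) * (f (C.pt o) * |C.wed s g o|)) -
      δ * {o | g (C.pt o) < t}.indicator (fun o => Z (C.pt o) * (f (C.pt o) * |C.wed s g o|)) o)) C.μ :=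
    ((ip iZ2).sub ((iZ2.indicator₀ (meas_pt_lt C hg _)).const_mul δ)).const_mul _
  have j3 : Integrable (fun o => {o | g (C.pt o) < t + δ}.indicator
      (fun o => Z (C.pt o) * (f (C.pt o) * |C.wed s g o|)) o -
      {o | g (C.pt o) < t}.indicator (fun o => Z (C.pt o) * (f (C.pt o) * |C.wed s g o|)) o) C.μ :=
    (iZ2.indicator₀ (meas_pt_lt C hg _)).sub (iZ2.indicator₀ (meas_pt_lt C hg _))
  have j4 : Integrable (fun o => ({o | g (C.pt o) < t + δ}.indicator
      (fun o => Z (C.pt o) * (f (C.pt o) * |C.wed s g o|)) o -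
      {o | g (C.pt o) < t}.indicator (fun o => Z (C.pt o) * (f (C.pt o) * |C.wed s g o|)) o) -
      1 / δ * (p o * (Z (C.pt o) * (f (C.pt o) * |C.wed s g o|)) -
      δ * {o | g (C.pt o) < t}.indicator (fun o => Z (C.pt o) * (f (C.pt o) * |C.wed s g o|)) o)) C.μ :=
    j3.sub j2
  rw [← integral_sub j3 j2, ← integral_add j1 j4]
  refine s1.trans (s2.trans_le ?_)
  refine integral_mono_ae ?_ (j1.add j4) (Eventually.of_forall fun o => ?_)
  · exact (((ip iZ1).const_mul _).add (iZ2.sub ((ip iZ2).const_mul _))).indicator₀ nB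
  have a1 : 0 ≤ Z (C.pt o) * (f (C.pt o) * gn C g o) :=
    mul_nonneg (hZ0 _) (mul_nonneg (hf0 _) (gn_nonneg C g o))
  have a2 : 0 ≤ Z (C.pt o) * (f (C.pt o) * |C.wed s g o|) :=
    mul_nonneg (hZ0 _) (mul_nonneg (hf0 _) (abs_nonneg _))
  simp only [Pi.add_apply, Pi.sub_apply]
  set h1 := Z (C.pt o) * (f (C.pt o) * gn C g o) with hh1
  set h2 := Z (C.pt o) * (f (C.pt o) * |C.wed s g o|) with hh2
  have hpo : p o = max 0 (δ - max 0 (g (C.pt o) - t)) := rfl
  by_cases c1 : g (C.pt o) < t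
  · have m1 : o ∈ {o | g (C.pt o) < t} := c1
    have m2 : o ∈ {o | g (C.pt o) < t + δ} := by
      change g (C.pt o) < t + δ
      linarith
    have m3 : o ∉ B := by
      rintro ⟨⟨h3, h4⟩, h5, h6⟩
      rw [h3, max_eq_right (by linarith)] at h5
      exact lt_irrefl 0 h5
    rw [indicator_of_notMem m3, indicator_of_mem m1, indicator_of_mem m2, indicator_of_mem m1]
    have e : p o = δ := by
      rw [hpo, max_eq_left (show g (C.pt o) - t ≤ 0 by linarith), sub_zero, max_eq_right hδ.le]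
    rw [e]
    simp only [← hh1, ← hh2]
    apply le_of_eq
    ring
  · have c1' := not_lt.1 c1
    have m1 : o ∉ {o | g (C.pt o) < t} := c1
    rw [indicator_of_notMem m1, indicator_of_notMem m1, mul_zero, sub_zero, sub_zero, sub_zero]
    by_cases c2 : g (C.pt o) < t + δ
    · have m2 : o ∈ {o | g (C.pt o) < t + δ} := c2
      rw [indicator_of_mem m2]
      have q1 : 0 ≤ 1 / δ * p o := by
        have := (bp o).1
        positivity
      have q2 : 1 / δ * p o ≤ 1 := by
        rw [one_div, inv_mul_le_one₀ hδ]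
        exact (bp o).2
      have q3 : 0 ≤ 1 / δ * (p o * h1) + (h2 - 1 / δ * (p o * h2)) := by
        have r1 : 0 ≤ 1 / δ * p o * h1 := mul_nonneg q1 a1
        have r2 : 0 ≤ (1 - 1 / δ * p o) * h2 := mul_nonneg (by linarith) a2
        linarith
      by_cases c3 : o ∈ B
      · rw [indicator_of_mem c3]
      · rw [indicator_of_notMem c3]
        exact q3
    · have m2 : o ∉ {o | g (C.pt o) < t + δ} := c2
      rw [indicator_of_notMem m2]
      have c2' := not_lt.1 c2
      have e : p o = 0 := by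
        rw [hpo, max_eq_right (show 0 ≤ g (C.pt o) - t by linarith),
          max_eq_left (show δ - (g (C.pt o) - t) ≤ 0 by linarith)]
      have c3 : o ∉ B := by
        rintro ⟨⟨h3, h4⟩, h5, h6⟩
        rw [h3, max_eq_left (by linarith)] at h6
        linarith
      rw [indicator_of_notMem c3, e]
      simp

/-- the collar of a chart with two weights -/
theorem st_C58 [CompactSpace M] (C : Calc M γ) {g v f s : M → ℝ} (hg : Lip g) (hv : Lip v) (hf : Lip f)
    (hs : Lip s) (hf0 : ∀ x, 0 ≤ f x) {t : ℝ} {U : Set M} (_hU : IsOpen U)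
    (hvU : ∀ x ∈ U, 0 < v x → v x = g x - t)
    {Z : M → ℝ} (hZ : Lip Z) (hZ0 : ∀ x, 0 ≤ Z x) (hZ1 : ∀ x, Z x ≤ 1) (hZU : ∀ x ∈ U, Z x = 1)
    {F F' : ℝ} (hF : HasDerivAt (mz C (fun o => f (C.pt o) * gn C g o) g Z) F t)
    (hF' : HasDerivAt (mz C (fun o => f (C.pt o) * |C.wed s g o|) g Z) F' t) {ζ : ℝ} (hζ : 0 < ζ) :
    ∀ᶠ δ in 𝓝[>] (0:ℝ), 2 / δ * ∫ o in {o | 0 < v (C.pt o) ∧ v (C.pt o) < δ ∧ C.pt o ∈ U},
      f (C.pt o) * ((1 - v (C.pt o) / δ) * gn C v o + v (C.pt o) / δ * |C.wed s v o|) ∂C.μ ≤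
        F + F' + ζ := by
  have ig1 : Integrable (fun o => f (C.pt o) * gn C g o) C.μ := int_lip_gn C hf hg
  have ig2 : Integrable (fun o => f (C.pt o) * |C.wed s g o|) C.μ := int_lip_wed C hf hs hg
  have m1 := mz_mono C hg hZ hZ0 hZ1 ig1 (Eventually.of_forall fun o => mul_nonneg (hf0 _) (gn_nonneg C g o))
  have m2 := mz_mono C hg hZ hZ0 hZ1 ig2 (Eventually.of_forall fun o => mul_nonneg (hf0 _) (abs_nonneg _))
  filter_upwards [avg58c m1 hF (ζ := ζ / 4) (by positivity), avg58c m2 hF' (ζ := ζ / 4) (by positivity),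
    self_mem_nhdsWithin] with δ h1 h2 h3
  have h3 : (0:ℝ) < δ := h3
  have h4 := st_C58_le C hg hv hf hs hf0 hvU hZ hZ0 hZ1 hZU h3
  have a1 := (abs_le.1 h1.2).2
  have a2 := (abs_le.1 h2.2).1
  have a3 := (abs_le.1 h2.1).2
  set I1 := (∫ r in (0:ℝ)..δ, mz C (fun o => f (C.pt o) * gn C g o) g Z (t + r)) -
          δ * mz C (fun o => f (C.pt o) * gn C g o) g Z t with hI1
  set I2 := (∫ r in (0:ℝ)..δ, mz C (fun o => f (C.pt o) * |C.wed s g o|) g Z (t + r)) -
            δ * mz C (fun o => f (C.pt o) * |C.wed s g o|) g Z t with hI2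
  set I3 := mz C (fun o => f (C.pt o) * |C.wed s g o|) g Z (t + δ) -
            mz C (fun o => f (C.pt o) * |C.wed s g o|) g Z t with hI3
  have b1 : 2 / δ * (1 / δ * I1 + (I3 - 1 / δ * I2)) ≤ F + F' + ζ := by
    have e : 2 / δ * (1 / δ * I1 + (I3 - 1 / δ * I2)) = 2 * (I1 + δ * I3 - I2) / δ ^ 2 := by
      field_simp
      ring
    rw [e, div_le_iff₀ (by positivity)]
    have c1 : I1 ≤ F * δ ^ 2 / 2 + ζ / 4 * δ ^ 2 / 2 := by linarith
    have c2 : F' * δ ^ 2 / 2 - ζ / 4 * δ ^ 2 / 2 ≤ I2 := by linarith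
    have c3 : I3 ≤ F' * δ + ζ / 4 * δ := by linarith
    have c4 := mul_le_mul_of_nonneg_left c3 h3.le
    nlinarith
  refine le_trans ?_ b1
  exact mul_le_mul_of_nonneg_left h4 (by positivity)

end Pool.Agent.FPM
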