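import Mathlib
import Pool.Agent.FPM.I57E0
import Pool.Agent.FPM.I58B

/-
FPM/I58E0 (helper56): the competitors of the surgery with the cheaper collapse (ISO58).
-/

set_option autoImplicit false

open Set Filter Topology MeasureTheory
open scoped NNReal

noncomputable section

namespace Pool.Agent.FPM

open Pool.Agent.EWD Pool.Agent.FPX

/-- the factor of the metric for a label -/
def alM (J : Prop) [Decidable J] (κ δ s a c A : ℝ) (V W : ℝ) : ℝ :=
  if J then (if V < δ then A else κ) else (if W ≤ s then 1 else sAl a κ (c * (W - s)))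

/-- the vector of the metric for a label -/
def peM (J : Prop) [Decidable J] (δ s c : ℝ) (V W P gS gm gw : ℝ) : ℝ :=
  if J then (if V < δ then P else if W ≤ 2 * δ then gS else Real.pi / 2 * gm)
  else (if W ≤ s then 0 else c * gw)

variable {M : Type} [MetricSpace M] {γ : ℝ → M}

/-- the tangential slope at a point -/
def xM (C : Calc M γ) (v sf : M → ℝ) (δ κ : ℝ) (o : Om) : ℝ :=
  x58 (bnd 0 δ (v (C.pt o))) κ (gn C v o) |C.wed sf v o|

/-- the normal slope at a point -/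
def yM (C : Calc M γ) (v : M → ℝ) (D : M → ℝ) (δ η : ℝ) (o : Om) : ℝ :=
  y58 (D (C.pt o) + η) δ (gn C v o)

/-- the competitors of the surgery -/
theorem surg58_u [CompactSpace M] (hγ : Bd γ) (C : Calc M γ)
    {v w : M → ℝ} (hv : Lip v) (hw : Lip w) (hw0 : ∀ x, 0 ≤ w x) (hwv : ∀ x, w x ≤ max (v x) 0)
    (hwγ : ∀ r, w (γ r) = 0)
    {ι : Type} [Fintype ι] [DecidableEq ι] {O : ι → Set M} (hO : ∀ i, IsOpen (O i))
    (hd : ∀ i j, i ≠ j → Disjoint (O i) (O j))
    {W0 : ℝ} (hcov : ∀ x, 0 ≤ v x → w x ≤ W0 → x ∈ ⋃ i, O i) (J : Finset ι) {T : ℝ}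
    {sf del : ι → M → ℝ}
    (hsf : ∀ i ∈ J, LipschitzWith 1 (sf i)) (hsT : ∀ i ∈ J, ∀ x, sf i x ∈ Icc T (T + Real.pi))
    (hdel0 : ∀ i ∈ J, ∀ x, 0 ≤ del i x)
    (hsγ : ∀ i ∈ J, ∀ x ∈ O i, x ∈ range γ → 0 < v x → x = γ (sf i x))
    {b a c : ι → ℝ} (ha : ∀ i, 0 < a i) (hba : ∀ i ∉ J, b i < a i) (hc : ∀ i, 0 < c i)
    {η : ℝ} (hη : 0 < η) (Λ : ℝ≥0) {δ s δ' κ κ' : ℝ} (hδ : 0 < δ) (hδs : 3 * δ ≤ s) (hδ' : 0 < δ')
    (hs : s + δ' < W0) (hcd : ∀ i, c i * δ' = a i + Real.pi / 2) (hκ : 0 < κ) (hκ' : 0 < κ') (hκ1 : κ' ≤ 1) :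
    ∃ L : ℝ≥0, ∀ t₀ ∈ Icc T (T + Real.pi), ∀ ψ : M → ℝ, LipschitzWith Λ ψ → (∀ x, |ψ x| ≤ Real.pi / 2) →
      (∀ r, ψ (γ r) = pot γ t₀ (γ r)) →
      (∀ᵐ o ∂C.μ, (v (C.pt o) ≤ 0 ∨ w (C.pt o) < W0) → C.gx ψ o ^ 2 + C.gy ψ o ^ 2 ≤ 1) →
      (∀ i ∈ J, ∀ x ∈ O i, 0 < v x → w x < W0 →
        |ψ x - (Real.pi / 2 - |sf i x - t₀|)| ≤ del i x + η) →
      (∀ i ∉ J, ∃ m : ℝ, |m| ≤ Real.pi / 2 ∧ ∀ x ∈ O i, 0 < v x → w x < W0 → |ψ x - m| ≤ b i) →
      ∃ u : M → ℝ, LipschitzWith L u ∧ (∀ᵐ o ∂C.μ, Dn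
        (reg O v w (s + δ') 1 κ (fun i => alM (i ∈ J) κ δ s (a i) (c i)
          (2 * xM C v (sf i) δ κ' o ^ 2) (v (C.pt o)) (w (C.pt o))) (C.pt o))
        (reg O v w (s + δ') 0 0 (fun i => peM (i ∈ J) δ s (c i) (v (C.pt o)) (w (C.pt o))
          (p58 (xM C v (sf i) δ κ' o) (yM C v (del i) δ η o) (gn C v o) (C.gx v o))
          (C.gx (cS w (sf i) T δ) o)
          (C.gx (fun x => bnd (2 * δ) (3 * δ) (w x)) o) (C.gx w o)) (C.pt o))
        (reg O v w (s + δ') 0 0 (fun i => peM (i ∈ J) δ s (c i) (v (C.pt o)) (w (C.pt o))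
          (p58 (xM C v (sf i) δ κ' o) (yM C v (del i) δ η o) (gn C v o) (C.gy v o))
          (C.gy (cS w (sf i) T δ) o)
          (C.gy (fun x => bnd (2 * δ) (3 * δ) (w x)) o) (C.gy w o)) (C.pt o))
        (C.gx u o) (C.gy u o)) ∧
      (∀ r r', |u (γ r) - u (γ r')| ≤ |r - r'|) ∧
      Real.pi ≤ u (γ t₀) - u (γ (t₀ + Real.pi)) := by
  classical
  have hpi := Real.pi_pos
  have hs0 : 0 < s := by linarith
  -- Lebesgue number
  have hcpt : IsCompact {x | 0 ≤ v x ∧ w x ≤ W0} :=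
    ((isClosed_le continuous_const hv.cont).inter (isClosed_le hw.cont continuous_const)).isCompact
  obtain ⟨ρ0, hρ0, hleb⟩ := lebesgue_number_lemma_of_metric hcpt hO (fun x hx => hcov x hx.1 hx.2)
  -- the distance for the caps
  obtain ⟨τ, hτ, hτa⟩ : ∃ τ : ℝ, 0 < τ ∧ ∀ i ∉ J, b i + Λ * τ ≤ a i := by
    rcases isEmpty_or_nonempty ι with hι | hι
    · exact ⟨1, one_pos, fun i => (hι.false i).elim⟩
    · set f : ι → ℝ := fun i => if i ∈ J then 1 else (a i - b i) / (Λ + 1) with hf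
      refine ⟨Finset.univ.inf' Finset.univ_nonempty f, ?_, fun i hi => ?_⟩
      · rw [Finset.lt_inf'_iff]
        intro i _
        simp only [hf]
        split_ifs with h
        · exact one_pos
        · exact div_pos (by linarith [hba i h]) (by positivity)
      · have h1 : Finset.univ.inf' Finset.univ_nonempty f ≤ f i := Finset.inf'_le _ (Finset.mem_univ i)
        simp only [hf, if_neg hi] at h1
        have h2 : (Λ : ℝ) * Finset.univ.inf' Finset.univ_nonempty f ≤ Λ * ((a i - b i) / (Λ + 1)) :=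
          mul_le_mul_of_nonneg_left h1 Λ.2
        have h3 : (Λ : ℝ) * ((a i - b i) / (Λ + 1)) ≤ a i - b i := by
          have e : (Λ : ℝ) * ((a i - b i) / (Λ + 1)) = (a i - b i) * (Λ / (Λ + 1)) := by ring
          rw [e]
          have h4 : (Λ : ℝ) / (Λ + 1) ≤ 1 := (div_le_one (by positivity)).2 (by linarith)
          have h5 : 0 < a i - b i := by linarith [hba i hi]
          nlinarith
        linarith
  set ρ : ℝ := min ρ0 τ with hρd
  have hρ : 0 < ρ := lt_min hρ0 hτ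
  have hsep : ∀ x y i, 0 < v x → w x < s + δ' → x ∈ O i → dist x y < ρ → y ∈ O i := by
    intro x y i hx hx' hi hxy
    obtain ⟨k, hk⟩ := hleb x ⟨hx.le, by linarith⟩
    have hxk : x ∈ O k := hk (Metric.mem_ball_self hρ0)
    have hki : k = i := by
      by_contra h
      exact Set.disjoint_left.1 (hd k i h) hxk hi
    rw [← hki]
    refine hk ?_
    rw [Metric.mem_ball, dist_comm]
    exact hxy.trans_le (min_le_left _ _)
  -- Lipschitz constants
  have hL1 : ∀ i : ι, ∃ L : ℝ≥0, i ∈ J → ∀ t₀ ∈ Icc T (T + Real.pi), ∀ ψ : M → ℝ, LipschitzWith Λ ψ →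
      (∀ x, |ψ x| ≤ Real.pi / 2) → LipschitzWith L (cF v w (sf i) ψ T δ t₀) := by
    intro i
    by_cases hi : i ∈ J
    · obtain ⟨L, hL⟩ := cF_lip (T := T) hδ hv hw ⟨1, hsf i hi⟩ (hsT i hi) Λ
      exact ⟨L, fun _ => hL⟩
    · exact ⟨0, fun h => absurd h hi⟩
  choose L1 hL1 using hL1
  have hL2 : ∀ i : ι, ∃ L : ℝ≥0, ∀ m : ℝ, |m| ≤ Real.pi / 2 → ∀ ψ : M → ℝ, LipschitzWith Λ ψ →
      LipschitzWith L (capF w ψ (a i) m (c i) s) := fun i => capF_lip hw (ha i) (hc i) s Λ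
  choose L2 hL2 using hL2
  obtain ⟨Lv, hLv⟩ := id hv
  set L : ℝ≥0 := Λ + ∑ i, (L1 i + L2 i) with hLd
  have hLi : ∀ i, L1 i ≤ L ∧ L2 i ≤ L := by
    intro i
    have h1 : L1 i + L2 i ≤ ∑ i, (L1 i + L2 i) :=
      Finset.single_le_sum (f := fun i => L1 i + L2 i) (fun _ _ => zero_le) (Finset.mem_univ i)
    have h2 : L1 i + L2 i ≤ L := h1.trans le_add_self
    exact ⟨le_self_add.trans h2, le_add_self.trans h2⟩
  have hLΛ : Λ ≤ L := le_self_add
  set B : ℝ := Real.pi + ∑ i, a i with hBd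
  have hsum0 : 0 ≤ ∑ i, a i := Finset.sum_nonneg fun i _ => (ha i).le
  have hB0 : 0 ≤ B := by positivity
  have hBi : ∀ i, Real.pi / 2 + a i ≤ B := by
    intro i
    have h1 : a i ≤ ∑ i, a i := Finset.single_le_sum (f := a) (fun j _ => (ha j).le) (Finset.mem_univ i)
    linarith
  refine ⟨Real.toNNReal (L + 2 * B / ρ + B * Lv / (s + δ')), fun t₀ ht₀ ψ hψ hψb hψγ hψg hψJ hψm => ?_⟩
  choose! m hm hmb using hψm
  set F : ι → M → ℝ := fun i => if i ∈ J then cF v w (sf i) ψ T δ t₀ else capF w ψ (a i) (m i) (c i) s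
    with hF
  have FJ : ∀ i ∈ J, F i = cF v w (sf i) ψ T δ t₀ := fun i hi => if_pos hi
  have FN : ∀ i ∉ J, F i = capF w ψ (a i) (m i) (c i) s := fun i hi => if_neg hi
  have hFL : ∀ i, LipschitzWith L (F i) := by
    intro i
    by_cases hi : i ∈ J
    · rw [FJ i hi]
      exact (hL1 i hi t₀ ht₀ ψ hψ hψb).weaken (hLi i).1
    · rw [FN i hi]
      exact (hL2 i (m i) (hm i hi) ψ hψ).weaken (hLi i).2
  have hFB : ∀ i x, |F i x| ≤ B := by
    intro i x
    by_cases hi : i ∈ J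
    · rw [FJ i hi]
      refine (cF_bd (hsT i hi) ht₀ hψb x).trans ?_
      linarith
    · rw [FN i hi]
      exact (capF_bd (ha i) (hm i hi) x).trans (hBi i)
  have hOR : ∀ x, 0 < v x → w x < s + δ' → ∃ i, x ∈ O i := fun x hx hx' =>
    mem_iUnion.1 (hcov x hx.le (by linarith))
  have hw00 : ∀ x, v x ≤ 0 → w x = 0 := fun x hx => by
    have h1 := hwv x
    rw [max_eq_right hx] at h1
    exact le_antisymm h1 (hw0 x)
  have h0 : ∀ i x y, v x ≤ 0 → 0 < v y → w y < s + δ' → y ∈ O i → dist x y < ρ → F i x = ψ x := by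
    intro i x y hx hy hy' hi hxy
    by_cases hiJ : i ∈ J
    · rw [FJ i hiJ]
      exact cF_out hδ hx
    · rw [FN i hiJ]
      refine capF_out (ha i) (by rw [hw00 x hx]; exact hs0.le) ?_
      have h1 := hmb i hiJ y hi hy (by linarith)
      have h2 := hψ.dist_le_mul x y
      rw [Real.dist_eq] at h2
      have h3 : (Λ : ℝ) * dist x y ≤ Λ * τ :=
        mul_le_mul_of_nonneg_left (hxy.le.trans (min_le_right _ _)) Λ.2
      have h4 := hτa i hiJ
      have e : ψ x - m i = (ψ x - ψ y) + (ψ y - m i) := by ring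
      rw [e]
      refine (abs_add_le _ _).trans ?_
      linarith
  have h1 : ∀ i x, 0 < v x → s + δ' ≤ w x → F i x = 0 := by
    intro i x hx hx'
    by_cases hiJ : i ∈ J
    · rw [FJ i hiJ]
      exact cF_in hδ (hwv x) (by linarith)
    · rw [FN i hiJ]
      exact capF_in (ha i) (hc i) (hcd i) hx'
  have hψB : ∀ x, |ψ x| ≤ B := fun x => (hψb x).trans (by linarith)
  have hulip := glue57 (W1 := s + δ') (B := B) (ρ := ρ) hd (by linarith) hρ hB0 hLv (hψ.weaken hLΛ) hFL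
    hψB hFB hwv hOR hsep h0 h1
  set u : M → ℝ := fun x => if v x ≤ 0 then ψ x else if s + δ' ≤ w x then 0 else
    pick O (fun i => F i x) x with hu
  have huL : Lip u := ⟨_, hulip⟩
  have hψL : Lip ψ := ⟨Λ, hψ⟩
  have uA : ∀ x, v x ≤ 0 → u x = ψ x := fun x hx => if_pos hx
  have uD : ∀ x, 0 < v x → s + δ' ≤ w x → u x = 0 := fun x hx hx' => by
    simp only [hu, if_neg (not_le.2 hx), if_pos hx']
  have uR : ∀ x i, 0 < v x → w x < s + δ' → x ∈ O i → u x = F i x := fun x i hx hx' hi => by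
    simp only [hu, if_neg (not_le.2 hx), if_neg (not_le.2 hx')]
    exact pick_eq hd _ hi
  -- along the curve
  have uγ : ∀ r, u (γ r) = ψ (γ r) := by
    intro r
    rcases le_or_gt (v (γ r)) 0 with hx | hx
    · exact uA _ hx
    · have hx' : w (γ r) < s + δ' := by
        rw [hwγ r]
        linarith
      obtain ⟨i, hi⟩ := hOR _ hx hx'
      rw [uR _ i hx hx' hi]
      by_cases hiJ : i ∈ J
      · rw [FJ i hiJ]
        refine cF_curve hδ (hwγ r) ?_
        have h2 := hsγ i hiJ _ hi (mem_range_self r) hx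
        have h3 := hsT i hiJ (γ r)
        rw [hψγ r]
        have h4 : |sf i (γ r) - t₀| ≤ Real.pi :=
          abs_le.2 ⟨by linarith [h3.1, ht₀.2], by linarith [h3.2, ht₀.1]⟩
        have h5 := pot_curve hγ h4
        rw [← h2] at h5
        exact h5.symm
      · rw [FN i hiJ]
        refine capF_out (ha i) (by rw [hwγ r]; exact hs0.le) ?_
        exact (hmb i hiJ _ hi hx (by rw [hwγ r]; linarith)).trans (hba i hiJ).le
  refine ⟨u, hulip, ?_, ?_, ?_⟩
  · -- gradients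
    have e3 : ∀ᵐ o ∂C.μ, ∀ i, u (C.pt o) = F i (C.pt o) → C.gx u o = C.gx (F i) o ∧
        C.gy u o = C.gy (F i) o := by
      rw [ae_all_iff]
      exact fun i => loc_eq C huL ⟨L, hFL i⟩
    have e4 : ∀ᵐ o ∂C.μ, ∀ i ∈ J,
        (0 < v (C.pt o) → v (C.pt o) < δ → C.gx ψ o ^ 2 + C.gy ψ o ^ 2 ≤ 1 →
          |ψ (C.pt o) - chi t₀ (sf i (C.pt o))| ≤ del i (C.pt o) + η → 0 < del i (C.pt o) + η →
          Dn (2 * xM C v (sf i) δ κ' o ^ 2)
            (p58 (xM C v (sf i) δ κ' o) (yM C v (del i) δ η o) (gn C v o) (C.gx v o))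
            (p58 (xM C v (sf i) δ κ' o) (yM C v (del i) δ η o) (gn C v o) (C.gy v o))
            (C.gx (cF v w (sf i) ψ T δ t₀) o) (C.gy (cF v w (sf i) ψ T δ t₀) o)) ∧
        (δ ≤ v (C.pt o) → w (C.pt o) ≤ 2 * δ →
          Dn κ (C.gx (cS w (sf i) T δ) o) (C.gy (cS w (sf i) T δ) o)
            (C.gx (cF v w (sf i) ψ T δ t₀) o) (C.gy (cF v w (sf i) ψ T δ t₀) o)) ∧
        (2 * δ < w (C.pt o) →
          Dn κ (Real.pi / 2 * C.gx (fun x => bnd (2 * δ) (3 * δ) (w x)) o)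
            (Real.pi / 2 * C.gy (fun x => bnd (2 * δ) (3 * δ) (w x)) o)
            (C.gx (cF v w (sf i) ψ T δ t₀) o) (C.gy (cF v w (sf i) ψ T δ t₀) o)) := by
      rw [ae_all_iff]
      intro i
      by_cases hi : i ∈ J
      · filter_upwards [cF_grad (dl := fun x => del i x + η) C hδ hv hw (hsf i hi) (hsT i hi) ht₀ hψL
          hψb hwv κ, cF_grad58 (dl := fun x => del i x + η) C hδ hv hw (hsf i hi) (hsT i hi) ht₀ hψL
          hψb hwv hκ' hκ1] with o ho ho2 _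
        exact ⟨ho2, ho.2.1, ho.2.2⟩
      · exact Eventually.of_forall fun o h => absurd h hi
    have e5 : ∀ᵐ o ∂C.μ, ∀ i ∉ J,
        (s ≤ w (C.pt o) → |ψ (C.pt o) - m i| < a i → C.gx ψ o ^ 2 + C.gy ψ o ^ 2 ≤ 1 →
          Dn (sAl (a i) κ (c i * (w (C.pt o) - s))) (c i * C.gx w o) (c i * C.gy w o)
          (C.gx (capF w ψ (a i) (m i) (c i) s) o) (C.gy (capF w ψ (a i) (m i) (c i) s) o)) ∧
        (capF w ψ (a i) (m i) (c i) s (C.pt o) = ψ (C.pt o) →
          C.gx (capF w ψ (a i) (m i) (c i) s) o = C.gx ψ o ∧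
          C.gy (capF w ψ (a i) (m i) (c i) s) o = C.gy ψ o) := by
      rw [ae_all_iff]
      intro i
      by_cases hi : i ∈ J
      · exact Eventually.of_forall fun o h => absurd hi h
      · filter_upwards [capF_grad (t := s) (κ := κ) C hψL hw (ha i) hκ (hc i) (hm i hi),
          loc_eq C ⟨_, hL2 i (m i) (hm i hi) ψ hψ⟩ hψL] with o h2 h3 _
        exact ⟨h2, h3⟩
    filter_upwards [e3, e4, e5, loc_eq C huL hψL, grad_level C huL 0, hψg] with o k3 k4 k5 k1 k2 k6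
    unfold reg
    rcases le_or_gt (v (C.pt o)) 0 with hx | hx
    · simp only [if_pos hx]
      obtain ⟨g1, g2⟩ := k1 (uA _ hx)
      rw [g1, g2]
      exact Dn.one (k6 (Or.inl hx))
    · simp only [if_neg (not_le.2 hx)]
      rcases lt_or_ge (w (C.pt o)) (s + δ') with hx' | hx'
      · simp only [if_neg (not_le.2 hx')]
        obtain ⟨i, hi⟩ := hOR _ hx hx'
        rw [pick_eq hd _ hi, pick_eq hd _ hi, pick_eq hd _ hi]
        obtain ⟨g1, g2⟩ := k3 i (uR _ i hx hx' hi)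
        rw [g1, g2]
        have hgψ := k6 (Or.inr (by linarith))
        unfold alM peM
        by_cases hiJ : i ∈ J
        · simp only [if_pos hiJ]
          rw [FJ i hiJ]
          obtain ⟨q1, q2, q3⟩ := k4 i hiJ
          rcases lt_or_ge (v (C.pt o)) δ with h2 | h2
          · simp only [if_pos h2]
            exact q1 hx h2 hgψ (hψJ i hiJ _ hi hx (by linarith)) (by linarith [hdel0 i hiJ (C.pt o)])
          · simp only [if_neg (not_lt.2 h2)]
            rcases le_or_gt (w (C.pt o)) (2 * δ) with h3 | h3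
            · simp only [if_pos h3]
              exact q2 h2 h3
            · simp only [if_neg (not_le.2 h3)]
              exact q3 h3
        · simp only [if_neg hiJ]
          rw [FN i hiJ]
          obtain ⟨q1, q2⟩ := k5 i hiJ
          have h4 : |ψ (C.pt o) - m i| ≤ b i := hmb i hiJ _ hi hx (by linarith)
          have h5 := hba i hiJ
          rcases le_or_gt (w (C.pt o)) s with h3 | h3
          · simp only [if_pos h3]
            obtain ⟨g3, g4⟩ := q2 (capF_out (ha i) h3 (by linarith))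
            rw [g3, g4]
            exact Dn.one hgψ
          · simp only [if_neg (not_le.2 h3)]
            exact q1 h3.le (by linarith) hgψ
      · simp only [if_pos hx']
        obtain ⟨g1, g2⟩ := k2 (uD _ hx hx')
        rw [g1, g2]
        exact Dn.zero _ _ _
  · intro r r'
    rw [uγ, uγ, hψγ, hψγ]
    have h2 := (pot_lip (γ := γ) t₀).dist_le_mul (γ r) (γ r')
    rw [Real.dist_eq, NNReal.coe_one, one_mul] at h2
    have h3 := hγ.lip.dist_le_mul r r'
    rw [NNReal.coe_one, one_mul, Real.dist_eq] at h3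
    exact h2.trans h3
  · rw [uγ, uγ, hψγ, hψγ]
    exact pot_end hγ t₀

end Pool.Agent.FPM
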