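import Mathlib
import Pool.Agent.FPM.I57LP

/-
I58L (helper19): the data of the pieces of the boundary for ISO58 (cheaper collapse of the charts).
-/

open MeasureTheory Set Filter Topology
open scoped ENNReal NNReal

noncomputable section

namespace Pool.Agent.FPM

open Pool.Agent.EWD Pool.Agent.FPX

variable {M : Type} [MetricSpace M] {γ : ℝ → M}

/-- `LP57` with the integrals of the defect `dE` against the length and against the derivative of the
coordinate `sE` along the level -/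
structure LP58 (C : Calc M γ) (f : M → ℝ) (t θ θ' l : ℝ) {ι : Type} [Fintype ι] (big tr : Finset ι)
    (Z : ι → M → ℝ) (O : ι → Set M) (S p q : ι → ℝ) : Prop extends
    LP57 C f t θ θ' l big tr Z O S p q where
  t4 : ∀ i ∈ tr, ∀ (e1 e2 : ℚ) (n : ℤ), (e1 : ℝ) ≤ p i + n * (2 * Real.pi) →
    q i + n * (2 * Real.pi) ≤ (e2 : ℝ) → (e2 : ℝ) ≤ e1 + Real.pi → ∃ D D' a : ℝ,
      HasDerivAt (mz C (fun o => dE γ e1 e2 (C.pt o) * gn C f o) f (Z i)) D t ∧
      HasDerivAt (mz C (fun o => dE γ e1 e2 (C.pt o) * |C.wed (sE γ e1 e2) f o|) f (Z i)) D' t ∧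
      2 * (q i - p i) - Gz γ f t (Z i) ≤ a ∧ a ≤ S i + θ' ∧
      D + D' ≤ (S i - a) * (S i + 3 * a) / 4 + θ'

end Pool.Agent.FPM
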