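import Mathlib
import Pool.Agent.FPM.I57NC

/-
# ISO58, real part of row (N) (helper43, after helper28's I57NC)

`csum58` = the finite-sum inequality of `cstrat58` (all pieces of the arc are charts, cheaper collapse).
-/

open Real Finset

namespace Pool.Agent.FPM

/-- superadditivity of the cost `(S - a) (S + 3 a)` -/
theorem cost_sum58 {ι : Type*} (U : Finset ι) (S α : ι → ℝ) {κ : ℝ} {θ' : ℝ} (hθ' : 0 ≤ θ')
    (hK : (U.card : ℝ) * θ' ≤ κ) (hS : ∀ i ∈ U, 0 ≤ S i) (hα : ∀ i ∈ U, 0 ≤ α i)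
    (hd : ∀ i ∈ U, α i ≤ S i + θ') :
    ∑ i ∈ U, (S i - α i) * (S i + 3 * α i) ≤
      (∑ i ∈ U, S i - ∑ i ∈ U, α i + κ) * (∑ i ∈ U, S i + 3 * ∑ i ∈ U, α i) := by
  have h1 := sum_mul_le57 U (fun i => S i - α i + θ') (fun i => S i + 3 * α i)
    (fun i hi => by linarith [hd i hi]) (fun i hi => by linarith [hS i hi, hα i hi])
  have e2 : ∑ i ∈ U, (S i - α i + θ') = ∑ i ∈ U, S i - ∑ i ∈ U, α i + U.card * θ' := by
    rw [Finset.sum_add_distrib, Finset.sum_sub_distrib, Finset.sum_const, nsmul_eq_mul]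
  have e3 : ∑ i ∈ U, (S i + 3 * α i) = ∑ i ∈ U, S i + 3 * ∑ i ∈ U, α i := by
    rw [Finset.sum_add_distrib, ← Finset.mul_sum]
  have hs : 0 ≤ ∑ i ∈ U, S i + 3 * ∑ i ∈ U, α i :=
    add_nonneg (Finset.sum_nonneg hS) (mul_nonneg (by norm_num) (Finset.sum_nonneg hα))
  rw [e2, e3] at h1
  have h0 : ∑ i ∈ U, (S i - α i) * (S i + 3 * α i) ≤
      ∑ i ∈ U, (S i - α i + θ') * (S i + 3 * α i) :=
    Finset.sum_le_sum fun i hi => mul_le_mul_of_nonneg_right (by linarith)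
      (by linarith [hS i hi, hα i hi])
  refine h0.trans (h1.trans (mul_le_mul_of_nonneg_right (by linarith) hs))

/-- **charts on the arc**: the finite-sum inequality of `cstrat58` -/
theorem csum58 {ι : Type} [Fintype ι] [DecidableEq ι] {big U L Du Dl : Finset ι}
    (hUb : U ⊆ big) (hLb : L ⊆ big) (hUL : Disjoint U L)
    (hDu : ∀ i ∈ Du, i ∉ big) (hDl : ∀ i ∈ Dl, i ∉ big) (hDD : Disjoint Du Dl)
    {S G h D D' aa : ι → ℝ} {θ θ' ρ l K : ℝ} (hθ : 0 ≤ θ) (hθ' : 0 ≤ θ') (hρ : 0 ≤ ρ) (hρθ : ρ ≤ θ')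
    (hK : (big.card : ℝ) ≤ K) (hsm : l + 2 * θ + 2 * K * θ' < 2 * π)
    (hl : ∑ i, S i = l) (hG : ∀ i, 0 ≤ G i) (hGS : ∀ i, G i ≤ S i)
    (hGh : ∀ i ∈ U ∪ L, G i ≤ h i) (_hh : ∀ i ∈ U ∪ L, 2 * h i ≤ S i + G i + θ')
    (hD : ∀ j ∈ U, D j + D' j ≤ (S j - aa j) * (S j + 3 * aa j) / 4 + θ' ∧
      2 * h j - G j ≤ aa j ∧ aa j ≤ S j + θ')
    {G0 gU E1 E2 w : ℝ} (hgU : 0 ≤ gU) (hE10 : 0 ≤ E1) (hE20 : 0 ≤ E2)
    (hE1 : G0 = ∑ i ∈ U, G i + E1) (hE2 : G0 = ∑ i ∈ L, G i + E2)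
    (hw : w ≤ ∑ i ∈ L, h i + gU + E2)
    (hb : G0 + 2 * gU + ∑ i ∈ U, G i ≤ 2 * ∑ i ∈ U, h i + E1)
    (hE1' : E1 ≤ ∑ i ∈ Du, G i) (hE2' : E2 ≤ ∑ i ∈ Dl, G i)
    (hE2'' : ∑ i ∈ Dl, G i ≤ E2 + 2 * (ρ + θ))
    {i0 : ι} (hi0 : i0 ∈ U ∪ L) (hmax : ∀ i ∈ big, S i + G i ≤ S i0 + G i0)
    {a st R : ℝ} (hst0 : 0 ≤ st) (hst : st ≤ gU + 2 * ρ * K) (hR0 : 0 ≤ R)
    (hR : R ≤ w + 2 * ρ + ∑ i ∈ L, ((S i + G i + θ') / 2 - h i) + 2 * (θ + ρ))
    (ha : a ≤ ∑ j ∈ U, (D j + D' j) + ∑ i ∈ big \ (U ∪ L), (S i + G i + θ') / 2 / π * (S i + G i) +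
      ∑ i ∈ bigᶜ \ Dl, θ / π * (S i + G i) +
      R / π * (∑ i ∈ L, S i + ∑ i ∈ Dl, S i + (∑ i ∈ L, G i + ∑ i ∈ Dl, G i) + 2 * st))
    {x y z : ℝ} (hx : x = ∑ i ∈ U, S i + ∑ i ∈ Du, S i)
    (hy : y = ∑ i ∈ L, S i + ∑ i ∈ Dl, S i) (hz : z = l - x - y) :
    ∃ A, 0 ≤ A ∧ A ≤ x + 10000 * (θ + K * θ') ∧ 0 ≤ z ∧
      2 * π * a ≤ π / 2 * ((x - A) * (x + 3 * A)) + (y + A) ^ 2 + 2 * (x + y) * z +
        10000 * (θ + K * θ') := by
  obtain ⟨hz0, hG0, hGx, hGy, hm, hrest⟩ := base57 hUb hLb hUL hDu hDl hDD hl hG hGS hE10 hE20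
    hE1 hE2 hE1' hE2' hi0 hmax hx hy hz
  have hpi0 := Real.pi_pos
  have hpi := Real.pi_lt_d2
  have hS : ∀ i, 0 ≤ S i := fun i => (hG i).trans (hGS i)
  have hSn : ∀ T : Finset ι, 0 ≤ ∑ i ∈ T, S i := fun T => Finset.sum_nonneg fun i _ => hS i
  have hGn : ∀ T : Finset ι, 0 ≤ ∑ i ∈ T, G i := fun T => Finset.sum_nonneg fun i _ => hG i
  have hGSs : ∀ T : Finset ι, ∑ i ∈ T, G i ≤ ∑ i ∈ T, S i := fun T =>
    Finset.sum_le_sum fun i _ => hGS i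
  have hSl : ∀ T : Finset ι, ∑ i ∈ T, S i ≤ l := fun T => by
    rw [← hl]
    exact Finset.sum_le_sum_of_subset_of_nonneg (Finset.subset_univ _) fun i _ _ => hS i
  have hl0 : 0 ≤ l := by rw [← hl]; exact hSn _
  have hK1 : 1 ≤ K := by
    have hb : i0 ∈ big := by
      rcases Finset.mem_union.1 hi0 with h | h
      · exact hUb h
      · exact hLb h
    have h1 : 1 ≤ big.card := Finset.card_pos.2 ⟨i0, hb⟩
    exact le_trans (by exact_mod_cast h1) hK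
  have hK0 : 0 ≤ K := by linarith
  -- the error `κ = K θ'`
  obtain ⟨κ, hκ⟩ : ∃ κ, κ = K * θ' := ⟨_, rfl⟩
  have hκ0 : 0 ≤ κ := by rw [hκ]; positivity
  have hKθ : θ' ≤ κ := by rw [hκ]; nlinarith
  have hsm' : l + 2 * θ + 2 * κ < 2 * π := by rw [hκ]; linarith
  have hρK : ρ * K ≤ κ := by rw [hκ, mul_comm K]; exact mul_le_mul_of_nonneg_right hρθ hK0
  have hcU : (U.card : ℝ) ≤ K := le_trans (by exact_mod_cast Finset.card_le_card hUb) hK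
  have hcL : (L.card : ℝ) ≤ K := le_trans (by exact_mod_cast Finset.card_le_card hLb) hK
  have hcUθ : (U.card : ℝ) * θ' ≤ κ := by rw [hκ]; exact mul_le_mul_of_nonneg_right hcU hθ'
  have hcLθ : (L.card : ℝ) * θ' ≤ κ := by rw [hκ]; exact mul_le_mul_of_nonneg_right hcL hθ'
  rw [← hκ]
  have hα0 : ∀ i ∈ U, 0 ≤ aa i := fun i hi => by
    have h1 := hGh i (Finset.mem_union_left _ hi)
    have h2 := (hD i hi).2.1
    linarith [hG i]
  have hαS : ∀ i ∈ U, aa i ≤ S i + θ' := fun i hi => (hD i hi).2.2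
  have sα : 2 * ∑ i ∈ U, h i - ∑ i ∈ U, G i ≤ ∑ i ∈ U, aa i := by
    have h1 : ∑ i ∈ U, (2 * h i - G i) ≤ ∑ i ∈ U, aa i := Finset.sum_le_sum fun i hi => (hD i hi).2.1
    rw [Finset.sum_sub_distrib, ← Finset.mul_sum] at h1
    exact h1
  have sαS : ∑ i ∈ U, aa i ≤ ∑ i ∈ U, S i + κ := by
    calc ∑ i ∈ U, aa i ≤ ∑ i ∈ U, (S i + θ') := Finset.sum_le_sum hαS
      _ = ∑ i ∈ U, S i + U.card * θ' := by
          rw [Finset.sum_add_distrib, Finset.sum_const, nsmul_eq_mul]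
      _ ≤ _ := by linarith
  have sα0 : 0 ≤ ∑ i ∈ U, aa i := Finset.sum_nonneg hα0
  have hcost := cost_sum58 U S aa hθ' hcUθ (fun i _ => hS i) hα0 hαS
  obtain ⟨X, hX⟩ : ∃ X, X = ∑ i ∈ U, S i := ⟨_, rfl⟩
  obtain ⟨α, hα⟩ : ∃ α, α = ∑ i ∈ U, aa i := ⟨_, rfl⟩
  obtain ⟨A, hA⟩ : ∃ A, A = α + E1 := ⟨_, rfl⟩
  rw [← hα] at sα sαS sα0 hcost
  rw [← hX] at sαS hcost
  have hX0 : 0 ≤ X := by rw [hX]; exact hSn _
  have hXl : X ≤ l := by rw [hX]; exact hSl _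
  have hAA : G0 + 2 * gU ≤ A := by rw [hA]; linarith
  have hA0 : 0 ≤ A := by rw [hA]; linarith
  have hxX : X + E1 ≤ x := by
    rw [hx, ← hX]
    linarith [hGSs Du]
  have hxyl : x + y ≤ l := by linarith
  have hx0 : 0 ≤ x := by linarith
  have hy0 : 0 ≤ y := by linarith
  have hAx : A ≤ x + κ := by rw [hA]; linarith
  refine ⟨A, hA0, by linarith, hz0, ?_⟩
  -- multiply by `2 π`
  have hm2 : 2 * π * a ≤ 2 * π * (∑ j ∈ U, (D j + D' j) +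
      ∑ i ∈ big \ (U ∪ L), (S i + G i + θ') / 2 / π * (S i + G i) +
      ∑ i ∈ bigᶜ \ Dl, θ / π * (S i + G i) +
      R / π * (∑ i ∈ L, S i + ∑ i ∈ Dl, S i + (∑ i ∈ L, G i + ∑ i ∈ Dl, G i) + 2 * st)) :=
    mul_le_mul_of_nonneg_left ha (by positivity)
  obtain ⟨P, hP⟩ : ∃ P, P = ∑ i ∈ L, S i + ∑ i ∈ Dl, S i + (∑ i ∈ L, G i + ∑ i ∈ Dl, G i) +
    2 * st := ⟨_, rfl⟩
  rw [← hP] at hm2
  have e0 : 2 * π * (∑ j ∈ U, (D j + D' j) +
      ∑ i ∈ big \ (U ∪ L), (S i + G i + θ') / 2 / π * (S i + G i) +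
      ∑ i ∈ bigᶜ \ Dl, θ / π * (S i + G i) + R / π * P) =
      ∑ j ∈ U, 2 * π * (D j + D' j) + ∑ i ∈ big \ (U ∪ L), (S i + G i + θ') * (S i + G i) +
      ∑ i ∈ bigᶜ \ Dl, 2 * θ * (S i + G i) + 2 * R * P := by
    have q1 : 2 * π * ∑ j ∈ U, (D j + D' j) = ∑ j ∈ U, 2 * π * (D j + D' j) := by
      rw [Finset.mul_sum]
    have q2 : 2 * π * ∑ i ∈ big \ (U ∪ L), (S i + G i + θ') / 2 / π * (S i + G i) =
        ∑ i ∈ big \ (U ∪ L), (S i + G i + θ') * (S i + G i) := by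
      rw [Finset.mul_sum]
      exact Finset.sum_congr rfl fun i _ => by field_simp
    have q3 : 2 * π * ∑ i ∈ bigᶜ \ Dl, θ / π * (S i + G i) =
        ∑ i ∈ bigᶜ \ Dl, 2 * θ * (S i + G i) := by
      rw [Finset.mul_sum]
      exact Finset.sum_congr rfl fun i _ => by field_simp
    have q4 : 2 * π * (R / π * P) = 2 * R * P := by field_simp
    rw [mul_add, mul_add, mul_add, q1, q2, q3, q4]
  rw [e0] at hm2
  -- dust
  have f1 : ∑ i ∈ bigᶜ \ Dl, 2 * θ * (S i + G i) ≤ 4 * l * θ := by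
    rw [← Finset.mul_sum, Finset.sum_add_distrib]
    have t1 := hSl (bigᶜ \ Dl)
    have t2 := hGSs (bigᶜ \ Dl)
    have : 2 * θ * (∑ i ∈ bigᶜ \ Dl, S i + ∑ i ∈ bigᶜ \ Dl, G i) ≤ 2 * θ * (2 * l) :=
      mul_le_mul_of_nonneg_left (by linarith) (by positivity)
    linarith
  -- big, not on the arcs
  have f2 : ∑ i ∈ big \ (U ∪ L), (S i + G i + θ') * (S i + G i) =
      ∑ i ∈ big \ (U ∪ L), (S i + G i) ^ 2 +
        θ' * (∑ i ∈ big \ (U ∪ L), S i + ∑ i ∈ big \ (U ∪ L), G i) := by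
    rw [← Finset.sum_add_distrib, Finset.mul_sum, ← Finset.sum_add_distrib]
    exact Finset.sum_congr rfl fun i _ => by ring
  have f3 : θ' * (∑ i ∈ big \ (U ∪ L), S i + ∑ i ∈ big \ (U ∪ L), G i) ≤ 2 * l * κ := by
    have t1 := hSl (big \ (U ∪ L))
    have t2 := hGSs (big \ (U ∪ L))
    have t3 : θ' * (∑ i ∈ big \ (U ∪ L), S i + ∑ i ∈ big \ (U ∪ L), G i) ≤ θ' * (2 * l) :=
      mul_le_mul_of_nonneg_left (by linarith) hθ'
    have t4 : θ' * (2 * l) ≤ κ * (2 * l) := mul_le_mul_of_nonneg_right hKθ (by positivity)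
    linarith
  have f6 : ∑ i ∈ big \ (U ∪ L), (S i + G i) ^ 2 ≤ 2 * (x + y) * z :=
    rest57 _ hG hGS (fun i hi => hm i (Finset.mem_sdiff.1 hi).1) hrest (by linarith)
  -- the charts
  have f8 : ∑ j ∈ U, 2 * π * (D j + D' j) ≤
      π / 2 * ∑ j ∈ U, (S j - aa j) * (S j + 3 * aa j) + 2 * π * κ := by
    have t1 : ∑ j ∈ U, 2 * π * (D j + D' j) ≤
        ∑ j ∈ U, (π / 2 * ((S j - aa j) * (S j + 3 * aa j)) + 2 * π * θ') := by
      refine Finset.sum_le_sum fun j hj => ?_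
      have := mul_le_mul_of_nonneg_left (hD j hj).1 (by positivity : 0 ≤ 2 * π)
      linarith
    have t2 : ∑ j ∈ U, (π / 2 * ((S j - aa j) * (S j + 3 * aa j)) + 2 * π * θ') =
        π / 2 * ∑ j ∈ U, (S j - aa j) * (S j + 3 * aa j) + 2 * π * (U.card * θ') := by
      rw [Finset.sum_add_distrib, Finset.sum_const, nsmul_eq_mul, Finset.mul_sum]
      ring
    have t4 := mul_le_mul_of_nonneg_left hcUθ (by positivity : 0 ≤ 2 * π)
    linarith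
  have hκπ : κ ≤ 3.15 := by linarith
  have hθπ : θ ≤ 3.15 := by linarith
  have hl7 : l ≤ 6.3 := by linarith
  have f11 : (X - α + κ) * (X + 3 * α) ≤ (x - A) * (x + 3 * A) + 35 * κ := by
    have t1 : (X - α + κ) * (X + 3 * α) ≤ (x - A + κ) * (x + 3 * A) := by
      refine mul_le_mul (by rw [hA]; linarith) (by rw [hA]; linarith) (by linarith) (by linarith)
    have t2 : κ * (x + 3 * A) ≤ κ * 35 := mul_le_mul_of_nonneg_left (by linarith) hκ0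
    have t3 : (x - A + κ) * (x + 3 * A) = (x - A) * (x + 3 * A) + κ * (x + 3 * A) := by ring
    linarith
  have f12 : π / 2 * ∑ j ∈ U, (S j - aa j) * (S j + 3 * aa j) ≤
      π / 2 * ((x - A) * (x + 3 * A)) + 100 * κ := by
    have t3 : π / 2 * ∑ j ∈ U, (S j - aa j) * (S j + 3 * aa j) ≤
        π / 2 * ((x - A) * (x + 3 * A) + 35 * κ) :=
      mul_le_mul_of_nonneg_left (by linarith) (by positivity)
    have t4 : π / 2 * (35 * κ) ≤ 100 * κ := by nlinarith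
    linarith
  -- the label of the opposite arc
  have sL : ∑ i ∈ L, ((S i + G i + θ') / 2 - h i) =
      (∑ i ∈ L, S i + ∑ i ∈ L, G i + L.card * θ') / 2 - ∑ i ∈ L, h i := by
    rw [Finset.sum_sub_distrib, ← Finset.sum_div, Finset.sum_add_distrib, Finset.sum_add_distrib,
      Finset.sum_const, nsmul_eq_mul]
  rw [sL] at hR
  have hDlS : E2 ≤ ∑ i ∈ Dl, S i := hE2'.trans (hGSs Dl)
  have hρκ : ρ ≤ κ := hρθ.trans hKθ
  have g1 : 2 * R ≤ y + A + (4 * θ + 10 * κ) := by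
    have : 2 * R ≤ 2 * gU + 2 * E2 + (∑ i ∈ L, S i + ∑ i ∈ L, G i + κ) + 4 * θ + 8 * ρ := by
      linarith
    have h5 : 2 * R ≤ y + (G0 + 2 * gU) + (4 * θ + 10 * κ) := by
      rw [hy]
      linarith
    linarith
  have g2 : P ≤ y + A + (2 * θ + 6 * κ) := by
    have : ρ * K ≤ κ := hρK
    have h5 : 2 * ρ * K ≤ 2 * κ := by linarith
    have h6 : P ≤ y + (G0 + 2 * gU) + (2 * θ + 6 * κ) := by
      rw [hP, hy]
      linarith
    linarith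
  have hP0 : 0 ≤ P := by
    rw [hP]
    have := hSn L
    have := hSn Dl
    have := hGn L
    have := hGn Dl
    linarith
  obtain ⟨e, he⟩ : ∃ e, e = θ + κ := ⟨_, rfl⟩
  have he0 : 0 ≤ e := by rw [he]; linarith
  have heπ : e ≤ 3.15 := by rw [he]; linarith
  have hyA0 : 0 ≤ y + A := by linarith
  have hyA : y + A ≤ 16 := by linarith
  have g3 : 2 * R * P ≤ (y + A) ^ 2 + 700 * e := by
    have t1 : 2 * R ≤ y + A + 10 * e := by rw [he]; linarith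
    have t2 : P ≤ y + A + 10 * e := by rw [he]; linarith
    have t3 : 2 * R * P ≤ (y + A + 10 * e) * (y + A + 10 * e) :=
      mul_le_mul t1 t2 hP0 (by linarith)
    have t4 : (y + A + 10 * e) * (y + A + 10 * e) = (y + A) ^ 2 + (20 * (y + A) + 100 * e) * e := by
      ring
    have t5 : (20 * (y + A) + 100 * e) * e ≤ 700 * e := by
      refine mul_le_mul_of_nonneg_right ?_ he0
      linarith
    linarith
  rw [f2] at hm2
  have k1 : 2 * π * κ ≤ 13 * κ := mul_le_mul_of_nonneg_right (by linarith) hκ0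
  have k2 : 4 * l * θ ≤ 26 * θ := mul_le_mul_of_nonneg_right (by linarith) hθ
  have k3 : 2 * l * κ ≤ 13 * κ := mul_le_mul_of_nonneg_right (by linarith) hκ0
  rw [he] at g3
  linarith

end Pool.Agent.FPM
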