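import Mathlib
import Pool.Agent.FPM.PCS

/-
I58T (helper19): the integral of the defect `dE` against the length plus the derivative of the coordinate
`sE` along the level part of a large piece: at most `(S - a) (S + 3 a) / 4`, `a ≥ 2 (q - p) - G`.
-/

open MeasureTheory Set Filter Topology
open scoped ENNReal NNReal

noncomputable section

namespace Pool.Agent.FPM

open Pool.Agent.EWD

variable {M : Type} [MetricSpace M] {γ : ℝ → M}

theorem dE_lip58 (γ : ℝ → M) (e1 e2 : ℝ) : LipschitzWith 1 (dE γ e1 e2) := by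
  refine LipschitzWith.of_dist_le_mul fun x y => ?_
  rw [NNReal.coe_one, one_mul, Real.dist_eq]
  have h1 := abs_dist_sub_le x y (γ e1)
  have h2 := abs_dist_sub_le x y (γ e2)
  unfold dE
  rw [abs_le] at h1 h2 ⊢
  constructor <;> linarith [h1.1, h1.2, h2.1, h2.2]

theorem sE_lip58 (γ : ℝ → M) (e1 e2 : ℝ) : LipschitzWith 1 (sE γ e1 e2) := by
  refine LipschitzWith.of_dist_le_mul fun x y => ?_
  rw [NNReal.coe_one, one_mul, Real.dist_eq]
  have h1 := abs_dist_sub_le x y (γ e1)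
  have h2 := abs_dist_sub_le x y (γ e2)
  unfold sE
  rw [abs_le] at h1 h2 ⊢
  constructor <;> linarith [h1.1, h1.2, h2.1, h2.2]

/-- the defect vanishes on the arc -/
theorem dE_arc58 (hγ : Bd γ) {e1 e2 s : ℝ} (h1 : e1 ≤ s) (h2 : s ≤ e2) (h3 : e2 ≤ e1 + Real.pi) :
    dE γ e1 e2 (γ s) = 0 := by
  unfold dE
  rw [dist_comm (γ s) (γ e1), tri_gam_eq hγ h1 (by linarith), tri_gam_eq hγ h2 (by linarith)]
  ring

/-- `|ds| + |dδ| ≤ |dg|` along the level -/
theorem wed_sd58 (C : Calc M γ) {g : M → ℝ} {H : Om → ℝ}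
    (hpg : ∀ p : M → ℝ, LipschitzWith 1 p → ∀ᵐ o ∂C.μ, |C.wed p g o| ≤ H o) (e1 e2 : ℝ) :
    ∀ᵐ o ∂C.μ, |C.wed (sE γ e1 e2) g o| + |C.wed (dE γ e1 e2) g o| ≤ H o := by
  have l1 : LipschitzWith 1 fun x : M => dist x (γ e1) := LipschitzWith.dist_left _
  have l2 : LipschitzWith 1 fun x : M => dist x (γ e2) := LipschitzWith.dist_left _
  have L1 : Lip fun x : M => dist x (γ e1) := ⟨1, l1⟩
  have L2 : Lip fun x : M => dist x (γ e2) := ⟨1, l2⟩
  have Ls : Lip (sE γ e1 e2) := ⟨1, sE_lip58 γ e1 e2⟩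
  have Ld : Lip (dE γ e1 e2) := ⟨1, dE_lip58 γ e1 e2⟩
  filter_upwards [hpg _ l1, hpg _ l2, C.ae_has L1, C.ae_has L2, C.ae_has Ls, C.ae_has Ld] with o h1 h2 h3 h4 h5 h6
  have s1 : C.gx (sE γ e1 e2) o = (C.gx (fun x => dist x (γ e1)) o - C.gx (fun x => dist x (γ e2)) o) / 2 := by
    have h7 := ((h3.1.sub h4.1).add_const (e2 - e1)).div_const 2
    exact h5.1.unique h7
  have s2 : C.gy (sE γ e1 e2) o = (C.gy (fun x => dist x (γ e1)) o - C.gy (fun x => dist x (γ e2)) o) / 2 := by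
    have h7 := ((h3.2.sub h4.2).add_const (e2 - e1)).div_const 2
    exact h5.2.unique h7
  have s3 : C.gx (dE γ e1 e2) o = (C.gx (fun x => dist x (γ e1)) o + C.gx (fun x => dist x (γ e2)) o) / 2 := by
    have h7 := ((h3.1.add h4.1).sub_const (e2 - e1)).div_const 2
    exact h6.1.unique h7
  have s4 : C.gy (dE γ e1 e2) o = (C.gy (fun x => dist x (γ e1)) o + C.gy (fun x => dist x (γ e2)) o) / 2 := by
    have h7 := ((h3.2.add h4.2).sub_const (e2 - e1)).div_const 2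
    exact h6.2.unique h7
  have w1 : C.wed (sE γ e1 e2) g o = (C.wed (fun x => dist x (γ e1)) g o - C.wed (fun x => dist x (γ e2)) g o) / 2 := by
    unfold Calc.wed
    rw [s1, s2]
    ring
  have w2 : C.wed (dE γ e1 e2) g o = (C.wed (fun x => dist x (γ e1)) g o + C.wed (fun x => dist x (γ e2)) g o) / 2 := by
    unfold Calc.wed
    rw [s3, s4]
    ring
  rw [w1, w2]
  obtain ⟨a1, a2⟩ := abs_le.1 h1
  obtain ⟨b1, b2⟩ := abs_le.1 h2
  have k1 : ∀ u v : ℝ, -H o ≤ u → u ≤ H o → -H o ≤ v → v ≤ H o → |(u - v) / 2| + |(u + v) / 2| ≤ H o := by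
    intro u v c1 c2 c3 c4
    rcases abs_cases ((u - v) / 2) with h | h <;> rcases abs_cases ((u + v) / 2) with h' | h' <;> linarith [h.1, h'.1]
  exact k1 _ _ a1 a2 b1 b2

/-- the integral of a function `w` against `|dw|` over the level part of a connected piece that is
zero on the curve -/
theorem sq_low58 [CompactSpace M] {C : Calc M γ} {H : Om → ℝ} {g w ζ : M → ℝ} {t : ℝ} (hg : Lip g)
    (hw : LipschitzWith 1 w) (hw0 : ∀ x, 0 ≤ w x) (hH : Integrable H C.μ) (hH0 : ∀ᵐ o ∂C.μ, 0 ≤ H o)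
    (hζ : Adc γ g t ζ) (hcu : ∀ s, ζ (γ s) = 1 → t < g (γ s) → w (γ s) = 0)
    (hd : ∀ q : ℚ, 0 < (q : ℝ) → DCI C H g w ζ (Ici (q : ℝ)) t)
    (hD : DifferentiableAt ℝ (mz C (fun o => w (C.pt o) * H o) g ζ) t) {A : Set M} (hA : IsPreconnected A)
    (hAK : ∀ x ∈ A, x ∈ Kt γ g t ∧ ζ x = 1) {x y : M} (hx : x ∈ A) (hy : y ∈ A) (hxy : w x ≤ w y) :
    (w y - w x) ^ 2 ≤ deriv (mz C (fun o => w (C.pt o) * H o) g ζ) t := by
  have lw : Lip w := ⟨1, hw⟩
  obtain ⟨B, hB⟩ : ∃ B, ∀ x, ‖w x‖ ≤ B := by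
    obtain ⟨B, hB⟩ := isCompact_univ.exists_bound_of_continuousOn lw.cont.continuousOn
    exact ⟨B, fun x => hB x (mem_univ x)⟩
  have iw : Integrable (fun o => w (C.pt o) * H o) C.μ :=
    hH.bdd_mul (c := B) (C.meas_pt lw).aestronglyMeasurable (Eventually.of_forall fun o => hB _)
  set E : ℝ := w y - w x with hE
  have hE0 : 0 ≤ E := by rw [hE]; linarith
  have key : ∀ r : ℚ, 0 < (r : ℝ) → E ^ 2 - (r : ℝ) * (E + r) ≤ deriv (mz C (fun o => w (C.pt o) * H o) g ζ) t := by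
    intro r hr
    set N : ℕ := ⌊E / r⌋₊ with hN
    have hN1 : (N : ℝ) * r ≤ E := by
      have := Nat.floor_le (show 0 ≤ E / (r : ℝ) by positivity)
      rw [← hN] at this
      rwa [le_div_iff₀ hr] at this
    have hN2 : E < (N + 1 : ℝ) * r := by
      have := Nat.lt_floor_add_one (E / (r : ℝ))
      rw [← hN] at this
      rwa [div_lt_iff₀ hr] at this
    -- the intervals
    set I : ℕ → Set ℝ := fun j => Ici (((j + 1 : ℕ) * r : ℚ) : ℝ) with hI
    have hq : ∀ j : ℕ, 0 < ((((j + 1 : ℕ) : ℚ) * r : ℚ) : ℝ) := fun j => by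
      push_cast
      positivity
    have hdj : ∀ j : ℕ, DCI C H g w ζ (I j) t := fun j => hd _ (hq j)
    have hHI : ∀ j : ℕ, Integrable (HI C H w (I j)) C.μ := fun j => HI_integrable C hH lw measurableSet_Ici
    have hnn : ∀ j : ℕ, 0 ≤ deriv (mz C (HI C H w (I j)) g ζ) t := fun j =>
      mz_deriv_nonneg C hg hζ.lip hζ.lo hζ.hi (hHI j) (by
        filter_upwards [hH0] with o ho
        exact HI_nonneg ho _ _) t
    have hlow : ∀ j : ℕ, 2 * (E - (j + 1 : ℕ) * r) ≤ deriv (mz C (HI C H w (I j)) g ζ) t := by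
      intro j
      have h1 := low_gen hζ hw.continuous (I := I j) (a := (((j + 1 : ℕ) * r : ℚ) : ℝ)) (b := w y)
        (fun s hs => hs.1) (hdj j) (hnn j) hA hAK hx hy
      have h2 : GI γ g t ζ w (I j) = 0 := by
        unfold GI
        have : Apt γ g t ζ ∩ {r | w (γ r) ∈ I j} = ∅ := by
          ext s
          simp only [mem_inter_iff, mem_ofPred_eq, mem_empty_iff_false, iff_false, not_and]
          intro h3 h4
          rw [hcu s h3.1 h3.2] at h4
          have h5 : ((((j + 1 : ℕ) : ℚ) * r : ℚ) : ℝ) ≤ 0 := h4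
          linarith [hq j]
        rw [this, empty_inter, measure_empty, ENNReal.toReal_zero]
      rw [h2, min_self, sub_zero] at h1
      have h3 : max ((((j + 1 : ℕ) : ℚ) * r : ℚ) : ℝ) (w x) ≤ ((((j + 1 : ℕ) : ℚ) * r : ℚ) : ℝ) + w x :=
        max_le (by linarith [hw0 x]) (by linarith [hq j])
      have h4 : ((((j + 1 : ℕ) : ℚ) * r : ℚ) : ℝ) = (j + 1 : ℕ) * r := by push_cast; ring
      rw [h4] at h3
      have h5 : 2 * (w y - max ((((j + 1 : ℕ) : ℚ) * r : ℚ) : ℝ) (w x)) ≤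
        deriv (mz C (HI C H w (I j)) g ζ) t := h1
      rw [h4] at h5
      rw [hE]
      linarith
    -- comparison
    set R : Om → ℝ := fun o => w (C.pt o) * H o - ∑ j ∈ Finset.range N, (r : ℝ) * HI C H w (I j) o with hR
    have hs : Integrable (fun o => ∑ j ∈ Finset.range N, (r : ℝ) * HI C H w (I j) o) C.μ :=
      integrable_finsetSum _ fun j _ => (hHI j).const_mul _
    have hRi : Integrable R C.μ := iw.sub hs
    have hR0 : ∀ᵐ o ∂C.μ, 0 ≤ R o := by
      filter_upwards [hH0] with o ho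
      simp only [hR]
      have e1 : ∀ j, HI C H w (I j) o = (if (((j + 1 : ℕ) * r : ℚ) : ℝ) ≤ w (C.pt o) then 1 else 0) * H o := by
        intro j
        unfold HI
        by_cases h : (((j + 1 : ℕ) * r : ℚ) : ℝ) ≤ w (C.pt o)
        · rw [if_pos h, indicator_of_mem (show w (C.pt o) ∈ I j from h), one_mul]
        · rw [if_neg h, indicator_of_notMem (show w (C.pt o) ∉ I j from h), zero_mul]
      have e2 : ∑ j ∈ Finset.range N, (r : ℝ) * HI C H w (I j) o =
          (∑ j ∈ Finset.range N, (r : ℝ) * (if (((j + 1 : ℕ) * r : ℚ) : ℝ) ≤ w (C.pt o) then 1 else 0)) * H o := by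
        rw [Finset.sum_mul]
        refine Finset.sum_congr rfl fun j _ => ?_
        rw [e1 j]
        ring
      rw [e2, ← sub_mul]
      refine mul_nonneg ?_ ho
      have h1 : ∀ n : ℕ, ∑ j ∈ Finset.range n, (r : ℝ) * (if (((j + 1 : ℕ) * r : ℚ) : ℝ) ≤ w (C.pt o) then (1 : ℝ) else 0) ≤
          w (C.pt o) := by
        intro n
        induction n with
        | zero => simp [hw0]
        | succ n ih =>
          rw [Finset.sum_range_succ]
          by_cases h : (((n + 1 : ℕ) * r : ℚ) : ℝ) ≤ w (C.pt o)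
          · rw [if_pos h, mul_one]
            have h2 : ∑ j ∈ Finset.range n, (r : ℝ) * (if (((j + 1 : ℕ) * r : ℚ) : ℝ) ≤ w (C.pt o) then (1 : ℝ) else 0) ≤
                ∑ j ∈ Finset.range n, (r : ℝ) := by
              refine Finset.sum_le_sum fun j _ => ?_
              split_ifs
              · linarith
              · linarith
            rw [Finset.sum_const, Finset.card_range, nsmul_eq_mul] at h2
            push_cast at h
            linarith
          · rw [if_neg h, mul_zero, add_zero]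
            exact ih
      linarith [h1 N]
    have e : mz C R g ζ = fun τ => mz C (fun o => w (C.pt o) * H o) g ζ τ -
        ∑ j ∈ Finset.range N, (r : ℝ) * mz C (HI C H w (I j)) g ζ τ := by
      funext τ
      have h1 : ∀ j, (r : ℝ) * mz C (HI C H w (I j)) g ζ τ =
          ∫ o in {o | g (C.pt o) < τ}, ζ (C.pt o) * ((r : ℝ) * HI C H w (I j) o) ∂C.μ := by
        intro j
        unfold mz
        rw [← integral_const_mul]
        congr 1
        funext o
        ring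
      simp only [h1]
      unfold mz
      rw [← integral_finsetSum _ (fun j _ => (integrable_zH C hζ.lip hζ.lo hζ.hi ((hHI j).const_mul _)).integrableOn),
        ← integral_sub (integrable_zH C hζ.lip hζ.lo hζ.hi iw).integrableOn
          (integrable_finsetSum _ fun j _ => (integrable_zH C hζ.lip hζ.lo hζ.hi ((hHI j).const_mul _)).integrableOn)]
      congr 1
      funext o
      simp only [hR]
      rw [mul_sub, Finset.mul_sum]
    have h2 : 0 ≤ deriv (mz C R g ζ) t := mz_deriv_nonneg C hg hζ.lip hζ.lo hζ.hi hRi hR0 t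
    have h3 : HasDerivAt (fun τ => mz C (fun o => w (C.pt o) * H o) g ζ τ -
        ∑ j ∈ Finset.range N, (r : ℝ) * mz C (HI C H w (I j)) g ζ τ)
        (deriv (mz C (fun o => w (C.pt o) * H o) g ζ) t -
          ∑ j ∈ Finset.range N, (r : ℝ) * deriv (mz C (HI C H w (I j)) g ζ) t) t :=
      hD.hasDerivAt.sub (HasDerivAt.fun_sum fun j _ => ((hdj j hζ).1.hasDerivAt.const_mul (r : ℝ)))
    rw [e, h3.deriv] at h2
    have h4 : ∑ j ∈ Finset.range N, (r : ℝ) * (2 * (E - (j + 1 : ℕ) * r)) ≤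
        ∑ j ∈ Finset.range N, (r : ℝ) * deriv (mz C (HI C H w (I j)) g ζ) t :=
      Finset.sum_le_sum fun j _ => mul_le_mul_of_nonneg_left (hlow j) hr.le
    have h5 : ∀ n : ℕ, ∑ j ∈ Finset.range n, (r : ℝ) * (2 * (E - (j + 1 : ℕ) * r)) =
        2 * (n * r) * E - (n * r) ^ 2 - (n * r) * r := by
      intro n
      induction n with
      | zero => simp
      | succ n ih =>
        rw [Finset.sum_range_succ, ih]
        push_cast
        ring
    rw [h5] at h4
    have hu0 : 0 ≤ (N : ℝ) * r := by positivity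
    nlinarith [sq_nonneg (E - (N : ℝ) * r), mul_nonneg hu0 hr.le]
  refine le_of_forall_pos_le_add fun ζ' hζ' => ?_
  obtain ⟨r, hr1, hr2⟩ := exists_rat_btwn (show (0 : ℝ) < min 1 (ζ' / (E + 1)) by positivity)
  have h1 := key r hr1
  have h2 : (r : ℝ) ≤ 1 := hr2.le.trans (min_le_left _ _)
  have h3 : (r : ℝ) * (E + 1) ≤ ζ' := by
    have := hr2.le.trans (min_le_right _ _)
    rwa [le_div_iff₀ (by linarith)] at this
  have h4 : (r : ℝ) * (E + r) ≤ r * (E + 1) := mul_le_mul_of_nonneg_left (by linarith) hr1.le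
  linarith

/-- the final numerical step -/
theorem tri_num58 {S G h D₀ ρ : ℝ} (hS : 0 ≤ S) (hG0 : 0 ≤ G) (hGh : G ≤ h) (hSG : S + G ≤ 2 * Real.pi)
    (hρ0 : 0 < ρ) (hρ : ρ ≤ 1) (hD0 : 0 ≤ D₀) (hD : D₀ ≤ (S + G) / 2 - h + 3 * ρ) :
    ∃ a : ℝ, 2 * h - G ≤ a ∧ a ≤ S + 6 * ρ ∧
      2 * S * D₀ - 3 * D₀ ^ 2 ≤ (S - a) * (S + 3 * a) / 4 + 100 * ρ := by
  have hpi := Real.pi_lt_d2
  have hpi0 := Real.pi_pos
  set e : ℝ := (S + G) / 2 - h with he
  have heL : -(3 * ρ) ≤ e := by linarith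
  refine ⟨S - 2 * min D₀ e, ?_, ?_, ?_⟩
  · have := min_le_right D₀ e
    rw [he] at this ⊢
    linarith
  · have : -(3 * ρ) ≤ min D₀ e := le_min (by linarith) heL
    linarith
  · have e1 : (S - (S - 2 * min D₀ e)) * (S + 3 * (S - 2 * min D₀ e)) / 4 =
        2 * S * min D₀ e - 3 * min D₀ e ^ 2 := by ring
    rw [e1]
    rcases le_total D₀ e with h2 | h2
    · rw [min_eq_left h2]
      linarith
    · rw [min_eq_right h2]
      have hS2 : S ≤ 6.3 := by linarith
      have h3 : S * D₀ ≤ S * e + 3 * (S * ρ) := by nlinarith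
      have hS3 : S * ρ ≤ 6.3 * ρ := mul_le_mul_of_nonneg_right hS2 hρ0.le
      have h4 : e ^ 2 - D₀ ^ 2 ≤ 9 * ρ := by
        rcases le_total 0 e with h5 | h5
        · nlinarith
        · nlinarith
      linarith

variable [CompactSpace M]

/-- the integral of the excess, and of the excess against `|ds|`, over the level part of a piece with
the hull `[p, q]` -/
theorem TRI58 (C : Calc M γ) (hγ : Bd γ) (hR : RegPl C) {g : M → ℝ} (hg : Lip g)
    {H : Om → ℝ} (hH : Integrable H C.μ)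
    (hpg : ∀ p : M → ℝ, LipschitzWith 1 p → ∀ᵐ o ∂C.μ, |C.wed p g o| ≤ H o)
    {Z : ℕ → M → ℝ} (hZl : ∀ n, Lip (Z n)) (hZ0 : ∀ n x, 0 ≤ Z n x) (hZ1 : ∀ n x, Z n x ≤ 1) :
    ∀ᵐ t : ℝ, ∀ e1 e2 : ℚ, (e1 : ℝ) ≤ e2 → (e2 : ℝ) ≤ e1 + Real.pi → ∀ n, Adc γ g t (Z n) →
      ∀ (A : Set M) (p q ρ : ℝ), IsPreconnected A →
      (∀ x ∈ A, x ∈ Kt γ g t ∧ Z n x = 1) → p ≤ q → q < p + Real.pi → 0 < ρ → ρ ≤ 1 →
      (∃ x ∈ A, dist x (γ p) ≤ ρ) → (∃ x ∈ A, dist x (γ q) ≤ ρ) →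
      (∀ s, Z n (γ s) = 1 → t ≤ g (γ s) → ∃ m : ℤ, s + m * (2 * Real.pi) ∈ Icc p q) →
      (∃ δ : ℝ, 0 < δ ∧ ∀ x, |g x - t| ≤ δ → Z n x ≠ 0 → ∃ a ∈ A, dist x a ≤ ρ) →
      deriv (mz C H g (Z n)) t + Gz γ g t (Z n) < 2 * Real.pi →
      (e1 : ℝ) ≤ p → q ≤ e2 → ∀ D D' : ℝ,
      HasDerivAt (mz C (fun o => dE γ e1 e2 (C.pt o) * H o) g (Z n)) D t →
      HasDerivAt (mz C (fun o => dE γ e1 e2 (C.pt o) * |C.wed (sE γ e1 e2) g o|) g (Z n)) D' t →
      ∃ a : ℝ, 2 * (q - p) - Gz γ g t (Z n) ≤ a ∧ a ≤ deriv (mz C H g (Z n)) t + 6 * ρ ∧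
        D + D' ≤ (deriv (mz C H g (Z n)) t - a) * (deriv (mz C H g (Z n)) t + 3 * a) / 4 + 1000 * ρ := by
  rcases isEmpty_or_nonempty M with hM | hM
  · exact (hM.false (γ 0)).elim
  have hpi := Real.pi_pos
  have hpi2 := Real.pi_lt_d2
  have hH0 : ∀ᵐ o ∂C.μ, 0 ≤ H o := by
    filter_upwards [hpg (fun _ => 0) ((LipschitzWith.const 0).weaken zero_le_one)] with o ho
    exact (abs_nonneg _).trans ho
  have a1 : ∀ᵐ t : ℝ, ∀ n : ℕ, GoodT C H g (TopologicalSpace.denseSeq M) (Z n) t := by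
    rw [ae_all_iff]
    intro n
    exact goodT_ae C hγ hR hg hH hpg _ (hZl n) (hZ0 n) (hZ1 n)
  have iwd : ∀ e1 e2 : ℝ, Integrable (fun o => |C.wed (dE γ e1 e2) g o|) C.μ := fun e1 e2 =>
    (integrable_wed C ⟨1, dE_lip58 γ e1 e2⟩ hg).abs
  have iws : ∀ e1 e2 : ℝ, Integrable (fun o => |C.wed (sE γ e1 e2) g o|) C.μ := fun e1 e2 =>
    (integrable_wed C ⟨1, sE_lip58 γ e1 e2⟩ hg).abs
  have bdE : ∀ (e1 e2 : ℝ) (K : Om → ℝ), Integrable K C.μ →
      Integrable (fun o => dE γ e1 e2 (C.pt o) * K o) C.μ := fun e1 e2 K hK =>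
    hK.bdd_mul (c := Metric.diam (univ : Set M) + |e2 - e1|)
      (C.meas_pt (lip_dEpc γ _ _)).aestronglyMeasurable (Eventually.of_forall fun o => by
        rw [Real.norm_eq_abs]
        exact dE_le57 γ _ _ _)
  have a2 : ∀ᵐ t : ℝ, ∀ (e1 e2 : ℚ) (n : ℕ) (r : ℚ),
      DCI C (fun o => |C.wed (dE γ e1 e2) g o|) g (dE γ e1 e2) (Z n) (Ici (r : ℝ)) t := by
    rw [ae_all_iff]
    intro e1
    rw [ae_all_iff]
    intro e2
    rw [ae_all_iff]
    intro n
    rw [ae_all_iff]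
    intro r
    exact F1_loc C hγ hR hg (dE_lip58 γ _ _) (iwd _ _) (Eventually.of_forall fun o => le_rfl)
      measurableSet_Ici
  have a3 : ∀ᵐ t : ℝ, ∀ (e1 e2 : ℚ) (n : ℕ), (e1 : ℝ) ≤ e2 → (e2 : ℝ) ≤ e1 + Real.pi →
      DifferentiableAt ℝ (mz C (fun o => dE γ e1 e2 (C.pt o) * |C.wed (dE γ e1 e2) g o|) g (Z n)) t := by
    rw [ae_all_iff]
    intro e1
    rw [ae_all_iff]
    intro e2
    rw [ae_all_iff]
    intro n
    by_cases h1 : (e1 : ℝ) ≤ e2
    · by_cases h2 : (e2 : ℝ) ≤ e1 + Real.pi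
      · filter_upwards [(mz_mono C hg (hZl n) (hZ0 n) (hZ1 n) (bdE e1 e2 _ (iwd _ _))
          (Eventually.of_forall fun o => mul_nonneg (dE_nonneg57 hγ h1 h2 _)
            (abs_nonneg _))).ae_differentiableAt] with t ht _ _
        exact ht
      · exact Eventually.of_forall fun t _ h => absurd h h2
    · exact Eventually.of_forall fun t h => absurd h h1
  filter_upwards [a1, TRI0 C hγ hR hg hH hpg hZl hZ0 hZ1, a2, a3] with t hG0 hT0 hdc hdf e1 e2 he12 he21 n hn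
    A p q ρ hA hAK hpq hq hρ0 hρ1 hAp hAq hull hnear hSG he1 he2 D D' hD hD'
  have hG := hG0 n
  have hT := hT0 n hn A hA hAK
  obtain ⟨x₁, hx₁, dx₁⟩ := hAp
  obtain ⟨x₂, hx₂, dx₂⟩ := hAq
  obtain ⟨δ₀, hδ₀, hnr⟩ := hnear
  set S := deriv (mz C H g (Z n)) t with hS
  set G := Gz γ g t (Z n) with hGd
  have hS0 : 0 ≤ S := mz_deriv_nonneg C hg (hZl n) (hZ0 n) (hZ1 n) hH hH0 t
  have hG00 : 0 ≤ G := ENNReal.toReal_nonneg
  have hGh : G ≤ q - p := by
    have h1 := GI_hull hγ hg (hZl n) (P := fun _ => (0 : ℝ)) continuous_const (I := univ)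
      MeasurableSet.univ (by linarith) hull hpq (fun s hs _ => hs)
    have h2 : GI γ g t (Z n) (fun _ => (0 : ℝ)) univ = G := by
      rw [hGd]
      unfold GI Gz
      congr 2
      ext r
      simp
    rwa [h2] at h1
  have hee : dist (γ p) (γ q) = q - p := tri_gam_eq hγ hpq (by linarith)
  -- the perimeter
  have hper : ∀ x, (∃ a ∈ A, dist x a ≤ ρ) → dist x (γ p) + dist x (γ q) + (q - p) ≤ S + G + 6 * ρ := by
    intro x hx
    have h1 := hT ρ x (γ p) (γ q) hx ⟨x₁, hx₁, by rw [dist_comm]; exact dx₁⟩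
      ⟨x₂, hx₂, by rw [dist_comm]; exact dx₂⟩
    rw [hee, dist_comm (γ q) x] at h1
    linarith
  set wt : M → ℝ := dE γ e1 e2 with hwt
  have hwt0 : ∀ x, 0 ≤ wt x := fun x => dE_nonneg57 hγ he12 he21 x
  have hw2 : ∀ x, wt x ≤ (dist x (γ p) + dist x (γ q) - (q - p)) / 2 := by
    intro x
    have h2 : dist x (γ e1) ≤ dist x (γ p) + (p - e1) := by
      have c1 := dist_triangle x (γ p) (γ e1)
      have c2 := tri_gam_le hγ p e1
      rw [abs_of_nonneg (by linarith)] at c2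
      linarith
    have h3 : dist x (γ e2) ≤ dist x (γ q) + (e2 - q) := by
      have c1 := dist_triangle x (γ q) (γ e2)
      have c2 := tri_gam_le hγ q e2
      rw [abs_sub_comm, abs_of_nonneg (by linarith)] at c2
      linarith
    simp only [hwt, dE]
    linarith
  have hwm : ∀ x, wt x ≤ min (dist x (γ p)) (dist x (γ q)) := by
    intro x
    have h4 := hw2 x
    have h5 := dist_triangle x (γ p) (γ q)
    have h6 := dist_triangle x (γ q) (γ p)
    rw [hee] at h5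
    rw [dist_comm (γ q), hee] at h6
    exact le_min (by linarith) (by linarith)
  have hbdd : BddAbove (wt '' A) := by
    refine ⟨S + G + 6 * ρ, ?_⟩
    rintro _ ⟨x, hx, rfl⟩
    have h1 := hper x ⟨x, hx, by rw [dist_self]; exact hρ0.le⟩
    have h2 := (hwm x).trans (min_le_left _ _)
    have h3 : 0 ≤ dist x (γ q) := dist_nonneg
    linarith
  have hne : (wt '' A).Nonempty := ⟨_, mem_image_of_mem wt hx₁⟩
  set E : ℝ := sSup (wt '' A) with hE
  have hE0 : 0 ≤ E := (hwt0 x₁).trans (le_csSup hbdd (mem_image_of_mem wt hx₁))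
  obtain ⟨_, ⟨y, hy, rfl⟩, hyR⟩ := exists_lt_of_lt_csSup hne (show E - ρ < E by linarith)
  set D₀ : ℝ := min ((S + G) / 2 - (q - p) + 3 * ρ) (E + ρ) with hD₀
  have hD₀1 : D₀ ≤ E + ρ := min_le_right _ _
  have hD₀0 : 0 ≤ D₀ := by
    refine le_min ?_ (by linarith)
    have h1 := hper x₁ ⟨x₁, hx₁, by rw [dist_self]; exact hρ0.le⟩
    have h2 := dist_triangle (γ p) x₁ (γ q)
    rw [hee, dist_comm (γ p)] at h2
    linarith
  have hD₀2 : D₀ ≤ 10 := by
    have : D₀ ≤ (S + G) / 2 - (q - p) + 3 * ρ := min_le_left _ _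
    linarith
  have hwty := hwm y
  have d3 : D₀ - 2 * ρ ≤ dist y (γ p) := by
    have h2 := hwty.trans (min_le_left _ _)
    linarith
  have d4 : D₀ - 2 * ρ ≤ dist y (γ q) := by
    have h2 := hwty.trans (min_le_right _ _)
    linarith
  have lwt1 : LipschitzWith 1 wt := dE_lip58 γ e1 e2
  have lwt : Lip wt := ⟨1, lwt1⟩
  have hwle : ∀ x, (∃ a ∈ A, dist x a ≤ ρ) → wt x ≤ min (min (dist x (γ p)) (dist x (γ q))) D₀ := by
    rintro x ⟨a, ha, hxa⟩
    have h1 := hper x ⟨a, ha, hxa⟩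
    refine le_min (hwm x) (le_min (by linarith [hw2 x]) ?_)
    have h8 : wt a ≤ E := le_csSup hbdd (mem_image_of_mem wt ha)
    have h9 : wt x ≤ wt a + ρ := by
      have c1 := lwt1.dist_le_mul x a
      rw [NNReal.coe_one, one_mul, Real.dist_eq] at c1
      have c2 := (abs_le.1 c1).2
      linarith
    linarith
  have hm0 : ∀ x, 0 ≤ min (dist x (γ p)) (dist x (γ q)) := fun x => le_min dist_nonneg dist_nonneg
  have iwt : Integrable (fun o => wt (C.pt o) * H o) C.μ := bdE e1 e2 H hH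
  have lw2 : Lip (fun x : M => min (min (dist x (γ p)) (dist x (γ q))) D₀) :=
    ⟨_, (lip_min_dist (γ p) (γ q)).min (LipschitzWith.const D₀ (α := M))⟩
  have iw2 : Integrable (fun o => H o * min (min (dist (C.pt o) (γ p)) (dist (C.pt o) (γ q))) D₀) C.μ := by
    have h1 := hH.bdd_mul (c := D₀) (C.meas_pt lw2).aestronglyMeasurable (Eventually.of_forall fun o => by
      rw [Real.norm_eq_abs, abs_of_nonneg (le_min (hm0 _) hD₀0)]
      exact min_le_right _ _)
    refine h1.congr (Eventually.of_forall fun o => ?_)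
    simp only
    ring
  -- the first derivative
  have key : D ≤ S * D₀ - D₀ ^ 2 + 12 * (2 * ρ) * D₀ + ρ := by
    obtain ⟨δ₁, hδ₁, hint⟩ := TRI_int hγ hg hH hH0 (TopologicalSpace.denseRange_denseSeq M) hG hn hpq
      (by linarith) hull hA hAK hx₁ hx₂ hy hD₀0 (κ := 2 * ρ) (by linarith) (by linarith) (by linarith)
      d3 d4 hρ0
    have h1 : ∀ᶠ h in 𝓝[>] (0 : ℝ), h⁻¹ • (mz C (fun o => wt (C.pt o) * H o) g (Z n) (t + h) -
        mz C (fun o => wt (C.pt o) * H o) g (Z n) t) ≤ S * D₀ - D₀ ^ 2 + 12 * (2 * ρ) * D₀ + ρ := by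
      filter_upwards [Ioo_mem_nhdsGT (show (0 : ℝ) < min δ₀ δ₁ from lt_min hδ₀ hδ₁)] with h hh
      have hh1 : h < δ₀ := hh.2.trans_le (min_le_left _ _)
      have hh2 : h < δ₁ := hh.2.trans_le (min_le_right _ _)
      have h2 := hint h hh.1 hh2
      have h3 := mz_incr_loc C hg (hZl n) (hZ0 n) (hZ1 n) iwt iw2 (show t ≤ t + h by linarith [hh.1]) (by
        filter_upwards [hH0] with o ho h4 h5
        by_cases h6 : Z n (C.pt o) = 0
        · rw [h6, zero_mul, zero_mul]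
        · refine mul_le_mul_of_nonneg_left ?_ (hZ0 n _)
          rw [mul_comm (wt (C.pt o))]
          refine mul_le_mul_of_nonneg_left (hwle _ (hnr _ ?_ h6)) ho
          rw [abs_le]
          constructor <;> linarith)
      rw [smul_eq_mul, inv_mul_le_iff₀ hh.1]
      exact h3.trans h2
    have h3 := (hasDerivAt_iff_tendsto_slope_zero.1 hD).mono_left (nhdsGT_le_nhdsNE (0 : ℝ))
    exact le_of_tendsto h3 h1
  -- the second derivative
  set D₂ : ℝ := deriv (mz C (fun o => wt (C.pt o) * |C.wed wt g o|) g (Z n)) t with hD₂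
  have hd2 : DifferentiableAt ℝ (mz C (fun o => wt (C.pt o) * |C.wed wt g o|) g (Z n)) t :=
    hdf e1 e2 n he12 he21
  have i2 : Integrable (fun o => wt (C.pt o) * |C.wed wt g o|) C.μ := bdE e1 e2 _ (iwd _ _)
  have i3 : Integrable (fun o => wt (C.pt o) * |C.wed (sE γ e1 e2) g o|) C.μ := bdE e1 e2 _ (iws _ _)
  have k2 : D' ≤ D - D₂ := by
    have i12 : Integrable (fun o => wt (C.pt o) * H o - wt (C.pt o) * |C.wed wt g o|) C.μ := iwt.sub i2
    have i123 : Integrable (fun o => (wt (C.pt o) * H o - wt (C.pt o) * |C.wed wt g o|) -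
        wt (C.pt o) * |C.wed (sE γ e1 e2) g o|) C.μ := i12.sub i3
    have h1 := mz_deriv_nonneg C hg (hZl n) (hZ0 n) (hZ1 n) i123 (by
      filter_upwards [wed_sd58 C hpg e1 e2] with o ho
      have h2 := mul_le_mul_of_nonneg_left ho (hwt0 (C.pt o))
      rw [← hwt] at h2
      linarith) t
    have h2 : mz C (fun o => (wt (C.pt o) * H o - wt (C.pt o) * |C.wed wt g o|) -
        wt (C.pt o) * |C.wed (sE γ e1 e2) g o|) g (Z n) = fun τ =>
        (mz C (fun o => wt (C.pt o) * H o) g (Z n) τ - mz C (fun o => wt (C.pt o) * |C.wed wt g o|) g (Z n) τ) -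
          mz C (fun o => wt (C.pt o) * |C.wed (sE γ e1 e2) g o|) g (Z n) τ := by
      funext τ
      rw [mz_sub C (hZl n) (hZ0 n) (hZ1 n) i3 i12 τ, mz_sub C (hZl n) (hZ0 n) (hZ1 n) i2 iwt τ]
    have h3 : HasDerivAt (fun τ =>
        (mz C (fun o => wt (C.pt o) * H o) g (Z n) τ - mz C (fun o => wt (C.pt o) * |C.wed wt g o|) g (Z n) τ) -
          mz C (fun o => wt (C.pt o) * |C.wed (sE γ e1 e2) g o|) g (Z n) τ) (D - D₂ - D') t :=
      (hD.sub hd2.hasDerivAt).sub hD'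
    rw [h2, h3.deriv] at h1
    linarith
  have k3 : D₀ ^ 2 - 100 * ρ ≤ D₂ := by
    have hD2n : 0 ≤ D₂ := mz_deriv_nonneg C hg (hZl n) (hZ0 n) (hZ1 n) (bdE e1 e2 _ (iwd _ _))
      (Eventually.of_forall fun o => mul_nonneg (hwt0 _) (abs_nonneg _)) t
    have hx₁w : wt x₁ ≤ ρ := ((hwm x₁).trans (min_le_left _ _)).trans dx₁
    rcases le_total (wt x₁) (wt y) with hle | hle
    · have h1 := sq_low58 hg lwt1 hwt0 (iwd e1 e2) (Eventually.of_forall fun o => abs_nonneg _) hn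
        (fun s hs1 hs2 => by
          obtain ⟨m, hm1, hm2⟩ := hull s hs1 hs2.le
          have h2 := gam_int hγ s m
          rw [← h2]
          exact dE_arc58 hγ (by linarith) (by linarith) he21)
        (fun r _ => hdc e1 e2 n r) hd2 hA hAK hx₁ hy hle
      have h2 : D₀ - 3 * ρ ≤ wt y - wt x₁ := by linarith
      have h3 : D₀ ^ 2 - 60 * ρ - 0 ≤ (wt y - wt x₁) ^ 2 := by
        rcases le_total (D₀ - 3 * ρ) 0 with h4 | h4
        · nlinarith [sq_nonneg (wt y - wt x₁)]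
        · nlinarith
      linarith
    · have h2 : D₀ ≤ 3 * ρ := by linarith
      nlinarith
  obtain ⟨a, ha1, ha2, ha3⟩ := tri_num58 hS0 hG00 hGh hSG.le hρ0 hρ1 hD₀0 (min_le_left _ _)
  refine ⟨a, ha1, ha2, ?_⟩
  have h5 : 12 * (2 * ρ) * D₀ ≤ 240 * ρ := by nlinarith
  linarith

end Pool.Agent.FPM
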