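import Mathlib
import Pool.Agent.FPM.I58T

/-
I58P (helper19): the pieces of the boundary of a superlevel set with the two estimates of the defect
(`TRI` of helper87 and `TRI58`).
-/

open MeasureTheory Set Filter Topology
open scoped ENNReal NNReal

noncomputable section

namespace Pool.Agent.FPM

open Pool.Agent.EWD

variable {M : Type} [MetricSpace M] {γ : ℝ → M}

/-- the pieces at almost every level, with the integrals of the defect -/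
theorem pcs58 [CompactSpace M] (C : Calc M γ) (hγ : Bd γ) (hR : RegPl C) {g : M → ℝ} (hg : Lip g)
    {H : Om → ℝ} (hH : Integrable H C.μ)
    (hpg : ∀ p : M → ℝ, LipschitzWith 1 p → ∀ᵐ o ∂C.μ, |C.wed p g o| ≤ H o)
    {Z : ℕ → M → ℝ} (hZl : ∀ n, Lip (Z n)) (hZ0 : ∀ n x, 0 ≤ Z n x) (hZ1 : ∀ n x, Z n x ≤ 1)
    (hZc : ∀ K P : Set M, Pc K P → ∃ n, Cut (Z n) K P) :
    ∀ᵐ t : ℝ, DifferentiableAt ℝ (mz C H g fun _ => 1) t ∧
      (∀ (e1 e2 : ℚ) (n : ℕ), (e1 : ℝ) ≤ e2 → (e2 : ℝ) ≤ e1 + Real.pi →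
        DifferentiableAt ℝ (mz C (fun o => dE γ e1 e2 (C.pt o) * H o) g (Z n)) t) ∧
      (∀ (e1 e2 : ℚ) (n : ℕ), (e1 : ℝ) ≤ e2 → (e2 : ℝ) ≤ e1 + Real.pi →
        DifferentiableAt ℝ (mz C (fun o => dE γ e1 e2 (C.pt o) * |C.wed (sE γ e1 e2) g o|) g (Z n)) t) ∧
      (deriv (mz C H g fun _ => 1) t + Gz γ g t (fun _ => 1) < 2 * Real.pi →
      Gz γ g t (fun _ => 1) ≤ Real.pi →
      Gz γ g t (fun _ => 1) ≤ deriv (mz C H g fun _ => 1) t ∧
      ∀ θ : ℝ, 0 < θ → ∃ (k : ℕ) (A : Fin k → Set M), ∀ θ' : ℝ, 0 < θ' → ∃ (m : ℕ)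
        (n : Fin k ⊕ Fin m → ℕ) (O : Fin k ⊕ Fin m → Set M),
        Pcs C H g t θ θ' A (fun i => Z (n i)) O ∧
        (∀ (i : Fin k) (p q : ℝ), p ≤ q → q < p + Real.pi → γ p ∈ O (Sum.inl i) →
          γ q ∈ O (Sum.inl i) →
          (∀ s, γ s ∈ O (Sum.inl i) → t ≤ g (γ s) → ∃ m : ℤ, s + m * (2 * Real.pi) ∈ Icc p q) →
          ∀ e1 e2 D : ℝ, e1 ≤ p → q ≤ e2 →
          HasDerivAt (mz C (fun o => dE γ e1 e2 (C.pt o) * H o) g (Z (n (Sum.inl i)))) D t →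
          D ≤ (deriv (mz C H g (Z (n (Sum.inl i)))) t ^ 2 -
            (2 * (q - p) - Gz γ g t (Z (n (Sum.inl i)))) ^ 2) / 4 + θ') ∧
        (∀ (i : Fin k) (p q : ℝ), p ≤ q → q < p + Real.pi → γ p ∈ O (Sum.inl i) →
          γ q ∈ O (Sum.inl i) →
          (∀ s, γ s ∈ O (Sum.inl i) → t ≤ g (γ s) → ∃ m : ℤ, s + m * (2 * Real.pi) ∈ Icc p q) →
          ∀ e1 e2 : ℚ, (e1 : ℝ) ≤ p → q ≤ e2 → (e2 : ℝ) ≤ e1 + Real.pi → ∀ D D' : ℝ,
          HasDerivAt (mz C (fun o => dE γ e1 e2 (C.pt o) * H o) g (Z (n (Sum.inl i)))) D t →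
          HasDerivAt (mz C (fun o => dE γ e1 e2 (C.pt o) * |C.wed (sE γ e1 e2) g o|) g
            (Z (n (Sum.inl i)))) D' t →
          ∃ a : ℝ, 2 * (q - p) - Gz γ g t (Z (n (Sum.inl i))) ≤ a ∧
            a ≤ deriv (mz C H g (Z (n (Sum.inl i)))) t + θ' ∧
            D + D' ≤ (deriv (mz C H g (Z (n (Sum.inl i)))) t - a) *
              (deriv (mz C H g (Z (n (Sum.inl i)))) t + 3 * a) / 4 + θ')) := by
  have hH0 : ∀ᵐ o ∂C.μ, 0 ≤ H o := by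
    filter_upwards [hpg (fun _ => 0) ((LipschitzWith.const 0).weaken zero_le_one)] with o ho
    exact (abs_nonneg _).trans ho
  have bdE : ∀ (e1 e2 : ℝ) (K : Om → ℝ), Integrable K C.μ →
      Integrable (fun o => dE γ e1 e2 (C.pt o) * K o) C.μ := fun e1 e2 K hK =>
    hK.bdd_mul (c := Metric.diam (univ : Set M) + |e2 - e1|)
      (C.meas_pt (lip_dEpc γ _ _)).aestronglyMeasurable (Eventually.of_forall fun o => by
        rw [Real.norm_eq_abs]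
        exact dE_le57 γ _ _ _)
  have aK : ∀ K : ℚ → ℚ → Om → ℝ, (∀ e1 e2, Integrable (K e1 e2) C.μ) →
      (∀ e1 e2, ∀ᵐ o ∂C.μ, 0 ≤ K e1 e2 o) →
      ∀ᵐ t : ℝ, ∀ (e1 e2 : ℚ) (n : ℕ), (e1 : ℝ) ≤ e2 → (e2 : ℝ) ≤ e1 + Real.pi →
      DifferentiableAt ℝ (mz C (fun o => dE γ e1 e2 (C.pt o) * K e1 e2 o) g (Z n)) t := by
    intro K hK hK0
    rw [ae_all_iff]
    intro e1
    rw [ae_all_iff]
    intro e2
    rw [ae_all_iff]
    intro n
    by_cases h1 : (e1 : ℝ) ≤ e2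
    · by_cases h2 : (e2 : ℝ) ≤ e1 + Real.pi
      · have i2 : ∀ᵐ o ∂C.μ, 0 ≤ dE γ e1 e2 (C.pt o) * K e1 e2 o := by
          filter_upwards [hK0 e1 e2] with o ho
          exact mul_nonneg (dE_nonneg57 hγ h1 h2 _) ho
        filter_upwards [(mz_mono C hg (hZl n) (hZ0 n) (hZ1 n) (bdE e1 e2 _ (hK e1 e2)) i2).ae_differentiableAt]
          with t ht _ _
        exact ht
      · exact Eventually.of_forall fun t _ h => absurd h h2
    · exact Eventually.of_forall fun t h => absurd h h1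
  filter_upwards [pcs0 C hγ hR hg hH hpg hZl hZ0 hZ1 hZc, aK (fun _ _ => H) (fun _ _ => hH) (fun _ _ => hH0),
    aK (fun e1 e2 o => |C.wed (sE γ e1 e2) g o|)
      (fun e1 e2 => (integrable_wed C ⟨1, sE_lip58 γ e1 e2⟩ hg).abs)
      (fun e1 e2 => Eventually.of_forall fun o => abs_nonneg _),
    TRI C hγ hR hg hH hpg hZl hZ0 hZ1, TRI58 C hγ hR hg hH hpg hZl hZ0 hZ1] with t t1 t2 t2' t3 t4
  refine ⟨t1.1, t2, t2', fun hSG hG => ?_⟩
  obtain ⟨h1, h2⟩ := t1.2 hSG hG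
  refine ⟨h1, fun θ hθ => ?_⟩
  obtain ⟨k, A, h3⟩ := h2 θ hθ
  refine ⟨k, A, fun θ' hθ' => ?_⟩
  obtain ⟨m, n, O, h4⟩ := h3 (min (θ' / 1000) 1) (lt_min (by linarith) one_pos)
  have hle : min (θ' / 1000) 1 ≤ θ' := (min_le_left _ _).trans (by linarith)
  have hle2 : min (θ' / 1000) 1 ≤ θ' / 1000 := min_le_left _ _
  obtain ⟨δ, hδ, hδO⟩ := TMB_lev hg.cont (isOpen_iUnion h4.op) (t := t) fun x hx => h4.cov (Or.inl hx)
  have hK : ∀ i, ∀ x ∈ Kt γ g t, Z (n (Sum.inl i)) x ≠ 0 → x ∈ O (Sum.inl i) := by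
    intro i x hx h5
    obtain ⟨j, hj⟩ := mem_iUnion.1 (h4.cov hx)
    by_cases h6 : j = Sum.inl i
    · rwa [h6] at hj
    · exact absurd (h4.zer (Sum.inl i) j (Ne.symm h6) x hj) h5
  have hSGi : ∀ i, deriv (mz C H g (Z (n (Sum.inl i)))) t + Gz γ g t (Z (n (Sum.inl i))) < 2 * Real.pi := by
    intro i
    have h5 : deriv (mz C H g (Z (n (Sum.inl i)))) t ≤ deriv (mz C H g fun _ => 1) t := by
      rw [← h4.sumS]
      exact Finset.single_le_sum (f := fun i => deriv (mz C H g (Z (n i))) t)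
        (fun j _ => h4.S0 j) (Finset.mem_univ (Sum.inl i))
    have h6 : Gz γ g t (Z (n (Sum.inl i))) ≤ Gz γ g t (fun _ => 1) := by
      rw [← h4.sumG]
      exact Finset.single_le_sum (f := fun i => Gz γ g t (Z (n i)))
        (fun j _ => h4.G0 j) (Finset.mem_univ (Sum.inl i))
    linarith
  refine ⟨m, n, O, h4.mono hle, fun i p q hpq hqp hp hq hull e1 e2 D he1 he2 hD => ?_,
    fun i p q hpq hqp hp hq hull e1 e2 he1 he2 he3 D D' hD hD' => ?_⟩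
  · obtain ⟨a, ha, hpa⟩ := h4.near i _ hp
    obtain ⟨b, hb, hqb⟩ := h4.near i _ hq
    rw [dist_comm] at hpa hqb
    have key := t3 (n (Sum.inl i)) (h4.adc (Sum.inl i)) (A i) p q (min (θ' / 1000) 1) (h4.conn i)
      (fun x hx => ⟨h4.AK i hx, h4.one (Sum.inl i) x (h4.AO i hx)⟩) hpq hqp
      (lt_min (by linarith) one_pos) (min_le_right _ _) ⟨a, ha, hpa⟩ ⟨b, hb, hqb⟩
      (fun s hs1 hs2 => hull s (hK i _ (Or.inr ⟨mem_range_self s, hs2⟩) (by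
        rw [hs1]
        exact one_ne_zero)) hs2)
      ⟨δ, hδ, fun x hx hx' => by
        obtain ⟨j, hj⟩ := mem_iUnion.1 (hδO x hx)
        by_cases h6 : j = Sum.inl i
        · rw [h6] at hj
          exact h4.near i x hj
        · exact absurd (h4.zer (Sum.inl i) j (Ne.symm h6) x hj) hx'⟩ (hSGi i) e1 e2 D he1 he2 hD
    linarith
  · obtain ⟨a, ha, hpa⟩ := h4.near i _ hp
    obtain ⟨b, hb, hqb⟩ := h4.near i _ hq
    rw [dist_comm] at hpa hqb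
    obtain ⟨c, hc1, hc2, hc3⟩ := t4 e1 e2 (by linarith) he3 (n (Sum.inl i)) (h4.adc (Sum.inl i)) (A i) p q
      (min (θ' / 1000) 1) (h4.conn i)
      (fun x hx => ⟨h4.AK i hx, h4.one (Sum.inl i) x (h4.AO i hx)⟩) hpq hqp
      (lt_min (by linarith) one_pos) (min_le_right _ _) ⟨a, ha, hpa⟩ ⟨b, hb, hqb⟩
      (fun s hs1 hs2 => hull s (hK i _ (Or.inr ⟨mem_range_self s, hs2⟩) (by
        rw [hs1]
        exact one_ne_zero)) hs2)
      ⟨δ, hδ, fun x hx hx' => by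
        obtain ⟨j, hj⟩ := mem_iUnion.1 (hδO x hx)
        by_cases h6 : j = Sum.inl i
        · rw [h6] at hj
          exact h4.near i x hj
        · exact absurd (h4.zer (Sum.inl i) j (Ne.symm h6) x hj) hx'⟩ (hSGi i) he1 he2 D D' hD hD'
    exact ⟨c, hc1, by linarith, by linarith⟩

end Pool.Agent.FPM
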