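import Mathlib
import Pool.Agent.FPM.I58L
import Pool.Agent.FPM.ODI

/-
I58Z (helper94): the isoperimetric inequality for odd functions with `κ = 10000 / 5439 * π = 1.8386 π` from
the decomposition of the level (`LPae58`) and the numbers at one level (`LevF58`).
-/

open MeasureTheory Set Filter Topology
open scoped ENNReal NNReal

noncomputable section

namespace Pool.Agent.FPM

open Pool.Agent.EWD Pool.Agent.FPX

namespace I58Z

/-- the quadratic form -/
theorem quad58 {u v b : ℝ} (hu : 0 ≤ u) (hv : 0 ≤ v) (hb : 0 ≤ b) :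
    3.141593 / 2 * (v * (v + 4 * b)) + (u + v + 2 * b) ^ 2 ≤ 5439 / 5000 * (u + 2 * v + 2 * b) ^ 2 := by
  have h1 := mul_nonneg hu hv
  have h2 := mul_nonneg hu hb
  have h3 := sq_nonneg u
  nlinarith [sq_nonneg (0.3512 * b - 0.790393 * v)]

/-- exact version -/
theorem rq58 {x y b : ℝ} (hb : 0 ≤ b) (hby : b ≤ y) (hyx : y ≤ x) :
    Real.pi / 2 * ((y - b) * (y + 3 * b)) + (x + b) ^ 2 ≤ 5439 / 5000 * (x + y) ^ 2 := by
  have h1 : Real.pi < 3.141593 := Real.pi_lt_d6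
  have h2 : 0 ≤ (y - b) * (y + 3 * b) := mul_nonneg (by linarith) (by linarith)
  have h3 := quad58 (u := x - y) (v := y - b) (b := b) (by linarith) (by linarith) hb
  have h4 : Real.pi / 2 * ((y - b) * (y + 3 * b)) ≤ 3.141593 / 2 * ((y - b) * (y + 3 * b)) :=
    mul_le_mul_of_nonneg_right (by linarith) h2
  have e1 : (y - b) * (y - b + 4 * b) = (y - b) * (y + 3 * b) := by ring
  have e2 : (x - y + (y - b) + 2 * b) = x + b := by ring
  have e3 : (x - y + 2 * (y - b) + 2 * b) = x + y := by ring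
  rw [e1, e2, e3] at h3
  linarith

/-- one of the two inequalities with errors -/
theorem one58 {x y z b l e a : ℝ} (hx : 0 ≤ x) (hz : 0 ≤ z) (hb : 0 ≤ b) (hby : b ≤ y + e)
    (hyx : y ≤ x) (hy : 0 ≤ y) (hs : x + y + z = l) (he : 0 ≤ e)
    (h : 2 * Real.pi * a ≤ Real.pi / 2 * ((y - b) * (y + 3 * b)) + (x + b) ^ 2 + 2 * (x + y) * z + e) :
    2 * Real.pi * a ≤ 5439 / 5000 * l ^ 2 + (2 * l + e + 1) * e := by
  have hpi := Real.pi_pos
  have hF : Real.pi / 2 * ((y - b) * (y + 3 * b)) + (x + b) ^ 2 ≤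
      5439 / 5000 * (x + y) ^ 2 + (2 * (x + y) + e) * e := by
    rcases le_total b y with hc | hc
    · have := rq58 hb hc hyx
      nlinarith [mul_nonneg (add_nonneg hx hy) he]
    · have h1 : Real.pi / 2 * ((y - b) * (y + 3 * b)) ≤ 0 :=
        mul_nonpos_of_nonneg_of_nonpos (by positivity)
          (mul_nonpos_of_nonpos_of_nonneg (by linarith) (by linarith))
      have h2 : (x + b) ^ 2 ≤ (x + y + e) ^ 2 := pow_le_pow_left₀ (by linarith) (by linarith) 2
      nlinarith [sq_nonneg (x + y)]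
  have h3 : 0 ≤ (x + y) * z := mul_nonneg (by linarith) hz
  have h4 : 0 ≤ z * e := mul_nonneg hz he
  have h5 : 5439 / 5000 * (x + y) ^ 2 + 2 * (x + y) * z ≤ 5439 / 5000 * l ^ 2 := by
    rw [← hs]
    nlinarith [sq_nonneg z]
  have h6 : (2 * (x + y) + e) * e ≤ (2 * l + e) * e := by
    rw [← hs]
    nlinarith
  linarith

theorem two58 {x y z b b' l e a : ℝ} (hx : 0 ≤ x) (hy : 0 ≤ y) (hz : 0 ≤ z) (hb : 0 ≤ b) (hb' : 0 ≤ b')
    (hbx : b ≤ x + e) (hby : b' ≤ y + e) (hs : x + y + z = l) (he : 0 ≤ e)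
    (h1 : 2 * Real.pi * a ≤ Real.pi / 2 * ((x - b) * (x + 3 * b)) + (y + b) ^ 2 + 2 * (x + y) * z + e)
    (h2 : 2 * Real.pi * a ≤ Real.pi / 2 * ((y - b') * (y + 3 * b')) + (x + b') ^ 2 + 2 * (x + y) * z + e) :
    2 * Real.pi * a ≤ 5439 / 5000 * l ^ 2 + (2 * l + e + 1) * e := by
  rcases le_total y x with h | h
  · exact one58 hx hz hb' hby h hy hs he h2
  · exact one58 hy hz hb hbx h hx (by linarith) he (by linarith [h1])

/-- the real inequality with vanishing errors -/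
theorem num58 {l a : ℝ} (hl : 0 ≤ l)
    (h : ∀ e : ℝ, 0 < e → ∃ x y z A B : ℝ, 0 ≤ x ∧ 0 ≤ y ∧ 0 ≤ z ∧ 0 ≤ A ∧ 0 ≤ B ∧ x + y + z = l ∧
      A ≤ x + e ∧ B ≤ y + e ∧
      2 * Real.pi * a ≤ Real.pi / 2 * ((x - A) * (x + 3 * A)) + (y + A) ^ 2 + 2 * (x + y) * z + e ∧
      2 * Real.pi * a ≤ Real.pi / 2 * ((y - B) * (y + 3 * B)) + (x + B) ^ 2 + 2 * (x + y) * z + e) :
    2 * Real.pi * a ≤ 5439 / 5000 * l ^ 2 := by
  refine le_of_forall_pos_le_add fun d hd => ?_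
  obtain ⟨e, he0, he1, he⟩ : ∃ e : ℝ, 0 < e ∧ e ≤ 1 ∧ (2 * l + 2) * e ≤ d := by
    refine ⟨min 1 (d / (2 * l + 2)), lt_min one_pos (by positivity), min_le_left _ _, ?_⟩
    calc (2 * l + 2) * min 1 (d / (2 * l + 2)) ≤ (2 * l + 2) * (d / (2 * l + 2)) :=
          mul_le_mul_of_nonneg_left (min_le_right _ _) (by positivity)
      _ = d := by field_simp
  obtain ⟨x, y, z, A, B, hx, hy, hz, hA, hB, hs, g1, g2, k1, k2⟩ := h e he0
  have := two58 hx hy hz hA hB g1 g2 hs he0.le k1 k2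
  nlinarith

end I58Z

variable {M : Type} [MetricSpace M] {γ : ℝ → M}

/-- the decomposition at one level: for every `θ` a number `K` of big pieces, for every `θ'` a decomposition -/
def LPall58 (C : Calc M γ) (f : M → ℝ) (t l : ℝ) : Prop :=
  ∀ θ : ℝ, 0 < θ → ∃ K : ℕ, ∀ θ' : ℝ, 0 < θ' → ∃ (ι : Type) (_ : Fintype ι) (_ : DecidableEq ι)
    (big tr : Finset ι) (Z : ι → M → ℝ) (O : ι → Set M) (S p q : ι → ℝ), big.card ≤ K ∧
      LP58 C f t θ θ' l big tr Z O S p q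

/-- the statement of `lp58_ae` -/
def LPae58 (C : Calc M γ) : Prop :=
  ∀ g : M → ℝ, Lip g → OddB γ g → ∀ᵐ t : ℝ, 0 < t →
    DifferentiableAt ℝ (lev C fun x => |g x|) t ∧
    volume {s : ℝ | s ∈ Ioc 0 (2 * Real.pi) ∧ |g (γ s)| = t} = 0 ∧
    (deriv (lev C fun x => |g x|) t < 2 * Real.pi →
      LPall58 C (fun x => |g x|) t (deriv (lev C fun x => |g x|) t))

/-- the numbers at one level, for a function `f` which is `π`-periodic along the curve, error `c (θ + K θ')` -/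
def LevF58 (C : Calc M γ) (ε c : ℝ) : Prop :=
  ∀ f : M → ℝ, Lip f → (∀ s, f (γ (s + Real.pi)) = f (γ s)) → ∀ t : ℝ,
    volume {s : ℝ | s ∈ Ioc 0 (2 * Real.pi) ∧ f (γ s) = t} = 0 → ∀ l : ℝ, l < 2 * Real.pi →
    ∀ θ θ' K : ℝ, 0 < θ → 0 < θ' → ∀ (ι : Type) [Fintype ι] [DecidableEq ι] (big tr : Finset ι)
      (Z : ι → M → ℝ) (O : ι → Set M) (S p q : ι → ℝ), (big.card : ℝ) ≤ K →
      LP58 C f t θ θ' l big tr Z O S p q → l + 2 * θ + 2 * K * θ' < 2 * Real.pi →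
      ∃ x y z A B : ℝ, x + y + z = l ∧ 0 ≤ x ∧ 0 ≤ y ∧ 0 ≤ z ∧ 0 ≤ A ∧ 0 ≤ B ∧
        A ≤ x + c * (θ + K * θ') ∧ B ≤ y + c * (θ + K * θ') ∧
        2 * Real.pi * ((C.μ {o | t < f (C.pt o)}).toReal - ε) ≤
          Real.pi / 2 * ((x - A) * (x + 3 * A)) + (y + A) ^ 2 + 2 * (x + y) * z + c * (θ + K * θ') ∧
        2 * Real.pi * ((C.μ {o | t < f (C.pt o)}).toReal - ε) ≤
          Real.pi / 2 * ((y - B) * (y + 3 * B)) + (x + B) ^ 2 + 2 * (x + y) * z + c * (θ + K * θ')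

/-- the inequality at one level -/
theorem lev58_of (C : Calc M γ) {ε c : ℝ} (hc0 : 0 ≤ c) (h : LevF58 C ε c) (g : M → ℝ) (hg : Lip g)
    (ho : OddB γ g) (t : ℝ) (hn : volume {s : ℝ | s ∈ Ioc 0 (2 * Real.pi) ∧ |g (γ s)| = t} = 0) (l : ℝ)
    (hlt : l < 2 * Real.pi) (hall : LPall58 C (fun x => |g x|) t l) :
    2 * Real.pi * ((C.μ {o | t < |g (C.pt o)|}).toReal - ε) ≤ 5439 / 5000 * l ^ 2 := by
  have hpi := Real.pi_pos
  have hev : ∀ s, (fun x => |g x|) (γ (s + Real.pi)) = (fun x => |g x|) (γ s) := fun s => by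
    have h1 : g (γ (s + Real.pi)) = -g (γ s) := ho s
    simp only
    rw [h1, abs_neg]
  have hgabs : Lip fun x => |g x| := by
    obtain ⟨Lg, hLg⟩ := hg
    refine ⟨Lg, LipschitzWith.of_dist_le_mul fun x y => ?_⟩
    refine le_trans ?_ (hLg.dist_le_mul x y)
    rw [Real.dist_eq, Real.dist_eq]
    exact abs_abs_sub_abs_le_abs_sub _ _
  -- `0 ≤ l`
  have hl0 : 0 ≤ l := by
    obtain ⟨K, hK⟩ := hall 1 one_pos
    obtain ⟨ι, i1, i2, big, tr, Z, O, S, p, q, -, hLP⟩ := hK 1 one_pos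
    rw [← hLP.sumS]
    exact Finset.sum_nonneg fun i _ => (Gz_nonneg _ _ _ _).trans (hLP.GS i)
  refine I58Z.num58 hl0 fun e he => ?_
  -- `θ` small
  obtain ⟨θ, h0, h0e, h0l⟩ : ∃ θ : ℝ, 0 < θ ∧ 2 * c * θ ≤ e ∧ 4 * θ < 2 * Real.pi - l := by
    refine ⟨min (e / (2 * c + 1)) ((2 * Real.pi - l) / 5), lt_min (by positivity) (by linarith), ?_, ?_⟩
    · calc 2 * c * min (e / (2 * c + 1)) ((2 * Real.pi - l) / 5) ≤ 2 * c * (e / (2 * c + 1)) :=
            mul_le_mul_of_nonneg_left (min_le_left _ _) (by positivity)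
        _ = e * (2 * c / (2 * c + 1)) := by ring
        _ ≤ e * 1 := by
            refine mul_le_mul_of_nonneg_left ?_ he.le
            rw [div_le_one (by positivity)]
            linarith
        _ = e := mul_one _
    · have := min_le_right (e / (2 * c + 1)) ((2 * Real.pi - l) / 5)
      linarith
  obtain ⟨K, hK⟩ := hall θ h0
  have hK0 : (0 : ℝ) ≤ K := Nat.cast_nonneg K
  obtain ⟨θ', h1, h1e, h1l⟩ : ∃ θ' : ℝ, 0 < θ' ∧ 2 * c * (K * θ') ≤ e ∧ 4 * K * θ' < 2 * Real.pi - l := by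
    refine ⟨min (e / (2 * c * K + 1)) ((2 * Real.pi - l) / (4 * K + 4)),
      lt_min (by positivity) (div_pos (by linarith) (by positivity)), ?_, ?_⟩
    · calc 2 * c * (K * min (e / (2 * c * K + 1)) ((2 * Real.pi - l) / (4 * K + 4)))
          ≤ 2 * c * (K * (e / (2 * c * K + 1))) :=
            mul_le_mul_of_nonneg_left (mul_le_mul_of_nonneg_left (min_le_left _ _) hK0) (by positivity)
        _ = e * (2 * c * K / (2 * c * K + 1)) := by ring
        _ ≤ e * 1 := by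
            refine mul_le_mul_of_nonneg_left ?_ he.le
            rw [div_le_one (by positivity)]
            linarith
        _ = e := mul_one _
    · have h2 := min_le_right (e / (2 * c * K + 1)) ((2 * Real.pi - l) / (4 * K + 4))
      have h3 : 0 < 2 * Real.pi - l := by linarith
      calc 4 * K * min (e / (2 * c * K + 1)) ((2 * Real.pi - l) / (4 * K + 4))
          ≤ 4 * K * ((2 * Real.pi - l) / (4 * K + 4)) := mul_le_mul_of_nonneg_left h2 (by positivity)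
        _ = (2 * Real.pi - l) * (K / (K + 1)) := by field_simp
        _ < (2 * Real.pi - l) * 1 := by
            refine mul_lt_mul_of_pos_left ?_ h3
            rw [div_lt_one (by positivity)]
            linarith
        _ = 2 * Real.pi - l := mul_one _
  obtain ⟨ι, i1, i2, big, tr, Z, O, S, p, q, hc, hLP⟩ := hK θ' h1
  have hc' : (big.card : ℝ) ≤ K := by exact_mod_cast hc
  obtain ⟨x, y, z, A, B, e1, e2, e3, e4, e5, e6, e7, e8, f1, f2⟩ :=
    h (fun x => |g x|) hgabs hev t hn l hlt θ θ' K h0 h1 ι big tr Z O S p q hc' hLP (by linarith)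
  have hE : c * (θ + K * θ') ≤ e := by linarith
  exact ⟨x, y, z, A, B, e2, e3, e4, e5, e6, e1, by linarith, by linarith, by linarith, by linarith⟩

theorem isopO58_of' (C : Calc M γ) {ε c : ℝ} (hε : 0 ≤ ε) (hc0 : 0 ≤ c) (hv : C.vol ≤ 21 / 10 * Real.pi)
    (h1 : LPae58 C) (h2 : LevF58 C ε c) : IsopO C (10000 / 5439 * Real.pi) ε := by
  have hpi := Real.pi_pos
  have := C.fin
  intro g hg ho
  filter_upwards [h1 g hg ho] with t h ht
  obtain ⟨hd, hn, hl⟩ := h ht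
  refine ⟨hd, ?_⟩
  rcases lt_or_ge (deriv (lev C fun x => |g x|) t) (2 * Real.pi) with hlt | hge
  · have h3 := lev58_of C hc0 h2 g hg ho t hn _ hlt (hl hlt)
    calc 10000 / 5439 * Real.pi * ((C.μ {o | t < |g (C.pt o)|}).toReal - ε) =
        5000 / 5439 * (2 * Real.pi * ((C.μ {o | t < |g (C.pt o)|}).toReal - ε)) := by ring
      _ ≤ 5000 / 5439 * (5439 / 5000 * deriv (lev C fun x => |g x|) t ^ 2) :=
        mul_le_mul_of_nonneg_left h3 (by norm_num)
      _ = deriv (lev C fun x => |g x|) t ^ 2 := by ring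
  · have h3 : (C.μ {o | t < |g (C.pt o)|}).toReal ≤ C.vol :=
      ENNReal.toReal_mono (measure_ne_top _ _) (measure_mono (subset_univ _))
    have h4 : (2 * Real.pi) ^ 2 ≤ deriv (lev C fun x => |g x|) t ^ 2 :=
      pow_le_pow_left₀ (by positivity) hge 2
    have h5 : (C.μ {o | t < |g (C.pt o)|}).toReal - ε ≤ 21 / 10 * Real.pi := by linarith
    calc 10000 / 5439 * Real.pi * ((C.μ {o | t < |g (C.pt o)|}).toReal - ε) ≤
        10000 / 5439 * Real.pi * (21 / 10 * Real.pi) := mul_le_mul_of_nonneg_left h5 (by positivity)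
      _ ≤ (2 * Real.pi) ^ 2 := by nlinarith [sq_nonneg Real.pi]
      _ ≤ _ := h4

end Pool.Agent.FPM
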