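import Mathlib
import Pool.Agent.FPM.I57Q
import Pool.Agent.FPM.I58Z
import Pool.Agent.FPM.I58P

/-
I58Q (helper19): the pieces of the boundary of `{t < |g|}` at almost every level, with the estimates of
ISO58 (adapted from helper87's I57Q).
-/

open MeasureTheory Set Filter Topology
open scoped ENNReal NNReal

noncomputable section

namespace Pool.Agent.FPM

open Pool.Agent.EWD Pool.Agent.FPX

variable {M : Type} [MetricSpace M] {γ : ℝ → M}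

/-- `LH57` with the second estimate of the defect -/
structure LH58 (C : Calc M γ) (f g : M → ℝ) (t θ θ' S₀ G₀ : ℝ) {ι : Type} [Fintype ι] (big tr : Finset ι)
    (Z : ι → M → ℝ) (O : ι → Set M) (S p q : ι → ℝ) : Prop extends
    LH57 C f g t θ θ' S₀ G₀ big tr Z O S p q where
  t4 : ∀ i ∈ tr, ∀ (e1 e2 : ℚ) (n : ℤ), (e1 : ℝ) ≤ p i + n * (2 * Real.pi) →
    q i + n * (2 * Real.pi) ≤ (e2 : ℝ) → (e2 : ℝ) ≤ e1 + Real.pi → ∃ D D' a : ℝ,
      HasDerivAt (mz C (fun o => dE γ e1 e2 (C.pt o) * gn C f o) f (Z i)) D t ∧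
      HasDerivAt (mz C (fun o => dE γ e1 e2 (C.pt o) * |C.wed (sE γ e1 e2) f o|) f (Z i)) D' t ∧
      2 * (q i - p i) - Gz γ f t (Z i) ≤ a ∧ a ≤ S i + θ' ∧
      D + D' ≤ (S i - a) * (S i + 3 * a) / 4 + θ'

/-- two halves give the list -/
theorem lh_glue58 {C : Calc M γ} {f g : M → ℝ} {t θ θ' S₁ S₂ G₀ : ℝ} (ht : 0 < t)
    (hfg : ∀ x, f x = |g x|) (h1 : G₀ ≤ S₁) (h2 : G₀ ≤ S₂)
    {ι : Type} [Fintype ι] {big tr : Finset ι} {Z : ι → M → ℝ} {O : ι → Set M} {S p q : ι → ℝ}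
    (H : LH58 C f g t θ θ' S₁ G₀ big tr Z O S p q)
    {ι' : Type} [Fintype ι'] {big' tr' : Finset ι'} {Z' : ι' → M → ℝ} {O' : ι' → Set M}
    {S' p' q' : ι' → ℝ} (H' : LH58 C f (fun x => -g x) t θ θ' S₂ G₀ big' tr' Z' O' S' p' q') :
    LP58 C f t θ θ' (S₁ + S₂) (big.disjSum big') (tr.disjSum tr') (Sum.elim Z Z') (Sum.elim O O')
      (Sum.elim S S') (Sum.elim p p') (Sum.elim q q') := by
  refine ⟨lh_glue ht hfg h1 h2 H.toLH57 H'.toLH57, ?_⟩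
  rintro (i | i) hi
  · exact H.t4 i (Finset.inl_mem_disjSum.1 hi)
  · exact H'.t4 i (Finset.inr_mem_disjSum.1 hi)

/-- the half list from the pieces of `g` -/
theorem lh_of_pcs58 [CompactSpace M] (C : Calc M γ) (hγ : Bd γ) {g : M → ℝ} (hg : Lip g) {t : ℝ}
    (ht : 0 < t) {θ θ' : ℝ} {k m : ℕ} {A : Fin k → Set M} {Z : Fin k ⊕ Fin m → M → ℝ}
    {O : Fin k ⊕ Fin m → Set M} (hP : Pcs C (gn C g) g t θ θ' A Z O)
    (hT : ∀ (i : Fin k) (p q : ℝ), p ≤ q → q < p + Real.pi → γ p ∈ O (Sum.inl i) →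
      γ q ∈ O (Sum.inl i) →
      (∀ s, γ s ∈ O (Sum.inl i) → t ≤ g (γ s) → ∃ m : ℤ, s + m * (2 * Real.pi) ∈ Icc p q) →
      ∀ e1 e2 D : ℝ, e1 ≤ p → q ≤ e2 →
      HasDerivAt (mz C (fun o => dE γ e1 e2 (C.pt o) * gn C g o) g (Z (Sum.inl i))) D t →
      D ≤ (deriv (mz C (gn C g) g (Z (Sum.inl i))) t ^ 2 -
        (2 * (q - p) - Gz γ g t (Z (Sum.inl i))) ^ 2) / 4 + θ')
    (hT4 : ∀ (i : Fin k) (p q : ℝ), p ≤ q → q < p + Real.pi → γ p ∈ O (Sum.inl i) →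
      γ q ∈ O (Sum.inl i) →
      (∀ s, γ s ∈ O (Sum.inl i) → t ≤ g (γ s) → ∃ m : ℤ, s + m * (2 * Real.pi) ∈ Icc p q) →
      ∀ e1 e2 : ℚ, (e1 : ℝ) ≤ p → q ≤ e2 → (e2 : ℝ) ≤ e1 + Real.pi → ∀ D D' : ℝ,
      HasDerivAt (mz C (fun o => dE γ e1 e2 (C.pt o) * gn C g o) g (Z (Sum.inl i))) D t →
      HasDerivAt (mz C (fun o => dE γ e1 e2 (C.pt o) * |C.wed (sE γ e1 e2) g o|) g
        (Z (Sum.inl i))) D' t →
      ∃ a : ℝ, 2 * (q - p) - Gz γ g t (Z (Sum.inl i)) ≤ a ∧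
        a ≤ deriv (mz C (gn C g) g (Z (Sum.inl i))) t + θ' ∧
        D + D' ≤ (deriv (mz C (gn C g) g (Z (Sum.inl i))) t - a) *
          (deriv (mz C (gn C g) g (Z (Sum.inl i))) t + 3 * a) / 4 + θ')
    (hdE : ∀ (e1 e2 : ℚ) i, DifferentiableAt ℝ
      (mz C (fun o => dE γ e1 e2 (C.pt o) * gn C g o) g (Z i)) t)
    (hdS : ∀ (e1 e2 : ℚ) i, (e1 : ℝ) ≤ e2 → (e2 : ℝ) ≤ e1 + Real.pi → DifferentiableAt ℝ
      (mz C (fun o => dE γ e1 e2 (C.pt o) * |C.wed (sE γ e1 e2) g o|) g (Z i)) t) :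
    ∃ (tr : Finset (Fin k ⊕ Fin m)) (p q : Fin k ⊕ Fin m → ℝ),
      LH58 C (fun x => |g x|) g t θ θ' (deriv (lev C g) t) (Gz γ g t fun _ => 1)
        (Finset.univ.image Sum.inl) tr (fun i x => Z i x * bnd (t / 4) (t / 2) (g x))
        (fun i => O i ∩ {x | t / 2 < g x}) (fun i => deriv (mz C (gn C g) g (Z i)) t) p q := by
  obtain ⟨tr, p, q, H⟩ := lh_of_pcs C hγ hg ht hP hT hdE
  refine ⟨tr, p, q, H, ?_⟩
  have hpi := Real.pi_pos
  have i0 := int_gn C hg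
  have i1 := int_gn C (lip_abs hg)
  have ga := gn_abs C hg
  intro i hi e1 e2 n h1 h2 h3
  obtain ⟨j, -, hj⟩ := Finset.mem_image.1 (H.trb hi)
  subst hj
  have hle := H.hle _ hi
  have hlt := H.hlt _ hi
  have hp := H.hp _ hi
  have hq := H.hq _ hi
  have hull := H.hull _ hi
  have he : (e1 : ℝ) ≤ e2 := by linarith
  have hd := (hdE e1 e2 (Sum.inl j)).hasDerivAt
  have hd' := (hdS e1 e2 (Sum.inl j) he h3).hasDerivAt
  have gz : Gz γ (fun x => |g x|) t (fun x => Z (Sum.inl j) x * bnd (t / 4) (t / 2) (g x)) =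
      Gz γ g t (Z (Sum.inl j)) := Gz_glue γ g (Z (Sum.inl j)) ht
  obtain ⟨B, hB0, hB⟩ := (lip_dEpc γ (e1 : ℝ) e2).bdd
  have bd : ∀ {K : Om → ℝ}, Integrable K C.μ → Integrable (fun o => dE γ e1 e2 (C.pt o) * K o) C.μ :=
    fun hK => hK.bdd_mul (c := B) (C.meas_pt (lip_dEpc γ _ _)).aestronglyMeasurable
      (Eventually.of_forall fun o => hB _)
  have iw : Integrable (fun o => |C.wed (sE γ e1 e2) g o|) C.μ :=
    (integrable_wed C ⟨1, sE_lip58 γ e1 e2⟩ hg).abs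
  have iw' : Integrable (fun o => |C.wed (sE γ e1 e2) (fun x => |g x|) o|) C.μ :=
    (integrable_wed C ⟨1, sE_lip58 γ e1 e2⟩ (lip_abs hg)).abs
  obtain ⟨a, a1, a2, a3⟩ := hT4 j (p (Sum.inl j) + n * (2 * Real.pi)) (q (Sum.inl j) + n * (2 * Real.pi))
    (by linarith) (by linarith) (by rw [gam_int hγ]; exact hp.1.1) (by rw [gam_int hγ]; exact hq.1.1)
    (fun s hs1 hs2 => by
      have hs3 : t / 2 < g (γ s) := by linarith
      obtain ⟨m, hm1, hm2⟩ := hull s ⟨hs1, hs3⟩ (by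
        rw [abs_of_pos (by linarith)]
        exact hs2)
      refine ⟨m + n, ?_, ?_⟩
      · push_cast
        linarith
      · push_cast
        linarith)
    e1 e2 h1 h2 h3 _ _ hd hd'
  refine ⟨_, _, a, (mz_glue C hg (hP.adc _).lip (hP.adc _).lo (hP.adc _).hi ht (bd i0) (bd i1) ?_).2 hd,
    (mz_glue C hg (hP.adc _).lip (hP.adc _).lo (hP.adc _).hi ht (bd iw) (bd iw') ?_).2 hd', ?_, a2, a3⟩
  · filter_upwards [ga] with o ho _
    rw [ho]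
  · filter_upwards [loc_eq C (lip_abs hg) hg] with o ho ho2
    obtain ⟨k1, k2⟩ := ho (abs_of_pos ho2)
    have : C.wed (sE γ e1 e2) (fun x => |g x|) o = C.wed (sE γ e1 e2) g o := by
      unfold Calc.wed
      rw [k1, k2]
    rw [this]
  · rw [gz]
    linarith

/-- the pieces of `{t < |g|}` at almost every level -/
theorem lp58_ae [CompactSpace M] (hγ : Bd γ) (C : Calc M γ) (hR : RegPl C) : LPae58 C := by
  classical
  have hpi := Real.pi_pos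
  intro g hg ho
  obtain ⟨Z, hZl, hZ0, hZ1, hZc⟩ := TMB_family (M := M)
  have gn0 : ∀ g : M → ℝ, ∀ᵐ o ∂C.μ, 0 ≤ gn C g o := fun g => Eventually.of_forall fun o => gn_nonneg C g o
  have dEa : ∀ {g : M → ℝ}, Lip g → ∀ᵐ t : ℝ, ∀ (e1 e2 : ℚ) (n : ℕ), DifferentiableAt ℝ
      (mz C (fun o => dE γ e1 e2 (C.pt o) * gn C g o) g (Z n)) t := by
    intro g hg
    rw [ae_all_iff]
    intro e1
    rw [ae_all_iff]
    intro e2
    rw [ae_all_iff]
    intro n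
    exact mz_diff_ae C hg (hZl n) (hZ0 n) (hZ1 n) (int_gn C hg) (gn0 g) (lip_dEpc γ _ _)
  have a1 : ∀ᵐ t : ℝ, DifferentiableAt ℝ (lev C g) t := (lev_mono C hg).ae_differentiableAt
  have a2 : ∀ᵐ t : ℝ, DifferentiableAt ℝ (lev C fun x => -g x) t := (lev_mono C hg.neg).ae_differentiableAt
  filter_upwards [a1, a2, ae_level_null hγ (lip_abs hg),
    pcs58 C hγ hR hg (int_gn C hg) (fun p hp => gn_cs C hp) hZl hZ0 hZ1 hZc,
    pcs58 C hγ hR hg.neg (int_gn C hg.neg) (fun p hp => gn_cs C hp) hZl hZ0 hZ1 hZc, dEa hg, dEa hg.neg]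
    with t d1 d2 hn s1 s2 f1 f2 ht
  have hev : (lev C fun x => |g x|) =ᶠ[𝓝 t]
      fun r => lev C g r + lev C (fun x => -g x) r - ∫ o, gn C g o ∂C.μ := by
    filter_upwards [Ioi_mem_nhds ht] with r hr
    exact lev_abs C hg hr
  have hd : HasDerivAt (lev C fun x => |g x|) (deriv (lev C g) t + deriv (lev C fun x => -g x) t) t :=
    ((d1.hasDerivAt.add d2.hasDerivAt).sub_const _).congr_of_eventuallyEq hev
  refine ⟨hd.differentiableAt, hn, ?_⟩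
  rw [hd.deriv]
  intro hS
  have g1 := odd_Gz_le hγ hg ho ht
  have g2 := odd_Gz_neg hγ hg ho t
  obtain ⟨-, -, w1, s1⟩ := s1
  obtain ⟨-, -, w2, s2⟩ := s2
  rw [mz_one, g2] at s2
  rw [mz_one] at s1
  set G := Gz γ g t (fun _ => 1) with hG
  set S1 := deriv (lev C g) t with hS1
  set S2 := deriv (lev C fun x => -g x) t with hS2
  have L12 : S1 + G < 2 * Real.pi ∧ S2 + G < 2 * Real.pi := by
    rcases lt_or_ge S1 Real.pi with h | h
    · have b1 := s1 (by linarith) g1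
      exact ⟨by linarith, by linarith [b1.1]⟩
    · have b2 := s2 (by linarith) g1
      exact ⟨by linarith [b2.1], by linarith⟩
  obtain ⟨hG1, L1⟩ := s1 L12.1 g1
  obtain ⟨hG2, L2⟩ := s2 L12.2 g1
  intro θ hθ
  obtain ⟨k, A, L1⟩ := L1 θ hθ
  obtain ⟨k', A', L2⟩ := L2 θ hθ
  refine ⟨k + k', fun θ' hθ' => ?_⟩
  obtain ⟨m, n, O, hP, hT, hT4⟩ := L1 θ' hθ'
  obtain ⟨m', n', O', hP', hT', hT4'⟩ := L2 θ' hθ'
  obtain ⟨tr, p, q, H⟩ := lh_of_pcs58 C hγ hg ht hP hT hT4 (fun e1 e2 i => f1 e1 e2 (n i))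
    (fun e1 e2 i h1 h2 => w1 e1 e2 (n i) h1 h2)
  obtain ⟨tr', p', q', H'⟩ := lh_of_pcs58 C hγ hg.neg ht hP' hT' hT4' (fun e1 e2 i => f2 e1 e2 (n' i))
    (fun e1 e2 i h1 h2 => w2 e1 e2 (n' i) h1 h2)
  simp only [abs_neg] at H'
  rw [g2] at H'
  refine ⟨(Fin k ⊕ Fin m) ⊕ (Fin k' ⊕ Fin m'), inferInstance, inferInstance, _, _, _, _, _, _, _, ?_,
    lh_glue58 ht (fun _ => rfl) hG1 hG2 H H'⟩
  rw [Finset.card_disjSum]
  refine add_le_add (Finset.card_image_le.trans ?_) (Finset.card_image_le.trans ?_)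
  · rw [Finset.card_univ, Fintype.card_fin]
  · rw [Finset.card_univ, Fintype.card_fin]

end Pool.Agent.FPM
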