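import Mathlib
import Pool.Agent.FPM.I57S
import Pool.Agent.FPM.I58E
import Pool.Agent.FPM.I58C

/-
I58S (helper42): the surgery theorem with charts along arcs of the curve, at a fixed level, with the cheaper
collapse of the charts.
-/

open MeasureTheory Set Filter Topology
open scoped ENNReal NNReal

noncomputable section

namespace Pool.Agent.FPM

open Pool.Agent.EWD Pool.Agent.FPX

variable {M : Type} [MetricSpace M] {γ : ℝ → M} {ι : Type}

/-- the wedge product does not see an additive constant -/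
theorem wed_const_add (C : Calc M γ) (c : ℝ) (u w : M → ℝ) (o : Om) :
    C.wed (fun x => c + u x) w o = C.wed u w o := by
  have e : C.wed (fun x => c + u x) w o = C.wed (fun x => u x - -c) (fun x => w x - 0) o := by
    congr 1
    · funext x
      ring
    · funext x
      ring
  rw [e, wed_sub_const]

/-- the small constant can be taken out of the collar of a chart -/
theorem st_split [CompactSpace M] (C : Calc M γ) {v s f : M → ℝ} (hv : Lip v) (hs : LipschitzWith 1 s) (hf : Lip f)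
    {δ η : ℝ} (hδ : 0 < δ) (hη : 0 ≤ η) {U : Set M} (hU : IsOpen U) :
    ∫ o in {o | 0 < v (C.pt o) ∧ v (C.pt o) < δ ∧ C.pt o ∈ U}, (f (C.pt o) + η) *
        ((1 - v (C.pt o) / δ) * gn C v o + v (C.pt o) / δ * |C.wed s v o|) ∂C.μ ≤
      (∫ o in {o | 0 < v (C.pt o) ∧ v (C.pt o) < δ ∧ C.pt o ∈ U}, f (C.pt o) *
        ((1 - v (C.pt o) / δ) * gn C v o + v (C.pt o) / δ * |C.wed s v o|) ∂C.μ) +
      ∫ o in {o | 0 < v (C.pt o) ∧ v (C.pt o) < δ ∧ C.pt o ∈ U}, η * gn C v o ∂C.μ := by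
  have hsL : Lip s := ⟨1, hs⟩
  have lq : Lip (fun x => v x / δ) := by
    have h := hv.const_mul (1 / δ)
    have e : (fun x => v x / δ) = fun x => 1 / δ * v x := by
      funext x
      ring
    rw [e]
    exact h
  have lq1 : Lip (fun x => 1 - v x / δ) := (lip_const 1).sub lq
  have iF : Integrable (fun o => (1 - v (C.pt o) / δ) * gn C v o + v (C.pt o) / δ * |C.wed s v o|) C.μ :=
    (int_lip_gn C lq1 hv).add (int_lip_wed C lq hsL hv)
  have mul_int : ∀ h : M → ℝ, Lip h → Integrable (fun o => h (C.pt o) *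
      ((1 - v (C.pt o) / δ) * gn C v o + v (C.pt o) / δ * |C.wed s v o|)) C.μ := by
    intro h hh
    obtain ⟨K, hK0, hK⟩ := hh.bdd
    refine iF.bdd_mul (c := K) (C.meas_pt hh).aestronglyMeasurable ?_
    exact Eventually.of_forall fun o => by
      rw [Real.norm_eq_abs]
      exact hK _
  have mv := C.meas_pt hv
  have hm : NullMeasurableSet {o | 0 < v (C.pt o) ∧ v (C.pt o) < δ ∧ C.pt o ∈ U} C.μ :=
    (nullMeasurableSet_lt aemeasurable_const mv).inter
      ((nullMeasurableSet_lt mv aemeasurable_const).inter (null_open C hU))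
  rw [← integral_add (mul_int f hf).integrableOn ((int_gn C hv).const_mul η).integrableOn]
  refine integral_mono_ae (mul_int (fun x => f x + η) (hf.add (lip_const η))).integrableOn
    ((mul_int f hf).add ((int_gn C hv).const_mul η)).integrableOn ?_
  filter_upwards [ae_restrict_mem₀ hm, ae_restrict_of_ae (gn_cs (C := C) (g := v) hs)] with o ho h1
  obtain ⟨h2, h3, -⟩ := ho
  have h4 : 0 ≤ v (C.pt o) / δ := div_nonneg h2.le hδ.le
  have h5 : v (C.pt o) / δ ≤ 1 := (div_le_one hδ).2 h3.le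
  have h6 : (1 - v (C.pt o) / δ) * gn C v o + v (C.pt o) / δ * |C.wed s v o| ≤ gn C v o := by
    have := mul_le_mul_of_nonneg_left h1 h4
    linarith
  have h7 := mul_le_mul_of_nonneg_left h6 hη
  linarith

variable [CompactSpace M] [Fintype ι] [DecidableEq ι]

/-- THE SURGERY THEOREM -/
theorem st58 (hγ : Bd γ) {C : Calc M γ} (hC : Colb C) {ε : ℝ} (hmin : NM C ε) {g : M → ℝ} (hg : Lip g)
    {t : ℝ} (hnull : volume {s : ℝ | s ∈ Ioc 0 (2 * Real.pi) ∧ g (γ s) = t} = 0) {T : ℝ} {O : ι → Set M}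
    (hO : ∀ i, IsOpen (O i)) (hd : ∀ i j, i ≠ j → Disjoint (O i) (O j)) (hcov : Kt γ g t ⊆ ⋃ i, O i)
    {Z : ι → M → ℝ} (hZ : ∀ i, Lip (Z i)) (hZ0 : ∀ i x, 0 ≤ Z i x) (hZ1 : ∀ i x, Z i x ≤ 1)
    (hZO : ∀ i, ∀ x ∈ O i, Z i x = 1) (hZd : ∀ i j, j ≠ i → ∀ x ∈ O j, Z i x = 0) {S D D' : ι → ℝ}
    (hS : ∀ i, HasDerivAt (mz C (gn C g) g (Z i)) (S i) t) {J : Finset ι} {e e' : ι → ℝ}
    (hJ : ∀ i ∈ J, T ≤ e i ∧ e i ≤ e' i ∧ e' i ≤ T + Real.pi)
    (hD : ∀ i ∈ J, HasDerivAt (mz C (fun o => dE γ (e i) (e' i) (C.pt o) * gn C g o) g (Z i)) (D i) t)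
    (hD' : ∀ i ∈ J, HasDerivAt (mz C (fun o => dE γ (e i) (e' i) (C.pt o) *
      |C.wed (sE γ (e i) (e' i)) g o|) g (Z i)) (D' i) t)
    (htr : ∀ i ∈ J, ∀ x ∈ O i, x ∈ range γ → t ≤ g x → x ∈ γ '' Icc (e i) (e' i)) {k : ι → ι} {r : ι → ℝ}
    (hk : ∀ i ∈ J, k i ∉ J ∧ γ '' Icc (e i + Real.pi) (e' i + Real.pi) ⊆ O (k i) ∧
      ∀ x ∈ O (k i), (dist x (γ (e i + Real.pi)) + dist x (γ (e' i + Real.pi)) + (e' i - e i)) / 2 ≤ r (k i))
    (hr : ∀ i, i ∉ J → 0 < r i ∧ ∀ x ∈ O i, ∀ y ∈ O i, dist x y ≤ r i) :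
    (C.μ {o | t < g (C.pt o)}).toReal ≤ ∑ i ∈ J, (D i + D' i) + ∑ i ∈ Jᶜ, r i / Real.pi * (S i + Gz γ g t (Z i) +
      2 * (volume ({s | ∃ j ∈ J, k j = i ∧ s ∈ Ioc (e j + Real.pi) (e' j + Real.pi)} ∩
        {s | g (γ s) ≤ t})).toReal) + ε := by
  have hpi := Real.pi_pos
  have := C.fin
  obtain ⟨hpt, b, hbL, hb0, hbγ, hbr, hcol⟩ := hC
  refine le_of_forall_pos_le_add fun ζ hζ => ?_
  -- constants
  have hS0 : ∀ i, 0 ≤ S i := fun i => by
    rw [← (hS i).deriv]
    exact mz_deriv_nonneg C hg (hZ i) (hZ0 i) (hZ1 i) (int_gn C hg)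
      (Eventually.of_forall fun o => gn_nonneg C g o) t
  set n : ℝ := ∑ i ∈ J, (S i + 1) with hn
  have hn0 : 0 ≤ n := Finset.sum_nonneg fun i _ => by linarith [hS0 i]
  set η : ℝ := ζ / (16 * (n + 1)) with hη
  have hη0 : 0 < η := by positivity
  have hηn : 2 * η * n ≤ ζ / 8 := by
    have e1 : 2 * η * n = ζ / 8 * (n / (n + 1)) := by
      rw [hη]
      field_simp
      ring
    rw [e1]
    have h1 : n / (n + 1) ≤ 1 := (div_le_one (by linarith)).2 (by linarith)
    nlinarith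
  set c : ι → ℝ := fun i => if i ∈ J then 0 else r i / Real.pi with hcd
  have hc0 : ∀ i, 0 ≤ c i := fun i => by
    simp only [hcd]
    split_ifs with h
    · exact le_rfl
    · exact div_nonneg (hr i h).1.le hpi.le
  set ψ0 : M → ℝ := psiD γ J e e' η with hψ0
  have hψL : Lip ψ0 := psiD_lip J e e' hη0
  set X : ι → ℝ := fun i => (∫ s in (0 : ℝ)..(2 * Real.pi), Z i (γ s) *
      (if t < g (γ s) ∨ 0 < ψ0 (γ s) then 1 else 0)) +
      ∫ s in (0 : ℝ)..(2 * Real.pi), Z i (γ s) * (if g (γ s) ≤ t ∧ 0 < ψ0 (γ s) then 1 else 0) with hX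
  set Y : ι → ℝ := fun i => Gz γ g t (Z i) + 2 * (volume ({s | ∃ j ∈ J, k j = i ∧
      s ∈ Ioc (e j + Real.pi) (e' j + Real.pi)} ∩ {s | g (γ s) ≤ t})).toReal with hY
  have hXY : ∀ i, X i ≤ Y i := fun i => by
    have h1 := st_X hγ hg t hJ hd hcov hZ hZ0 hZ1 hZO hZd (fun i hi => (hk i hi).2.1) hψL (fun s hs => by
      have h1 := psiD_nonneg hη0 hs.le
      exact dJ_pos (lt_of_lt_of_le (by positivity) h1)) i
    exact le_trans (le_of_eq (st_XI hγ hg t (hZ i) hψL).symm) h1
  have hY0 : ∀ i, 0 ≤ Y i := fun i => by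
    have := Gz_nonneg γ g t (Z i)
    simp only [hY]
    positivity
  set B : ℝ := ∑ i, c i * (S i + Y i) with hB
  have hB0 : 0 ≤ B := Finset.sum_nonneg fun i _ => mul_nonneg (hc0 i) (add_nonneg (hS0 i) (hY0 i))
  have hXB : ∑ i, c i * (S i + X i) ≤ B :=
    Finset.sum_le_sum fun i _ => mul_le_mul_of_nonneg_left (by linarith [hXY i]) (hc0 i)
  -- the width of the strips
  obtain ⟨ω1, hω1, hstrip, hgeo⟩ := st_geo hγ hbL hb0 hbγ hbr hJ hO hd hk hr hη0
  obtain ⟨δ0, hδ0, hcolb⟩ := collar_small (μ := C.μ) (C.meas_pt hbL) 0 (η := ζ / 8) (by positivity)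
  have hlev := lev57 C hγ hpt hbL hb0 hbr hcol hg hnull hψL
    (fun x => (psiD_mem J e e' η x).2) hZ hZ0 hZ1 hS hc0 (η := ζ / 8) (by positivity)
  obtain ⟨ω, hω, hωI⟩ := (hlev.and (Ioo_mem_nhdsGT (show (0 : ℝ) < min ω1 δ0 from lt_min hω1 hδ0))).exists
  have hω0 : 0 < ω := hωI.1
  have hωω1 : ω < ω1 := hωI.2.trans_le (min_le_left _ _)
  have hωδ0 : ω < δ0 := hωI.2.trans_le (min_le_right _ _)
  set τ : ℝ := min 1 (ζ / (8 * (B + 1))) with hτ
  have hτ0 : 0 < τ := lt_min one_pos (by positivity)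
  have hτ1 : τ ≤ 1 := min_le_left _ _
  have hτB : τ * B ≤ ζ / 8 := by
    have h1 : τ ≤ ζ / (8 * (B + 1)) := min_le_right _ _
    calc τ * B ≤ ζ / (8 * (B + 1)) * B := mul_le_mul_of_nonneg_right h1 hB0
      _ = ζ / 8 * (B / (B + 1)) := by
        field_simp
      _ ≤ ζ / 8 * 1 := by
        refine mul_le_mul_of_nonneg_left ?_ (by positivity)
        exact (div_le_one (by linarith)).2 (by linarith)
      _ = ζ / 8 := mul_one _
  set κ : ℝ := ω * τ / 8 with hκ
  have hκ0 : 0 < κ := by positivity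
  have hκω : 2 * κ ≤ ω := by
    have : 2 * κ = ω * (τ / 4) := by
      rw [hκ]
      ring
    rw [this]
    nlinarith
  obtain ⟨Λ, hΛ⟩ := hgeo κ hκ0 (by linarith)
  obtain ⟨W1, hW1, hW1'⟩ := st_cpt (γ := γ) hg.cont hbL.cont hb0 hbr hO hcov
  obtain ⟨δ1, hδ1, hcolg⟩ := collar_small (μ := C.μ) (C.meas_pt hg) t (η := ζ / 8) (by positivity)
  have hpos : (0 : ℝ) < min (min κ W1 / 2) (min δ1 δ0) :=
    lt_min (by have := lt_min hκ0 hW1; positivity) (lt_min hδ1 hδ0)
  obtain ⟨s0, hs0', hs0I⟩ := ((hω τ hτ0 hτ1).and (Ioo_mem_nhdsGT hpos)).exists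
  obtain ⟨s, hs0, hss0, -, hsd, hsl⟩ := hs0' (fun _ => True) (Eventually.of_forall fun _ => trivial)
  have hs00 : 0 < s0 := hs0I.1
  have hs0a : s0 < min κ W1 / 2 := hs0I.2.trans_le (min_le_left _ _)
  have hs0b : s0 < min δ1 δ0 := hs0I.2.trans_le (min_le_right _ _)
  set β : M → ℝ := fun x => (1 + τ) * s0 * (ψ0 x - b x / ω) with hβ
  have hβL : Lip β := by
    have h1 : Lip (fun x => (1 / ω) * b x) := hbL.const_mul _
    have h2 := (hψL.sub h1).const_mul ((1 + τ) * s0)
    have e1 : β = fun x => (1 + τ) * s0 * (ψ0 x - 1 / ω * b x) := by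
      funext x
      simp only [hβ]
      ring
    rw [e1]
    exact h2
  set v : M → ℝ := fun x => max (g x - t) (β x) with hv
  have hvL : Lip v := (hg.sub (lip_const t)).max hβL
  set w : M → ℝ := fun x => min (max (max (g x - t) 0) ((1 + τ) * s0 * (ψ0 x - b x / ω))) (b x) with hw
  have hwL : Lip w := (((hg.sub (lip_const t)).max (lip_const 0)).max hβL).min hbL
  have hw0 : ∀ x, 0 ≤ w x := fun x =>
    le_min (le_max_of_le_left (le_max_right _ _)) (hb0 x)
  set W0 : ℝ := (1 + τ / 2) * s0 with hW0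
  have hW00 : 0 < W0 := by positivity
  have hW0κ : W0 < κ := by
    have h1 : s0 < κ / 2 := hs0a.trans_le (div_le_div_of_nonneg_right (min_le_left _ _) two_pos.le)
    have h2 : W0 ≤ 2 * s0 := by
      rw [hW0]
      nlinarith
    linarith
  have hW0W1 : W0 < W1 := by
    have h1 : s0 < W1 / 2 := hs0a.trans_le (div_le_div_of_nonneg_right (min_le_right _ _) two_pos.le)
    have h2 : W0 ≤ 2 * s0 := by
      rw [hW0]
      nlinarith
    linarith
  have hs0W0 : s0 < W0 := by
    rw [hW0]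
    nlinarith
  have hwv : ∀ x, w x ≤ max (v x) 0 := by
    intro x
    refine (min_le_left _ _).trans (max_le (max_le ?_ (le_max_right _ _)) ?_)
    · exact (le_max_left _ _).trans (le_max_left _ _)
    · exact (le_max_right (g x - t) (β x)).trans (le_max_left _ _)
  -- the sign of the strip function
  have hβpos : ∀ x, 0 ≤ β x → 0 ≤ ψ0 x ∧ b x ≤ ω := by
    intro x hx
    have h1 : 0 ≤ ψ0 x - b x / ω := by
      by_contra hcon
      push Not at hcon
      have : β x < 0 := mul_neg_of_pos_of_neg (by positivity) hcon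
      linarith
    have h2 : 0 ≤ b x / ω := div_nonneg (hb0 x) hω0.le
    have h3 := (psiD_mem (γ := γ) J e e' η x).2
    refine ⟨by linarith, ?_⟩
    have h4 : b x / ω ≤ 1 := by linarith
    exact (div_le_one hω0).1 h4
  have hβstrip : ∀ x, 0 ≤ β x → ∃ i ∈ J, x ∈ O (k i) := fun x hx =>
    hstrip x ((hβpos x hx).2.trans hωω1.le) (hβpos x hx).1
  have hcov' : ∀ x, 0 ≤ v x → w x ≤ W0 → x ∈ ⋃ i, O i := by
    intro x hx hwx
    rcases le_or_gt t (g x) with h1 | h1
    · refine hW1' x h1 ?_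
      rcases min_le_iff.1 hwx with h2 | h2
      · left
        have h3 := (le_max_left (g x - t) 0).trans ((le_max_left _ _).trans h2)
        linarith
      · right
        linarith
    · have h2 : 0 ≤ β x := by
        rcases le_max_iff.1 hx with h3 | h3
        · linarith
        · exact h3
      obtain ⟨i, _, hxi⟩ := hβstrip x h2
      exact mem_iUnion.2 ⟨k i, hxi⟩
  have hvO : ∀ i ∈ J, ∀ x ∈ O i, 0 < v x → v x = g x - t := by
    intro i hi x hx hvx
    rcases le_or_gt (β x) (g x - t) with h1 | h1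
    · exact max_eq_left h1
    · exfalso
      have h2 : v x = β x := max_eq_right h1.le
      obtain ⟨j, hj, hxj⟩ := hβstrip x (by linarith)
      have h3 : i ≠ k j := fun h => (hk j hj).1 (h ▸ hi)
      exact (Set.disjoint_left.1 (hd i (k j) h3)) hx hxj
  have hok : ∀ x, (v x ≤ 0 ∨ w x < W0) → ψ0 x = 1 → b x ≤ κ ∨ 2 * κ ≤ b x := by
    intro x hx h1
    have e1 : β x = (1 + τ) * s0 * (1 - b x / ω) := by
      simp only [hβ]
      rw [h1]
    have hfin : β x < W0 → 2 * κ ≤ b x := by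
      intro h2
      rw [e1, hW0] at h2
      have h3 : (1 + τ) * (1 - b x / ω) < 1 + τ / 2 := by
        by_contra hcon
        push Not at hcon
        have := mul_le_mul_of_nonneg_left hcon hs00.le
        linarith
      have h4 : τ / 4 ≤ b x / ω := by
        by_contra hcon
        push Not at hcon
        have h5 : (1 + τ) * (1 - τ / 4) ≤ (1 + τ) * (1 - b x / ω) :=
          mul_le_mul_of_nonneg_left (by linarith) (by positivity)
        nlinarith
      rw [le_div_iff₀ hω0] at h4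
      rw [hκ]
      linarith
    rcases hx with h2 | h2
    · right
      apply hfin
      exact lt_of_le_of_lt ((le_max_right (g x - t) (β x)).trans h2) hW00
    · rcases min_lt_iff.1 h2 with h3 | h3
      · right
        apply hfin
        exact lt_of_le_of_lt (le_max_right _ _) h3
      · left
        exact (h3.trans hW0κ).le
  have hcovF : ∀ x, 0 < w x → w x < W0 → x ∈ ⋃ i, O i := by
    intro x h1 h2
    refine hcov' x ?_ h2.le
    have h3 : 0 < max (max (g x - t) 0) (β x) := lt_of_lt_of_le h1 (min_le_left _ _)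
    rcases lt_max_iff.1 h3 with h4 | h4
    · rcases lt_max_iff.1 h4 with h5 | h5
      · exact h5.le.trans (le_max_left _ _)
      · exact absurd h5 (lt_irrefl 0)
    · exact h4.le.trans (le_max_right _ _)
  -- the lengths of the labels outside `J`
  set f : ι → ℝ → ℝ := fun i r => ∫ o in {o | w (C.pt o) < r}, Z i (C.pt o) * gn C w o ∂C.μ with hf
  have hℓ : ∀ i, i ∉ J → HasDerivAt (fun r => ∫ o in {o | w (C.pt o) < r},
      (O i).indicator (fun _ => (1 : ℝ)) (C.pt o) * gn C w o ∂C.μ) (deriv (f i) s) s := by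
    intro i _
    refine (hsd i).hasDerivAt.congr_of_eventuallyEq ?_
    filter_upwards [Iio_mem_nhds (hss0.trans hs0W0)] with r hr
    exact st_F C hwL hw0 hO hd hcovF hZ hZ0 hZ1 hZO hZd i hr
  -- the collars of the charts
  have hF : ∀ i, HasDerivAt (mz C (fun o => η * gn C g o) g (Z i)) (η * S i) t := by
    intro i
    have e1 : mz C (fun o => η * gn C g o) g (Z i) = fun r => η * mz C (gn C g) g (Z i) r := by
      funext r
      rw [mz_eq C hg, mz_eq C hg, ← integral_const_mul]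
      refine integral_congr_ae (Eventually.of_forall fun o => ?_)
      simp only
      by_cases h : g (C.pt o) < r
      · have m1 : o ∈ {o | g (C.pt o) < r} := h
        rw [indicator_of_mem m1, indicator_of_mem m1]
        ring
      · have m1 : o ∉ {o | g (C.pt o) < r} := h
        rw [indicator_of_notMem m1, indicator_of_notMem m1, mul_zero]
    rw [e1]
    exact (hS i).const_mul η
  have hdE0 : ∀ i ∈ J, ∀ x, 0 ≤ dE γ (e i) (e' i) x := fun i hi x => by
    have h1 := hJ i hi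
    have h2 := bd_dist hγ h1.2.1 (by linarith [h1.1, h1.2.2])
    have h3 := dist_triangle_left (γ (e i)) (γ (e' i)) x
    unfold dE
    linarith
  have hdEL : ∀ i, Lip (dE γ (e i) (e' i)) := fun i => by
    have h1 : Lip (fun x => dist x (γ (e i))) := ⟨1, LipschitzWith.dist_left _⟩
    have h2 : Lip (fun x => dist x (γ (e' i))) := ⟨1, LipschitzWith.dist_left _⟩
    have h3 := ((h1.add h2).sub (lip_const (e' i - e i))).const_mul (1 / 2)
    have e1 : dE γ (e i) (e' i) = fun x => 1 / 2 * (dist x (γ (e i)) + dist x (γ (e' i)) - (e' i - e i)) := by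
      funext x
      unfold dE
      ring
    rw [e1]
    exact h3
  have hsEL : ∀ i, LipschitzWith 1 (sE γ (e i) (e' i)) := fun i => by
    refine LipschitzWith.of_dist_le_mul fun x y => ?_
    rw [Real.dist_eq, NNReal.coe_one, one_mul]
    have h1 := abs_dist_sub_le x y (γ (e i))
    have h2 := abs_dist_sub_le x y (γ (e' i))
    rw [abs_le] at *
    unfold sE
    constructor <;> linarith [h1.1, h1.2, h2.1, h2.2]
  have hCev : ∀ᶠ δ in 𝓝[>] (0:ℝ), ∀ i ∈ J,
      2 / δ * ∫ o in {o | 0 < v (C.pt o) ∧ v (C.pt o) < δ ∧ C.pt o ∈ O i}, dE γ (e i) (e' i) (C.pt o) *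
        ((1 - v (C.pt o) / δ) * gn C v o + v (C.pt o) / δ * |C.wed (sE γ (e i) (e' i)) v o|) ∂C.μ ≤
          D i + D' i + η ∧
      1 / δ * ∫ o in {o | 0 < v (C.pt o) ∧ v (C.pt o) < δ ∧ C.pt o ∈ O i}, η * gn C v o ∂C.μ ≤
        η * S i + η := by
    rw [Filter.eventually_all_finset]
    intro i hi
    refine Filter.Eventually.and ?_ ?_
    · exact st_C58 C hg hvL (hdEL i) ⟨1, hsEL i⟩ (hdE0 i hi) (hO i) (hvO i hi) (hZ i) (hZ0 i) (hZ1 i) (hZO i)
        (hD i hi) (hD' i hi) hη0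
    · exact st_C C hg hvL (f := fun _ => η) (lip_const η) (fun _ => hη0.le) (hO i) (hvO i hi) (hZ i) (hZ0 i)
        (hZ1 i) (hZO i) (hF i) hη0
  obtain ⟨δ2, hδ2, hcolv⟩ := collar_small (μ := C.μ) (C.meas_pt hvL) 0 (η := ζ / 16) (by positivity)
  obtain ⟨δ, hδC, hδI⟩ := (hCev.and (Ioo_mem_nhdsGT (show (0 : ℝ) < min δ2 (s / 3) from
    lt_min hδ2 (by positivity)))).exists
  have hδ : 0 < δ := hδI.1
  have hδδ2 : δ ≤ δ2 := (hδI.2.trans_le (min_le_left _ _)).le
  have hδs : 3 * δ ≤ s := by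
    have := hδI.2.trans_le (min_le_right _ _)
    linarith
  -- the surgery
  have key := surg58 hγ C hmin hpt hvL hwL hw0 hwv (fun r => by
      have h1 : w (γ r) ≤ 0 := (min_le_right _ _).trans (hbγ r).le
      exact le_antisymm h1 (hw0 _)) hO hd hW00 hcov' J (T := T)
    (sf := fun i x => e i + sE γ (e i) (e' i) x) (del := fun i => dE γ (e i) (e' i))
    (fun i _ => by
      refine LipschitzWith.of_dist_le_mul fun x y => ?_
      rw [Real.dist_eq, NNReal.coe_one, one_mul]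
      have h1 := lip1_le (sE_lip (γ := γ) (e i) (e' i)) x y
      rw [abs_le] at *
      constructor <;> linarith [h1.1, h1.2])
    (fun i hi x => by
      have h1 := hJ i hi
      have h2 := sE_nonneg hγ h1.2.1 x
      have h3 := sE_le hγ h1.2.1 x
      exact ⟨by linarith [h1.1], by linarith [h1.2.2]⟩)
    (fun i _ => hdEL i) hdE0
    (fun i hi x hx hxr hvx => by
      have h1 := hJ i hi
      have h2 : v x = g x - t := hvO i hi x hx hvx
      obtain ⟨q, hq, rfl⟩ := htr i hi x hx hxr (by linarith)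
      congr 1
      rw [sE_gam hγ hq.1 hq.2 (by linarith [h1.1, h1.2.2])]
      ring)
    (b := fun i => r i / 2) (fun i hi => by
      have := (hr i hi).1
      positivity) hη0 Λ (fun t0 ht0 => by
      obtain ⟨ψ, k1, k2, k3, k4, k5, k6⟩ := hΛ t0 ht0.1 ht0.2
      refine ⟨ψ, k1, k2, k3, ?_, fun i hi x hx _ _ => k5 i hi x hx, fun i hi => ?_⟩
      · filter_upwards [st_grad C (J := J) (e := e) (e' := e') (η := η) (t0 := t0) ⟨Λ, k1⟩] with o ho h
        exact ho (k4 _ (hok _ h))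
      · obtain ⟨m, hm1, hm2⟩ := centre (S := ψ '' (O i)) (B := Real.pi / 2) (b := r i / 2) (by positivity)
          (by
            rintro _ ⟨x, _, rfl⟩
            exact k2 x)
          (by
            rintro _ ⟨x, hx, rfl⟩ _ ⟨y, hy, rfl⟩
            have := k6 i hi x hx y hy
            linarith)
        exact ⟨m, hm1, fun x hx _ _ => hm2 _ (mem_image_of_mem ψ hx)⟩)
    hδ hδs (hss0.trans hs0W0) hℓ
  -- the left hand side
  have hL : (C.μ {o | t < g (C.pt o)}).toReal ≤ (C.μ {o | 0 < v (C.pt o)}).toReal := by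
    refine ENNReal.toReal_mono (measure_ne_top _ _) (measure_mono fun o ho => ?_)
    have h1 : t < g (C.pt o) := ho
    have h2 := le_max_left (g (C.pt o) - t) (β (C.pt o))
    change 0 < v (C.pt o)
    linarith
  -- small sets
  have h1 : (C.μ {o | 0 < v (C.pt o) ∧ v (C.pt o) < δ}).toReal ≤ ζ / 16 := by
    have := hcolv δ hδ hδδ2
    simpa only [zero_add] using this
  have h2 : (C.μ {o | 0 < v (C.pt o) ∧ w (C.pt o) ≤ s}).toReal ≤ ζ / 8 + ζ / 8 := by
    have h3 := hcolg δ1 hδ1 le_rfl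
    have h4 := hcolb δ0 hδ0 le_rfl
    refine le_trans ?_ (add_le_add h3 h4)
    rw [← ENNReal.toReal_add (measure_ne_top _ _) (measure_ne_top _ _)]
    refine ENNReal.toReal_mono (ENNReal.add_ne_top.2 ⟨measure_ne_top _ _, measure_ne_top _ _⟩) ?_
    refine le_trans (measure_mono_ae ?_) (measure_union_le _ _)
    filter_upwards [hpt] with o ho hto
    obtain ⟨h5, h6⟩ : 0 < v (C.pt o) ∧ w (C.pt o) ≤ s := hto
    have hb1 : 0 < b (C.pt o) := lt_of_le_of_ne (hb0 _) fun h => ho (hbr _ h.symm)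
    have hsδ1 : s < δ1 := hss0.trans (hs0b.trans_le (min_le_left _ _))
    have hsδ0 : s < δ0 := hss0.trans (hs0b.trans_le (min_le_right _ _))
    rcases min_le_iff.1 h6 with h7 | h7
    · rcases lt_or_ge t (g (C.pt o)) with h8 | h8
      · left
        have h9 := (le_max_left (g (C.pt o) - t) 0).trans ((le_max_left _ _).trans h7)
        exact ⟨h8, by linarith⟩
      · right
        have h9 : 0 ≤ β (C.pt o) := by
          rcases lt_max_iff.1 h5 with h10 | h10
          · linarith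
          · exact h10.le
        have h10 := (hβpos _ h9).2
        exact ⟨hb1, by linarith⟩
    · right
      exact ⟨hb1, by linarith⟩
  have h3 : ∑ i ∈ J, 2 / δ * ∫ o in {o | 0 < v (C.pt o) ∧ v (C.pt o) < δ ∧ C.pt o ∈ O i},
        (dE γ (e i) (e' i) (C.pt o) + η) * ((1 - v (C.pt o) / δ) * gn C v o +
          v (C.pt o) / δ * |C.wed (fun x => e i + sE γ (e i) (e' i) x) v o|) ∂C.μ ≤
      ∑ i ∈ J, (D i + D' i) + ζ / 4 := by
    have h4 : ∀ i ∈ J, 2 / δ * ∫ o in {o | 0 < v (C.pt o) ∧ v (C.pt o) < δ ∧ C.pt o ∈ O i},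
        (dE γ (e i) (e' i) (C.pt o) + η) * ((1 - v (C.pt o) / δ) * gn C v o +
          v (C.pt o) / δ * |C.wed (fun x => e i + sE γ (e i) (e' i) x) v o|) ∂C.μ ≤
        (D i + D' i) + 4 * η * (S i + 1) := by
      intro i hi
      obtain ⟨h5, h6⟩ := hδC i hi
      simp only [wed_const_add]
      have h7 := st_split C hvL (hsEL i) (hdEL i) hδ hη0.le (hO i)
      have h8 := mul_le_mul_of_nonneg_left h7 (show 0 ≤ 2 / δ by positivity)
      rw [mul_add] at h8
      refine h8.trans ?_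
      have h9 : 2 / δ * ∫ o in {o | 0 < v (C.pt o) ∧ v (C.pt o) < δ ∧ C.pt o ∈ O i}, η * gn C v o ∂C.μ =
          2 * (1 / δ * ∫ o in {o | 0 < v (C.pt o) ∧ v (C.pt o) < δ ∧ C.pt o ∈ O i},
            η * gn C v o ∂C.μ) := by ring
      rw [h9]
      have h10 : 0 ≤ η * S i := mul_nonneg hη0.le (hS0 i)
      linarith
    refine (Finset.sum_le_sum h4).trans ?_
    rw [Finset.sum_add_distrib, ← Finset.mul_sum (f := fun i => S i + 1)]
    linarith
  have h4 : ∑ i ∈ Jᶜ, 2 * (r i / 2) / Real.pi * deriv (f i) s ≤ B + ζ / 4 := by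
    have e1 : ∑ i ∈ Jᶜ, 2 * (r i / 2) / Real.pi * deriv (f i) s = ∑ i, c i * deriv (f i) s := by
      rw [← Finset.sum_compl_add_sum J fun i => c i * deriv (f i) s]
      have e2 : ∑ i ∈ J, c i * deriv (f i) s = 0 := Finset.sum_eq_zero fun i hi => by
        simp only [hcd, if_pos hi, zero_mul]
      rw [e2, add_zero]
      refine Finset.sum_congr rfl fun i hi => ?_
      simp only [hcd, if_neg (Finset.mem_compl.1 hi)]
      ring
    rw [e1]
    have h5 : ∑ i, c i * deriv (f i) s ≤ (1 + τ) * ∑ i, c i * (S i + X i) + ζ / 8 := hsl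
    have h6 : (1 + τ) * ∑ i, c i * (S i + X i) ≤ (1 + τ) * B :=
      mul_le_mul_of_nonneg_left hXB (by positivity)
    linarith
  have h5 : B = ∑ i ∈ Jᶜ, r i / Real.pi * (S i + Y i) := by
    rw [hB, ← Finset.sum_compl_add_sum J fun i => c i * (S i + Y i)]
    have e2 : ∑ i ∈ J, c i * (S i + Y i) = 0 := Finset.sum_eq_zero fun i hi => by
      simp only [hcd, if_pos hi, zero_mul]
    rw [e2, add_zero]
    refine Finset.sum_congr rfl fun i hi => ?_
    simp only [hcd, if_neg (Finset.mem_compl.1 hi)]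
  have h6 : ∑ i ∈ Jᶜ, r i / Real.pi * (S i + Y i) = ∑ i ∈ Jᶜ, r i / Real.pi * (S i + Gz γ g t (Z i) +
      2 * (volume ({s | ∃ j ∈ J, k j = i ∧ s ∈ Ioc (e j + Real.pi) (e' j + Real.pi)} ∩
        {s | g (γ s) ≤ t})).toReal) := by
    refine Finset.sum_congr rfl fun i _ => ?_
    simp only [hY]
    ring
  rw [← h6, ← h5]
  linarith

end Pool.Agent.FPM
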