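import Mathlib
import Pool.Agent.FPM.I57V2
import Pool.Agent.FPM.I58L
import Pool.Agent.FPM.I58S

/-
I58V (helper43): the surgery along the arc of the largest piece, with the cheaper collapse of the charts
(all pieces of the arc are charts). After helper57's I57V2.
-/

open MeasureTheory Set Filter Topology
open scoped ENNReal NNReal

noncomputable section

namespace Pool.Agent.FPM

open Pool.Agent.EWD Pool.Agent.FPX

variable {M : Type} [MetricSpace M] {γ : ℝ → M} {ι : Type}

variable [CompactSpace M] [Fintype ι] [DecidableEq ι]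

/-- **the surgery along one arc** -/
theorem cstrat58 (hγ : Bd γ) {C : Calc M γ} (hC : Colb C) {ε : ℝ} (hmin : NM C ε) {f : M → ℝ} (hf : Lip f)
    (hev : ∀ s, f (γ (s + Real.pi)) = f (γ s)) {t : ℝ}
    (hnull : volume {s : ℝ | s ∈ Ioc 0 (2 * Real.pi) ∧ f (γ s) = t} = 0)
    {θ θ' l : ℝ} {big tr : Finset ι} {Z : ι → M → ℝ} {O : ι → Set M} {S p q : ι → ℝ}
    (LP8 : LP58 C f t θ θ' l big tr Z O S p q) (hθ : 0 < θ) (hθ' : 0 < θ')
    {e1 e2 τ : ℝ} {U L : Finset ι} {m : ι → ℤ} {G gU gL E1 E2 : ℝ}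
    (A : ARC57 γ f t big tr Z O p q e1 e2 τ U L m G gU gL E1 E2) {ρ : ℝ} (hρ : 0 < ρ) (hρτ : 2 * ρ ≤ τ)
    {Dl : Finset ι} (hDl : ∀ i, i ∈ Dl ↔ i ∉ big ∧
      ∃ s ∈ Icc (e1 + Real.pi - ρ) (e2 + Real.pi + ρ), γ s ∈ O i ∧ t ≤ f (γ s)) :
    ∃ (D D' a : ι → ℝ) (st R : ℝ), (∀ j ∈ U, D j + D' j ≤ (S j - a j) * (S j + 3 * a j) / 4 + θ' ∧
        2 * (q j - p j) - Gz γ f t (Z j) ≤ a j ∧ a j ≤ S j + θ') ∧ 0 ≤ st ∧ st ≤ gU + 2 * ρ * big.card ∧
      0 ≤ R ∧ R = e2 - e1 + 2 * ρ + ∑ i ∈ L, ((S i + Gz γ f t (Z i) + θ') / 2 - (q i - p i)) + 2 * (θ + ρ) ∧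
      (C.μ {o | t < f (C.pt o)}).toReal - ε ≤ ∑ j ∈ U, (D j + D' j) +
        ∑ i ∈ big \ (U ∪ L), (S i + Gz γ f t (Z i) + θ') / 2 / Real.pi * (S i + Gz γ f t (Z i)) +
        ∑ i ∈ bigᶜ \ Dl, θ / Real.pi * (S i + Gz γ f t (Z i)) +
        R / Real.pi * (∑ i ∈ L, S i + ∑ i ∈ Dl, S i +
          (∑ i ∈ L, Gz γ f t (Z i) + ∑ i ∈ Dl, Gz γ f t (Z i)) + 2 * st) := by
  have LP := LP8.toLP57
  have hpi := Real.pi_pos
  have := C.fin
  have hlt := A.lt
  have hle := A.le
  have hτ := A.τ0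
  have hG0 : ∀ i, 0 ≤ Gz γ f t (Z i) := fun i => Gz_nonneg γ f t (Z i)
  have hS0 : ∀ i, 0 ≤ S i := fun i => (hG0 i).trans (LP.GS i)
  have hUb : U ⊆ big := A.Utr.trans LP.trb
  have hLb : L ⊆ big := A.Ltr.trans LP.trb
  -- the shifted hulls
  set P : ι → ℝ := fun j => p j + m j * (2 * Real.pi) with hP
  set Q' : ι → ℝ := fun j => q j + m j * (2 * Real.pi) with hQ'
  have hγP : ∀ j, γ (P j) = γ (p j) := fun j => bd_per_int hγ (p j) (m j)
  have hγQ : ∀ j, γ (Q' j) = γ (q j) := fun j => bd_per_int hγ (q j) (m j)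
  -- the charts
  have hchart : ∀ j : ι, ∃ (a b : ℚ) (D D' α : ℝ), j ∈ U → P j - ρ ≤ a ∧ (a : ℝ) ≤ P j ∧ Q' j ≤ b ∧
      (b : ℝ) ≤ Q' j + ρ ∧
      HasDerivAt (mz C (fun o => dE γ a b (C.pt o) * gn C f o) f (Z j)) D t ∧
      HasDerivAt (mz C (fun o => dE γ a b (C.pt o) * |C.wed (sE γ a b) f o|) f (Z j)) D' t ∧
      D + D' ≤ (S j - α) * (S j + 3 * α) / 4 + θ' ∧
      2 * (q j - p j) - Gz γ f t (Z j) ≤ α ∧ α ≤ S j + θ' := by
    intro j
    by_cases hj : j ∈ U
    · obtain ⟨a, ha1, ha2⟩ := exists_rat_btwn (show P j - ρ < P j by linarith)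
      obtain ⟨b, hb1, hb2⟩ := exists_rat_btwn (show Q' j < Q' j + ρ by linarith)
      obtain ⟨w1, w2⟩ := A.winU j hj
      have hab : (b : ℝ) ≤ a + Real.pi := by
        simp only [hP] at ha1
        simp only [hQ'] at hb2
        linarith
      obtain ⟨D, D', α, hD1, hD2, hD3, hD4, hD5⟩ := LP8.t4 j (A.Utr hj) a b (m j) ha2.le hb1.le hab
      exact ⟨a, b, D, D', α, fun _ => ⟨ha1.le, ha2.le, hb1.le, hb2.le, hD1, hD2, hD5, hD3, hD4⟩⟩
    · exact ⟨0, 0, 0, 0, 0, fun h => absurd h hj⟩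
  choose ea eb D D' aa hcd using hchart
  -- the relabelling
  set Q : Finset ι := L ∪ Dl with hQd
  set Γ : Set M := γ '' Icc (e1 + Real.pi - ρ) (e2 + Real.pi + ρ) with hΓ
  have hΓc : IsCompact Γ := isCompact_Icc.image hγ.lip.continuous
  have hQ : ∀ i, i ∉ Q → ∀ x ∈ O i, x ∈ Kt γ f t → x ∉ Γ := by
    rintro i hi x hx hK ⟨s, hs, rfl⟩
    have h1 : t ≤ f (γ s) := by
      rcases hK with h | h
      · exact (show f (γ s) = t from h).ge
      · exact h.2
    rw [hQd, Finset.mem_union, not_or] at hi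
    by_cases hb : i ∈ big
    · exact arc_Q LP A hρ hρτ hb hi.1 hs hx h1
    · exact hi.2 ((hDl i).2 ⟨hb, s, hs, hx, h1⟩)
  have hΓn : Γ.Nonempty := (nonempty_Icc.2 (by linarith)).image γ
  obtain ⟨O', Z', k1, k2, k3, k4, k5, k6, k7, k8, k9, k10, k11, k12, k13, k14, k15, k16, -, -, -⟩ :=
    relab57 hγ C hf LP.op LP.dj LP.cov LP.lip LP.lo LP.hi LP.one LP.zer hΓc hΓn Q hQ hρ
  have hDlb : ∀ i ∈ Dl, i ∉ big := fun i hi => ((hDl i).1 hi).1
  have hUQ : ∀ i ∈ U, i ∉ Q := by
    intro i hi h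
    rcases Finset.mem_union.1 h with h | h
    · exact Finset.disjoint_left.1 A.dj hi h
    · exact hDlb i h (hUb hi)
  have hLD : Disjoint L Dl := by
    rw [Finset.disjoint_left]
    intro i hi h
    exact hDlb i h (hLb hi)
  -- the radius
  set W : ι → ℝ := fun j => (S j + Gz γ f t (Z j) + θ') / 2 with hW
  set R : ℝ := e2 - e1 + 2 * ρ + ∑ i ∈ L, (W i - (q i - p i)) + 2 * (θ + ρ) with hR
  have hpq : ∀ j ∈ tr, dist (γ (p j)) (γ (q j)) = q j - p j := fun j hj =>
    bd_dist hγ (LP.hle j hj) (by linarith [LP.hlt j hj])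
  have hWd : ∀ j ∈ big, ∀ x ∈ O j, ∀ y ∈ O j, dist x y ≤ W j := by
    intro j hj x hx y hy
    have h1 := LP.per j hj x hx y hy x hx
    rw [dist_self, dist_comm y x] at h1
    simp only [hW]
    linarith
  have hWh : ∀ j ∈ tr, q j - p j ≤ W j := by
    intro j hj
    rw [← hpq j hj]
    exact hWd j (LP.trb hj) _ (LP.hp j hj).1 _ (LP.hq j hj).1
  have hrad := lab_rad hγ (E1 := e1 - ρ + Real.pi) (E2 := e2 + ρ + Real.pi) (ρ := θ + ρ) (by positivity) L
    (P := P) (Q := Q') (u := W) (fun j hj => by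
      have hj' := A.Ltr hj
      obtain ⟨w1, w2⟩ := A.winL j hj
      have h1 := LP.hle j hj'
      have h2 := hWh j hj'
      simp only [hP, hQ']
      exact ⟨by linarith, by linarith, by linarith, by linarith⟩) (O := O) (fun j hj x hx => by
      have hj' := A.Ltr hj
      have h1 := LP.per j (hLb hj) x hx (γ (p j)) (LP.hp j hj').1 (γ (q j)) (LP.hq j hj').1
      rw [hpq j hj', dist_comm (γ (q j)) x] at h1
      rw [hγP, hγQ]
      simp only [hP, hQ', hW]
      linarith) (fun j hj => hWd j (hLb hj)) (X := O' none) (fun x hx => by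
      rcases k10 x hx with ⟨i, hi, hxi⟩ | ⟨y, ⟨s, hs, rfl⟩, hy⟩
      · rcases Finset.mem_union.1 hi with h | h
        · exact Or.inl ⟨i, h, hxi⟩
        · obtain ⟨hb, s, hs, h1, h2⟩ := (hDl i).1 h
          refine Or.inr ⟨s, ⟨by linarith [hs.1], by linarith [hs.2]⟩, ?_⟩
          have := LP.dust i hb x hxi _ h1
          linarith
      · exact Or.inr ⟨s, ⟨by linarith [hs.1], by linarith [hs.2]⟩, by linarith⟩)
  have hRe : e2 + ρ + Real.pi - (e1 - ρ + Real.pi) + ∑ j ∈ L, (W j - (Q' j - P j)) + 2 * (θ + ρ) = R := by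
    rw [hR]
    have e3 : ∑ j ∈ L, (W j - (Q' j - P j)) = ∑ i ∈ L, (W i - (q i - p i)) :=
      Finset.sum_congr rfl fun j _ => by
        simp only [hP, hQ']
        ring
    rw [e3]
    ring
  rw [hRe] at hrad
  obtain ⟨hrad1, hrad2⟩ := hrad
  have hsum0 : 0 ≤ ∑ i ∈ L, (W i - (q i - p i)) := Finset.sum_nonneg fun i hi => by
    linarith [hWh i (A.Ltr hi)]
  have hR0 : 0 < R := by
    rw [hR]
    linarith
  -- the data of the labels
  set S' : Option ι → ℝ := fun o => o.elim (∑ i ∈ Q, S i) fun i => if i ∈ Q then 0 else S i with hS'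
  set J' : Finset (Option ι) := U.map Function.Embedding.some with hJ'
  set r : Option ι → ℝ := fun o => o.elim R fun i => if i ∈ big then W i else θ with hr
  set ee : Option ι → ℝ := fun o => o.elim 0 fun i => (ea i : ℝ) with hee
  set ee' : Option ι → ℝ := fun o => o.elim 0 fun i => (eb i : ℝ) with hee'
  set DD : Option ι → ℝ := fun o => o.elim 0 D with hDD
  set DD' : Option ι → ℝ := fun o => o.elim 0 D' with hDD'
  have hW0 : ∀ j, 0 < W j := fun j => by
    have h1 := hG0 j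
    have h2 := hS0 j
    simp only [hW]
    positivity
  have hmem : ∀ o, o ∈ J' ↔ ∃ i ∈ U, some i = o := by
    intro o
    rw [hJ', Finset.mem_map]
    rfl
  have hJ1 : ∀ j ∈ U, e1 - ρ ≤ ea j ∧ (ea j : ℝ) ≤ eb j ∧ (eb j : ℝ) ≤ e2 + ρ := by
    intro j hj
    obtain ⟨c1, c2, c3, c4, _⟩ := hcd j hj
    obtain ⟨w1, w2⟩ := A.winU j hj
    have h1 := LP.hle j (A.Utr hj)
    simp only [hP, hQ'] at c1 c2 c3 c4
    exact ⟨by linarith, by linarith, by linarith⟩
  have hSder : ∀ o, HasDerivAt (mz C (gn C f) f (Z' o)) (S' o) t := by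
    intro o
    obtain ⟨h1, h2, h3⟩ := k13 (gn C f) (int_gn C hf)
    rcases o with _ | i
    · exact h3 S LP.der
    · by_cases hi : i ∈ Q
      · have : S' (some i) = 0 := by simp only [hS', Option.elim, if_pos hi]
        rw [this]
        exact h2 i hi
      · have : S' (some i) = S i := by simp only [hS', Option.elim, if_neg hi]
        rw [this]
        exact h1 i hi (S i) (LP.der i)
  have hdEL : ∀ a b : ℝ, Lip (dE γ a b) := fun a b => ⟨1, dE_lip a b⟩
  have hint : ∀ a b : ℝ, Integrable (fun o => dE γ a b (C.pt o) * gn C f o) C.μ := by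
    intro a b
    obtain ⟨K, hK0, hK⟩ := (hdEL a b).bdd
    refine (int_gn C hf).bdd_mul (c := K) (C.meas_pt (hdEL a b)).aestronglyMeasurable ?_
    exact Eventually.of_forall fun o => by
      rw [Real.norm_eq_abs]
      exact hK _
  have hint' : ∀ a b : ℝ, Integrable (fun o => dE γ a b (C.pt o) * |C.wed (sE γ a b) f o|) C.μ := by
    intro a b
    obtain ⟨K, hK0, hK⟩ := (hdEL a b).bdd
    refine (integrable_wed C ⟨1, sE_lip a b⟩ hf).abs.bdd_mul (c := K) (C.meas_pt (hdEL a b)).aestronglyMeasurable ?_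
    exact Eventually.of_forall fun o => by
      rw [Real.norm_eq_abs]
      exact hK _
  -- the surgery
  have key := st58 hγ hC hmin hf hnull (T := e1 - ρ) k1 k2 k3 k4 k5 k6 k7 k8 hSder
    (J := J') (e := ee) (e' := ee') (D := DD) (D' := DD') (fun o ho => by
      obtain ⟨j, hj, rfl⟩ := (hmem o).1 ho
      obtain ⟨c1, c2, c3⟩ := hJ1 j hj
      refine ⟨c1, c2, ?_⟩
      have : (eb j : ℝ) ≤ e1 - ρ + Real.pi := by linarith
      exact this) (fun o ho => by
      obtain ⟨j, hj, rfl⟩ := (hmem o).1 ho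
      exact (k13 _ (hint _ _)).1 j (hUQ j hj) _ (hcd j hj).2.2.2.2.1) (fun o ho => by
      obtain ⟨j, hj, rfl⟩ := (hmem o).1 ho
      exact (k13 _ (hint' _ _)).1 j (hUQ j hj) _ (hcd j hj).2.2.2.2.2.1) (fun o ho x hx hxr hfx => by
      obtain ⟨j, hj, rfl⟩ := (hmem o).1 ho
      obtain ⟨c1, c2, c3, c4, _⟩ := hcd j hj
      obtain ⟨s, rfl⟩ := hxr
      obtain ⟨n, hn1, hn2⟩ := LP.hull j (A.Utr hj) s (k11 j (hUQ j hj) hx) hfx
      refine ⟨s + (n + m j : ℤ) * (2 * Real.pi), ⟨?_, ?_⟩, bd_per_int hγ s (n + m j)⟩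
      · refine c2.trans ?_
        simp only [hP]
        push_cast
        linarith
      · refine le_trans ?_ c3
        simp only [hQ']
        push_cast
        linarith) (k := fun _ => none) (r := r) (fun o ho => by
      obtain ⟨j, hj, rfl⟩ := (hmem o).1 ho
      obtain ⟨c1, c2, c3⟩ := hJ1 j hj
      refine ⟨?_, ?_, ?_⟩
      · intro h
        obtain ⟨i, _, hi⟩ := (hmem none).1 h
        exact Option.some_ne_none i hi
      · refine subset_trans (image_mono (Icc_subset_Icc ?_ ?_)) k9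
        · simp only [hee, Option.elim]
          linarith
        · simp only [hee', Option.elim]
          linarith
      · intro x hx
        refine le_trans ?_ (hrad1 x hx)
        have h1 := dist_triangle x (γ (e1 - ρ + Real.pi)) (γ ((ea j : ℝ) + Real.pi))
        have h2 := dist_triangle x (γ (e2 + ρ + Real.pi)) (γ ((eb j : ℝ) + Real.pi))
        have h3 := gam_dist_le hγ (e1 - ρ + Real.pi) ((ea j : ℝ) + Real.pi)
        have h4 := gam_dist_le hγ (e2 + ρ + Real.pi) ((eb j : ℝ) + Real.pi)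
        rw [abs_sub_comm, abs_of_nonneg (by linarith)] at h3
        rw [abs_of_nonneg (by linarith)] at h4
        simp only [hee, hee', Option.elim]
        linarith) (fun o _ => by
      rcases o with _ | i
      · exact ⟨hR0, hrad2⟩
      · by_cases hb : i ∈ big
        · have e3 : r (some i) = W i := by simp only [hr, Option.elim, if_pos hb]
          rw [e3]
          refine ⟨hW0 i, fun x hx y hy => ?_⟩
          by_cases hi : i ∈ Q
          · rw [k12 i hi] at hx
            exact absurd hx (notMem_empty x)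
          · exact hWd i hb x (k11 i hi hx) y (k11 i hi hy)
        · have e3 : r (some i) = θ := by simp only [hr, Option.elim, if_neg hb]
          rw [e3]
          refine ⟨hθ, fun x hx y hy => ?_⟩
          by_cases hi : i ∈ Q
          · rw [k12 i hi] at hx
            exact absurd hx (notMem_empty x)
          · exact LP.dust i hb x (k11 i hi hx) y (k11 i hi hy))
  -- the measure of the strips
  set st : ℝ := (volume ({s | ∃ j ∈ J', (fun _ : Option ι => (none : Option ι)) j = none ∧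
      s ∈ Ioc (ee j + Real.pi) (ee' j + Real.pi)} ∩ {s | f (γ s) ≤ t})).toReal with hst
  have hst1 : st ≤ gU + 2 * ρ * big.card := by
    have e3 : {s | ∃ j ∈ J', (fun _ : Option ι => (none : Option ι)) j = none ∧
      s ∈ Ioc (ee j + Real.pi) (ee' j + Real.pi)} =
      {s | ∃ j ∈ U, s ∈ Ioc ((ea j : ℝ) + Real.pi) ((eb j : ℝ) + Real.pi)} := by
      ext s
      constructor
      · rintro ⟨o, ho, -, hs⟩
        obtain ⟨j, hj, rfl⟩ := (hmem o).1 ho
        exact ⟨j, hj, hs⟩
      · rintro ⟨j, hj, hs⟩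
        exact ⟨some j, (hmem _).2 ⟨j, hj, rfl⟩, rfl, hs⟩
    have h1 := strip57 (t := t) hev (J := U) (P := P) (Q := Q') (e := fun j => (ea j : ℝ))
      (e' := fun j => (eb j : ℝ)) hρ.le (fun j hj => by
        obtain ⟨c1, c2, c3, c4, _⟩ := hcd j hj
        refine ⟨?_, c1, c4⟩
        have := LP.hle j (A.Utr hj)
        simp only [hP, hQ']
        linarith)
    have h2 : (volume ((⋃ j ∈ U, Icc (P j) (Q' j)) \ {s | t < f (γ s)})).toReal ≤ gU := by
      rw [A.hgU]
    have h3 : (U.card : ℝ) ≤ big.card := by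
      exact_mod_cast Finset.card_le_card hUb
    have h4 : 2 * ρ * (U.card : ℝ) ≤ 2 * ρ * big.card := mul_le_mul_of_nonneg_left h3 (by positivity)
    rw [hst, e3]
    linarith
  refine ⟨D, D', aa, st, R, fun j hj => (hcd j hj).2.2.2.2.2.2, ENNReal.toReal_nonneg, hst1,
    hR0.le, rfl, ?_⟩
  · -- the sums
    have e1' : ∑ o ∈ J', (DD o + DD' o) = ∑ j ∈ U, (D j + D' j) := by
      rw [hJ', Finset.sum_map]
      rfl
    rw [e1', opt_sum (J := U)] at key
    have e2' : ∀ i, i ∈ Q → r (some i) / Real.pi * (S' (some i) + Gz γ f t (Z' (some i)) +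
        2 * (volume ({s | ∃ j ∈ J', (fun _ : Option ι => (none : Option ι)) j = some i ∧
          s ∈ Ioc (ee j + Real.pi) (ee' j + Real.pi)} ∩ {s | f (γ s) ≤ t})).toReal) = 0 := by
      intro i hi
      have e3 : S' (some i) = 0 := by simp only [hS', Option.elim, if_pos hi]
      have e4 : {s | ∃ j ∈ J', (fun _ : Option ι => (none : Option ι)) j = some i ∧
          s ∈ Ioc (ee j + Real.pi) (ee' j + Real.pi)} = ∅ := by
        ext s
        simp
      rw [e3, k15 i hi, e4]
      simp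
    have e5 : ∀ i, i ∉ Q → r (some i) / Real.pi * (S' (some i) + Gz γ f t (Z' (some i)) +
        2 * (volume ({s | ∃ j ∈ J', (fun _ : Option ι => (none : Option ι)) j = some i ∧
          s ∈ Ioc (ee j + Real.pi) (ee' j + Real.pi)} ∩ {s | f (γ s) ≤ t})).toReal) =
        r (some i) / Real.pi * (S i + Gz γ f t (Z i)) := by
      intro i hi
      have e3 : S' (some i) = S i := by simp only [hS', Option.elim, if_neg hi]
      have e4 : {s | ∃ j ∈ J', (fun _ : Option ι => (none : Option ι)) j = some i ∧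
          s ∈ Ioc (ee j + Real.pi) (ee' j + Real.pi)} = ∅ := by
        ext s
        simp
      rw [e3, k14 i hi, e4]
      simp
    have e6 : ∑ i ∈ Uᶜ, r (some i) / Real.pi * (S' (some i) + Gz γ f t (Z' (some i)) +
        2 * (volume ({s | ∃ j ∈ J', (fun _ : Option ι => (none : Option ι)) j = some i ∧
          s ∈ Ioc (ee j + Real.pi) (ee' j + Real.pi)} ∩ {s | f (γ s) ≤ t})).toReal) =
        ∑ i ∈ big \ (U ∪ L), (S i + Gz γ f t (Z i) + θ') / 2 / Real.pi * (S i + Gz γ f t (Z i)) +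
        ∑ i ∈ bigᶜ \ Dl, θ / Real.pi * (S i + Gz γ f t (Z i)) := by
      have hsplit : Uᶜ = Q ∪ ((big \ (U ∪ L)) ∪ (bigᶜ \ Dl)) := by
        ext i
        simp only [Finset.mem_compl, Finset.mem_union, Finset.mem_sdiff, hQd, not_or]
        constructor
        · intro h
          by_cases h1 : i ∈ L ∨ i ∈ Dl
          · exact Or.inl h1
          · rw [not_or] at h1
            right
            by_cases hb : i ∈ big
            · exact Or.inl ⟨hb, h, h1.1⟩
            · exact Or.inr ⟨hb, h1.2⟩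
        · rintro ((h | h) | h | h)
          · exact fun hj => Finset.disjoint_left.1 A.dj hj h
          · exact fun hj => hDlb i h (hUb hj)
          · exact h.2.1
          · exact fun hj => h.1 (hUb hj)
      have hd1 : Disjoint Q ((big \ (U ∪ L)) ∪ (bigᶜ \ Dl)) := by
        rw [Finset.disjoint_left]
        intro i hi h
        simp only [Finset.mem_union, Finset.mem_sdiff, Finset.mem_compl, not_or] at h
        rcases Finset.mem_union.1 hi with h1 | h1
        · rcases h with h | h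
          · exact h.2.2 h1
          · exact h.1 (hLb h1)
        · rcases h with h | h
          · exact hDlb i h1 h.1
          · exact h.2 h1
      have hd2 : Disjoint (big \ (U ∪ L)) (bigᶜ \ Dl) := by
        rw [Finset.disjoint_left]
        intro i hi h
        simp only [Finset.mem_sdiff, Finset.mem_compl] at hi h
        exact h.1 hi.1
      rw [hsplit, Finset.sum_union hd1, Finset.sum_union hd2, Finset.sum_eq_zero fun i hi => e2' i hi,
        zero_add]
      congr 1
      · refine Finset.sum_congr rfl fun i hi => ?_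
        have hi' := Finset.disjoint_right.1 hd1 (Finset.mem_union_left _ hi)
        rw [e5 i hi']
        have hb : i ∈ big := (Finset.mem_sdiff.1 hi).1
        have e3 : r (some i) = W i := by simp only [hr, Option.elim, if_pos hb]
        rw [e3]
      · refine Finset.sum_congr rfl fun i hi => ?_
        have hi' := Finset.disjoint_right.1 hd1 (Finset.mem_union_right _ hi)
        rw [e5 i hi']
        have hb : i ∉ big := Finset.mem_compl.1 (Finset.mem_sdiff.1 hi).1
        have e3 : r (some i) = θ := by simp only [hr, Option.elim, if_neg hb]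
        rw [e3]
    rw [e6, k16] at key
    have e7 : S' none = ∑ i ∈ L, S i + ∑ i ∈ Dl, S i := Finset.sum_union hLD
    have e8 : ∑ i ∈ Q, Gz γ f t (Z i) = ∑ i ∈ L, Gz γ f t (Z i) + ∑ i ∈ Dl, Gz γ f t (Z i) :=
      Finset.sum_union hLD
    rw [e7, e8] at key
    have e9 : r none = R := rfl
    have e10 : (volume ({s | ∃ j ∈ J', (none : Option ι) = none ∧
        s ∈ Ioc (ee j + Real.pi) (ee' j + Real.pi)} ∩ {s | f (γ s) ≤ t})).toReal = st := rfl
    rw [e9, e10] at key
    linarith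

end Pool.Agent.FPM
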