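import Mathlib
import Pool.Agent.FPM.I58V
import Pool.Agent.FPM.I58NC
import Pool.Agent.FPM.I58Z
import Pool.Agent.FPM.I58L
import Pool.Agent.FPM.I57LV
import Pool.Agent.FPM.I58Q

/-
I58LV (helper80), module K of ISO58: the numbers `x, y, z, A, B` at one level and the isoperimetric inequality.
-/

open MeasureTheory Set Filter Topology
open scoped ENNReal NNReal

noncomputable section

namespace Pool.Agent.FPM

open Pool.Agent.EWD Pool.Agent.FPX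

variable {M : Type} [MetricSpace M] {γ : ℝ → M}

/-- **the numbers at one level** -/
theorem level58 [CompactSpace M] (hγ : Bd γ) {C : Calc M γ} (hC : Colb C) {ε : ℝ} (hmin : NM C ε)
    {f : M → ℝ} (hf : Lip f) (hev : ∀ s, f (γ (s + Real.pi)) = f (γ s)) {t : ℝ}
    (hnull : volume {s : ℝ | s ∈ Ioc 0 (2 * Real.pi) ∧ f (γ s) = t} = 0)
    {θ θ' l K : ℝ} {ι : Type} [Fintype ι] [DecidableEq ι]
    {big tr : Finset ι} {Z : ι → M → ℝ} {O : ι → Set M} {S p q : ι → ℝ}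
    (LP8 : LP58 C f t θ θ' l big tr Z O S p q) (hθ : 0 < θ) (hθ' : 0 < θ')
    (hK : (big.card : ℝ) ≤ K) (hsm : l + 2 * θ + 2 * K * θ' < 2 * Real.pi) :
    ∃ x y z A B : ℝ, x + y + z = l ∧ 0 ≤ x ∧ 0 ≤ y ∧ 0 ≤ z ∧ 0 ≤ A ∧ 0 ≤ B ∧
      A ≤ x + 10000 * (θ + K * θ') ∧ B ≤ y + 10000 * (θ + K * θ') ∧
      2 * Real.pi * ((C.μ {o | t < f (C.pt o)}).toReal - ε) ≤
        Real.pi / 2 * ((x - A) * (x + 3 * A)) + (y + A) ^ 2 + 2 * (x + y) * z + 10000 * (θ + K * θ') ∧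
      2 * Real.pi * ((C.μ {o | t < f (C.pt o)}).toReal - ε) ≤
        Real.pi / 2 * ((y - B) * (y + 3 * B)) + (x + B) ^ 2 + 2 * (x + y) * z + 10000 * (θ + K * θ') := by
  have LP := LP8.toLP57
  have hpi := Real.pi_pos
  have hpi4 : Real.pi < 4 := Real.pi_lt_four
  have hG0 : ∀ i, 0 ≤ Gz γ f t (Z i) := LP.G_nonneg
  have hS0 : ∀ i, 0 ≤ S i := fun i => (hG0 i).trans (LP.GS i)
  have hl0 : 0 ≤ l := by
    rw [← LP.sumS]
    exact Finset.sum_nonneg fun i _ => hS0 i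
  have hK0 : 0 ≤ K := (Nat.cast_nonneg _).trans hK
  have hKθ : 0 ≤ K * θ' := mul_nonneg hK0 hθ'.le
  have hl2 : l < 2 * Real.pi := by linarith
  -- the trivial case
  by_cases hcase : big = ∅ ∨ ∃ i1, i1 ∈ big ∧ i1 ∉ tr ∧
      ∀ i ∈ big, S i + Gz γ f t (Z i) ≤ S i1 + Gz γ f t (Z i1)
  · -- the error terms are at most `60 (θ + K θ')`
    have h1 : 2 * Real.pi * ((C.μ {o | t < f (C.pt o)}).toReal - ε) ≤ l ^ 2 + 60 * (θ + K * θ') := by
      have h3 : 4 * l * θ ≤ 32 * θ := by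
        have : 4 * l ≤ 32 := by linarith
        exact mul_le_mul_of_nonneg_right this hθ.le
      rcases big.eq_empty_or_nonempty with hb | hb
      · have LP' : LP57 C f t θ θ l big tr Z O S p q :=
          { LP with
            per := fun i hi => absurd hi (by rw [hb]; exact Finset.notMem_empty i)
            t3 := fun i hi => absurd (LP.trb hi) (by rw [hb]; exact Finset.notMem_empty i) }
        have h2 := fstrat57' hγ hC hmin hf hnull hθ hθ.le LP' (Or.inl hb)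
        have h4 : 2 * l * θ ≤ 16 * θ := by
          have : 2 * l ≤ 16 := by linarith
          exact mul_le_mul_of_nonneg_right this hθ.le
        linarith
      · have h2 := fstrat57' hγ hC hmin hf hnull hθ hθ'.le LP hcase
        have h4 : 2 * l * θ' ≤ 16 * θ' := by
          have : 2 * l ≤ 16 := by linarith
          exact mul_le_mul_of_nonneg_right this hθ'.le
        have h5 : 1 * θ' ≤ K * θ' := by
          refine mul_le_mul_of_nonneg_right (le_trans ?_ hK) hθ'.le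
          exact_mod_cast Finset.card_pos.mpr hb
        linarith
    have h5 : l ^ 2 ≤ Real.pi / 2 * l ^ 2 :=
      le_mul_of_one_le_left (sq_nonneg l) (by linarith [Real.pi_gt_three])
    have h6 : 0 ≤ θ + K * θ' := by linarith
    refine ⟨l, 0, 0, 0, 0, by ring, hl0, le_rfl, le_rfl, le_rfl, le_rfl, by linarith,
      by linarith, ?_, ?_⟩
    · have e : Real.pi / 2 * ((l - 0) * (l + 3 * 0)) + (0 + 0) ^ 2 + 2 * (l + 0) * 0 +
        10000 * (θ + K * θ') = Real.pi / 2 * l ^ 2 + 10000 * (θ + K * θ') := by ring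
      rw [e]
      linarith
    · have e : Real.pi / 2 * ((0 - 0) * (0 + 3 * 0)) + (l + 0) ^ 2 + 2 * (l + 0) * 0 +
        10000 * (θ + K * θ') = l ^ 2 + 10000 * (θ + K * θ') := by ring
      rw [e]
      linarith
  -- the piece with the largest boundary has a trace
  obtain ⟨i0, hi0b, hi0t, hmax⟩ : ∃ i0 ∈ big, i0 ∈ tr ∧
      ∀ i ∈ big, S i + Gz γ f t (Z i) ≤ S i0 + Gz γ f t (Z i0) := by
    rw [not_or] at hcase
    obtain ⟨h1, h2⟩ := hcase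
    obtain ⟨i0, hi0, hm⟩ := big.exists_max_image (fun i => S i + Gz γ f t (Z i))
      (Finset.nonempty_iff_ne_empty.mpr h1)
    refine ⟨i0, hi0, ?_, hm⟩
    by_contra h3
    exact h2 ⟨i0, hi0, h3, hm⟩
  have hcθ : (big.card : ℝ) * θ' ≤ K * θ' := mul_le_mul_of_nonneg_right hK hθ'.le
  obtain ⟨e1, e2, τ, U, L, m, G, gU, gL, E1, E2, A, hi0U⟩ := book57 hγ hf hev LP hθ'.le
    (by linarith) hi0t
  have hw := A.width hγ hf LP hθ'.le
  have hτ := A.τ0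
  have hle := A.le
  obtain ⟨nG, ngU, ngL, nE1, nE2⟩ := A.nonneg
  -- the collar
  obtain ⟨ρ, hρ, hρτ, hρθ, hρw⟩ : ∃ ρ : ℝ, 0 < ρ ∧ 2 * ρ ≤ τ ∧ ρ ≤ θ' ∧
      2 * ρ + θ + (e2 - e1) < Real.pi := by
    have h1 : 0 < Real.pi - θ - (e2 - e1) := by linarith
    refine ⟨min (τ / 2) (min θ' ((Real.pi - θ - (e2 - e1)) / 4)), ?_, ?_, ?_, ?_⟩
    · exact lt_min (by linarith) (lt_min hθ' (by linarith))
    · have := min_le_left (τ / 2) (min θ' ((Real.pi - θ - (e2 - e1)) / 4))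
      linarith
    · exact (min_le_right _ _).trans (min_le_left _ _)
    · have := (min_le_right (τ / 2) (min θ' ((Real.pi - θ - (e2 - e1)) / 4))).trans (min_le_right _ _)
      linarith
  -- the dust near the arcs
  obtain ⟨Du, hDu⟩ : ∃ Du : Finset ι, ∀ i, i ∈ Du ↔ i ∉ big ∧ ∃ s ∈ Icc (e1 - ρ) (e2 + ρ),
      γ s ∈ O i ∧ t ≤ f (γ s) := by
    classical
    exact ⟨Finset.univ.filter fun i => i ∉ big ∧ ∃ s ∈ Icc (e1 - ρ) (e2 + ρ),
      γ s ∈ O i ∧ t ≤ f (γ s), fun i => by simp⟩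
  obtain ⟨Dl, hDl⟩ : ∃ Dl : Finset ι, ∀ i, i ∈ Dl ↔ i ∉ big ∧
      ∃ s ∈ Icc (e1 + Real.pi - ρ) (e2 + Real.pi + ρ), γ s ∈ O i ∧ t ≤ f (γ s) := by
    classical
    exact ⟨Finset.univ.filter fun i => i ∉ big ∧
      ∃ s ∈ Icc (e1 + Real.pi - ρ) (e2 + Real.pi + ρ), γ s ∈ O i ∧ t ≤ f (γ s), fun i => by simp⟩
  have hDu' : ∀ i, i ∈ Du ↔ i ∉ big ∧
      ∃ s ∈ Icc (e1 + Real.pi + Real.pi - ρ) (e2 + Real.pi + Real.pi + ρ), γ s ∈ O i ∧ t ≤ f (γ s) := by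
    intro i
    rw [hDu i]
    refine and_congr_right fun _ => ?_
    constructor
    · rintro ⟨s, ⟨h1, h2⟩, h3⟩
      refine ⟨s + 2 * Real.pi, ⟨by linarith, by linarith⟩, ?_⟩
      rw [hγ.per]
      exact h3
    · rintro ⟨s, ⟨h1, h2⟩, h3⟩
      refine ⟨s - 2 * Real.pi, ⟨by linarith, by linarith⟩, ?_⟩
      have e : γ (s - 2 * Real.pi) = γ s := by
        rw [← hγ.per (s - 2 * Real.pi), sub_add_cancel]
      rw [e]
      exact h3
  have hDD : Disjoint Du Dl := by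
    rw [Finset.disjoint_left]
    intro i h1 h2
    obtain ⟨h3, s, hs, h4, -⟩ := (hDu i).mp h1
    obtain ⟨-, s', hs', h5, -⟩ := (hDl i).mp h2
    refine dust_far hγ (a := e1 - ρ) (b := e2 + ρ) (c := θ) (by linarith) hs ?_
      (LP.dust i h3 _ h4 _ h5)
    exact ⟨by linarith [hs'.1], by linarith [hs'.2]⟩
  have hfin : ∀ (S : Set ℝ) (a b : ℝ), volume (S ∩ Ioc a b) ≠ ∞ := d1_fin
  -- traces of the dust
  have hE1' : E1 ≤ ∑ i ∈ Du, Gz γ f t (Z i) := by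
    rw [A.hE1]
    refine LP.dust_tr2 hγ hf ?_ (by linarith [A.lt])
    intro i hi s hs h1 h2
    exact (hDu i).mpr ⟨hi, s, ⟨by linarith [hs.1], by linarith [hs.2]⟩, h1, h2⟩
  have hE2' : E2 ≤ ∑ i ∈ Dl, Gz γ f t (Z i) := by
    rw [A.hE2]
    refine LP.dust_tr2 hγ hf ?_ (by linarith [A.lt])
    intro i hi s hs h1 h2
    exact (hDl i).mpr ⟨hi, s, ⟨by linarith [hs.1], by linarith [hs.2]⟩, h1, h2⟩
  have hcol : ∀ a b : ℝ, a ≤ b →
      (volume ({s | ∃ i, i ∉ big ∧ γ s ∈ O i ∧ t < f (γ s)} ∩ Ioc (a - ρ) (b + ρ))).toReal ≤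
      (volume ({s | ∃ i, i ∉ big ∧ γ s ∈ O i ∧ t < f (γ s)} ∩ Ioc a b)).toReal + 2 * ρ := by
    intro a b hab
    have h1 : volume ({s | ∃ i, i ∉ big ∧ γ s ∈ O i ∧ t < f (γ s)} ∩ Ioc (a - ρ) (b + ρ)) ≤
        volume ({s | ∃ i, i ∉ big ∧ γ s ∈ O i ∧ t < f (γ s)} ∩ Ioc a b) +
          (ENNReal.ofReal ρ + ENNReal.ofReal ρ) := by
      calc volume ({s | ∃ i, i ∉ big ∧ γ s ∈ O i ∧ t < f (γ s)} ∩ Ioc (a - ρ) (b + ρ)) ≤
          volume (({s | ∃ i, i ∉ big ∧ γ s ∈ O i ∧ t < f (γ s)} ∩ Ioc a b) ∪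
            (Ioc (a - ρ) a ∪ Ioc b (b + ρ))) := by
            apply measure_mono
            rintro s ⟨h2, h3, h4⟩
            rcases le_or_gt s a with h5 | h5
            · exact Or.inr (Or.inl ⟨h3, h5⟩)
            · rcases le_or_gt s b with h6 | h6
              · exact Or.inl ⟨h2, h5, h6⟩
              · exact Or.inr (Or.inr ⟨h6, h4⟩)
        _ ≤ volume ({s | ∃ i, i ∉ big ∧ γ s ∈ O i ∧ t < f (γ s)} ∩ Ioc a b) +
            (volume (Ioc (a - ρ) a) + volume (Ioc b (b + ρ))) :=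
            (measure_union_le _ _).trans (add_le_add le_rfl (measure_union_le _ _))
        _ = _ := by
            rw [Real.volume_Ioc, Real.volume_Ioc, sub_sub_cancel, add_sub_cancel_left]
    have h2 := ENNReal.toReal_mono (ENNReal.add_ne_top.mpr ⟨hfin _ _ _,
      ENNReal.add_ne_top.mpr ⟨ENNReal.ofReal_ne_top, ENNReal.ofReal_ne_top⟩⟩) h1
    rw [ENNReal.toReal_add (hfin _ _ _) (ENNReal.add_ne_top.mpr ⟨ENNReal.ofReal_ne_top,
      ENNReal.ofReal_ne_top⟩), ENNReal.toReal_add ENNReal.ofReal_ne_top ENNReal.ofReal_ne_top,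
      ENNReal.toReal_ofReal hρ.le] at h2
    linarith
  have hE1'' : ∑ i ∈ Du, Gz γ f t (Z i) ≤ E1 + 2 * (ρ + θ) := by
    have h1 := LP.dust_tr hγ hf (D := Du) (a := e1 - ρ) (b := e2 + ρ) (by
      intro i hi
      obtain ⟨h1, s, h2, h3, -⟩ := (hDu i).mp hi
      exact ⟨h1, s, h2, h3⟩) (by linarith) hθ.le (by linarith)
    have h2 := hcol e1 e2 hle
    rw [← A.hE1] at h2
    linarith
  have hE2'' : ∑ i ∈ Dl, Gz γ f t (Z i) ≤ E2 + 2 * (ρ + θ) := by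
    have h1 := LP.dust_tr hγ hf (D := Dl) (a := e1 + Real.pi - ρ) (b := e2 + Real.pi + ρ) (by
      intro i hi
      obtain ⟨h1, s, h2, h3, -⟩ := (hDl i).mp hi
      exact ⟨h1, s, h2, h3⟩) (by linarith) hθ.le (by linarith)
    have h2 := hcol (e1 + Real.pi) (e2 + Real.pi) (by linarith)
    rw [← A.hE2] at h2
    linarith
  -- the two comparisons
  have hUb : U ⊆ big := A.Utr.trans LP.trb
  have hLb : L ⊆ big := A.Ltr.trans LP.trb
  have hDub : ∀ i ∈ Du, i ∉ big := fun i hi => ((hDu i).mp hi).1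
  have hDlb : ∀ i ∈ Dl, i ∉ big := fun i hi => ((hDl i).mp hi).1
  have hULtr : ∀ i ∈ U ∪ L, i ∈ tr := fun i hi => (Finset.union_subset A.Utr A.Ltr) hi
  have hGh : ∀ i ∈ U ∪ L, Gz γ f t (Z i) ≤ q i - p i := fun i hi => LP.gz_le_h hγ hf (hULtr i hi)
  have hh : ∀ i ∈ U ∪ L, 2 * (q i - p i) ≤ S i + Gz γ f t (Z i) + θ' := fun i hi =>
    LP.hull_le hγ (hULtr i hi)
  have hρK : 2 * ρ * big.card ≤ 2 * ρ * K := mul_le_mul_of_nonneg_left hK (by linarith)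
  have hx0 : 0 ≤ ∑ i ∈ U, S i + ∑ i ∈ Du, S i :=
    add_nonneg (Finset.sum_nonneg fun i _ => hS0 i) (Finset.sum_nonneg fun i _ => hS0 i)
  have hy0 : 0 ≤ ∑ i ∈ L, S i + ∑ i ∈ Dl, S i :=
    add_nonneg (Finset.sum_nonneg fun i _ => hS0 i) (Finset.sum_nonneg fun i _ => hS0 i)
  obtain ⟨D, D', a', st, R, hD, hst0, hst, hR0, hR, ha⟩ :=
    cstrat58 hγ hC hmin hf hev hnull LP8 hθ hθ' A hρ hρτ hDl
  obtain ⟨A₁, r1, r2, r3, r4⟩ := csum58 hUb hLb A.dj hDub hDlb hDD hθ.le hθ'.le hρ.le hρθ hK hsm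
    LP.sumS hG0 LP.GS hGh hh hD ngU nE1 nE2 A.c1 A.c2 A.a1 A.b1 hE1' hE2' hE2''
    (Finset.mem_union_left _ hi0U) hmax hst0 (by linarith) hR0 hR.le ha rfl rfl rfl
  have A' := A.swap hγ
  obtain ⟨E, E', b', st', R', hE, hst0', hst', hR0', hR', ha'⟩ :=
    cstrat58 hγ hC hmin hf hev hnull LP8 hθ hθ' A' hρ hρτ hDu'
  have hcomm : L ∪ U = U ∪ L := Finset.union_comm _ _
  obtain ⟨B₁, u1, u2, u3, u4⟩ := csum58 hLb hUb A.dj.symm hDlb hDub hDD.symm hθ.le hθ'.le hρ.le hρθ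
    hK hsm LP.sumS hG0 LP.GS (by rw [hcomm]; exact hGh) (by rw [hcomm]; exact hh) hE ngL nE2 nE1
    A.c2 A.c1 A'.a1 A'.b1 hE2' hE1' hE1''
    (by rw [hcomm]; exact Finset.mem_union_left _ hi0U) hmax hst0' (by linarith) hR0' hR'.le ha' rfl rfl rfl
  refine ⟨∑ i ∈ U, S i + ∑ i ∈ Du, S i, ∑ i ∈ L, S i + ∑ i ∈ Dl, S i,
    l - (∑ i ∈ U, S i + ∑ i ∈ Du, S i) - (∑ i ∈ L, S i + ∑ i ∈ Dl, S i), A₁, B₁,
    by ring, hx0, hy0, r3, r1, u1, r2, u2, r4, ?_⟩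
  refine u4.trans ?_
  have e : l - (∑ i ∈ L, S i + ∑ i ∈ Dl, S i) - (∑ i ∈ U, S i + ∑ i ∈ Du, S i) =
    l - (∑ i ∈ U, S i + ∑ i ∈ Du, S i) - (∑ i ∈ L, S i + ∑ i ∈ Dl, S i) := by ring
  rw [e, add_comm (∑ i ∈ L, S i + ∑ i ∈ Dl, S i) (∑ i ∈ U, S i + ∑ i ∈ Du, S i)]

/-- `LevF58` -/
theorem levF58 [CompactSpace M] (hγ : Bd γ) {C : Calc M γ} (hC : Colb C) {ε : ℝ} (hmin : NM C ε) :
    LevF58 C ε 10000 := by
  intro f hf hev t hnull l _ θ θ' K hθ hθ' ι _ _ big tr Z O S p q hK LP hsm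
  exact level58 hγ hC hmin hf hev hnull LP hθ hθ' hK hsm

/-- **the isoperimetric inequality for odd functions** -/
theorem isopO58 [CompactSpace M] (hγ : Bd γ) {C : Calc M γ} (hR : RegPl C) (hC : Colb C) {ε : ℝ}
    (hε : 0 ≤ ε) (hmin : NM C ε) (hv : C.vol ≤ 21 / 10 * Real.pi) :
    IsopO C (10000 / 5439 * Real.pi) ε :=
  isopO58_of' C hε (by norm_num) hv (lp58_ae hγ C hR) (levF58 hγ hC hmin)

end Pool.Agent.FPM
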