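import Mathlib
import Pool.Agent.FPM.I58Q
import Pool.Agent.FPM.I57D1

/-
I58X (helper19): the isoperimetric inequality for superlevel sets of functions which take the same value
at opposite points of the curve (levels of the modulus of an odd vector function), small areas.
-/

open MeasureTheory Set Filter Topology
open scoped ENNReal NNReal

noncomputable section

namespace Pool.Agent.FPM

open Pool.Agent.EWD Pool.Agent.FPX

variable {M : Type} [MetricSpace M] {γ : ℝ → M}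

/-- the trace of a piece, shifted by half of the curve, is covered by the traces of the other pieces -/
theorem trace_anti {ι : Type} [Fintype ι] [DecidableEq ι] {T : ι → Set ℝ}
    (hm : ∀ i, MeasurableSet (T i)) (hper : ∀ i s, s + 2 * Real.pi ∈ T i ↔ s ∈ T i)
    (hd : ∀ i j, i ≠ j → Disjoint (T i) (T j)) (i : ι)
    (hanti : ∀ s ∈ T i, ∃ j, j ≠ i ∧ s + Real.pi ∈ T j) :
    (volume (T i ∩ Ioc 0 (2 * Real.pi))).toReal ≤
      ∑ j ∈ Finset.univ.erase i, (volume (T j ∩ Ioc 0 (2 * Real.pi))).toReal := by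
  have hfin : ∀ (A : Set ℝ) (a b : ℝ), volume (A ∩ Ioc a b) ≠ ∞ := d1_fin
  have e1 : ∑ j ∈ Finset.univ.erase i, (volume (T j ∩ Ioc 0 (2 * Real.pi))).toReal =
      (volume (⋃ j ∈ Finset.univ.erase i, (T j ∩ Ioc Real.pi (Real.pi + 2 * Real.pi)))).toReal := by
    rw [measure_biUnion_finset, ENNReal.toReal_sum fun j _ => hfin _ _ _]
    · exact Finset.sum_congr rfl fun j _ => by rw [tri_per_vol (hm j) (hper j) Real.pi]
    · intro j _ k _ hjk
      change Disjoint _ _
      exact (hd j k hjk).mono inter_subset_left inter_subset_left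
    · intro j _
      exact (hm j).inter measurableSet_Ioc
  rw [e1]
  have e2 : volume ((fun s => s + Real.pi) ⁻¹' (⋃ j ∈ Finset.univ.erase i,
      (T j ∩ Ioc Real.pi (Real.pi + 2 * Real.pi)))) =
      volume (⋃ j ∈ Finset.univ.erase i, (T j ∩ Ioc Real.pi (Real.pi + 2 * Real.pi))) :=
    measure_preimage_add_right volume Real.pi _
  rw [← e2]
  refine ENNReal.toReal_mono ?_ (measure_mono ?_)
  · rw [e2]
    refine ne_top_of_le_ne_top ?_ (measure_biUnion_finset_le _ _)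
    exact (ENNReal.sum_lt_top.2 fun j _ => (hfin _ _ _).lt_top).ne
  · rintro s ⟨h1, h2, h3⟩
    obtain ⟨j, hj, h4⟩ := hanti s h1
    refine mem_iUnion₂.2 ⟨j, Finset.mem_erase.2 ⟨hj, Finset.mem_univ j⟩, h4, ?_, ?_⟩
    · linarith
    · linarith

/-- the data of the pieces of a function that is even along the curve -/
theorem lp_of_pcs58E [CompactSpace M] (C : Calc M γ) (hγ : Bd γ) {f : M → ℝ} (hf : Lip f)
    (hev : ∀ s, f (γ (s + Real.pi)) = f (γ s)) {t θ θ' θ₀ θ₀' : ℝ} (hθ : θ₀ ≤ θ) (hθ1 : θ₀ < Real.pi)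
    (hθ' : θ₀' ≤ θ') (hsm : deriv (lev C f) t + Gz γ f t (fun _ => 1) + θ₀' < 2 * Real.pi)
    {k m : ℕ} {A : Fin k → Set M} {Z : Fin k ⊕ Fin m → M → ℝ}
    {O : Fin k ⊕ Fin m → Set M} (hP : Pcs C (gn C f) f t θ₀ θ₀' A Z O)
    (hT : ∀ (i : Fin k) (p q : ℝ), p ≤ q → q < p + Real.pi → γ p ∈ O (Sum.inl i) →
      γ q ∈ O (Sum.inl i) →
      (∀ s, γ s ∈ O (Sum.inl i) → t ≤ f (γ s) → ∃ m : ℤ, s + m * (2 * Real.pi) ∈ Icc p q) →
      ∀ e1 e2 D : ℝ, e1 ≤ p → q ≤ e2 →
      HasDerivAt (mz C (fun o => dE γ e1 e2 (C.pt o) * gn C f o) f (Z (Sum.inl i))) D t →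
      D ≤ (deriv (mz C (gn C f) f (Z (Sum.inl i))) t ^ 2 -
        (2 * (q - p) - Gz γ f t (Z (Sum.inl i))) ^ 2) / 4 + θ₀')
    (hT4 : ∀ (i : Fin k) (p q : ℝ), p ≤ q → q < p + Real.pi → γ p ∈ O (Sum.inl i) →
      γ q ∈ O (Sum.inl i) →
      (∀ s, γ s ∈ O (Sum.inl i) → t ≤ f (γ s) → ∃ m : ℤ, s + m * (2 * Real.pi) ∈ Icc p q) →
      ∀ e1 e2 : ℚ, (e1 : ℝ) ≤ p → q ≤ e2 → (e2 : ℝ) ≤ e1 + Real.pi → ∀ D D' : ℝ,
      HasDerivAt (mz C (fun o => dE γ e1 e2 (C.pt o) * gn C f o) f (Z (Sum.inl i))) D t →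
      HasDerivAt (mz C (fun o => dE γ e1 e2 (C.pt o) * |C.wed (sE γ e1 e2) f o|) f
        (Z (Sum.inl i))) D' t →
      ∃ a : ℝ, 2 * (q - p) - Gz γ f t (Z (Sum.inl i)) ≤ a ∧
        a ≤ deriv (mz C (gn C f) f (Z (Sum.inl i))) t + θ₀' ∧
        D + D' ≤ (deriv (mz C (gn C f) f (Z (Sum.inl i))) t - a) *
          (deriv (mz C (gn C f) f (Z (Sum.inl i))) t + 3 * a) / 4 + θ₀')
    (hdE : ∀ (e1 e2 : ℚ) i, DifferentiableAt ℝ
      (mz C (fun o => dE γ e1 e2 (C.pt o) * gn C f o) f (Z i)) t)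
    (hdS : ∀ (e1 e2 : ℚ) i, (e1 : ℝ) ≤ e2 → (e2 : ℝ) ≤ e1 + Real.pi → DifferentiableAt ℝ
      (mz C (fun o => dE γ e1 e2 (C.pt o) * |C.wed (sE γ e1 e2) f o|) f (Z i)) t) :
    ∃ (tr : Finset (Fin k ⊕ Fin m)) (p q : Fin k ⊕ Fin m → ℝ),
      LP58 C f t θ θ' (deriv (lev C f) t)
        (Finset.univ.image Sum.inl) tr Z O (fun i => deriv (mz C (gn C f) f (Z i)) t) p q := by
  classical
  have hpi := Real.pi_pos
  set Hd : Fin k ⊕ Fin m → ℝ → ℝ → Prop := fun i p q => p ≤ q ∧ q < p + Real.pi ∧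
    (γ p ∈ O i ∧ t ≤ f (γ p)) ∧ (γ q ∈ O i ∧ t ≤ f (γ q)) ∧
    ∀ s, γ s ∈ O i → t ≤ f (γ s) → ∃ n : ℤ, s + n * (2 * Real.pi) ∈ Icc p q with hHd
  have hch : ∀ i, ∃ p q, (∃ p q, Hd i p q) → Hd i p q := by
    intro i
    by_cases h : ∃ p q, Hd i p q
    · obtain ⟨p, q, hpq⟩ := h
      exact ⟨p, q, fun _ => hpq⟩
    · exact ⟨0, 0, fun h' => absurd h' h⟩
  choose p q hpq using hch
  have htr : ∀ i ∈ (Finset.univ.image Sum.inl).filter (fun i => ∃ p q, Hd i p q),
      Hd i (p i) (q i) := fun i hi => hpq i (Finset.mem_filter.1 hi).2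
  have hsumS : ∑ i, deriv (mz C (gn C f) f (Z i)) t = deriv (lev C f) t := by rw [hP.sumS, mz_one]
  -- the traces
  set T : Fin k ⊕ Fin m → Set ℝ := fun i => {s | γ s ∈ O i ∧ t < f (γ s)} with hTd
  have hZi : ∀ (i : Fin k ⊕ Fin m) (s : ℝ), t ≤ f (γ s) → (Z i (γ s) = 1 ↔ γ s ∈ O i) := by
    intro i s hs
    refine ⟨fun h1 => ?_, hP.one i _⟩
    obtain ⟨j, hj⟩ := mem_iUnion.1 (hP.cov (Or.inr ⟨⟨s, rfl⟩, hs⟩))
    by_cases hij : i = j
    · rwa [hij]
    · rw [hP.zer i j hij _ hj] at h1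
      exact absurd h1 zero_ne_one
  have hTA : ∀ i, Apt γ f t (Z i) = T i := by
    intro i
    ext s
    simp only [Apt, hTd, mem_ofPred_eq]
    constructor
    · rintro ⟨h1, h2⟩
      exact ⟨(hZi i s h2.le).1 h1, h2⟩
    · rintro ⟨h1, h2⟩
      exact ⟨(hZi i s h2.le).2 h1, h2⟩
  have hGz : ∀ i, Gz γ f t (Z i) = (volume (T i ∩ Ioc 0 (2 * Real.pi))).toReal := by
    intro i
    unfold Gz
    rw [hTA i]
  have hTm : ∀ i, MeasurableSet (T i) := fun i => by
    rw [← hTA i]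
    exact meas_Apt hγ hf (hP.adc i).lip t
  have hTp : ∀ i s, s + 2 * Real.pi ∈ T i ↔ s ∈ T i := fun i s => by
    simp only [hTd, mem_ofPred_eq, hγ.per]
  have hTdj : ∀ i j, i ≠ j → Disjoint (T i) (T j) := by
    intro i j hij
    rw [Set.disjoint_left]
    rintro s ⟨h1, -⟩ ⟨h2, -⟩
    exact Set.disjoint_left.1 (hP.dj i j hij) h1 h2
  have hdiam : ∀ i, ∀ x ∈ O i, ∀ y ∈ O i, dist x y < Real.pi := by
    rintro (i | j) x hx y hy
    · have h1 := hP.diam i hx hy
      have h2 : deriv (mz C (gn C f) f (Z (Sum.inl i))) t ≤ deriv (lev C f) t := by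
        rw [← hsumS]
        exact Finset.single_le_sum (f := fun i => deriv (mz C (gn C f) f (Z i)) t)
          (fun j _ => hP.S0 j) (Finset.mem_univ (Sum.inl i))
      have h3 : Gz γ f t (Z (Sum.inl i)) ≤ Gz γ f t (fun _ => 1) := by
        rw [← hP.sumG]
        exact Finset.single_le_sum (f := fun i => Gz γ f t (Z i)) (fun j _ => hP.G0 j)
          (Finset.mem_univ (Sum.inl i))
      linarith
    · exact (hP.dust j x hx y hy).trans_lt hθ1
  refine ⟨(Finset.univ.image Sum.inl).filter (fun i => ∃ p q, Hd i p q), p, q,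
    ⟨hP.op, hP.dj, hP.cov, fun i => (hP.adc i).lip, fun i => (hP.adc i).lo, fun i => (hP.adc i).hi, hP.one,
      fun i j hij x hx => hP.zer i j (Ne.symm hij) x hx, fun i => (hP.der i).hasDerivAt, hP.GS, hsumS,
      ?_, ?_, ?_, Finset.filter_subset _ _, ?_, fun i hi => (htr i hi).1, fun i hi => (htr i hi).2.1,
      fun i hi => (htr i hi).2.2.1, fun i hi => (htr i hi).2.2.2.1, fun i hi => (htr i hi).2.2.2.2, ?_⟩, ?_⟩
  · -- `S i + G i ≤ l`
    intro i
    have h1 := trace_anti hTm hTp hTdj i (by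
      rintro s ⟨h2, h3⟩
      have h4 : t < f (γ (s + Real.pi)) := by rw [hev]; exact h3
      obtain ⟨j, hj⟩ := mem_iUnion.1 (hP.cov (Or.inr ⟨⟨s + Real.pi, rfl⟩, h4.le⟩))
      refine ⟨j, fun hij => ?_, hj, h4⟩
      rw [hij] at hj
      have h5 := hdiam i _ h2 _ hj
      have h6 := hγ.anti s
      linarith)
    simp only [← hGz] at h1
    have h2 : ∑ j ∈ Finset.univ.erase i, Gz γ f t (Z j) ≤
        ∑ j ∈ Finset.univ.erase i, deriv (mz C (gn C f) f (Z j)) t :=
      Finset.sum_le_sum fun j _ => hP.GS j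
    have h3 := Finset.add_sum_erase Finset.univ (fun j => deriv (mz C (gn C f) f (Z j)) t)
      (Finset.mem_univ i)
    rw [hsumS] at h3
    linarith
  · intro i hi
    rcases i with i | j
    · exact absurd (Finset.mem_image_of_mem _ (Finset.mem_univ i)) hi
    · exact fun x hx y hy => (hP.dust j x hx y hy).trans hθ
  · intro i hi
    obtain ⟨j, -, rfl⟩ := Finset.mem_image.1 hi
    exact fun x hx y hy z hz => (hP.per j x hx y hy z hz).trans (by linarith)
  · intro i hi hi'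
    obtain ⟨j, -, rfl⟩ := Finset.mem_image.1 hi
    intro s hs
    rcases hP.hull j with h | ⟨p, q, h⟩
    · exact h s hs
    · exact absurd (Finset.mem_filter.2 ⟨hi, p, q, h⟩) hi'
  · intro i hi e1 e2 n h1 h2
    have hH := htr i hi
    obtain ⟨j, -, hj⟩ := Finset.mem_image.1 (Finset.mem_filter.1 hi).1
    subst hj
    have hd := (hdE e1 e2 (Sum.inl j)).hasDerivAt
    refine ⟨_, hd, ?_⟩
    have h3 := hT j (p _) (q _) hH.1 hH.2.1 hH.2.2.1.1 hH.2.2.2.1.1 hH.2.2.2.2
      (e1 + ((-n : ℤ) : ℝ) * (2 * Real.pi)) (e2 + ((-n : ℤ) : ℝ) * (2 * Real.pi)) _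
      (by push_cast; linarith) (by push_cast; linarith) (by
        simp only [dE_int hγ]
        exact hd)
    linarith
  · intro i hi e1 e2 n h1 h2 h3
    have hH := htr i hi
    obtain ⟨j, -, hj⟩ := Finset.mem_image.1 (Finset.mem_filter.1 hi).1
    subst hj
    have he : (e1 : ℝ) ≤ e2 := by linarith [hH.1]
    have hd := (hdE e1 e2 (Sum.inl j)).hasDerivAt
    have hd' := (hdS e1 e2 (Sum.inl j) he h3).hasDerivAt
    obtain ⟨a, a1, a2, a3⟩ := hT4 j (p (Sum.inl j) + n * (2 * Real.pi)) (q (Sum.inl j) + n * (2 * Real.pi))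
      (by linarith [hH.1]) (by linarith [hH.2.1]) (by rw [gam_int hγ]; exact hH.2.2.1.1)
      (by rw [gam_int hγ]; exact hH.2.2.2.1.1)
      (fun s hs1 hs2 => by
        obtain ⟨m, hm1, hm2⟩ := hH.2.2.2.2 s hs1 hs2
        refine ⟨m + n, ?_, ?_⟩
        · push_cast
          linarith
        · push_cast
          linarith)
      e1 e2 h1 h2 h3 _ _ hd hd'
    exact ⟨_, _, a, hd, hd', by linarith, by linarith, by linarith⟩

/-- the data at almost every level of a function that is even along the curve -/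
theorem lpE58_ae [CompactSpace M] (hγ : Bd γ) (C : Calc M γ) (hR : RegPl C) {f : M → ℝ} (hf : Lip f)
    (hev : ∀ s, f (γ (s + Real.pi)) = f (γ s)) : ∀ᵐ t : ℝ,
    deriv (lev C f) t + Gz γ f t (fun _ => 1) < 2 * Real.pi → Gz γ f t (fun _ => 1) ≤ Real.pi →
      LPall58 C f t (deriv (lev C f) t) := by
  classical
  have hpi := Real.pi_pos
  obtain ⟨Z, hZl, hZ0, hZ1, hZc⟩ := TMB_family (M := M)
  have dEa : ∀ᵐ t : ℝ, ∀ (e1 e2 : ℚ) (n : ℕ), DifferentiableAt ℝ
      (mz C (fun o => dE γ e1 e2 (C.pt o) * gn C f o) f (Z n)) t := by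
    rw [ae_all_iff]
    intro e1
    rw [ae_all_iff]
    intro e2
    rw [ae_all_iff]
    intro n
    exact mz_diff_ae C hf (hZl n) (hZ0 n) (hZ1 n) (int_gn C hf)
      (Eventually.of_forall fun o => gn_nonneg C f o) (lip_dEpc γ _ _)
  filter_upwards [pcs58 C hγ hR hf (int_gn C hf) (fun p hp => gn_cs C hp) hZl hZ0 hZ1 hZc, dEa] with t s1 f1
    hSG hG
  obtain ⟨-, -, w1, s1⟩ := s1
  rw [mz_one] at s1
  obtain ⟨-, s2⟩ := s1 hSG hG
  intro θ hθ
  obtain ⟨k, A, s3⟩ := s2 (min θ 1) (lt_min hθ one_pos)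
  refine ⟨k, fun θ' hθ' => ?_⟩
  set d : ℝ := 2 * Real.pi - (deriv (lev C f) t + Gz γ f t (fun _ => 1)) with hd
  have hd0 : 0 < d := by rw [hd]; linarith
  obtain ⟨m, n, O, hP, hT, hT4⟩ := s3 (min θ' (d / 2)) (lt_min hθ' (by linarith))
  obtain ⟨tr, p, q, H⟩ := lp_of_pcs58E C hγ hf hev (θ := θ) (θ' := θ') (min_le_left θ 1)
    ((min_le_right θ 1).trans_lt (by linarith [Real.pi_gt_three])) (min_le_left θ' (d / 2)) (by
      have := min_le_right θ' (d / 2)
      linarith) hP hT hT4 (fun e1 e2 i => f1 e1 e2 (n i)) (fun e1 e2 i h1 h2 => w1 e1 e2 (n i) h1 h2)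
  refine ⟨Fin k ⊕ Fin m, inferInstance, inferInstance, _, _, _, _, _, _, _, ?_, H⟩
  refine Finset.card_image_le.trans ?_
  rw [Finset.card_univ, Fintype.card_fin]

/-- the inequality at one level, for a function that is even along the curve -/
theorem lev58_ev (C : Calc M γ) {ε c : ℝ} (hc0 : 0 ≤ c) (h : LevF58 C ε c) {f : M → ℝ} (hf : Lip f)
    (hev : ∀ s, f (γ (s + Real.pi)) = f (γ s)) {t : ℝ}
    (hn : volume {s : ℝ | s ∈ Ioc 0 (2 * Real.pi) ∧ f (γ s) = t} = 0) {l : ℝ}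
    (hlt : l < 2 * Real.pi) (hall : LPall58 C f t l) :
    2 * Real.pi * ((C.μ {o | t < f (C.pt o)}).toReal - ε) ≤ 5439 / 5000 * l ^ 2 := by
  have hpi := Real.pi_pos
  have hl0 : 0 ≤ l := by
    obtain ⟨K, hK⟩ := hall 1 one_pos
    obtain ⟨ι, i1, i2, big, tr, Z, O, S, p, q, -, hLP⟩ := hK 1 one_pos
    rw [← hLP.sumS]
    exact Finset.sum_nonneg fun i _ => (Gz_nonneg _ _ _ _).trans (hLP.GS i)
  refine I58Z.num58 hl0 fun e he => ?_
  obtain ⟨θ, h0, h0e, h0l⟩ : ∃ θ : ℝ, 0 < θ ∧ 2 * c * θ ≤ e ∧ 4 * θ < 2 * Real.pi - l := by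
    refine ⟨min (e / (2 * c + 1)) ((2 * Real.pi - l) / 5), lt_min (by positivity) (by linarith), ?_, ?_⟩
    · calc 2 * c * min (e / (2 * c + 1)) ((2 * Real.pi - l) / 5) ≤ 2 * c * (e / (2 * c + 1)) :=
            mul_le_mul_of_nonneg_left (min_le_left _ _) (by positivity)
        _ = e * (2 * c / (2 * c + 1)) := by ring
        _ ≤ e * 1 := by
            refine mul_le_mul_of_nonneg_left ?_ he.le
            rw [div_le_one (by positivity)]
            linarith
        _ = e := mul_one _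
    · have := min_le_right (e / (2 * c + 1)) ((2 * Real.pi - l) / 5)
      linarith
  obtain ⟨K, hK⟩ := hall θ h0
  have hK0 : (0 : ℝ) ≤ K := Nat.cast_nonneg K
  obtain ⟨θ', h1, h1e, h1l⟩ : ∃ θ' : ℝ, 0 < θ' ∧ 2 * c * (K * θ') ≤ e ∧ 4 * K * θ' < 2 * Real.pi - l := by
    refine ⟨min (e / (2 * c * K + 1)) ((2 * Real.pi - l) / (4 * K + 4)),
      lt_min (by positivity) (div_pos (by linarith) (by positivity)), ?_, ?_⟩
    · calc 2 * c * (K * min (e / (2 * c * K + 1)) ((2 * Real.pi - l) / (4 * K + 4)))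
          ≤ 2 * c * (K * (e / (2 * c * K + 1))) :=
            mul_le_mul_of_nonneg_left (mul_le_mul_of_nonneg_left (min_le_left _ _) hK0) (by positivity)
        _ = e * (2 * c * K / (2 * c * K + 1)) := by ring
        _ ≤ e * 1 := by
            refine mul_le_mul_of_nonneg_left ?_ he.le
            rw [div_le_one (by positivity)]
            linarith
        _ = e := mul_one _
    · have h2 := min_le_right (e / (2 * c * K + 1)) ((2 * Real.pi - l) / (4 * K + 4))
      have h3 : 0 < 2 * Real.pi - l := by linarith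
      calc 4 * K * min (e / (2 * c * K + 1)) ((2 * Real.pi - l) / (4 * K + 4))
          ≤ 4 * K * ((2 * Real.pi - l) / (4 * K + 4)) := mul_le_mul_of_nonneg_left h2 (by positivity)
        _ = (2 * Real.pi - l) * (K / (K + 1)) := by field_simp
        _ < (2 * Real.pi - l) * 1 := by
            refine mul_lt_mul_of_pos_left ?_ h3
            rw [div_lt_one (by positivity)]
            linarith
        _ = 2 * Real.pi - l := mul_one _
  obtain ⟨ι, i1, i2, big, tr, Z, O, S, p, q, hc, hLP⟩ := hK θ' h1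
  have hc' : (big.card : ℝ) ≤ K := by exact_mod_cast hc
  obtain ⟨x, y, z, A, B, e1, e2, e3, e4, e5, e6, e7, e8, f1, f2⟩ :=
    h f hf hev t hn l hlt θ θ' K h0 h1 ι big tr Z O S p q hc' hLP (by linarith)
  have hE : c * (θ + K * θ') ≤ e := by linarith
  exact ⟨x, y, z, A, B, e2, e3, e4, e5, e6, e1, by linarith, by linarith, by linarith, by linarith⟩

/-- isoperimetric inequality for the superlevel sets of functions that are even along the curve, for
areas at most `a₁` -/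
def IsopE (C : Calc M γ) (κ a₁ ε : ℝ) : Prop :=
  ∀ f : M → ℝ, Lip f → (∀ s, f (γ (s + Real.pi)) = f (γ s)) → ∀ᵐ t : ℝ,
    DifferentiableAt ℝ (lev C f) t ∧ ((C.μ {o | t < f (C.pt o)}).toReal ≤ a₁ →
      κ * ((C.μ {o | t < f (C.pt o)}).toReal - ε) ≤ deriv (lev C f) t ^ 2)

/-- the parts of the curve above and below a level -/
theorem Gz_compl (hγ : Bd γ) {f : M → ℝ} (hf : Lip f) {t : ℝ}
    (hn : volume {s : ℝ | s ∈ Ioc 0 (2 * Real.pi) ∧ f (γ s) = t} = 0) :
    Gz γ (fun x => -f x) (-t) (fun _ => 1) = 2 * Real.pi - Gz γ f t (fun _ => 1) := by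
  have hpi := Real.pi_pos
  have hc : Continuous fun s => f (γ s) := hf.cont.comp hγ.lip.continuous
  have e1 : Apt γ f t (fun _ => 1) = {s | t < f (γ s)} := by
    ext s
    simp [Apt]
  have e2 : Apt γ (fun x => -f x) (-t) (fun _ => 1) = {s | f (γ s) < t} := by
    ext s
    simp [Apt]
  unfold Gz
  rw [e1, e2]
  have m1 : MeasurableSet {s | t < f (γ s)} := measurableSet_lt measurable_const hc.measurable
  have m2 : MeasurableSet {s | f (γ s) < t} := measurableSet_lt hc.measurable measurable_const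
  have h1 : volume (Ioc 0 (2 * Real.pi)) = volume ({s | t < f (γ s)} ∩ Ioc 0 (2 * Real.pi)) +
      volume ({s | f (γ s) < t} ∩ Ioc 0 (2 * Real.pi)) := by
    refine le_antisymm ?_ ?_
    · have hsub : Ioc 0 (2 * Real.pi) ⊆ (({s | t < f (γ s)} ∩ Ioc 0 (2 * Real.pi)) ∪
          ({s | f (γ s) < t} ∩ Ioc 0 (2 * Real.pi))) ∪ {s : ℝ | s ∈ Ioc 0 (2 * Real.pi) ∧ f (γ s) = t} := by
        intro s hs
        rcases lt_trichotomy (f (γ s)) t with h | h | h
        · exact Or.inl (Or.inr ⟨h, hs⟩)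
        · exact Or.inr ⟨hs, h⟩
        · exact Or.inl (Or.inl ⟨h, hs⟩)
      refine (measure_mono hsub).trans ((measure_union_le _ _).trans ?_)
      rw [hn, add_zero]
      exact measure_union_le _ _
    · rw [← measure_union (by
        rw [Set.disjoint_left]
        rintro s ⟨h2, -⟩ ⟨h3, -⟩
        have h2' : t < f (γ s) := h2
        have h3' : f (γ s) < t := h3
        exact lt_asymm h2' h3') (m2.inter measurableSet_Ioc)]
      exact measure_mono (union_subset inter_subset_right inter_subset_right)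
  have h2 := congrArg ENNReal.toReal h1
  rw [ENNReal.toReal_add (d1_fin _ _ _) (d1_fin _ _ _), Real.volume_Ioc, ENNReal.toReal_ofReal (by linarith)]
    at h2
  linarith

/-- almost every level has measure zero -/
theorem ae_level_mu (C : Calc M γ) {f : M → ℝ} (hf : Lip f) : ∀ᵐ t : ℝ, C.μ {o | f (C.pt o) = t} = 0 := by
  have := C.fin
  obtain ⟨g, hg, hfg⟩ := C.meas_pt hf
  have h1 := Measure.countable_meas_level_set_pos (μ := C.μ) hg
  filter_upwards [h1.ae_notMem volume] with t ht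
  have h2 : C.μ {o | g o = t} = 0 := by
    by_contra h
    exact ht (pos_iff_ne_zero.2 h)
  rw [← h2]
  refine measure_congr ?_
  filter_upwards [hfg] with o ho
  change (f (C.pt o) = t) = (g o = t)
  rw [ho]

/-- the inequality for both sides of the level -/
theorem isopE_gen [CompactSpace M] (hγ : Bd γ) (C : Calc M γ) (hR : RegPl C) {ε c : ℝ} (hc0 : 0 ≤ c)
    (h : LevF58 C ε c) {f : M → ℝ} (hf : Lip f) (hev : ∀ s, f (γ (s + Real.pi)) = f (γ s)) :
    ∀ᵐ t : ℝ, DifferentiableAt ℝ (lev C f) t ∧ (deriv (lev C f) t < Real.pi →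
      (Gz γ f t (fun _ => 1) ≤ Real.pi ∧
        10000 / 5439 * Real.pi * ((C.μ {o | t < f (C.pt o)}).toReal - ε) ≤ deriv (lev C f) t ^ 2) ∨
      (Real.pi < Gz γ f t (fun _ => 1) ∧
        10000 / 5439 * Real.pi * (C.vol - (C.μ {o | t < f (C.pt o)}).toReal - ε) ≤
          deriv (lev C f) t ^ 2)) := by
  have hpi := Real.pi_pos
  have := C.fin
  have hfn : Lip fun x => -f x := hf.neg
  have a1 : ∀ᵐ t : ℝ, DifferentiableAt ℝ (lev C f) t := (lev_mono C hf).ae_differentiableAt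
  have a2 := lpE58_ae hγ C hR hf hev
  have a3 := lpE58_ae hγ C hR hfn (fun s => by rw [hev])
  have a4 : ∀ᵐ t : ℝ, deriv (lev C fun x => -f x) (-t) + Gz γ (fun x => -f x) (-t) (fun _ => 1) <
      2 * Real.pi → Gz γ (fun x => -f x) (-t) (fun _ => 1) ≤ Real.pi →
      LPall58 C (fun x => -f x) (-t) (deriv (lev C fun x => -f x) (-t)) :=
    (Measure.measurePreserving_neg (volume : Measure ℝ)).quasiMeasurePreserving.ae a3
  filter_upwards [a1, a2, a4, ae_level_null hγ hf, ae_level_mu C hf] with t d1 s1 s2 hn hm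
  refine ⟨d1, fun hlt => ?_⟩
  set G := Gz γ f t (fun _ => 1) with hG
  set l := deriv (lev C f) t with hl
  rcases le_or_gt G Real.pi with hGp | hGp
  · left
    refine ⟨hGp, ?_⟩
    have h1 := lev58_ev C hc0 h hf hev hn (l := l) (by linarith) (s1 (by linarith) hGp)
    calc 10000 / 5439 * Real.pi * ((C.μ {o | t < f (C.pt o)}).toReal - ε) =
        5000 / 5439 * (2 * Real.pi * ((C.μ {o | t < f (C.pt o)}).toReal - ε)) := by ring
      _ ≤ 5000 / 5439 * (5439 / 5000 * l ^ 2) := mul_le_mul_of_nonneg_left h1 (by norm_num)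
      _ = l ^ 2 := by ring
  · right
    refine ⟨hGp, ?_⟩
    have hdn : deriv (lev C fun x => -f x) (-t) = l := by
      have e : (lev C fun x => -f x) = fun r => (∫ o, gn C f o ∂C.μ) - lev C f (-r) := by
        funext r
        exact lev_neg C hf r
      have h1 : HasDerivAt (fun r => (∫ o, gn C f o ∂C.μ) - lev C f (-r)) (-(l * -1)) (-t) := by
        have h2 : HasDerivAt (lev C f) l (-(-t)) := by
          rw [neg_neg]
          exact d1.hasDerivAt
        exact (h2.comp (-t) (hasDerivAt_neg (-t))).const_sub _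
      rw [e, h1.deriv]
      ring
    have hGn := Gz_compl hγ hf hn
    rw [hdn, hGn] at s2
    have hn' : volume {s : ℝ | s ∈ Ioc 0 (2 * Real.pi) ∧ (fun x => -f x) (γ s) = -t} = 0 := by
      simpa only [neg_inj] using hn
    have h1 := lev58_ev C hc0 h hfn (fun s => by simp only [hev]) hn' (l := l) (by linarith)
      (s2 (by linarith) (by linarith))
    have h2 : (C.μ {o | -t < (fun x => -f x) (C.pt o)}).toReal =
        C.vol - (C.μ {o | t < f (C.pt o)}).toReal := by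
      have m1 : NullMeasurableSet {o | t < f (C.pt o)} C.μ :=
        nullMeasurableSet_lt aemeasurable_const (C.meas_pt hf)
      have h3 := measure_add_measure_compl₀ m1
      have h4 : C.μ {o | t < f (C.pt o)}ᶜ = C.μ {o | -t < (fun x => -f x) (C.pt o)} := by
        refine measure_congr ?_
        filter_upwards [compl_mem_ae_iff.2 hm] with o ho
        have ho' : f (C.pt o) ≠ t := ho
        refine propext ?_
        change ¬ (t < f (C.pt o)) ↔ -t < -f (C.pt o)
        rw [neg_lt_neg_iff, not_lt]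
        exact ⟨fun h5 => lt_of_le_of_ne h5 ho', le_of_lt⟩
      rw [h4] at h3
      have h5 := congrArg ENNReal.toReal h3
      rw [ENNReal.toReal_add (measure_ne_top _ _) (measure_ne_top _ _)] at h5
      unfold Calc.vol
      linarith
    rw [h2] at h1
    calc 10000 / 5439 * Real.pi * (C.vol - (C.μ {o | t < f (C.pt o)}).toReal - ε) =
        5000 / 5439 * (2 * Real.pi * (C.vol - (C.μ {o | t < f (C.pt o)}).toReal - ε)) := by ring
      _ ≤ 5000 / 5439 * (5439 / 5000 * l ^ 2) := mul_le_mul_of_nonneg_left h1 (by norm_num)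
      _ = l ^ 2 := by ring

/-- **the isoperimetric inequality for even functions** -/
theorem isopE_of [CompactSpace M] (hγ : Bd γ) (C : Calc M γ) (hR : RegPl C) {ε c : ℝ} (hε : 0 ≤ ε)
    (hc0 : 0 ≤ c) (h : LevF58 C ε c) (hv : 5439 / 5000 * Real.pi + ε ≤ C.vol) :
    IsopE C (10000 / 5439 * Real.pi) (5439 / 10000 * Real.pi) ε := by
  have hpi := Real.pi_pos
  intro f hf hev
  filter_upwards [isopE_gen hγ C hR hc0 h hf hev] with t ht
  obtain ⟨hd, ht⟩ := ht
  refine ⟨hd, fun ha => ?_⟩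
  rcases lt_or_ge (deriv (lev C f) t) Real.pi with hlt | hge
  · have hl0 : 0 ≤ deriv (lev C f) t := (lev_mono C hf).deriv_nonneg
    rcases ht hlt with ⟨-, h1⟩ | ⟨-, h1⟩
    · exact h1
    · exfalso
      have h2 : deriv (lev C f) t ^ 2 < Real.pi ^ 2 := pow_lt_pow_left₀ hlt hl0 two_ne_zero
      have h3 : 5439 / 10000 * Real.pi ≤ C.vol - (C.μ {o | t < f (C.pt o)}).toReal - ε := by linarith
      have h4 : 10000 / 5439 * Real.pi * (5439 / 10000 * Real.pi) ≤
          10000 / 5439 * Real.pi * (C.vol - (C.μ {o | t < f (C.pt o)}).toReal - ε) :=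
        mul_le_mul_of_nonneg_left h3 (by positivity)
      have h5 : 10000 / 5439 * Real.pi * (5439 / 10000 * Real.pi) = Real.pi ^ 2 := by ring
      linarith
  · calc 10000 / 5439 * Real.pi * ((C.μ {o | t < f (C.pt o)}).toReal - ε) ≤
        10000 / 5439 * Real.pi * (5439 / 10000 * Real.pi) :=
          mul_le_mul_of_nonneg_left (by linarith) (by positivity)
      _ = Real.pi ^ 2 := by ring
      _ ≤ _ := pow_le_pow_left₀ hpi.le hge 2

end Pool.Agent.FPM
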