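import Mathlib
import Pool.Agent.FPM.I58X
import Pool.Agent.FPM.I58LV

/-
I58XE (helper19): the isoperimetric inequality for even functions, unconditional, areas at most
`pi ^ 2 / kappa`, and both sides of a level.
-/

open MeasureTheory Set Filter Topology
open scoped ENNReal NNReal

noncomputable section

namespace Pool.Agent.FPM

open Pool.Agent.EWD Pool.Agent.FPX

variable {M : Type} [MetricSpace M] {γ : ℝ → M}

/-- **the isoperimetric inequality for even functions, small areas** -/
theorem isopE58 [CompactSpace M] (hγ : Bd γ) {C : Calc M γ} (hR : RegPl C) (hC : Colb C) {ε : ℝ}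
    (hε : 0 ≤ ε) (hmin : NM C ε) (hv : 5439 / 5000 * Real.pi + ε ≤ C.vol) :
    IsopE C (10000 / 5439 * Real.pi) (5439 / 10000 * Real.pi) ε :=
  isopE_of hγ C hR hε (by norm_num) (levF58 hγ hC hmin) hv

/-- both sides of a level of an even function -/
theorem isopE58_gen [CompactSpace M] (hγ : Bd γ) {C : Calc M γ} (hR : RegPl C) (hC : Colb C) {ε : ℝ}
    (hmin : NM C ε) {f : M → ℝ} (hf : Lip f) (hev : ∀ s, f (γ (s + Real.pi)) = f (γ s)) :
    ∀ᵐ t : ℝ, DifferentiableAt ℝ (lev C f) t ∧ (deriv (lev C f) t < Real.pi →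
      (Gz γ f t (fun _ => 1) ≤ Real.pi ∧
        10000 / 5439 * Real.pi * ((C.μ {o | t < f (C.pt o)}).toReal - ε) ≤ deriv (lev C f) t ^ 2) ∨
      (Real.pi < Gz γ f t (fun _ => 1) ∧
        10000 / 5439 * Real.pi * (C.vol - (C.μ {o | t < f (C.pt o)}).toReal - ε) ≤
          deriv (lev C f) t ^ 2)) :=
  isopE_gen hγ C hR (by norm_num) (levF58 hγ hC hmin) hf hev

end Pool.Agent.FPM
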