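import Mathlib

/-
IEA (helper42): two primitives on the line, one for a set of period pi and one for its complement, whose sum
and difference are 1-Lipschitz and periodic.
-/

open MeasureTheory Set Filter Topology
open scoped ENNReal NNReal

noncomputable section

namespace Pool.Agent.FPM

namespace IEA

/-- the sign of the arc that begins at `b` -/
def sg (b s : ℝ) : ℝ := if 0 < Real.sin (s - b) then 1 else -1

/-- the density of the primitive -/
def dn (T : Set ℝ) (b s : ℝ) : ℝ := T.indicator (sg b) s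

/-- the primitive -/
def pr (T : Set ℝ) (b s : ℝ) : ℝ := ∫ u in b..s, dn T b u

theorem sg_abs (b s : ℝ) : |sg b s| = 1 := by
  unfold sg
  split_ifs <;> norm_num

theorem sg_meas (b : ℝ) : Measurable (sg b) := by
  unfold sg
  exact Measurable.ite (measurableSet_lt measurable_const (Real.measurable_sin.comp (measurable_id.sub_const b)))
    measurable_const measurable_const

theorem sg_per (b s : ℝ) : sg b (s + 2 * Real.pi) = sg b s := by
  unfold sg
  have : Real.sin (s + 2 * Real.pi - b) = Real.sin (s - b) := by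
    rw [← Real.sin_add_two_pi (s - b)]
    congr 1
    ring
  rw [this]

theorem sg_anti {b s : ℝ} (h : Real.sin (s - b) ≠ 0) : sg b (s + Real.pi) = -sg b s := by
  unfold sg
  have : Real.sin (s + Real.pi - b) = -Real.sin (s - b) := by
    rw [← Real.sin_add_pi (s - b)]
    congr 1
    ring
  rw [this]
  rcases lt_or_gt_of_ne h with h1 | h1
  · rw [if_pos (by linarith), if_neg (by linarith)]
    ring
  · rw [if_neg (by linarith), if_pos h1]

theorem ae_sin (b : ℝ) : ∀ᵐ s : ℝ, Real.sin (s - b) ≠ 0 := by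
  have h1 : Set.Countable {s : ℝ | Real.sin (s - b) = 0} := by
    have : {s : ℝ | Real.sin (s - b) = 0} ⊆ range fun n : ℤ => (n : ℝ) * Real.pi + b := by
      intro s hs
      obtain ⟨n, hn⟩ := Real.sin_eq_zero_iff.1 (show Real.sin (s - b) = 0 from hs)
      exact ⟨n, by
        simp only
        linarith⟩
    exact (countable_range _).mono this
  filter_upwards [h1.ae_notMem volume] with s hs h
  exact hs h

variable {T : Set ℝ}

theorem dn_meas (hT : MeasurableSet T) (b : ℝ) : Measurable (dn T b) := (sg_meas b).indicator hT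

theorem dn_abs (T : Set ℝ) (b s : ℝ) : |dn T b s| ≤ 1 := by
  unfold dn
  by_cases h : s ∈ T
  · rw [indicator_of_mem h, sg_abs]
  · rw [indicator_of_notMem h]
    norm_num

theorem dn_sum (T : Set ℝ) (a b s : ℝ) : |dn T b s| + |dn Tᶜ a s| ≤ 1 := by
  unfold dn
  by_cases h : s ∈ T
  · have h2 : s ∉ Tᶜ := fun h3 => h3 h
    rw [indicator_of_mem h, indicator_of_notMem h2, sg_abs]
    norm_num
  · have h2 : s ∈ Tᶜ := h
    rw [indicator_of_notMem h, indicator_of_mem h2, sg_abs]
    norm_num

theorem dn_int (hT : MeasurableSet T) (b u v : ℝ) : IntervalIntegrable (dn T b) volume u v :=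
  (intervalIntegrable_const (c := (1 : ℝ))).mono_fun (dn_meas hT b).aestronglyMeasurable
    (Eventually.of_forall fun s => by simpa using dn_abs T b s)

theorem per2 (hp : ∀ s, s + Real.pi ∈ T ↔ s ∈ T) (s : ℝ) : s + 2 * Real.pi ∈ T ↔ s ∈ T := by
  rw [← hp s, ← hp (s + Real.pi)]
  have : s + Real.pi + Real.pi = s + 2 * Real.pi := by ring
  rw [this]

theorem dn_anti (hp : ∀ s, s + Real.pi ∈ T ↔ s ∈ T) {b s : ℝ} (h : Real.sin (s - b) ≠ 0) :
    dn T b (s + Real.pi) = -dn T b s := by
  unfold dn
  by_cases h1 : s ∈ T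
  · rw [indicator_of_mem h1, indicator_of_mem ((hp s).2 h1), sg_anti h]
  · rw [indicator_of_notMem h1, indicator_of_notMem (fun h2 => h1 ((hp s).1 h2)), neg_zero]

/-- the integral over a period vanishes -/
theorem dn_zero (hT : MeasurableSet T) (hp : ∀ s, s + Real.pi ∈ T ↔ s ∈ T) (b s : ℝ) :
    ∫ u in s..(s + 2 * Real.pi), dn T b u = 0 := by
  have h1 := intervalIntegral.integral_add_adjacent_intervals (dn_int hT b s (s + Real.pi))
    (dn_int hT b (s + Real.pi) (s + 2 * Real.pi))
  have h2 : ∫ u in (s + Real.pi)..(s + 2 * Real.pi), dn T b u = ∫ u in s..(s + Real.pi), dn T b (u + Real.pi) := by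
    rw [intervalIntegral.integral_comp_add_right (dn T b) Real.pi]
    congr 1
    ring
  have h3 : ∫ u in s..(s + Real.pi), dn T b (u + Real.pi) = ∫ u in s..(s + Real.pi), -dn T b u := by
    refine intervalIntegral.integral_congr_ae ?_
    filter_upwards [ae_sin b] with u hu _
    exact dn_anti hp hu
  rw [← h1, h2, h3, intervalIntegral.integral_neg]
  ring

theorem pr_zero (T : Set ℝ) (b : ℝ) : pr T b b = 0 := intervalIntegral.integral_same

theorem pr_sub (hT : MeasurableSet T) (b x y : ℝ) : pr T b x - pr T b y = ∫ u in y..x, dn T b u := by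
  unfold pr
  exact intervalIntegral.integral_interval_sub_left (dn_int hT b b x) (dn_int hT b b y)

theorem pr_per (hT : MeasurableSet T) (hp : ∀ s, s + Real.pi ∈ T ↔ s ∈ T) (b s : ℝ) :
    pr T b (s + 2 * Real.pi) = pr T b s := by
  have h1 := pr_sub hT b (s + 2 * Real.pi) s
  rw [dn_zero hT hp] at h1
  linarith

theorem pr_lip (hT : MeasurableSet T) (b : ℝ) : LipschitzWith 1 (pr T b) := by
  refine LipschitzWith.of_dist_le_mul fun x y => ?_
  rw [Real.dist_eq, Real.dist_eq, pr_sub hT, ← Real.norm_eq_abs, NNReal.coe_one]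
  exact intervalIntegral.norm_integral_le_of_norm_le_const fun s _ => dn_abs T b s

theorem add_lip (hT : MeasurableSet T) (a b : ℝ) : LipschitzWith 1 fun s => pr T b s + pr Tᶜ a s := by
  refine LipschitzWith.of_dist_le_mul fun x y => ?_
  have e : pr T b x + pr Tᶜ a x - (pr T b y + pr Tᶜ a y) = ∫ u in y..x, (dn T b u + dn Tᶜ a u) := by
    rw [intervalIntegral.integral_add (dn_int hT b y x) (dn_int hT.compl a y x), ← pr_sub hT, ← pr_sub hT.compl]
    ring
  rw [Real.dist_eq, Real.dist_eq, e, ← Real.norm_eq_abs, NNReal.coe_one]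
  refine intervalIntegral.norm_integral_le_of_norm_le_const fun s _ => ?_
  rw [Real.norm_eq_abs]
  exact (abs_add_le _ _).trans (dn_sum T a b s)

theorem sub_lip (hT : MeasurableSet T) (a b : ℝ) : LipschitzWith 1 fun s => pr T b s - pr Tᶜ a s := by
  refine LipschitzWith.of_dist_le_mul fun x y => ?_
  have e : pr T b x - pr Tᶜ a x - (pr T b y - pr Tᶜ a y) = ∫ u in y..x, (dn T b u - dn Tᶜ a u) := by
    rw [intervalIntegral.integral_sub (dn_int hT b y x) (dn_int hT.compl a y x), ← pr_sub hT, ← pr_sub hT.compl]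
    ring
  rw [Real.dist_eq, Real.dist_eq, e, ← Real.norm_eq_abs, NNReal.coe_one]
  refine intervalIntegral.norm_integral_le_of_norm_le_const fun s _ => ?_
  rw [Real.norm_eq_abs]
  exact (abs_sub _ _).trans (dn_sum T a b s)

/-- the value at the end of the arc -/
theorem pr_pi (hp : ∀ s, s + Real.pi ∈ T ↔ s ∈ T) (b : ℝ) :
    pr T b (b + Real.pi) = ∫ u in (0 : ℝ)..Real.pi, T.indicator (fun _ => (1 : ℝ)) u := by
  have hpi := Real.pi_pos
  have e1 : pr T b (b + Real.pi) = ∫ u in b..(b + Real.pi), T.indicator (fun _ => (1 : ℝ)) u := by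
    unfold pr
    refine intervalIntegral.integral_congr_ae ?_
    filter_upwards [ae_sin b] with u hu h
    rw [uIoc_of_le (by linarith)] at h
    have h1 : 0 < Real.sin (u - b) := by
      refine lt_of_le_of_ne ?_ (Ne.symm hu)
      exact Real.sin_nonneg_of_nonneg_of_le_pi (by linarith [h.1]) (by linarith [h.2])
    unfold dn
    by_cases h2 : u ∈ T
    · rw [indicator_of_mem h2, indicator_of_mem h2]
      unfold sg
      rw [if_pos h1]
    · rw [indicator_of_notMem h2, indicator_of_notMem h2]
  have hper : Function.Periodic (T.indicator fun _ => (1 : ℝ)) Real.pi := by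
    intro s
    by_cases h2 : s ∈ T
    · rw [indicator_of_mem h2, indicator_of_mem ((hp s).2 h2)]
    · rw [indicator_of_notMem h2, indicator_of_notMem fun h3 => h2 ((hp s).1 h3)]
  rw [e1, hper.intervalIntegral_add_eq b 0, zero_add]

/-- the two values add up to `π` -/
theorem pr_add_pi (hT : MeasurableSet T) (hp : ∀ s, s + Real.pi ∈ T ↔ s ∈ T) (a b : ℝ) :
    pr T b (b + Real.pi) + pr Tᶜ a (a + Real.pi) = Real.pi := by
  have hp' : ∀ s, s + Real.pi ∈ Tᶜ ↔ s ∈ Tᶜ := fun s => not_congr (hp s)
  have i1 : ∀ S : Set ℝ, MeasurableSet S →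
      IntervalIntegrable (S.indicator fun _ => (1 : ℝ)) volume 0 Real.pi := fun S hS =>
    (intervalIntegrable_const (c := (1 : ℝ))).mono_fun (measurable_const.indicator hS).aestronglyMeasurable
      (Eventually.of_forall fun s => by
        change ‖S.indicator (fun _ => (1 : ℝ)) s‖ ≤ ‖(1 : ℝ)‖
        by_cases h : s ∈ S
        · rw [indicator_of_mem h]
        · rw [indicator_of_notMem h]
          simp)
  rw [pr_pi hp, pr_pi hp', ← intervalIntegral.integral_add (i1 T hT) (i1 Tᶜ hT.compl)]
  have e : ∀ u : ℝ, T.indicator (fun _ => (1 : ℝ)) u + Tᶜ.indicator (fun _ => (1 : ℝ)) u = 1 := by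
    intro u
    by_cases h : u ∈ T
    · have h2 : u ∉ Tᶜ := fun h3 => h3 h
      rw [indicator_of_mem h, indicator_of_notMem h2, add_zero]
    · have h2 : u ∈ Tᶜ := h
      rw [indicator_of_notMem h, indicator_of_mem h2, zero_add]
  simp only [e]
  simp

/-- the image of the complement is a null set -/
theorem pr_null (hT : MeasurableSet T) (b : ℝ) : volume (pr T b '' Tᶜ) = 0 := by
  have li : LocallyIntegrable (dn T b) volume := by
    refine (locallyIntegrable_const (1 : ℝ)).mono (dn_meas hT b).aestronglyMeasurable ?_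
    exact Eventually.of_forall fun s => by simpa using dn_abs T b s
  have e2 : ∀ᵐ s : ℝ, HasDerivAt (pr T b) (dn T b s) s := by
    filter_upwards [LocallyIntegrable.ae_hasDerivAt_integral li] with s hs
    exact hs b
  set E : Set ℝ := {s | HasDerivAt (pr T b) (dn T b s) s} with hE
  have h1 : volume (pr T b '' (Tᶜ ∩ E)) = 0 := by
    refine addHaar_image_eq_zero_of_det_fderivWithin_eq_zero volume
      (f' := fun _ => ContinuousLinearMap.toSpanSingleton ℝ (0 : ℝ)) (fun s hs => ?_) (fun s _ => ?_)
    · have h2 : HasDerivAt (pr T b) (dn T b s) s := hs.2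
      have h3 : dn T b s = 0 := indicator_of_notMem hs.1 _
      rw [h3] at h2
      exact h2.hasFDerivAt.hasFDerivWithinAt
    · have h4 : ContinuousLinearMap.toSpanSingleton ℝ (0 : ℝ) = 0 := by
        ext
        simp
      rw [h4]
      simp [ContinuousLinearMap.det]
  have h2 : volume (pr T b '' Eᶜ) = 0 := by
    have h3 : volume Eᶜ = 0 := mem_ae_iff.1 e2
    have h4 := (pr_lip hT b).hausdorffMeasure_image_le (d := 1) zero_le_one Eᶜ
    rw [hausdorffMeasure_real, h3] at h4
    simpa using h4
  refine measure_mono_null ?_ (measure_union_null h1 h2)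
  rintro y ⟨s, hs, rfl⟩
  by_cases h3 : s ∈ E
  · exact Or.inl ⟨s, ⟨hs, h3⟩, rfl⟩
  · exact Or.inr ⟨s, h3, rfl⟩

end IEA

end Pool.Agent.FPM
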