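import Mathlib
import Pool.Agent.FPM.IEA
import Pool.Agent.FPM.DCM
import Pool.Agent.FPM.SU4S
import Pool.Agent.FPM.SU4A

/-
IED (helper42): for almost every level `t` of a Lipschitz function `f` that takes equal values at opposite
points of the boundary curve, with length less than `2 pi`, one of `{t <= f}`, `{f <= t}` has no component of
its boundary (level set together with the boundary arcs) that contains two opposite points of the curve.
-/

open MeasureTheory Set Filter Topology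
open scoped ENNReal NNReal

noncomputable section

namespace Pool.Agent.FPM

open Pool.Agent.EWD Pool.Agent.FPX

variable {M : Type} [MetricSpace M] {γ : ℝ → M}

/-- a component of the boundary of the superlevel set contains opposite points of the curve -/
def BadE (γ : ℝ → M) (f : M → ℝ) (t : ℝ) : Prop :=
  ∃ s : ℝ, t ≤ f (γ s) ∧ γ (s + Real.pi) ∈ connectedComponentIn (Kt γ f t) (γ s)

namespace IED

variable (C : Calc M γ)

theorem wed_neg (u f : M → ℝ) (o : Om) : C.wed u (fun x => -f x) o = -C.wed u f o := by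
  simp only [Calc.wed, Calc.gx, Calc.gy]
  rw [deriv.fun_neg, deriv.fun_neg]
  ring

/-- the mass above a level -/
theorem mz_neg {f : M → ℝ} (hf : Lip f) {h : Om → ℝ} (hi : Integrable h C.μ)
    (h0 : ∀ r : ℝ, ∀ᵐ o ∂C.μ, f (C.pt o) = r → h o = 0) (r : ℝ) :
    mz C h (fun x => -f x) (fun _ => 1) r = (∫ o, h o ∂C.μ) - mz C h f (fun _ => 1) (-r) := by
  have hm : NullMeasurableSet {o | -f (C.pt o) < r} C.μ := meas_pt_lt C hf.neg r
  have hm' : NullMeasurableSet {o | f (C.pt o) < -r} C.μ := meas_pt_lt C hf (-r)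
  unfold mz
  simp only [one_mul]
  rw [← integral_indicator₀ hm, ← integral_indicator₀ hm', ← integral_sub hi (hi.indicator₀ hm')]
  refine integral_congr_ae ?_
  filter_upwards [h0 (-r)] with o ho
  rcases lt_trichotomy (f (C.pt o)) (-r) with h | h | h
  · have h1 : o ∉ {o | -f (C.pt o) < r} := fun h2 => by
      have h3 : -f (C.pt o) < r := h2
      linarith
    have h2 : o ∈ {o | f (C.pt o) < -r} := h
    rw [indicator_of_notMem h1, indicator_of_mem h2, sub_self]
  · have h1 : o ∉ {o | -f (C.pt o) < r} := fun h2 => by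
      have h3 : -f (C.pt o) < r := h2
      linarith
    have h2 : o ∉ {o | f (C.pt o) < -r} := fun h2 => by
      have h3 : f (C.pt o) < -r := h2
      linarith
    rw [indicator_of_notMem h1, indicator_of_notMem h2, ho h, sub_zero]
  · have h1 : o ∈ {o | -f (C.pt o) < r} := by
      change -f (C.pt o) < r
      linarith
    have h2 : o ∉ {o | f (C.pt o) < -r} := fun h2 => by
      have h3 : f (C.pt o) < -r := h2
      linarith
    rw [indicator_of_mem h1, indicator_of_notMem h2, sub_zero]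

theorem mz_neg_deriv {f : M → ℝ} (hf : Lip f) {h : Om → ℝ} (hi : Integrable h C.μ)
    (h0 : ∀ r : ℝ, ∀ᵐ o ∂C.μ, f (C.pt o) = r → h o = 0) {t : ℝ}
    (hd : DifferentiableAt ℝ (mz C h f fun _ => 1) t) :
    deriv (mz C h (fun x => -f x) fun _ => 1) (-t) = deriv (mz C h f fun _ => 1) t := by
  have h1 : HasDerivAt (fun r => (∫ o, h o ∂C.μ) - mz C h f (fun _ => 1) (-r))
      (deriv (mz C h f fun _ => 1) t) (-t) := by
    have h2 : HasDerivAt (mz C h f fun _ => 1) (deriv (mz C h f fun _ => 1) t) (- -t) := by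
      rw [neg_neg]
      exact hd.hasDerivAt
    have h3 := (h2.comp (-t) (hasDerivAt_neg (-t))).const_sub (∫ o, h o ∂C.μ)
    have e : -(deriv (mz C h f fun _ => 1) t * -1) = deriv (mz C h f fun _ => 1) t := by ring
    rw [e] at h3
    exact h3
  have h2 : (mz C h (fun x => -f x) fun _ => 1) = fun r => (∫ o, h o ∂C.μ) - mz C h f (fun _ => 1) (-r) :=
    funext fun r => mz_neg C hf hi h0 r
  rw [h2]
  exact h1.deriv

omit C in
/-- the two functions on the surface -/
theorem pair_ext (hγ : Bd γ) {T : Set ℝ} (hT : MeasurableSet T) (hp : ∀ s, s + Real.pi ∈ T ↔ s ∈ T) (a b : ℝ) :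
    ∃ U V : M → ℝ, LipschitzWith 1 U ∧ LipschitzWith 1 V ∧
      (∀ s, U (γ s) = IEA.pr T b s + IEA.pr Tᶜ a s) ∧ (∀ s, V (γ s) = IEA.pr T b s - IEA.pr Tᶜ a s) := by
  have hp' : ∀ s, s + Real.pi ∈ Tᶜ ↔ s ∈ Tᶜ := fun s => not_congr (hp s)
  obtain ⟨U, hU, hU'⟩ := bd_ext hγ (IEA.add_lip hT a b) fun s => by
    rw [IEA.pr_per hT hp, IEA.pr_per hT.compl hp']
  obtain ⟨V, hV, hV'⟩ := bd_ext hγ (IEA.sub_lip hT a b) fun s => by
    rw [IEA.pr_per hT hp, IEA.pr_per hT.compl hp']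
  exact ⟨U, V, hU, hV, hU', hV'⟩

omit [MetricSpace M] in
theorem half_lip [MetricSpace M] {U V : M → ℝ} (hU : LipschitzWith 1 U) (hV : LipschitzWith 1 V) :
    LipschitzWith 1 fun x => 1 / 2 * (U x + V x) := by
  refine LipschitzWith.of_dist_le_mul fun x y => ?_
  have h1 := hU.dist_le_mul x y
  have h2 := hV.dist_le_mul x y
  rw [Real.dist_eq, NNReal.coe_one, one_mul] at h1 h2 ⊢
  rw [abs_le] at h1 h2 ⊢
  constructor <;> linarith [h1.1, h1.2, h2.1, h2.2]

theorem half_lip' {U V : M → ℝ} (hU : LipschitzWith 1 U) (hV : LipschitzWith 1 V) :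
    LipschitzWith 1 fun x => 1 / 2 * (U x - V x) := by
  have := half_lip hU hV.neg
  simpa only [Pi.neg_apply, ← sub_eq_add_neg] using this

/-- the two Jacobians -/
theorem wed_half {f U V : M → ℝ} (hU : LipschitzWith 1 U) (hV : LipschitzWith 1 V) :
    ∀ᵐ o ∂C.μ, |C.wed (fun x => 1 / 2 * (U x + V x)) f o| + |C.wed (fun x => 1 / 2 * (U x - V x)) f o| ≤
      gn C f o := by
  have lU : Lip U := ⟨1, hU⟩
  have lV : Lip V := ⟨1, hV⟩
  filter_upwards [gn_cs C hU (g := f), gn_cs C hV (g := f), C.ae_add lU lV, C.ae_sub lU lV,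
    C.ae_const_mul (lU.add lV) (1 / 2), C.ae_const_mul (lU.sub lV) (1 / 2)] with o h1 h2 h3 h4 h5 h6
  have e1 : C.wed (fun x => 1 / 2 * (U x + V x)) f o = 1 / 2 * (C.wed U f o + C.wed V f o) := by
    unfold Calc.wed
    rw [h5.1, h5.2, h3.1, h3.2]
    ring
  have e2 : C.wed (fun x => 1 / 2 * (U x - V x)) f o = 1 / 2 * (C.wed U f o - C.wed V f o) := by
    unfold Calc.wed
    rw [h6.1, h6.2, h4.1, h4.2]
    ring
  rw [e1, e2]
  rw [abs_le] at h1 h2
  rcases abs_cases (1 / 2 * (C.wed U f o + C.wed V f o)) with h7 | h7 <;>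
    rcases abs_cases (1 / 2 * (C.wed U f o - C.wed V f o)) with h8 | h8 <;>
    rw [h7.1, h8.1] <;> linarith [h1.1, h1.2, h2.1, h2.2]

theorem int_abs_wed {f p : M → ℝ} (hf : Lip f) (hp : LipschitzWith 1 p) :
    Integrable (fun o => |C.wed p f o|) C.μ := (integrable_wed C ⟨1, hp⟩ hf).abs

theorem wed_level {f : M → ℝ} (hf : Lip f) (p : M → ℝ) (I : Set ℝ) (r : ℝ) : ∀ᵐ o ∂C.μ, f (C.pt o) = r →
    HI C (fun o => |C.wed p f o|) p I o = 0 := by
  filter_upwards [grad_level C hf r] with o ho h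
  obtain ⟨h1, h2⟩ := ho h
  unfold HI
  refine indicator_apply_eq_zero.2 fun _ => ?_
  change |C.wed p f o| = 0
  unfold Calc.wed
  rw [h1, h2]
  simp

/-- the lengths of two densities with sum at most `|∇f|` -/
theorem mz_two [CompactSpace M] {f : M → ℝ} (hf : Lip f) {h k : Om → ℝ} (hi : Integrable h C.μ)
    (ki : Integrable k C.μ) (hk : ∀ᵐ o ∂C.μ, h o + k o ≤ gn C f o) {t : ℝ}
    (d1 : DifferentiableAt ℝ (mz C h f fun _ => 1) t) (d2 : DifferentiableAt ℝ (mz C k f fun _ => 1) t)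
    (d3 : DifferentiableAt ℝ (lev C f) t) :
    deriv (mz C h f fun _ => 1) t + deriv (mz C k f fun _ => 1) t ≤ deriv (lev C f) t := by
  have l1 : Lip (fun _ : M => (1 : ℝ)) := lip_const 1
  have h0 : ∀ _ : M, (0 : ℝ) ≤ 1 := fun _ => zero_le_one
  have h1 : ∀ _ : M, (1 : ℝ) ≤ 1 := fun _ => le_rfl
  have gi := int_gn C hf
  have e : mz C (fun o => gn C f o - (h o + k o)) f (fun _ => 1) =
      fun r => lev C f r - (mz C h f (fun _ => 1) r + mz C k f (fun _ => 1) r) := by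
    funext r
    unfold mz lev
    simp only [one_mul]
    have hk' : Integrable (fun o => h o + k o) C.μ := hi.add ki
    rw [integral_sub gi.integrableOn hk'.integrableOn, integral_add hi.integrableOn ki.integrableOn]
  have h2 : 0 ≤ deriv (mz C (fun o => gn C f o - (h o + k o)) f fun _ => 1) t := by
    refine mz_deriv_nonneg C hf l1 h0 h1 (H := fun o => gn C f o - (h o + k o)) (gi.sub (hi.add ki)) ?_ t
    filter_upwards [hk] with o ho
    linarith
  have h3 : HasDerivAt (fun r => lev C f r - (mz C h f (fun _ => 1) r + mz C k f (fun _ => 1) r))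
      (deriv (lev C f) t - (deriv (mz C h f fun _ => 1) t + deriv (mz C k f fun _ => 1) t)) t :=
    d3.hasDerivAt.sub (d1.hasDerivAt.add d2.hasDerivAt)
  rw [e, h3.deriv] at h2
  linarith

/-- the band on the curve -/
def bandC (γ : ℝ → M) (f : M → ℝ) (r t : ℝ) : ℝ≥0∞ :=
  volume ({s : ℝ | r < f (γ s) ∧ f (γ s) < t} ∩ Ioc 0 (2 * Real.pi))

/-- the values of a function on a connected set -/
theorem vol_conn {p : M → ℝ} (hp : Continuous p) {A K : Set M} (hA : IsPreconnected A) (hK : A ⊆ K) {x y : M}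
    (hx : x ∈ A) (hy : y ∈ A) : ENNReal.ofReal (p y - p x) ≤ volume (p '' K) := by
  rw [← Real.volume_Icc]
  refine measure_mono (((hA.image p hp.continuousOn).Icc_subset (mem_image_of_mem p hx)
    (mem_image_of_mem p hy)).trans (image_mono hK))

/-- one choice of the base points and of the set -/
theorem two_level [CompactSpace M] (hγ : Bd γ) (hR : RegPl C) {f : M → ℝ} (hf : Lip f) (he : EvenB γ f)
    (r a' b' : ℝ) : ∀ᵐ t : ℝ, r < t → ∀ A B : Set M, IsPreconnected A → IsPreconnected B → A ⊆ Kt γ f t →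
      B ⊆ Kt γ (fun x => -f x) (-t) → ∀ a b : ℝ, γ a ∈ A → γ (a + Real.pi) ∈ A → γ b ∈ B →
      γ (b + Real.pi) ∈ B →
      ENNReal.ofReal (2 * Real.pi - 4 * |a - a'| - 4 * |b - b'|) ≤
        ENNReal.ofReal (deriv (lev C f) t) + bandC γ f r t := by
  have hpi := Real.pi_pos
  have l1 : Lip (fun _ : M => (1 : ℝ)) := lip_const 1
  have fc : Continuous fun s => f (γ s) := hf.cont.comp hγ.lip.continuous
  set T : Set ℝ := {s | r < f (γ s)} with hTd
  have hT : MeasurableSet T := measurableSet_lt measurable_const fc.measurable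
  have hp : ∀ s, s + Real.pi ∈ T ↔ s ∈ T := fun s => by
    change r < f (γ (s + Real.pi)) ↔ r < f (γ s)
    rw [he s]
  obtain ⟨U, V, hU, hV, hU', hV'⟩ := pair_ext hγ hT hp a' b'
  set P : M → ℝ := fun x => 1 / 2 * (U x + V x) with hPd
  set Q : M → ℝ := fun x => 1 / 2 * (U x - V x) with hQd
  have lP : LipschitzWith 1 P := half_lip hU hV
  have lQ : LipschitzWith 1 Q := half_lip' hU hV
  have eP : ∀ s, P (γ s) = IEA.pr T b' s := fun s => by
    simp only [hPd, hU', hV']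
    ring
  have eQ : ∀ s, Q (γ s) = IEA.pr Tᶜ a' s := fun s => by
    simp only [hQd, hU', hV']
    ring
  set NP : Set ℝ := toMeasurable volume (IEA.pr T b' '' Tᶜ) with hNP
  set NQ : Set ℝ := toMeasurable volume (IEA.pr Tᶜ a' '' T) with hNQ
  have vP : volume NP = 0 := by rw [hNP, measure_toMeasurable, IEA.pr_null hT]
  have vQ : volume NQ = 0 := by
    rw [hNQ, measure_toMeasurable]
    have := IEA.pr_null hT.compl a'
    rwa [compl_compl] at this
  have mP : MeasurableSet NPᶜ := (measurableSet_toMeasurable _ _).compl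
  have mQ : MeasurableSet NQᶜ := (measurableSet_toMeasurable _ _).compl
  have iP := int_abs_wed C hf lP
  have iQ := int_abs_wed C hf lQ
  have F1 : ∀ᵐ t : ℝ, DCI C (fun o => |C.wed P f o|) (fun x => -f x) P (fun _ => 1) NPᶜ t :=
    F1_loc C hγ hR hf.neg lP iP (Eventually.of_forall fun o => by
      rw [wed_neg, abs_neg]) mP
  have F1' : ∀ᵐ t : ℝ, DCI C (fun o => |C.wed P f o|) (fun x => -f x) P (fun _ => 1) NPᶜ (-t) :=
    (Measure.measurePreserving_neg (volume : Measure ℝ)).quasiMeasurePreserving.ae F1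
  have F2 : ∀ᵐ t : ℝ, DCI C (fun o => |C.wed Q f o|) f Q (fun _ => 1) NQᶜ t :=
    F1_loc C hγ hR hf lQ iQ (Eventually.of_forall fun o => le_rfl) mQ
  have n1 : ∀ (p : M → ℝ) (I : Set ℝ), ∀ᵐ o ∂C.μ, 0 ≤ HI C (fun o => |C.wed p f o|) p I o := fun p I =>
    Eventually.of_forall fun o => HI_nonneg (abs_nonneg _) _ _
  have jP := HI_integrable C iP (p := P) ⟨1, lP⟩ mP
  have jQ := HI_integrable C iQ (p := Q) ⟨1, lQ⟩ mQ
  have D1 : ∀ᵐ t : ℝ, DifferentiableAt ℝ (mz C (HI C (fun o => |C.wed P f o|) P NPᶜ) f fun _ => 1) t :=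
    (mz_mono C hf l1 (fun _ => zero_le_one) (fun _ => le_rfl) jP (n1 P _)).ae_differentiableAt
  have D3 : ∀ᵐ t : ℝ, DifferentiableAt ℝ (lev C f) t := (lev_mono C hf).ae_differentiableAt
  filter_upwards [F1', F2, D1, D3] with t f1 f2 d1 d3 hrt A B hA hB hAK hBK a b ha ha' hb hb'
  have adc : ∀ (g : M → ℝ) (u : ℝ), Adc γ g u (fun _ => 1) := fun g u =>
    ⟨l1, fun _ => zero_le_one, fun _ => le_rfl, ⟨1, one_pos, fun _ _ => Or.inr rfl⟩, fun _ _ => Or.inr rfl⟩
  obtain ⟨-, f1⟩ := f1 (adc _ _)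
  obtain ⟨d2, f2⟩ := f2 (adc _ _)
  rw [mz_neg_deriv C hf jP (wed_level C hf P _) d1] at f1
  -- the densities
  have hsum : deriv (mz C (HI C (fun o => |C.wed P f o|) P NPᶜ) f fun _ => 1) t +
      deriv (mz C (HI C (fun o => |C.wed Q f o|) Q NQᶜ) f fun _ => 1) t ≤ deriv (lev C f) t := by
    refine mz_two C hf jP jQ ?_ d1 d2 d3
    filter_upwards [wed_half C (f := f) hU hV] with o ho
    have h1 := HI_le (C := C) (abs_nonneg (C.wed P f o)) P NPᶜ (H := fun o => |C.wed P f o|)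
    have h2 := HI_le (C := C) (abs_nonneg (C.wed Q f o)) Q NQᶜ (H := fun o => |C.wed Q f o|)
    exact (add_le_add h1 h2).trans ho
  have p1 : 0 ≤ deriv (mz C (HI C (fun o => |C.wed P f o|) P NPᶜ) f fun _ => 1) t :=
    mz_deriv_nonneg C hf l1 (fun _ => zero_le_one) (fun _ => le_rfl) jP (n1 P _) t
  have p2 : 0 ≤ deriv (mz C (HI C (fun o => |C.wed Q f o|) Q NQᶜ) f fun _ => 1) t :=
    mz_deriv_nonneg C hf l1 (fun _ => zero_le_one) (fun _ => le_rfl) jQ (n1 Q _) t
  -- the boundary terms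
  have g1 : ENNReal.ofReal (GI γ (fun x => -f x) (-t) (fun _ => 1) P NPᶜ) ≤ bandC γ f r t := by
    unfold GI
    refine ENNReal.ofReal_toReal_le.trans (measure_mono ?_)
    rintro s ⟨⟨⟨-, h1⟩, h2⟩, h3⟩
    refine ⟨⟨?_, ?_⟩, h3⟩
    · by_contra h4
      refine h2 ?_
      rw [eP]
      exact subset_toMeasurable _ _ ⟨s, h4, rfl⟩
    · have h4 : -t < -f (γ s) := h1
      linarith
  have g2 : GI γ f t (fun _ => 1) Q NQᶜ = 0 := by
    unfold GI
    have : Apt γ f t (fun _ => 1) ∩ {r | Q (γ r) ∈ NQᶜ} ∩ Ioc 0 (2 * Real.pi) = ∅ := by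
      rw [Set.eq_empty_iff_forall_notMem]
      rintro s ⟨⟨⟨-, h1⟩, h2⟩, -⟩
      refine h2 ?_
      rw [eQ]
      exact subset_toMeasurable _ _ ⟨s, hrt.trans h1, rfl⟩
    rw [this, measure_empty, ENNReal.toReal_zero]
  rw [g2, add_zero] at f2
  have e1 : ∀ (g : M → ℝ) (u : ℝ), {x | (g x = u ∨ (x ∈ range γ ∧ u ≤ g x)) ∧ (fun _ : M => (1 : ℝ)) x = 1} =
      Kt γ g u := by
    intro g u
    ext x
    simp only [Kt, mem_ofPred_eq, mem_union, mem_inter_iff, and_true]
  rw [e1] at f1 f2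
  have e2 : ∀ (N : Set ℝ), volume N = 0 → ∀ S : Set ℝ, volume (Nᶜ ∩ S) = volume S := by
    intro N hN S
    rw [inter_comm]
    have h1 : volume (S ∩ Nᶜ) = volume (S \ N) := rfl
    rw [h1]
    exact measure_sdiff_null hN
  rw [e2 _ vP] at f1
  rw [e2 _ vQ] at f2
  have c1 := vol_conn (p := P) lP.continuous hB hBK hb hb'
  have c2 := vol_conn (p := Q) lQ.continuous hA hAK ha ha'
  rw [eP, eP] at c1
  rw [eQ, eQ] at c2
  -- the values at the ends
  have k1 : |IEA.pr T b' b| ≤ |b - b'| := by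
    have := (IEA.pr_lip hT b').dist_le_mul b b'
    rwa [Real.dist_eq, Real.dist_eq, IEA.pr_zero, sub_zero, NNReal.coe_one, one_mul] at this
  have k2 : |IEA.pr T b' (b + Real.pi) - IEA.pr T b' (b' + Real.pi)| ≤ |b - b'| := by
    have := (IEA.pr_lip hT b').dist_le_mul (b + Real.pi) (b' + Real.pi)
    rwa [Real.dist_eq, Real.dist_eq, NNReal.coe_one, one_mul, add_sub_add_right_eq_sub] at this
  have k3 : |IEA.pr Tᶜ a' a| ≤ |a - a'| := by
    have := (IEA.pr_lip hT.compl a').dist_le_mul a a'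
    rwa [Real.dist_eq, Real.dist_eq, IEA.pr_zero, sub_zero, NNReal.coe_one, one_mul] at this
  have k4 : |IEA.pr Tᶜ a' (a + Real.pi) - IEA.pr Tᶜ a' (a' + Real.pi)| ≤ |a - a'| := by
    have := (IEA.pr_lip hT.compl a').dist_le_mul (a + Real.pi) (a' + Real.pi)
    rwa [Real.dist_eq, Real.dist_eq, NNReal.coe_one, one_mul, add_sub_add_right_eq_sub] at this
  have k5 := IEA.pr_add_pi hT hp a' b'
  rw [abs_le] at k1 k2 k3 k4
  have key : 2 * Real.pi - 4 * |a - a'| - 4 * |b - b'| ≤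
      2 * (IEA.pr T b' (b + Real.pi) - IEA.pr T b' b) + 2 * (IEA.pr Tᶜ a' (a + Real.pi) - IEA.pr Tᶜ a' a) := by
    linarith [k1.1, k1.2, k2.1, k2.2, k3.1, k3.2, k4.1, k4.2]
  calc ENNReal.ofReal (2 * Real.pi - 4 * |a - a'| - 4 * |b - b'|)
      ≤ ENNReal.ofReal (2 * (IEA.pr T b' (b + Real.pi) - IEA.pr T b' b) +
          2 * (IEA.pr Tᶜ a' (a + Real.pi) - IEA.pr Tᶜ a' a)) := ENNReal.ofReal_le_ofReal key
    _ ≤ ENNReal.ofReal (2 * (IEA.pr T b' (b + Real.pi) - IEA.pr T b' b)) +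
          ENNReal.ofReal (2 * (IEA.pr Tᶜ a' (a + Real.pi) - IEA.pr Tᶜ a' a)) := ENNReal.ofReal_add_le
    _ = 2 * ENNReal.ofReal (IEA.pr T b' (b + Real.pi) - IEA.pr T b' b) +
          2 * ENNReal.ofReal (IEA.pr Tᶜ a' (a + Real.pi) - IEA.pr Tᶜ a' a) := by
        rw [ENNReal.ofReal_mul (by norm_num), ENNReal.ofReal_mul (by norm_num), ENNReal.ofReal_ofNat]
    _ ≤ 2 * volume (P '' Kt γ (fun x => -f x) (-t)) + 2 * volume (Q '' Kt γ f t) :=
        add_le_add (mul_le_mul' le_rfl c1) (mul_le_mul' le_rfl c2)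
    _ ≤ ENNReal.ofReal (deriv (mz C (HI C (fun o => |C.wed P f o|) P NPᶜ) f fun _ => 1) t +
          GI γ (fun x => -f x) (-t) (fun _ => 1) P NPᶜ) +
        ENNReal.ofReal (deriv (mz C (HI C (fun o => |C.wed Q f o|) Q NQᶜ) f fun _ => 1) t) :=
        add_le_add f1 f2
    _ ≤ (ENNReal.ofReal (deriv (mz C (HI C (fun o => |C.wed P f o|) P NPᶜ) f fun _ => 1) t) +
          bandC γ f r t) +
        ENNReal.ofReal (deriv (mz C (HI C (fun o => |C.wed Q f o|) Q NQᶜ) f fun _ => 1) t) := by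
        gcongr
        rw [ENNReal.ofReal_add p1 (GI_nonneg _ _ _ _ _ _)]
        exact add_le_add le_rfl g1
    _ = (ENNReal.ofReal (deriv (mz C (HI C (fun o => |C.wed P f o|) P NPᶜ) f fun _ => 1) t) +
        ENNReal.ofReal (deriv (mz C (HI C (fun o => |C.wed Q f o|) Q NQᶜ) f fun _ => 1) t)) +
          bandC γ f r t := by ring
    _ ≤ ENNReal.ofReal (deriv (lev C f) t) + bandC γ f r t := by
        gcongr
        rw [← ENNReal.ofReal_add p1 p2]
        exact ENNReal.ofReal_le_ofReal hsum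

omit [MetricSpace M] in
/-- the band below a level is short -/
theorem band_small [MetricSpace M] (hγ : Bd γ) {f : M → ℝ} (hf : Lip f) (t : ℝ) {e : ℝ≥0∞} (he : 0 < e) :
    ∃ r : ℚ, (r : ℝ) < t ∧ bandC γ f r t < e := by
  have fc : Continuous fun s => f (γ s) := hf.cont.comp hγ.lip.continuous
  set W : ℕ → Set ℝ := fun n => {s : ℝ | t - 1 / ((n : ℝ) + 1) < f (γ s) ∧ f (γ s) < t} ∩ Ioc 0 (2 * Real.pi)
    with hW
  have hm : ∀ n, MeasurableSet (W n) := fun n =>
    ((measurableSet_lt measurable_const fc.measurable).inter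
      (measurableSet_lt fc.measurable measurable_const)).inter measurableSet_Ioc
  have hanti : Antitone W := by
    intro m n hmn s hs
    refine ⟨⟨?_, hs.1.2⟩, hs.2⟩
    have h1 : t - 1 / ((n : ℝ) + 1) < f (γ s) := hs.1.1
    have h2 : 1 / ((n : ℝ) + 1) ≤ 1 / ((m : ℝ) + 1) := by
      have : (m : ℝ) ≤ n := by exact_mod_cast hmn
      exact one_div_le_one_div_of_le (by positivity) (by linarith)
    linarith
  have hinter : ⋂ n, W n = ∅ := by
    rw [Set.eq_empty_iff_forall_notMem]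
    intro s hs
    rw [mem_iInter] at hs
    have h1 : f (γ s) < t := (hs 0).1.2
    obtain ⟨n, hn⟩ := exists_nat_one_div_lt (show 0 < t - f (γ s) by linarith)
    have h2 : t - 1 / ((n : ℝ) + 1) < f (γ s) := (hs n).1.1
    linarith
  have hlim : Tendsto (fun n => volume (W n)) atTop (𝓝 (volume (⋂ n, W n))) :=
    tendsto_measure_iInter_atTop (fun n => (hm n).nullMeasurableSet) hanti
      ⟨0, ne_top_of_le_ne_top (by rw [Real.volume_Ioc]; exact ENNReal.ofReal_ne_top)
        (measure_mono inter_subset_right)⟩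
  rw [hinter, measure_empty] at hlim
  obtain ⟨n, hn⟩ := (hlim.eventually_lt_const he).exists
  obtain ⟨r, hr1, hr2⟩ := exists_rat_btwn (show t - 1 / ((n : ℝ) + 1) < t by
    have : 0 < 1 / ((n : ℝ) + 1) := by positivity
    linarith)
  refine ⟨r, hr2, lt_of_le_of_lt (measure_mono ?_) hn⟩
  rintro s ⟨⟨h1, h2⟩, h3⟩
  exact ⟨⟨hr1.trans h1, h2⟩, h3⟩

end IED

/-- the dichotomy -/
theorem ied [CompactSpace M] (hγ : Bd γ) (C : Calc M γ) (hR : RegPl C) {f : M → ℝ} (hf : Lip f)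
    (he : EvenB γ f) : ∀ᵐ t : ℝ, deriv (lev C f) t < 2 * Real.pi →
      ¬ BadE γ f t ∨ ¬ BadE γ (fun x => -f x) (-t) := by
  have key : ∀ᵐ t : ℝ, ∀ r a' b' : ℚ, (r : ℝ) < t → ∀ A B : Set M, IsPreconnected A → IsPreconnected B →
      A ⊆ Kt γ f t → B ⊆ Kt γ (fun x => -f x) (-t) → ∀ a b : ℝ, γ a ∈ A → γ (a + Real.pi) ∈ A →
      γ b ∈ B → γ (b + Real.pi) ∈ B →
      ENNReal.ofReal (2 * Real.pi - 4 * |a - a'| - 4 * |b - b'|) ≤
        ENNReal.ofReal (deriv (lev C f) t) + IED.bandC γ f r t := by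
    rw [ae_all_iff]
    intro r
    rw [ae_all_iff]
    intro a'
    rw [ae_all_iff]
    intro b'
    exact IED.two_level C hγ hR hf he r a' b'
  filter_upwards [key] with t ht hl
  by_contra hcon
  rw [not_or, not_not, not_not] at hcon
  obtain ⟨⟨a, ha, ha'⟩, ⟨b, hb, hb'⟩⟩ := hcon
  have l0 : 0 ≤ deriv (lev C f) t := (lev_mono C hf).deriv_nonneg
  set l := deriv (lev C f) t with hld
  have hd : 0 < (2 * Real.pi - l) / 32 := by linarith
  obtain ⟨r, hr, hr'⟩ := IED.band_small hγ hf t (e := ENNReal.ofReal ((2 * Real.pi - l) / 32))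
    (ENNReal.ofReal_pos.2 hd)
  obtain ⟨a', ha1, ha2⟩ := exists_rat_btwn (show a - (2 * Real.pi - l) / 32 < a by linarith)
  obtain ⟨b', hb1, hb2⟩ := exists_rat_btwn (show b - (2 * Real.pi - l) / 32 < b by linarith)
  have mA : γ a ∈ Kt γ f t := Or.inr ⟨mem_range_self a, ha⟩
  have mB : γ b ∈ Kt γ (fun x => -f x) (-t) := Or.inr ⟨mem_range_self b, hb⟩
  have h1 := ht r a' b' hr _ _ isPreconnected_connectedComponentIn isPreconnected_connectedComponentIn
    (connectedComponentIn_subset _ _) (connectedComponentIn_subset _ _) a b (mem_connectedComponentIn mA) ha'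
    (mem_connectedComponentIn mB) hb'
  have h2 : ENNReal.ofReal (2 * Real.pi - 4 * |a - a'| - 4 * |b - b'|) ≤
      ENNReal.ofReal (l + (2 * Real.pi - l) / 32) := by
    rw [ENNReal.ofReal_add l0 hd.le]
    exact h1.trans (add_le_add le_rfl hr'.le)
  rw [ENNReal.ofReal_le_ofReal_iff (by linarith), abs_of_pos (by linarith : 0 < a - a'),
    abs_of_pos (by linarith : 0 < b - b')] at h2
  linarith

end Pool.Agent.FPM
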