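import Mathlib
import Pool.Agent.FPM.PCS
import Pool.Agent.FPM.I58T
import Pool.Agent.FPM.IED

/-
IEP (helper42): the pieces of the boundary of a superlevel set of a function that takes equal values at
opposite points of the curve, if no component of the boundary contains two opposite points (adapted from
helper19's I57C, PCS and I58P).
-/

open MeasureTheory Set Filter Topology
open scoped ENNReal NNReal

noncomputable section

namespace Pool.Agent.FPM

open Pool.Agent.EWD Pool.Agent.FPX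

variable {M : Type} [MetricSpace M] {γ : ℝ → M}

theorem exists_pos_le_fin {k : ℕ} (ρ : Fin k → ℝ) (hρ : ∀ i, 0 < ρ i) : ∃ r : ℝ, 0 < r ∧ ∀ i, r ≤ ρ i := by
  induction k with
  | zero => exact ⟨1, one_pos, fun i => i.elim0⟩
  | succ k ih =>
    obtain ⟨r, hr, h⟩ := ih (fun i => ρ i.succ) fun i => hρ _
    refine ⟨min r (ρ 0), lt_min hr (hρ 0), fun i => ?_⟩
    refine Fin.cases ?_ (fun i => ?_) i
    · exact min_le_right _ _
    · exact (min_le_left _ _).trans (h i)

/-- a component without opposite points has a neighbourhood without opposite points -/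
theorem comp_anti (hγ : Bd γ) {g : M → ℝ} (hg : Lip g) {t : ℝ} (hnb : ¬ BadE γ g t) {x : M}
    (hx : x ∈ Kt γ g t) : ∃ ρ : ℝ, 0 < ρ ∧ ∀ s, t ≤ g (γ s) →
      γ s ∈ Metric.thickening ρ (connectedComponentIn (Kt γ g t) x) →
      γ (s + Real.pi) ∈ Metric.thickening ρ (connectedComponentIn (Kt γ g t) x) → False := by
  set A : Set M := connectedComponentIn (Kt γ g t) x with hA
  have hAc : IsClosed A := by
    refine isClosed_of_closure_subset ?_
    have h1 : IsPreconnected (closure A) := (isPreconnected_connectedComponentIn).closure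
    exact h1.subset_connectedComponentIn (subset_closure (mem_connectedComponentIn hx))
      (closure_minimal (connectedComponentIn_subset _ _) (Kt_closed hγ hg.cont t))
  have hAne : A.Nonempty := ⟨x, mem_connectedComponentIn hx⟩
  set φ : ℝ → ℝ := fun s => Metric.infDist (γ s) A + Metric.infDist (γ (s + Real.pi)) A with hφ
  have cφ : Continuous φ := by
    have h1 : Continuous fun s => Metric.infDist (γ s) A :=
      (Metric.continuous_infDist_pt A).comp hγ.lip.continuous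
    have h2 : Continuous fun s => Metric.infDist (γ (s + Real.pi)) A :=
      (Metric.continuous_infDist_pt A).comp (hγ.lip.continuous.comp (continuous_add_const _))
    exact h1.add h2
  have fc : Continuous fun s => g (γ s) := hg.cont.comp hγ.lip.continuous
  set Q : Set ℝ := Icc 0 (2 * Real.pi) ∩ {s | t ≤ g (γ s)} with hQ
  have cQ : IsCompact Q := isCompact_Icc.inter_right (isClosed_le continuous_const fc)
  have pos : ∀ s ∈ Q, 0 < φ s := by
    intro s hs
    by_contra h1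
    rw [not_lt] at h1
    have a1 : 0 ≤ Metric.infDist (γ s) A := Metric.infDist_nonneg
    have a2 : 0 ≤ Metric.infDist (γ (s + Real.pi)) A := Metric.infDist_nonneg
    have h2 : Metric.infDist (γ s) A + Metric.infDist (γ (s + Real.pi)) A ≤ 0 := h1
    have h3 : γ s ∈ A := (hAc.mem_iff_infDist_zero hAne).2 (by linarith)
    have h4 : γ (s + Real.pi) ∈ A := (hAc.mem_iff_infDist_zero hAne).2 (by linarith)
    refine hnb ⟨s, hs.2, ?_⟩
    have h5 : connectedComponentIn (Kt γ g t) x = connectedComponentIn (Kt γ g t) (γ s) :=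
      connectedComponentIn_eq h3
    rw [← h5]
    exact h4
  have key : ∃ ρ : ℝ, 0 < ρ ∧ ∀ s ∈ Q, 2 * ρ ≤ φ s := by
    rcases Q.eq_empty_or_nonempty with h1 | h1
    · exact ⟨1, one_pos, fun s hs => absurd hs (by rw [h1]; exact notMem_empty s)⟩
    · obtain ⟨s0, hs0, hmin⟩ := cQ.exists_isMinOn h1 cφ.continuousOn
      refine ⟨φ s0 / 2, half_pos (pos s0 hs0), fun s hs => ?_⟩
      have := hmin hs
      have h2 : φ s0 ≤ φ s := this
      linarith
  obtain ⟨ρ, hρ, hmin⟩ := key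
  refine ⟨ρ, hρ, fun s h1 h2 h3 => ?_⟩
  obtain ⟨m, hm⟩ := gam_window s 0
  have e1 : γ (s + m * (2 * Real.pi)) = γ s := gam_int hγ s m
  have e2 : γ (s + m * (2 * Real.pi) + Real.pi) = γ (s + Real.pi) := by
    rw [← gam_int hγ (s + Real.pi) m]
    congr 1
    ring
  have h4 := hmin (s + m * (2 * Real.pi)) ⟨⟨hm.1, by linarith [hm.2]⟩, by
    change t ≤ g (γ (s + m * (2 * Real.pi)))
    rw [e1]
    exact h1⟩
  have h5 : Metric.infDist (γ s) A < ρ := (Metric.mem_thickening_iff_infDist_lt hAne).1 h2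
  have h6 : Metric.infDist (γ (s + Real.pi)) A < ρ := (Metric.mem_thickening_iff_infDist_lt hAne).1 h3
  have h7 : 2 * ρ ≤ Metric.infDist (γ s) A + Metric.infDist (γ (s + Real.pi)) A := by
    have h8 : 2 * ρ ≤ Metric.infDist (γ (s + m * (2 * Real.pi))) A +
        Metric.infDist (γ (s + m * (2 * Real.pi) + Real.pi)) A := h4
    rwa [e1, e2] at h8
  linarith

section det

variable [CompactSpace M] (C : Calc M γ)

/-- a piece without opposite points -/
theorem anti_len (hγ : Bd γ) {g : M → ℝ} (hg : Lip g) (hev : EvenB γ g) {H : Om → ℝ}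
    (hH : Integrable H C.μ) (hpg : ∀ p : M → ℝ, LipschitzWith 1 p → ∀ᵐ o ∂C.μ, |C.wed p g o| ≤ H o)
    {t : ℝ} {ζ : M → ℝ} (hζ : Adc γ g t ζ) (hd : DifferentiableAt ℝ (mz C H g ζ) t)
    (hd1 : DifferentiableAt ℝ (mz C H g fun _ => 1) t)
    (hanti : ∀ s, t ≤ g (γ s) → ζ (γ s) = 1 → ζ (γ (s + Real.pi)) = 1 → False) :
    Gz γ g t ζ ≤ deriv (mz C H g ζ) t ∧
      deriv (mz C H g ζ) t + Gz γ g t ζ ≤ deriv (mz C H g fun _ => 1) t := by
  have hpi := Real.pi_pos
  have hl1 : Lip (fun _ : M => (1 : ℝ)) := lip_const 1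
  have l2 : Lip fun x => 1 - ζ x := hl1.sub hζ.lip
  have adc2 : Adc γ g t fun x => 1 - ζ x := by
    refine ⟨l2, fun x => by linarith [hζ.hi x], fun x => by linarith [hζ.lo x], ?_, ?_⟩
    · obtain ⟨δ, hδ, h⟩ := hζ.sep
      refine ⟨δ, hδ, fun x hx => ?_⟩
      rcases h x hx with h1 | h1
      · right
        rw [h1]
        ring
      · left
        rw [h1]
        ring
    · intro s hs
      rcases hζ.bd s hs with h1 | h1
      · right
        rw [h1]
        ring
      · left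
        rw [h1]
        ring
  have e : mz C H g (fun x => 1 - ζ x) = fun r => mz C H g (fun _ => 1) r - mz C H g ζ r := by
    funext r
    unfold mz
    rw [← integral_sub (integrable_zH C hl1 (fun _ => zero_le_one) (fun _ => le_rfl) hH).integrableOn
      (integrable_zH C hζ.lip hζ.lo hζ.hi hH).integrableOn]
    congr 1
    funext o
    ring
  have hd2 : HasDerivAt (mz C H g fun x => 1 - ζ x)
      (deriv (mz C H g fun _ => 1) t - deriv (mz C H g ζ) t) t := by
    rw [e]
    exact hd1.hasDerivAt.sub hd.hasDerivAt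
  have g1 : Gz γ g t ζ ≤ Gz γ g t fun x => 1 - ζ x := by
    refine Gz_anti hγ hg hζ.lip l2 t fun s hs => ?_
    have h1 : t < g (γ (s + Real.pi)) := by
      rw [hev s]
      exact hs.2
    refine ⟨?_, h1⟩
    rcases hζ.bd (s + Real.pi) h1.le with h2 | h2
    · change 1 - ζ (γ (s + Real.pi)) = 1
      rw [h2, sub_zero]
    · exact absurd h2 fun h3 => hanti s hs.2.le hs.1 h3
  have g2 : Gz γ g t ζ + Gz γ g t (fun x => 1 - ζ x) ≤ 2 * Real.pi := by
    rw [Gz_eq_int hγ hg hζ.lip, Gz_eq_int hγ hg l2]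
    have ii : ∀ (ζ₀ : M → ℝ), Lip ζ₀ → IntervalIntegrable
        ((Apt γ g t ζ₀).indicator (fun _ => (1 : ℝ))) volume 0 (2 * Real.pi) := by
      intro ζ₀ hl₀
      have hm : Measurable ((Apt γ g t ζ₀).indicator (fun _ => (1 : ℝ))) :=
        measurable_const.indicator (meas_Apt hγ hg hl₀ t)
      refine (intervalIntegrable_const (c := (1 : ℝ))).mono_fun
        hm.aestronglyMeasurable (Eventually.of_forall fun s => ?_)
      simp only [indicator]
      split_ifs <;> simp
    rw [← intervalIntegral.integral_add (ii _ hζ.lip) (ii _ l2)]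
    have h1 : ∫ s in (0 : ℝ)..(2 * Real.pi), ((Apt γ g t ζ).indicator (fun _ => (1 : ℝ)) s +
        (Apt γ g t fun x => 1 - ζ x).indicator (fun _ => (1 : ℝ)) s) ≤
        ∫ _ in (0 : ℝ)..(2 * Real.pi), (1 : ℝ) := by
      refine intervalIntegral.integral_mono_on (by positivity) ((ii _ hζ.lip).add (ii _ l2))
        intervalIntegrable_const fun s _ => ?_
      by_cases h2 : s ∈ Apt γ g t ζ
      · have h3 : s ∉ Apt γ g t fun x => 1 - ζ x := by
          rintro ⟨h3, -⟩
          have h4 : 1 - ζ (γ s) = 1 := h3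
          have h5 : ζ (γ s) = 1 := h2.1
          rw [h5] at h4
          norm_num at h4
        rw [indicator_of_mem h2, indicator_of_notMem h3, add_zero]
      · rw [indicator_of_notMem h2, zero_add]
        exact indicator_le_self' (fun _ _ => zero_le_one) s
    simpa using h1
  have f1 := FTW C hγ hg hζ hH hpg hd.hasDerivAt
  have f2 := FTW C hγ hg adc2 hH hpg hd2
  rw [min_eq_left (by linarith)] at f1
  refine ⟨f1, ?_⟩
  have h3 : Gz γ g t ζ ≤ min (Gz γ g t fun x => 1 - ζ x) (2 * Real.pi - Gz γ g t fun x => 1 - ζ x) :=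
    le_min g1 (by linarith)
  linarith

/-- the pieces at a good level -/
theorem pcsE_det (hγ : Bd γ) {g : M → ℝ} (hg : Lip g) (hev : EvenB γ g) {H : Om → ℝ} (hH : Integrable H C.μ)
    (hH0 : ∀ᵐ o ∂C.μ, 0 ≤ H o)
    {Z : ℕ → M → ℝ} (hZl : ∀ n, Lip (Z n)) (hZ0 : ∀ n x, 0 ≤ Z n x) (hZ1 : ∀ n x, Z n x ≤ 1)
    (hZc : ∀ K P : Set M, Pc K P → ∃ n, Cut (Z n) K P) {t : ℝ}
    (hdif : ∀ n, DifferentiableAt ℝ (mz C H g (Z n)) t)
    (hdif1 : DifferentiableAt ℝ (mz C H g fun _ => 1) t)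
    (htri : ∀ n, Adc γ g t (Z n) → ∀ A : Set M, IsPreconnected A →
      (∀ x ∈ A, x ∈ Kt γ g t ∧ Z n x = 1) → ∀ ρ : ℝ, ∀ x y z : M,
      (∃ a ∈ A, dist x a ≤ ρ) → (∃ a ∈ A, dist y a ≤ ρ) → (∃ a ∈ A, dist z a ≤ ρ) →
      dist x y + dist y z + dist z x ≤ deriv (mz C H g (Z n)) t + Gz γ g t (Z n) + 6 * ρ)
    (hlen : ∀ n, Adc γ g t (Z n) → (∀ s, t ≤ g (γ s) → Z n (γ s) = 1 → Z n (γ (s + Real.pi)) = 1 → False) →
      Gz γ g t (Z n) ≤ deriv (mz C H g (Z n)) t ∧
      deriv (mz C H g (Z n)) t + Gz γ g t (Z n) ≤ deriv (mz C H g fun _ => 1) t)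
    (hSG : deriv (mz C H g fun _ => 1) t < 2 * Real.pi) (hnb : ¬ BadE γ g t)
    {θ : ℝ} (hθ : 0 < θ) :
    ∃ (k : ℕ) (A : Fin k → Set M), ∀ θ' : ℝ, 0 < θ' → ∃ (m : ℕ) (n : Fin k ⊕ Fin m → ℕ)
      (O : Fin k ⊕ Fin m → Set M), Pcs C H g t θ θ' A (fun i => Z (n i)) O ∧
      ∀ i, deriv (mz C H g (Z (n i))) t + Gz γ g t (Z (n i)) ≤ deriv (mz C H g fun _ => 1) t := by
  classical
  have hpi3 : (3 : ℝ) < Real.pi := Real.pi_gt_three
  suffices hsuf : ∃ (k : ℕ) (A : Fin k → Set M), ∀ θ' : ℝ, 0 < θ' → ∃ (m : ℕ) (n : Fin k ⊕ Fin m → ℕ)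
      (O : Fin k ⊕ Fin m → Set M), Pcs C H g t (min θ 1) θ' A (fun i => Z (n i)) O ∧
      ∀ i, deriv (mz C H g (Z (n i))) t + Gz γ g t (Z (n i)) ≤ deriv (mz C H g fun _ => 1) t by
    obtain ⟨k, A, h⟩ := hsuf
    refine ⟨k, A, fun θ' hθ' => ?_⟩
    obtain ⟨m, n, O, h1, h2⟩ := h θ' hθ'
    exact ⟨m, n, O, { h1 with dust := fun j x hx y hy => (h1.dust j x hx y hy).trans (min_le_left _ _) }, h2⟩
  have hθ1 : min θ 1 ≤ 1 := min_le_right _ _
  replace hθ : 0 < min θ 1 := lt_min hθ one_pos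
  set θ₁ : ℝ := min θ 1 with hθ₁
  clear_value θ₁
  clear hθ₁
  have hK := Kt_closed hγ hg.cont t
  have Snn : ∀ n, 0 ≤ deriv (mz C H g (Z n)) t := fun n =>
    mz_deriv_nonneg C hg (hZl n) (hZ0 n) (hZ1 n) hH hH0 t
  set S := deriv (mz C H g fun _ => 1) t with hS
  set G := Gz γ g t (fun _ => 1) with hG
  set Fam : ℕ → Prop := fun k => ∃ x y : Fin k → M, (∀ i, x i ∈ Kt γ g t) ∧
    (∀ i j, i ≠ j → x j ∉ connectedComponentIn (Kt γ g t) (x i)) ∧
    (∀ i, y i ∈ connectedComponentIn (Kt γ g t) (x i)) ∧ ∀ i, θ₁ / 4 ≤ dist (x i) (y i) with hFam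
  set N : ℕ := ⌊(S + G) / (θ₁ / 2)⌋₊ with hN
  have bound : ∀ k, Fam k → k ≤ N := by
    rintro k ⟨x, y, hx, hd, hy, hxy⟩
    have h1 := count57 C hγ hg hH hH0 hZl hZ0 hZ1 hZc hdif hdif1 htri hx hd hy hxy
    refine Nat.le_floor ?_
    rw [le_div_iff₀ (by linarith)]
    exact h1
  have fam0 : Fam 0 := ⟨Fin.elim0, Fin.elim0, fun i => i.elim0, fun i => i.elim0, fun i => i.elim0,
    fun i => i.elim0⟩
  set k := Nat.findGreatest Fam N with hk
  have famk : Fam k := Nat.findGreatest_spec (Nat.zero_le N) fam0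
  have nfam : ¬ Fam (k + 1) := fun h =>
    Nat.findGreatest_is_greatest (Nat.lt_succ_self k) (bound _ h) h
  obtain ⟨x, y, hx, hd, hy, hxy⟩ := famk
  -- other components are small
  have hsm : ∀ a ∈ Kt γ g t, (∀ i, a ∉ connectedComponentIn (Kt γ g t) (x i)) →
      ∀ b ∈ connectedComponentIn (Kt γ g t) a, dist a b ≤ θ₁ / 4 := by
    intro a ha hna b hb
    by_contra hcon
    rw [not_le] at hcon
    refine nfam ⟨Fin.cons a x, Fin.cons b y, ?_, ?_, ?_, ?_⟩
    · intro i
      refine Fin.cases ?_ (fun i => ?_) i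
      · exact ha
      · exact hx i
    · intro i j
      refine Fin.cases ?_ (fun i => ?_) i
      · refine Fin.cases ?_ (fun j => ?_) j
        · exact fun h => absurd rfl h
        · intro _
          simp only [Fin.cons_zero, Fin.cons_succ]
          intro h1
          refine hna j ?_
          rw [← connectedComponentIn_eq h1]
          exact mem_connectedComponentIn ha
      · refine Fin.cases ?_ (fun j => ?_) j
        · intro _
          simp only [Fin.cons_zero, Fin.cons_succ]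
          exact hna i
        · intro hij
          simp only [Fin.cons_succ]
          exact hd i j fun h => hij (by rw [h])
    · intro i
      refine Fin.cases ?_ (fun i => ?_) i
      · exact hb
      · exact hy i
    · intro i
      refine Fin.cases ?_ (fun i => ?_) i
      · exact hcon.le
      · exact hxy i
  -- the distance of opposite points
  have hanti : ∃ ρ : ℝ, 0 < ρ ∧ ∀ i : Fin k, ∀ s, t ≤ g (γ s) →
      γ s ∈ Metric.thickening ρ (connectedComponentIn (Kt γ g t) (x i)) →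
      γ (s + Real.pi) ∈ Metric.thickening ρ (connectedComponentIn (Kt γ g t) (x i)) → False := by
    have h1 : ∀ i : Fin k, ∃ ρ : ℝ, 0 < ρ ∧ ∀ s, t ≤ g (γ s) →
      γ s ∈ Metric.thickening ρ (connectedComponentIn (Kt γ g t) (x i)) →
      γ (s + Real.pi) ∈ Metric.thickening ρ (connectedComponentIn (Kt γ g t) (x i)) → False :=
      fun i => comp_anti hγ hg hnb (hx i)
    choose ρ hρ hρ' using h1
    obtain ⟨r, hr, hr'⟩ := exists_pos_le_fin ρ hρ
    exact ⟨r, hr, fun i s h1 h2 h3 => hρ' i s h1 (Metric.thickening_mono (hr' i) _ h2)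
      (Metric.thickening_mono (hr' i) _ h3)⟩
  obtain ⟨ρ₀, hρ₀, hanti⟩ := hanti
  refine ⟨k, fun i => connectedComponentIn (Kt γ g t) (x i), fun θ' hθ' => ?_⟩
  -- the errors
  set ρ : ℝ := min (θ' / 6) (min ((2 * Real.pi - S) / 12) ρ₀) with hρ
  have hρ0 : 0 < ρ := lt_min (by linarith) (lt_min (by linarith) hρ₀)
  have hρ1 : 6 * ρ ≤ θ' := by
    have : ρ ≤ θ' / 6 := min_le_left _ _
    linarith
  have hρ2 : S + 6 * ρ < 2 * Real.pi := by
    have : ρ ≤ (2 * Real.pi - S) / 12 := (min_le_right _ _).trans (min_le_left _ _)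
    linarith
  have hρ3 : ρ ≤ ρ₀ := (min_le_right _ _).trans (min_le_right _ _)
  obtain ⟨m, P, hP, hPd, hPc, hPA, hPt, hPs⟩ := part57 hK hx hd hθ (ρ := ρ / 2) (by linarith) hsm
  obtain ⟨O, n, hOo, hOd, hPO, hOP, hO1, hO0, hadc, hsS, hsG⟩ :=
    part_len C hγ hg hH hZl hZ0 hZ1 hZc hdif hdif1 hP hPd hPc (r0 := min (ρ / 2) (θ₁ / 8))
      (lt_min (by linarith) (by linarith))
  have near : ∀ i : Fin k, ∀ w ∈ O (Sum.inl i), ∃ a ∈ connectedComponentIn (Kt γ g t) (x i),
      dist w a ≤ ρ := by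
    intro i w hw
    obtain ⟨b, hb, hwb⟩ := Metric.mem_thickening_iff.1 (hOP _ hw)
    obtain ⟨a, ha, hba⟩ := Metric.mem_thickening_iff.1 (hPt i hb)
    refine ⟨a, ha, ?_⟩
    have h1 := dist_triangle w b a
    have h2 := min_le_left (ρ / 2) (θ₁ / 8)
    linarith
  have per : ∀ i : Fin k, ∀ x ∈ O (Sum.inl i), ∀ y ∈ O (Sum.inl i), ∀ z ∈ O (Sum.inl i),
      dist x y + dist y z + dist z x ≤
        deriv (mz C H g (Z (n (Sum.inl i)))) t + Gz γ g t (Z (n (Sum.inl i))) + 6 * ρ := by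
    intro i a ha b hb c hc
    exact htri _ (hadc (Sum.inl i)) _ (isPreconnected_connectedComponentIn (x := x i)
      (F := Kt γ g t)) (fun w hw => ⟨connectedComponentIn_subset _ _ hw,
        hO1 _ _ (hPO _ (hPA i hw))⟩) ρ a b c (near i a ha) (near i b hb) (near i c hc)
  -- the trace of a piece
  have trace : ∀ i, ∀ s, γ s ∈ O i → t ≤ g (γ s) → γ s ∈ P i := by
    intro i s h1 h2
    have h3 : γ s ∈ Kt γ g t := Or.inr ⟨mem_range_self s, h2⟩
    obtain ⟨j, hj⟩ := mem_iUnion.1 (hPc h3)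
    by_cases hij : j = i
    · rwa [hij] at hj
    · exact absurd h1 (Set.disjoint_left.1 (hOd j i hij) (hPO j hj))
  have alen : ∀ i, Gz γ g t (Z (n i)) ≤ deriv (mz C H g (Z (n i))) t ∧
      deriv (mz C H g (Z (n i))) t + Gz γ g t (Z (n i)) ≤ S := by
    intro i
    refine hlen _ (hadc i) fun s h1 h2 h3 => ?_
    have h1' : t ≤ g (γ (s + Real.pi)) := by rwa [hev s]
    have inP : ∀ s, t ≤ g (γ s) → Z (n i) (γ s) = 1 → γ s ∈ P i := by
      intro s h4 h5
      have h6 : γ s ∈ Kt γ g t := Or.inr ⟨mem_range_self s, h4⟩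
      obtain ⟨j, hj⟩ := mem_iUnion.1 (hPc h6)
      by_cases hij : j = i
      · rwa [hij] at hj
      · rw [hO0 i j (Ne.symm hij) _ (hPO j hj)] at h5
        exact absurd h5 zero_ne_one
    have p1 := inP s h1 h2
    have p2 := inP _ h1' h3
    rcases i with i | j
    · refine hanti i s h1 (Metric.thickening_mono ?_ _ (hPt i p1)) (Metric.thickening_mono ?_ _ (hPt i p2))
      · linarith
      · linarith
    · have h4 := hPs j _ p1 _ p2
      have h5 := hγ.anti s
      linarith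
  have SGle : ∀ i, deriv (mz C H g (Z (n i))) t + Gz γ g t (Z (n i)) ≤ S := fun i => (alen i).2
  refine ⟨m, n, O, ⟨hOo, hOd, hPc.trans (iUnion_mono hPO), hO1, hO0, hadc, fun i => hdif _,
    fun i => Snn _, fun i => Gz_nonneg _ _ _ _, hsS, hsG, fun i => (alen i).1, ?_,
    fun i => isPreconnected_connectedComponentIn, fun i => ⟨x i, mem_connectedComponentIn (hx i)⟩,
    fun i => connectedComponentIn_subset _ _, fun i => (hPA i).trans (hPO _), ?_, ?_, ?_⟩, SGle⟩
  · intro j a ha b hb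
    obtain ⟨a', ha', haa⟩ := Metric.mem_thickening_iff.1 (hOP _ ha)
    obtain ⟨b', hb', hbb⟩ := Metric.mem_thickening_iff.1 (hOP _ hb)
    have h1 := hPs j a' ha' b' hb'
    have h2 := dist_triangle4 a a' b' b
    rw [dist_comm b' b] at h2
    have h3 := min_le_right (ρ / 2) (θ₁ / 8)
    linarith
  · intro i w hw
    obtain ⟨a, ha, h1⟩ := near i w hw
    exact ⟨a, ha, by linarith⟩
  · intro i a ha b hb c hc
    have := per i a ha b hb c hc
    linarith
  · intro i
    by_cases hne : ∃ s, γ s ∈ P (Sum.inl i) ∩ {w | t ≤ g w}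
    · right
      obtain ⟨p, q, hpq, hqp, hp, hq, htr⟩ := hull hγ
        ((hP (Sum.inl i)).cl.inter (isClosed_le continuous_const hg.cont)) hne (by
          intro a b c ha hb hc
          have h1 := per i _ (hPO _ ha.1) _ (hPO _ hb.1) _ (hPO _ hc.1)
          have h2 := SGle (Sum.inl i)
          linarith)
      exact ⟨p, q, hpq, hqp, ⟨hPO _ hp.1, hp.2⟩, ⟨hPO _ hq.1, hq.2⟩, fun s h1 h2 =>
        htr s ⟨trace _ s h1 h2, h2⟩⟩
    · left
      intro s hs
      by_contra h1
      rw [not_lt] at h1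
      exact hne ⟨s, trace _ s hs h1, h1⟩


end det

end Pool.Agent.FPM
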