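import Mathlib
import Pool.Agent.FPM.IEP
import Pool.Agent.FPM.I58Q

/-
IEL (helper42): the decomposition of almost every level of a function that takes equal values at opposite
points of the curve, if no component of the boundary contains two opposite points (adapted from helper19's
I58P, I58Q).
-/

open MeasureTheory Set Filter Topology
open scoped ENNReal NNReal

noncomputable section

namespace Pool.Agent.FPM

open Pool.Agent.EWD Pool.Agent.FPX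

variable {M : Type} [MetricSpace M] {γ : ℝ → M}

/-- the pieces at almost every level -/
theorem pcsE0 [CompactSpace M] (C : Calc M γ) (hγ : Bd γ) (hR : RegPl C) {g : M → ℝ} (hg : Lip g)
    (hev : EvenB γ g) {H : Om → ℝ} (hH : Integrable H C.μ)
    (hpg : ∀ p : M → ℝ, LipschitzWith 1 p → ∀ᵐ o ∂C.μ, |C.wed p g o| ≤ H o)
    {Z : ℕ → M → ℝ} (hZl : ∀ n, Lip (Z n)) (hZ0 : ∀ n x, 0 ≤ Z n x) (hZ1 : ∀ n x, Z n x ≤ 1)
    (hZc : ∀ K P : Set M, Pc K P → ∃ n, Cut (Z n) K P) :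
    ∀ᵐ t : ℝ, DifferentiableAt ℝ (mz C H g fun _ => 1) t ∧
      (deriv (mz C H g fun _ => 1) t < 2 * Real.pi → ¬ BadE γ g t →
      ∀ θ : ℝ, 0 < θ → ∃ (k : ℕ) (A : Fin k → Set M), ∀ θ' : ℝ, 0 < θ' → ∃ (m : ℕ)
        (n : Fin k ⊕ Fin m → ℕ) (O : Fin k ⊕ Fin m → Set M),
        Pcs C H g t θ θ' A (fun i => Z (n i)) O ∧
        ∀ i, deriv (mz C H g (Z (n i))) t + Gz γ g t (Z (n i)) ≤ deriv (mz C H g fun _ => 1) t) := by
  have hH0 : ∀ᵐ o ∂C.μ, 0 ≤ H o := by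
    filter_upwards [hpg (fun _ => 0) ((LipschitzWith.const 0).weaken zero_le_one)] with o ho
    exact (abs_nonneg _).trans ho
  have hl1 : Lip (fun _ : M => (1 : ℝ)) := lip_const 1
  have a2 : ∀ᵐ t : ℝ, ∀ n : ℕ, DifferentiableAt ℝ (mz C H g (Z n)) t := by
    rw [ae_all_iff]
    intro n
    exact (mz_mono C hg (hZl n) (hZ0 n) (hZ1 n) hH hH0).ae_differentiableAt
  have a3 : ∀ᵐ t : ℝ, DifferentiableAt ℝ (mz C H g fun _ => 1) t :=
    (mz_mono C hg hl1 (fun _ => zero_le_one) (fun _ => le_rfl) hH hH0).ae_differentiableAt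
  filter_upwards [TRI0 C hγ hR hg hH hpg hZl hZ0 hZ1, a2, a3] with t t1 t2 t3
  refine ⟨t3, fun hS hnb θ hθ => ?_⟩
  exact pcsE_det C hγ hg hev hH hH0 hZl hZ0 hZ1 hZc t2 t3 t1
    (fun n hn hanti => anti_len C hγ hg hev hH hpg hn (t2 n) t3 hanti) hS hnb hθ

/-- the pieces at almost every level, with the integrals of the defect -/
theorem pcsE58 [CompactSpace M] (C : Calc M γ) (hγ : Bd γ) (hR : RegPl C) {g : M → ℝ} (hg : Lip g)
    (hev : EvenB γ g)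
    {H : Om → ℝ} (hH : Integrable H C.μ)
    (hpg : ∀ p : M → ℝ, LipschitzWith 1 p → ∀ᵐ o ∂C.μ, |C.wed p g o| ≤ H o)
    {Z : ℕ → M → ℝ} (hZl : ∀ n, Lip (Z n)) (hZ0 : ∀ n x, 0 ≤ Z n x) (hZ1 : ∀ n x, Z n x ≤ 1)
    (hZc : ∀ K P : Set M, Pc K P → ∃ n, Cut (Z n) K P) :
    ∀ᵐ t : ℝ, DifferentiableAt ℝ (mz C H g fun _ => 1) t ∧
      (∀ (e1 e2 : ℚ) (n : ℕ), (e1 : ℝ) ≤ e2 → (e2 : ℝ) ≤ e1 + Real.pi →
        DifferentiableAt ℝ (mz C (fun o => dE γ e1 e2 (C.pt o) * H o) g (Z n)) t) ∧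
      (∀ (e1 e2 : ℚ) (n : ℕ), (e1 : ℝ) ≤ e2 → (e2 : ℝ) ≤ e1 + Real.pi →
        DifferentiableAt ℝ (mz C (fun o => dE γ e1 e2 (C.pt o) * |C.wed (sE γ e1 e2) g o|) g (Z n)) t) ∧
      (deriv (mz C H g fun _ => 1) t < 2 * Real.pi → ¬ BadE γ g t →
      ∀ θ : ℝ, 0 < θ → ∃ (k : ℕ) (A : Fin k → Set M), ∀ θ' : ℝ, 0 < θ' → ∃ (m : ℕ)
        (n : Fin k ⊕ Fin m → ℕ) (O : Fin k ⊕ Fin m → Set M),
        Pcs C H g t θ θ' A (fun i => Z (n i)) O ∧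
        (∀ i, deriv (mz C H g (Z (n i))) t + Gz γ g t (Z (n i)) ≤ deriv (mz C H g fun _ => 1) t) ∧
        (∀ (i : Fin k) (p q : ℝ), p ≤ q → q < p + Real.pi → γ p ∈ O (Sum.inl i) →
          γ q ∈ O (Sum.inl i) →
          (∀ s, γ s ∈ O (Sum.inl i) → t ≤ g (γ s) → ∃ m : ℤ, s + m * (2 * Real.pi) ∈ Icc p q) →
          ∀ e1 e2 D : ℝ, e1 ≤ p → q ≤ e2 →
          HasDerivAt (mz C (fun o => dE γ e1 e2 (C.pt o) * H o) g (Z (n (Sum.inl i)))) D t →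
          D ≤ (deriv (mz C H g (Z (n (Sum.inl i)))) t ^ 2 -
            (2 * (q - p) - Gz γ g t (Z (n (Sum.inl i)))) ^ 2) / 4 + θ') ∧
        (∀ (i : Fin k) (p q : ℝ), p ≤ q → q < p + Real.pi → γ p ∈ O (Sum.inl i) →
          γ q ∈ O (Sum.inl i) →
          (∀ s, γ s ∈ O (Sum.inl i) → t ≤ g (γ s) → ∃ m : ℤ, s + m * (2 * Real.pi) ∈ Icc p q) →
          ∀ e1 e2 : ℚ, (e1 : ℝ) ≤ p → q ≤ e2 → (e2 : ℝ) ≤ e1 + Real.pi → ∀ D D' : ℝ,
          HasDerivAt (mz C (fun o => dE γ e1 e2 (C.pt o) * H o) g (Z (n (Sum.inl i)))) D t →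
          HasDerivAt (mz C (fun o => dE γ e1 e2 (C.pt o) * |C.wed (sE γ e1 e2) g o|) g
            (Z (n (Sum.inl i)))) D' t →
          ∃ a : ℝ, 2 * (q - p) - Gz γ g t (Z (n (Sum.inl i))) ≤ a ∧
            a ≤ deriv (mz C H g (Z (n (Sum.inl i)))) t + θ' ∧
            D + D' ≤ (deriv (mz C H g (Z (n (Sum.inl i)))) t - a) *
              (deriv (mz C H g (Z (n (Sum.inl i)))) t + 3 * a) / 4 + θ')) := by
  have hH0 : ∀ᵐ o ∂C.μ, 0 ≤ H o := by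
    filter_upwards [hpg (fun _ => 0) ((LipschitzWith.const 0).weaken zero_le_one)] with o ho
    exact (abs_nonneg _).trans ho
  have bdE : ∀ (e1 e2 : ℝ) (K : Om → ℝ), Integrable K C.μ →
      Integrable (fun o => dE γ e1 e2 (C.pt o) * K o) C.μ := fun e1 e2 K hK =>
    hK.bdd_mul (c := Metric.diam (univ : Set M) + |e2 - e1|)
      (C.meas_pt (lip_dEpc γ _ _)).aestronglyMeasurable (Eventually.of_forall fun o => by
        rw [Real.norm_eq_abs]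
        exact dE_le57 γ _ _ _)
  have aK : ∀ K : ℚ → ℚ → Om → ℝ, (∀ e1 e2, Integrable (K e1 e2) C.μ) →
      (∀ e1 e2, ∀ᵐ o ∂C.μ, 0 ≤ K e1 e2 o) →
      ∀ᵐ t : ℝ, ∀ (e1 e2 : ℚ) (n : ℕ), (e1 : ℝ) ≤ e2 → (e2 : ℝ) ≤ e1 + Real.pi →
      DifferentiableAt ℝ (mz C (fun o => dE γ e1 e2 (C.pt o) * K e1 e2 o) g (Z n)) t := by
    intro K hK hK0
    rw [ae_all_iff]
    intro e1
    rw [ae_all_iff]
    intro e2
    rw [ae_all_iff]
    intro n
    by_cases h1 : (e1 : ℝ) ≤ e2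
    · by_cases h2 : (e2 : ℝ) ≤ e1 + Real.pi
      · have i2 : ∀ᵐ o ∂C.μ, 0 ≤ dE γ e1 e2 (C.pt o) * K e1 e2 o := by
          filter_upwards [hK0 e1 e2] with o ho
          exact mul_nonneg (dE_nonneg57 hγ h1 h2 _) ho
        filter_upwards [(mz_mono C hg (hZl n) (hZ0 n) (hZ1 n) (bdE e1 e2 _ (hK e1 e2)) i2).ae_differentiableAt]
          with t ht _ _
        exact ht
      · exact Eventually.of_forall fun t _ h => absurd h h2
    · exact Eventually.of_forall fun t h => absurd h h1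
  filter_upwards [pcsE0 C hγ hR hg hev hH hpg hZl hZ0 hZ1 hZc, aK (fun _ _ => H) (fun _ _ => hH) (fun _ _ => hH0),
    aK (fun e1 e2 o => |C.wed (sE γ e1 e2) g o|)
      (fun e1 e2 => (integrable_wed C ⟨1, sE_lip58 γ e1 e2⟩ hg).abs)
      (fun e1 e2 => Eventually.of_forall fun o => abs_nonneg _),
    TRI C hγ hR hg hH hpg hZl hZ0 hZ1, TRI58 C hγ hR hg hH hpg hZl hZ0 hZ1] with t t1 t2 t2' t3 t4
  refine ⟨t1.1, t2, t2', fun hS hnb θ hθ => ?_⟩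
  obtain ⟨k, A, h3⟩ := t1.2 hS hnb θ hθ
  refine ⟨k, A, fun θ' hθ' => ?_⟩
  obtain ⟨m, n, O, h4, h4SG⟩ := h3 (min (θ' / 1000) 1) (lt_min (by linarith) one_pos)
  have hle : min (θ' / 1000) 1 ≤ θ' := (min_le_left _ _).trans (by linarith)
  have hle2 : min (θ' / 1000) 1 ≤ θ' / 1000 := min_le_left _ _
  obtain ⟨δ, hδ, hδO⟩ := TMB_lev hg.cont (isOpen_iUnion h4.op) (t := t) fun x hx => h4.cov (Or.inl hx)
  have hK : ∀ i, ∀ x ∈ Kt γ g t, Z (n (Sum.inl i)) x ≠ 0 → x ∈ O (Sum.inl i) := by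
    intro i x hx h5
    obtain ⟨j, hj⟩ := mem_iUnion.1 (h4.cov hx)
    by_cases h6 : j = Sum.inl i
    · rwa [h6] at hj
    · exact absurd (h4.zer (Sum.inl i) j (Ne.symm h6) x hj) h5
  have hSGi : ∀ i, deriv (mz C H g (Z (n (Sum.inl i)))) t + Gz γ g t (Z (n (Sum.inl i))) < 2 * Real.pi :=
    fun i => (h4SG (Sum.inl i)).trans_lt hS
  refine ⟨m, n, O, h4.mono hle, h4SG, fun i p q hpq hqp hp hq hull e1 e2 D he1 he2 hD => ?_,
    fun i p q hpq hqp hp hq hull e1 e2 he1 he2 he3 D D' hD hD' => ?_⟩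
  · obtain ⟨a, ha, hpa⟩ := h4.near i _ hp
    obtain ⟨b, hb, hqb⟩ := h4.near i _ hq
    rw [dist_comm] at hpa hqb
    have key := t3 (n (Sum.inl i)) (h4.adc (Sum.inl i)) (A i) p q (min (θ' / 1000) 1) (h4.conn i)
      (fun x hx => ⟨h4.AK i hx, h4.one (Sum.inl i) x (h4.AO i hx)⟩) hpq hqp
      (lt_min (by linarith) one_pos) (min_le_right _ _) ⟨a, ha, hpa⟩ ⟨b, hb, hqb⟩
      (fun s hs1 hs2 => hull s (hK i _ (Or.inr ⟨mem_range_self s, hs2⟩) (by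
        rw [hs1]
        exact one_ne_zero)) hs2)
      ⟨δ, hδ, fun x hx hx' => by
        obtain ⟨j, hj⟩ := mem_iUnion.1 (hδO x hx)
        by_cases h6 : j = Sum.inl i
        · rw [h6] at hj
          exact h4.near i x hj
        · exact absurd (h4.zer (Sum.inl i) j (Ne.symm h6) x hj) hx'⟩ (hSGi i) e1 e2 D he1 he2 hD
    linarith
  · obtain ⟨a, ha, hpa⟩ := h4.near i _ hp
    obtain ⟨b, hb, hqb⟩ := h4.near i _ hq
    rw [dist_comm] at hpa hqb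
    obtain ⟨c, hc1, hc2, hc3⟩ := t4 e1 e2 (by linarith) he3 (n (Sum.inl i)) (h4.adc (Sum.inl i)) (A i) p q
      (min (θ' / 1000) 1) (h4.conn i)
      (fun x hx => ⟨h4.AK i hx, h4.one (Sum.inl i) x (h4.AO i hx)⟩) hpq hqp
      (lt_min (by linarith) one_pos) (min_le_right _ _) ⟨a, ha, hpa⟩ ⟨b, hb, hqb⟩
      (fun s hs1 hs2 => hull s (hK i _ (Or.inr ⟨mem_range_self s, hs2⟩) (by
        rw [hs1]
        exact one_ne_zero)) hs2)
      ⟨δ, hδ, fun x hx hx' => by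
        obtain ⟨j, hj⟩ := mem_iUnion.1 (hδO x hx)
        by_cases h6 : j = Sum.inl i
        · rw [h6] at hj
          exact h4.near i x hj
        · exact absurd (h4.zer (Sum.inl i) j (Ne.symm h6) x hj) hx'⟩ (hSGi i) he1 he2 D D' hD hD'
    exact ⟨c, hc1, by linarith, by linarith⟩


/-- the list from the pieces -/
theorem lpE_of_pcs [CompactSpace M] (C : Calc M γ) (hγ : Bd γ) {g : M → ℝ} (hg : Lip g) {t : ℝ}
    {θ θ' : ℝ} {k m : ℕ} {A : Fin k → Set M} {Z : Fin k ⊕ Fin m → M → ℝ}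
    {O : Fin k ⊕ Fin m → Set M} (hP : Pcs C (gn C g) g t θ θ' A Z O)
    (hSG : ∀ i, deriv (mz C (gn C g) g (Z i)) t + Gz γ g t (Z i) ≤ deriv (lev C g) t)
    (hT : ∀ (i : Fin k) (p q : ℝ), p ≤ q → q < p + Real.pi → γ p ∈ O (Sum.inl i) →
      γ q ∈ O (Sum.inl i) →
      (∀ s, γ s ∈ O (Sum.inl i) → t ≤ g (γ s) → ∃ m : ℤ, s + m * (2 * Real.pi) ∈ Icc p q) →
      ∀ e1 e2 D : ℝ, e1 ≤ p → q ≤ e2 →
      HasDerivAt (mz C (fun o => dE γ e1 e2 (C.pt o) * gn C g o) g (Z (Sum.inl i))) D t →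
      D ≤ (deriv (mz C (gn C g) g (Z (Sum.inl i))) t ^ 2 -
        (2 * (q - p) - Gz γ g t (Z (Sum.inl i))) ^ 2) / 4 + θ')
    (hT4 : ∀ (i : Fin k) (p q : ℝ), p ≤ q → q < p + Real.pi → γ p ∈ O (Sum.inl i) →
      γ q ∈ O (Sum.inl i) →
      (∀ s, γ s ∈ O (Sum.inl i) → t ≤ g (γ s) → ∃ m : ℤ, s + m * (2 * Real.pi) ∈ Icc p q) →
      ∀ e1 e2 : ℚ, (e1 : ℝ) ≤ p → q ≤ e2 → (e2 : ℝ) ≤ e1 + Real.pi → ∀ D D' : ℝ,
      HasDerivAt (mz C (fun o => dE γ e1 e2 (C.pt o) * gn C g o) g (Z (Sum.inl i))) D t →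
      HasDerivAt (mz C (fun o => dE γ e1 e2 (C.pt o) * |C.wed (sE γ e1 e2) g o|) g
        (Z (Sum.inl i))) D' t →
      ∃ a : ℝ, 2 * (q - p) - Gz γ g t (Z (Sum.inl i)) ≤ a ∧
        a ≤ deriv (mz C (gn C g) g (Z (Sum.inl i))) t + θ' ∧
        D + D' ≤ (deriv (mz C (gn C g) g (Z (Sum.inl i))) t - a) *
          (deriv (mz C (gn C g) g (Z (Sum.inl i))) t + 3 * a) / 4 + θ')
    (hdE : ∀ (e1 e2 : ℚ) i, DifferentiableAt ℝ
      (mz C (fun o => dE γ e1 e2 (C.pt o) * gn C g o) g (Z i)) t)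
    (hdS : ∀ (e1 e2 : ℚ) i, (e1 : ℝ) ≤ e2 → (e2 : ℝ) ≤ e1 + Real.pi → DifferentiableAt ℝ
      (mz C (fun o => dE γ e1 e2 (C.pt o) * |C.wed (sE γ e1 e2) g o|) g (Z i)) t) :
    ∃ (tr : Finset (Fin k ⊕ Fin m)) (p q : Fin k ⊕ Fin m → ℝ),
      LP58 C g t θ θ' (deriv (lev C g) t) (Finset.univ.image Sum.inl) tr Z O
        (fun i => deriv (mz C (gn C g) g (Z i)) t) p q := by
  classical
  set Hd : Fin k ⊕ Fin m → ℝ → ℝ → Prop := fun i p q => p ≤ q ∧ q < p + Real.pi ∧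
    (γ p ∈ O i ∧ t ≤ g (γ p)) ∧ (γ q ∈ O i ∧ t ≤ g (γ q)) ∧
    ∀ s, γ s ∈ O i → t ≤ g (γ s) → ∃ n : ℤ, s + n * (2 * Real.pi) ∈ Icc p q with hHd
  have hch : ∀ i, ∃ p q, (∃ p q, Hd i p q) → Hd i p q := by
    intro i
    by_cases h : ∃ p q, Hd i p q
    · obtain ⟨p, q, hpq⟩ := h
      exact ⟨p, q, fun _ => hpq⟩
    · exact ⟨0, 0, fun h' => absurd h' h⟩
  choose p q hpq using hch
  have htr : ∀ i ∈ (Finset.univ.image Sum.inl).filter (fun i => ∃ p q, Hd i p q),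
      Hd i (p i) (q i) := fun i hi => hpq i (Finset.mem_filter.1 hi).2
  refine ⟨(Finset.univ.image Sum.inl).filter (fun i => ∃ p q, Hd i p q), p, q, ⟨hP.op, hP.dj, hP.cov,
    fun i => (hP.adc i).lip, fun i => (hP.adc i).lo, fun i => (hP.adc i).hi, hP.one,
    fun i j hij => hP.zer i j (Ne.symm hij), fun i => (hP.der i).hasDerivAt, hP.GS, ?_, hSG, ?_, ?_,
    Finset.filter_subset _ _, ?_, fun i hi => (htr i hi).1, fun i hi => (htr i hi).2.1,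
    fun i hi => (htr i hi).2.2.1, fun i hi => (htr i hi).2.2.2.1, fun i hi => (htr i hi).2.2.2.2, ?_⟩, ?_⟩
  · rw [hP.sumS, mz_one]
  · intro i hi
    rcases i with i | j
    · exact absurd (Finset.mem_image_of_mem _ (Finset.mem_univ i)) hi
    · exact hP.dust j
  · intro i hi
    obtain ⟨j, -, rfl⟩ := Finset.mem_image.1 hi
    exact hP.per j
  · intro i hi hi'
    obtain ⟨j, -, rfl⟩ := Finset.mem_image.1 hi
    intro s hs
    rcases hP.hull j with h | ⟨p, q, h⟩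
    · exact h s hs
    · exact absurd (Finset.mem_filter.2 ⟨hi, p, q, h⟩) hi'
  · intro i hi e1 e2 n h1 h2
    have hH := htr i hi
    obtain ⟨j, -, hj⟩ := Finset.mem_image.1 (Finset.mem_filter.1 hi).1
    have hd := (hdE e1 e2 i).hasDerivAt
    refine ⟨deriv (mz C (fun o => dE γ e1 e2 (C.pt o) * gn C g o) g (Z i)) t, hd, ?_⟩
    subst hj
    refine hT j (p _) (q _) hH.1 hH.2.1 hH.2.2.1.1 hH.2.2.2.1.1 hH.2.2.2.2
      (e1 + ((-n : ℤ) : ℝ) * (2 * Real.pi)) (e2 + ((-n : ℤ) : ℝ) * (2 * Real.pi)) _ ?_ ?_ ?_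
    · push_cast
      linarith
    · push_cast
      linarith
    · simp only [dE_int hγ]
      exact hd
  · intro i hi e1 e2 n h1 h2 h3
    have hH := htr i hi
    obtain ⟨j, -, hj⟩ := Finset.mem_image.1 (Finset.mem_filter.1 hi).1
    subst hj
    have he : (e1 : ℝ) ≤ e2 := by linarith [hH.1]
    have hd := (hdE e1 e2 (Sum.inl j)).hasDerivAt
    have hd' := (hdS e1 e2 (Sum.inl j) he h3).hasDerivAt
    obtain ⟨a, a1, a2, a3⟩ := hT4 j (p (Sum.inl j) + n * (2 * Real.pi)) (q (Sum.inl j) + n * (2 * Real.pi))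
      (by linarith [hH.1]) (by linarith [hH.2.1]) (by rw [gam_int hγ]; exact hH.2.2.1.1)
      (by rw [gam_int hγ]; exact hH.2.2.2.1.1)
      (fun s hs1 hs2 => by
        obtain ⟨m, hm1, hm2⟩ := hH.2.2.2.2 s hs1 hs2
        refine ⟨m + n, ?_, ?_⟩
        · push_cast
          linarith
        · push_cast
          linarith)
      e1 e2 h1 h2 h3 _ _ hd hd'
    exact ⟨_, _, a, hd, hd', by linarith, a2, a3⟩

/-- the decomposition at almost every level without a bad component -/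
theorem lpE58e_ae [CompactSpace M] (hγ : Bd γ) (C : Calc M γ) (hR : RegPl C) {g : M → ℝ} (hg : Lip g)
    (hev : EvenB γ g) : ∀ᵐ t : ℝ, DifferentiableAt ℝ (lev C g) t ∧
    volume {s : ℝ | s ∈ Ioc 0 (2 * Real.pi) ∧ g (γ s) = t} = 0 ∧
    (deriv (lev C g) t < 2 * Real.pi → ¬ BadE γ g t → LPall58 C g t (deriv (lev C g) t)) := by
  classical
  obtain ⟨Z, hZl, hZ0, hZ1, hZc⟩ := TMB_family (M := M)
  have gn0 : ∀ᵐ o ∂C.μ, 0 ≤ gn C g o := Eventually.of_forall fun o => gn_nonneg C g o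
  have dEa : ∀ᵐ t : ℝ, ∀ (e1 e2 : ℚ) (n : ℕ), DifferentiableAt ℝ
      (mz C (fun o => dE γ e1 e2 (C.pt o) * gn C g o) g (Z n)) t := by
    rw [ae_all_iff]
    intro e1
    rw [ae_all_iff]
    intro e2
    rw [ae_all_iff]
    intro n
    exact mz_diff_ae C hg (hZl n) (hZ0 n) (hZ1 n) (int_gn C hg) gn0 (lip_dEpc γ _ _)
  filter_upwards [(lev_mono C hg).ae_differentiableAt, ae_level_null hγ hg,
    pcsE58 C hγ hR hg hev (int_gn C hg) (fun p hp => gn_cs C hp) hZl hZ0 hZ1 hZc, dEa] with t d1 hn s1 f1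
  refine ⟨d1, hn, fun hS hnb θ hθ => ?_⟩
  obtain ⟨-, -, w1, s1⟩ := s1
  rw [mz_one] at s1
  obtain ⟨k, A, L1⟩ := s1 hS hnb θ hθ
  refine ⟨k, fun θ' hθ' => ?_⟩
  obtain ⟨m, n, O, hP, hSG, hT, hT4⟩ := L1 θ' hθ'
  obtain ⟨tr, p, q, H⟩ := lpE_of_pcs C hγ hg hP hSG hT hT4 (fun e1 e2 i => f1 e1 e2 (n i))
    (fun e1 e2 i h1 h2 => w1 e1 e2 (n i) h1 h2)
  refine ⟨Fin k ⊕ Fin m, inferInstance, inferInstance, _, _, _, _, _, _, _, ?_, H⟩
  refine Finset.card_image_le.trans ?_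
  rw [Finset.card_univ, Fintype.card_fin]

end Pool.Agent.FPM
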