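import Mathlib
import Pool.Agent.FPM.IEL
import Pool.Agent.FPM.I58LV

/-
IE58 (helper42): the isoperimetric inequality with `κ = 10000 / 5439 * π = 1.8386 π` for the superlevel sets of
functions that take equal values at opposite points of the boundary curve.
-/

open MeasureTheory Set Filter Topology
open scoped ENNReal NNReal

noncomputable section

namespace Pool.Agent.FPM

open Pool.Agent.EWD Pool.Agent.FPX

variable {M : Type} [MetricSpace M] {γ : ℝ → M}

/-- the inequality at one level -/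
theorem lev58E_of (C : Calc M γ) {ε c : ℝ} (hc0 : 0 ≤ c) (h : LevF58 C ε c) (g : M → ℝ) (hg : Lip g)
    (hev : EvenB γ g) (t : ℝ) (hn : volume {s : ℝ | s ∈ Ioc 0 (2 * Real.pi) ∧ g (γ s) = t} = 0) (l : ℝ)
    (hlt : l < 2 * Real.pi) (hall : LPall58 C g t l) :
    2 * Real.pi * ((C.μ {o | t < g (C.pt o)}).toReal - ε) ≤ 5439 / 5000 * l ^ 2 := by
  have hpi := Real.pi_pos
  -- `0 ≤ l`
  have hl0 : 0 ≤ l := by
    obtain ⟨K, hK⟩ := hall 1 one_pos
    obtain ⟨ι, i1, i2, big, tr, Z, O, S, p, q, -, hLP⟩ := hK 1 one_pos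
    rw [← hLP.sumS]
    exact Finset.sum_nonneg fun i _ => (Gz_nonneg _ _ _ _).trans (hLP.GS i)
  refine I58Z.num58 hl0 fun e he => ?_
  -- `θ` small
  obtain ⟨θ, h0, h0e, h0l⟩ : ∃ θ : ℝ, 0 < θ ∧ 2 * c * θ ≤ e ∧ 4 * θ < 2 * Real.pi - l := by
    refine ⟨min (e / (2 * c + 1)) ((2 * Real.pi - l) / 5), lt_min (by positivity) (by linarith), ?_, ?_⟩
    · calc 2 * c * min (e / (2 * c + 1)) ((2 * Real.pi - l) / 5) ≤ 2 * c * (e / (2 * c + 1)) :=
            mul_le_mul_of_nonneg_left (min_le_left _ _) (by positivity)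
        _ = e * (2 * c / (2 * c + 1)) := by ring
        _ ≤ e * 1 := by
            refine mul_le_mul_of_nonneg_left ?_ he.le
            rw [div_le_one (by positivity)]
            linarith
        _ = e := mul_one _
    · have := min_le_right (e / (2 * c + 1)) ((2 * Real.pi - l) / 5)
      linarith
  obtain ⟨K, hK⟩ := hall θ h0
  have hK0 : (0 : ℝ) ≤ K := Nat.cast_nonneg K
  obtain ⟨θ', h1, h1e, h1l⟩ : ∃ θ' : ℝ, 0 < θ' ∧ 2 * c * (K * θ') ≤ e ∧ 4 * K * θ' < 2 * Real.pi - l := by
    refine ⟨min (e / (2 * c * K + 1)) ((2 * Real.pi - l) / (4 * K + 4)),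
      lt_min (by positivity) (div_pos (by linarith) (by positivity)), ?_, ?_⟩
    · calc 2 * c * (K * min (e / (2 * c * K + 1)) ((2 * Real.pi - l) / (4 * K + 4)))
          ≤ 2 * c * (K * (e / (2 * c * K + 1))) :=
            mul_le_mul_of_nonneg_left (mul_le_mul_of_nonneg_left (min_le_left _ _) hK0) (by positivity)
        _ = e * (2 * c * K / (2 * c * K + 1)) := by ring
        _ ≤ e * 1 := by
            refine mul_le_mul_of_nonneg_left ?_ he.le
            rw [div_le_one (by positivity)]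
            linarith
        _ = e := mul_one _
    · have h2 := min_le_right (e / (2 * c * K + 1)) ((2 * Real.pi - l) / (4 * K + 4))
      have h3 : 0 < 2 * Real.pi - l := by linarith
      calc 4 * K * min (e / (2 * c * K + 1)) ((2 * Real.pi - l) / (4 * K + 4))
          ≤ 4 * K * ((2 * Real.pi - l) / (4 * K + 4)) := mul_le_mul_of_nonneg_left h2 (by positivity)
        _ = (2 * Real.pi - l) * (K / (K + 1)) := by field_simp
        _ < (2 * Real.pi - l) * 1 := by
            refine mul_lt_mul_of_pos_left ?_ h3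
            rw [div_lt_one (by positivity)]
            linarith
        _ = 2 * Real.pi - l := mul_one _
  obtain ⟨ι, i1, i2, big, tr, Z, O, S, p, q, hc, hLP⟩ := hK θ' h1
  have hc' : (big.card : ℝ) ≤ K := by exact_mod_cast hc
  obtain ⟨x, y, z, A, B, e1, e2, e3, e4, e5, e6, e7, e8, f1, f2⟩ :=
    h g hg hev t hn l hlt θ θ' K h0 h1 ι big tr Z O S p q hc' hLP (by linarith)
  have hE : c * (θ + K * θ') ≤ e := by linarith
  exact ⟨x, y, z, A, B, e2, e3, e4, e5, e6, e1, by linarith, by linarith, by linarith, by linarith⟩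

/-- the derivatives of the level integrals of `g` and `-g` -/
theorem deriv_lev_neg (C : Calc M γ) {g : M → ℝ} (hg : Lip g) {t : ℝ} (t1 : DifferentiableAt ℝ (lev C g) t) :
    deriv (lev C fun x => -g x) (-t) = deriv (lev C g) t := by
  have h1 : HasDerivAt (fun r => (∫ o, gn C g o ∂C.μ) - lev C g (-r)) (deriv (lev C g) t) (-t) := by
    have h2 : HasDerivAt (lev C g) (deriv (lev C g) t) (- -t) := by
      rw [neg_neg]
      exact t1.hasDerivAt
    have h3 := (h2.comp (-t) (hasDerivAt_neg (-t))).const_sub (∫ o, gn C g o ∂C.μ)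
    have e : -(deriv (lev C g) t * -1) = deriv (lev C g) t := by ring
    rw [e] at h3
    exact h3
  have h2 : (lev C fun x => -g x) = fun r => (∫ o, gn C g o ∂C.μ) - lev C g (-r) :=
    funext fun r => lev_neg C hg r
  rw [h2]
  exact h1.deriv

/-- the isoperimetric inequality from the numbers at one level -/
theorem isopE58e_of [CompactSpace M] (hγ : Bd γ) (C : Calc M γ) (hR : RegPl C) {ε c : ℝ} (hε : 0 ≤ ε)
    (hc0 : 0 ≤ c) (hv : C.vol ≤ 4 * Real.pi) (h2 : LevF58 C ε c) : Isop C (10000 / 5439 * Real.pi) ε := by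
  have hpi := Real.pi_pos
  have := C.fin
  intro g hg he
  have n1 := lpE58e_ae hγ C hR hg he
  have n2 : ∀ᵐ t : ℝ, DifferentiableAt ℝ (lev C fun x => -g x) (-t) ∧
      volume {s : ℝ | s ∈ Ioc 0 (2 * Real.pi) ∧ -g (γ s) = -t} = 0 ∧
      (deriv (lev C fun x => -g x) (-t) < 2 * Real.pi → ¬ BadE γ (fun x => -g x) (-t) →
        LPall58 C (fun x => -g x) (-t) (deriv (lev C fun x => -g x) (-t))) :=
    (Measure.measurePreserving_neg (volume : Measure ℝ)).quasiMeasurePreserving.ae
      (lpE58e_ae hγ C hR hg.neg (even_neg he))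
  have a4 : ∀ᵐ t : ℝ, C.μ {o | g (C.pt o) = t} = 0 := ae_level (C.meas_pt hg)
  filter_upwards [n1, n2, ied hγ C hR hg he, a4] with t t1 t2 t3 t4
  obtain ⟨d1, v1, L1⟩ := t1
  obtain ⟨-, v2, L2⟩ := t2
  refine ⟨d1, ?_⟩
  rw [deriv_lev_neg C hg d1] at L2
  have hS0 : 0 ≤ deriv (lev C g) t := (lev_mono C hg).deriv_nonneg
  -- areas
  have e1 : sup' C g t = (C.μ {o | t < g (C.pt o)}).toReal := by
    unfold sup'
    congr 1
    refine le_antisymm ?_ (measure_mono fun o ho => le_of_lt (show t < g (C.pt o) from ho))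
    have h1 : {o | t ≤ g (C.pt o)} ⊆ {o | t < g (C.pt o)} ∪ {o | g (C.pt o) = t} := by
      intro o ho
      rcases (show t ≤ g (C.pt o) from ho).lt_or_eq with h | h
      · exact Or.inl h
      · exact Or.inr h.symm
    refine (measure_mono h1).trans ((measure_union_le _ _).trans ?_)
    rw [t4, add_zero]
  have e2 : C.vol - sup' C g t ≤ (C.μ {o | -t < -g (C.pt o)}).toReal := by
    have h1 : (univ : Set Om) ⊆ {o | t ≤ g (C.pt o)} ∪ {o | -t < -g (C.pt o)} := by
      intro o _
      rcases le_or_gt t (g (C.pt o)) with h | h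
      · exact Or.inl h
      · exact Or.inr (by
          change -t < -g (C.pt o)
          linarith)
    have h2 : C.μ univ ≤ C.μ {o | t ≤ g (C.pt o)} + C.μ {o | -t < -g (C.pt o)} :=
      (measure_mono h1).trans (measure_union_le _ _)
    have h3 := ENNReal.toReal_mono (by finiteness) h2
    rw [ENNReal.toReal_add (measure_ne_top _ _) (measure_ne_top _ _)] at h3
    unfold Calc.vol sup'
    linarith
  have m1 := min_le_left (sup' C g t) (C.vol - sup' C g t)
  have m2 := min_le_right (sup' C g t) (C.vol - sup' C g t)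
  have fin : ∀ a : ℝ, 2 * Real.pi * (a - ε) ≤ 5439 / 5000 * deriv (lev C g) t ^ 2 →
      min (sup' C g t) (C.vol - sup' C g t) ≤ a →
      10000 / 5439 * Real.pi * (min (sup' C g t) (C.vol - sup' C g t) - ε) ≤ deriv (lev C g) t ^ 2 := by
    intro a h3 h4
    calc 10000 / 5439 * Real.pi * (min (sup' C g t) (C.vol - sup' C g t) - ε) ≤
        10000 / 5439 * Real.pi * (a - ε) := mul_le_mul_of_nonneg_left (by linarith) (by positivity)
      _ = 5000 / 5439 * (2 * Real.pi * (a - ε)) := by ring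
      _ ≤ 5000 / 5439 * (5439 / 5000 * deriv (lev C g) t ^ 2) :=
        mul_le_mul_of_nonneg_left h3 (by norm_num)
      _ = deriv (lev C g) t ^ 2 := by ring
  rcases lt_or_ge (deriv (lev C g) t) (2 * Real.pi) with hlt | hge
  · rcases t3 hlt with hb | hb
    · refine fin _ (lev58E_of C hc0 h2 g hg he t v1 _ hlt (L1 hlt hb)) ?_
      rw [← e1]
      exact m1
    · exact fin _ (lev58E_of C hc0 h2 (fun x => -g x) hg.neg (even_neg he) (-t) v2 _ hlt (L2 hlt hb))
        (m2.trans e2)
  · have h4 : (2 * Real.pi) ^ 2 ≤ deriv (lev C g) t ^ 2 := pow_le_pow_left₀ (by positivity) hge 2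
    have h5 : min (sup' C g t) (C.vol - sup' C g t) - ε ≤ 2 * Real.pi := by linarith
    calc 10000 / 5439 * Real.pi * (min (sup' C g t) (C.vol - sup' C g t) - ε) ≤
        10000 / 5439 * Real.pi * (2 * Real.pi) := mul_le_mul_of_nonneg_left h5 (by positivity)
      _ ≤ (2 * Real.pi) ^ 2 := by nlinarith [sq_nonneg Real.pi]
      _ ≤ _ := h4

/-- **the isoperimetric inequality for even functions** -/
theorem isopE58e [CompactSpace M] (hγ : Bd γ) {C : Calc M γ} (hR : RegPl C) (hC : Colb C) {ε : ℝ}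
    (hε : 0 ≤ ε) (hmin : NM C ε) (hv : C.vol ≤ 4 * Real.pi) : Isop C (10000 / 5439 * Real.pi) ε :=
  isopE58e_of hγ C hR hε (by norm_num) hv (levF58 hγ hC hmin)

end Pool.Agent.FPM
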