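import Mathlib
import Pool.Agent.FPM.ODI
import Pool.Agent.FPX.S7H

/-
ODJ (helper93): the nonlinear level set lemma for functions that are odd along the curve, and the
Poincaré inequality for odd functions.
-/

open MeasureTheory Set Filter Topology
open scoped ENNReal NNReal

noncomputable section

namespace Pool.Agent.FPM

open Pool.Agent.EWD Pool.Agent.FPX

variable {M : Type} [MetricSpace M] {γ : ℝ → M} (C : Calc M γ)

/-- the nonlinear level set lemma, from a one-sided inequality for the levels -/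
theorem hj_lev {κ ε : ℝ} {g : M → ℝ} (hg : Lip g)
    {W : Om → ℝ} (hW : Integrable W C.μ) {r0 r1 c L : ℝ} (hr : r0 ≤ r1) (hc : 0 ≤ c) (hL : 0 ≤ L)
    (hI : ∀ᵐ t : ℝ, r0 < t → t < r1 → κ * (inf' C g t - ε) ≤ deriv (lev C g) t ^ 2)
    {m : ℝ → ℝ} (hm : ∀ᵐ o ∂C.μ, r0 ≤ g (C.pt o) → g (C.pt o) < r1 → m (g (C.pt o)) ≤ W o)
    (mL : ∀ s t, r0 ≤ s → s ≤ t → t ≤ r1 → m s - L * (t - s) ≤ m t)
    {S Sa St : ℝ → ℝ → ℝ}
    (hS : ∀ t a, r0 ≤ t → t ≤ r1 → inf' C g t ≤ a → a ≤ C.vol →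
      HasFDerivAt (fun z : ℝ × ℝ => S z.1 z.2)
        (Sa a t • ContinuousLinearMap.fst ℝ ℝ ℝ + St a t • ContinuousLinearMap.snd ℝ ℝ ℝ) (a, t))
    (hSt : ∀ t a, r0 ≤ t → t ≤ r1 → inf' C g t ≤ a → a ≤ C.vol → |St a t| ≤ L)
    (hSa : ∀ t a, r0 ≤ t → t ≤ r1 → inf' C g t ≤ a → a ≤ C.vol → Sa a t ≤ m t)
    (hj : ∀ t, r0 < t → t < r1 → St (inf' C g t) t ≤ 0 ∨
      St (inf' C g t) t ^ 2 ≤ 4 * (c * (κ * (inf' C g t - ε)) * (m t - Sa (inf' C g t) t))) :
    S (inf' C g r1) r1 - S (inf' C g r0) r0 ≤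
      ∫ o in {o | r0 ≤ g (C.pt o) ∧ g (C.pt o) < r1}, (W o + c * gn C g o ^ 2) ∂C.μ := by
  have := C.fin
  obtain ⟨N, g', G', hN, mg, mG, G0, hgN, hall⟩ := s7_rep C hg hm r1
  have hae : ∀ᵐ o ∂C.μ, o ∉ N := measure_eq_zero_iff_ae_notMem.1 hN
  have hGe : G' =ᵐ[C.μ] gn C g := by
    filter_upwards [hae] with o ho using (hall o ho).2.2
  have hge : g' =ᵐ[C.μ] fun o => g (C.pt o) := by
    filter_upwards [hae] with o ho using (hall o ho).2.1
  have hset : ∀ t : ℝ, {o | g' o < t} =ᵐ[C.μ] {o | g (C.pt o) < t} := fun t => by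
    filter_upwards [hge] with o ho
    exact propext (by change g' o < t ↔ g (C.pt o) < t; rw [ho])
  have hb : s7b C.μ g' = inf' C g := by
    funext t
    rw [s7b, Measure.real, measure_congr (hset t), inf']
  have hF : s7F C.μ g' G' = lev C g := by
    funext t
    rw [s7F, lev, setIntegral_congr_set (hset t)]
    exact integral_congr_ae (ae_restrict_of_ae hGe)
  have key := s7_hj (μ := C.μ) (g := g') (G := G') mg
    ((int_gn C hg).congr hGe.symm) G0
    ((int_gn_sq C hg).congr (by filter_upwards [hGe] with o ho; rw [ho])) hW hr hc hL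
    (m := m) (fun o h0 h1 => by
      by_cases ho : o ∈ N
      · rw [hgN o ho] at h1
        exact absurd h1 (lt_irrefl _)
      · have h2 := hall o ho
        rw [h2.2.1] at h0 h1 ⊢
        exact h2.1 h0 h1) mL (S := S) (Sa := Sa) (St := St)
    (by rw [hb]; exact hS) (by rw [hb]; exact hSt) (by rw [hb]; exact hSa)
    (by
      rw [hb, hF]
      filter_upwards [hI] with t ht h0 h1
      rcases hj t h0 h1 with h2 | h2
      · exact Or.inl h2
      · refine Or.inr (h2.trans ?_)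
        have h3 := ht h0 h1
        have h5 : 0 ≤ m t - Sa (inf' C g t) t := by
          have := hSa t (inf' C g t) h0.le h1.le le_rfl (by
            rw [← hb]
            exact s7b_le C.μ t)
          linarith
        gcongr)
  rw [hb] at key
  refine key.trans_eq ?_
  have hset2 : {o | r0 ≤ g' o ∧ g' o < r1} =ᵐ[C.μ] {o | r0 ≤ g (C.pt o) ∧ g (C.pt o) < r1} := by
    filter_upwards [hge] with o ho
    exact propext (by change (r0 ≤ g' o ∧ g' o < r1) ↔ _; rw [ho]; rfl)
  rw [setIntegral_congr_set hset2]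
  refine integral_congr_ae (ae_restrict_of_ae ?_)
  filter_upwards [hGe] with o ho
  rw [ho]

/-- the levels of `-|g|` -/
theorem odd_lev {κ ε : ℝ} (hI : IsopO C κ ε) {g : M → ℝ} (hg : Lip g) (ho : OddB γ g) :
    ∀ᵐ t : ℝ, t < 0 →
      κ * (inf' C (fun x => -|g x|) t - ε) ≤ deriv (lev C fun x => -|g x|) t ^ 2 := by
  have h1 : ∀ᵐ t : ℝ, 0 < -t → DifferentiableAt ℝ (lev C fun x => |g x|) (-t) ∧
      κ * ((C.μ {o | -t < |g (C.pt o)|}).toReal - ε) ≤ deriv (lev C fun x => |g x|) (-t) ^ 2 :=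
    (Measure.measurePreserving_neg (volume : Measure ℝ)).quasiMeasurePreserving.ae (hI g hg ho)
  filter_upwards [h1] with t ht h0
  obtain ⟨h2, h3⟩ := ht (by linarith)
  have hd : HasDerivAt (lev C fun x => -|g x|) (deriv (lev C fun x => |g x|) (-t)) t := by
    have h4 := (h2.hasDerivAt.comp t (hasDerivAt_neg t)).const_sub
      (∫ o, gn C (fun x => |g x|) o ∂C.μ)
    have e : -(deriv (lev C fun x => |g x|) (-t) * -1) = deriv (lev C fun x => |g x|) (-t) := by ring
    rw [e] at h4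
    have h5 : (lev C fun x => -|g x|) =
        fun r => (∫ o, gn C (fun x => |g x|) o ∂C.μ) - (lev C (fun x => |g x|) ∘ Neg.neg) r :=
      funext fun r => lev_neg C (lip_abs hg) r
    rw [h5]
    exact h4
  rw [hd.deriv]
  have e : inf' C (fun x => -|g x|) t = (C.μ {o | -t < |g (C.pt o)|}).toReal := by
    unfold inf'
    congr 2
    ext o
    change -|g (C.pt o)| < t ↔ -t < |g (C.pt o)|
    exact neg_lt
  rw [e]
  exact h3

/-- the denominator of the comparison function -/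
def qO (s : ℝ) : ℝ := (1 - s) * (1 + 3 / 10 * s + 13 / 100 * s ^ 2)

/-- the comparison function -/
def fO (lam V x : ℝ) : ℝ := if x ≤ 0 then lam * x else lam * x / qO (x / V)

/-- its derivative -/
def fO' (lam V x : ℝ) : ℝ :=
  if x ≤ 0 then lam
  else lam * (1 + 17 / 100 * (x / V) ^ 2 + 26 / 100 * (x / V) ^ 3) / qO (x / V) ^ 2

theorem qO_ge {s : ℝ} (h0 : 0 ≤ s) (h1 : s ≤ 1) : 1 - s ≤ qO s := by
  unfold qO
  nlinarith [mul_nonneg (sub_nonneg.2 h1) h0, mul_nonneg (sub_nonneg.2 h1) (sq_nonneg s)]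

theorem qO_le {s : ℝ} (h0 : 0 ≤ s) : qO s ≤ 1 := by
  unfold qO
  nlinarith [pow_nonneg h0 3, sq_nonneg s]

theorem fO_formula (lam : ℝ) {V x : ℝ} (hV : 0 < V) (hx : 0 ≤ x) (h : x < V) :
    HasDerivAt (fun x => lam * x / qO (x / V))
      (lam * (1 + 17 / 100 * (x / V) ^ 2 + 26 / 100 * (x / V) ^ 3) / qO (x / V) ^ 2) x := by
  have hs0 : 0 ≤ x / V := div_nonneg hx hV.le
  have hs1 : x / V < 1 := (div_lt_one hV).2 h
  have hq : qO (x / V) ≠ 0 := by
    have := qO_ge hs0 hs1.le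
    linarith
  have h1 : HasDerivAt (fun y : ℝ => y / V) (1 / V) x := (hasDerivAt_id x).div_const V
  have h2 : HasDerivAt (fun y : ℝ => qO (y / V))
      ((-(1 / V)) * (1 + 3 / 10 * (x / V) + 13 / 100 * (x / V) ^ 2) +
        (1 - x / V) * (3 / 10 * (1 / V) + 13 / 100 * (2 * (x / V) * (1 / V)))) x := by
    have h3 := h1.const_sub 1
    have h4 := ((h1.const_mul (3 / 10)).const_add 1).add ((h1.pow 2).const_mul (13 / 100))
    have h5 := h3.mul h4
    refine h5.congr_deriv ?_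
    simp only [Pi.pow_apply, Pi.add_apply, Nat.cast_ofNat, Nat.add_one_sub_one, pow_one]
  have h3 : HasDerivAt (fun y : ℝ => lam * y) lam x := by
    simpa using (hasDerivAt_id x).const_mul lam
  have h4 := h3.div h2 hq
  refine h4.congr_deriv ?_
  congr 1
  have hV' : V ≠ 0 := hV.ne'
  unfold qO
  field_simp
  ring

theorem fO_deriv (lam : ℝ) {V x : ℝ} (hV : 0 < V) (h : x < V) :
    HasDerivAt (fO lam V) (fO' lam V x) x := by
  have hlin : ∀ y : ℝ, HasDerivAt (fun x => lam * x) lam y := fun y => by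
    simpa using (hasDerivAt_id y).const_mul lam
  rcases lt_trichotomy x 0 with h0 | h0 | h0
  · have e : fO' lam V x = lam := if_pos h0.le
    rw [e]
    refine (hlin x).congr_of_eventuallyEq ?_
    filter_upwards [Iio_mem_nhds h0] with y hy
    exact if_pos (le_of_lt hy)
  · subst h0
    have e : fO' lam V 0 = lam := if_pos le_rfl
    rw [e]
    have h1 : HasDerivWithinAt (fO lam V) lam (Iic 0) 0 :=
      (hlin 0).hasDerivWithinAt.congr (fun y hy => if_pos hy) (if_pos le_rfl)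
    have h2 : HasDerivWithinAt (fO lam V) lam (Ici 0) 0 := by
      have h3 := fO_formula lam hV le_rfl hV
      have e3 : lam * (1 + 17 / 100 * (0 / V) ^ 2 + 26 / 100 * (0 / V) ^ 3) / qO (0 / V) ^ 2 = lam := by
        simp [qO]
      rw [e3] at h3
      refine h3.hasDerivWithinAt.congr (fun y hy => ?_) ?_
      · rcases (show (0 : ℝ) ≤ y from hy).eq_or_lt with h4 | h4
        · rw [← h4]
          simp [fO]
        · exact if_neg (not_le.2 h4)
      · simp [fO]
    have h3 := h1.union h2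
    rw [Iic_union_Ici] at h3
    exact h3.hasDerivAt univ_mem
  · have e : fO' lam V x = lam * (1 + 17 / 100 * (x / V) ^ 2 + 26 / 100 * (x / V) ^ 3) /
        qO (x / V) ^ 2 := if_neg (not_le.2 h0)
    rw [e]
    refine (fO_formula lam hV h0.le h).congr_of_eventuallyEq ?_
    filter_upwards [Ioi_mem_nhds h0] with y hy
    exact if_neg (not_le.2 hy)

/-- the comparison function grows fast enough -/
theorem fO_growth {lam V x : ℝ} (hV : 0 < V) (hl : 0 ≤ lam) (h : x < V) : lam ≤ fO' lam V x := by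
  unfold fO'
  split_ifs with h0
  · exact le_rfl
  · push Not at h0
    have hs0 : 0 ≤ x / V := (div_pos h0 hV).le
    have hs1 : x / V < 1 := (div_lt_one hV).2 h
    set s := x / V with hs
    have h1 := qO_ge hs0 hs1.le
    have h2 := qO_le hs0
    have h3 : 0 < qO s := by linarith
    rw [le_div_iff₀ (by positivity)]
    have h4 : qO s ^ 2 ≤ 1 := by nlinarith
    have h5 : 0 ≤ s ^ 3 := pow_nonneg hs0 3
    nlinarith [sq_nonneg s, mul_le_mul_of_nonneg_left h4 hl, mul_nonneg hl (sq_nonneg s),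
      mul_nonneg hl h5]

/-- the differential inequality of the comparison function -/
theorem fO_riccati {κ V x : ℝ} (hκ : 0 < κ) (hV : 0 < V) (h0 : 0 < x) (h : x < V) :
    fO (7 / 5 * (κ / V)) V x ^ 2 ≤
      κ * x * (fO' (7 / 5 * (κ / V)) V x - 7 / 5 * (κ / V)) := by
  unfold fO fO'
  rw [if_neg (not_le.2 h0), if_neg (not_le.2 h0)]
  have hs0 : 0 < x / V := div_pos h0 hV
  have hs1 : x / V < 1 := (div_lt_one hV).2 h
  have hx : x = V * (x / V) := by field_simp
  set s := x / V with hs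
  have h1 := qO_ge hs0.le hs1.le
  have h3 : 0 < qO s := by linarith
  have e1 : (7 / 5 * (κ / V) * x / qO s) ^ 2 = κ ^ 2 * ((7 / 5) ^ 2 * s ^ 2) / qO s ^ 2 := by
    rw [hx]
    field_simp
  have e2 : κ * x * (7 / 5 * (κ / V) * (1 + 17 / 100 * s ^ 2 + 26 / 100 * s ^ 3) / qO s ^ 2 -
      7 / 5 * (κ / V)) = κ ^ 2 * (7 / 5 * s * (1 + 17 / 100 * s ^ 2 + 26 / 100 * s ^ 3 - qO s ^ 2)) /
        qO s ^ 2 := by
    rw [hx]
    field_simp
  rw [e1, e2]
  have h4 : (7 / 5) ^ 2 * s ^ 2 ≤ 7 / 5 * s * (1 + 17 / 100 * s ^ 2 + 26 / 100 * s ^ 3 - qO s ^ 2) := by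
    have h5 : 7 / 5 * s ≤ 1 + 17 / 100 * s ^ 2 + 26 / 100 * s ^ 3 - qO s ^ 2 := by
      have e : 1 + 17 / 100 * s ^ 2 + 26 / 100 * s ^ 3 - qO s ^ 2 - 7 / 5 * s =
          s ^ 2 * (51 / 100 + 52 / 100 * s - (7 / 10 + 17 / 100 * s + 13 / 100 * s ^ 2) ^ 2) := by
        unfold qO
        ring
      have h6 : 0 ≤ 51 / 100 + 52 / 100 * s - (7 / 10 + 17 / 100 * s + 13 / 100 * s ^ 2) ^ 2 := by
        have h7 : 7 / 10 + 17 / 100 * s + 13 / 100 * s ^ 2 ≤ 7 / 10 + 3 / 10 * s := by nlinarith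
        have h8 : (7 / 10 + 17 / 100 * s + 13 / 100 * s ^ 2) ^ 2 ≤ (7 / 10 + 3 / 10 * s) ^ 2 := by
          have h9 : 0 ≤ 7 / 10 + 17 / 100 * s + 13 / 100 * s ^ 2 := by positivity
          exact pow_le_pow_left₀ h9 h7 2
        nlinarith
      have h7 := mul_nonneg (sq_nonneg s) h6
      linarith
    nlinarith
  gcongr

/-- bounds of the comparison function -/
theorem fO_abs {lam V ε x : ℝ} (hl : 0 ≤ lam) (hε : 0 < ε) (hεV : ε < V) (h0 : -ε ≤ x)
    (h : x ≤ V - ε) : |fO lam V x| ≤ lam * (V * V / ε) := by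
  have hV : 0 < V := hε.trans hεV
  have hB : V ≤ V * V / ε := by
    rw [le_div_iff₀ hε]
    nlinarith
  unfold fO
  split_ifs with h1
  · rw [abs_mul, abs_of_nonneg hl, abs_of_nonpos h1]
    exact mul_le_mul_of_nonneg_left (by linarith) hl
  · push Not at h1
    have hs0 : 0 ≤ x / V := (div_pos h1 hV).le
    have hs1 : x / V ≤ 1 - ε / V := by
      rw [div_le_iff₀ hV, sub_mul, div_mul_cancel₀ _ hV.ne']
      linarith
    have hs2 : ε / V ≤ qO (x / V) := by
      have := qO_ge hs0 (by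
        have : 0 < ε / V := div_pos hε hV
        linarith)
      linarith
    have h3 : 0 < ε / V := div_pos hε hV
    rw [abs_of_nonneg (div_nonneg (mul_nonneg hl h1.le) (h3.trans_le hs2).le)]
    rw [div_le_iff₀ (h3.trans_le hs2)]
    have h4 : lam * (V * V / ε) * (ε / V) = lam * V := by
      field_simp
    have h5 : lam * (V * V / ε) * (ε / V) ≤ lam * (V * V / ε) * qO (x / V) :=
      mul_le_mul_of_nonneg_left hs2 (by positivity)
    have h6 : lam * x ≤ lam * V := mul_le_mul_of_nonneg_left (by linarith) hl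
    linarith

/-- **Poincaré inequality** for functions that are odd along the curve, with an error that is small
for near minimisers -/
theorem poincare_odd {κ ε : ℝ} (hκ : 0 < κ) (hε : 0 < ε) (hI : IsopO C κ ε) {g : M → ℝ} (hg : Lip g)
    (ho : OddB γ g) {R V : ℝ} (hR : ∀ x, |g x| ≤ R) (hV : C.vol ≤ V) (hV0 : 0 < V) :
    7 / 5 * (κ / V) * ∫ o, g (C.pt o) ^ 2 ∂C.μ ≤
      ∫ o, gn C g o ^ 2 ∂C.μ + 7 / 5 * (κ / V) * (ε * (R + 1) ^ 2) := by
  have := C.fin
  set lam := 7 / 5 * (κ / V) with hlam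
  have hl0 : 0 < lam := by positivity
  have hR0 : 0 ≤ R := (abs_nonneg _).trans (hR (γ 0))
  have hmean : ∀ o, g (C.pt o) ^ 2 ≤ R ^ 2 := fun o => by
    rw [← sq_abs]
    exact pow_le_pow_left₀ (abs_nonneg _) (hR _) 2
  have hgi : Integrable (fun o => g (C.pt o) ^ 2) C.μ := by
    refine (integrable_const (R ^ 2)).mono' ((C.mpt g hg).pow_const 2).aestronglyMeasurable
      (Eventually.of_forall fun o => ?_)
    rw [Real.norm_eq_abs, abs_of_nonneg (sq_nonneg _)]
    exact hmean o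
  have hG0 : 0 ≤ ∫ o, gn C g o ^ 2 ∂C.μ := integral_nonneg fun o => sq_nonneg _
  have hvol : C.μ.real univ = C.vol := rfl
  rcases le_or_gt V ε with hVε | hVε
  · have h1 : ∫ o, g (C.pt o) ^ 2 ∂C.μ ≤ ∫ _, R ^ 2 ∂C.μ :=
      integral_mono hgi (integrable_const _) hmean
    rw [integral_const, smul_eq_mul, hvol] at h1
    have h2 : C.vol * R ^ 2 ≤ ε * (R + 1) ^ 2 := by
      have : C.vol ≤ ε := hV.trans hVε
      have h3 : R ^ 2 ≤ (R + 1) ^ 2 := by nlinarith
      exact mul_le_mul this h3 (sq_nonneg _) hε.le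
    have h3 := mul_le_mul_of_nonneg_left (h1.trans h2) hl0.le
    linarith
  set h : M → ℝ := fun x => -|g x| with hh
  have lh : Lip h := (lip_abs hg).neg
  have hneg : ∀ x, h x ≤ 0 := fun x => neg_nonpos.2 (abs_nonneg _)
  have hlow : ∀ x, -(R + 1) < h x := fun x => by
    have := hR x
    change -(R + 1) < -|g x|
    linarith
  have hvb : ∀ t, inf' C h t ≤ C.vol := fun t =>
    ENNReal.toReal_mono (measure_ne_top _ _) (measure_mono (subset_univ _))
  have hb0 : ∀ t, 0 ≤ inf' C h t := fun t => ENNReal.toReal_nonneg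
  have hr : -(R + 1) ≤ (0 : ℝ) := by linarith
  set B := lam * (V * V / ε) with hB
  have hB0 : 0 ≤ B := by positivity
  have key := hj_lev C (κ := κ) (ε := ε) (g := h) lh (W := fun o => -lam * g (C.pt o) ^ 2)
    (hgi.const_mul (-lam)) (r0 := -(R + 1)) (r1 := 0) (c := 1) (L := 2 * (R + 1) * B) hr zero_le_one
    (by positivity)
    (by
      filter_upwards [odd_lev C hI hg ho] with t ht _ h1
      exact ht h1)
    (m := fun t => -lam * t ^ 2)
    (Eventually.of_forall fun o _ _ => by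
      change -lam * (-|g (C.pt o)|) ^ 2 ≤ -lam * g (C.pt o) ^ 2
      rw [neg_sq, sq_abs])
    (fun s t _ hst ht => by
      have h1 : t ^ 2 ≤ s ^ 2 := by nlinarith
      have h2 : 0 ≤ 2 * (R + 1) * B * (t - s) := mul_nonneg (by positivity) (by linarith)
      nlinarith)
    (S := fun a t => -t ^ 2 * fO lam V (a - ε))
    (Sa := fun a t => -t ^ 2 * fO' lam V (a - ε))
    (St := fun a t => -(2 * t) * fO lam V (a - ε))
    (fun t a _ _ _ ha => by
      have hx : a - ε < V := by linarith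
      have h1 : HasFDerivAt (fun z : ℝ × ℝ => fO lam V (z.1 - ε))
          (fO' lam V (a - ε) • ContinuousLinearMap.fst ℝ ℝ ℝ) (a, t) :=
        HasDerivAt.comp_hasFDerivAt (h₂ := fO lam V) (f := fun z : ℝ × ℝ => z.1 - ε) (a, t)
          (fO_deriv lam hV0 hx) (hasFDerivAt_fst.sub_const ε)
      have h2 : HasFDerivAt (fun z : ℝ × ℝ => -z.2 ^ 2)
          ((-(2 * t)) • ContinuousLinearMap.snd ℝ ℝ ℝ) (a, t) := by
        have h3 : HasDerivAt (fun x : ℝ => -x ^ 2) (-(2 * t)) t := by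
          have h4 := (hasDerivAt_pow 2 t).neg
          have e : -(((2 : ℕ) : ℝ) * t ^ (2 - 1)) = -(2 * t) := by norm_num
          rw [e] at h4
          exact h4
        exact HasDerivAt.comp_hasFDerivAt (h₂ := fun x : ℝ => -x ^ 2) (f := fun z : ℝ × ℝ => z.2)
          (a, t) h3 hasFDerivAt_snd
      have h3 := h2.mul h1
      refine h3.congr_fderiv ?_
      ext <;> simp <;> ring)
    (fun t a ht0 ht1 hat hav => by
      have h1 := fO_abs hl0.le hε hVε (x := a - ε) (by linarith [hb0 t]) (by linarith)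
      rw [abs_mul, abs_neg, abs_mul, abs_of_nonneg (show (0 : ℝ) ≤ 2 by norm_num)]
      have h2 : |t| ≤ R + 1 := abs_le.2 ⟨by linarith, by linarith⟩
      have h3 : 2 * |t| ≤ 2 * (R + 1) := by linarith
      exact mul_le_mul h3 h1 (abs_nonneg _) (by positivity))
    (fun t a _ _ _ ha => by
      have h1 := fO_growth hV0 hl0.le (x := a - ε) (by linarith)
      have h2 := mul_le_mul_of_nonneg_left h1 (sq_nonneg t)
      linarith)
    (fun t _ ht => by
      rcases le_or_gt (inf' C h t - ε) 0 with h1 | h1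
      · left
        have e : fO lam V (inf' C h t - ε) = lam * (inf' C h t - ε) := if_pos h1
        rw [e]
        have h2 : lam * (inf' C h t - ε) ≤ 0 := mul_nonpos_of_nonneg_of_nonpos hl0.le h1
        nlinarith
      · right
        have h2 := fO_riccati hκ hV0 h1 (by linarith [hvb t])
        have h3 := mul_le_mul_of_nonneg_left h2 (show 0 ≤ 4 * t ^ 2 by positivity)
        calc (-(2 * t) * fO lam V (inf' C h t - ε)) ^ 2 =
              4 * t ^ 2 * fO lam V (inf' C h t - ε) ^ 2 := by ring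
          _ ≤ _ := h3
          _ = _ := by ring)
  -- conclusion
  have e1 : {o | -(R + 1) ≤ h (C.pt o) ∧ h (C.pt o) < 0} =ᵐ[C.μ] {o | h (C.pt o) < 0} :=
    Eventually.of_forall fun o => propext ⟨fun h1 => h1.2, fun h1 => ⟨(hlow _).le, h1⟩⟩
  have e2 : inf' C h (-(R + 1)) = 0 := by
    unfold inf'
    have : {o | h (C.pt o) < -(R + 1)} = ∅ := by
      ext o
      simp only [Set.mem_ofPred_eq, mem_empty_iff_false, iff_false, not_lt]
      exact (hlow _).le
    rw [this]
    simp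
  rw [setIntegral_congr_set e1, e2] at key
  have hi2 : Integrable (fun o => -lam * g (C.pt o) ^ 2 + 1 * gn C h o ^ 2) C.μ :=
    (hgi.const_mul (-lam)).add ((int_gn_sq C lh).const_mul 1)
  have e3 : ∫ o in {o | h (C.pt o) < 0}, (-lam * g (C.pt o) ^ 2 + 1 * gn C h o ^ 2) ∂C.μ ≤
      ∫ o, (-lam * g (C.pt o) ^ 2 + gn C g o ^ 2) ∂C.μ := by
    rw [← integral_indicator₀ (meas_pt_lt C lh 0)]
    refine integral_mono_ae (hi2.indicator₀ (meas_pt_lt C lh 0))
      ((hgi.const_mul (-lam)).add (int_gn_sq C hg)) ?_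
    filter_upwards [gn_abs C hg] with o h1
    have h2 : gn C h o = gn C g o := by
      rw [← h1]
      exact gn_neg C (fun x => |g x|) o
    change {o | h (C.pt o) < 0}.indicator (fun o => -lam * g (C.pt o) ^ 2 + 1 * gn C h o ^ 2) o ≤
      -lam * g (C.pt o) ^ 2 + gn C g o ^ 2
    by_cases h3 : h (C.pt o) < 0
    · have m3 : o ∈ {o | h (C.pt o) < 0} := h3
      rw [indicator_of_mem m3, h2, one_mul]
    · have m3 : o ∉ {o | h (C.pt o) < 0} := h3
      have h4 : g (C.pt o) = 0 := by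
        have h5 : |g (C.pt o)| ≤ 0 := by
          have : ¬ (-|g (C.pt o)| < 0) := h3
          linarith
        exact abs_nonpos_iff.1 h5
      rw [indicator_of_notMem m3, h4]
      have := sq_nonneg (gn C g o)
      nlinarith
  have e4 : ∫ o, (-lam * g (C.pt o) ^ 2 + gn C g o ^ 2) ∂C.μ =
      -lam * (∫ o, g (C.pt o) ^ 2 ∂C.μ) + ∫ o, gn C g o ^ 2 ∂C.μ := by
    rw [← integral_const_mul]
    exact integral_add (hgi.const_mul (-lam)) (int_gn_sq C hg)
  have e5 : fO lam V (0 - ε) = lam * (0 - ε) := if_pos (by linarith)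
  rw [e5] at key
  have e6 : -(0 : ℝ) ^ 2 * fO lam V (inf' C h 0 - ε) - -(-(R + 1)) ^ 2 * (lam * (0 - ε)) =
      -(lam * (ε * (R + 1) ^ 2)) := by ring
  have e7 := key.trans e3
  rw [e4] at e7
  have e8 := e6 ▸ e7
  linarith

end Pool.Agent.FPM
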