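import Mathlib
import Pool.Agent.FPM.DBM
import Pool.Agent.FPM.I58X
import Pool.Agent.FPM.I58LV

/-
PCG (helper80): the pieces of the perimeter at a level where no component of the perimeter reaches two
opposite points of the curve (adapted from helper19's I57C, I58P, I58X), and the isoperimetric inequality
for functions that are even along the curve, for all areas.
-/

open MeasureTheory Set Filter Topology
open scoped ENNReal NNReal

noncomputable section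

namespace Pool.Agent.FPM

open Pool.Agent.EWD Pool.Agent.FPX

variable {M : Type} [MetricSpace M] {γ : ℝ → M}

/-- no connected part of the perimeter comes close to two opposite points of the curve -/
def NoOpp (γ : ℝ → M) (g : M → ℝ) (t ρ : ℝ) : Prop :=
  ∀ A : Set M, IsPreconnected A → A ⊆ Kt γ g t → ∀ s : ℝ,
    (∃ a ∈ A, dist (γ s) a ≤ ρ) → (∃ a ∈ A, dist (γ (s + Real.pi)) a ≤ ρ) → False

/-- the pieces at a level where no component of the perimeter reaches two opposite points -/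
theorem pcs_det_no [CompactSpace M] (C : Calc M γ) (hγ : Bd γ) {g : M → ℝ} (hg : Lip g)
    (hev : ∀ s, g (γ (s + Real.pi)) = g (γ s)) {H : Om → ℝ} (hH : Integrable H C.μ)
    (hH0 : ∀ᵐ o ∂C.μ, 0 ≤ H o)
    {Z : ℕ → M → ℝ} (hZl : ∀ n, Lip (Z n)) (hZ0 : ∀ n x, 0 ≤ Z n x) (hZ1 : ∀ n x, Z n x ≤ 1)
    (hZc : ∀ K P : Set M, Pc K P → ∃ n, Cut (Z n) K P) {t : ℝ}
    (hdif : ∀ n, DifferentiableAt ℝ (mz C H g (Z n)) t)
    (hdif1 : DifferentiableAt ℝ (mz C H g fun _ => 1) t)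
    (htri : ∀ n, Adc γ g t (Z n) → ∀ A : Set M, IsPreconnected A →
      (∀ x ∈ A, x ∈ Kt γ g t ∧ Z n x = 1) → ∀ ρ : ℝ, ∀ x y z : M,
      (∃ a ∈ A, dist x a ≤ ρ) → (∃ a ∈ A, dist y a ≤ ρ) → (∃ a ∈ A, dist z a ≤ ρ) →
      dist x y + dist y z + dist z x ≤ deriv (mz C H g (Z n)) t + Gz γ g t (Z n) + 6 * ρ)
    (hftw : ∀ n, Adc γ g t (Z n) → min (Gz γ g t (Z n)) (2 * Real.pi - Gz γ g t (Z n)) ≤
      deriv (mz C H g (Z n)) t)
    (hS2 : deriv (mz C H g fun _ => 1) t < 2 * Real.pi) {ρ₀ : ℝ} (hρ₀ : 0 < ρ₀)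
    (hno : NoOpp γ g t ρ₀) {θ : ℝ} (hθ : 0 < θ) (hθπ : θ < Real.pi) :
    ∃ (k : ℕ) (A : Fin k → Set M), ∀ θ' : ℝ, 0 < θ' → ∃ (m : ℕ) (n : Fin k ⊕ Fin m → ℕ)
      (O : Fin k ⊕ Fin m → Set M), Pcs C H g t θ θ' A (fun i => Z (n i)) O ∧
      ∀ i, deriv (mz C H g (Z (n i))) t + Gz γ g t (Z (n i)) ≤ deriv (mz C H g fun _ => 1) t := by
  classical
  have hK := Kt_closed hγ hg.cont t
  have Snn : ∀ n, 0 ≤ deriv (mz C H g (Z n)) t := fun n =>
    mz_deriv_nonneg C hg (hZl n) (hZ0 n) (hZ1 n) hH hH0 t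
  set S := deriv (mz C H g fun _ => 1) t with hS
  set G := Gz γ g t (fun _ => 1) with hG
  set Fam : ℕ → Prop := fun k => ∃ x y : Fin k → M, (∀ i, x i ∈ Kt γ g t) ∧
    (∀ i j, i ≠ j → x j ∉ connectedComponentIn (Kt γ g t) (x i)) ∧
    (∀ i, y i ∈ connectedComponentIn (Kt γ g t) (x i)) ∧ ∀ i, θ / 4 ≤ dist (x i) (y i) with hFam
  set N : ℕ := ⌊(S + G) / (θ / 2)⌋₊ with hN
  have bound : ∀ k, Fam k → k ≤ N := by
    rintro k ⟨x, y, hx, hd, hy, hxy⟩
    have h1 := count57 C hγ hg hH hH0 hZl hZ0 hZ1 hZc hdif hdif1 htri hx hd hy hxy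
    refine Nat.le_floor ?_
    rw [le_div_iff₀ (by linarith)]
    exact h1
  have fam0 : Fam 0 := ⟨Fin.elim0, Fin.elim0, fun i => i.elim0, fun i => i.elim0, fun i => i.elim0,
    fun i => i.elim0⟩
  set k := Nat.findGreatest Fam N with hk
  have famk : Fam k := Nat.findGreatest_spec (Nat.zero_le N) fam0
  have nfam : ¬ Fam (k + 1) := fun h =>
    Nat.findGreatest_is_greatest (Nat.lt_succ_self k) (bound _ h) h
  obtain ⟨x, y, hx, hd, hy, hxy⟩ := famk
  -- other components are small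
  have hsm : ∀ a ∈ Kt γ g t, (∀ i, a ∉ connectedComponentIn (Kt γ g t) (x i)) →
      ∀ b ∈ connectedComponentIn (Kt γ g t) a, dist a b ≤ θ / 4 := by
    intro a ha hna b hb
    by_contra hcon
    rw [not_le] at hcon
    refine nfam ⟨Fin.cons a x, Fin.cons b y, ?_, ?_, ?_, ?_⟩
    · intro i
      refine Fin.cases ?_ (fun i => ?_) i
      · exact ha
      · exact hx i
    · intro i j
      refine Fin.cases ?_ (fun i => ?_) i
      · refine Fin.cases ?_ (fun j => ?_) j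
        · exact fun h => absurd rfl h
        · intro _
          simp only [Fin.cons_zero, Fin.cons_succ]
          intro h1
          refine hna j ?_
          rw [← connectedComponentIn_eq h1]
          exact mem_connectedComponentIn ha
      · refine Fin.cases ?_ (fun j => ?_) j
        · intro _
          simp only [Fin.cons_zero, Fin.cons_succ]
          exact hna i
        · intro hij
          simp only [Fin.cons_succ]
          exact hd i j fun h => hij (by rw [h])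
    · intro i
      refine Fin.cases ?_ (fun i => ?_) i
      · exact hb
      · exact hy i
    · intro i
      refine Fin.cases ?_ (fun i => ?_) i
      · exact hcon.le
      · exact hxy i
  refine ⟨k, fun i => connectedComponentIn (Kt γ g t) (x i), fun θ' hθ' => ?_⟩
  -- the errors
  set ρ : ℝ := min (min (θ' / 6) ρ₀) ((2 * Real.pi - S) / 12) with hρ
  have hρ0 : 0 < ρ := lt_min (lt_min (by linarith) hρ₀) (by linarith)
  have hρ1 : 6 * ρ ≤ θ' := by
    have : ρ ≤ θ' / 6 := (min_le_left _ _).trans (min_le_left _ _)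
    linarith
  have hρ3 : ρ ≤ ρ₀ := (min_le_left _ _).trans (min_le_right _ _)
  have hρ2 : S + 6 * ρ < 2 * Real.pi := by
    have : ρ ≤ (2 * Real.pi - S) / 12 := min_le_right _ _
    linarith
  obtain ⟨m, P, hP, hPd, hPc, hPA, hPt, hPs⟩ := part57 hK hx hd hθ (ρ := ρ / 2) (by linarith) hsm
  obtain ⟨O, n, hOo, hOd, hPO, hOP, hO1, hO0, hadc, hsS, hsG⟩ :=
    part_len C hγ hg hH hZl hZ0 hZ1 hZc hdif hdif1 hP hPd hPc (r0 := min (ρ / 2) (θ / 8))
      (lt_min (by linarith) (by linarith))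
  have near : ∀ i : Fin k, ∀ w ∈ O (Sum.inl i), ∃ a ∈ connectedComponentIn (Kt γ g t) (x i),
      dist w a ≤ ρ := by
    intro i w hw
    obtain ⟨b, hb, hwb⟩ := Metric.mem_thickening_iff.1 (hOP _ hw)
    obtain ⟨a, ha, hba⟩ := Metric.mem_thickening_iff.1 (hPt i hb)
    refine ⟨a, ha, ?_⟩
    have h1 := dist_triangle w b a
    have h2 := min_le_left (ρ / 2) (θ / 8)
    linarith
  have per : ∀ i : Fin k, ∀ x ∈ O (Sum.inl i), ∀ y ∈ O (Sum.inl i), ∀ z ∈ O (Sum.inl i),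
      dist x y + dist y z + dist z x ≤
        deriv (mz C H g (Z (n (Sum.inl i)))) t + Gz γ g t (Z (n (Sum.inl i))) + 6 * ρ := by
    intro i a ha b hb c hc
    exact htri _ (hadc (Sum.inl i)) _ (isPreconnected_connectedComponentIn (x := x i)
      (F := Kt γ g t)) (fun w hw => ⟨connectedComponentIn_subset _ _ hw,
        hO1 _ _ (hPO _ (hPA i hw))⟩) ρ a b c (near i a ha) (near i b hb) (near i c hc)
  have dust : ∀ j : Fin m, ∀ x ∈ O (Sum.inr j), ∀ y ∈ O (Sum.inr j), dist x y ≤ θ := by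
    intro j a ha b hb
    obtain ⟨a', ha', haa⟩ := Metric.mem_thickening_iff.1 (hOP _ ha)
    obtain ⟨b', hb', hbb⟩ := Metric.mem_thickening_iff.1 (hOP _ hb)
    have h1 := hPs j a' ha' b' hb'
    have h2 := dist_triangle4 a a' b' b
    rw [dist_comm b' b] at h2
    have h3 := min_le_right (ρ / 2) (θ / 8)
    linarith
  -- no opposite points in one piece
  have hopp : ∀ i s, γ s ∈ O i → γ (s + Real.pi) ∉ O i := by
    rintro (i | j) s h1 h2
    · obtain ⟨a, ha, h3⟩ := near i _ h1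
      obtain ⟨b, hb, h4⟩ := near i _ h2
      exact hno _ isPreconnected_connectedComponentIn (connectedComponentIn_subset _ _) s
        ⟨a, ha, h3.trans hρ3⟩ ⟨b, hb, h4.trans hρ3⟩
    · have h3 := dust j _ h1 _ h2
      have h4 := hγ.anti s
      linarith
  have hcovO : Kt γ g t ⊆ ⋃ i, O i := hPc.trans (iUnion_mono hPO)
  -- the traces
  set T : Fin k ⊕ Fin m → Set ℝ := fun i => {s | γ s ∈ O i ∧ t < g (γ s)} with hTd
  have hZi : ∀ (i : Fin k ⊕ Fin m) (s : ℝ), t ≤ g (γ s) → (Z (n i) (γ s) = 1 ↔ γ s ∈ O i) := by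
    intro i s hs
    refine ⟨fun h1 => ?_, hO1 i _⟩
    obtain ⟨j, hj⟩ := mem_iUnion.1 (hcovO (Or.inr ⟨⟨s, rfl⟩, hs⟩))
    by_cases hij : i = j
    · rwa [hij]
    · rw [hO0 i j hij _ hj] at h1
      exact absurd h1 zero_ne_one
  have hTA : ∀ i, Apt γ g t (Z (n i)) = T i := by
    intro i
    ext s
    simp only [Apt, hTd, mem_ofPred_eq]
    constructor
    · rintro ⟨h1, h2⟩
      exact ⟨(hZi i s h2.le).1 h1, h2⟩
    · rintro ⟨h1, h2⟩
      exact ⟨(hZi i s h2.le).2 h1, h2⟩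
  have hGz : ∀ i, Gz γ g t (Z (n i)) = (volume (T i ∩ Ioc 0 (2 * Real.pi))).toReal := by
    intro i
    unfold Gz
    rw [hTA i]
  have hTm : ∀ i, MeasurableSet (T i) := fun i => by
    rw [← hTA i]
    exact meas_Apt hγ hg (hZl _) t
  have hTp : ∀ i s, s + 2 * Real.pi ∈ T i ↔ s ∈ T i := fun i s => by
    simp only [hTd, mem_ofPred_eq, hγ.per]
  have hTdj : ∀ i j, i ≠ j → Disjoint (T i) (T j) := by
    intro i j hij
    rw [Set.disjoint_left]
    rintro s ⟨h1, -⟩ ⟨h2, -⟩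
    exact Set.disjoint_left.1 (hOd i j hij) h1 h2
  have hGG : ∀ i, Gz γ g t (Z (n i)) ≤ ∑ j ∈ Finset.univ.erase i, Gz γ g t (Z (n j)) := by
    intro i
    have h1 := trace_anti hTm hTp hTdj i (by
      rintro s ⟨h2, h3⟩
      have h4 : t < g (γ (s + Real.pi)) := by rw [hev]; exact h3
      obtain ⟨j, hj⟩ := mem_iUnion.1 (hcovO (Or.inr ⟨⟨s + Real.pi, rfl⟩, h4.le⟩))
      refine ⟨j, fun hij => ?_, hj, h4⟩
      rw [hij] at hj
      exact hopp i s h2 hj)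
    simp only [← hGz] at h1
    exact h1
  have hGS : ∀ i, Gz γ g t (Z (n i)) ≤ deriv (mz C H g (Z (n i))) t := by
    intro i
    have h1 := hftw _ (hadc i)
    have h2 := Finset.add_sum_erase Finset.univ (fun j => Gz γ g t (Z (n j))) (Finset.mem_univ i)
    rw [hsG] at h2
    have h3 := hGG i
    have h4 : G ≤ 2 * Real.pi := Gz_le γ g t _
    rwa [min_eq_left (by linarith)] at h1
  have SGle : ∀ i, deriv (mz C H g (Z (n i))) t + Gz γ g t (Z (n i)) ≤ S := by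
    intro i
    have h1 := hGG i
    have h2 : ∑ j ∈ Finset.univ.erase i, Gz γ g t (Z (n j)) ≤
        ∑ j ∈ Finset.univ.erase i, deriv (mz C H g (Z (n j))) t :=
      Finset.sum_le_sum fun j _ => hGS j
    have h3 := Finset.add_sum_erase Finset.univ (fun j => deriv (mz C H g (Z (n j))) t)
      (Finset.mem_univ i)
    rw [hsS] at h3
    linarith
  -- the trace of a piece
  have trace : ∀ i, ∀ s, γ s ∈ O i → t ≤ g (γ s) → γ s ∈ P i := by
    intro i s h1 h2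
    have h3 : γ s ∈ Kt γ g t := Or.inr ⟨mem_range_self s, h2⟩
    obtain ⟨j, hj⟩ := mem_iUnion.1 (hPc h3)
    by_cases hij : j = i
    · rwa [hij] at hj
    · exact absurd h1 (Set.disjoint_left.1 (hOd j i hij) (hPO j hj))
  refine ⟨m, n, O, ⟨hOo, hOd, hcovO, hO1, hO0, hadc, fun i => hdif _,
    fun i => Snn _, fun i => Gz_nonneg _ _ _ _, hsS, hsG, hGS, dust,
    fun i => isPreconnected_connectedComponentIn, fun i => ⟨x i, mem_connectedComponentIn (hx i)⟩,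
    fun i => connectedComponentIn_subset _ _, fun i => (hPA i).trans (hPO _), ?_, ?_, ?_⟩, SGle⟩
  · intro i w hw
    obtain ⟨a, ha, h1⟩ := near i w hw
    exact ⟨a, ha, by linarith⟩
  · intro i a ha b hb c hc
    have := per i a ha b hb c hc
    linarith
  · intro i
    by_cases hne : ∃ s, γ s ∈ P (Sum.inl i) ∩ {w | t ≤ g w}
    · right
      obtain ⟨p, q, hpq, hqp, hp, hq, htr⟩ := hull hγ
        ((hP (Sum.inl i)).cl.inter (isClosed_le continuous_const hg.cont)) hne (by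
          intro a b c ha hb hc
          have h1 := per i _ (hPO _ ha.1) _ (hPO _ hb.1) _ (hPO _ hc.1)
          have h2 := SGle (Sum.inl i)
          linarith)
      exact ⟨p, q, hpq, hqp, ⟨hPO _ hp.1, hp.2⟩, ⟨hPO _ hq.1, hq.2⟩, fun s h1 h2 =>
        htr s ⟨trace _ s h1 h2, h2⟩⟩
    · left
      intro s hs
      by_contra h1
      rw [not_lt] at h1
      exact hne ⟨s, trace _ s hs h1, h1⟩

/-- the pieces at almost every level -/
theorem pcs0_no [CompactSpace M] (C : Calc M γ) (hγ : Bd γ) (hR : RegPl C) {g : M → ℝ} (hg : Lip g)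
    (hev : ∀ s, g (γ (s + Real.pi)) = g (γ s)) {H : Om → ℝ} (hH : Integrable H C.μ)
    (hpg : ∀ p : M → ℝ, LipschitzWith 1 p → ∀ᵐ o ∂C.μ, |C.wed p g o| ≤ H o)
    {Z : ℕ → M → ℝ} (hZl : ∀ n, Lip (Z n)) (hZ0 : ∀ n x, 0 ≤ Z n x) (hZ1 : ∀ n x, Z n x ≤ 1)
    (hZc : ∀ K P : Set M, Pc K P → ∃ n, Cut (Z n) K P) :
    ∀ᵐ t : ℝ, DifferentiableAt ℝ (mz C H g fun _ => 1) t ∧
      (deriv (mz C H g fun _ => 1) t < 2 * Real.pi → ∀ ρ₀ : ℝ, 0 < ρ₀ → NoOpp γ g t ρ₀ →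
      ∀ θ : ℝ, 0 < θ → θ < Real.pi → ∃ (k : ℕ) (A : Fin k → Set M), ∀ θ' : ℝ, 0 < θ' → ∃ (m : ℕ)
        (n : Fin k ⊕ Fin m → ℕ) (O : Fin k ⊕ Fin m → Set M),
        Pcs C H g t θ θ' A (fun i => Z (n i)) O ∧
        ∀ i, deriv (mz C H g (Z (n i))) t + Gz γ g t (Z (n i)) ≤ deriv (mz C H g fun _ => 1) t) := by
  have hH0 : ∀ᵐ o ∂C.μ, 0 ≤ H o := by
    filter_upwards [hpg (fun _ => 0) ((LipschitzWith.const 0).weaken zero_le_one)] with o ho
    exact (abs_nonneg _).trans ho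
  have hl1 : Lip (fun _ : M => (1 : ℝ)) := lip_const 1
  have a2 : ∀ᵐ t : ℝ, ∀ n : ℕ, DifferentiableAt ℝ (mz C H g (Z n)) t := by
    rw [ae_all_iff]
    intro n
    exact (mz_mono C hg (hZl n) (hZ0 n) (hZ1 n) hH hH0).ae_differentiableAt
  have a3 : ∀ᵐ t : ℝ, DifferentiableAt ℝ (mz C H g fun _ => 1) t :=
    (mz_mono C hg hl1 (fun _ => zero_le_one) (fun _ => le_rfl) hH hH0).ae_differentiableAt
  filter_upwards [TRI0 C hγ hR hg hH hpg hZl hZ0 hZ1, a2, a3] with t t1 t2 t3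
  refine ⟨t3, fun hS2 ρ₀ hρ₀ hno θ hθ hθπ => ?_⟩
  exact pcs_det_no C hγ hg hev hH hH0 hZl hZ0 hZ1 hZc t2 t3 t1
    (fun n hn => FTW C hγ hg hn hH hpg (t2 n).hasDerivAt) hS2 hρ₀ hno hθ hθπ

/-- the pieces at almost every level, with the integrals of the defect -/
theorem pcs58_no [CompactSpace M] (C : Calc M γ) (hγ : Bd γ) (hR : RegPl C) {g : M → ℝ} (hg : Lip g)
    (hev : ∀ s, g (γ (s + Real.pi)) = g (γ s)) {H : Om → ℝ} (hH : Integrable H C.μ)
    (hpg : ∀ p : M → ℝ, LipschitzWith 1 p → ∀ᵐ o ∂C.μ, |C.wed p g o| ≤ H o)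
    {Z : ℕ → M → ℝ} (hZl : ∀ n, Lip (Z n)) (hZ0 : ∀ n x, 0 ≤ Z n x) (hZ1 : ∀ n x, Z n x ≤ 1)
    (hZc : ∀ K P : Set M, Pc K P → ∃ n, Cut (Z n) K P) :
    ∀ᵐ t : ℝ, DifferentiableAt ℝ (mz C H g fun _ => 1) t ∧
      (∀ (e1 e2 : ℚ) (n : ℕ), (e1 : ℝ) ≤ e2 → (e2 : ℝ) ≤ e1 + Real.pi →
        DifferentiableAt ℝ (mz C (fun o => dE γ e1 e2 (C.pt o) * H o) g (Z n)) t) ∧
      (∀ (e1 e2 : ℚ) (n : ℕ), (e1 : ℝ) ≤ e2 → (e2 : ℝ) ≤ e1 + Real.pi →
        DifferentiableAt ℝ (mz C (fun o => dE γ e1 e2 (C.pt o) * |C.wed (sE γ e1 e2) g o|) g (Z n)) t) ∧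
      (deriv (mz C H g fun _ => 1) t < 2 * Real.pi → ∀ ρ₀ : ℝ, 0 < ρ₀ → NoOpp γ g t ρ₀ →
      ∀ θ : ℝ, 0 < θ → θ < Real.pi → ∃ (k : ℕ) (A : Fin k → Set M), ∀ θ' : ℝ, 0 < θ' → ∃ (m : ℕ)
        (n : Fin k ⊕ Fin m → ℕ) (O : Fin k ⊕ Fin m → Set M),
        Pcs C H g t θ θ' A (fun i => Z (n i)) O ∧
        (∀ i, deriv (mz C H g (Z (n i))) t + Gz γ g t (Z (n i)) ≤ deriv (mz C H g fun _ => 1) t) ∧
        (∀ (i : Fin k) (p q : ℝ), p ≤ q → q < p + Real.pi → γ p ∈ O (Sum.inl i) →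
          γ q ∈ O (Sum.inl i) →
          (∀ s, γ s ∈ O (Sum.inl i) → t ≤ g (γ s) → ∃ m : ℤ, s + m * (2 * Real.pi) ∈ Icc p q) →
          ∀ e1 e2 D : ℝ, e1 ≤ p → q ≤ e2 →
          HasDerivAt (mz C (fun o => dE γ e1 e2 (C.pt o) * H o) g (Z (n (Sum.inl i)))) D t →
          D ≤ (deriv (mz C H g (Z (n (Sum.inl i)))) t ^ 2 -
            (2 * (q - p) - Gz γ g t (Z (n (Sum.inl i)))) ^ 2) / 4 + θ') ∧
        (∀ (i : Fin k) (p q : ℝ), p ≤ q → q < p + Real.pi → γ p ∈ O (Sum.inl i) →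
          γ q ∈ O (Sum.inl i) →
          (∀ s, γ s ∈ O (Sum.inl i) → t ≤ g (γ s) → ∃ m : ℤ, s + m * (2 * Real.pi) ∈ Icc p q) →
          ∀ e1 e2 : ℚ, (e1 : ℝ) ≤ p → q ≤ e2 → (e2 : ℝ) ≤ e1 + Real.pi → ∀ D D' : ℝ,
          HasDerivAt (mz C (fun o => dE γ e1 e2 (C.pt o) * H o) g (Z (n (Sum.inl i)))) D t →
          HasDerivAt (mz C (fun o => dE γ e1 e2 (C.pt o) * |C.wed (sE γ e1 e2) g o|) g
            (Z (n (Sum.inl i)))) D' t →
          ∃ a : ℝ, 2 * (q - p) - Gz γ g t (Z (n (Sum.inl i))) ≤ a ∧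
            a ≤ deriv (mz C H g (Z (n (Sum.inl i)))) t + θ' ∧
            D + D' ≤ (deriv (mz C H g (Z (n (Sum.inl i)))) t - a) *
              (deriv (mz C H g (Z (n (Sum.inl i)))) t + 3 * a) / 4 + θ')) := by
  have hH0 : ∀ᵐ o ∂C.μ, 0 ≤ H o := by
    filter_upwards [hpg (fun _ => 0) ((LipschitzWith.const 0).weaken zero_le_one)] with o ho
    exact (abs_nonneg _).trans ho
  have bdE : ∀ (e1 e2 : ℝ) (K : Om → ℝ), Integrable K C.μ →
      Integrable (fun o => dE γ e1 e2 (C.pt o) * K o) C.μ := fun e1 e2 K hK =>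
    hK.bdd_mul (c := Metric.diam (univ : Set M) + |e2 - e1|)
      (C.meas_pt (lip_dEpc γ _ _)).aestronglyMeasurable (Eventually.of_forall fun o => by
        rw [Real.norm_eq_abs]
        exact dE_le57 γ _ _ _)
  have aK : ∀ K : ℚ → ℚ → Om → ℝ, (∀ e1 e2, Integrable (K e1 e2) C.μ) →
      (∀ e1 e2, ∀ᵐ o ∂C.μ, 0 ≤ K e1 e2 o) →
      ∀ᵐ t : ℝ, ∀ (e1 e2 : ℚ) (n : ℕ), (e1 : ℝ) ≤ e2 → (e2 : ℝ) ≤ e1 + Real.pi →
      DifferentiableAt ℝ (mz C (fun o => dE γ e1 e2 (C.pt o) * K e1 e2 o) g (Z n)) t := by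
    intro K hK hK0
    rw [ae_all_iff]
    intro e1
    rw [ae_all_iff]
    intro e2
    rw [ae_all_iff]
    intro n
    by_cases h1 : (e1 : ℝ) ≤ e2
    · by_cases h2 : (e2 : ℝ) ≤ e1 + Real.pi
      · have i2 : ∀ᵐ o ∂C.μ, 0 ≤ dE γ e1 e2 (C.pt o) * K e1 e2 o := by
          filter_upwards [hK0 e1 e2] with o ho
          exact mul_nonneg (dE_nonneg57 hγ h1 h2 _) ho
        filter_upwards [(mz_mono C hg (hZl n) (hZ0 n) (hZ1 n) (bdE e1 e2 _ (hK e1 e2)) i2).ae_differentiableAt]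
          with t ht _ _
        exact ht
      · exact Eventually.of_forall fun t _ h => absurd h h2
    · exact Eventually.of_forall fun t h => absurd h h1
  filter_upwards [pcs0_no C hγ hR hg hev hH hpg hZl hZ0 hZ1 hZc, aK (fun _ _ => H) (fun _ _ => hH) (fun _ _ => hH0),
    aK (fun e1 e2 o => |C.wed (sE γ e1 e2) g o|)
      (fun e1 e2 => (integrable_wed C ⟨1, sE_lip58 γ e1 e2⟩ hg).abs)
      (fun e1 e2 => Eventually.of_forall fun o => abs_nonneg _),
    TRI C hγ hR hg hH hpg hZl hZ0 hZ1, TRI58 C hγ hR hg hH hpg hZl hZ0 hZ1] with t t1 t2 t2' t3 t4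
  refine ⟨t1.1, t2, t2', fun hS2 ρ₀ hρ₀ hno θ hθ hθπ => ?_⟩
  obtain ⟨k, A, h3⟩ := t1.2 hS2 ρ₀ hρ₀ hno θ hθ hθπ
  refine ⟨k, A, fun θ' hθ' => ?_⟩
  obtain ⟨m, n, O, h4, h4S⟩ := h3 (min (θ' / 1000) 1) (lt_min (by linarith) one_pos)
  have hle : min (θ' / 1000) 1 ≤ θ' := (min_le_left _ _).trans (by linarith)
  have hle2 : min (θ' / 1000) 1 ≤ θ' / 1000 := min_le_left _ _
  obtain ⟨δ, hδ, hδO⟩ := TMB_lev hg.cont (isOpen_iUnion h4.op) (t := t) fun x hx => h4.cov (Or.inl hx)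
  have hK : ∀ i, ∀ x ∈ Kt γ g t, Z (n (Sum.inl i)) x ≠ 0 → x ∈ O (Sum.inl i) := by
    intro i x hx h5
    obtain ⟨j, hj⟩ := mem_iUnion.1 (h4.cov hx)
    by_cases h6 : j = Sum.inl i
    · rwa [h6] at hj
    · exact absurd (h4.zer (Sum.inl i) j (Ne.symm h6) x hj) h5
  have hSGi : ∀ i, deriv (mz C H g (Z (n (Sum.inl i)))) t + Gz γ g t (Z (n (Sum.inl i))) < 2 * Real.pi :=
    fun i => (h4S (Sum.inl i)).trans_lt hS2
  refine ⟨m, n, O, h4.mono hle, h4S, fun i p q hpq hqp hp hq hull e1 e2 D he1 he2 hD => ?_,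
    fun i p q hpq hqp hp hq hull e1 e2 he1 he2 he3 D D' hD hD' => ?_⟩
  · obtain ⟨a, ha, hpa⟩ := h4.near i _ hp
    obtain ⟨b, hb, hqb⟩ := h4.near i _ hq
    rw [dist_comm] at hpa hqb
    have key := t3 (n (Sum.inl i)) (h4.adc (Sum.inl i)) (A i) p q (min (θ' / 1000) 1) (h4.conn i)
      (fun x hx => ⟨h4.AK i hx, h4.one (Sum.inl i) x (h4.AO i hx)⟩) hpq hqp
      (lt_min (by linarith) one_pos) (min_le_right _ _) ⟨a, ha, hpa⟩ ⟨b, hb, hqb⟩
      (fun s hs1 hs2 => hull s (hK i _ (Or.inr ⟨mem_range_self s, hs2⟩) (by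
        rw [hs1]
        exact one_ne_zero)) hs2)
      ⟨δ, hδ, fun x hx hx' => by
        obtain ⟨j, hj⟩ := mem_iUnion.1 (hδO x hx)
        by_cases h6 : j = Sum.inl i
        · rw [h6] at hj
          exact h4.near i x hj
        · exact absurd (h4.zer (Sum.inl i) j (Ne.symm h6) x hj) hx'⟩ (hSGi i) e1 e2 D he1 he2 hD
    linarith
  · obtain ⟨a, ha, hpa⟩ := h4.near i _ hp
    obtain ⟨b, hb, hqb⟩ := h4.near i _ hq
    rw [dist_comm] at hpa hqb
    obtain ⟨c, hc1, hc2, hc3⟩ := t4 e1 e2 (by linarith) he3 (n (Sum.inl i)) (h4.adc (Sum.inl i)) (A i) p q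
      (min (θ' / 1000) 1) (h4.conn i)
      (fun x hx => ⟨h4.AK i hx, h4.one (Sum.inl i) x (h4.AO i hx)⟩) hpq hqp
      (lt_min (by linarith) one_pos) (min_le_right _ _) ⟨a, ha, hpa⟩ ⟨b, hb, hqb⟩
      (fun s hs1 hs2 => hull s (hK i _ (Or.inr ⟨mem_range_self s, hs2⟩) (by
        rw [hs1]
        exact one_ne_zero)) hs2)
      ⟨δ, hδ, fun x hx hx' => by
        obtain ⟨j, hj⟩ := mem_iUnion.1 (hδO x hx)
        by_cases h6 : j = Sum.inl i
        · rw [h6] at hj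
          exact h4.near i x hj
        · exact absurd (h4.zer (Sum.inl i) j (Ne.symm h6) x hj) hx'⟩ (hSGi i) he1 he2 D D' hD hD'
    exact ⟨c, hc1, by linarith, by linarith⟩

/-- the data of the pieces of a function that is even along the curve -/
theorem lp_of_pcs58G [CompactSpace M] (C : Calc M γ) (hγ : Bd γ) {f : M → ℝ} (hf : Lip f)
    (hev : ∀ s, f (γ (s + Real.pi)) = f (γ s)) {t θ θ' θ₀ θ₀' : ℝ} (hθ : θ₀ ≤ θ) (hθ1 : θ₀ < Real.pi)
    (hθ' : θ₀' ≤ θ') {k m : ℕ} {A : Fin k → Set M} {Z : Fin k ⊕ Fin m → M → ℝ}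
    {O : Fin k ⊕ Fin m → Set M} (hP : Pcs C (gn C f) f t θ₀ θ₀' A Z O)
    (hsm : ∀ i : Fin k, deriv (mz C (gn C f) f (Z (Sum.inl i))) t + Gz γ f t (Z (Sum.inl i)) + θ₀' <
      2 * Real.pi)
    (hT : ∀ (i : Fin k) (p q : ℝ), p ≤ q → q < p + Real.pi → γ p ∈ O (Sum.inl i) →
      γ q ∈ O (Sum.inl i) →
      (∀ s, γ s ∈ O (Sum.inl i) → t ≤ f (γ s) → ∃ m : ℤ, s + m * (2 * Real.pi) ∈ Icc p q) →
      ∀ e1 e2 D : ℝ, e1 ≤ p → q ≤ e2 →
      HasDerivAt (mz C (fun o => dE γ e1 e2 (C.pt o) * gn C f o) f (Z (Sum.inl i))) D t →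
      D ≤ (deriv (mz C (gn C f) f (Z (Sum.inl i))) t ^ 2 -
        (2 * (q - p) - Gz γ f t (Z (Sum.inl i))) ^ 2) / 4 + θ₀')
    (hT4 : ∀ (i : Fin k) (p q : ℝ), p ≤ q → q < p + Real.pi → γ p ∈ O (Sum.inl i) →
      γ q ∈ O (Sum.inl i) →
      (∀ s, γ s ∈ O (Sum.inl i) → t ≤ f (γ s) → ∃ m : ℤ, s + m * (2 * Real.pi) ∈ Icc p q) →
      ∀ e1 e2 : ℚ, (e1 : ℝ) ≤ p → q ≤ e2 → (e2 : ℝ) ≤ e1 + Real.pi → ∀ D D' : ℝ,
      HasDerivAt (mz C (fun o => dE γ e1 e2 (C.pt o) * gn C f o) f (Z (Sum.inl i))) D t →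
      HasDerivAt (mz C (fun o => dE γ e1 e2 (C.pt o) * |C.wed (sE γ e1 e2) f o|) f
        (Z (Sum.inl i))) D' t →
      ∃ a : ℝ, 2 * (q - p) - Gz γ f t (Z (Sum.inl i)) ≤ a ∧
        a ≤ deriv (mz C (gn C f) f (Z (Sum.inl i))) t + θ₀' ∧
        D + D' ≤ (deriv (mz C (gn C f) f (Z (Sum.inl i))) t - a) *
          (deriv (mz C (gn C f) f (Z (Sum.inl i))) t + 3 * a) / 4 + θ₀')
    (hdE : ∀ (e1 e2 : ℚ) i, DifferentiableAt ℝ
      (mz C (fun o => dE γ e1 e2 (C.pt o) * gn C f o) f (Z i)) t)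
    (hdS : ∀ (e1 e2 : ℚ) i, (e1 : ℝ) ≤ e2 → (e2 : ℝ) ≤ e1 + Real.pi → DifferentiableAt ℝ
      (mz C (fun o => dE γ e1 e2 (C.pt o) * |C.wed (sE γ e1 e2) f o|) f (Z i)) t) :
    ∃ (tr : Finset (Fin k ⊕ Fin m)) (p q : Fin k ⊕ Fin m → ℝ),
      LP58 C f t θ θ' (deriv (lev C f) t)
        (Finset.univ.image Sum.inl) tr Z O (fun i => deriv (mz C (gn C f) f (Z i)) t) p q := by
  classical
  have hpi := Real.pi_pos
  set Hd : Fin k ⊕ Fin m → ℝ → ℝ → Prop := fun i p q => p ≤ q ∧ q < p + Real.pi ∧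
    (γ p ∈ O i ∧ t ≤ f (γ p)) ∧ (γ q ∈ O i ∧ t ≤ f (γ q)) ∧
    ∀ s, γ s ∈ O i → t ≤ f (γ s) → ∃ n : ℤ, s + n * (2 * Real.pi) ∈ Icc p q with hHd
  have hch : ∀ i, ∃ p q, (∃ p q, Hd i p q) → Hd i p q := by
    intro i
    by_cases h : ∃ p q, Hd i p q
    · obtain ⟨p, q, hpq⟩ := h
      exact ⟨p, q, fun _ => hpq⟩
    · exact ⟨0, 0, fun h' => absurd h' h⟩
  choose p q hpq using hch
  have htr : ∀ i ∈ (Finset.univ.image Sum.inl).filter (fun i => ∃ p q, Hd i p q),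
      Hd i (p i) (q i) := fun i hi => hpq i (Finset.mem_filter.1 hi).2
  have hsumS : ∑ i, deriv (mz C (gn C f) f (Z i)) t = deriv (lev C f) t := by rw [hP.sumS, mz_one]
  -- the traces
  set T : Fin k ⊕ Fin m → Set ℝ := fun i => {s | γ s ∈ O i ∧ t < f (γ s)} with hTd
  have hZi : ∀ (i : Fin k ⊕ Fin m) (s : ℝ), t ≤ f (γ s) → (Z i (γ s) = 1 ↔ γ s ∈ O i) := by
    intro i s hs
    refine ⟨fun h1 => ?_, hP.one i _⟩
    obtain ⟨j, hj⟩ := mem_iUnion.1 (hP.cov (Or.inr ⟨⟨s, rfl⟩, hs⟩))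
    by_cases hij : i = j
    · rwa [hij]
    · rw [hP.zer i j hij _ hj] at h1
      exact absurd h1 zero_ne_one
  have hTA : ∀ i, Apt γ f t (Z i) = T i := by
    intro i
    ext s
    simp only [Apt, hTd, mem_ofPred_eq]
    constructor
    · rintro ⟨h1, h2⟩
      exact ⟨(hZi i s h2.le).1 h1, h2⟩
    · rintro ⟨h1, h2⟩
      exact ⟨(hZi i s h2.le).2 h1, h2⟩
  have hGz : ∀ i, Gz γ f t (Z i) = (volume (T i ∩ Ioc 0 (2 * Real.pi))).toReal := by
    intro i
    unfold Gz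
    rw [hTA i]
  have hTm : ∀ i, MeasurableSet (T i) := fun i => by
    rw [← hTA i]
    exact meas_Apt hγ hf (hP.adc i).lip t
  have hTp : ∀ i s, s + 2 * Real.pi ∈ T i ↔ s ∈ T i := fun i s => by
    simp only [hTd, mem_ofPred_eq, hγ.per]
  have hTdj : ∀ i j, i ≠ j → Disjoint (T i) (T j) := by
    intro i j hij
    rw [Set.disjoint_left]
    rintro s ⟨h1, -⟩ ⟨h2, -⟩
    exact Set.disjoint_left.1 (hP.dj i j hij) h1 h2
  have hdiam : ∀ i, ∀ x ∈ O i, ∀ y ∈ O i, dist x y < Real.pi := by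
    rintro (i | j) x hx y hy
    · have h1 := hP.diam i hx hy
      have h2 := hsm i
      linarith
    · exact (hP.dust j x hx y hy).trans_lt hθ1
  refine ⟨(Finset.univ.image Sum.inl).filter (fun i => ∃ p q, Hd i p q), p, q,
    ⟨hP.op, hP.dj, hP.cov, fun i => (hP.adc i).lip, fun i => (hP.adc i).lo, fun i => (hP.adc i).hi, hP.one,
      fun i j hij x hx => hP.zer i j (Ne.symm hij) x hx, fun i => (hP.der i).hasDerivAt, hP.GS, hsumS,
      ?_, ?_, ?_, Finset.filter_subset _ _, ?_, fun i hi => (htr i hi).1, fun i hi => (htr i hi).2.1,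
      fun i hi => (htr i hi).2.2.1, fun i hi => (htr i hi).2.2.2.1, fun i hi => (htr i hi).2.2.2.2, ?_⟩, ?_⟩
  · -- `S i + G i ≤ l`
    intro i
    have h1 := trace_anti hTm hTp hTdj i (by
      rintro s ⟨h2, h3⟩
      have h4 : t < f (γ (s + Real.pi)) := by rw [hev]; exact h3
      obtain ⟨j, hj⟩ := mem_iUnion.1 (hP.cov (Or.inr ⟨⟨s + Real.pi, rfl⟩, h4.le⟩))
      refine ⟨j, fun hij => ?_, hj, h4⟩
      rw [hij] at hj
      have h5 := hdiam i _ h2 _ hj
      have h6 := hγ.anti s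
      linarith)
    simp only [← hGz] at h1
    have h2 : ∑ j ∈ Finset.univ.erase i, Gz γ f t (Z j) ≤
        ∑ j ∈ Finset.univ.erase i, deriv (mz C (gn C f) f (Z j)) t :=
      Finset.sum_le_sum fun j _ => hP.GS j
    have h3 := Finset.add_sum_erase Finset.univ (fun j => deriv (mz C (gn C f) f (Z j)) t)
      (Finset.mem_univ i)
    rw [hsumS] at h3
    linarith
  · intro i hi
    rcases i with i | j
    · exact absurd (Finset.mem_image_of_mem _ (Finset.mem_univ i)) hi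
    · exact fun x hx y hy => (hP.dust j x hx y hy).trans hθ
  · intro i hi
    obtain ⟨j, -, rfl⟩ := Finset.mem_image.1 hi
    exact fun x hx y hy z hz => (hP.per j x hx y hy z hz).trans (by linarith)
  · intro i hi hi'
    obtain ⟨j, -, rfl⟩ := Finset.mem_image.1 hi
    intro s hs
    rcases hP.hull j with h | ⟨p, q, h⟩
    · exact h s hs
    · exact absurd (Finset.mem_filter.2 ⟨hi, p, q, h⟩) hi'
  · intro i hi e1 e2 n h1 h2
    have hH := htr i hi
    obtain ⟨j, -, hj⟩ := Finset.mem_image.1 (Finset.mem_filter.1 hi).1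
    subst hj
    have hd := (hdE e1 e2 (Sum.inl j)).hasDerivAt
    refine ⟨_, hd, ?_⟩
    have h3 := hT j (p _) (q _) hH.1 hH.2.1 hH.2.2.1.1 hH.2.2.2.1.1 hH.2.2.2.2
      (e1 + ((-n : ℤ) : ℝ) * (2 * Real.pi)) (e2 + ((-n : ℤ) : ℝ) * (2 * Real.pi)) _
      (by push_cast; linarith) (by push_cast; linarith) (by
        simp only [dE_int hγ]
        exact hd)
    linarith
  · intro i hi e1 e2 n h1 h2 h3
    have hH := htr i hi
    obtain ⟨j, -, hj⟩ := Finset.mem_image.1 (Finset.mem_filter.1 hi).1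
    subst hj
    have he : (e1 : ℝ) ≤ e2 := by linarith [hH.1]
    have hd := (hdE e1 e2 (Sum.inl j)).hasDerivAt
    have hd' := (hdS e1 e2 (Sum.inl j) he h3).hasDerivAt
    obtain ⟨a, a1, a2, a3⟩ := hT4 j (p (Sum.inl j) + n * (2 * Real.pi)) (q (Sum.inl j) + n * (2 * Real.pi))
      (by linarith [hH.1]) (by linarith [hH.2.1]) (by rw [gam_int hγ]; exact hH.2.2.1.1)
      (by rw [gam_int hγ]; exact hH.2.2.2.1.1)
      (fun s hs1 hs2 => by
        obtain ⟨m, hm1, hm2⟩ := hH.2.2.2.2 s hs1 hs2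
        refine ⟨m + n, ?_, ?_⟩
        · push_cast
          linarith
        · push_cast
          linarith)
      e1 e2 h1 h2 h3 _ _ hd hd'
    exact ⟨_, _, a, hd, hd', by linarith, by linarith, by linarith⟩

/-- the data at almost every level without opposite points in a component -/
theorem lpG58_ae [CompactSpace M] (hγ : Bd γ) (C : Calc M γ) (hR : RegPl C) {f : M → ℝ} (hf : Lip f)
    (hev : ∀ s, f (γ (s + Real.pi)) = f (γ s)) : ∀ᵐ t : ℝ,
    deriv (lev C f) t < 2 * Real.pi → ∀ ρ₀ : ℝ, 0 < ρ₀ → NoOpp γ f t ρ₀ →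
      LPall58 C f t (deriv (lev C f) t) := by
  classical
  have hpi := Real.pi_pos
  obtain ⟨Z, hZl, hZ0, hZ1, hZc⟩ := TMB_family (M := M)
  have dEa : ∀ᵐ t : ℝ, ∀ (e1 e2 : ℚ) (n : ℕ), DifferentiableAt ℝ
      (mz C (fun o => dE γ e1 e2 (C.pt o) * gn C f o) f (Z n)) t := by
    rw [ae_all_iff]
    intro e1
    rw [ae_all_iff]
    intro e2
    rw [ae_all_iff]
    intro n
    exact mz_diff_ae C hf (hZl n) (hZ0 n) (hZ1 n) (int_gn C hf)
      (Eventually.of_forall fun o => gn_nonneg C f o) (lip_dEpc γ _ _)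
  filter_upwards [pcs58_no C hγ hR hf hev (int_gn C hf) (fun p hp => gn_cs C hp) hZl hZ0 hZ1 hZc, dEa]
    with t s1 f1 hl ρ₀ hρ₀ hno
  obtain ⟨-, -, w1, s1⟩ := s1
  rw [mz_one] at s1
  intro θ hθ
  obtain ⟨k, A, s3⟩ := s1 hl ρ₀ hρ₀ hno (min θ 1) (lt_min hθ one_pos)
    ((min_le_right θ 1).trans_lt (by linarith [Real.pi_gt_three]))
  refine ⟨k, fun θ' hθ' => ?_⟩
  set d : ℝ := 2 * Real.pi - deriv (lev C f) t with hd
  have hd0 : 0 < d := by rw [hd]; linarith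
  obtain ⟨m, n, O, hP, hS, hT, hT4⟩ := s3 (min θ' (d / 2)) (lt_min hθ' (by linarith))
  obtain ⟨tr, p, q, H⟩ := lp_of_pcs58G C hγ hf hev (θ := θ) (θ' := θ') (min_le_left θ 1)
    ((min_le_right θ 1).trans_lt (by linarith [Real.pi_gt_three])) (min_le_left θ' (d / 2)) hP
    (fun i => by
      have h1 := min_le_right θ' (d / 2)
      have h2 := hS (Sum.inl i)
      linarith) hT hT4 (fun e1 e2 i => f1 e1 e2 (n i)) (fun e1 e2 i h1 h2 => w1 e1 e2 (n i) h1 h2)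
  refine ⟨Fin k ⊕ Fin m, inferInstance, inferInstance, _, _, _, _, _, _, _, ?_, H⟩
  refine Finset.card_image_le.trans ?_
  rw [Finset.card_univ, Fintype.card_fin]

/-- one of the two sides of a short level has no component that reaches opposite points -/
theorem noOpp_or [CompactSpace M] (C : Calc M γ) (hγ : Bd γ) (hR : RegPl C) {f : M → ℝ} (hf : Lip f)
    (hev : ∀ s, f (γ (s + Real.pi)) = f (γ s)) : ∀ᵐ t : ℝ, deriv (lev C f) t < 2 * Real.pi →
      ∃ ρ₀ : ℝ, 0 < ρ₀ ∧ (NoOpp γ f t ρ₀ ∨ NoOpp γ (fun x => -f x) (-t) ρ₀) := by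
  filter_upwards [DBM C hγ hR hf hev] with t ht hl
  refine ⟨(2 * Real.pi - deriv (lev C f) t) / 16, by linarith, ?_⟩
  by_contra hcon
  rw [not_or] at hcon
  obtain ⟨h1, h2⟩ := hcon
  unfold NoOpp at h1 h2
  push Not at h1 h2
  obtain ⟨A, hA, hAK, s, a1, a2, -⟩ := h1
  obtain ⟨A', hA', hAK', s', a3, a4, -⟩ := h2
  have h3 := ht A A' hA hA' hAK hAK' _ s s' a1 a2 a3 a4
  linarith

/-- **the isoperimetric inequality for functions that are even along the curve**, all areas -/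
theorem isop58 [CompactSpace M] (hγ : Bd γ) {C : Calc M γ} (hR : RegPl C) (hC : Colb C) {ε : ℝ}
    (hε : 0 ≤ ε) (hmin : NM C ε) (hv : C.vol ≤ 21 / 10 * Real.pi) :
    Isop C (10000 / 5439 * Real.pi) ε := by
  have hpi := Real.pi_pos
  have := C.fin
  intro f hf hev'
  have hev : ∀ s, f (γ (s + Real.pi)) = f (γ s) := hev'
  have hfn : Lip fun x => -f x := hf.neg
  have hevn : ∀ s, (fun x => -f x) (γ (s + Real.pi)) = (fun x => -f x) (γ s) := fun s => by
    simp only [hev]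
  have a1 : ∀ᵐ t : ℝ, DifferentiableAt ℝ (lev C f) t := (lev_mono C hf).ae_differentiableAt
  have a2 := lpG58_ae hγ C hR hf hev
  have a3 := lpG58_ae hγ C hR hfn hevn
  have a4 : ∀ᵐ t : ℝ, deriv (lev C fun x => -f x) (-t) < 2 * Real.pi → ∀ ρ₀ : ℝ, 0 < ρ₀ →
      NoOpp γ (fun x => -f x) (-t) ρ₀ → LPall58 C (fun x => -f x) (-t) (deriv (lev C fun x => -f x) (-t)) :=
    (Measure.measurePreserving_neg (volume : Measure ℝ)).quasiMeasurePreserving.ae a3
  filter_upwards [a1, a2, a4, noOpp_or C hγ hR hf hev, ae_level_null hγ hf, ae_level_mu C hf]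
    with t d1 s1 s2 hor hn hm
  refine ⟨d1, ?_⟩
  set l := deriv (lev C f) t with hl
  have hl0 : 0 ≤ l := (lev_mono C hf).deriv_nonneg
  have hsup : sup' C f t = (C.μ {o | t < f (C.pt o)}).toReal := by
    unfold sup'
    congr 1
    refine measure_congr ?_
    filter_upwards [compl_mem_ae_iff.2 hm] with o ho
    have ho' : f (C.pt o) ≠ t := ho
    refine propext ?_
    change t ≤ f (C.pt o) ↔ t < f (C.pt o)
    exact ⟨fun h => lt_of_le_of_ne h (Ne.symm ho'), le_of_lt⟩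
  rw [hsup]
  set a := (C.μ {o | t < f (C.pt o)}).toReal with ha
  have hk : (0 : ℝ) < 10000 / 5439 * Real.pi := by positivity
  rcases lt_or_ge l (2 * Real.pi) with hlt | hge
  · obtain ⟨ρ₀, hρ₀, hor⟩ := hor hlt
    rcases hor with hor | hor
    · have h1 := lev58_ev C (by norm_num) (levF58 hγ hC hmin) hf hev hn (l := l) hlt (s1 hlt ρ₀ hρ₀ hor)
      have h2 : min a (C.vol - a) - ε ≤ a - ε := by
        have := min_le_left a (C.vol - a)
        linarith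
      calc 10000 / 5439 * Real.pi * (min a (C.vol - a) - ε) ≤ 10000 / 5439 * Real.pi * (a - ε) :=
            mul_le_mul_of_nonneg_left h2 hk.le
        _ = 5000 / 5439 * (2 * Real.pi * (a - ε)) := by ring
        _ ≤ 5000 / 5439 * (5439 / 5000 * l ^ 2) := mul_le_mul_of_nonneg_left h1 (by norm_num)
        _ = l ^ 2 := by ring
    · have hdn : deriv (lev C fun x => -f x) (-t) = l := by
        have e : (lev C fun x => -f x) = fun r => (∫ o, gn C f o ∂C.μ) - lev C f (-r) := by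
          funext r
          exact lev_neg C hf r
        have h1 : HasDerivAt (fun r => (∫ o, gn C f o ∂C.μ) - lev C f (-r)) (-(l * -1)) (-t) := by
          have h2 : HasDerivAt (lev C f) l (-(-t)) := by
            rw [neg_neg]
            exact d1.hasDerivAt
          exact (h2.comp (-t) (hasDerivAt_neg (-t))).const_sub _
        rw [e, h1.deriv]
        ring
      rw [hdn] at s2
      have hn' : volume {s : ℝ | s ∈ Ioc 0 (2 * Real.pi) ∧ (fun x => -f x) (γ s) = -t} = 0 := by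
        simpa only [neg_inj] using hn
      have h1 := lev58_ev C (by norm_num) (levF58 hγ hC hmin) hfn hevn hn' (l := l) hlt
        (s2 hlt ρ₀ hρ₀ hor)
      have h2 : (C.μ {o | -t < (fun x => -f x) (C.pt o)}).toReal = C.vol - a := by
        have m1 : NullMeasurableSet {o | t < f (C.pt o)} C.μ :=
          nullMeasurableSet_lt aemeasurable_const (C.meas_pt hf)
        have h3 := measure_add_measure_compl₀ m1
        have h4 : C.μ {o | t < f (C.pt o)}ᶜ = C.μ {o | -t < (fun x => -f x) (C.pt o)} := by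
          refine measure_congr ?_
          filter_upwards [compl_mem_ae_iff.2 hm] with o ho
          have ho' : f (C.pt o) ≠ t := ho
          refine propext ?_
          change ¬ (t < f (C.pt o)) ↔ -t < -f (C.pt o)
          rw [neg_lt_neg_iff, not_lt]
          exact ⟨fun h5 => lt_of_le_of_ne h5 ho', le_of_lt⟩
        rw [h4] at h3
        have h5 := congrArg ENNReal.toReal h3
        rw [ENNReal.toReal_add (measure_ne_top _ _) (measure_ne_top _ _)] at h5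
        unfold Calc.vol
        linarith
      rw [h2] at h1
      have h6 : min a (C.vol - a) - ε ≤ C.vol - a - ε := by
        have := min_le_right a (C.vol - a)
        linarith
      calc 10000 / 5439 * Real.pi * (min a (C.vol - a) - ε) ≤
            10000 / 5439 * Real.pi * (C.vol - a - ε) := mul_le_mul_of_nonneg_left h6 hk.le
        _ = 5000 / 5439 * (2 * Real.pi * (C.vol - a - ε)) := by ring
        _ ≤ 5000 / 5439 * (5439 / 5000 * l ^ 2) := mul_le_mul_of_nonneg_left h1 (by norm_num)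
        _ = l ^ 2 := by ring
  · have h1 : min a (C.vol - a) - ε ≤ 21 / 20 * Real.pi := by
      have h2 := min_le_left a (C.vol - a)
      have h3 := min_le_right a (C.vol - a)
      linarith
    calc 10000 / 5439 * Real.pi * (min a (C.vol - a) - ε) ≤
          10000 / 5439 * Real.pi * (21 / 20 * Real.pi) := mul_le_mul_of_nonneg_left h1 hk.le
      _ ≤ (2 * Real.pi) ^ 2 := by nlinarith
      _ ≤ l ^ 2 := pow_le_pow_left₀ (by positivity) hge 2

end Pool.Agent.FPM
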