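import Mathlib
import Pool.Agent.EWD.Defs
import Pool.Agent.EWD.LPA
import Pool.Agent.EWD.RUL
import Pool.Agent.EWD.CRB
import Pool.Agent.EWD.WIN
import Pool.Agent.EWD.SVA
import Pool.Agent.FPM.VZD

/-
SU2A (helper84): zeros of a Lipschitz map into the plane. If the second component is constant and
not zero on the boundary curve, the signs of the zeros add up to zero, so if there is one zero there
are at least two. The number of zeros is bounded by a limit of integrals with absolute values.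
-/

open MeasureTheory Set Filter Topology
open scoped ENNReal NNReal

noncomputable section

namespace Pool.Agent.FPM

open Pool.Agent.EWD

variable {M : Type} [MetricSpace M] {γ : ℝ → M}

private theorem SU2A_int {h : ℝ → ℝ} {K : ℝ≥0} (hh : LipschitzWith K h) {a b c e : ℝ}
    (hab : h a = h b) (he : 0 < e) :
    ∫ t in a..b, c * deriv h t / (h t ^ 2 + e) = 0 := by
  have hs : 0 < √e := Real.sqrt_pos.2 he
  have hF : ∀ x : ℝ, HasDerivAt (fun x => (√e)⁻¹ * Real.arctan (x / √e)) (1 / (x ^ 2 + e)) x := by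
    intro x
    have h1 : HasDerivAt (fun x : ℝ => x / √e) (1 / √e) x := (hasDerivAt_id x).div_const _
    have h2 := (h1.arctan).const_mul (√e)⁻¹
    suffices h8 : (√e)⁻¹ * (1 / (1 + (x / √e) ^ 2) * (1 / √e)) = 1 / (x ^ 2 + e) by
      rw [← h8]
      exact h2
    have h3 : √e * √e = e := Real.mul_self_sqrt he.le
    have h4 : (x / √e) ^ 2 = x ^ 2 / e := by rw [div_pow, Real.sq_sqrt he.le]
    have h5 : x ^ 2 + e ≠ 0 := by positivity
    have h6 : (1 : ℝ) + x ^ 2 / e ≠ 0 := by positivity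
    rw [h4]
    have h7 : (√e)⁻¹ * (1 / (1 + x ^ 2 / e) * (1 / √e)) = 1 / (1 + x ^ 2 / e) * (1 / (√e * √e)) := by
      rw [one_div (√e), one_div (√e * √e), mul_inv]
      ring
    rw [h7, h3]
    field_simp
    ring
  have hl : LipschitzWith (Real.toNNReal (1 / e)) (fun x : ℝ => (√e)⁻¹ * Real.arctan (x / √e)) := by
    refine lipschitzWith_of_nnnorm_deriv_le (fun x => (hF x).differentiableAt) fun x => ?_
    rw [(hF x).deriv, ← NNReal.coe_le_coe, coe_nnnorm, Real.norm_eq_abs,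
      Real.coe_toNNReal _ (by positivity), abs_of_nonneg (by positivity)]
    exact one_div_le_one_div_of_le he (by nlinarith [sq_nonneg x])
  have hc := hl.comp hh
  have hac : AbsolutelyContinuousOnInterval (fun t => (√e)⁻¹ * Real.arctan (h t / √e)) a b :=
    LipschitzOnWith.absolutelyContinuousOnInterval (hc.lipschitzOnWith)
  have h1 := hac.integral_deriv_eq_sub
  rw [hab, sub_self] at h1
  have h2 : ∫ t in a..b, c * deriv h t / (h t ^ 2 + e)
      = ∫ t in a..b, c * deriv (fun t => (√e)⁻¹ * Real.arctan (h t / √e)) t := by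
    refine intervalIntegral.integral_congr_ae ?_
    have h3 : ∀ᵐ t : ℝ, DifferentiableAt ℝ h t := hh.ae_differentiableAt
    filter_upwards [h3] with t ht _
    have h4 := (hF (h t)).comp t ht.hasDerivAt
    have h5 : deriv (fun t => (√e)⁻¹ * Real.arctan (h t / √e)) t = 1 / (h t ^ 2 + e) * deriv h t :=
      h4.deriv
    rw [h5]
    ring
  rw [h2, intervalIntegral.integral_const_mul, h1, mul_zero]

variable [CompactSpace M]

/-- the signs add up to zero -/
theorem Vz.sum_zero (C : Calc M γ) (hγ : Bd γ) {X Y : M → ℝ} (hX : Lip X) (hY : Lip Y) {c : ℝ}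
    (hc : c ≠ 0) (hb : ∀ t, Y (γ t) = c) {Z : Finset M} {s : M → ℝ} (hV : Vz C X Y Z s) :
    ∑ z ∈ Z, s z = 0 := by
  have h1 := hV.lim (fun _ => 1) (lip_const 1)
  have h2 : ∀ ε : ℝ, 0 < ε → ∫ o, (1 : ℝ) *
      (2 * ε ^ 2 / (X (C.pt o) ^ 2 + Y (C.pt o) ^ 2 + ε ^ 2) ^ 2) * C.wed X Y o ∂C.μ = 0 := by
    intro ε hε
    have h3 := stokes_eps C hγ (lip_const (M := M) 1) hX hY hε
    have h4 : ∫ o, (qf X Y (C.pt o) / (qf X Y (C.pt o) + ε ^ 2)) * C.cr (fun _ => 1) X Y o ∂C.μ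
        = 0 := by
      simp only [C.cr_const, mul_zero, integral_zero]
    rw [h4, zero_add] at h3
    rw [h3]
    obtain ⟨L, hL⟩ := hX
    have hlip : LipschitzWith (L * 1) (fun t => X (γ t)) := hL.comp hγ.lip
    have hY0 : ∀ t, deriv (fun s => Y (γ s)) t = 0 := by
      intro t
      have : (fun s => Y (γ s)) = fun _ => c := funext hb
      rw [this]
      exact deriv_const (F := ℝ) t c
    have hper : X (γ 0) = X (γ (2 * Real.pi)) := by
      have := hγ.per 0
      rw [zero_add] at this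
      rw [this]
    have h5 := SU2A_int (c := -c) (e := c ^ 2 + ε ^ 2) hlip hper (by positivity)
    have h6 : ∫ t in (0 : ℝ)..(2 * Real.pi), (1 : ℝ) *
        ((X (γ t) * deriv (fun s => Y (γ s)) t - Y (γ t) * deriv (fun s => X (γ s)) t) /
          (X (γ t) ^ 2 + Y (γ t) ^ 2 + ε ^ 2)) = 0 := by
      have h7 : ∀ t : ℝ, (1 : ℝ) *
          ((X (γ t) * deriv (fun s => Y (γ s)) t - Y (γ t) * deriv (fun s => X (γ s)) t) /
          (X (γ t) ^ 2 + Y (γ t) ^ 2 + ε ^ 2))
          = -c * deriv (fun t => X (γ t)) t / (X (γ t) ^ 2 + (c ^ 2 + ε ^ 2)) := by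
        intro t
        rw [hY0, hb, mul_zero, zero_sub, one_mul, add_assoc, neg_mul]
      simp only [h7]
      exact h5
    rw [h6, mul_zero]
  have h3 : Tendsto (fun ε : ℝ => ∫ o, (fun _ => (1 : ℝ)) (C.pt o) *
      (2 * ε ^ 2 / (X (C.pt o) ^ 2 + Y (C.pt o) ^ 2 + ε ^ 2) ^ 2) * C.wed X Y o ∂C.μ)
      (𝓝[>] 0) (𝓝 0) := by
    refine tendsto_const_nhds.congr' ?_
    filter_upwards [self_mem_nhdsWithin] with ε hε
    exact (h2 ε hε).symm
  have h4 := tendsto_nhds_unique h1 h3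
  have h5 : ∑ z ∈ Z, s z * (fun _ => (1 : ℝ)) z = ∑ z ∈ Z, s z :=
    Finset.sum_congr rfl fun z _ => mul_one _
  rw [h5] at h4
  have hpi := Real.pi_pos
  have : (2 * Real.pi) ≠ 0 := by positivity
  exact (mul_eq_zero.1 h4).resolve_left this

omit [MetricSpace M] [CompactSpace M] in
private theorem SU2A_card {Z : Finset M} {s : M → ℝ} (hs : ∀ z ∈ Z, s z = 1 ∨ s z = -1)
    (h0 : ∑ z ∈ Z, s z = 0) (hne : Z.Nonempty) : 2 ≤ Z.card := by
  by_contra h
  have h1 : Z.card = 1 := by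
    have := hne.card_pos
    omega
  obtain ⟨z, rfl⟩ := Finset.card_eq_one.1 h1
  rw [Finset.sum_singleton] at h0
  rcases hs z (Finset.mem_singleton_self z) with h2 | h2 <;> rw [h2] at h0 <;> norm_num at h0

theorem Vz.two_le (C : Calc M γ) (hγ : Bd γ) {X Y : M → ℝ} (hX : Lip X) (hY : Lip Y) {c : ℝ}
    (hc : c ≠ 0) (hb : ∀ t, Y (γ t) = c) {Z : Finset M} {s : M → ℝ} (hV : Vz C X Y Z s)
    {z : M} (hz : X z = 0 ∧ Y z = 0) : 2 ≤ Z.card :=
  SU2A_card hV.pm (hV.sum_zero C hγ hX hY hc hb) ⟨z, (hV.zero z).2 hz⟩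

omit [CompactSpace M] in
private theorem SU2A_ext (Z : Finset M) {s : M → ℝ} (hs : ∀ z ∈ Z, s z = 1 ∨ s z = -1) :
    ∃ ψ : M → ℝ, Lip ψ ∧ (∀ x, |ψ x| ≤ 1) ∧ ∀ z ∈ Z, ψ z = s z := by
  classical
  set K : ℝ := ∑ z ∈ Z, ∑ z' ∈ Z, |s z - s z'| / dist z z' with hK
  have hnn : ∀ z z' : M, 0 ≤ |s z - s z'| / dist z z' := fun z z' => div_nonneg (abs_nonneg _) dist_nonneg
  have hK0 : 0 ≤ K := Finset.sum_nonneg fun z _ => Finset.sum_nonneg fun z' _ => hnn z z'
  have h1 : ∀ z ∈ Z, ∀ z' ∈ Z, |s z - s z'| ≤ K * dist z z' := by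
    intro z hz z' hz'
    rcases eq_or_ne z z' with h | h
    · rw [h]; simp
    · have hd : 0 < dist z z' := dist_pos.2 h
      rw [← div_le_iff₀ hd]
      calc |s z - s z'| / dist z z' ≤ ∑ z' ∈ Z, |s z - s z'| / dist z z' :=
            Finset.single_le_sum (f := fun z' => |s z - s z'| / dist z z') (fun i _ => hnn z i) hz'
        _ ≤ K := Finset.single_le_sum (f := fun z => ∑ z' ∈ Z, |s z - s z'| / dist z z')
            (fun i _ => Finset.sum_nonneg fun j _ => hnn i j) hz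
  have h2 : LipschitzOnWith ⟨K, hK0⟩ s (Z : Set M) := by
    refine LipschitzOnWith.of_dist_le_mul fun x hx y hy => ?_
    rw [Real.dist_eq]
    exact h1 x hx y hy
  obtain ⟨g, hg, hgs⟩ := h2.extend_real
  refine ⟨fun x => max (-1) (min 1 (g x)), ?_, ?_, ?_⟩
  · exact ⟨_, (hg.const_min 1).const_max (-1)⟩
  · intro x
    rw [abs_le]
    exact ⟨le_max_left _ _, max_le (by norm_num) (min_le_left _ _)⟩
  · intro z hz
    have h3 : g z = s z := (hgs hz).symm
    simp only [h3]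
    rcases hs z hz with h | h <;> rw [h] <;> norm_num

theorem SU2A_eps : Tendsto (fun k : ℕ => (1 / (k + 1) : ℝ)) atTop (𝓝[>] 0) := by
  rw [tendsto_nhdsWithin_iff]
  refine ⟨tendsto_one_div_add_atTop_nhds_zero_nat, Eventually.of_forall fun k => ?_⟩
  simp only [mem_Ioi]
  positivity

omit [CompactSpace M] in
/-- the number of zeros is bounded by the limit of the integral with absolute values -/
theorem Vz.card_le (C : Calc M γ) {X Y : M → ℝ} {Z : Finset M} {s : M → ℝ}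
    (hV : Vz C X Y Z s) :
    ENNReal.ofReal (2 * Real.pi * Z.card) ≤ liminf (fun k : ℕ => ∫⁻ o, ENNReal.ofReal
        ((2 * (1 / (k + 1) : ℝ) ^ 2 /
          (X (C.pt o) ^ 2 + Y (C.pt o) ^ 2 + (1 / (k + 1) : ℝ) ^ 2) ^ 2) *
        |C.wed X Y o|) ∂C.μ) atTop := by
  obtain ⟨ψ, hψ, hψ1, hψs⟩ := SU2A_ext Z hV.pm
  have h1 := (hV.lim ψ hψ).comp SU2A_eps
  have h2 : (∑ z ∈ Z, s z * ψ z) = Z.card := by
    have : ∀ z ∈ Z, s z * ψ z = 1 := by
      intro z hz
      rw [hψs z hz]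
      rcases hV.pm z hz with h | h <;> rw [h] <;> norm_num
    rw [Finset.sum_congr rfl this]
    simp
  rw [h2] at h1
  have h3 := ENNReal.tendsto_ofReal h1
  rw [← h3.liminf_eq]
  refine liminf_le_liminf (Eventually.of_forall fun k => ?_)
  simp only [Function.comp_apply]
  set ε : ℝ := (1 / (k + 1) : ℝ) with hε
  refine (ENNReal.ofReal_le_ofReal (le_abs_self _)).trans ?_
  rw [← Real.norm_eq_abs, ofReal_norm]
  refine (enorm_integral_le_lintegral_enorm _).trans ?_
  refine lintegral_mono fun o => ?_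
  rw [← ofReal_norm, Real.norm_eq_abs, abs_mul, abs_mul]
  refine ENNReal.ofReal_le_ofReal ?_
  have h5 : 0 ≤ 2 * ε ^ 2 / (X (C.pt o) ^ 2 + Y (C.pt o) ^ 2 + ε ^ 2) ^ 2 := by positivity
  rw [abs_of_nonneg h5]
  have h6 := mul_le_mul_of_nonneg_right (hψ1 (C.pt o)) h5
  rw [one_mul] at h6
  exact mul_le_mul_of_nonneg_right h6 (abs_nonneg _)

end Pool.Agent.FPM
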