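import Mathlib

/-
SU2B (helper84): the integral of the kernel `2 ε² / (|p - v|² + ε²)²` over a horizontal strip.
-/

open MeasureTheory Set Filter Topology
open scoped ENNReal NNReal

noncomputable section

namespace Pool.Agent.FPM

/-- the kernel -/
def ker2 (ε : ℝ) (p v : ℝ × ℝ) : ℝ := 2 * ε ^ 2 / ((p.1 - v.1) ^ 2 + (p.2 - v.2) ^ 2 + ε ^ 2) ^ 2

/-- `x / √(x² + ε²)` -/
def sgn2 (ε x : ℝ) : ℝ := x / √(x ^ 2 + ε ^ 2)

theorem abs_sgn2_le (ε x : ℝ) : |sgn2 ε x| ≤ 1 := by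
  unfold sgn2
  rw [abs_div, abs_of_nonneg (Real.sqrt_nonneg _)]
  refine div_le_one_of_le₀ ?_ (Real.sqrt_nonneg _)
  rw [← Real.sqrt_sq_eq_abs]
  exact Real.sqrt_le_sqrt (by nlinarith [sq_nonneg ε])

theorem tendsto_sgn2 (x : ℝ) : Tendsto (fun ε : ℝ => sgn2 ε x) (𝓝[>] 0) (𝓝 (x / |x|)) := by
  rcases eq_or_ne x 0 with h | h
  · subst h
    unfold sgn2
    simp
  · have h0 : √(x ^ 2 + 0 ^ 2) ≠ 0 := by
      rw [zero_pow two_ne_zero, add_zero, Real.sqrt_sq_eq_abs]
      exact abs_ne_zero.2 h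
    have h1 : ContinuousAt (fun ε : ℝ => sgn2 ε x) 0 := by
      unfold sgn2
      refine ContinuousAt.div continuousAt_const ?_ h0
      fun_prop
    have h2 : sgn2 0 x = x / |x| := by
      unfold sgn2
      rw [zero_pow two_ne_zero, add_zero, Real.sqrt_sq_eq_abs]
    rw [← h2]
    exact h1.tendsto.mono_left nhdsWithin_le_nhds

private theorem SU2B_der {e : ℝ} (he : 0 < e) (u : ℝ) :
    HasDerivAt (fun u => u / (2 * e * (u ^ 2 + e)) + Real.arctan (u / √e) / (2 * e * √e))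
      (1 / (u ^ 2 + e) ^ 2) u := by
  have hs : 0 < √e := Real.sqrt_pos.2 he
  have h0 : 0 < u ^ 2 + e := by positivity
  have h1 : HasDerivAt (fun u : ℝ => 2 * e * (u ^ 2 + e)) (2 * e * (2 * u)) u := by
    have := ((hasDerivAt_pow 2 u).add_const e).const_mul (2 * e)
    simpa using this
  have h2 := (hasDerivAt_id u).div h1 (by positivity)
  have h3 : HasDerivAt (fun x : ℝ => x / √e) (1 / √e) u := (hasDerivAt_id u).div_const _
  have h4 := (h3.arctan).div_const (2 * e * √e)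
  have h5 := h2.add h4
  have h6 : (u / √e) ^ 2 = u ^ 2 / e := by rw [div_pow, Real.sq_sqrt he.le]
  have h7 : √e * √e = e := Real.mul_self_sqrt he.le
  have h8 : (1 * (2 * e * (u ^ 2 + e)) - id u * (2 * e * (2 * u))) / (2 * e * (u ^ 2 + e)) ^ 2
      + 1 / (1 + (u / √e) ^ 2) * (1 / √e) / (2 * e * √e) = 1 / (u ^ 2 + e) ^ 2 := by
    rw [h6]
    have h9 : 1 / (1 + u ^ 2 / e) * (1 / √e) / (2 * e * √e)
        = 1 / (1 + u ^ 2 / e) / (2 * e * (√e * √e)) := by
      field_simp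
    rw [h9, h7]
    have h10 : (1 : ℝ) + u ^ 2 / e ≠ 0 := by positivity
    have h11 : u ^ 2 + e ≠ 0 := h0.ne'
    simp only [id]
    field_simp
    ring
  rw [← h8]
  exact h5

private theorem SU2B_bound {e : ℝ} (he : 0 < e) (u : ℝ) :
    1 / (u ^ 2 + e) ^ 2 ≤ (1 / (e * min 1 e)) * (1 + u ^ 2)⁻¹ := by
  have hm : 0 < min 1 e := lt_min one_pos he
  have h1 : min 1 e * (1 + u ^ 2) ≤ u ^ 2 + e := by
    have h2 : min 1 e ≤ 1 := min_le_left _ _
    have h3 : min 1 e ≤ e := min_le_right _ _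
    nlinarith [sq_nonneg u]
  have h4 : e * (min 1 e * (1 + u ^ 2)) ≤ (u ^ 2 + e) ^ 2 := by
    have h5 : e ≤ u ^ 2 + e := by nlinarith [sq_nonneg u]
    have h6 : e * (min 1 e * (1 + u ^ 2)) ≤ (u ^ 2 + e) * (u ^ 2 + e) :=
      mul_le_mul h5 h1 (by positivity) (by positivity)
    calc e * (min 1 e * (1 + u ^ 2)) ≤ (u ^ 2 + e) * (u ^ 2 + e) := h6
      _ = (u ^ 2 + e) ^ 2 := by ring
  calc 1 / (u ^ 2 + e) ^ 2 ≤ 1 / (e * (min 1 e * (1 + u ^ 2))) :=
        one_div_le_one_div_of_le (by positivity) h4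
    _ = _ := by
        rw [← mul_assoc, one_div, one_div, mul_inv]

private theorem SU2B_integrable {e : ℝ} (he : 0 < e) :
    Integrable (fun u : ℝ => 1 / (u ^ 2 + e) ^ 2) := by
  refine (integrable_inv_one_add_sq.const_mul (1 / (e * min 1 e))).mono' ?_ ?_
  · refine Continuous.aestronglyMeasurable ?_
    refine continuous_const.div (by fun_prop) fun u => ?_
    positivity
  · refine Eventually.of_forall fun u => ?_
    rw [Real.norm_eq_abs, abs_of_nonneg (by positivity)]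
    exact SU2B_bound he u

private theorem SU2B_lim {e : ℝ} (he : 0 < e) :
    Tendsto (fun u : ℝ => u / (2 * e * (u ^ 2 + e))) atTop (𝓝 0) ∧
    Tendsto (fun u : ℝ => u / (2 * e * (u ^ 2 + e))) atBot (𝓝 0) := by
  have h1 : ∀ u : ℝ, |u / (2 * e * (u ^ 2 + e))| ≤ (1 / (2 * e)) * |u|⁻¹ := by
    intro u
    rcases eq_or_ne u 0 with h | h
    · subst h
      simp
    · have h0 : 0 < |u| := abs_pos.2 h
      rw [abs_div, abs_of_pos (by positivity : 0 < 2 * e * (u ^ 2 + e)), div_le_iff₀ (by positivity)]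
      have h2 : 1 / (2 * e) * |u|⁻¹ * (2 * e * (u ^ 2 + e)) = |u|⁻¹ * (u ^ 2 + e) := by
        field_simp
      rw [h2, ← sq_abs u]
      have h3 : |u|⁻¹ * (|u| ^ 2 + e) = |u| + |u|⁻¹ * e := by
        field_simp
      rw [h3]
      have : 0 ≤ |u|⁻¹ * e := by positivity
      linarith
  constructor
  · refine squeeze_zero_norm (a := fun u : ℝ => (1 / (2 * e)) * |u|⁻¹) (fun u => by
      rw [Real.norm_eq_abs]; exact h1 u) ?_
    have h2 : Tendsto (fun u : ℝ => |u|⁻¹) atTop (𝓝 0) :=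
      tendsto_inv_atTop_zero.comp tendsto_abs_atTop_atTop
    simpa using h2.const_mul (1 / (2 * e))
  · refine squeeze_zero_norm (a := fun u : ℝ => (1 / (2 * e)) * |u|⁻¹) (fun u => by
      rw [Real.norm_eq_abs]; exact h1 u) ?_
    have h2 : Tendsto (fun u : ℝ => |u|⁻¹) atBot (𝓝 0) :=
      tendsto_inv_atTop_zero.comp tendsto_abs_atBot_atTop
    simpa using h2.const_mul (1 / (2 * e))

private theorem SU2B_one {e : ℝ} (he : 0 < e) :
    ∫ u : ℝ, 1 / (u ^ 2 + e) ^ 2 = Real.pi / (2 * e * √e) := by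
  have hs : 0 < √e := Real.sqrt_pos.2 he
  have h1 : Tendsto (fun u : ℝ => Real.arctan (u / √e)) atTop (𝓝 (Real.pi / 2)) :=
    (tendsto_nhds_of_tendsto_nhdsWithin Real.tendsto_arctan_atTop).comp
      (tendsto_id.atTop_div_const hs)
  have h2 : Tendsto (fun u : ℝ => Real.arctan (u / √e)) atBot (𝓝 (-(Real.pi / 2))) :=
    (tendsto_nhds_of_tendsto_nhdsWithin Real.tendsto_arctan_atBot).comp
      (tendsto_id.atBot_div_const hs)
  have h3 := (SU2B_lim he).1.add (h1.div_const (2 * e * √e))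
  have h4 := (SU2B_lim he).2.add (h2.div_const (2 * e * √e))
  rw [integral_of_hasDerivAt_of_tendsto (SU2B_der he) (SU2B_integrable he) h4 h3]
  ring

private theorem SU2B_strip1 {ε : ℝ} (hε : 0 < ε) (x y v : ℝ) :
    ∫⁻ u : ℝ, ENNReal.ofReal (ker2 ε (x, y) (u, v))
      = ENNReal.ofReal (Real.pi * ε ^ 2 / (((v - y) ^ 2 + ε ^ 2) * √((v - y) ^ 2 + ε ^ 2))) := by
  set e : ℝ := (v - y) ^ 2 + ε ^ 2 with he'
  have he : 0 < e := by positivity
  have h1 : ∀ u : ℝ, ker2 ε (x, y) (u, v) = 2 * ε ^ 2 * (1 / ((u - x) ^ 2 + e) ^ 2) := by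
    intro u
    unfold ker2
    simp only
    have : (x - u) ^ 2 + (y - v) ^ 2 + ε ^ 2 = (u - x) ^ 2 + e := by rw [he']; ring
    rw [this]
    ring
  simp only [h1]
  rw [← ofReal_integral_eq_lintegral_ofReal]
  · rw [integral_const_mul, integral_sub_right_eq_self (fun u : ℝ => 1 / (u ^ 2 + e) ^ 2) x,
      SU2B_one he]
    congr 1
    have hs : 0 < √e := Real.sqrt_pos.2 he
    field_simp
  · exact ((SU2B_integrable he).comp_sub_right x).const_mul _
  · refine Eventually.of_forall fun u => ?_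
    simp only [Pi.zero_apply]
    positivity

private theorem SU2B_der2 {ε : ℝ} (hε : 0 < ε) (y v : ℝ) :
    HasDerivAt (fun v => Real.pi * sgn2 ε (v - y))
      (Real.pi * ε ^ 2 / (((v - y) ^ 2 + ε ^ 2) * √((v - y) ^ 2 + ε ^ 2))) v := by
  have he : 0 < (v - y) ^ 2 + ε ^ 2 := by positivity
  have hs : 0 < √((v - y) ^ 2 + ε ^ 2) := Real.sqrt_pos.2 he
  have h1 : HasDerivAt (fun v : ℝ => v - y) 1 v := (hasDerivAt_id v).sub_const y
  have h2 : HasDerivAt (fun v : ℝ => (v - y) ^ 2 + ε ^ 2) (2 * (v - y)) v := by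
    have := (h1.pow 2).add_const (ε ^ 2)
    simpa using this
  have h3 := h2.sqrt he.ne'
  have h4 := (h1.div h3 hs.ne').const_mul Real.pi
  have h5 : Real.pi * ((1 * √((v - y) ^ 2 + ε ^ 2) - (v - y) * (2 * (v - y) /
      (2 * √((v - y) ^ 2 + ε ^ 2)))) / √((v - y) ^ 2 + ε ^ 2) ^ 2)
      = Real.pi * ε ^ 2 / (((v - y) ^ 2 + ε ^ 2) * √((v - y) ^ 2 + ε ^ 2)) := by
    rw [Real.sq_sqrt he.le]
    have h6 : 1 * √((v - y) ^ 2 + ε ^ 2) - (v - y) * (2 * (v - y) / (2 * √((v - y) ^ 2 + ε ^ 2)))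
        = ε ^ 2 / √((v - y) ^ 2 + ε ^ 2) := by
      rw [eq_div_iff hs.ne']
      have h7 : (v - y) * (2 * (v - y) / (2 * √((v - y) ^ 2 + ε ^ 2))) * √((v - y) ^ 2 + ε ^ 2)
          = (v - y) ^ 2 := by
        field_simp
      rw [sub_mul, h7, one_mul, Real.mul_self_sqrt he.le]
      ring
    rw [h6]
    field_simp
  rw [← h5]
  exact h4

/-- the integral of the kernel over a strip -/
theorem lintegral_ker2 {ε : ℝ} (hε : 0 < ε) (p : ℝ × ℝ) {a b : ℝ} (hab : a < b) :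
    ∫⁻ v in univ ×ˢ Ioo a b, ENNReal.ofReal (ker2 ε p v)
      = ENNReal.ofReal (Real.pi * (sgn2 ε (b - p.2) - sgn2 ε (a - p.2))) := by
  obtain ⟨x, y⟩ := p
  have hm : Measurable fun v : ℝ × ℝ => ENNReal.ofReal (ker2 ε (x, y) v) := by
    unfold ker2
    fun_prop
  have h0 : (volume : Measure (ℝ × ℝ)).restrict (univ ×ˢ Ioo a b)
      = (volume.restrict univ).prod (volume.restrict (Ioo a b)) := by
    rw [Measure.prod_restrict]
    rfl
  rw [h0, lintegral_prod_symm' _ hm, Measure.restrict_univ]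
  simp only [SU2B_strip1 hε]
  have hc : Continuous fun v : ℝ => Real.pi * ε ^ 2 /
      (((v - y) ^ 2 + ε ^ 2) * √((v - y) ^ 2 + ε ^ 2)) := by
    refine continuous_const.div (by fun_prop) fun v => ?_
    have : 0 < (v - y) ^ 2 + ε ^ 2 := by positivity
    have := Real.sqrt_pos.2 this
    positivity
  have hi : IntervalIntegrable (fun v : ℝ => Real.pi * ε ^ 2 /
      (((v - y) ^ 2 + ε ^ 2) * √((v - y) ^ 2 + ε ^ 2))) volume a b := hc.intervalIntegrable a b
  rw [← ofReal_integral_eq_lintegral_ofReal]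
  · congr 1
    have h1 := intervalIntegral.integral_eq_sub_of_hasDerivAt (a := a) (b := b)
      (fun v _ => SU2B_der2 hε y v) hi
    rw [intervalIntegral.integral_of_le hab.le, integral_Ioc_eq_integral_Ioo] at h1
    rw [h1]
    ring
  · have := (intervalIntegrable_iff_integrableOn_Ioo_of_le hab.le).1 hi
    exact this
  · refine Eventually.of_forall fun v => ?_
    simp only [Pi.zero_apply]
    have : 0 < (v - y) ^ 2 + ε ^ 2 := by positivity
    have := Real.sqrt_pos.2 this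
    positivity

end Pool.Agent.FPM
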